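import Mathlib

/-!
# Abelian closures of binary words: definitions and rotation words (MP_1706f7_co, MP_fa9958_co)
-/

namespace Pool.Agent.Q161.AbClos

open Finset Filter Topology

/-- The number of ones in the factor `x_i ⋯ x_{i+n-1}`. -/
def ones (x : ℕ → Bool) (i n : ℕ) : ℕ := ∑ j ∈ range n, if x (i + j) = true then 1 else 0

/-- The set of factors of length `n`. -/
def Factors (x : ℕ → Bool) (n : ℕ) : Set (Fin n → Bool) :=
  {w | ∃ i : ℕ, ∀ j : Fin n, w j = x (i + j)}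

/-- Every factor occurs infinitely often with bounded gaps. -/
def UniformlyRecurrent (x : ℕ → Bool) : Prop :=
  ∀ i n : ℕ, ∃ B : ℕ, ∀ K : ℕ, ∃ m : ℕ, K ≤ m ∧ m ≤ K + B ∧ ∀ j < n, x (m + j) = x (i + j)

/-- Not eventually periodic. -/
def Aperiodic (x : ℕ → Bool) : Prop :=
  ¬ ∃ N p : ℕ, 0 < p ∧ ∀ i, N ≤ i → x (i + p) = x i

/-- Sturmian words: aperiodic with `n + 1` factors of each length `n`. -/
def Sturmian (x : ℕ → Bool) : Prop :=
  Aperiodic x ∧ ∀ n : ℕ, (Factors x n).ncard = n + 1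

/-- The abelian closure: every factor of `y` has the same length and the same number of ones as
some factor of `x`. -/
def AbClosure (x : ℕ → Bool) : Set (ℕ → Bool) :=
  {y | ∀ i n : ℕ, ∃ k : ℕ, ones y i n = ones x k n}

/-- The blocks of length `n` occurring in some element of `X`. -/
def Blocks (X : Set (ℕ → Bool)) (n : ℕ) : Set (Fin n → Bool) :=
  {w | ∃ y ∈ X, ∃ i : ℕ, ∀ j : Fin n, w j = y (i + j)}

/-! ### Rotations -/

/-- A multiple of an irrational number with small positive fractional part. -/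
theorem exists_small_fract {β : ℝ} (hβ : Irrational β) {ε : ℝ} (hε : 0 < ε) :
    ∃ q : ℕ, 0 < q ∧ 0 < Int.fract ((q : ℝ) * β) ∧ Int.fract ((q : ℝ) * β) < ε := by
  obtain ⟨n, hn⟩ := exists_nat_gt (1 / min ε (1 / 2))
  have hmin : 0 < min ε (1 / 2) := lt_min hε (by norm_num)
  have hn0 : 0 < n := by
    have : (0 : ℝ) < n := lt_trans (by positivity) hn
    exact_mod_cast this
  obtain ⟨j, k, hk0, hkn, hjk⟩ := Real.exists_int_int_abs_mul_sub_le β hn0
  have hsmall : |(k : ℝ) * β - j| < min ε (1 / 2) := by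
    refine lt_of_le_of_lt hjk ?_
    rw [div_lt_iff₀ (by positivity)]
    rw [div_lt_iff₀ hmin] at hn
    nlinarith
  obtain ⟨k', rfl⟩ : ∃ k' : ℕ, k = (k' : ℤ) := ⟨k.toNat, by omega⟩
  have hk' : 0 < k' := by omega
  have hne : ∀ q : ℕ, 0 < q → ∀ z : ℤ, (q : ℝ) * β ≠ z := by
    intro q hq z h
    have h1 : Irrational ((q : ℝ) * β) := hβ.natCast_mul (by omega)
    exact h1 ⟨(z : ℚ), by rw [h]; push_cast; rfl⟩
  rw [Int.cast_natCast] at hsmall
  rcases lt_trichotomy ((k' : ℝ) * β - j) 0 with h | h | h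
  · -- negative side: take a multiple
    set η : ℝ := j - (k' : ℝ) * β with hη
    have hη0 : 0 < η := by rw [hη]; linarith
    have hη1 : η < min ε (1 / 2) := by
      rw [abs_of_neg h] at hsmall
      rw [hη]; linarith
    set M : ℕ := ⌊1 / η⌋₊ with hM
    have hM1 : (M : ℝ) ≤ 1 / η := Nat.floor_le (by positivity)
    have hM2 : 1 / η < M + 1 := Nat.lt_floor_add_one _
    have hη2 : η < 1 / 2 := lt_of_lt_of_le hη1 (min_le_right _ _)
    have hη3 : η < ε := lt_of_lt_of_le hη1 (min_le_left _ _)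
    rw [le_div_iff₀ hη0] at hM1
    rw [div_lt_iff₀ hη0] at hM2
    have hMpos : 0 < M := by
      rcases Nat.eq_zero_or_pos M with h0 | h0
      · rw [h0] at hM2
        push_cast at hM2
        linarith
      · exact h0
    have hval : ((M * k' : ℕ) : ℝ) * β = (M : ℝ) * j - M * η := by
      push_cast
      rw [hη]
      ring
    have hlt : (M : ℝ) * η ≠ 1 := by
      intro h1
      apply hne (M * k') (Nat.mul_pos hMpos hk') (M * j - 1)
      rw [hval, h1]
      push_cast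
      ring
    have hfr : Int.fract (((M * k' : ℕ) : ℝ) * β) = 1 - M * η := by
      rw [Int.fract_eq_iff]
      refine ⟨by linarith, by nlinarith, ⟨M * j - 1, ?_⟩⟩
      rw [hval]
      push_cast
      ring
    refine ⟨M * k', Nat.mul_pos hMpos hk', ?_, ?_⟩
    · rw [hfr]
      have := lt_of_le_of_ne hM1 hlt
      linarith
    · rw [hfr]
      linarith
  · exact absurd (by linarith) (hne k' hk' j)
  · refine ⟨k', hk', ?_, ?_⟩
    · have hfr : Int.fract ((k' : ℝ) * β) = (k' : ℝ) * β - j := by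
        rw [Int.fract_eq_iff]
        rw [abs_of_pos h] at hsmall
        have := lt_of_lt_of_le hsmall (min_le_right _ _)
        exact ⟨h.le, by linarith, ⟨j, by ring⟩⟩
      rw [hfr]
      exact h
    · have hfr : Int.fract ((k' : ℝ) * β) = (k' : ℝ) * β - j := by
        rw [Int.fract_eq_iff]
        rw [abs_of_pos h] at hsmall
        have := lt_of_lt_of_le hsmall (min_le_right _ _)
        exact ⟨h.le, by linarith, ⟨j, by ring⟩⟩
      rw [hfr]
      rw [abs_of_pos h] at hsmall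
      exact lt_of_lt_of_le hsmall (min_le_left _ _)

/-- Return times of an irrational rotation to an interval have bounded gaps. -/
theorem return_times {β : ℝ} (hβ : Irrational β) {c ε : ℝ} (hc : 0 ≤ c) (hε : 0 < ε)
    (hcε : c + ε ≤ 1) :
    ∃ B : ℕ, ∀ K : ℕ, ∃ a : ℕ, K ≤ a ∧ a ≤ K + B ∧
      c ≤ Int.fract ((a : ℝ) * β) ∧ Int.fract ((a : ℝ) * β) < c + ε := by
  obtain ⟨q, hq, hδ0, hδε⟩ := exists_small_fract hβ hε
  set δ := Int.fract ((q : ℝ) * β) with hδ
  refine ⟨q * (⌈2 / δ⌉₊ + 1), fun K => ?_⟩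
  set f := Int.fract ((K : ℝ) * β) with hf
  have hf0 : 0 ≤ f := Int.fract_nonneg _
  have hf1 : f < 1 := Int.fract_lt_one _
  set t := ⌈(c + 1 - f) / δ⌉₊ with ht
  have ht1 : (c + 1 - f) / δ ≤ t := Nat.le_ceil _
  have ht2 : (t : ℝ) < (c + 1 - f) / δ + 1 := Nat.ceil_lt_add_one (by
    apply div_nonneg _ hδ0.le
    linarith)
  rw [div_le_iff₀ hδ0] at ht1
  have ht3 : (t : ℝ) * δ < c + 1 - f + δ := by
    have : (t : ℝ) * δ < ((c + 1 - f) / δ + 1) * δ := by
      apply mul_lt_mul_of_pos_right ht2 hδ0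
    rw [add_mul, div_mul_cancel₀ _ hδ0.ne'] at this
    linarith
  have hval : ((K + t * q : ℕ) : ℝ) * β = (⌊(K : ℝ) * β⌋ + t * ⌊(q : ℝ) * β⌋ + 1 : ℤ) +
      (f + t * δ - 1) := by
    have h1 : (K : ℝ) * β = ⌊(K : ℝ) * β⌋ + f := (Int.floor_add_fract _).symm
    have h2 : (q : ℝ) * β = ⌊(q : ℝ) * β⌋ + δ := (Int.floor_add_fract _).symm
    push_cast
    rw [add_mul, mul_assoc]
    nlinarith [h1, h2, congrArg (fun z => (t : ℝ) * z) h2]
  have hfr : Int.fract (((K + t * q : ℕ) : ℝ) * β) = f + t * δ - 1 := by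
    rw [Int.fract_eq_iff]
    refine ⟨by linarith, by linarith, ⟨_, by rw [hval]; ring⟩⟩
  refine ⟨K + t * q, Nat.le_add_right _ _, ?_, ?_, ?_⟩
  · have ht4 : t ≤ ⌈2 / δ⌉₊ + 1 := by
      have : (c + 1 - f) / δ ≤ 2 / δ := by
        apply div_le_div_of_nonneg_right _ hδ0.le
        linarith
      have h5 := Nat.ceil_le_ceil this
      omega
    have : t * q ≤ q * (⌈2 / δ⌉₊ + 1) := by
      rw [mul_comm]
      exact Nat.mul_le_mul_left q ht4
    omega
  · rw [hfr]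
    linarith
  · rw [hfr]
    linarith

/-- Occurrences of floor patterns have bounded gaps. -/
theorem floor_recurrent {β : ℝ} (hβ : Irrational β) (b n : ℕ) :
    ∃ B : ℕ, ∀ K : ℕ, ∃ a : ℕ, K ≤ a ∧ a ≤ K + B ∧
      ∀ t ≤ n, ⌊((a + t : ℕ) : ℝ) * β⌋ - ⌊(a : ℝ) * β⌋ =
        ⌊((b + t : ℕ) : ℝ) * β⌋ - ⌊(b : ℝ) * β⌋ := by
  -- the distance to the next integer
  obtain ⟨ε, hε0, hε⟩ : ∃ ε : ℝ, 0 < ε ∧
      ∀ t ≤ n, Int.fract (((b + t : ℕ) : ℝ) * β) + ε ≤ 1 := by
    obtain ⟨t0, ht0, hmax⟩ := Finset.exists_max_image (range (n + 1))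
      (fun t => Int.fract (((b + t : ℕ) : ℝ) * β)) ⟨0, by simp⟩
    refine ⟨1 - Int.fract (((b + t0 : ℕ) : ℝ) * β), ?_, ?_⟩
    · have := Int.fract_lt_one (((b + t0 : ℕ) : ℝ) * β)
      linarith
    · intro t ht
      have := hmax t (mem_range.2 (by omega))
      linarith
  obtain ⟨B, hB⟩ := return_times hβ (c := Int.fract ((b : ℝ) * β)) (Int.fract_nonneg _) hε0
    (by have := hε 0 (Nat.zero_le _); simpa using this)
  refine ⟨B, fun K => ?_⟩
  obtain ⟨a, h1, h2, h3, h4⟩ := hB K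
  refine ⟨a, h1, h2, fun t ht => ?_⟩
  set η := Int.fract ((a : ℝ) * β) - Int.fract ((b : ℝ) * β) with hη
  have e1 : (a : ℝ) * β = ⌊(a : ℝ) * β⌋ + Int.fract ((a : ℝ) * β) :=
    (Int.floor_add_fract _).symm
  have e2 : (b : ℝ) * β = ⌊(b : ℝ) * β⌋ + Int.fract ((b : ℝ) * β) :=
    (Int.floor_add_fract _).symm
  have e3 : ((b + t : ℕ) : ℝ) * β = ⌊((b + t : ℕ) : ℝ) * β⌋ +
      Int.fract (((b + t : ℕ) : ℝ) * β) := (Int.floor_add_fract _).symm
  have key : ⌊((a + t : ℕ) : ℝ) * β⌋ =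
      ⌊(a : ℝ) * β⌋ - ⌊(b : ℝ) * β⌋ + ⌊((b + t : ℕ) : ℝ) * β⌋ := by
    rw [Int.floor_eq_iff]
    have h5 := hε t ht
    have h6 := Int.fract_nonneg (((b + t : ℕ) : ℝ) * β)
    push_cast at *
    constructor
    · nlinarith
    · nlinarith
  rw [key]
  ring

end Pool.Agent.Q161.AbClos
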