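import Pool.Agent.Q161.AbClosUnb

/-!
# Abelian closures of binary words: bounded discrepancy (MP_fa9958_co)
-/

namespace Pool.Agent.Q161.AbClos

open Finset Filter Topology

/-- The discrepancy of the prefixes. -/
noncomputable def disc (x : ℕ → Bool) (α : ℝ) (i : ℕ) : ℝ := (ones x 0 i : ℝ) - α * i

theorem disc_window (x : ℕ → Bool) (α : ℝ) (i n : ℕ) :
    (ones x i n : ℝ) - α * n = disc x α (i + n) - disc x α i := by
  have h := ones_add x 0 i n
  rw [zero_add] at h
  unfold disc
  rw [h]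
  push_cast
  ring

theorem disc_zero (x : ℕ → Bool) (α : ℝ) : disc x α 0 = 0 := by
  simp [disc, ones_zero]

theorem disc_succ (x : ℕ → Bool) (α : ℝ) (i : ℕ) :
    disc x α (i + 1) = disc x α i + (if x i = true then 1 else 0) - α := by
  have h := ones_succ x 0 i
  rw [zero_add] at h
  unfold disc
  rw [h]
  push_cast
  split_ifs <;> ring

theorem disc_inj (x : ℕ → Bool) {α : ℝ} (hα : Irrational α) {i j : ℕ}
    (h : disc x α i = disc x α j) : i = j := by
  by_contra hne
  unfold disc at h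
  apply hα
  refine ⟨((ones x 0 i : ℚ) - ones x 0 j) / ((i : ℚ) - j), ?_⟩
  have h1 : ((i : ℝ) - j) ≠ 0 := by
    intro h0
    apply hne
    have : (i : ℝ) = j := by linarith
    exact_mod_cast this
  push_cast
  rw [div_eq_iff h1]
  linarith

theorem disc_bdd {x : ℕ → Bool} {α : ℝ} (hα : UniformFrequency x α) {C : ℝ}
    (hC : ∀ n, wd x n ≤ C) (i : ℕ) : |disc x α i| ≤ C := by
  have h := disc_window x α 0 i
  rw [zero_add, disc_zero, sub_zero] at h
  obtain ⟨h1, h2⟩ := freq_bounds hα i
  have h3 : (mn x i : ℝ) ≤ ones x 0 i := by exact_mod_cast mn_le x 0 i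
  have h4 : (ones x 0 i : ℝ) ≤ mx x i := by exact_mod_cast le_mx x 0 i
  have h5 := hC i
  unfold wd at h5
  rw [← h, abs_le]
  constructor <;> linarith

/-- `bot` and `top` are the infimum and the supremum of the discrepancies. -/
structure Rng (x : ℕ → Bool) (α bot top : ℝ) : Prop where
  lb : ∀ i, bot ≤ disc x α i
  la : ∀ ε : ℝ, 0 < ε → ∃ i, disc x α i < bot + ε
  ub : ∀ i, disc x α i ≤ top
  ua : ∀ ε : ℝ, 0 < ε → ∃ i, top - ε < disc x α i

theorem exists_rng {x : ℕ → Bool} {α : ℝ} (hα : UniformFrequency x α) {C : ℝ}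
    (hC : ∀ n, wd x n ≤ C) : ∃ bot top, Rng x α bot top := by
  have hb := disc_bdd hα hC
  have h1 : BddBelow (Set.range (disc x α)) := ⟨-C, by
    rintro _ ⟨i, rfl⟩
    exact (abs_le.1 (hb i)).1⟩
  have h2 : BddAbove (Set.range (disc x α)) := ⟨C, by
    rintro _ ⟨i, rfl⟩
    exact (abs_le.1 (hb i)).2⟩
  refine ⟨sInf (Set.range (disc x α)), sSup (Set.range (disc x α)),
    fun i => csInf_le h1 ⟨i, rfl⟩, ?_, fun i => le_csSup h2 ⟨i, rfl⟩, ?_⟩
  · intro ε hε
    obtain ⟨_, ⟨i, rfl⟩, hi⟩ := exists_lt_of_csInf_lt (Set.range_nonempty (disc x α))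
      (show sInf (Set.range (disc x α)) < sInf (Set.range (disc x α)) + ε by linarith)
    exact ⟨i, hi⟩
  · intro ε hε
    obtain ⟨_, ⟨i, rfl⟩, hi⟩ := exists_lt_of_lt_csSup (Set.range_nonempty (disc x α))
      (show sSup (Set.range (disc x α)) - ε < sSup (Set.range (disc x α)) by linarith)
    exact ⟨i, hi⟩

/-- Almost returns. -/
theorem disc_returns {x : ℕ → Bool} (hx : UniformlyRecurrent x) {α bot top : ℝ}
    (hr : Rng x α bot top) (N : ℕ) {ε : ℝ} (hε : 0 < ε) :
    ∃ B : ℕ, ∀ K : ℕ, ∃ m : ℕ, K ≤ m ∧ m ≤ K + B ∧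
      ∀ j ≤ N, |disc x α (m + j) - disc x α j| ≤ ε := by
  obtain ⟨p, hp⟩ := hr.la ε hε
  obtain ⟨q, hq⟩ := hr.ua ε hε
  obtain ⟨B, hB⟩ := hx 0 (max N (max p q))
  refine ⟨B, fun K => ?_⟩
  obtain ⟨m, h1, h2, h3⟩ := hB K
  refine ⟨m, h1, h2, ?_⟩
  have key : ∀ j ≤ max N (max p q), disc x α (m + j) = disc x α m + disc x α j := by
    intro j hj
    have e1 := disc_window x α m j
    have e2 := disc_window x α 0 j
    rw [zero_add, disc_zero, sub_zero] at e2
    have e3 : ones x m j = ones x 0 j := by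
      apply ones_congr
      intro t ht
      exact h3 t (by omega)
    rw [e3] at e1
    linarith
  have kp := key p (le_trans (le_max_left _ _) (le_max_right _ _))
  have kq := key q (le_trans (le_max_right _ _) (le_max_right _ _))
  have h4 := hr.lb (m + p)
  have h5 := hr.ub (m + q)
  intro j hj
  rw [key j (le_trans hj (le_max_left _ _)), abs_le]
  constructor <;> linarith

/-! ### The folded words -/

/-- The folded counting function. -/
noncomputable def Hs (x : ℕ → Bool) (α s : ℝ) (i : ℕ) : ℤ :=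
  (ones x 0 i : ℤ) - if s ≤ disc x α i then 1 else 0

/-- The folded discrepancy. -/
noncomputable def fdisc (x : ℕ → Bool) (α s : ℝ) (i : ℕ) : ℝ :=
  disc x α i - if s ≤ disc x α i then 1 else 0

theorem Hs_step {x : ℕ → Bool} {α s : ℝ} (hα0 : 0 ≤ α) (hα1 : α ≤ 1) (i : ℕ) :
    Hs x α s (i + 1) = Hs x α s i ∨ Hs x α s (i + 1) = Hs x α s i + 1 := by
  unfold Hs
  have h1 := disc_succ x α i
  have h2 := ones_succ x 0 i
  rw [zero_add] at h2
  rw [h2]
  by_cases hxi : x i = true
  · rw [if_pos hxi] at h1 ⊢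
    by_cases h3 : s ≤ disc x α i
    · rw [if_pos h3, if_pos (by linarith)]
      right
      push_cast
      ring
    · rw [if_neg h3]
      split_ifs
      · left
        push_cast
        ring
      · right
        push_cast
        ring
  · rw [if_neg hxi] at h1 ⊢
    by_cases h3 : s ≤ disc x α i
    · rw [if_pos h3]
      split_ifs
      · left
        push_cast
        ring
      · right
        push_cast
        ring
    · rw [if_neg h3, if_neg (by linarith)]
      left
      push_cast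
      ring

/-- The folded word. -/
noncomputable def ys (x : ℕ → Bool) (α s : ℝ) : ℕ → Bool := wordOf (Hs x α s)

theorem ys_ones {x : ℕ → Bool} {α s : ℝ} (hα0 : 0 ≤ α) (hα1 : α ≤ 1) (i n : ℕ) :
    (ones (ys x α s) i n : ℝ) = ones x i n - (if s ≤ disc x α (i + n) then 1 else 0)
      + (if s ≤ disc x α i then 1 else 0) := by
  have h := ones_wordOf (Hs_step (x := x) (s := s) hα0 hα1) i n
  have h' : (ones (ys x α s) i n : ℝ) = (Hs x α s (i + n) : ℝ) - Hs x α s i := by
    exact_mod_cast h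
  have h2 := ones_add x 0 i n
  rw [zero_add] at h2
  rw [h']
  unfold Hs
  rw [h2]
  push_cast
  ring

theorem ys_fdisc {x : ℕ → Bool} {α s : ℝ} (hα0 : 0 ≤ α) (hα1 : α ≤ 1) (i n : ℕ) :
    (ones (ys x α s) i n : ℝ) - α * n = fdisc x α s (i + n) - fdisc x α s i := by
  rw [ys_ones hα0 hα1]
  have h := disc_window x α i n
  unfold fdisc
  linarith

theorem ys_mem {x : ℕ → Bool} {α s : ℝ} (hα0 : 0 ≤ α) (hα1 : α ≤ 1)
    (hα : UniformFrequency x α) : ys x α s ∈ AbClosure x := by
  rw [mem_AbClosure]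
  intro i n
  have h1 := ys_ones (x := x) (s := s) hα0 hα1 i n
  have h2 := disc_window x α i n
  obtain ⟨h3, h4⟩ := freq_bounds hα n
  have h5 := mn_le x i n
  have h6 := le_mx x i n
  by_cases ha : s ≤ disc x α (i + n) <;> by_cases hb : s ≤ disc x α i
  · rw [if_pos ha, if_pos hb] at h1
    have : (ones (ys x α s) i n : ℝ) = ones x i n := by linarith
    have h7 : ones (ys x α s) i n = ones x i n := by exact_mod_cast this
    omega
  · rw [if_pos ha, if_neg hb] at h1
    have : (ones (ys x α s) i n : ℝ) + 1 = ones x i n := by linarith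
    have h7 : ones (ys x α s) i n + 1 = ones x i n := by exact_mod_cast this
    have h8 : (mn x n : ℝ) < ones x i n := by
      push Not at hb
      linarith
    have h9 : mn x n < ones x i n := by exact_mod_cast h8
    omega
  · rw [if_neg ha, if_pos hb] at h1
    have : (ones (ys x α s) i n : ℝ) = ones x i n + 1 := by linarith
    have h7 : ones (ys x α s) i n = ones x i n + 1 := by exact_mod_cast this
    have h8 : (ones x i n : ℝ) < mx x n := by
      push Not at ha
      linarith
    have h9 : ones x i n < mx x n := by exact_mod_cast h8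
    omega
  · rw [if_neg ha, if_neg hb] at h1
    have : (ones (ys x α s) i n : ℝ) = ones x i n := by linarith
    have h7 : ones (ys x α s) i n = ones x i n := by exact_mod_cast this
    omega

/-! ### The orbit closure -/

/-- The words all of whose factors are factors of `y`. -/
def Om (y : ℕ → Bool) : Set (ℕ → Bool) :=
  {z | ∀ i n : ℕ, ∃ k : ℕ, ∀ j < n, z (i + j) = y (k + j)}

theorem self_mem_Om (y : ℕ → Bool) : y ∈ Om y := fun i _ => ⟨i, fun _ _ => rfl⟩

theorem Om_inv (y : ℕ → Bool) : ∀ z ∈ Om y, shift z ∈ Om y := by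
  intro z hz i n
  obtain ⟨k, hk⟩ := hz (i + 1) n
  refine ⟨k, fun j hj => ?_⟩
  unfold shift
  rw [show i + j + 1 = i + 1 + j by ring]
  exact hk j hj

theorem Om_closed (y : ℕ → Bool) : IsClosed (Om y) := by
  have : Om y = ⋂ i : ℕ, ⋂ n : ℕ,
      (fun (z : ℕ → Bool) (j : Fin n) => z (i + j)) ⁻¹'
        {w : Fin n → Bool | ∃ k : ℕ, ∀ j : Fin n, w j = y (k + j)} := by
    ext z
    simp only [Set.mem_iInter, Set.mem_preimage, Om, Set.mem_ofPred_eq]
    constructor
    · intro h i n
      obtain ⟨k, hk⟩ := h i n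
      exact ⟨k, fun j => hk j j.2⟩
    · intro h i n
      obtain ⟨k, hk⟩ := h i n
      exact ⟨k, fun j hj => hk ⟨j, hj⟩⟩
  rw [this]
  refine isClosed_iInter fun i => isClosed_iInter fun n => ?_
  apply IsClosed.preimage
  · exact continuous_pi (fun j => continuous_apply (i + (j : ℕ)))
  · exact isClosed_discrete _

theorem Om_subset {x y : ℕ → Bool} (h : y ∈ AbClosure x) : Om y ⊆ AbClosure x := by
  intro z hz i n
  obtain ⟨k, hk⟩ := hz i n
  obtain ⟨k', hk'⟩ := h k n
  exact ⟨k', by rw [← hk']; exact ones_congr hk⟩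

end Pool.Agent.Q161.AbClos
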