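import Pool.Agent.Q161.AbClos

/-!
# Abelian closures of binary words: an entropy bound (MP_1706f7_co)
-/

namespace Pool.Agent.Q161.AbClos

open Finset Filter Topology

theorem ones_zero (x : ℕ → Bool) (i : ℕ) : ones x i 0 = 0 := by simp [ones]

theorem ones_succ (x : ℕ → Bool) (i n : ℕ) :
    ones x i (n + 1) = ones x i n + (if x (i + n) = true then 1 else 0) := by
  unfold ones
  rw [Finset.sum_range_succ]

theorem ones_succ' (x : ℕ → Bool) (i n : ℕ) :
    ones x i (n + 1) = (if x i = true then 1 else 0) + ones x (i + 1) n := by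
  unfold ones
  rw [Finset.sum_range_succ', add_comm]
  congr 1
  apply Finset.sum_congr rfl
  intro j _
  rw [show i + (j + 1) = i + 1 + j by ring]

theorem ones_congr {x y : ℕ → Bool} {i k n : ℕ} (h : ∀ j < n, x (i + j) = y (k + j)) :
    ones x i n = ones y k n := by
  unfold ones
  apply Finset.sum_congr rfl
  intro j hj
  rw [h j (mem_range.1 hj)]

theorem sum_windows_le (y : ℕ → Bool) (n N : ℕ) (hn : n ≤ N) :
    ∑ i ∈ range (N + 1 - n), ones y i n ≤ n * ones y 0 N := by
  unfold ones
  rw [Finset.sum_comm]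
  have h : ∀ j ∈ range n, (∑ i ∈ range (N + 1 - n), if y (i + j) = true then 1 else 0) ≤
      ∑ j ∈ range N, if y (0 + j) = true then 1 else 0 := by
    intro j hj
    rw [mem_range] at hj
    have h1 : (∑ i ∈ range (N + 1 - n), if y (i + j) = true then 1 else 0) =
        ∑ i ∈ (range (N + 1 - n)).image (fun i => i + j),
          if y (0 + i) = true then 1 else 0 := by
      rw [Finset.sum_image (fun a _ b _ hab => by simpa using hab)]
      apply Finset.sum_congr rfl
      intro i _
      rw [zero_add]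
    rw [h1]
    apply Finset.sum_le_sum_of_subset
    intro l hl
    rw [mem_image] at hl
    obtain ⟨i, hi, rfl⟩ := hl
    rw [mem_range] at hi ⊢
    omega
  calc _ ≤ ∑ _j ∈ range n, ∑ j ∈ range N, (if y (0 + j) = true then 1 else 0) :=
        Finset.sum_le_sum h
    _ = _ := by rw [Finset.sum_const, card_range, smul_eq_mul]

/-- Extension of a finite word by zeros. -/
def ext {N : ℕ} (w : Fin N → Bool) (j : ℕ) : Bool := if h : j < N then w ⟨j, h⟩ else false

/-- The set of positions of heavy windows. -/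
def heavy {N : ℕ} (n p : ℕ) (w : Fin N → Bool) : Finset ℕ :=
  (range (N + 1 - n)).filter (fun i => ones (ext w) i n = p + 1)

theorem ones_ext {N : ℕ} {w : Fin N → Bool} {y : ℕ → Bool} {i0 : ℕ}
    (h : ∀ j : Fin N, w j = y (i0 + j)) (i n : ℕ) (hin : i + n ≤ N) :
    ones (ext w) i n = ones y (i0 + i) n := by
  apply ones_congr
  intro j hj
  unfold ext
  rw [dif_pos (show i + j < N by omega), h]
  simp only
  rw [add_assoc]

/-- The number of heavy windows is small. -/
theorem card_heavy_le {X : Set (ℕ → Bool)} {n p : ℕ} {δ C : ℝ}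
    (h1 : ∀ y ∈ X, ∀ i, ones y i n = p ∨ ones y i n = p + 1)
    (h2 : ∀ y ∈ X, ∀ i N : ℕ, (n : ℝ) * ones y i N ≤ N * (p + δ) + C)
    {N : ℕ} (hN : n ≤ N) {w : Fin N → Bool} (hw : w ∈ Blocks X N) :
    ((heavy n p w).card : ℝ) ≤ N * δ + (C + n * p) := by
  obtain ⟨y, hy, i0, hwy⟩ := hw
  have h3 : ∑ i ∈ range (N + 1 - n), ones (ext w) i n =
      (N + 1 - n) * p + (heavy n p w).card := by
    have h4 : ∀ i ∈ range (N + 1 - n), ones (ext w) i n =
        p + (if ones (ext w) i n = p + 1 then 1 else 0) := by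
      intro i hi
      rw [mem_range] at hi
      rw [ones_ext hwy i n (by omega)]
      rcases h1 y hy (i0 + i) with h | h
      · rw [h, if_neg (by omega), add_zero]
      · rw [h, if_pos rfl]
    rw [Finset.sum_congr rfl h4, Finset.sum_add_distrib, Finset.sum_const, card_range,
      smul_eq_mul, ← Finset.card_filter]
    rfl
  have h5 := sum_windows_le (ext w) n N hN
  rw [h3, ones_ext hwy 0 N (by omega)] at h5
  have h6 := h2 y hy (i0 + 0) N
  have h7 : (((N + 1 - n) * p + (heavy n p w).card : ℕ) : ℝ) ≤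
      ((n * ones y (i0 + 0) N : ℕ) : ℝ) := by exact_mod_cast h5
  rw [Nat.cast_add, Nat.cast_mul, Nat.cast_sub (by omega), Nat.cast_mul] at h7
  push_cast at h7
  have h8 : (0 : ℝ) ≤ p := Nat.cast_nonneg _
  nlinarith

/-- Injectivity of the encoding. -/
theorem encode_inj {X : Set (ℕ → Bool)} {n p : ℕ} (hn : 0 < n)
    (h1 : ∀ y ∈ X, ∀ i, ones y i n = p ∨ ones y i n = p + 1)
    {N : ℕ} {w w' : Fin N → Bool} (hw : w ∈ Blocks X N) (hw' : w' ∈ Blocks X N)
    (hfirst : ∀ j < n, ext w j = ext w' j) (hheavy : heavy n p w = heavy n p w') :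
    w = w' := by
  obtain ⟨y, hy, i0, hwy⟩ := hw
  obtain ⟨y', hy', i0', hwy'⟩ := hw'
  have hc : ∀ i, i + n ≤ N → ones (ext w) i n = ones (ext w') i n := by
    intro i hi
    have h2 : (i ∈ heavy n p w) ↔ (i ∈ heavy n p w') := by rw [hheavy]
    unfold heavy at h2
    rw [mem_filter, mem_filter, mem_range] at h2
    rw [ones_ext hwy i n hi, ones_ext hwy' i n hi] at h2 ⊢
    have hr : i < N + 1 - n := by omega
    rcases h1 y hy (i0 + i) with h | h <;> rcases h1 y' hy' (i0' + i) with h' | h' <;>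
      rw [h, h'] at h2 ⊢
    · exfalso
      have := h2.2 ⟨hr, rfl⟩
      omega
    · exfalso
      have := h2.1 ⟨hr, rfl⟩
      omega
  have key : ∀ j, j < N → ext w j = ext w' j := by
    intro j
    induction j using Nat.strong_induction_on with
    | _ j ih =>
      intro hj
      by_cases hjn : j < n
      · exact hfirst j hjn
      · obtain ⟨i, rfl⟩ : ∃ i, j = i + n := ⟨j - n, by omega⟩
        have e1 := ones_succ (ext w) i n
        have e2 := ones_succ' (ext w) i n
        have e3 := ones_succ (ext w') i n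
        have e4 := ones_succ' (ext w') i n
        have e5 := hc i (by omega)
        have e6 := hc (i + 1) (by omega)
        have e7 := ih i (by omega) (by omega)
        rw [e7] at e2
        cases hA : ext w (i + n) <;> cases hB : ext w' (i + n) <;>
          rw [hA] at e1 <;> rw [hB] at e3 <;> simp at * <;> omega
  funext j
  have := key j.1 j.2
  unfold ext at this
  rw [dif_pos j.2, dif_pos j.2] at this
  exact this

theorem card_small_sets (N m : ℕ) {t : ℝ} (ht : 0 < t) (ht1 : t ≤ 1) :
    ((((range N).powerset).filter (fun S => S.card ≤ m)).card : ℝ) ≤ (1 + t) ^ N / t ^ m := by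
  rw [le_div_iff₀ (pow_pos ht m)]
  calc ((((range N).powerset).filter (fun S => S.card ≤ m)).card : ℝ) * t ^ m
      = ∑ S ∈ ((range N).powerset).filter (fun S => S.card ≤ m), t ^ m := by
        rw [Finset.sum_const, nsmul_eq_mul]
    _ ≤ ∑ S ∈ ((range N).powerset).filter (fun S => S.card ≤ m), t ^ S.card := by
        apply Finset.sum_le_sum
        intro S hS
        rw [mem_filter] at hS
        exact pow_le_pow_of_le_one ht.le ht1 hS.2
    _ ≤ ∑ S ∈ (range N).powerset, t ^ S.card := by
        apply Finset.sum_le_sum_of_subset_of_nonneg (filter_subset _ _)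
        intro S _ _
        positivity
    _ = (1 + t) ^ N := by
        have h := Finset.sum_pow_mul_eq_add_pow t 1 (range N)
        rw [card_range] at h
        rw [add_comm 1 t, ← h]
        apply Finset.sum_congr rfl
        intro S _
        rw [one_pow, mul_one]

theorem ncard_blocks_le {X : Set (ℕ → Bool)} {n p : ℕ} (hn : 0 < n) {δ C : ℝ}
    (h1 : ∀ y ∈ X, ∀ i, ones y i n = p ∨ ones y i n = p + 1)
    (h2 : ∀ y ∈ X, ∀ i N : ℕ, (n : ℝ) * ones y i N ≤ N * (p + δ) + C)
    {N : ℕ} (hN : n ≤ N) {t : ℝ} (ht : 0 < t) (ht1 : t ≤ 1) :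
    ((Blocks X N).ncard : ℝ) ≤
      2 ^ n * ((1 + t) ^ N / t ^ ⌊N * δ + (C + n * p)⌋₊) := by
  set m := ⌊N * δ + (C + n * p)⌋₊ with hm
  set T : Finset ((Fin n → Bool) × Finset ℕ) :=
    univ ×ˢ ((range N).powerset).filter (fun S => S.card ≤ m) with hT
  have hle : (Blocks X N).ncard ≤ (T : Set ((Fin n → Bool) × Finset ℕ)).ncard := by
    apply Set.ncard_le_ncard_of_injOn
      (fun w => ((fun j : Fin n => ext w j), heavy n p w))
    · intro w hw
      rw [hT]
      simp only [coe_product, coe_univ, Set.mem_prod, Set.mem_univ, true_and, mem_coe,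
        mem_filter, mem_powerset]
      constructor
      · unfold heavy
        refine (filter_subset _ _).trans ?_
        intro i hi
        rw [mem_range] at *
        omega
      · exact Nat.le_floor (card_heavy_le h1 h2 hN hw)
    · intro w hw w' hw' h
      simp only [Prod.mk.injEq] at h
      apply encode_inj hn h1 hw hw' _ h.2
      intro j hj
      exact congrFun h.1 ⟨j, hj⟩
  rw [Set.ncard_coe_finset, hT, card_product, card_univ, Fintype.card_fun, Fintype.card_bool,
    Fintype.card_fin] at hle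
  calc ((Blocks X N).ncard : ℝ)
      ≤ ((2 ^ n * (((range N).powerset).filter (fun S => S.card ≤ m)).card : ℕ) : ℝ) := by
        exact_mod_cast hle
    _ = 2 ^ n * ((((range N).powerset).filter (fun S => S.card ≤ m)).card : ℝ) := by
        push_cast
        ring
    _ ≤ _ := by
        apply mul_le_mul_of_nonneg_left (card_small_sets N m ht ht1) (by positivity)

/-- Zero entropy criterion. -/
theorem entropy_zero {X : Set (ℕ → Bool)} (hX : X.Nonempty)
    (h : ∀ δ : ℝ, 0 < δ → ∃ (n p : ℕ) (δ' C : ℝ), 0 < n ∧ 0 ≤ δ' ∧ δ' < δ ∧ 0 ≤ C ∧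
      (∀ y ∈ X, ∀ i, ones y i n = p ∨ ones y i n = p + 1) ∧
      (∀ y ∈ X, ∀ i N : ℕ, (n : ℝ) * ones y i N ≤ N * (p + δ') + C)) :
    Tendsto (fun n : ℕ => 1 / (n : ℝ) * Real.log ((Blocks X n).ncard)) atTop (𝓝 0) := by
  rw [Metric.tendsto_atTop]
  intro ε hε
  set t : ℝ := min (ε / 4) (1 / 2) with ht
  have ht0 : 0 < t := lt_min (by linarith) (by norm_num)
  have htε : t ≤ ε / 4 := min_le_left _ _
  have ht2 : t ≤ 1 / 2 := min_le_right _ _
  set L : ℝ := - Real.log t with hL
  have hL0 : 0 < L := by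
    rw [hL]
    have := Real.log_neg ht0 (by linarith)
    linarith
  obtain ⟨n, p, δ, C, hn, hδ0, hδ, hC, h1, h2⟩ := h (ε / (4 * L)) (by positivity)
  have hδL : δ * L ≤ ε / 4 := by
    have : δ * L ≤ ε / (4 * L) * L := mul_le_mul_of_nonneg_right hδ.le hL0.le
    calc δ * L ≤ ε / (4 * L) * L := this
      _ = ε / 4 := by field_simp
  set Q : ℝ := n * Real.log 2 + (C + n * p) * L with hQ
  have hlog2 : 0 < Real.log 2 := Real.log_pos (by norm_num)
  have hQ0 : 0 ≤ Q := by positivity
  obtain ⟨N0, hN0⟩ := exists_nat_gt (4 * Q / ε)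
  refine ⟨N0 + n + 1, fun N hN => ?_⟩
  have hNpos : (0 : ℝ) < N := by
    have : 0 < N := by omega
    exact_mod_cast this
  have hNN0 : (N0 : ℝ) ≤ N := by
    have : N0 ≤ N := by omega
    exact_mod_cast this
  have hQN : Q ≤ N * (ε / 4) := by
    rw [div_lt_iff₀ hε] at hN0
    nlinarith
  have hbl := ncard_blocks_le hn h1 h2 (show n ≤ N by omega) ht0 (by linarith)
  have hpos : 0 < (Blocks X N).ncard := by
    rw [Set.ncard_pos]
    obtain ⟨y, hy⟩ := hX
    exact ⟨fun j => y (0 + j), y, hy, 0, fun j => rfl⟩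
  have hpos' : (0 : ℝ) < ((Blocks X N).ncard : ℝ) := by exact_mod_cast hpos
  have hlog0 : 0 ≤ Real.log ((Blocks X N).ncard) := by
    apply Real.log_nonneg
    exact_mod_cast hpos
  set m := ⌊N * δ + (C + n * p)⌋₊ with hm
  have hmle : (m : ℝ) ≤ N * δ + (C + n * p) := Nat.floor_le (by positivity)
  have hlog : Real.log ((Blocks X N).ncard) ≤ n * Real.log 2 + (N * Real.log (1 + t) + m * L) := by
    have h3 := Real.log_le_log hpos' hbl
    rw [Real.log_mul (by positivity) (by positivity), Real.log_pow, Real.log_div (by positivity)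
      (by positivity), Real.log_pow, Real.log_pow] at h3
    rw [hL]
    linarith
  have hlt : Real.log (1 + t) ≤ t := by
    have := Real.log_le_sub_one_of_pos (show (0 : ℝ) < 1 + t by linarith)
    linarith
  have hfin : Real.log ((Blocks X N).ncard) ≤ N * (3 * (ε / 4)) := by
    have h4 : (m : ℝ) * L ≤ (N * δ + (C + n * p)) * L := mul_le_mul_of_nonneg_right hmle hL0.le
    have h5 : (N : ℝ) * Real.log (1 + t) ≤ N * (ε / 4) :=
      mul_le_mul_of_nonneg_left (hlt.trans htε) hNpos.le
    have h6 : (N : ℝ) * (δ * L) ≤ N * (ε / 4) := mul_le_mul_of_nonneg_left hδL hNpos.le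
    calc Real.log ((Blocks X N).ncard) ≤ n * Real.log 2 + (N * Real.log (1 + t) + m * L) := hlog
      _ ≤ n * Real.log 2 + (N * (ε / 4) + (N * δ + (C + n * p)) * L) := by linarith
      _ = N * (ε / 4) + N * (δ * L) + Q := by rw [hQ]; ring
      _ ≤ N * (ε / 4) + N * (ε / 4) + N * (ε / 4) := by linarith
      _ = N * (3 * (ε / 4)) := by ring
  rw [Real.dist_eq, sub_zero, abs_of_nonneg (by positivity)]
  rw [one_div, inv_mul_lt_iff₀ hNpos]
  have : N * (3 * (ε / 4)) < N * ε := by nlinarith
  linarith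

end Pool.Agent.Q161.AbClos
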