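import Pool.Agent.Q161.AbClosStu

/-!
# Abelian closures of binary words: the main theorem (MP_fa9958_co)
-/

namespace Pool.Agent.Q161.AbClos

open Finset Filter Topology

/-- Windows of large discrepancy occur with bounded gaps in the folded word. -/
theorem big_windows {x : ℕ → Bool} (hx : UniformlyRecurrent x) {α bot top s s2 : ℝ}
    (hr : Rng x α bot top) (hs : bot + 1 ≤ s) {a : ℕ} (h1 : s < disc x α a)
    (h2 : disc x α a < s2) :
    ∃ B : ℕ, ∀ K : ℕ, ∃ i n : ℕ, K ≤ i ∧ i + n ≤ K + B ∧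
      s - bot < fdisc x α s2 (i + n) - fdisc x α s2 i := by
  obtain ⟨ε, hε0, hε1, hε2, hε3⟩ : ∃ ε : ℝ, 0 < ε ∧ ε ≤ (disc x α a - s) / 4 ∧
      ε ≤ (s2 - disc x α a) / 4 ∧ ε ≤ 1 / 4 := by
    refine ⟨min ((disc x α a - s) / 4) (min ((s2 - disc x α a) / 4) (1 / 4)), ?_,
      min_le_left _ _, le_trans (min_le_right _ _) (min_le_left _ _),
      le_trans (min_le_right _ _) (min_le_right _ _)⟩
    refine lt_min (by linarith) (lt_min (by linarith) (by norm_num))
  obtain ⟨b, hb⟩ := hr.la ε hε0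
  obtain ⟨B, hB⟩ := disc_returns hx hr (max a b) hε0
  refine ⟨2 * B + a + b, fun K => ?_⟩
  obtain ⟨m, hm1, hm2, hm3⟩ := hB K
  obtain ⟨m', hm1', hm2', hm3'⟩ := hB (m + b)
  have e1 := abs_le.1 (hm3 b (le_max_right _ _))
  have e2 := abs_le.1 (hm3' a (le_max_left _ _))
  refine ⟨m + b, m' + a - (m + b), by omega, by omega, ?_⟩
  rw [show m + b + (m' + a - (m + b)) = m' + a by omega]
  unfold fdisc
  rw [if_neg (by push Not; linarith), if_neg (by push Not; linarith)]
  linarith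

/-- The folded discrepancies lie in `[bot, s]`. -/
theorem fdisc_bounds {x : ℕ → Bool} {α bot top s : ℝ}
    (hr : Rng x α bot top) (hs : bot + 1 ≤ s) (hs2 : top - 1 ≤ s) (i : ℕ) :
    bot ≤ fdisc x α s i ∧ fdisc x α s i ≤ s := by
  have h1 := hr.lb i
  have h2 := hr.ub i
  unfold fdisc
  split_ifs with h
  · constructor <;> linarith
  · push Not at h
    constructor <;> linarith

/-- Separation of the orbit closures of folded words. -/
theorem Om_disjoint {x : ℕ → Bool} (hx : UniformlyRecurrent x) {α bot top s s2 : ℝ}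
    (hα0 : 0 ≤ α) (hα1 : α ≤ 1) (hr : Rng x α bot top) (hs : bot + 1 ≤ s) (hs2 : top - 1 ≤ s)
    {a : ℕ} (h1 : s < disc x α a) (h2 : disc x α a < s2) {z : ℕ → Bool}
    (hz1 : z ∈ Om (ys x α s)) (hz2 : z ∈ Om (ys x α s2)) : False := by
  obtain ⟨B, hB⟩ := big_windows hx hr hs h1 h2
  obtain ⟨k, hk⟩ := hz2 0 B
  obtain ⟨i, n, hi1, hi2, hi3⟩ := hB k
  obtain ⟨k', hk'⟩ := hz1 (i - k) n
  have e1 : ones z (i - k) n = ones (ys x α s2) i n := by
    apply ones_congr
    intro j hj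
    have := hk (i - k + j) (by omega)
    rw [zero_add] at this
    rw [this, show k + (i - k + j) = i + j by omega]
  have e2 : ones z (i - k) n = ones (ys x α s) k' n := ones_congr hk'
  have e3 := ys_fdisc (x := x) (s := s2) hα0 hα1 i n
  have e4 := ys_fdisc (x := x) (s := s) hα0 hα1 k' n
  rw [← e1] at e3
  rw [← e2] at e4
  have e5 := fdisc_bounds hr hs hs2 k'
  have e6 := fdisc_bounds hr hs hs2 (k' + n)
  linarith [e5.1, e6.2]

/-- The limit set of the discrepancies above a level is uncountable. -/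
theorem closure_uncountable {x : ℕ → Bool} (hx : UniformlyRecurrent x) {α bot top c0 : ℝ}
    (hα : Irrational α) (hr : Rng x α bot top) (hc0 : c0 < top) :
    ¬ (closure {v : ℝ | c0 < v ∧ ∃ i, disc x α i = v}).Countable := by
  intro hcount
  set W : Set ℝ := {v : ℝ | c0 < v ∧ ∃ i, disc x α i = v} with hW
  -- syndetic visits
  obtain ⟨q, hq⟩ := hr.ua ((top - c0) / 2) (by linarith)
  obtain ⟨B, hB⟩ := disc_returns hx hr q (ε := (top - c0) / 4) (by linarith)
  have hvis : ∀ K : ℕ, ∃ b ≤ B + q, c0 < disc x α (K + b) := by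
    intro K
    obtain ⟨m, h1, h2, h3⟩ := hB K
    have h4 := abs_le.1 (h3 q le_rfl)
    refine ⟨m + q - K, by omega, ?_⟩
    rw [show K + (m + q - K) = m + q by omega]
    linarith [h4.1]
  -- the countable union of translates
  have hun : (⋃ b : ℕ, ⋃ z : ℤ, (fun t : ℝ => t + α * b + z) '' closure W).Countable :=
    Set.countable_iUnion fun b => Set.countable_iUnion fun z => hcount.image _
  obtain ⟨Z, hZ⟩ : ∃ Z : ℕ, |bot| + |top| + |α| * (B + q : ℕ) + 2 ≤ Z := exists_nat_ge _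
  set U : Set ℝ := ⋃ b ∈ Set.Iic (B + q), ⋃ z ∈ Set.Icc (-(Z : ℤ)) Z,
    (fun t : ℝ => t + α * (b : ℕ) + (z : ℤ)) '' closure W with hU
  have hUc : IsClosed U := by
    apply Set.Finite.isClosed_biUnion (Set.finite_Iic _)
    intro b _
    apply Set.Finite.isClosed_biUnion (Set.finite_Icc _ _)
    intro z _
    have : (fun t : ℝ => t + α * (b : ℕ) + (z : ℤ)) = (fun t : ℝ => t + (α * (b : ℕ) + (z : ℤ))) := by
      funext t
      ring
    rw [this]
    exact (Homeomorph.addRight (α * (b : ℕ) + (z : ℤ))).isClosedMap _ isClosed_closure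
  have hUsub : U ⊆ ⋃ b : ℕ, ⋃ z : ℤ, (fun t : ℝ => t + α * b + z) '' closure W := by
    intro r hr'
    rw [hU] at hr'
    simp only [Set.mem_iUnion] at hr' ⊢
    obtain ⟨b, _, z, _, h⟩ := hr'
    exact ⟨b, z, h⟩
  have hmem : ∀ i : ℕ, Int.fract ((i : ℝ) * (-α)) ∈ U := by
    intro i
    obtain ⟨b, hb1, hb2⟩ := hvis i
    rw [hU]
    simp only [Set.mem_iUnion]
    have hf := Int.floor_add_fract ((i : ℝ) * (-α))
    have hval : Int.fract ((i : ℝ) * (-α)) =
        disc x α (i + b) + α * (b : ℕ) +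
          ((-⌊(i : ℝ) * (-α)⌋ - (ones x 0 (i + b) : ℤ) : ℤ) : ℝ) := by
      unfold disc
      push_cast
      linarith
    have hf0 := Int.fract_nonneg ((i : ℝ) * (-α))
    have hf1 := Int.fract_lt_one ((i : ℝ) * (-α))
    have hl := hr.lb (i + b)
    have hu := hr.ub (i + b)
    have a1 := neg_abs_le bot
    have a2 := le_abs_self top
    have a3 : |α * (b : ℝ)| ≤ |α| * ((B + q : ℕ) : ℝ) := by
      rw [abs_mul, Nat.abs_cast]
      apply mul_le_mul_of_nonneg_left _ (abs_nonneg _)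
      exact_mod_cast hb1
    have a4 := abs_le.1 a3
    have a5 := abs_nonneg bot
    have a6 := abs_nonneg top
    have hz1 : ((-⌊(i : ℝ) * (-α)⌋ - (ones x 0 (i + b) : ℤ) : ℤ) : ℝ) ≤ Z := by
      linarith [a4.1, a4.2]
    have hz2 : -(Z : ℝ) ≤ ((-⌊(i : ℝ) * (-α)⌋ - (ones x 0 (i + b) : ℤ) : ℤ) : ℝ) := by
      linarith [a4.1, a4.2]
    refine ⟨b, hb1, -⌊(i : ℝ) * (-α)⌋ - (ones x 0 (i + b) : ℤ), ?_, disc x α (i + b), ?_, ?_⟩
    · rw [Set.mem_Icc]
      constructor
      · exact_mod_cast hz2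
      · exact_mod_cast hz1
    · exact subset_closure ⟨hb2, _, rfl⟩
    · exact hval.symm
  have hIoo : Set.Ioo (0 : ℝ) 1 ⊆ U := by
    intro r hr'
    rw [← hUc.closure_eq, Metric.mem_closure_iff]
    intro ε hε
    set δ := min ε (1 - r) with hδ
    have hδ0 : 0 < δ := lt_min hε (by linarith [hr'.2])
    obtain ⟨B', hB'⟩ := return_times (β := -α) hα.neg (c := r) (ε := δ) hr'.1.le hδ0
      (by linarith [min_le_right ε (1 - r)])
    obtain ⟨i, _, _, h3, h4⟩ := hB' 0
    refine ⟨_, hmem i, ?_⟩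
    rw [Real.dist_eq, abs_lt]
    have := min_le_left ε (1 - r)
    constructor <;> linarith
  have := (hun.mono (hIoo.trans hUsub))
  rw [Cardinal.Real.Ioo_countable_iff] at this
  linarith

theorem bounded_case {x : ℕ → Bool} {α : ℝ} (hx : UniformlyRecurrent x) (hα0 : 0 ≤ α)
    (hα1 : α ≤ 1) (hα : UniformFrequency x α) (hirr : Irrational α) (hap : Aperiodic x)
    (hst : ¬ Sturmian x) {C : ℝ} (hC : ∀ n, wd x n ≤ C) :
    ¬ {M : Set (ℕ → Bool) | IsMinimalSubshift M ∧ M ⊆ AbClosure x}.Countable := by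
  obtain ⟨bot, top, hr⟩ := exists_rng hα hC
  have hgt : 1 < top - bot := by
    by_contra h
    push Not at h
    exact hst (sturmian_of_le hirr hr h hap)
  set c0 := max (bot + 1) (top - 1) with hc0
  have hc0t : c0 < top := max_lt (by linarith) (by linarith)
  have hunc := closure_uncountable hx hirr hr hc0t
  intro hcount
  apply hunc
  set W : Set ℝ := {v : ℝ | c0 < v ∧ ∃ i, disc x α i = v} with hW
  have hM : ∀ s : ℝ, ∃ M, M ⊆ Om (ys x α s) ∧ IsMinimalSubshift M := fun s =>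
    exists_minimal ⟨_, self_mem_Om _⟩ (Om_closed _) (Om_inv _)
  choose F hF1 hF2 using hM
  -- the fibres
  have hfib : ∀ M : Set (ℕ → Bool), {s | s ∈ closure W ∧ F s = M}.Countable := by
    intro M
    have key : ∀ s s' s2, s ∈ closure W → s' ∈ closure W → s < s' → s' < s2 → F s = M →
        F s2 = M → False := by
      intro s s' s2 hs hs' h1 h2 h3 h4
      have hsc : c0 ≤ s := by
        have : closure W ⊆ Set.Ici c0 := closure_minimal (fun v hv => hv.1.le) isClosed_Ici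
        exact this hs
      have hs1 : bot + 1 ≤ s := le_trans (le_max_left _ _) hsc
      have hs2 : top - 1 ≤ s := le_trans (le_max_right _ _) hsc
      obtain ⟨v, hv1, hv2⟩ := mem_closure_iff.1 hs' (Set.Ioo s s2) isOpen_Ioo ⟨h1, h2⟩
      obtain ⟨_, a, ha⟩ := hv2
      obtain ⟨z, hz⟩ := (hF2 s).1
      have hz2 : z ∈ F s2 := by rw [h4, ← h3]; exact hz
      exact Om_disjoint hx hα0 hα1 hr hs1 hs2 (a := a) (by rw [ha]; exact hv1.1)
        (by rw [ha]; exact hv1.2) (hF1 s hz) (hF1 s2 hz2)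
    by_cases hne : ∃ s0, s0 ∈ closure W ∧ F s0 = M
    · obtain ⟨s0, h0, h0'⟩ := hne
      have hsub : {s | s ∈ closure W ∧ F s = M} ⊆
          ({s | s ∈ closure W ∧ F s = M} ∩ Set.Iio s0) ∪ ({s0} ∪
            ({s | s ∈ closure W ∧ F s = M} ∩ Set.Ioi s0)) := by
        intro s hs
        rcases lt_trichotomy s s0 with h | h | h
        · exact Or.inl ⟨hs, h⟩
        · exact Or.inr (Or.inl h)
        · exact Or.inr (Or.inr ⟨hs, h⟩)
      refine Set.Countable.mono hsub (Set.Countable.union ?_ (Set.Countable.union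
        (Set.countable_singleton _) ?_))
      · apply Set.Subsingleton.countable
        rintro s ⟨⟨hs1, hs2⟩, hs3⟩ s' ⟨⟨hs1', hs2'⟩, hs3'⟩
        rcases lt_trichotomy s s' with h | h | h
        · exact (key s s' s0 hs1 hs1' h hs3' hs2 h0').elim
        · exact h
        · exact (key s' s s0 hs1' hs1 h hs3 hs2' h0').elim
      · apply Set.Subsingleton.countable
        rintro s ⟨⟨hs1, hs2⟩, hs3⟩ s' ⟨⟨hs1', hs2'⟩, hs3'⟩
        rcases lt_trichotomy s s' with h | h | h
        · exact (key s0 s s' h0 hs1 hs3 h h0' hs2').elim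
        · exact h
        · exact (key s0 s' s h0 hs1' hs3' h h0' hs2).elim
    · have : {s | s ∈ closure W ∧ F s = M} = ∅ := by
        ext s
        simp only [Set.mem_ofPred_eq, Set.mem_empty_iff_false, iff_false]
        exact fun h => hne ⟨s, h⟩
      rw [this]
      exact Set.countable_empty
  have hcov : closure W ⊆ ⋃ M ∈ {M : Set (ℕ → Bool) | IsMinimalSubshift M ∧ M ⊆ AbClosure x},
      {s | s ∈ closure W ∧ F s = M} := by
    intro s hs
    rw [Set.mem_iUnion₂]
    exact ⟨F s, ⟨hF2 s, (hF1 s).trans (Om_subset (ys_mem hα0 hα1 hα))⟩, hs, rfl⟩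
  exact (hcount.biUnion (fun M _ => hfib M)).mono hcov

theorem main {x : ℕ → Bool} {α : ℝ} (hx : UniformlyRecurrent x) (hap : Aperiodic x)
    (hst : ¬ Sturmian x) (hirr : Irrational α) (hα : UniformFrequency x α) :
    ¬ {M : Set (ℕ → Bool) | IsMinimalSubshift M ∧ M ⊆ AbClosure x}.Countable := by
  have h1 := freq_bounds hα 1
  have h2 : (mx x 1 : ℝ) ≤ 1 := by
    obtain ⟨i, hi⟩ := exists_mx x 1
    rw [← hi]
    exact_mod_cast ones_le x i 1
  have h3 : (0 : ℝ) ≤ mn x 1 := Nat.cast_nonneg _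
  push_cast at h1
  have hα0 : 0 ≤ α := by linarith
  have hα1 : α ≤ 1 := by linarith
  by_cases hun : ∀ C : ℝ, ∃ n, C < wd x n
  · exact unbounded_case hx hα0 hα1 hα hun
  · push Not at hun
    obtain ⟨C, hC⟩ := hun
    exact bounded_case hx hα0 hα1 hα hirr hap hst hC

end Pool.Agent.Q161.AbClos
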