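import Pool.Agent.Q161.AbClosEnt

/-!
# Abelian closures of binary words: minimal subshifts (MP_fa9958_co), basics
-/

namespace Pool.Agent.Q161.AbClos

open Finset Filter Topology

/-- The shift map. -/
def shift (y : ℕ → Bool) : ℕ → Bool := fun j => y (j + 1)

/-- A minimal subshift: a nonempty closed shift-invariant set without proper nonempty closed
shift-invariant subset. -/
def IsMinimalSubshift (M : Set (ℕ → Bool)) : Prop :=
  M.Nonempty ∧ IsClosed M ∧ (∀ y ∈ M, shift y ∈ M) ∧
    ∀ K : Set (ℕ → Bool), K ⊆ M → K.Nonempty → IsClosed K → (∀ y ∈ K, shift y ∈ K) → K = M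

/-- Uniform letter frequency of the letter `1`. -/
def UniformFrequency (x : ℕ → Bool) (α : ℝ) : Prop :=
  ∀ ε : ℝ, 0 < ε → ∃ N : ℕ, ∀ n : ℕ, N ≤ n → ∀ i : ℕ, |(ones x i n : ℝ) / n - α| < ε

theorem ones_shift (y : ℕ → Bool) (i n : ℕ) : ones (shift y) i n = ones y (i + 1) n := by
  apply ones_congr
  intro j _
  unfold shift
  rw [show i + j + 1 = i + 1 + j by ring]

theorem continuous_ones (i n : ℕ) : Continuous (fun y : ℕ → Bool => ones y i n) := by
  unfold ones
  apply continuous_finset_sum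
  intro j _
  have h1 : Continuous (fun b : Bool => if b = true then (1 : ℕ) else 0) :=
    continuous_of_discreteTopology
  exact h1.comp (continuous_apply (i + j))

/-- Existence of minimal subshifts. -/
theorem exists_minimal {Y : Set (ℕ → Bool)} (h1 : Y.Nonempty) (h2 : IsClosed Y)
    (h3 : ∀ y ∈ Y, shift y ∈ Y) : ∃ M, M ⊆ Y ∧ IsMinimalSubshift M := by
  obtain ⟨M, hM1, hM2⟩ := zorn_superset_nonempty
    {K : Set (ℕ → Bool) | K.Nonempty ∧ IsClosed K ∧ ∀ y ∈ K, shift y ∈ K} (by
      intro c hc hchain hne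
      refine ⟨⋂₀ c, ⟨?_, ?_, ?_⟩, fun s hs => Set.sInter_subset_of_mem hs⟩
      · obtain ⟨K0, hK0⟩ := hne
        have : Nonempty c := ⟨⟨K0, hK0⟩⟩
        rw [Set.sInter_eq_iInter]
        apply IsCompact.nonempty_iInter_of_directed_nonempty_isCompact_isClosed
        · intro A B
          rcases hchain.total A.2 B.2 with h | h
          · exact ⟨A, subset_rfl, h⟩
          · exact ⟨B, h, subset_rfl⟩
        · exact fun A => (hc A.2).1
        · exact fun A => (hc A.2).2.1.isCompact
        · exact fun A => (hc A.2).2.1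
      · exact isClosed_sInter (fun s hs => (hc hs).2.1)
      · intro y hy s hs
        exact (hc hs).2.2 y (hy s hs)) Y ⟨h1, h2, h3⟩
  refine ⟨M, hM1, hM2.prop.1, hM2.prop.2.1, hM2.prop.2.2, ?_⟩
  intro K hKM hK1 hK2 hK3
  exact Set.Subset.antisymm hKM (hM2.le_of_le ⟨hK1, hK2, hK3⟩ hKM)

/-! ### Extremal window counts -/

theorem ones_le (x : ℕ → Bool) (i n : ℕ) : ones x i n ≤ n := by
  unfold ones
  calc _ ≤ ∑ _j ∈ range n, 1 := by
        apply Finset.sum_le_sum
        intro j _
        split_ifs <;> omega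
    _ = n := by simp

theorem ones_add (x : ℕ → Bool) (i n k : ℕ) :
    ones x i (n + k) = ones x i n + ones x (i + n) k := by
  induction k with
  | zero => simp [ones_zero]
  | succ k ih =>
    rw [← add_assoc, ones_succ, ones_succ, ih, add_assoc, add_assoc]

/-- The maximal number of ones in a window of length `n`. -/
noncomputable def mx (x : ℕ → Bool) (n : ℕ) : ℕ := sSup (Set.range (fun i => ones x i n))

/-- The minimal number of ones in a window of length `n`. -/
noncomputable def mn (x : ℕ → Bool) (n : ℕ) : ℕ := sInf (Set.range (fun i => ones x i n))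

theorem bdd_ones (x : ℕ → Bool) (n : ℕ) : BddAbove (Set.range (fun i => ones x i n)) :=
  ⟨n, by rintro _ ⟨i, rfl⟩; exact ones_le x i n⟩

theorem le_mx (x : ℕ → Bool) (i n : ℕ) : ones x i n ≤ mx x n :=
  le_csSup (bdd_ones x n) ⟨i, rfl⟩

theorem mn_le (x : ℕ → Bool) (i n : ℕ) : mn x n ≤ ones x i n :=
  Nat.sInf_le ⟨i, rfl⟩

theorem exists_mx (x : ℕ → Bool) (n : ℕ) : ∃ i, ones x i n = mx x n :=
  Nat.sSup_mem (Set.range_nonempty _) (bdd_ones x n)

theorem exists_mn (x : ℕ → Bool) (n : ℕ) : ∃ i, ones x i n = mn x n :=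
  Nat.sInf_mem (Set.range_nonempty _)

theorem ones_step (x : ℕ → Bool) (i n : ℕ) :
    ones x (i + 1) n ≤ ones x i n + 1 ∧ ones x i n ≤ ones x (i + 1) n + 1 := by
  have e1 := ones_succ x i n
  have e2 := ones_succ' x i n
  split_ifs at e1 e2 <;> omega

theorem exists_between (x : ℕ → Bool) (n c : ℕ) (h1 : mn x n ≤ c) (h2 : c ≤ mx x n) :
    ∃ k, ones x k n = c := by
  obtain ⟨i, hi⟩ := exists_mn x n
  obtain ⟨j, hj⟩ := exists_mx x n
  rcases le_total i j with h | h
  · -- least index ≥ i with ones ≥ c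
    have hex : ∃ d, c ≤ ones x (i + d) n := ⟨j - i, by rw [Nat.add_sub_cancel' h, hj]; exact h2⟩
    classical
    have hs := Nat.find_spec hex
    rcases Nat.eq_zero_or_pos (Nat.find hex) with h0 | h0
    · rw [h0, add_zero, hi] at hs
      exact ⟨i, by omega⟩
    · have hm := Nat.find_min hex (m := Nat.find hex - 1) (by omega)
      have := ones_step x (i + (Nat.find hex - 1)) n
      rw [show i + (Nat.find hex - 1) + 1 = i + Nat.find hex by omega] at this
      exact ⟨i + Nat.find hex, by omega⟩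
  · have hex : ∃ d, ones x (j + d) n ≤ c := ⟨i - j, by rw [Nat.add_sub_cancel' h, hi]; exact h1⟩
    classical
    have hs := Nat.find_spec hex
    rcases Nat.eq_zero_or_pos (Nat.find hex) with h0 | h0
    · rw [h0, add_zero, hj] at hs
      exact ⟨j, by omega⟩
    · have hm := Nat.find_min hex (m := Nat.find hex - 1) (by omega)
      have := ones_step x (j + (Nat.find hex - 1)) n
      rw [show j + (Nat.find hex - 1) + 1 = j + Nat.find hex by omega] at this
      exact ⟨j + Nat.find hex, by omega⟩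

theorem mem_AbClosure {x y : ℕ → Bool} :
    y ∈ AbClosure x ↔ ∀ i n, mn x n ≤ ones y i n ∧ ones y i n ≤ mx x n := by
  constructor
  · intro h i n
    obtain ⟨k, hk⟩ := h i n
    rw [hk]
    exact ⟨mn_le x k n, le_mx x k n⟩
  · intro h i n
    obtain ⟨k, hk⟩ := exists_between x n (ones y i n) (h i n).1 (h i n).2
    exact ⟨k, hk.symm⟩

theorem isClosed_AbClosure (x : ℕ → Bool) : IsClosed (AbClosure x) := by
  have : AbClosure x = ⋂ i, ⋂ n, {y | mn x n ≤ ones y i n ∧ ones y i n ≤ mx x n} := by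
    ext y
    rw [mem_AbClosure]
    simp only [Set.mem_iInter, Set.mem_setOf_eq]
  rw [this]
  apply isClosed_iInter
  intro i
  apply isClosed_iInter
  intro n
  exact (isClosed_discrete {c : ℕ | mn x n ≤ c ∧ c ≤ mx x n}).preimage (continuous_ones i n)

/-- The frequency lies between the extremal window densities. -/
theorem freq_bounds {x : ℕ → Bool} {α : ℝ} (h : UniformFrequency x α) (n : ℕ) :
    (mn x n : ℝ) ≤ α * n ∧ α * n ≤ mx x n := by
  rcases Nat.eq_zero_or_pos n with rfl | hn
  · have h1 := mn_le x 0 0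
    rw [ones_zero] at h1
    constructor
    · rw [Nat.le_zero.1 h1]
      simp
    · simp
  have hn' : (0 : ℝ) < n := by exact_mod_cast hn
  have hsum : ∀ T : ℕ, T * mn x n ≤ ones x 0 (T * n) ∧ ones x 0 (T * n) ≤ T * mx x n := by
    intro T
    induction T with
    | zero => simp [ones_zero]
    | succ T ih =>
      rw [show (T + 1) * n = T * n + n by ring, ones_add]
      have h1 := mn_le x (0 + T * n) n
      have h2 := le_mx x (0 + T * n) n
      constructor <;> nlinarith [ih.1, ih.2]
  have key : ∀ ε : ℝ, 0 < ε → (mn x n : ℝ) / n < α + ε ∧ α - ε < (mx x n : ℝ) / n := by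
    intro ε hε
    obtain ⟨N, hN⟩ := h ε hε
    have h1 := hN ((N + 1) * n) (by nlinarith) 0
    obtain ⟨h2, h3⟩ := hsum (N + 1)
    have hT : (0 : ℝ) < ((N + 1 : ℕ) : ℝ) := by positivity
    have h4 : (((N + 1 : ℕ) : ℝ) * mn x n) ≤ ones x 0 ((N + 1) * n) := by exact_mod_cast h2
    have h5 : (ones x 0 ((N + 1) * n) : ℝ) ≤ ((N + 1 : ℕ) : ℝ) * mx x n := by exact_mod_cast h3
    rw [abs_lt] at h1
    have h6 : (mn x n : ℝ) / n ≤ (ones x 0 ((N + 1) * n) : ℝ) / (((N + 1) * n : ℕ) : ℝ) := by
      rw [Nat.cast_mul, div_le_div_iff₀ hn' (by positivity)]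
      nlinarith
    have h7 : (ones x 0 ((N + 1) * n) : ℝ) / (((N + 1) * n : ℕ) : ℝ) ≤ (mx x n : ℝ) / n := by
      rw [Nat.cast_mul, div_le_div_iff₀ (by positivity) hn']
      nlinarith
    constructor
    · linarith [h1.2]
    · linarith [h1.1]
  constructor
  · rw [← div_le_iff₀ hn']
    exact le_of_forall_pos_lt_add (fun ε hε => (key ε hε).1)
  · rw [← le_div_iff₀ hn']
    apply le_of_forall_pos_lt_add
    intro ε hε
    linarith [(key ε hε).2]

/-- A word from its counting function. -/
noncomputable def wordOf (H : ℕ → ℤ) (j : ℕ) : Bool := decide (H (j + 1) ≠ H j)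

theorem ones_wordOf {H : ℕ → ℤ} (hH : ∀ j, H (j + 1) = H j ∨ H (j + 1) = H j + 1) (i n : ℕ) :
    (ones (wordOf H) i n : ℤ) = H (i + n) - H i := by
  induction n with
  | zero => rw [ones_zero]; simp
  | succ n ih =>
    rw [ones_succ, Nat.cast_add, ih, ← add_assoc]
    unfold wordOf
    simp only [decide_eq_true_eq]
    rcases hH (i + n) with h | h
    · rw [if_neg (by simp [h]), h]
      push_cast
      ring
    · rw [if_pos (by omega), h]
      push_cast
      ring

end Pool.Agent.Q161.AbClos
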