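import Pool.Agent.Q161.AbClosBdd

/-!
# Abelian closures of binary words: small discrepancy means Sturmian (MP_fa9958_co)
-/

namespace Pool.Agent.Q161.AbClos

open Finset Filter Topology

/-- The factor of length `n` at position `i`. -/
def fac (x : ℕ → Bool) (n i : ℕ) : Fin n → Bool := fun j => x (i + j)

theorem Factors_eq (x : ℕ → Bool) (n : ℕ) : Factors x n = Set.range (fac x n) := by
  ext w
  constructor
  · rintro ⟨i, hi⟩
    exact ⟨i, funext fun j => (hi j).symm⟩
  · rintro ⟨i, rfl⟩
    exact ⟨i, fun j => rfl⟩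

/-- An aperiodic word has a non-injective restriction of factors. -/
theorem succ_le_ncard {x : ℕ → Bool} (hx : Aperiodic x) (n : ℕ) :
    (Factors x n).ncard + 1 ≤ (Factors x (n + 1)).ncard := by
  classical
  -- the restriction map
  have hres : ∀ i, (fun j : Fin n => fac x (n + 1) i j.castSucc) = fac x n i := fun i => rfl
  by_cases hinj : ∀ i i', fac x n i = fac x n i' → fac x (n + 1) i = fac x (n + 1) i'
  · exfalso
    apply hx
    obtain ⟨i, i', hne, hii⟩ := Finite.exists_ne_map_eq_of_infinite (fac x n)
    have key : ∀ a b, fac x n a = fac x n b → ∀ k, fac x n (a + k) = fac x n (b + k) := by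
      intro a b hab k
      induction k with
      | zero => exact hab
      | succ k ih =>
        have h1 := hinj _ _ ih
        funext j
        have h2 := congrFun h1 j.succ
        unfold fac at h2 ⊢
        rw [Fin.val_succ] at h2
        rw [show a + (k + 1) + (j : ℕ) = a + k + ((j : ℕ) + 1) by ring,
          show b + (k + 1) + (j : ℕ) = b + k + ((j : ℕ) + 1) by ring]
        exact h2
    have key2 : ∀ a b, fac x n a = fac x n b → ∀ k, x (a + k) = x (b + k) := by
      intro a b hab k
      have h1 := hinj _ _ (key a b hab k)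
      have h2 := congrFun h1 0
      unfold fac at h2
      simpa using h2
    rcases lt_or_gt_of_ne hne with h | h
    · refine ⟨i, i' - i, by omega, fun t ht => ?_⟩
      have := key2 _ _ hii (t - i)
      rw [show i + (t - i) = t by omega, show i' + (t - i) = t + (i' - i) by omega] at this
      exact this.symm
    · refine ⟨i', i - i', by omega, fun t ht => ?_⟩
      have := key2 _ _ hii (t - i')
      rw [show i' + (t - i') = t by omega, show i + (t - i') = t + (i - i') by omega] at this
      exact this
  · push Not at hinj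
    obtain ⟨a, b, hab, hne⟩ := hinj
    have hsub : Factors x n ⊆ (fun (w : Fin (n + 1) → Bool) (j : Fin n) => w j.castSucc) ''
        (Factors x (n + 1) \ {fac x (n + 1) b}) := by
      rw [Factors_eq, Factors_eq]
      rintro _ ⟨i, rfl⟩
      by_cases h : fac x (n + 1) i = fac x (n + 1) b
      · refine ⟨fac x (n + 1) a, ⟨⟨a, rfl⟩, hne⟩, ?_⟩
        have h1 : fac x n i = fac x n b := by
          rw [← hres i, ← hres b, h]
        show fac x n a = fac x n i
        rw [hab, h1]
      · exact ⟨fac x (n + 1) i, ⟨⟨i, rfl⟩, h⟩, rfl⟩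
    have h1 : (Factors x n).ncard ≤ (Factors x (n + 1) \ {fac x (n + 1) b}).ncard :=
      le_trans (Set.ncard_le_ncard hsub (Set.toFinite _)) (Set.ncard_image_le (Set.toFinite _))
    have h2 : (Factors x (n + 1) \ {fac x (n + 1) b}).ncard + 1 = (Factors x (n + 1)).ncard :=
      Set.ncard_sdiff_singleton_add_one (by rw [Factors_eq]; exact ⟨b, rfl⟩) (Set.toFinite _)
    omega

theorem le_ncard {x : ℕ → Bool} (hx : Aperiodic x) (n : ℕ) : n + 1 ≤ (Factors x n).ncard := by
  induction n with
  | zero =>
    have : (Factors x 0).Nonempty := ⟨fac x 0 0, by rw [Factors_eq]; exact ⟨0, rfl⟩⟩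
    have := (Set.ncard_pos (Set.toFinite _)).2 this
    omega
  | succ n ih =>
    have := succ_le_ncard hx n
    omega

/-- The high prefixes of the window at `i`. -/
noncomputable def high (x : ℕ → Bool) (α : ℝ) (n i : ℕ) : Finset ℕ :=
  (range n).filter (fun j => α * ((j + 1 : ℕ) : ℝ) < ones x i (j + 1))

theorem fac_eq_of_high {x : ℕ → Bool} {α bot top : ℝ} (hα : Irrational α)
    (hr : Rng x α bot top) (hle : top - bot ≤ 1) {n i i' : ℕ}
    (h : high x α n i = high x α n i') : fac x n i = fac x n i' := by
  have hones : ∀ j ≤ n, ones x i j = ones x i' j := by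
    intro j hj
    rcases Nat.eq_zero_or_pos j with rfl | hj0
    · rw [ones_zero, ones_zero]
    obtain ⟨t, rfl⟩ : ∃ t, j = t + 1 := ⟨j - 1, by omega⟩
    have hne : ∀ z : ℤ, α * ((t + 1 : ℕ) : ℝ) ≠ z := by
      intro z hz
      have h1 : Irrational (α * ((t + 1 : ℕ) : ℝ)) := hα.mul_natCast (by omega)
      exact h1 ⟨(z : ℚ), by rw [hz]; push_cast; rfl⟩
    have hb : ∀ k, (ones x k (t + 1) : ℝ) - α * ((t + 1 : ℕ) : ℝ) ≤ 1 ∧
        -1 ≤ (ones x k (t + 1) : ℝ) - α * ((t + 1 : ℕ) : ℝ) := by
      intro k
      rw [disc_window]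
      have e1 := hr.lb k
      have e2 := hr.lb (k + (t + 1))
      have e3 := hr.ub k
      have e4 := hr.ub (k + (t + 1))
      constructor <;> linarith
    have hb' : ∀ k, (ones x k (t + 1) : ℝ) - α * ((t + 1 : ℕ) : ℝ) < 1 ∧
        -1 < (ones x k (t + 1) : ℝ) - α * ((t + 1 : ℕ) : ℝ) := by
      intro k
      constructor
      · refine lt_of_le_of_ne (hb k).1 (fun h0 => hne ((ones x k (t + 1) : ℤ) - 1) ?_)
        push_cast
        push_cast at h0
        linarith
      · refine lt_of_le_of_ne (hb k).2 (fun h0 => hne ((ones x k (t + 1) : ℤ) + 1) ?_)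
        push_cast
        push_cast at h0
        linarith
    have hiff : α * ((t + 1 : ℕ) : ℝ) < ones x i (t + 1) ↔
        α * ((t + 1 : ℕ) : ℝ) < ones x i' (t + 1) := by
      have h1 := congrArg (fun s => t ∈ s) h
      simp only [high, mem_filter, mem_range, eq_iff_iff] at h1
      have h2 : t < n := by omega
      simp only [h2, true_and] at h1
      exact h1
    have b1 := hb' i
    have b2 := hb' i'
    by_cases hc : α * ((t + 1 : ℕ) : ℝ) < ones x i (t + 1)
    · have hc' := hiff.1 hc
      have h3 : (ones x i (t + 1) : ℝ) < ones x i' (t + 1) + 1 := by linarith [b1.1]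
      have h4 : (ones x i' (t + 1) : ℝ) < ones x i (t + 1) + 1 := by linarith [b2.1]
      have h5 : ones x i (t + 1) < ones x i' (t + 1) + 1 := by exact_mod_cast h3
      have h6 : ones x i' (t + 1) < ones x i (t + 1) + 1 := by exact_mod_cast h4
      omega
    · have hc' : ¬ α * ((t + 1 : ℕ) : ℝ) < ones x i' (t + 1) := fun h0 => hc (hiff.2 h0)
      push Not at hc hc'
      have h3 : (ones x i (t + 1) : ℝ) < ones x i' (t + 1) + 1 := by linarith [b2.2]
      have h4 : (ones x i' (t + 1) : ℝ) < ones x i (t + 1) + 1 := by linarith [b1.2]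
      have h5 : ones x i (t + 1) < ones x i' (t + 1) + 1 := by exact_mod_cast h3
      have h6 : ones x i' (t + 1) < ones x i (t + 1) + 1 := by exact_mod_cast h4
      omega
  funext j
  have h1 := hones j (by omega)
  have h2 := hones (j + 1) (by omega)
  rw [ones_succ, ones_succ, h1] at h2
  have h3 : (if x (i + j) = true then 1 else 0) = (if x (i' + j) = true then 1 else 0) := by
    omega
  unfold fac
  cases h4 : x (i + j) <;> cases h5 : x (i' + j) <;> simp_all

theorem high_nested {x : ℕ → Bool} {α bot top : ℝ}
    (hr : Rng x α bot top) (hle : top - bot ≤ 1) {n i i' : ℕ}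
    (h : disc x α i < disc x α i') : high x α n i' ⊆ high x α n i := by
  intro t ht
  unfold high at ht ⊢
  rw [mem_filter] at ht ⊢
  refine ⟨ht.1, ?_⟩
  by_contra hc
  push Not at hc
  have w1 := disc_window x α i (t + 1)
  have w2 := disc_window x α i' (t + 1)
  have h1 : ones x i (t + 1) < ones x i' (t + 1) := by
    have := lt_of_le_of_lt hc ht.2
    exact_mod_cast this
  have h2 : (ones x i (t + 1) : ℝ) + 1 ≤ ones x i' (t + 1) := by exact_mod_cast h1
  have h3 := hr.lb (i + (t + 1))
  have h4 := hr.ub (i' + (t + 1))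
  linarith

theorem ncard_le {x : ℕ → Bool} {α bot top : ℝ} (hα : Irrational α)
    (hr : Rng x α bot top) (hle : top - bot ≤ 1) (n : ℕ) : (Factors x n).ncard ≤ n + 1 := by
  classical
  have hch : ∀ w : Fin n → Bool, ∃ i, w ∈ Factors x n → fac x n i = w := by
    intro w
    by_cases hw : w ∈ Factors x n
    · rw [Factors_eq] at hw
      obtain ⟨i, hi⟩ := hw
      exact ⟨i, fun _ => hi⟩
    · exact ⟨0, fun h => absurd h hw⟩
  choose pos hpos using hch
  have h1 := Set.ncard_le_ncard_of_injOn (s := Factors x n)
    (t := ((range (n + 1) : Finset ℕ) : Set ℕ))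
    (fun w => (high x α n (pos w)).card) (by
      intro w _
      rw [mem_coe, mem_range]
      have : (high x α n (pos w)).card ≤ (range n).card := card_filter_le _ _
      rw [card_range] at this
      omega) (by
      intro w hw w' hw' h
      simp only at h
      rw [← hpos w hw, ← hpos w' hw']
      apply fac_eq_of_high hα hr hle
      rcases lt_trichotomy (disc x α (pos w)) (disc x α (pos w')) with h1 | h1 | h1
      · exact (Finset.eq_of_subset_of_card_le (high_nested hr hle h1) h.le).symm
      · rw [disc_inj x hα h1]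
      · exact Finset.eq_of_subset_of_card_le (high_nested hr hle h1) h.ge)
    (finite_toSet _)
  rw [Set.ncard_coe_finset, card_range] at h1
  exact h1

theorem sturmian_of_le {x : ℕ → Bool} {α bot top : ℝ} (hα : Irrational α)
    (hr : Rng x α bot top) (hle : top - bot ≤ 1) (hap : Aperiodic x) : Sturmian x :=
  ⟨hap, fun n => le_antisymm (ncard_le hα hr hle n) (le_ncard hap n)⟩

end Pool.Agent.Q161.AbClos
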