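import Pool.Agent.Q161.AbClosMin

/-!
# Abelian closures of binary words: unbounded discrepancy (MP_fa9958_co)
-/

namespace Pool.Agent.Q161.AbClos

open Finset Filter Topology

/-- The counting function of the interpolated word. -/
noncomputable def Hl (x : ℕ → Bool) (α l : ℝ) (i : ℕ) : ℤ :=
  ⌊l * (ones x 0 i : ℝ) + (1 - l) * (α * i)⌋

theorem Hl_step {x : ℕ → Bool} {α l : ℝ} (hα0 : 0 ≤ α) (hα1 : α ≤ 1) (hl0 : 0 ≤ l)
    (hl1 : l ≤ 1) (i : ℕ) : Hl x α l (i + 1) = Hl x α l i ∨ Hl x α l (i + 1) = Hl x α l i + 1 := by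
  unfold Hl
  have h0 := ones_succ x 0 i
  set A := l * (ones x 0 i : ℝ) + (1 - l) * (α * i) with hA
  set A' := l * (ones x 0 (i + 1) : ℝ) + (1 - l) * (α * ((i + 1 : ℕ) : ℝ)) with hA'
  have h1 : A ≤ A' ∧ A' ≤ A + 1 := by
    rw [hA, hA', h0]
    push_cast
    have : 0 ≤ (1 - l) * α := mul_nonneg (by linarith) hα0
    have h3 : (1 - l) * α ≤ 1 - l := by nlinarith
    split_ifs <;> constructor <;> nlinarith
  have e1 := Int.floor_le A
  have e2 := Int.lt_floor_add_one A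
  have e3 := Int.floor_le A'
  have e4 := Int.lt_floor_add_one A'
  have h5 : (⌊A⌋ : ℝ) < ⌊A'⌋ + 1 := by linarith [h1.1]
  have h6 : (⌊A'⌋ : ℝ) < ⌊A⌋ + 2 := by linarith [h1.2]
  have h7 : ⌊A⌋ < ⌊A'⌋ + 1 := by exact_mod_cast h5
  have h8 : ⌊A'⌋ < ⌊A⌋ + 2 := by exact_mod_cast h6
  omega

theorem window_yl {x : ℕ → Bool} {α l : ℝ} (hα0 : 0 ≤ α) (hα1 : α ≤ 1) (hl0 : 0 ≤ l)
    (hl1 : l ≤ 1) (i n : ℕ) :
    (ones (wordOf (Hl x α l)) i n : ℝ) < (l * ones x i n + (1 - l) * (α * n)) + 1 ∧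
    (l * ones x i n + (1 - l) * (α * n)) - 1 < (ones (wordOf (Hl x α l)) i n : ℝ) := by
  have h := ones_wordOf (Hl_step (x := x) hα0 hα1 hl0 hl1) i n
  have h' : (ones (wordOf (Hl x α l)) i n : ℝ) = (Hl x α l (i + n) : ℝ) - Hl x α l i := by
    exact_mod_cast h
  have h2 := ones_add x 0 i n
  rw [zero_add] at h2
  rw [h']
  unfold Hl
  have e1 := Int.floor_le (l * (ones x 0 i : ℝ) + (1 - l) * (α * i))
  have e2 := Int.lt_floor_add_one (l * (ones x 0 i : ℝ) + (1 - l) * (α * i))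
  have e3 := Int.floor_le (l * (ones x 0 (i + n) : ℝ) + (1 - l) * (α * ((i + n : ℕ) : ℝ)))
  have e4 := Int.lt_floor_add_one (l * (ones x 0 (i + n) : ℝ) + (1 - l) * (α * ((i + n : ℕ) : ℝ)))
  rw [h2] at e3 e4 ⊢
  push_cast at e3 e4 ⊢
  constructor <;> nlinarith

theorem yl_mem {x : ℕ → Bool} {α l : ℝ} (hα0 : 0 ≤ α) (hα1 : α ≤ 1) (hl0 : 0 ≤ l)
    (hl1 : l ≤ 1) (hα : UniformFrequency x α) : wordOf (Hl x α l) ∈ AbClosure x := by
  rw [mem_AbClosure]
  intro i n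
  obtain ⟨h1, h2⟩ := window_yl (x := x) hα0 hα1 hl0 hl1 i n
  obtain ⟨h3, h4⟩ := freq_bounds hα n
  have h5 : (mn x n : ℝ) ≤ ones x i n := by exact_mod_cast mn_le x i n
  have h6 : (ones x i n : ℝ) ≤ mx x n := by exact_mod_cast le_mx x i n
  have h7 : (mn x n : ℝ) < ones (wordOf (Hl x α l)) i n + 1 := by nlinarith
  have h8 : (ones (wordOf (Hl x α l)) i n : ℝ) < mx x n + 1 := by nlinarith
  have h9 : mn x n < ones (wordOf (Hl x α l)) i n + 1 := by exact_mod_cast h7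
  have h10 : ones (wordOf (Hl x α l)) i n < mx x n + 1 := by exact_mod_cast h8
  omega

/-- The difference of the extremal window counts. -/
noncomputable def wd (x : ℕ → Bool) (n : ℕ) : ℝ := (mx x n : ℝ) - mn x n

theorem exists_rec {x : ℕ → Bool} (hx : UniformlyRecurrent x) :
    ∃ Bf : ℕ → ℕ, ∀ n K : ℕ, ∃ i ∈ Set.Iic (Bf n), ∃ j ∈ Set.Iic (Bf n),
      ones x (K + i) n = mx x n ∧ ones x (K + j) n = mn x n := by
  have : ∀ n, ∃ B, ∀ K : ℕ, ∃ i ∈ Set.Iic B, ∃ j ∈ Set.Iic B,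
      ones x (K + i) n = mx x n ∧ ones x (K + j) n = mn x n := by
    intro n
    obtain ⟨i0, hi0⟩ := exists_mx x n
    obtain ⟨j0, hj0⟩ := exists_mn x n
    obtain ⟨B1, hB1⟩ := hx i0 n
    obtain ⟨B2, hB2⟩ := hx j0 n
    refine ⟨max B1 B2, fun K => ?_⟩
    obtain ⟨m1, h1, h2, h3⟩ := hB1 K
    obtain ⟨m2, h4, h5, h6⟩ := hB2 K
    refine ⟨m1 - K, ?_, m2 - K, ?_, ?_, ?_⟩
    · rw [Set.mem_Iic]
      have := le_max_left B1 B2
      omega
    · rw [Set.mem_Iic]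
      have := le_max_right B1 B2
      omega
    · rw [show K + (m1 - K) = m1 by omega, ← hi0]
      exact ones_congr h3
    · rw [show K + (m2 - K) = m2 by omega, ← hj0]
      exact ones_congr h6
  choose Bf hBf using this
  exact ⟨Bf, hBf⟩

/-- The subshift attached to a parameter. -/
def Yl (x : ℕ → Bool) (Bf : ℕ → ℕ) (l : ℝ) : Set (ℕ → Bool) :=
  AbClosure x ∩ ((⋂ n : ℕ, ⋂ i : ℕ, ⋂ j : ℕ,
      {y | (ones y i n : ℝ) - ones y j n ≤ l * wd x n + 2}) ∩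
    (⋂ n : ℕ, ⋂ K : ℕ, ⋃ i ∈ Set.Iic (Bf n), ⋃ j ∈ Set.Iic (Bf n),
      {y | l * wd x n - 2 ≤ (ones y (K + i) n : ℝ) - ones y (K + j) n}))

theorem Yl_closed (x : ℕ → Bool) (Bf : ℕ → ℕ) (l : ℝ) : IsClosed (Yl x Bf l) := by
  have hc : ∀ i n, Continuous (fun y : ℕ → Bool => (ones y i n : ℝ)) := fun i n =>
    (continuous_of_discreteTopology (f := fun c : ℕ => (c : ℝ))).comp (continuous_ones i n)
  apply (isClosed_AbClosure x).inter
  apply IsClosed.inter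
  · refine isClosed_iInter fun n => isClosed_iInter fun i => isClosed_iInter fun j => ?_
    exact isClosed_le ((hc i n).sub (hc j n)) continuous_const
  · refine isClosed_iInter fun n => isClosed_iInter fun K => ?_
    apply Set.Finite.isClosed_biUnion (Set.finite_Iic _)
    intro i _
    apply Set.Finite.isClosed_biUnion (Set.finite_Iic _)
    intro j _
    exact isClosed_le continuous_const ((hc _ n).sub (hc _ n))

theorem Yl_inv (x : ℕ → Bool) (Bf : ℕ → ℕ) (l : ℝ) : ∀ y ∈ Yl x Bf l, shift y ∈ Yl x Bf l := by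
  intro y hy
  obtain ⟨h1, h2, h3⟩ := hy
  refine ⟨?_, ?_, ?_⟩
  · intro i n
    rw [ones_shift]
    exact h1 (i + 1) n
  · simp only [Set.mem_iInter, Set.mem_ofPred_eq] at h2 ⊢
    intro n i j
    rw [ones_shift, ones_shift]
    exact h2 n (i + 1) (j + 1)
  · simp only [Set.mem_iInter, Set.mem_iUnion, Set.mem_ofPred_eq] at h3 ⊢
    intro n K
    obtain ⟨i, hi, j, hj, h⟩ := h3 n (K + 1)
    refine ⟨i, hi, j, hj, ?_⟩
    rw [ones_shift, ones_shift, show K + i + 1 = K + 1 + i by ring,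
      show K + j + 1 = K + 1 + j by ring]
    exact h

theorem unbounded_case {x : ℕ → Bool} {α : ℝ} (hx : UniformlyRecurrent x) (hα0 : 0 ≤ α)
    (hα1 : α ≤ 1) (hα : UniformFrequency x α) (hun : ∀ C : ℝ, ∃ n, C < wd x n) :
    ¬ {M : Set (ℕ → Bool) | IsMinimalSubshift M ∧ M ⊆ AbClosure x}.Countable := by
  obtain ⟨Bf, hBf⟩ := exists_rec hx
  have hne : ∀ l : ℝ, 0 ≤ l → l ≤ 1 → (Yl x Bf l).Nonempty := by
    intro l hl0 hl1
    refine ⟨wordOf (Hl x α l), yl_mem hα0 hα1 hl0 hl1 hα, ?_, ?_⟩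
    · simp only [Set.mem_iInter, Set.mem_ofPred_eq]
      intro n i j
      have h1 := (window_yl (x := x) hα0 hα1 hl0 hl1 i n).1
      have h2 := (window_yl (x := x) hα0 hα1 hl0 hl1 j n).2
      have h3 : (mn x n : ℝ) ≤ ones x j n := by exact_mod_cast mn_le x j n
      have h4 : (ones x i n : ℝ) ≤ mx x n := by exact_mod_cast le_mx x i n
      unfold wd
      nlinarith
    · simp only [Set.mem_iInter, Set.mem_iUnion, Set.mem_ofPred_eq]
      intro n K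
      obtain ⟨i, hi, j, hj, h1, h2⟩ := hBf n K
      refine ⟨i, hi, j, hj, ?_⟩
      have h3 := (window_yl (x := x) hα0 hα1 hl0 hl1 (K + i) n).2
      have h4 := (window_yl (x := x) hα0 hα1 hl0 hl1 (K + j) n).1
      rw [h1] at h3
      rw [h2] at h4
      unfold wd
      linarith
  have hM : ∀ l : ℝ, ∃ M : Set (ℕ → Bool), l ∈ Set.Ioo (0 : ℝ) 1 →
      M ⊆ Yl x Bf l ∧ IsMinimalSubshift M := by
    intro l
    by_cases h : l ∈ Set.Ioo (0 : ℝ) 1
    · obtain ⟨M, h1, h2⟩ := exists_minimal (hne l h.1.le h.2.le) (Yl_closed x Bf l)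
        (Yl_inv x Bf l)
      exact ⟨M, fun _ => ⟨h1, h2⟩⟩
    · exact ⟨∅, fun h' => absurd h' h⟩
  choose F hF using hM
  intro hcount
  have hmaps : Set.MapsTo F (Set.Ioo (0 : ℝ) 1)
      {M : Set (ℕ → Bool) | IsMinimalSubshift M ∧ M ⊆ AbClosure x} := by
    intro l hl
    exact ⟨(hF l hl).2, (hF l hl).1.trans Set.inter_subset_left⟩
  have hlt : ∀ l ∈ Set.Ioo (0 : ℝ) 1, ∀ l' ∈ Set.Ioo (0 : ℝ) 1, l < l' → F l ≠ F l' := by
    intro l hl l' hl' hll heq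
    obtain ⟨y, hy⟩ := (hF l hl).2.1
    have hy1 := (hF l hl).1 hy
    rw [heq] at hy
    have hy2 := (hF l' hl').1 hy
    obtain ⟨n, hn⟩ := hun (4 / (l' - l))
    have h1 := hy1.2.1
    have h2 := hy2.2.2
    simp only [Set.mem_iInter, Set.mem_iUnion, Set.mem_ofPred_eq] at h1 h2
    obtain ⟨i, _, j, _, h3⟩ := h2 n 0
    have h4 := h1 n (0 + i) (0 + j)
    rw [div_lt_iff₀ (by linarith)] at hn
    nlinarith
  have hinj : Set.InjOn F (Set.Ioo (0 : ℝ) 1) := by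
    intro l hl l' hl' h
    rcases lt_trichotomy l l' with h1 | h1 | h1
    · exact absurd h (hlt l hl l' hl' h1)
    · exact h1
    · exact absurd h.symm (hlt l' hl' l hl h1)
  have := Set.MapsTo.countable_of_injOn hmaps hinj hcount
  rw [Cardinal.Real.Ioo_countable_iff] at this
  linarith

end Pool.Agent.Q161.AbClos
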