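import Mathlib

/-!
# Asymptotic critical exponent under injective morphisms (MP_52ae34_co)
-/

namespace Pool.Agent.Q161.AceInj

open Filter Finset

/-- `u = v ^ (|u| / |v|)`: `v` is nonempty and `u` is a prefix of `v v v ⋯`. -/
def IsPow {α : Type*} (u v : List α) : Prop := v ≠ [] ∧ ∀ j < u.length, u[j]? = v[j % v.length]?

/-- The fractional exponent. -/
noncomputable def expo {α : Type*} (u : List α) : ENNReal :=
  ⨆ v : List α, ⨆ _ : IsPow u v, (u.length : ENNReal) / v.length

/-- The factors of length `m`. -/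
def Fact {α : Type*} (w : ℕ → α) (m : ℕ) : Set (List α) :=
  {u | ∃ i, u = List.ofFn (fun j : Fin m => w (i + j))}

/-- The asymptotic critical exponent. -/
noncomputable def ACE {α : Type*} (w : ℕ → α) : ENNReal :=
  limsup (fun m => ⨆ u ∈ Fact w m, expo u) atTop

/-- `y` is the image of `w` under the morphism given by `h`. -/
def IsImage {α β : Type*} (h : α → List β) (w : ℕ → α) (y : ℕ → β) : Prop :=
  ∀ k, ∀ j < ((List.ofFn (fun t : Fin k => w t)).flatMap h).length,
    ((List.ofFn (fun t : Fin k => w t)).flatMap h)[j]? = some (y j)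

/-! ### Segments -/

variable {α β : Type*}

/-- The factor of length `n` at position `i`. -/
def seg (w : ℕ → α) (i n : ℕ) : List α := List.ofFn (fun j : Fin n => w (i + j))

theorem seg_length (w : ℕ → α) (i n : ℕ) : (seg w i n).length = n := by simp [seg]

theorem seg_get (w : ℕ → α) {i n j : ℕ} (h : j < n) : (seg w i n)[j]? = some (w (i + j)) := by
  unfold seg
  rw [List.getElem?_eq_getElem (by simpa using h)]
  simp

theorem seg_ext {w w' : ℕ → α} {i i' n : ℕ} (h : ∀ j < n, w (i + j) = w' (i' + j)) :
    seg w i n = seg w' i' n := by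
  apply List.ext_getElem?
  intro j
  rcases lt_or_ge j n with hj | hj
  · rw [seg_get w hj, seg_get w' hj, h j hj]
  · rw [List.getElem?_eq_none (by rw [seg_length]; exact hj),
      List.getElem?_eq_none (by rw [seg_length]; exact hj)]

theorem seg_add (w : ℕ → α) (i n k : ℕ) : seg w i (n + k) = seg w i n ++ seg w (i + n) k := by
  apply List.ext_getElem?
  intro j
  rcases lt_or_ge j n with hj | hj
  · rw [seg_get w (by omega), List.getElem?_append_left (by rw [seg_length]; exact hj),
      seg_get w hj]
  · rw [List.getElem?_append_right (by rw [seg_length]; exact hj), seg_length]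
    rcases lt_or_ge j (n + k) with hj2 | hj2
    · rw [seg_get w hj2, seg_get w (by omega), show i + n + (j - n) = i + j by omega]
    · rw [List.getElem?_eq_none (by rw [seg_length]; exact hj2),
        List.getElem?_eq_none (by rw [seg_length]; omega)]

/-- The parse data of an image word. -/
structure Parse (h : α → List β) (w : ℕ → α) (y : ℕ → β) (P : ℕ → ℕ) (B : ℕ) : Prop where
  hs : ∀ k, P (k + 1) = P k + (h (w k)).length
  h0 : P 0 = 0
  pos : ∀ a, 0 < (h a).length
  bd : ∀ a, (h a).length ≤ B
  hy : ∀ k o, o < (h (w k)).length → (h (w k))[o]? = some (y (P k + o))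

theorem Parse.img {h : α → List β} {w : ℕ → α} {y : ℕ → β} {P : ℕ → ℕ} {B : ℕ}
    (hp : Parse h w y P B) (i n : ℕ) :
    (seg w i n).flatMap h = seg y (P i) (P (i + n) - P i) ∧ P i ≤ P (i + n) := by
  induction n with
  | zero => simp [seg]
  | succ n ih =>
    have h1 := hp.hs (i + n)
    rw [← add_assoc]
    refine ⟨?_, by omega⟩
    rw [seg_add, List.flatMap_append, ih.1, h1,
      show P (i + n) + (h (w (i + n))).length - P i =
        (P (i + n) - P i) + (h (w (i + n))).length by omega, seg_add,
      show P i + (P (i + n) - P i) = P (i + n) by omega]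
    congr 1
    have h2 : seg w (i + n) 1 = [w (i + n)] := by simp [seg]
    rw [h2]
    simp only [List.flatMap_cons, List.flatMap_nil, List.append_nil]
    apply List.ext_getElem?
    intro j
    rcases lt_or_ge j (h (w (i + n))).length with hj | hj
    · rw [hp.hy _ _ hj, seg_get y hj]
    · rw [List.getElem?_eq_none hj, List.getElem?_eq_none (by rw [seg_length]; exact hj)]

theorem Parse.strictMono {h : α → List β} {w : ℕ → α} {y : ℕ → β} {P : ℕ → ℕ} {B : ℕ}
    (hp : Parse h w y P B) : StrictMono P := by
  apply strictMono_nat_of_lt_succ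
  intro k
  rw [hp.hs]
  have := hp.pos (w k)
  omega

theorem Parse.le_mul {h : α → List β} {w : ℕ → α} {y : ℕ → β} {P : ℕ → ℕ} {B : ℕ}
    (hp : Parse h w y P B) (i n : ℕ) : P (i + n) ≤ P i + B * n := by
  induction n with
  | zero => simp
  | succ n ih =>
    have h1 := hp.hs (i + n)
    have h2 := hp.bd (w (i + n))
    rw [← add_assoc, h1]
    nlinarith

/-- The index of the block containing a position. -/
theorem Parse.exists_idx {h : α → List β} {w : ℕ → α} {y : ℕ → β} {P : ℕ → ℕ} {B : ℕ}
    (hp : Parse h w y P B) (q : ℕ) : ∃ i, P i ≤ q ∧ q < P (i + 1) := by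
  have hex : ∃ i, q < P (i + 1) := by
    refine ⟨q, ?_⟩
    have := hp.strictMono.le_apply (x := q + 1)
    omega
  classical
  refine ⟨Nat.find hex, ?_, Nat.find_spec hex⟩
  rcases Nat.eq_zero_or_pos (Nat.find hex) with h0 | h0
  · rw [h0, hp.h0]
    exact Nat.zero_le _
  · have := Nat.find_min hex (m := Nat.find hex - 1) (by omega)
    rw [show Nat.find hex - 1 + 1 = Nat.find hex by omega] at this
    omega

/-! ### Loops -/

theorem period_of_comm {w : ℕ → α} {i n i' n' : ℕ}
    (h : seg w i n ++ seg w i' n' = seg w i' n' ++ seg w i n) :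
    ∀ j, j + n' < n → w (i + j) = w (i + j + n') := by
  intro j hj
  have h1 : (seg w i n ++ seg w i' n')[j + n']? = (seg w i' n' ++ seg w i n)[j + n']? := by rw [h]
  rw [List.getElem?_append_left (by rw [seg_length]; exact hj), seg_get w hj,
    List.getElem?_append_right (by rw [seg_length]; omega), seg_length,
    show j + n' - n' = j by omega, seg_get w (by omega)] at h1
  have := Option.some.inj h1
  rw [← this]
  congr 1
  ring

theorem seg_periodic {g : ℕ → β} {p : ℕ} (hg : ∀ j, g (j + p) = g j) {a b n : ℕ}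
    (hab : a % p = b % p) : seg g a n = seg g b n := by
  have key : ∀ j, g j = g (j % p) := by
    intro j
    have : ∀ t r, g (r + t * p) = g r := by
      intro t
      induction t with
      | zero => intro r; simp
      | succ t ih =>
        intro r
        rw [show r + (t + 1) * p = (r + t * p) + p by ring, hg, ih]
    conv_lhs => rw [← Nat.mod_add_div j p, mul_comm]
    exact this _ _
  apply seg_ext
  intro j _
  rw [key (a + j), key (b + j), Nat.add_mod, hab, ← Nat.add_mod]

/-- A pair of close elements. -/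
theorem exists_close {A : Finset ℕ} {lo hi : ℕ} (hlo : ∀ a ∈ A, lo ≤ a) (hhi : ∀ a ∈ A, a ≤ hi)
    (hc : 2 ≤ A.card) : ∃ a ∈ A, ∃ b ∈ A, a < b ∧ (b - a) * (A.card - 1) ≤ hi - lo := by
  by_contra hcon
  push Not at hcon
  set V := A.card - 1 with hV
  have hV0 : 0 < V := by omega
  -- all gaps are at least `g`
  set g := (hi - lo) / V + 1 with hg
  have hg0 : 0 < g := Nat.succ_pos _
  have hgap : ∀ a ∈ A, ∀ b ∈ A, a < b → g ≤ b - a := by
    intro a ha b hb hab
    have h1 := hcon a ha b hb hab
    have h2 : (hi - lo) / V < b - a := by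
      rw [Nat.div_lt_iff_lt_mul hV0]
      exact h1
    exact h2
  have hinj : Set.InjOn (fun a => (a - lo) / g) (A : Set ℕ) := by
    intro a ha b hb hab
    simp only at hab
    by_contra hne
    rcases lt_or_gt_of_ne hne with h | h
    · have h1 := hgap a ha b hb h
      have h2 := hlo a ha
      have h3 : (a - lo) / g + 1 ≤ (b - lo) / g := by
        rw [← Nat.add_div_right _ hg0]
        exact Nat.div_le_div_right (by omega)
      omega
    · have h1 := hgap b hb a ha h
      have h2 := hlo b hb
      have h3 : (b - lo) / g + 1 ≤ (a - lo) / g := by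
        rw [← Nat.add_div_right _ hg0]
        exact Nat.div_le_div_right (by omega)
      omega
  have hmaps : ∀ a ∈ A, (fun a => (a - lo) / g) a ∈ Finset.range V := by
    intro a ha
    rw [Finset.mem_range, Nat.div_lt_iff_lt_mul hg0]
    have h1 := hhi a ha
    have h2 : hi - lo < V * g := by
      rw [hg]
      exact Nat.lt_mul_div_succ _ hV0
    omega
  have := Finset.card_le_card_of_injOn _ hmaps hinj
  rw [Finset.card_range] at this
  omega

theorem Parse.loop {h : α → List β} {w : ℕ → α} {y : ℕ → β} {P : ℕ → ℕ} {B : ℕ}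
    (hp : Parse h w y P B) (hinj : Function.Injective (fun u : List α => u.flatMap h))
    {s m p : ℕ} {g : ℕ → β} (hg : ∀ j, g (j + p) = g j)
    (hrun : ∀ j < m, y (s + j) = g j) {A : Finset ℕ} {r : ℕ}
    (hA : ∀ i ∈ A, s ≤ P i ∧ P i ≤ s + m ∧ (P i - s) % p = r) (hc : 2 ≤ A.card) :
    ∃ lo ∈ A, ∃ hi ∈ A, (∀ a ∈ A, lo ≤ a) ∧ (∀ a ∈ A, a ≤ hi) ∧
      ∃ d, 0 < d ∧ d * (A.card - 1) ≤ hi - lo ∧
        ∀ j, lo ≤ j → j + d < hi → w j = w (j + d) := by
  have hne : A.Nonempty := Finset.card_pos.1 (by omega)
  set lo := A.min' hne with hlo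
  set hi := A.max' hne with hhi
  have hlo1 : ∀ a ∈ A, lo ≤ a := fun a ha => Finset.min'_le A a ha
  have hhi1 : ∀ a ∈ A, a ≤ hi := fun a ha => Finset.le_max' A a ha
  have hloA : lo ∈ A := Finset.min'_mem A hne
  have hhiA : hi ∈ A := Finset.max'_mem A hne
  refine ⟨lo, hloA, hi, hhiA, hlo1, hhi1, ?_⟩
  obtain ⟨a, ha, b, hb, hab, hgap⟩ := exists_close hlo1 hhi1 hc
  refine ⟨b - a, by omega, hgap, ?_⟩
  -- images of segments between elements of `A`
  have himg : ∀ i ∈ A, ∀ i' ∈ A, i ≤ i' →
      (seg w i (i' - i)).flatMap h = seg g r (P i' - P i) ∧ p ∣ P i' - P i := by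
    intro i hi' i' hi'' hii
    obtain ⟨h1, h2⟩ := hp.img i (i' - i)
    rw [show i + (i' - i) = i' by omega] at h1 h2
    obtain ⟨e1, e2, e3⟩ := hA i hi'
    obtain ⟨f1, f2, f3⟩ := hA i' hi''
    constructor
    · rw [h1]
      have : seg y (P i) (P i' - P i) = seg g (P i - s) (P i' - P i) := by
        apply seg_ext
        intro j hj
        have := hrun (P i - s + j) (by omega)
        rw [show s + (P i - s + j) = P i + j by omega] at this
        exact this
      rw [this]
      apply seg_periodic hg
      rw [e3, ← e3, Nat.mod_mod]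
    · have : (P i' - s) % p = (P i - s) % p := by rw [e3, f3]
      have h3 := (Nat.modEq_iff_dvd' (by omega : P i - s ≤ P i' - s)).1 this.symm
      rw [show P i' - s - (P i - s) = P i' - P i by omega] at h3
      exact h3
  obtain ⟨z1, z2⟩ := himg a ha b hb hab.le
  obtain ⟨Z1, Z2⟩ := himg lo hloA hi hhiA (hlo1 hi hhiA)
  have hcomm : seg w lo (hi - lo) ++ seg w a (b - a) = seg w a (b - a) ++ seg w lo (hi - lo) := by
    apply hinj
    simp only [List.flatMap_append]
    rw [z1, Z1]
    have e1 : seg g r (P b - P a) = seg g (r + (P hi - P lo)) (P b - P a) := by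
      apply seg_periodic hg
      obtain ⟨t, ht⟩ := Z2
      rw [ht, Nat.add_mul_mod_self_left]
    have e2 : seg g r (P hi - P lo) = seg g (r + (P b - P a)) (P hi - P lo) := by
      apply seg_periodic hg
      obtain ⟨t, ht⟩ := z2
      rw [ht, Nat.add_mul_mod_self_left]
    conv_lhs => rw [e1, ← seg_add]
    conv_rhs => rw [e2, ← seg_add]
    rw [add_comm]
  intro j hj1 hj2
  have := period_of_comm hcomm (j - lo) (by omega)
  rw [show lo + (j - lo) = j by omega] at this
  exact this

end Pool.Agent.Q161.AceInj
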