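import Pool.Agent.Q161.AceInj

/-!
# Asymptotic critical exponent under injective morphisms, II (MP_52ae34_co)
-/

namespace Pool.Agent.Q161.AceInj

open Filter Finset

variable {α β : Type*}

theorem periodic_mul {g : ℕ → β} {p : ℕ} (hg : ∀ j, g (j + p) = g j) (t r : ℕ) :
    g (r + t * p) = g r := by
  induction t with
  | zero => simp
  | succ t ih => rw [show r + (t + 1) * p = (r + t * p) + p by ring, hg, ih]

theorem periodic_mod {g : ℕ → β} {p : ℕ} (hg : ∀ j, g (j + p) = g j) {a b : ℕ}
    (h : a % p = b % p) : g a = g b := by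
  rw [← Nat.mod_add_div a p, ← Nat.mod_add_div b p, mul_comm p (a / p), mul_comm p (b / p),
    periodic_mul hg, periodic_mul hg, h]

/-- An unbordered rotation of the period. -/
theorem exists_unbordered {g : ℕ → β} {p : ℕ} (hp : 0 < p) (hg : ∀ j, g (j + p) = g j)
    (hmin : ∀ d, 0 < d → d < p → ∃ j, g (j + d) ≠ g j) :
    ∃ ρ < p, ∀ d, 0 < d → d < p → ∃ j < d, g (ρ + j) ≠ g (ρ + (p - d) + j) := by
  classical
  let _ : LinearOrder β := IsWellOrder.linearOrder WellOrderingRel
  obtain ⟨ρ, hρ, hle⟩ := Finset.exists_min_image (range p)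
    (fun ρ => toLex (fun j : Fin p => g (ρ + j))) ⟨0, mem_range.2 hp⟩
  rw [mem_range] at hρ
  refine ⟨ρ, hρ, fun d hd0 hdp => ?_⟩
  by_contra hcon
  push Not at hcon
  -- no rotation is smaller
  have hnlt : ∀ ρ' i, i < p → (∀ j < i, g (ρ' + j) = g (ρ + j)) → ¬ g (ρ' + i) < g (ρ + i) := by
    intro ρ' i hi h1 h2
    have h3 := hle (ρ' % p) (mem_range.2 (Nat.mod_lt _ hp))
    have hmod : ∀ j, g (ρ' % p + j) = g (ρ' + j) := by
      intro j
      apply periodic_mod hg
      rw [Nat.add_mod, Nat.mod_mod, ← Nat.add_mod]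
    refine absurd h3 (not_le.2 ?_)
    refine ⟨⟨i, hi⟩, ?_, ?_⟩
    · intro j hj
      show g (ρ' % p + j) = g (ρ + j)
      rw [hmod]
      exact h1 j hj
    · show g (ρ' % p + i) < g (ρ + i)
      rw [hmod]
      exact h2
  -- the two factors agree
  have hz : ∀ t < p - d, g (ρ + d + t) = g (ρ + t) := by
    intro t
    induction t using Nat.strong_induction_on with
    | _ t ih =>
      intro ht
      rcases lt_trichotomy (g (ρ + d + t)) (g (ρ + t)) with h | h | h
      · exact absurd h (hnlt (ρ + d) t (by omega) (fun j hj => ih j hj (by omega)))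
      · exact h
      · exfalso
        refine hnlt (ρ + (p - d)) (d + t) (by omega) ?_ ?_
        · intro j hj
          rcases lt_or_ge j d with hjd | hjd
          · exact (hcon j hjd).symm
          · obtain ⟨j', rfl⟩ : ∃ j', j = d + j' := ⟨j - d, by omega⟩
            have e1 : g (ρ + (p - d) + (d + j')) = g (ρ + j') := by
              rw [show ρ + (p - d) + (d + j') = ρ + j' + p by omega, hg]
            rw [e1, ← ih j' (by omega) (by omega), add_assoc]
        · rw [show ρ + (p - d) + (d + t) = ρ + t + p by omega, hg, ← add_assoc]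
          exact h
  obtain ⟨j, hj⟩ := hmin d hd0 hdp
  apply hj
  -- reduce `j` to `ρ + t` with `t < p`
  obtain ⟨t, ht, hjt⟩ : ∃ t < p, j % p = (ρ + t) % p := by
    refine ⟨(j + (p - ρ)) % p, Nat.mod_lt _ hp, ?_⟩
    rw [Nat.add_mod, Nat.mod_mod, ← Nat.add_mod, show ρ + (j + (p - ρ)) = j + p by omega,
      Nat.add_mod_right]
  have e1 : g j = g (ρ + t) := periodic_mod hg hjt
  have e2 : g (j + d) = g (ρ + t + d) := by
    apply periodic_mod hg
    rw [Nat.add_mod, hjt, ← Nat.add_mod]
  rw [e1, e2]
  rcases lt_or_ge t (p - d) with h | h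
  · rw [← hz t h]
    congr 1
    ring
  · obtain ⟨t', rfl⟩ : ∃ t', t = p - d + t' := ⟨t - (p - d), by omega⟩
    have h1 := hcon t' (by omega)
    rw [show ρ + (p - d + t') + d = ρ + t' + p by omega, hg, h1, add_assoc]

section Count

variable {h : α → List β} {w : ℕ → α} {y : ℕ → β} {P : ℕ → ℕ} {B : ℕ}

/-- The exponent bound for a long factor of `w`. -/
def WBound (w : ℕ → α) (M0 : ℕ) (c : ℝ) : Prop :=
  ∀ i m d, M0 ≤ m → 0 < d → (∀ j, i ≤ j → j + d < i + m → w j = w (j + d)) → (m : ℝ) ≤ c * d

theorem Parse.fibre (hp : Parse h w y P B)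
    (hinj : Function.Injective (fun u : List α => u.flatMap h)) {M0 : ℕ} {c : ℝ}
    (hw : WBound w M0 c) {s m p q0 o : ℕ} {g : ℕ → β} (hg : ∀ j, g (j + p) = g j)
    (hrun : ∀ j < m, y (s + j) = g j) (hpp : 0 < p) (hq : B ≤ q0)
    {T : Finset ℕ} {idx : ℕ → ℕ} (hT : ∀ k ∈ T, P (idx k) + o = s + q0 + k * p ∧ o < B ∧
      q0 + k * p ≤ m) (hc : 2 ≤ T.card) (hlong : M0 * B ≤ (T.card - 1) * p) :
    ((T.card - 1 : ℕ) : ℝ) ≤ c := by
  classical
  have hidx : ∀ k ∈ T, ∀ k' ∈ T, idx k ≤ idx k' → k ≤ k' := by
    intro k hk k' hk' hle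
    have h1 := hp.strictMono.monotone hle
    have h2 := (hT k hk).1
    have h3 := (hT k' hk').1
    have h4 : k * p ≤ k' * p := by omega
    exact Nat.le_of_mul_le_mul_right h4 hpp
  have hinj2 : Set.InjOn idx (T : Set ℕ) := by
    intro k hk k' hk' he
    exact le_antisymm (hidx k hk k' hk' he.le) (hidx k' hk' k hk he.ge)
  set A := T.image idx with hA
  have hcard : A.card = T.card := Finset.card_image_of_injOn hinj2
  obtain ⟨lo, hlo, hi, hhi, hlo1, hhi1, d, hd0, hd1, hd2⟩ := hp.loop hinj hg hrun
    (A := A) (r := (q0 - o) % p) (by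
      intro i hi
      rw [hA, mem_image] at hi
      obtain ⟨k, hk, rfl⟩ := hi
      obtain ⟨h1, h2, h3⟩ := hT k hk
      refine ⟨by omega, by omega, ?_⟩
      rw [show P (idx k) - s = (q0 - o) + k * p by omega, Nat.add_mul_mod_self_right]) (by omega)
  rw [hcard] at hd1
  rw [hA, mem_image] at hlo hhi
  obtain ⟨kl, hkl, rfl⟩ := hlo
  obtain ⟨kh, hkh, rfl⟩ := hhi
  have hsub : T ⊆ Finset.Icc kl kh := by
    intro k hk
    rw [Finset.mem_Icc]
    exact ⟨hidx kl hkl k hk (hlo1 _ (mem_image_of_mem _ hk)),
      hidx k hk kh hkh (hhi1 _ (mem_image_of_mem _ hk))⟩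
  have hcT := Finset.card_le_card hsub
  rw [Nat.card_Icc] at hcT
  have hle : idx kl ≤ idx kh := hlo1 _ (mem_image_of_mem _ hkh)
  have h1 := hp.le_mul (idx kl) (idx kh - idx kl)
  rw [show idx kl + (idx kh - idx kl) = idx kh by omega] at h1
  have h2 := (hT kl hkl).1
  have h3 := (hT kh hkh).1
  have h4 : (T.card - 1) * p ≤ B * (idx kh - idx kl) := by
    have : (T.card - 1) * p ≤ (kh - kl) * p := Nat.mul_le_mul_right _ (by omega)
    have h5 : (kh - kl) * p = kh * p - kl * p := Nat.sub_mul _ _ _
    omega
  have hB : 0 < B := by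
    have := (hT kl hkl).2.1
    omega
  have h5 : M0 ≤ idx kh - idx kl := by
    have : M0 * B ≤ (idx kh - idx kl) * B := by
      rw [mul_comm (idx kh - idx kl)]
      omega
    exact Nat.le_of_mul_le_mul_right this hB
  have h6 := hw (idx kl) (idx kh - idx kl) d h5 hd0 (by
    intro j hj1 hj2
    exact hd2 j hj1 (by omega))
  have h7 : ((d * (T.card - 1) : ℕ) : ℝ) ≤ ((idx kh - idx kl : ℕ) : ℝ) := by exact_mod_cast hd1
  rw [Nat.cast_mul] at h7
  have hd : (0 : ℝ) < d := by exact_mod_cast hd0
  have h8 : (d : ℝ) * ((T.card - 1 : ℕ) : ℝ) ≤ d * c := by linarith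
  exact le_of_mul_le_mul_left h8 hd

/-- The two bounds for the length of a periodic run in the image. -/
theorem Parse.run_bounds [Fintype α] (hp : Parse h w y P B)
    (hinj : Function.Injective (fun u : List α => u.flatMap h)) {M0 : ℕ} {c : ℝ}
    (hw : WBound w M0 c) {s m p : ℕ} (hpp : 0 < p)
    (hrun : ∀ j, s ≤ j → j + p < s + m → y j = y (j + p)) :
    m ≤ (B * (M0 * B + ⌊c⌋₊ + 2) + 1) * p + 2 * B ∧
    (M0 * B ≤ p → B < p → p ≤ m →
      (∀ d, 0 < d → d < p → ∃ j, s ≤ j ∧ j + d < s + m ∧ y j ≠ y (j + d)) →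
      m ≤ ((⌊c⌋₊ + 1) * Fintype.card α + 1) * p + 2 * B) := by
  classical
  set g : ℕ → β := fun j => y (s + j % p) with hgdef
  have hg : ∀ j, g (j + p) = g j := by
    intro j
    show y (s + (j + p) % p) = y (s + j % p)
    rw [Nat.add_mod_right]
  have hrun2 : ∀ j < m, y (s + j) = g j := by
    intro j
    induction j using Nat.strong_induction_on with
    | _ j ih =>
      intro hj
      rcases lt_or_ge j p with h1 | h1
      · show y (s + j) = y (s + j % p)
        rw [Nat.mod_eq_of_lt h1]
      · have h2 := hrun (s + (j - p)) (by omega) (by omega)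
        rw [show s + (j - p) + p = s + j by omega] at h2
        rw [← h2, ih (j - p) (by omega) (by omega), ← hg (j - p), show j - p + p = j by omega]
  choose idx hidx1 hidx2 using hp.exists_idx
  -- general facts on the cuts with residue `ρ`
  have key : ∀ ρ < p, ∃ q0, B ≤ q0 ∧ q0 % p = ρ ∧
      ∀ k < (m - 2 * B) / p, q0 + k * p + B ≤ m := by
    intro ρ hρ
    refine ⟨B + (ρ + B * (p - 1)) % p, Nat.le_add_right _ _, ?_, ?_⟩
    · rw [Nat.add_mod, Nat.mod_mod, ← Nat.add_mod]
      have : B + (ρ + B * (p - 1)) = ρ + B * p := by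
        obtain ⟨p', rfl⟩ : ∃ p', p = p' + 1 := ⟨p - 1, by omega⟩
        rw [Nat.add_sub_cancel]
        ring
      rw [this, Nat.add_mul_mod_self_right, Nat.mod_eq_of_lt hρ]
    · intro k hk
      have h1 := Nat.mod_lt (ρ + B * (p - 1)) hpp
      have h2 : (k + 1) * p ≤ m - 2 * B := by
        calc (k + 1) * p ≤ ((m - 2 * B) / p) * p := Nat.mul_le_mul_right _ hk
          _ ≤ _ := Nat.div_mul_le_self _ _
      rw [add_mul, one_mul] at h2
      omega
  have hoff : ∀ q, q - P (idx q) < B := by
    intro q
    have h1 := hidx1 q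
    have h2 := hidx2 q
    have h3 := hp.hs (idx q)
    have h4 := hp.bd (w (idx q))
    omega
  have hm : m ≤ ((m - 2 * B) / p + 1) * p + 2 * B := by
    have h1 := Nat.div_add_mod (m - 2 * B) p
    have h2 := Nat.mod_lt (m - 2 * B) hpp
    rw [add_mul, one_mul, mul_comm ((m - 2 * B) / p)]
    omega
  set J := (m - 2 * B) / p with hJ
  constructor
  · obtain ⟨q0, hq1, _, hq3⟩ := key 0 hpp
    have hcount := Finset.card_le_mul_card_image_of_maps_to (s := range J) (t := range B)
      (f := fun k => (s + q0 + k * p) - P (idx (s + q0 + k * p)))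
      (fun k _ => mem_range.2 (hoff _)) (M0 * B + ⌊c⌋₊ + 2) (by
        intro o _
        by_contra hcon
        push Not at hcon
        have h1 := hp.fibre hinj hw (m := m) (q0 := q0) (o := o) hg hrun2 hpp hq1
          (T := (range J).filter (fun k => (s + q0 + k * p) - P (idx (s + q0 + k * p)) = o))
          (idx := fun k => idx (s + q0 + k * p)) (by
            intro k hk
            rw [mem_filter, mem_range] at hk
            have h1 := hidx1 (s + q0 + k * p)
            have h2 := hoff (s + q0 + k * p)
            have h3 := hq3 k hk.1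
            exact ⟨by omega, by omega, by omega⟩) (by omega) (by
            have : M0 * B ≤ (Finset.card ((range J).filter
              (fun k => (s + q0 + k * p) - P (idx (s + q0 + k * p)) = o))) - 1 := by omega
            exact le_trans this (Nat.le_mul_of_pos_right _ hpp))
        have h2 := Nat.le_floor h1
        omega)
    rw [card_range, card_range] at hcount
    refine le_trans hm ?_
    have : J + 1 ≤ B * (M0 * B + ⌊c⌋₊ + 2) + 1 := by
      rw [mul_comm B]
      omega
    have h2 := Nat.mul_le_mul_right p this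
    omega
  · intro hM hBp hpm hmin
    obtain ⟨ρ, hρ, hub⟩ := exists_unbordered hpp hg (by
      intro d hd0 hdp
      obtain ⟨j, h1, h2, h3⟩ := hmin d hd0 hdp
      refine ⟨j - s, fun he => h3 ?_⟩
      rw [show j = s + (j - s) by omega, hrun2 (j - s) (by omega), add_assoc,
        hrun2 (j - s + d) (by omega)]
      exact he.symm)
    obtain ⟨q0, hq1, hq2, hq3⟩ := key ρ hρ
    -- the offset is determined by the letter
    have hlet : ∀ k < J, ∀ k' < J, w (idx (s + q0 + k * p)) = w (idx (s + q0 + k' * p)) →
        (s + q0 + k * p) - P (idx (s + q0 + k * p)) ≤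
          (s + q0 + k' * p) - P (idx (s + q0 + k' * p)) := by
      intro k hk k' hk' hww
      by_contra hcon
      push Not at hcon
      set i := idx (s + q0 + k * p) with hi
      set i' := idx (s + q0 + k' * p) with hi'
      set o := (s + q0 + k * p) - P i with ho
      set o' := (s + q0 + k' * p) - P i' with ho'
      have e1 := hidx1 (s + q0 + k * p)
      have e2 := hidx2 (s + q0 + k * p)
      have e1' := hidx1 (s + q0 + k' * p)
      have e2' := hidx2 (s + q0 + k' * p)
      rw [← hi] at e1 e2
      rw [← hi'] at e1' e2'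
      rw [hp.hs] at e2 e2'
      have e3 := hp.bd (w i)
      have e4 := hq3 k hk
      have e5 := hq3 k' hk'
      obtain ⟨j, hj, hne⟩ := hub (o - o') (by omega) (by omega)
      apply hne
      -- left side: text right of the cut `k'`; right side: text left of the cut `k`
      have f1 : g (ρ + j) = y (s + q0 + k' * p + j) := by
        rw [show s + q0 + k' * p + j = s + (q0 + k' * p + j) by ring, hrun2 _ (by omega)]
        apply periodic_mod hg
        rw [show q0 + k' * p + j = (q0 + j) + k' * p by ring, Nat.add_mul_mod_self_right,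
          Nat.add_mod q0 j, hq2, Nat.add_mod, Nat.mod_eq_of_lt hρ]
      have f2 : g (ρ + (p - (o - o')) + j) = y (s + q0 + k * p - (o - o') + j) := by
        rw [show s + q0 + k * p - (o - o') + j = s + (q0 + k * p - (o - o') + j) by omega,
          hrun2 _ (by omega)]
        apply periodic_mod hg
        have h1 : (ρ + (p - (o - o')) + j + (o - o')) % p =
            (q0 + k * p - (o - o') + j + (o - o')) % p := by
          rw [show ρ + (p - (o - o')) + j + (o - o') = ρ + j + p by omega, Nat.add_mod_right,
            show q0 + k * p - (o - o') + j + (o - o') = (q0 + j) + k * p by omega,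
            Nat.add_mul_mod_self_right, Nat.add_mod q0 j, hq2, Nat.add_mod, Nat.mod_eq_of_lt hρ]
        exact Nat.ModEq.add_right_cancel' (o - o') h1
      rw [f1, f2]
      have g1 := hp.hy i' (o' + j) (by rw [← hww]; omega)
      have g2 := hp.hy i (o' + j) (by omega)
      rw [hww, g1] at g2
      have g3 := Option.some.inj g2
      rw [show s + q0 + k' * p + j = P i' + (o' + j) by omega,
        show s + q0 + k * p - (o - o') + j = P i + (o' + j) by omega]
      exact g3
    -- number of offsets
    have hO : ((range J).image (fun k => (s + q0 + k * p) - P (idx (s + q0 + k * p)))).card ≤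
        Fintype.card α := by
      have hch : ∀ o ∈ (range J).image (fun k => (s + q0 + k * p) - P (idx (s + q0 + k * p))),
          ∃ k, k < J ∧ (s + q0 + k * p) - P (idx (s + q0 + k * p)) = o := by
        intro o ho
        rw [mem_image] at ho
        obtain ⟨k, hk, he⟩ := ho
        exact ⟨k, mem_range.1 hk, he⟩
      choose! kk hkk1 hkk2 using hch
      have := Finset.card_le_card_of_injOn (t := (Finset.univ : Finset α))
        (fun o => w (idx (s + q0 + kk o * p))) (fun o _ => mem_univ _) (by
          intro o ho o' ho' he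
          have h1 := hlet _ (hkk1 o ho) _ (hkk1 o' ho') he
          have h2 := hlet _ (hkk1 o' ho') _ (hkk1 o ho) he.symm
          rw [hkk2 o ho, hkk2 o' ho'] at h1 h2
          omega)
      exact this
    have hcount := Finset.card_le_mul_card_image (s := range J)
      (f := fun k => (s + q0 + k * p) - P (idx (s + q0 + k * p))) (⌊c⌋₊ + 1) (by
        intro o _
        by_contra hcon
        push Not at hcon
        have h1 := hp.fibre hinj hw (m := m) (q0 := q0) (o := o) hg hrun2 hpp hq1
          (T := (range J).filter (fun k => (s + q0 + k * p) - P (idx (s + q0 + k * p)) = o))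
          (idx := fun k => idx (s + q0 + k * p)) (by
            intro k hk
            rw [mem_filter, mem_range] at hk
            have h1 := hidx1 (s + q0 + k * p)
            have h2 := hoff (s + q0 + k * p)
            have h3 := hq3 k hk.1
            exact ⟨by omega, by omega, by omega⟩) (by omega) (by
            refine le_trans hM (Nat.le_mul_of_pos_left _ (by omega)))
        have h2 := Nat.le_floor h1
        omega)
    rw [card_range] at hcount
    refine le_trans hm ?_
    have h1 : J + 1 ≤ (⌊c⌋₊ + 1) * Fintype.card α + 1 := by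
      have := Nat.mul_le_mul_left (⌊c⌋₊ + 1) hO
      omega
    have h2 := Nat.mul_le_mul_right p h1
    omega

end Count

end Pool.Agent.Q161.AceInj
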