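import Pool.Agent.Q161.AceInj2

/-!
# Asymptotic critical exponent under injective morphisms, III (MP_52ae34_co)
-/

namespace Pool.Agent.Q161.AceInj

open Filter Finset

variable {α β : Type*}

theorem wbound_of_lt {w : ℕ → α} {c : ℝ} (hc : 0 < c) (h : ACE w < ENNReal.ofReal c) :
    ∃ M0, WBound w M0 c := by
  have h1 := eventually_lt_of_limsup_lt h
  obtain ⟨M0, hM0⟩ := eventually_atTop.1 h1
  refine ⟨M0, fun i m d hm hd hper => ?_⟩
  have h2 := hM0 m hm
  -- reduce indices modulo `d`
  have hmod : ∀ j < m, w (i + j) = w (i + j % d) := by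
    intro j
    induction j using Nat.strong_induction_on with
    | _ j ih =>
      intro hj
      rcases lt_or_ge j d with h3 | h3
      · rw [Nat.mod_eq_of_lt h3]
      · have h4 := hper (i + (j - d)) (by omega) (by omega)
        rw [show i + (j - d) + d = i + j by omega] at h4
        rw [← h4, ih (j - d) (by omega) (by omega), ← Nat.mod_eq_sub_mod h3]
  have hpow : IsPow (seg w i m) (seg w i d) := by
    refine ⟨?_, ?_⟩
    · intro h0
      have := congrArg List.length h0
      rw [seg_length] at this
      simp at this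
      omega
    · intro j hj
      rw [seg_length] at hj
      rw [seg_get w hj, seg_length, seg_get w (Nat.mod_lt _ hd), hmod j hj]
  have h3 : (m : ENNReal) / d ≤ expo (seg w i m) := by
    unfold expo
    refine le_trans ?_ (le_iSup₂ (f := fun (v : List α) (_ : IsPow (seg w i m) v) =>
      ((seg w i m).length : ENNReal) / v.length) (seg w i d) hpow)
    rw [seg_length, seg_length]
  have h4 : expo (seg w i m) ≤ ⨆ u ∈ Fact w m, expo u :=
    le_iSup₂ (f := fun (u : List α) (_ : u ∈ Fact w m) => expo u) (seg w i m) ⟨i, rfl⟩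
  have h5 : (m : ENNReal) / d < ENNReal.ofReal c := lt_of_le_of_lt (h3.trans h4) h2
  have hd' : (0 : ℝ) < d := by exact_mod_cast hd
  rw [← ENNReal.ofReal_natCast m, ← ENNReal.ofReal_natCast d, ← ENNReal.ofReal_div_of_pos hd',
    ENNReal.ofReal_lt_ofReal_iff hc, div_lt_iff₀ hd'] at h5
  exact h5.le

theorem ace_le_of_runs {y : ℕ → β} {K : ℝ} {M1 : ℕ}
    (h : ∀ s m p, M1 ≤ m → 0 < p → (∀ j, s ≤ j → j + p < s + m → y j = y (j + p)) →
      (m : ℝ) ≤ K * p) : ACE y ≤ ENNReal.ofReal K := by
  unfold ACE
  apply limsup_le_of_le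
  · isBoundedDefault
  · filter_upwards [eventually_ge_atTop M1] with m hm
    refine iSup₂_le fun u hu => ?_
    obtain ⟨s, rfl⟩ := hu
    unfold expo
    refine iSup₂_le fun v hv => ?_
    obtain ⟨hv0, hv1⟩ := hv
    have hlen : (List.ofFn (fun j : Fin m => y (s + j))).length = m := by simp
    rw [hlen] at hv1 ⊢
    have hp : 0 < v.length := List.length_pos_of_ne_nil hv0
    have hp' : (0 : ℝ) < v.length := by exact_mod_cast hp
    have hget : ∀ j < m, some (y (s + j)) = v[j % v.length]? := by
      intro j hj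
      rw [← hv1 j hj]
      exact (seg_get y hj).symm
    have h1 := h s m v.length hm hp (by
      intro j hj1 hj2
      have e1 := hget (j - s) (by omega)
      have e2 := hget (j - s + v.length) (by omega)
      rw [Nat.add_mod_right, ← e1] at e2
      have e3 := Option.some.inj e2
      rw [show s + (j - s) = j by omega, show s + (j - s + v.length) = j + v.length by omega] at e3
      exact e3.symm)
    rw [← ENNReal.ofReal_natCast m, ← ENNReal.ofReal_natCast v.length,
      ← ENNReal.ofReal_div_of_pos hp']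
    apply ENNReal.ofReal_le_ofReal
    rw [div_le_iff₀ hp']
    exact h1

theorem exists_parse [Fintype α] {h : α → List β}
    (hinj : Function.Injective (fun u : List α => u.flatMap h)) {w : ℕ → α} {y : ℕ → β}
    (hy : IsImage h w y) : ∃ P B, Parse h w y P B ∧ 0 < B := by
  have hne : ∀ a, 0 < (h a).length := by
    intro a
    rw [List.length_pos_iff]
    intro h0
    have : ([a] : List α) = [] := by
      apply hinj
      simp [h0]
    simp at this
  have hseg : ∀ k, List.ofFn (fun t : Fin k => w t) = seg w 0 k := by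
    intro k
    unfold seg
    simp
  refine ⟨fun k => ((seg w 0 k).flatMap h).length, Finset.univ.sup (fun a => (h a).length),
    ⟨?_, ?_, hne, ?_, ?_⟩, ?_⟩
  · intro k
    show ((seg w 0 (k + 1)).flatMap h).length = _
    rw [seg_add, List.flatMap_append, List.length_append]
    have h2 : seg w (0 + k) 1 = [w k] := by simp [seg]
    rw [h2]
    simp
  · simp [seg]
  · intro a
    exact Finset.le_sup (f := fun a => (h a).length) (Finset.mem_univ a)
  · intro k o ho
    have h1 := hy (k + 1) (((seg w 0 k).flatMap h).length + o)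
    rw [hseg, seg_add, List.flatMap_append] at h1
    have h2 : seg w (0 + k) 1 = [w k] := by simp [seg]
    rw [h2] at h1
    simp only [List.flatMap_cons, List.flatMap_nil, List.append_nil, List.length_append] at h1
    have h3 := h1 (by omega)
    rw [List.getElem?_append_right (by omega), Nat.add_sub_cancel_left] at h3
    exact h3
  · have := hne (w 0)
    exact lt_of_lt_of_le this (Finset.le_sup (f := fun a => (h a).length) (Finset.mem_univ (w 0)))

theorem ace_image_le [Fintype α] {h : α → List β}
    (hinj : Function.Injective (fun u : List α => u.flatMap h)) {w : ℕ → α} {y : ℕ → β}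
    (hy : IsImage h w y) {c : ℝ} (hc : 0 < c) (hw : ACE w < ENNReal.ofReal c) :
    ACE y ≤ ENNReal.ofReal ((⌊c⌋₊ + 1 : ℕ) * Fintype.card α + 1) := by
  obtain ⟨P, B, hp, hB⟩ := exists_parse hinj hy
  obtain ⟨M0, hM0⟩ := wbound_of_lt hc hw
  set K : ℕ := (⌊c⌋₊ + 1) * Fintype.card α + 1 with hK
  set C1 : ℕ := B * (M0 * B + ⌊c⌋₊ + 2) + 1 with hC1
  have key : ∀ ε : ℝ, 0 < ε → ACE y ≤ ENNReal.ofReal ((K : ℝ) + ε) := by
    intro ε hε
    obtain ⟨R, hR⟩ := exists_nat_ge (2 * (B : ℝ) / ε)
    apply ace_le_of_runs (M1 := C1 * (M0 * B + B + 1 + R) + 2 * B + 1)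
    · intro s m p hm hp0 hrun
      -- the minimal period of the run
      classical
      have hex : ∃ d, 0 < d ∧ ∀ j, s ≤ j → j + d < s + m → y j = y (j + d) := ⟨p, hp0, hrun⟩
      set p0 := Nat.find hex with hp0'
      obtain ⟨hp1, hp2⟩ := Nat.find_spec hex
      rw [← hp0'] at hp1 hp2
      have hle : p0 ≤ p := Nat.find_min' hex ⟨hp0, hrun⟩
      obtain ⟨b1, b2⟩ := hp.run_bounds hinj hM0 hp1 hp2
      have hbig : M0 * B + B + 1 + R < p0 := by
        by_contra hcon
        push Not at hcon
        have := Nat.mul_le_mul_left C1 hcon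
        rw [← hC1] at b1
        omega
      have hpm : p0 ≤ m := by
        by_contra hcon
        push Not at hcon
        refine Nat.find_min hex (m := m) (by rw [← hp0']; exact hcon) ⟨by omega, ?_⟩
        intro j h1 h2
        omega
      have b3 := b2 (by omega) (by omega) hpm (by
        intro d hd0 hd1
        have := Nat.find_min hex (m := d) (by rw [← hp0']; exact hd1)
        push Not at this
        obtain ⟨j, e1, e2, e3⟩ := this hd0
        exact ⟨j, e1, e2, e3⟩)
      rw [← hK] at b3
      have b4 : (m : ℝ) ≤ K * p0 + 2 * B := by exact_mod_cast b3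
      have b5 : (R : ℝ) ≤ p0 := by
        have : R ≤ p0 := by omega
        exact_mod_cast this
      have b6 : 2 * (B : ℝ) ≤ ε * p0 := by
        rw [div_le_iff₀ hε] at hR
        nlinarith
      have b7 : (p0 : ℝ) ≤ p := by exact_mod_cast hle
      have b8 : (0 : ℝ) ≤ (K : ℝ) + ε := by positivity
      calc (m : ℝ) ≤ K * p0 + ε * p0 := by linarith
        _ = (K + ε) * p0 := by ring
        _ ≤ (K + ε) * p := mul_le_mul_of_nonneg_left b7 b8
  have hKe : ((⌊c⌋₊ + 1 : ℕ) : ℝ) * Fintype.card α + 1 = (K : ℝ) := by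
    rw [hK]
    push_cast
    ring
  rw [hKe]
  refine le_of_tendsto_of_tendsto' (f := fun _ : ℕ => ACE y)
    (g := fun k : ℕ => ENNReal.ofReal ((K : ℝ) + 1 / ((k : ℝ) + 1))) tendsto_const_nhds ?_ ?_
    (b := atTop)
  · apply ENNReal.tendsto_ofReal
    have := tendsto_one_div_add_atTop_nhds_zero_nat (𝕜 := ℝ)
    simpa using (tendsto_const_nhds (x := (K : ℝ))).add this
  · intro k
    exact key _ (by positivity)

theorem one_le_ace (w : ℕ → α) : 1 ≤ ACE w := by
  unfold ACE
  refine le_trans ?_ (liminf_le_limsup (by isBoundedDefault) (by isBoundedDefault))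
  apply le_liminf_of_le
  · isBoundedDefault
  · filter_upwards [eventually_ge_atTop 1] with m hm
    have h1 : expo (seg w 0 m) ≤ ⨆ u ∈ Fact w m, expo u :=
      le_iSup₂ (f := fun (u : List α) (_ : u ∈ Fact w m) => expo u) (seg w 0 m) ⟨0, rfl⟩
    refine le_trans ?_ h1
    have hpow : IsPow (seg w 0 m) (seg w 0 m) := by
      refine ⟨?_, ?_⟩
      · intro h0
        have := congrArg List.length h0
        rw [seg_length] at this
        simp at this
        omega
      · intro j hj
        rw [Nat.mod_eq_of_lt hj]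
    unfold expo
    refine le_trans ?_ (le_iSup₂ (f := fun (v : List α) (_ : IsPow (seg w 0 m) v) =>
      ((seg w 0 m).length : ENNReal) / v.length) (seg w 0 m) hpow)
    rw [seg_length, ENNReal.div_self]
    · exact_mod_cast (by omega : m ≠ 0)
    · exact ENNReal.natCast_ne_top m

/-- The image of a word of finite asymptotic critical exponent `a` has exponent at most
`n (⌊a⌋ + 1) + 1`. -/
theorem ace_floor_bound [Fintype α] {h : α → List β}
    (hinj : Function.Injective (fun u : List α => u.flatMap h)) {w : ℕ → α} {y : ℕ → β}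
    (hy : IsImage h w y) (hw : ACE w ≠ ⊤) :
    ACE y ≤ (Fintype.card α : ENNReal) * (⌊(ACE w).toReal⌋₊ + 1) + 1 := by
  set a := (ACE w).toReal with ha
  have ha0 : 0 ≤ a := ENNReal.toReal_nonneg
  have haw : ENNReal.ofReal a = ACE w := ENNReal.ofReal_toReal hw
  -- a real slightly larger than `a` with the same floor
  set c := (a + (⌊a⌋₊ + 1)) / 2 with hc
  have h1 : a < ⌊a⌋₊ + 1 := Nat.lt_floor_add_one a
  have hac : a < c := by rw [hc]; linarith
  have hcf : ⌊c⌋₊ = ⌊a⌋₊ := by
    rw [Nat.floor_eq_iff (by linarith)]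
    have := Nat.floor_le ha0
    constructor
    · linarith
    · rw [hc]
      linarith
  have h2 := ace_image_le hinj hy (c := c) (by linarith) (by
    rw [← haw, ENNReal.ofReal_lt_ofReal_iff (by linarith)]
    exact hac)
  rw [hcf] at h2
  refine le_trans h2 (le_of_eq ?_)
  have e : ((⌊a⌋₊ + 1 : ℕ) : ℝ) * Fintype.card α + 1 =
      (((⌊a⌋₊ + 1) * Fintype.card α + 1 : ℕ) : ℝ) := by push_cast; ring
  rw [e, ENNReal.ofReal_natCast]
  push_cast
  ring

theorem ace_ratio_bound [Fintype α] {h : α → List β}
    (hinj : Function.Injective (fun u : List α => u.flatMap h)) {w : ℕ → α} {y : ℕ → β}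
    (hy : IsImage h w y) (hw : ACE w ≠ ⊤) :
    ACE y ≤ (2 * (Fintype.card α : ENNReal) + 1) * ACE w := by
  refine le_trans (ace_floor_bound hinj hy hw) ?_
  have h1 := one_le_ace w
  have h2 : ((⌊(ACE w).toReal⌋₊ : ℕ) : ENNReal) ≤ ACE w := by
    rw [← ENNReal.ofReal_natCast]
    conv_rhs => rw [← ENNReal.ofReal_toReal hw]
    exact ENNReal.ofReal_le_ofReal (Nat.floor_le ENNReal.toReal_nonneg)
  calc (Fintype.card α : ENNReal) * (⌊(ACE w).toReal⌋₊ + 1) + 1
      ≤ (Fintype.card α : ENNReal) * (ACE w + ACE w) + ACE w := by gcongr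
    _ = _ := by ring

end Pool.Agent.Q161.AceInj
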