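import Pool.Agent.Q161.SumCl

/-! The sum closed class `Av(321, 3412, 2341, 51234)`. -/

set_option autoImplicit false

namespace Q161.Cls

open Finset

variable {n k m : ℕ}

theorem Le.trans' {k l n : ℕ} {ρ : Equiv.Perm (Fin k)} {σ : Equiv.Perm (Fin l)}
    {π : Equiv.Perm (Fin n)} (h1 : Le ρ σ) (h2 : Le σ π) : Le ρ π := by
  obtain ⟨f, hf⟩ := h1
  obtain ⟨g, hg⟩ := h2
  exact ⟨g ∘ f, hf.comp hg⟩

theorem le_of_lt_imp {l : ℕ} {β : Equiv.Perm (Fin l)} {π : Equiv.Perm (Fin n)} (f : Fin l → Fin n)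
    (hf : StrictMono f) (h : ∀ a b, β a < β b → π (f a) < π (f b)) : Le β π := by
  refine ⟨f, hf, fun a b => ⟨h a b, fun hab => ?_⟩⟩
  rcases lt_trichotomy (β a) (β b) with h1 | h1 | h1
  · exact h1
  · rw [β.injective h1] at hab
    exact absurd hab (lt_irrefl _)
  · exact absurd hab (lt_asymm (h b a h1))

/-- the pattern `321` -/
def p321 : Equiv.Perm (Fin 3) := Fin.revPerm
/-- the pattern `3412` -/
def p3412 : Equiv.Perm (Fin 4) := finRotate 4 * finRotate 4
/-- the pattern `2341` -/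
def p2341 : Equiv.Perm (Fin 4) := finRotate 4
/-- the pattern `51234` -/
def p51234 : Equiv.Perm (Fin 5) := (finRotate 5)⁻¹

/-- the class `Av(321, 3412, 2341, 51234)` -/
def C4 : Set P := {π | ¬ Le p321 π.2 ∧ ¬ Le p3412 π.2 ∧ ¬ Le p2341 π.2 ∧ ¬ Le p51234 π.2}

theorem not_le_zero {l : ℕ} (hl : 0 < l) (β : Equiv.Perm (Fin l)) (π : Equiv.Perm (Fin 0)) :
    ¬ Le β π := by
  rintro ⟨f, _⟩
  exact (f ⟨0, hl⟩).elim0

theorem isClass_C4 : IsClass C4 := by
  constructor
  · exact ⟨not_le_zero (by norm_num) _ _, not_le_zero (by norm_num) _ _,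
      not_le_zero (by norm_num) _ _, not_le_zero (by norm_num) _ _⟩
  · rintro k n σ π h ⟨h1, h2, h3, h4⟩
    exact ⟨fun h' => h1 (h'.trans' h), fun h' => h2 (h'.trans' h), fun h' => h3 (h'.trans' h),
      fun h' => h4 (h'.trans' h)⟩

instance (π : Equiv.Perm (Fin n)) (i : ℕ) : Decidable (IsCut π i) := by
  unfold IsCut; infer_instance

theorem sumClosed_C4 : SumClosed C4 := by
  rintro ⟨k, σ⟩ ⟨h1, h2, h3, h4⟩ ⟨m, τ⟩ ⟨g1, g2, g3, g4⟩
  have i1 : ∀ i, 1 ≤ i → i < 3 → ¬ IsCut p321 i := by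
    intro i hi hi'; interval_cases i <;> decide
  have i2 : ∀ i, 1 ≤ i → i < 4 → ¬ IsCut p3412 i := by
    intro i hi hi'; interval_cases i <;> decide
  have i3 : ∀ i, 1 ≤ i → i < 4 → ¬ IsCut p2341 i := by
    intro i hi hi'; interval_cases i <;> decide
  have i4 : ∀ i, 1 ≤ i → i < 5 → ¬ IsCut p51234 i := by
    intro i hi hi'; interval_cases i <;> decide
  refine ⟨fun h => ?_, fun h => ?_, fun h => ?_, fun h => ?_⟩
  · exact (le_of_le_dsum i1 h).elim h1 g1
  · exact (le_of_le_dsum i2 h).elim h2 g2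
  · exact (le_of_le_dsum i3 h).elim h3 g3
  · exact (le_of_le_dsum i4 h).elim h4 g4

/-! ### the four patterns -/

theorem le321_of {π : Equiv.Perm (Fin n)} {a b c : Fin n} (h1 : a < b) (h2 : b < c)
    (h3 : π b < π a) (h4 : π c < π b) : Le p321 π := by
  have h13 := h1.trans h2
  have h34 := h4.trans h3
  apply le_of_lt_imp ![a, b, c]
  · intro x y hxy
    fin_cases x <;> fin_cases y <;> first | assumption | exact absurd hxy (by decide)
  · intro x y hxy
    fin_cases x <;> fin_cases y <;> first | assumption | exact absurd hxy (by decide)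

theorem of_le321 {π : Equiv.Perm (Fin n)} (h : Le p321 π) :
    ∃ a b c : Fin n, a < b ∧ b < c ∧ π b < π a ∧ π c < π b := by
  obtain ⟨f, h1, h2⟩ := h
  exact ⟨f 0, f 1, f 2, h1 (by decide), h1 (by decide), (h2 1 0).1 (by decide),
    (h2 2 1).1 (by decide)⟩

theorem le3412_of {π : Equiv.Perm (Fin n)} {a b c d : Fin n} (h1 : a < b) (h2 : b < c)
    (h3 : c < d) (h4 : π c < π d) (h5 : π d < π a) (h6 : π a < π b) : Le p3412 π := by
  have h12 := h1.trans h2
  have h23 := h2.trans h3
  have h123 := h12.trans h3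
  have h45 := h4.trans h5
  have h56 := h5.trans h6
  have h456 := h45.trans h6
  apply le_of_lt_imp ![a, b, c, d]
  · intro x y hxy
    fin_cases x <;> fin_cases y <;> first | assumption | exact absurd hxy (by decide)
  · intro x y hxy
    fin_cases x <;> fin_cases y <;> first | assumption | exact absurd hxy (by decide)

theorem of_le3412 {π : Equiv.Perm (Fin n)} (h : Le p3412 π) :
    ∃ a b c d : Fin n, a < b ∧ b < c ∧ c < d ∧ π c < π d ∧ π d < π a ∧ π a < π b := by
  obtain ⟨f, h1, h2⟩ := h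
  exact ⟨f 0, f 1, f 2, f 3, h1 (by decide), h1 (by decide), h1 (by decide),
    (h2 2 3).1 (by decide), (h2 3 0).1 (by decide), (h2 0 1).1 (by decide)⟩

theorem le2341_of {π : Equiv.Perm (Fin n)} {a b c d : Fin n} (h1 : a < b) (h2 : b < c)
    (h3 : c < d) (h4 : π d < π a) (h5 : π a < π b) (h6 : π b < π c) : Le p2341 π := by
  have h12 := h1.trans h2
  have h23 := h2.trans h3
  have h123 := h12.trans h3
  have h45 := h4.trans h5
  have h56 := h5.trans h6
  have h456 := h45.trans h6
  apply le_of_lt_imp ![a, b, c, d]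
  · intro x y hxy
    fin_cases x <;> fin_cases y <;> first | assumption | exact absurd hxy (by decide)
  · intro x y hxy
    fin_cases x <;> fin_cases y <;> first | assumption | exact absurd hxy (by decide)

theorem of_le2341 {π : Equiv.Perm (Fin n)} (h : Le p2341 π) :
    ∃ a b c d : Fin n, a < b ∧ b < c ∧ c < d ∧ π d < π a ∧ π a < π b ∧ π b < π c := by
  obtain ⟨f, h1, h2⟩ := h
  exact ⟨f 0, f 1, f 2, f 3, h1 (by decide), h1 (by decide), h1 (by decide),
    (h2 3 0).1 (by decide), (h2 0 1).1 (by decide), (h2 1 2).1 (by decide)⟩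

theorem le51234_of {π : Equiv.Perm (Fin n)} {a b c d e : Fin n} (h1 : a < b) (h2 : b < c)
    (h3 : c < d) (h4 : d < e) (h5 : π b < π c) (h6 : π c < π d) (h7 : π d < π e)
    (h8 : π e < π a) : Le p51234 π := by
  have h12 := h1.trans h2
  have h23 := h2.trans h3
  have h34 := h3.trans h4
  have h123 := h12.trans h3
  have h234 := h23.trans h4
  have h1234 := h123.trans h4
  have h56 := h5.trans h6
  have h67 := h6.trans h7
  have h78 := h7.trans h8
  have h567 := h56.trans h7
  have h678 := h67.trans h8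
  have h5678 := h567.trans h8
  apply le_of_lt_imp ![a, b, c, d, e]
  · intro x y hxy
    fin_cases x <;> fin_cases y <;> first | assumption | exact absurd hxy (by decide)
  · intro x y hxy
    fin_cases x <;> fin_cases y <;> first | assumption | exact absurd hxy (by decide)

theorem of_le51234 {π : Equiv.Perm (Fin n)} (h : Le p51234 π) :
    ∃ a b c d e : Fin n, a < b ∧ b < c ∧ c < d ∧ d < e ∧ π b < π c ∧ π c < π d ∧ π d < π e ∧
      π e < π a := by
  obtain ⟨f, h1, h2⟩ := h
  exact ⟨f 0, f 1, f 2, f 3, f 4, h1 (by decide), h1 (by decide), h1 (by decide), h1 (by decide),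
    (h2 1 2).1 (by decide), (h2 2 3).1 (by decide), (h2 3 4).1 (by decide),
    (h2 4 0).1 (by decide)⟩

/-! ### permutations described by the set of excedances -/

/-- the permutation with excedance word `b`: it moves an excedance to the next one (or to the last
position), every other position to the previous non-excedance (or to the first position) -/
structure Spec (b : ℕ → Bool) (π : Equiv.Perm (Fin n)) : Prop where
  up : ∀ x : Fin n, b x = true → (x : ℕ) < π x
  upb : ∀ x : Fin n, b x = true → ∀ y : ℕ, (x : ℕ) < y → y < π x → b y = false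
  upe : ∀ x : Fin n, b x = true → b (π x) = true ∨ (π x : ℕ) + 1 = n
  dn : ∀ x : Fin n, b x = false → (π x : ℕ) < x
  dnb : ∀ x : Fin n, b x = false → ∀ y : ℕ, (π x : ℕ) < y → y < x → b y = true
  dne : ∀ x : Fin n, b x = false → b (π x) = false ∨ (π x : ℕ) = 0

theorem Spec.unique {b b' : ℕ → Bool} {π π' : Equiv.Perm (Fin n)} (hb : ∀ x, x < n → b x = b' x)
    (h : Spec b π) (h' : Spec b' π') : π = π' := by
  ext x
  have hx := x.2
  have e1 := (π x).2
  have e2 := (π' x).2
  cases hbx : b x with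
  | true =>
    have hbx' : b' x = true := by rw [← hb x hx]; exact hbx
    rcases lt_trichotomy (π x : ℕ) (π' x) with h1 | h1 | h1
    · exfalso
      have a1 := h'.upb x hbx' (π x) (h.up x hbx) h1
      rw [← hb _ e1] at a1
      rcases h.upe x hbx with a2 | a2
      · rw [a1] at a2; exact absurd a2 (by decide)
      · omega
    · exact h1
    · exfalso
      have a1 := h.upb x hbx (π' x) (h'.up x hbx') h1
      rw [hb _ e2] at a1
      rcases h'.upe x hbx' with a2 | a2
      · rw [a1] at a2; exact absurd a2 (by decide)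
      · omega
  | false =>
    have hbx' : b' x = false := by rw [← hb x hx]; exact hbx
    rcases lt_trichotomy (π x : ℕ) (π' x) with h1 | h1 | h1
    · exfalso
      have a1 := h.dnb x hbx (π' x) h1 (h'.dn x hbx')
      rw [hb _ e2] at a1
      rcases h'.dne x hbx' with a2 | a2
      · rw [a1] at a2; exact absurd a2 (by decide)
      · omega
    · exact h1
    · exfalso
      have a1 := h'.dnb x hbx' (π x) h1 (h.dn x hbx)
      rw [← hb _ e1] at a1
      rcases h.dne x hbx with a2 | a2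
      · rw [a1] at a2; exact absurd a2 (by decide)
      · omega

theorem exists_spec (b : ℕ → Bool) (hn : ∀ x, x + 1 = n → b x = false)
    (h0 : 0 < n → b 0 = true) : ∃ π : Equiv.Perm (Fin n), Spec b π := by
  classical
  have key : ∀ x : Fin n, ∃ y : Fin n,
      (b x = true → (x : ℕ) < y ∧ (∀ z : ℕ, (x : ℕ) < z → z < y → b z = false) ∧
        (b y = true ∨ (y : ℕ) + 1 = n)) ∧
      (b x = false → (y : ℕ) < x ∧ (∀ z : ℕ, (y : ℕ) < z → z < x → b z = true) ∧
        (b y = false ∨ (y : ℕ) = 0)) := by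
    intro x
    have hx := x.2
    cases hbx : b x with
    | true =>
      have hx1 : (x : ℕ) + 1 ≠ n := fun h => by
        rw [hn x h] at hbx; exact absurd hbx (by decide)
      have hex : ∃ y, (x : ℕ) < y ∧ (b y = true ∨ y + 1 = n) := ⟨n - 1, by omega, by omega⟩
      obtain ⟨y, ⟨h1, h2⟩, hmin⟩ : ∃ y, ((x : ℕ) < y ∧ (b y = true ∨ y + 1 = n)) ∧
          ∀ z < y, ¬ ((x : ℕ) < z ∧ (b z = true ∨ z + 1 = n)) :=
        ⟨Nat.find hex, Nat.find_spec hex, fun j hj => Nat.find_min hex hj⟩
      have hyn : y < n := by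
        by_contra hc
        exact hmin (n - 1) (by omega) ⟨by omega, by omega⟩
      refine ⟨⟨y, hyn⟩, fun _ => ⟨h1, ?_, h2⟩, fun h => absurd h (by decide)⟩
      intro z hz1 hz2
      have := hmin z hz2
      simp only [not_and, not_or] at this
      exact Bool.eq_false_iff.2 (this hz1).1
    | false =>
      have hx0 : (x : ℕ) ≠ 0 := fun h => by
        rw [h, h0 (by omega)] at hbx; exact absurd hbx (by decide)
      have hex : ∃ y, y < (x : ℕ) ∧ (b y = false ∨ y = 0) := ⟨0, by omega, Or.inr rfl⟩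
      -- greatest such `y`
      have hfin : ∃ y, (y < (x : ℕ) ∧ (b y = false ∨ y = 0)) ∧
          ∀ z, (z < (x : ℕ) ∧ (b z = false ∨ z = 0)) → z ≤ y := by
        refine ⟨Nat.findGreatest (fun y => y < (x : ℕ) ∧ (b y = false ∨ y = 0)) x, ?_, ?_⟩
        · exact Nat.findGreatest_spec (P := fun y => y < (x : ℕ) ∧ (b y = false ∨ y = 0))
            (m := 0) (by omega) ⟨by omega, Or.inr rfl⟩
        · intro z hz
          exact Nat.le_findGreatest (by omega) hz
      obtain ⟨y, ⟨h1, h2⟩, hmax⟩ := hfin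
      refine ⟨⟨y, by omega⟩, fun h => absurd h (by decide), fun _ => ⟨h1, ?_, h2⟩⟩
      intro z hz1 hz2
      by_contra hc
      have hzf : b z = false := Bool.eq_false_iff.2 hc
      simp only at hz1
      have := hmax z ⟨hz2, Or.inl hzf⟩
      omega
  choose f hf1 hf2 using key
  have hinj : Function.Injective f := by
    have aux : ∀ x y : Fin n, x < y → f x ≠ f y := by
      intro x y hxy h
      rw [Fin.lt_def] at hxy
      have hx := x.2
      have hy := y.2
      cases hbx : b x <;> cases hby : b y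
      · have e1 := hf2 x hbx
        have e2 := hf2 y hby
        rw [← h] at e2
        have := e2.2.1 x e1.1 hxy
        rw [hbx] at this; exact absurd this (by decide)
      · have e1 := hf2 x hbx
        have e2 := hf1 y hby
        rw [← h] at e2
        omega
      · have e1 := hf1 x hbx
        have e2 := hf2 y hby
        rw [← h] at e2
        rcases e1.2.2 with a1 | a1 <;> rcases e2.2.2 with a2 | a2
        · rw [a1] at a2; exact absurd a2 (by decide)
        · omega
        · omega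
        · omega
      · have e1 := hf1 x hbx
        have e2 := hf1 y hby
        rw [← h] at e2
        have := e1.2.1 y hxy e2.1
        rw [hby] at this; exact absurd this (by decide)
    intro x y h
    rcases lt_trichotomy x y with h1 | h1 | h1
    · exact absurd h (aux x y h1)
    · exact h1
    · exact absurd h.symm (aux y x h1)
  refine ⟨Equiv.ofBijective f (Finite.injective_iff_bijective.1 hinj), ?_⟩
  constructor
  · exact fun x hx => (hf1 x hx).1
  · exact fun x hx => (hf1 x hx).2.1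
  · exact fun x hx => (hf1 x hx).2.2
  · exact fun x hx => (hf2 x hx).1
  · exact fun x hx => (hf2 x hx).2.1
  · exact fun x hx => (hf2 x hx).2.2

theorem Spec.upup {b : ℕ → Bool} {π : Equiv.Perm (Fin n)} (h : Spec b π) {x y : Fin n}
    (hxy : x < y) (hx : b x = true) (hy : b y = true) : (π x : ℕ) ≤ y := by
  by_contra hc
  have := h.upb x hx y hxy (by omega)
  rw [hy] at this; exact absurd this (by decide)

theorem Spec.dndn {b : ℕ → Bool} {π : Equiv.Perm (Fin n)} (h : Spec b π) {x y : Fin n}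
    (hxy : x < y) (hx : b x = false) (hy : b y = false) : (x : ℕ) ≤ π y := by
  by_contra hc
  have := h.dnb y hy x (by omega) hxy
  rw [hx] at this; exact absurd this (by decide)

/-- in an inversion, the first position is an excedance and the second one is not -/
theorem Spec.inv {b : ℕ → Bool} {π : Equiv.Perm (Fin n)} (h : Spec b π) {x y : Fin n}
    (hxy : x < y) (hinv : π y < π x) : b x = true ∧ b y = false := by
  rw [Fin.lt_def] at hxy hinv
  cases hbx : b x <;> cases hby : b y
  · exfalso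
    have := h.dndn hxy hbx hby
    have := h.dn x hbx
    omega
  · exfalso
    have := h.dn x hbx
    have := h.up y hby
    omega
  · exact ⟨rfl, rfl⟩
  · exfalso
    have := h.upup hxy hbx hby
    have := h.up y hby
    omega

theorem Spec.mem_ind {b : ℕ → Bool} {π : Equiv.Perm (Fin n)} (h : Spec b π) (hn1 : 1 ≤ n)
    (h0 : b 0 = true) (hUU : ∀ i, 1 ≤ i → i + 2 < n → ¬ (b i = true ∧ b (i + 1) = true))
    (hDDD : ∀ i, 1 ≤ i → i + 3 < n → ¬ (b i = false ∧ b (i + 1) = false ∧ b (i + 2) = false)) :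
    (⟨n, π⟩ : P) ∈ ind C4 := by
  refine ⟨⟨?_, ?_, ?_, ?_⟩, ?_⟩
  · intro (hle : Le p321 π)
    obtain ⟨a, b', c, h1, h2, h3, h4⟩ := of_le321 hle
    have e1 := h.inv h1 h3
    have e2 := h.inv h2 h4
    rw [e1.2] at e2
    exact absurd e2.1 (by decide)
  · intro (hle : Le p3412 π)
    obtain ⟨a, b', c, d, h1, h2, h3, h4, h5, h6⟩ := of_le3412 hle
    have e1 := h.inv (h1.trans (h2.trans h3)) h5
    have e2 := h.inv (h2) (h4.trans (h5.trans h6))
    have f1 := h.upup h1 e1.1 e2.1
    have f2 := h.dndn h3 e2.2 e1.2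
    rw [Fin.lt_def] at h2 h5
    omega
  · intro (hle : Le p2341 π)
    obtain ⟨a, b', c, d, h1, h2, h3, h4, h5, h6⟩ := of_le2341 hle
    have e1 := h.inv (h1.trans (h2.trans h3)) h4
    have e2 := h.inv (h2.trans h3) (h4.trans h5)
    have f1 := h.upup h1 e1.1 e2.1
    have hd := d.2
    rw [Fin.lt_def] at h1 h2 h3 h4
    have g1 := h.dnb d e1.2 (b' + 1) (by omega) (by omega)
    exact hUU b' (by omega) (by omega) ⟨e2.1, g1⟩
  · intro (hle : Le p51234 π)
    obtain ⟨a, b', c, d, e, h1, h2, h3, h4, h5, h6, h7, h8⟩ := of_le51234 hle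
    have e1 := h.inv (h1.trans (h2.trans (h3.trans h4))) h8
    have e2 := h.inv (h1.trans (h2.trans h3)) (h7.trans h8)
    have f1 := h.dndn h4 e2.2 e1.2
    have he := e.2
    rw [Fin.lt_def] at h1 h2 h3 h4 h8
    have g1 := h.upb a e1.1 b' (by omega) (by omega)
    have g2 := h.upb a e1.1 (b' + 1) (by omega) (by omega)
    have g3 := h.upb a e1.1 (b' + 2) (by omega) (by omega)
    exact hDDD b' (by omega) (by omega) ⟨g1, g2, g3⟩
  · rw [indec_iff]
    refine ⟨hn1, fun i h1 h2 hcut => ?_⟩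
    -- the last excedance before `i`
    obtain ⟨j, ⟨hj1, hj2⟩, hmax⟩ : ∃ j, (j < i ∧ b j = true) ∧ ∀ z, (z < i ∧ b z = true) → z ≤ j := by
      refine ⟨Nat.findGreatest (fun y => y < i ∧ b y = true) i, ?_, ?_⟩
      · exact Nat.findGreatest_spec (P := fun y => y < i ∧ b y = true)
          (m := 0) (by omega) ⟨by omega, h0⟩
      · intro z hz
        exact Nat.le_findGreatest (by omega) hz
    have hc := hcut ⟨j, by omega⟩ hj1
    have e1 := h.up ⟨j, by omega⟩ hj2
    rcases h.upe ⟨j, by omega⟩ hj2 with e2 | e2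
    · have := hmax _ ⟨hc, e2⟩
      simp only at e1 this
      omega
    · omega

/-! ### the structure of the indecomposables -/

theorem no321 {π : Equiv.Perm (Fin n)} (h : (⟨n, π⟩ : P) ∈ C4) : ¬ Le p321 π := h.1
theorem no3412 {π : Equiv.Perm (Fin n)} (h : (⟨n, π⟩ : P) ∈ C4) : ¬ Le p3412 π := h.2.1
theorem no2341 {π : Equiv.Perm (Fin n)} (h : (⟨n, π⟩ : P) ∈ C4) : ¬ Le p2341 π := h.2.2.1
theorem no51234 {π : Equiv.Perm (Fin n)} (h : (⟨n, π⟩ : P) ∈ C4) : ¬ Le p51234 π := h.2.2.2

/-- as many elements cross the cut upwards as downwards -/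
theorem card_cross (π : Equiv.Perm (Fin n)) (i : ℕ) :
    (univ.filter (fun x : Fin n => (x : ℕ) < i ∧ i ≤ (π x : ℕ))).card =
      (univ.filter (fun x : Fin n => i ≤ (x : ℕ) ∧ (π x : ℕ) < i)).card := by
  have h1 : (univ.filter (fun x : Fin n => (x : ℕ) < i)).card =
      (univ.filter (fun x : Fin n => (x : ℕ) < i ∧ (π x : ℕ) < i)).card +
      (univ.filter (fun x : Fin n => (x : ℕ) < i ∧ i ≤ (π x : ℕ))).card := by
    rw [← Finset.filter_filter, ← Finset.filter_filter,
      ← Finset.card_filter_add_card_filter_not (s := univ.filter (fun x : Fin n => (x : ℕ) < i))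
        (fun x => (π x : ℕ) < i)]
    simp only [not_lt]
  have h2 : (univ.filter (fun x : Fin n => (π x : ℕ) < i)).card =
      (univ.filter (fun x : Fin n => (x : ℕ) < i ∧ (π x : ℕ) < i)).card +
      (univ.filter (fun x : Fin n => i ≤ (x : ℕ) ∧ (π x : ℕ) < i)).card := by
    have e1 : (univ.filter (fun x : Fin n => (x : ℕ) < i ∧ (π x : ℕ) < i)) =
        (univ.filter (fun x : Fin n => (π x : ℕ) < i)).filter (fun x : Fin n => (x : ℕ) < i) := by
      ext x; simp only [mem_filter, mem_univ, true_and]; tauto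
    have e2 : (univ.filter (fun x : Fin n => i ≤ (x : ℕ) ∧ (π x : ℕ) < i)) =
        (univ.filter (fun x : Fin n => (π x : ℕ) < i)).filter (fun x : Fin n => ¬ (x : ℕ) < i) := by
      ext x; simp only [mem_filter, mem_univ, true_and, not_lt]; tauto
    rw [e1, e2, Finset.card_filter_add_card_filter_not]
  have h3 : (univ.filter (fun x : Fin n => (π x : ℕ) < i)).card =
      (univ.filter (fun x : Fin n => (x : ℕ) < i)).card := by
    have : (univ.filter (fun x : Fin n => (π x : ℕ) < i)) =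
        (univ.filter (fun x : Fin n => (x : ℕ) < i)).map π.symm.toEmbedding := by
      ext x
      simp only [mem_filter, mem_univ, true_and, mem_map_equiv, Equiv.symm_symm]
    rw [this, Finset.card_map]
  omega

theorem up_unique {π : Equiv.Perm (Fin n)} (h : (⟨n, π⟩ : P) ∈ C4) {i : ℕ} {a b : Fin n}
    (ha : (a : ℕ) < i) (ha' : i ≤ (π a : ℕ)) (hb : (b : ℕ) < i) (hb' : i ≤ (π b : ℕ)) : a = b := by
  by_contra hne
  have h1 : 1 < (univ.filter (fun x : Fin n => (x : ℕ) < i ∧ i ≤ (π x : ℕ))).card :=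
    Finset.one_lt_card.2 ⟨a, by simp [ha, ha'], b, by simp [hb, hb'], hne⟩
  rw [card_cross] at h1
  obtain ⟨c, hc, d, hd, hcd⟩ := Finset.one_lt_card.1 h1
  simp only [mem_filter, mem_univ, true_and] at hc hd
  wlog hab : a < b generalizing a b with H
  · exact H hb hb' ha ha' (Ne.symm hne) (lt_of_le_of_ne (not_lt.1 hab) (Ne.symm hne))
  wlog hcd' : c < d generalizing c d with H
  · exact H d c (Ne.symm hcd) hd hc (lt_of_le_of_ne (not_lt.1 hcd') (Ne.symm hcd))
  have hbc : b < c := by rw [Fin.lt_def]; omega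
  rcases lt_or_gt_of_ne (π.injective.ne hne) with h2 | h2
  · rcases lt_or_gt_of_ne (π.injective.ne hcd) with h3 | h3
    · exact no3412 h (le3412_of hab hbc hcd' h3 (by rw [Fin.lt_def]; omega) h2)
    · exact no321 h (le321_of (hab.trans hbc) hcd' (by rw [Fin.lt_def]; omega) h3)
  · exact no321 h (le321_of hab hbc h2 (by rw [Fin.lt_def]; omega))

theorem dn_unique {π : Equiv.Perm (Fin n)} (h : (⟨n, π⟩ : P) ∈ C4) {i : ℕ} {c d : Fin n}
    (hc : i ≤ (c : ℕ)) (hc' : (π c : ℕ) < i) (hd : i ≤ (d : ℕ)) (hd' : (π d : ℕ) < i) : c = d := by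
  by_contra hne
  have h1 : 1 < (univ.filter (fun x : Fin n => i ≤ (x : ℕ) ∧ (π x : ℕ) < i)).card :=
    Finset.one_lt_card.2 ⟨c, by simp [hc, hc'], d, by simp [hd, hd'], hne⟩
  rw [← card_cross] at h1
  obtain ⟨a, ha, b, hb, hab⟩ := Finset.one_lt_card.1 h1
  simp only [mem_filter, mem_univ, true_and] at ha hb
  exact hab (up_unique h ha.1 ha.2 hb.1 hb.2)

theorem exists_up {π : Equiv.Perm (Fin n)} (h : Indec ⟨n, π⟩) {i : ℕ} (h1 : 1 ≤ i) (h2 : i < n) :
    ∃ x : Fin n, (x : ℕ) < i ∧ i ≤ (π x : ℕ) := by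
  have := ((indec_iff π).1 h).2 i h1 h2
  unfold IsCut at this
  push Not at this
  exact this

theorem exists_dn {π : Equiv.Perm (Fin n)} (h : Indec ⟨n, π⟩) {i : ℕ} (h1 : 1 ≤ i) (h2 : i < n) :
    ∃ x : Fin n, i ≤ (x : ℕ) ∧ (π x : ℕ) < i := by
  obtain ⟨x, hx⟩ := exists_up h h1 h2
  have h3 : 0 < (univ.filter (fun x : Fin n => (x : ℕ) < i ∧ i ≤ (π x : ℕ))).card :=
    Finset.card_pos.2 ⟨x, by simp [hx]⟩
  rw [card_cross] at h3
  obtain ⟨y, hy⟩ := Finset.card_pos.1 h3
  simp only [mem_filter, mem_univ, true_and] at hy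
  exact ⟨y, hy⟩

theorem no_fixed {π : Equiv.Perm (Fin n)} (h : (⟨n, π⟩ : P) ∈ ind C4) (hn : 2 ≤ n) (x : Fin n) :
    π x ≠ x := by
  intro hx
  have hxv := congrArg Fin.val hx
  have hxn := x.2
  rcases Nat.eq_zero_or_pos (x : ℕ) with h0 | h0
  · obtain ⟨y, hy1, hy2⟩ := exists_up h.2 (le_refl 1) (by omega)
    have : y = x := Fin.ext (by omega)
    subst this
    omega
  · obtain ⟨y, hy1, hy2⟩ := exists_up h.2 (i := x) (by omega) hxn
    have hyx : (π y : ℕ) ≠ x := fun he => by
      have := π.injective (Fin.ext (he.trans hxv.symm))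
      rw [this] at hy1
      omega
    rcases Nat.lt_or_ge ((x : ℕ) + 1) n with h1 | h1
    · obtain ⟨z, hz1, hz2⟩ := exists_dn h.2 (i := x + 1) (by omega) h1
      have hzx : (π z : ℕ) ≠ x := fun he => by
        have := π.injective (Fin.ext (he.trans hxv.symm))
        rw [this] at hz1
        omega
      exact no321 h.1 (le321_of (a := y) (b := x) (c := z) (by rw [Fin.lt_def]; omega)
        (by rw [Fin.lt_def]; omega) (by rw [Fin.lt_def]; omega) (by rw [Fin.lt_def]; omega))
    · have := (π y).2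
      omega

/-- the excedance word -/
def wd (π : Equiv.Perm (Fin n)) (x : ℕ) : Bool :=
  if h : x < n then decide (x < (π ⟨x, h⟩ : ℕ)) else false

theorem wd_eq (π : Equiv.Perm (Fin n)) (x : Fin n) : wd π x = decide ((x : ℕ) < π x) := by
  unfold wd
  rw [dif_pos x.2]

theorem spec_wd {π : Equiv.Perm (Fin n)} (h : (⟨n, π⟩ : P) ∈ ind C4) (hn : 2 ≤ n) :
    Spec (wd π) π := by
  have hup : ∀ x : Fin n, wd π x = true ↔ (x : ℕ) < π x := fun x => by
    rw [wd_eq, decide_eq_true_iff]
  have hdn : ∀ x : Fin n, wd π x = false ↔ (π x : ℕ) < x := fun x => by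
    rw [wd_eq, decide_eq_false_iff_not, not_lt]
    constructor
    · intro h1
      exact lt_of_le_of_ne h1 (fun h2 => no_fixed h hn x (Fin.ext h2))
    · exact le_of_lt
  constructor
  · exact fun x hx => (hup x).1 hx
  · intro x hx y h1 h2
    have hyn : y < n := by have := (π x).2; omega
    by_contra hc
    rw [Bool.not_eq_false] at hc
    have hy := (hup ⟨y, hyn⟩).1 hc
    have := up_unique h.1 (i := y + 1) (a := x) (b := ⟨y, hyn⟩) (by omega) (by omega)
      (by simp only; omega) (by simp only at hy ⊢; omega)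
    rw [this] at h1
    simp only at h1
    omega
  · intro x hx
    have hx' := (hup x).1 hx
    by_cases hk : (π x : ℕ) + 1 = n
    · exact Or.inr hk
    · left
      have hkn := (π x).2
      obtain ⟨y, hy1, hy2⟩ := exists_up h.2 (i := (π x : ℕ) + 1) (by omega) (by omega)
      have hyx : y ≠ x := fun he => by rw [he] at hy2; omega
      have hyk : y = π x := by
        by_contra hne
        have hne' : (y : ℕ) ≠ π x := fun he => hne (Fin.ext he)
        exact hyx (up_unique h.1 (i := (π x : ℕ)) (by omega) (by omega) (by omega) (by omega))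
      rw [← hyk]
      exact (hup y).2 (by rw [← hyk] at hy2; omega)
  · exact fun x hx => (hdn x).1 hx
  · intro x hx y h1 h2
    have hyn : y < n := by have := x.2; omega
    by_contra hc
    rw [Bool.not_eq_true] at hc
    have hy := (hdn ⟨y, hyn⟩).1 hc
    have := dn_unique h.1 (i := y) (c := x) (d := ⟨y, hyn⟩) (by omega) (by omega)
      (by simp only; omega) (by simp only at hy ⊢; omega)
    rw [this] at h2
    simp only at h2
    omega
  · intro x hx
    have hx' := (hdn x).1 hx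
    by_cases hk : (π x : ℕ) = 0
    · exact Or.inr hk
    · left
      obtain ⟨y, hy1, hy2⟩ := exists_dn h.2 (i := (π x : ℕ)) (by omega) (π x).2
      have hyx : y ≠ x := fun he => by rw [he] at hy2; omega
      have hyk : y = π x := by
        by_contra hne
        have hne' : (y : ℕ) ≠ π x := fun he => hne (Fin.ext he)
        exact hyx (dn_unique h.1 (i := (π x : ℕ) + 1) (by omega) (by omega) (by omega) (by omega))
      rw [← hyk]
      exact (hdn y).2 (by rw [← hyk] at hy2; omega)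

theorem wd_zero {π : Equiv.Perm (Fin n)} (h : (⟨n, π⟩ : P) ∈ ind C4) (hn : 2 ≤ n) :
    wd π 0 = true := by
  have := wd_eq π ⟨0, by omega⟩
  simp only at this
  rw [this, decide_eq_true_iff]
  have := no_fixed h hn ⟨0, by omega⟩
  by_contra hc
  exact this (Fin.ext (by simp only; omega))

theorem wd_last {π : Equiv.Perm (Fin n)} (x : ℕ) (hx : x + 1 = n) :
    wd π x = false := by
  have := wd_eq π ⟨x, by omega⟩
  simp only at this
  rw [this, decide_eq_false_iff_not, not_lt]
  have := (π ⟨x, by omega⟩).2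
  omega

theorem wd_UU {π : Equiv.Perm (Fin n)} (h : (⟨n, π⟩ : P) ∈ ind C4) (hn : 2 ≤ n) (i : ℕ)
    (h1 : 1 ≤ i) (h2 : i + 2 < n) : ¬ (wd π i = true ∧ wd π (i + 1) = true) := by
  rintro ⟨e1, e2⟩
  have hs := spec_wd h hn
  -- `p` with `π p = i`
  obtain ⟨p, hp⟩ := π.surjective ⟨i, by omega⟩
  have hpv : (π p : ℕ) = i := by rw [hp]
  have hp1 : wd π p = true := by
    by_contra hc
    rw [Bool.not_eq_true] at hc
    rcases hs.dne p hc with h3 | h3
    · rw [hpv, e1] at h3; exact absurd h3 (by decide)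
    · omega
  have hpi := hs.up p hp1
  rw [hpv] at hpi
  have f1 : (π ⟨i, by omega⟩ : ℕ) = i + 1 := by
    have a1 := hs.up ⟨i, by omega⟩ e1
    have a2 := hs.upup (x := ⟨i, by omega⟩) (y := ⟨i + 1, by omega⟩)
      (by rw [Fin.lt_def]; simp only; omega) e1 e2
    simp only at a1 a2
    omega
  have f2 := hs.up ⟨i + 1, by omega⟩ e2
  simp only at f2
  -- the first non-excedance after `i + 1`
  have hex : ∃ y, i + 1 < y ∧ wd π y = false := ⟨n - 1, by omega, wd_last _ (by omega)⟩
  obtain ⟨y, ⟨hy1, hy2⟩, hmin⟩ : ∃ y, (i + 1 < y ∧ wd π y = false) ∧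
      ∀ z < y, ¬ (i + 1 < z ∧ wd π z = false) :=
    ⟨Nat.find hex, Nat.find_spec hex, fun j hj => Nat.find_min hex hj⟩
  have hyn : y < n := by
    by_contra hc
    exact hmin (n - 1) (by omega) ⟨by omega, wd_last _ (by omega)⟩
  have g1 := hs.dn ⟨y, hyn⟩ hy2
  have g2 := hs.dne ⟨y, hyn⟩ hy2
  simp only at g1
  have g3 : (π ⟨y, hyn⟩ : ℕ) < i := by
    rcases g2 with g2 | g2
    · by_contra hc
      have : (π ⟨y, hyn⟩ : ℕ) = i ∨ (π ⟨y, hyn⟩ : ℕ) = i + 1 ∨ i + 1 < (π ⟨y, hyn⟩ : ℕ) := by omega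
      rcases this with h3 | h3 | h3
      · rw [h3, e1] at g2; exact absurd g2 (by decide)
      · rw [h3, e2] at g2; exact absurd g2 (by decide)
      · exact hmin _ g1 ⟨h3, g2⟩
    · omega
  exact no2341 h.1 (le2341_of (a := p) (b := ⟨i, by omega⟩) (c := ⟨i + 1, by omega⟩)
    (d := ⟨y, hyn⟩) (by rw [Fin.lt_def]; exact hpi) (by rw [Fin.lt_def]; simp only; omega)
    (by rw [Fin.lt_def]; exact hy1) (by rw [Fin.lt_def]; omega) (by rw [Fin.lt_def]; omega)
    (by rw [Fin.lt_def]; omega))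

theorem wd_DDD {π : Equiv.Perm (Fin n)} (h : (⟨n, π⟩ : P) ∈ ind C4) (hn : 2 ≤ n) (i : ℕ)
    (h1 : 1 ≤ i) (h2 : i + 3 < n) :
    ¬ (wd π i = false ∧ wd π (i + 1) = false ∧ wd π (i + 2) = false) := by
  rintro ⟨e1, e2, e3⟩
  have hs := spec_wd h hn
  have f0 := hs.dn ⟨i, by omega⟩ e1
  simp only at f0
  have f1 : (π ⟨i + 1, by omega⟩ : ℕ) = i := by
    have a1 := hs.dn ⟨i + 1, by omega⟩ e2
    have a2 := hs.dndn (x := ⟨i, by omega⟩) (y := ⟨i + 1, by omega⟩)
      (by rw [Fin.lt_def]; simp only; omega) e1 e2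
    simp only at a1 a2
    omega
  have f2 : (π ⟨i + 2, by omega⟩ : ℕ) = i + 1 := by
    have a1 := hs.dn ⟨i + 2, by omega⟩ e3
    have a2 := hs.dndn (x := ⟨i + 1, by omega⟩) (y := ⟨i + 2, by omega⟩)
      (by rw [Fin.lt_def]; simp only; omega) e2 e3
    simp only at a1 a2
    omega
  -- the first non-excedance after `i + 2`
  have hex : ∃ y, i + 2 < y ∧ wd π y = false := ⟨n - 1, by omega, wd_last _ (by omega)⟩
  obtain ⟨y, ⟨hy1, hy2⟩, hmin⟩ : ∃ y, (i + 2 < y ∧ wd π y = false) ∧
      ∀ z < y, ¬ (i + 2 < z ∧ wd π z = false) :=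
    ⟨Nat.find hex, Nat.find_spec hex, fun j hj => Nat.find_min hex hj⟩
  have hyn : y < n := by
    by_contra hc
    exact hmin (n - 1) (by omega) ⟨by omega, wd_last _ (by omega)⟩
  have g1 := hs.dn ⟨y, hyn⟩ hy2
  have g2 := hs.dne ⟨y, hyn⟩ hy2
  have g4 := hs.dndn (x := ⟨i + 2, by omega⟩) (y := ⟨y, hyn⟩) (by rw [Fin.lt_def]; exact hy1) e3 hy2
  simp only at g1 g4
  have g3 : (π ⟨y, hyn⟩ : ℕ) = i + 2 := by
    rcases g2 with g2 | g2
    · by_contra hc
      exact hmin _ g1 ⟨by omega, g2⟩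
    · omega
  -- the last excedance before `i`
  obtain ⟨x, ⟨hx1, hx2⟩, hmax⟩ : ∃ j, (j < i ∧ wd π j = true) ∧
      ∀ z, (z < i ∧ wd π z = true) → z ≤ j := by
    refine ⟨Nat.findGreatest (fun y => y < i ∧ wd π y = true) i, ?_, ?_⟩
    · exact Nat.findGreatest_spec (P := fun y => y < i ∧ wd π y = true)
        (m := 0) (by omega) ⟨by omega, wd_zero h hn⟩
    · intro z hz
      exact Nat.le_findGreatest (by omega) hz
  have k1 := hs.up ⟨x, by omega⟩ hx2
  have k2 := hs.upe ⟨x, by omega⟩ hx2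
  simp only at k1
  have k3 : i + 2 < (π ⟨x, by omega⟩ : ℕ) := by
    by_contra hc
    rcases k2 with k2 | k2
    · have : (π ⟨x, by omega⟩ : ℕ) < i ∨ (π ⟨x, by omega⟩ : ℕ) = i ∨
          (π ⟨x, by omega⟩ : ℕ) = i + 1 ∨ (π ⟨x, by omega⟩ : ℕ) = i + 2 := by omega
      rcases this with h3 | h3 | h3 | h3
      · have := hmax _ ⟨h3, k2⟩
        omega
      · rw [h3, e1] at k2; exact absurd k2 (by decide)
      · rw [h3, e2] at k2; exact absurd k2 (by decide)
      · rw [h3, e3] at k2; exact absurd k2 (by decide)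
    · omega
  exact no51234 h.1 (le51234_of (a := ⟨x, by omega⟩) (b := ⟨i, by omega⟩) (c := ⟨i + 1, by omega⟩)
    (d := ⟨i + 2, by omega⟩) (e := ⟨y, hyn⟩) (by rw [Fin.lt_def]; exact hx1)
    (by rw [Fin.lt_def]; simp only; omega) (by rw [Fin.lt_def]; simp only; omega)
    (by rw [Fin.lt_def]; exact hy1) (by rw [Fin.lt_def]; omega) (by rw [Fin.lt_def]; omega)
    (by rw [Fin.lt_def]; omega) (by rw [Fin.lt_def]; omega))

/-! ### counting words -/

/-- words in which no `true true` and no `false false false` occurs; `u`, `d` encode the last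
letters read -/
def Ok : ℕ → ℕ → List Bool → Prop
  | _, _, [] => True
  | u, _, true :: l => u = 0 ∧ Ok 1 0 l
  | _, d, false :: l => d < 2 ∧ Ok 0 (d + 1) l

/-- the set of such words of length `m` -/
def words : ℕ → ℕ → ℕ → Finset (List Bool)
  | _, _, 0 => {[]}
  | u, d, m + 1 => (if u = 0 then (words 1 0 m).image (List.cons true) else ∅) ∪
      (if d < 2 then (words 0 (d + 1) m).image (List.cons false) else ∅)

theorem mem_words (m : ℕ) : ∀ (u d : ℕ) (l : List Bool), l.length = m → Ok u d l →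
    l ∈ words u d m := by
  induction m with
  | zero =>
    intro u d l hl _
    rw [List.length_eq_zero_iff] at hl
    subst hl
    simp [words]
  | succ m ih =>
    intro u d l hl hok
    cases l with
    | nil => simp at hl
    | cons a l =>
      simp only [List.length_cons, Nat.add_right_cancel_iff] at hl
      cases a with
      | true =>
        obtain ⟨h1, h2⟩ := hok
        rw [words, mem_union]
        left
        rw [if_pos h1]
        exact mem_image_of_mem _ (ih 1 0 l hl h2)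
      | false =>
        obtain ⟨h1, h2⟩ := hok
        rw [words, mem_union]
        right
        rw [if_pos h1]
        exact mem_image_of_mem _ (ih 0 (d + 1) l hl h2)

/-- the number of such words -/
def N : ℕ → ℕ → ℕ → ℕ
  | _, _, 0 => 1
  | u, d, m + 1 => (if u = 0 then N 1 0 m else 0) + (if d < 2 then N 0 (d + 1) m else 0)

theorem card_words (m : ℕ) : ∀ u d : ℕ, (words u d m).card ≤ N u d m := by
  induction m with
  | zero => intro u d; simp [words, N]
  | succ m ih =>
    intro u d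
    rw [words, N]
    refine (card_union_le _ _).trans (add_le_add ?_ ?_)
    · split_ifs
      · exact card_image_le.trans (ih 1 0)
      · simp
    · split_ifs
      · exact card_image_le.trans (ih 0 (d + 1))
      · simp

theorem ok_range (b : ℕ → Bool) (s e : ℕ)
    (hUU : ∀ j, s ≤ j → j + 1 < e → ¬ (b j = true ∧ b (j + 1) = true))
    (hDDD : ∀ j, s ≤ j → j + 2 < e → ¬ (b j = false ∧ b (j + 1) = false ∧ b (j + 2) = false))
    (m : ℕ) : ∀ (i u d : ℕ), i + m = e → d ≤ 2 →
      (u ≠ 0 → s + 1 ≤ i ∧ b (i - 1) = true) → (1 ≤ d → s + 1 ≤ i ∧ b (i - 1) = false) →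
      (2 ≤ d → s + 2 ≤ i ∧ b (i - 2) = false) → s ≤ i →
      Ok u d ((List.range' i m).map b) := by
  induction m with
  | zero => intro i u d _ _ _ _ _ _; simp [Ok]
  | succ m ih =>
    intro i u d h1 hd h2 h3 h4 h5
    rw [List.range'_succ, List.map_cons]
    cases hb : b i with
    | true =>
      refine ⟨?_, ?_⟩
      · by_contra hu
        obtain ⟨a1, a2⟩ := h2 hu
        apply hUU (i - 1) (by omega) (by omega)
        rw [show i - 1 + 1 = i by omega]
        exact ⟨a2, hb⟩
      · exact ih (i + 1) 1 0 (by omega) (by omega) (fun _ => ⟨by omega, by simpa using hb⟩)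
          (fun h => by omega) (fun h => by omega) (by omega)
    | false =>
      have hd2 : d < 2 := by
        by_contra hc
        obtain ⟨a1, a2⟩ := h3 (by omega)
        obtain ⟨a3, a4⟩ := h4 (by omega)
        apply hDDD (i - 2) (by omega) (by omega)
        rw [show i - 2 + 1 = i - 1 by omega, show i - 2 + 2 = i by omega]
        exact ⟨a4, a2, hb⟩
      refine ⟨hd2, ?_⟩
      refine ih (i + 1) 0 (d + 1) (by omega) (by omega) (fun h => absurd rfl h)
        (fun _ => ⟨by omega, by simpa using hb⟩) (fun h => ?_) (by omega)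
      obtain ⟨a1, a2⟩ := h3 (by omega)
      exact ⟨by omega, by rw [show i + 1 - 2 = i - 1 by omega]; exact a2⟩

theorem cnt_ind_le (n : ℕ) (hn : 2 ≤ n) : cnt (ind C4) n ≤ N 0 0 (n - 2) := by
  classical
  rw [cnt_eq_card]
  refine le_trans ?_ (card_words (n - 2) 0 0)
  apply Finset.card_le_card_of_injOn (fun π => (List.range' 1 (n - 2)).map (wd π))
  · intro π hπ
    simp only [coe_filter, mem_univ, true_and, Set.mem_ofPred_eq] at hπ
    apply mem_words
    · simp
    · exact ok_range (wd π) 1 (n - 1) (fun j h1 h2 => wd_UU hπ hn j h1 (by omega))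
        (fun j h1 h2 => wd_DDD hπ hn j h1 (by omega)) (n - 2) 1 0 0 (by omega) (by omega)
        (fun h => absurd rfl h) (fun h => by omega) (fun h => by omega) (by omega)
  · intro π hπ π' hπ' h
    simp only [coe_filter, mem_univ, true_and, Set.mem_ofPred_eq] at hπ hπ'
    have hb : ∀ x, x < n → wd π x = wd π' x := by
      intro x hx
      rcases Nat.eq_zero_or_pos x with rfl | h0
      · rw [wd_zero hπ hn, wd_zero hπ' hn]
      · rcases Nat.lt_or_ge (x + 1) n with h1 | h1
        · exact (List.map_inj_left.1 h) x (List.mem_range'_1.2 ⟨by omega, by omega⟩)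
        · rw [wd_last x (by omega), wd_last x (by omega)]
    exact Spec.unique hb (spec_wd hπ hn) (spec_wd hπ' hn)

theorem cnt_ind_one : cnt (ind C4) 1 ≤ 1 := by
  classical
  rw [cnt_eq_card]
  exact (card_filter_le _ _).trans (by simp)

/-! ### bounds for the number of words -/

theorem N_exp (m : ℕ) : (N 1 0 m : ℝ) ≤ 4 / 3 * (4 / 3) ^ m ∧
    (N 0 1 m : ℝ) ≤ 16 / 9 * (4 / 3) ^ m ∧ (N 0 2 m : ℝ) ≤ (4 / 3) ^ m := by
  induction m with
  | zero => simp [N]; norm_num
  | succ m ih =>
    obtain ⟨h1, h2, h3⟩ := ih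
    have hp : (0 : ℝ) ≤ (4 / 3) ^ m := by positivity
    refine ⟨?_, ?_, ?_⟩
    · have : N 1 0 (m + 1) = N 0 1 m := by simp [N]
      rw [this, pow_succ]; linarith
    · have : N 0 1 (m + 1) = N 1 0 m + N 0 2 m := by simp [N]
      rw [this, pow_succ]; push_cast; linarith
    · have : N 0 2 (m + 1) = N 1 0 m := by simp [N]
      rw [this, pow_succ]; linarith

theorem N_zero_exp (m : ℕ) : (N 0 0 m : ℝ) ≤ 7 / 3 * (4 / 3) ^ m := by
  cases m with
  | zero => simp [N]; norm_num
  | succ m =>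
    obtain ⟨h1, h2, _⟩ := N_exp m
    have hp : (0 : ℝ) ≤ (4 / 3) ^ m := by positivity
    have : N 0 0 (m + 1) = N 1 0 m + N 0 1 m := by simp [N]
    rw [this, pow_succ]; push_cast; linarith

theorem sum_N (M : ℕ) : ∑ m ∈ range M, (N 1 0 m : ℝ) * (0.42) ^ m ≤ 2.134 ∧
    ∑ m ∈ range M, (N 0 1 m : ℝ) * (0.42) ^ m ≤ 2.7 ∧
    ∑ m ∈ range M, (N 0 2 m : ℝ) * (0.42) ^ m ≤ 1.8963 := by
  induction M with
  | zero => simp; norm_num
  | succ M ih =>
    obtain ⟨h1, h2, h3⟩ := ih
    have e1 : ∀ m, N 1 0 (m + 1) = N 0 1 m := fun m => by simp [N]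
    have e2 : ∀ m, N 0 1 (m + 1) = N 1 0 m + N 0 2 m := fun m => by simp [N]
    have e3 : ∀ m, N 0 2 (m + 1) = N 1 0 m := fun m => by simp [N]
    refine ⟨?_, ?_, ?_⟩
    · rw [sum_range_succ']
      have : ∑ m ∈ range M, (N 1 0 (m + 1) : ℝ) * (0.42) ^ (m + 1) =
          0.42 * ∑ m ∈ range M, (N 0 1 m : ℝ) * (0.42) ^ m := by
        rw [mul_sum]
        exact sum_congr rfl (fun m _ => by rw [e1, pow_succ]; ring)
      rw [this]
      simp only [N, Nat.cast_one, pow_zero]
      linarith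
    · rw [sum_range_succ']
      have : ∑ m ∈ range M, (N 0 1 (m + 1) : ℝ) * (0.42) ^ (m + 1) =
          0.42 * (∑ m ∈ range M, (N 1 0 m : ℝ) * (0.42) ^ m +
            ∑ m ∈ range M, (N 0 2 m : ℝ) * (0.42) ^ m) := by
        rw [← sum_add_distrib, mul_sum]
        exact sum_congr rfl (fun m _ => by rw [e2, pow_succ]; push_cast; ring)
      rw [this]
      simp only [N, Nat.cast_one, pow_zero]
      linarith
    · rw [sum_range_succ']
      have : ∑ m ∈ range M, (N 0 2 (m + 1) : ℝ) * (0.42) ^ (m + 1) =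
          0.42 * ∑ m ∈ range M, (N 1 0 m : ℝ) * (0.42) ^ m := by
        rw [mul_sum]
        exact sum_congr rfl (fun m _ => by rw [e3, pow_succ]; ring)
      rw [this]
      simp only [N, Nat.cast_one, pow_zero]
      linarith

theorem sum_N_zero (M : ℕ) : ∑ m ∈ range M, (N 0 0 m : ℝ) * (0.42) ^ m ≤ 3.0303 := by
  cases M with
  | zero => simp; norm_num
  | succ M =>
    obtain ⟨h1, h2, _⟩ := sum_N M
    have e : ∀ m, N 0 0 (m + 1) = N 1 0 m + N 0 1 m := fun m => by simp [N]
    rw [sum_range_succ']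
    have : ∑ m ∈ range M, (N 0 0 (m + 1) : ℝ) * (0.42) ^ (m + 1) =
        0.42 * (∑ m ∈ range M, (N 1 0 m : ℝ) * (0.42) ^ m +
          ∑ m ∈ range M, (N 0 1 m : ℝ) * (0.42) ^ m) := by
      rw [← sum_add_distrib, mul_sum]
      exact sum_congr rfl (fun m _ => by rw [e, pow_succ]; push_cast; ring)
    rw [this]
    simp only [N, Nat.cast_one, pow_zero]
    linarith

theorem weight_le (n : ℕ) : ∑ k ∈ Icc 1 n, (cnt (ind C4) k : ℝ) * (0.42) ^ k ≤ 1 := by
  rcases Nat.eq_zero_or_pos n with rfl | hn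
  · simp
  · have h1 : Icc 1 n = insert 1 (Icc 2 n) := by
      ext x; simp only [mem_Icc, mem_insert]; omega
    rw [h1, sum_insert (by simp)]
    have h2 : ∑ k ∈ Icc 2 n, (cnt (ind C4) k : ℝ) * (0.42) ^ k ≤
        0.42 ^ 2 * ∑ m ∈ range (n - 1), (N 0 0 m : ℝ) * (0.42) ^ m := by
      rw [mul_sum, ← Finset.sum_nbij' (i := fun m => m + 2) (j := fun k => k - 2)
        (s := range (n - 1)) (t := Icc 2 n)
        (f := fun m => (cnt (ind C4) (m + 2) : ℝ) * 0.42 ^ (m + 2))]
      · refine sum_le_sum (fun m _ => ?_)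
        have h3 : (cnt (ind C4) (m + 2) : ℝ) ≤ N 0 0 m := by
          exact_mod_cast cnt_ind_le (m + 2) (by omega)
        calc (cnt (ind C4) (m + 2) : ℝ) * 0.42 ^ (m + 2)
            ≤ (N 0 0 m : ℝ) * 0.42 ^ (m + 2) := mul_le_mul_of_nonneg_right h3 (by positivity)
          _ = _ := by rw [pow_add]; ring
      · intro m hm; rw [mem_range] at hm; rw [mem_Icc]; omega
      · intro k hk; rw [mem_Icc] at hk; rw [mem_range]; omega
      · intro m _; omega
      · intro k hk; rw [mem_Icc] at hk; omega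
      · intro m _; rfl
    have h4 := sum_N_zero (n - 1)
    have h5 : (cnt (ind C4) 1 : ℝ) ≤ 1 := by exact_mod_cast cnt_ind_one
    have h6 : (0.42 : ℝ) ^ 2 = 0.1764 := by norm_num
    rw [h6] at h2
    rw [pow_one]
    linarith

/-! ### the lower bound -/

/-- blocks `10100` and `10010` -/
def blk (s : Bool) (r : ℕ) : Bool :=
  match r with
  | 0 => true
  | 1 => false
  | 2 => s
  | 3 => !s
  | _ => false

/-- the word belonging to a 0-1 sequence -/
def wordOf (k : ℕ) (s : ℕ → Bool) (x : ℕ) : Bool :=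
  if x = 0 then true else if 5 * k < x then false else blk (s ((x - 1) / 5)) ((x - 1) % 5)

theorem wordOf_UU (k : ℕ) (s : ℕ → Bool) (i : ℕ) (h1 : 1 ≤ i) (_h2 : i + 2 < 5 * k + 2) :
    ¬ (wordOf k s i = true ∧ wordOf k s (i + 1) = true) := by
  obtain ⟨j, rfl⟩ : ∃ j, i = j + 1 := ⟨i - 1, by omega⟩
  unfold wordOf
  rw [if_neg (by omega), if_neg (by omega), if_neg (by omega), if_neg (by omega)]
  simp only [Nat.add_sub_cancel]
  have h3 : j % 5 < 5 := Nat.mod_lt _ (by norm_num)
  obtain ⟨q, r, hr, rfl⟩ : ∃ q r, r < 5 ∧ j = 5 * q + r := ⟨j / 5, j % 5, h3, by omega⟩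
  have e1 : (5 * q + r) / 5 = q := by omega
  have e2 : (5 * q + r) % 5 = r := by omega
  rw [e1, e2]
  interval_cases r
  · rw [show (5 * q + 0 + 1) / 5 = q by omega, show (5 * q + 0 + 1) % 5 = 1 by omega]
    cases s q <;> decide
  · rw [show (5 * q + 1 + 1) / 5 = q by omega, show (5 * q + 1 + 1) % 5 = 2 by omega]
    cases s q <;> decide
  · rw [show (5 * q + 2 + 1) / 5 = q by omega, show (5 * q + 2 + 1) % 5 = 3 by omega]
    cases s q <;> decide
  · rw [show (5 * q + 3 + 1) / 5 = q by omega, show (5 * q + 3 + 1) % 5 = 4 by omega]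
    cases s q <;> decide
  · rintro ⟨h, _⟩
    exact absurd h (by cases s q <;> decide)

theorem wordOf_DDD (k : ℕ) (s : ℕ → Bool) (i : ℕ) (h1 : 1 ≤ i) (h2 : i + 3 < 5 * k + 2) :
    ¬ (wordOf k s i = false ∧ wordOf k s (i + 1) = false ∧ wordOf k s (i + 2) = false) := by
  obtain ⟨j, rfl⟩ : ∃ j, i = j + 1 := ⟨i - 1, by omega⟩
  unfold wordOf
  rw [if_neg (by omega), if_neg (by omega), if_neg (by omega), if_neg (by omega),
    if_neg (by omega), if_neg (by omega)]
  simp only [Nat.add_sub_cancel]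
  rw [show j + 1 + 2 - 1 = j + 2 by omega]
  have h3 : j % 5 < 5 := Nat.mod_lt _ (by norm_num)
  obtain ⟨q, r, hr, rfl⟩ : ∃ q r, r < 5 ∧ j = 5 * q + r := ⟨j / 5, j % 5, h3, by omega⟩
  have e1 : (5 * q + r) / 5 = q := by omega
  have e2 : (5 * q + r) % 5 = r := by omega
  rw [e1, e2]
  interval_cases r
  · rintro ⟨h, _⟩
    exact absurd h (by cases s q <;> decide)
  · rw [show (5 * q + 1 + 1) / 5 = q by omega, show (5 * q + 1 + 1) % 5 = 2 by omega,
      show (5 * q + 1 + 2) / 5 = q by omega, show (5 * q + 1 + 2) % 5 = 3 by omega]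
    cases s q <;> decide
  · rw [show (5 * q + 2 + 1) / 5 = q by omega, show (5 * q + 2 + 1) % 5 = 3 by omega]
    rintro ⟨h, h', _⟩
    cases hs : s q <;> rw [hs] at h h'
    · exact absurd h' (by decide)
    · exact absurd h (by decide)
  · rw [show (5 * q + 3 + 2) / 5 = q + 1 by omega, show (5 * q + 3 + 2) % 5 = 0 by omega]
    rintro ⟨_, _, h⟩
    exact absurd h (by cases s (q + 1) <;> decide)
  · rw [show (5 * q + 4 + 1) / 5 = q + 1 by omega, show (5 * q + 4 + 1) % 5 = 0 by omega]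
    rintro ⟨_, h, _⟩
    exact absurd h (by cases s (q + 1) <;> decide)

theorem le_cnt_ind (k : ℕ) : 2 ^ k ≤ cnt (ind C4) (5 * k + 2) := by
  classical
  have hex : ∀ s : Fin k → Bool, ∃ π : Equiv.Perm (Fin (5 * k + 2)),
      Spec (wordOf k (fun i => if h : i < k then s ⟨i, h⟩ else false)) π := by
    intro s
    apply exists_spec
    · intro x hx
      unfold wordOf
      rw [if_neg (by omega), if_pos (by omega)]
    · intro _; rfl
  choose π hπ using hex
  have hcard : 2 ^ k = (univ : Finset (Fin k → Bool)).card := by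
    rw [card_univ, Fintype.card_fun, Fintype.card_bool, Fintype.card_fin]
  rw [hcard, cnt_eq_card]
  apply Finset.card_le_card_of_injOn π
  · intro s _
    simp only [coe_filter, mem_univ, true_and, Set.mem_ofPred_eq]
    exact (hπ s).mem_ind (by omega) rfl (wordOf_UU k _) (wordOf_DDD k _)
  · intro s _ s' _ h
    funext ⟨i, hi⟩
    have e1 : ∀ s : Fin k → Bool,
        wordOf k (fun i => if h : i < k then s ⟨i, h⟩ else false) (5 * i + 3) = s ⟨i, hi⟩ := by
      intro s
      unfold wordOf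
      rw [if_neg (by omega), if_neg (by omega), show (5 * i + 3 - 1) / 5 = i by omega,
        show (5 * i + 3 - 1) % 5 = 2 by omega]
      simp [blk, hi]
    have e2 : ∀ s : Fin k → Bool,
        (wordOf k (fun i => if h : i < k then s ⟨i, h⟩ else false) (5 * i + 3) = true ↔
        5 * i + 3 < (π s ⟨5 * i + 3, by omega⟩ : ℕ)) := by
      intro s
      constructor
      · intro h1
        exact (hπ s).up ⟨5 * i + 3, by omega⟩ h1
      · intro h1
        by_contra hc
        rw [Bool.not_eq_true] at hc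
        have := (hπ s).dn ⟨5 * i + 3, by omega⟩ hc
        simp only at this
        omega
    have e3 := e2 s
    have e4 := e2 s'
    rw [h, ← e4, e1, e1] at e3
    cases h1 : s ⟨i, hi⟩ <;> cases h2 : s' ⟨i, hi⟩ <;> simp_all

theorem one_le_cnt (n : ℕ) : 1 ≤ cnt C4 n := by
  classical
  rw [cnt_eq_card]
  apply Finset.card_pos.2
  refine ⟨1, ?_⟩
  rw [mem_filter]
  refine ⟨mem_univ _, ?_, ?_, ?_, ?_⟩
  · intro (h : Le p321 1)
    obtain ⟨a, b, c, h1, h2, h3, h4⟩ := of_le321 h
    exact absurd h3 (lt_asymm h1)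
  · intro (h : Le p3412 1)
    obtain ⟨a, b, c, d, h1, h2, h3, h4, h5, h6⟩ := of_le3412 h
    exact absurd h5 (lt_asymm (h1.trans (h2.trans h3)))
  · intro (h : Le p2341 1)
    obtain ⟨a, b, c, d, h1, h2, h3, h4, h5, h6⟩ := of_le2341 h
    exact absurd h4 (lt_asymm (h1.trans (h2.trans h3)))
  · intro (h : Le p51234 1)
    obtain ⟨a, b, c, d, e, h1, h2, h3, h4, h5, h6, h7, h8⟩ := of_le51234 h
    exact absurd h8 (lt_asymm (h1.trans (h2.trans (h3.trans h4))))

open Filter Topology

/-- the growth rate of the class is at most `1/0.42` -/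
theorem growth_C4 : ∃ g : ℝ,
    Tendsto (fun n : ℕ => (cnt C4 n : ℝ) ^ (1 / (n : ℝ))) atTop (𝓝 g) ∧ g < 1 + Real.sqrt 2 := by
  obtain ⟨g, h1, h2⟩ := exists_growth sumClosed_C4 one_le_cnt (B := 1 / 0.42) (by norm_num)
    (fun n => by
      have := cnt_mul_pow_le isClass_C4 (x := 0.42) (by norm_num) weight_le n
      rw [div_pow, one_pow, le_div_iff₀ (by positivity)]
      exact this)
  refine ⟨g, h1, lt_of_le_of_lt h2 ?_⟩
  have h3 : (1.4 : ℝ) < Real.sqrt 2 := by
    rw [Real.lt_sqrt (by norm_num)]; norm_num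
  have : (1 : ℝ) / 0.42 < 2.4 := by norm_num
  linarith

theorem ind_rpow_le (n : ℕ) : (cnt (ind C4) n : ℝ) ≤ 7 / 3 * (4 / 3) ^ n := by
  classical
  rcases Nat.lt_or_ge n 2 with h | h
  · have h1 : cnt (ind C4) n ≤ 1 := by
      rw [cnt_eq_card]
      refine (card_filter_le _ _).trans ?_
      interval_cases n <;> simp
    have h2 : (cnt (ind C4) n : ℝ) ≤ 1 := by exact_mod_cast h1
    have h3 : (1 : ℝ) ≤ (4 / 3) ^ n := one_le_pow₀ (by norm_num)
    linarith
  · have h1 : (cnt (ind C4) n : ℝ) ≤ N 0 0 (n - 2) := by exact_mod_cast cnt_ind_le n h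
    have h2 := N_zero_exp (n - 2)
    have h3 : (4 / 3 : ℝ) ^ (n - 2) ≤ (4 / 3) ^ n := pow_le_pow_right₀ (by norm_num) (by omega)
    linarith

theorem ind_bdd : IsBoundedUnder (· ≤ ·) atTop
    (fun n : ℕ => (cnt (ind C4) n : ℝ) ^ (1 / (n : ℝ))) := by
  refine ⟨4, ?_⟩
  rw [eventually_map]
  filter_upwards [eventually_ge_atTop 1] with n hn
  have hn' : (1 : ℝ) ≤ n := by exact_mod_cast hn
  calc (cnt (ind C4) n : ℝ) ^ (1 / (n : ℝ)) ≤ ((4 : ℝ) ^ n) ^ (1 / (n : ℝ)) := by
        apply Real.rpow_le_rpow (by positivity) _ (by positivity)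
        refine (ind_rpow_le n).trans ?_
        have h1 : (4 : ℝ) ^ n = 3 ^ n * (4 / 3) ^ n := by
          rw [← mul_pow]; norm_num
        rw [h1]
        apply mul_le_mul_of_nonneg_right _ (by positivity)
        calc (7 / 3 : ℝ) ≤ 3 ^ 1 := by norm_num
          _ ≤ 3 ^ n := pow_le_pow_right₀ (by norm_num) hn
    _ = 4 := by
        rw [← Real.rpow_natCast, ← Real.rpow_mul (by norm_num), mul_one_div_cancel (by positivity),
          Real.rpow_one]

theorem one_lt_limsup : 1 < limsup (fun n : ℕ => (cnt (ind C4) n : ℝ) ^ (1 / (n : ℝ))) atTop := by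
  have h1 : (2 : ℝ) ^ (1 / 7 : ℝ) ≤
      limsup (fun n : ℕ => (cnt (ind C4) n : ℝ) ^ (1 / (n : ℝ))) atTop := by
    apply le_limsup_of_frequently_le _ ind_bdd
    rw [frequently_atTop]
    intro a
    refine ⟨5 * (a + 1) + 2, by omega, ?_⟩
    have h2 : (2 : ℝ) ^ (a + 1) ≤ (cnt (ind C4) (5 * (a + 1) + 2) : ℝ) := by
      exact_mod_cast le_cnt_ind (a + 1)
    calc (2 : ℝ) ^ (1 / 7 : ℝ) ≤ (2 : ℝ) ^ (((a + 1 : ℕ) : ℝ) * (1 / ((5 * (a + 1) + 2 : ℕ) : ℝ))) := by
          apply Real.rpow_le_rpow_of_exponent_le (by norm_num)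
          rw [mul_one_div, div_le_div_iff₀ (by norm_num) (by positivity)]
          push_cast
          have : (0 : ℝ) ≤ a := by positivity
          linarith
      _ = ((2 : ℝ) ^ (a + 1)) ^ (1 / ((5 * (a + 1) + 2 : ℕ) : ℝ)) := by
          rw [Real.rpow_mul (by norm_num), Real.rpow_natCast]
      _ ≤ _ := Real.rpow_le_rpow (by positivity) h2 (by positivity)
  refine lt_of_lt_of_le ?_ h1
  exact Real.one_lt_rpow (by norm_num) (by norm_num)

theorem limsup_lt_phi :
    limsup (fun n : ℕ => (cnt (ind C4) n : ℝ) ^ (1 / (n : ℝ))) atTop < (1 + Real.sqrt 5) / 2 := by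
  have h1 : limsup (fun n : ℕ => (cnt (ind C4) n : ℝ) ^ (1 / (n : ℝ))) atTop ≤ 3 / 2 := by
    apply limsup_le_of_le
    · exact isCoboundedUnder_le_of_le atTop (x := 0) (fun n => by positivity)
    · have h2 : Tendsto (fun n : ℕ => (9 / 8 : ℝ) ^ n) atTop atTop :=
        tendsto_pow_atTop_atTop_of_one_lt (by norm_num)
      filter_upwards [eventually_ge_atTop 1, h2.eventually_ge_atTop (7 / 3)] with n hn h3
      have hn' : (1 : ℝ) ≤ n := by exact_mod_cast hn
      calc (cnt (ind C4) n : ℝ) ^ (1 / (n : ℝ)) ≤ ((3 / 2 : ℝ) ^ n) ^ (1 / (n : ℝ)) := by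
            apply Real.rpow_le_rpow (by positivity) _ (by positivity)
            refine (ind_rpow_le n).trans ?_
            have h4 : (3 / 2 : ℝ) ^ n = (9 / 8) ^ n * (4 / 3) ^ n := by
              rw [← mul_pow]; norm_num
            rw [h4]
            exact mul_le_mul_of_nonneg_right h3 (by positivity)
        _ = 3 / 2 := by
            rw [← Real.rpow_natCast, ← Real.rpow_mul (by norm_num),
              mul_one_div_cancel (by positivity), Real.rpow_one]
  refine lt_of_le_of_lt h1 ?_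
  have h3 : (2 : ℝ) < Real.sqrt 5 := by
    rw [Real.lt_sqrt (by norm_num)]; norm_num
  linarith

end Q161.Cls
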