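import Mathlib

/-! Permutation classes: restriction of a permutation to a set of positions, merges. -/

set_option autoImplicit false

namespace Q161.Cls

open Finset

/-- all finite permutations -/
abbrev P := Σ n : ℕ, Equiv.Perm (Fin n)

/-- the subsequence of `π` at the positions `f 0 < f 1 < ⋯` is order-isomorphic to `σ` -/
def OI {k n : ℕ} (σ : Equiv.Perm (Fin k)) (π : Equiv.Perm (Fin n)) (f : Fin k → Fin n) : Prop :=
  StrictMono f ∧ ∀ a b, σ a < σ b ↔ π (f a) < π (f b)

/-- `σ` is contained in `π` -/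
def Le {k n : ℕ} (σ : Equiv.Perm (Fin k)) (π : Equiv.Perm (Fin n)) : Prop := ∃ f, OI σ π f

/-- the entries of `π` at the positions in `S` are order-isomorphic to an element of `A` -/
def In {n : ℕ} (A : Set P) (π : Equiv.Perm (Fin n)) (S : Finset (Fin n)) : Prop :=
  ∃ (k : ℕ) (σ : Equiv.Perm (Fin k)) (f : Fin k → Fin n),
    (⟨k, σ⟩ : P) ∈ A ∧ OI σ π f ∧ univ.image f = S

/-- the merge of `A` and `B` -/
def Merge (A B : Set P) : Set P := {π | ∃ R : Finset (Fin π.1), In A π.2 R ∧ In B π.2 Rᶜ}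

/-- permutation classes: they contain the empty permutation and are closed under containment -/
structure IsClass (A : Set P) : Prop where
  empty_mem : (⟨0, 1⟩ : P) ∈ A
  down : ∀ {k n : ℕ} (σ : Equiv.Perm (Fin k)) (π : Equiv.Perm (Fin n)), Le σ π →
    (⟨n, π⟩ : P) ∈ A → (⟨k, σ⟩ : P) ∈ A

variable {n k : ℕ}

theorem OI.comp {m : ℕ} {τ : Equiv.Perm (Fin m)} {σ : Equiv.Perm (Fin k)}
    {π : Equiv.Perm (Fin n)} {g : Fin m → Fin k} {f : Fin k → Fin n} (h1 : OI τ σ g)
    (h2 : OI σ π f) : OI τ π (f ∘ g) :=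
  ⟨h2.1.comp h1.1, fun a b => by rw [h1.2, h2.2]; rfl⟩

/-- if `τ ≅ π∘f∘g` and `σ ≅ π∘f` then `τ ≅ σ∘g` -/
theorem OI.of_comp {m : ℕ} {τ : Equiv.Perm (Fin m)} {σ : Equiv.Perm (Fin k)}
    {π : Equiv.Perm (Fin n)} {g : Fin m → Fin k} {f : Fin k → Fin n} (h1 : OI τ π (f ∘ g))
    (h2 : OI σ π f) : OI τ σ g :=
  ⟨fun a b hab => h2.1.lt_iff_lt.1 (h1.1 hab), fun a b => by rw [h1.2, h2.2]; rfl⟩

theorem exists_std (π : Equiv.Perm (Fin n)) (S : Finset (Fin n)) :
    ∃ (k : ℕ) (σ : Equiv.Perm (Fin k)) (f : Fin k → Fin n), OI σ π f ∧ univ.image f = S := by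
  classical
  let e1 : Fin S.card ≃o S := S.orderIsoOfFin rfl
  let T : Finset (Fin n) := S.map π.toEmbedding
  have hT : T.card = S.card := Finset.card_map _
  let e2 : Fin S.card ≃o T := T.orderIsoOfFin hT
  let e3 : S ≃ T := 
    { toFun := fun x => ⟨π x, by simp [T]⟩
      invFun := fun y => ⟨π.symm y, by
        obtain ⟨y, hy⟩ := y
        simp only [T, mem_map_equiv] at hy
        exact hy⟩
      left_inv := fun x => by simp
      right_inv := fun y => by simp }
  refine ⟨S.card, (e1.toEquiv.trans e3).trans e2.toEquiv.symm, fun i => (e1 i : Fin n), ⟨?_, ?_⟩, ?_⟩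
  · intro a b hab
    exact e1.strictMono hab
  · intro a b
    have h : ∀ x y : T, e2.symm x < e2.symm y ↔ x < y := fun x y => e2.symm.lt_iff_lt
    change e2.symm (e3 (e1 a)) < e2.symm (e3 (e1 b)) ↔ _
    rw [h]
    rfl
  · ext x
    simp only [mem_image, mem_univ, true_and]
    constructor
    · rintro ⟨a, rfl⟩; exact (e1 a).2
    · intro hx
      exact ⟨e1.symm ⟨x, hx⟩, by simp⟩

theorem perm_unique {σ τ : Equiv.Perm (Fin k)} (h : ∀ a b, σ a < σ b ↔ τ a < τ b) : σ = τ := by
  have h1 : StrictMono (fun a => τ (σ.symm a)) := by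
    intro a b hab
    rw [← h]
    simpa using hab
  have h2 : (fun a => τ (σ.symm a)) = id := by
    apply (StrictMono.range_inj h1 strictMono_id).1
    rw [Set.range_id]
    exact (σ.symm.trans τ).surjective.range_eq
  ext a
  have := congrFun h2 (σ a)
  simp at this
  rw [this]

theorem OI.unique {σ : Equiv.Perm (Fin k)} {l : ℕ} {τ : Equiv.Perm (Fin l)}
    {π : Equiv.Perm (Fin n)} {f : Fin k → Fin n} {g : Fin l → Fin n}
    (h1 : OI σ π f) (h2 : OI τ π g) (h : univ.image f = univ.image g) :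
    (⟨k, σ⟩ : P) = ⟨l, τ⟩ := by
  classical
  have hk : k = l := by
    have e := congrArg Finset.card h
    rw [Finset.card_image_of_injective _ h1.1.injective,
      Finset.card_image_of_injective _ h2.1.injective] at e
    simpa using e
  subst hk
  have hfg : f = g := by
    apply (StrictMono.range_inj h1.1 h2.1).1
    have e := congrArg (fun s : Finset (Fin n) => (s : Set (Fin n))) h
    simpa using e
  subst hfg
  have : σ = τ := perm_unique (fun a b => by rw [h1.2, h2.2])
  rw [this]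

theorem in_iff {A : Set P} {σ : Equiv.Perm (Fin k)} {π : Equiv.Perm (Fin n)} {f : Fin k → Fin n}
    {S : Finset (Fin n)} (h : OI σ π f) (hS : univ.image f = S) :
    In A π S ↔ (⟨k, σ⟩ : P) ∈ A := by
  constructor
  · rintro ⟨l, τ, g, hA, h2, h3⟩
    rw [OI.unique h h2 (by rw [hS, h3])]
    exact hA
  · intro hA
    exact ⟨k, σ, f, hA, h, hS⟩

theorem oi_self (π : Equiv.Perm (Fin n)) : OI π π id := ⟨strictMono_id, fun _ _ => Iff.rfl⟩

theorem in_univ {A : Set P} {π : Equiv.Perm (Fin n)} : In A π univ ↔ (⟨n, π⟩ : P) ∈ A :=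
  in_iff (oi_self π) (by simp)

theorem in_image {A : Set P} {σ : Equiv.Perm (Fin k)} {π : Equiv.Perm (Fin n)}
    {f : Fin k → Fin n} (h : OI σ π f) (S : Finset (Fin k)) :
    In A π (S.image f) ↔ In A σ S := by
  obtain ⟨l, τ, g, h1, h2⟩ := exists_std σ S
  rw [in_iff h1 h2, in_iff (h1.comp h)]
  rw [← h2, Finset.image_image]

theorem in_mono {A : Set P} (hA : IsClass A) {π : Equiv.Perm (Fin n)} {S T : Finset (Fin n)}
    (hTS : T ⊆ S) (h : In A π S) : In A π T := by
  classical
  obtain ⟨k, σ, f, h1, h2⟩ := exists_std π S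
  rw [in_iff h1 h2] at h
  have hT : T = (univ.filter (fun a => f a ∈ T)).image f := by
    ext x
    simp only [mem_image, mem_filter, mem_univ, true_and]
    constructor
    · intro hx
      have : x ∈ univ.image f := by rw [h2]; exact hTS hx
      obtain ⟨a, _, rfl⟩ := Finset.mem_image.1 this
      exact ⟨a, hx, rfl⟩
    · rintro ⟨a, ha, rfl⟩; exact ha
  rw [hT, in_image h1]
  obtain ⟨l, τ, g, h3, h4⟩ := exists_std σ (univ.filter (fun a => f a ∈ T))
  rw [in_iff h3 h4]
  exact hA.down τ σ ⟨g, h3⟩ h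

theorem in_merge {A B : Set P} {π : Equiv.Perm (Fin n)} {S : Finset (Fin n)} :
    In (Merge A B) π S ↔ ∃ R ⊆ S, In A π R ∧ In B π (S \ R) := by
  classical
  obtain ⟨k, σ, f, h1, h2⟩ := exists_std π S
  rw [in_iff h1 h2]
  have hinj := h1.1.injective
  constructor
  · rintro ⟨R, hA, hB⟩
    refine ⟨R.image f, ?_, (in_image h1 R).2 hA, ?_⟩
    · rw [← h2]; exact Finset.image_subset_image (subset_univ _)
    · have : S \ R.image f = Rᶜ.image f := by
        rw [← h2, ← Finset.image_sdiff _ _ hinj]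
        rfl
      rw [this]
      exact (in_image h1 _).2 hB
  · rintro ⟨R, hRS, hA, hB⟩
    have hR : R = (univ.filter (fun a => f a ∈ R)).image f := by
      ext x
      simp only [mem_image, mem_filter, mem_univ, true_and]
      constructor
      · intro hx
        have : x ∈ univ.image f := by rw [h2]; exact hRS hx
        obtain ⟨a, _, rfl⟩ := Finset.mem_image.1 this
        exact ⟨a, hx, rfl⟩
      · rintro ⟨a, ha, rfl⟩; exact ha
    refine ⟨univ.filter (fun a => f a ∈ R), ?_, ?_⟩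
    · rw [← in_image h1, ← hR]; exact hA
    · rw [← in_image h1]
      have : (univ.filter (fun a => f a ∈ R))ᶜ.image f = S \ R := by
        rw [compl_eq_univ_sdiff, Finset.image_sdiff _ _ hinj, h2, ← hR]
      simp only at this ⊢
      rw [this]; exact hB

theorem mem_merge {A B : Set P} {π : Equiv.Perm (Fin n)} :
    (⟨n, π⟩ : P) ∈ Merge A B ↔ ∃ R, In A π R ∧ In B π Rᶜ := Iff.rfl

theorem in_empty {A : Set P} (hA : IsClass A) (π : Equiv.Perm (Fin n)) : In A π ∅ := by
  refine ⟨0, 1, Fin.elim0, hA.empty_mem, ⟨fun a => a.elim0, fun a => a.elim0⟩, rfl⟩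

theorem IsClass.merge {A B : Set P} (hA : IsClass A) (hB : IsClass B) : IsClass (Merge A B) := by
  classical
  constructor
  · exact ⟨∅, in_empty hA _, by simpa using in_empty hB _⟩
  · rintro k n σ π ⟨f, hf⟩ ⟨R, hRA, hRB⟩
    simp only at R hRA hRB
    refine ⟨univ.filter (fun a => f a ∈ R), ?_, ?_⟩
    · rw [← in_image hf]
      refine in_mono hA ?_ hRA
      intro x hx
      obtain ⟨a, ha, rfl⟩ := Finset.mem_image.1 hx
      exact (Finset.mem_filter.1 ha).2
    · rw [← in_image hf]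
      refine in_mono hB ?_ hRB
      intro x hx
      obtain ⟨a, ha, rfl⟩ := Finset.mem_image.1 hx
      rw [mem_compl] at ha ⊢
      intro h
      exact ha (Finset.mem_filter.2 ⟨mem_univ _, h⟩)

theorem subset_merge_left {A B : Set P} (hB : IsClass B) : A ⊆ Merge A B := by
  rintro ⟨n, π⟩ h
  exact ⟨univ, in_univ.2 h, by simpa using in_empty hB _⟩

theorem subset_merge_right {A B : Set P} (hA : IsClass A) : B ⊆ Merge A B := by
  rintro ⟨n, π⟩ h
  exact ⟨∅, in_empty hA _, by simpa using in_univ.2 h⟩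

end Q161.Cls
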