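import Pool.Agent.Q161.CndGadget

/-!
# The assembly of four gadgets along the subdivided `K₄` (MP_03af38_co)
-/

namespace Pool.Agent.Q161.Cnd

open SimpleGraph

variable {V W : Type*}

/-- The edges of `K₄`. -/
abbrev E4 := {e : Sym2 (Fin 4) // ¬ e.IsDiag}

/-- The edge `ij` of `K₄`. -/
def cc (i j : Fin 4) : E4 :=
  if h : i ≠ j then ⟨s(i, j), by simpa using h⟩ else ⟨s(0, 1), by simp⟩

theorem cc_val {i j : Fin 4} (h : i ≠ j) : (cc i j).1 = s(i, j) := by
  unfold cc; rw [dif_pos h]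

theorem cc_eq {i j a b : Fin 4} (h : i ≠ j) (h' : a ≠ b) :
    cc i j = cc a b ↔ (i = a ∧ j = b) ∨ (i = b ∧ j = a) := by
  rw [← Subtype.coe_inj, cc_val h, cc_val h', Sym2.eq_iff]

theorem exists_cc (e : E4) : ∃ i j, i ≠ j ∧ e = cc i j := by
  obtain ⟨e, he⟩ := e
  induction e using Sym2.ind with
  | _ i j =>
    have h : i ≠ j := by simpa using he
    exact ⟨i, j, h, Subtype.ext (cc_val h).symm⟩

/-- The terminal of gadget `i` in the direction of `j`. -/
def idx (i j : Fin 4) : Fin 3 := ⟨(j - i - 1).val % 3, Nat.mod_lt _ (by norm_num)⟩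

theorem idx_inj : ∀ i j k : Fin 4, i ≠ j → i ≠ k → idx i j = idx i k → j = k := by decide

theorem idx_surj : ∀ (i : Fin 4) (t : Fin 3), ∃ j, i ≠ j ∧ idx i j = t := by decide

/-- The glue edges. -/
noncomputable def glue (T : Fin 3 → V) : List (((Fin 4 × V) ⊕ E4) × ((Fin 4 × V) ⊕ E4)) :=
  ((Finset.univ : Finset (Fin 4 × Fin 4)).filter (fun p => p.1 ≠ p.2)).toList.map
    (fun p => (Sum.inr (cc p.1 p.2), Sum.inl (p.1, T (idx p.1 p.2))))

theorem mem_glue {T : Fin 3 → V} {e : ((Fin 4 × V) ⊕ E4) × ((Fin 4 × V) ⊕ E4)} :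
    e ∈ glue T ↔ ∃ i j, i ≠ j ∧ e = (Sum.inr (cc i j), Sum.inl (i, T (idx i j))) := by
  unfold glue
  rw [List.mem_map]
  constructor
  · rintro ⟨⟨i, j⟩, h1, rfl⟩
    rw [Finset.mem_toList, Finset.mem_filter] at h1
    exact ⟨i, j, h1.2, rfl⟩
  · rintro ⟨i, j, h1, rfl⟩
    exact ⟨(i, j), by rw [Finset.mem_toList, Finset.mem_filter]; exact ⟨Finset.mem_univ _, h1⟩, rfl⟩

theorem glue_nodup {T : Fin 3 → V} (hT : Function.Injective T) : (glue T).Nodup := by
  unfold glue
  refine List.Nodup.map_on ?_ (Finset.nodup_toList _)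
  rintro ⟨i, j⟩ hi ⟨i', j'⟩ hi' h
  rw [Finset.mem_toList, Finset.mem_filter] at hi hi'
  simp only [Prod.mk.injEq, Sum.inr.injEq, Sum.inl.injEq] at h
  obtain ⟨_, rfl, h2⟩ := h
  rw [idx_inj i j j' hi.2 hi'.2 (hT h2)]

/-- Four copies of the gadget `B`, glued along the subdivided `K₄`. -/
noncomputable def asm (B : SimpleGraph V) (T : Fin 3 → V) : SimpleGraph ((Fin 4 × V) ⊕ E4) :=
  addL (copies (Fin 4) E4 B) (glue T)

variable {B : SimpleGraph V} {T : Fin 3 → V}

theorem asm_adj_ll {i j : Fin 4} {u v : V} :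
    (asm B T).Adj (Sum.inl (i, u)) (Sum.inl (j, v)) ↔ i = j ∧ B.Adj u v := by
  unfold asm
  rw [addL_adj, copies_adj_inl, mem_glue, mem_glue]
  constructor
  · rintro (⟨y, h1, h2⟩ | ⟨⟨a, b, _, h⟩ | ⟨a, b, _, h⟩, _⟩)
    · simp only [Sum.inl.injEq, Prod.mk.injEq] at h1
      obtain ⟨rfl, rfl⟩ := h1
      exact ⟨rfl, h2⟩
    · simp at h
    · simp at h
  · rintro ⟨rfl, h⟩
    exact Or.inl ⟨v, rfl, h⟩

theorem asm_adj_rl {i : Fin 4} {u : V} {e : E4} :
    (asm B T).Adj (Sum.inr e) (Sum.inl (i, u)) ↔ ∃ j, i ≠ j ∧ e = cc i j ∧ u = T (idx i j) := by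
  unfold asm
  rw [addL_adj, mem_glue, mem_glue]
  constructor
  · rintro (h | ⟨⟨a, b, hab, h⟩ | ⟨a, b, _, h⟩, _⟩)
    · exact absurd h copies_adj_inr
    · simp only [Prod.mk.injEq, Sum.inr.injEq, Sum.inl.injEq] at h
      obtain ⟨rfl, rfl, rfl⟩ := h
      exact ⟨b, hab, rfl, rfl⟩
    · simp at h
  · rintro ⟨j, h1, rfl, rfl⟩
    exact Or.inr ⟨Or.inl ⟨i, j, h1, rfl⟩, by simp⟩

theorem asm_adj_rr {e e' : E4} : ¬ (asm B T).Adj (Sum.inr e) (Sum.inr e') := by
  unfold asm
  rw [addL_adj, mem_glue, mem_glue]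
  rintro (h | ⟨⟨a, b, hab, h⟩ | ⟨a, b, _, h⟩, _⟩)
  · exact absurd h copies_adj_inr
  · simp at h
  · simp at h

/-- The girth of the assembly. -/
theorem gir_asm {g : ℕ} (hg : 3 ≤ g) (h : IsGad g B T) : Gir (asm B T) g := by
  unfold asm
  refine (gir_copies h.gir).addL ?_
  intro L1 e L2 hL
  have hnd := glue_nodup h.inj
  rw [hL] at hnd
  have hnotin : e ∉ L2 := (List.nodup_cons.1 (List.nodup_append.1 hnd).2.1).1
  have hsub : ∀ e' ∈ L2, e' ∈ glue T := fun e' he' => by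
    rw [hL]; exact List.mem_append_right _ (List.mem_cons_of_mem _ he')
  obtain ⟨i, j, hij, rfl⟩ := mem_glue.1 (by rw [hL]; simp : e ∈ glue T)
  obtain ⟨F, hF1, hF2, hF3⟩ := exists_lip (G := B) (a := T (idx j i))
    (T := {v | ∃ s, s ≠ idx j i ∧ v = T s}) (m := g - 2) (by
      rintro b ⟨s, hs, rfl⟩ p
      have := h.far _ _ hs.symm p
      omega)
  refine ⟨Sum.elim (fun p => if p.1 = j then F p.2 + 1 else (g : ℤ) - 1)
    (fun e => if e = cc i j then 0 else (g : ℤ) - 1), ?_, ?_⟩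
  · refine Lip.addL (lip_copies ?_) ?_
    · intro a
      by_cases ha : a = j
      · simpa [ha] using hF1.add_const 1
      · simpa [ha] using Lip.const (G := B) ((g : ℤ) - 1)
    · intro e' he'
      obtain ⟨a, b, hab, rfl⟩ := mem_glue.1 (hsub _ he')
      simp only [Sum.elim_inr, Sum.elim_inl]
      by_cases hc : cc a b = cc i j
      · rw [if_pos hc]
        rcases (cc_eq hab hij).1 hc with ⟨rfl, rfl⟩ | ⟨rfl, rfl⟩
        · exact absurd he' hnotin
        · rw [if_pos rfl, hF2]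
          omega
      · rw [if_neg hc]
        by_cases ha : a = j
        · subst ha
          have hne : b ≠ i := fun hb => hc ((cc_eq hab hij).2 (Or.inr ⟨rfl, hb⟩))
          have := hF3 (T (idx a b)) ⟨idx a b, fun h' => hne (idx_inj a b i hab hij.symm h'), rfl⟩
          rw [if_pos rfl, this]
          omega
        · rw [if_neg ha]
          omega
  · simp only [Sum.elim_inr, Sum.elim_inl, if_neg hij, if_true]
    omega

/-! ### Not traceable -/

/-- The unordered pairs of consecutive entries. -/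
def tr : List (Fin 4) → List (Sym2 (Fin 4))
  | a :: b :: l => s(a, b) :: tr (b :: l)
  | _ => []

theorem tr_length : ∀ (l : List (Fin 4)) (a : Fin 4), (tr (a :: l)).length = l.length := by
  intro l
  induction l with
  | nil => intro a; rfl
  | cons b l ih => intro a; show (tr (b :: l)).length + 1 = _; rw [ih, List.length_cons]

/-- The vertices `c` on a path. -/
def cs (l : List ((Fin 4 × V) ⊕ E4)) : List (Sym2 (Fin 4)) :=
  l.filterMap (fun v => match v with
    | Sum.inl _ => none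
    | Sum.inr e => some e.1)

theorem cs_nil : cs ([] : List ((Fin 4 × V) ⊕ E4)) = [] := rfl

theorem cs_inl (p : Fin 4 × V) (l : List ((Fin 4 × V) ⊕ E4)) : cs (Sum.inl p :: l) = cs l := rfl

theorem cs_inr (e : E4) (l : List ((Fin 4 × V) ⊕ E4)) : cs (Sum.inr e :: l) = e.1 :: cs l := rfl

theorem trail_of_path : ∀ l : List ((Fin 4 × V) ⊕ E4), l.IsChain (asm B T).Adj → l.Nodup →
    (∀ i u l', l = Sum.inl (i, u) :: l' → ∃ vs, tr (i :: vs) = cs l) ∧
    (∀ i j l', i ≠ j → l = Sum.inr (cc i j) :: l' →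
      (∀ x ∈ l'.head?, ∃ u, x = Sum.inl (j, u)) → ∃ vs, tr (i :: vs) = cs l) := by
  intro l
  induction l with
  | nil => intro _ _; exact ⟨fun _ _ _ h => by simp at h, fun _ _ _ _ h => by simp at h⟩
  | cons x l ih =>
    intro hc hn
    rw [List.nodup_cons] at hn
    rw [List.isChain_cons] at hc
    obtain ⟨ih1, ih2⟩ := ih hc.2 hn.2
    constructor
    · intro i u l' hl
      rw [List.cons.injEq] at hl
      obtain ⟨rfl, rfl⟩ := hl
      cases l with
      | nil => exact ⟨[], rfl⟩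
      | cons y l =>
        have hadj := hc.1 y (by simp)
        rcases y with ⟨j, v⟩ | e
        · obtain ⟨rfl, _⟩ := asm_adj_ll.1 hadj
          obtain ⟨vs, hvs⟩ := ih1 i v l rfl
          exact ⟨vs, hvs⟩
        · obtain ⟨j, hij, rfl, rfl⟩ := asm_adj_rl.1 hadj.symm
          obtain ⟨vs, hvs⟩ := ih2 i j l hij rfl (by
            intro z hz
            cases l with
            | nil => simp at hz
            | cons w l =>
              simp only [List.head?_cons, Option.mem_def, Option.some.injEq] at hz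
              subst hz
              have hadj2 := (List.isChain_cons.1 hc.2).1 w (by simp)
              rcases w with ⟨a, u⟩ | e
              · obtain ⟨b, hab, h1, rfl⟩ := asm_adj_rl.1 hadj2
                rcases (cc_eq hij hab).1 h1 with ⟨rfl, rfl⟩ | ⟨rfl, rfl⟩
                · exfalso
                  apply hn.1
                  simp
                · exact ⟨_, rfl⟩
              · exact absurd hadj2 asm_adj_rr)
          exact ⟨vs, hvs⟩
    · intro i j l' hij hl hhead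
      rw [List.cons.injEq] at hl
      obtain ⟨rfl, rfl⟩ := hl
      cases l with
      | nil =>
        refine ⟨[j], ?_⟩
        rw [cs_inr, cc_val hij]
        rfl
      | cons y l =>
        obtain ⟨u, rfl⟩ := hhead y (by simp)
        obtain ⟨vs, hvs⟩ := ih1 j u l rfl
        refine ⟨j :: vs, ?_⟩
        rw [cs_inr, cc_val hij, ← hvs]
        rfl

set_option synthInstance.maxSize 2000 in
set_option synthInstance.maxHeartbeats 0 in
set_option maxRecDepth 100000 in
theorem no_trail7 : ∀ a b : Fin 4, a ≠ b → ∀ c, b ≠ c → c ≠ a → ∀ d, c ≠ d →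
    d ≠ b → ¬ (c = a ∧ d = b) → ∀ e, d ≠ e → e ≠ c →
    ¬ (d = a ∧ e = b) → ¬ (d = b ∧ e = a) → ¬ (d = b ∧ e = c) →
    ∀ f, e ≠ f → f ≠ d → ¬ (e = a ∧ f = b) → ¬ (e = b ∧ f = a) → ¬ (e = b ∧ f = c) →
    ¬ (e = c ∧ f = b) → ¬ (e = c ∧ f = d) →
    ∀ h, f ≠ h → h ≠ e → ¬ (f = a ∧ h = b) → ¬ (f = b ∧ h = a) → ¬ (f = b ∧ h = c) →
    ¬ (f = c ∧ h = b) → ¬ (f = c ∧ h = d) → ¬ (f = d ∧ h = c) → ¬ (f = d ∧ h = e) → False := by
  decide +kernel

theorem no_trail (vs : List (Fin 4)) (a : Fin 4) (hl : (tr (a :: vs)).length = 6)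
    (hn : (tr (a :: vs)).Nodup) (hd : ∀ e ∈ tr (a :: vs), ¬ e.IsDiag) : False := by
  rw [tr_length] at hl
  match vs, hl with
  | [b, c, d, e, f, h], _ =>
    simp only [tr, List.nodup_cons, List.mem_cons, List.not_mem_nil, or_false, not_or,
      Sym2.eq_iff, List.nodup_nil, and_true, not_and] at hn
    simp only [tr, List.mem_cons, List.not_mem_nil, or_false, forall_eq_or_imp, forall_eq,
      Sym2.mk_isDiag_iff] at hd
    obtain ⟨d1, d2, d3, d4, d5, d6⟩ := hd
    refine no_trail7 a b d1 c d2 ?_ d d3 ?_ ?_ e d4 ?_ ?_ ?_ ?_ f d5 ?_ ?_ ?_ ?_ ?_ ?_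
      h d6 ?_ ?_ ?_ ?_ ?_ ?_ ?_ ?_ <;> grind

end Pool.Agent.Q161.Cnd
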