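import Mathlib

/-!
# Adding edges to graphs of large girth (MP_03af38_co)
-/

namespace Pool.Agent.Q161.Cnd

open SimpleGraph

variable {V : Type*} {G : SimpleGraph V}

/-- No cycle shorter than `g`: every walk joining the ends of an edge and avoiding the edge has
length at least `g - 1`. -/
def Gir (G : SimpleGraph V) (g : ℕ) : Prop :=
  ∀ ⦃a b : V⦄, G.Adj a b → ∀ p : G.Walk a b, s(a, b) ∉ p.edges → g ≤ p.length + 1

/-- 1-Lipschitz functions. -/
def Lip (G : SimpleGraph V) (f : V → ℤ) : Prop := ∀ u v, G.Adj u v → f u ≤ f v + 1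

theorem Lip.walk {f : V → ℤ} (h : Lip G f) {a b : V} (p : G.Walk a b) :
    f b ≤ f a + p.length := by
  induction p with
  | nil => simp
  | cons hd p ih =>
    have := h _ _ hd.symm
    rw [Walk.length_cons]
    push_cast
    omega

theorem gir_le_egirth {g : ℕ} (h : Gir G g) : (g : ℕ∞) ≤ G.egirth := by
  rw [le_egirth]
  intro a w hw
  cases w with
  | nil => exact absurd hw Walk.not_isCycle_nil
  | @cons _ b _ hab p =>
    rw [Walk.cons_isCycle_iff] at hw
    have h1 : s(b, a) ∉ p.edges := by rw [Sym2.eq_swap]; exact hw.2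
    have := h hab.symm p h1
    rw [Walk.length_cons]
    exact_mod_cast this

theorem walk_decomp {a b : V} : ∀ {c d : V} (p : (G ⊔ edge a b).Walk c d),
    (∃ q : G.Walk c d, q.length ≤ p.length ∧ q.edges ⊆ p.edges) ∨
    (∃ x y, s(x, y) = s(a, b) ∧ s(a, b) ∈ p.edges ∧ ∃ (q1 : G.Walk c x) (q2 : G.Walk y d),
      q1.length + q2.length + 1 ≤ p.length ∧ q2.edges ⊆ p.edges) := by
  intro c d p
  induction p with
  | nil => exact Or.inl ⟨Walk.nil, le_rfl, List.Subset.refl _⟩
  | @cons c c' d h p ih =>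
    by_cases hG : G.Adj c c'
    · rcases ih with ⟨q, h1, h2⟩ | ⟨x, y, hxy, hab, q1, q2, h3, h4⟩
      · left
        refine ⟨Walk.cons hG q, by simp only [Walk.length_cons]; omega, ?_⟩
        simp only [Walk.edges_cons]
        exact List.cons_subset_cons _ h2
      · right
        refine ⟨x, y, hxy, by rw [Walk.edges_cons]; exact List.mem_cons_of_mem _ hab,
          Walk.cons hG q1, q2, by simp only [Walk.length_cons]; omega, ?_⟩
        rw [Walk.edges_cons]
        exact List.subset_cons_of_subset _ h4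
    · have hnew : s(c, c') = s(a, b) := by
        have h' := h
        rw [sup_adj, edge_adj] at h'
        rcases h' with h' | ⟨h' | h', _⟩
        · exact absurd h' hG
        · rw [h'.1, h'.2]
        · rw [h'.1, h'.2, Sym2.eq_swap]
      rcases ih with ⟨q, h1, h2⟩ | ⟨x, y, hxy, hab, q1, q2, h3, h4⟩
      · right
        refine ⟨c, c', hnew, ?_, Walk.nil, q, by simp only [Walk.length_cons, Walk.length_nil]; omega,
          ?_⟩
        · rw [Walk.edges_cons, hnew]; exact List.mem_cons_self
        · rw [Walk.edges_cons]; exact List.subset_cons_of_subset _ h2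
      · have hxy' : s(x, y) = s(c, c') := hxy.trans hnew.symm
        rw [Sym2.eq_iff] at hxy'
        rcases hxy' with ⟨rfl, rfl⟩ | ⟨rfl, rfl⟩
        · right
          refine ⟨x, y, hnew, ?_, Walk.nil, q2,
            by simp only [Walk.length_cons, Walk.length_nil]; omega, ?_⟩
          · rw [Walk.edges_cons, hnew]; exact List.mem_cons_self
          · rw [Walk.edges_cons]; exact List.subset_cons_of_subset _ h4
        · left
          refine ⟨q2, by simp only [Walk.length_cons]; omega, ?_⟩
          rw [Walk.edges_cons]; exact List.subset_cons_of_subset _ h4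

/-- Adding an edge between vertices at distance at least `g - 1`. -/
theorem Gir.edge {g : ℕ} {a b : V} (h : Gir G g) (hfar : ∀ p : G.Walk a b, g ≤ p.length + 1) :
    Gir (G ⊔ SimpleGraph.edge a b) g := by
  have hfar' : ∀ {x y : V}, s(x, y) = s(a, b) → ∀ p : G.Walk x y, g ≤ p.length + 1 := by
    intro x y hxy p
    rw [Sym2.eq_iff] at hxy
    rcases hxy with ⟨rfl, rfl⟩ | ⟨rfl, rfl⟩
    · exact hfar p
    · have := hfar p.reverse
      rwa [Walk.length_reverse] at this
  intro c d hcd p hp
  have hnew : ¬ G.Adj c d → s(c, d) = s(a, b) := by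
    intro hG
    rw [sup_adj, edge_adj] at hcd
    rcases hcd with h' | ⟨h' | h', _⟩
    · exact absurd h' hG
    · rw [h'.1, h'.2]
    · rw [h'.1, h'.2, Sym2.eq_swap]
  rcases walk_decomp p with ⟨q, h1, h2⟩ | ⟨x, y, hxy, hab, q1, q2, h3, h4⟩
  · by_cases hG : G.Adj c d
    · have := h hG q (fun h' => hp (h2 h'))
      omega
    · have := hfar' (hnew hG) q
      omega
  · by_cases hG : G.Adj c d
    · have := hfar' (x := y) (y := x) (by rw [Sym2.eq_swap]; exact hxy)
        (q2.append (Walk.cons hG.symm q1))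
      simp only [Walk.length_append, Walk.length_cons] at this
      omega
    · exact absurd (by rw [hnew hG]; exact hab) hp

/-- Adding an edge between vertices separated by a Lipschitz function. -/
theorem Gir.edge_lip {g : ℕ} {a b : V} {f : V → ℤ} (h : Gir G g) (hf : Lip G f)
    (hab : (g : ℤ) ≤ f b - f a + 1) : Gir (G ⊔ SimpleGraph.edge a b) g :=
  h.edge (fun p => by have := hf.walk p; omega)

/-! ### Lists of edges -/

/-- Adding a list of edges. -/
def addL (G : SimpleGraph V) : List (V × V) → SimpleGraph V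
  | [] => G
  | e :: L => addL G L ⊔ edge e.1 e.2

theorem addL_adj {L : List (V × V)} {u v : V} :
    (addL G L).Adj u v ↔ G.Adj u v ∨ (((u, v) ∈ L ∨ (v, u) ∈ L) ∧ u ≠ v) := by
  induction L with
  | nil => simp [addL]
  | cons e L ih =>
    obtain ⟨a, b⟩ := e
    show (addL G L ⊔ edge a b).Adj u v ↔ _
    rw [sup_adj, ih, edge_adj]
    simp only [List.mem_cons, Prod.mk.injEq]
    tauto

theorem le_addL (G : SimpleGraph V) (L : List (V × V)) : G ≤ addL G L := by
  intro u v h
  exact addL_adj.2 (Or.inl h)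

theorem Lip.addL {f : V → ℤ} (h : Lip G f) {L : List (V × V)}
    (hL : ∀ e ∈ L, f e.1 ≤ f e.2 + 1 ∧ f e.2 ≤ f e.1 + 1) : Lip (addL G L) f := by
  intro u v huv
  rcases addL_adj.1 huv with h' | ⟨h' | h', _⟩
  · exact h u v h'
  · exact (hL _ h').1
  · exact (hL _ h').2

theorem Gir.addL {g : ℕ} {L : List (V × V)} (h : Gir G g)
    (hL : ∀ L1 e L2, L = L1 ++ e :: L2 → ∃ f : V → ℤ, Lip (addL G L2) f ∧
      (g : ℤ) ≤ f e.2 - f e.1 + 1) : Gir (Cnd.addL G L) g := by
  induction L with
  | nil => exact h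
  | cons e L ih =>
    obtain ⟨f, h1, h2⟩ := hL [] e L rfl
    exact (ih (fun L1 e' L2 hL' => hL (e :: L1) e' L2 (by rw [hL']; rfl))).edge_lip h1 h2

/-! ### Disjoint copies -/

/-- Disjoint copies of `G` indexed by `ι`, together with isolated vertices `E`. -/
def copies (ι E : Type*) (G : SimpleGraph V) : SimpleGraph ((ι × V) ⊕ E) where
  Adj u v := ∃ i x y, u = Sum.inl (i, x) ∧ v = Sum.inl (i, y) ∧ G.Adj x y
  symm := ⟨by rintro u v ⟨i, x, y, h1, h2, h3⟩; exact ⟨i, y, x, h2, h1, h3.symm⟩⟩
  loopless := ⟨by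
    rintro u ⟨i, x, y, h1, h2, h3⟩
    rw [h1] at h2
    simp only [Sum.inl.injEq, Prod.mk.injEq, true_and] at h2
    exact h3.ne h2⟩

variable {ι E : Type*}

theorem copies_adj_inl {i : ι} {x : V} {w : (ι × V) ⊕ E} :
    (copies ι E G).Adj (Sum.inl (i, x)) w ↔ ∃ y, w = Sum.inl (i, y) ∧ G.Adj x y := by
  constructor
  · rintro ⟨j, x', y, h1, h2, h3⟩
    simp only [Sum.inl.injEq, Prod.mk.injEq] at h1
    obtain ⟨rfl, rfl⟩ := h1
    exact ⟨y, h2, h3⟩
  · rintro ⟨y, h1, h2⟩
    exact ⟨i, x, y, rfl, h1, h2⟩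

theorem copies_adj_inr {e : E} {w : (ι × V) ⊕ E} : ¬ (copies ι E G).Adj (Sum.inr e) w := by
  rintro ⟨j, x', y, h1, h2, h3⟩
  exact absurd h1 (by simp)

theorem copies_walk {u w : (ι × V) ⊕ E} (p : (copies ι E G).Walk u w) :
    ∀ i x, u = Sum.inl (i, x) → ∃ y, w = Sum.inl (i, y) ∧ ∃ q : G.Walk x y,
      q.length = p.length ∧ p.edges = q.edges.map (Sym2.map (fun v => Sum.inl (i, v))) := by
  induction p with
  | nil =>
    intro i x hu
    exact ⟨x, hu, Walk.nil, rfl, rfl⟩
  | @cons u v w h p ih =>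
    intro i x hu
    subst hu
    obtain ⟨y, rfl, hxy⟩ := copies_adj_inl.1 h
    obtain ⟨z, h1, q, h2, h3⟩ := ih i y rfl
    refine ⟨z, h1, Walk.cons hxy q, by simp [h2], ?_⟩
    rw [Walk.edges_cons, Walk.edges_cons, List.map_cons, h3]
    rfl

theorem gir_copies {g : ℕ} (h : Gir G g) : Gir (copies ι E G) g := by
  intro a b hab p hp
  obtain ⟨i, x, y, rfl, rfl, hxy⟩ := hab
  obtain ⟨z, h1, q, h2, h3⟩ := copies_walk p i x rfl
  simp only [Sum.inl.injEq, Prod.mk.injEq, true_and] at h1
  subst h1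
  have := h hxy q (fun h' => hp (by
    rw [h3]
    exact List.mem_map.2 ⟨_, h', rfl⟩))
  omega

theorem lip_copies {f : (ι × V) ⊕ E → ℤ} (h : ∀ i, Lip G (fun x => f (Sum.inl (i, x)))) :
    Lip (copies ι E G) f := by
  rintro u v ⟨i, x, y, rfl, rfl, hxy⟩
  exact h i x y hxy

theorem Lip.const (c : ℤ) : Lip G (fun _ => c) := fun _ _ _ => by simp

theorem Lip.add_const {f : V → ℤ} (h : Lip G f) (c : ℤ) : Lip G (fun v => f v + c) :=
  fun u v huv => by have := h u v huv; simp only; omega

theorem Lip.const_sub {f : V → ℤ} (h : Lip G f) (c : ℤ) : Lip G (fun v => c - f v) :=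
  fun u v huv => by have := h v u huv.symm; simp only; omega

/-- Truncated distance: if all walks from `a` to the vertices of `T` have length at least `m`,
there is a Lipschitz function which is `0` at `a` and `m` on `T`. -/
theorem exists_lip {a : V} {T : Set V} {m : ℕ} (h : ∀ b ∈ T, ∀ p : G.Walk a b, m ≤ p.length) :
    ∃ f : V → ℤ, Lip G f ∧ f a = 0 ∧ ∀ b ∈ T, f b = m := by
  classical
  have hex : ∀ v, ∃ n, n = m ∨ ∃ p : G.Walk a v, p.length ≤ n := fun v => ⟨m, Or.inl rfl⟩
  refine ⟨fun v => (Nat.find (hex v) : ℤ), ?_, ?_, ?_⟩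
  · intro u v huv
    have h1 := Nat.find_spec (hex v)
    have : Nat.find (hex u) ≤ Nat.find (hex v) + 1 := by
      rcases h1 with h1 | ⟨p, hp⟩
      · rw [h1]
        exact (Nat.find_min' (hex u) (Or.inl rfl)).trans (by omega)
      · exact Nat.find_min' (hex u) (Or.inr ⟨p.concat huv.symm, by
          rw [Walk.length_concat]; omega⟩)
    simp only
    exact_mod_cast this
  · have : Nat.find (hex a) ≤ 0 := Nat.find_min' (hex a) (Or.inr ⟨Walk.nil, le_rfl⟩)
    simp only
    exact_mod_cast Nat.le_zero.1 this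
  · intro b hb
    have h1 := Nat.find_spec (hex b)
    have h2 : Nat.find (hex b) ≤ m := Nat.find_min' (hex b) (Or.inl rfl)
    have : Nat.find (hex b) = m := by
      rcases h1 with h1 | ⟨p, hp⟩
      · exact h1
      · have := h b hb p
        omega
    simp only
    exact_mod_cast this

/-! ### Degrees and balls -/

/-- `v` has at most `d` neighbours. -/
def DegLe (G : SimpleGraph V) (v : V) (d : ℕ) : Prop :=
  ∃ S : Finset V, S.card ≤ d ∧ ∀ u, G.Adj v u → u ∈ S

theorem DegLe.mono {v : V} {d d' : ℕ} (h : DegLe G v d) (hd : d ≤ d') : DegLe G v d' := by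
  obtain ⟨S, h1, h2⟩ := h
  exact ⟨S, h1.trans hd, h2⟩

open Classical in
/-- The number of edges of `L` at `v`. -/
noncomputable def inc (L : List (V × V)) (v : V) : ℕ := L.countP (fun e => e.1 = v ∨ e.2 = v)

theorem inc_nil (v : V) : inc ([] : List (V × V)) v = 0 := rfl

open Classical in
theorem inc_cons (e : V × V) (L : List (V × V)) (v : V) :
    inc (e :: L) v = inc L v + if e.1 = v ∨ e.2 = v then 1 else 0 := by
  unfold inc
  rw [List.countP_cons]
  simp only [decide_eq_true_eq]

theorem DegLe.addL {v : V} {d : ℕ} (h : DegLe G v d) (L : List (V × V)) :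
    DegLe (addL G L) v (d + inc L v) := by
  classical
  induction L with
  | nil => exact h
  | cons e L ih =>
    obtain ⟨a, b⟩ := e
    obtain ⟨S, h1, h2⟩ := ih
    rw [inc_cons]
    by_cases hv : a = v ∨ b = v
    · rw [if_pos hv]
      refine ⟨insert (if a = v then b else a) S, ?_, ?_⟩
      · exact (Finset.card_insert_le _ _).trans (by omega)
      · intro u hu
        change (Cnd.addL G L ⊔ edge a b).Adj v u at hu
        rw [sup_adj, edge_adj] at hu
        rcases hu with hu | ⟨⟨rfl, rfl⟩ | ⟨rfl, rfl⟩, hne⟩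
        · exact Finset.mem_insert_of_mem (h2 u hu)
        · rw [if_pos rfl]; exact Finset.mem_insert_self _ _
        · rw [if_neg (Ne.symm hne)]; exact Finset.mem_insert_self _ _
    · rw [if_neg hv]
      refine ⟨S, h1, ?_⟩
      intro u hu
      change (Cnd.addL G L ⊔ edge a b).Adj v u at hu
      rw [sup_adj, edge_adj] at hu
      rcases hu with hu | ⟨⟨rfl, rfl⟩ | ⟨rfl, rfl⟩, hne⟩
      · exact h2 u hu
      · exact absurd (Or.inl rfl) hv
      · exact absurd (Or.inr rfl) hv

theorem degLe_copies {i : ι} {x : V} {d : ℕ} (h : DegLe G x d) :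
    DegLe (copies ι E G) (Sum.inl (i, x)) d := by
  classical
  obtain ⟨S, h1, h2⟩ := h
  refine ⟨S.image (fun y => Sum.inl (i, y)), Finset.card_image_le.trans h1, ?_⟩
  intro u hu
  obtain ⟨y, rfl, hy⟩ := copies_adj_inl.1 hu
  exact Finset.mem_image.2 ⟨y, h2 y hy, rfl⟩

theorem degLe_copies_inr {e : E} : DegLe (copies ι E G) (Sum.inr e) 0 :=
  ⟨∅, le_rfl, fun _ hu => absurd hu copies_adj_inr⟩

/-- Few vertices are near a given vertex. -/
theorem exists_ball {D : ℕ} (h : ∀ v, DegLe G v D) : ∀ (m : ℕ) (s : V), ∃ B : Finset V,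
    B.card ≤ (D + 1) ^ m ∧ ∀ t (p : G.Walk s t), p.length ≤ m → t ∈ B := by
  classical
  choose S hS1 hS2 using h
  intro m
  induction m with
  | zero =>
    intro s
    refine ⟨{s}, by simp, ?_⟩
    intro t p hp
    have := Walk.eq_of_length_eq_zero (p := p) (by omega)
    simp [this]
  | succ m ih =>
    intro s
    choose B hB1 hB2 using ih
    refine ⟨insert s ((S s).biUnion B), ?_, ?_⟩
    · calc (insert s ((S s).biUnion B)).card ≤ ((S s).biUnion B).card + 1 :=
            Finset.card_insert_le _ _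
        _ ≤ (S s).card * (D + 1) ^ m + 1 := by
            gcongr
            exact Finset.card_biUnion_le_card_mul _ _ _ (fun v _ => hB1 v)
        _ ≤ D * (D + 1) ^ m + (D + 1) ^ m := by
            gcongr
            · exact hS1 s
            · exact Nat.one_le_pow _ _ (by omega)
        _ = (D + 1) ^ (m + 1) := by ring
    · intro t p hp
      cases p with
      | nil => exact Finset.mem_insert_self _ _
      | cons hd q =>
        rw [Walk.length_cons] at hp
        refine Finset.mem_insert_of_mem (Finset.mem_biUnion.2 ⟨_, hS2 _ _ hd, ?_⟩)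
        exact hB2 _ _ q (by omega)

end Pool.Agent.Q161.Cnd
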