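import Pool.Agent.Q161.CndAsm

/-!
# CND graphs of large girth (MP_03af38_co)
-/

namespace Pool.Agent.Q161.Cnd

open SimpleGraph

variable {V : Type*} {B : SimpleGraph V} {T : Fin 3 → V}

/-- `G` has a Hamiltonian path. -/
def Traceable (G : SimpleGraph V) : Prop :=
  ∃ (u v : V) (p : G.Walk u v), p.IsPath ∧ ∀ w, w ∈ p.support

/-- The largest order of a path. -/
noncomputable def detour (G : SimpleGraph V) : ℕ :=
  sSup {n | ∃ (u v : V) (p : G.Walk u v), p.IsPath ∧ p.support.length = n}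

/-- The largest order of a path with end vertex `v`. -/
noncomputable def detourAt (G : SimpleGraph V) (v : V) : ℕ :=
  sSup {n | ∃ (w : V) (p : G.Walk v w), p.IsPath ∧ p.support.length = n}

/-- Connected nontraceable detour graphs. -/
def IsCND (G : SimpleGraph V) : Prop :=
  G.Connected ∧ ¬ Traceable G ∧ ∀ v, detourAt G v = detour G

theorem card_nondiag : (Finset.univ.filter (fun e : Sym2 (Fin 4) => ¬ e.IsDiag)).card = 6 := by
  decide

theorem cs_nodup {l : List ((Fin 4 × V) ⊕ E4)} (h : l.Nodup) : (cs l).Nodup := by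
  unfold cs
  refine List.Nodup.filterMap ?_ h
  intro a a' e h1 h2
  rcases a with a | a
  · simp at h1
  · rcases a' with a' | a'
    · simp at h2
    · simp only [Option.mem_def, Option.some.injEq] at h1 h2
      rw [Subtype.ext (h1.trans h2.symm)]

theorem mem_cs {l : List ((Fin 4 × V) ⊕ E4)} {e : Sym2 (Fin 4)} :
    e ∈ cs l ↔ ∃ h : ¬ e.IsDiag, (Sum.inr ⟨e, h⟩ : (Fin 4 × V) ⊕ E4) ∈ l := by
  unfold cs
  rw [List.mem_filterMap]
  constructor
  · rintro ⟨a | a, h1, h2⟩
    · simp at h2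
    · simp only [Option.some.injEq] at h2
      subst h2
      exact ⟨a.2, h1⟩
  · rintro ⟨h, h1⟩
    exact ⟨_, h1, rfl⟩

theorem not_ham {l : List ((Fin 4 × V) ⊕ E4)} (hc : l.IsChain (asm B T).Adj) (hn : l.Nodup)
    (hall : ∀ v, v ∈ l) : False := by
  classical
  have hlen : (cs l).length = 6 := by
    rw [← List.toFinset_card_of_nodup (cs_nodup hn), ← card_nondiag]
    congr 1
    ext e
    rw [List.mem_toFinset, mem_cs, Finset.mem_filter]
    exact ⟨fun ⟨h, _⟩ => ⟨Finset.mem_univ _, h⟩, fun ⟨_, h⟩ => ⟨h, hall _⟩⟩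
  have hdiag : ∀ e ∈ cs l, ¬ e.IsDiag := fun e he => (mem_cs.1 he).1
  obtain ⟨h1, h2⟩ := trail_of_path l hc hn
  have key : ∃ a vs, tr (a :: vs) = cs l := by
    cases l with
    | nil => simp [cs] at hlen
    | cons x l =>
      rcases x with ⟨i, u⟩ | e
      · obtain ⟨vs, hvs⟩ := h1 i u l rfl
        exact ⟨i, vs, hvs⟩
      · cases l with
        | nil => simp [cs] at hlen
        | cons y l =>
          have hadj := (List.isChain_cons.1 hc).1 y (by simp)
          rcases y with ⟨a, u⟩ | e'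
          · obtain ⟨b, hab, rfl, rfl⟩ := asm_adj_rl.1 hadj
            obtain ⟨vs, hvs⟩ := h2 b a _ hab.symm (by
              rw [(cc_eq hab hab.symm).2 (Or.inr ⟨rfl, rfl⟩)]) (by
              intro x hx
              simp only [List.head?_cons, Option.mem_def, Option.some.injEq] at hx
              exact ⟨_, hx.symm⟩)
            exact ⟨b, vs, hvs⟩
          · exact absurd hadj asm_adj_rr
  obtain ⟨a, vs, hvs⟩ := key
  exact no_trail vs a (by rw [hvs]; exact hlen) (by rw [hvs]; exact cs_nodup hn)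
    (by rw [hvs]; exact hdiag)

/-! ### Long paths -/

/-- The location of a vertex. -/
def lab : (Fin 4 × V) ⊕ E4 → Fin 4 ⊕ E4
  | Sum.inl p => Sum.inl p.1
  | Sum.inr e => Sum.inr e

theorem nodup_lab : ∀ L : List ((Fin 4 ⊕ E4) × List ((Fin 4 × V) ⊕ E4)),
    (L.map Prod.fst).Nodup → (∀ e ∈ L, e.2.Nodup ∧ ∀ x ∈ e.2, lab x = e.1) →
    (L.map Prod.snd).flatten.Nodup := by
  intro L
  induction L with
  | nil => intro _ _; simp
  | cons e L ih =>
    intro h1 h2
    rw [List.map_cons, List.nodup_cons] at h1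
    rw [List.map_cons, List.flatten_cons, List.nodup_append]
    refine ⟨(h2 e List.mem_cons_self).1,
      ih h1.2 (fun e' he' => h2 e' (List.mem_cons_of_mem _ he')), ?_⟩
    intro u hu v hv huv
    subst huv
    obtain ⟨l, hl, hul⟩ := List.mem_flatten.1 hv
    obtain ⟨e', he', rfl⟩ := List.mem_map.1 hl
    have a1 := (h2 e List.mem_cons_self).2 u hu
    have a2 := (h2 e' (List.mem_cons_of_mem _ he')).2 u hul
    exact h1.1 (List.mem_map.2 ⟨e', he', a2.symm.trans a1⟩)

theorem length_of_all [Fintype V] {l : List V} (h : l.Nodup) (hall : ∀ v, v ∈ l) :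
    l.length = Fintype.card V := by
  classical
  rw [← List.toFinset_card_of_nodup h, ← Finset.card_univ]
  congr 1
  ext v
  simp [hall v]

theorem adj_cc {i j : Fin 4} (h : i ≠ j) :
    (asm B T).Adj (Sum.inr (cc i j)) (Sum.inl (i, T (idx i j))) :=
  asm_adj_rl.2 ⟨j, h, rfl, rfl⟩

theorem adj_cc' {i j : Fin 4} (h : i ≠ j) :
    (asm B T).Adj (Sum.inr (cc i j)) (Sum.inl (j, T (idx j i))) :=
  asm_adj_rl.2 ⟨i, h.symm, (cc_eq h h.symm).2 (Or.inr ⟨rfl, rfl⟩), rfl⟩

theorem seg_copy {i : Fin 4} {x y : V} {l : List V} (h : Seg B x y l) :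
    Seg (asm B T) (Sum.inl (i, x)) (Sum.inl (i, y)) (l.map (fun v => Sum.inl (i, v))) :=
  h.map _ (fun _ _ hab => asm_adj_ll.2 ⟨rfl, hab⟩)

theorem nodup_copy {i : Fin 4} {l : List V} (h : l.Nodup) :
    (l.map (fun v => (Sum.inl (i, v) : (Fin 4 × V) ⊕ E4))).Nodup :=
  h.map (fun _ _ h' => by simpa using h')

theorem lab_copy {i : Fin 4} {l : List V} :
    ∀ x ∈ l.map (fun v => (Sum.inl (i, v) : (Fin 4 × V) ⊕ E4)), lab x = Sum.inl i := by
  intro x hx
  obtain ⟨v, _, rfl⟩ := List.mem_map.1 hx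
  rfl

theorem piece [Fintype V] {g : ℕ} (h : IsGad g B T) {i a b : Fin 4} (ha : i ≠ a) (hb : i ≠ b)
    (hab : a ≠ b) : ∃ l : List ((Fin 4 × V) ⊕ E4),
    Seg (asm B T) (Sum.inl (i, T (idx i a))) (Sum.inl (i, T (idx i b))) l ∧ l.Nodup ∧
    l.length = Fintype.card V ∧ ∀ x ∈ l, lab x = Sum.inl i := by
  obtain ⟨l, h1, h2, h3⟩ := h.ham (idx i a) (idx i b) (fun h' => hab (idx_inj i a b ha hb h'))
  exact ⟨_, seg_copy h1, nodup_copy h2, by rw [List.length_map, length_of_all h2 h3], lab_copy⟩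

instance : DecidableEq (Fin 4 ⊕ E4) := instDecidableEqSum

theorem labs1 : ∀ a b c d : Fin 4, a ≠ b → a ≠ c → a ≠ d → b ≠ c → b ≠ d → c ≠ d →
    ([Sum.inr (cc a c), Sum.inl a, Sum.inr (cc a b), Sum.inl b, Sum.inr (cc b c), Sum.inl c,
      Sum.inr (cc c d), Sum.inl d, Sum.inr (cc d b)] : List (Fin 4 ⊕ E4)).Nodup := by
  decide +kernel

theorem labs2 : ∀ i a b d : Fin 4, i ≠ a → i ≠ b → i ≠ d → a ≠ b → a ≠ d → b ≠ d →
    ([Sum.inl i, Sum.inr (cc i a), Sum.inl a, Sum.inr (cc a b), Sum.inl b, Sum.inr (cc i b),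
      Sum.inr (cc i d), Sum.inl d, Sum.inr (cc d a)] : List (Fin 4 ⊕ E4)).Nodup := by
  decide +kernel

theorem cc_facts : ∀ a b c d : Fin 4, a ≠ b → a ≠ c → a ≠ d → b ≠ c → b ≠ d → c ≠ d →
    cc a d ≠ cc a c ∧ cc a d ≠ cc a b ∧ cc a d ≠ cc b c ∧ cc a d ≠ cc c d ∧ cc a d ≠ cc d b := by
  decide +kernel

/-- The long path starting at `c_{ac}`. -/
theorem path1 [Fintype V] {g : ℕ} (h : IsGad g B T) {a b c d : Fin 4} (hab : a ≠ b)
    (hac : a ≠ c) (had : a ≠ d) (hbc : b ≠ c) (hbd : b ≠ d) (hcd : c ≠ d) :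
    ∃ l : List ((Fin 4 × V) ⊕ E4),
      Seg (asm B T) (Sum.inr (cc a c)) (Sum.inr (cc d b)) l ∧ l.Nodup ∧
      l.length = 4 * Fintype.card V + 5 ∧ Sum.inr (cc a d) ∉ l ∧ Sum.inr (cc b c) ∈ l := by
  obtain ⟨la, a1, a2, a3, a4⟩ := piece h hac hab hbc.symm
  obtain ⟨lb, b1, b2, b3, b4⟩ := piece h hab.symm hbc hac
  obtain ⟨lc, c1, c2, c3, c4⟩ := piece h hbc.symm hcd hbd
  obtain ⟨ld, d1, d2, d3, d4⟩ := piece h hcd.symm hbd.symm hbc.symm
  have hseg := ((((((((Seg.single (G := asm B T) (Sum.inr (cc a c))).append a1 (adj_cc hac)).append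
    (Seg.single (Sum.inr (cc a b))) (adj_cc hab).symm).append b1 (adj_cc' hab)).append
    (Seg.single (Sum.inr (cc b c))) (adj_cc hbc).symm).append c1 (adj_cc' hbc)).append
    (Seg.single (Sum.inr (cc c d))) (adj_cc hcd).symm).append d1 (adj_cc' hcd)).append
    (Seg.single (Sum.inr (cc d b))) (adj_cc hbd.symm).symm
  refine ⟨_, hseg, ?_, ?_, ?_, ?_⟩
  · have := nodup_lab [(Sum.inr (cc a c), [Sum.inr (cc a c)]), (Sum.inl a, la),
      (Sum.inr (cc a b), [Sum.inr (cc a b)]), (Sum.inl b, lb),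
      (Sum.inr (cc b c), [Sum.inr (cc b c)]), (Sum.inl c, lc),
      (Sum.inr (cc c d), [Sum.inr (cc c d)]), (Sum.inl d, ld),
      (Sum.inr (cc d b), [Sum.inr (cc d b)])] (labs1 a b c d hab hac had hbc hbd hcd) (by
        intro e he
        simp only [List.mem_cons, List.not_mem_nil, or_false] at he
        rcases he with rfl | rfl | rfl | rfl | rfl | rfl | rfl | rfl | rfl
        · exact ⟨by simp, by intro x hx; rw [List.mem_singleton] at hx; rw [hx]; rfl⟩
        · exact ⟨a2, a4⟩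
        · exact ⟨by simp, by intro x hx; rw [List.mem_singleton] at hx; rw [hx]; rfl⟩
        · exact ⟨b2, b4⟩
        · exact ⟨by simp, by intro x hx; rw [List.mem_singleton] at hx; rw [hx]; rfl⟩
        · exact ⟨c2, c4⟩
        · exact ⟨by simp, by intro x hx; rw [List.mem_singleton] at hx; rw [hx]; rfl⟩
        · exact ⟨d2, d4⟩
        · exact ⟨by simp, by intro x hx; rw [List.mem_singleton] at hx; rw [hx]; rfl⟩)
    simpa using this
  · simp only [List.length_append, List.length_singleton, a3, b3, c3, d3]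
    ring
  · obtain ⟨f1, f2, f3, f4, f5⟩ := cc_facts a b c d hab hac had hbc hbd hcd
    have hno : ∀ {i : Fin 4} {l : List ((Fin 4 × V) ⊕ E4)}, (∀ x ∈ l, lab x = Sum.inl i) →
        Sum.inr (cc a d) ∉ l := by
      intro i l hl hmem
      have := hl _ hmem
      simp [lab] at this
    simp only [List.mem_append, List.mem_singleton, Sum.inr.injEq, not_or]
    exact ⟨⟨⟨⟨⟨⟨⟨⟨f1, hno a4⟩, f2⟩, hno b4⟩, f3⟩, hno c4⟩, f4⟩, hno d4⟩, f5⟩
  · simp

/-- The long path starting in a gadget. -/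
theorem path2 [Fintype V] {g : ℕ} (h : IsGad g B T) (i : Fin 4) (v : V) :
    ∃ (l : List ((Fin 4 × V) ⊕ E4)) (w : (Fin 4 × V) ⊕ E4),
      Seg (asm B T) (Sum.inl (i, v)) w l ∧ l.Nodup ∧ l.length = 4 * Fintype.card V + 5 := by
  obtain ⟨i', j', k', hij, hik, hjk, l1, l2, s1, s2, hnd, hall⟩ := h.spl v
  obtain ⟨a, hia, rfl⟩ := idx_surj i k'
  obtain ⟨b, hib, rfl⟩ := idx_surj i i'
  obtain ⟨d, hid, rfl⟩ := idx_surj i j'
  have hab : a ≠ b := fun h' => hik (by rw [h'])
  have had : a ≠ d := fun h' => hjk (by rw [h'])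
  have hbd : b ≠ d := fun h' => hij (by rw [h'])
  obtain ⟨la, a1, a2, a3, a4⟩ := piece h hia.symm hab hib
  obtain ⟨lb, b1, b2, b3, b4⟩ := piece h hab.symm hib.symm hia.symm
  obtain ⟨ld, d1, d2, d3, d4⟩ := piece h hid.symm had.symm hia
  have hseg := (((((((((seg_copy (T := T) (i := i) s1).append
    (Seg.single (Sum.inr (cc i a))) (adj_cc hia).symm).append a1 (adj_cc' hia)).append
    (Seg.single (Sum.inr (cc a b))) (adj_cc hab).symm).append b1 (adj_cc' hab)).append
    (Seg.single (Sum.inr (cc i b))) (adj_cc' hib).symm).append (seg_copy s2) (adj_cc hib)).append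
    (Seg.single (Sum.inr (cc i d))) (adj_cc hid).symm).append d1 (adj_cc' hid)).append
    (Seg.single (Sum.inr (cc d a))) (adj_cc had.symm).symm
  have hlen : l1.length + l2.length = Fintype.card V := by
    rw [← List.length_append]; exact length_of_all hnd hall
  refine ⟨_, _, hseg, ?_, ?_⟩
  · have := nodup_lab [(Sum.inl i, (l1.map (fun v => Sum.inl (i, v)) ++
        l2.map (fun v => Sum.inl (i, v)) : List ((Fin 4 × V) ⊕ E4))),
      (Sum.inr (cc i a), [Sum.inr (cc i a)]), (Sum.inl a, la),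
      (Sum.inr (cc a b), [Sum.inr (cc a b)]), (Sum.inl b, lb),
      (Sum.inr (cc i b), [Sum.inr (cc i b)]),
      (Sum.inr (cc i d), [Sum.inr (cc i d)]), (Sum.inl d, ld),
      (Sum.inr (cc d a), [Sum.inr (cc d a)])] (labs2 i a b d hia hib hid hab had hbd) (by
        intro e he
        simp only [List.mem_cons, List.not_mem_nil, or_false] at he
        rcases he with rfl | rfl | rfl | rfl | rfl | rfl | rfl | rfl | rfl
        · refine ⟨?_, ?_⟩
          · rw [← List.map_append]; exact nodup_copy hnd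
          · rw [← List.map_append]; exact lab_copy
        · exact ⟨by simp, by intro x hx; rw [List.mem_singleton] at hx; rw [hx]; rfl⟩
        · exact ⟨a2, a4⟩
        · exact ⟨by simp, by intro x hx; rw [List.mem_singleton] at hx; rw [hx]; rfl⟩
        · exact ⟨b2, b4⟩
        · exact ⟨by simp, by intro x hx; rw [List.mem_singleton] at hx; rw [hx]; rfl⟩
        · exact ⟨by simp, by intro x hx; rw [List.mem_singleton] at hx; rw [hx]; rfl⟩
        · exact ⟨d2, d4⟩
        · exact ⟨by simp, by intro x hx; rw [List.mem_singleton] at hx; rw [hx]; rfl⟩)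
    refine (List.Perm.nodup_iff ?_).1 this
    simp only [List.map_cons, List.map_nil, List.flatten_cons, List.flatten_nil,
      List.append_nil, List.append_assoc]
    refine List.Perm.append_left _ ?_
    have e1 : ∀ X1 X2 X3 X4 X5 X6 Y : List ((Fin 4 × V) ⊕ E4),
        (Y ++ (X1 ++ (X2 ++ (X3 ++ (X4 ++ (X5 ++ X6)))))).Perm
          (X1 ++ (X2 ++ (X3 ++ (X4 ++ (X5 ++ (Y ++ X6)))))) := by
      intro X1 X2 X3 X4 X5 X6 Y
      have e := List.perm_append_comm_assoc Y (X1 ++ X2 ++ X3 ++ X4 ++ X5) X6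
      simpa only [List.append_assoc] using e
    exact e1 _ _ _ _ _ _ _
  · simp only [List.length_append, List.length_singleton, List.length_map, a3, b3, d3]
    omega

end Pool.Agent.Q161.Cnd
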