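import Pool.Agent.Q161.CndGreedy

/-!
# The gadget with three terminals (MP_03af38_co)
-/

namespace Pool.Agent.Q161.Cnd

open SimpleGraph

variable {V W : Type*} {G : SimpleGraph V}

/-- Gadgets with three terminals. -/
structure IsGad (g : ℕ) (B : SimpleGraph V) (T : Fin 3 → V) : Prop where
  inj : Function.Injective T
  gir : Gir B g
  far : ∀ i j, i ≠ j → ∀ p : B.Walk (T i) (T j), g ≤ p.length + 2
  ham : ∀ i j, i ≠ j → ∃ l, Seg B (T i) (T j) l ∧ l.Nodup ∧ ∀ v, v ∈ l
  spl : ∀ v, ∃ i j k, i ≠ j ∧ i ≠ k ∧ j ≠ k ∧ ∃ l1 l2, Seg B v (T k) l1 ∧ Seg B (T i) (T j) l2 ∧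
    (l1 ++ l2).Nodup ∧ ∀ w, w ∈ l1 ++ l2

theorem inc_le_length (L : List (V × V)) (v : V) : inc L v ≤ L.length := by
  unfold inc
  exact List.countP_le_length

theorem comap_walk {H : SimpleGraph W} {f : V → W} {a b : V} (p : (H.comap f).Walk a b) :
    ∃ q : H.Walk (f a) (f b), q.length = p.length ∧ q.edges = p.edges.map (Sym2.map f) := by
  induction p with
  | nil => exact ⟨Walk.nil, rfl, rfl⟩
  | cons h p ih =>
    obtain ⟨q, h1, h2⟩ := ih
    have h' : H.Adj (f _) (f _) := h
    exact ⟨Walk.cons h' q, by simp [h1], by simp [h2]⟩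

theorem gir_comap {H : SimpleGraph W} {f : V → W} (hf : Function.Injective f) {g : ℕ}
    (h : Gir H g) : Gir (H.comap f) g := by
  intro a b hab p hp
  obtain ⟨q, h1, h2⟩ := comap_walk p
  have := h (a := f a) (b := f b) hab q (by
    rw [h2]
    intro h'
    obtain ⟨e, he, h1⟩ := List.mem_map.1 h'
    have : e = s(a, b) := Sym2.map.injective hf h1
    exact hp (this ▸ he))
  omega

/-- The base edges. -/
def baseL (r x : V) : List (((Bool × V) ⊕ Bool) × ((Bool × V) ⊕ Bool)) :=
  [(Sum.inr true, Sum.inr false), (Sum.inr true, Sum.inl (true, r)),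
    (Sum.inr true, Sum.inl (false, r)), (Sum.inr false, Sum.inl (true, x)),
    (Sum.inr false, Sum.inl (false, x))]

theorem gir_base {g D : ℕ} {r x : V} {P : Finset V} (h : IsSw g g D G r P) (hx : x ∈ P) :
    Gir (addL (copies Bool Bool G) (baseL r x)) g := by
  obtain ⟨F, hF1, hF2, hF3⟩ := h.lip
  have hFx := hF3 x hx
  refine (gir_copies h.gir).addL ?_
  intro L1 e L2 hL
  unfold baseL at hL
  rcases L1 with _ | ⟨a1, _ | ⟨a2, _ | ⟨a3, _ | ⟨a4, _ | ⟨a5, L1⟩⟩⟩⟩⟩
  · simp only [List.nil_append, List.cons.injEq] at hL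
    obtain ⟨rfl, rfl⟩ := hL
    refine ⟨Sum.elim (fun p => F p.2) (fun b => if b then 0 else (g : ℤ)), ?_, by simp⟩
    refine Lip.addL (lip_copies (fun i => hF1)) ?_
    intro e he
    simp only [List.mem_cons, List.not_mem_nil, or_false] at he
    rcases he with rfl | rfl | rfl | rfl <;> simp [hF2, hFx]
  · simp only [List.cons_append, List.nil_append, List.cons.injEq] at hL
    obtain ⟨_, rfl, rfl⟩ := hL
    refine ⟨Sum.elim (fun p => if p.1 then 2 * (g : ℤ) - F p.2 else F p.2)
      (fun b => if b then 0 else (g : ℤ)), ?_, by simp [hF2]; omega⟩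
    refine Lip.addL (lip_copies ?_) ?_
    · intro i
      cases i
      · simpa using hF1
      · simpa using hF1.const_sub (2 * g)
    · intro e he
      simp only [List.mem_cons, List.not_mem_nil, or_false] at he
      rcases he with rfl | rfl | rfl
      · simp [hF2]
      · simp only [Sum.elim_inr, Sum.elim_inl, hFx, if_true, Bool.false_eq_true, if_false]
        omega
      · simp [hFx]
  · simp only [List.cons_append, List.nil_append, List.cons.injEq] at hL
    obtain ⟨_, _, rfl, rfl⟩ := hL
    refine ⟨Sum.elim (fun _ => (g : ℤ)) (fun b => if b then 0 else (g : ℤ)), ?_, by simp⟩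
    refine Lip.addL (lip_copies (fun i => Lip.const _)) ?_
    intro e he
    simp only [List.mem_cons, List.not_mem_nil, or_false] at he
    rcases he with rfl | rfl <;> simp
  · simp only [List.cons_append, List.nil_append, List.cons.injEq] at hL
    obtain ⟨_, _, _, rfl, rfl⟩ := hL
    refine ⟨Sum.elim (fun p => if p.1 then (g : ℤ) else 0) (fun _ => 0), ?_, by simp⟩
    refine Lip.addL (lip_copies ?_) ?_
    · intro i u v _
      simp
    · intro e he
      simp only [List.mem_cons, List.not_mem_nil, or_false] at he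
      subst he
      simp
  · simp only [List.cons_append, List.nil_append, List.cons.injEq] at hL
    obtain ⟨_, _, _, _, rfl, rfl⟩ := hL
    refine ⟨Sum.elim (fun _ => (g : ℤ)) (fun _ => 0), ?_, by simp⟩
    exact Lip.addL (lip_copies (fun i => Lip.const _)) (by simp)
  · simp at hL

/-- The embedding forgetting `z`. -/
def emb : (Bool × V) ⊕ Unit → (Bool × V) ⊕ Bool := Sum.elim Sum.inl (fun _ => Sum.inr false)

theorem emb_inj : Function.Injective (emb : (Bool × V) ⊕ Unit → (Bool × V) ⊕ Bool) := by
  rintro (a | a) (b | b) h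
  · simpa [emb] using h
  · simp [emb] at h
  · simp [emb] at h
  · rfl

theorem emb_ne (a : (Bool × V) ⊕ Unit) : emb a ≠ Sum.inr true := by
  rcases a with a | a <;> simp [emb]

/-- The terminals. -/
def term (r : V) : Fin 3 → (Bool × V) ⊕ Unit :=
  ![Sum.inl (false, r), Sum.inl (true, r), Sum.inr ()]

theorem gadget_of {g D : ℕ} {r x : V} {P : Finset V} (hsw : IsSw g g D G r P)
    (hx : x ∈ P) {H : SimpleGraph ((Bool × V) ⊕ Bool)} (hH : Gir H g)
    (hle : addL (copies Bool Bool G) (baseL r x) ≤ H)
    (hφ : ∀ b v, ∃ y ∈ P, H.Adj (Sum.inl (b, v)) (Sum.inl (!b, y))) :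
    IsGad g (H.comap emb) (term r) := by
  -- adjacencies
  have hcp : ∀ (b : Bool) (u v : V), G.Adj u v →
      (H.comap emb).Adj (Sum.inl (b, u)) (Sum.inl (b, v)) := fun b u v huv =>
    hle (le_addL _ _ (copies_adj_inl.2 ⟨v, rfl, huv⟩))
  have hy : ∀ b : Bool, (H.comap emb).Adj (Sum.inl (b, x)) (Sum.inr ()) := by
    intro b
    apply hle
    rw [addL_adj]
    right
    cases b <;> simp [emb, baseL]
  have hz : ∀ i, H.Adj (Sum.inr true) (emb (term r i)) := by
    intro i
    apply hle
    rw [addL_adj]
    right
    fin_cases i <;> simp [emb, baseL, term]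
  have hφ' : ∀ b v, ∃ y ∈ P, (H.comap emb).Adj (Sum.inl (!b, y)) (Sum.inl (b, v)) := by
    intro b v
    obtain ⟨y, h1, h2⟩ := hφ b v
    exact ⟨y, h1, h2.symm⟩
  have hinj : Function.Injective (term r) := by
    intro i j hij
    fin_cases i <;> fin_cases j <;> simp_all [term]
  -- Hamiltonian paths of the copies
  have hham : ∀ b y, y ∈ P → ∃ l : List V, Seg (H.comap emb) (Sum.inl (b, r)) (Sum.inl (b, y))
      (l.map (fun v => Sum.inl (b, v))) ∧ l.Nodup ∧ ∀ v, v ∈ l := by
    intro b y hy
    obtain ⟨l, h1, h2, h3⟩ := hsw.ham y hy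
    exact ⟨l, h1.map _ (hcp b), h2, h3⟩
  have hnd : ∀ (b : Bool) (l : List V), l.Nodup →
      (l.map (fun v => (Sum.inl (b, v) : (Bool × V) ⊕ Unit))).Nodup :=
    fun b l h => h.map (fun _ _ h' => by simpa using h')
  -- Hamiltonian paths to `y`
  have hamy : ∀ b : Bool, ∃ l, Seg (H.comap emb) (Sum.inl (!b, r)) (Sum.inr ()) l ∧ l.Nodup ∧
      ∀ v, v ∈ l := by
    intro b
    obtain ⟨y, hyP, hya⟩ := hφ' b r
    obtain ⟨l, h1, h2, h3⟩ := hham (!b) y hyP
    obtain ⟨l', h1', h2', h3'⟩ := hham b x hx
    refine ⟨_, ((h1.append h1' hya).append (Seg.single _) (hy b)), ?_, ?_⟩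
    · rw [List.nodup_append, List.nodup_append]
      refine ⟨⟨hnd _ _ h2, hnd _ _ h2', ?_⟩, by simp, ?_⟩
      · intro u hu v hv huv
        obtain ⟨u', _, rfl⟩ := List.mem_map.1 hu
        obtain ⟨v', _, rfl⟩ := List.mem_map.1 hv
        simp at huv
      · intro u hu v hv huv
        rw [List.mem_singleton] at hv
        subst hv huv
        simp at hu
    · rintro (⟨c, v⟩ | ⟨⟩)
      · rw [List.mem_append, List.mem_append]
        left
        by_cases hc : c = b
        · subst hc
          exact Or.inr (List.mem_map.2 ⟨v, h3' v, rfl⟩)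
        · have : c = !b := by cases c <;> cases b <;> simp_all
          subst this
          exact Or.inl (List.mem_map.2 ⟨v, h3 v, rfl⟩)
      · simp
  have ham01 : ∃ l, Seg (H.comap emb) (Sum.inl (false, r)) (Sum.inl (true, r)) l ∧ l.Nodup ∧
      ∀ v, v ∈ l := by
    obtain ⟨l, h1, h2, h3⟩ := hham false x hx
    obtain ⟨l', h1', h2', h3'⟩ := hham true x hx
    refine ⟨_, (h1.append (Seg.single _) (hy false)).append h1'.reverse (hy true).symm, ?_, ?_⟩
    · rw [List.nodup_append, List.nodup_append]
      refine ⟨⟨hnd _ _ h2, by simp, ?_⟩, List.nodup_reverse.2 (hnd _ _ h2'), ?_⟩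
      · intro u hu v hv huv
        rw [List.mem_singleton] at hv
        subst hv huv
        simp at hu
      · intro u hu v hv huv
        rw [List.mem_reverse] at hv
        obtain ⟨v', _, rfl⟩ := List.mem_map.1 hv
        subst huv
        simp at hu
    · rintro (⟨c, v⟩ | ⟨⟩)
      · rw [List.mem_append, List.mem_append, List.mem_reverse]
        cases c
        · exact Or.inl (Or.inl (List.mem_map.2 ⟨v, h3 v, rfl⟩))
        · exact Or.inr (List.mem_map.2 ⟨v, h3' v, rfl⟩)
      · simp
  refine ⟨hinj, gir_comap emb_inj hH, ?_, ?_, ?_⟩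
  · -- distances
    intro i j hij p
    obtain ⟨q, hq1, hq2⟩ := comap_walk p
    have := hH (hz j) (Walk.cons (hz i) q) (by
      rw [Walk.edges_cons, List.mem_cons, not_or]
      constructor
      · intro h
        rw [Sym2.eq_iff] at h
        rcases h with ⟨_, h⟩ | ⟨h, _⟩
        · exact hij (hinj (emb_inj h)).symm
        · exact emb_ne _ h.symm
      · rw [hq2]
        intro h
        obtain ⟨e, _, he⟩ := List.mem_map.1 h
        have h1 : (Sum.inr true : (Bool × V) ⊕ Bool) ∈ Sym2.map emb e := by
          rw [he]; simp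
        obtain ⟨a, _, ha⟩ := Sym2.mem_map.1 h1
        exact emb_ne a ha)
    rw [Walk.length_cons] at this
    omega
  · -- Hamiltonian paths
    have hrev : ∀ {u v : (Bool × V) ⊕ Unit}, (∃ l, Seg (H.comap emb) u v l ∧ l.Nodup ∧
        ∀ v, v ∈ l) → ∃ l, Seg (H.comap emb) v u l ∧ l.Nodup ∧ ∀ v, v ∈ l := by
      rintro u v ⟨l, h1, h2, h3⟩
      exact ⟨l.reverse, h1.reverse, List.nodup_reverse.2 h2, fun w => List.mem_reverse.2 (h3 w)⟩
    intro i j hij
    fin_cases i <;> fin_cases j
    · exact absurd rfl hij
    · exact ham01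
    · exact hamy true
    · exact hrev ham01
    · exact absurd rfl hij
    · exact hamy false
    · exact hrev (hamy true)
    · exact hrev (hamy false)
    · exact absurd rfl hij
  · -- split paths
    rintro (⟨b, v⟩ | ⟨⟩)
    · -- a vertex of a copy
      obtain ⟨l, h1, h2, h3⟩ := hsw.ham x hx
      obtain ⟨l1, l2, hl⟩ := List.append_of_mem (h3 v)
      rw [hl] at h1 h2
      obtain ⟨s1, s2⟩ := h1.split
      have hnd12 := List.nodup_append.1 h2
      have hnd2 := List.nodup_cons.1 hnd12.2.1
      -- indices
      have key : ∃ l2', Seg (H.comap emb) (Sum.inl (!b, r)) (Sum.inr ()) l2' ∧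
          (((l1 ++ [v]).map (fun v => (Sum.inl (b, v) : (Bool × V) ⊕ Unit))).reverse ++ l2').Nodup
          ∧ ∀ w, w ∈ ((l1 ++ [v]).map
            (fun v => (Sum.inl (b, v) : (Bool × V) ⊕ Unit))).reverse ++ l2' := by
        rcases s2 with ⟨rfl, rfl⟩ | ⟨s, hvs, hseg⟩
        · obtain ⟨l', h1', h2', h3'⟩ := hham (!b) v hx
          refine ⟨_, h1'.append (Seg.single _) (hy (!b)), ?_, ?_⟩
          · rw [List.nodup_append, List.nodup_append, List.nodup_reverse]
            refine ⟨hnd _ _ h2, ⟨hnd _ _ h2', by simp, ?_⟩, ?_⟩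
            · intro u hu w hw huw
              rw [List.mem_singleton] at hw
              subst hw huw
              simp at hu
            · intro u hu w hw huw
              subst huw
              rw [List.mem_reverse] at hu
              obtain ⟨u', _, rfl⟩ := List.mem_map.1 hu
              simp at hw
          · rintro (⟨c, w⟩ | ⟨⟩)
            · rw [List.mem_append, List.mem_append, List.mem_reverse]
              by_cases hc : c = b
              · subst hc
                left
                refine List.mem_map.2 ⟨w, ?_, rfl⟩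
                have := h3 w
                rwa [hl] at this
              · have : c = !b := by cases c <;> cases b <;> simp_all
                subst this
                exact Or.inr (Or.inl (List.mem_map.2 ⟨w, h3' w, rfl⟩))
            · simp
        · obtain ⟨y, hyP, hya⟩ := hφ' b s
          obtain ⟨l', h1', h2', h3'⟩ := hham (!b) y hyP
          refine ⟨_, (h1'.append (hseg.map _ (hcp b)) hya).append (Seg.single _) (hy b), ?_, ?_⟩
          · rw [List.nodup_append, List.nodup_append, List.nodup_append, List.nodup_reverse]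
            have hlv : (l1 ++ [v]).Nodup := by
              rw [List.nodup_append]
              refine ⟨hnd12.1, by simp, ?_⟩
              intro u hu w hw
              rw [List.mem_singleton] at hw
              subst hw
              exact hnd12.2.2 u hu w List.mem_cons_self
            refine ⟨hnd _ _ hlv, ⟨⟨hnd _ _ h2', hnd _ _ hnd2.2, ?_⟩, by simp, ?_⟩, ?_⟩
            · intro u hu w hw huw
              obtain ⟨u', _, rfl⟩ := List.mem_map.1 hu
              obtain ⟨v', _, rfl⟩ := List.mem_map.1 hw
              simp at huw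
            · intro u hu w hw huw
              rw [List.mem_singleton] at hw
              subst hw huw
              simp at hu
            · intro u hu w hw huw
              subst huw
              rw [List.mem_reverse] at hu
              obtain ⟨u', hu', rfl⟩ := List.mem_map.1 hu
              rw [List.mem_append, List.mem_append] at hw
              rcases hw with (hw | hw) | hw
              · obtain ⟨w', _, hw'⟩ := List.mem_map.1 hw
                simp at hw'
              · obtain ⟨w', hw1, hw'⟩ := List.mem_map.1 hw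
                simp only [Sum.inl.injEq, Prod.mk.injEq, true_and] at hw'
                subst hw'
                rw [List.mem_append, List.mem_singleton] at hu'
                rcases hu' with hu' | hu'
                · exact hnd12.2.2 _ hu' _ (List.mem_cons_of_mem _ hw1) rfl
                · subst hu'
                  exact hnd2.1 hw1
              · simp at hw
          · rintro (⟨c, w⟩ | ⟨⟩)
            · rw [List.mem_append, List.mem_append, List.mem_append, List.mem_reverse]
              by_cases hc : c = b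
              · subst hc
                have := h3 w
                rw [hl, List.mem_append, List.mem_cons] at this
                rcases this with hw | hw | hw
                · left
                  exact List.mem_map.2 ⟨w, List.mem_append_left _ hw, rfl⟩
                · left
                  exact List.mem_map.2 ⟨w, List.mem_append_right _ (by simp [hw]), rfl⟩
                · right; left; right
                  exact List.mem_map.2 ⟨w, hw, rfl⟩
              · have : c = !b := by cases c <;> cases b <;> simp_all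
                subst this
                exact Or.inr (Or.inl (Or.inl (List.mem_map.2 ⟨w, h3' w, rfl⟩)))
            · simp
      obtain ⟨l2', k1, k2, k3⟩ := key
      have hseg1 := (s1.map (fun v => (Sum.inl (b, v) : (Bool × V) ⊕ Unit)) (hcp b)).reverse
      cases b
      · exact ⟨1, 2, 0, by decide, by decide, by decide, _, l2', hseg1, k1, k2, k3⟩
      · exact ⟨0, 2, 1, by decide, by decide, by decide, _, l2', hseg1, k1, k2, k3⟩
    · -- the vertex `y`
      obtain ⟨y, hyP, hya⟩ := hφ' false x
      obtain ⟨l, h1, h2, h3⟩ := hham true y hyP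
      obtain ⟨l', h1', h2', h3'⟩ := hham false x hx
      refine ⟨1, 0, 2, by decide, by decide, by decide, _, _, Seg.single _,
        h1.append h1'.reverse hya, ?_, ?_⟩
      · rw [List.nodup_append, List.nodup_append]
        refine ⟨by simp, ⟨hnd _ _ h2, List.nodup_reverse.2 (hnd _ _ h2'), ?_⟩, ?_⟩
        · intro u hu v hv huv
          rw [List.mem_reverse] at hv
          obtain ⟨u', _, rfl⟩ := List.mem_map.1 hu
          obtain ⟨v', _, rfl⟩ := List.mem_map.1 hv
          simp at huv
        · intro u hu v hv huv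
          rw [List.mem_singleton] at hu
          subst hu huv
          simp at hv
      · rintro (⟨c, v⟩ | ⟨⟩)
        · rw [List.mem_append, List.mem_append, List.mem_reverse]
          cases c
          · exact Or.inr (Or.inr (List.mem_map.2 ⟨v, h3' v, rfl⟩))
          · exact Or.inr (Or.inl (List.mem_map.2 ⟨v, h3 v, rfl⟩))
        · simp

/-- Gadgets exist for every girth. -/
theorem exists_gadget (g : ℕ) (hg : 1 ≤ g) : ∃ (V : Type) (_ : Fintype V) (B : SimpleGraph V)
    (T : Fin 3 → V), IsGad g B T := by
  classical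
  set c : ℕ := 8 * g + 4 with hc
  obtain ⟨k, hk⟩ := exists_pow_lt g (c + 11)
  obtain ⟨N, hN, V, _, G, r, P, hsw, hP, hV⟩ := hasSw g hg k
  obtain ⟨x, hx⟩ : P.Nonempty := by rw [← Finset.card_pos, hP]; positivity
  have hbase := gir_base hsw hx
  have hdeg : ∀ v, DegLe (addL (copies Bool Bool G) (baseL r x)) v (k + 9) := by
    rintro (⟨b, v⟩ | b)
    · refine ((degLe_copies (hsw.deg v)).addL _).mono ?_
      have := inc_le_length (baseL r x) (Sum.inl (b, v))
      have e : (baseL r x).length = 5 := rfl
      omega
    · refine (degLe_copies_inr.addL _).mono ?_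
      have := inc_le_length (baseL r x) (Sum.inr b)
      have e : (baseL r x).length = 5 := rfl
      omega
  set Q : (Bool × V) ⊕ Bool → Finset ((Bool × V) ⊕ Bool) := fun w => match w with
    | Sum.inl (b, _) => P.image (fun y => Sum.inl (!b, y))
    | Sum.inr _ => ∅ with hQ
  set S : List ((Bool × V) ⊕ Bool) := (Finset.univ : Finset (Bool × V)).toList.map Sum.inl with hS
  have hSlen : S.length = 2 * N := by
    rw [hS, List.length_map, Finset.length_toList, Finset.card_univ, Fintype.card_prod, hV]
    simp
  obtain ⟨L, h1, h2, h3, _⟩ := greedy (c := c) (M := 2 ^ k) hbase hdeg Q S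
    ((Finset.nodup_toList _).map Sum.inl_injective)
    (by
      intro s hs
      obtain ⟨⟨b, v⟩, _, rfl⟩ := List.mem_map.1 hs
      show 2 ^ k ≤ (P.image (fun y => (Sum.inl (!b, y) : (Bool × V) ⊕ Bool))).card
      rw [Finset.card_image_of_injective _ (fun _ _ h => by simpa using h), hP])
    (by
      rw [hSlen]
      have e1 : k + 9 + 1 + c + 1 = k + (c + 11) := by omega
      rw [e1]
      have e2 : 2 * N ≤ (4 * g + 2) * 2 ^ k := by
        have : 2 * N ≤ 2 * (N + g) := by omega
        rw [hN] at this
        calc 2 * N ≤ 2 * ((2 * g + 1) * 2 ^ k) := this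
          _ = (4 * g + 2) * 2 ^ k := by ring
      have e3 : c * (k + (c + 11)) ^ g < (4 * g + 2) * 2 ^ k := by
        calc c * (k + (c + 11)) ^ g = (4 * g + 2) * (2 * (k + (c + 11)) ^ g) := by rw [hc]; ring
          _ < (4 * g + 2) * 2 ^ k := Nat.mul_lt_mul_of_pos_left hk (by omega)
      calc 2 * N + c * (k + (c + 11)) ^ g < (4 * g + 2) * 2 ^ k + (4 * g + 2) * 2 ^ k := by omega
        _ = c * 2 ^ k := by rw [hc]; ring)
  refine ⟨(Bool × V) ⊕ Unit, inferInstance, _, _,
    gadget_of hsw hx h3 (le_addL _ _) (fun b v => ?_)⟩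
  have hmem : (Sum.inl (b, v) : (Bool × V) ⊕ Bool) ∈ L.map Prod.fst := by
    rw [h1]
    exact List.mem_map.2 ⟨(b, v), by simp, rfl⟩
  obtain ⟨⟨s, t⟩, he, hst⟩ := List.mem_map.1 hmem
  simp only at hst
  subst hst
  have ht := h2 _ he
  obtain ⟨y, hy, rfl⟩ := Finset.mem_image.1 (show t ∈ P.image
    (fun y => (Sum.inl (!b, y) : (Bool × V) ⊕ Bool)) from ht)
  refine ⟨y, hy, ?_⟩
  rw [addL_adj]
  right
  exact ⟨Or.inl he, by simp⟩

end Pool.Agent.Q161.Cnd
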