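import Pool.Agent.Q161.CndSwitch

/-!
# Existence of large switches, and greedy addition of edges (MP_03af38_co)
-/

namespace Pool.Agent.Q161.Cnd

open SimpleGraph

/-- Existence of a switch with given size. -/
def HasSw (g m D p N : ℕ) : Prop :=
  ∃ (V : Type) (_ : Fintype V) (G : SimpleGraph V) (r : V) (P : Finset V),
    IsSw g m D G r P ∧ P.card = p ∧ Fintype.card V = N

theorem HasSw.ext {g m D p N : ℕ} (hD : 4 ≤ D) (h : HasSw g m D p N) :
    HasSw g (m + 1) D p (N + 1) := by
  obtain ⟨V, _, G, r, P, h1, h2, h3⟩ := h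
  refine ⟨(Unit × V) ⊕ Unit, inferInstance, _, _, _, h1.ext hD, ?_, ?_⟩
  · rw [Finset.card_map, h2]
  · simp [h3]

theorem HasSw.ext_iter {g m D p N : ℕ} (hD : 4 ≤ D) (h : HasSw g m D p N) (k : ℕ) :
    HasSw g (m + k) D p (N + k) := by
  induction k with
  | zero => exact h
  | succ k ih => exact ih.ext hD

theorem HasSw.join {g D p N : ℕ} (hD : 4 ≤ D) (hp : 0 < p) (h : HasSw g g D p N) :
    HasSw g 1 (D + 1) (2 * p) (2 * N + 1) := by
  obtain ⟨V, _, G, r, P, h1, h2, h3⟩ := h
  have hne : P.Nonempty := by rw [← Finset.card_pos, h2]; exact hp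
  obtain ⟨d, hd⟩ := hne
  refine ⟨(Bool × V) ⊕ Unit, inferInstance, _, _, _, h1.join hd hD, ?_, ?_⟩
  · rw [Finset.card_map, Finset.card_product, h2]
    simp
  · simp [h3]

theorem hasSw (g : ℕ) (hg : 1 ≤ g) : ∀ k, ∃ N, N + g = (2 * g + 1) * 2 ^ k ∧
    HasSw g g (k + 4) (2 ^ k) N := by
  intro k
  induction k with
  | zero =>
    refine ⟨1 + g, by ring, ?_⟩
    have h0 : HasSw g 0 4 1 1 := ⟨Unit, inferInstance, ⊥, (), {()}, isSw_base g, by simp, by simp⟩
    have := h0.ext_iter (by norm_num) g
    simpa using this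
  | succ k ih =>
    obtain ⟨N, hN, h⟩ := ih
    have h1 := h.join (by omega) (by positivity)
    have h2 := h1.ext_iter (by omega) (g - 1)
    refine ⟨2 * N + 1 + (g - 1), ?_, ?_⟩
    · have : 2 * N + 1 + (g - 1) + g = 2 * (N + g) := by omega
      rw [this, hN]; ring
    · have e1 : 1 + (g - 1) = g := by omega
      rw [e1] at h2
      have e2 : 2 * 2 ^ k = 2 ^ (k + 1) := by ring
      rw [e2] at h2
      exact h2

/-! ### Greedy -/

open Classical in
theorem inc_le {W : Type*} (L : List (W × W)) (v : W) :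
    inc L v ≤ (L.map Prod.fst).count v + (L.map Prod.snd).count v := by
  induction L with
  | nil => simp [inc_nil]
  | cons e L ih =>
    obtain ⟨a, b⟩ := e
    rw [inc_cons, List.map_cons, List.map_cons, List.count_cons, List.count_cons]
    simp only [beq_iff_eq]
    split_ifs with h1 h2 h3 h4 <;> first | omega | (exfalso; simp_all)

open Classical in
theorem greedy {W : Type*} [Fintype W] {H : SimpleGraph W} {g D c M : ℕ} (hG : Gir H g)
    (hdeg : ∀ v, DegLe H v D) (Q : W → Finset W) :
    ∀ S : List W, S.Nodup → (∀ s ∈ S, M ≤ (Q s).card) →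
      S.length + c * (D + 1 + c + 1) ^ g < c * M →
      ∃ L : List (W × W), L.map Prod.fst = S ∧ (∀ e ∈ L, e.2 ∈ Q e.1) ∧ Gir (addL H L) g ∧
        ∀ t, (L.map Prod.snd).count t ≤ c := by
  intro S
  induction S with
  | nil =>
    intro _ _ _
    exact ⟨[], rfl, by simp, hG, by simp⟩
  | cons s S ih =>
    intro hS hQ hM
    rw [List.nodup_cons] at hS
    rw [List.length_cons] at hM
    obtain ⟨L, h1, h2, h3, h4⟩ := ih hS.2 (fun t ht => hQ t (List.mem_cons_of_mem _ ht)) (by omega)
    -- degrees
    have hd : ∀ v, DegLe (addL H L) v (D + 1 + c) := by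
      intro v
      refine ((hdeg v).addL L).mono ?_
      have := inc_le L v
      have e1 := h4 v
      have e2 : (L.map Prod.fst).count v ≤ 1 := by
        rw [h1]; exact List.nodup_iff_count_le_one.1 hS.2 v
      omega
    obtain ⟨B, hB1, hB2⟩ := exists_ball hd g s
    set F : Finset W := Finset.univ.filter (fun t => (L.map Prod.snd).count t = c) with hF
    have hFc : c * F.card ≤ S.length := by
      have e1 : ∑ t ∈ F, (L.map Prod.snd).count t = F.card * c := by
        rw [Finset.sum_congr rfl (fun t ht => (Finset.mem_filter.1 ht).2), Finset.sum_const,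
          smul_eq_mul]
      have e2 : ∑ t ∈ F, (L.map Prod.snd).count t ≤
          ∑ t : W, (L.map Prod.snd).count t :=
        Finset.sum_le_sum_of_subset (Finset.filter_subset _ _)
      have e3 : ∑ t : W, (L.map Prod.snd).count t = S.length := by
        have := Multiset.sum_count_eq_card (s := (Finset.univ : Finset W))
          (m := ((L.map Prod.snd : List W) : Multiset W)) (fun a _ => Finset.mem_univ a)
        simp only [Multiset.coe_count, Multiset.coe_card] at this
        rw [this, List.length_map, ← h1, List.length_map]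
      rw [mul_comm]
      omega
    have hex : ∃ t ∈ Q s, t ∉ B ∪ F := by
      by_contra hcon
      push Not at hcon
      have hsub : Q s ⊆ B ∪ F := hcon
      have e1 := (Finset.card_le_card hsub).trans (Finset.card_union_le B F)
      have e2 := hQ s List.mem_cons_self
      have e3 : c * M ≤ c * (B.card + F.card) := Nat.mul_le_mul_left c (e2.trans e1)
      have e4 : c * B.card ≤ c * (D + 1 + c + 1) ^ g := Nat.mul_le_mul_left c hB1
      rw [mul_add] at e3
      omega
    obtain ⟨t, ht, htn⟩ := hex
    rw [Finset.mem_union, not_or] at htn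
    refine ⟨(s, t) :: L, by rw [List.map_cons, h1], ?_, ?_, ?_⟩
    · intro e he
      rcases List.mem_cons.1 he with rfl | he
      · exact ht
      · exact h2 e he
    · refine Gir.edge h3 (fun p => ?_)
      by_contra hlt
      exact htn.1 (hB2 t p (by omega))
    · intro u
      rw [List.map_cons, List.count_cons]
      by_cases hu : t = u
      · subst hu
        have : (L.map Prod.snd).count t ≠ c := fun h' =>
          htn.2 (Finset.mem_filter.2 ⟨Finset.mem_univ _, h'⟩)
        have := h4 t
        simp only [BEq.rfl, if_true]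
        omega
      · rw [if_neg (by simpa using hu)]
        exact h4 u

/-- Exponentials beat powers. -/
theorem exists_pow_lt (g C : ℕ) : ∃ k : ℕ, 2 * (k + C) ^ g < 2 ^ k := by
  have h := tendsto_pow_const_div_const_pow_of_one_lt g (r := (2 : ℝ)) (by norm_num)
  have hpos : (0 : ℝ) < 1 / 2 ^ (C + 1) := by positivity
  have h1 := (h.eventually (gt_mem_nhds hpos)).and (Filter.eventually_ge_atTop C)
  obtain ⟨n, hn, hC⟩ := h1.exists
  refine ⟨n - C, ?_⟩
  have e : n - C + C = n := by omega
  rw [e]
  rw [div_lt_div_iff₀ (by positivity) (by positivity), one_mul] at hn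
  have h2 : (n : ℝ) ^ g * 2 ^ (C + 1) < 2 ^ n := hn
  have h3 : n ^ g * 2 ^ (C + 1) < 2 ^ n := by exact_mod_cast h2
  have h4 : (2 : ℕ) ^ n = 2 ^ (n - C) * 2 ^ C := by
    rw [← pow_add]; congr 1; omega
  rw [h4, pow_succ] at h3
  have h5 : 2 * n ^ g * 2 ^ C < 2 ^ (n - C) * 2 ^ C := by
    calc 2 * n ^ g * 2 ^ C = n ^ g * (2 ^ C * 2) := by ring
      _ < _ := h3
  exact lt_of_mul_lt_mul_right h5 (by positivity)

end Pool.Agent.Q161.Cnd
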