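import Pool.Agent.Q161.CndFinal

/-!
# CND graphs of large girth, end of the proof (MP_03af38_co)
-/

namespace Pool.Agent.Q161.Cnd

open SimpleGraph

variable {V : Type*} {B : SimpleGraph V} {T : Fin 3 → V}

theorem Seg.exists_walk {W : Type*} {G : SimpleGraph W} : ∀ (l : List W) (x y : W),
    Seg G x y l → ∃ p : G.Walk x y, p.support = l := by
  intro l
  induction l with
  | nil => intro x y h; exact absurd h.2.1 (by simp)
  | cons a l ih =>
    intro x y h
    obtain ⟨h1, h2, h3⟩ := h
    simp only [List.head?_cons, Option.some.injEq] at h2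
    subst h2
    cases l with
    | nil =>
      simp only [List.getLast?_singleton, Option.some.injEq] at h3
      subst h3
      exact ⟨Walk.nil, rfl⟩
    | cons b l =>
      rw [List.isChain_cons] at h1
      have hab := h1.1 b (by simp)
      obtain ⟨p, hp⟩ := ih b y ⟨h1.2, rfl, by rwa [List.getLast?_cons_cons] at h3⟩
      exact ⟨Walk.cons hab p, by rw [Walk.support_cons, hp]⟩

theorem card_E4 : Fintype.card E4 = 6 := by
  rw [Sym2.card_subtype_not_diag]
  decide

theorem card_asm [Fintype V] : Fintype.card ((Fin 4 × V) ⊕ E4) = 4 * Fintype.card V + 6 := by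
  rw [Fintype.card_sum, Fintype.card_prod, card_E4, Fintype.card_fin]

theorem path_le [Fintype V] {u v : (Fin 4 × V) ⊕ E4} (p : (asm B T).Walk u v) (hp : p.IsPath) :
    p.support.length ≤ 4 * Fintype.card V + 5 := by
  classical
  by_contra hlt
  have h1 := hp.support_nodup
  have h2 := h1.length_le_card
  rw [card_asm] at h2
  refine not_ham (Walk.isChain_adj_support p) h1 (fun w => ?_)
  have h3 : p.support.toFinset = Finset.univ := by
    apply Finset.eq_univ_of_card
    rw [List.toFinset_card_of_nodup h1, card_asm]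
    omega
  have := Finset.mem_univ w
  rw [← h3, List.mem_toFinset] at this
  exact this

theorem not_traceable [Fintype V] : ¬ Traceable (asm B T) := by
  rintro ⟨u, v, p, hp, hall⟩
  exact not_ham (Walk.isChain_adj_support p) hp.support_nodup hall

/-- Every vertex is the end vertex of a path missing exactly one vertex. -/
theorem long_path [Fintype V] {g : ℕ} (h : IsGad g B T) (v : (Fin 4 × V) ⊕ E4) :
    ∃ (w : (Fin 4 × V) ⊕ E4) (p : (asm B T).Walk v w), p.IsPath ∧
      p.support.length = 4 * Fintype.card V + 5 := by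
  rcases v with ⟨i, v⟩ | e
  · obtain ⟨l, w, h1, h2, h3⟩ := path2 h i v
    obtain ⟨p, hp⟩ := Seg.exists_walk _ _ _ h1
    exact ⟨w, p, Walk.IsPath.mk' (by rw [hp]; exact h2), by rw [hp]; exact h3⟩
  · obtain ⟨a, c, hac, rfl⟩ := exists_cc e
    have key : ∀ a c : Fin 4, a ≠ c → ∃ b d, a ≠ b ∧ a ≠ d ∧ b ≠ c ∧ b ≠ d ∧ c ≠ d := by decide
    obtain ⟨b, d, hab, had, hbc, hbd, hcd⟩ := key a c hac
    obtain ⟨l, h1, h2, h3, _⟩ := path1 h hab hac had hbc hbd hcd
    obtain ⟨p, hp⟩ := Seg.exists_walk _ _ _ h1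
    exact ⟨_, p, Walk.IsPath.mk' (by rw [hp]; exact h2), by rw [hp]; exact h3⟩

theorem connected_asm [Fintype V] {g : ℕ} (h : IsGad g B T) : (asm B T).Connected := by
  classical
  have hmem : ∀ u v, (asm B T).Reachable u v ∨ ∀ w, w ≠ v → (asm B T).Reachable u w := by
    intro u v
    obtain ⟨x, p, hp, hl⟩ := long_path h u
    have hr : ∀ w ∈ p.support, (asm B T).Reachable u w := fun w hw => ⟨p.takeUntil w hw⟩
    by_cases hv : v ∈ p.support
    · exact Or.inl (hr v hv)
    · right
      intro w hw
      apply hr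
      by_contra hcon
      have h1 : (v :: w :: p.support).Nodup := by
        rw [List.nodup_cons, List.nodup_cons]
        refine ⟨?_, hcon, hp.support_nodup⟩
        rw [List.mem_cons, not_or]
        exact ⟨Ne.symm hw, hv⟩
      have h2 := h1.length_le_card
      rw [card_asm, List.length_cons, List.length_cons, hl] at h2
      omega
  haveI : Nonempty ((Fin 4 × V) ⊕ E4) := ⟨Sum.inr (cc 0 1)⟩
  refine ⟨fun u v => ?_⟩
  rcases hmem u v with h1 | h1
  · exact h1
  · rcases hmem v u with h2 | h2
    · exact h2.symm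
    · -- a third vertex
      have h3 : ∃ w, w ≠ u ∧ w ≠ v := by
        by_contra hcon
        push Not at hcon
        have : (Finset.univ : Finset ((Fin 4 × V) ⊕ E4)) ⊆ {u, v} := by
          intro w _
          by_cases hw : w = u
          · simp [hw]
          · simp [hcon w hw]
        have := (Finset.card_le_card this).trans Finset.card_le_two
        rw [Finset.card_univ, card_asm] at this
        omega
      obtain ⟨w, hwu, hwv⟩ := h3
      exact (h1 w hwv).trans (h2 w hwu).symm

theorem isCND_asm [Fintype V] {g : ℕ} (h : IsGad g B T) : IsCND (asm B T) := by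
  refine ⟨connected_asm h, not_traceable, fun v => ?_⟩
  have e1 : detourAt (asm B T) v = 4 * Fintype.card V + 5 := by
    apply IsGreatest.csSup_eq
    constructor
    · obtain ⟨w, p, h1, h2⟩ := long_path h v
      exact ⟨w, p, h1, h2⟩
    · rintro n ⟨w, p, hp, rfl⟩
      exact path_le p hp
  have e2 : detour (asm B T) = 4 * Fintype.card V + 5 := by
    apply IsGreatest.csSup_eq
    constructor
    · obtain ⟨w, p, h1, h2⟩ := long_path h v
      exact ⟨v, w, p, h1, h2⟩
    · rintro n ⟨u, w, p, hp, rfl⟩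
      exact path_le p hp
  rw [e1, e2]

theorem not_acyclic_asm [Fintype V] {g : ℕ} (h : IsGad g B T) : ¬ (asm B T).IsAcyclic := by
  intro hac
  obtain ⟨l, h1, h2, _, h4, _⟩ := path1 h (a := 0) (b := 1) (c := 2) (d := 3) (by decide)
    (by decide) (by decide) (by decide) (by decide) (by decide)
  obtain ⟨l', h1', h2', _, _, h5'⟩ := path1 h (a := 2) (b := 3) (c := 0) (d := 1) (by decide)
    (by decide) (by decide) (by decide) (by decide) (by decide)
  have e1 : cc (2 : Fin 4) 0 = cc 0 2 := by decide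
  have e2 : cc (1 : Fin 4) 3 = cc 3 1 := by decide
  have e3 : cc (3 : Fin 4) 0 = cc 0 3 := by decide
  rw [e1, e2] at h1'
  rw [e3] at h5'
  obtain ⟨p, hp⟩ := Seg.exists_walk _ _ _ h1
  obtain ⟨q, hq⟩ := Seg.exists_walk _ _ _ h1'
  have := hac.path_unique ⟨p, Walk.IsPath.mk' (by rw [hp]; exact h2)⟩
    ⟨q, Walk.IsPath.mk' (by rw [hq]; exact h2')⟩
  have h6 : p = q := congrArg Subtype.val this
  rw [← hp, h6, hq] at h4
  exact h4 h5'

theorem main (g : ℕ) (hg : 3 ≤ g) : ∃ (V : Type) (_ : Fintype V) (G : SimpleGraph V),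
    IsCND G ∧ g ≤ G.girth := by
  obtain ⟨V, _, B, T, h⟩ := exists_gadget g (by omega)
  refine ⟨(Fin 4 × V) ⊕ E4, inferInstance, asm B T, isCND_asm h, ?_⟩
  have h1 := gir_le_egirth (gir_asm hg h)
  have h2 : (asm B T).egirth ≠ ⊤ := fun h' => not_acyclic_asm h (egirth_eq_top.1 h')
  have h3 := ENat.toNat_le_toNat h1 h2
  rwa [ENat.toNat_coe] at h3

end Pool.Agent.Q161.Cnd
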