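import Pool.Agent.Q161.CndBase

/-!
# Paths as lists, switches, greedy edges (MP_03af38_co)
-/

namespace Pool.Agent.Q161.Cnd

open SimpleGraph

variable {V W : Type*} {G : SimpleGraph V} {H : SimpleGraph W}

/-- `l` is the list of the vertices of a walk from `x` to `y`. -/
def Seg (G : SimpleGraph V) (x y : V) (l : List V) : Prop :=
  l.IsChain G.Adj ∧ l.head? = some x ∧ l.getLast? = some y

theorem Seg.single (x : V) : Seg G x x [x] := ⟨List.isChain_singleton x, rfl, rfl⟩

theorem Seg.append {x y x' y' : V} {l l' : List V} (h : Seg G x y l) (h' : Seg G x' y' l')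
    (ha : G.Adj y x') : Seg G x y' (l ++ l') := by
  obtain ⟨a1, a2, a3⟩ := h
  obtain ⟨b1, b2, b3⟩ := h'
  refine ⟨a1.append b1 ?_, ?_, ?_⟩
  · intro u hu v hv
    rw [a3] at hu
    rw [b2] at hv
    rw [Option.mem_def, Option.some.injEq] at hu hv
    rw [← hu, ← hv]
    exact ha
  · rw [List.head?_append, a2]; rfl
  · rw [List.getLast?_append, b3]; rfl

theorem Seg.cons {x x' y' : V} {l' : List V} (h' : Seg G x' y' l')
    (ha : G.Adj x x') : Seg G x y' (x :: l') := (Seg.single x).append h' ha

theorem Seg.reverse {x y : V} {l : List V} (h : Seg G x y l) : Seg G y x l.reverse := by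
  obtain ⟨a1, a2, a3⟩ := h
  refine ⟨?_, ?_, ?_⟩
  · rw [List.isChain_reverse]
    refine a1.imp (fun a b hab => hab.symm)
  · rw [List.head?_reverse]; exact a3
  · rw [List.getLast?_reverse]; exact a2

theorem Seg.map {x y : V} {l : List V} (h : Seg G x y l) (f : V → W)
    (hf : ∀ a b, G.Adj a b → H.Adj (f a) (f b)) : Seg H (f x) (f y) (l.map f) := by
  obtain ⟨a1, a2, a3⟩ := h
  refine ⟨?_, ?_, ?_⟩
  · rw [List.isChain_map]
    exact a1.imp (fun a b hab => hf a b hab)
  · rw [List.head?_map, a2]; rfl
  · rw [List.getLast?_map, a3]; rfl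

theorem Seg.mono {x y : V} {l : List V} {G' : SimpleGraph V} (h : Seg G x y l) (hG : G ≤ G') :
    Seg G' x y l :=
  ⟨h.1.imp (fun _ _ hab => hG hab), h.2.1, h.2.2⟩

theorem Seg.ne_nil {x y : V} {l : List V} (h : Seg G x y l) : l ≠ [] := by
  rintro rfl
  exact absurd h.2.1 (by simp)

/-- Splitting a path at a vertex. -/
theorem Seg.split {x y v : V} {l1 l2 : List V} (h : Seg G x y (l1 ++ v :: l2)) :
    Seg G x v (l1 ++ [v]) ∧ ((l2 = [] ∧ v = y) ∨ ∃ s, G.Adj v s ∧ Seg G s y l2) := by
  obtain ⟨a1, a2, a3⟩ := h
  have e : l1 ++ v :: l2 = (l1 ++ [v]) ++ l2 := by simp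
  rw [e] at a1 a2 a3
  have h1 : Seg G x v (l1 ++ [v]) := by
    refine ⟨a1.left_of_append, ?_, by simp⟩
    rw [List.head?_append] at a2
    cases l1 with
    | nil => simpa using a2
    | cons a l1 => simpa using a2
  refine ⟨h1, ?_⟩
  cases l2 with
  | nil =>
    left
    refine ⟨rfl, ?_⟩
    simpa using a3
  | cons s l3 =>
    right
    refine ⟨s, ?_, a1.right_of_append, rfl, ?_⟩
    · exact (List.isChain_append.1 a1).2.2 v (by simp) s (by simp)
    · rw [List.getLast?_append] at a3
      have : (s :: l3).getLast? ≠ none := by simp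
      cases h : (s :: l3).getLast? with
      | none => exact absurd h this
      | some w => rw [h] at a3; simpa using a3

/-! ### Switches -/

/-- A switch: a graph with a root `r` and a set `P` of ports, such that for each port there is a
Hamiltonian path from the root to it. -/
structure IsSw (g m D : ℕ) (G : SimpleGraph V) (r : V) (P : Finset V) : Prop where
  ham : ∀ x ∈ P, ∃ l, Seg G r x l ∧ l.Nodup ∧ ∀ v, v ∈ l
  gir : Gir G g
  lip : ∃ f : V → ℤ, Lip G f ∧ f r = 0 ∧ ∀ x ∈ P, f x = m
  deg : ∀ v, DegLe G v D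
  degr : DegLe G r 2

theorem isSw_base (g : ℕ) : IsSw g 0 4 (⊥ : SimpleGraph Unit) () {()} where
  ham := fun x _ => ⟨[()], Seg.single (), by simp, fun v => by simp⟩
  gir := fun a b h => absurd h (by simp)
  lip := ⟨fun _ => 0, Lip.const 0, rfl, fun _ _ => rfl⟩
  deg := fun v => ⟨∅, by simp, fun u h => absurd h (by simp)⟩
  degr := ⟨∅, by simp, fun u h => absurd h (by simp)⟩

/-- Adding a pendant vertex at the root. -/
theorem IsSw.ext {g m D : ℕ} {r : V} {P : Finset V} (h : IsSw g m D G r P)
    (hD : 4 ≤ D) :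
    IsSw g (m + 1) D (addL (copies Unit Unit G) [(Sum.inr (), Sum.inl ((), r))]) (Sum.inr ())
      (P.map ⟨fun x => Sum.inl ((), x), fun _ _ h => by simpa using h⟩) where
  ham := by
    intro x hx
    obtain ⟨y, hy, rfl⟩ := Finset.mem_map.1 hx
    obtain ⟨l, h1, h2, h3⟩ := h.ham y hy
    refine ⟨Sum.inr () :: l.map (fun x => Sum.inl ((), x)), ?_, ?_, ?_⟩
    · refine Seg.cons (x' := Sum.inl ((), r)) ?_ ?_
      · exact h1.map _ (fun a b hab => le_addL _ _ (copies_adj_inl.2 ⟨b, rfl, hab⟩))
      · rw [addL_adj]
        right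
        simp
    · rw [List.nodup_cons]
      refine ⟨by simp, h2.map (fun _ _ h => by simpa using h)⟩
    · rintro (⟨⟨⟩, v⟩ | ⟨⟩)
      · exact List.mem_cons_of_mem _ (List.mem_map.2 ⟨v, h3 v, rfl⟩)
      · exact List.mem_cons_self
  gir := by
    refine (gir_copies h.gir).addL ?_
    intro L1 e L2 hL
    have : L1 = [] ∧ e = (Sum.inr (), Sum.inl ((), r)) ∧ L2 = [] := by
      cases L1 with
      | nil => simp only [List.nil_append, List.cons.injEq] at hL; exact ⟨rfl, hL.1.symm, hL.2.symm⟩
      | cons a L1 => simp at hL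
    obtain ⟨rfl, rfl, rfl⟩ := this
    refine ⟨Sum.elim (fun _ => (g : ℤ)) (fun _ => 0), ?_, ?_⟩
    · exact lip_copies (fun i => Lip.const _)
    · simp
  lip := by
    obtain ⟨f, h1, h2, h3⟩ := h.lip
    refine ⟨Sum.elim (fun p => f p.2 + 1) (fun _ => 0), ?_, rfl, ?_⟩
    · refine Lip.addL (lip_copies (fun i => h1.add_const 1)) ?_
      intro e he
      rw [List.mem_singleton] at he
      subst he
      simp [h2]
    · intro x hx
      obtain ⟨y, hy, rfl⟩ := Finset.mem_map.1 hx
      show f y + 1 = _
      rw [h3 y hy]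
      push_cast
      ring
  deg := by
    rintro (⟨⟨⟩, v⟩ | ⟨⟩)
    · by_cases hv : v = r
      · subst hv
        refine ((degLe_copies h.degr).addL _).mono ?_
        rw [inc_cons, inc_nil]
        split_ifs <;> omega
      · refine ((degLe_copies (h.deg v)).addL _).mono ?_
        rw [inc_cons, inc_nil, if_neg (by simp [Ne.symm hv])]
        omega
    · refine (degLe_copies_inr.addL _).mono ?_
      rw [inc_cons, inc_nil]
      split_ifs <;> omega
  degr := by
    refine (degLe_copies_inr.addL _).mono ?_
    rw [inc_cons, inc_nil]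
    split_ifs <;> omega

/-- The edges added in `IsSw.join`. -/
def joinL (r d : V) : List (((Bool × V) ⊕ Unit) × ((Bool × V) ⊕ Unit)) :=
  [(Sum.inr (), Sum.inl (true, r)), (Sum.inr (), Sum.inl (false, r)),
    (Sum.inl (true, d), Sum.inl (false, r)), (Sum.inl (false, d), Sum.inl (true, r))]

/-- Joining two copies of a switch. -/
theorem IsSw.join {g D : ℕ} {r d : V} {P : Finset V} (h : IsSw g g D G r P) (hd : d ∈ P)
    (hD : 4 ≤ D) :
    IsSw g 1 (D + 1) (addL (copies Bool Unit G) (joinL r d)) (Sum.inr ())
      (((Finset.univ : Finset Bool) ×ˢ P).map ⟨Sum.inl, Sum.inl_injective⟩) where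
  ham := by
    intro x hx
    obtain ⟨⟨b, y⟩, hy, rfl⟩ := Finset.mem_map.1 hx
    rw [Finset.mem_product] at hy
    obtain ⟨l, h1, h2, h3⟩ := h.ham y hy.2
    obtain ⟨l', h1', h2', h3'⟩ := h.ham d hd
    have hmap : ∀ (c : Bool) (a b : V), G.Adj a b →
        (addL (copies Bool Unit G) (joinL r d)).Adj (Sum.inl (c, a)) (Sum.inl (c, b)) :=
      fun c a b hab => le_addL _ _ (copies_adj_inl.2 ⟨b, rfl, hab⟩)
    refine ⟨Sum.inr () :: (l'.map (fun x => Sum.inl (!b, x)) ++ l.map (fun x => Sum.inl (b, x))),
      ?_, ?_, ?_⟩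
    · refine Seg.cons (x' := Sum.inl (!b, r)) ?_ ?_
      · refine Seg.append (h1'.map _ (hmap _)) (h1.map _ (hmap _)) ?_
        rw [addL_adj]
        right
        cases b <;> simp [joinL]
      · rw [addL_adj]
        right
        cases b <;> simp [joinL]
    · rw [List.nodup_cons, List.nodup_append]
      refine ⟨by simp, h2'.map (fun _ _ h => by simpa using h),
        h2.map (fun _ _ h => by simpa using h), ?_⟩
      intro u hu v hv huv
      obtain ⟨u', _, rfl⟩ := List.mem_map.1 hu
      obtain ⟨v', _, rfl⟩ := List.mem_map.1 hv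
      simp at huv
    · rintro (⟨c, v⟩ | ⟨⟩)
      · refine List.mem_cons_of_mem _ (List.mem_append.2 ?_)
        by_cases hc : c = b
        · subst hc
          exact Or.inr (List.mem_map.2 ⟨v, h3 v, rfl⟩)
        · have : c = !b := by cases c <;> cases b <;> simp_all
          subst this
          exact Or.inl (List.mem_map.2 ⟨v, h3' v, rfl⟩)
      · exact List.mem_cons_self
  gir := by
    obtain ⟨F, hF1, hF2, hF3⟩ := h.lip
    have hFd := hF3 d hd
    refine (gir_copies h.gir).addL ?_
    intro L1 e L2 hL
    unfold joinL at hL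
    rcases L1 with _ | ⟨a1, _ | ⟨a2, _ | ⟨a3, _ | ⟨a4, L1⟩⟩⟩⟩
    · simp only [List.nil_append, List.cons.injEq] at hL
      obtain ⟨rfl, rfl⟩ := hL
      refine ⟨Sum.elim (fun p => if p.1 then (g : ℤ) - F p.2 else F p.2) (fun _ => 0), ?_, ?_⟩
      · refine Lip.addL (lip_copies ?_) ?_
        · intro i
          cases i
          · simpa using hF1
          · simpa using hF1.const_sub g
        · intro e he
          simp only [List.mem_cons, List.not_mem_nil, or_false] at he
          rcases he with rfl | rfl | rfl <;> simp [hF2, hFd]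
      · simp [hF2]
    · simp only [List.cons_append, List.nil_append, List.cons.injEq] at hL
      obtain ⟨_, rfl, rfl⟩ := hL
      refine ⟨Sum.elim (fun _ => (g : ℤ)) (fun _ => 0), ?_, ?_⟩
      · refine Lip.addL (lip_copies (fun i => Lip.const _)) ?_
        intro e he
        simp only [List.mem_cons, List.not_mem_nil, or_false] at he
        rcases he with rfl | rfl <;> simp
      · simp
    · simp only [List.cons_append, List.nil_append, List.cons.injEq] at hL
      obtain ⟨_, _, rfl, rfl⟩ := hL
      refine ⟨Sum.elim (fun p => if p.1 then 0 - F p.2 else 0) (fun _ => 0), ?_, ?_⟩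
      · refine Lip.addL (lip_copies ?_) ?_
        · intro i
          cases i
          · simpa using Lip.const (G := G) 0
          · simpa using hF1.const_sub 0
        · intro e he
          simp only [List.mem_cons, List.not_mem_nil, or_false] at he
          subst he
          simp [hF2]
      · simp [hFd]
    · simp only [List.cons_append, List.nil_append, List.cons.injEq] at hL
      obtain ⟨_, _, _, rfl, rfl⟩ := hL
      refine ⟨Sum.elim (fun p => if p.1 then (g : ℤ) else 0) (fun _ => 0), ?_, ?_⟩
      · refine Lip.addL (lip_copies ?_) (by simp)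
        intro i u v _
        simp
      · simp
    · simp at hL
  lip := by
    refine ⟨Sum.elim (fun _ => 1) (fun _ => 0), ?_, rfl, ?_⟩
    · refine Lip.addL (lip_copies (fun i => Lip.const 1)) ?_
      intro e he
      unfold joinL at he
      simp only [List.mem_cons, List.not_mem_nil, or_false] at he
      rcases he with rfl | rfl | rfl | rfl <;> simp
    · intro x hx
      obtain ⟨⟨b, y⟩, hy, rfl⟩ := Finset.mem_map.1 hx
      simp
  deg := by
    rintro (⟨b, v⟩ | ⟨⟩)
    · by_cases hv : v = r
      · subst hv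
        refine ((degLe_copies h.degr).addL _).mono ?_
        unfold joinL
        rw [inc_cons, inc_cons, inc_cons, inc_cons, inc_nil]
        cases b
        · rw [if_neg (by simp : ¬ ((Sum.inr () : (Bool × V) ⊕ Unit) = Sum.inl (false, v) ∨
            (Sum.inl (true, v) : (Bool × V) ⊕ Unit) = Sum.inl (false, v)))]
          split_ifs <;> omega
        · rw [if_neg (by simp : ¬ ((Sum.inr () : (Bool × V) ⊕ Unit) = Sum.inl (true, v) ∨
            (Sum.inl (false, v) : (Bool × V) ⊕ Unit) = Sum.inl (true, v)))]
          split_ifs <;> omega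
      · refine ((degLe_copies (h.deg v)).addL _).mono ?_
        unfold joinL
        rw [inc_cons, inc_cons, inc_cons, inc_cons, inc_nil]
        cases b
        · simp only [Sum.inl.injEq, Prod.mk.injEq, reduceCtorEq, false_or, true_and, false_and,
            or_false, Bool.true_eq_false, Bool.false_eq_true, Ne.symm hv, and_false, or_self,
            if_false]
          split_ifs <;> omega
        · simp only [Sum.inl.injEq, Prod.mk.injEq, reduceCtorEq, false_or, true_and, false_and,
            or_false, Bool.true_eq_false, Bool.false_eq_true, Ne.symm hv, and_false, or_self,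
            if_false]
          split_ifs <;> omega
    · refine (degLe_copies_inr.addL _).mono ?_
      unfold joinL
      rw [inc_cons, inc_cons, inc_cons, inc_cons, inc_nil]
      split_ifs <;> omega
  degr := by
    refine (degLe_copies_inr.addL _).mono ?_
    unfold joinL
    rw [inc_cons, inc_cons, inc_cons, inc_cons, inc_nil]
    simp

end Pool.Agent.Q161.Cnd
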