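import Mathlib

/-!
# Determinants of events (MP_02f487_co): combinatorial part

Cyclic intervals, the indicator matrix of a tuple of subsets, and the fact that its determinant
does not depend on the memberships `i ∈ S_{f(i)}`.
-/

namespace Pool.Agent.Q161.EvDet

open Finset Matrix

variable {m : ℕ}

/-- The cyclic interval `]i,j]` of `Z/(m+1)`: the elements `i+1, i+2, …, j`
(empty for `i = j`). -/
def cyc (i j : Fin (m + 1)) : Finset (Fin (m + 1)) :=
  univ.filter (fun x => x ≠ i ∧ x - i ≤ j - i)

/-- The cyclic distance from `i` to `x`. -/
def dd (m i x : ℕ) : ℕ := if i ≤ x then x - i else m + 1 + x - i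

theorem val_sub (x i : Fin (m + 1)) : ((x - i : Fin (m + 1)) : ℕ) = dd m i x := by
  unfold dd
  have hx := x.2
  have hi := i.2
  rw [Fin.val_sub]
  split_ifs with h
  · rw [show m + 1 - (i : ℕ) + x = (x - i) + (m + 1) by omega, Nat.add_mod_right,
      Nat.mod_eq_of_lt (by omega)]
  · rw [Nat.mod_eq_of_lt (by omega)]
    omega

theorem mem_cyc {i j x : Fin (m + 1)} :
    x ∈ cyc i j ↔ (x : ℕ) ≠ i ∧ dd m i x ≤ dd m i j := by
  unfold cyc
  simp only [mem_filter, mem_univ, true_and, Fin.le_def, val_sub, ne_eq, Fin.ext_iff]

theorem val_pred (a : Fin (m + 1)) :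
    ((a - 1 : Fin (m + 1)) : ℕ) = if (a : ℕ) = 0 then m else (a : ℕ) - 1 := by
  have ha := a.2
  rw [val_sub]
  rcases Nat.eq_zero_or_pos m with rfl | hm
  · have : (a : ℕ) = 0 := by omega
    simp [dd]
  · have h1 : ((1 : Fin (m + 1)) : ℕ) = 1 := by
      rw [Fin.val_one', Nat.mod_eq_of_lt (by omega)]
    rw [h1]
    unfold dd
    split_ifs <;> omega

/-- `]i-1,j]` is `]i,j]` together with `i`, for `j ≠ i-1`. -/
theorem cyc_pred (i j : Fin (m + 1)) (h : i - 1 ≠ j) :
    cyc (i - 1) j = insert i (cyc i j) := by
  have hne : ((i - 1 : Fin (m + 1)) : ℕ) ≠ j := fun h' => h (Fin.ext h')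
  have hi := i.2
  have hj := j.2
  ext x
  have hx := x.2
  rw [mem_insert, mem_cyc, mem_cyc, Fin.ext_iff]
  rw [val_pred] at hne ⊢
  unfold dd
  split_ifs at * <;> omega

/-- The complement of `{i}` is `]i,i-1]`. -/
theorem cyc_full (i : Fin (m + 1)) : cyc i (i - 1) = univ.erase i := by
  have hi := i.2
  ext x
  have hx := x.2
  simp only [mem_erase, mem_univ, and_true, ne_eq, Fin.ext_iff, mem_cyc, val_pred]
  unfold dd
  split_ifs <;> omega

theorem cyc_sub_pred {i a j : Fin (m + 1)} (h : a ∉ cyc i j) (hia : i ≠ a) :
    cyc i j ⊆ cyc i (a - 1) := by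
  have hi := i.2
  have hj := j.2
  have ha := a.2
  have hia' : (i : ℕ) ≠ a := fun h' => hia (Fin.ext h')
  intro x hx
  have hx2 := x.2
  rw [mem_cyc] at *
  rw [val_pred]
  unfold dd at *
  split_ifs at * <;> omega

theorem cyc_split {i a j : Fin (m + 1)} (h : a ∈ cyc i j) (hia : i ≠ a) :
    cyc i j = cyc i (a - 1) ∪ (insert a (cyc a j)) := by
  have hi := i.2
  have hj := j.2
  have ha := a.2
  have hia' : (i : ℕ) ≠ a := fun h' => hia (Fin.ext h')
  ext x
  have hx2 := x.2
  rw [mem_union, mem_insert, mem_cyc, mem_cyc, mem_cyc, Fin.ext_iff]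
  rw [mem_cyc] at h
  rw [val_pred]
  unfold dd at *
  split_ifs at * <;> omega

theorem mem_cyc_of_missing {i a j x : Fin (m + 1)} (h : a ∉ cyc i j) (hia : i ≠ a)
    (hxa : x ≠ a) (hx : x ∉ cyc i (a - 1)) : x ∈ cyc a j := by
  have hi := i.2
  have hj := j.2
  have ha := a.2
  have hia' : (i : ℕ) ≠ a := fun h' => hia (Fin.ext h')
  have hxa' : (x : ℕ) ≠ a := fun h' => hxa (Fin.ext h')
  have hx2 := x.2
  rw [mem_cyc] at *
  rw [val_pred] at hx
  unfold dd at *
  split_ifs at * <;> omega

/-! ### The indicator matrix -/

variable {r : ℕ} {R : Type*} [CommRing R]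

open Classical in
/-- The indicator matrix of the events `]i,j] ⊆ S_{f(i)}` (rows `i < m`), with a last row of
ones. -/
noncomputable def Mb (R : Type*) [CommRing R] (S : Fin r → Finset (Fin (m + 1)))
    (f : Fin m → Fin r) : Matrix (Fin (m + 1)) (Fin (m + 1)) R :=
  fun i j => if h : (i : ℕ) < m then (if cyc i j ⊆ S (f ⟨i, h⟩) then 1 else 0) else 1

theorem Mb_row (S : Fin r → Finset (Fin (m + 1))) (f : Fin m → Fin r) (i : Fin m)
    (j : Fin (m + 1)) [Decidable (cyc i.castSucc j ⊆ S (f i))] :
    Mb R S f i.castSucc j = if cyc i.castSucc j ⊆ S (f i) then 1 else 0 := by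
  unfold Mb
  rw [dif_pos (show ((i.castSucc : Fin (m + 1)) : ℕ) < m from i.2)]
  by_cases h : cyc i.castSucc j ⊆ S (f i)
  · rw [if_pos h]
    exact if_pos h
  · rw [if_neg h]
    exact if_neg h

theorem Mb_last (S : Fin r → Finset (Fin (m + 1))) (f : Fin m → Fin r) (j : Fin (m + 1)) :
    Mb R S f (Fin.last m) j = 1 := by
  unfold Mb
  rw [dif_neg (by simp)]

open Classical in
/-- Adding `a` to `S_{f(a)}` does not change the determinant. -/
theorem flip (S : Fin r → Finset (Fin (m + 1))) (f : Fin m → Fin r) (a : Fin m)
    (ha : a.castSucc ∉ S (f a)) :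
    (Mb R (Function.update S (f a) (insert a.castSucc (S (f a)))) f).det = (Mb R S f).det := by
  set S' := Function.update S (f a) (insert a.castSucc (S (f a))) with hS'
  have hS1 : S' (f a) = insert a.castSucc (S (f a)) := by rw [hS', Function.update_self]
  have hS2 : ∀ t, t ≠ f a → S' t = S t := fun t ht => by rw [hS', Function.update_of_ne ht]
  by_cases hfull : cyc a.castSucc (a.castSucc - 1) ⊆ S (f a)
  · -- both determinants vanish
    have key : ∀ S0 : Fin r → Finset (Fin (m + 1)),
        cyc a.castSucc (a.castSucc - 1) ⊆ S0 (f a) → (Mb R S0 f).det = 0 := by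
      intro S0 h0
      apply Matrix.det_zero_of_row_eq (Fin.castSucc_lt_last a).ne
      funext j
      rw [Mb_last, Mb_row, if_pos]
      refine Finset.Subset.trans ?_ h0
      rw [cyc_full]
      intro x hx
      rw [mem_erase]
      refine ⟨?_, mem_univ _⟩
      rintro rfl
      rw [mem_cyc] at hx
      exact hx.1 rfl
    rw [key S hfull, key S' (by rw [hS1]; exact hfull.trans (subset_insert _ _))]
  · rw [cyc_full] at hfull
    obtain ⟨x, hx1, hx2⟩ := Finset.not_subset.1 hfull
    rw [mem_erase] at hx1
    apply Matrix.det_eq_of_forall_row_eq_smul_add_const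
      (fun i : Fin (m + 1) => if h : (i : ℕ) < m then
        (if f ⟨i, h⟩ = f a ∧ i ≠ a.castSucc ∧ cyc i (a.castSucc - 1) ⊆ S (f a) then 1 else 0)
        else 0) a.castSucc
    · simp
    · intro i j
      induction i using Fin.lastCases with
      | last =>
        rw [Mb_last, Mb_last, dif_neg (by simp)]
        ring
      | cast i =>
        rw [Mb_row, Mb_row, Mb_row]
        rw [dif_pos (show ((i.castSucc : Fin (m + 1)) : ℕ) < m from i.2)]
        change _ = _ + (if f i = f a ∧ i.castSucc ≠ a.castSucc ∧
          cyc i.castSucc (a.castSucc - 1) ⊆ S (f a) then (1 : R) else 0) * _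
        by_cases hfi : f i = f a
        · rw [hfi, hS1]
          by_cases hia : i = a
          · subst hia
            rw [if_neg (show ¬ (f i = f i ∧ i.castSucc ≠ i.castSucc ∧ _) from
              fun h => h.2.1 rfl), zero_mul, add_zero]
            have : cyc i.castSucc j ⊆ insert i.castSucc (S (f i)) ↔
                cyc i.castSucc j ⊆ S (f i) := by
              constructor
              · intro h y hy
                have h1 := h hy
                rw [mem_insert] at h1
                rcases h1 with rfl | h1
                · rw [mem_cyc] at hy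
                  exact absurd rfl hy.1
                · exact h1
              · intro h
                exact h.trans (subset_insert _ _)
            simp only [this]
          · have hia' : i.castSucc ≠ a.castSucc := fun h => hia (Fin.castSucc_injective _ h)
            by_cases haj : a.castSucc ∈ cyc i.castSucc j
            · rw [if_neg (show ¬ cyc i.castSucc j ⊆ S (f a) from fun h => ha (h haj)), zero_add]
              rw [cyc_split haj hia']
              by_cases h1 : cyc i.castSucc (a.castSucc - 1) ⊆ S (f a)
              · rw [if_pos (⟨rfl, hia', h1⟩ : f a = f a ∧ _ ∧ _), one_mul]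
                have : cyc i.castSucc (a.castSucc - 1) ∪ insert a.castSucc (cyc a.castSucc j) ⊆
                    insert a.castSucc (S (f a)) ↔ cyc a.castSucc j ⊆ S (f a) := by
                  constructor
                  · intro h y hy
                    have h2 := h (mem_union_right _ (mem_insert_of_mem hy))
                    rw [mem_insert] at h2
                    rcases h2 with rfl | h2
                    · rw [mem_cyc] at hy
                      exact absurd rfl hy.1
                    · exact h2
                  · intro h y hy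
                    rw [mem_union, mem_insert] at hy
                    rw [mem_insert]
                    rcases hy with hy | rfl | hy
                    · exact Or.inr (h1 hy)
                    · exact Or.inl rfl
                    · exact Or.inr (h hy)
                simp only [this]
              · rw [if_neg (show ¬ (f a = f a ∧ i.castSucc ≠ a.castSucc ∧
                  cyc i.castSucc (a.castSucc - 1) ⊆ S (f a)) from fun h => h1 h.2.2), zero_mul]
                rw [if_neg]
                intro h
                apply h1
                intro y hy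
                have h2 := h (mem_union_left _ hy)
                rw [mem_insert] at h2
                rcases h2 with rfl | h2
                · exfalso
                  rw [mem_cyc, val_pred] at hy
                  have h3 := hy.1
                  have h4 := hy.2
                  have h5 : ((a.castSucc : Fin (m + 1)) : ℕ) = a := rfl
                  have h6 : ((i.castSucc : Fin (m + 1)) : ℕ) = i := rfl
                  have h7 := a.2
                  have h8 := i.2
                  unfold dd at h4
                  split_ifs at h4 <;> omega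
                · exact h2
            · have h0 : cyc i.castSucc j ⊆ insert a.castSucc (S (f a)) ↔
                  cyc i.castSucc j ⊆ S (f a) := by
                constructor
                · intro h y hy
                  have h1 := h hy
                  rw [mem_insert] at h1
                  rcases h1 with rfl | h1
                  · exact absurd hy haj
                  · exact h1
                · intro h
                  exact h.trans (subset_insert _ _)
              simp only [h0]
              by_cases h1 : cyc i.castSucc (a.castSucc - 1) ⊆ S (f a)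
              · have h2 : x ∉ cyc i.castSucc (a.castSucc - 1) := fun h => hx2 (h1 h)
                have h3 := mem_cyc_of_missing haj hia' hx1.1 h2
                rw [if_neg (show ¬ cyc a.castSucc j ⊆ S (f a) from fun h => hx2 (h h3))]
                ring
              · rw [if_neg (show ¬ (True ∧ i.castSucc ≠ a.castSucc ∧
                  cyc i.castSucc (a.castSucc - 1) ⊆ S (f a)) from fun h => h1 h.2.2)]
                ring
        · rw [hS2 _ hfi, if_neg (show ¬ (f i = f a ∧ i.castSucc ≠ a.castSucc ∧
                  cyc i.castSucc (a.castSucc - 1) ⊆ S (f a)) from fun h => hfi h.1)]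
          ring

/-- The block of `t`. -/
def blk (f : Fin m → Fin r) (t : Fin r) : Finset (Fin (m + 1)) :=
  (univ.filter (fun i => f i = t)).image Fin.castSucc

theorem mem_blk {f : Fin m → Fin r} {t : Fin r} {x : Fin (m + 1)} :
    x ∈ blk f t ↔ ∃ i : Fin m, f i = t ∧ i.castSucc = x := by
  unfold blk
  simp

/-- The union of `S` with the memberships `i ∈ S_{f(i)}`, `i ∈ A`. -/
def addA (f : Fin m → Fin r) (S : Fin r → Finset (Fin (m + 1))) (A : Finset (Fin m)) :
    Fin r → Finset (Fin (m + 1)) :=
  fun t => S t ∪ (A.filter (fun i => f i = t)).image Fin.castSucc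

/-- The reduced tuple. -/
def red (f : Fin m → Fin r) (S : Fin r → Finset (Fin (m + 1))) :
    Fin r → Finset (Fin (m + 1)) := fun t => S t \ blk f t

theorem det_addA (f : Fin m → Fin r) (S : Fin r → Finset (Fin (m + 1)))
    (hS : ∀ i : Fin m, i.castSucc ∉ S (f i)) (A : Finset (Fin m)) :
    (Mb R (addA f S A) f).det = (Mb R S f).det := by
  classical
  induction A using Finset.induction_on with
  | empty =>
    have : addA f S ∅ = S := by
      funext t
      simp [addA]
    rw [this]
  | insert a A ha ih =>
    rw [← ih, ← flip (addA f S A) f a]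
    · congr 1
      congr 1
      funext t
      by_cases ht : t = f a
      · subst ht
        rw [Function.update_self]
        unfold addA
        ext x
        simp only [mem_union, mem_image, mem_filter, mem_insert]
        constructor
        · rintro (h | ⟨i, ⟨h1 | h1, h2⟩, h3⟩)
          · exact Or.inr (Or.inl h)
          · left
            rw [← h3, h1]
          · exact Or.inr (Or.inr ⟨i, ⟨h1, h2⟩, h3⟩)
        · rintro (h | h | ⟨i, ⟨h1, h2⟩, h3⟩)
          · exact Or.inr ⟨a, ⟨Or.inl rfl, rfl⟩, h.symm⟩
          · exact Or.inl h
          · exact Or.inr ⟨i, ⟨Or.inr h1, h2⟩, h3⟩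
      · rw [Function.update_of_ne ht]
        unfold addA
        ext x
        simp only [mem_union, mem_image, mem_filter, mem_insert]
        constructor
        · rintro (h | ⟨i, ⟨h1 | h1, h2⟩, h3⟩)
          · exact Or.inl h
          · exfalso
            apply ht
            rw [← h2, h1]
          · exact Or.inr ⟨i, ⟨h1, h2⟩, h3⟩
        · rintro (h | ⟨i, ⟨h1, h2⟩, h3⟩)
          · exact Or.inl h
          · exact Or.inr ⟨i, ⟨Or.inr h1, h2⟩, h3⟩
    · unfold addA
      simp only [mem_union, mem_image, mem_filter, not_or, not_exists, not_and, and_imp]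
      refine ⟨hS a, ?_⟩
      intro i hi _ h
      apply ha
      rw [← Fin.castSucc_injective _ h]
      exact hi

theorem det_red (f : Fin m → Fin r) (S : Fin r → Finset (Fin (m + 1))) :
    (Mb R (red f S) f).det = (Mb R S f).det := by
  classical
  rw [← det_addA f (red f S) (fun i => by
    unfold red
    rw [mem_sdiff, mem_blk]
    exact fun h => h.2 ⟨i, rfl, rfl⟩) (univ.filter (fun i : Fin m => i.castSucc ∈ S (f i)))]
  congr 1
  congr 1
  funext t
  unfold addA red
  ext x
  simp only [mem_union, mem_sdiff, mem_blk, mem_image, mem_filter, mem_univ, true_and,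
    not_exists, not_and]
  constructor
  · rintro (h | ⟨i, ⟨h1, h2⟩, h3⟩)
    · exact h.1
    · rw [← h2, ← h3]
      exact h1
  · intro h
    by_cases hx : ∃ i : Fin m, f i = t ∧ i.castSucc = x
    · obtain ⟨i, h1, h2⟩ := hx
      refine Or.inr ⟨i, ⟨?_, h1⟩, h2⟩
      rw [h1, h2]
      exact h
    · refine Or.inl ⟨h, fun i h1 h2 => hx ⟨i, h1, h2⟩⟩

end Pool.Agent.Q161.EvDet
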