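import Pool.Agent.Q161.EvDet

/-!
# Determinants of events (MP_02f487_co): the expected determinant
-/

namespace Pool.Agent.Q161.EvDet

open Finset Matrix

variable {m r : ℕ} {R : Type*} [CommRing R]

theorem prod_cyc (y : Fin (m + 1) → R) {i l j : Fin (m + 1)} (h : dd m i l ≤ dd m i j) :
    (∏ x ∈ cyc i l, y x) * ∏ x ∈ cyc l j, y x = ∏ x ∈ cyc i j, y x := by
  have hi := i.2
  have hj := j.2
  have hl := l.2
  rw [← Finset.prod_union]
  · congr 1
    ext x
    have hx := x.2
    rw [mem_union, mem_cyc, mem_cyc, mem_cyc]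
    unfold dd at *
    split_ifs at * <;> omega
  · rw [Finset.disjoint_left]
    intro x h1 h2
    have hx := x.2
    rw [mem_cyc] at h1 h2
    unfold dd at *
    split_ifs at * <;> omega

theorem cyc_self (i : Fin (m + 1)) : cyc i i = ∅ := by
  ext x
  rw [mem_cyc]
  have hx := x.2
  have hi := i.2
  simp only [notMem_empty, iff_false]
  unfold dd
  split_ifs <;> omega

theorem prod_cyc_succ (y : Fin (m + 1) → R) {i j : Fin (m + 1)} (hij : i ≠ j) :
    ∏ x ∈ cyc i j, y x = y j * ∏ x ∈ cyc i (j - 1), y x := by
  have hi := i.2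
  have hj := j.2
  have hij' : (i : ℕ) ≠ j := fun h => hij (Fin.ext h)
  rw [← Finset.prod_insert]
  · congr 1
    ext x
    have hx := x.2
    rw [mem_insert, mem_cyc, mem_cyc, Fin.ext_iff, val_pred]
    unfold dd
    split_ifs <;> omega
  · rw [mem_cyc, val_pred]
    unfold dd
    split_ifs <;> omega

open Classical in
/-- The matrix of expected rows. -/
noncomputable def W (y : Fin (m + 1) → R) (f : Fin m → Fin r) :
    Matrix (Fin (m + 1)) (Fin (m + 1)) R :=
  fun i j => Fin.lastCases (motive := fun _ => R) 1 (fun i' =>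
    if Disjoint (cyc i'.castSucc j) (blk f (f i')) then ∏ x ∈ cyc i'.castSucc j, y x else 0) i

open Classical in
theorem W_row (y : Fin (m + 1) → R) (f : Fin m → Fin r) (i : Fin m) (j : Fin (m + 1)) :
    W y f i.castSucc j =
      if Disjoint (cyc i.castSucc j) (blk f (f i)) then ∏ x ∈ cyc i.castSucc j, y x else 0 := by
  unfold W
  simp

theorem W_last (y : Fin (m + 1) → R) (f : Fin m → Fin r) (j : Fin (m + 1)) :
    W y f (Fin.last m) j = 1 := by
  unfold W
  simp

open Classical in
/-- The unitriangular row transformation. -/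
noncomputable def Am (y : Fin (m + 1) → R) (f : Fin m → Fin r) :
    Matrix (Fin (m + 1)) (Fin (m + 1)) R :=
  fun i l => Fin.lastCases (motive := fun _ => R) (if l = Fin.last m then 1 else 0) (fun i' =>
    if i'.castSucc ≤ l ∧ l ∈ blk f (f i') then ∏ x ∈ cyc i'.castSucc l, y x else 0) i

open Classical in
theorem Am_row (y : Fin (m + 1) → R) (f : Fin m → Fin r) (i : Fin m) (l : Fin (m + 1)) :
    Am y f i.castSucc l =
      if i.castSucc ≤ l ∧ l ∈ blk f (f i) then ∏ x ∈ cyc i.castSucc l, y x else 0 := by
  unfold Am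
  simp

theorem Am_last (y : Fin (m + 1) → R) (f : Fin m → Fin r) (l : Fin (m + 1)) :
    Am y f (Fin.last m) l = if l = Fin.last m then 1 else 0 := by
  unfold Am
  simp

open Classical in
/-- The transformed matrix. -/
noncomputable def Rm (y : Fin (m + 1) → R) (f : Fin m → Fin r) :
    Matrix (Fin (m + 1)) (Fin (m + 1)) R :=
  fun i j => Fin.lastCases (motive := fun _ => R) 1 (fun i' =>
    if i'.castSucc ≤ j ∨ ∀ x ∈ blk f (f i'), j < x then ∏ x ∈ cyc i'.castSucc j, y x else 0) i

open Classical in
theorem Rm_row (y : Fin (m + 1) → R) (f : Fin m → Fin r) (i : Fin m) (j : Fin (m + 1)) :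
    Rm y f i.castSucc j = if i.castSucc ≤ j ∨ ∀ x ∈ blk f (f i), j < x then
      ∏ x ∈ cyc i.castSucc j, y x else 0 := by
  unfold Rm
  simp

theorem Rm_last (y : Fin (m + 1) → R) (f : Fin m → Fin r) (j : Fin (m + 1)) :
    Rm y f (Fin.last m) j = 1 := by
  unfold Rm
  simp

theorem self_mem_blk (f : Fin m → Fin r) (i : Fin m) : i.castSucc ∈ blk f (f i) :=
  mem_blk.2 ⟨i, rfl, rfl⟩

open Classical in
theorem sum_block (y : Fin (m + 1) → R) (B : Finset (Fin (m + 1))) (i j : Fin (m + 1))
    (hi : i ∈ B) :
    (∑ l, (if i ≤ l ∧ l ∈ B then (∏ x ∈ cyc i l, y x) *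
      (if Disjoint (cyc l j) B then ∏ x ∈ cyc l j, y x else 0) else 0)) =
      if i ≤ j ∨ ∀ x ∈ B, j < x then ∏ x ∈ cyc i j, y x else 0 := by
  -- the general single-term argument
  have key : ∀ l0 ∈ B, i ≤ l0 → dd m i l0 ≤ dd m i j → Disjoint (cyc l0 j) B →
      (∀ l ∈ B, i ≤ l → l ≠ l0 → l0 ∈ cyc l j) →
      (∑ l, (if i ≤ l ∧ l ∈ B then (∏ x ∈ cyc i l, y x) *
      (if Disjoint (cyc l j) B then ∏ x ∈ cyc l j, y x else 0) else 0)) =
      ∏ x ∈ cyc i j, y x := by
    intro l0 hl0 hil0 hdd hdis hoth
    rw [Finset.sum_eq_single l0]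
    · rw [if_pos ⟨hil0, hl0⟩, if_pos hdis, prod_cyc y hdd]
    · intro l _ hl
      by_cases h : i ≤ l ∧ l ∈ B
      · rw [if_pos h, if_neg, mul_zero]
        rw [Finset.disjoint_left]
        intro hd
        exact hd (hoth l h.2 h.1 hl) hl0
      · rw [if_neg h]
    · intro h
      exact absurd (mem_univ _) h
  have hi2 := i.2
  have hj2 := j.2
  by_cases h1 : i ≤ j
  · rw [if_pos (Or.inl h1)]
    obtain ⟨l0, hl0, hmax⟩ := Finset.exists_max_image (B.filter (fun x => x ≤ j)) id
      ⟨i, by rw [mem_filter]; exact ⟨hi, h1⟩⟩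
    rw [mem_filter] at hl0
    have hil0 : i ≤ l0 := hmax i (by rw [mem_filter]; exact ⟨hi, h1⟩)
    have hl2 := l0.2
    apply key l0 hl0.1 hil0
    · have := hl0.2
      rw [Fin.le_def] at *
      unfold dd
      split_ifs <;> omega
    · rw [Finset.disjoint_left]
      intro x hx hxB
      have hx2 := x.2
      have h3 : ¬ x ≤ j := by
        intro hxj
        have h4 : x ≤ l0 := hmax x (by rw [mem_filter]; exact ⟨hxB, hxj⟩)
        have h5 := hl0.2
        rw [mem_cyc] at hx
        rw [Fin.le_def] at *
        unfold dd at hx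
        split_ifs at hx <;> omega
      have h5 := hl0.2
      rw [mem_cyc] at hx
      rw [Fin.le_def] at *
      unfold dd at hx
      split_ifs at hx <;> omega
    · intro l hl hil hne
      have hne' : (l : ℕ) ≠ l0 := fun h => hne (Fin.ext h)
      have hl3 := l.2
      have h3 : l ≤ j → l ≤ l0 := fun h => hmax l (by rw [mem_filter]; exact ⟨hl, h⟩)
      have h5 := hl0.2
      rw [mem_cyc]
      rw [Fin.le_def] at *
      rw [Fin.le_def] at h3
      unfold dd
      by_cases h6 : (l : ℕ) ≤ j
      · have h7 := h3 h6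
        split_ifs <;> omega
      · split_ifs <;> omega
  · by_cases h2 : ∀ x ∈ B, j < x
    · rw [if_pos (Or.inr h2)]
      obtain ⟨l0, hl0, hmax⟩ := Finset.exists_max_image B id ⟨i, hi⟩
      have hil0 : i ≤ l0 := hmax i hi
      have hl2 := l0.2
      have h3 := h2 l0 hl0
      have h4 := h2 i hi
      apply key l0 hl0 hil0
      · rw [Fin.le_def] at *
        rw [Fin.lt_def] at *
        unfold dd
        split_ifs <;> omega
      · rw [Finset.disjoint_left]
        intro x hx hxB
        have hx2 := x.2
        have h5 : x ≤ l0 := hmax x hxB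
        have h6 := h2 x hxB
        rw [mem_cyc] at hx
        rw [Fin.le_def] at *
        rw [Fin.lt_def] at *
        unfold dd at hx
        split_ifs at hx <;> omega
      · intro l hl hil hne
        have hne' : (l : ℕ) ≠ l0 := fun h => hne (Fin.ext h)
        have hl3 := l.2
        have h5 : l ≤ l0 := hmax l hl
        have h6 := h2 l hl
        rw [mem_cyc]
        rw [Fin.le_def] at *
        rw [Fin.lt_def] at *
        unfold dd
        split_ifs <;> omega
    · rw [if_neg (by rintro (h | h); exacts [h1 h, h2 h])]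
      apply Finset.sum_eq_zero
      intro l _
      by_cases h : i ≤ l ∧ l ∈ B
      · rw [if_pos h, if_neg, mul_zero]
        push Not at h2
        obtain ⟨x, hx, hxj⟩ := h2
        rw [Finset.disjoint_left]
        intro hd
        apply hd _ hx
        have hx2 := x.2
        have hl2 := l.2
        have h3 := h.1
        rw [mem_cyc]
        rw [Fin.le_def] at *
        unfold dd
        split_ifs <;> omega
      · rw [if_neg h]

theorem Am_mul_W (y : Fin (m + 1) → R) (f : Fin m → Fin r) : Am y f * W y f = Rm y f := by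
  classical
  ext i j
  rw [Matrix.mul_apply]
  induction i using Fin.lastCases with
  | last =>
    rw [Rm_last, Finset.sum_eq_single (Fin.last m)]
    · rw [Am_last, if_pos rfl, W_last, one_mul]
    · intro l _ hl
      rw [Am_last, if_neg hl, zero_mul]
    · intro h
      exact absurd (mem_univ _) h
  | cast i =>
    rw [Rm_row, ← sum_block y (blk f (f i)) i.castSucc j (self_mem_blk f i)]
    apply Finset.sum_congr rfl
    intro l _
    rw [Am_row]
    by_cases h : i.castSucc ≤ l ∧ l ∈ blk f (f i)
    · rw [if_pos h, if_pos h]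
      obtain ⟨l', hl1, hl2⟩ := mem_blk.1 h.2
      subst hl2
      rw [W_row, hl1]
    · rw [if_neg h, if_neg h, zero_mul]

/-- The column transformation. -/
def Tm (y : Fin (m + 1) → R) : Matrix (Fin (m + 1)) (Fin (m + 1)) R :=
  fun l j => if l = j then 1 else if (l : ℕ) + 1 = j then - y j else 0

theorem mul_Tm (M : Matrix (Fin (m + 1)) (Fin (m + 1)) R) (y : Fin (m + 1) → R)
    (i j : Fin (m + 1)) :
    (M * Tm y) i j = if (j : ℕ) = 0 then M i j else M i j - y j * M i (j - 1) := by
  rw [Matrix.mul_apply]
  unfold Tm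
  by_cases hj : (j : ℕ) = 0
  · rw [if_pos hj, Finset.sum_eq_single j]
    · rw [if_pos rfl, mul_one]
    · intro l _ hl
      rw [if_neg hl, if_neg (by omega), mul_zero]
    · intro h
      exact absurd (mem_univ _) h
  · rw [if_neg hj]
    have hp : ((j - 1 : Fin (m + 1)) : ℕ) + 1 = j := by
      rw [val_pred, if_neg hj]
      omega
    have hne : j ≠ j - 1 := by
      intro h
      rw [← h] at hp
      omega
    rw [← Finset.sum_subset (s₁ := {j, j - 1}) (subset_univ _)]
    · rw [Finset.sum_pair hne, if_pos rfl, if_neg (Ne.symm hne), if_pos hp]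
      ring
    · intro l _ hl
      rw [mem_insert, mem_singleton, not_or] at hl
      rw [if_neg hl.1, if_neg, mul_zero]
      intro h
      apply hl.2
      exact Fin.ext (by omega)

theorem det_Am (y : Fin (m + 1) → R) (f : Fin m → Fin r) : (Am y f).det = 1 := by
  rw [Matrix.det_of_upperTriangular]
  · apply Finset.prod_eq_one
    intro i _
    induction i using Fin.lastCases with
    | last => rw [Am_last, if_pos rfl]
    | cast i =>
      classical
      rw [Am_row, if_pos ⟨le_rfl, self_mem_blk f i⟩, cyc_self]
      rfl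
  · intro i j hij
    change j < i at hij
    induction i using Fin.lastCases with
    | last => rw [Am_last, if_neg hij.ne]
    | cast i =>
      classical
      rw [Am_row, if_neg]
      exact fun h => absurd hij (not_lt.2 h.1)

theorem det_Tm (y : Fin (m + 1) → R) : (Tm y).det = 1 := by
  rw [Matrix.det_of_upperTriangular]
  · apply Finset.prod_eq_one
    intro i _
    simp [Tm]
  · intro i j hij
    change j < i at hij
    unfold Tm
    rw [if_neg hij.ne', if_neg]
    rw [Fin.lt_def] at hij
    omega

/-- The minima of the blocks other than `0`. -/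
def minSet (f : Fin m → Fin r) : Finset (Fin m) :=
  univ.filter (fun i => (i : ℕ) ≠ 0 ∧ ∀ i', f i' = f i → i ≤ i')

theorem card_minSet (hm : 0 < m) (f : Fin m → Fin r) (hf : Function.Surjective f) :
    (minSet f).card = r - 1 := by
  set S : Finset (Fin m) := univ.filter (fun i => ∀ i', f i' = f i → i ≤ i') with hS
  have h1 : S.card = r := by
    have h2 : S.card = (univ : Finset (Fin r)).card := by
      apply Finset.card_nbij f
      · intro i _
        exact mem_univ _
      · intro i hi j hj hij
        rw [hS, mem_coe, mem_filter] at hi hj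
        exact le_antisymm (hi.2 j hij.symm) (hj.2 i hij)
      · intro t _
        obtain ⟨i0, hi0⟩ := hf t
        obtain ⟨i, hi, hmin⟩ := Finset.exists_min_image (univ.filter (fun i => f i = t)) id
          ⟨i0, by rw [mem_filter]; exact ⟨mem_univ _, hi0⟩⟩
        rw [mem_filter] at hi
        refine ⟨i, ?_, hi.2⟩
        rw [hS, mem_coe, mem_filter]
        refine ⟨mem_univ _, fun i' hi' => ?_⟩
        exact hmin i' (by rw [mem_filter]; exact ⟨mem_univ _, hi'.trans hi.2⟩)
    rw [h2, card_univ, Fintype.card_fin]
  have h3 : minSet f = S.erase ⟨0, hm⟩ := by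
    ext i
    unfold minSet
    rw [hS, mem_erase, mem_filter, mem_filter]
    simp only [ne_eq, Fin.ext_iff]
    tauto
  rw [h3, card_erase_of_mem, h1]
  rw [hS, mem_filter]
  refine ⟨mem_univ _, fun i' _ => ?_⟩
  rw [Fin.le_def]
  exact Nat.zero_le _

theorem det_W (hm : 0 < m) (y : Fin (m + 1) → R) (f : Fin m → Fin r)
    (hf : Function.Surjective f) :
    (W y f).det = (1 - y (Fin.last m)) * (1 - ∏ x, y x) ^ (r - 1) := by
  classical
  have h1 : (W y f).det = (Rm y f * Tm y).det := by
    rw [← Am_mul_W, Matrix.det_mul, Matrix.det_mul, det_Am, det_Tm, one_mul, mul_one]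
  rw [h1, Matrix.det_of_lowerTriangular]
  · rw [Fin.prod_univ_castSucc]
    have hlast : (Rm y f * Tm y) (Fin.last m) (Fin.last m) = 1 - y (Fin.last m) := by
      rw [mul_Tm, if_neg (by simp; omega), Rm_last, Rm_last, mul_one]
    rw [hlast, mul_comm]
    congr 1
    have hdiag : ∀ i : Fin m, (Rm y f * Tm y) i.castSucc i.castSucc =
        if i ∈ minSet f then (1 - ∏ x, y x) else 1 := by
      intro i
      rw [mul_Tm, Rm_row, if_pos (Or.inl le_rfl), cyc_self, Finset.prod_empty]
      have hv : ((i.castSucc : Fin (m + 1)) : ℕ) = i := rfl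
      by_cases hi0 : (i : ℕ) = 0
      · rw [if_pos (by rw [hv]; exact hi0), if_neg]
        unfold minSet
        rw [mem_filter]
        exact fun h => h.2.1 hi0
      · rw [if_neg (by rw [hv]; exact hi0), Rm_row]
        have hmin : (i.castSucc ≤ i.castSucc - 1 ∨ ∀ x ∈ blk f (f i), i.castSucc - 1 < x) ↔
            i ∈ minSet f := by
          unfold minSet
          rw [mem_filter]
          constructor
          · rintro (h | h)
            · exfalso
              rw [Fin.le_def, val_pred, hv, if_neg hi0] at h
              omega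
            · refine ⟨mem_univ _, hi0, fun i' hi' => ?_⟩
              have h2 := h i'.castSucc (mem_blk.2 ⟨i', hi', rfl⟩)
              rw [Fin.lt_def, val_pred, hv, if_neg hi0] at h2
              rw [Fin.le_def]
              have h3 : ((i'.castSucc : Fin (m + 1)) : ℕ) = i' := rfl
              omega
          · rintro ⟨_, _, h⟩
            right
            intro x hx
            obtain ⟨i', hi', rfl⟩ := mem_blk.1 hx
            have h2 := h i' hi'
            rw [Fin.lt_def, val_pred, hv, if_neg hi0]
            rw [Fin.le_def] at h2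
            have h3 : ((i'.castSucc : Fin (m + 1)) : ℕ) = i' := rfl
            omega
        by_cases h : i ∈ minSet f
        · rw [if_pos (hmin.2 h), if_pos h, cyc_full,
            Finset.mul_prod_erase univ y (mem_univ i.castSucc)]
        · rw [if_neg (fun h' => h (hmin.1 h')), if_neg h, mul_zero, sub_zero]
    rw [Finset.prod_congr rfl (fun i _ => hdiag i), Finset.prod_ite_mem, univ_inter,
      Finset.prod_const, card_minSet hm f hf]
  · intro i j hij
    change i < j at hij
    have hj0 : (j : ℕ) ≠ 0 := by
      rw [Fin.lt_def] at hij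
      omega
    rw [mul_Tm, if_neg hj0]
    induction i using Fin.lastCases with
    | last => exact absurd hij (not_lt.2 (Fin.le_last j))
    | cast i =>
      rw [Rm_row, Rm_row, if_pos (Or.inl hij.le), if_pos, prod_cyc_succ y hij.ne, sub_self]
      left
      rw [Fin.le_def, val_pred, if_neg hj0]
      rw [Fin.lt_def] at hij
      omega

end Pool.Agent.Q161.EvDet
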