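import Pool.Agent.Q161.EvDet2

/-!
# Determinants of events (MP_02f487_co): summation over the tuples of subsets
-/

namespace Pool.Agent.Q161.EvDet

open Finset Matrix

variable {m r : ℕ} {R : Type*} [CommRing R]

/-! ### Product weights -/

section weights

variable {α : Type*} [Fintype α] [DecidableEq α]

/-- The product weight of a subset. -/
def w1 (y : α → R) (T : Finset α) : R := ∏ l, if l ∈ T then y l else 1 - y l

theorem sum_w1_superset (y : α → R) (U : Finset α) :
    ∑ T : Finset α, w1 y T * (if U ⊆ T then 1 else 0) = ∏ l ∈ U, y l := by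
  have h1 : ∏ l ∈ U, y l = ∏ l : α, (y l + if l ∈ U then 0 else 1 - y l) := by
    rw [← Finset.prod_subset (subset_univ U)]
    · apply Finset.prod_congr rfl
      intro l hl
      rw [if_pos hl, add_zero]
    · intro l _ hl
      rw [if_neg hl]
      ring
  rw [h1, Finset.prod_add, Finset.powerset_univ]
  apply Finset.sum_congr rfl
  intro T _
  by_cases h : U ⊆ T
  · rw [if_pos h, mul_one]
    unfold w1
    rw [← Finset.prod_mul_prod_compl T, compl_eq_univ_sdiff]
    congr 1
    · apply Finset.prod_congr rfl
      intro l hl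
      rw [if_pos hl]
    · apply Finset.prod_congr rfl
      intro l hl
      rw [mem_sdiff] at hl
      rw [if_neg hl.2, if_neg (fun h' => hl.2 (h h'))]
  · rw [if_neg h, mul_zero]
    obtain ⟨l, hl1, hl2⟩ := Finset.not_subset.1 h
    symm
    have hz : ∏ i ∈ univ \ T, (if i ∈ U then (0 : R) else 1 - y i) = 0 :=
      Finset.prod_eq_zero (mem_sdiff.2 ⟨mem_univ l, hl2⟩) (if_pos hl1)
    rw [hz, mul_zero]

theorem sum_w1 (y : α → R) : ∑ T : Finset α, w1 y T = 1 := by
  have := sum_w1_superset y ∅
  simpa using this

theorem sum_w1_proper (y : α → R) :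
    ∑ T : Finset α, w1 y T * (if T ≠ univ then 1 else 0) = 1 - ∏ l, y l := by
  have h1 : ∀ T : Finset α, w1 y T * (if T ≠ univ then 1 else 0) =
      w1 y T - w1 y T * (if (univ : Finset α) ⊆ T then 1 else 0) := by
    intro T
    by_cases h : T = univ
    · rw [if_neg (by simpa using h), if_pos (by rw [h])]
      ring
    · rw [if_pos h, if_neg (fun h' => h (univ_subset_iff.1 h'))]
      ring
  rw [Finset.sum_congr rfl (fun T _ => h1 T), Finset.sum_sub_distrib, sum_w1,
    sum_w1_superset]

theorem sum_w1_mem (y : α → R) (D : Finset α) (a : α) (ha : a ∉ D) :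
    ∑ T : Finset α, w1 y T * (if a ∉ T ∧ D ⊆ T then 1 else 0) =
      (∏ l ∈ D, y l) * (1 - y a) := by
  have h1 : ∀ T : Finset α, w1 y T * (if a ∉ T ∧ D ⊆ T then 1 else 0) =
      w1 y T * (if D ⊆ T then 1 else 0) - w1 y T * (if insert a D ⊆ T then 1 else 0) := by
    intro T
    by_cases hD : D ⊆ T
    · by_cases h : a ∈ T
      · rw [if_neg (fun h' => h'.1 h), if_pos hD, if_pos (insert_subset h hD)]
        ring
      · rw [if_pos ⟨h, hD⟩, if_pos hD, if_neg (fun h' => h (h' (mem_insert_self _ _)))]
        ring
    · rw [if_neg (fun h' => hD h'.2), if_neg hD,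
        if_neg (fun h' => hD ((subset_insert _ _).trans h'))]
      ring
  rw [Finset.sum_congr rfl (fun T _ => h1 T), Finset.sum_sub_distrib, sum_w1_superset,
    sum_w1_superset, Finset.prod_insert ha]
  ring

/-- The product weight of a tuple of subsets. -/
def ww (y : α → R) (S : Fin r → Finset α) : R := ∏ t, w1 y (S t)

theorem sum_ww (y : α → R) (g : Fin r → Finset α → R) :
    ∑ S : Fin r → Finset α, ww y S * ∏ t, g t (S t) = ∏ t, ∑ T : Finset α, w1 y T * g t T := by
  rw [Finset.prod_univ_sum, Fintype.piFinset_univ]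
  apply Finset.sum_congr rfl
  intro S _
  unfold ww
  rw [← Finset.prod_mul_distrib]

end weights

/-! ### The expected determinant -/

theorem det_rows {n : Type*} [Fintype n] [DecidableEq n] (M : Matrix n n R) :
    M.det = ∑ π : Equiv.Perm n, ((Equiv.Perm.sign π : ℤ) : R) * ∏ i, M i (π i) := by
  rw [← Matrix.det_transpose, Matrix.det_apply']
  rfl

open Classical in
/-- The indicator matrix of `M^D`. -/
noncomputable def MDmat (R : Type*) [CommRing R] (S : Fin r → Finset (Fin (m + 1)))
    (f : Fin m → Fin r) (D : Finset (Fin m)) : Matrix (Fin (m + 1)) (Fin (m + 1)) R :=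
  fun i j => Fin.lastCases (motive := fun _ => R) 1 (fun i' =>
    if i' ∈ D then (if insert i'.castSucc (cyc i'.castSucc j) ⊆ S (f i') then 1 else 0)
    else (if cyc i'.castSucc j ⊆ S (f i') then 1 else 0)) i

open Classical in
theorem MDmat_row (S : Fin r → Finset (Fin (m + 1))) (f : Fin m → Fin r) (D : Finset (Fin m))
    (i : Fin m) (j : Fin (m + 1)) : MDmat R S f D i.castSucc j =
      if i ∈ D then (if insert i.castSucc (cyc i.castSucc j) ⊆ S (f i) then 1 else 0)
    else (if cyc i.castSucc j ⊆ S (f i) then 1 else 0) := by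
  unfold MDmat
  simp

theorem MDmat_last (S : Fin r → Finset (Fin (m + 1))) (f : Fin m → Fin r) (D : Finset (Fin m))
    (j : Fin (m + 1)) : MDmat R S f D (Fin.last m) j = 1 := by
  unfold MDmat
  simp

theorem det_MDmat (S : Fin r → Finset (Fin (m + 1))) (f : Fin m → Fin r) (D : Finset (Fin m)) :
    (MDmat R S f D).det =
      (∏ i ∈ D, if i.castSucc ∈ S (f i) then (1 : R) else 0) * (Mb R (red f S) f).det := by
  classical
  rw [det_red]
  have h := Matrix.det_mul_column
    (fun i : Fin (m + 1) => Fin.lastCases (motive := fun _ => R) 1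
      (fun i' => if i' ∈ D then (if i'.castSucc ∈ S (f i') then (1 : R) else 0) else 1) i)
    (Mb R S f)
  have h2 : (∏ i : Fin (m + 1), Fin.lastCases (motive := fun _ => R) 1
      (fun i' => if i' ∈ D then (if i'.castSucc ∈ S (f i') then (1 : R) else 0) else 1) i) =
      ∏ i ∈ D, if i.castSucc ∈ S (f i) then (1 : R) else 0 := by
    rw [Fin.prod_univ_castSucc]
    simp only [Fin.lastCases_castSucc, Fin.lastCases_last, mul_one]
    rw [Finset.prod_ite_mem, univ_inter]
  rw [h2] at h
  rw [← h]
  congr 1
  ext i j
  rw [Matrix.of_apply]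
  induction i using Fin.lastCases with
  | last =>
    rw [MDmat_last, Mb_last]
    simp
  | cast i =>
    rw [MDmat_row, Mb_row]
    simp only [Fin.lastCases_castSucc]
    by_cases hi : i ∈ D
    · rw [if_pos hi, if_pos hi]
      by_cases h1 : i.castSucc ∈ S (f i)
      · rw [if_pos h1, one_mul]
        by_cases h3 : cyc i.castSucc j ⊆ S (f i)
        · rw [if_pos h3, if_pos (insert_subset h1 h3)]
        · rw [if_neg h3, if_neg (fun h' => h3 ((subset_insert _ _).trans h'))]
      · rw [if_neg h1, zero_mul, if_neg (fun h' => h1 (h' (mem_insert_self _ _)))]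
    · rw [if_neg hi, if_neg hi, one_mul]

theorem cyc_disj {B : Finset (Fin (m + 1))} {i i' j j' : Fin (m + 1)} (hi : i ∈ B)
    (hi' : i' ∈ B) (hne : i ≠ i') (h : Disjoint (cyc i j) B) (h' : Disjoint (cyc i' j') B) :
    Disjoint (cyc i j) (cyc i' j') := by
  rw [Finset.disjoint_left] at *
  intro x hx hx'
  have h1 : i' ∉ cyc i j := fun h2 => h h2 hi'
  have h2 : i ∉ cyc i' j' := fun h2 => h' h2 hi
  have hne' : (i : ℕ) ≠ i' := fun h => hne (Fin.ext h)
  have hi2 := i.2
  have hi3 := i'.2
  have hj2 := j.2
  have hj3 := j'.2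
  have hx2 := x.2
  rw [mem_cyc] at *
  unfold dd at *
  split_ifs at * <;> omega

open Classical in
/-- The expectation of one term of the determinant. -/
theorem sum_term (y : Fin (m + 1) → R) (f : Fin m → Fin r) (D : Finset (Fin m))
    (π : Fin (m + 1) → Fin (m + 1)) :
    ∑ S : Fin r → Finset (Fin (m + 1)), ww y S *
      ((∏ i ∈ D, if i.castSucc ∈ S (f i) then (1 : R) else 0) *
        ∏ i, Mb R (red f S) f i (π i)) =
      (∏ i ∈ D, y i.castSucc) * ∏ i, W y f i (π i) := by
  by_cases hd : ∀ i : Fin m, Disjoint (cyc i.castSucc (π i.castSucc)) (blk f (f i))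
  · -- the union of the constraints
    set U : Fin r → Finset (Fin (m + 1)) := fun t =>
      (D.filter (fun i => f i = t)).image Fin.castSucc ∪
        (univ.filter (fun i => f i = t)).biUnion (fun i => cyc i.castSucc (π i.castSucc))
      with hU
    have h1 : ∀ S : Fin r → Finset (Fin (m + 1)),
        ((∏ i ∈ D, if i.castSucc ∈ S (f i) then (1 : R) else 0) *
        ∏ i, Mb R (red f S) f i (π i)) = ∏ t, if U t ⊆ S t then (1 : R) else 0 := by
      intro S
      rw [Fin.prod_univ_castSucc, Mb_last, mul_one]
      by_cases hall : ∀ t, U t ⊆ S t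
      · rw [Finset.prod_eq_one (s := univ) (f := fun t => if U t ⊆ S t then (1 : R) else 0)
          (fun t _ => if_pos (hall t))]
        rw [Finset.prod_eq_one, Finset.prod_eq_one, one_mul]
        · intro i _
          rw [Mb_row, if_pos]
          intro x hx
          unfold red
          rw [mem_sdiff]
          constructor
          · apply hall
            rw [hU]
            simp only [mem_union, mem_biUnion, mem_filter, mem_univ, true_and]
            exact Or.inr ⟨i, rfl, hx⟩
          · intro h
            exact (Finset.disjoint_left.1 (hd i)) hx h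
        · intro i hi
          rw [if_pos]
          apply hall
          rw [hU]
          simp only [mem_union, mem_image, mem_filter]
          exact Or.inl ⟨i, ⟨hi, rfl⟩, rfl⟩
      · push Not at hall
        obtain ⟨t, ht⟩ := hall
        rw [Finset.prod_eq_zero (mem_univ t) (if_neg ht)]
        obtain ⟨x, hx, hxS⟩ := Finset.not_subset.1 ht
        rw [hU] at hx
        simp only [mem_union, mem_biUnion, mem_image, mem_filter, mem_univ, true_and] at hx
        rcases hx with ⟨i, ⟨hi1, hi2⟩, hi3⟩ | ⟨i, hi1, hi2⟩
        · rw [Finset.prod_eq_zero hi1 (if_neg (by rw [hi2, hi3]; exact hxS)), zero_mul]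
        · rw [Finset.prod_eq_zero (mem_univ i) (by
            rw [Mb_row, if_neg]
            intro h
            have h2 := h hi2
            unfold red at h2
            rw [mem_sdiff, hi1] at h2
            exact hxS h2.1), mul_zero]
    rw [Finset.sum_congr rfl (fun S _ => by rw [h1 S])]
    refine (sum_ww y (fun t T => if U t ⊆ T then (1 : R) else 0)).trans ?_
    rw [Finset.prod_congr rfl (fun t _ => sum_w1_superset y (U t))]
    have h3 : ∀ t, ∏ l ∈ U t, y l = (∏ i ∈ D.filter (fun i => f i = t), y i.castSucc) *
        ∏ i ∈ univ.filter (fun i => f i = t), ∏ x ∈ cyc i.castSucc (π i.castSucc), y x := by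
      intro t
      rw [hU]
      simp only
      rw [Finset.prod_union, Finset.prod_image, Finset.prod_biUnion]
      · intro i hi i' hi' hne
        simp only [coe_filter, mem_univ, true_and, Set.mem_ofPred_eq] at hi hi'
        apply cyc_disj (B := blk f t)
        · rw [← hi]
          exact self_mem_blk f i
        · rw [← hi']
          exact self_mem_blk f i'
        · exact fun h => hne (Fin.castSucc_injective _ h)
        · rw [← hi]
          exact hd i
        · rw [← hi']
          exact hd i'
      · intro i _ i' _ h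
        exact Fin.castSucc_injective _ h
      · rw [Finset.disjoint_left]
        intro x hx hx2
        rw [mem_image] at hx
        obtain ⟨i, hi, rfl⟩ := hx
        rw [mem_filter] at hi
        rw [mem_biUnion] at hx2
        obtain ⟨i', hi', hx3⟩ := hx2
        rw [mem_filter] at hi'
        apply (Finset.disjoint_left.1 (hd i')) hx3
        rw [hi'.2, ← hi.2]
        exact self_mem_blk f i
    rw [Finset.prod_congr rfl (fun t _ => h3 t), Finset.prod_mul_distrib,
      Finset.prod_fiberwise, Finset.prod_fiberwise, Fin.prod_univ_castSucc, W_last, mul_one]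
    congr 1
    apply Finset.prod_congr rfl
    intro i _
    rw [W_row, if_pos (hd i)]
  · push Not at hd
    obtain ⟨i, hi⟩ := hd
    rw [Finset.prod_eq_zero (s := univ) (f := fun i => W y f i (π i)) (mem_univ i.castSucc)
      (by rw [W_row, if_neg hi]), mul_zero]
    apply Finset.sum_eq_zero
    intro S _
    rw [Finset.prod_eq_zero (s := univ) (f := fun i => Mb R (red f S) f i (π i))
      (mem_univ i.castSucc), mul_zero, mul_zero]
    rw [Mb_row, if_neg]
    intro h
    rw [Finset.not_disjoint_iff] at hi
    obtain ⟨x, hx1, hx2⟩ := hi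
    have h2 := h hx1
    unfold red at h2
    rw [mem_sdiff] at h2
    exact h2.2 hx2

theorem sum_det (hm : 0 < m) (y : Fin (m + 1) → R) (f : Fin m → Fin r)
    (hf : Function.Surjective f) (D : Finset (Fin m)) :
    ∑ S : Fin r → Finset (Fin (m + 1)), ww y S * (MDmat R S f D).det =
      (∏ i ∈ D, y i.castSucc) * (1 - y (Fin.last m)) * (1 - ∏ x, y x) ^ (r - 1) := by
  classical
  rw [mul_assoc, ← det_W hm y f hf, det_rows (W y f), Finset.mul_sum]
  have h1 : ∀ S : Fin r → Finset (Fin (m + 1)), ww y S * (MDmat R S f D).det =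
      ∑ π : Equiv.Perm (Fin (m + 1)), ((Equiv.Perm.sign π : ℤ) : R) * (ww y S *
      ((∏ i ∈ D, if i.castSucc ∈ S (f i) then (1 : R) else 0) *
        ∏ i, Mb R (red f S) f i (π i))) := by
    intro S
    rw [det_MDmat, det_rows (Mb R (red f S) f), Finset.mul_sum, Finset.mul_sum]
    apply Finset.sum_congr rfl
    intro π _
    ring
  rw [Finset.sum_congr rfl (fun S _ => h1 S), Finset.sum_comm]
  apply Finset.sum_congr rfl
  intro π _
  rw [← Finset.mul_sum, sum_term y f D π]
  ring

open Classical in
/-- The condition on the right-hand side. -/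
def Good (t1 : Fin r) (D : Finset (Fin m)) (S : Fin r → Finset (Fin (m + 1))) : Prop :=
  (∀ t, S t ≠ univ) ∧ Fin.last m ∉ S t1 ∧ ∀ i ∈ D, i.castSucc ∈ S t1

open Classical in
theorem sum_good (y : Fin (m + 1) → R) (t1 : Fin r) (D : Finset (Fin m)) :
    ∑ S : Fin r → Finset (Fin (m + 1)), ww y S * (if Good t1 D S then 1 else 0) =
      (∏ i ∈ D, y i.castSucc) * (1 - y (Fin.last m)) * (1 - ∏ x, y x) ^ (r - 1) := by
  set g : Fin r → Finset (Fin (m + 1)) → R := fun t T =>
    if t = t1 then (if Fin.last m ∉ T ∧ D.image Fin.castSucc ⊆ T then 1 else 0)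
    else (if T ≠ univ then 1 else 0) with hg
  have h1 : ∀ S : Fin r → Finset (Fin (m + 1)),
      (if Good t1 D S then (1 : R) else 0) = ∏ t, g t (S t) := by
    intro S
    by_cases h : Good t1 D S
    · rw [if_pos h]
      symm
      apply Finset.prod_eq_one
      intro t _
      rw [hg]
      simp only
      by_cases ht : t = t1
      · rw [if_pos ht, if_pos]
        rw [ht]
        refine ⟨h.2.1, ?_⟩
        intro x hx
        rw [mem_image] at hx
        obtain ⟨i, hi, rfl⟩ := hx
        exact h.2.2 i hi
      · rw [if_neg ht, if_pos (h.1 t)]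
    · rw [if_neg h]
      symm
      unfold Good at h
      rw [not_and_or] at h
      rcases h with h | h
      · push Not at h
        obtain ⟨t, ht⟩ := h
        apply Finset.prod_eq_zero (mem_univ t)
        rw [hg]
        simp only
        by_cases ht1 : t = t1
        · rw [if_pos ht1, if_neg]
          rintro ⟨h2, _⟩
          apply h2
          rw [ht]
          exact mem_univ _
        · rw [if_neg ht1, if_neg]
          rw [ht]
          simp
      · apply Finset.prod_eq_zero (mem_univ t1)
        rw [hg]
        simp only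
        rw [if_pos trivial, if_neg]
        rintro ⟨h2, h3⟩
        exact h ⟨h2, fun i hi => h3 (mem_image_of_mem _ hi)⟩
  rw [Finset.sum_congr rfl (fun S _ => by rw [h1 S]), sum_ww,
    ← Finset.mul_prod_erase univ _ (mem_univ t1)]
  have h2 : ∑ T : Finset (Fin (m + 1)), w1 y T * g t1 T =
      (∏ i ∈ D, y i.castSucc) * (1 - y (Fin.last m)) := by
    rw [hg]
    simp only
    simp only [if_true]
    have h3 := sum_w1_mem y (D.image Fin.castSucc) (Fin.last m) (by
      rw [mem_image]
      rintro ⟨i, _, hi⟩
      exact (Fin.castSucc_lt_last i).ne hi)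
    rw [Finset.prod_image (fun i _ i' _ h => Fin.castSucc_injective _ h)] at h3
    rw [← h3]
  have h3 : ∀ t ∈ univ.erase t1, ∑ T : Finset (Fin (m + 1)), w1 y T * g t T =
      1 - ∏ x, y x := by
    intro t ht
    rw [mem_erase] at ht
    rw [← sum_w1_proper y]
    apply Finset.sum_congr rfl
    intro T _
    rw [hg]
    simp only
    rw [if_neg ht.1]
  rw [h2, Finset.prod_congr rfl h3, Finset.prod_const, card_erase_of_mem (mem_univ _),
    card_univ, Fintype.card_fin]

end Pool.Agent.Q161.EvDet
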