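import Mathlib

/-!
# Cocycles on reduced words (MP_8f97c4_co)

An abstract version of Tits' lemma on self-homotopies of reduced words.
-/

namespace Pool.Agent.Q161.Flip

/-- States with letters that can be read (`desc`), as for reduced words in a Coxeter group whose
Coxeter numbers are `2` and `3` (`m3 s t` means `m(s,t) = 3`), without triples of pairwise Coxeter
number `3`. -/
structure Sys (S L : Type*) where
  desc : S → L → Prop
  act : S → L → S
  len : S → ℕ
  m3 : L → L → Prop
  m3_symm : ∀ {s t}, m3 s t → m3 t s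
  m3_ne : ∀ {s t}, m3 s t → s ≠ t
  m3_tri : ∀ {s t r}, m3 s t → m3 t r → m3 s r → False
  len_act : ∀ {T s}, desc T s → len (act T s) + 1 = len T
  exists_desc : ∀ T, len T ≠ 0 → ∃ s, desc T s
  two : ∀ {T s t}, s ≠ t → ¬ m3 s t → desc T s → desc T t →
    desc (act T s) t ∧ act (act T s) t = act (act T t) s
  three : ∀ {T s t}, m3 s t → desc T s → desc T t →
    desc (act T s) t ∧ desc (act (act T s) t) s ∧
      act (act (act T s) t) s = act (act (act T t) s) t
  two' : ∀ {T s t}, s ≠ t → ¬ m3 s t → desc T s → desc (act T s) t → desc T t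
  three' : ∀ {T s t}, m3 s t → desc T s → desc (act T s) t → desc (act (act T s) t) s → desc T t

variable {S L : Type*} (Y : Sys S L)

namespace Sys

/-- The complete legal words from the state `T`. -/
def Leg : S → List L → Prop
  | T, [] => Y.len T = 0
  | T, s :: w => Y.desc T s ∧ Leg (Y.act T s) w

/-- The elementary moves. -/
inductive El : List L → List L → Prop
  | two {s t : L} (h : s ≠ t) (h3 : ¬ Y.m3 s t) : El [s, t] [t, s]
  | three {s t : L} (h : Y.m3 s t) : El [s, t, s] [t, s, t]

/-- The moves. -/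
def Mv (w w' : List L) : Prop := ∃ x A B y, Y.El A B ∧ w = x ++ A ++ y ∧ w' = x ++ B ++ y

theorem El.symm {A B : List L} (h : Y.El A B) : Y.El B A := by
  cases h with
  | two h h3 => exact El.two h.symm (fun h' => h3 (Y.m3_symm h'))
  | three h => exact El.three (Y.m3_symm h)

theorem Mv.symm {w w' : List L} (h : Y.Mv w w') : Y.Mv w' w := by
  obtain ⟨x, A, B, y, h1, h2, h3⟩ := h
  exact ⟨x, B, A, y, El.symm Y h1, h3, h2⟩

theorem Mv.cons {w w' : List L} (s : L) (h : Y.Mv w w') : Y.Mv (s :: w) (s :: w') := by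
  obtain ⟨x, A, B, y, h1, rfl, rfl⟩ := h
  exact ⟨s :: x, A, B, y, h1, rfl, rfl⟩

theorem leg_El {A B : List L} (h : Y.El A B) {T : S} {y : List L} (hl : Y.Leg T (A ++ y)) :
    Y.Leg T (B ++ y) := by
  cases h with
  | @two s t h h3 =>
    obtain ⟨h1, h2, h4⟩ := hl
    have h5 := Y.two' h h3 h1 h2
    obtain ⟨h6, h7⟩ := Y.two h h3 h1 h5
    obtain ⟨h8, h9⟩ := Y.two h.symm (fun h' => h3 (Y.m3_symm h')) h5 h1
    exact ⟨h5, h8, by rw [h9]; exact h4⟩
  | @three s t h =>
    obtain ⟨h1, h2, h3, h4⟩ := hl
    have h5 := Y.three' h h1 h2 h3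
    obtain ⟨h6, h7, h8⟩ := Y.three h h1 h5
    obtain ⟨h9, h10, h11⟩ := Y.three (Y.m3_symm h) h5 h1
    exact ⟨h5, h9, h10, by rw [h11]; exact h4⟩

theorem leg_Mv {w w' : List L} (h : Y.Mv w w') : ∀ {T : S}, Y.Leg T w → Y.Leg T w' := by
  obtain ⟨x, A, B, y, h1, rfl, rfl⟩ := h
  induction x with
  | nil =>
    intro T hl
    exact Y.leg_El h1 hl
  | cons s x ih =>
    intro T hl
    exact ⟨hl.1, ih hl.2⟩

theorem exists_leg : ∀ (n : ℕ) (T : S), Y.len T = n → ∃ w, Y.Leg T w := by
  intro n
  induction n with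
  | zero => intro T hT; exact ⟨[], hT⟩
  | succ n ih =>
    intro T hT
    obtain ⟨s, hs⟩ := Y.exists_desc T (by omega)
    have := Y.len_act hs
    obtain ⟨w, hw⟩ := ih (Y.act T s) (by omega)
    exact ⟨s :: w, hs, hw⟩

open Classical in
/-- The longest word of the rank two residue starting with `s`. -/
noncomputable def long (s t : L) : List L := if Y.m3 s t then [s, t, s] else [s, t]

open Classical in
/-- The longest word without its first letter. -/
noncomputable def ltail (s t : L) : List L := if Y.m3 s t then [t, s] else [t]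

theorem long_eq (s t : L) : Y.long s t = s :: Y.ltail s t := by
  unfold long ltail
  split_ifs <;> rfl

theorem El_long {s t : L} (h : s ≠ t) : Y.El (Y.long s t) (Y.long t s) := by
  unfold long
  by_cases h3 : Y.m3 s t
  · rw [if_pos h3, if_pos (Y.m3_symm h3)]
    exact El.three h3
  · rw [if_neg h3, if_neg (fun h' => h3 (Y.m3_symm h'))]
    exact El.two h h3

theorem leg_long {T : S} {s t : L} (h : s ≠ t) (hs : Y.desc T s) (ht : Y.desc T t) :
    ∃ T', (∀ u, Y.Leg T' u ↔ Y.Leg T (Y.long s t ++ u)) ∧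
      (∀ u, Y.Leg T' u ↔ Y.Leg T (Y.long t s ++ u)) ∧ Y.len T' < Y.len T := by
  unfold long
  by_cases h3 : Y.m3 s t
  · rw [if_pos h3, if_pos (Y.m3_symm h3)]
    obtain ⟨h6, h7, h8⟩ := Y.three h3 hs ht
    obtain ⟨h9, h10, h11⟩ := Y.three (Y.m3_symm h3) ht hs
    have e1 := Y.len_act hs
    have e2 := Y.len_act h6
    have e3 := Y.len_act h7
    refine ⟨Y.act (Y.act (Y.act T s) t) s, fun u => ⟨fun hu => ⟨hs, h6, h7, hu⟩,
      fun hu => hu.2.2.2⟩, fun u => ⟨fun hu => ⟨ht, h9, h10, by rw [h11]; exact hu⟩,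
      fun hu => by have := hu.2.2.2; rwa [h11] at this⟩, by omega⟩
  · rw [if_neg h3, if_neg (fun h' => h3 (Y.m3_symm h'))]
    obtain ⟨h6, h7⟩ := Y.two h h3 hs ht
    obtain ⟨h8, h9⟩ := Y.two h.symm (fun h' => h3 (Y.m3_symm h')) ht hs
    have e1 := Y.len_act hs
    have e2 := Y.len_act h6
    refine ⟨Y.act (Y.act T s) t, fun u => ⟨fun hu => ⟨hs, h6, hu⟩, fun hu => hu.2.2⟩,
      fun u => ⟨fun hu => ⟨ht, h8, by rw [h9]; exact hu⟩,
      fun hu => by have := hu.2.2; rwa [h9] at this⟩, by omega⟩

/-- Two complete legal words from the same state are joined by moves. -/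
theorem connected : ∀ (n : ℕ) (T : S), Y.len T = n → ∀ w w', Y.Leg T w → Y.Leg T w' →
    Relation.ReflTransGen Y.Mv w w' := by
  intro n
  induction n using Nat.strong_induction_on with
  | _ n ih =>
    intro T hT w w' hw hw'
    have lift : ∀ (s : L) {u u' : List L}, Relation.ReflTransGen Y.Mv u u' →
        Relation.ReflTransGen Y.Mv (s :: u) (s :: u') := by
      intro s u u' h
      induction h with
      | refl => exact Relation.ReflTransGen.refl
      | tail _ h2 ih => exact ih.tail (Mv.cons Y s h2)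
    cases w with
    | nil =>
      cases w' with
      | nil => exact Relation.ReflTransGen.refl
      | cons s w' =>
        have h1 : Y.len T = 0 := hw
        have := Y.len_act hw'.1
        omega
    | cons s w =>
      cases w' with
      | nil =>
        have h1 : Y.len T = 0 := hw'
        have := Y.len_act hw.1
        omega
      | cons t w' =>
        have es := Y.len_act hw.1
        have et := Y.len_act hw'.1
        by_cases hst : s = t
        · subst hst
          exact lift s (ih _ (by omega) _ rfl w w' hw.2 hw'.2)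
        · obtain ⟨T', h1, h2, h3⟩ := Y.leg_long hst hw.1 hw'.1
          obtain ⟨u, hu⟩ := Y.exists_leg _ T' rfl
          have a1 := (h1 u).1 hu
          have a2 := (h2 u).1 hu
          rw [long_eq, List.cons_append] at a1 a2
          have b1 := lift s (ih _ (by omega) _ rfl w _ hw.2 a1.2)
          have b2 := lift t (ih _ (by omega) _ rfl _ w' a2.2 hw'.2)
          refine b1.trans (Relation.ReflTransGen.head ?_ b2)
          refine ⟨[], Y.long s t, Y.long t s, u, Y.El_long hst, ?_, ?_⟩
          · rw [long_eq]; rfl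
          · rw [long_eq]; rfl

end Sys

end Pool.Agent.Q161.Flip
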