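import Pool.Agent.Q161.FlipGraph

/-!
# The cocycle conditions for double wiring diagrams (MP_8f97c4_co)
-/

namespace Pool.Agent.Q161.Flip

open SimpleGraph

variable {n : ℕ} {Γ : Type*} [Group Γ]

/-- The hypotheses on `θ`. -/
structure Good (n : ℕ) (θ : Vert n → Vert n → Γ) : Prop where
  off : ∀ a b, ¬ (flipGraph n).Adj a b → θ a b = 1
  inv : ∀ a b, θ a b * θ b a = 1
  cell : ∀ v (c : (flipGraph n).Walk v v), IsCell n v c → wprod θ c = 1

variable {θ : Vert n → Vert n → Γ}

theorem Good.self (h : Good n θ) (a : Vert n) : θ a a = 1 := h.off a a (fun h' => h'.ne rfl)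

theorem isCycle_of {V : Type*} {G : SimpleGraph V} {u v : V} (h : G.Adj u v) (p : G.Walk v u)
    (hp : p.support.Nodup) (hl : 2 ≤ p.length) : (Walk.cons h p).IsCycle := by
  rw [Walk.isCycle_iff_isPath_tail_and_le_length]
  refine ⟨?_, by rw [Walk.length_cons]; omega⟩
  simp only [Walk.getVert_cons_succ, Walk.tail_cons, Walk.isPath_copy]
  exact (Walk.isPath_def p).2 hp

theorem Good.cell4 (h : Good n θ) {A B C D : Vert n} (h1 : (flipGraph n).Adj A B)
    (h2 : (flipGraph n).Adj B C) (h3 : (flipGraph n).Adj C D) (h4 : (flipGraph n).Adj D A)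
    (hAC : A ≠ C) (hBD : B ≠ D) : θ A B * θ B C * θ C D * θ D A = 1 := by
  have hc : IsCell n A (Walk.cons h1 (Walk.cons h2 (Walk.cons h3 (Walk.cons h4 Walk.nil)))) := by
    refine ⟨isCycle_of _ _ ?_ (by simp), Or.inl rfl⟩
    simp [h2.ne, h3.ne, h4.ne, hBD, h1.ne', hAC.symm]
  have := h.cell A _ hc
  simpa [wprod, mul_assoc] using this

theorem nodup_rot1 {α : Type*} {a : α} {l : List α} (h : (a :: l).Nodup) : (l ++ [a]).Nodup := by
  rw [List.nodup_append_comm]
  exact h

theorem Good.cell5 (h : Good n θ) {A B C D E : Vert n} (h1 : (flipGraph n).Adj A B)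
    (h2 : (flipGraph n).Adj B C) (h3 : (flipGraph n).Adj C D) (h4 : (flipGraph n).Adj D E)
    (h5 : (flipGraph n).Adj E A) (hn : [A, B, C, D, E].Nodup) :
    θ A B * θ B C * θ C D * θ D E * θ E A = 1 := by
  have hc : IsCell n A (Walk.cons h1 (Walk.cons h2 (Walk.cons h3 (Walk.cons h4
      (Walk.cons h5 Walk.nil))))) := by
    exact ⟨isCycle_of _ _ (nodup_rot1 hn) (by simp), Or.inr (Or.inl rfl)⟩
  have := h.cell A _ hc
  simpa [wprod, mul_assoc] using this

theorem Good.cell8 (h : Good n θ) {A B C D E F G H : Vert n} {c : Bool} (h1 : CoxAdj n c A B)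
    (h2 : CoxAdj n c B C) (h3 : CoxAdj n c C D) (h4 : CoxAdj n c D E) (h5 : CoxAdj n c E F)
    (h6 : CoxAdj n c F G) (h7 : CoxAdj n c G H) (h8 : CoxAdj n c H A)
    (hn : [A, B, C, D, E, F, G, H].Nodup) :
    θ A B * θ B C * θ C D * θ D E * θ E F * θ F G * θ G H * θ H A = 1 := by
  have a1 : (flipGraph n).Adj A B := Or.inl ⟨c, h1⟩
  have a2 : (flipGraph n).Adj B C := Or.inl ⟨c, h2⟩
  have a3 : (flipGraph n).Adj C D := Or.inl ⟨c, h3⟩
  have a4 : (flipGraph n).Adj D E := Or.inl ⟨c, h4⟩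
  have a5 : (flipGraph n).Adj E F := Or.inl ⟨c, h5⟩
  have a6 : (flipGraph n).Adj F G := Or.inl ⟨c, h6⟩
  have a7 : (flipGraph n).Adj G H := Or.inl ⟨c, h7⟩
  have a8 : (flipGraph n).Adj H A := Or.inl ⟨c, h8⟩
  have hc : IsCell n A (Walk.cons a1 (Walk.cons a2 (Walk.cons a3 (Walk.cons a4
      (Walk.cons a5 (Walk.cons a6 (Walk.cons a7 (Walk.cons a8 Walk.nil)))))))) := by
    refine ⟨?_, Or.inr (Or.inr ⟨rfl, c, ?_⟩)⟩
    · exact isCycle_of _ _ (nodup_rot1 hn) (by simp)
    · intro d hd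
      simp only [Walk.darts_cons, Walk.darts_nil, List.mem_cons, List.not_mem_nil,
        or_false] at hd
      rcases hd with rfl | rfl | rfl | rfl | rfl | rfl | rfl | rfl
      · exact h1
      · exact h2
      · exact h3
      · exact h4
      · exact h5
      · exact h6
      · exact h7
      · exact h8
  have := h.cell A _ hc
  simpa [wprod, mul_assoc] using this

theorem Good.sq (h : Good n θ) {x A A' y B B' z : List Letter} (hA : (sys n).El A A')
    (hB : (sys n).El B B') (hw : IsDWD n (x ++ (A ++ (y ++ B ++ z)))) :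
    θ (cl n (x ++ (A ++ (y ++ B ++ z)))) (cl n (x ++ (A' ++ (y ++ B ++ z)))) *
    θ (cl n (x ++ (A' ++ (y ++ B ++ z)))) (cl n (x ++ (A' ++ (y ++ B' ++ z)))) *
    θ (cl n (x ++ (A' ++ (y ++ B' ++ z)))) (cl n (x ++ (A ++ (y ++ B' ++ z)))) *
    θ (cl n (x ++ (A ++ (y ++ B' ++ z)))) (cl n (x ++ (A ++ (y ++ B ++ z)))) = 1 := by
  have w10 : IsDWD n (x ++ (A' ++ (y ++ B ++ z))) := isDWD_el hA hw
  have e1 : ∀ C D : List Letter, x ++ (C ++ (y ++ D ++ z)) = (x ++ C ++ y) ++ (D ++ z) := by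
    intro C D; simp
  have w01 : IsDWD n (x ++ (A ++ (y ++ B' ++ z))) := by
    rw [e1] at hw ⊢; exact isDWD_el hB hw
  have w11 : IsDWD n (x ++ (A' ++ (y ++ B' ++ z))) := isDWD_el hA w01
  rcases el_cases (n := n) hA with cA | cA
  · have f1 := cA _ _ hw
    have f2 := cA _ _ w01
    rw [← f1, ← f2, h.self, h.self, one_mul, mul_one]
    exact h.inv _ _
  · rcases el_cases (n := n) hB with cB | cB
    · have f1 := cB (x ++ A ++ y) z (by rw [← e1]; exact hw)
      have f2 := cB (x ++ A' ++ y) z (by rw [← e1]; exact w10)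
      rw [← e1, ← e1] at f1 f2
      rw [← f1, ← f2, h.self, h.self, mul_one, mul_one]
      exact h.inv _ _
    · have a1 := cA _ _ hw
      have a2 := cA _ _ w01
      have b1 := cB (x ++ A ++ y) z (by rw [← e1]; exact hw)
      have b2 := cB (x ++ A' ++ y) z (by rw [← e1]; exact w10)
      rw [← e1, ← e1] at b1 b2
      generalize cl n (x ++ (A ++ (y ++ B ++ z))) = P at *
      generalize cl n (x ++ (A' ++ (y ++ B ++ z))) = Q at *
      generalize cl n (x ++ (A' ++ (y ++ B' ++ z))) = R at *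
      generalize cl n (x ++ (A ++ (y ++ B' ++ z))) = S at *
      by_cases hPR : P = R
      · subst hPR
        rw [h.inv P Q, one_mul]
        exact h.inv _ _
      · by_cases hQS : Q = S
        · subst hQS
          have e : θ P Q * θ Q R * θ R Q * θ Q P = θ P Q * (θ Q R * θ R Q) * θ Q P := by group
          rw [e, h.inv Q R, mul_one]
          exact h.inv _ _
        · exact h.cell4 a1 b2 a2.symm b1.symm hPR hQS

theorem Good.r222 (h : Good n θ) {p u : List Letter} {s t r : Letter} (h1 : s ≠ t) (h2 : t ≠ r)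
    (h3 : r ≠ s) (m1 : ¬ adj3 s t) (m2 : ¬ adj3 t r) (m3 : ¬ adj3 r s)
    (hw : IsDWD n (p ++ s :: t :: r :: u)) :
    θ (cl n (p ++ s :: t :: r :: u)) (cl n (p ++ t :: s :: r :: u)) *
    θ (cl n (p ++ t :: s :: r :: u)) (cl n (p ++ t :: r :: s :: u)) *
    θ (cl n (p ++ t :: r :: s :: u)) (cl n (p ++ r :: t :: s :: u)) *
    θ (cl n (p ++ r :: t :: s :: u)) (cl n (p ++ r :: s :: t :: u)) *
    θ (cl n (p ++ r :: s :: t :: u)) (cl n (p ++ s :: r :: t :: u)) *
    θ (cl n (p ++ s :: r :: t :: u)) (cl n (p ++ s :: t :: r :: u)) = 1 := by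
  have m3' : ¬ adj3 s r := fun h' => m3 ⟨h'.1.symm, h'.2.symm⟩
  have m1' : ¬ adj3 t s := fun h' => m1 ⟨h'.1.symm, h'.2.symm⟩
  have w2 : IsDWD n (p ++ t :: s :: r :: u) := isDWD_two h1 m1 p (r :: u) rfl rfl hw
  have w3 : IsDWD n (p ++ t :: r :: s :: u) :=
    isDWD_two h3.symm m3' (p ++ [t]) u (by simp) (by simp) w2
  have w4 : IsDWD n (p ++ r :: t :: s :: u) := isDWD_two h2 m2 p (s :: u) rfl rfl w3
  have w5 : IsDWD n (p ++ r :: s :: t :: u) :=
    isDWD_two h1.symm m1' (p ++ [r]) u (by simp) (by simp) w4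
  have w6 : IsDWD n (p ++ s :: r :: t :: u) := isDWD_two h3 m3 p (t :: u) rfl rfl w5
  -- commutations
  have c12 : Comm s t → cl n (p ++ s :: t :: r :: u) = cl n (p ++ t :: s :: r :: u) :=
    fun hc => (step_comm hc p (r :: u) rfl rfl hw).2
  have c23 : Comm r s → cl n (p ++ t :: s :: r :: u) = cl n (p ++ t :: r :: s :: u) :=
    fun hc => (step_comm (comm_symm hc) (p ++ [t]) u (by simp) (by simp) w2).2
  have c34 : Comm t r → cl n (p ++ t :: r :: s :: u) = cl n (p ++ r :: t :: s :: u) :=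
    fun hc => (step_comm hc p (s :: u) rfl rfl w3).2
  have c45 : Comm s t → cl n (p ++ r :: t :: s :: u) = cl n (p ++ r :: s :: t :: u) :=
    fun hc => (step_comm (comm_symm hc) (p ++ [r]) u (by simp) (by simp) w4).2
  have c56 : Comm r s → cl n (p ++ r :: s :: t :: u) = cl n (p ++ s :: r :: t :: u) :=
    fun hc => (step_comm hc p (t :: u) rfl rfl w5).2
  have c61 : Comm t r → cl n (p ++ s :: r :: t :: u) = cl n (p ++ s :: t :: r :: u) :=
    fun hc => (step_comm (comm_symm hc) (p ++ [s]) u (by simp) (by simp) w6).2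
  generalize cl n (p ++ s :: t :: r :: u) = K1 at *
  generalize cl n (p ++ t :: s :: r :: u) = K2 at *
  generalize cl n (p ++ t :: r :: s :: u) = K3 at *
  generalize cl n (p ++ r :: t :: s :: u) = K4 at *
  generalize cl n (p ++ r :: s :: t :: u) = K5 at *
  generalize cl n (p ++ s :: r :: t :: u) = K6 at *
  -- at most one mixed pair
  have hexcl : ∀ {x y z : Letter}, Mixed x y → Mixed x z → y ≠ z → False := by
    rintro ⟨i, c⟩ ⟨j, d⟩ ⟨k, e⟩ ⟨h1, h2⟩ ⟨h3, h4⟩ h5
    simp only at h1 h2 h3 h4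
    subst h1 h3
    apply h5
    cases c <;> cases d <;> cases e <;> simp_all
  rcases comm_or_mixed h1 m1 with q1 | q1
  · rcases comm_or_mixed h2 m2 with q2 | q2
    · rcases comm_or_mixed h3 m3 with q3 | q3
      · have f1 := c12 q1; have f2 := c23 q3; have f3 := c34 q2
        have f4 := c45 q1; have f5 := c56 q3
        subst f1 f2 f3 f4 f5
        simp [h.self]
      · have f1 := c12 q1; have f3 := c34 q2; have f4 := c45 q1; have f6 := c61 q2
        subst f1 f3 f4 f6
        simp [h.self, h.inv]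
    · have q3 : Comm r s := by
        rcases comm_or_mixed h3 m3 with q3 | q3
        · exact q3
        · exact (hexcl q2.symm q3 h1.symm).elim
      have f1 := c12 q1; have f2 := c23 q3; have f4 := c45 q1; have f5 := c56 q3
      subst f1 f2 f4 f5
      simp [h.self, h.inv]
  · have q2 : Comm t r := by
      rcases comm_or_mixed h2 m2 with q2 | q2
      · exact q2
      · exact (hexcl q1.symm q2 h3.symm).elim
    have q3 : Comm r s := by
      rcases comm_or_mixed h3 m3 with q3 | q3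
      · exact q3
      · exact (hexcl q1 q3.symm h2).elim
    have f2 := c23 q3; have f3 := c34 q2; have f5 := c56 q3; have f6 := c61 q2
    subst f2 f3 f5 f6
    simp [h.self, h.inv]

theorem nodup_cl {a b : Letter} (hab : ¬ Comm a b) (p u : List Letter) (L : List (List Letter))
    (hL : ∀ X ∈ L, IsDWD n (p ++ (X ++ u))) (h : (L.map (proj a b)).Nodup) :
    (L.map (fun X => cl n (p ++ (X ++ u)))).Nodup := by
  apply List.Nodup.of_map (projV hab)
  rw [List.map_map]
  have e : L.map (projV hab ∘ fun X => cl n (p ++ (X ++ u))) =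
      (L.map (proj a b)).map (fun Y => proj a b p ++ (Y ++ proj a b u)) := by
    rw [List.map_map]
    refine List.map_congr_left (fun X hX => ?_)
    show projV hab (cl n (p ++ (X ++ u))) = proj a b p ++ (proj a b X ++ proj a b u)
    rw [cl_of (hL X hX), projV_cls, proj_append, proj_append]
  rw [e]
  refine h.map (fun Y Y' hY => ?_)
  exact List.append_cancel_right (List.append_cancel_left hY)

theorem mixed_excl {x y z : Letter} (h : Mixed x y) (h' : Mixed x z) (hne : y ≠ z) : False := by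
  obtain ⟨i, c⟩ := x
  obtain ⟨j, d⟩ := y
  obtain ⟨k, e⟩ := z
  obtain ⟨h1, h2⟩ := h
  obtain ⟨h3, h4⟩ := h'
  simp only at h1 h2 h3 h4
  subst h1 h3
  apply hne
  cases c <;> cases d <;> cases e <;> simp_all

theorem Good.r322 (h : Good n θ) {p u : List Letter} {s t r : Letter} (m1 : adj3 s t)
    (h2 : t ≠ r) (h3 : r ≠ s) (m2 : ¬ adj3 t r) (m3 : ¬ adj3 r s)
    (hw : IsDWD n (p ++ s :: t :: s :: r :: u)) :
    θ (cl n (p ++ s :: t :: s :: r :: u)) (cl n (p ++ t :: s :: t :: r :: u)) *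
    θ (cl n (p ++ t :: s :: t :: r :: u)) (cl n (p ++ t :: s :: r :: t :: u)) *
    θ (cl n (p ++ t :: s :: r :: t :: u)) (cl n (p ++ t :: r :: s :: t :: u)) *
    θ (cl n (p ++ t :: r :: s :: t :: u)) (cl n (p ++ r :: t :: s :: t :: u)) *
    θ (cl n (p ++ r :: t :: s :: t :: u)) (cl n (p ++ r :: s :: t :: s :: u)) *
    θ (cl n (p ++ r :: s :: t :: s :: u)) (cl n (p ++ s :: r :: t :: s :: u)) *
    θ (cl n (p ++ s :: r :: t :: s :: u)) (cl n (p ++ s :: t :: r :: s :: u)) *
    θ (cl n (p ++ s :: t :: r :: s :: u)) (cl n (p ++ s :: t :: s :: r :: u)) = 1 := by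
  have h1 : s ≠ t := (sys n).m3_ne m1
  have m1' : adj3 t s := ⟨m1.1.symm, m1.2.symm⟩
  have m2' : ¬ adj3 r t := fun h' => m2 ⟨h'.1.symm, h'.2.symm⟩
  have m3' : ¬ adj3 s r := fun h' => m3 ⟨h'.1.symm, h'.2.symm⟩
  obtain ⟨w2, x12⟩ := step_cox m1 (w' := p ++ t :: s :: t :: r :: u) p (r :: u) rfl rfl hw
  have w3 : IsDWD n (p ++ t :: s :: r :: t :: u) :=
    isDWD_two h2 m2 (p ++ [t, s]) u (by simp) (by simp) w2
  have w4 : IsDWD n (p ++ t :: r :: s :: t :: u) :=
    isDWD_two h3.symm m3' (p ++ [t]) (t :: u) (by simp) (by simp) w3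
  have w5 : IsDWD n (p ++ r :: t :: s :: t :: u) :=
    isDWD_two h2 m2 p (s :: t :: u) rfl rfl w4
  obtain ⟨w6, x56⟩ := step_cox m1' (w' := p ++ r :: s :: t :: s :: u) (p ++ [r]) u
    (by simp) (by simp) w5
  have w7 : IsDWD n (p ++ s :: r :: t :: s :: u) :=
    isDWD_two h3 m3 p (t :: s :: u) rfl rfl w6
  have w8 : IsDWD n (p ++ s :: t :: r :: s :: u) :=
    isDWD_two h2.symm m2' (p ++ [s]) (s :: u) (by simp) (by simp) w7
  -- commutations
  have c23 : Comm t r → cl n (p ++ t :: s :: t :: r :: u) = cl n (p ++ t :: s :: r :: t :: u) :=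
    fun hc => (step_comm hc (p ++ [t, s]) u (by simp) (by simp) w2).2
  have c34 : Comm r s → cl n (p ++ t :: s :: r :: t :: u) = cl n (p ++ t :: r :: s :: t :: u) :=
    fun hc => (step_comm (comm_symm hc) (p ++ [t]) (t :: u) (by simp) (by simp) w3).2
  have c45 : Comm t r → cl n (p ++ t :: r :: s :: t :: u) = cl n (p ++ r :: t :: s :: t :: u) :=
    fun hc => (step_comm hc p (s :: t :: u) rfl rfl w4).2
  have c67 : Comm r s → cl n (p ++ r :: s :: t :: s :: u) = cl n (p ++ s :: r :: t :: s :: u) :=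
    fun hc => (step_comm hc p (t :: s :: u) rfl rfl w6).2
  have c78 : Comm t r → cl n (p ++ s :: r :: t :: s :: u) = cl n (p ++ s :: t :: r :: s :: u) :=
    fun hc => (step_comm (comm_symm hc) (p ++ [s]) (s :: u) (by simp) (by simp) w7).2
  have c81 : Comm r s → cl n (p ++ s :: t :: r :: s :: u) = cl n (p ++ s :: t :: s :: r :: u) :=
    fun hc => (step_comm hc (p ++ [s, t]) u (by simp) (by simp) w8).2
  have hdist : ∀ {a b : Letter}, ¬ Comm a b → ∀ L : List (List Letter),
      (∀ X ∈ L, IsDWD n (p ++ (X ++ u))) → (L.map (proj a b)).Nodup →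
      (L.map (fun X => cl n (p ++ (X ++ u)))).Nodup := fun hab L => nodup_cl hab p u L
  rcases comm_or_mixed h2 m2 with q2 | q2
  · rcases comm_or_mixed h3 m3 with q3 | q3
    · have f1 := c23 q2; have f2 := c34 q3; have f3 := c45 q2
      have f4 := c67 q3; have f5 := c78 q2; have f6 := c81 q3
      clear hdist c23 c34 c45 c67 c78 c81
      generalize cl n (p ++ s :: t :: s :: r :: u) = K1 at *
      generalize cl n (p ++ t :: s :: t :: r :: u) = K2 at *
      generalize cl n (p ++ t :: s :: r :: t :: u) = K3 at *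
      generalize cl n (p ++ t :: r :: s :: t :: u) = K4 at *
      generalize cl n (p ++ r :: t :: s :: t :: u) = K5 at *
      generalize cl n (p ++ r :: s :: t :: s :: u) = K6 at *
      generalize cl n (p ++ s :: r :: t :: s :: u) = K7 at *
      generalize cl n (p ++ s :: t :: r :: s :: u) = K8 at *
      subst f1 f2 f3 f4 f5 f6
      simp [h.self, h.inv]
    · have f1 := c23 q2; have f3 := c45 q2; have f5 := c78 q2
      have x34 := (step_mix q3.symm (w' := p ++ t :: r :: s :: t :: u) (p ++ [t]) (t :: u)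
        (by simp) (by simp) w3).2
      have x67 := (step_mix q3 (w' := p ++ s :: r :: t :: s :: u) p (t :: s :: u) rfl rfl w6).2
      have x81 := (step_mix q3 (w' := p ++ s :: t :: s :: r :: u) (p ++ [s, t]) u
        (by simp) (by simp) w8).2
      have hn := hdist (mixed_not_comm q3.symm)
        [[s, t, s, r], [t, s, t, r], [t, r, s, t], [r, s, t, s], [s, r, t, s]]
        (by simpa using ⟨hw, w2, w4, w6, w7⟩)
        (by simp [proj, h1.symm, h2, h3, h3.symm])
      change [cl n (p ++ s :: t :: s :: r :: u), cl n (p ++ t :: s :: t :: r :: u),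
        cl n (p ++ t :: r :: s :: t :: u), cl n (p ++ r :: s :: t :: s :: u),
        cl n (p ++ s :: r :: t :: s :: u)].Nodup at hn
      clear hdist c23 c34 c45 c67 c78 c81
      generalize cl n (p ++ s :: t :: s :: r :: u) = K1 at *
      generalize cl n (p ++ t :: s :: t :: r :: u) = K2 at *
      generalize cl n (p ++ t :: s :: r :: t :: u) = K3 at *
      generalize cl n (p ++ t :: r :: s :: t :: u) = K4 at *
      generalize cl n (p ++ r :: t :: s :: t :: u) = K5 at *
      generalize cl n (p ++ r :: s :: t :: s :: u) = K6 at *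
      generalize cl n (p ++ s :: r :: t :: s :: u) = K7 at *
      generalize cl n (p ++ s :: t :: r :: s :: u) = K8 at *
      subst f1 f3 f5
      rw [h.self, h.self, h.self, mul_one, mul_one, mul_one]
      exact h.cell5 (Or.inl ⟨_, x12⟩) (Or.inr x34) (Or.inl ⟨_, x56⟩) (Or.inr x67) (Or.inr x81) hn
  · have q3 : Comm r s := by
      rcases comm_or_mixed h3 m3 with q3 | q3
      · exact q3
      · exact (mixed_excl q2.symm q3 h1.symm).elim
    have f2 := c34 q3; have f4 := c67 q3; have f6 := c81 q3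
    have x23 := (step_mix q2 (w' := p ++ t :: s :: r :: t :: u) (p ++ [t, s]) u
      (by simp) (by simp) w2).2
    have x45 := (step_mix q2 (w' := p ++ r :: t :: s :: t :: u) p (s :: t :: u) rfl rfl w4).2
    have x78 := (step_mix q2.symm (w' := p ++ s :: t :: r :: s :: u) (p ++ [s]) (s :: u)
      (by simp) (by simp) w7).2
    have hn := hdist (mixed_not_comm q2)
      [[s, t, s, r], [t, s, t, r], [t, s, r, t], [r, t, s, t], [r, s, t, s]]
      (by simpa using ⟨hw, w2, w3, w5, w6⟩)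
      (by simp [proj, h1, h2, h2.symm, h3.symm])
    change [cl n (p ++ s :: t :: s :: r :: u), cl n (p ++ t :: s :: t :: r :: u),
      cl n (p ++ t :: s :: r :: t :: u), cl n (p ++ r :: t :: s :: t :: u),
      cl n (p ++ r :: s :: t :: s :: u)].Nodup at hn
    clear hdist c23 c34 c45 c67 c78 c81
    generalize cl n (p ++ s :: t :: s :: r :: u) = K1 at *
    generalize cl n (p ++ t :: s :: t :: r :: u) = K2 at *
    generalize cl n (p ++ t :: s :: r :: t :: u) = K3 at *
    generalize cl n (p ++ t :: r :: s :: t :: u) = K4 at *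
    generalize cl n (p ++ r :: t :: s :: t :: u) = K5 at *
    generalize cl n (p ++ r :: s :: t :: s :: u) = K6 at *
    generalize cl n (p ++ s :: r :: t :: s :: u) = K7 at *
    generalize cl n (p ++ s :: t :: r :: s :: u) = K8 at *
    subst f2 f4 f6
    rw [h.self, h.self, h.self, mul_one, mul_one, mul_one]
    exact h.cell5 (Or.inl ⟨_, x12⟩) (Or.inr x23) (Or.inr x45) (Or.inl ⟨_, x56⟩) (Or.inr x78) hn

theorem Good.r332 (h : Good n θ) {p u : List Letter} {a b c : Letter} (m1 : adj3 a b)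
    (m2 : adj3 b c) (h3 : c ≠ a)
    (hw : IsDWD n (p ++ a :: b :: a :: c :: b :: a :: u)) :
    θ (cl n (p ++ a :: b :: a :: c :: b :: a :: u)) (cl n (p ++ b :: a :: b :: c :: b :: a :: u)) *
    θ (cl n (p ++ b :: a :: b :: c :: b :: a :: u)) (cl n (p ++ b :: a :: c :: b :: c :: a :: u)) *
    θ (cl n (p ++ b :: a :: c :: b :: c :: a :: u)) (cl n (p ++ b :: c :: a :: b :: c :: a :: u)) *
    θ (cl n (p ++ b :: c :: a :: b :: c :: a :: u)) (cl n (p ++ b :: c :: a :: b :: a :: c :: u)) *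
    θ (cl n (p ++ b :: c :: a :: b :: a :: c :: u)) (cl n (p ++ b :: c :: b :: a :: b :: c :: u)) *
    θ (cl n (p ++ b :: c :: b :: a :: b :: c :: u)) (cl n (p ++ c :: b :: c :: a :: b :: c :: u)) *
    θ (cl n (p ++ c :: b :: c :: a :: b :: c :: u)) (cl n (p ++ c :: b :: a :: c :: b :: c :: u)) *
    θ (cl n (p ++ c :: b :: a :: c :: b :: c :: u)) (cl n (p ++ c :: b :: a :: b :: c :: b :: u)) *
    θ (cl n (p ++ c :: b :: a :: b :: c :: b :: u)) (cl n (p ++ c :: a :: b :: a :: c :: b :: u)) *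
    θ (cl n (p ++ c :: a :: b :: a :: c :: b :: u)) (cl n (p ++ a :: c :: b :: a :: c :: b :: u)) *
    θ (cl n (p ++ a :: c :: b :: a :: c :: b :: u)) (cl n (p ++ a :: c :: b :: c :: a :: b :: u)) *
    θ (cl n (p ++ a :: c :: b :: c :: a :: b :: u)) (cl n (p ++ a :: b :: c :: b :: a :: b :: u)) *
    θ (cl n (p ++ a :: b :: c :: b :: a :: b :: u)) (cl n (p ++ a :: b :: c :: a :: b :: a :: u)) *
    θ (cl n (p ++ a :: b :: c :: a :: b :: a :: u)) (cl n (p ++ a :: b :: a :: c :: b :: a :: u))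
      = 1 := by
  have hab : a ≠ b := (sys n).m3_ne m1
  have hbc : b ≠ c := (sys n).m3_ne m2
  have m1' : adj3 b a := ⟨m1.1.symm, m1.2.symm⟩
  have m2' : adj3 c b := ⟨m2.1.symm, m2.2.symm⟩
  have hac : Comm a c := by
    left
    refine ⟨m1.1.trans m2.1, ?_⟩
    have e : c.1 ≠ a.1 := fun h' => h3 (Prod.ext h' (m1.1.trans m2.1).symm)
    have h1 := m1.2
    have h2 := m2.2
    omega
  have hca := comm_symm hac
  have ecol : b.2 = a.2 := m1.1.symm
  have ecol' : c.2 = a.2 := (m1.1.trans m2.1).symm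
  obtain ⟨w2, x12⟩ := step_cox m1 (w' := p ++ b :: a :: b :: c :: b :: a :: u) p
    (c :: b :: a :: u) rfl rfl hw
  obtain ⟨w3, x23⟩ := step_cox m2 (w' := p ++ b :: a :: c :: b :: c :: a :: u) (p ++ [b, a])
    (a :: u) (by simp) (by simp) w2
  obtain ⟨w4, f34⟩ := step_comm hac (w' := p ++ b :: c :: a :: b :: c :: a :: u) (p ++ [b])
    (b :: c :: a :: u) (by simp) (by simp) w3
  obtain ⟨w5, f45⟩ := step_comm hca (w' := p ++ b :: c :: a :: b :: a :: c :: u)
    (p ++ [b, c, a, b]) u (by simp) (by simp) w4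
  obtain ⟨w6, x56⟩ := step_cox m1 (w' := p ++ b :: c :: b :: a :: b :: c :: u) (p ++ [b, c])
    (c :: u) (by simp) (by simp) w5
  obtain ⟨w7, x67⟩ := step_cox m2 (w' := p ++ c :: b :: c :: a :: b :: c :: u) p
    (a :: b :: c :: u) rfl rfl w6
  obtain ⟨w8, f78⟩ := step_comm hca (w' := p ++ c :: b :: a :: c :: b :: c :: u) (p ++ [c, b])
    (b :: c :: u) (by simp) (by simp) w7
  obtain ⟨w9, x89⟩ := step_cox m2' (w' := p ++ c :: b :: a :: b :: c :: b :: u)
    (p ++ [c, b, a]) u (by simp) (by simp) w8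
  obtain ⟨w10, x910⟩ := step_cox m1' (w' := p ++ c :: a :: b :: a :: c :: b :: u)
    (p ++ [c]) (c :: b :: u) (by simp) (by simp) w9
  obtain ⟨w11, f1011⟩ := step_comm hca (w' := p ++ a :: c :: b :: a :: c :: b :: u) p
    (b :: a :: c :: b :: u) rfl rfl w10
  obtain ⟨w12, f1112⟩ := step_comm hac (w' := p ++ a :: c :: b :: c :: a :: b :: u)
    (p ++ [a, c, b]) (b :: u) (by simp) (by simp) w11
  obtain ⟨w13, x1213⟩ := step_cox m2' (w' := p ++ a :: b :: c :: b :: a :: b :: u)
    (p ++ [a]) (a :: b :: u) (by simp) (by simp) w12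
  obtain ⟨w14, x1314⟩ := step_cox m1' (w' := p ++ a :: b :: c :: a :: b :: a :: u)
    (p ++ [a, b, c]) u (by simp) (by simp) w13
  obtain ⟨_, f141⟩ := step_comm hca (w' := p ++ a :: b :: a :: c :: b :: a :: u)
    (p ++ [a, b]) (b :: a :: u) (by simp) (by simp) w14
  rw [ecol] at x23 x67 x910 x1314
  rw [ecol'] at x89 x1213
  have hn := nodup_cl (n := n) (adj3_not_comm m1) p u
    [[a, b, a, c, b, a], [b, a, b, c, b, a], [b, a, c, b, c, a], [b, c, b, a, b, c],
      [c, b, c, a, b, c], [c, b, a, b, c, b], [c, a, b, a, c, b], [a, b, c, b, a, b]]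
    (by simpa using ⟨hw, w2, w3, w6, w7, w9, w10, w13⟩)
    (by simp [proj, hab, hab.symm, hbc.symm, h3])
  change [cl n (p ++ a :: b :: a :: c :: b :: a :: u),
    cl n (p ++ b :: a :: b :: c :: b :: a :: u), cl n (p ++ b :: a :: c :: b :: c :: a :: u),
    cl n (p ++ b :: c :: b :: a :: b :: c :: u), cl n (p ++ c :: b :: c :: a :: b :: c :: u),
    cl n (p ++ c :: b :: a :: b :: c :: b :: u), cl n (p ++ c :: a :: b :: a :: c :: b :: u),
    cl n (p ++ a :: b :: c :: b :: a :: b :: u)].Nodup at hn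
  generalize cl n (p ++ a :: b :: a :: c :: b :: a :: u) = K1 at *
  generalize cl n (p ++ b :: a :: b :: c :: b :: a :: u) = K2 at *
  generalize cl n (p ++ b :: a :: c :: b :: c :: a :: u) = K3 at *
  generalize cl n (p ++ b :: c :: a :: b :: c :: a :: u) = K4 at *
  generalize cl n (p ++ b :: c :: a :: b :: a :: c :: u) = K5 at *
  generalize cl n (p ++ b :: c :: b :: a :: b :: c :: u) = K6 at *
  generalize cl n (p ++ c :: b :: c :: a :: b :: c :: u) = K7 at *
  generalize cl n (p ++ c :: b :: a :: c :: b :: c :: u) = K8 at *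
  generalize cl n (p ++ c :: b :: a :: b :: c :: b :: u) = K9 at *
  generalize cl n (p ++ c :: a :: b :: a :: c :: b :: u) = K10 at *
  generalize cl n (p ++ a :: c :: b :: a :: c :: b :: u) = K11 at *
  generalize cl n (p ++ a :: c :: b :: c :: a :: b :: u) = K12 at *
  generalize cl n (p ++ a :: b :: c :: b :: a :: b :: u) = K13 at *
  generalize cl n (p ++ a :: b :: c :: a :: b :: a :: u) = K14 at *
  subst f34 f45 f78 f1011 f1112 f141
  rw [h.self K3, h.self K7, h.self K10, h.self K14]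
  simp only [mul_one]
  exact h.cell8 x12 x23 x56 x67 x89 x910 x1213 x1314 hn

end Pool.Agent.Q161.Flip
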