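import Pool.Agent.Q161.FlipAbs

/-!
# Cocycles on reduced words, II: every cocycle is a coboundary (MP_8f97c4_co)
-/

namespace Pool.Agent.Q161.Flip

variable {S L Γ : Type*} [Group Γ] (Y : Sys S L)

/-- Cocycles on the complete legal words from `T0`. -/
structure Coc (θ : List L → List L → Γ) (T0 : S) : Prop where
  inv : ∀ {w w'}, Y.Mv w w' → Y.Leg T0 w → θ w w' * θ w' w = 1
  sq : ∀ {x A A' y B B' z}, Y.El A A' → Y.El B B' → Y.Leg T0 (x ++ (A ++ (y ++ B ++ z))) →
    θ (x ++ (A ++ (y ++ B ++ z))) (x ++ (A' ++ (y ++ B ++ z))) *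
    θ (x ++ (A' ++ (y ++ B ++ z))) (x ++ (A' ++ (y ++ B' ++ z))) *
    θ (x ++ (A' ++ (y ++ B' ++ z))) (x ++ (A ++ (y ++ B' ++ z))) *
    θ (x ++ (A ++ (y ++ B' ++ z))) (x ++ (A ++ (y ++ B ++ z))) = 1
  r222 : ∀ {p u s t r}, s ≠ t → t ≠ r → r ≠ s → ¬ Y.m3 s t → ¬ Y.m3 t r → ¬ Y.m3 r s →
    Y.Leg T0 (p ++ s :: t :: r :: u) →
    θ (p ++ s :: t :: r :: u) (p ++ t :: s :: r :: u) *
    θ (p ++ t :: s :: r :: u) (p ++ t :: r :: s :: u) *
    θ (p ++ t :: r :: s :: u) (p ++ r :: t :: s :: u) *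
    θ (p ++ r :: t :: s :: u) (p ++ r :: s :: t :: u) *
    θ (p ++ r :: s :: t :: u) (p ++ s :: r :: t :: u) *
    θ (p ++ s :: r :: t :: u) (p ++ s :: t :: r :: u) = 1
  r322 : ∀ {p u s t r}, Y.m3 s t → t ≠ r → r ≠ s → ¬ Y.m3 t r → ¬ Y.m3 r s →
    Y.Leg T0 (p ++ s :: t :: s :: r :: u) →
    θ (p ++ s :: t :: s :: r :: u) (p ++ t :: s :: t :: r :: u) *
    θ (p ++ t :: s :: t :: r :: u) (p ++ t :: s :: r :: t :: u) *
    θ (p ++ t :: s :: r :: t :: u) (p ++ t :: r :: s :: t :: u) *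
    θ (p ++ t :: r :: s :: t :: u) (p ++ r :: t :: s :: t :: u) *
    θ (p ++ r :: t :: s :: t :: u) (p ++ r :: s :: t :: s :: u) *
    θ (p ++ r :: s :: t :: s :: u) (p ++ s :: r :: t :: s :: u) *
    θ (p ++ s :: r :: t :: s :: u) (p ++ s :: t :: r :: s :: u) *
    θ (p ++ s :: t :: r :: s :: u) (p ++ s :: t :: s :: r :: u) = 1
  r332 : ∀ {p u a b c}, Y.m3 a b → Y.m3 b c → c ≠ a → ¬ Y.m3 c a →
    Y.Leg T0 (p ++ a :: b :: a :: c :: b :: a :: u) →
    θ (p ++ a :: b :: a :: c :: b :: a :: u) (p ++ b :: a :: b :: c :: b :: a :: u) *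
    θ (p ++ b :: a :: b :: c :: b :: a :: u) (p ++ b :: a :: c :: b :: c :: a :: u) *
    θ (p ++ b :: a :: c :: b :: c :: a :: u) (p ++ b :: c :: a :: b :: c :: a :: u) *
    θ (p ++ b :: c :: a :: b :: c :: a :: u) (p ++ b :: c :: a :: b :: a :: c :: u) *
    θ (p ++ b :: c :: a :: b :: a :: c :: u) (p ++ b :: c :: b :: a :: b :: c :: u) *
    θ (p ++ b :: c :: b :: a :: b :: c :: u) (p ++ c :: b :: c :: a :: b :: c :: u) *
    θ (p ++ c :: b :: c :: a :: b :: c :: u) (p ++ c :: b :: a :: c :: b :: c :: u) *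
    θ (p ++ c :: b :: a :: c :: b :: c :: u) (p ++ c :: b :: a :: b :: c :: b :: u) *
    θ (p ++ c :: b :: a :: b :: c :: b :: u) (p ++ c :: a :: b :: a :: c :: b :: u) *
    θ (p ++ c :: a :: b :: a :: c :: b :: u) (p ++ a :: c :: b :: a :: c :: b :: u) *
    θ (p ++ a :: c :: b :: a :: c :: b :: u) (p ++ a :: c :: b :: c :: a :: b :: u) *
    θ (p ++ a :: c :: b :: c :: a :: b :: u) (p ++ a :: b :: c :: b :: a :: b :: u) *
    θ (p ++ a :: b :: c :: b :: a :: b :: u) (p ++ a :: b :: c :: a :: b :: a :: u) *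
    θ (p ++ a :: b :: c :: a :: b :: a :: u) (p ++ a :: b :: a :: c :: b :: a :: u) = 1

namespace Sys

theorem Mv.append_left {w w' : List L} (x : List L) (h : Y.Mv w w') :
    Y.Mv (x ++ w) (x ++ w') := by
  induction x with
  | nil => exact h
  | cons s x ih => exact Mv.cons Y s ih

theorem mv2 {x : List L} {s t : L} (h : s ≠ t) (h3 : ¬ Y.m3 s t) (y : List L) :
    Y.Mv (x ++ s :: t :: y) (x ++ t :: s :: y) :=
  ⟨x, [s, t], [t, s], y, El.two h h3, by simp, by simp⟩

theorem mv3 {x : List L} {s t : L} (h : Y.m3 s t) (y : List L) :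
    Y.Mv (x ++ s :: t :: s :: y) (x ++ t :: s :: t :: y) :=
  ⟨x, [s, t, s], [t, s, t], y, El.three h, by simp, by simp⟩

theorem leg222 {T : S} {s t r : L} (h1 : s ≠ t) (h2 : t ≠ r) (h3 : r ≠ s)
    (m1 : ¬ Y.m3 s t) (m2 : ¬ Y.m3 t r) (m3 : ¬ Y.m3 r s)
    (hs : Y.desc T s) (ht : Y.desc T t) (hr : Y.desc T r) :
    ∃ u, Y.Leg T (s :: t :: r :: u) := by
  have a1 := (Y.two h1 m1 hs ht).1
  have a2 := (Y.two h3.symm (fun h => m3 (Y.m3_symm h)) hs hr).1
  have a3 := (Y.two h2 m2 a1 a2).1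
  obtain ⟨u, hu⟩ := Y.exists_leg _ (Y.act (Y.act (Y.act T s) t) r) rfl
  exact ⟨u, hs, a1, a3, hu⟩

theorem leg322 {T : S} {s t r : L} (m1 : Y.m3 s t) (h2 : t ≠ r) (h3 : r ≠ s)
    (m2 : ¬ Y.m3 t r) (m3 : ¬ Y.m3 r s)
    (hs : Y.desc T s) (ht : Y.desc T t) (hr : Y.desc T r) :
    ∃ u, Y.Leg T (s :: t :: s :: r :: u) := by
  obtain ⟨a1, a2, _⟩ := Y.three m1 hs ht
  have b1 := (Y.two h3.symm (fun h => m3 (Y.m3_symm h)) hs hr).1
  have b2 := (Y.two h2 m2 a1 b1).1
  have b3 := (Y.two h3.symm (fun h => m3 (Y.m3_symm h)) a2 b2).1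
  obtain ⟨u, hu⟩ := Y.exists_leg _ (Y.act (Y.act (Y.act (Y.act T s) t) s) r) rfl
  exact ⟨u, hs, a1, a2, b3, hu⟩

theorem leg332 {T : S} {a b c : L} (m1 : Y.m3 a b) (m2 : Y.m3 b c) (h3 : c ≠ a)
    (m3 : ¬ Y.m3 c a) (ha : Y.desc T a) (hb : Y.desc T b) (hc : Y.desc T c) :
    ∃ u, Y.Leg T (a :: b :: a :: c :: b :: a :: u) := by
  have m3' : ¬ Y.m3 a c := fun h => m3 (Y.m3_symm h)
  -- after `a`
  obtain ⟨a1, a2, _⟩ := Y.three m1 ha hb
  have b1 := (Y.two h3.symm m3' ha hc).1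
  -- after `ab`
  obtain ⟨c1, c2, _⟩ := Y.three m2 a1 b1
  -- after `aba`
  have d1 := (Y.two h3.symm m3' a2 c1).1
  have d2 := (Y.two h3.symm m3' a2 c1).2
  have d3 := (Y.two h3 m3 c1 a2).1
  -- after `abc`: `a` and `b`
  obtain ⟨e1, e2, _⟩ := Y.three m1 d3 c2
  rw [← d2] at e1 e2
  obtain ⟨u, hu⟩ := Y.exists_leg _ (Y.act (Y.act (Y.act (Y.act (Y.act (Y.act T a) b) a) c) b) a) rfl
  exact ⟨u, ha, a1, a2, d1, e1, e2, hu⟩

end Sys

open Sys

theorem Coc.potential {θ : List L → List L → Γ} {T0 : S} (hθ : Coc Y θ T0) :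
    ∀ (n : ℕ) (T : S), Y.len T = n → ∀ p : List L, (∀ w, Y.Leg T w → Y.Leg T0 (p ++ w)) →
      ∃ φ : List L → Γ, ∀ w w', Y.Mv w w' → Y.Leg T w →
        θ (p ++ w) (p ++ w') = (φ w)⁻¹ * φ w' := by
  classical
  intro n
  induction n using Nat.strong_induction_on with
  | _ n ih =>
    intro T hT p hp
    -- the potentials for the tails
    have hex : ∀ s, Y.desc T s → ∃ φ : List L → Γ, ∀ w w', Y.Mv w w' → Y.Leg (Y.act T s) w →
        θ (p ++ s :: w) (p ++ s :: w') = (φ w)⁻¹ * φ w' := by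
      intro s hs
      have := Y.len_act hs
      obtain ⟨φ, hφ⟩ := ih (Y.len (Y.act T s)) (by omega) (Y.act T s) rfl (p ++ [s]) (by
        intro w hw
        have := hp (s :: w) ⟨hs, hw⟩
        simpa using this)
      refine ⟨φ, fun w w' h1 h2 => ?_⟩
      have := hφ w w' h1 h2
      simpa using this
    choose! Φ hΦ using hex
    -- the transition constants
    have hexc : ∀ s t, s ≠ t → Y.desc T s → Y.desc T t → ∃ c : Γ, ∀ u,
        Y.Leg T (Y.long s t ++ u) →
        θ (p ++ (Y.long s t ++ u)) (p ++ (Y.long t s ++ u)) =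
          (Φ s (Y.ltail s t ++ u))⁻¹ * c * Φ t (Y.ltail t s ++ u) := by
      intro s t hst hs ht
      obtain ⟨T', h1, h2, h3⟩ := Y.leg_long hst hs ht
      obtain ⟨u0, hu0⟩ := Y.exists_leg _ T' rfl
      refine ⟨Φ s (Y.ltail s t ++ u0) * θ (p ++ (Y.long s t ++ u0)) (p ++ (Y.long t s ++ u0)) *
        (Φ t (Y.ltail t s ++ u0))⁻¹, fun u hu => ?_⟩
      have hu' := (h1 u).2 hu
      have hconn := Y.connected _ T' rfl u0 u hu0 hu'
      clear hu hu'
      induction hconn with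
      | refl => group
      | @tail u u1 hu01 hmv ih2 =>
        -- the word `u` is legal
        have hu : Y.Leg T' u := by
          clear ih2 hmv
          induction hu01 with
          | refl => exact hu0
          | tail _ h2 ih3 => exact Y.leg_Mv h2 ih3
        have hu1 := Y.leg_Mv hmv hu
        have a1 := (h1 u).1 hu
        have a2 := (h2 u).1 hu
        have b1 := (h1 u1).1 hu1
        have e1 := hΦ s hs (Y.ltail s t ++ u) (Y.ltail s t ++ u1) (Mv.append_left Y _ hmv) (by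
          rw [long_eq, List.cons_append] at a1
          exact a1.2)
        have e2 := hΦ t ht (Y.ltail t s ++ u) (Y.ltail t s ++ u1) (Mv.append_left Y _ hmv) (by
          rw [long_eq, List.cons_append] at a2
          exact a2.2)
        have f1 : ∀ v, s :: (Y.ltail s t ++ v) = Y.long s t ++ v := fun v => by
          rw [long_eq]; rfl
        have f2 : ∀ v, t :: (Y.ltail t s ++ v) = Y.long t s ++ v := fun v => by
          rw [long_eq]; rfl
        rw [f1, f1] at e1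
        rw [f2, f2] at e2
        obtain ⟨x, B, B', z, hB, rfl, rfl⟩ := hmv
        have hsq := hθ.sq (x := p) (y := x) (z := z) (Y.El_long hst) hB (hp _ a1)
        have i1 := hθ.inv (w := p ++ (Y.long s t ++ (x ++ B' ++ z)))
          (w' := p ++ (Y.long t s ++ (x ++ B' ++ z)))
          ⟨p, Y.long s t, Y.long t s, x ++ B' ++ z, Y.El_long hst, by simp, by simp⟩ (hp _ b1)
        have i2 := hθ.inv (w := p ++ (Y.long s t ++ (x ++ B ++ z)))
          (w' := p ++ (Y.long s t ++ (x ++ B' ++ z)))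
          ⟨p ++ Y.long s t ++ x, B, B', z, hB, by simp, by simp⟩ (hp _ a1)
        have j1 := eq_inv_of_mul_eq_one_right i1
        have j2 := eq_inv_of_mul_eq_one_right i2
        rw [ih2, e2, j1, j2, e1] at hsq
        have k1 : θ (p ++ (Y.long s t ++ (x ++ B' ++ z))) (p ++ (Y.long t s ++ (x ++ B' ++ z))) =
            (Φ s (Y.ltail s t ++ (x ++ B' ++ z)))⁻¹ * Φ s (Y.ltail s t ++ (x ++ B ++ z)) *
            ((Φ s (Y.ltail s t ++ (x ++ B ++ z)))⁻¹ *
              (Φ s (Y.ltail s t ++ u0) * θ (p ++ (Y.long s t ++ u0)) (p ++ (Y.long t s ++ u0)) *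
                (Φ t (Y.ltail t s ++ u0))⁻¹) *
              Φ t (Y.ltail t s ++ (x ++ B ++ z))) *
            ((Φ t (Y.ltail t s ++ (x ++ B ++ z)))⁻¹ * Φ t (Y.ltail t s ++ (x ++ B' ++ z))) := by
          generalize (Φ s (Y.ltail s t ++ (x ++ B ++ z))) = g1 at hsq ⊢
          generalize (Φ s (Y.ltail s t ++ (x ++ B' ++ z))) = g2 at hsq ⊢
          generalize (Φ t (Y.ltail t s ++ (x ++ B ++ z))) = g3 at hsq ⊢
          generalize (Φ t (Y.ltail t s ++ (x ++ B' ++ z))) = g4 at hsq ⊢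
          generalize (Φ s (Y.ltail s t ++ u0) *
            θ (p ++ (Y.long s t ++ u0)) (p ++ (Y.long t s ++ u0)) *
                (Φ t (Y.ltail t s ++ u0))⁻¹) = g5 at hsq ⊢
          generalize θ (p ++ (Y.long s t ++ (x ++ B' ++ z)))
            (p ++ (Y.long t s ++ (x ++ B' ++ z))) = g6 at hsq ⊢
          have h9 : g1⁻¹ * g5 * g3 * (g3⁻¹ * g4) * g6⁻¹ = g1⁻¹ * g2 := by
            rw [← mul_inv_eq_one]; exact hsq
          have h10 : g6 = (g1⁻¹ * g2)⁻¹ * (g1⁻¹ * g5 * g3 * (g3⁻¹ * g4)) := by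
            rw [← h9]; group
          rw [h10]; group
        rw [k1]
        group
    choose! c hc using hexc
    have hc2 : ∀ {s t : L} {u : List L}, s ≠ t → ¬ Y.m3 s t → Y.desc T s → Y.desc T t →
        Y.Leg T (s :: t :: u) →
        θ (p ++ s :: t :: u) (p ++ t :: s :: u) = (Φ s (t :: u))⁻¹ * c s t * Φ t (s :: u) := by
      intro s t u h1 h2 h3 h4 h5
      have h2' : ¬ Y.m3 t s := fun h => h2 (Y.m3_symm h)
      have e1 : Y.long s t = [s, t] := by unfold Sys.long; rw [if_neg h2]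
      have e2 : Y.long t s = [t, s] := by unfold Sys.long; rw [if_neg h2']
      have e3 : Y.ltail s t = [t] := by unfold Sys.ltail; rw [if_neg h2]
      have e4 : Y.ltail t s = [s] := by unfold Sys.ltail; rw [if_neg h2']
      have := hc s t h1 h3 h4 u (by rw [e1]; exact h5)
      rw [e1, e2, e3, e4] at this
      exact this
    have hc3 : ∀ {s t : L} {u : List L}, Y.m3 s t → Y.desc T s → Y.desc T t →
        Y.Leg T (s :: t :: s :: u) →
        θ (p ++ s :: t :: s :: u) (p ++ t :: s :: t :: u) =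
          (Φ s (t :: s :: u))⁻¹ * c s t * Φ t (s :: t :: u) := by
      intro s t u h2 h3 h4 h5
      have h2' : Y.m3 t s := Y.m3_symm h2
      have e1 : Y.long s t = [s, t, s] := by unfold Sys.long; rw [if_pos h2]
      have e2 : Y.long t s = [t, s, t] := by unfold Sys.long; rw [if_pos h2']
      have e3 : Y.ltail s t = [t, s] := by unfold Sys.ltail; rw [if_pos h2]
      have e4 : Y.ltail t s = [s, t] := by unfold Sys.ltail; rw [if_pos h2']
      have := hc s t (Y.m3_ne h2) h3 h4 u (by rw [e1]; exact h5)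
      rw [e1, e2, e3, e4] at this
      exact this
    -- antisymmetry
    have hanti : ∀ {s t : L}, s ≠ t → Y.desc T s → Y.desc T t → c s t * c t s = 1 := by
      intro s t h1 hs ht
      obtain ⟨T', a1, a2, _⟩ := Y.leg_long h1 hs ht
      obtain ⟨u, hu⟩ := Y.exists_leg _ T' rfl
      have b1 := (a1 u).1 hu
      have b2 := (a2 u).1 hu
      have e1 := hc s t h1 hs ht u b1
      have e2 := hc t s h1.symm ht hs u b2
      have i1 := hθ.inv (w := p ++ (Y.long s t ++ u)) (w' := p ++ (Y.long t s ++ u))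
        ⟨p, Y.long s t, Y.long t s, u, Y.El_long h1, by simp, by simp⟩ (hp _ b1)
      rw [e1, e2] at i1
      generalize Φ s (Y.ltail s t ++ u) = g1 at i1
      generalize Φ t (Y.ltail t s ++ u) = g2 at i1
      have : c s t * c t s = g1 * (g1⁻¹ * c s t * g2 * (g2⁻¹ * c t s * g1)) * g1⁻¹ := by group
      rw [this, i1]
      group
    -- the triples
    have t222 : ∀ {s t r : L}, s ≠ t → t ≠ r → r ≠ s → ¬ Y.m3 s t → ¬ Y.m3 t r → ¬ Y.m3 r s →
        Y.desc T s → Y.desc T t → Y.desc T r → c s t * c t r * c r s = 1 := by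
      intro s t r h1 h2 h3 m1 m2 m3 hs ht hr
      have m1' : ¬ Y.m3 t s := fun h => m1 (Y.m3_symm h)
      have m2' : ¬ Y.m3 r t := fun h => m2 (Y.m3_symm h)
      have m3' : ¬ Y.m3 s r := fun h => m3 (Y.m3_symm h)
      obtain ⟨u, l1⟩ := Y.leg222 h1 h2 h3 m1 m2 m3 hs ht hr
      have l2 := Y.leg_Mv (Y.mv2 (x := []) h1 m1 (r :: u)) l1
      have l3 := Y.leg_Mv (Y.mv2 (x := [t]) h3.symm m3' u) l2
      have l4 := Y.leg_Mv (Y.mv2 (x := []) h2 m2 (s :: u)) l3
      have l5 := Y.leg_Mv (Y.mv2 (x := [r]) h1.symm m1' u) l4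
      have l6 := Y.leg_Mv (Y.mv2 (x := []) h3 m3 (t :: u)) l5
      have q1 := hc2 h1 m1 hs ht l1
      have q2 := hΦ t ht _ _ (Y.mv2 (x := []) h3.symm m3' u) l2.2
      have q3 := hc2 h2 m2 ht hr l3
      have q4 := hΦ r hr _ _ (Y.mv2 (x := []) h1.symm m1' u) l4.2
      have q5 := hc2 h3 m3 hr hs l5
      have q6 := hΦ s hs _ _ (Y.mv2 (x := []) h2.symm m2' u) l6.2
      have main := hθ.r222 h1 h2 h3 m1 m2 m3 (hp _ l1)
      simp only [List.nil_append] at q2 q4 q6
      rw [q1, q2, q3, q4, q5, q6] at main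
      have e : c s t * c t r * c r s = Φ s (t :: r :: u) *
          ((Φ s (t :: r :: u))⁻¹ * c s t * Φ t (s :: r :: u) *
          ((Φ t (s :: r :: u))⁻¹ * Φ t (r :: s :: u)) *
          ((Φ t (r :: s :: u))⁻¹ * c t r * Φ r (t :: s :: u)) *
          ((Φ r (t :: s :: u))⁻¹ * Φ r (s :: t :: u)) *
          ((Φ r (s :: t :: u))⁻¹ * c r s * Φ s (r :: t :: u)) *
          ((Φ s (r :: t :: u))⁻¹ * Φ s (t :: r :: u))) * (Φ s (t :: r :: u))⁻¹ := by group
      rw [e, main]
      group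
    have t322 : ∀ {s t r : L}, Y.m3 s t → t ≠ r → r ≠ s → ¬ Y.m3 t r → ¬ Y.m3 r s →
        Y.desc T s → Y.desc T t → Y.desc T r → c s t * c t r * c r s = 1 := by
      intro s t r m1 h2 h3 m2 m3 hs ht hr
      have m1' : Y.m3 t s := Y.m3_symm m1
      have m2' : ¬ Y.m3 r t := fun h => m2 (Y.m3_symm h)
      have m3' : ¬ Y.m3 s r := fun h => m3 (Y.m3_symm h)
      obtain ⟨u, l1⟩ := Y.leg322 m1 h2 h3 m2 m3 hs ht hr
      have l2 := Y.leg_Mv (Y.mv3 (x := []) m1 (r :: u)) l1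
      have l3 := Y.leg_Mv (Y.mv2 (x := [t, s]) h2 m2 u) l2
      have l4 := Y.leg_Mv (Y.mv2 (x := [t]) h3.symm m3' (t :: u)) l3
      have l5 := Y.leg_Mv (Y.mv2 (x := []) h2 m2 (s :: t :: u)) l4
      have l6 := Y.leg_Mv (Y.mv3 (x := [r]) m1' u) l5
      have l7 := Y.leg_Mv (Y.mv2 (x := []) h3 m3 (t :: s :: u)) l6
      have l8 := Y.leg_Mv (Y.mv2 (x := [s]) h2.symm m2' (s :: u)) l7
      have q1 := hc3 m1 hs ht l1
      have q2 := hΦ t ht _ _ (Y.mv2 (x := [s]) h2 m2 u) l2.2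
      have q3 := hΦ t ht _ _ (Y.mv2 (x := []) h3.symm m3' (t :: u)) l3.2
      have q4 := hc2 h2 m2 ht hr l4
      have q5 := hΦ r hr _ _ (Y.mv3 (x := []) m1' u) l5.2
      have q6 := hc2 h3 m3 hr hs l6
      have q7 := hΦ s hs _ _ (Y.mv2 (x := []) h2.symm m2' (s :: u)) l7.2
      have q8 := hΦ s hs _ _ (Y.mv2 (x := [t]) h3 m3 u) l8.2
      have main := hθ.r322 m1 h2 h3 m2 m3 (hp _ l1)
      simp only [List.nil_append, List.cons_append] at q2 q3 q5 q7 q8
      rw [q1, q2, q3, q4, q5, q6, q7, q8] at main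
      generalize Φ s (t :: s :: r :: u) = g1 at main
      generalize Φ t (s :: t :: r :: u) = g2 at main
      generalize Φ t (s :: r :: t :: u) = g3 at main
      generalize Φ t (r :: s :: t :: u) = g4 at main
      generalize Φ r (t :: s :: t :: u) = g5 at main
      generalize Φ r (s :: t :: s :: u) = g6 at main
      generalize Φ s (r :: t :: s :: u) = g7 at main
      generalize Φ s (t :: r :: s :: u) = g8 at main
      have e : c s t * c t r * c r s = g1 * (g1⁻¹ * c s t * g2 * (g2⁻¹ * g3) * (g3⁻¹ * g4) *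
          (g4⁻¹ * c t r * g5) * (g5⁻¹ * g6) * (g6⁻¹ * c r s * g7) * (g7⁻¹ * g8) *
          (g8⁻¹ * g1)) * g1⁻¹ := by group
      rw [e, main]
      group
    have t332 : ∀ {a b d : L}, Y.m3 a b → Y.m3 b d → d ≠ a → ¬ Y.m3 d a →
        Y.desc T a → Y.desc T b → Y.desc T d → c a b * c b d * c d a = 1 := by
      intro a b d m1 m2 h3 m3 ha hb hd
      have m1' : Y.m3 b a := Y.m3_symm m1
      have m2' : Y.m3 d b := Y.m3_symm m2
      have m3' : ¬ Y.m3 a d := fun h => m3 (Y.m3_symm h)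
      obtain ⟨u, l1⟩ := Y.leg332 m1 m2 h3 m3 ha hb hd
      have l2 := Y.leg_Mv (Y.mv3 (x := []) m1 (d :: b :: a :: u)) l1
      have l3 := Y.leg_Mv (Y.mv3 (x := [b, a]) m2 (a :: u)) l2
      have l4 := Y.leg_Mv (Y.mv2 (x := [b]) h3.symm m3' (b :: d :: a :: u)) l3
      have l5 := Y.leg_Mv (Y.mv2 (x := [b, d, a, b]) h3 m3 u) l4
      have l6 := Y.leg_Mv (Y.mv3 (x := [b, d]) m1 (d :: u)) l5
      have l7 := Y.leg_Mv (Y.mv3 (x := []) m2 (a :: b :: d :: u)) l6
      have l8 := Y.leg_Mv (Y.mv2 (x := [d, b]) h3 m3 (b :: d :: u)) l7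
      have l9 := Y.leg_Mv (Y.mv3 (x := [d, b, a]) m2' u) l8
      have l10 := Y.leg_Mv (Y.mv3 (x := [d]) m1' (d :: b :: u)) l9
      have l11 := Y.leg_Mv (Y.mv2 (x := []) h3 m3 (b :: a :: d :: b :: u)) l10
      have l12 := Y.leg_Mv (Y.mv2 (x := [a, d, b]) h3.symm m3' (b :: u)) l11
      have l13 := Y.leg_Mv (Y.mv3 (x := [a]) m2' (a :: b :: u)) l12
      have l14 := Y.leg_Mv (Y.mv3 (x := [a, b, d]) m1' u) l13
      have q1 := hc3 m1 ha hb l1
      have q2 := hΦ b hb _ _ (Y.mv3 (x := [a]) m2 (a :: u)) l2.2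
      have q3 := hΦ b hb _ _ (Y.mv2 (x := []) h3.symm m3' (b :: d :: a :: u)) l3.2
      have q4 := hΦ b hb _ _ (Y.mv2 (x := [d, a, b]) h3 m3 u) l4.2
      have q5 := hΦ b hb _ _ (Y.mv3 (x := [d]) m1 (d :: u)) l5.2
      have q6 := hc3 m2 hb hd l6
      have q7 := hΦ d hd _ _ (Y.mv2 (x := [b]) h3 m3 (b :: d :: u)) l7.2
      have q8 := hΦ d hd _ _ (Y.mv3 (x := [b, a]) m2' u) l8.2
      have q9 := hΦ d hd _ _ (Y.mv3 (x := []) m1' (d :: b :: u)) l9.2
      have q10 := hc2 h3 m3 hd ha l10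
      have q11 := hΦ a ha _ _ (Y.mv2 (x := [d, b]) h3.symm m3' (b :: u)) l11.2
      have q12 := hΦ a ha _ _ (Y.mv3 (x := []) m2' (a :: b :: u)) l12.2
      have q13 := hΦ a ha _ _ (Y.mv3 (x := [b, d]) m1' u) l13.2
      have q14 := hΦ a ha _ _ (Y.mv2 (x := [b]) h3 m3 (b :: a :: u)) l14.2
      have main := hθ.r332 m1 m2 h3 m3 (hp _ l1)
      simp only [List.nil_append, List.cons_append] at q2 q3 q4 q5 q7 q8 q9 q11 q12 q13 q14
      rw [q1, q2, q3, q4, q5, q6, q7, q8, q9, q10, q11, q12, q13, q14] at main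
      generalize Φ a (b :: a :: d :: b :: a :: u) = g1 at main
      generalize Φ b (a :: b :: d :: b :: a :: u) = g2 at main
      generalize Φ b (a :: d :: b :: d :: a :: u) = g3 at main
      generalize Φ b (d :: a :: b :: d :: a :: u) = g4 at main
      generalize Φ b (d :: a :: b :: a :: d :: u) = g5 at main
      generalize Φ b (d :: b :: a :: b :: d :: u) = g6 at main
      generalize Φ d (b :: d :: a :: b :: d :: u) = g7 at main
      generalize Φ d (b :: a :: d :: b :: d :: u) = g8 at main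
      generalize Φ d (b :: a :: b :: d :: b :: u) = g9 at main
      generalize Φ d (a :: b :: a :: d :: b :: u) = g10 at main
      generalize Φ a (d :: b :: a :: d :: b :: u) = g11 at main
      generalize Φ a (d :: b :: d :: a :: b :: u) = g12 at main
      generalize Φ a (b :: d :: b :: a :: b :: u) = g13 at main
      generalize Φ a (b :: d :: a :: b :: a :: u) = g14 at main
      have e : c a b * c b d * c d a = g1 * (g1⁻¹ * c a b * g2 * (g2⁻¹ * g3) * (g3⁻¹ * g4) *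
          (g4⁻¹ * g5) * (g5⁻¹ * g6) * (g6⁻¹ * c b d * g7) * (g7⁻¹ * g8) * (g8⁻¹ * g9) *
          (g9⁻¹ * g10) * (g10⁻¹ * c d a * g11) * (g11⁻¹ * g12) * (g12⁻¹ * g13) *
          (g13⁻¹ * g14) * (g14⁻¹ * g1)) * g1⁻¹ := by group
      rw [e, main]
      group
    have rot : ∀ {x y z : Γ}, x * y * z = 1 → z * x * y = 1 := by
      intro x y z h
      have : z * x * y = z * (x * y * z) * z⁻¹ := by group
      rw [this, h]
      group
    have tri : ∀ {s t r : L}, s ≠ t → t ≠ r → r ≠ s → Y.desc T s → Y.desc T t → Y.desc T r →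
        c s t * c t r * c r s = 1 := by
      intro s t r h1 h2 h3 hs ht hr
      by_cases m1 : Y.m3 s t
      · by_cases m2 : Y.m3 t r
        · exact t332 m1 m2 h3 (fun h => Y.m3_tri m1 m2 (Y.m3_symm h)) hs ht hr
        · by_cases m3 : Y.m3 r s
          · have := t332 m3 m1 h2 m2 hr hs ht
            exact rot (rot this)
          · exact t322 m1 h2 h3 m2 m3 hs ht hr
      · by_cases m2 : Y.m3 t r
        · by_cases m3 : Y.m3 r s
          · exact rot (t332 m2 m3 h1 m1 ht hr hs)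
          · exact rot (t322 m2 h3 h1 m3 m1 ht hr hs)
        · by_cases m3 : Y.m3 r s
          · exact rot (rot (t322 m3 h1 h2 m1 m2 hr hs ht))
          · exact t222 h1 h2 h3 m1 m2 m3 hs ht hr
    -- the potential
    by_cases hlen : Y.len T = 0
    · refine ⟨fun _ => 1, fun w w' hmv hw => ?_⟩
      exfalso
      obtain ⟨x, A, B, y, hEl, rfl, rfl⟩ := hmv
      cases x with
      | nil =>
        cases hEl with
        | two h h3 =>
          have := Y.len_act hw.1
          omega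
        | three h =>
          have := Y.len_act hw.1
          omega
      | cons s x =>
        have := Y.len_act hw.1
        omega
    · obtain ⟨s0, hs0⟩ := Y.exists_desc T hlen
      set c0 : L → Γ := fun s => if s0 = s then 1 else c s0 s with hc0
      have hk : ∀ {s t : L}, s ≠ t → Y.desc T s → Y.desc T t → (c0 s)⁻¹ * c0 t = c s t := by
        intro s t h1 hs ht
        simp only [hc0]
        by_cases e1 : s0 = s
        · subst e1
          rw [if_pos rfl, if_neg h1]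
          group
        · by_cases e2 : s0 = t
          · subst e2
            rw [if_neg e1, if_pos rfl, mul_one]
            exact inv_eq_of_mul_eq_one_right (hanti e1 hs0 hs)
          · rw [if_neg e1, if_neg e2]
            have a1 := tri e1 h1 (Ne.symm e2) hs0 hs ht
            have a2 := hanti e2 hs0 ht
            have a3 : c s0 t = (c t s0)⁻¹ := eq_inv_of_mul_eq_one_left a2
            have a4 : c s0 s * c s t = (c t s0)⁻¹ := eq_inv_of_mul_eq_one_left a1
            rw [a3, ← a4]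
            group
      refine ⟨fun w => match w with
        | [] => 1
        | s :: w => c0 s * Φ s w, fun w w' hmv hw => ?_⟩
      obtain ⟨x, A, B, y, hEl, rfl, rfl⟩ := hmv
      cases x with
      | nil =>
        cases hEl with
        | @two s t h h3 =>
          have hs := hw.1
          have ht := Y.two' h h3 hs hw.2.1
          show θ (p ++ s :: t :: y) (p ++ t :: s :: y) =
            (c0 s * Φ s (t :: y))⁻¹ * (c0 t * Φ t (s :: y))
          have hw' : Y.Leg T (s :: t :: y) := hw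
          rw [hc2 h h3 hs ht hw', ← hk h hs ht]
          group
        | @three s t h =>
          have hs := hw.1
          have ht := Y.three' h hs hw.2.1 hw.2.2.1
          show θ (p ++ s :: t :: s :: y) (p ++ t :: s :: t :: y) =
            (c0 s * Φ s (t :: s :: y))⁻¹ * (c0 t * Φ t (s :: t :: y))
          have hw' : Y.Leg T (s :: t :: s :: y) := hw
          rw [hc3 h hs ht hw', ← hk (Y.m3_ne h) hs ht]
          group
      | cons s x =>
        show θ (p ++ s :: (x ++ A ++ y)) (p ++ s :: (x ++ B ++ y)) =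
            (c0 s * Φ s (x ++ A ++ y))⁻¹ * (c0 s * Φ s (x ++ B ++ y))
        rw [hΦ s hw.1 _ _ ⟨x, A, B, y, hEl, rfl, rfl⟩ hw.2]
        group

end Pool.Agent.Q161.Flip
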