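import Mathlib

/-!
# Homotopy of walks in a graph with 2-cells (MP_8f97c4_co)
-/

namespace Pool.Agent.Q161.Flip

open SimpleGraph

universe u

variable {V : Type u} {G : SimpleGraph V}

/-- Homotopy of walks in the 2-dimensional complex obtained from the graph `G` by attaching a
2-cell along every closed walk `c` with `Cell v c`: the smallest congruence on walks (with respect
to concatenation) that makes every backtrack and every cell trivial. -/
inductive Htpy (G : SimpleGraph V) (Cell : ∀ v, G.Walk v v → Prop) :
    ∀ {u v : V}, G.Walk u v → G.Walk u v → Prop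
  | refl {u v : V} (p : G.Walk u v) : Htpy G Cell p p
  | symm {u v : V} {p q : G.Walk u v} : Htpy G Cell p q → Htpy G Cell q p
  | trans {u v : V} {p q r : G.Walk u v} : Htpy G Cell p q → Htpy G Cell q r → Htpy G Cell p r
  | append {u v w : V} {p p' : G.Walk u v} {q q' : G.Walk v w} :
      Htpy G Cell p p' → Htpy G Cell q q' → Htpy G Cell (p.append q) (p'.append q')
  | backtrack {u v : V} (h : G.Adj u v) :
      Htpy G Cell (Walk.cons h (Walk.cons h.symm Walk.nil)) Walk.nil
  | cell {v : V} (c : G.Walk v v) : Cell v c → Htpy G Cell c Walk.nil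

/-- The product of `θ` along a walk. -/
def wprod {Γ : Type*} [Group Γ] (θ : V → V → Γ) : ∀ {u v : V}, G.Walk u v → Γ
  | _, _, .nil => 1
  | _, _, .cons (u := u) (v := v) _ p => θ u v * wprod θ p

variable {Cell : ∀ v, G.Walk v v → Prop}

namespace Htpy

theorem of_eq {u v : V} {p q : G.Walk u v} (h : p = q) : Htpy G Cell p q := h ▸ Htpy.refl p

theorem cancel : ∀ {u v : V} (p : G.Walk u v), Htpy G Cell (p.append p.reverse) Walk.nil := by
  intro u v p
  induction p with
  | nil => exact Htpy.refl _
  | cons h p ih =>
    have e : (Walk.cons h p).append (Walk.cons h p).reverse =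
        (Walk.cons h Walk.nil).append ((p.append p.reverse).append
          (Walk.cons h.symm Walk.nil)) := by
      rw [Walk.reverse_cons, Walk.cons_append, Walk.cons_append, Walk.nil_append,
        Walk.append_assoc]
    rw [e]
    refine (Htpy.append (Htpy.refl _) (Htpy.append ih (Htpy.refl _))).trans ?_
    exact Htpy.backtrack h

theorem cancel' {u v : V} (p : G.Walk u v) : Htpy G Cell (p.reverse.append p) Walk.nil := by
  have := cancel (Cell := Cell) p.reverse
  rwa [Walk.reverse_reverse] at this

theorem reverse {u v : V} {p q : G.Walk u v} (h : Htpy G Cell p q) :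
    Htpy G Cell p.reverse q.reverse := by
  -- `p⁻¹ ~ p⁻¹ (q q⁻¹) ~ p⁻¹ (p q⁻¹) ~ q⁻¹`
  have h1 : Htpy G Cell p.reverse (p.reverse.append (q.append q.reverse)) := by
    have := Htpy.append (Htpy.refl (Cell := Cell) p.reverse) (cancel (Cell := Cell) q).symm
    rwa [Walk.append_nil] at this
  have h2 : Htpy G Cell (p.reverse.append (q.append q.reverse))
      (p.reverse.append (p.append q.reverse)) :=
    Htpy.append (Htpy.refl _) (Htpy.append h.symm (Htpy.refl _))
  have h3 : Htpy G Cell (p.reverse.append (p.append q.reverse)) q.reverse := by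
    rw [Walk.append_assoc]
    have := Htpy.append (cancel' (Cell := Cell) p) (Htpy.refl (Cell := Cell) q.reverse)
    rwa [Walk.nil_append] at this
  exact h1.trans (h2.trans h3)

end Htpy

/-- The setoid of homotopy. -/
def loopSetoid (G : SimpleGraph V) (Cell : ∀ v, G.Walk v v → Prop) (v : V) :
    Setoid (G.Walk v v) where
  r := Htpy G Cell
  iseqv := ⟨Htpy.refl, Htpy.symm, Htpy.trans⟩

/-- The group of homotopy classes of closed walks. -/
def Loops (G : SimpleGraph V) (Cell : ∀ v, G.Walk v v → Prop) (v : V) : Type u :=
  Quotient (loopSetoid G Cell v)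

/-- The class of a closed walk. -/
def Loops.mk {v : V} (p : G.Walk v v) : Loops G Cell v := Quotient.mk (loopSetoid G Cell v) p

theorem Loops.mk_eq {v : V} {p q : G.Walk v v} :
    (Loops.mk p : Loops G Cell v) = Loops.mk q ↔ Htpy G Cell p q := Quotient.eq''

noncomputable instance (v : V) : Group (Loops G Cell v) := by
  letI : Mul (Loops G Cell v) := ⟨Quotient.map₂ (fun p q => p.append q)
    (fun _ _ h _ _ h' => Htpy.append h h')⟩
  letI : One (Loops G Cell v) := ⟨Loops.mk Walk.nil⟩
  letI : Inv (Loops G Cell v) := ⟨Quotient.map (fun p => p.reverse) (fun _ _ h => Htpy.reverse h)⟩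
  refine Group.ofLeftAxioms ?_ ?_ ?_
  · intro a b c
    induction a using Quotient.inductionOn
    induction b using Quotient.inductionOn
    induction c using Quotient.inductionOn
    exact Loops.mk_eq.2 (Htpy.of_eq (Walk.append_assoc _ _ _).symm)
  · intro a
    induction a using Quotient.inductionOn
    exact Loops.mk_eq.2 (Htpy.refl _)
  · intro a
    induction a using Quotient.inductionOn
    exact Loops.mk_eq.2 (Htpy.cancel' _)

theorem Loops.mul_mk {v : V} (p q : G.Walk v v) :
    (Loops.mk p : Loops G Cell v) * Loops.mk q = Loops.mk (p.append q) := rfl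

theorem Loops.one_mk {v : V} : (1 : Loops G Cell v) = Loops.mk Walk.nil := rfl

theorem simply_connected_of_potential (hG : G.Preconnected) (Cell : ∀ v, G.Walk v v → Prop)
    (h : ∀ (Γ : Type u) [Group Γ] (θ : V → V → Γ), (∀ a b, ¬ G.Adj a b → θ a b = 1) →
      (∀ a b, θ a b * θ b a = 1) → (∀ v (c : G.Walk v v), Cell v c → wprod θ c = 1) →
      ∃ Φ : V → Γ, ∀ a b, G.Adj a b → θ a b = (Φ a)⁻¹ * Φ b)
    (v : V) (p : G.Walk v v) : Htpy G Cell p Walk.nil := by
  classical
  have hq : ∀ a, ∃ _ : G.Walk v a, True := fun a => ⟨(hG v a).some, trivial⟩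
  choose q _ using hq
  set θ : V → V → Loops G Cell v := fun a b =>
    if h : G.Adj a b then Loops.mk ((q a).append ((Walk.cons h Walk.nil).append (q b).reverse))
    else 1 with hθ
  have hadj : ∀ {a b} (h : G.Adj a b), θ a b =
      Loops.mk ((q a).append ((Walk.cons h Walk.nil).append (q b).reverse)) := by
    intro a b h
    simp only [hθ, dif_pos h]
  have hprod : ∀ {a b : V} (p : G.Walk a b),
      wprod θ p = Loops.mk ((q a).append (p.append (q b).reverse)) := by
    intro a b p
    induction p with
    | nil => exact Loops.mk_eq.2 (Htpy.cancel _).symm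
    | @cons a b c h p ih =>
      show θ a b * wprod θ p = _
      rw [ih, hadj h, Loops.mul_mk]
      apply Loops.mk_eq.2
      -- `(qa · h · qb⁻¹) · (qb · p · qc⁻¹) ~ qa · (h p) · qc⁻¹`
      have e1 : ((q a).append ((Walk.cons h Walk.nil).append (q b).reverse)).append
          ((q b).append (p.append (q c).reverse)) =
          (q a).append ((Walk.cons h Walk.nil).append (((q b).reverse.append (q b)).append
            (p.append (q c).reverse))) := by
        simp only [Walk.append_assoc]
      rw [e1]
      refine Htpy.append (Htpy.refl _) ?_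
      have e2 : (Walk.cons h p).append (q c).reverse =
          (Walk.cons h Walk.nil).append (Walk.nil.append (p.append (q c).reverse)) := by
        simp
      rw [e2]
      exact Htpy.append (Htpy.refl _) (Htpy.append (Htpy.cancel' _) (Htpy.refl _))
  have hinv : ∀ a b, θ a b * θ b a = 1 := by
    intro a b
    by_cases hab : G.Adj a b
    · have := hprod (Walk.cons hab (Walk.cons hab.symm Walk.nil))
      have e : wprod θ (Walk.cons hab (Walk.cons hab.symm Walk.nil)) =
        θ a b * (θ b a * 1) := rfl
      rw [e, mul_one] at this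
      rw [this, Loops.one_mk]
      apply Loops.mk_eq.2
      refine (Htpy.append (Htpy.refl _) (Htpy.append (Htpy.backtrack hab) (Htpy.refl _))).trans ?_
      exact Htpy.cancel _
    · have e1 : θ a b = 1 := by simp only [hθ, dif_neg hab]
      have hba : ¬ G.Adj b a := fun h' => hab (G.adj_symm h')
      have e2 : θ b a = 1 := by simp only [hθ, dif_neg hba]
      rw [e1, e2, mul_one]
  obtain ⟨Φ, hΦ⟩ := h (Loops G Cell v) θ (fun a b hab => by simp only [hθ, dif_neg hab]) hinv (by
    intro a c hc
    rw [hprod, Loops.one_mk]
    apply Loops.mk_eq.2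
    refine (Htpy.append (Htpy.refl _) (Htpy.append (Htpy.cell c hc) (Htpy.refl _))).trans ?_
    exact Htpy.cancel _)
  have hw : ∀ {a b : V} (p : G.Walk a b), wprod θ p = (Φ a)⁻¹ * Φ b := by
    intro a b p
    induction p with
    | nil => simp [wprod]
    | @cons a b c h p ih =>
      show θ a b * wprod θ p = _
      rw [ih, hΦ a b h]
      group
  have h1 := hw p
  rw [hprod, inv_mul_cancel, Loops.one_mk] at h1
  have h2 := Loops.mk_eq.1 h1
  -- conjugate back
  have h3 : Htpy G Cell p ((q v).reverse.append (((q v).append (p.append (q v).reverse)).append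
      (q v))) := by
    have e : (q v).reverse.append (((q v).append (p.append (q v).reverse)).append (q v)) =
        ((q v).reverse.append (q v)).append (p.append ((q v).reverse.append (q v))) := by
      simp only [Walk.append_assoc]
    rw [e]
    have := Htpy.append (Htpy.cancel' (Cell := Cell) (q v)).symm
      (Htpy.append (Htpy.refl (Cell := Cell) p) (Htpy.cancel' (Cell := Cell) (q v)).symm)
    rwa [Walk.nil_append, Walk.append_nil] at this
  refine h3.trans ((Htpy.append (Htpy.refl _) (Htpy.append h2 (Htpy.refl _))).trans ?_)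
  rw [Walk.nil_append]
  exact Htpy.cancel' _

end Pool.Agent.Q161.Flip
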