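import Pool.Agent.Q161.FlipSys
import Pool.Agent.Q161.FlipHtpy

/-!
# The flip graph of double wiring diagrams (MP_8f97c4_co)
-/

namespace Pool.Agent.Q161.Flip

open SimpleGraph

/-- The pairs of letters that may be exchanged: letters of the same colour whose indices differ by
at least `2`, and letters of different colours with different indices. -/
def Comm (a b : Letter) : Prop :=
  (a.2 = b.2 ∧ (a.1 + 2 ≤ b.1 ∨ b.1 + 2 ≤ a.1)) ∨ (a.2 ≠ b.2 ∧ a.1 ≠ b.1)

/-- One commutation. -/
def CommStep (w w' : List Letter) : Prop :=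
  ∃ x a b y, Comm a b ∧ w = x ++ a :: b :: y ∧ w' = x ++ b :: a :: y

/-- The Coxeter move `i (i+1) i → (i+1) i (i+1)` of colour `c`. -/
def Cox (c : Bool) (w w' : List Letter) : Prop :=
  ∃ x i y, w = x ++ (i, c) :: (i + 1, c) :: (i, c) :: y ∧
    w' = x ++ (i + 1, c) :: (i, c) :: (i + 1, c) :: y

/-- The mixed move `i ī → ī i`. -/
def Mix (w w' : List Letter) : Prop :=
  ∃ x i y, w = x ++ (i, false) :: (i, true) :: y ∧ w' = x ++ (i, true) :: (i, false) :: y

/-- Double wiring diagrams as words. -/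
abbrev DWord (n : ℕ) := {w : List Letter // IsDWD n w}

/-- Equivalence under commutations. -/
def commSetoid (n : ℕ) : Setoid (DWord n) :=
  Relation.EqvGen.setoid (fun u v : DWord n => CommStep u.1 v.1)

/-- The double wiring diagrams: the words up to commutations. -/
def Vert (n : ℕ) : Type := Quotient (commSetoid n)

/-- The class of a word. -/
def cls {n : ℕ} (w : DWord n) : Vert n := Quotient.mk (commSetoid n) w

/-- Two classes are related by a Coxeter move of colour `c`. -/
def CoxAdj (n : ℕ) (c : Bool) (A B : Vert n) : Prop :=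
  ∃ u v : DWord n, cls u = A ∧ cls v = B ∧ (Cox c u.1 v.1 ∨ Cox c v.1 u.1)

/-- Two classes are related by a mixed move. -/
def MixAdj (n : ℕ) (A B : Vert n) : Prop :=
  ∃ u v : DWord n, cls u = A ∧ cls v = B ∧ (Mix u.1 v.1 ∨ Mix v.1 u.1)

/-! ### The invariants -/

/-- The subword on two letters. -/
def proj (a b : Letter) (w : List Letter) : List Letter := w.filter (fun s => s = a ∨ s = b)

theorem proj_append (a b : Letter) (w w' : List Letter) :
    proj a b (w ++ w') = proj a b w ++ proj a b w' := List.filter_append _ _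

theorem proj_nil (a b : Letter) : proj a b [] = [] := rfl

theorem proj_cons_left (a b : Letter) (w : List Letter) : proj a b (a :: w) = a :: proj a b w := by
  unfold proj; simp

theorem proj_cons_right (a b : Letter) (w : List Letter) :
    proj a b (b :: w) = b :: proj a b w := by
  unfold proj; simp

theorem proj_cons_ne {a b s : Letter} (h1 : s ≠ a) (h2 : s ≠ b) (w : List Letter) :
    proj a b (s :: w) = proj a b w := by
  unfold proj; simp [h1, h2]

theorem comm_symm {a b : Letter} (h : Comm a b) : Comm b a := by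
  rcases h with ⟨h1, h2⟩ | ⟨h1, h2⟩
  · exact Or.inl ⟨h1.symm, h2.symm⟩
  · exact Or.inr ⟨h1.symm, h2.symm⟩

theorem comm_irrefl (a : Letter) : ¬ Comm a a := by
  rintro (⟨_, h⟩ | ⟨h, _⟩)
  · omega
  · exact h rfl

theorem proj_swap {a b s t : Letter} (hab : ¬ Comm a b) (hst : Comm s t) (w : List Letter) :
    proj a b (s :: t :: w) = proj a b (t :: s :: w) := by
  by_cases h1 : s = a ∨ s = b
  · have h2 : ¬ (t = a ∨ t = b) := by
      rintro (rfl | rfl)
      · rcases h1 with rfl | rfl
        · exact comm_irrefl _ hst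
        · exact hab (comm_symm hst)
      · rcases h1 with rfl | rfl
        · exact hab hst
        · exact comm_irrefl _ hst
    unfold proj
    rw [List.filter_cons_of_pos (by simpa using h1), List.filter_cons_of_neg (by simpa using h2),
      List.filter_cons_of_neg (by simpa using h2), List.filter_cons_of_pos (by simpa using h1)]
  · unfold proj
    rw [List.filter_cons_of_neg (by simpa using h1)]
    by_cases h2 : t = a ∨ t = b
    · rw [List.filter_cons_of_pos (by simpa using h2), List.filter_cons_of_pos (by simpa using h2),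
        List.filter_cons_of_neg (by simpa using h1)]
    · rw [List.filter_cons_of_neg (by simpa using h2), List.filter_cons_of_neg (by simpa using h2),
        List.filter_cons_of_neg (by simpa using h1)]

theorem proj_comm {a b : Letter} (hab : ¬ Comm a b) {w w' : List Letter} (h : CommStep w w') :
    proj a b w = proj a b w' := by
  obtain ⟨x, s, t, y, hst, rfl, rfl⟩ := h
  rw [proj_append, proj_append, proj_swap hab hst]

/-- The invariant of a class. -/
def projV {n : ℕ} {a b : Letter} (hab : ¬ Comm a b) : Vert n → List Letter :=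
  Quotient.lift (fun w : DWord n => proj a b w.1) (by
    intro u v h
    induction h with
    | rel _ _ h => exact proj_comm hab h
    | refl _ => rfl
    | symm _ _ _ ih => exact ih.symm
    | trans _ _ _ _ _ ih1 ih2 => exact ih1.trans ih2)

theorem projV_cls {n : ℕ} {a b : Letter} (hab : ¬ Comm a b) (w : DWord n) :
    projV hab (cls w) = proj a b w.1 := rfl

theorem not_comm_succ (i : ℕ) (c : Bool) : ¬ Comm (i, c) (i + 1, c) := by
  rintro (⟨_, h⟩ | ⟨h, _⟩)
  · simp only at h; omega
  · exact h rfl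

theorem not_comm_bar (i : ℕ) (c d : Bool) : ¬ Comm (i, c) (i, d) := by
  rintro (⟨_, h⟩ | ⟨_, h⟩)
  · simp only at h; omega
  · exact h rfl

theorem cox_ne {n : ℕ} {c : Bool} {u v : DWord n} (h : Cox c u.1 v.1) : cls u ≠ cls v := by
  intro he
  obtain ⟨x, i, y, h1, h2⟩ := h
  have h3 := congrArg (projV (not_comm_succ i c)) he
  rw [projV_cls, projV_cls, h1, h2, proj_append, proj_append, proj_cons_left, proj_cons_right,
    proj_cons_left, proj_cons_right, proj_cons_left, proj_cons_right] at h3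
  have h4 := List.append_cancel_left h3
  simp at h4

theorem mix_ne {n : ℕ} {u v : DWord n} (h : Mix u.1 v.1) : cls u ≠ cls v := by
  intro he
  obtain ⟨x, i, y, h1, h2⟩ := h
  have h3 := congrArg (projV (not_comm_bar i false true)) he
  rw [projV_cls, projV_cls, h1, h2, proj_append, proj_append, proj_cons_left, proj_cons_right,
    proj_cons_right, proj_cons_left] at h3
  have h4 := List.append_cancel_left h3
  simp at h4

theorem coxAdj_symm {n : ℕ} {c : Bool} {A B : Vert n} (h : CoxAdj n c A B) : CoxAdj n c B A := by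
  obtain ⟨u, v, h1, h2, h3⟩ := h
  exact ⟨v, u, h2, h1, h3.symm⟩

theorem mixAdj_symm {n : ℕ} {A B : Vert n} (h : MixAdj n A B) : MixAdj n B A := by
  obtain ⟨u, v, h1, h2, h3⟩ := h
  exact ⟨v, u, h2, h1, h3.symm⟩

/-- The flip graph. -/
def flipGraph (n : ℕ) : SimpleGraph (Vert n) where
  Adj A B := (∃ c, CoxAdj n c A B) ∨ MixAdj n A B
  symm := ⟨fun A B h => by
    rcases h with ⟨c, h⟩ | h
    · exact Or.inl ⟨c, coxAdj_symm h⟩
    · exact Or.inr (mixAdj_symm h)⟩
  loopless := ⟨fun A h => by
    rcases h with ⟨c, u, v, h1, h2, h3 | h3⟩ | ⟨u, v, h1, h2, h3 | h3⟩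
    · exact cox_ne h3 (h1.trans h2.symm)
    · exact cox_ne h3 (h2.trans h1.symm)
    · exact mix_ne h3 (h1.trans h2.symm)
    · exact mix_ne h3 (h2.trans h1.symm)⟩

/-- The cells: the cycles of length `4`, the cycles of length `5`, and the cycles of length `8` all
of whose edges are Coxeter moves of one and the same colour. -/
def IsCell (n : ℕ) (v : Vert n) (p : (flipGraph n).Walk v v) : Prop :=
  p.IsCycle ∧ (p.length = 4 ∨ p.length = 5 ∨
    (p.length = 8 ∧ ∃ c, ∀ d ∈ p.darts, CoxAdj n c d.fst d.snd))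

/-! ### Classes of words -/

theorem exists_dword (n : ℕ) : Nonempty (DWord n) := by
  obtain ⟨w, hw⟩ := (sys n).exists_leg _ T0 rfl
  exact ⟨⟨w, (isDWD_iff n w).2 hw⟩⟩

open Classical in
/-- The class of a word (a fixed class for the words that are not double wiring diagrams). -/
noncomputable def cl (n : ℕ) (w : List Letter) : Vert n :=
  if h : IsDWD n w then cls ⟨w, h⟩ else cls (exists_dword n).some

theorem cl_of {n : ℕ} {w : List Letter} (h : IsDWD n w) : cl n w = cls ⟨w, h⟩ := by
  unfold cl; rw [dif_pos h]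

theorem comm_ne {s t : Letter} (h : Comm s t) : s ≠ t := by
  rintro rfl; exact comm_irrefl _ h

theorem comm_not_adj3 {s t : Letter} (h : Comm s t) : ¬ adj3 s t := by
  rintro ⟨h1, h2⟩
  rcases h with ⟨_, h⟩ | ⟨h, _⟩
  · omega
  · exact h h1

/-- Mixed pairs. -/
def Mixed (s t : Letter) : Prop := s.1 = t.1 ∧ s.2 ≠ t.2

theorem Mixed.symm {s t : Letter} (h : Mixed s t) : Mixed t s := ⟨h.1.symm, h.2.symm⟩

theorem mixed_ne {s t : Letter} (h : Mixed s t) : s ≠ t := by
  rintro rfl; exact h.2 rfl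

theorem mixed_not_adj3 {s t : Letter} (h : Mixed s t) : ¬ adj3 s t := fun h' => h.2 h'.1

theorem comm_or_mixed {s t : Letter} (h : s ≠ t) (h3 : ¬ adj3 s t) : Comm s t ∨ Mixed s t := by
  by_cases hc : s.2 = t.2
  · exact Or.inl (Or.inl ⟨hc, not_adj3 h h3 hc⟩)
  · by_cases hi : s.1 = t.1
    · exact Or.inr ⟨hi, hc⟩
    · exact Or.inl (Or.inr ⟨hc, hi⟩)

theorem mixed_not_comm {s t : Letter} (h : Mixed s t) : ¬ Comm s t := by
  rintro (⟨h1, _⟩ | ⟨_, h1⟩)
  · exact h.2 h1
  · exact h1 h.1

theorem adj3_not_comm {s t : Letter} (h : adj3 s t) : ¬ Comm s t := fun h' => comm_not_adj3 h' h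

variable {n : ℕ}

theorem isDWD_mv {w w' : List Letter} (h : (sys n).Mv w w') (hw : IsDWD n w) : IsDWD n w' :=
  (isDWD_iff n w').2 ((sys n).leg_Mv h ((isDWD_iff n w).1 hw))

theorem isDWD_two {s t : Letter} (hne : s ≠ t) (h3 : ¬ adj3 s t) {w w' : List Letter}
    (x y : List Letter) (e : w = x ++ s :: t :: y) (e' : w' = x ++ t :: s :: y)
    (hw : IsDWD n w) : IsDWD n w' :=
  isDWD_mv ⟨x, [s, t], [t, s], y, Sys.El.two hne h3, by simp [e], by simp [e']⟩ hw

theorem step_comm {s t : Letter} (h : Comm s t) {w w' : List Letter} (x y : List Letter)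
    (e : w = x ++ s :: t :: y) (e' : w' = x ++ t :: s :: y) (hw : IsDWD n w) :
    IsDWD n w' ∧ cl n w = cl n w' := by
  have hw' := isDWD_two (comm_ne h) (comm_not_adj3 h) x y e e' hw
  refine ⟨hw', ?_⟩
  rw [cl_of hw, cl_of hw']
  exact Quotient.sound (Relation.EqvGen.rel _ _ ⟨x, s, t, y, h, e, e'⟩)

theorem step_mix {s t : Letter} (h : Mixed s t) {w w' : List Letter} (x y : List Letter)
    (e : w = x ++ s :: t :: y) (e' : w' = x ++ t :: s :: y) (hw : IsDWD n w) :
    IsDWD n w' ∧ MixAdj n (cl n w) (cl n w') := by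
  have hw' := isDWD_two (mixed_ne h) (mixed_not_adj3 h) x y e e' hw
  refine ⟨hw', ?_⟩
  refine ⟨⟨w, hw⟩, ⟨w', hw'⟩, (cl_of hw).symm, (cl_of hw').symm, ?_⟩
  obtain ⟨i, c⟩ := s
  obtain ⟨j, d⟩ := t
  obtain ⟨h1, h2⟩ := h
  simp only at h1 h2
  subst h1
  cases c
  · have : d = true := by simpa using h2
    subst this
    exact Or.inl ⟨x, i, y, e, e'⟩
  · have : d = false := by simpa using h2
    subst this
    exact Or.inr ⟨x, i, y, e', e⟩

theorem step_cox {s t : Letter} (h : adj3 s t) {w w' : List Letter} (x y : List Letter)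
    (e : w = x ++ s :: t :: s :: y) (e' : w' = x ++ t :: s :: t :: y) (hw : IsDWD n w) :
    IsDWD n w' ∧ CoxAdj n s.2 (cl n w) (cl n w') := by
  have hw' : IsDWD n w' :=
    isDWD_mv ⟨x, [s, t, s], [t, s, t], y, Sys.El.three h, by simp [e], by simp [e']⟩ hw
  refine ⟨hw', ?_⟩
  refine ⟨⟨w, hw⟩, ⟨w', hw'⟩, (cl_of hw).symm, (cl_of hw').symm, ?_⟩
  obtain ⟨i, c⟩ := s
  obtain ⟨j, d⟩ := t
  obtain ⟨h1, h2⟩ := h
  simp only at h1 h2
  subst h1
  rcases h2 with rfl | rfl
  · exact Or.inl ⟨x, i, y, e, e'⟩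
  · exact Or.inr ⟨x, j, y, e', e⟩

theorem el_cases {A A' : List Letter} (h : (sys n).El A A') :
    (∀ x y, IsDWD n (x ++ (A ++ y)) → cl n (x ++ (A ++ y)) = cl n (x ++ (A' ++ y))) ∨
    (∀ x y, IsDWD n (x ++ (A ++ y)) →
      (flipGraph n).Adj (cl n (x ++ (A ++ y))) (cl n (x ++ (A' ++ y)))) := by
  cases h with
  | @two s t h h3 =>
    rcases comm_or_mixed h h3 with h4 | h4
    · exact Or.inl (fun x y hw => (step_comm h4 x y (by simp) (by simp) hw).2)
    · exact Or.inr (fun x y hw => Or.inr (step_mix h4 x y (by simp) (by simp) hw).2)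
  | @three s t h =>
    exact Or.inr (fun x y hw => Or.inl ⟨_, (step_cox h x y (by simp) (by simp) hw).2⟩)

theorem isDWD_el {A A' : List Letter} (h : (sys n).El A A') {x y : List Letter}
    (hw : IsDWD n (x ++ (A ++ y))) : IsDWD n (x ++ (A' ++ y)) :=
  isDWD_mv ⟨x, A, A', y, h, by simp, by simp⟩ hw

theorem mv_cases {w w' : List Letter} (h : (sys n).Mv w w') (hw : IsDWD n w) :
    cl n w = cl n w' ∨ (flipGraph n).Adj (cl n w) (cl n w') := by
  obtain ⟨x, A, A', y, hA, rfl, rfl⟩ := h
  rw [List.append_assoc] at hw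
  rcases el_cases (n := n) hA with h1 | h1
  · left
    have := h1 x y hw
    simpa using this
  · right
    have := h1 x y hw
    simpa using this

theorem flipGraph_connected (n : ℕ) : (flipGraph n).Preconnected := by
  intro A B
  obtain ⟨u, rfl⟩ : ∃ u : DWord n, cls u = A := Quotient.exists_rep A
  obtain ⟨v, rfl⟩ : ∃ v : DWord n, cls v = B := Quotient.exists_rep B
  have hu := (isDWD_iff n u.1).1 u.2
  have hv := (isDWD_iff n v.1).1 v.2
  have h := (sys n).connected _ T0 rfl u.1 v.1 hu hv
  have key : ∀ w, Relation.ReflTransGen (sys n).Mv u.1 w →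
      IsDWD n w ∧ (flipGraph n).Reachable (cl n u.1) (cl n w) := by
    intro w hw
    induction hw with
    | refl => exact ⟨u.2, Reachable.refl _⟩
    | tail _ h2 ih =>
      refine ⟨isDWD_mv h2 ih.1, ?_⟩
      rcases mv_cases h2 ih.1 with h3 | h3
      · rw [← h3]; exact ih.2
      · exact ih.2.trans h3.reachable
  have h1 := (key v.1 h).2
  rwa [cl_of u.2, cl_of v.2] at h1

end Pool.Agent.Q161.Flip
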