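import Pool.Agent.Q161.FlipCells

/-!
# The flip complex of double wiring diagrams is simply connected (MP_8f97c4_co)
-/

namespace Pool.Agent.Q161.Flip

open SimpleGraph

variable {n : ℕ}

theorem Good.coc {Γ : Type*} [Group Γ] {θ : Vert n → Vert n → Γ} (h : Good n θ) :
    Coc (sys n) (fun w w' => θ (cl n w) (cl n w')) T0 where
  inv _ _ := h.inv _ _
  sq hA hB hw := h.sq hA hB ((isDWD_iff n _).2 hw)
  r222 h1 h2 h3 m1 m2 m3 hw := h.r222 h1 h2 h3 m1 m2 m3 ((isDWD_iff n _).2 hw)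
  r322 m1 h2 h3 m2 m3 hw := h.r322 m1 h2 h3 m2 m3 ((isDWD_iff n _).2 hw)
  r332 m1 m2 h3 _ hw := h.r332 m1 m2 h3 ((isDWD_iff n _).2 hw)

theorem commStep_mv {w w' : List Letter} (h : CommStep w w') : (sys n).Mv w w' := by
  obtain ⟨x, a, b, y, hab, rfl, rfl⟩ := h
  exact ⟨x, [a, b], [b, a], y, Sys.El.two (comm_ne hab) (comm_not_adj3 hab), by simp, by simp⟩

theorem cox_mv {c : Bool} {w w' : List Letter} (h : Cox c w w') : (sys n).Mv w w' := by
  obtain ⟨x, i, y, rfl, rfl⟩ := h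
  exact ⟨x, [(i, c), (i + 1, c), (i, c)], [(i + 1, c), (i, c), (i + 1, c)], y,
    Sys.El.three ⟨rfl, Or.inl rfl⟩, by simp, by simp⟩

theorem mix_mv {w w' : List Letter} (h : Mix w w') : (sys n).Mv w w' := by
  obtain ⟨x, i, y, rfl, rfl⟩ := h
  have h1 : Mixed (i, false) (i, true) := ⟨rfl, by simp⟩
  exact ⟨x, [(i, false), (i, true)], [(i, true), (i, false)], y,
    Sys.El.two (mixed_ne h1) (mixed_not_adj3 h1), by simp, by simp⟩

theorem Good.potential {Γ : Type*} [Group Γ] {θ : Vert n → Vert n → Γ} (h : Good n θ) :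
    ∃ Φ : Vert n → Γ, ∀ a b, (flipGraph n).Adj a b → θ a b = (Φ a)⁻¹ * Φ b := by
  obtain ⟨φ, hφ⟩ := h.coc.potential (sys n) _ T0 rfl [] (fun w hw => hw)
  simp only [List.nil_append] at hφ
  have hφ' : ∀ w w', (sys n).Mv w w' → IsDWD n w → θ (cl n w) (cl n w') = (φ w)⁻¹ * φ w' :=
    fun w w' h1 h2 => hφ w w' h1 ((isDWD_iff n w).1 h2)
  have hconst : ∀ u v : DWord n, (commSetoid n).r u v → φ u.1 = φ v.1 := by
    intro u v huv
    induction huv with
    | rel u v h1 =>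
      have h2 := hφ' u.1 v.1 (commStep_mv h1) u.2
      have h3 : cls u = cls v := Quotient.sound (Relation.EqvGen.rel _ _ h1)
      rw [cl_of u.2, cl_of v.2] at h2
      change θ (cls u) (cls v) = _ at h2
      rw [h3, h.self] at h2
      exact (inv_mul_eq_one.1 h2.symm)
    | refl _ => rfl
    | symm _ _ _ ih => exact ih.symm
    | trans _ _ _ _ _ ih1 ih2 => exact ih1.trans ih2
  refine ⟨Quotient.lift (fun w : DWord n => φ w.1) hconst, fun a b hab => ?_⟩
  have key : ∀ u v : DWord n, ((sys n).Mv u.1 v.1 ∨ (sys n).Mv v.1 u.1) →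
      θ (cls u) (cls v) = (φ u.1)⁻¹ * φ v.1 := by
    rintro u v (h1 | h1)
    · have h2 := hφ' u.1 v.1 h1 u.2
      rwa [cl_of u.2, cl_of v.2] at h2
    · have h2 := hφ' u.1 v.1 (Sys.Mv.symm (sys n) h1) u.2
      rwa [cl_of u.2, cl_of v.2] at h2
  rcases hab with ⟨c, u, v, rfl, rfl, h1⟩ | ⟨u, v, rfl, rfl, h1⟩
  · exact key u v (h1.imp cox_mv cox_mv)
  · exact key u v (h1.imp mix_mv mix_mv)

/-- The flip graph is connected and every closed walk is null-homotopic. -/
theorem flip_simply_connected (n : ℕ) : (flipGraph n).Connected ∧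
    ∀ (v : Vert n) (p : (flipGraph n).Walk v v), Htpy (flipGraph n) (IsCell n) p Walk.nil := by
  refine ⟨?_, fun v p => ?_⟩
  · have : Nonempty (Vert n) := ⟨cls (exists_dword n).some⟩
    exact ⟨flipGraph_connected n⟩
  · exact simply_connected_of_potential (flipGraph_connected n) (IsCell n)
      (fun Γ _ θ h1 h2 h3 => Good.potential ⟨h1, h2, h3⟩) v p

end Pool.Agent.Q161.Flip
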