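import Mathlib

/-!
# Sorting recursions (MP_26ab9b_co, MP_5ec843_co)
-/

namespace Pool.Agent.Q161.Keys

/-- `a` has an ascent at `i`, inside the first `h` entries. -/
def Asc (h : ℕ) (a : ℕ → ℤ) (i : ℕ) : Prop := i + 1 < h ∧ a i < a (i + 1)

/-- `a` with the entries `i`, `i + 1` exchanged. -/
def sw (a : ℕ → ℤ) (i : ℕ) : ℕ → ℤ := fun j => a (Equiv.swap i (i + 1) j)

/-- The pairs `p < q < h` with `a p < a q`. -/
def coinvSet (h : ℕ) (a : ℕ → ℤ) : Finset (ℕ × ℕ) :=
  (Finset.range h ×ˢ Finset.range h).filter (fun p => p.1 < p.2 ∧ a p.1 < a p.2)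

/-- The number of pairs `p < q < h` with `a p < a q`. -/
def coinv (h : ℕ) (a : ℕ → ℤ) : ℕ := (coinvSet h a).card

theorem sw_left (a : ℕ → ℤ) (i : ℕ) : sw a i i = a (i + 1) := by
  unfold sw; rw [Equiv.swap_apply_left]

theorem sw_right (a : ℕ → ℤ) (i : ℕ) : sw a i (i + 1) = a i := by
  unfold sw; rw [Equiv.swap_apply_right]

theorem sw_ne (a : ℕ → ℤ) {i j : ℕ} (h1 : j ≠ i) (h2 : j ≠ i + 1) : sw a i j = a j := by
  unfold sw; rw [Equiv.swap_apply_of_ne_of_ne h1 h2]

theorem sw_sw (a : ℕ → ℤ) (i : ℕ) : sw (sw a i) i = a := by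
  funext j
  show a (Equiv.swap i (i + 1) (Equiv.swap i (i + 1) j)) = a j
  rw [Equiv.swap_apply_self]

theorem mem_coinvSet {h : ℕ} {a : ℕ → ℤ} {p : ℕ × ℕ} :
    p ∈ coinvSet h a ↔ p.1 < p.2 ∧ p.2 < h ∧ a p.1 < a p.2 := by
  unfold coinvSet
  rw [Finset.mem_filter, Finset.mem_product, Finset.mem_range, Finset.mem_range]
  constructor
  · rintro ⟨⟨h1, h2⟩, h3, h4⟩; exact ⟨h3, h2, h4⟩
  · rintro ⟨h1, h2, h3⟩; exact ⟨⟨by omega, h2⟩, h1, h3⟩

theorem swap_lt {i p q : ℕ} (h : p < q) (hne : ¬ (p = i ∧ q = i + 1)) :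
    Equiv.swap i (i + 1) p < Equiv.swap i (i + 1) q := by
  rw [Equiv.swap_apply_def, Equiv.swap_apply_def]
  split_ifs <;> omega

theorem swap_lt_h {i q h : ℕ} (hi : i + 1 < h) (hq : q < h) : Equiv.swap i (i + 1) q < h := by
  rw [Equiv.swap_apply_def]
  split_ifs <;> omega

theorem coinv_sw {h : ℕ} {a : ℕ → ℤ} {i : ℕ} (hi : Asc h a i) :
    coinv h (sw a i) + 1 = coinv h a := by
  have hmem : (i, i + 1) ∈ coinvSet h a := mem_coinvSet.2 ⟨by simp, hi.1, hi.2⟩
  have h1 : coinv h (sw a i) = ((coinvSet h a).erase (i, i + 1)).card := by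
    unfold coinv
    refine Finset.card_nbij'
      (fun p => (Equiv.swap i (i + 1) p.1, Equiv.swap i (i + 1) p.2))
      (fun p => (Equiv.swap i (i + 1) p.1, Equiv.swap i (i + 1) p.2)) ?_ ?_ ?_ ?_
    · intro p hp
      have hp' := mem_coinvSet.1 (Finset.mem_coe.1 hp)
      have hne : ¬ (p.1 = i ∧ p.2 = i + 1) := by
        rintro ⟨e1, e2⟩
        have := hp'.2.2
        rw [e1, e2, sw_left, sw_right] at this
        exact absurd hi.2 (not_lt.2 this.le)
      rw [Finset.mem_coe, Finset.mem_erase, mem_coinvSet]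
      refine ⟨?_, swap_lt hp'.1 hne, swap_lt_h hi.1 hp'.2.1, hp'.2.2⟩
      intro heq
      rw [Prod.mk.injEq] at heq
      have e1 : p.1 = i + 1 := by
        have := congrArg (Equiv.swap i (i + 1)) heq.1
        rwa [Equiv.swap_apply_self, Equiv.swap_apply_left] at this
      have e2 : p.2 = i := by
        have := congrArg (Equiv.swap i (i + 1)) heq.2
        rwa [Equiv.swap_apply_self, Equiv.swap_apply_right] at this
      have := hp'.1
      omega
    · intro p hp
      rw [Finset.mem_coe, Finset.mem_erase, mem_coinvSet] at hp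
      obtain ⟨h0, hp1, hp2, hp3⟩ := hp
      have hne : ¬ (p.1 = i ∧ p.2 = i + 1) := fun ⟨e1, e2⟩ => h0 (Prod.ext e1 e2)
      rw [Finset.mem_coe, mem_coinvSet]
      refine ⟨swap_lt hp1 hne, swap_lt_h hi.1 hp2, ?_⟩
      show a (Equiv.swap i (i + 1) (Equiv.swap i (i + 1) p.1)) <
        a (Equiv.swap i (i + 1) (Equiv.swap i (i + 1) p.2))
      rwa [Equiv.swap_apply_self, Equiv.swap_apply_self]
    · intro p _
      simp
    · intro p _
      simp
  rw [h1, Finset.card_erase_of_mem hmem]
  have : 0 < (coinvSet h a).card := Finset.card_pos.2 ⟨_, hmem⟩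
  show (coinvSet h a).card - 1 + 1 = (coinvSet h a).card
  omega

open Classical in
/-- The value at `a` of the recursion: `b a` if `a` is weakly decreasing on the first `h` entries,
and `T i` applied to the value at `sw a i`, for the least ascent `i` of `a`, otherwise. -/
noncomputable def climb {M : Type*} (T : ℕ → M → M) (b : (ℕ → ℤ) → M) (h : ℕ) (a : ℕ → ℤ) : M :=
  if H : ∃ i, Asc h a i then T (Nat.find H) (climb T b h (sw a (Nat.find H))) else b a
termination_by coinv h a
decreasing_by
  have := coinv_sw (Nat.find_spec H)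
  omega

theorem climb_base {M : Type*} (T : ℕ → M → M) (b : (ℕ → ℤ) → M) {h : ℕ} {a : ℕ → ℤ}
    (H : ∀ i, ¬ Asc h a i) : climb T b h a = b a := by
  rw [climb, dif_neg (by push Not; exact H)]

theorem sw_sw_comm (a : ℕ → ℤ) {i j : ℕ} (h : i + 2 ≤ j) : sw (sw a i) j = sw (sw a j) i := by
  funext k
  unfold sw
  congr 1
  simp only [Equiv.swap_apply_def]
  split_ifs <;> omega

theorem sw_braid (a : ℕ → ℤ) (i : ℕ) :
    sw (sw (sw a i) (i + 1)) i = sw (sw (sw a (i + 1)) i) (i + 1) := by
  funext k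
  unfold sw
  congr 1
  simp only [Equiv.swap_apply_def]
  split_ifs <;> omega

theorem climb_eq {M : Type*} {T : ℕ → M → M} (b : (ℕ → ℤ) → M) {h : ℕ}
    (hc : ∀ i j f, i + 2 ≤ j → T i (T j f) = T j (T i f))
    (hb : ∀ i f, T i (T (i + 1) (T i f)) = T (i + 1) (T i (T (i + 1) f))) :
    ∀ (a : ℕ → ℤ) (i : ℕ), Asc h a i → climb T b h a = T i (climb T b h (sw a i)) := by
  intro a
  induction hn : coinv h a using Nat.strong_induction_on generalizing a with
  | _ n ih =>
    subst hn
    have two : ∀ i j, i < j → Asc h a i → Asc h a j →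
        T i (climb T b h (sw a i)) = T j (climb T b h (sw a j)) := by
      intro i j hij hi hj
      have ci := coinv_sw hi
      have cj := coinv_sw hj
      rcases Nat.lt_or_ge (i + 1) j with h2 | h2
      · have a1 : Asc h (sw a i) j := by
          refine ⟨hj.1, ?_⟩
          rw [sw_ne a (by omega) (by omega), sw_ne a (by omega) (by omega)]
          exact hj.2
        have a2 : Asc h (sw a j) i := by
          refine ⟨hi.1, ?_⟩
          rw [sw_ne a (by omega) (by omega), sw_ne a (by omega) (by omega)]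
          exact hi.2
        rw [ih _ (by omega) (sw a i) rfl j a1, ih _ (by omega) (sw a j) rfl i a2,
          hc i j _ (by omega), sw_sw_comm a (by omega)]
      · obtain rfl : j = i + 1 := by omega
        have h1 := hi.2
        have h3 := hj.2
        have a1 : Asc h (sw a i) (i + 1) := by
          refine ⟨hj.1, ?_⟩
          rw [sw_right, sw_ne a (by omega) (by omega)]
          exact h1.trans h3
        have a2 : Asc h (sw a (i + 1)) i := by
          refine ⟨hi.1, ?_⟩
          rw [sw_left, sw_ne a (by omega) (by omega)]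
          exact h1.trans h3
        have c1 := coinv_sw a1
        have c2 := coinv_sw a2
        have a3 : Asc h (sw (sw a i) (i + 1)) i := by
          refine ⟨hi.1, ?_⟩
          rw [sw_left, sw_ne _ (by omega) (by omega), sw_left, sw_ne a (by omega) (by omega)]
          exact h3
        have a4 : Asc h (sw (sw a (i + 1)) i) (i + 1) := by
          refine ⟨hj.1, ?_⟩
          rw [sw_ne (sw a (i + 1)) (j := i + 1 + 1) (by omega) (by omega), sw_right, sw_right,
            sw_ne a (j := i) (by omega) (by omega)]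
          exact h1
        rw [ih _ (by omega) (sw a i) rfl (i + 1) a1, ih _ (by omega) _ rfl i a3,
          ih _ (by omega) (sw a (i + 1)) rfl i a2, ih _ (by omega) _ rfl (i + 1) a4, hb,
          sw_braid]
    intro i hi
    classical
    have H : ∃ i, Asc h a i := ⟨i, hi⟩
    have e : climb T b h a = T (Nat.find H) (climb T b h (sw a (Nat.find H))) := by
      rw [climb, dif_pos H]
    rw [e]
    have hf := Nat.find_spec H
    have hle := Nat.find_min' H hi
    rcases Nat.lt_or_ge (Nat.find H) i with h1 | h1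
    · exact two _ _ h1 hf hi
    · rw [Nat.le_antisymm hle h1]

end Pool.Agent.Q161.Keys
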