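import Pool.Agent.Q161.FlipCoc
import Pool.Agent.Q161.KeySort

/-!
# Double wiring diagrams as legal words (MP_8f97c4_co)
-/

namespace Pool.Agent.Q161.Flip

open Keys

/-- A letter of a double wiring diagram: its index (`0, …, n - 2`, for the problem's
`1, …, n - 1`) and its colour (`true` for the barred letters). -/
abbrev Letter := ℕ × Bool

/-- The letters of colour `c` of `w`, read in order, without their bars. -/
def part (c : Bool) (w : List Letter) : List ℕ := (w.filter (fun a => a.2 = c)).map Prod.fst

/-- `u` is a reduced word of the longest permutation `j ↦ n - 1 - j` of `{0, …, n - 1}`: its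
letters are indices of adjacent transpositions of `{0, …, n - 1}`, it has `n(n-1)/2` letters, and
the product of the adjacent transpositions is the longest permutation. -/
def IsRedLongest (n : ℕ) (u : List ℕ) : Prop :=
  (∀ i ∈ u, i + 1 < n) ∧ u.length = n.choose 2 ∧
    ∀ j, j < n → (u.map (fun i => Equiv.swap i (i + 1))).prod j = n - 1 - j

/-- `w` is a double wiring diagram on `n` strands (as a word). -/
def IsDWD (n : ℕ) (w : List Letter) : Prop := ∀ c, IsRedLongest n (part c w)

/-! ### The system -/

/-- Letters of one colour with adjacent indices. -/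
def adj3 (s t : Letter) : Prop := s.2 = t.2 ∧ (s.1 + 1 = t.1 ∨ t.1 + 1 = s.1)

theorem coinv_eq_zero {n : ℕ} {a : ℕ → ℤ} (h : ∀ i, ¬ Asc n a i) : coinv n a = 0 := by
  unfold coinv
  rw [Finset.card_eq_zero, Finset.eq_empty_iff_forall_notMem]
  rintro ⟨p, q⟩ hp
  rw [mem_coinvSet] at hp
  obtain ⟨h1, h2, h3⟩ := hp
  simp only at h1 h2 h3
  have : ∀ k, p + k < n → a (p + k) ≤ a p := by
    intro k
    induction k with
    | zero => intro _; simp
    | succ k ih =>
      intro hk
      have := ih (by omega)
      have h4 : ¬ a (p + k) < a (p + k + 1) := fun h' => h (p + k) ⟨by omega, h'⟩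
      have e : p + (k + 1) = p + k + 1 := by omega
      rw [e]
      omega
  have h5 := this (q - p) (by omega)
  rw [show p + (q - p) = q by omega] at h5
  omega

theorem upd_upd_comm (T : Bool → ℕ → ℤ) {c d : Bool} (h : c ≠ d) (f g : ℕ → ℤ) :
    Function.update (Function.update T c f) d g = Function.update (Function.update T d g) c f :=
  Function.update_comm h f g T

theorem not_adj3 {s t : Letter} (h : s ≠ t) (h3 : ¬ adj3 s t) (hc : s.2 = t.2) :
    s.1 + 2 ≤ t.1 ∨ t.1 + 2 ≤ s.1 := by
  by_contra hcon
  push Not at hcon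
  obtain ⟨h1, h2⟩ := hcon
  have : s.1 ≠ t.1 := fun h' => h (Prod.ext h' hc)
  apply h3
  refine ⟨hc, ?_⟩
  omega

theorem asc_sw_iff {n : ℕ} (a : ℕ → ℤ) {i j : ℕ} (h : i + 2 ≤ j ∨ j + 2 ≤ i) :
    Asc n (sw a i) j ↔ Asc n a j := by
  unfold Asc
  rw [sw_ne a (by omega) (by omega), sw_ne a (by omega) (by omega)]

theorem sw_comm' (a : ℕ → ℤ) {i j : ℕ} (h : i + 2 ≤ j ∨ j + 2 ≤ i) :
    sw (sw a i) j = sw (sw a j) i := by
  rcases h with h | h
  · exact sw_sw_comm a h
  · exact (sw_sw_comm a h).symm

theorem asc3_up {n : ℕ} {a : ℕ → ℤ} {i : ℕ} (hi : Asc n a i) (hj : Asc n a (i + 1)) :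
    Asc n (sw a i) (i + 1) ∧ Asc n (sw (sw a i) (i + 1)) i := by
  refine ⟨⟨hj.1, ?_⟩, ⟨hi.1, ?_⟩⟩
  · rw [sw_right, sw_ne a (by omega) (by omega)]
    exact hi.2.trans hj.2
  · rw [sw_left, sw_ne _ (by omega) (by omega), sw_left, sw_ne a (by omega) (by omega)]
    exact hj.2

theorem asc3_dn {n : ℕ} {a : ℕ → ℤ} {i : ℕ} (hi : Asc n a i) (hj : Asc n a (i + 1)) :
    Asc n (sw a (i + 1)) i ∧ Asc n (sw (sw a (i + 1)) i) (i + 1) := by
  refine ⟨⟨hi.1, ?_⟩, ⟨hj.1, ?_⟩⟩
  · rw [sw_left, sw_ne a (by omega) (by omega)]
    exact hi.2.trans hj.2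
  · rw [sw_ne (sw a (i + 1)) (j := i + 1 + 1) (by omega) (by omega), sw_right, sw_right,
      sw_ne a (j := i) (by omega) (by omega)]
    exact hi.2

theorem asc3_up' {n : ℕ} {a : ℕ → ℤ} {i : ℕ} (h1 : Asc n a i) (h2 : Asc n (sw a i) (i + 1))
    (h3 : Asc n (sw (sw a i) (i + 1)) i) : Asc n a (i + 1) := by
  refine ⟨h2.1, ?_⟩
  have := h3.2
  rw [sw_left, sw_ne _ (by omega) (by omega), sw_left, sw_ne a (by omega) (by omega)] at this
  exact this

theorem asc3_dn' {n : ℕ} {a : ℕ → ℤ} {i : ℕ} (h1 : Asc n a (i + 1))
    (h2 : Asc n (sw a (i + 1)) i) (h3 : Asc n (sw (sw a (i + 1)) i) (i + 1)) : Asc n a i := by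
  refine ⟨h2.1, ?_⟩
  have := h3.2
  rw [sw_ne (sw a (i + 1)) (j := i + 1 + 1) (by omega) (by omega), sw_right, sw_right,
      sw_ne a (j := i) (by omega) (by omega)] at this
  exact this

/-- The system of the pairs of permutations, with one letter per adjacent transposition of each
of the two. -/
def sys (n : ℕ) : Sys (Bool → ℕ → ℤ) Letter where
  desc T s := Asc n (T s.2) s.1
  act T s := Function.update T s.2 (sw (T s.2) s.1)
  len T := coinv n (T false) + coinv n (T true)
  m3 := adj3
  m3_symm h := ⟨h.1.symm, h.2.symm⟩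
  m3_ne := by
    rintro s t ⟨_, h⟩ rfl
    omega
  m3_tri := by
    rintro s t r ⟨_, h1⟩ ⟨_, h2⟩ ⟨_, h3⟩
    omega
  len_act := by
    rintro T ⟨i, c⟩ h
    have := coinv_sw h
    cases c
    · simp only [Function.update_self] at *
      rw [Function.update_of_ne (by decide)]
      omega
    · simp only [Function.update_self] at *
      rw [Function.update_of_ne (by decide)]
      omega
  exists_desc := by
    intro T hT
    by_contra hcon
    push Not at hcon
    apply hT
    rw [coinv_eq_zero (fun i => hcon (i, false)), coinv_eq_zero (fun i => hcon (i, true))]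
  two := by
    rintro T ⟨i, c⟩ ⟨j, d⟩ h h3 hs ht
    simp only at *
    by_cases hc : c = d
    · subst hc
      have h4 := not_adj3 h h3 rfl
      simp only at h4
      simp only [Function.update_self, Function.update_idem]
      refine ⟨(asc_sw_iff _ h4).2 ht, ?_⟩
      rw [sw_comm' _ h4]
    · rw [Function.update_of_ne (Ne.symm hc), Function.update_of_ne hc]
      exact ⟨ht, upd_upd_comm T hc _ _⟩
  three := by
    rintro T ⟨i, c⟩ ⟨j, d⟩ h3 hs ht
    obtain ⟨h4, h5⟩ := h3
    simp only at *
    subst h4
    simp only [Function.update_self, Function.update_idem]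
    rcases h5 with h5 | h5
    · subst h5
      exact ⟨(asc3_up hs ht).1, (asc3_up hs ht).2, by rw [sw_braid]⟩
    · subst h5
      exact ⟨(asc3_dn ht hs).1, (asc3_dn ht hs).2, by rw [sw_braid]⟩
  two' := by
    rintro T ⟨i, c⟩ ⟨j, d⟩ h h3 hs ht
    simp only at *
    by_cases hc : c = d
    · subst hc
      have h4 := not_adj3 h h3 rfl
      simp only at h4
      simp only [Function.update_self] at ht
      exact (asc_sw_iff _ h4).1 ht
    · rw [Function.update_of_ne (Ne.symm hc)] at ht
      exact ht
  three' := by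
    rintro T ⟨i, c⟩ ⟨j, d⟩ h3 hs h1 h2
    obtain ⟨h4, h5⟩ := h3
    simp only at *
    subst h4
    simp only [Function.update_self, Function.update_idem] at h1 h2
    rcases h5 with h5 | h5
    · subst h5
      exact asc3_up' hs h1 h2
    · subst h5
      exact asc3_dn' hs h1 h2

/-! ### One colour -/

/-- Legal words for one colour. -/
def Leg1 (n : ℕ) : (ℕ → ℤ) → List ℕ → Prop
  | a, [] => coinv n a = 0
  | a, i :: u => Asc n a i ∧ Leg1 n (sw a i) u

/-- The final state. -/
def run (a : ℕ → ℤ) (u : List ℕ) : ℕ → ℤ :=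
  fun j => a ((u.map (fun i => Equiv.swap i (i + 1))).prod j)

theorem run_nil (a : ℕ → ℤ) : run a [] = a := rfl

theorem run_cons (a : ℕ → ℤ) (i : ℕ) (u : List ℕ) : run a (i :: u) = run (sw a i) u := by
  funext j
  unfold run sw
  rw [List.map_cons, List.prod_cons]
  rfl

theorem leg1_spec {n : ℕ} : ∀ (u : List ℕ) (a : ℕ → ℤ), Leg1 n a u →
    (∀ i ∈ u, i + 1 < n) ∧ u.length = coinv n a ∧ coinv n (run a u) = 0 := by
  intro u
  induction u with
  | nil =>
    intro a h
    have h' : coinv n a = 0 := h
    refine ⟨by simp, by simp [h'], h'⟩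
  | cons i u ih =>
    intro a h
    obtain ⟨h1, h2, h3⟩ := ih _ h.2
    have := coinv_sw h.1
    refine ⟨?_, ?_, ?_⟩
    · intro j hj
      rcases List.mem_cons.1 hj with rfl | hj
      · exact h.1.1
      · exact h1 j hj
    · rw [List.length_cons]; omega
    · rw [run_cons]; exact h3

theorem coinv_step {n : ℕ} {a : ℕ → ℤ} (ha : Function.Injective a) {i : ℕ} (hi : i + 1 < n)
    (h : ¬ Asc n a i) : coinv n a + 1 = coinv n (sw a i) := by
  have h1 : Asc n (sw a i) i := by
    refine ⟨hi, ?_⟩
    rw [sw_left, sw_right]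
    have h2 : ¬ a i < a (i + 1) := fun h' => h ⟨hi, h'⟩
    have h3 : a i ≠ a (i + 1) := fun h' => by have := ha h'; omega
    omega
  have := coinv_sw h1
  rwa [sw_sw] at this

theorem sw_inj {a : ℕ → ℤ} (ha : Function.Injective a) (i : ℕ) :
    Function.Injective (sw a i) := fun _ _ h => (Equiv.swap i (i + 1)).injective (ha h)

theorem coinv_le {n : ℕ} : ∀ (u : List ℕ) (a : ℕ → ℤ), Function.Injective a →
    (∀ i ∈ u, i + 1 < n) → coinv n a ≤ u.length + coinv n (run a u) := by
  intro u
  induction u with
  | nil => intro a _ _; simp [run_nil]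
  | cons i u ih =>
    intro a ha hu
    have := ih (sw a i) (sw_inj ha i) (fun j hj => hu j (List.mem_cons_of_mem _ hj))
    rw [run_cons, List.length_cons]
    by_cases h : Asc n a i
    · have := coinv_sw h; omega
    · have := coinv_step ha (hu i List.mem_cons_self) h; omega

theorem leg1_of {n : ℕ} : ∀ (u : List ℕ) (a : ℕ → ℤ), Function.Injective a →
    (∀ i ∈ u, i + 1 < n) → u.length = coinv n a → coinv n (run a u) = 0 → Leg1 n a u := by
  intro u
  induction u with
  | nil => intro a _ _ h _; exact h.symm
  | cons i u ih =>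
    intro a ha hu hl h0
    rw [run_cons] at h0
    rw [List.length_cons] at hl
    have hu' : ∀ j ∈ u, j + 1 < n := fun j hj => hu j (List.mem_cons_of_mem _ hj)
    have h1 := coinv_le (n := n) u (sw a i) (sw_inj ha i) hu'
    by_cases h : Asc n a i
    · have := coinv_sw h
      exact ⟨h, ih _ (sw_inj ha i) hu' (by omega) h0⟩
    · have := coinv_step ha (hu i List.mem_cons_self) h
      omega

/-- The identity. -/
def idn : ℕ → ℤ := fun j => (j : ℤ)

theorem idn_inj : Function.Injective idn := fun _ _ h => by
  have : ((_ : ℕ) : ℤ) = ((_ : ℕ) : ℤ) := h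
  exact_mod_cast this

theorem coinv_idn (n : ℕ) : coinv n idn = n.choose 2 := by
  rw [Nat.choose_two_right, ← Finset.sum_range_id]
  unfold coinv
  rw [Finset.card_eq_sum_card_fiberwise (f := Prod.snd) (t := Finset.range n)]
  · refine Finset.sum_congr rfl (fun q hq => ?_)
    rw [Finset.mem_range] at hq
    have : (coinvSet n idn).filter (fun p => p.2 = q) =
        (Finset.range q).image (fun p => (p, q)) := by
      ext ⟨x, y⟩
      rw [Finset.mem_filter, mem_coinvSet, Finset.mem_image]
      constructor
      · rintro ⟨⟨h1, h2, h3⟩, rfl⟩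
        exact ⟨x, Finset.mem_range.2 h1, rfl⟩
      · rintro ⟨p, hp, he⟩
        rw [Prod.mk.injEq] at he
        obtain ⟨rfl, rfl⟩ := he
        rw [Finset.mem_range] at hp
        refine ⟨⟨hp, hq, ?_⟩, rfl⟩
        show ((p : ℕ) : ℤ) < ((q : ℕ) : ℤ)
        exact_mod_cast hp
    rw [this, Finset.card_image_of_injective _ (fun a b h => (Prod.mk.injEq _ _ _ _ ▸ h).1),
      Finset.card_range]
  · intro p hp
    have := mem_coinvSet.1 (Finset.mem_coe.1 hp)
    rw [Finset.mem_coe, Finset.mem_range]
    exact this.2.1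

theorem prod_lt {n : ℕ} : ∀ (u : List ℕ), (∀ i ∈ u, i + 1 < n) → ∀ j, j < n →
    (u.map (fun i => Equiv.swap i (i + 1))).prod j < n := by
  intro u
  induction u with
  | nil => intro _ j hj; simpa using hj
  | cons i u ih =>
    intro hu j hj
    rw [List.map_cons, List.prod_cons, Equiv.Perm.mul_apply]
    exact swap_lt_h (hu i List.mem_cons_self)
      (ih (fun k hk => hu k (List.mem_cons_of_mem _ hk)) j hj)

theorem isRed_iff (n : ℕ) (u : List ℕ) : IsRedLongest n u ↔ Leg1 n idn u := by
  constructor
  · rintro ⟨h1, h2, h3⟩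
    refine leg1_of u idn idn_inj h1 (by rw [coinv_idn, h2]) ?_
    apply coinv_eq_zero
    rintro i ⟨hi, hlt⟩
    unfold run idn at hlt
    rw [h3 i (by omega), h3 (i + 1) hi] at hlt
    push_cast at hlt
    omega
  · intro h
    obtain ⟨h1, h2, h3⟩ := leg1_spec u idn h
    rw [coinv_idn] at h2
    refine ⟨h1, h2, ?_⟩
    set π := (u.map (fun i => Equiv.swap i (i + 1))).prod with hπ
    have hlt : ∀ j, j < n → π j < n := prod_lt u h1
    have hdec : ∀ j, j + 1 < n → π (j + 1) < π j := by
      intro j hj
      by_contra hcon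
      have hne : π j ≠ π (j + 1) := fun h' => by have := π.injective h'; omega
      have hmem : (j, j + 1) ∈ coinvSet n (run idn u) := by
        rw [mem_coinvSet]
        refine ⟨by simp, hj, ?_⟩
        show ((π j : ℕ) : ℤ) < ((π (j + 1) : ℕ) : ℤ)
        exact_mod_cast (by omega : π j < π (j + 1))
      unfold coinv at h3
      rw [Finset.card_eq_zero] at h3
      rw [h3] at hmem
      exact absurd hmem (Finset.notMem_empty _)
    have hup : ∀ j, j < n → π j + j < n := by
      intro j
      induction j with
      | zero => intro hj; have := hlt 0 hj; omega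
      | succ j ih => intro hj; have := ih (by omega); have := hdec j hj; omega
    have hdn : ∀ k j, j + k + 1 = n → k ≤ π j := by
      intro k
      induction k with
      | zero => intro j _; omega
      | succ k ih =>
        intro j hj
        have := ih (j + 1) (by omega)
        have := hdec j (by omega)
        omega
    intro j hj
    have a1 := hup j hj
    have a2 := hdn (n - 1 - j) j (by omega)
    omega

/-- The start state. -/
def T0 : Bool → ℕ → ℤ := fun _ => idn

theorem part_nil (c : Bool) : part c [] = [] := rfl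

theorem part_cons_self (c : Bool) (i : ℕ) (w : List Letter) :
    part c ((i, c) :: w) = i :: part c w := by
  unfold part
  simp

theorem part_cons_ne {c d : Bool} (h : d ≠ c) (i : ℕ) (w : List Letter) :
    part c ((i, d) :: w) = part c w := by
  unfold part
  simp [h]

theorem leg_iff {n : ℕ} : ∀ (w : List Letter) (T : Bool → ℕ → ℤ),
    (sys n).Leg T w ↔ ∀ c, Leg1 n (T c) (part c w) := by
  intro w
  induction w with
  | nil =>
    intro T
    constructor
    · intro h c
      have h' : coinv n (T false) + coinv n (T true) = 0 := h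
      cases c
      · show coinv n (T false) = 0; omega
      · show coinv n (T true) = 0; omega
    · intro h
      have h1 : coinv n (T false) = 0 := h false
      have h2 : coinv n (T true) = 0 := h true
      show coinv n (T false) + coinv n (T true) = 0
      omega
  | cons s w ih =>
    obtain ⟨i, d⟩ := s
    intro T
    have e : (sys n).Leg T ((i, d) :: w) ↔
        Asc n (T d) i ∧ (sys n).Leg (Function.update T d (sw (T d) i)) w := Iff.rfl
    rw [e, ih]
    constructor
    · rintro ⟨h1, h2⟩ c
      by_cases hc : d = c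
      · subst hc
        rw [part_cons_self]
        have := h2 d
        rw [Function.update_self] at this
        exact ⟨h1, this⟩
      · rw [part_cons_ne hc]
        have := h2 c
        rwa [Function.update_of_ne (Ne.symm hc)] at this
    · intro h
      have hd := h d
      rw [part_cons_self] at hd
      refine ⟨hd.1, fun c => ?_⟩
      by_cases hc : d = c
      · subst hc
        rw [Function.update_self]
        exact hd.2
      · rw [Function.update_of_ne (Ne.symm hc)]
        have := h c
        rwa [part_cons_ne hc] at this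

theorem isDWD_iff (n : ℕ) (w : List Letter) : IsDWD n w ↔ (sys n).Leg T0 w := by
  rw [leg_iff]
  exact forall_congr' (fun c => isRed_iff n _)

end Pool.Agent.Q161.Flip
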