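import Pool.Agent.Q161.FlipMain

/-!
# The flip between two adjacent double wiring diagrams is unique (MP_8f97c4_co)
-/

namespace Pool.Agent.Q161.Flip

/-- `w'` arises from `w` by the flip of the letters `a`, `b` after the prefix `x`: a Coxeter move
`a b a → b a b` (same colour, adjacent indices) or a mixed move `a b → b a` (same index, different
colours). -/
def FlipAt (a b : Letter) (x w w' : List Letter) : Prop :=
  (adj3 a b ∧ ∃ y, w = x ++ a :: b :: a :: y ∧ w' = x ++ b :: a :: b :: y) ∨
  (Mixed a b ∧ ∃ y, w = x ++ a :: b :: y ∧ w' = x ++ b :: a :: y)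

theorem pos_unique {α : Type*} : ∀ (P P' : List α) {a b a' b' : α} {R S R' S' : List α},
    a ≠ b → a' ≠ b' → P ++ a :: R = P' ++ a' :: R' → P ++ b :: S = P' ++ b' :: S' →
    P = P' ∧ a = a' ∧ b = b' := by
  intro P
  induction P with
  | nil =>
    intro P' a b a' b' R S R' S' h1 h2 h3 h4
    cases P' with
    | nil =>
      simp only [List.nil_append, List.cons.injEq] at h3 h4
      exact ⟨rfl, h3.1, h4.1⟩
    | cons e P' =>
      simp only [List.nil_append, List.cons_append, List.cons.injEq] at h3 h4
      exact (h1 (h3.1.trans h4.1.symm)).elim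
  | cons f P ih =>
    intro P' a b a' b' R S R' S' h1 h2 h3 h4
    cases P' with
    | nil =>
      simp only [List.nil_append, List.cons_append, List.cons.injEq] at h3 h4
      exact (h2 (h3.1.symm.trans h4.1)).elim
    | cons e P' =>
      simp only [List.cons_append, List.cons.injEq] at h3 h4
      obtain ⟨i1, i2, i3⟩ := ih P' h1 h2 h3.2 h4.2
      exact ⟨by rw [h3.1, i1], i2, i3⟩

theorem cls_perm {n : ℕ} {u v : DWord n} (h : cls u = cls v) : u.1.Perm v.1 := by
  have h1 : (commSetoid n).r u v := Quotient.exact h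
  induction h1 with
  | rel u v h2 =>
    obtain ⟨x, a, b, y, _, h3, h4⟩ := h2
    rw [h3, h4]
    exact List.Perm.append_left x (List.Perm.swap b a y)
  | refl _ => exact List.Perm.refl _
  | symm x y h2 ih => exact (ih (Quotient.sound h2)).symm
  | trans x y z h2 h3 ih1 ih2 => exact (ih1 (Quotient.sound h2)).trans (ih2 (Quotient.sound h3))

theorem count3 (a b l : Letter) (x y : List Letter) :
    (((x ++ b :: a :: b :: y).count l : ℕ) : ℤ) - ((x ++ a :: b :: a :: y).count l : ℕ) =
      (if b = l then 1 else 0) - (if a = l then 1 else 0) := by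
  simp only [List.count_append, List.count_cons, beq_iff_eq]
  split_ifs <;> push_cast <;> ring

theorem count2 (a b l : Letter) (x y : List Letter) :
    (x ++ b :: a :: y).count l = (x ++ a :: b :: y).count l := by
  simp only [List.count_append, List.count_cons]
  omega

/-- The flip between two adjacent classes is unique. -/
theorem flip_unique {n : ℕ} {u v u' v' : DWord n} {a b a' b' : Letter} {x x' : List Letter}
    (h : FlipAt a b x u.1 v.1) (h' : FlipAt a' b' x' u'.1 v'.1) (hu : cls u = cls u')
    (hv : cls v = cls v') : a = a' ∧ b = b' ∧ proj a b x = proj a b x' := by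
  have pu := cls_perm hu
  have pv := cls_perm hv
  have cu : ∀ l, u.1.count l = u'.1.count l := fun l => pu.count_eq l
  have cv : ∀ l, v.1.count l = v'.1.count l := fun l => pv.count_eq l
  rcases h with ⟨hab, y, e1, e2⟩ | ⟨hab, y, e1, e2⟩
  · have nab : a ≠ b := (sys n).m3_ne hab
    have d1 : ∀ l, ((v.1.count l : ℕ) : ℤ) - (u.1.count l : ℕ) =
        (if b = l then 1 else 0) - (if a = l then 1 else 0) := fun l => by
      rw [e1, e2]; exact count3 a b l x y
    rcases h' with ⟨hab', y', e1', e2'⟩ | ⟨hab', y', e1', e2'⟩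
    · have nab' : a' ≠ b' := (sys n).m3_ne hab'
      have d2 : ∀ l, ((v'.1.count l : ℕ) : ℤ) - (u'.1.count l : ℕ) =
          (if b' = l then 1 else 0) - (if a' = l then 1 else 0) := fun l => by
        rw [e1', e2']; exact count3 a' b' l x' y'
      have ha : a = a' := by
        have q1 := d1 a
        have q2 := d2 a
        rw [cv, cu, q2, if_neg (Ne.symm nab), if_pos rfl] at q1
        by_contra hne
        rw [if_neg (Ne.symm hne)] at q1
        split_ifs at q1 <;> omega
      have hb : b = b' := by
        have q1 := d1 b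
        have q2 := d2 b
        rw [cv, cu, q2, if_pos rfl, if_neg nab] at q1
        by_contra hne
        rw [if_neg (Ne.symm hne)] at q1
        split_ifs at q1 <;> omega
      subst ha hb
      refine ⟨rfl, rfl, ?_⟩
      have nc := adj3_not_comm hab
      have f1 := congrArg (projV nc) hu
      have f2 := congrArg (projV nc) hv
      rw [projV_cls, projV_cls, e1, e1', proj_append, proj_append, proj_cons_left,
        proj_cons_left] at f1
      rw [projV_cls, projV_cls, e2, e2', proj_append, proj_append, proj_cons_right,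
        proj_cons_right] at f2
      exact (pos_unique _ _ nab nab f1 f2).1
    · exfalso
      have q1 := d1 a
      rw [cv, cu, e1', e2', count2, sub_self, if_neg (Ne.symm nab), if_pos rfl] at q1
      omega
  · have nab := mixed_ne hab
    rcases h' with ⟨hab', y', e1', e2'⟩ | ⟨hab', y', e1', e2'⟩
    · exfalso
      have nab' : a' ≠ b' := (sys n).m3_ne hab'
      have q1 := count3 a' b' a' x' y'
      rw [← e1', ← e2', ← cu, ← cv, e1, e2, count2, sub_self, if_neg (Ne.symm nab'),
        if_pos rfl] at q1
      omega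
    · have nab' := mixed_ne hab'
      have nc' := mixed_not_comm hab'
      have f1 := congrArg (projV nc') hu
      have f2 := congrArg (projV nc') hv
      rw [projV_cls, projV_cls, e1, e1', proj_append, proj_append a' b' x', proj_cons_left] at f1
      rw [projV_cls, projV_cls, e2, e2', proj_append, proj_append a' b' x',
        proj_cons_right a' b'] at f2
      by_cases hi : a.1 = a'.1
      · -- the same two letters
        have hcase : (a = a' ∧ b = b') ∨ (a = b' ∧ b = a') := by
          obtain ⟨i, c⟩ := a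
          obtain ⟨j, d⟩ := b
          obtain ⟨k, e⟩ := a'
          obtain ⟨l, f⟩ := b'
          obtain ⟨h1, h2⟩ := hab
          obtain ⟨h3, h4⟩ := hab'
          simp only at h1 h2 h3 h4 hi
          subst h1 h3 hi
          clear f1 f2 nc' nab' nab e1' e2' e1 e2
          simp only [Prod.mk.injEq, true_and]
          revert h2 h4
          revert c d e f
          decide
        rcases hcase with ⟨ha, hb⟩ | ⟨ha, hb⟩
        · subst ha hb
          rw [proj_cons_left a b] at f1
          rw [proj_cons_right a b] at f2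
          exact ⟨rfl, rfl, (pos_unique _ _ nab nab f1 f2).1⟩
        · subst ha hb
          rw [proj_cons_right b a] at f1
          rw [proj_cons_left b a] at f2
          exact (nab (pos_unique _ _ nab nab.symm f1 f2).2.1).elim
      · exfalso
        have n1 : a ≠ a' := fun h => hi (by rw [h])
        have n2 : a ≠ b' := fun h => hi (by rw [h, hab'.1])
        have n3 : b ≠ a' := fun h => hi (by rw [hab.1, h])
        have n4 : b ≠ b' := fun h => hi (by rw [hab.1, h, hab'.1])
        rw [proj_cons_ne n1 n2, proj_cons_ne n3 n4] at f1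
        rw [proj_cons_ne n3 n4, proj_cons_ne n1 n2] at f2
        have f3 := f1.symm.trans f2
        have f4 := List.append_cancel_left f3
        rw [List.cons.injEq] at f4
        exact nab' f4.1

theorem flipAt_cox {c : Bool} {w w' : List Letter} (h : Cox c w w' ∨ Cox c w' w) :
    ∃ a b x, FlipAt a b x w w' := by
  rcases h with ⟨x, i, y, h1, h2⟩ | ⟨x, i, y, h1, h2⟩
  · exact ⟨(i, c), (i + 1, c), x, Or.inl ⟨⟨rfl, Or.inl rfl⟩, y, h1, h2⟩⟩
  · exact ⟨(i + 1, c), (i, c), x, Or.inl ⟨⟨rfl, Or.inr rfl⟩, y, h2, h1⟩⟩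

theorem flipAt_mix {w w' : List Letter} (h : Mix w w' ∨ Mix w' w) :
    ∃ a b x, FlipAt a b x w w' := by
  rcases h with ⟨x, i, y, h1, h2⟩ | ⟨x, i, y, h1, h2⟩
  · exact ⟨(i, false), (i, true), x, Or.inr ⟨⟨rfl, by simp⟩, y, h1, h2⟩⟩
  · exact ⟨(i, true), (i, false), x, Or.inr ⟨⟨rfl, by simp⟩, y, h2, h1⟩⟩

theorem adj_iff_flipAt {n : ℕ} {A B : Vert n} : (flipGraph n).Adj A B ↔
    ∃ u v : DWord n, cls u = A ∧ cls v = B ∧ ∃ a b x, FlipAt a b x u.1 v.1 := by
  constructor
  · rintro (⟨c, u, v, h1, h2, h3⟩ | ⟨u, v, h1, h2, h3⟩)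
    · exact ⟨u, v, h1, h2, flipAt_cox h3⟩
    · exact ⟨u, v, h1, h2, flipAt_mix h3⟩
  · rintro ⟨u, v, h1, h2, ⟨i, c⟩, ⟨j, d⟩, x, ⟨⟨q1, q2⟩, y, e1, e2⟩ | ⟨⟨q1, q2⟩, y, e1, e2⟩⟩
    · simp only at q1 q2
      subst q1
      rcases q2 with rfl | rfl
      · exact Or.inl ⟨c, u, v, h1, h2, Or.inl ⟨x, i, y, e1, e2⟩⟩
      · exact Or.inl ⟨c, u, v, h1, h2, Or.inr ⟨x, j, y, e2, e1⟩⟩
    · simp only at q1 q2
      subst q1
      refine Or.inr ⟨u, v, h1, h2, ?_⟩
      cases c
      · have : d = true := by simpa using q2
        subst this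
        exact Or.inl ⟨x, i, y, e1, e2⟩
      · have : d = false := by simpa using q2
        subst this
        exact Or.inr ⟨x, i, y, e2, e1⟩

end Pool.Agent.Q161.Flip
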