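import Pool.Agent.Q161.RunSort

/-!
Distant patterns `α ⊕ 12` and `α ⊕ 21`, `α` of length two, are Wilf-equivalent for every position of
one gap: coupling of the avoiding words from left to right.
-/

set_option autoImplicit false

namespace Q161.GapWilf

open Finset Q161.RunSort

/-- `v` lies above an occurrence of `α` (increasing if `a`, else decreasing) in `P` whose second
letter is at least `g2 + 1` places to the left of the place after `P`, with gap `g1` inside -/
def In (a : Bool) (g1 g2 : ℕ) (P : List ℕ) (v : ℕ) : Prop :=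
  ∃ i j, i + g1 < j ∧ j + g2 < P.length ∧
    (if a then P.getD i 0 < P.getD j 0 else P.getD j 0 < P.getD i 0) ∧
    P.getD i 0 < v ∧ P.getD j 0 < v

variable {a : Bool} {g1 g2 : ℕ}

theorem In.mono {P : List ℕ} {v v' : ℕ} (h : In a g1 g2 P v) (hv : v ≤ v') : In a g1 g2 P v' := by
  obtain ⟨i, j, h1, h2, h3, h4, h5⟩ := h
  exact ⟨i, j, h1, h2, h3, lt_of_lt_of_le h4 hv, lt_of_lt_of_le h5 hv⟩

theorem getD_take {P : List ℕ} {i k : ℕ} (h : i < k) : (P.take k).getD i 0 = P.getD i 0 := by
  rw [List.getD_eq_getElem?_getD, List.getD_eq_getElem?_getD, List.getElem?_take_of_lt h]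

theorem In.of_take {P : List ℕ} {k v v' : ℕ} (hk : k ≤ P.length)
    (h : In a g1 g2 (P.take k) v) (hv : v ≤ v') : In a g1 g2 P v' := by
  obtain ⟨i, j, h1, h2, h3, h4, h5⟩ := h
  rw [List.length_take, min_eq_left hk] at h2
  rw [getD_take (by omega), getD_take (by omega)] at h3
  rw [getD_take (by omega)] at h4 h5
  exact ⟨i, j, h1, by omega, h3, by omega, by omega⟩

/-- the coupling -/
def Rel (a : Bool) (g1 g2 : ℕ) (P P' : List ℕ) : Prop :=
  P.length = P'.length ∧ ∀ i < P.length, P.getD i 0 = P'.getD i 0 ∨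
    (In a g1 g2 (P.take i) (P.getD i 0) ∧ In a g1 g2 (P'.take i) (P'.getD i 0))

theorem Rel.symm {P P' : List ℕ} (h : Rel a g1 g2 P P') : Rel a g1 g2 P' P := by
  refine ⟨h.1.symm, fun i hi => ?_⟩
  rcases h.2 i (by rw [h.1]; exact hi) with h1 | h1
  · exact Or.inl h1.symm
  · exact Or.inr ⟨h1.2, h1.1⟩

theorem Rel.take {P P' : List ℕ} (h : Rel a g1 g2 P P') {k : ℕ} (hk : k ≤ P.length) :
    Rel a g1 g2 (P.take k) (P'.take k) := by
  have hk' : k ≤ P'.length := by rw [← h.1]; exact hk
  refine ⟨by rw [List.length_take, List.length_take, min_eq_left hk, min_eq_left hk'], ?_⟩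
  intro i hi
  rw [List.length_take, min_eq_left hk] at hi
  rw [getD_take hi, getD_take hi, List.take_take, List.take_take, min_eq_left hi.le]
  exact h.2 i (by omega)

theorem Rel.imp (n : ℕ) : ∀ P P' : List ℕ, P.length = n → Rel a g1 g2 P P' →
    ∀ v, In a g1 g2 P v → In a g1 g2 P' v := by
  induction n using Nat.strong_induction_on with
  | _ n ih =>
    intro P P' hn hr v h
    obtain ⟨i, j, h1, h2, h3, h4, h5⟩ := h
    have key : ∀ k, k < P.length → P.getD k 0 < v → (P.getD k 0 = P'.getD k 0) ∨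
        In a g1 g2 P' v := by
      intro k hk hkv
      rcases hr.2 k hk with h6 | h6
      · exact Or.inl h6
      · right
        have h7 := ih k (by omega) (P.take k) (P'.take k) (by
          rw [List.length_take, min_eq_left hk.le]) (hr.take hk.le) _ h6.1
        exact h7.of_take (by rw [← hr.1]; exact hk.le) hkv.le
    rcases key i (by omega) h4 with h6 | h6
    · rcases key j (by omega) h5 with h7 | h7
      · refine ⟨i, j, h1, by rw [← hr.1]; exact h2, ?_, ?_, ?_⟩
        · rw [← h6, ← h7]; exact h3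
        · rw [← h6]; exact h4
        · rw [← h7]; exact h5
      · exact h7
    · exact h6

theorem Rel.iff {P P' : List ℕ} (h : Rel a g1 g2 P P') (v : ℕ) :
    In a g1 g2 P v ↔ In a g1 g2 P' v :=
  ⟨Rel.imp _ P P' rfl h v, Rel.imp _ P' P rfl h.symm v⟩

theorem getD_append_left {P : List ℕ} {c i : ℕ} (h : i < P.length) :
    (P ++ [c]).getD i 0 = P.getD i 0 := by
  rw [List.getD_append _ _ _ _ h]

theorem getD_append_self {P : List ℕ} {c : ℕ} : (P ++ [c]).getD P.length 0 = c := by
  rw [List.getD_append_right _ _ _ _ (le_refl _)]; simp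

theorem take_append {P : List ℕ} {c i : ℕ} (h : i ≤ P.length) : (P ++ [c]).take i = P.take i := by
  rw [List.take_append_of_le_length h]

theorem Rel.append {P P' : List ℕ} (h : Rel a g1 g2 P P') {c c' : ℕ}
    (hc : c = c' ∨ (In a g1 g2 P c ∧ In a g1 g2 P' c')) : Rel a g1 g2 (P ++ [c]) (P' ++ [c']) := by
  refine ⟨by simp [h.1], fun i hi => ?_⟩
  rw [List.length_append, List.length_singleton] at hi
  rcases Nat.lt_or_ge i P.length with h1 | h1
  · rw [getD_append_left h1, getD_append_left (by rw [← h.1]; exact h1), take_append h1.le,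
      take_append (by rw [← h.1]; exact h1.le)]
    exact h.2 i h1
  · obtain rfl : i = P.length := by omega
    rw [getD_append_self, take_append (le_refl _), List.take_length, h.1, getD_append_self,
      take_append (le_refl _), List.take_length]
    exact hc

/-- a letter above the threshold does not lower the threshold, if `g2 = 0` -/
theorem in_append {P : List ℕ} {c v : ℕ} (hc : In a g1 0 P c) :
    In a g1 0 (P ++ [c]) v ↔ In a g1 0 P v := by
  constructor
  · rintro ⟨i, j, h1, h2, h3, h4, h5⟩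
    rw [List.length_append, List.length_singleton] at h2
    rcases Nat.lt_or_ge j P.length with h6 | h6
    · rw [getD_append_left (show i < P.length by omega), getD_append_left h6] at h3
      rw [getD_append_left (show i < P.length by omega)] at h4
      rw [getD_append_left h6] at h5
      exact ⟨i, j, h1, by omega, h3, h4, h5⟩
    · obtain rfl : j = P.length := by omega
      rw [getD_append_self] at h5
      exact hc.mono h5.le
  · intro h
    have h2 : (P ++ [c]).take P.length = P := by
      rw [take_append (le_refl _), List.take_length]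
    apply In.of_take (k := P.length) (v := v) (by simp) _ (le_refl _)
    rw [h2]; exact h

/-! ### the words -/

/-- the continuation `Q` of `P` creates no occurrence of `α ⊕ 12` -/
def G12 (a : Bool) (g1 g2 g3 : ℕ) : List ℕ → List ℕ → Prop
  | _, [] => True
  | P, c :: Q => ¬ (In a g1 g2 P c ∧ ∃ d ∈ Q.drop g3, c < d) ∧ G12 a g1 g2 g3 (P ++ [c]) Q

/-- the continuation `Q` of `P` creates no occurrence of `α ⊕ 21` -/
def G21 (a : Bool) (g1 g2 g3 : ℕ) : List ℕ → List ℕ → Prop
  | _, [] => True
  | P, c :: Q => ¬ (∃ d ∈ Q.drop g3, d < c ∧ In a g1 g2 P d) ∧ G21 a g1 g2 g3 (P ++ [c]) Q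

open Classical in
/-- number of continuations -/
noncomputable def N12 (a : Bool) (g1 g2 g3 : ℕ) (P : List ℕ) (S : Finset ℕ) : ℕ :=
  ∑ Q ∈ words S, if G12 a g1 g2 g3 P Q then 1 else 0

open Classical in
/-- number of continuations -/
noncomputable def N21 (a : Bool) (g1 g2 g3 : ℕ) (P : List ℕ) (S : Finset ℕ) : ℕ :=
  ∑ Q ∈ words S, if G21 a g1 g2 g3 P Q then 1 else 0

theorem mem_of_words {S : Finset ℕ} {Q : List ℕ} (h : Q ∈ words S) (d : ℕ) : d ∈ Q ↔ d ∈ S := by
  rw [← (mem_words.1 h).2, List.mem_toFinset]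

/-! ### no gap at the end -/

theorem N12_zero {P : List ℕ} {S : Finset ℕ} (hS : S.Nonempty) {p : ℕ → Prop} [DecidablePred p]
    (hp : ∀ v, p v ↔ In a g1 g2 P v) :
    N12 a g1 g2 0 P S = ∑ v ∈ S.filter (fun v => ¬ p v), N12 a g1 g2 0 (P ++ [v]) (S.erase v) +
      if p (S.max' hS) then N12 a g1 g2 0 (P ++ [S.max' hS]) (S.erase (S.max' hS)) else 0 := by
  classical
  have h1 : N12 a g1 g2 0 P S = ∑ c ∈ S, if p c ∧ c ≠ S.max' hS then 0 else
      N12 a g1 g2 0 (P ++ [c]) (S.erase c) := by
    unfold N12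
    rw [sum_words _ hS]
    refine sum_congr rfl (fun c hc => ?_)
    by_cases h2 : p c ∧ c ≠ S.max' hS
    · rw [if_pos h2]
      apply sum_eq_zero
      intro Q hQ
      rw [if_neg]
      rintro ⟨h3, _⟩
      apply h3
      refine ⟨(hp c).1 h2.1, S.max' hS, ?_, lt_of_le_of_ne (le_max' _ _ hc) h2.2⟩
      rw [List.drop_zero, mem_of_words hQ, mem_erase]
      exact ⟨h2.2.symm, max'_mem _ _⟩
    · rw [if_neg h2]
      refine sum_congr rfl (fun Q hQ => ?_)
      have : G12 a g1 g2 0 P (c :: Q) ↔ G12 a g1 g2 0 (P ++ [c]) Q := by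
        constructor
        · exact fun h => h.2
        · intro h
          refine ⟨?_, h⟩
          rintro ⟨h3, d, hd, hcd⟩
          rw [List.drop_zero, mem_of_words hQ, mem_erase] at hd
          apply h2
          refine ⟨(hp c).2 h3, ?_⟩
          intro h4
          have := le_max' S d hd.2
          omega
      simp only [this]
  rw [h1, ← sum_filter_add_sum_filter_not S (fun v => ¬ p v)]
  congr 1
  · refine sum_congr rfl (fun v hv => ?_)
    rw [mem_filter] at hv
    rw [if_neg (fun h => hv.2 h.1)]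
  · have h2 : ∀ c ∈ S.filter (fun v => ¬ ¬ p v), (if p c ∧ c ≠ S.max' hS then 0 else
        N12 a g1 g2 0 (P ++ [c]) (S.erase c)) = if c = S.max' hS then
        N12 a g1 g2 0 (P ++ [c]) (S.erase c) else 0 := by
      intro c hc
      rw [mem_filter, not_not] at hc
      by_cases h3 : c = S.max' hS
      · rw [if_pos h3, if_neg (fun h => h.2 h3)]
      · rw [if_neg h3, if_pos ⟨hc.2, h3⟩]
    rw [sum_congr rfl h2, sum_ite_eq']
    by_cases h3 : p (S.max' hS)
    · rw [if_pos h3, if_pos]
      rw [mem_filter, not_not]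
      exact ⟨max'_mem _ _, h3⟩
    · rw [if_neg h3, if_neg]
      rw [mem_filter, not_not]
      exact fun h => h3 h.2

theorem N21_zero {P : List ℕ} {S : Finset ℕ} (hS : S.Nonempty) {p : ℕ → Prop} [DecidablePred p]
    (hp : ∀ v, p v ↔ In a g1 g2 P v) :
    N21 a g1 g2 0 P S = ∑ v ∈ S.filter (fun v => ¬ p v), N21 a g1 g2 0 (P ++ [v]) (S.erase v) +
      if h : (S.filter p).Nonempty then
        N21 a g1 g2 0 (P ++ [(S.filter p).min' h]) (S.erase ((S.filter p).min' h)) else 0 := by
  classical
  have hmono : ∀ v v', v ≤ v' → p v → p v' := fun v v' h1 h2 => (hp v').2 (((hp v).1 h2).mono h1)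
  have h1 : N21 a g1 g2 0 P S = ∑ c ∈ S, if (∃ d ∈ S, d < c ∧ p d) then 0 else
      N21 a g1 g2 0 (P ++ [c]) (S.erase c) := by
    unfold N21
    rw [sum_words _ hS]
    refine sum_congr rfl (fun c hc => ?_)
    by_cases h2 : ∃ d ∈ S, d < c ∧ p d
    · rw [if_pos h2]
      apply sum_eq_zero
      intro Q hQ
      rw [if_neg]
      rintro ⟨h3, _⟩
      apply h3
      obtain ⟨d, hd, hdc, hpd⟩ := h2
      refine ⟨d, ?_, hdc, (hp d).1 hpd⟩
      rw [List.drop_zero, mem_of_words hQ, mem_erase]
      exact ⟨by omega, hd⟩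
    · rw [if_neg h2]
      refine sum_congr rfl (fun Q hQ => ?_)
      have : G21 a g1 g2 0 P (c :: Q) ↔ G21 a g1 g2 0 (P ++ [c]) Q := by
        constructor
        · exact fun h => h.2
        · intro h
          refine ⟨?_, h⟩
          rintro ⟨d, hd, hdc, h3⟩
          rw [List.drop_zero, mem_of_words hQ, mem_erase] at hd
          exact h2 ⟨d, hd.2, hdc, (hp d).2 h3⟩
      simp only [this]
  rw [h1, ← sum_filter_add_sum_filter_not S (fun v => ¬ p v)]
  congr 1
  · refine sum_congr rfl (fun v hv => ?_)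
    rw [mem_filter] at hv
    rw [if_neg]
    rintro ⟨d, _, hdv, hpd⟩
    exact hv.2 (hmono d v hdv.le hpd)
  · have hfilt : S.filter (fun v => ¬ ¬ p v) = S.filter p := by
      ext v; rw [mem_filter, mem_filter, not_not]
    rw [hfilt]
    by_cases hne : (S.filter p).Nonempty
    · rw [dif_pos hne]
      set m := (S.filter p).min' hne with hm
      have hmem : m ∈ S.filter p := min'_mem _ _
      have h2 : ∀ c ∈ S.filter p, (if (∃ d ∈ S, d < c ∧ p d) then 0 else
          N21 a g1 g2 0 (P ++ [c]) (S.erase c)) = if c = m then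
          N21 a g1 g2 0 (P ++ [c]) (S.erase c) else 0 := by
        intro c hc
        have h3 : m ≤ c := min'_le _ _ hc
        by_cases h4 : c = m
        · rw [if_pos h4, if_neg]
          rintro ⟨d, hd, hdc, hpd⟩
          have : m ≤ d := min'_le _ _ (mem_filter.2 ⟨hd, hpd⟩)
          omega
        · rw [if_neg h4, if_pos]
          rw [mem_filter] at hmem
          exact ⟨m, hmem.1, by omega, hmem.2⟩
      rw [sum_congr rfl h2, sum_ite_eq', if_pos hmem]
    · rw [dif_neg hne, not_nonempty_iff_eq_empty.1 hne, sum_empty]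

end Q161.GapWilf
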