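import Pool.Agent.Q161.GapWilf

/-!
The coupling.
-/

set_option autoImplicit false

namespace Q161.GapWilf

open Finset Q161.RunSort

variable {a : Bool} {g1 g2 : ℕ}

theorem In.app {P : List ℕ} {c v : ℕ} (h : In a g1 g2 P v) : In a g1 g2 (P ++ [c]) v := by
  apply In.of_take (k := P.length) (v := v) (by simp) _ (le_refl _)
  rw [take_append (le_refl _), List.take_length]
  exact h

theorem N12_empty (g3 : ℕ) (P : List ℕ) : N12 a g1 g2 g3 P ∅ = 1 := by
  classical
  unfold N12
  rw [words_empty, sum_singleton, if_pos (show G12 a g1 g2 g3 P [] from trivial)]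

theorem N21_empty (g3 : ℕ) (P : List ℕ) : N21 a g1 g2 g3 P ∅ = 1 := by
  classical
  unfold N21
  rw [words_empty, sum_singleton, if_pos (show G21 a g1 g2 g3 P [] from trivial)]

section sets

variable {S S' : Finset ℕ} {p : ℕ → Prop} [DecidablePred p]

theorem filter_not_eq (h : ∀ v, ¬ p v → (v ∈ S ↔ v ∈ S')) :
    S.filter (fun v => ¬ p v) = S'.filter (fun v => ¬ p v) := by
  ext v
  rw [mem_filter, mem_filter]
  constructor
  · rintro ⟨h1, h2⟩; exact ⟨(h v h2).1 h1, h2⟩
  · rintro ⟨h1, h2⟩; exact ⟨(h v h2).2 h1, h2⟩

theorem filter_card_eq (hc : S.card = S'.card) (h : ∀ v, ¬ p v → (v ∈ S ↔ v ∈ S')) :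
    (S.filter p).card = (S'.filter p).card := by
  have h1 := card_filter_add_card_filter_not (s := S) p
  have h2 := card_filter_add_card_filter_not (s := S') p
  rw [filter_not_eq h] at h1
  omega

end sets

theorem coupling_zero (k : ℕ) : ∀ (P P' : List ℕ) (S S' : Finset ℕ), S.card = k → S'.card = k →
    Rel a g1 g2 P P' → (∀ v, ¬ In a g1 g2 P v → (v ∈ S ↔ v ∈ S')) →
    N12 a g1 g2 0 P S = N21 a g1 g2 0 P' S' := by
  classical
  induction k with
  | zero =>
    intro P P' S S' hS hS' _ _
    rw [card_eq_zero] at hS hS'
    rw [hS, hS', N12_empty, N21_empty]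
  | succ k ih =>
    intro P P' S S' hS hS' hr hv
    have hne : S.Nonempty := card_pos.1 (by omega)
    have hne' : S'.Nonempty := card_pos.1 (by omega)
    rw [N12_zero hne (p := In a g1 g2 P) (fun v => Iff.rfl),
      N21_zero hne' (p := In a g1 g2 P) (fun v => hr.iff v), filter_not_eq hv]
    congr 1
    · refine sum_congr rfl (fun v hvm => ?_)
      rw [mem_filter] at hvm
      apply ih
      · rw [card_erase_of_mem ((hv v hvm.2).2 hvm.1), hS]; rfl
      · rw [card_erase_of_mem hvm.1, hS']; rfl
      · exact hr.append (Or.inl rfl)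
      · intro u hu
        rw [mem_erase, mem_erase, hv u (fun h => hu h.app)]
    · have hcard := filter_card_eq (p := In a g1 g2 P) (hS.trans hS'.symm) hv
      by_cases h1 : In a g1 g2 P (S.max' hne)
      · have h2 : (S'.filter (In a g1 g2 P)).Nonempty := by
          rw [← card_pos, ← hcard, card_pos]
          exact ⟨_, mem_filter.2 ⟨max'_mem _ _, h1⟩⟩
        rw [if_pos h1, dif_pos h2]
        have h3 := min'_mem _ h2
        rw [mem_filter] at h3
        apply ih
        · rw [card_erase_of_mem (max'_mem _ _), hS]; rfl
        · rw [card_erase_of_mem h3.1, hS']; rfl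
        · exact hr.append (Or.inr ⟨h1, (hr.iff _).1 h3.2⟩)
        · intro u hu
          have hu' : ¬ In a g1 g2 P u := fun h => hu h.app
          rw [mem_erase, mem_erase, hv u hu']
          have e1 : u ≠ S.max' hne := fun h => hu' (h ▸ h1)
          have e2 : u ≠ (S'.filter (In a g1 g2 P)).min' h2 := fun h => hu' (h ▸ h3.2)
          exact ⟨fun h => ⟨e2, h.2⟩, fun h => ⟨e1, h.2⟩⟩
      · have h2 : ¬ (S'.filter (In a g1 g2 P)).Nonempty := by
          rw [← card_pos, ← hcard, card_pos]
          rintro ⟨v, hv'⟩
          rw [mem_filter] at hv'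
          exact h1 (hv'.2.mono (le_max' _ _ hv'.1))
        rw [if_neg h1, dif_neg h2]

/-! ### a gap at the end -/

theorem G12_max {P : List ℕ} {S : Finset ℕ} {M : ℕ} (hM : ∀ d ∈ S, d ≤ M) {g3 : ℕ} {Q : List ℕ}
    (hQ : ∀ d ∈ Q, d ∈ S) : G12 a g1 g2 g3 P (M :: Q) ↔ G12 a g1 g2 g3 (P ++ [M]) Q := by
  constructor
  · exact fun h => h.2
  · intro h
    refine ⟨?_, h⟩
    rintro ⟨_, d, hd, h1⟩
    have := hM d (hQ d (List.mem_of_mem_drop hd))
    omega

theorem sum_head {S : Finset ℕ} {M : ℕ} (hM : M ∈ S) (F : List ℕ → ℕ)
    (hF : ∀ c ∈ S, c ≠ M → ∀ Q ∈ words (S.erase c), F (c :: Q) = 0) :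
    ∑ Q ∈ words S, F Q = ∑ Q ∈ words (S.erase M), F (M :: Q) := by
  rw [sum_words F ⟨M, hM⟩, sum_eq_single_of_mem M hM]
  intro c hc hcM
  exact sum_eq_zero (fun Q hQ => hF c hc hcM Q hQ)

theorem N12_one {P : List ℕ} {S : Finset ℕ} (hS : S.Nonempty) {p : ℕ → Prop} [DecidablePred p]
    (hp : ∀ v, p v ↔ In a g1 g2 P v) :
    N12 a g1 g2 1 P S = ∑ v ∈ S.filter (fun v => ¬ p v), N12 a g1 g2 1 (P ++ [v]) (S.erase v) +
      ((if p (S.max' hS) then N12 a g1 g2 1 (P ++ [S.max' hS]) (S.erase (S.max' hS)) else 0) +
      (if h : ((S.filter p).erase (S.max' hS)).Nonempty then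
        N12 a g1 g2 1 (P ++ [((S.filter p).erase (S.max' hS)).max' h] ++ [S.max' hS])
          ((S.erase (((S.filter p).erase (S.max' hS)).max' h)).erase (S.max' hS)) else 0)) := by
  classical
  set M := S.max' hS with hMdef
  have hMS : M ∈ S := max'_mem _ _
  have hmono : ∀ v v', v ≤ v' → p v → p v' := fun v v' h1 h2 => (hp v').2 (((hp v).1 h2).mono h1)
  have hle : ∀ d ∈ S, d ≤ M := fun d hd => le_max' _ _ hd
  let T : ℕ → ℕ := fun c => ∑ Q ∈ words (S.erase c), if G12 a g1 g2 1 P (c :: Q) then 1 else 0
  have h1 : N12 a g1 g2 1 P S = ∑ c ∈ S, T c := by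
    unfold N12
    rw [sum_words _ hS]
  have hT1 : ∀ c ∈ S, (¬ p c ∨ c = M) → T c = N12 a g1 g2 1 (P ++ [c]) (S.erase c) := by
    intro c hc h
    unfold N12
    refine sum_congr rfl (fun Q hQ => ?_)
    have : G12 a g1 g2 1 P (c :: Q) ↔ G12 a g1 g2 1 (P ++ [c]) Q := by
      constructor
      · exact fun h => h.2
      · intro h'
        refine ⟨?_, h'⟩
        rintro ⟨h3, d, hd, hcd⟩
        rcases h with h | h
        · exact h ((hp c).2 h3)
        · have := (mem_of_words hQ d).1 (List.mem_of_mem_drop hd)
          have := hle d (mem_of_mem_erase this)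
          omega
    simp only [this]
  rw [h1, ← sum_filter_add_sum_filter_not S (fun v => ¬ p v)]
  congr 1
  · refine sum_congr rfl (fun v hv => ?_)
    rw [mem_filter] at hv
    exact hT1 v hv.1 (Or.inl hv.2)
  · have hfilt : S.filter (fun v => ¬ ¬ p v) = S.filter p := by
      ext v; rw [mem_filter, mem_filter, not_not]
    rw [hfilt]
    by_cases hpM : p M
    · have hMf : M ∈ S.filter p := mem_filter.2 ⟨hMS, hpM⟩
      rw [← add_sum_erase _ _ hMf, if_pos hpM, hT1 M hMS (Or.inr rfl)]
      congr 1
      by_cases hne : ((S.filter p).erase M).Nonempty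
      · rw [dif_pos hne]
        set M2 := ((S.filter p).erase M).max' hne with hM2
        have hM2m : M2 ∈ (S.filter p).erase M := max'_mem _ _
        have hM2m' := hM2m
        rw [mem_erase, mem_filter] at hM2m'
        obtain ⟨hM2M, hM2S, hM2p⟩ := hM2m'
        have hMe : M ∈ S.erase M2 := mem_erase.2 ⟨hM2M.symm, hMS⟩
        rw [sum_eq_single_of_mem M2 hM2m]
        · show ∑ Q ∈ words (S.erase M2), (if G12 a g1 g2 1 P (M2 :: Q) then 1 else 0) = _
          rw [sum_head hMe]
          · unfold N12
            refine sum_congr rfl (fun Q hQ => ?_)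
            have e1 : G12 a g1 g2 1 P (M2 :: M :: Q) ↔
                G12 a g1 g2 1 (P ++ [M2] ++ [M]) Q := by
              have e2 : G12 a g1 g2 1 (P ++ [M2]) (M :: Q) ↔ G12 a g1 g2 1 (P ++ [M2] ++ [M]) Q :=
                G12_max (S := S) hle (fun d hd => by
                  have := (mem_of_words hQ d).1 hd
                  exact mem_of_mem_erase (mem_of_mem_erase this))
              rw [← e2]
              constructor
              · exact fun h => h.2
              · intro h
                refine ⟨?_, h⟩
                rintro ⟨_, d, hd, h3⟩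
                have hd' : d ∈ Q := by simpa using hd
                have h4 := (mem_of_words hQ d).1 hd'
                rw [mem_erase, mem_erase] at h4
                have h5 : d ∈ (S.filter p).erase M :=
                  mem_erase.2 ⟨h4.1, mem_filter.2 ⟨h4.2.2, hmono _ _ h3.le hM2p⟩⟩
                have := le_max' _ _ h5
                omega
            simp only [e1]
          · intro c hc hcM Q hQ
            rw [if_neg]
            rintro ⟨h3, _⟩
            apply h3
            refine ⟨(hp _).1 hM2p, M, ?_, ?_⟩
            · show M ∈ Q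
              rw [mem_of_words hQ, mem_erase, mem_erase]
              exact ⟨Ne.symm hcM, hM2M.symm, hMS⟩
            · exact lt_of_le_of_ne (hle _ hM2S) hM2M
        · intro c hc hcM2
          have hc' := hc
          rw [mem_erase, mem_filter] at hc'
          have hlt : c < M2 := lt_of_le_of_ne (le_max' _ _ hc) hcM2
          show ∑ Q ∈ words (S.erase c), (if G12 a g1 g2 1 P (c :: Q) then 1 else 0) = 0
          apply sum_eq_zero
          intro Q hQ
          rw [if_neg]
          rintro ⟨h3, _⟩
          apply h3
          refine ⟨(hp _).1 hc'.2.2, ?_⟩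
          cases Q with
          | nil =>
            have := (mem_of_words hQ M).2 (mem_erase.2 ⟨Ne.symm hc'.1, hMS⟩)
            exact absurd this (by simp)
          | cons d Q =>
            by_cases hd : d = M
            · refine ⟨M2, ?_, hlt⟩
              have := (mem_of_words hQ M2).2 (mem_erase.2 ⟨by omega, hM2S⟩)
              rw [List.mem_cons] at this
              show M2 ∈ Q
              rcases this with h | h
              · exact absurd (h.trans hd) hM2M
              · exact h
            · refine ⟨M, ?_, by have := hle _ hM2S; omega⟩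
              have := (mem_of_words hQ M).2 (mem_erase.2 ⟨Ne.symm hc'.1, hMS⟩)
              rw [List.mem_cons] at this
              show M ∈ Q
              rcases this with h | h
              · exact absurd h.symm hd
              · exact h
      · rw [dif_neg hne, not_nonempty_iff_eq_empty.1 hne, sum_empty]
    · have hemp : S.filter p = ∅ := by
        rw [filter_eq_empty_iff]
        intro v hv hpv
        exact hpM (hmono _ _ (hle v hv) hpv)
      rw [hemp, sum_empty, if_neg hpM, dif_neg (by rw [erase_empty]; simp), add_zero]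

theorem N21_one {P : List ℕ} {S : Finset ℕ} (hS : S.Nonempty) {p : ℕ → Prop} [DecidablePred p]
    (hp : ∀ v, p v ↔ In a g1 0 P v) :
    N21 a g1 0 1 P S = ∑ v ∈ S.filter (fun v => ¬ p v), N21 a g1 0 1 (P ++ [v]) (S.erase v) +
      if h : (S.filter p).Nonempty then
        (N21 a g1 0 1 (P ++ [(S.filter p).min' h]) (S.erase ((S.filter p).min' h)) +
        (if h2 : ((S.filter p).erase ((S.filter p).min' h)).Nonempty then
          N21 a g1 0 1 (P ++ [((S.filter p).erase ((S.filter p).min' h)).min' h2] ++
            [(S.filter p).min' h])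
            ((S.erase (((S.filter p).erase ((S.filter p).min' h)).min' h2)).erase
              ((S.filter p).min' h)) else 0)) else 0 := by
  classical
  have hmono : ∀ v v', v ≤ v' → p v → p v' := fun v v' h1 h2 => (hp v').2 (((hp v).1 h2).mono h1)
  let T : ℕ → ℕ := fun c => ∑ Q ∈ words (S.erase c), if G21 a g1 0 1 P (c :: Q) then 1 else 0
  have h1 : N21 a g1 0 1 P S = ∑ c ∈ S, T c := by
    unfold N21
    rw [sum_words _ hS]
  have hT1 : ∀ c ∈ S, (∀ d ∈ S, d < c → ¬ p d) → T c = N21 a g1 0 1 (P ++ [c]) (S.erase c) := by
    intro c hc h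
    unfold N21
    refine sum_congr rfl (fun Q hQ => ?_)
    have : G21 a g1 0 1 P (c :: Q) ↔ G21 a g1 0 1 (P ++ [c]) Q := by
      constructor
      · exact fun h => h.2
      · intro h'
        refine ⟨?_, h'⟩
        rintro ⟨d, hd, hdc, h3⟩
        have := (mem_of_words hQ d).1 (List.mem_of_mem_drop hd)
        exact h d (mem_of_mem_erase this) hdc ((hp d).2 h3)
    simp only [this]
  rw [h1, ← sum_filter_add_sum_filter_not S (fun v => ¬ p v)]
  congr 1
  · refine sum_congr rfl (fun v hv => ?_)
    rw [mem_filter] at hv
    exact hT1 v hv.1 (fun d _ hdv hpd => hv.2 (hmono d v hdv.le hpd))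
  · have hfilt : S.filter (fun v => ¬ ¬ p v) = S.filter p := by
      ext v; rw [mem_filter, mem_filter, not_not]
    rw [hfilt]
    by_cases hne : (S.filter p).Nonempty
    · rw [dif_pos hne]
      set m := (S.filter p).min' hne with hm
      have hmf : m ∈ S.filter p := min'_mem _ _
      have hmf' := hmf
      rw [mem_filter] at hmf'
      obtain ⟨hmS, hmp⟩ := hmf'
      have hmin : ∀ d ∈ S, p d → m ≤ d := fun d hd hpd => min'_le _ _ (mem_filter.2 ⟨hd, hpd⟩)
      rw [← add_sum_erase _ _ hmf, hT1 m hmS (fun d hd hdm hpd => by
        have := hmin d hd hpd; omega)]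
      congr 1
      by_cases hne2 : ((S.filter p).erase m).Nonempty
      · rw [dif_pos hne2]
        set m2 := ((S.filter p).erase m).min' hne2 with hm2
        have hm2m : m2 ∈ (S.filter p).erase m := min'_mem _ _
        have hm2m' := hm2m
        rw [mem_erase, mem_filter] at hm2m'
        obtain ⟨hm2m'', hm2S, hm2p⟩ := hm2m'
        have hlt2 : m < m2 := lt_of_le_of_ne (hmin _ hm2S hm2p) (Ne.symm hm2m'')
        have hme : m ∈ S.erase m2 := mem_erase.2 ⟨hm2m''.symm, hmS⟩
        rw [sum_eq_single_of_mem m2 hm2m]
        · show ∑ Q ∈ words (S.erase m2), (if G21 a g1 0 1 P (m2 :: Q) then 1 else 0) = _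
          rw [sum_head hme]
          · unfold N21
            refine sum_congr rfl (fun Q hQ => ?_)
            have e1 : G21 a g1 0 1 P (m2 :: m :: Q) ↔
                G21 a g1 0 1 (P ++ [m2] ++ [m]) Q := by
              have hQS : ∀ d ∈ Q, d ∈ S ∧ d ≠ m ∧ d ≠ m2 := by
                intro d hd
                have := (mem_of_words hQ d).1 hd
                rw [mem_erase, mem_erase] at this
                exact ⟨this.2.2, this.1, this.2.1⟩
              constructor
              · exact fun h => h.2.2
              · intro h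
                refine ⟨?_, ?_, h⟩
                · rintro ⟨d, hd, h3, h4⟩
                  have hd' : d ∈ Q := by simpa using hd
                  obtain ⟨h5, h6, h7⟩ := hQS d hd'
                  have h8 : m2 ≤ d := min'_le _ _ (mem_erase.2 ⟨h6, mem_filter.2 ⟨h5, (hp d).2 h4⟩⟩)
                  omega
                · rintro ⟨d, hd, h3, h4⟩
                  have hd' : d ∈ Q := List.mem_of_mem_drop hd
                  obtain ⟨h5, h6, h7⟩ := hQS d hd'
                  rw [in_append ((hp m2).1 hm2p)] at h4
                  have := hmin d h5 ((hp d).2 h4)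
                  omega
            simp only [e1]
          · intro c hc hcM Q hQ
            rw [if_neg]
            rintro ⟨h3, _⟩
            apply h3
            refine ⟨m, ?_, hlt2, (hp m).1 hmp⟩
            show m ∈ Q
            rw [mem_of_words hQ, mem_erase, mem_erase]
            exact ⟨Ne.symm hcM, hm2m''.symm, hmS⟩
        · intro c hc hcm2
          have hc' := hc
          rw [mem_erase, mem_filter] at hc'
          have hlt : m2 < c := lt_of_le_of_ne (min'_le _ _ hc) (Ne.symm hcm2)
          show ∑ Q ∈ words (S.erase c), (if G21 a g1 0 1 P (c :: Q) then 1 else 0) = 0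
          apply sum_eq_zero
          intro Q hQ
          rw [if_neg]
          rintro ⟨h3, _⟩
          apply h3
          cases Q with
          | nil =>
            have := (mem_of_words hQ m).2 (mem_erase.2 ⟨by omega, hmS⟩)
            exact absurd this (by simp)
          | cons d Q =>
            by_cases hd : d = m
            · refine ⟨m2, ?_, hlt, (hp _).1 hm2p⟩
              have := (mem_of_words hQ m2).2 (mem_erase.2 ⟨by omega, hm2S⟩)
              rw [List.mem_cons] at this
              show m2 ∈ Q
              rcases this with h | h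
              · exact absurd (h.trans hd) hm2m''
              · exact h
            · refine ⟨m, ?_, by omega, (hp _).1 hmp⟩
              have := (mem_of_words hQ m).2 (mem_erase.2 ⟨by omega, hmS⟩)
              rw [List.mem_cons] at this
              show m ∈ Q
              rcases this with h | h
              · exact absurd h.symm hd
              · exact h
      · rw [dif_neg hne2, not_nonempty_iff_eq_empty.1 hne2, sum_empty]
    · rw [dif_neg hne, not_nonempty_iff_eq_empty.1 hne, sum_empty]

theorem coupling_one (k : ℕ) : ∀ (P P' : List ℕ) (S S' : Finset ℕ), S.card = k → S'.card = k →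
    Rel a g1 0 P P' → (∀ v, ¬ In a g1 0 P v → (v ∈ S ↔ v ∈ S')) →
    N12 a g1 0 1 P S = N21 a g1 0 1 P' S' := by
  classical
  induction k using Nat.strong_induction_on with
  | _ k ih =>
    intro P P' S S' hS hS' hr hv
    rcases Nat.eq_zero_or_pos k with h0 | h0
    · subst h0
      rw [card_eq_zero] at hS hS'
      rw [hS, hS', N12_empty, N21_empty]
    have hne : S.Nonempty := card_pos.1 (by omega)
    have hne' : S'.Nonempty := card_pos.1 (by omega)
    rw [N12_one hne (p := In a g1 0 P) (fun v => Iff.rfl),
      N21_one hne' (p := In a g1 0 P) (fun v => hr.iff v), filter_not_eq hv]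
    congr 1
    · refine sum_congr rfl (fun v hvm => ?_)
      rw [mem_filter] at hvm
      apply ih (k - 1) (by omega)
      · rw [card_erase_of_mem ((hv v hvm.2).2 hvm.1), hS]
      · rw [card_erase_of_mem hvm.1, hS']
      · exact hr.append (Or.inl rfl)
      · intro u hu
        rw [mem_erase, mem_erase, hv u (fun h => hu h.app)]
    · have hcard := filter_card_eq (p := In a g1 0 P) (hS.trans hS'.symm) hv
      by_cases h1 : In a g1 0 P (S.max' hne)
      · have h2 : (S'.filter (In a g1 0 P)).Nonempty := by
          rw [← card_pos, ← hcard, card_pos]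
          exact ⟨_, mem_filter.2 ⟨max'_mem _ _, h1⟩⟩
        rw [if_pos h1, dif_pos h2]
        have h3 := min'_mem _ h2
        rw [mem_filter] at h3
        have h3' := min'_mem _ h2
        have hMf : S.max' hne ∈ S.filter (In a g1 0 P) := mem_filter.2 ⟨max'_mem _ _, h1⟩
        congr 1
        · apply ih (k - 1) (by omega)
          · rw [card_erase_of_mem (max'_mem _ _), hS]
          · rw [card_erase_of_mem h3.1, hS']
          · exact hr.append (Or.inr ⟨h1, (hr.iff _).1 h3.2⟩)
          · intro u hu
            have hu' : ¬ In a g1 0 P u := fun h => hu h.app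
            rw [mem_erase, mem_erase, hv u hu']
            have e1 : u ≠ S.max' hne := fun h => hu' (h ▸ h1)
            have e2 : u ≠ (S'.filter (In a g1 0 P)).min' h2 := fun h => hu' (h ▸ h3.2)
            exact ⟨fun h => ⟨e2, h.2⟩, fun h => ⟨e1, h.2⟩⟩
        · have hcard2 : ((S.filter (In a g1 0 P)).erase (S.max' hne)).card =
              ((S'.filter (In a g1 0 P)).erase ((S'.filter (In a g1 0 P)).min' h2)).card := by
            rw [card_erase_of_mem hMf, card_erase_of_mem h3', hcard]
          by_cases h4 : ((S.filter (In a g1 0 P)).erase (S.max' hne)).Nonempty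
          · have h5 : ((S'.filter (In a g1 0 P)).erase
                ((S'.filter (In a g1 0 P)).min' h2)).Nonempty := by
              rw [← card_pos, ← hcard2, card_pos]; exact h4
            rw [dif_pos h4, dif_pos h5]
            have h6 := max'_mem _ h4
            have h7 := min'_mem _ h5
            rw [mem_erase, mem_filter] at h6 h7
            set M := S.max' hne
            set m := (S'.filter (In a g1 0 P)).min' h2
            set M2 := ((S.filter (In a g1 0 P)).erase M).max' h4
            set m2 := ((S'.filter (In a g1 0 P)).erase m).min' h5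
            have hMm : M ∈ S.erase M2 := mem_erase.2 ⟨h6.1.symm, max'_mem _ _⟩
            have hmm : m ∈ S'.erase m2 := mem_erase.2 ⟨h7.1.symm, h3.1⟩
            apply ih (k - 1 - 1) (by omega)
            · rw [card_erase_of_mem hMm, card_erase_of_mem h6.2.1, hS]
            · rw [card_erase_of_mem hmm, card_erase_of_mem h7.2.1, hS']
            · apply (hr.append (Or.inr ⟨h6.2.2, (hr.iff _).1 h7.2.2⟩)).append
              right
              exact ⟨h1.app, ((hr.iff _).1 h3.2).app⟩
            · intro u hu
              have hu' : ¬ In a g1 0 P u := fun h => hu h.app.app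
              rw [mem_erase, mem_erase, mem_erase, mem_erase, hv u hu']
              have e1 : u ≠ M := fun h => hu' (h ▸ h1)
              have e2 : u ≠ m := fun h => hu' (h ▸ h3.2)
              have e3 : u ≠ M2 := fun h => hu' (h ▸ h6.2.2)
              have e4 : u ≠ m2 := fun h => hu' (h ▸ h7.2.2)
              exact ⟨fun h => ⟨e2, e4, h.2.2⟩, fun h => ⟨e1, e3, h.2.2⟩⟩
          · have h5 : ¬ ((S'.filter (In a g1 0 P)).erase
                ((S'.filter (In a g1 0 P)).min' h2)).Nonempty := by
              rw [← card_pos, ← hcard2, card_pos]; exact h4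
            rw [dif_neg h4, dif_neg h5]
      · have h2 : ¬ (S'.filter (In a g1 0 P)).Nonempty := by
          rw [← card_pos, ← hcard, card_pos]
          rintro ⟨v, hv'⟩
          rw [mem_filter] at hv'
          exact h1 (hv'.2.mono (le_max' _ _ hv'.1))
        have h4 : ¬ ((S.filter (In a g1 0 P)).erase (S.max' hne)).Nonempty := by
          rintro ⟨v, hv'⟩
          rw [mem_erase, mem_filter] at hv'
          exact h1 (hv'.2.2.mono (le_max' _ _ hv'.2.1))
        rw [if_neg h1, dif_neg h2, dif_neg h4]

end Q161.GapWilf
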