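import Pool.Agent.Q52.SecX.Vec
import Pool.Agent.TH120.Sec.Binom

/-! # The local theorem for curves with a diagonal ternary relation -/

set_option autoImplicit false

namespace Pool.Agent.Q161.Gf

open Polynomial NumberField IsDedekindDomain WithZero
open Pool.Agent.Y157.PS (S_FUN FineP fineP num_loc)
open Pool.Agent.Q52.SecX (hFUN exact_ramification)

/-- An element which is an `ℓ`-th power in an extension of degree prime to `ℓ` is an `ℓ`-th power. -/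
lemma pow_descent {κ κ' : Type} [Field κ] [Field κ'] [Algebra κ κ'] [FiniteDimensional κ κ']
    (ℓ : ℕ) (hℓ : ℓ.Prime) (hdeg : ¬ ℓ ∣ Module.finrank κ κ') (c : κ) (s : κ')
    (h : s ^ ℓ = algebraMap κ κ' c) : ∃ r : κ, r ^ ℓ = c := by
  by_cases hc : c = 0
  · exact ⟨0, by rw [hc, zero_pow hℓ.ne_zero]⟩
  have h1 : (Algebra.norm κ s) ^ ℓ = c ^ Module.finrank κ κ' := by
    rw [← map_pow, h, Algebra.norm_algebraMap]
  have hcop : IsCoprime ((Module.finrank κ κ' : ℕ) : ℤ) (ℓ : ℤ) := by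
    rw [Nat.isCoprime_iff_coprime]
    exact ((Nat.Prime.coprime_iff_not_dvd hℓ).2 hdeg).symm
  obtain ⟨a, b, hab⟩ := hcop
  have hN : Algebra.norm κ s ≠ 0 := by
    intro h0
    rw [h0, zero_pow hℓ.ne_zero] at h1
    exact pow_ne_zero _ hc h1.symm
  refine ⟨(Algebra.norm κ s) ^ a * c ^ b, ?_⟩
  have h2 : ((Algebra.norm κ s) ^ a) ^ ℓ = c ^ (a * (Module.finrank κ κ' : ℤ)) := by
    rw [← zpow_natCast, ← zpow_mul, mul_comm a (ℓ : ℤ), zpow_mul, zpow_natCast, h1,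
      ← zpow_natCast, ← zpow_mul, mul_comm]
  have h3 : (c ^ b) ^ ℓ = c ^ (b * (ℓ : ℤ)) := by
    rw [← zpow_natCast, ← zpow_mul]
  rw [mul_pow, h2, h3, ← zpow_add₀ hc, hab, zpow_one]

section

variable {R : Type} [CommRing R] [IsDomain R]

lemma bin_natDegree (n : ℕ) (hn : n ≠ 0) (b c : R) (hb : b ≠ 0) :
    (C b * X ^ n + C c).natDegree = n := by
  rw [natDegree_add_C, natDegree_C_mul_X_pow n b hb]

lemma bin_leadingCoeff (n : ℕ) (hn : n ≠ 0) (b c : R) (hb : b ≠ 0) :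
    (C b * X ^ n + C c).leadingCoeff = b := by
  rw [leadingCoeff, bin_natDegree n hn b c hb, coeff_add, coeff_C_mul_X_pow, if_pos rfl, coeff_C,
    if_neg hn, add_zero]

end

variable {K L : Type} [Field K] [NumberField K] [Field L] [NumberField L] [Algebra K L]

/-- the local theorem: `a` is exactly divisible by `v`, and `-c / b` is a unit and not an `ℓ`-th power
modulo `v` -/
theorem fine_tern (n : ℕ) (hn3 : 3 ≤ n) (v : HeightOneSpectrum (𝓞 K))
    (w : HeightOneSpectrum (𝓞 L)) [w.asIdeal.LiesOver v.asIdeal] (hnv : (n : 𝓞 K) ∉ v.asIdeal)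
    (a b c : 𝓞 K) (ha : a ∈ v.asIdeal) (ha' : a ∉ v.asIdeal ^ 2) (hb : b ∉ v.asIdeal)
    (ℓ : ℕ) (hℓ : ℓ.Prime) (hℓn : ℓ ∣ n)
    (hroot : ∀ r : 𝓞 K ⧸ v.asIdeal,
      Ideal.Quotient.mk v.asIdeal b * r ^ ℓ + Ideal.Quotient.mk v.asIdeal c ≠ 0)
    (hram : ¬ ℓ ∣ v.asIdeal.ramificationIdx' w.asIdeal)
    (hin : ¬ ℓ ∣ v.asIdeal.inertiaDeg' w.asIdeal) :
    FineP ℓ (algebraMap K L (algebraMap (𝓞 K) K a))
      (C (algebraMap K L (algebraMap (𝓞 K) K b)) * X ^ n +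
        C (algebraMap K L (algebraMap (𝓞 K) K c))) := by
  classical
  have hn0 : n ≠ 0 := by omega
  have hvp : v.asIdeal.IsPrime := v.isPrime
  have hvm : v.asIdeal.IsMaximal := v.isMaximal
  have hwp : w.asIdeal.IsPrime := w.isPrime
  have hwm : w.asIdeal.IsMaximal := w.isMaximal
  have hover : v.asIdeal = w.asIdeal.under (𝓞 K) := Ideal.LiesOver.over
  have hmem : ∀ x : 𝓞 K, algebraMap (𝓞 K) (𝓞 L) x ∈ w.asIdeal ↔ x ∈ v.asIdeal := by
    intro x
    rw [hover]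
    rfl
  have hinjKL : Function.Injective (algebraMap (𝓞 K) (𝓞 L)) :=
    FaithfulSMul.algebraMap_injective _ _
  let _ : Field (𝓞 K ⧸ v.asIdeal) := Ideal.Quotient.field _
  let _ : Field (𝓞 L ⧸ w.asIdeal) := Ideal.Quotient.field _
  have hfinv : Finite (𝓞 K ⧸ v.asIdeal) := Ideal.finiteQuotientOfFreeOfNeBot _ v.ne_bot
  have hfinw : Finite (𝓞 L ⧸ w.asIdeal) := Ideal.finiteQuotientOfFreeOfNeBot _ w.ne_bot
  have hmf : Module.Finite (𝓞 K ⧸ v.asIdeal) (𝓞 L ⧸ w.asIdeal) := Module.Finite.of_finite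
  have hb0 : b ≠ 0 := by
    rintro rfl
    exact hb (zero_mem _)
  have hbL0 : algebraMap (𝓞 K) (𝓞 L) b ≠ 0 := by
    rw [Ne, map_eq_zero_iff _ hinjKL]
    exact hb0
  have hbm : Ideal.Quotient.mk v.asIdeal b ≠ 0 := fun h => hb (Ideal.Quotient.eq_zero_iff_mem.1 h)
  have hcm : Ideal.Quotient.mk v.asIdeal c ≠ 0 := by
    have h := hroot 0
    rwa [zero_pow hℓ.ne_zero, mul_zero, zero_add] at h
  have hℓv : (ℓ : 𝓞 K) ∉ v.asIdeal := by
    intro h
    apply hnv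
    obtain ⟨n', hn'⟩ := hℓn
    rw [hn']
    push_cast
    exact Ideal.mul_mem_right _ _ h
  have hℓw : (ℓ : 𝓞 L) ∉ w.asIdeal := by
    intro h
    apply hℓv
    rw [← hmem, map_natCast]
    exact h
  have hnm : ((n : ℕ) : 𝓞 K ⧸ v.asIdeal) ≠ 0 := by
    intro h
    apply hnv
    apply Ideal.Quotient.eq_zero_iff_mem.1
    rw [map_natCast]
    exact h
  set gL : (𝓞 L)[X] := C (algebraMap (𝓞 K) (𝓞 L) b) * X ^ n + C (algebraMap (𝓞 K) (𝓞 L) c) with hgL
  have hdegL : gL.natDegree = n := bin_natDegree n hn0 _ _ hbL0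
  have hlcL : gL.leadingCoeff = algebraMap (𝓞 K) (𝓞 L) b := bin_leadingCoeff n hn0 _ _ hbL0
  have hlcw : gL.leadingCoeff ∉ w.asIdeal := by
    rw [hlcL, hmem]
    exact hb
  set p : (𝓞 K ⧸ v.asIdeal)[X] := C (Ideal.Quotient.mk v.asIdeal b) * X ^ n +
    C (Ideal.Quotient.mk v.asIdeal c) with hp
  have hmapL : gL.map (Ideal.Quotient.mk w.asIdeal) =
      p.map (algebraMap (𝓞 K ⧸ v.asIdeal) (𝓞 L ⧸ w.asIdeal)) := by
    rw [hgL, hp]
    simp only [Polynomial.map_add, Polynomial.map_mul, Polynomial.map_pow, map_C, map_X]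
    rfl
  have hpsep : p.Separable := Pool.Agent.TH120.Sec.binom_separable n hnm _ _ hbm hcm
  have hsw : (gL.map (Ideal.Quotient.mk w.asIdeal)).Separable := by
    rw [hmapL]
    exact hpsep.map
  have hrw : ∀ r : 𝓞 L ⧸ w.asIdeal, (gL.map (Ideal.Quotient.mk w.asIdeal)).eval r ≠ 0 := by
    intro r hr
    rw [hmapL, hp] at hr
    simp only [Polynomial.map_add, Polynomial.map_mul, Polynomial.map_pow, map_C, map_X, eval_add,
      eval_mul, eval_pow, eval_C, eval_X] at hr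
    obtain ⟨n', hn'⟩ := hℓn
    have hfr : ¬ ℓ ∣ Module.finrank (𝓞 K ⧸ v.asIdeal) (𝓞 L ⧸ w.asIdeal) := by
      rw [← Ideal.inertiaDeg'_algebraMap]
      exact hin
    have h1 : (r ^ n') ^ ℓ = algebraMap (𝓞 K ⧸ v.asIdeal) (𝓞 L ⧸ w.asIdeal)
        (-(Ideal.Quotient.mk v.asIdeal c) / Ideal.Quotient.mk v.asIdeal b) := by
      rw [map_div₀, map_neg, eq_div_iff ((_root_.map_ne_zero _).2 hbm), ← pow_mul, mul_comm n' ℓ,
        ← hn']
      linear_combination hr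
    obtain ⟨s, hs⟩ := pow_descent ℓ hℓ hfr _ _ h1
    apply hroot s
    rw [hs, mul_div_cancel₀ _ hbm, neg_add_cancel]
  obtain ⟨hb2, hb2'⟩ := exact_ramification v w a (by rwa [pow_one]) ha'
  have hfact : Fact ℓ.Prime := ⟨hℓ⟩
  obtain ⟨A, _, _, _, _, hfin, hfr, hℓA, fA, hfK, hdegA, hlcA, hsA, hrA, ϖ, t, hϖ, ht, hbt⟩ :=
    num_loc w ℓ hℓw gL hlcw hsw hrw (algebraMap (𝓞 K) (𝓞 L) a) _ hb2 hb2'
  have key := fineP hFUN hℓA fA hlcA hsA (by rw [hdegA, hdegL]; exact hℓn)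
    (by rw [hdegA, hdegL]; exact hn3) hrA ϖ hϖ
    (algebraMap (𝓞 L) L (algebraMap (𝓞 K) (𝓞 L) a))
    ((v.asIdeal.ramificationIdx' w.asIdeal : ℕ) : ℤ) (by
      intro h
      exact hram (by exact_mod_cast h)) t ht hbt
  have h4 : ∀ x : 𝓞 K, algebraMap (𝓞 L) L (algebraMap (𝓞 K) (𝓞 L) x) =
      algebraMap K L (algebraMap (𝓞 K) K x) := by
    intro x
    rw [← IsScalarTower.algebraMap_apply (𝓞 K) (𝓞 L) L, ← IsScalarTower.algebraMap_apply (𝓞 K) K L]
  have h5 : fA.map (algebraMap A L) =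
      C (algebraMap K L (algebraMap (𝓞 K) K b)) * X ^ n +
        C (algebraMap K L (algebraMap (𝓞 K) K c)) := by
    rw [hfK, hgL]
    simp only [Polynomial.map_add, Polynomial.map_mul, Polynomial.map_pow, map_C, map_X, h4]
  rw [h5, h4] at key
  exact key

end Pool.Agent.Q161.Gf
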