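import Mathlib

/-! # Elimination in systems of diagonal equations -/

set_option autoImplicit false

namespace Pool.Agent.Q161.Gf

open Matrix

section

variable {R : Type} [CommRing R] {m : ℕ}

/-- the matrix with the columns `B 0, …, B (m - 1), c` -/
def mat (B : Fin m → Fin (m + 1) → R) (c : Fin (m + 1) → R) : Matrix (Fin (m + 1)) (Fin (m + 1)) R :=
  fun i j => (Fin.snoc (fun j' : Fin m => B j' i) (c i) : Fin (m + 1) → R) j

lemma mat_castSucc (B : Fin m → Fin (m + 1) → R) (c : Fin (m + 1) → R) (i : Fin (m + 1)) (j : Fin m) :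
    mat B c i j.castSucc = B j i := by
  simp [mat]

lemma mat_last (B : Fin m → Fin (m + 1) → R) (c : Fin (m + 1) → R) (i : Fin (m + 1)) :
    mat B c i (Fin.last m) = c i := by
  simp [mat]

lemma mat_eq (B : Fin m → Fin (m + 1) → R) (c : Fin (m + 1) → R) :
    (mat B 0).updateCol (Fin.last m) c = mat B c := by
  ext i j
  refine Fin.lastCases ?_ (fun j => ?_) j
  · rw [updateCol_self, mat_last]
  · rw [updateCol_ne (Fin.castSucc_lt_last j).ne, mat_castSucc, mat_castSucc]

/-- the linear form `c ↦ det (B, c)` -/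
noncomputable def phi (B : Fin m → Fin (m + 1) → R) : (Fin (m + 1) → R) →ₗ[R] R :=
  (LinearMap.proj (Fin.last m)).comp (Matrix.cramer (mat B 0))

lemma phi_apply (B : Fin m → Fin (m + 1) → R) (c : Fin (m + 1) → R) :
    phi B c = (mat B c).det := by
  unfold phi
  rw [LinearMap.comp_apply, LinearMap.proj_apply, cramer_apply, mat_eq]

lemma phi_col (B : Fin m → Fin (m + 1) → R) (j : Fin m) : phi B (B j) = 0 := by
  rw [phi_apply]
  refine det_zero_of_column_eq (Fin.castSucc_lt_last j).ne fun i => ?_
  rw [mat_castSucc, mat_last]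

lemma phi_map {S : Type} [CommRing S] (f : R →+* S) (B : Fin m → Fin (m + 1) → R)
    (c : Fin (m + 1) → R) : phi (fun j i => f (B j i)) (fun i => f (c i)) = f (phi B c) := by
  rw [phi_apply, phi_apply, RingHom.map_det]
  congr 1
  ext i j
  refine Fin.lastCases ?_ (fun j => ?_) j
  · rw [mat_last, RingHom.mapMatrix_apply, Matrix.map_apply, mat_last]
  · rw [mat_castSucc, RingHom.mapMatrix_apply, Matrix.map_apply, mat_castSucc]

/-- the value of the form at the last unit vector -/
lemma phi_single (B : Fin m → Fin (m + 1) → R) :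
    phi B (Pi.single (Fin.last m) 1) = (Matrix.of fun i j : Fin m => B j i.castSucc).det := by
  rw [phi_apply, det_succ_column _ (Fin.last m), Finset.sum_eq_single (Fin.last m)]
  · rw [mat_last, Pi.single_eq_same, mul_one]
    have h1 : ((-1 : R) ^ ((Fin.last m : ℕ) + (Fin.last m : ℕ))) = 1 := by
      rw [← two_mul, pow_mul]
      simp
    rw [h1, one_mul]
    congr 1
    ext i j
    rw [submatrix_apply, Fin.succAbove_last, mat_castSucc]
    rfl
  · intro i _ hi
    rw [mat_last, Pi.single_eq_of_ne hi, mul_zero, zero_mul]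
  · intro h
    exact absurd (Finset.mem_univ _) h

lemma phi_surj (B : Fin m → Fin (m + 1) → R)
    (h : IsUnit (Matrix.of fun i j : Fin m => B j i.castSucc).det) :
    Function.Surjective (phi B) := by
  intro t
  obtain ⟨u, hu⟩ := h
  refine ⟨(t * (↑(u⁻¹) : R)) • Pi.single (Fin.last m) 1, ?_⟩
  rw [map_smul, phi_single, ← hu, smul_eq_mul, mul_assoc, Units.inv_mul, mul_one]

end

section rel

variable {F : Type} [Field F] {m : ℕ}

/-- the ternary relation -/
lemma rel3 (col : Fin (m + 3) → Fin (m + 1) → F) (y : Fin (m + 3) → F)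
    (h : ∀ i, ∑ j, col j i * y j = 0) :
    ∑ k : Fin 3, phi (fun j => col (Fin.castAdd 3 j)) (col (Fin.natAdd m k)) * y (Fin.natAdd m k) = 0 := by
  set B : Fin m → Fin (m + 1) → F := fun j => col (Fin.castAdd 3 j) with hB
  have h1 : (∑ j, y j • col j) = 0 := by
    funext i
    rw [Finset.sum_apply, Pi.zero_apply, ← h i]
    refine Finset.sum_congr rfl fun j _ => ?_
    rw [Pi.smul_apply, smul_eq_mul, mul_comm]
  have h2 := congrArg (phi B) h1
  rw [map_sum, map_zero, Fin.sum_univ_add] at h2
  have h3 : ∑ j : Fin m, phi B (y (Fin.castAdd 3 j) • col (Fin.castAdd 3 j)) = 0 := by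
    refine Finset.sum_eq_zero fun j _ => ?_
    rw [map_smul]
    have := phi_col B j
    rw [hB] at this
    simp only at this
    rw [this, smul_zero]
  rw [h3, zero_add] at h2
  rw [← h2]
  refine Finset.sum_congr rfl fun k _ => ?_
  rw [map_smul, smul_eq_mul, mul_comm]

/-- if the last three coordinates vanish, so do the others -/
lemma rest_zero (col : Fin (m + 3) → Fin (m + 1) → F) (y : Fin (m + 3) → F)
    (h : ∀ i, ∑ j, col j i * y j = 0) (c : Fin (m + 1) → F)
    (hc : phi (fun j => col (Fin.castAdd 3 j)) c ≠ 0) (h3 : ∀ k : Fin 3, y (Fin.natAdd m k) = 0) :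
    y = 0 := by
  set B : Fin m → Fin (m + 1) → F := fun j => col (Fin.castAdd 3 j) with hB
  rw [phi_apply] at hc
  have h1 : (mat B c).mulVec (Fin.snoc (fun j : Fin m => y (Fin.castAdd 3 j)) 0) = 0 := by
    funext i
    rw [mulVec, dotProduct, Fin.sum_univ_castSucc, Fin.snoc_last, mul_zero, add_zero, Pi.zero_apply,
      ← h i, Fin.sum_univ_add]
    have h4 : ∑ k : Fin 3, col (Fin.natAdd m k) i * y (Fin.natAdd m k) = 0 :=
      Finset.sum_eq_zero fun k _ => by rw [h3, mul_zero]
    rw [h4, add_zero]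
    refine Finset.sum_congr rfl fun j _ => ?_
    rw [mat_castSucc, Fin.snoc_castSucc]
  have h2 := eq_zero_of_mulVec_eq_zero hc h1
  funext j
  refine Fin.addCases (fun j => ?_) (fun k => ?_) j
  · have h5 := congrFun h2 j.castSucc
    rw [Fin.snoc_castSucc] at h5
    exact h5
  · exact h3 k

end rel

end Pool.Agent.Q161.Gf
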