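import Pool.Agent.Q52.SecX.Vec
import Pool.Agent.TH120.Sec.DiagCount
import Pool.Agent.Q161.GfB

/-! # Counting systems of diagonal equations modulo the square of a prime -/

set_option autoImplicit false

namespace Pool.Agent.Q161.Gf

open NumberField IsDedekindDomain Matrix
open Pool.Agent.TH120.Sec (pr Good bad_card finite_sq pr_surj card_residue red)
open Pool.Agent.Q52.SecX (ncard_fiber SmallV many_vec)

lemma card_mat (κ : Type) (m : ℕ) [Finite κ] :
    Nat.card (Matrix (Fin m) (Fin m) κ) = Nat.card κ ^ (m * m) := by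
  change Nat.card (Fin m → Fin m → κ) = _
  rw [Nat.card_fun, Nat.card_fun, Nat.card_fin, ← pow_mul]

/-- at most the proportion `1 - 2 ^ (-m)` of the square matrices is singular -/
lemma card_sing (κ : Type) [Field κ] [Finite κ] (m : ℕ) :
    ({M : Matrix (Fin m) (Fin m) κ | M.det = 0}.ncard : ℝ) ≤
      (1 - (1 / 2) ^ m) * (Nat.card κ : ℝ) ^ (m * m) := by
  classical
  have := Fintype.ofFinite κ
  set q := Nat.card κ with hq
  have hq2 : 2 ≤ q := by
    rw [hq]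
    exact Finite.one_lt_card
  have h1 : ({M : Matrix (Fin m) (Fin m) κ | M.det = 0}ᶜ : Set (Matrix (Fin m) (Fin m) κ)).ncard =
      Nat.card (GL (Fin m) κ) := by
    rw [← Nat.card_coe_set_eq]
    refine Nat.card_congr ?_
    refine ⟨fun M => Matrix.GeneralLinearGroup.mkOfDetNeZero M.1 M.2,
      fun g => ⟨g, ?_⟩, ?_, ?_⟩
    · intro h
      have h2 : IsUnit (g : Matrix (Fin m) (Fin m) κ).det :=
        (Matrix.isUnit_iff_isUnit_det _).1 g.isUnit
      rw [show (g : Matrix (Fin m) (Fin m) κ).det = 0 from h] at h2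
      exact not_isUnit_zero h2
    · intro M
      rfl
    · intro g
      ext i j
      rfl
  have h2 : Nat.card (GL (Fin m) κ) = ∏ i : Fin m, (q ^ m - q ^ (i : ℕ)) := by
    rw [Matrix.card_GL_field, hq, Nat.card_eq_fintype_card]
  have h3 : q ^ (m * m) ≤ 2 ^ m * ∏ i : Fin m, (q ^ m - q ^ (i : ℕ)) := by
    have h4 : ∀ i : Fin m, q ^ m ≤ 2 * (q ^ m - q ^ (i : ℕ)) := by
      intro i
      have h5 : 2 * q ^ (i : ℕ) ≤ q ^ m := by
        calc 2 * q ^ (i : ℕ) ≤ q * q ^ (i : ℕ) := Nat.mul_le_mul_right _ hq2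
          _ = q ^ ((i : ℕ) + 1) := by ring
          _ ≤ q ^ m := Nat.pow_le_pow_right (by omega) i.2
      omega
    calc q ^ (m * m) = ∏ i : Fin m, q ^ m := by
          rw [Finset.prod_const, Finset.card_univ, Fintype.card_fin, pow_mul]
      _ ≤ ∏ i : Fin m, (2 * (q ^ m - q ^ (i : ℕ))) :=
          Finset.prod_le_prod (fun _ _ => Nat.zero_le _) fun i _ => h4 i
      _ = _ := by
          rw [Finset.prod_mul_distrib, Finset.prod_const, Finset.card_univ, Fintype.card_fin]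
  have h6 := Set.ncard_add_ncard_compl {M : Matrix (Fin m) (Fin m) κ | M.det = 0}
  rw [card_mat, h1, h2, ← hq] at h6
  have h7 : ((q : ℝ)) ^ (m * m) ≤ 2 ^ m * ((∏ i : Fin m, (q ^ m - q ^ (i : ℕ)) : ℕ) : ℝ) := by
    exact_mod_cast h3
  have h8 : ({M : Matrix (Fin m) (Fin m) κ | M.det = 0}.ncard : ℝ) +
      ((∏ i : Fin m, (q ^ m - q ^ (i : ℕ)) : ℕ) : ℝ) = (q : ℝ) ^ (m * m) := by
    exact_mod_cast h6
  have h9 : (0 : ℝ) < 2 ^ m := by positivity
  have h10 : (1 / 2 : ℝ) ^ m * (q : ℝ) ^ (m * m) ≤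
      ((∏ i : Fin m, (q ^ m - q ^ (i : ℕ)) : ℕ) : ℝ) := by
    rw [div_pow, one_pow, div_mul_eq_mul_div, one_mul, div_le_iff₀ h9]
    linarith
  linarith

section

variable {K : Type} [Field K] [NumberField K] (v : HeightOneSpectrum (𝓞 K)) (m : ℕ)

/-- the matrix of the first `m` rows -/
def top {R : Type} {m : ℕ} (B : Fin m → Fin (m + 1) → R) : Matrix (Fin m) (Fin m) R :=
  Matrix.of fun i j => B j i.castSucc

lemma isUnit_of_pr (x : 𝓞 K ⧸ v.asIdeal ^ 2) (h : pr v x ≠ 0) : IsUnit x := by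
  have hmax : v.asIdeal.IsMaximal := v.isMaximal
  obtain ⟨y, hy⟩ : ∃ y, pr v x * y = 1 := by
    let _ : Field (𝓞 K ⧸ v.asIdeal) := Ideal.Quotient.field _
    exact ⟨(pr v x)⁻¹, mul_inv_cancel₀ h⟩
  obtain ⟨z, rfl⟩ := pr_surj v y
  rw [← map_mul, ← sub_eq_zero, ← map_one (pr v), ← map_sub] at hy
  have h2 : (x * z - 1) ^ 2 = 0 := by
    obtain ⟨t, ht⟩ := Ideal.Quotient.mk_surjective (x * z - 1)
    rw [← ht] at hy ⊢
    have h3 : t ∈ v.asIdeal := Ideal.Quotient.eq_zero_iff_mem.1 hy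
    rw [← map_pow, Ideal.Quotient.eq_zero_iff_mem]
    exact Ideal.pow_mem_pow h3 2
  refine IsUnit.of_mul_eq_one (z * (2 - x * z)) ?_
  linear_combination -h2

/-- the proportion of the degenerate first columns -/
lemma card_degenerate :
    ({B : Fin m → Fin (m + 1) → 𝓞 K ⧸ v.asIdeal ^ 2 | pr v (top B).det = 0}.ncard : ℝ) ≤
      (1 - (1 / 2) ^ m) * (Nat.card (Fin m → Fin (m + 1) → 𝓞 K ⧸ v.asIdeal ^ 2) : ℝ) := by
  classical
  have hfin := finite_sq v
  have hmax : v.asIdeal.IsMaximal := v.isMaximal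
  have hfin' : Finite (𝓞 K ⧸ v.asIdeal) := Ideal.finiteQuotientOfFreeOfNeBot _ v.ne_bot
  let _ : Field (𝓞 K ⧸ v.asIdeal) := Ideal.Quotient.field _
  let q : (Fin m → Fin (m + 1) → 𝓞 K ⧸ v.asIdeal ^ 2) →+
      Matrix (Fin m) (Fin m) (𝓞 K ⧸ v.asIdeal) :=
    { toFun := fun B => Matrix.of fun i j => pr v (B j i.castSucc)
      map_zero' := by
        ext i j
        exact map_zero (pr v)
      map_add' := by
        intro B B'
        ext i j
        exact map_add (pr v) _ _ }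
  have hq : Function.Surjective q := by
    intro M
    choose s hs using pr_surj v
    refine ⟨fun j i => if h : (i : ℕ) < m then s (M ⟨i, h⟩ j) else 0, ?_⟩
    ext i j
    change pr v (if h : ((i.castSucc : Fin (m + 1)) : ℕ) < m then s (M ⟨_, h⟩ j) else 0) = _
    have h1 : ((i.castSucc : Fin (m + 1)) : ℕ) < m := i.2
    rw [dif_pos h1, hs]
    rfl
  have hdet : ∀ B, (q B).det = pr v (top B).det := by
    intro B
    rw [RingHom.map_det]
    rfl
  have h1 := ncard_fiber q hq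
    {B : Fin m → Fin (m + 1) → 𝓞 K ⧸ v.asIdeal ^ 2 | pr v (top B).det = 0}
    {M : Matrix (Fin m) (Fin m) (𝓞 K ⧸ v.asIdeal) | M.det = 0} (by
      intro B hB
      change (q B).det = 0
      rw [hdet]
      exact hB)
  have h2 := card_sing (𝓞 K ⧸ v.asIdeal) m
  rw [card_mat] at h1
  have hpos : (0 : ℝ) < (Nat.card (𝓞 K ⧸ v.asIdeal) : ℝ) ^ (m * m) := by
    have : (0 : ℝ) < Nat.card (𝓞 K ⧸ v.asIdeal) := by exact_mod_cast Nat.card_pos
    positivity
  have h3 : ({B : Fin m → Fin (m + 1) → 𝓞 K ⧸ v.asIdeal ^ 2 | pr v (top B).det = 0}.ncard : ℝ) *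
      (Nat.card (𝓞 K ⧸ v.asIdeal) : ℝ) ^ (m * m) ≤
      ({M : Matrix (Fin m) (Fin m) (𝓞 K ⧸ v.asIdeal) | M.det = 0}.ncard : ℝ) *
        (Nat.card (Fin m → Fin (m + 1) → 𝓞 K ⧸ v.asIdeal ^ 2) : ℝ) := by
    exact_mod_cast h1
  have h4 : (0 : ℝ) ≤ (Nat.card (Fin m → Fin (m + 1) → 𝓞 K ⧸ v.asIdeal ^ 2) : ℝ) :=
    Nat.cast_nonneg _
  have h5 := h3.trans (mul_le_mul_of_nonneg_right h2 h4)
  have h6 : ({B : Fin m → Fin (m + 1) → 𝓞 K ⧸ v.asIdeal ^ 2 | pr v (top B).det = 0}.ncard : ℝ) *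
      (Nat.card (𝓞 K ⧸ v.asIdeal) : ℝ) ^ (m * m) ≤ ((1 - (1 / 2) ^ m) *
        (Nat.card (Fin m → Fin (m + 1) → 𝓞 K ⧸ v.asIdeal ^ 2) : ℝ)) *
      (Nat.card (𝓞 K ⧸ v.asIdeal) : ℝ) ^ (m * m) := by
    linarith
  exact le_of_mul_le_mul_right h6 hpos

/-- the bad triples of columns for given nondegenerate other columns -/
lemma card_fiber (ℓ : ℕ) (hℓ : ℓ.Prime) (hd : ℓ ∣ Ideal.absNorm v.asIdeal - 1)
    (B : Fin m → Fin (m + 1) → 𝓞 K ⧸ v.asIdeal ^ 2) (hB : pr v (top B).det ≠ 0) :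
    ({c : Fin 3 → Fin (m + 1) → 𝓞 K ⧸ v.asIdeal ^ 2 | (fun k => phi B (c k)) ∉ Good v ℓ}.ncard : ℝ) ≤
      (1 - (1 / 8) * (1 / (Ideal.absNorm v.asIdeal : ℝ) - 1 / (Ideal.absNorm v.asIdeal : ℝ) ^ 2)) *
        (Nat.card (Fin 3 → Fin (m + 1) → 𝓞 K ⧸ v.asIdeal ^ 2) : ℝ) := by
  classical
  have hfin := finite_sq v
  have hsurj : Function.Surjective (phi B) := phi_surj B (isUnit_of_pr v _ hB)
  let q : (Fin 3 → Fin (m + 1) → 𝓞 K ⧸ v.asIdeal ^ 2) →+ (Fin 3 → 𝓞 K ⧸ v.asIdeal ^ 2) :=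
    { toFun := fun c k => phi B (c k)
      map_zero' := by
        funext k
        exact map_zero (phi B)
      map_add' := by
        intro c c'
        funext k
        exact map_add (phi B) _ _ }
  have hq : Function.Surjective q := by
    intro t
    choose c hc using fun k => hsurj (t k)
    exact ⟨c, funext hc⟩
  have h1 := ncard_fiber q hq
    {c : Fin 3 → Fin (m + 1) → 𝓞 K ⧸ v.asIdeal ^ 2 | (fun k => phi B (c k)) ∉ Good v ℓ}
    ((Good v ℓ)ᶜ) (fun c hc => hc)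
  have h2 := bad_card v ℓ hℓ hd
  rw [Nat.card_fun, Nat.card_fin, Pool.Agent.W417.SecC.D2.card_sq] at h1
  have hN : (0 : ℝ) < Ideal.absNorm v.asIdeal := by
    exact_mod_cast Pool.Agent.W417.SecC.D2.norm_pos v
  have hpos : (0 : ℝ) < ((Ideal.absNorm v.asIdeal : ℝ) ^ 2) ^ 3 := by positivity
  have h3 : ({c : Fin 3 → Fin (m + 1) → 𝓞 K ⧸ v.asIdeal ^ 2 |
      (fun k => phi B (c k)) ∉ Good v ℓ}.ncard : ℝ) * ((Ideal.absNorm v.asIdeal : ℝ) ^ 2) ^ 3 ≤
      (((Good v ℓ)ᶜ).ncard : ℝ) *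
        (Nat.card (Fin 3 → Fin (m + 1) → 𝓞 K ⧸ v.asIdeal ^ 2) : ℝ) := by
    exact_mod_cast h1
  have h4 : (0 : ℝ) ≤ (Nat.card (Fin 3 → Fin (m + 1) → 𝓞 K ⧸ v.asIdeal ^ 2) : ℝ) :=
    Nat.cast_nonneg _
  have h5 := h3.trans (mul_le_mul_of_nonneg_right h2 h4)
  refine le_of_mul_le_mul_right (h5.trans (le_of_eq ?_)) hpos
  ring

/-- the columns of the matrix with the entries `a` -/
def colOf {R : Type} {m : ℕ} (a : Fin ((m + 3) * (m + 1)) → R) (j : Fin (m + 3)) (i : Fin (m + 1)) :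
    R := a (finProdFinEquiv (j, i))

/-- the coefficients of the ternary relation -/
noncomputable def trip {R : Type} [CommRing R] {m : ℕ} (a : Fin ((m + 3) * (m + 1)) → R) : Fin 3 → R :=
  fun k => phi (fun j => colOf a (Fin.castAdd 3 j)) (colOf a (Fin.natAdd m k))

/-- the proportion of the bad matrices modulo `v ^ 2` -/
theorem bad_mat (ℓ : ℕ) (hℓ : ℓ.Prime) (hd : ℓ ∣ Ideal.absNorm v.asIdeal - 1) :
    ({a : Fin ((m + 3) * (m + 1)) → 𝓞 K ⧸ v.asIdeal ^ 2 | trip a ∉ Good v ℓ}.ncard : ℝ) ≤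
      (1 - ((1 / 2) ^ m * (1 / 8)) * (1 / (Ideal.absNorm v.asIdeal : ℝ) -
        1 / (Ideal.absNorm v.asIdeal : ℝ) ^ 2)) *
        ((Ideal.absNorm v.asIdeal : ℝ) ^ 2) ^ ((m + 3) * (m + 1)) := by
  classical
  have hfin := finite_sq v
  have := Fintype.ofFinite (𝓞 K ⧸ v.asIdeal ^ 2)
  set R := 𝓞 K ⧸ v.asIdeal ^ 2 with hR
  set N : ℝ := (Ideal.absNorm v.asIdeal : ℝ) with hN
  set η : ℝ := (1 / 8) * (1 / N - 1 / N ^ 2) with hη
  have hNpos : 0 < Ideal.absNorm v.asIdeal := Pool.Agent.W417.SecC.D2.norm_pos v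
  have hN1 : 1 ≤ N := by
    rw [hN]
    exact_mod_cast hNpos
  have hη0 : 0 ≤ η := by
    rw [hη]
    have h1 : 1 / N ^ 2 ≤ 1 / N := by
      apply one_div_le_one_div_of_le (by linarith)
      nlinarith
    have h2 : 0 ≤ 1 / N - 1 / N ^ 2 := by linarith
    positivity
  let X := Fin m → Fin (m + 1) → R
  let Y := Fin 3 → Fin (m + 1) → R
  let T : Set (X × Y) := {x | (fun k => phi x.1 (x.2 k)) ∉ Good v ℓ}
  have h1 : {a : Fin ((m + 3) * (m + 1)) → R | trip a ∉ Good v ℓ}.ncard ≤ T.ncard := by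
    refine Set.ncard_le_ncard_of_injOn
      (fun a => ((fun j => colOf a (Fin.castAdd 3 j), fun k => colOf a (Fin.natAdd m k)) : X × Y))
      ?_ ?_ (Set.toFinite _)
    · intro a ha
      exact ha
    · intro a _ a' _ h
      rw [Prod.mk.injEq] at h
      funext t
      obtain ⟨⟨j, i⟩, rfl⟩ := finProdFinEquiv.surjective t
      refine Fin.addCases (fun j => ?_) (fun k => ?_) j
      · exact congrFun (congrFun h.1 j) i
      · exact congrFun (congrFun h.2 k) i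
  -- the sum over the first columns
  have h2 : (T.ncard : ℝ) = ∑ B : X, ({c : Y | (fun k => phi B (c k)) ∉ Good v ℓ}.ncard : ℝ) := by
    rw [Set.ncard_eq_toFinset_card', Finset.card_eq_sum_card_fiberwise (f := Prod.fst)
      (t := Finset.univ) (fun x _ => Finset.mem_coe.2 (Finset.mem_univ _))]
    push_cast
    refine Finset.sum_congr rfl fun B _ => ?_
    congr 1
    rw [Set.ncard_eq_toFinset_card']
    refine Finset.card_bij (fun x _ => x.2) ?_ ?_ ?_
    · intro x hx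
      rw [Finset.mem_filter, Set.mem_toFinset] at hx
      rw [Set.mem_toFinset]
      have h3 : (fun k => phi x.1 (x.2 k)) ∉ Good v ℓ := hx.1
      rw [hx.2] at h3
      exact h3
    · intro x hx y hy hxy
      rw [Finset.mem_filter] at hx hy
      exact Prod.ext (hx.2.trans hy.2.symm) hxy
    · intro c hc
      rw [Set.mem_toFinset] at hc
      refine ⟨(B, c), ?_, rfl⟩
      rw [Finset.mem_filter, Set.mem_toFinset]
      exact ⟨hc, rfl⟩
  have hYc : (0 : ℝ) ≤ (Nat.card Y : ℝ) := Nat.cast_nonneg _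
  let D : Set X := {B | pr v (top B).det = 0}
  have h3 : ∀ B : X, ({c : Y | (fun k => phi B (c k)) ∉ Good v ℓ}.ncard : ℝ) ≤
      (1 - η) * (Nat.card Y : ℝ) + (if B ∈ D then η * (Nat.card Y : ℝ) else 0) := by
    intro B
    by_cases hB : B ∈ D
    · rw [if_pos hB]
      have h4 : {c : Y | (fun k => phi B (c k)) ∉ Good v ℓ}.ncard ≤ Nat.card Y :=
        (Set.ncard_le_ncard (Set.subset_univ _)).trans (Set.ncard_univ _).le
      have h5 : ({c : Y | (fun k => phi B (c k)) ∉ Good v ℓ}.ncard : ℝ) ≤ Nat.card Y := by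
        exact_mod_cast h4
      linarith
    · rw [if_neg hB, add_zero]
      exact card_fiber v m ℓ hℓ hd B hB
  have h4 : (T.ncard : ℝ) ≤ (Nat.card X : ℝ) * ((1 - η) * (Nat.card Y : ℝ)) +
      (D.ncard : ℝ) * (η * (Nat.card Y : ℝ)) := by
    rw [h2]
    refine (Finset.sum_le_sum fun B _ => h3 B).trans ?_
    rw [Finset.sum_add_distrib, Finset.sum_const, Finset.card_univ, nsmul_eq_mul,
      ← Nat.card_eq_fintype_card, ← Finset.sum_filter, Finset.sum_const, nsmul_eq_mul,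
      Set.ncard_eq_toFinset_card']
    refine le_of_eq ?_
    congr 4
    ext B
    rw [Finset.mem_filter, Set.mem_toFinset]
    exact ⟨fun h => h.2, fun h => ⟨Finset.mem_univ _, h⟩⟩
  have h5 : (D.ncard : ℝ) ≤ (1 - (1 / 2) ^ m) * (Nat.card X : ℝ) := card_degenerate v m
  have h6 : (Nat.card X : ℝ) * (Nat.card Y : ℝ) = (N ^ 2) ^ ((m + 3) * (m + 1)) := by
    have h7 : Nat.card X * Nat.card Y = (Ideal.absNorm v.asIdeal ^ 2) ^ ((m + 3) * (m + 1)) := by
      change Nat.card (Fin m → Fin (m + 1) → R) * Nat.card (Fin 3 → Fin (m + 1) → R) = _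
      have h8 : ∀ n : ℕ, Nat.card (Fin n → Fin (m + 1) → R) =
          (Ideal.absNorm v.asIdeal ^ 2) ^ ((m + 1) * n) := by
        intro n
        rw [Nat.card_fun, Nat.card_fun, Nat.card_fin, Nat.card_fin, hR,
          Pool.Agent.W417.SecC.D2.card_sq, pow_mul _ (m + 1) n]
      rw [h8, h8, ← pow_add]
      congr 1
      ring
    rw [hN]
    exact_mod_cast h7
  have h7 : ({a : Fin ((m + 3) * (m + 1)) → R | trip a ∉ Good v ℓ}.ncard : ℝ) ≤ T.ncard := by
    exact_mod_cast h1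
  refine h7.trans (h4.trans ?_)
  have h8 : (D.ncard : ℝ) * (η * (Nat.card Y : ℝ)) ≤
      ((1 - (1 / 2) ^ m) * (Nat.card X : ℝ)) * (η * (Nat.card Y : ℝ)) :=
    mul_le_mul_of_nonneg_right h5 (mul_nonneg hη0 hYc)
  refine (add_le_add_right h8 _).trans (le_of_eq ?_)
  rw [← h6]
  rw [hη]
  ring

end

end Pool.Agent.Q161.Gf
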