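import Pool.Agent.Q52.SecX.Fam
import Pool.Agent.Q161.GfA
import Pool.Agent.Q161.GfC

/-! # Almost all systems of diagonal equations -/

set_option autoImplicit false

namespace Pool.Agent.Q161.Gf

open Polynomial NumberField IsDedekindDomain WithZero
open Pool.Agent.Y157.PS (FineP)
open Pool.Agent.TH120.Sec (pr Good red pr_mk)
open Pool.Agent.Q52.SecX (ncard_fiber SmallV many_vec RamSet2 dvd_finrank2)

section small

variable {K : Type} [Field K] [NumberField K] {d : ℕ}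

lemma small_empty (ε : ℝ) (hε : 0 < ε) : SmallV d (∅ : Set (Fin d → 𝓞 K)) ε := by
  refine ⟨⊤, top_ne_bot, inferInstance, ?_⟩
  rw [Set.image_empty, Set.ncard_empty, Nat.cast_zero]
  exact mul_nonneg hε.le (by positivity)

lemma small_biUnion {ι : Type} (s : Finset ι) (E : ι → Set (Fin d → 𝓞 K))
    (h : ∀ i ∈ s, ∀ ε : ℝ, 0 < ε → SmallV d (E i) ε) (ε : ℝ) (hε : 0 < ε) :
    SmallV d (⋃ i ∈ s, E i) ε := by
  classical
  induction s using Finset.induction_on generalizing ε with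
  | empty =>
    simp only [Finset.notMem_empty, Set.iUnion_of_empty, Set.iUnion_empty]
    exact small_empty ε hε
  | insert i s hi ih =>
    rw [Finset.set_biUnion_insert]
    refine ((h i (Finset.mem_insert_self i s) (ε / 2) (by positivity)).union
      (ih (fun j hj => h j (Finset.mem_insert_of_mem hj)) (ε / 2) (by positivity))).mono
      subset_rfl (by linarith)

lemma small_perm (σ : Equiv.Perm (Fin d)) (E : Set (Fin d → 𝓞 K)) (ε : ℝ) (h : SmallV d E ε) :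
    SmallV d {a | (fun t => a (σ t)) ∈ E} ε := by
  obtain ⟨I, hI, hfin, hle⟩ := h
  refine ⟨I, hI, hfin, le_trans ?_ hle⟩
  have h1 : (red I d '' {a | (fun t => a (σ t)) ∈ E}).ncard ≤ (red I d '' E).ncard := by
    refine Set.ncard_le_ncard_of_injOn (fun b t => b (σ t)) ?_ ?_ (Set.toFinite _)
    · rintro _ ⟨a, ha, rfl⟩
      exact ⟨_, ha, rfl⟩
    · intro b _ b' _ hbb
      funext t
      obtain ⟨t, rfl⟩ := σ.surjective t
      exact congrFun hbb t
  exact_mod_cast h1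

end small

section main

variable {K : Type} [Field K] [NumberField K]

/-- the image in `L` of the integer `x` of `K` -/
abbrev im (L : Type) [Field L] [Algebra K L] (x : 𝓞 K) : L := algebraMap K L (algebraMap (𝓞 K) K x)

/-- no sections and no points for the curves with the relation `x 0 * X ^ n + x 1 * Y ^ n + x 2 * Z ^ n` -/
def FineT (ℓ n : ℕ) (L : Type) [Field L] [Algebra K L] (x : Fin 3 → 𝓞 K) : Prop :=
  FineP ℓ (im L (-x 0)) (C (im L (x 1)) * X ^ n + C (im L (x 2))) ∧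
    FineP ℓ (im L (-x 0)) (C (im L (x 2)) * X ^ n + C (im L (x 1)))

theorem main_one (n : ℕ) (hn : 3 ≤ n) (m M : ℕ) (ℓ : ℕ) (hℓ : ℓ.Prime) (hℓn : ℓ ∣ n) (ε : ℝ)
    (hε : 0 < ε) :
    SmallV ((m + 3) * (m + 1)) {a : Fin ((m + 3) * (m + 1)) → 𝓞 K | ¬ (trip a 0 ≠ 0 ∧
      ∀ (L : Type) [Field L] [NumberField L] [Algebra K L],
        ((RamSet2 ℓ ℓ K L).encard < M ∨ ¬ ℓ ∣ Module.finrank K L) → FineT ℓ n L (trip a))} ε := by
  classical
  have hnK : (n : 𝓞 K) ≠ 0 := by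
    rw [Nat.cast_ne_zero]
    omega
  have hδ0 : (0 : ℝ) < (1 / 2) ^ m * (1 / 8) := by positivity
  have hδ1 : ((1 / 2) ^ m * (1 / 8) : ℝ) ≤ 1 := by
    have h1 : ((1 / 2) ^ m : ℝ) ≤ 1 := pow_le_one₀ (by norm_num) (by norm_num)
    nlinarith
  refine (many_vec ((m + 3) * (m + 1))
    (fun v : HeightOneSpectrum (𝓞 K) => (n : 𝓞 K) ∉ v.asIdeal ∧ ℓ ∣ Ideal.absNorm v.asIdeal - 1)
    (fun v => {a | trip a ∉ Good v ℓ}) ((1 / 2) ^ m * (1 / 8)) ?_
    (fun v hv => bad_mat v m ℓ hℓ hv.2) (M + 1) ∅ ε hε).mono ?_ le_rfl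
  · intro c hc δ hδ
    obtain ⟨T, hT, hTδ⟩ := Pool.Agent.TH120.Sec.supply_split ℓ hℓ
      (c * (n : 𝓞 K)) (mul_ne_zero hc hnK) ((1 / 2) ^ m * (1 / 8)) hδ0 hδ1 δ hδ
    exact ⟨T, fun v hv => ⟨fun h => (hT v hv).1 (Ideal.mul_mem_right _ _ h),
      fun h => (hT v hv).1 (Ideal.mul_mem_left _ _ h), (hT v hv).2⟩, hTδ⟩
  · intro a ha
    rintro ⟨T, hTc, -, hT⟩
    apply ha
    have hgood : ∀ v ∈ T, (n : 𝓞 K) ∉ v.asIdeal ∧ trip a 0 ∈ v.asIdeal ∧
        trip a 0 ∉ v.asIdeal ^ 2 ∧ trip a 1 ∉ v.asIdeal ∧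
        (∀ r : 𝓞 K ⧸ v.asIdeal, Ideal.Quotient.mk v.asIdeal (trip a 1) * r ^ ℓ +
          Ideal.Quotient.mk v.asIdeal (trip a 2) ≠ 0) ∧ trip a 2 ∉ v.asIdeal ∧
        (∀ r : 𝓞 K ⧸ v.asIdeal, Ideal.Quotient.mk v.asIdeal (trip a 2) * r ^ ℓ +
          Ideal.Quotient.mk v.asIdeal (trip a 1) ≠ 0) := by
      intro v hv
      obtain ⟨⟨h1, -⟩, h2⟩ := hT v hv
      rw [Set.mem_ofPred_eq, not_not] at h2
      have hred : ∀ k, trip (red (v.asIdeal ^ 2) _ a) k =
          Ideal.Quotient.mk (v.asIdeal ^ 2) (trip a k) := by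
        intro k
        exact phi_map (Ideal.Quotient.mk (v.asIdeal ^ 2)) _ _
      obtain ⟨g1, g2, g3, g4⟩ := h2
      rw [hred, pr_mk] at g1 g3
      rw [hred] at g2
      have hmax : v.asIdeal.IsMaximal := v.isMaximal
      have e1 : trip a 1 ∉ v.asIdeal := fun h => g3 (Ideal.Quotient.eq_zero_iff_mem.2 h)
      have e2 : ∀ r : 𝓞 K ⧸ v.asIdeal, Ideal.Quotient.mk v.asIdeal (trip a 1) * r ^ ℓ +
          Ideal.Quotient.mk v.asIdeal (trip a 2) ≠ 0 := by
        intro r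
        have h := g4 r
        rw [hred, hred, pr_mk, pr_mk] at h
        exact h
      have e3 : Ideal.Quotient.mk v.asIdeal (trip a 2) ≠ 0 := by
        have h := e2 0
        rwa [zero_pow hℓ.ne_zero, mul_zero, zero_add] at h
      refine ⟨h1, Ideal.Quotient.eq_zero_iff_mem.1 g1,
        fun h => g2 (Ideal.Quotient.eq_zero_iff_mem.2 h), e1, e2,
        fun h => e3 (Ideal.Quotient.eq_zero_iff_mem.2 h), ?_⟩
      intro r hr
      let _ : Field (𝓞 K ⧸ v.asIdeal) := Ideal.Quotient.field _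
      by_cases hr0 : r = 0
      · rw [hr0, zero_pow hℓ.ne_zero, mul_zero, zero_add] at hr
        exact g3 hr
      · apply e2 r⁻¹
        have h5 : r ^ ℓ ≠ 0 := pow_ne_zero _ hr0
        rw [inv_pow]
        field_simp
        linear_combination hr
    obtain ⟨v₀, hv₀⟩ : T.Nonempty := by
      rw [← Finset.card_pos, hTc]
      omega
    refine ⟨?_, ?_⟩
    · intro h
      apply (hgood v₀ hv₀).2.2.1
      rw [h]
      exact zero_mem _
    · intro L _ _ _ hor
      by_contra hcon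
      have hTsub : (T : Set (HeightOneSpectrum (𝓞 K))) ⊆ RamSet2 ℓ ℓ K L := by
        intro v hv w hw
        by_contra hram
        rw [not_or] at hram
        obtain ⟨h1, h2, h3, h4, h5, h6, h7⟩ := hgood v hv
        have h2' : -trip a 0 ∈ v.asIdeal := neg_mem h2
        have h3' : -trip a 0 ∉ v.asIdeal ^ 2 := fun h => h3 (by simpa using neg_mem h)
        apply hcon
        exact ⟨fine_tern n hn v w h1 _ _ _ h2' h3' h4 ℓ hℓ hℓn h5 hram.1 hram.2,
          fine_tern n hn v w h1 _ _ _ h2' h3' h6 ℓ hℓ hℓn h7 hram.1 hram.2⟩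
      rcases hor with h | h
      · have h1 : (T : Set (HeightOneSpectrum (𝓞 K))).encard ≤ (RamSet2 ℓ ℓ K L).encard :=
          Set.encard_le_encard hTsub
        rw [Set.encard_coe_eq_coe_finsetCard, hTc] at h1
        have h2 := h1.trans_lt h
        have h4 : M + 1 < M := by exact_mod_cast h2
        omega
      · exact h (dvd_finrank2 ℓ ℓ dvd_rfl v₀ (hTsub hv₀))

/-- all maximal minors and all primes at once -/
theorem main_all (n : ℕ) (hn : 3 ≤ n) (m M : ℕ) (ε : ℝ) (hε : 0 < ε) :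
    SmallV ((m + 3) * (m + 1)) {a : Fin ((m + 3) * (m + 1)) → 𝓞 K | ¬
      ((∀ τ : Fin (m + 1) → Fin (m + 3), Function.Injective τ →
        (Matrix.of fun i j => colOf a (τ j) i).det ≠ 0) ∧
      ∀ (L : Type) [Field L] [NumberField L] [Algebra K L] (ℓ : ℕ), ℓ.Prime → ℓ ∣ n →
        ((RamSet2 ℓ ℓ K L).encard < M ∨ ¬ ℓ ∣ Module.finrank K L) → trip a 0 ≠ 0 ∧
          FineT ℓ n L (trip a))} ε := by
  classical
  let E : ℕ → Set (Fin ((m + 3) * (m + 1)) → 𝓞 K) := fun ℓ => {a | ¬ (trip a 0 ≠ 0 ∧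
      ∀ (L : Type) [Field L] [NumberField L] [Algebra K L],
        ((RamSet2 ℓ ℓ K L).encard < M ∨ ¬ ℓ ∣ Module.finrank K L) → FineT ℓ n L (trip a))}
  have hE : ∀ ℓ ∈ n.primeFactors, ∀ ε : ℝ, 0 < ε → SmallV ((m + 3) * (m + 1)) (E ℓ) ε := by
    intro ℓ hℓ ε hε
    exact main_one n hn m M ℓ (Nat.prime_of_mem_primeFactors hℓ) (Nat.dvd_of_mem_primeFactors hℓ) ε hε
  let G : Set (Fin ((m + 3) * (m + 1)) → 𝓞 K) := ⋃ ℓ ∈ n.primeFactors, E ℓ
  have hG : ∀ ε : ℝ, 0 < ε → SmallV ((m + 3) * (m + 1)) G ε := small_biUnion _ E hE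
  let s : Equiv.Perm (Fin (m + 3)) → Equiv.Perm (Fin ((m + 3) * (m + 1))) := fun π =>
    finProdFinEquiv.symm.trans ((Equiv.prodCongr π (Equiv.refl _)).trans finProdFinEquiv)
  have hs : ∀ (π : Equiv.Perm (Fin (m + 3))) (a : Fin ((m + 3) * (m + 1)) → 𝓞 K) j i,
      colOf (fun t => a (s π t)) j i = colOf a (π j) i := by
    intro π a j i
    change a (finProdFinEquiv (Equiv.prodCongr π (Equiv.refl _)
      (finProdFinEquiv.symm (finProdFinEquiv (j, i))))) = _
    rw [Equiv.symm_apply_apply]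
    rfl
  refine (small_biUnion Finset.univ (fun π : Equiv.Perm (Fin (m + 3)) =>
    {a : Fin ((m + 3) * (m + 1)) → 𝓞 K | (fun t => a (s π t)) ∈ G})
    (fun π _ ε hε => small_perm (s π) G ε (hG ε hε)) ε hε).mono ?_ le_rfl
  intro a ha
  by_contra hcon
  apply ha
  have hgood : ∀ π : Equiv.Perm (Fin (m + 3)), ∀ ℓ ∈ n.primeFactors,
      (trip (fun t => a (s π t)) 0 ≠ 0 ∧
      ∀ (L : Type) [Field L] [NumberField L] [Algebra K L],
        ((RamSet2 ℓ ℓ K L).encard < M ∨ ¬ ℓ ∣ Module.finrank K L) →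
          FineT ℓ n L (trip (fun t => a (s π t)))) := by
    intro π ℓ hℓ
    by_contra h
    apply hcon
    rw [Set.mem_iUnion₂]
    refine ⟨π, Finset.mem_univ _, ?_⟩
    change (fun t => a (s π t)) ∈ ⋃ ℓ ∈ n.primeFactors, E ℓ
    rw [Set.mem_iUnion₂]
    exact ⟨ℓ, hℓ, h⟩
  have h1 : (fun t => a (s 1 t)) = a := by
    funext t
    congr 1
    change finProdFinEquiv (Equiv.prodCongr (1 : Equiv.Perm (Fin (m + 3)))
      (Equiv.refl (Fin (m + 1))) (finProdFinEquiv.symm t)) = t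
    have h2 : Equiv.prodCongr (1 : Equiv.Perm (Fin (m + 3))) (Equiv.refl (Fin (m + 1))) =
        Equiv.refl _ := by
      ext x <;> rfl
    rw [h2, Equiv.refl_apply, Equiv.apply_symm_apply]
  refine ⟨?_, ?_⟩
  · intro τ hτ
    obtain ⟨ℓ, hℓ⟩ : n.primeFactors.Nonempty := by
      rw [Nat.nonempty_primeFactors]
      omega
    let ι : Fin (m + 1) → Fin (m + 3) := Fin.castLE (by omega)
    have hι : Function.Injective ι := Fin.castLE_injective _
    let e : {x // x ∈ Set.range ι} ≃ {x // x ∈ Set.range τ} :=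
      (Equiv.ofInjective ι hι).symm.trans (Equiv.ofInjective τ hτ)
    let π : Equiv.Perm (Fin (m + 3)) := e.extendSubtype
    have hπ : ∀ j, π (ι j) = τ j := by
      intro j
      have h2 := e.extendSubtype_apply_of_mem (ι j) ⟨j, rfl⟩
      change e.extendSubtype (ι j) = _
      rw [h2]
      change ((Equiv.ofInjective τ hτ) ((Equiv.ofInjective ι hι).symm ⟨ι j, _⟩)).1 = _
      rw [Equiv.ofInjective_symm_apply]
      rfl
    have h3 := (hgood π ℓ hℓ).1
    intro h4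
    apply h3
    unfold trip
    rw [phi_apply, ← h4]
    congr 1
    ext i j
    rw [Matrix.of_apply, ← hπ, ← hs]
    refine Fin.lastCases ?_ (fun j => ?_) j
    · rw [mat_last]
      congr 1
    · rw [mat_castSucc]
      congr 1
  · intro L _ _ _ ℓ hℓ hℓn hor
    have hmem : ℓ ∈ n.primeFactors := Nat.mem_primeFactors.2 ⟨hℓ, hℓn, by omega⟩
    have h2 := hgood 1 ℓ hmem
    rw [h1] at h2
    exact ⟨h2.1, h2.2 L hor⟩

end main

end Pool.Agent.Q161.Gf
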