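import Pool.Agent.Q161.GfD

/-! # From solutions of the system to points of superelliptic curves -/

set_option autoImplicit false

namespace Pool.Agent.Q161.Gf

open Polynomial NumberField IsDedekindDomain WithZero
open Pool.Agent.Y157.PS (FineP)
open Pool.Agent.Q52.SecX (RamSet2)

lemma point_of {L F : Type} [Field L] [Field F] [Algebra L F] (n ℓ n' : ℕ) (hn : n = ℓ * n')
    (hn0 : n ≠ 0) (t : Fin 3 → L) (ht : t 0 ≠ 0) (x : Fin 3 → F) (hx : x ≠ 0)
    (h : ∑ k, algebraMap L F (t k) * x k ^ n = 0) :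
    (∃ X Y : F, algebraMap L F (-t 0) * Y ^ ℓ = algebraMap L F (t 1) * X ^ n +
      algebraMap L F (t 2)) ∨
    ∃ X Y : F, algebraMap L F (-t 0) * Y ^ ℓ = algebraMap L F (t 2) * X ^ n +
      algebraMap L F (t 1) := by
  rw [Fin.sum_univ_three] at h
  by_cases h2 : x 2 = 0
  · by_cases h1 : x 1 = 0
    · exfalso
      rw [h1, h2, zero_pow hn0, mul_zero, mul_zero, add_zero, add_zero] at h
      have h3 : algebraMap L F (t 0) ≠ 0 := (_root_.map_ne_zero _).2 ht
      have h4 : x 0 = 0 := by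
        rcases mul_eq_zero.1 h with h5 | h5
        · exact absurd h5 h3
        · exact pow_eq_zero_iff hn0 |>.1 h5
      apply hx
      funext k
      fin_cases k
      · exact h4
      · exact h1
      · exact h2
    · right
      refine ⟨x 2 / x 1, (x 0 / x 1) ^ n', ?_⟩
      rw [← pow_mul, mul_comm n' ℓ, ← hn, div_pow, div_pow, map_neg]
      have h3 : x 1 ^ n ≠ 0 := pow_ne_zero _ h1
      field_simp
      linear_combination -h
  · left
    refine ⟨x 1 / x 2, (x 0 / x 2) ^ n', ?_⟩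
    rw [← pow_mul, mul_comm n' ℓ, ← hn, div_pow, div_pow, map_neg]
    have h3 : x 2 ^ n ≠ 0 := pow_ne_zero _ h2
    field_simp
    linear_combination -h

section

variable {K : Type} [Field K] [NumberField K] {m : ℕ}

/-- the ternary relation of a solution -/
lemma tern {L F : Type} [Field L] [Algebra K L] [Field F] [Algebra L F] (n : ℕ) (hn0 : n ≠ 0)
    (a : Fin ((m + 3) * (m + 1)) → 𝓞 K) (h0 : trip a 0 ≠ 0) (x : Fin (m + 3) → F) (hx : x ≠ 0)
    (h : ∀ i, ∑ j, algebraMap L F (im L (colOf a j i)) * x j ^ n = 0) :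
    (fun k : Fin 3 => x (Fin.natAdd m k)) ≠ 0 ∧
      ∑ k : Fin 3, algebraMap L F (im L (trip a k)) * x (Fin.natAdd m k) ^ n = 0 := by
  let f : 𝓞 K →+* F := (algebraMap L F).comp ((algebraMap K L).comp (algebraMap (𝓞 K) K))
  have hf : ∀ z, f z = algebraMap L F (im L z) := fun z => rfl
  have hinj : Function.Injective f := by
    intro y z hyz
    exact IsFractionRing.injective (𝓞 K) K ((algebraMap K L).injective
      ((algebraMap L F).injective hyz))
  have h1 : ∀ i, ∑ j, (fun j i => f (colOf a j i)) j i * (fun j => x j ^ n) j = 0 := h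
  have hphi : ∀ k : Fin 3, phi (fun j i => f (colOf a (Fin.castAdd 3 j) i))
      (fun i => f (colOf a (Fin.natAdd m k) i)) = f (trip a k) := fun k => phi_map f _ _
  have h2 := rel3 (fun j i => f (colOf a j i)) (fun j => x j ^ n) h1
  refine ⟨?_, ?_⟩
  · intro h3
    apply hx
    have h4 := rest_zero (fun j i => f (colOf a j i)) (fun j => x j ^ n) h1
      (fun i => f (colOf a (Fin.natAdd m 0) i)) (by
        rw [hphi 0, Ne, map_eq_zero_iff f hinj]
        exact h0) (fun k => by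
        have h5 : x (Fin.natAdd m k) = 0 := congrFun h3 k
        change x (Fin.natAdd m k) ^ n = 0
        rw [h5, zero_pow hn0])
    funext j
    exact pow_eq_zero_iff hn0 |>.1 (congrFun h4 j)
  · rw [← h2]
    refine Finset.sum_congr rfl fun k _ => ?_
    rw [hphi k, hf]

/-- no points -/
theorem no_point {L : Type} [Field L] [Algebra K L] (n : ℕ) (hn0 : n ≠ 0) (ℓ : ℕ) (hℓn : ℓ ∣ n)
    (a : Fin ((m + 3) * (m + 1)) → 𝓞 K) (h0 : trip a 0 ≠ 0) (hf : FineT ℓ n L (trip a))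
    (x : Fin (m + 3) → L) (h : ∀ i, ∑ j, im L (colOf a j i) * x j ^ n = 0) : x = 0 := by
  by_contra hx
  have hinj : Function.Injective (algebraMap (𝓞 K) K) := IsFractionRing.injective (𝓞 K) K
  obtain ⟨n', hn'⟩ := hℓn
  obtain ⟨h1, h2⟩ := tern (L := L) (F := L) n hn0 a h0 x hx h
  have h3 : im L (trip a 0) ≠ 0 := by
    unfold im
    rw [Ne, _root_.map_eq_zero, map_eq_zero_iff _ hinj]
    exact h0
  obtain ⟨⟨-, -, f1, -⟩, ⟨-, -, f2, -⟩⟩ := hf
  rcases point_of (L := L) (F := L) n ℓ n' hn' hn0 (fun k => im L (trip a k)) h3 _ h1 h2 with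
    ⟨X, Y, hXY⟩ | ⟨X, Y, hXY⟩
  · apply f1 X Y
    simp only [eval_add, eval_mul, eval_pow, eval_C, eval_X]
    rw [im, map_neg, map_neg]
    exact hXY
  · apply f2 X Y
    simp only [eval_add, eval_mul, eval_pow, eval_C, eval_X]
    rw [im, map_neg, map_neg]
    exact hXY

/-- no sections -/
theorem no_sec {L : Type} [Field L] [Algebra K L] (n : ℕ) (hn0 : n ≠ 0) (ℓ : ℕ) (hℓn : ℓ ∣ n)
    (a : Fin ((m + 3) * (m + 1)) → 𝓞 K) (h0 : trip a 0 ≠ 0) (hf : FineT ℓ n L (trip a))
    (F Ω : Type) [Field F] [Field Ω] [Algebra L F] [Algebra F Ω] [Algebra L Ω]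
    [IsScalarTower L F Ω] [IsAlgClosed Ω] [Algebra.IsAlgebraic F Ω] (U : Set (ValuationSubring F))
    (hU : ∀ O ∈ U, ∀ c : L, algebraMap L F c ∈ O) (x : Fin (m + 3) → F) (hx : x ≠ 0)
    (h : ∀ i, ∑ j, algebraMap L F (im L (colOf a j i)) * x j ^ n = 0) :
    IsEmpty (Pool.Agent.W620.SC.GSection L F Ω U) := by
  have hinj : Function.Injective (algebraMap (𝓞 K) K) := IsFractionRing.injective (𝓞 K) K
  obtain ⟨n', hn'⟩ := hℓn
  obtain ⟨h1, h2⟩ := tern (L := L) (F := F) n hn0 a h0 x hx h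
  have h3 : im L (trip a 0) ≠ 0 := by
    unfold im
    rw [Ne, _root_.map_eq_zero, map_eq_zero_iff _ hinj]
    exact h0
  obtain ⟨⟨-, f1, -⟩, ⟨-, f2, -⟩⟩ := hf
  rcases point_of (L := L) (F := F) n ℓ n' hn' hn0 (fun k => im L (trip a k)) h3 _ h1 h2 with
    ⟨X, Y, hXY⟩ | ⟨X, Y, hXY⟩
  · refine f1 F Ω U hU X Y ?_
    simp only [map_add, map_mul, map_pow, aeval_C, aeval_X]
    rw [im, map_neg, map_neg]
    exact hXY
  · refine f2 F Ω U hU X Y ?_
    simp only [map_add, map_mul, map_pow, aeval_C, aeval_X]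
    rw [im, map_neg, map_neg]
    exact hXY

end

end Pool.Agent.Q161.Gf
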