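import Pool.Agent.Q52.SecX.Vec
import Pool.Agent.Q161.GfA

/-! # The local theorem at a prime of a number field, general form -/

set_option autoImplicit false

namespace Pool.Agent.Q161.Gg

open Polynomial NumberField IsDedekindDomain WithZero
open Pool.Agent.Y157.PS (S_FUN FineP fineP num_loc)
open Pool.Agent.Q52.SecX (hFUN exact_ramification)

variable {K L : Type} [Field K] [NumberField K] [Field L] [NumberField L] [Algebra K L]

/-- the local theorem: `a` is exactly divisible by `v`, and `g` has a separable reduction without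
roots in the residue field of `w` -/
theorem fine_gen (g : (𝓞 K)[X]) (h3 : 3 ≤ g.natDegree) (v : HeightOneSpectrum (𝓞 K))
    (w : HeightOneSpectrum (𝓞 L)) [w.asIdeal.LiesOver v.asIdeal] (hlc : g.leadingCoeff ∉ v.asIdeal)
    (hs : (g.map (Ideal.Quotient.mk v.asIdeal)).Separable)
    (hroot : ∀ r : 𝓞 L ⧸ w.asIdeal, (g.map (Ideal.Quotient.mk v.asIdeal)).eval₂
      (algebraMap (𝓞 K ⧸ v.asIdeal) (𝓞 L ⧸ w.asIdeal)) r ≠ 0)
    (a : 𝓞 K) (ha : a ∈ v.asIdeal) (ha' : a ∉ v.asIdeal ^ 2)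
    (ℓ : ℕ) (hℓ : ℓ.Prime) (hℓv : (ℓ : 𝓞 K) ∉ v.asIdeal) (hℓd : ℓ ∣ g.natDegree)
    (hram : ¬ ℓ ∣ v.asIdeal.ramificationIdx' w.asIdeal) :
    FineP ℓ (algebraMap K L (algebraMap (𝓞 K) K a))
      ((g.map (algebraMap (𝓞 K) K)).map (algebraMap K L)) := by
  classical
  have hvp : v.asIdeal.IsPrime := v.isPrime
  have hvm : v.asIdeal.IsMaximal := v.isMaximal
  have hwp : w.asIdeal.IsPrime := w.isPrime
  have hwm : w.asIdeal.IsMaximal := w.isMaximal
  have hover : v.asIdeal = w.asIdeal.under (𝓞 K) := Ideal.LiesOver.over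
  have hmem : ∀ x : 𝓞 K, algebraMap (𝓞 K) (𝓞 L) x ∈ w.asIdeal ↔ x ∈ v.asIdeal := by
    intro x
    rw [hover]
    rfl
  have hinjKL : Function.Injective (algebraMap (𝓞 K) (𝓞 L)) :=
    FaithfulSMul.algebraMap_injective _ _
  let _ : Field (𝓞 K ⧸ v.asIdeal) := Ideal.Quotient.field _
  let _ : Field (𝓞 L ⧸ w.asIdeal) := Ideal.Quotient.field _
  have hfinv : Finite (𝓞 K ⧸ v.asIdeal) := Ideal.finiteQuotientOfFreeOfNeBot _ v.ne_bot
  have hfinw : Finite (𝓞 L ⧸ w.asIdeal) := Ideal.finiteQuotientOfFreeOfNeBot _ w.ne_bot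
  have hℓw : (ℓ : 𝓞 L) ∉ w.asIdeal := by
    intro h
    apply hℓv
    rw [← hmem, map_natCast]
    exact h
  set gL : (𝓞 L)[X] := g.map (algebraMap (𝓞 K) (𝓞 L)) with hgL
  have hdegL : gL.natDegree = g.natDegree := by
    rw [hgL, natDegree_map_eq_of_injective hinjKL]
  have hlcw : gL.leadingCoeff ∉ w.asIdeal := by
    rw [hgL, leadingCoeff_map_of_injective hinjKL, hmem]
    exact hlc
  have hcomp : (Ideal.Quotient.mk w.asIdeal).comp (algebraMap (𝓞 K) (𝓞 L)) =
      (algebraMap (𝓞 K ⧸ v.asIdeal) (𝓞 L ⧸ w.asIdeal)).comp (Ideal.Quotient.mk v.asIdeal) := by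
    ext x
    rfl
  have hmapL : gL.map (Ideal.Quotient.mk w.asIdeal) =
      (g.map (Ideal.Quotient.mk v.asIdeal)).map (algebraMap (𝓞 K ⧸ v.asIdeal) (𝓞 L ⧸ w.asIdeal)) := by
    rw [hgL, Polynomial.map_map, hcomp, Polynomial.map_map]
  have hsw : (gL.map (Ideal.Quotient.mk w.asIdeal)).Separable := by
    rw [hmapL]
    exact hs.map
  have hrw : ∀ r : 𝓞 L ⧸ w.asIdeal, (gL.map (Ideal.Quotient.mk w.asIdeal)).eval r ≠ 0 := by
    intro r
    rw [hmapL, eval_map]
    exact hroot r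
  obtain ⟨hb2, hb2'⟩ := exact_ramification v w a (by rwa [pow_one]) ha'
  have hfact : Fact ℓ.Prime := ⟨hℓ⟩
  obtain ⟨A, _, _, _, _, hfin, hfr, hℓA, fA, hfK, hdegA, hlcA, hsA, hrA, ϖ, t, hϖ, ht, hbt⟩ :=
    num_loc w ℓ hℓw gL hlcw hsw hrw (algebraMap (𝓞 K) (𝓞 L) a) _ hb2 hb2'
  have key := fineP hFUN hℓA fA hlcA hsA (by rw [hdegA, hdegL]; exact hℓd)
    (by rw [hdegA, hdegL]; exact h3) hrA ϖ hϖ
    (algebraMap (𝓞 L) L (algebraMap (𝓞 K) (𝓞 L) a))
    ((v.asIdeal.ramificationIdx' w.asIdeal : ℕ) : ℤ) (by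
      intro h
      exact hram (by exact_mod_cast h)) t ht hbt
  have h4 : ∀ x : 𝓞 K, algebraMap (𝓞 L) L (algebraMap (𝓞 K) (𝓞 L) x) =
      algebraMap K L (algebraMap (𝓞 K) K x) := by
    intro x
    rw [← IsScalarTower.algebraMap_apply (𝓞 K) (𝓞 L) L, ← IsScalarTower.algebraMap_apply (𝓞 K) K L]
  have h5 : fA.map (algebraMap A L) = (g.map (algebraMap (𝓞 K) K)).map (algebraMap K L) := by
    rw [hfK, hgL, Polynomial.map_map, Polynomial.map_map]
    congr 1
  rw [h5, h4] at key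
  exact key

/-- a root of an irreducible polynomial in a finite extension -/
lemma deg_of_root {κ κ' : Type} [Field κ] [Field κ'] [Algebra κ κ'] [FiniteDimensional κ κ']
    (p : κ[X]) (hp : Irreducible p) (r : κ') (hr : p.eval₂ (algebraMap κ κ') r = 0) :
    p.natDegree ∣ Module.finrank κ κ' := by
  have hr' : aeval r p = 0 := hr
  have hint : IsIntegral κ r := Algebra.IsIntegral.isIntegral r
  have h1 : minpoly κ r ∣ p := minpoly.dvd _ r hr'
  have h2 : Associated (minpoly κ r) p := (minpoly.irreducible hint).associated_of_dvd hp h1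
  have h3 : (minpoly κ r).natDegree = p.natDegree :=
    natDegree_eq_of_degree_eq (degree_eq_degree_of_associated h2)
  rw [← h3]
  exact minpoly.degree_dvd hint

end Pool.Agent.Q161.Gg
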