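import Pool.Agent.Q52.SecY.Cnt

/-! # Counting tuples of polynomials, irreducible of degree at least two and not associated -/

set_option autoImplicit false

namespace Pool.Agent.Q161.Gg

open Polynomial NumberField IsDedekindDomain
open Pool.Agent.TH120.Sec (pr finite_sq pr_surj card_residue red ker_ncard)
open Pool.Agent.TH377.Sup (pol pol_of pol_natDegree_le Irr few pol_coeff)
open Pool.Agent.Q52.SecX (ncard_fiber SmallV many_vec)
open Pool.Agent.Q52.SecY (Idx GoodP GoodM splitEquiv two_le_norm)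

section finite

variable (κ : Type) [Field κ] [Finite κ]

/-- the elements of small degree, also for `d = 2` -/
lemma few' (E : Type) [Field E] [Algebra κ E] [Finite E] (d : ℕ) (hd : 2 ≤ d)
    (hE : Module.finrank κ E = d) :
    4 * {z : E | (minpoly κ z).natDegree ≠ d}.ncard ≤ 2 * Nat.card E := by
  classical
  rcases Nat.lt_or_ge 2 d with h | h
  · exact few κ E d h hE
  have hd2 : d = 2 := by omega
  subst hd2
  set q := Nat.card κ with hq
  have hq2 : 2 ≤ q := Finite.one_lt_card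
  have hfd : FiniteDimensional κ E := Module.finite_of_finrank_pos (by omega)
  have hcardE : Nat.card E = q ^ 2 := by rw [← hE, Module.natCard_eq_pow_finrank (K := κ)]
  have hne : (X ^ q ^ 1 - X : E[X]) ≠ 0 := FiniteField.X_pow_card_pow_sub_X_ne_zero _ one_ne_zero hq2
  have h1 : {z : E | (minpoly κ z).natDegree ≠ 2} ⊆
      ((X ^ q ^ 1 - X : E[X]).roots.toFinset : Set E) := by
    intro z hz
    have hint : IsIntegral κ z := Algebra.IsIntegral.isIntegral z
    have hirr := minpoly.irreducible hint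
    have hdvd : (minpoly κ z).natDegree ∣ 2 := by
      rw [← hE]
      exact minpoly.degree_dvd hint
    have hz' : (minpoly κ z).natDegree ≠ 2 := hz
    have h2 : (minpoly κ z).natDegree = 1 := by
      rcases (Nat.dvd_prime Nat.prime_two).1 hdvd with h3 | h3
      · exact h3
      · exact absurd h3 hz'
    rw [Finset.mem_coe, Multiset.mem_toFinset, mem_roots hne, IsRoot.def, eval_sub, eval_pow,
      eval_X, sub_eq_zero]
    have h3 := (hirr.natDegree_dvd_iff_dvd_X_pow_card_pow_sub_X (n := 1)).1 (by rw [h2])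
    have h4 := aeval_eq_zero_of_dvd_aeval_eq_zero h3 (minpoly.aeval κ z)
    rw [map_sub, map_pow, aeval_X, sub_eq_zero] at h4
    exact h4
  have h2 : {z : E | (minpoly κ z).natDegree ≠ 2}.ncard ≤ q := by
    refine (Set.ncard_le_ncard h1 (Finset.finite_toSet _)).trans ?_
    rw [Set.ncard_coe_finset]
    refine (Multiset.toFinset_card_le _).trans ((card_roots' _).trans ?_)
    rw [FiniteField.X_pow_card_pow_sub_X_natDegree_eq _ one_ne_zero hq2, pow_one]
  rw [hcardE]
  nlinarith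

/-- there are many irreducible polynomials -/
theorem irr_card' (d : ℕ) (hd : 2 ≤ d) :
    (Nat.card κ - 1) * Nat.card κ ^ d ≤ 2 * d * (Irr κ d).ncard := by
  classical
  obtain ⟨p, hp⟩ := CharP.exists κ
  have hpp : Fact p.Prime := ⟨CharP.char_is_prime κ p⟩
  have hnz : NeZero d := ⟨by omega⟩
  let E := FiniteField.Extension κ p d
  have hE : Module.finrank κ E = d := FiniteField.finrank_extension κ p d
  have hcard : Nat.card E = Nat.card κ ^ d := FiniteField.natCard_extension κ p d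
  have hfe := few' κ E d hd hE
  have hFE : Fintype E := Fintype.ofFinite E
  have hFκ : Fintype κ := Fintype.ofFinite κ
  set B : Set E := {z : E | (minpoly κ z).natDegree ≠ d} with hB
  set G : Finset E := Finset.univ.filter fun z => (minpoly κ z).natDegree = d with hG
  have hGB : G.card + B.ncard = Nat.card E := by
    have h1 : (G : Set E) = Bᶜ := by
      ext z
      simp [hG, hB]
    rw [← Set.ncard_coe_finset, h1, add_comm, Set.ncard_add_ncard_compl]
  let T : Finset (Fin (d + 1) → κ) := (Set.toFinite (Irr κ d)).toFinset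
  have hT : T.card = (Irr κ d).ncard := (Set.ncard_eq_toFinset_card _ _).symm
  let Φ : κˣ × E → (Fin (d + 1) → κ) := fun x i => (C (x.1 : κ) * minpoly κ x.2).coeff i
  have hΦ : ∀ x : κˣ × E, x.2 ∈ G → pol (Φ x) = C (x.1 : κ) * minpoly κ x.2 := by
    intro x hx
    refine pol_of _ ?_
    rw [natDegree_C_mul x.1.ne_zero]
    exact le_of_eq (Finset.mem_filter.1 hx).2
  have hlast : ∀ x : κˣ × E, x.2 ∈ G → Φ x (Fin.last d) = x.1 := by
    intro x hx
    have h1 : (minpoly κ x.2).natDegree = d := (Finset.mem_filter.1 hx).2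
    have hmon : (minpoly κ x.2).Monic := minpoly.monic (Algebra.IsIntegral.isIntegral x.2)
    change (C (x.1 : κ) * minpoly κ x.2).coeff ((Fin.last d : Fin (d + 1)) : ℕ) = _
    rw [Fin.val_last, coeff_C_mul]
    have h2 : (minpoly κ x.2).coeff d = 1 := by
      have := hmon.coeff_natDegree
      rwa [h1] at this
    rw [h2, mul_one]
  have key := Finset.card_le_mul_card_image_of_maps_to (f := Φ)
    (s := (Finset.univ : Finset κˣ) ×ˢ G) (t := T) (by
      intro x hx
      have hx2 : x.2 ∈ G := (Finset.mem_product.1 hx).2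
      rw [Set.Finite.mem_toFinset]
      refine ⟨?_, ?_⟩
      · rw [hlast x hx2]
        exact x.1.ne_zero
      · rw [hΦ x hx2]
        have hirr := minpoly.irreducible (Algebra.IsIntegral.isIntegral (R := κ) x.2)
        exact (irreducible_isUnit_mul (isUnit_C.2 x.1.isUnit)).2 hirr) d (by
      intro c hc
      rw [Set.Finite.mem_toFinset] at hc
      have h0 : (pol c).map (algebraMap κ E) ≠ 0 :=
        (Polynomial.map_ne_zero_iff (algebraMap κ E).injective).2 hc.2.ne_zero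
      have h1 : ((((Finset.univ : Finset κˣ) ×ˢ G).filter fun x => Φ x = c).image Prod.snd).card ≤
          d := by
        have h2 : (((Finset.univ : Finset κˣ) ×ˢ G).filter fun x => Φ x = c).image Prod.snd ⊆
            ((pol c).map (algebraMap κ E)).roots.toFinset := by
          intro z hz
          obtain ⟨x, hx, rfl⟩ := Finset.mem_image.1 hz
          obtain ⟨hx1, hx2⟩ := Finset.mem_filter.1 hx
          rw [Multiset.mem_toFinset, mem_roots h0, IsRoot.def, ← hx2,
            hΦ x (Finset.mem_product.1 hx1).2, eval_map_algebraMap, map_mul, minpoly.aeval,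
            mul_zero]
        refine (Finset.card_le_card h2).trans ((Multiset.toFinset_card_le _).trans
          ((card_roots' _).trans ?_))
        exact natDegree_map_le.trans (pol_natDegree_le c)
      rwa [Finset.card_image_of_injOn] at h1
      intro x hx y hy hxy
      obtain ⟨hx1, hx2⟩ := Finset.mem_filter.1 (Finset.mem_coe.1 hx)
      obtain ⟨hy1, hy2⟩ := Finset.mem_filter.1 (Finset.mem_coe.1 hy)
      refine Prod.ext ?_ hxy
      apply Units.ext
      rw [← hlast x (Finset.mem_product.1 hx1).2, ← hlast y (Finset.mem_product.1 hy1).2, hx2,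
        hy2])
  rw [Finset.card_product, hT, Finset.card_univ, ← Nat.card_eq_fintype_card, Nat.card_units] at key
  have h6 : Nat.card κ ^ d ≤ 2 * G.card := by
    rw [← hcard]
    omega
  calc (Nat.card κ - 1) * Nat.card κ ^ d ≤ (Nat.card κ - 1) * (2 * G.card) :=
        Nat.mul_le_mul_left _ h6
    _ = 2 * ((Nat.card κ - 1) * G.card) := by ring
    _ ≤ 2 * (d * (Irr κ d).ncard) := Nat.mul_le_mul_left _ key
    _ = 2 * d * (Irr κ d).ncard := by ring

end finite

section

variable {K : Type} [Field K] [NumberField K] (v : HeightOneSpectrum (𝓞 K))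

lemma goodP_card' (d : ℕ) (hd : 2 ≤ d) :
    (Ideal.absNorm v.asIdeal - 1) * Ideal.absNorm v.asIdeal ^ (2 * d + 1) ≤
      2 * d * (GoodP v d).ncard := by
  classical
  have hfin := finite_sq v
  have hmax : v.asIdeal.IsMaximal := v.isMaximal
  have hfin' : Finite (𝓞 K ⧸ v.asIdeal) := Ideal.finiteQuotientOfFreeOfNeBot _ v.ne_bot
  let _ : Field (𝓞 K ⧸ v.asIdeal) := Ideal.Quotient.field _
  set N := Ideal.absNorm v.asIdeal with hN
  have hq := irr_card' (𝓞 K ⧸ v.asIdeal) d hd
  rw [card_residue, ← hN] at hq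
  set J : Set (𝓞 K ⧸ v.asIdeal ^ 2) := {x | pr v x = 0} with hJ
  have hJc : J.ncard = N := ker_ncard v
  have hJp : (Set.pi Set.univ fun _ : Fin (d + 1) => J).ncard = N ^ (d + 1) := by
    rw [← Nat.card_coe_set_eq, Nat.card_congr (Equiv.Set.univPi _), Nat.card_pi]
    simp only [Nat.card_coe_set_eq, hJc, Finset.prod_const, Finset.card_univ, Fintype.card_fin]
  let s := Function.surjInv (pr_surj v)
  have hs : ∀ x, pr v (s x) = x := Function.surjInv_eq (pr_surj v)
  have h1 : ((Irr (𝓞 K ⧸ v.asIdeal) d) ×ˢ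
      (Set.pi Set.univ fun _ : Fin (d + 1) => J)).ncard ≤ (GoodP v d).ncard := by
    refine Set.ncard_le_ncard_of_injOn
      (fun x => fun i => s (x.1 i) + x.2 i) ?_ ?_ (Set.toFinite _)
    · rintro ⟨c, t⟩ ⟨hc, ht⟩
      have e1 : ∀ i, pr v (s (c i) + t i) = c i := by
        intro i
        rw [map_add, hs, show pr v (t i) = 0 from ht i (Set.mem_univ i), add_zero]
      refine ⟨?_, ?_⟩
      · change pr v (s (c (Fin.last d)) + t (Fin.last d)) ≠ 0
        rw [e1]
        exact hc.1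
      · change Irreducible (pol fun i : Fin (d + 1) => pr v (s (c i) + t i))
        simp only [e1]
        exact hc.2
    · rintro ⟨c, t⟩ ⟨hc, ht⟩ ⟨c', t'⟩ ⟨hc', ht'⟩ h
      have h1 : ∀ i : Fin (d + 1), s (c i) + t i = s (c' i) + t' i := fun i => congrFun h i
      have e1 : c = c' := by
        funext i
        have := congrArg (pr v) (h1 i)
        rwa [map_add, map_add, hs, hs, show pr v (t i) = 0 from ht i (Set.mem_univ i),
          show pr v (t' i) = 0 from ht' i (Set.mem_univ i), add_zero, add_zero] at this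
      subst e1
      have e2 : t = t' := by
        funext i
        have := h1 i
        rwa [add_right_inj] at this
      rw [e2]
  rw [Set.ncard_prod, hJp] at h1
  calc (N - 1) * N ^ (2 * d + 1) = ((N - 1) * N ^ d) * N ^ (d + 1) := by ring
    _ ≤ (2 * d * (Irr (𝓞 K ⧸ v.asIdeal) d).ncard) * N ^ (d + 1) := by
        gcongr
    _ = 2 * d * ((Irr (𝓞 K ⧸ v.asIdeal) d).ncard * N ^ (d + 1)) := by ring
    _ ≤ 2 * d * (GoodP v d).ncard := Nat.mul_le_mul_left _ h1

lemma goodP_card_real' (d : ℕ) (hd : 2 ≤ d) :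
    (1 / (4 * d) : ℝ) * ((Ideal.absNorm v.asIdeal : ℝ) ^ 2) ^ (d + 1) ≤
      ((GoodP v d).ncard : ℝ) := by
  have h1 := goodP_card' v d hd
  have hN2 := two_le_norm v
  set N := Ideal.absNorm v.asIdeal with hN
  have hNr : (2 : ℝ) ≤ N := by exact_mod_cast hN2
  have hdr : (0 : ℝ) < d := by
    have : 0 < d := by omega
    exact_mod_cast this
  have h4 : ((N : ℝ) - 1) * (N : ℝ) ^ (2 * d + 1) ≤ 2 * d * ((GoodP v d).ncard : ℝ) := by
    have h5 : ((N - 1 : ℕ) : ℝ) = (N : ℝ) - 1 := by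
      rw [Nat.cast_sub (by omega)]
      norm_num
    rw [← h5]
    exact_mod_cast h1
  have h6 : (1 / 2) * ((N : ℝ) ^ 2) ^ (d + 1) ≤ ((N : ℝ) - 1) * (N : ℝ) ^ (2 * d + 1) := by
    have h7 : ((N : ℝ) ^ 2) ^ (d + 1) = N * (N : ℝ) ^ (2 * d + 1) := by ring
    rw [h7]
    have h8 : (0 : ℝ) ≤ (N : ℝ) ^ (2 * d + 1) := by positivity
    nlinarith
  have h9 : (1 / (4 * d) : ℝ) * ((N : ℝ) ^ 2) ^ (d + 1) =
      ((1 / 2) * ((N : ℝ) ^ 2) ^ (d + 1)) / (2 * d) := by
    field_simp
    ring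
  rw [h9, div_le_iff₀ (by positivity)]
  linarith

lemma card_idx {r : ℕ} (d : Fin r → ℕ) : Fintype.card (Idx d) = (∑ i, (d i + 1)) + 1 := by
  rw [Fintype.card_option, Fintype.card_sigma]
  simp only [Fintype.card_fin]

lemma card_all {r : ℕ} (d : Fin r → ℕ) : Nat.card (Idx d → 𝓞 K ⧸ v.asIdeal ^ 2) =
    (Ideal.absNorm v.asIdeal ^ 2) ^ (Fintype.card (Idx d)) := by
  have hfin := finite_sq v
  rw [Nat.card_fun, Pool.Agent.W417.SecC.D2.card_sq, Nat.card_eq_fintype_card]

lemma goodM_card' {r : ℕ} (d : Fin r → ℕ) (hd : ∀ i, 2 ≤ d i) :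
    (∏ i, (1 / (4 * d i) : ℝ)) * (1 / (Ideal.absNorm v.asIdeal : ℝ) -
      1 / (Ideal.absNorm v.asIdeal : ℝ) ^ 2) *
      ((Ideal.absNorm v.asIdeal : ℝ) ^ 2) ^ (Fintype.card (Idx d)) ≤ ((GoodM v d).ncard : ℝ) := by
  classical
  have hfin := finite_sq v
  have hN2 := two_le_norm v
  set N := Ideal.absNorm v.asIdeal with hN
  have hNr : (2 : ℝ) ≤ N := by exact_mod_cast hN2
  set J : Set (𝓞 K ⧸ v.asIdeal ^ 2) := {x | pr v x = 0} with hJ
  have hJc : J.ncard = N := ker_ncard v
  have hJ0 : (J \ {0}).ncard = N - 1 := by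
    rw [Set.ncard_sdiff_singleton_of_mem (show (0 : 𝓞 K ⧸ v.asIdeal ^ 2) ∈ J from map_zero _), hJc]
  have hpi : (Set.pi Set.univ fun i : Fin r => GoodP v (d i)).ncard =
      ∏ i, (GoodP v (d i)).ncard := by
    rw [← Nat.card_coe_set_eq, Nat.card_congr (Equiv.Set.univPi _), Nat.card_pi]
    simp only [Nat.card_coe_set_eq]
  have h1 : ((J \ {0}) ×ˢ (Set.pi Set.univ fun i : Fin r => GoodP v (d i))).ncard ≤
      (GoodM v d).ncard := by
    refine Set.ncard_le_ncard_of_injOn (splitEquiv d _) ?_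
      (splitEquiv d _).injective.injOn (Set.toFinite _)
    rintro ⟨j, c⟩ ⟨hj, hc⟩
    exact ⟨⟨hj.1, hj.2⟩, fun i => hc i (Set.mem_univ i)⟩
  rw [Set.ncard_prod, hJ0, hpi] at h1
  have h2 : ((N : ℝ) - 1) * ∏ i, ((GoodP v (d i)).ncard : ℝ) ≤ ((GoodM v d).ncard : ℝ) := by
    have h5 : ((N - 1 : ℕ) : ℝ) = (N : ℝ) - 1 := by
      rw [Nat.cast_sub (by omega)]
      norm_num
    rw [← h5]
    exact_mod_cast h1
  have h3 : ∏ i, ((1 / (4 * d i) : ℝ) * ((N : ℝ) ^ 2) ^ (d i + 1)) ≤
      ∏ i, ((GoodP v (d i)).ncard : ℝ) := by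
    refine Finset.prod_le_prod (fun i _ => by positivity) fun i _ => ?_
    exact goodP_card_real' v (d i) (hd i)
  rw [Finset.prod_mul_distrib, Finset.prod_pow_eq_pow_sum] at h3
  rw [card_idx, pow_succ ((N : ℝ) ^ 2)]
  have hN0 : (N : ℝ) ≠ 0 := by linarith
  have h4 : (∏ i, (1 / (4 * d i) : ℝ)) * (1 / (N : ℝ) - 1 / (N : ℝ) ^ 2) *
      (((N : ℝ) ^ 2) ^ (∑ i, (d i + 1)) * (N : ℝ) ^ 2) =
      ((N : ℝ) - 1) * ((∏ i, (1 / (4 * d i) : ℝ)) * ((N : ℝ) ^ 2) ^ (∑ i, (d i + 1))) := by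
    field_simp
  rw [h4]
  refine le_trans ?_ h2
  exact mul_le_mul_of_nonneg_left h3 (by linarith)

/-- the reduction of the polynomial number `i` -/
noncomputable def polR {r : ℕ} (d : Fin r → ℕ) (i : Fin r) (x : Idx d → 𝓞 K ⧸ v.asIdeal ^ 2) :
    (𝓞 K ⧸ v.asIdeal)[X] := pol fun t : Fin (d i + 1) => pr v (x (some ⟨i, t⟩))

/-- the vectors for which the polynomials number `i` and `j` are proportional -/
def Prop2 {r : ℕ} (d : Fin r → ℕ) (i j : Fin r) : Set (Idx d → 𝓞 K ⧸ v.asIdeal ^ 2) :=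
  {x | pr v (x none) = 0 ∧ ∃ s : 𝓞 K ⧸ v.asIdeal, polR v d i x = C s * polR v d j x}

lemma prop2_card {r : ℕ} (d : Fin r → ℕ) (hd : ∀ i, 2 ≤ d i) (i j : Fin r) (hij : i ≠ j) :
    ((Prop2 v d i j).ncard : ℝ) * (Ideal.absNorm v.asIdeal : ℝ) ^ 3 ≤
      ((Ideal.absNorm v.asIdeal : ℝ) ^ 2) ^ (Fintype.card (Idx d)) := by
  classical
  have hfin := finite_sq v
  have hmax : v.asIdeal.IsMaximal := v.isMaximal
  have hfin' : Finite (𝓞 K ⧸ v.asIdeal) := Ideal.finiteQuotientOfFreeOfNeBot _ v.ne_bot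
  have := Fintype.ofFinite (𝓞 K ⧸ v.asIdeal)
  set N := Ideal.absNorm v.asIdeal with hN
  have hN2 := two_le_norm v
  have hone : ∀ s : 𝓞 K ⧸ v.asIdeal,
      {x | pr v (x none) = 0 ∧ polR v d i x = C s * polR v d j x}.ncard * N ^ 4 ≤
        Nat.card (Idx d → 𝓞 K ⧸ v.asIdeal ^ 2) := by
    intro s
    let q : (Idx d → 𝓞 K ⧸ v.asIdeal ^ 2) →+ (𝓞 K ⧸ v.asIdeal) × (Fin (d i + 1) → 𝓞 K ⧸ v.asIdeal) :=
      { toFun := fun x => (pr v (x none),
          fun t => pr v (x (some ⟨i, t⟩)) - s * (polR v d j x).coeff t)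
        map_zero' := by
          refine Prod.ext (map_zero (pr v)) ?_
          funext t
          have h1 : polR v d j (0 : Idx d → 𝓞 K ⧸ v.asIdeal ^ 2) = 0 := by
            unfold polR pol
            refine Finset.sum_eq_zero fun t _ => ?_
            change C (pr v 0) * _ = 0
            rw [map_zero, C_0, zero_mul]
          change pr v 0 - s * (polR v d j 0).coeff t = 0
          rw [h1, coeff_zero, map_zero, mul_zero, sub_zero]
        map_add' := by
          intro x y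
          refine Prod.ext (map_add (pr v) _ _) ?_
          funext t
          have h1 : polR v d j (x + y) = polR v d j x + polR v d j y := by
            unfold polR pol
            rw [← Finset.sum_add_distrib]
            refine Finset.sum_congr rfl fun t _ => ?_
            change C (pr v (x (some ⟨j, t⟩) + y (some ⟨j, t⟩))) * _ =
              C (pr v (x (some ⟨j, t⟩))) * _ + C (pr v (y (some ⟨j, t⟩))) * _
            rw [map_add, C_add, add_mul]
          change pr v (x (some ⟨i, t⟩) + y (some ⟨i, t⟩)) - s * (polR v d j (x + y)).coeff t =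
            (pr v (x (some ⟨i, t⟩)) - s * (polR v d j x).coeff t) +
            (pr v (y (some ⟨i, t⟩)) - s * (polR v d j y).coeff t)
          rw [h1, coeff_add, map_add]
          ring }
    have hq : Function.Surjective q := by
      rintro ⟨α, β⟩
      choose f hf using pr_surj v
      refine ⟨fun o => match o with
        | none => f α
        | some ⟨i', t⟩ => if h : i' = i then f (β (Fin.cast (by rw [h]) t)) else 0, ?_⟩
      refine Prod.ext (hf α) ?_
      funext t
      have h1 : polR v d j (fun o => match o with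
        | none => f α
        | some ⟨i', t⟩ => if h : i' = i then f (β (Fin.cast (by rw [h]) t)) else 0) = 0 := by
        unfold polR pol
        refine Finset.sum_eq_zero fun t _ => ?_
        change C (pr v (if h : j = i then f (β (Fin.cast (by rw [h]) t)) else 0)) * _ = 0
        rw [dif_neg (Ne.symm hij), map_zero, C_0, zero_mul]
      change pr v (if h : i = i then f (β (Fin.cast (by rw [h]) t)) else 0) -
        s * (polR v d j _).coeff t = β t
      rw [h1, coeff_zero, mul_zero, sub_zero, dif_pos rfl, hf]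
      rfl
    have h1 := ncard_fiber q hq {x | pr v (x none) = 0 ∧ polR v d i x = C s * polR v d j x} {0} (by
      rintro x ⟨hx1, hx2⟩
      rw [Set.mem_singleton_iff]
      refine Prod.ext hx1 ?_
      funext t
      change pr v (x (some ⟨i, t⟩)) - s * (polR v d j x).coeff t = 0
      have h2 := congrArg (fun p => p.coeff (t : ℕ)) hx2
      simp only [coeff_C_mul] at h2
      rw [← h2]
      unfold polR
      rw [pol_coeff (fun t : Fin (d i + 1) => pr v (x (some ⟨i, t⟩))) t, sub_self])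
    rw [Set.ncard_singleton, one_mul, Nat.card_prod, Nat.card_fun, Nat.card_fin, card_residue,
      ← hN] at h1
    refine le_trans ?_ h1
    refine Nat.mul_le_mul_left _ ?_
    rw [← pow_succ']
    refine Nat.pow_le_pow_right (by omega) ?_
    have := hd i
    omega
  have h2 : (Prop2 v d i j).ncard ≤ ∑ s : 𝓞 K ⧸ v.asIdeal,
      {x | pr v (x none) = 0 ∧ polR v d i x = C s * polR v d j x}.ncard := by
    have h3 : Prop2 v d i j = ⋃ s ∈ (Finset.univ : Finset (𝓞 K ⧸ v.asIdeal)),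
        {x | pr v (x none) = 0 ∧ polR v d i x = C s * polR v d j x} := by
      ext x
      simp only [Set.mem_iUnion, Finset.mem_univ, exists_prop, true_and, Prop2, Set.mem_ofPred_eq,
        exists_and_left]
    rw [h3]
    exact Finset.set_ncard_biUnion_le _ _
  have h3 : (Prop2 v d i j).ncard * N ^ 4 ≤ N * Nat.card (Idx d → 𝓞 K ⧸ v.asIdeal ^ 2) := by
    calc (Prop2 v d i j).ncard * N ^ 4 ≤ (∑ s : 𝓞 K ⧸ v.asIdeal,
        {x | pr v (x none) = 0 ∧ polR v d i x = C s * polR v d j x}.ncard) * N ^ 4 :=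
          Nat.mul_le_mul_right _ h2
      _ = ∑ s : 𝓞 K ⧸ v.asIdeal,
        {x | pr v (x none) = 0 ∧ polR v d i x = C s * polR v d j x}.ncard * N ^ 4 :=
          Finset.sum_mul _ _ _
      _ ≤ ∑ s : 𝓞 K ⧸ v.asIdeal, Nat.card (Idx d → 𝓞 K ⧸ v.asIdeal ^ 2) :=
          Finset.sum_le_sum fun s _ => hone s
      _ = N * Nat.card (Idx d → 𝓞 K ⧸ v.asIdeal ^ 2) := by
          rw [Finset.sum_const, Finset.card_univ, ← Nat.card_eq_fintype_card, card_residue, smul_eq_mul]
  rw [card_all, ← hN] at h3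
  have h4 : ((Prop2 v d i j).ncard : ℝ) * (N : ℝ) ^ 4 ≤
      (N : ℝ) * ((N : ℝ) ^ 2) ^ (Fintype.card (Idx d)) := by exact_mod_cast h3
  have h5 : (0 : ℝ) < N := by
    have : 0 < N := by omega
    exact_mod_cast this
  have h6 : (((Prop2 v d i j).ncard : ℝ) * (N : ℝ) ^ 3) * N ≤
      (((N : ℝ) ^ 2) ^ (Fintype.card (Idx d))) * N := by
    calc _ = ((Prop2 v d i j).ncard : ℝ) * (N : ℝ) ^ 4 := by ring
      _ ≤ _ := h4
      _ = _ := by ring
  exact le_of_mul_le_mul_right h6 h5

/-- the good vectors: no two of the polynomials are proportional -/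
def GoodG {r : ℕ} (d : Fin r → ℕ) : Set (Idx d → 𝓞 K ⧸ v.asIdeal ^ 2) :=
  {x | x ∈ GoodM v d ∧ ∀ i j, i ≠ j → x ∉ Prop2 v d i j}

/-- the proportion of the bad vectors -/
lemma badG_card {r : ℕ} (d : Fin r → ℕ) (hd : ∀ i, 2 ≤ d i)
    (hbig : 4 * (r : ℝ) ^ 2 / (∏ i, (1 / (4 * d i) : ℝ)) ≤ Ideal.absNorm v.asIdeal) :
    (((GoodG v d)ᶜ).ncard : ℝ) ≤ (1 - ((∏ i, (1 / (4 * d i) : ℝ)) / 4) *
      (1 / (Ideal.absNorm v.asIdeal : ℝ) - 1 / (Ideal.absNorm v.asIdeal : ℝ) ^ 2)) *
      ((Ideal.absNorm v.asIdeal : ℝ) ^ 2) ^ (Fintype.card (Idx d)) := by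
  classical
  have hfin := finite_sq v
  have hN2 := two_le_norm v
  set c : ℝ := ∏ i, (1 / (4 * d i) : ℝ) with hc
  have hc0 : 0 < c := by
    refine Finset.prod_pos fun i _ => ?_
    have h1 : (2 : ℝ) ≤ d i := by exact_mod_cast hd i
    positivity
  set N := Ideal.absNorm v.asIdeal with hN
  have hNr : (2 : ℝ) ≤ N := by exact_mod_cast hN2
  set A : ℝ := ((N : ℝ) ^ 2) ^ (Fintype.card (Idx d)) with hA
  have hA0 : 0 < A := by positivity
  have h1 : (GoodG v d)ᶜ ⊆ (GoodM v d)ᶜ ∪ ⋃ p ∈ (Finset.univ : Finset (Fin r × Fin r)),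
      (if p.1 ≠ p.2 then Prop2 v d p.1 p.2 else ∅) := by
    intro x hx
    by_cases hx1 : x ∈ GoodM v d
    · right
      by_contra hcon
      apply hx
      refine ⟨hx1, fun i j hij hx2 => hcon ?_⟩
      rw [Set.mem_iUnion₂]
      exact ⟨(i, j), Finset.mem_univ _, by rw [if_pos hij]; exact hx2⟩
    · left
      exact hx1
  have h2 : (((GoodG v d)ᶜ).ncard : ℝ) ≤ ((GoodM v d)ᶜ).ncard +
      ∑ p : Fin r × Fin r, ((if p.1 ≠ p.2 then Prop2 v d p.1 p.2 else ∅ :
        Set (Idx d → 𝓞 K ⧸ v.asIdeal ^ 2)).ncard : ℝ) := by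
    have h3 := (Set.ncard_le_ncard h1 (Set.toFinite _)).trans (Set.ncard_union_le _ _)
    have h4 := Finset.set_ncard_biUnion_le (Finset.univ : Finset (Fin r × Fin r))
      (fun p => (if p.1 ≠ p.2 then Prop2 v d p.1 p.2 else ∅ : Set (Idx d → 𝓞 K ⧸ v.asIdeal ^ 2)))
    have h5 := h3.trans (Nat.add_le_add_left h4 _)
    exact_mod_cast h5
  have h3 : ∑ p : Fin r × Fin r, ((if p.1 ≠ p.2 then Prop2 v d p.1 p.2 else ∅ :
        Set (Idx d → 𝓞 K ⧸ v.asIdeal ^ 2)).ncard : ℝ) ≤ (r : ℝ) ^ 2 * (A / (N : ℝ) ^ 3) := by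
    have h4 : ∀ p : Fin r × Fin r, ((if p.1 ≠ p.2 then Prop2 v d p.1 p.2 else ∅ :
        Set (Idx d → 𝓞 K ⧸ v.asIdeal ^ 2)).ncard : ℝ) ≤ A / (N : ℝ) ^ 3 := by
      intro p
      by_cases hp : p.1 ≠ p.2
      · rw [if_pos hp, le_div_iff₀ (by positivity)]
        exact prop2_card v d hd p.1 p.2 hp
      · rw [if_neg hp, Set.ncard_empty, Nat.cast_zero]
        positivity
    refine (Finset.sum_le_sum fun p _ => h4 p).trans ?_
    rw [Finset.sum_const, Finset.card_univ, Fintype.card_prod, Fintype.card_fin, nsmul_eq_mul]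
    push_cast
    rw [sq]
  have h4 := goodM_card' v d hd
  rw [← hN, ← hA, ← hc] at h4
  have h5 : ((GoodM v d).ncard : ℝ) + (((GoodM v d)ᶜ).ncard : ℝ) = A := by
    have h6 : (GoodM v d).ncard + ((GoodM v d)ᶜ).ncard = (N ^ 2) ^ (Fintype.card (Idx d)) := by
      rw [Set.ncard_add_ncard_compl, card_all]
    rw [hA]
    exact_mod_cast h6
  -- the arithmetic
  have h6 : 4 * (r : ℝ) ^ 2 ≤ c * (N : ℝ) := by
    rw [div_le_iff₀ hc0] at hbig
    linarith
  have h7 : (r : ℝ) ^ 2 * (A / (N : ℝ) ^ 3) ≤ (c / 4) * (A / (N : ℝ) ^ 2) := by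
    have h8 : (c / 4) * (A / (N : ℝ) ^ 2) = ((c * N) / 4) * (A / (N : ℝ) ^ 3) := by
      field_simp
    rw [h8]
    have h9 : 0 ≤ A / (N : ℝ) ^ 3 := by positivity
    refine mul_le_mul_of_nonneg_right ?_ h9
    linarith
  have h8 : A / (N : ℝ) ^ 2 ≤ A * (1 / (N : ℝ) - 1 / (N : ℝ) ^ 2) := by
    have h9 : A * (1 / (N : ℝ) - 1 / (N : ℝ) ^ 2) - A / (N : ℝ) ^ 2 =
        A * ((N : ℝ) - 2) / (N : ℝ) ^ 2 := by
      field_simp
      ring
    have h10 : 0 ≤ A * ((N : ℝ) - 2) / (N : ℝ) ^ 2 := by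
      apply div_nonneg _ (by positivity)
      exact mul_nonneg hA0.le (by linarith)
    linarith
  have h9 : (c / 4) * (A / (N : ℝ) ^ 2) ≤ (c / 4) * (A * (1 / (N : ℝ) - 1 / (N : ℝ) ^ 2)) :=
    mul_le_mul_of_nonneg_left h8 (by positivity)
  have h10 : 0 ≤ c * (A * (1 / (N : ℝ) - 1 / (N : ℝ) ^ 2)) := by
    refine mul_nonneg hc0.le (le_trans ?_ h8)
    positivity
  have h11 : c * (1 / (N : ℝ) - 1 / (N : ℝ) ^ 2) * A = c * (A * (1 / (N : ℝ) - 1 / (N : ℝ) ^ 2)) := by
    ring
  have h12 : (1 - c / 4 * (1 / (N : ℝ) - 1 / (N : ℝ) ^ 2)) * A =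
      A - (1 / 4) * (c * (A * (1 / (N : ℝ) - 1 / (N : ℝ) ^ 2))) := by
    ring
  rw [h12]
  rw [h11] at h4
  linarith

end

end Pool.Agent.Q161.Gg
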