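import Pool.Agent.Q161.GgA
import Pool.Agent.Q161.GgB
import Pool.Agent.Q52.SecX.Fam
import Pool.Agent.Q52.SecX.Irr

/-! # Almost all products of polynomials of prescribed degrees -/

set_option autoImplicit false

namespace Pool.Agent.Q161.Gg

open Polynomial NumberField IsDedekindDomain
open Pool.Agent.Y157.PS (FineP)
open Pool.Agent.TH120.Sec (pr pr_mk red finite_sq)
open Pool.Agent.TH377.Sup (pol pol_map pol_natDegree pol_leadingCoeff)
open Pool.Agent.Q52.SecX (many_vec irr_of_red)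
open Pool.Agent.Q52.SecY (Idx GoodP GoodM SmallI two_le_norm)

/-- the primes `v` such that for all `w` above `v` the ramification index is divisible by `ℓ` or the
residue degree is divisible by some `d i` -/
def RamD {r : ℕ} (ℓ : ℕ) (d : Fin r → ℕ) (K L : Type) [Field K] [NumberField K] [Field L]
    [NumberField L] [Algebra K L] : Set (HeightOneSpectrum (𝓞 K)) :=
  {v | ∀ w : HeightOneSpectrum (𝓞 L), w.asIdeal.LiesOver v.asIdeal →
    ℓ ∣ v.asIdeal.ramificationIdx' w.asIdeal ∨ ∃ i, d i ∣ v.asIdeal.inertiaDeg' w.asIdeal}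

lemma finrank_mem {r : ℕ} {K L : Type} [Field K] [NumberField K] [Field L] [NumberField L]
    [Algebra K L] (ℓ : ℕ) (d : Fin r → ℕ) (v : HeightOneSpectrum (𝓞 K)) (hv : v ∈ RamD ℓ d K L) :
    Module.finrank K L ∈ AddSubmonoid.closure (insert ℓ (Set.range d)) := by
  have hvm : v.asIdeal.IsMaximal := v.isMaximal
  rw [← Ideal.sum_ramification_inertia (𝓞 L) K L v.ne_bot (p := v.asIdeal)]
  refine sum_mem fun P hP => ?_
  rw [IsDedekindDomain.mem_primesOverFinset_iff v.ne_bot] at hP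
  have hPp : P.IsPrime := hP.1
  have hPo : P.LiesOver v.asIdeal := hP.2
  have hP0 : P ≠ ⊥ := Ideal.ne_bot_of_liesOver_of_ne_bot v.ne_bot P
  have key : ∀ s ∈ insert ℓ (Set.range d), ∀ k : ℕ,
      s * k ∈ AddSubmonoid.closure (insert ℓ (Set.range d)) := by
    intro s hs k
    rw [mul_comm, ← smul_eq_mul]
    exact nsmul_mem (AddSubmonoid.subset_closure hs) k
  rcases hv ⟨P, hPp, hP0⟩ hPo with h | ⟨i, h⟩
  · obtain ⟨k, hk⟩ := h
    have h2 := key ℓ (Set.mem_insert _ _) (k * v.asIdeal.inertiaDeg' P)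
    rw [← mul_assoc, ← hk] at h2
    exact h2
  · obtain ⟨k, hk⟩ := h
    have h2 := key (d i) (Set.mem_insert_of_mem _ ⟨i, rfl⟩) (k * v.asIdeal.ramificationIdx' P)
    rw [← mul_assoc, ← hk, mul_comm] at h2
    exact h2

variable {K : Type} [Field K] [NumberField K]

/-- almost all vectors are good at many primes -/
theorem many_good' {r : ℕ} (d : Fin r → ℕ) (hd : ∀ i, 2 ≤ d i) (c₀ : 𝓞 K) (hc₀ : c₀ ≠ 0) (M : ℕ)
    (ε : ℝ) (hε : 0 < ε) :
    SmallI {y : Idx d → 𝓞 K | ¬ ∃ T : Finset (HeightOneSpectrum (𝓞 K)), T.card = M ∧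
      ∀ v ∈ T, c₀ ∉ v.asIdeal ∧
        (fun o => Ideal.Quotient.mk (v.asIdeal ^ 2) (y o)) ∈ GoodG v d} ε := by
  classical
  set D := Fintype.card (Idx d) with hD
  let e : Idx d ≃ Fin D := Fintype.equivFin _
  set c₁ : ℝ := ∏ i, (1 / (4 * d i) : ℝ) with hc₁
  have hdr : ∀ i, (2 : ℝ) ≤ d i := fun i => by exact_mod_cast hd i
  have hc₁0 : 0 < c₁ := by
    refine Finset.prod_pos fun i _ => ?_
    have := hdr i
    positivity
  have hc₁1 : c₁ ≤ 1 := by
    refine Finset.prod_le_one (fun i _ => ?_) fun i _ => ?_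
    · have := hdr i
      positivity
    · have := hdr i
      rw [div_le_one (by positivity)]
      linarith
  obtain ⟨q₀, hq₀⟩ := exists_nat_ge (4 * (r : ℝ) ^ 2 / c₁)
  have key := many_vec D (fun v : HeightOneSpectrum (𝓞 K) => c₀ ∉ v.asIdeal ∧
      4 * (r : ℝ) ^ 2 / c₁ ≤ Ideal.absNorm v.asIdeal)
    (fun v => {x : Fin D → 𝓞 K ⧸ v.asIdeal ^ 2 | (fun o => x (e o)) ∉ GoodG v d}) (c₁ / 4) (by
      intro c hc ε' hε'
      have hq : ((Nat.factorial q₀ : ℕ) : 𝓞 K) ≠ 0 := Nat.cast_ne_zero.2 (Nat.factorial_ne_zero _)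
      obtain ⟨T, hT, hTδ⟩ := Pool.Agent.TH120.Sec.supply_split 2 Nat.prime_two
        (c * (c₀ * ((Nat.factorial q₀ : ℕ) : 𝓞 K))) (mul_ne_zero hc (mul_ne_zero hc₀ hq)) (c₁ / 4)
        (by positivity) (by linarith) ε' hε'
      refine ⟨T, fun v hv => ⟨fun h => (hT v hv).1 (Ideal.mul_mem_right _ _ h),
        fun h => (hT v hv).1 (Ideal.mul_mem_left _ _ (Ideal.mul_mem_right _ _ h)), ?_⟩, hTδ⟩
      refine hq₀.trans ?_
      by_contra hlt
      rw [not_le, Nat.cast_lt] at hlt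
      apply (hT v hv).1
      refine Ideal.mul_mem_left _ _ (Ideal.mul_mem_left _ _ ?_)
      have h2 := two_le_norm v
      have h3 : Ideal.absNorm v.asIdeal ∣ Nat.factorial q₀ :=
        Nat.dvd_factorial (by omega) hlt.le
      obtain ⟨k, hk⟩ := h3
      rw [hk, Nat.cast_mul]
      exact Ideal.mul_mem_right _ _ (Ideal.absNorm_mem v.asIdeal)) (by
      rintro v ⟨-, hv⟩
      have hfin := finite_sq v
      refine le_trans ?_ (badG_card v d hd hv)
      have h1 : {x : Fin D → 𝓞 K ⧸ v.asIdeal ^ 2 | (fun o => x (e o)) ∉ GoodG v d}.ncard ≤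
          ((GoodG v d)ᶜ).ncard := by
        refine Set.ncard_le_ncard_of_injOn (fun x o => x (e o)) (fun x hx => hx) ?_ (Set.toFinite _)
        intro x _ y _ hxy
        funext i
        have := congrFun hxy (e.symm i)
        simpa using this
      exact_mod_cast h1) M ∅ ε hε
  obtain ⟨I, hI, hfin, hcard⟩ := key
  refine ⟨I, hI, hfin, le_trans ?_ hcard⟩
  have h2 : ((fun (y : Idx d → 𝓞 K) i => Ideal.Quotient.mk I (y i)) ''
      {y : Idx d → 𝓞 K | ¬ ∃ T : Finset (HeightOneSpectrum (𝓞 K)), T.card = M ∧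
      ∀ v ∈ T, c₀ ∉ v.asIdeal ∧
        (fun o => Ideal.Quotient.mk (v.asIdeal ^ 2) (y o)) ∈ GoodG v d}).ncard ≤
      (red I D '' {a : Fin D → 𝓞 K | ¬ ∃ T : Finset (HeightOneSpectrum (𝓞 K)), T.card = M ∧
        Disjoint T ∅ ∧ ∀ v ∈ T, (c₀ ∉ v.asIdeal ∧
          4 * (r : ℝ) ^ 2 / c₁ ≤ Ideal.absNorm v.asIdeal) ∧ red (v.asIdeal ^ 2) D a ∉
          {x : Fin D → 𝓞 K ⧸ v.asIdeal ^ 2 | (fun o => x (e o)) ∉ GoodG v d}}).ncard := by
    refine Set.ncard_le_ncard_of_injOn (fun x i => x (e.symm i)) ?_ ?_ (Set.toFinite _)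
    · rintro _ ⟨y, hy, rfl⟩
      refine ⟨fun i => y (e.symm i), ?_, rfl⟩
      rintro ⟨T, hT, -, hTg⟩
      apply hy
      refine ⟨T, hT, fun v hv => ⟨(hTg v hv).1.1, ?_⟩⟩
      have h3 := (hTg v hv).2
      rw [Set.mem_ofPred_eq, not_not] at h3
      have h4 : (fun o => red (v.asIdeal ^ 2) D (fun i => y (e.symm i)) (e o)) =
          fun o => Ideal.Quotient.mk (v.asIdeal ^ 2) (y o) := by
        funext o
        change Ideal.Quotient.mk (v.asIdeal ^ 2) (y (e.symm (e o))) = _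
        rw [e.symm_apply_apply]
      rwa [h4] at h3
    · intro x _ y _ hxy
      funext o
      have := congrFun hxy (e o)
      simpa using this
  exact_mod_cast h2

/-- the polynomial number `i` with coefficients in the integers -/
noncomputable def pI {r : ℕ} (d : Fin r → ℕ) (y : Idx d → 𝓞 K) (i : Fin r) : (𝓞 K)[X] :=
  pol fun t : Fin (d i + 1) => y (some ⟨i, t⟩)

/-- the properties of a vector which is good at `v` -/
lemma good_props {r : ℕ} (d : Fin r → ℕ) (v : HeightOneSpectrum (𝓞 K)) (y : Idx d → 𝓞 K)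
    (h : (fun o => Ideal.Quotient.mk (v.asIdeal ^ 2) (y o)) ∈ GoodG v d) :
    (y none ∈ v.asIdeal ∧ y none ∉ v.asIdeal ^ 2) ∧ ∀ i, y (some ⟨i, Fin.last (d i)⟩) ∉ v.asIdeal ∧
      Irreducible ((pI d y i).map (Ideal.Quotient.mk v.asIdeal)) ∧
      ∀ j, i ≠ j → ∀ s, (pI d y i).map (Ideal.Quotient.mk v.asIdeal) ≠
        C s * (pI d y j).map (Ideal.Quotient.mk v.asIdeal) := by
  obtain ⟨⟨⟨h1, h2⟩, h3⟩, h4⟩ := h
  rw [pr_mk] at h1
  have hp : ∀ i, polR v d i (fun o => Ideal.Quotient.mk (v.asIdeal ^ 2) (y o)) =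
      (pI d y i).map (Ideal.Quotient.mk v.asIdeal) := by
    intro i
    unfold polR pI
    rw [pol_map]
    congr 1
  refine ⟨⟨Ideal.Quotient.eq_zero_iff_mem.1 h1, fun h5 => h2 (Ideal.Quotient.eq_zero_iff_mem.2 h5)⟩,
    fun i => ⟨?_, ?_, ?_⟩⟩
  · obtain ⟨h5, -⟩ := h3 i
    intro h6
    apply h5
    change pr v (Ideal.Quotient.mk (v.asIdeal ^ 2) (y (some ⟨i, Fin.last (d i)⟩))) = 0
    rw [pr_mk]
    exact Ideal.Quotient.eq_zero_iff_mem.2 h6
  · obtain ⟨-, h5⟩ := h3 i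
    rw [← hp]
    exact h5
  · intro j hij s hs
    apply h4 i j hij
    refine ⟨?_, s, ?_⟩
    · rw [pr_mk]
      exact h1
    · rw [hp, hp]
      exact hs

end Pool.Agent.Q161.Gg
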