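import Pool.Agent.Q161.GgC

/-! # The theorem for almost all products of polynomials of prescribed degrees -/

set_option autoImplicit false

namespace Pool.Agent.Q161.Gg

open Polynomial NumberField IsDedekindDomain
open Pool.Agent.Y157.PS (FineP)
open Pool.Agent.TH120.Sec (pr pr_mk red finite_sq)
open Pool.Agent.TH377.Sup (pol pol_map pol_natDegree pol_leadingCoeff)
open Pool.Agent.Q52.SecX (many_vec irr_of_red)
open Pool.Agent.Q52.SecY (Idx GoodP GoodM SmallI two_le_norm)

/-- irreducible polynomials which are not proportional are coprime -/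
lemma coprime_of {κ : Type} [Field κ] (p q : κ[X]) (hp : Irreducible p) (hq : Irreducible q)
    (h : ∀ s, p ≠ C s * q) : IsCoprime p q := by
  refine (hp.coprime_iff_not_dvd).2 fun h1 => ?_
  obtain ⟨u, hu⟩ := (hp.associated_of_dvd hq h1).symm
  obtain ⟨s, -, hs⟩ := Polynomial.isUnit_iff.1 u.isUnit
  apply h s
  rw [← hu, ← hs, mul_comm]

section

variable {K L : Type} [Field K] [NumberField K] [Field L] [NumberField L] [Algebra K L]

/-- the local theorem for products -/
theorem fine_prod {r : ℕ} (d : Fin r → ℕ) (h3 : 3 ≤ ∑ i, d i)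
    (v : HeightOneSpectrum (𝓞 K)) (w : HeightOneSpectrum (𝓞 L)) [w.asIdeal.LiesOver v.asIdeal]
    (hv : ((∑ i, d i : ℕ) : 𝓞 K) ∉ v.asIdeal) (y : Idx d → 𝓞 K)
    (hy : (fun o => Ideal.Quotient.mk (v.asIdeal ^ 2) (y o)) ∈ GoodG v d) (ℓ : ℕ) (hℓ : ℓ.Prime)
    (hℓd : ℓ ∣ ∑ i, d i) (hram : ¬ ℓ ∣ v.asIdeal.ramificationIdx' w.asIdeal)
    (hin : ∀ i, ¬ d i ∣ v.asIdeal.inertiaDeg' w.asIdeal) :
    FineP ℓ (algebraMap K L (algebraMap (𝓞 K) K (y none)))
      ((∏ i, (pI d y i).map (algebraMap (𝓞 K) K)).map (algebraMap K L)) := by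
  classical
  have hvp : v.asIdeal.IsPrime := v.isPrime
  have hvm : v.asIdeal.IsMaximal := v.isMaximal
  have hwp : w.asIdeal.IsPrime := w.isPrime
  have hwm : w.asIdeal.IsMaximal := w.isMaximal
  let _ : Field (𝓞 K ⧸ v.asIdeal) := Ideal.Quotient.field _
  let _ : Field (𝓞 L ⧸ w.asIdeal) := Ideal.Quotient.field _
  have hfinv : Finite (𝓞 K ⧸ v.asIdeal) := Ideal.finiteQuotientOfFreeOfNeBot _ v.ne_bot
  have hfinw : Finite (𝓞 L ⧸ w.asIdeal) := Ideal.finiteQuotientOfFreeOfNeBot _ w.ne_bot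
  have hmf : Module.Finite (𝓞 K ⧸ v.asIdeal) (𝓞 L ⧸ w.asIdeal) := Module.Finite.of_finite
  obtain ⟨⟨ha, ha'⟩, hg⟩ := good_props d v y hy
  have hlast0 : ∀ i, y (some ⟨i, Fin.last (d i)⟩) ≠ 0 := by
    intro i h
    apply (hg i).1
    rw [h]
    exact zero_mem _
  have hdeg : ∀ i, (pI d y i).natDegree = d i := fun i => pol_natDegree _ (hlast0 i)
  have hlc : ∀ i, (pI d y i).leadingCoeff = y (some ⟨i, Fin.last (d i)⟩) :=
    fun i => pol_leadingCoeff _ (hlast0 i)
  have hne : ∀ i, pI d y i ≠ 0 := by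
    intro i h
    have h1 := hlc i
    rw [h, leadingCoeff_zero] at h1
    exact hlast0 i h1.symm
  have hdegr : ∀ i, ((pI d y i).map (Ideal.Quotient.mk v.asIdeal)).natDegree = d i := by
    intro i
    rw [natDegree_map_of_leadingCoeff_ne_zero, hdeg]
    rw [hlc]
    exact fun h => (hg i).1 (Ideal.Quotient.eq_zero_iff_mem.1 h)
  have hdegP : (∏ i, pI d y i).natDegree = ∑ i, d i := by
    rw [natDegree_prod _ _ fun i _ => hne i]
    exact Finset.sum_congr rfl fun i _ => hdeg i
  have key := fine_gen (K := K) (L := L) (∏ i, pI d y i) (by rw [hdegP]; exact h3) v w (by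
      rw [leadingCoeff_prod]
      intro h
      obtain ⟨i, -, hi⟩ := (Ideal.IsPrime.prod_mem_iff (hp := hvp)).1 h
      rw [hlc] at hi
      exact (hg i).1 hi) (by
      rw [Polynomial.map_prod]
      refine separable_prod ?_ ?_
      · intro i j hij
        exact coprime_of _ _ (hg i).2.1 (hg j).2.1 ((hg i).2.2 j hij)
      · intro i
        exact PerfectField.separable_of_irreducible (hg i).2.1) (by
      intro x hx
      rw [Polynomial.map_prod, eval₂_finsetProd, Finset.prod_eq_zero_iff] at hx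
      obtain ⟨i, -, hi⟩ := hx
      apply hin i
      have h1 := deg_of_root _ (hg i).2.1 x hi
      rw [hdegr] at h1
      rw [Ideal.inertiaDeg'_algebraMap]
      exact h1) (y none) ha ha' ℓ hℓ (by
      intro h
      apply hv
      obtain ⟨n, hn⟩ := hℓd
      rw [hn]
      push_cast
      exact Ideal.mul_mem_right _ _ h) (by rw [hdegP]; exact hℓd) hram
  rw [Polynomial.map_prod] at key
  exact key

end

/-- the main theorem -/
theorem main_prod {K : Type} [Field K] [NumberField K] {r : ℕ} (d : Fin r → ℕ) (hd : ∀ i, 2 ≤ d i)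
    (h3 : 3 ≤ ∑ i, d i) (M : ℕ) (ε : ℝ) (hε : 0 < ε) :
    SmallI {y : Idx d → 𝓞 K | ¬ (y none ≠ 0 ∧
      (∀ i, (pol fun t : Fin (d i + 1) => algebraMap (𝓞 K) K (y (some ⟨i, t⟩))).natDegree = d i ∧
        Irreducible (pol fun t : Fin (d i + 1) => algebraMap (𝓞 K) K (y (some ⟨i, t⟩)))) ∧
      (∏ i, pol fun t : Fin (d i + 1) => algebraMap (𝓞 K) K (y (some ⟨i, t⟩))).Separable ∧
      ∀ (L : Type) [Field L] [NumberField L] [Algebra K L], ∀ ℓ : ℕ, ℓ.Prime → ℓ ∣ ∑ i, d i →
        ((RamD ℓ d K L).encard < M ∨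
          Module.finrank K L ∉ AddSubmonoid.closure (insert ℓ (Set.range d))) →
        FineP ℓ (algebraMap K L (algebraMap (𝓞 K) K (y none)))
          ((∏ i, pol fun t : Fin (d i + 1) => algebraMap (𝓞 K) K (y (some ⟨i, t⟩))).map
            (algebraMap K L)))} ε := by
  classical
  have hdK : ((∑ i, d i : ℕ) : 𝓞 K) ≠ 0 := by
    rw [Nat.cast_ne_zero]
    omega
  obtain ⟨I, hI, hfin, hcard⟩ := many_good' (K := K) d hd _ hdK (M + 1) ε hε
  refine ⟨I, hI, hfin, le_trans ?_ hcard⟩
  have hfin' : Finite (𝓞 K ⧸ I) := hfin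
  refine Nat.cast_le.2 (Set.ncard_le_ncard (Set.image_mono ?_) (Set.toFinite _))
  intro y hy
  rintro ⟨T, hTc, hT⟩
  apply hy
  have hpK : ∀ i, (pol fun t : Fin (d i + 1) => algebraMap (𝓞 K) K (y (some ⟨i, t⟩))) =
      (pI d y i).map (algebraMap (𝓞 K) K) := by
    intro i
    unfold pI
    rw [pol_map]
  simp only [hpK]
  obtain ⟨v₀, hv₀⟩ : T.Nonempty := by
    rw [← Finset.card_pos, hTc]
    omega
  have hinj : Function.Injective (algebraMap (𝓞 K) K) := IsFractionRing.injective (𝓞 K) K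
  obtain ⟨⟨ha, ha'⟩, hg⟩ := good_props d v₀ y (hT v₀ hv₀).2
  have hlast0 : ∀ i, y (some ⟨i, Fin.last (d i)⟩) ≠ 0 := by
    intro i h
    apply (hg i).1
    rw [h]
    exact zero_mem _
  have hdeg : ∀ i, (pI d y i).natDegree = d i := fun i => pol_natDegree _ (hlast0 i)
  have hlc : ∀ i, (pI d y i).leadingCoeff = y (some ⟨i, Fin.last (d i)⟩) :=
    fun i => pol_leadingCoeff _ (hlast0 i)
  have hirr : ∀ i, Irreducible ((pI d y i).map (algebraMap (𝓞 K) K)) := fun i =>
    irr_of_red v₀ (pI d y i) (by rw [hlc]; exact (hg i).1) (hg i).2.1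
  refine ⟨?_, ?_, ?_, ?_⟩
  · intro h
    apply ha'
    rw [h]
    exact zero_mem _
  · intro i
    refine ⟨?_, hirr i⟩
    rw [natDegree_map_eq_of_injective hinj, hdeg]
  · refine separable_prod ?_ ?_
    · intro i j hij
      refine coprime_of _ _ (hirr i) (hirr j) ?_
      intro s hs
      beta_reduce at hs
      have hlcK : algebraMap (𝓞 K) K (y (some ⟨i, Fin.last (d i)⟩)) =
          s * algebraMap (𝓞 K) K (y (some ⟨j, Fin.last (d j)⟩)) := by
        have h1 := congrArg leadingCoeff hs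
        rw [leadingCoeff_mul, leadingCoeff_C, leadingCoeff_map_of_injective hinj,
          leadingCoeff_map_of_injective hinj, hlc, hlc] at h1
        exact h1
      have h2 : C (y (some ⟨j, Fin.last (d j)⟩)) * pI d y i =
          C (y (some ⟨i, Fin.last (d i)⟩)) * pI d y j := by
        apply Polynomial.map_injective _ hinj
        rw [Polynomial.map_mul, Polynomial.map_mul, Polynomial.map_C, Polynomial.map_C, hs, hlcK,
          C_mul]
        ring
      have h3 := congrArg (Polynomial.map (Ideal.Quotient.mk v₀.asIdeal)) h2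
      rw [Polynomial.map_mul, Polynomial.map_mul, Polynomial.map_C, Polynomial.map_C] at h3
      have hvm : v₀.asIdeal.IsMaximal := v₀.isMaximal
      let _ : Field (𝓞 K ⧸ v₀.asIdeal) := Ideal.Quotient.field _
      have hb : Ideal.Quotient.mk v₀.asIdeal (y (some ⟨j, Fin.last (d j)⟩)) ≠ 0 :=
        fun h => (hg j).1 (Ideal.Quotient.eq_zero_iff_mem.1 h)
      apply (hg i).2.2 j hij ((Ideal.Quotient.mk v₀.asIdeal (y (some ⟨j, Fin.last (d j)⟩)))⁻¹ *
        Ideal.Quotient.mk v₀.asIdeal (y (some ⟨i, Fin.last (d i)⟩)))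
      rw [C_mul, mul_assoc, ← h3, ← mul_assoc, ← C_mul, inv_mul_cancel₀ hb, C_1, one_mul]
    · intro i
      exact (hirr i).separable
  · intro L _ _ _ ℓ hℓ hℓd hor
    by_contra hcon
    have hTsub : (T : Set (HeightOneSpectrum (𝓞 K))) ⊆ RamD ℓ d K L := by
      intro v hv w hw
      by_contra hram
      rw [not_or, not_exists] at hram
      exact hcon (fine_prod d h3 v w (hT v hv).1 y (hT v hv).2 ℓ hℓ hℓd hram.1 hram.2)
    rcases hor with h | h
    · have h1 : (T : Set (HeightOneSpectrum (𝓞 K))).encard ≤ (RamD ℓ d K L).encard :=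
        Set.encard_le_encard hTsub
      rw [Set.encard_coe_eq_coe_finsetCard, hTc] at h1
      have h2 := h1.trans_lt h
      have h4 : M + 1 < M := by exact_mod_cast h2
      omega
    · exact h (finrank_mem ℓ d v₀ (hTsub hv₀))

end Pool.Agent.Q161.Gg
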