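import Mathlib

/-!
Hertzsprung patterns: comparison of the numbers of avoiders by an injection that replaces the
block of the first occurrence.
-/

set_option autoImplicit false

namespace Pool.Agent.Q161.Hertz

/-- value of a permutation of `Fin n`, extended by the identity -/
def ex {n : ℕ} (π : Equiv.Perm (Fin n)) (j : ℕ) : ℕ := if h : j < n then (π ⟨j, h⟩ : ℕ) else j

lemma ex_lt {n : ℕ} (π : Equiv.Perm (Fin n)) {j : ℕ} (h : j < n) : ex π j < n := by
  unfold ex; rw [dif_pos h]; exact (π ⟨j, h⟩).2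

lemma ex_inj {n : ℕ} (π : Equiv.Perm (Fin n)) {a b : ℕ} (ha : a < n) (hb : b < n)
    (h : ex π a = ex π b) : a = b := by
  unfold ex at h
  rw [dif_pos ha, dif_pos hb] at h
  have := π.injective (Fin.ext h)
  exact congrArg Fin.val this

lemma ex_surj {n : ℕ} (π : Equiv.Perm (Fin n)) {x : ℕ} (hx : x < n) :
    ∃ j, j < n ∧ ex π j = x := by
  refine ⟨(π.symm ⟨x, hx⟩ : ℕ), (π.symm ⟨x, hx⟩).2, ?_⟩
  unfold ex
  rw [dif_pos (π.symm ⟨x, hx⟩).2]
  simp

/-- occurrence of the pattern `t` (length `k`) at position `i` with value offset `m` -/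
def At (k : ℕ) (t : ℕ → ℕ) (n : ℕ) (f : ℕ → ℕ) (i m : ℕ) : Prop :=
  i + k ≤ n ∧ ∀ j, j < k → f (i + j) = m + t j

/-- `g` is an (increasing) overlap shift of `t` -/
def Plus (k : ℕ) (t : ℕ → ℕ) (g : ℕ) : Prop := ∀ j, j + g < k → t (j + g) = t j + g

/-- no decreasing overlap shift -/
def NoMinus (k : ℕ) (t : ℕ → ℕ) : Prop :=
  ∀ h, 1 ≤ h → h < k → ¬ ∀ j, j + h < k → t (j + h) + h = t j

/-- a sequence which is a permutation of `[0,k)` -/
structure IsP (k : ℕ) (t : ℕ → ℕ) : Prop where
  lt : ∀ j, j < k → t j < k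
  inj : ∀ a b, a < k → b < k → t a = t b → a = b
  surj : ∀ x, x < k → ∃ j, j < k ∧ t j = x

lemma isP_ex {n : ℕ} (π : Equiv.Perm (Fin n)) : IsP n (ex π) :=
  ⟨fun _ h => ex_lt π h, fun _ _ ha hb h => ex_inj π ha hb h, fun _ h => ex_surj π h⟩

lemma plus_add {k : ℕ} {t : ℕ → ℕ} {g h : ℕ} (hg : Plus k t g) (hh : Plus k t h) :
    Plus k t (g + h) := by
  intro j hj
  have e1 := hg (j + h) (by omega)
  have e2 := hh j (by omega)
  rw [show j + (g + h) = j + h + g by omega, e1, e2]
  omega

lemma plus_zero (k : ℕ) (t : ℕ → ℕ) : Plus k t 0 := by intro j _; simp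

/-- with an overlap shift `g`, the values at `[g,k)` are exactly `[g,k)` -/
lemma top_surj {k : ℕ} {t : ℕ → ℕ} (ht : IsP k t) {g : ℕ} (hg : Plus k t g) {x : ℕ}
    (h1 : g ≤ x) (h2 : x < k) : ∃ j, g ≤ j ∧ j < k ∧ t j = x := by
  have him : (Finset.Ico g k).image t ⊆ Finset.Ico g k := by
    intro y hy
    rw [Finset.mem_image] at hy
    obtain ⟨j, hj, rfl⟩ := hy
    rw [Finset.mem_Ico] at hj ⊢
    have e := hg (j - g) (by omega)
    rw [show j - g + g = j by omega] at e
    have := ht.lt j hj.2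
    omega
  have hcard : ((Finset.Ico g k).image t).card = (Finset.Ico g k).card := by
    apply Finset.card_image_of_injOn
    intro a ha b hb hab
    rw [Finset.coe_Ico, Set.mem_Ico] at ha hb
    exact ht.inj a b ha.2 hb.2 hab
  have heq := Finset.eq_of_subset_of_card_le him hcard.ge
  have hx : x ∈ (Finset.Ico g k).image t := by rw [heq, Finset.mem_Ico]; omega
  rw [Finset.mem_image] at hx
  obtain ⟨j, hj, rfl⟩ := hx
  rw [Finset.mem_Ico] at hj
  exact ⟨j, hj.1, hj.2, rfl⟩

lemma bot_lt {k : ℕ} {t : ℕ → ℕ} (ht : IsP k t) {g : ℕ} (hg : Plus k t g) {j : ℕ}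
    (h1 : j + g < k) : t j + g < k := by
  have e := hg j h1
  have := ht.lt (j + g) h1
  omega

/-- analysis of two overlapping occurrences -/
lemma overlap {k n : ℕ} {t f : ℕ → ℕ} (ht : IsP k t)
    (hf : ∀ a b, a < n → b < n → f a = f b → a = b) {a h v w : ℕ} (h1 : 1 ≤ h) (h2 : h < k)
    (o1 : At k t n f a v) (o2 : At k t n f (a + h) w) :
    (w = v + h ∧ Plus k t h) ∨ (v = w + h ∧ ∀ j, j + h < k → t (j + h) + h = t j) := by
  have hk1 : a + k ≤ n := o1.1
  have hk2 : a + h + k ≤ n := o2.1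
  have ov : ∀ j, j + h < k → v + t (j + h) = w + t j := by
    intro j hj
    have e1 := o1.2 (j + h) hj
    have e2 := o2.2 j (by omega)
    rw [show a + (j + h) = a + h + j by omega] at e1
    omega
  have ov0 := ov 0 (by omega)
  have l0 := ht.lt (0 + h) (by omega)
  have l1 := ht.lt 0 (by omega)
  rcases Nat.le_total v w with hvw | hvw
  · obtain ⟨d, rfl⟩ := Nat.exists_eq_add_of_le hvw
    have hd : d < k := by omega
    have him : (Finset.range h).image t = Finset.range d := by
      ext x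
      rw [Finset.mem_image, Finset.mem_range]
      constructor
      · rintro ⟨j, hj, rfl⟩
        rw [Finset.mem_range] at hj
        by_contra hcon
        have hlt := ht.lt j (by omega)
        obtain ⟨j', hj', e'⟩ := ht.surj (t j - d) (by omega)
        have e1 := o1.2 j (by omega)
        have e2 := o2.2 j' hj'
        have := hf (a + j) (a + h + j') (by omega) (by omega) (by omega)
        omega
      · intro hx
        obtain ⟨j, hj, e⟩ := ht.surj x (by omega)
        refine ⟨j, ?_, e⟩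
        rw [Finset.mem_range]
        by_contra hcon
        have := ov (j - h) (by omega)
        rw [show j - h + h = j by omega] at this
        omega
    have hcard : ((Finset.range h).image t).card = (Finset.range h).card := by
      apply Finset.card_image_of_injOn
      intro x hx y hy hxy
      rw [Finset.coe_range, Set.mem_Iio] at hx hy
      exact ht.inj x y (by omega) (by omega) hxy
    rw [him, Finset.card_range, Finset.card_range] at hcard
    subst hcard
    left
    refine ⟨rfl, ?_⟩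
    intro j hj
    have := ov j hj
    omega
  · obtain ⟨d, rfl⟩ := Nat.exists_eq_add_of_le hvw
    have hd : d < k := by omega
    have him : (Finset.Ico (k - h) k).image t = Finset.range d := by
      ext x
      rw [Finset.mem_image, Finset.mem_range]
      constructor
      · rintro ⟨j, hj, rfl⟩
        rw [Finset.mem_Ico] at hj
        by_contra hcon
        have hlt := ht.lt j (by omega)
        obtain ⟨j', hj', e'⟩ := ht.surj (t j - d) (by omega)
        have e1 := o2.2 j (by omega)
        have e2 := o1.2 j' hj'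
        have := hf (a + h + j) (a + j') (by omega) (by omega) (by omega)
        omega
      · intro hx
        obtain ⟨j, hj, e⟩ := ht.surj x (by omega)
        refine ⟨j, ?_, e⟩
        rw [Finset.mem_Ico]
        by_contra hcon
        have := ov j (by omega)
        omega
    have hcard : ((Finset.Ico (k - h) k).image t).card = (Finset.Ico (k - h) k).card := by
      apply Finset.card_image_of_injOn
      intro x hx y hy hxy
      rw [Finset.coe_Ico, Set.mem_Ico] at hx hy
      exact ht.inj x y (by omega) (by omega) hxy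
    rw [him, Finset.card_range, Nat.card_Ico] at hcard
    have : d = h := by omega
    subst this
    right
    refine ⟨rfl, ?_⟩
    intro j hj
    have := ov j hj
    omega


lemma isP_of {n : ℕ} {f : ℕ → ℕ} (h1 : ∀ j, j < n → f j < n)
    (h2 : ∀ a b, a < n → b < n → f a = f b → a = b) : IsP n f := by
  refine ⟨h1, h2, ?_⟩
  intro x hx
  have him : (Finset.range n).image f ⊆ Finset.range n := by
    intro y hy
    rw [Finset.mem_image] at hy
    obtain ⟨j, hj, rfl⟩ := hy
    rw [Finset.mem_range] at hj ⊢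
    exact h1 j hj
  have hcard : ((Finset.range n).image f).card = (Finset.range n).card := by
    apply Finset.card_image_of_injOn
    intro a ha b hb hab
    rw [Finset.coe_range, Set.mem_Iio] at ha hb
    exact h2 a b ha hb hab
  have heq := Finset.eq_of_subset_of_card_le him hcard.ge
  have hx' : x ∈ (Finset.range n).image f := by rw [heq, Finset.mem_range]; exact hx
  rw [Finset.mem_image] at hx'
  obtain ⟨j, hj, rfl⟩ := hx'
  rw [Finset.mem_range] at hj
  exact ⟨j, hj, rfl⟩

/-- the last `g` entries of `t` sit directly after and above the block at `p` -/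
def Cond (k : ℕ) (t : ℕ → ℕ) (n : ℕ) (f : ℕ → ℕ) (p v g : ℕ) : Prop :=
  Plus k t g ∧ p + k + g ≤ n ∧ ∀ j, j < k → k ≤ j + g → f (p + g + j) = v + g + t j

/-- replacing part of the block -/
def rep (k : ℕ) (t f : ℕ → ℕ) (p v g : ℕ) (j : ℕ) : ℕ :=
  if p + g ≤ j ∧ j < p + k then v + g + t (j - (p + g)) else f j

lemma rep_in {k : ℕ} {t f : ℕ → ℕ} {p v g j : ℕ} (h : p + g ≤ j ∧ j < p + k) :
    rep k t f p v g j = v + g + t (j - (p + g)) := by unfold rep; rw [if_pos h]

lemma rep_out {k : ℕ} {t f : ℕ → ℕ} {p v g j : ℕ} (h : ¬ (p + g ≤ j ∧ j < p + k)) :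
    rep k t f p v g j = f j := by unfold rep; rw [if_neg h]

lemma at_top {k n : ℕ} {s f : ℕ → ℕ} (hk : 1 ≤ k) (hs : IsP k s) (hf : IsP n f) {p v : ℕ}
    (hp : At k s n f p v) : v + k ≤ n := by
  obtain ⟨j, hj, e⟩ := hs.surj (k - 1) (by omega)
  have e1 := hp.2 j hj
  have e2 := hf.lt (p + j) (by have := hp.1; omega)
  omega

lemma rep_isP {k n : ℕ} {s t f : ℕ → ℕ} (hk : 1 ≤ k) (hs : IsP k s) (ht : IsP k t)
    (hf : IsP n f) {p v g : ℕ} (hp : At k s n f p v) (hgs : Plus k s g)
    (hgt : Plus k t g) : IsP n (rep k t f p v g) := by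
  have hv := at_top hk hs hf hp
  have hpn := hp.1
  have key : ∀ a b, a < n → b < n → (p + g ≤ a ∧ a < p + k) → ¬ (p + g ≤ b ∧ b < p + k) →
      rep k t f p v g a ≠ rep k t f p v g b := by
    intro a b ha hb hca hcb hab
    rw [rep_in hca, rep_out hcb] at hab
    have hlt := bot_lt ht hgt (j := a - (p + g)) (by omega)
    obtain ⟨j, j1, j2, j3⟩ := top_surj hs hgs (x := g + t (a - (p + g))) (by omega) (by omega)
    have e := hp.2 j j2
    have := hf.inj (p + j) b (by omega) hb (by omega)
    omega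
  apply isP_of
  · intro j hj
    by_cases hc : p + g ≤ j ∧ j < p + k
    · rw [rep_in hc]
      have hlt := bot_lt ht hgt (j := j - (p + g)) (by omega)
      omega
    · rw [rep_out hc]
      exact hf.lt j hj
  · intro a b ha hb hab
    by_cases hca : p + g ≤ a ∧ a < p + k
    · by_cases hcb : p + g ≤ b ∧ b < p + k
      · rw [rep_in hca, rep_in hcb] at hab
        have := ht.inj (a - (p + g)) (b - (p + g)) (by omega) (by omega) (by omega)
        omega
      · exact absurd hab (key a b ha hb hca hcb)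
    · by_cases hcb : p + g ≤ b ∧ b < p + k
      · exact absurd hab.symm (key b a hb ha hcb hca)
      · rw [rep_out hca, rep_out hcb] at hab
        exact hf.inj a b ha hb hab

/-- first occurrence of `s`, and maximal continuation by the end of `t` -/
structure Data (k : ℕ) (s t : ℕ → ℕ) (n : ℕ) (f : ℕ → ℕ) (p v g : ℕ) : Prop where
  at_ : At k s n f p v
  min_ : ∀ i m, At k s n f i m → p ≤ i
  glt : g < k
  cond : Cond k t n f p v g
  max_ : ∀ g', g' < k → Cond k t n f p v g' → g' ≤ g

lemma data_exists {k n : ℕ} {s t f : ℕ → ℕ} (hk : 1 ≤ k) (h : ∃ i m, At k s n f i m) :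
    ∃ p v g, Data k s t n f p v g := by
  classical
  have hp := Nat.find_spec h
  obtain ⟨v, hv⟩ := hp
  set p := Nat.find h with hpdef
  have hc0 : Cond k t n f p v 0 := ⟨plus_zero k t, by have := hv.1; omega, by
    intro j hj hj'; omega⟩
  refine ⟨p, v, Nat.findGreatest (fun g => Cond k t n f p v g) (k - 1), hv, ?_, ?_, ?_, ?_⟩
  · intro i m hi
    exact Nat.find_min' h ⟨m, hi⟩
  · have := Nat.findGreatest_le (P := fun g => Cond k t n f p v g) (k - 1)
    omega
  · exact Nat.findGreatest_spec (P := fun g => Cond k t n f p v g) (Nat.zero_le (k - 1)) hc0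
  · intro g' h1 h2
    exact Nat.le_findGreatest (by omega) h2

lemma data_spec {k n : ℕ} {s t f : ℕ → ℕ} (hk : 1 ≤ k) (hs : IsP k s) (ht : IsP k t)
    (hf : IsP n f) (hm : NoMinus k t) {p v g : ℕ} (hd : Data k s t n f p v g)
    (hV : ∀ i m i' m', At k s n f i m → At k t n f i' m' → i' < i + k)
    (hgs : Plus k s g) :
    IsP n (rep k t f p v g) ∧ At k t n (rep k t f p v g) (p + g) (v + g) ∧
    (∀ i m, At k t n (rep k t f p v g) i m → i ≤ p + g) ∧
    (∀ i m, At k s n (rep k t f p v g) i m → p + g < i + k) := by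
  obtain ⟨hp, hmin, hgk, ⟨hgt, hgn, hc⟩, hmax⟩ := hd
  have hpn := hp.1
  have hP := rep_isP hk hs ht hf hp hgs hgt
  have hat : At k t n (rep k t f p v g) (p + g) (v + g) := by
    refine ⟨by omega, ?_⟩
    intro j hj
    by_cases hz : p + g + j < p + k
    · rw [rep_in ⟨by omega, hz⟩, show p + g + j - (p + g) = j by omega]
    · rw [rep_out (by omega)]
      exact hc j hj (by omega)
  refine ⟨hP, hat, ?_, ?_⟩
  · intro i m hi
    by_contra hcon
    have hin := hi.1
    rcases Nat.lt_or_ge i (p + k) with hik | hik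
    · obtain ⟨h, rfl⟩ : ∃ h, i = p + g + h := ⟨i - (p + g), by omega⟩
      rcases overlap ht hP.inj (show 1 ≤ h by omega) (by omega) hat hi with ⟨e1, e2⟩ | ⟨e1, e2⟩
      · have : Cond k t n f p v (g + h) := by
          refine ⟨plus_add hgt e2, by omega, ?_⟩
          intro j hj hj'
          have e3 := hi.2 j hj
          rw [rep_out (by omega)] at e3
          rw [show p + (g + h) + j = p + g + h + j by omega, e3, e1]
          omega
        have := hmax (g + h) (by omega) this
        omega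
      · exact hm h (by omega) (by omega) e2
    · have : At k t n f i m := by
        refine ⟨hin, ?_⟩
        intro j hj
        have e3 := hi.2 j hj
        rwa [rep_out (by omega)] at e3
      have := hV p v i m hp this
      omega
  · intro i m hi
    by_contra hcon
    have hin := hi.1
    have : At k s n f i m := by
      refine ⟨hin, ?_⟩
      intro j hj
      have e3 := hi.2 j hj
      rwa [rep_out (by omega)] at e3
    have := hmin i m this
    omega

lemma data_inj_aux {k n : ℕ} {s t f₁ f₂ : ℕ → ℕ} {p₁ v₁ g₁ p₂ v₂ g₂ : ℕ}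
    (h1 : Data k s t n f₁ p₁ v₁ g₁) (h2 : Data k s t n f₂ p₂ v₂ g₂)
    (s1 : Plus k s g₁) (s2 : Plus k s g₂)
    (he : ∀ j, j < n → rep k t f₁ p₁ v₁ g₁ j = rep k t f₂ p₂ v₂ g₂ j)
    (hp : p₁ + g₁ = p₂ + g₂) (hv : v₁ + g₁ = v₂ + g₂) : g₂ ≤ g₁ := by
  by_contra hcon
  have a1 := h1.at_.1
  have a2 := h2.at_.1
  have k2 := h2.glt
  have : At k s n f₁ p₂ v₂ := by
    refine ⟨a2, ?_⟩
    intro j hj
    have e2 := h2.at_.2 j hj
    rcases Nat.lt_or_ge j g₂ with hjg | hjg
    · have e := he (p₂ + j) (by omega)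
      rw [rep_out (by omega), rep_out (by omega)] at e
      rw [e, e2]
    · have e1 := h1.at_.2 (j - (g₂ - g₁)) (by omega)
      rw [show p₁ + (j - (g₂ - g₁)) = p₂ + j by omega] at e1
      have e3 := s2 (j - g₂) (by omega)
      have e4 := s1 (j - g₂) (by omega)
      rw [show j - g₂ + g₂ = j by omega] at e3
      rw [show j - g₂ + g₁ = j - (g₂ - g₁) by omega] at e4
      omega
  have := h1.min_ _ _ this
  omega

lemma data_inj {k n : ℕ} {s t f₁ f₂ : ℕ → ℕ} {p₁ v₁ g₁ p₂ v₂ g₂ : ℕ}
    (h1 : Data k s t n f₁ p₁ v₁ g₁) (h2 : Data k s t n f₂ p₂ v₂ g₂)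
    (s1 : Plus k s g₁) (s2 : Plus k s g₂)
    (he : ∀ j, j < n → rep k t f₁ p₁ v₁ g₁ j = rep k t f₂ p₂ v₂ g₂ j)
    (hp : p₁ + g₁ = p₂ + g₂) (hv : v₁ + g₁ = v₂ + g₂) : ∀ j, j < n → f₁ j = f₂ j := by
  have hg : g₁ = g₂ := le_antisymm (data_inj_aux h2 h1 s2 s1 (fun j hj => (he j hj).symm)
    hp.symm hv.symm) (data_inj_aux h1 h2 s1 s2 he hp hv)
  subst hg
  have hp' : p₁ = p₂ := by omega
  have hv' : v₁ = v₂ := by omega
  subst hp' hv'
  intro j hj
  by_cases hc : p₁ + g₁ ≤ j ∧ j < p₁ + k
  · have e1 := h1.at_.2 (j - p₁) (by omega)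
    have e2 := h2.at_.2 (j - p₁) (by omega)
    rw [show p₁ + (j - p₁) = j by omega] at e1 e2
    omega
  · have e := he j hj
    rwa [rep_out hc, rep_out hc] at e


/-! ### counting -/

/-- the permutation of `Fin n` with given values -/
noncomputable def mkPerm {n : ℕ} (f : ℕ → ℕ) (h : IsP n f) : Equiv.Perm (Fin n) :=
  Equiv.ofBijective (fun j : Fin n => (⟨f j, h.lt j j.2⟩ : Fin n))
    (Finite.injective_iff_bijective.1 (fun a b hab => by
      have := h.inj a b a.2 b.2 (congrArg Fin.val hab)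
      exact Fin.ext this))

lemma ex_mkPerm {n : ℕ} (f : ℕ → ℕ) (h : IsP n f) {j : ℕ} (hj : j < n) :
    ex (mkPerm f h) j = f j := by
  unfold ex mkPerm
  rw [dif_pos hj]
  rfl

lemma At_congr {k n : ℕ} {t f f' : ℕ → ℕ} (h : ∀ j, j < n → f j = f' j) {i m : ℕ} :
    At k t n f i m ↔ At k t n f' i m := by
  unfold At
  constructor
  · rintro ⟨h1, h2⟩
    exact ⟨h1, fun j hj => by rw [← h _ (by omega)]; exact h2 j hj⟩
  · rintro ⟨h1, h2⟩
    exact ⟨h1, fun j hj => by rw [h _ (by omega)]; exact h2 j hj⟩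

/-- the pattern occurs -/
def Has (k : ℕ) (t : ℕ → ℕ) {n : ℕ} (π : Equiv.Perm (Fin n)) : Prop :=
  ∃ i m, At k t n (ex π) i m

/-- all occurrences of `t` start before the end of every occurrence of `s` -/
def InV (k : ℕ) (s t : ℕ → ℕ) {n : ℕ} (π : Equiv.Perm (Fin n)) : Prop :=
  ∀ i m i' m', At k s n (ex π) i m → At k t n (ex π) i' m' → i' < i + k

lemma ex_ext {n : ℕ} {π π' : Equiv.Perm (Fin n)} (h : ∀ j, j < n → ex π j = ex π' j) :
    π = π' := by
  ext j
  have := h j j.2
  unfold ex at this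
  rw [dif_pos j.2, dif_pos j.2] at this
  exact this

open Classical in
/-- The replacement map. -/
noncomputable def Phi (k : ℕ) (s t : ℕ → ℕ) {n : ℕ} (π : Equiv.Perm (Fin n)) :
    Equiv.Perm (Fin n) :=
  if h : ∃ p v g, Data k s t n (ex π) p v g ∧ IsP n (rep k t (ex π) p v g) then
    mkPerm (rep k t (ex π) h.choose h.choose_spec.choose h.choose_spec.choose_spec.choose)
      h.choose_spec.choose_spec.choose_spec.2
  else π

lemma Phi_spec {k n : ℕ} {s t : ℕ → ℕ} (hk : 1 ≤ k) (hs : IsP k s) (ht : IsP k t)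
    (hm : NoMinus k t) (H : ∀ g, g < k → k + g ≤ n → Plus k t g → Plus k s g)
    {π : Equiv.Perm (Fin n)} (hV : InV k s t π) (hh : Has k s π) :
    ∃ p v g, Data k s t n (ex π) p v g ∧ Plus k s g ∧
      (∀ j, j < n → ex (Phi k s t π) j = rep k t (ex π) p v g j) ∧
      IsP n (rep k t (ex π) p v g) ∧ At k t n (rep k t (ex π) p v g) (p + g) (v + g) ∧
      (∀ i m, At k t n (rep k t (ex π) p v g) i m → i ≤ p + g) ∧
      (∀ i m, At k s n (rep k t (ex π) p v g) i m → p + g < i + k) := by
  have hex : ∃ p v g, Data k s t n (ex π) p v g ∧ IsP n (rep k t (ex π) p v g) := by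
    obtain ⟨p, v, g, hd⟩ := data_exists (t := t) hk hh
    have hgs : Plus k s g := H g hd.glt (by have := hd.cond.2.1; omega) hd.cond.1
    exact ⟨p, v, g, hd, (data_spec hk hs ht (isP_ex π) hm hd hV hgs).1⟩
  have hd := hex.choose_spec.choose_spec.choose_spec.1
  have hP := hex.choose_spec.choose_spec.choose_spec.2
  have hgs : Plus k s hex.choose_spec.choose_spec.choose :=
    H _ hd.glt (by have := hd.cond.2.1; omega) hd.cond.1
  refine ⟨hex.choose, hex.choose_spec.choose, hex.choose_spec.choose_spec.choose, hd, hgs, ?_,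
    data_spec hk hs ht (isP_ex π) hm hd hV hgs⟩
  intro j hj
  unfold Phi
  rw [dif_pos hex, ex_mkPerm _ _ hj]

lemma Phi_maps {k n : ℕ} {s t : ℕ → ℕ} (hk : 1 ≤ k) (hs : IsP k s) (ht : IsP k t)
    (hm : NoMinus k t) (H : ∀ g, g < k → k + g ≤ n → Plus k t g → Plus k s g)
    {π : Equiv.Perm (Fin n)} (hV : InV k s t π) (hh : Has k s π) :
    InV k s t (Phi k s t π) ∧ Has k t (Phi k s t π) := by
  obtain ⟨p, v, g, hd, hgs, he, h1, h2, h3, h4⟩ := Phi_spec hk hs ht hm H hV hh
  refine ⟨?_, ?_⟩
  · intro i m i' m' hi hi'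
    rw [At_congr he] at hi hi'
    have := h3 i' m' hi'
    have := h4 i m hi
    omega
  · exact ⟨p + g, v + g, (At_congr he).2 h2⟩

lemma Phi_inj {k n : ℕ} {s t : ℕ → ℕ} (hk : 1 ≤ k) (hs : IsP k s) (ht : IsP k t)
    (hm : NoMinus k t) (H : ∀ g, g < k → k + g ≤ n → Plus k t g → Plus k s g)
    {π π' : Equiv.Perm (Fin n)} (hV : InV k s t π) (hh : Has k s π)
    (hV' : InV k s t π') (hh' : Has k s π') (hE : Phi k s t π = Phi k s t π') : π = π' := by
  obtain ⟨p, v, g, hd, hgs, he, h1, h2, h3, h4⟩ := Phi_spec hk hs ht hm H hV hh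
  obtain ⟨p', v', g', hd', hgs', he', h1', h2', h3', h4'⟩ := Phi_spec hk hs ht hm H hV' hh'
  have heq : ∀ j, j < n → rep k t (ex π) p v g j = rep k t (ex π') p' v' g' j := by
    intro j hj
    rw [← he j hj, ← he' j hj, hE]
  have hp : p + g = p' + g' := by
    have e1 := h3' _ _ ((At_congr heq).1 h2)
    have e2 := h3 _ _ ((At_congr heq).2 h2')
    omega
  have hv : v + g = v' + g' := by
    have e1 := h2.2 0 (by omega)
    have e2 := h2'.2 0 (by omega)
    have e3 := h2.1
    rw [heq _ (by omega), hp] at e1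
    omega
  exact ex_ext (data_inj hd hd' hgs hgs' heq hp hv)

open Classical in
/-- Main comparison: if (up to size `n`) every overlap shift of `t` is one of `s`, then at least
as many permutations of length `n` avoid `s` as avoid `t`. -/
theorem count_le {k n : ℕ} {s t : ℕ → ℕ} (hk : 1 ≤ k) (hs : IsP k s) (ht : IsP k t)
    (hm : NoMinus k t) (H : ∀ g, g < k → k + g ≤ n → Plus k t g → Plus k s g) :
    (Finset.univ.filter (fun π : Equiv.Perm (Fin n) => ¬ Has k t π)).card ≤
      (Finset.univ.filter (fun π : Equiv.Perm (Fin n) => ¬ Has k s π)).card := by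
  set V : Finset (Equiv.Perm (Fin n)) := Finset.univ.filter (fun π => InV k s t π) with hVdef
  have hA : (V.filter (fun π => Has k s π)).card ≤ (V.filter (fun π => Has k t π)).card := by
    apply Finset.card_le_card_of_injOn (Phi k s t)
    · intro π hπ
      rw [Finset.mem_coe, Finset.mem_filter, hVdef, Finset.mem_filter] at hπ
      rw [Finset.mem_coe, Finset.mem_filter, hVdef, Finset.mem_filter]
      have := Phi_maps hk hs ht hm H hπ.1.2 hπ.2
      exact ⟨⟨Finset.mem_univ _, this.1⟩, this.2⟩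
    · intro π hπ π' hπ' hE
      rw [Finset.mem_coe, Finset.mem_filter, hVdef, Finset.mem_filter] at hπ hπ'
      exact Phi_inj hk hs ht hm H hπ.1.2 hπ.2 hπ'.1.2 hπ'.2 hE
  have h1 := Finset.card_filter_add_card_filter_not (s := V) (fun π => Has k s π)
  have h2 := Finset.card_filter_add_card_filter_not (s := V) (fun π => Has k t π)
  have e1 : V.filter (fun π => ¬ Has k s π) =
      Finset.univ.filter (fun π : Equiv.Perm (Fin n) => ¬ Has k s π) := by
    ext π
    rw [Finset.mem_filter, hVdef, Finset.mem_filter, Finset.mem_filter]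
    constructor
    · rintro ⟨⟨h, _⟩, h'⟩; exact ⟨h, h'⟩
    · rintro ⟨h, h'⟩
      exact ⟨⟨h, fun i m i' m' hi _ => absurd ⟨i, m, hi⟩ h'⟩, h'⟩
  have e2 : V.filter (fun π => ¬ Has k t π) =
      Finset.univ.filter (fun π : Equiv.Perm (Fin n) => ¬ Has k t π) := by
    ext π
    rw [Finset.mem_filter, hVdef, Finset.mem_filter, Finset.mem_filter]
    constructor
    · rintro ⟨⟨h, _⟩, h'⟩; exact ⟨h, h'⟩
    · rintro ⟨h, h'⟩
      exact ⟨⟨h, fun i m i' m' _ hi => absurd ⟨i', m', hi⟩ h'⟩, h'⟩
  rw [e1] at h1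
  rw [e2] at h2
  omega

/-! ### complement -/

/-- complement of a pattern -/
def compl (k : ℕ) (t : ℕ → ℕ) (j : ℕ) : ℕ := k - 1 - t j

lemma compl_isP {k : ℕ} {t : ℕ → ℕ} (ht : IsP k t) : IsP k (compl k t) := by
  apply isP_of
  · intro j hj
    have := ht.lt j hj
    unfold compl; omega
  · intro a b ha hb hab
    have h1 := ht.lt a ha
    have h2 := ht.lt b hb
    unfold compl at hab
    exact ht.inj a b ha hb (by omega)

lemma noMinus_or {k : ℕ} {t : ℕ → ℕ} (ht : IsP k t) :
    NoMinus k t ∨ NoMinus k (compl k t) := by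
  by_contra hcon
  rw [not_or] at hcon
  obtain ⟨c1, c2⟩ := hcon
  unfold NoMinus at c1 c2
  push Not at c1 c2
  obtain ⟨h, h1, h2, h3⟩ := c1
  obtain ⟨g, g1, g2, g3⟩ := c2
  have l0 := ht.lt 0 (by omega)
  have a1 := h3 0 (by omega)
  have a2 := g3 0 (by omega)
  unfold compl at a2
  have l1 := ht.lt (0 + h) (by omega)
  have l2 := ht.lt (0 + g) (by omega)
  obtain ⟨j, hj, e⟩ := ht.surj 0 (by omega)
  have b1 : ¬ j + h < k := by
    intro hlt
    have := h3 j hlt
    omega
  have b2 : ¬ g ≤ j := by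
    intro hle
    have := g3 (j - g) (by omega)
    unfold compl at this
    rw [show j - g + g = j by omega, e] at this
    have := ht.lt (j - g) (by omega)
    omega
  omega

open Classical in
lemma card_compl {k n : ℕ} {t : ℕ → ℕ} (hk : 1 ≤ k) (ht : IsP k t) :
    (Finset.univ.filter (fun π : Equiv.Perm (Fin n) => ¬ Has k (compl k t) π)).card =
      (Finset.univ.filter (fun π : Equiv.Perm (Fin n) => ¬ Has k t π)).card := by
  have hex : ∀ (π : Equiv.Perm (Fin n)) (j : ℕ), j < n →
      ex (π.trans Fin.revPerm) j = n - 1 - ex π j := by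
    intro π j hj
    unfold ex
    rw [dif_pos hj, dif_pos hj]
    simp [Fin.val_rev]
    omega
  have key : ∀ (t : ℕ → ℕ) (ht : IsP k t) (π : Equiv.Perm (Fin n)), Has k t π →
      Has k (compl k t) (π.trans Fin.revPerm) := by
    intro t ht π hh
    obtain ⟨i, m, hi⟩ := hh
    have htop := at_top hk ht (isP_ex π) hi
    refine ⟨i, n - m - k, hi.1, ?_⟩
    intro j hj
    have hin := hi.1
    rw [hex π _ (by omega), hi.2 j hj]
    unfold compl
    have := ht.lt j hj
    omega
  have hcc : ∀ j, j < k → compl k (compl k t) j = t j := by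
    intro j hj
    have := ht.lt j hj
    unfold compl; omega
  have key2 : ∀ π : Equiv.Perm (Fin n), Has k (compl k t) (π.trans Fin.revPerm) →
      Has k t π := by
    intro π hh
    have := key (compl k t) (compl_isP ht) _ hh
    obtain ⟨i, m, hi⟩ := this
    refine ⟨i, m, hi.1, ?_⟩
    intro j hj
    have e := hi.2 j hj
    rw [hcc j hj] at e
    have hin := hi.1
    rw [← e]
    congr 1
    ext x
    simp
  symm
  apply Finset.card_bij (fun π _ => π.trans Fin.revPerm)
  · intro π hπ
    rw [Finset.mem_filter] at hπ ⊢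
    exact ⟨Finset.mem_univ _, fun h => hπ.2 (key2 π h)⟩
  · intro π _ π' _ h
    ext x
    have := congrArg (fun σ : Equiv.Perm (Fin n) => σ x) h
    simp at this
    rw [this]
  · intro π hπ
    rw [Finset.mem_filter] at hπ
    refine ⟨π.trans Fin.revPerm, ?_, ?_⟩
    · rw [Finset.mem_filter]
      refine ⟨Finset.mem_univ _, fun h => hπ.2 ?_⟩
      have := key t ht _ h
      have e : (π.trans Fin.revPerm).trans Fin.revPerm = π := by ext x; simp
      rwa [e] at this
    · ext x; simp

end Pool.Agent.Q161.Hertz
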