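import Mathlib

/-!
Periods of words: Fine–Wilf, and every period set of a word whose first and last letters agree is
the period set of a binary palindrome.
-/

set_option autoImplicit false

namespace Pool.Agent.Q161.PalPer

/-- the word `f 0 … f (n-1)` has period `p` -/
def Per {α : Type*} (f : ℕ → α) (n p : ℕ) : Prop := ∀ i, i + p < n → f (i + p) = f i

lemma per_mul {α : Type*} {f : ℕ → α} {n g : ℕ} (h : Per f n g) :
    ∀ c i, i + c * g < n → f (i + c * g) = f i
  | 0, i, _ => by simp
  | c + 1, i, hi => by
    have e : i + (c + 1) * g = i + c * g + g := by ring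
    rw [e] at hi ⊢
    rw [h (i + c * g) hi]
    exact per_mul h c i (by omega)

lemma per_mod {α : Type*} {f : ℕ → α} {n g : ℕ} (h : Per f n g) {i : ℕ}
    (hi : i < n) : f i = f (i % g) := by
  have e : i % g + (i / g) * g = i := Nat.mod_add_div' i g
  have := per_mul h (i / g) (i % g) (by omega)
  rw [e] at this
  exact this

lemma per_congr {α : Type*} {f : ℕ → α} {n g i j : ℕ} (h : Per f n g)
    (hi : i < n) (hj : j < n) (hij : i % g = j % g) : f i = f j := by
  rw [per_mod h hi, per_mod h hj, hij]

lemma per_mono {α : Type*} {f : ℕ → α} {n m g : ℕ} (h : Per f n g) (hm : m ≤ n) : Per f m g :=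
  fun i hi => h i (by omega)

lemma fine_wilf {α : Type*} (f : ℕ → α) : ∀ s p q n : ℕ, p + q ≤ s → 1 ≤ p → 1 ≤ q →
    p + q ≤ n + Nat.gcd p q → Per f n p → Per f n q → Per f n (Nat.gcd p q) := by
  intro s
  induction s with
  | zero => intro p q n h1 h2 h3; omega
  | succ s ih =>
    -- the case `p < q`
    have main : ∀ p q n : ℕ, p + q ≤ s + 1 → 1 ≤ p → p < q →
        p + q ≤ n + Nat.gcd p q → Per f n p → Per f n q → Per f n (Nat.gcd p q) := by
      intro p q n h1 h2 hpq h4 hp hq
      have hg : Nat.gcd p (q - p) = Nat.gcd p q := by
        rw [Nat.gcd_comm, Nat.gcd_sub_self_left (le_of_lt hpq)]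
        exact Nat.gcd_comm _ _
      have hgp : Nat.gcd p q ∣ p := Nat.gcd_dvd_left p q
      have hgq : Nat.gcd p q ∣ q - p := by rw [← hg]; exact Nat.gcd_dvd_right _ _
      have hgle : Nat.gcd p q ≤ q - p := Nat.le_of_dvd (by omega) hgq
      have hgpos : 0 < Nat.gcd p q := Nat.gcd_pos_of_pos_left _ h2
      have hred := ih p (q - p) (n - p) (by omega) h2 (by omega) (by rw [hg]; omega)
        (per_mono hp (by omega)) (by
          intro i hi
          have e1 := hp (i + (q - p)) (by omega)
          have e2 := hq i (by omega)
          rw [show i + (q - p) + p = i + q by omega] at e1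
          rw [← e1, e2])
      rw [hg] at hred
      intro i hi
      have e1 : f (i + Nat.gcd p q) = f ((i + Nat.gcd p q) % p) := per_mod hp hi
      have e2 : f i = f (i % p) := per_mod hp (by omega)
      rw [e1, e2]
      have l1 := Nat.mod_lt (i + Nat.gcd p q) (show 0 < p by omega)
      have l2 := Nat.mod_lt i (show 0 < p by omega)
      apply per_congr hred (by omega) (by omega)
      rw [Nat.mod_mod_of_dvd _ hgp, Nat.mod_mod_of_dvd _ hgp, Nat.add_mod_right]
    intro p q n h1 h2 h3 h4 hp hq
    rcases Nat.lt_trichotomy p q with h | h | h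
    · exact main p q n h1 h2 h h4 hp hq
    · subst h
      rw [Nat.gcd_self]; exact hp
    · rw [Nat.gcd_comm]
      exact main q p n (by omega) h3 h (by rw [Nat.gcd_comm]; omega) hq hp

lemma fw {α : Type*} {f : ℕ → α} {p q n : ℕ} (h2 : 1 ≤ p) (h3 : 1 ≤ q)
    (h4 : p + q ≤ n + Nat.gcd p q) (hp : Per f n p) (hq : Per f n q) : Per f n (Nat.gcd p q) :=
  fine_wilf f (p + q) p q n le_rfl h2 h3 h4 hp hq

/-- longer periods are the periods of the border -/
lemma per_shift {α : Type*} {f : ℕ → α} {N p g : ℕ} (hp : Per f N p) (hg : p ≤ g) :
    Per f N g ↔ Per f (N - p) (g - p) := by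
  constructor
  · intro h i hi
    have e1 := h i (by omega)
    have e2 := hp (i + (g - p)) (by omega)
    rw [show i + (g - p) + p = i + g by omega] at e2
    rw [← e2, e1]
  · intro h i hi
    have e1 := h i (by omega)
    have e2 := hp (i + (g - p)) (by omega)
    rw [show i + (g - p) + p = i + g by omega] at e2
    rw [e2, e1]

/-- the word `v c^{p-m} v` -/
def W (v : ℕ → Bool) (m p : ℕ) (c : Bool) (j : ℕ) : Bool :=
  if j < m then v j else if j < p then c else v (j - p)

lemma W_lo {v : ℕ → Bool} {m p : ℕ} {c : Bool} {j : ℕ} (h : j < m) : W v m p c j = v j := by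
  unfold W; rw [if_pos h]

lemma W_mid {v : ℕ → Bool} {m p : ℕ} {c : Bool} {j : ℕ} (h : m ≤ j) (h' : j < p) :
    W v m p c j = c := by
  unfold W; rw [if_neg (by omega), if_pos h']

lemma W_hi {v : ℕ → Bool} {m p : ℕ} {c : Bool} {j : ℕ} (hm : m ≤ p) (h : p ≤ j) :
    W v m p c j = v (j - p) := by
  unfold W; rw [if_neg (by omega), if_neg (by omega)]

lemma W_per {v : ℕ → Bool} {m p : ℕ} {c : Bool} (hm : m < p) : Per (W v m p c) (m + p) p := by
  intro i hi
  rw [W_hi (by omega) (by omega), W_lo (by omega)]
  congr 1; omega

/-- a short period forces `v` constant or a period dividing `p` -/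
lemma W_short {v : ℕ → Bool} {m p q : ℕ} {c : Bool} (hm : m < p) (hq1 : 1 ≤ q)
    (hq : q < p) (h : Per (W v m p c) (m + p) q) :
    (∀ i, i < m → v i = c) ∨
      (∃ d, 1 ≤ d ∧ d < m ∧ d ∣ p ∧ p - m < d ∧ Per (W v m p c) (m + p) d) := by
  rcases Nat.lt_or_ge q m with hqm | hqm
  · have hf : Per (W v m p c) (m + p) (Nat.gcd p q) :=
      fw (by omega) hq1 (by omega) (W_per hm) h
    have hd := Nat.gcd_dvd_left p q
    have hd' : Nat.gcd p q ≤ q := Nat.gcd_le_right _ hq1
    have hpos : 0 < Nat.gcd p q := Nat.gcd_pos_of_pos_right _ hq1
    rcases Nat.lt_or_ge (p - m) (Nat.gcd p q) with hL | hL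
    · exact Or.inr ⟨Nat.gcd p q, hpos, by omega, hd, hL, hf⟩
    · left
      intro i hi
      -- choose an index in the middle run congruent to `i`
      set d := Nat.gcd p q
      have hmod : (m + ((i % d + d - m % d) % d)) % d = i % d := by
        have h1 := Nat.mod_lt i hpos
        have h2 := Nat.mod_lt m hpos
        rw [Nat.add_mod, Nat.mod_mod]
        have : (m % d + (i % d + d - m % d) % d) % d = (m % d + (i % d + d - m % d)) % d := by
          rw [Nat.add_mod_mod]
        rw [this, show m % d + (i % d + d - m % d) = i % d + d by omega, Nat.add_mod_right,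
          Nat.mod_mod]
      have hlt := Nat.mod_lt (i % d + d - m % d) hpos
      have e := per_congr hf (i := i) (j := m + ((i % d + d - m % d) % d)) (by omega) (by omega)
        hmod.symm
      rw [W_lo hi, W_mid (by omega) (by omega)] at e
      exact e
  · left
    intro i
    induction i using Nat.strong_induction_on with
    | _ i ih =>
      intro hi
      have e := h i (by omega)
      rw [W_lo hi] at e
      rcases Nat.lt_or_ge (i + q) p with hlt | hge
      · rw [W_mid (by omega) hlt] at e
        exact e.symm
      · rw [W_hi (by omega) hge] at e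
        rw [← e]
        exact ih (i + q - p) (by omega) (by omega)

lemma W_good {v : ℕ → Bool} {m p : ℕ} (hm1 : 1 ≤ m) (hm : m < p) :
    ∃ c, ∀ q, 1 ≤ q → q < p → ¬ Per (W v m p c) (m + p) q := by
  by_contra hcon
  push Not at hcon
  obtain ⟨q0, a1, a2, a3⟩ := hcon false
  obtain ⟨q1, b1, b2, b3⟩ := hcon true
  have A := W_short hm a1 a2 a3
  have B := W_short hm b1 b2 b3
  -- value at position `m`
  have hval : ∀ c d, 1 ≤ d → d < m → Per (W v m p c) (m + p) d → v (m - d) = c := by
    intro c d h1 h2 h3
    have e := h3 (m - d) (by omega)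
    rw [show m - d + d = m by omega, W_mid le_rfl hm, W_lo (by omega)] at e
    exact e.symm
  rcases A with A | ⟨d0, A1, A2, A3, A4, A5⟩
  · rcases B with B | ⟨d1, B1, B2, B3, B4, B5⟩
    · have := A 0 (by omega)
      rw [B 0 (by omega)] at this
      exact Bool.noConfusion this
    · have e1 := hval true d1 B1 B2 B5
      rw [A _ (by omega)] at e1
      exact Bool.noConfusion e1
  · rcases B with B | ⟨d1, B1, B2, B3, B4, B5⟩
    · have e1 := hval false d0 A1 A2 A5
      rw [B _ (by omega)] at e1
      exact Bool.noConfusion e1
    · have e0 := hval false d0 A1 A2 A5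
      have e1 := hval true d1 B1 B2 B5
      have P0 : Per v m d0 := by
        intro i hi
        have := A5 i (by omega)
        rwa [W_lo hi, W_lo (by omega)] at this
      have P1 : Per v m d1 := by
        intro i hi
        have := B5 i (by omega)
        rwa [W_lo hi, W_lo (by omega)] at this
      have hineq : ∀ d d' : ℕ, d ∣ p → d' ∣ p → d < m → d' < d → p - m < d' →
          d + d' ≤ m + Nat.gcd d d' := by
        intro d d' h1 h2 h3 h4 h5
        obtain ⟨a, ha⟩ := h1
        obtain ⟨b, hb⟩ := h2
        have ha2 : 2 ≤ a := by
          by_contra hc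
          have : a = 0 ∨ a = 1 := by omega
          rcases this with rfl | rfl
          · omega
          · omega
        have hba : a < b := by
          by_contra hc
          have h6 : b ≤ a := by omega
          have h7 : d' * b ≤ d' * a := Nat.mul_le_mul_left _ h6
          have h8 : d' * a < d * a := Nat.mul_lt_mul_of_pos_right h4 (by omega)
          omega
        have h2d : d * 2 ≤ p := by rw [ha]; exact Nat.mul_le_mul_left _ ha2
        rcases Nat.lt_or_ge b 4 with hb4 | hb4
        · have hb3 : b = 3 := by omega
          have ha2' : a = 2 := by omega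
          subst hb3 ha2'
          obtain ⟨e, he3, he2⟩ : ∃ e, d = 3 * e ∧ d' = 2 * e := ⟨d - d', by omega, by omega⟩
          have hg : Nat.gcd d d' = e := by
            rw [he3, he2, Nat.gcd_mul_right]
            norm_num
          rw [hg]
          omega
        · have h4d : d' * 4 ≤ p := by rw [hb]; exact Nat.mul_le_mul_left _ hb4
          omega
      have hg : Per v m (Nat.gcd d0 d1) := by
        rcases Nat.lt_trichotomy d0 d1 with h | h | h
        · have := hineq d1 d0 B3 A3 B2 h A4
          rw [Nat.gcd_comm] at this
          exact fw A1 B1 (by omega) P0 P1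
        · subst h
          rw [e0] at e1
          exact Bool.noConfusion e1
        · exact fw A1 B1 (hineq d0 d1 A3 B3 A2 h B4) P0 P1
      have c0 : (m - d0) % Nat.gcd d0 d1 = m % Nat.gcd d0 d1 :=
        (Nat.modEq_iff_dvd' (by omega)).2 (by
          rw [show m - (m - d0) = d0 by omega]; exact Nat.gcd_dvd_left _ _)
      have c1 : (m - d1) % Nat.gcd d0 d1 = m % Nat.gcd d0 d1 :=
        (Nat.modEq_iff_dvd' (by omega)).2 (by
          rw [show m - (m - d1) = d1 by omega]; exact Nat.gcd_dvd_right _ _)
      have := per_congr hg (i := m - d0) (j := m - d1) (by omega) (by omega) (by rw [c0, c1])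
      rw [e0, e1] at this
      exact Bool.noConfusion this

/-- Every period set of a word whose first and last letters agree is the period set of a binary
palindrome of the same length. -/
theorem pal_exists {α : Type*} (u : ℕ → α) : ∀ N, 1 ≤ N → u (N - 1) = u 0 →
    ∃ w : ℕ → Bool, (∀ j, j < N → w (N - 1 - j) = w j) ∧
      ∀ g, 1 ≤ g → g < N → (Per w N g ↔ Per u N g) := by
  classical
  intro N
  induction N using Nat.strong_induction_on with
  | _ N ih =>
    intro hN hu
    rcases Nat.lt_or_ge N 2 with hN2 | hN2
    · exact ⟨fun _ => false, fun _ _ => rfl, fun g h1 h2 => by omega⟩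
    · have hex : ∃ g, 1 ≤ g ∧ g < N ∧ Per u N g := by
        refine ⟨N - 1, by omega, by omega, ?_⟩
        intro i hi
        have : i = 0 := by omega
        subst this
        simpa using hu
      obtain ⟨hp1, hp2, hp3⟩ := Nat.find_spec hex
      have hmin : ∀ g, g < Nat.find hex → ¬ (1 ≤ g ∧ g < N ∧ Per u N g) :=
        fun g hg => Nat.find_min hex hg
      set p := Nat.find hex with hpdef
      clear_value p
      obtain ⟨m, hm⟩ : ∃ m, N = m + p := ⟨N - p, by omega⟩
      subst hm
      have hm1 : 1 ≤ m := by omega
      have hum : u (m - 1) = u 0 := by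
        have := hp3 (m - 1) (by omega)
        rw [show m - 1 + p = m + p - 1 by omega, hu] at this
        exact this.symm
      obtain ⟨v, hv1, hv2⟩ := ih m (by omega) hm1 hum
      -- it is enough to have a palindrome with prefix `v` and least period `p`
      have suff : ∀ w : ℕ → Bool, (∀ j, j < m → w j = v j) → Per w (m + p) p →
          (∀ q, 1 ≤ q → q < p → ¬ Per w (m + p) q) →
          ∀ g, 1 ≤ g → g < m + p → (Per w (m + p) g ↔ Per u (m + p) g) := by
        intro w hw1 hw2 hw3 g hg1 hg2
        rcases Nat.lt_trichotomy g p with h | h | h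
        · constructor
          · intro hh; exact absurd hh (hw3 g hg1 h)
          · intro hh; exact absurd ⟨hg1, hg2, hh⟩ (hmin g h)
        · subst h; exact ⟨fun _ => hp3, fun _ => hw2⟩
        · rw [per_shift hw2 (le_of_lt h), per_shift hp3 (le_of_lt h),
            show m + p - p = m by omega, ← hv2 (g - p) (by omega) (by omega)]
          constructor
          · intro hh i hi
            rw [← hw1 _ hi, ← hw1 i (by omega)]
            exact hh i hi
          · intro hh i hi
            rw [hw1 _ hi, hw1 i (by omega)]
            exact hh i hi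
      rcases Nat.lt_or_ge m p with hmp | hmp
      · obtain ⟨c, hc⟩ := W_good (v := v) hm1 hmp
        refine ⟨W v m p c, ?_, suff _ (fun j hj => W_lo hj) (W_per hmp) hc⟩
        intro j hj
        rcases Nat.lt_or_ge j m with h1 | h1
        · rw [W_lo h1, W_hi (by omega) (by omega),
            show m + p - 1 - j - p = m - 1 - j by omega]
          exact hv1 j h1
        · rcases Nat.lt_or_ge j p with h2 | h2
          · rw [W_mid h1 h2, W_mid (by omega) (by omega)]
          · rw [W_lo (by omega), W_hi (by omega) h2]
            have := hv1 (j - p) (by omega)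
            rw [← this]
            congr 1; omega
      · -- periodic extension
        have hvp : ∀ j, j < m → v (j % p) = v j := by
          intro j hj
          rcases Nat.lt_or_ge p m with h | h
          · have hper : Per v m p := (hv2 p hp1 h).2 (per_mono hp3 (by omega))
            exact (per_mod hper hj).symm
          · rw [Nat.mod_eq_of_lt (by omega)]
        refine ⟨fun j => v (j % p), ?_, suff _ hvp ?_ ?_⟩
        · -- palindrome
          have key : ∀ j, j < m → v ((m + p - 1 - j) % p) = v (j % p) := by
            intro j hj
            rw [show m + p - 1 - j = m - 1 - j + p by omega, Nat.add_mod_right,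
              hvp _ (by omega), hvp _ hj]
            exact hv1 j hj
          intro j hj
          rcases Nat.lt_or_ge j m with h | h
          · exact key j h
          · have := key (m + p - 1 - j) (by omega)
            rw [show m + p - 1 - (m + p - 1 - j) = j by omega] at this
            exact this.symm
        · intro i _
          show v ((i + p) % p) = v (i % p)
          rw [Nat.add_mod_right]
        · intro q hq1 hq2 hq
          have hw2 : Per (fun j => v (j % p)) (m + p) p := by
            intro i _
            show v ((i + p) % p) = v (i % p)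
            rw [Nat.add_mod_right]
          have hf := fw hp1 hq1 (by omega) hw2 hq
          have hd := Nat.gcd_dvd_left p q
          have hd' : Nat.gcd p q ≤ q := Nat.gcd_le_right _ hq1
          have hpos : 0 < Nat.gcd p q := Nat.gcd_pos_of_pos_right _ hq1
          set d := Nat.gcd p q
          have hvd : Per v m d := by
            intro i hi
            have e := hf i (by omega)
            show v (i + d) = v i
            have e' : v ((i + d) % p) = v (i % p) := e
            rw [hvp _ hi, hvp _ (by omega)] at e'
            exact e'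
          have hud : Per u m d := (hv2 d hpos (by omega)).1 hvd
          apply hmin d (by omega)
          refine ⟨hpos, by omega, ?_⟩
          intro i hi
          have l1 := Nat.mod_lt (i + d) (show 0 < p by omega)
          have l2 := Nat.mod_lt i (show 0 < p by omega)
          rw [per_mod hp3 hi, per_mod hp3 (i := i) (by omega)]
          apply per_congr hud (by omega) (by omega)
          rw [Nat.mod_mod_of_dvd _ hd, Nat.mod_mod_of_dvd _ hd, Nat.add_mod_right]

end Pool.Agent.Q161.PalPer
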