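import Mathlib
import Pool.Agent.Q161.Hertz
import Pool.Agent.Q161.PalPer

/-!
Hertzsprung patterns: strictness of the comparison, coding of overlap sets by periods of words.
-/

set_option autoImplicit false

namespace Pool.Agent.Q161.Hertz

open Pool.Agent.Q161.PalPer

open Classical in
/-- Strict comparison at length `k + g₀` for an overlap shift `g₀` of `s` which is not one
of `t`. -/
theorem count_lt {k : ℕ} {s t : ℕ → ℕ} (hs : IsP k s) (ht : IsP k t)
    (hm : NoMinus k t) {g₀ : ℕ} (hg1 : 1 ≤ g₀) (hg2 : g₀ < k)
    (hsg : Plus k s g₀) (htg : ¬ Plus k t g₀)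
    (H : ∀ g, g < g₀ → Plus k t g → Plus k s g) :
    (Finset.univ.filter (fun π : Equiv.Perm (Fin (k + g₀)) => ¬ Has k t π)).card <
      (Finset.univ.filter (fun π : Equiv.Perm (Fin (k + g₀)) => ¬ Has k s π)).card := by
  have hk : 1 ≤ k := by omega
  set n := k + g₀ with hn
  have H' : ∀ g, g < k → k + g ≤ n → Plus k t g → Plus k s g := by
    intro g _ h2 h3
    rcases Nat.lt_or_ge g g₀ with h | h
    · exact H g h h3
    · have : g = g₀ := by omega
      subst this
      exact absurd h3 htg
  -- the extra element
  have hslow : ∀ j, j < g₀ → s j < g₀ := by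
    intro j hj
    by_contra hcon
    obtain ⟨j', j1, j2, j3⟩ := top_surj hs hsg (x := s j) (by omega) (hs.lt j (by omega))
    have := hs.inj j' j j2 (by omega) j3
    omega
  set f : ℕ → ℕ := fun j => if j < g₀ then s j else g₀ + t (j - g₀) with hfdef
  have f_lo : ∀ j, j < g₀ → f j = s j := by intro j hj; simp only [hfdef]; rw [if_pos hj]
  have f_hi : ∀ j, g₀ ≤ j → f j = g₀ + t (j - g₀) := by
    intro j hj; simp only [hfdef]; rw [if_neg (by omega)]
  clear_value f
  have hfP : IsP n f := by
    apply isP_of
    · intro j hj
      rcases Nat.lt_or_ge j g₀ with h | h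
      · rw [f_lo j h]; have := hslow j h; omega
      · rw [f_hi j h]; have := ht.lt (j - g₀) (by omega); omega
    · intro a b ha hb hab
      rcases Nat.lt_or_ge a g₀ with h | h
      · rcases Nat.lt_or_ge b g₀ with h' | h'
        · rw [f_lo a h, f_lo b h'] at hab
          exact hs.inj a b (by omega) (by omega) hab
        · rw [f_lo a h, f_hi b h'] at hab
          have := hslow a h; omega
      · rcases Nat.lt_or_ge b g₀ with h' | h'
        · rw [f_hi a h, f_lo b h'] at hab
          have := hslow b h'; omega
        · rw [f_hi a h, f_hi b h'] at hab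
          have := ht.inj (a - g₀) (b - g₀) (by omega) (by omega) (by omega)
          omega
  have hex : ∀ j, j < n → ex (mkPerm f hfP) j = f j := fun j hj => ex_mkPerm f hfP hj
  have hatt : At k t n f g₀ g₀ := by
    refine ⟨by omega, ?_⟩
    intro j hj
    rw [f_hi _ (by omega)]
    congr 2; omega
  set V : Finset (Equiv.Perm (Fin n)) := Finset.univ.filter (fun π => InV k s t π) with hVdef
  have hA : (V.filter (fun π => Has k s π)).card < (V.filter (fun π => Has k t π)).card := by
    have hinj : Set.InjOn (Phi k s t) (↑(V.filter (fun π => Has k s π)) :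
        Set (Equiv.Perm (Fin n))) := by
      intro π hπ π' hπ' hE
      rw [Finset.mem_coe, Finset.mem_filter, hVdef, Finset.mem_filter] at hπ hπ'
      exact Phi_inj hk hs ht hm H' hπ.1.2 hπ.2 hπ'.1.2 hπ'.2 hE
    rw [← Finset.card_image_of_injOn hinj]
    apply Finset.card_lt_card
    rw [Finset.ssubset_iff_of_subset]
    · refine ⟨mkPerm f hfP, ?_, ?_⟩
      · rw [Finset.mem_filter, hVdef, Finset.mem_filter]
        refine ⟨⟨Finset.mem_univ _, ?_⟩, ?_⟩
        · intro i m i' m' hi hi'
          have := hi.1
          have := hi'.1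
          omega
        · exact ⟨g₀, g₀, (At_congr hex).2 hatt⟩
      · rw [Finset.mem_image]
        rintro ⟨π, hπ, hE⟩
        rw [Finset.mem_filter, hVdef, Finset.mem_filter] at hπ
        obtain ⟨p, v, g, hd, hgs, he, h1, h2, h3, h4⟩ := Phi_spec hk hs ht hm H' hπ.1.2 hπ.2
        rw [hE] at he
        have heq : ∀ j, j < n → f j = rep k t (ex π) p v g j := by
          intro j hj
          rw [← hex j hj, he j hj]
        have e1 := h3 _ _ ((At_congr heq).1 hatt)
        have e2 := h2.1
        have hpg : p + g = g₀ := by omega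
        have hvg : v + g = g₀ := by
          have a1 := h2.2 0 (by omega)
          have a2 := hatt.2 0 (by omega)
          rw [hpg, ← heq _ (by omega), a2] at a1
          omega
        have hgt : Plus k t g := hd.cond.1
        have hglt : g < g₀ := by
          by_contra hc
          have : g = g₀ := by omega
          subst this
          exact htg hgt
        have : At k s n (ex π) 0 0 := by
          refine ⟨by omega, ?_⟩
          intro j hj
          rcases Nat.lt_or_ge j g₀ with h | h
          · have e := heq (0 + j) (by omega)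
            rw [rep_out (by omega), f_lo _ (by omega)] at e
            rw [← e]
            simp
          · have e := hd.at_.2 (j - p) (by omega)
            have e3 := hsg (j - g₀) (by omega)
            have e4 := hgs (j - g₀) (by omega)
            rw [show j - g₀ + g₀ = j by omega] at e3
            rw [show j - g₀ + g = j - p by omega] at e4
            rw [show p + (j - p) = 0 + j by omega] at e
            omega
        have := hd.min_ 0 0 this
        omega
    · intro π hπ
      rw [Finset.mem_image] at hπ
      obtain ⟨π', hπ', rfl⟩ := hπ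
      rw [Finset.mem_filter, hVdef, Finset.mem_filter] at hπ'
      rw [Finset.mem_filter, hVdef, Finset.mem_filter]
      have := Phi_maps hk hs ht hm H' hπ'.1.2 hπ'.2
      exact ⟨⟨Finset.mem_univ _, this.1⟩, this.2⟩
  have h1 := Finset.card_filter_add_card_filter_not (s := V) (fun π => Has k s π)
  have h2 := Finset.card_filter_add_card_filter_not (s := V) (fun π => Has k t π)
  have e1 : V.filter (fun π => ¬ Has k s π) =
      Finset.univ.filter (fun π : Equiv.Perm (Fin n) => ¬ Has k s π) := by
    ext π
    rw [Finset.mem_filter, hVdef, Finset.mem_filter, Finset.mem_filter]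
    constructor
    · rintro ⟨⟨h, _⟩, h'⟩; exact ⟨h, h'⟩
    · rintro ⟨h, h'⟩
      exact ⟨⟨h, fun i m i' m' hi _ => absurd ⟨i, m, hi⟩ h'⟩, h'⟩
  have e2 : V.filter (fun π => ¬ Has k t π) =
      Finset.univ.filter (fun π : Equiv.Perm (Fin n) => ¬ Has k t π) := by
    ext π
    rw [Finset.mem_filter, hVdef, Finset.mem_filter, Finset.mem_filter]
    constructor
    · rintro ⟨⟨h, _⟩, h'⟩; exact ⟨h, h'⟩
    · rintro ⟨h, h'⟩
      exact ⟨⟨h, fun i m i' m' _ hi => absurd ⟨i', m', hi⟩ h'⟩, h'⟩
  rw [e1] at h1
  rw [e2] at h2
  omega

/-! ### the overlap set -/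

/-- overlap shifts of either sign -/
def ovl (k : ℕ) (t : ℕ → ℕ) : Set ℕ :=
  {g | 1 ≤ g ∧ g < k ∧ (Plus k t g ∨ Plus k (compl k t) g)}

lemma compl_compl {k : ℕ} {t : ℕ → ℕ} (ht : IsP k t) {j : ℕ} (hj : j < k) :
    compl k (compl k t) j = t j := by
  have := ht.lt j hj
  unfold compl; omega

lemma plus_congr {k : ℕ} {t t' : ℕ → ℕ} (h : ∀ j, j < k → t j = t' j) {g : ℕ} :
    Plus k t g ↔ Plus k t' g := by
  unfold Plus
  constructor
  · intro h' j hj; rw [← h _ hj, ← h j (by omega)]; exact h' j hj
  · intro h' j hj; rw [h _ hj, h j (by omega)]; exact h' j hj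

lemma ovl_compl {k : ℕ} {t : ℕ → ℕ} (ht : IsP k t) : ovl k (compl k t) = ovl k t := by
  ext g
  unfold ovl
  simp only [Set.mem_ofPred_eq]
  rw [plus_congr (t := compl k (compl k t)) (t' := t) (fun j hj => compl_compl ht hj)]
  tauto

lemma minus_iff {k : ℕ} {t : ℕ → ℕ} (ht : IsP k t) {g : ℕ} :
    Plus k (compl k t) g ↔ ∀ j, j + g < k → t (j + g) + g = t j := by
  unfold Plus compl
  constructor
  · intro h j hj
    have := h j hj
    have := ht.lt j (by omega)
    have := ht.lt (j + g) hj
    omega
  · intro h j hj
    have := h j hj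
    have := ht.lt j (by omega)
    omega

lemma ovl_of_noMinus {k : ℕ} {t : ℕ → ℕ} (ht : IsP k t) (hm : NoMinus k t) :
    ovl k t = {g | 1 ≤ g ∧ g < k ∧ Plus k t g} := by
  ext g
  unfold ovl
  simp only [Set.mem_ofPred_eq]
  constructor
  · rintro ⟨h1, h2, h3 | h3⟩
    · exact ⟨h1, h2, h3⟩
    · rw [minus_iff ht] at h3
      exact absurd h3 (hm g h1 h2)
  · rintro ⟨h1, h2, h3⟩
    exact ⟨h1, h2, Or.inl h3⟩

/-! ### coding by words of length `k + 1` -/

/-- the first `j` values are the `j` smallest ones -/
def Cut (s : ℕ → ℕ) (j : ℕ) : Prop := ∀ i, i < j → s i < j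

open Classical in
/-- code word of a permutation -/
noncomputable def code (s : ℕ → ℕ) (j : ℕ) : Option (ℤ × ℤ) :=
  if Cut s j then none else some ((s (j - 1) : ℤ) - ((j - 1 : ℕ) : ℤ), (s j : ℤ) - (j : ℤ))

lemma cut_surj {k : ℕ} {s : ℕ → ℕ} (hs : IsP k s) {j : ℕ} (hj : j ≤ k) (hc : Cut s j) :
    IsP j s :=
  isP_of hc (fun a b ha hb hab => hs.inj a b (by omega) (by omega) hab)

lemma plus_cut {k : ℕ} {s : ℕ → ℕ} (hs : IsP k s) {g : ℕ} (hp : Plus k s g) {j : ℕ}
    (hj : j + g ≤ k) : Cut s (j + g) ↔ Cut s j := by
  constructor
  · intro h i hi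
    have e1 := hp i (by omega)
    have e2 := h (i + g) (by omega)
    omega
  · intro h i hi
    rcases Nat.lt_or_ge i g with hig | hig
    · by_contra hcon
      obtain ⟨j', j1, j2, j3⟩ := top_surj hs hp (x := s i) (by omega) (hs.lt i (by omega))
      have := hs.inj j' i j2 (by omega) j3
      omega
    · have e1 := hp (i - g) (by omega)
      have e2 := h (i - g) (by omega)
      rw [show i - g + g = i by omega] at e1
      omega

lemma code_cut {s : ℕ → ℕ} {j : ℕ} (h : Cut s j) : code s j = none := by
  unfold code; rw [if_pos h]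

lemma code_not {s : ℕ → ℕ} {j : ℕ} (h : ¬ Cut s j) :
    code s j = some ((s (j - 1) : ℤ) - ((j - 1 : ℕ) : ℤ), (s j : ℤ) - (j : ℤ)) := by
  unfold code; rw [if_neg h]

lemma cut_zero (s : ℕ → ℕ) : Cut s 0 := fun i hi => by omega

lemma cut_top {k : ℕ} {s : ℕ → ℕ} (hs : IsP k s) : Cut s k := fun i hi => hs.lt i hi

lemma code_per {k : ℕ} {s : ℕ → ℕ} (hs : IsP k s) {g : ℕ} (h1 : 1 ≤ g) (h2 : g < k) :
    Per (code s) (k + 1) g ↔ Plus k s g := by
  constructor
  · intro h
    have hcut : ∀ j, j + g ≤ k → (Cut s (j + g) ↔ Cut s j) := by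
      intro j hj
      have e := h j (by omega)
      constructor
      · intro hc
        by_contra hn
        rw [code_cut hc, code_not hn] at e
        simp at e
      · intro hc
        by_contra hn
        rw [code_cut hc, code_not hn] at e
        simp at e
    intro j hj
    by_cases hc : Cut s j
    · by_cases hc' : Cut s (j + 1)
      · -- fixed point
        have fix : ∀ i, i < k → Cut s i → Cut s (i + 1) → s i = i := by
          intro i hi c1 c2
          have h3 := c2 i (by omega)
          by_contra hne
          obtain ⟨j', j1, j2⟩ := (cut_surj hs (by omega) c1).surj (s i) (by omega)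
          have := hs.inj j' i (by omega) hi j2
          omega
        have e1 := fix j (by omega) hc hc'
        have e2 := fix (j + g) hj ((hcut j (by omega)).2 hc) (by
          have := (hcut (j + 1) (by omega)).2 hc'
          rwa [show j + 1 + g = j + g + 1 by omega] at this)
        omega
      · have e := h (j + 1) (by omega)
        have hc'' : ¬ Cut s (j + 1 + g) := fun hh => hc' ((hcut (j + 1) (by omega)).1 hh)
        rw [code_not hc', code_not hc''] at e
        have e1 := congrArg Prod.fst (Option.some.inj e)
        simp only [show j + 1 + g - 1 = j + g by omega, show j + 1 - 1 = j by omega] at e1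
        push_cast at e1
        omega
    · have e := h j (by omega)
      have hc'' : ¬ Cut s (j + g) := fun hh => hc ((hcut j (by omega)).1 hh)
      rw [code_not hc, code_not hc''] at e
      have e1 := congrArg Prod.snd (Option.some.inj e)
      simp only at e1
      push_cast at e1
      omega
  · intro hp j hj
    have hcj := plus_cut hs hp (j := j) (by omega)
    by_cases hc : Cut s j
    · rw [code_cut hc, code_cut (hcj.2 hc)]
    · rw [code_not hc, code_not (fun hh => hc (hcj.1 hh))]
      have hj0 : 1 ≤ j := by
        by_contra h0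
        have : j = 0 := by omega
        subst this
        exact hc (cut_zero s)
      have hjk : j + g < k := by
        by_contra h0
        have : j + g = k := by omega
        exact hc (hcj.1 (by rw [this]; exact cut_top hs))
      have e1 := hp (j - 1) (by omega)
      have e2 := hp j hjk
      rw [show j - 1 + g = j + g - 1 by omega] at e1
      rw [e1, e2]
      congr 2
      · push_cast
        have : ((j + g - 1 : ℕ) : ℤ) = ((j - 1 : ℕ) : ℤ) + g := by omega
        rw [this]; ring
      · push_cast; ring

/-! ### permutations from binary words -/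

/-- the last index `≤ j` carrying the letter `w 0` -/
def prev (w : ℕ → Bool) (j : ℕ) : ℕ := Nat.findGreatest (fun i => w i = w 0) j

lemma prev_spec (w : ℕ → Bool) (j : ℕ) : w (prev w j) = w 0 := by
  unfold prev
  exact Nat.findGreatest_spec (P := fun i => w i = w 0) (Nat.zero_le j) rfl

lemma prev_le (w : ℕ → Bool) (j : ℕ) : prev w j ≤ j := Nat.findGreatest_le j

lemma le_prev {w : ℕ → Bool} {i j : ℕ} (h : i ≤ j) (hw : w i = w 0) : i ≤ prev w j :=
  Nat.le_findGreatest h hw

/-- the permutation whose blocks are cyclic shifts -/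
def blk (w : ℕ → Bool) (j : ℕ) : ℕ := if w (j + 1) = w 0 then prev w j else j + 1

lemma blk_cut {w : ℕ → Bool} {j : ℕ} (h : w (j + 1) = w 0) : blk w j = prev w j := by
  unfold blk; rw [if_pos h]

lemma blk_not {w : ℕ → Bool} {j : ℕ} (h : ¬ w (j + 1) = w 0) : blk w j = j + 1 := by
  unfold blk; rw [if_neg h]

lemma blk_isP {w : ℕ → Bool} {k : ℕ} (hk : w k = w 0) : IsP k (blk w) := by
  apply isP_of
  · intro j hj
    by_cases h : w (j + 1) = w 0
    · rw [blk_cut h]; have := prev_le w j; omega
    · rw [blk_not h]
      by_contra hcon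
      have : j + 1 = k := by omega
      rw [this] at h
      exact h hk
  · have key : ∀ a b, a < b → blk w a ≠ blk w b := by
      intro a b hab he
      by_cases ha : w (a + 1) = w 0
      · by_cases hb : w (b + 1) = w 0
        · rw [blk_cut ha, blk_cut hb] at he
          have e1 := prev_le w a
          have e2 := le_prev (w := w) (i := a + 1) (j := b) (by omega) ha
          omega
        · rw [blk_cut ha, blk_not hb] at he
          have e1 := prev_le w a
          omega
      · by_cases hb : w (b + 1) = w 0
        · rw [blk_not ha, blk_cut hb] at he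
          rw [he] at ha
          exact ha (prev_spec w b)
        · rw [blk_not ha, blk_not hb] at he
          omega
    intro a b _ _ hab
    rcases Nat.lt_trichotomy a b with h | h | h
    · exact absurd hab (key a b h)
    · exact h
    · exact absurd hab.symm (key b a h)

lemma blk_cut_iff {w : ℕ → Bool} {k : ℕ} {j : ℕ} (_hj : j ≤ k) :
    Cut (blk w) j ↔ w j = w 0 := by
  constructor
  · intro h
    by_contra hn
    have hj0 : 1 ≤ j := by
      by_contra h0
      have : j = 0 := by omega
      subst this
      exact hn rfl
    have := h (j - 1) (by omega)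
    rw [blk_not (by rwa [show j - 1 + 1 = j by omega])] at this
    omega
  · intro h i hi
    by_cases hc : w (i + 1) = w 0
    · rw [blk_cut hc]; have := prev_le w i; omega
    · rw [blk_not hc]
      by_contra hcon
      have : i + 1 = j := by omega
      rw [this] at hc
      exact hc h

lemma blk_plus {w : ℕ → Bool} {k : ℕ} (hk : w k = w 0) {g : ℕ} (h1 : 1 ≤ g) (h2 : g < k) :
    Plus k (blk w) g ↔ Per w (k + 1) g := by
  constructor
  · intro hp j hj
    have := plus_cut (blk_isP hk) hp (j := j) (by omega)
    rw [blk_cut_iff (k := k) (by omega), blk_cut_iff (k := k) (by omega)] at this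
    cases h3 : w (j + g) <;> cases h4 : w j <;> cases h5 : w 0 <;> simp_all
  · intro h j hj
    have hg0 : w g = w 0 := by
      have := h 0 (by omega)
      rwa [Nat.zero_add] at this
    have hst : w (j + g + 1) = w (j + 1) := by
      have := h (j + 1) (by omega)
      rwa [show j + 1 + g = j + g + 1 by omega] at this
    by_cases hc : w (j + 1) = w 0
    · rw [blk_cut hc, blk_cut (by rw [hst]; exact hc)]
      have e1 : prev w j + g ≤ prev w (j + g) := by
        apply le_prev (by have := prev_le w j; omega)
        rw [h (prev w j) (by have := prev_le w j; omega)]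
        exact prev_spec w j
      have e2 : g ≤ prev w (j + g) := le_prev (by omega) hg0
      have e3 : prev w (j + g) - g ≤ prev w j := by
        apply le_prev (by have := prev_le w (j + g); omega)
        have := h (prev w (j + g) - g) (by have := prev_le w (j + g); omega)
        rw [show prev w (j + g) - g + g = prev w (j + g) by omega, prev_spec w] at this
        exact this.symm
      omega
    · rw [blk_not hc, blk_not (by rw [hst]; exact hc)]
      omega

lemma blk_noMinus {w : ℕ → Bool} {k : ℕ} (hk3 : 3 ≤ k) :
    NoMinus k (blk w) := by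
  intro h h1 h2 hall
  have e0 := hall 0 (by omega)
  have hb0 : blk w 0 ≤ 1 := by
    by_cases hc : w (0 + 1) = w 0
    · rw [blk_cut hc]; have := prev_le w 0; omega
    · rw [blk_not hc]
  have hh : h = 1 := by omega
  subst hh
  have e1 := hall 1 (by omega)
  rw [Nat.zero_add] at e0
  omega

end Pool.Agent.Q161.Hertz
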