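import Mathlib

/-! Building permutations by appending a last value. -/

set_option autoImplicit false

namespace Q161.Insert

open Finset

variable {n : ℕ}

/-- append the value `x` to `τ` (the values of `τ` that are at least `x` are increased by one) -/
def ins (x : Fin (n + 1)) (τ : Equiv.Perm (Fin n)) : Equiv.Perm (Fin (n + 1)) :=
  (finSuccEquiv' (Fin.last n)).trans ((Equiv.optionCongr τ).trans (finSuccEquiv' x).symm)

@[simp] theorem ins_last (x : Fin (n + 1)) (τ : Equiv.Perm (Fin n)) :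
    ins x τ (Fin.last n) = x := by
  simp [ins]

@[simp] theorem ins_castSucc (x : Fin (n + 1)) (τ : Equiv.Perm (Fin n)) (i : Fin n) :
    ins x τ i.castSucc = x.succAbove (τ i) := by
  unfold ins
  rw [Equiv.trans_apply, Equiv.trans_apply, ← Fin.succAbove_last_apply, finSuccEquiv'_succAbove]
  simp

theorem ins_bijective : Function.Bijective
    (fun p : Fin (n + 1) × Equiv.Perm (Fin n) => ins p.1 p.2) := by
  rw [Fintype.bijective_iff_injective_and_card]
  constructor
  · rintro ⟨x, τ⟩ ⟨y, σ⟩ h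
    simp only at h
    have h1 : x = y := by
      rw [← ins_last x τ, ← ins_last y σ, h]
    subst h1
    have h2 : τ = σ := by
      ext i
      have := congrArg (fun ρ : Equiv.Perm (Fin (n + 1)) => ρ i.castSucc) h
      simp only [ins_castSucc] at this
      exact congrArg Fin.val (Fin.succAbove_right_injective this)
    rw [h2]
  · rw [Fintype.card_prod, Fintype.card_perm, Fintype.card_perm, Fintype.card_fin,
      Fintype.card_fin, Nat.factorial_succ]

/-- the decomposition of `S_{n+1}` by the last value -/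
noncomputable def insEquiv (n : ℕ) :
    Fin (n + 1) × Equiv.Perm (Fin n) ≃ Equiv.Perm (Fin (n + 1)) :=
  Equiv.ofBijective _ ins_bijective

@[simp] theorem insEquiv_apply (p : Fin (n + 1) × Equiv.Perm (Fin n)) :
    insEquiv n p = ins p.1 p.2 := rfl

theorem sum_ins {M : Type*} [AddCommMonoid M] (f : Equiv.Perm (Fin (n + 1)) → M) :
    ∑ σ, f σ = ∑ τ : Equiv.Perm (Fin n), ∑ x : Fin (n + 1), f (ins x τ) := by
  rw [← Equiv.sum_comp (insEquiv n), Fintype.sum_prod_type, Finset.sum_comm]
  rfl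

theorem exists_ins (σ : Equiv.Perm (Fin (n + 1))) : ∃ x τ, ins x τ = σ := by
  obtain ⟨⟨x, τ⟩, h⟩ := ins_bijective.2 σ
  exact ⟨x, τ, h⟩

theorem ins_val_lt (x : Fin (n + 1)) (τ : Equiv.Perm (Fin n)) (i : ℕ) (hi : i < n) :
    ((ins x τ ⟨i, by omega⟩ : Fin (n + 1)) : ℕ) =
      if ((τ ⟨i, hi⟩ : Fin n) : ℕ) < x then ((τ ⟨i, hi⟩ : Fin n) : ℕ)
      else ((τ ⟨i, hi⟩ : Fin n) : ℕ) + 1 := by
  have h := ins_castSucc x τ ⟨i, hi⟩
  rw [show (⟨i, by omega⟩ : Fin (n + 1)) = (⟨i, hi⟩ : Fin n).castSucc from rfl, h]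
  unfold Fin.succAbove
  simp only [Fin.lt_def, Fin.val_castSucc]
  split_ifs <;> rfl

end Q161.Insert
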