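import Mathlib

/-! Interlacing of real polynomials from a sign condition on the upper half-plane. -/

set_option autoImplicit false

namespace Q161.Interlace

open Polynomial Filter Topology

/-- a real polynomial without zeros in the open upper half-plane is a product of real linear
factors -/
theorem exists_roots {f : ℝ[X]} (h : ∀ z : ℂ, 0 < z.im → aeval z f ≠ 0) :
    ∃ s : Multiset ℝ, f = C f.leadingCoeff * (s.map (fun r => X - C r)).prod := by
  by_cases hf0 : f = 0
  · exact ⟨0, by simp [hf0]⟩
  have hreal : ∀ w ∈ (f.map (algebraMap ℝ ℂ)).roots, w.im = 0 := by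
    intro w hw
    rw [mem_roots (by simpa using hf0), IsRoot.def, eval_map_algebraMap] at hw
    rcases lt_trichotomy w.im 0 with h1 | h1 | h1
    · exfalso
      apply h (starRingEnd ℂ w) (by simpa using h1)
      have : aeval (starRingEnd ℂ w) f = starRingEnd ℂ (aeval w f) := by
        rw [aeval_conj]
      rw [this, hw, map_zero]
    · exact h1
    · exact absurd hw (h w h1)
  refine ⟨(f.map (algebraMap ℝ ℂ)).roots.map Complex.re, ?_⟩
  apply Polynomial.map_injective (algebraMap ℝ ℂ) Complex.ofReal_injective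
  have hsplit := IsAlgClosed.splits (f.map (algebraMap ℝ ℂ))
  have h1 := hsplit.eq_prod_roots
  rw [leadingCoeff_map] at h1
  rw [Polynomial.map_mul, map_C, Polynomial.map_multiset_prod, Multiset.map_map, Multiset.map_map]
  conv_lhs => rw [h1]
  congr 2
  apply Multiset.map_congr rfl
  intro w hw
  simp only [Function.comp_apply, Polynomial.map_sub, map_X, map_C]
  congr 2
  have := hreal w hw
  apply Complex.ext
  · simp
  · simp [this]

/-- sum of the arguments -/
noncomputable def th (s : Multiset ℝ) (z : ℂ) : ℝ := (s.map (fun r : ℝ => (z - r).arg)).sum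

theorem prod_eq (s : Multiset ℝ) {z : ℂ} (hz : 0 < z.im) :
    ∃ ρ : ℝ, 0 < ρ ∧ (s.map (fun r : ℝ => z - (r : ℂ))).prod = ρ * Complex.exp (th s z * Complex.I) := by
  induction s using Multiset.induction_on with
  | empty => exact ⟨1, one_pos, by simp [th]⟩
  | cons r s ih =>
    obtain ⟨ρ, h1, h2⟩ := ih
    have hne : z - (r : ℂ) ≠ 0 := by
      intro h
      have := congrArg Complex.im h
      simp at this
      linarith
    refine ⟨‖z - (r : ℂ)‖ * ρ, mul_pos (norm_pos_iff.2 hne) h1, ?_⟩
    have h3 : th (r ::ₘ s) z = (z - r).arg + th s z := by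
      unfold th; rw [Multiset.map_cons, Multiset.sum_cons]
    rw [Multiset.map_cons, Multiset.prod_cons, h2, h3]
    push_cast
    rw [add_mul, Complex.exp_add]
    conv_lhs => rw [← Complex.norm_mul_exp_arg_mul_I (z - (r : ℂ))]
    ring

theorem th_continuousOn (s : Multiset ℝ) : ContinuousOn (th s) {z : ℂ | 0 < z.im} := by
  unfold th
  induction s using Multiset.induction_on with
  | empty => simpa using continuousOn_const
  | cons r s ih =>
    have : (fun z : ℂ => (Multiset.map (fun r : ℝ => (z - r).arg) (r ::ₘ s)).sum) =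
        fun z : ℂ => (z - r).arg + (Multiset.map (fun r : ℝ => (z - r).arg) s).sum := by
      funext z; rw [Multiset.map_cons, Multiset.sum_cons]
    rw [this]
    apply ContinuousOn.add _ ih
    intro z hz
    have hz' : 0 < z.im := hz
    apply ContinuousAt.continuousWithinAt
    have h1 : ContinuousAt Complex.arg (z - r) := by
      apply Complex.continuousAt_arg
      rw [Complex.mem_slitPlane_iff]
      right
      simp
      exact hz'.ne'
    exact ContinuousAt.comp (g := Complex.arg) (f := fun z : ℂ => z - r) h1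
      (continuous_id.sub continuous_const).continuousAt

theorem th_top (s : Multiset ℝ) :
    Tendsto (fun y : ℝ => th s (y * Complex.I)) atTop (𝓝 ((Multiset.card s : ℝ) * (Real.pi / 2))) := by
  unfold th
  induction s using Multiset.induction_on with
  | empty => simpa using tendsto_const_nhds
  | cons r s ih =>
    have : (fun y : ℝ => (Multiset.map (fun r : ℝ => ((y : ℂ) * Complex.I - r).arg) (r ::ₘ s)).sum) =
        fun y : ℝ => ((y : ℂ) * Complex.I - r).arg +
          (Multiset.map (fun r : ℝ => ((y : ℂ) * Complex.I - r).arg) s).sum := by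
      funext z; rw [Multiset.map_cons, Multiset.sum_cons]
    rw [this, Multiset.card_cons]
    push_cast
    rw [add_mul, add_comm, one_mul]
    apply Tendsto.add _ ih
    have h1 : Tendsto (fun y : ℝ => (Complex.I - ((r / y : ℝ) : ℂ)).arg) atTop (𝓝 (Real.pi / 2)) := by
      have h2 : Tendsto (fun y : ℝ => Complex.I - ((r / y : ℝ) : ℂ)) atTop (𝓝 (Complex.I)) := by
        have h3 : Tendsto (fun y : ℝ => ((r / y : ℝ) : ℂ)) atTop (𝓝 ((0 : ℝ) : ℂ)) :=
          (Complex.continuous_ofReal.tendsto 0).comp (tendsto_const_nhds.div_atTop tendsto_id)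
        have h4 := (tendsto_const_nhds (x := Complex.I)).sub h3
        simpa using h4
      have h5 : ContinuousAt Complex.arg Complex.I := by
        apply Complex.continuousAt_arg
        rw [Complex.mem_slitPlane_iff]; right; simp
      have h6 := h5.tendsto.comp h2
      rw [Complex.arg_I] at h6
      exact h6
    refine h1.congr' ?_
    filter_upwards [eventually_gt_atTop 0] with y hy
    have h7 : (y : ℂ) * Complex.I - r = (y : ℝ) * (Complex.I - ((r / y : ℝ) : ℂ)) := by
      have : (y : ℂ) ≠ 0 := by exact_mod_cast hy.ne'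
      push_cast
      field_simp
    rw [h7, Complex.arg_real_mul _ hy]

/-- number of elements larger than `x` -/
noncomputable def cgt (s : Multiset ℝ) (x : ℝ) : ℕ := s.countP (fun r => x < r)

theorem th_real (s : Multiset ℝ) (x : ℝ) (hx : x ∉ s) :
    Tendsto (fun y : ℝ => th s (x + y * Complex.I)) (𝓝[>] 0) (𝓝 ((cgt s x : ℝ) * Real.pi)) := by
  unfold th cgt
  induction s using Multiset.induction_on with
  | empty => simpa using tendsto_const_nhds
  | cons r s ih =>
    rw [Multiset.mem_cons, not_or] at hx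
    have ih' := ih hx.2
    have : (fun y : ℝ => (Multiset.map (fun r : ℝ => ((x : ℂ) + y * Complex.I - r).arg)
        (r ::ₘ s)).sum) = fun y : ℝ => ((x : ℂ) + y * Complex.I - r).arg +
          (Multiset.map (fun r : ℝ => ((x : ℂ) + y * Complex.I - r).arg) s).sum := by
      funext z; rw [Multiset.map_cons, Multiset.sum_cons]
    rw [this]
    have hpath : Tendsto (fun y : ℝ => (x : ℂ) + y * Complex.I - r) (𝓝[>] 0)
        (𝓝[{z : ℂ | 0 ≤ z.im}] ((x - r : ℝ) : ℂ)) := by
      apply tendsto_nhdsWithin_of_tendsto_nhds_of_eventually_within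
      · have h1 : Continuous (fun y : ℝ => (x : ℂ) + y * Complex.I - r) := by fun_prop
        have h2 := h1.tendsto 0
        simp only [Complex.ofReal_zero, zero_mul, add_zero] at h2
        rw [Complex.ofReal_sub]
        exact h2.mono_left nhdsWithin_le_nhds
      · filter_upwards [self_mem_nhdsWithin] with y hy
        simp
        exact le_of_lt hy
    rcases lt_or_gt_of_ne hx.1 with h | h
    · rw [Multiset.countP_cons_of_pos _ h]
      push_cast
      rw [add_mul, add_comm, one_mul]
      apply Tendsto.add _ ih'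
      have h1 : Tendsto Complex.arg (𝓝[{z : ℂ | 0 ≤ z.im}] ((x - r : ℝ) : ℂ)) (𝓝 Real.pi) :=
        Complex.tendsto_arg_nhdsWithin_im_nonneg_of_re_neg_of_im_zero (by simpa using h) (by simp)
      exact h1.comp hpath
    · rw [Multiset.countP_cons_of_neg _ (not_lt.2 h.le)]
      rw [← zero_add ((Multiset.countP (fun r => x < r) s : ℝ) * Real.pi)]
      apply Tendsto.add _ ih'
      have h1 : Tendsto Complex.arg (𝓝 ((x - r : ℝ) : ℂ)) (𝓝 0) := by
        have h2 : ContinuousAt Complex.arg ((x - r : ℝ) : ℂ) := by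
          apply Complex.continuousAt_arg
          rw [Complex.mem_slitPlane_iff]; left; simpa using h
        have h3 := h2.tendsto
        rwa [Complex.arg_ofReal_of_nonneg (by linarith)] at h3
      exact (h1.mono_left nhdsWithin_le_nhds).comp hpath

theorem aeval_prod (a : ℝ) (s : Multiset ℝ) (z : ℂ) :
    aeval z (C a * (s.map (fun r => X - C r)).prod) = a * (s.map (fun r : ℝ => z - (r : ℂ))).prod := by
  rw [map_mul, aeval_C]
  congr 1
  induction s using Multiset.induction_on with
  | empty => simp
  | cons r s ih =>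
    rw [Multiset.map_cons, Multiset.prod_cons, map_mul, ih, Multiset.map_cons, Multiset.prod_cons]
    simp

/-- the main counting statement -/
theorem count_of_im {a b : ℝ} (ha : 0 < a) (hb : 0 < b) {s t : Multiset ℝ}
    (hcard : Multiset.card t = Multiset.card s + 1)
    (h : ∀ z : ℂ, 0 < z.im → 0 < (aeval z (C b * (t.map (fun r => X - C r)).prod) *
      starRingEnd ℂ (aeval z (C a * (s.map (fun r => X - C r)).prod))).im) :
    ∀ x : ℝ, x ∉ s → x ∉ t → cgt s x ≤ cgt t x ∧ cgt t x ≤ cgt s x + 1 := by
  -- the difference of the arguments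
  let D : ℂ → ℝ := fun z => th t z - th s z
  have hsin : ∀ z : ℂ, 0 < z.im → 0 < Real.sin (D z) := by
    intro z hz
    have h1 := h z hz
    obtain ⟨ρ, hρ, h2⟩ := prod_eq t hz
    obtain ⟨ρ', hρ', h3⟩ := prod_eq s hz
    rw [aeval_prod, aeval_prod, h2, h3] at h1
    have h4 : ((b : ℂ) * (ρ * Complex.exp (th t z * Complex.I)) *
        (starRingEnd ℂ) ((a : ℂ) * (ρ' * Complex.exp (th s z * Complex.I)))) =
        ((b * ρ * (a * ρ') : ℝ) : ℂ) * Complex.exp (((D z : ℝ) : ℂ) * Complex.I) := by
      have h5 : (starRingEnd ℂ) (Complex.exp (th s z * Complex.I)) =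
          Complex.exp (-(th s z * Complex.I)) := by
        rw [← Complex.exp_conj]; simp
      simp only [map_mul, Complex.conj_ofReal, h5, D]
      push_cast
      rw [sub_mul, sub_eq_add_neg, Complex.exp_add]
      ring
    rw [h4, Complex.im_ofReal_mul, Complex.exp_ofReal_mul_I_im] at h1
    have h6 : 0 < b * ρ * (a * ρ') := by positivity
    exact (mul_pos_iff_of_pos_left h6).1 h1
  have hcont : ContinuousOn D {z : ℂ | 0 < z.im} := (th_continuousOn t).sub (th_continuousOn s)
  have hpre : IsPreconnected {z : ℂ | 0 < z.im} := (convex_halfSpace_im_gt 0).isPreconnected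
  -- a point with `D ∈ (0, π)`
  obtain ⟨z0, hz0, hD0⟩ : ∃ z0 : ℂ, 0 < z0.im ∧ D z0 ∈ Set.Ioo 0 Real.pi := by
    have h1 : Tendsto (fun y : ℝ => D (y * Complex.I)) atTop (𝓝 (Real.pi / 2)) := by
      have h2 := (th_top t).sub (th_top s)
      rw [hcard] at h2
      have h3 : ((Multiset.card s + 1 : ℕ) : ℝ) * (Real.pi / 2) - (Multiset.card s : ℝ) * (Real.pi / 2)
          = Real.pi / 2 := by push_cast; ring
      rw [h3] at h2
      exact h2
    have hmem : Set.Ioo 0 Real.pi ∈ 𝓝 (Real.pi / 2) :=
      Ioo_mem_nhds (by positivity) (by linarith [Real.pi_pos])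
    obtain ⟨y, hy1, hy2⟩ := ((h1.eventually hmem).and (eventually_gt_atTop 0)).exists
    exact ⟨y * Complex.I, by simpa using hy2, hy1⟩
  have hall : ∀ z : ℂ, 0 < z.im → D z ∈ Set.Ioo 0 Real.pi := by
    intro z hz
    by_contra hc
    rw [Set.mem_Ioo, not_and_or, not_lt, not_lt] at hc
    rcases hc with hc | hc
    · obtain ⟨w, hw, hw'⟩ := hpre.intermediate_value (a := z) (b := z0) hz hz0 hcont
        (⟨hc, hD0.1.le⟩ : (0 : ℝ) ∈ Set.Icc (D z) (D z0))
      have := hsin w hw
      rw [hw', Real.sin_zero] at this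
      exact lt_irrefl _ this
    · obtain ⟨w, hw, hw'⟩ := hpre.intermediate_value (a := z0) (b := z) hz0 hz hcont
        (⟨hD0.2.le, hc⟩ : Real.pi ∈ Set.Icc (D z0) (D z))
      have := hsin w hw
      rw [hw', Real.sin_pi] at this
      exact lt_irrefl _ this
  intro x hxs hxt
  have hlim : Tendsto (fun y : ℝ => D (x + y * Complex.I)) (𝓝[>] 0)
      (𝓝 ((cgt t x : ℝ) * Real.pi - (cgt s x : ℝ) * Real.pi)) :=
    (th_real t x hxt).sub (th_real s x hxs)
  have hev : ∀ᶠ y : ℝ in 𝓝[>] 0, D (x + y * Complex.I) ∈ Set.Icc 0 Real.pi := by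
    filter_upwards [self_mem_nhdsWithin] with y hy
    have := hall (x + y * Complex.I) (by simpa using hy)
    exact ⟨this.1.le, this.2.le⟩
  have hmem := isClosed_Icc.mem_of_tendsto hlim hev
  rw [← sub_mul] at hmem
  have hpi := Real.pi_pos
  constructor
  · have h1 : (0 : ℝ) ≤ (cgt t x : ℝ) - cgt s x := by
      by_contra hc
      push Not at hc
      have := mul_neg_of_neg_of_pos hc hpi
      linarith [hmem.1]
    exact_mod_cast sub_nonneg.1 h1
  · have h1 : (cgt t x : ℝ) - cgt s x ≤ 1 := by
      by_contra hc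
      push Not at hc
      have := mul_lt_mul_of_pos_right hc hpi
      linarith [hmem.2]
    have h2 : (cgt t x : ℝ) ≤ cgt s x + 1 := by linarith
    exact_mod_cast h2

/-! ### sorted lists -/

theorem countP_ge {L : List ℝ} (hL : L.Pairwise (· ≥ ·)) {i : ℕ} (hi : i < L.length) {x : ℝ}
    (hx : x < L[i]) : i + 1 ≤ L.countP (fun r => decide (x < r)) := by
  have h1 : (L.take (i + 1)).countP (fun r => decide (x < r)) = i + 1 := by
    rw [List.countP_eq_length.2, List.length_take]
    · omega
    · intro a ha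
      rw [List.mem_take_iff_getElem] at ha
      obtain ⟨j, hj, rfl⟩ := ha
      rw [decide_eq_true_iff]
      have hj' : j ≤ i := by omega
      have hjl : j < L.length := by omega
      have : L[i] ≤ L[j] := by
        rcases Nat.lt_or_eq_of_le hj' with h | h
        · exact (List.pairwise_iff_getElem.1 hL) j i hjl hi h
        · subst h; exact le_refl _
      exact lt_of_lt_of_le hx this
  rw [← h1]
  exact List.Sublist.countP_le (List.take_sublist _ _)

theorem countP_le {L : List ℝ} (hL : L.Pairwise (· ≥ ·)) {i : ℕ} (hi : i < L.length) {x : ℝ}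
    (hx : L[i] < x) : L.countP (fun r => decide (x < r)) ≤ i := by
  have h1 : (L.drop i).countP (fun r => decide (x < r)) = 0 := by
    rw [List.countP_eq_zero]
    intro a ha
    rw [List.mem_drop_iff_getElem] at ha
    obtain ⟨j, hj, rfl⟩ := ha
    rw [decide_eq_true_iff, not_lt]
    have hjl : i + j < L.length := by omega
    have : L[i + j] ≤ L[i] := by
      rcases Nat.eq_zero_or_pos j with h | h
      · subst h; simp
      · exact (List.pairwise_iff_getElem.1 hL) i (i + j) hi hjl (by omega)
    linarith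
  have h2 : L.countP (fun r => decide (x < r)) =
      (L.take i).countP (fun r => decide (x < r)) + (L.drop i).countP (fun r => decide (x < r)) := by
    rw [← List.countP_append, List.take_append_drop]
  rw [h2, h1, add_zero]
  exact (List.countP_le_length).trans (by simp)

theorem exists_between_avoid {a b : ℝ} (hab : a < b) (F : Set ℝ) (hF : F.Finite) :
    ∃ x, a < x ∧ x < b ∧ x ∉ F := by
  have : (Set.Ioo a b \ F).Nonempty := ((Set.Ioo_infinite hab).sdiff hF).nonempty
  obtain ⟨x, hx1, hx2⟩ := this
  exact ⟨x, hx1.1, hx1.2, hx2⟩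

/-- the chain of inequalities between the sorted lists of roots -/
theorem chain_of_count {Ls Lt : List ℝ} (hs : Ls.Pairwise (· ≥ ·)) (ht : Lt.Pairwise (· ≥ ·))
    (h : ∀ x : ℝ, x ∉ Ls → x ∉ Lt →
      Ls.countP (fun r => decide (x < r)) ≤ Lt.countP (fun r => decide (x < r)) ∧
      Lt.countP (fun r => decide (x < r)) ≤ Ls.countP (fun r => decide (x < r)) + 1) :
    (∀ (i : ℕ) (hi : i < Ls.length) (hi' : i < Lt.length), Ls[i] ≤ Lt[i]) ∧
    (∀ (i : ℕ) (hi : i < Ls.length) (hi' : i + 1 < Lt.length), Lt[i + 1] ≤ Ls[i]) := by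
  have hfin : ({x | x ∈ Ls} ∪ {x | x ∈ Lt} : Set ℝ).Finite :=
    (List.finite_toSet Ls).union (List.finite_toSet Lt)
  constructor
  · intro i hi hi'
    by_contra hc
    push Not at hc
    obtain ⟨x, hx1, hx2, hx3⟩ := exists_between_avoid hc _ hfin
    rw [Set.mem_union, not_or] at hx3
    have h1 := (h x hx3.1 hx3.2).1
    have h2 := countP_ge hs hi hx2
    have h3 := countP_le ht hi' hx1
    omega
  · intro i hi hi'
    by_contra hc
    push Not at hc
    obtain ⟨x, hx1, hx2, hx3⟩ := exists_between_avoid hc _ hfin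
    rw [Set.mem_union, not_or] at hx3
    have h1 := (h x hx3.1 hx3.2).2
    have h2 := countP_le hs hi hx1
    have h3 := countP_ge ht hi' hx2
    omega

/-- interlacing from the sign condition on the upper half-plane -/
theorem interlace {f g : ℝ[X]} (hf : 0 < f.leadingCoeff) (hg : 0 < g.leadingCoeff)
    (hdeg : g.natDegree = f.natDegree + 1)
    (hfn : ∀ z : ℂ, 0 < z.im → aeval z f ≠ 0)
    (h : ∀ z : ℂ, 0 < z.im → 0 < (aeval z g * starRingEnd ℂ (aeval z f)).im) :
    Multiset.card f.roots = f.natDegree ∧ Multiset.card g.roots = g.natDegree ∧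
    (∀ (i : ℕ) (hi : i < (f.roots.sort (· ≥ ·)).length) (hi' : i < (g.roots.sort (· ≥ ·)).length),
      (f.roots.sort (· ≥ ·))[i] ≤ (g.roots.sort (· ≥ ·))[i]) ∧
    (∀ (i : ℕ) (hi : i < (f.roots.sort (· ≥ ·)).length)
      (hi' : i + 1 < (g.roots.sort (· ≥ ·)).length),
      (g.roots.sort (· ≥ ·))[i + 1] ≤ (f.roots.sort (· ≥ ·))[i]) := by
  have hgn : ∀ z : ℂ, 0 < z.im → aeval z g ≠ 0 := by
    intro z hz h0
    have := h z hz
    rw [h0, zero_mul] at this
    exact lt_irrefl _ this
  obtain ⟨s, hs⟩ := exists_roots hfn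
  obtain ⟨t, ht⟩ := exists_roots hgn
  have hrs : f.roots = s := by
    conv_lhs => rw [hs]
    rw [roots_C_mul _ hf.ne', roots_multiset_prod_X_sub_C]
  have hrt : g.roots = t := by
    conv_lhs => rw [ht]
    rw [roots_C_mul _ hg.ne', roots_multiset_prod_X_sub_C]
  have hcs : Multiset.card s = f.natDegree := by
    conv_rhs => rw [hs]
    rw [natDegree_C_mul hf.ne', natDegree_multiset_prod_X_sub_C_eq_card]
  have hct : Multiset.card t = g.natDegree := by
    conv_rhs => rw [ht]
    rw [natDegree_C_mul hg.ne', natDegree_multiset_prod_X_sub_C_eq_card]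
  have hcount := count_of_im hf hg (s := s) (t := t) (by rw [hct, hcs, hdeg]) (by
    intro z hz
    rw [← hs, ← ht]
    exact h z hz)
  rw [hrs, hrt]
  refine ⟨hcs, hct, ?_⟩
  have key := chain_of_count (Ls := s.sort (· ≥ ·)) (Lt := t.sort (· ≥ ·))
    (Multiset.pairwise_sort s (· ≥ ·)) (Multiset.pairwise_sort t (· ≥ ·)) (by
      intro x hx hx'
      have h1 := hcount x (fun h => hx (by rwa [Multiset.mem_sort]))
        (fun h => hx' (by rwa [Multiset.mem_sort]))
      unfold cgt at h1
      have e1 : s.countP (fun r => x < r) =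
          (s.sort (· ≥ ·)).countP (fun r => decide (x < r)) := by
        conv_lhs => rw [← Multiset.sort_eq s (· ≥ ·)]
        rw [Multiset.coe_countP]
      have e2 : t.countP (fun r => x < r) =
          (t.sort (· ≥ ·)).countP (fun r => decide (x < r)) := by
        conv_lhs => rw [← Multiset.sort_eq t (· ≥ ·)]
        rw [Multiset.coe_countP]
      rw [← e1, ← e2]
      exact h1)
  exact key

end Q161.Interlace
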