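import Pool.Agent.Q161.KeyCore

/-!
# The class of affine families of key polynomials (MP_26ab9b_co, MP_5ec843_co)
-/

namespace Pool.Agent.Q161.Keys

open Filter Finset

variable {R K : Type*} [CommRing R] [Field K] [Algebra R K] (E : Env R K)

/-- The affine family `N γ + δ`. -/
def affv (γ δ : ℕ → ℤ) (N : ℕ) : ℕ → ℤ := fun i => N * γ i + δ i

theorem sw_affv (γ δ : ℕ → ℤ) (N i : ℕ) : sw (affv γ δ N) i = affv (sw γ i) (sw δ i) N := rfl

theorem bump_affv (γ δ : ℕ → ℤ) (N j : ℕ) (c : ℤ) :
    Env.bump (affv γ δ N) j c = affv γ (Env.bump δ j c) N := by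
  funext i
  unfold Env.bump affv
  ring

theorem aff_tri (a b c d : ℤ) :
    (∀ᶠ N : ℕ in atTop, (N : ℤ) * a + b < N * c + d) ∨
    (∀ N : ℕ, (N : ℤ) * a + b = N * c + d) ∨
    (∀ᶠ N : ℕ in atTop, (N : ℤ) * c + d < N * a + b) := by
  have key : ∀ a b c d : ℤ, a < c → ∀ᶠ N : ℕ in atTop, (N : ℤ) * a + b < N * c + d := by
    intro a b c d h
    filter_upwards [eventually_gt_atTop (b - d).toNat] with N hN
    have h1 : (N : ℤ) * 1 ≤ N * (c - a) :=
      mul_le_mul_of_nonneg_left (by omega) (by positivity)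
    have h2 : b - d < N := by omega
    nlinarith
  rcases lt_trichotomy a c with h | h | h
  · exact Or.inl (key a b c d h)
  · subst h
    rcases lt_trichotomy b d with h | h | h
    · exact Or.inl (Eventually.of_forall fun N => by omega)
    · exact Or.inr (Or.inl fun N => by rw [h])
    · exact Or.inr (Or.inr (Eventually.of_forall fun N => by omega))
  · exact Or.inr (Or.inr (key c d a b h))

namespace Env

/-- The submodule of families that are eventually combinations of affine families of keys. -/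
def Aff (h : ℕ) : Submodule R (ℕ → K) :=
  Submodule.span R ({F | ∃ γ δ : ℕ → ℤ, F = fun N => E.key h (affv γ δ N)} ∪
    {F | ∀ᶠ N in atTop, F N = 0})

theorem aff_key (h : ℕ) (γ δ : ℕ → ℤ) : (fun N => E.key h (affv γ δ N)) ∈ E.Aff h :=
  Submodule.subset_span (Or.inl ⟨γ, δ, rfl⟩)

theorem aff_congr {h : ℕ} {F G : ℕ → K} (hF : F ∈ E.Aff h) (hFG : ∀ᶠ N in atTop, G N = F N) :
    G ∈ E.Aff h := by
  have h1 : (fun N => G N - F N) ∈ E.Aff h := by
    apply Submodule.subset_span
    right
    filter_upwards [hFG] with N hN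
    rw [hN, sub_self]
  have h2 := Submodule.add_mem _ hF h1
  have h3 : F + (fun N => G N - F N) = G := by
    funext N
    simp
  rwa [h3] at h2

theorem aff_map {h : ℕ} (L : K → K) (hadd : ∀ f g, L (f + g) = L f + L g)
    (hsmul : ∀ (r : R) f, L (r • f) = r • L f)
    (hL : ∀ γ δ : ℕ → ℤ, (fun N => L (E.key h (affv γ δ N))) ∈ E.Aff h) {F : ℕ → K}
    (hF : F ∈ E.Aff h) : (fun N => L (F N)) ∈ E.Aff h := by
  have hL0 : L 0 = 0 := by
    have := hsmul 0 0
    rwa [zero_smul, zero_smul] at this
  unfold Aff at hF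
  induction hF using Submodule.span_induction with
  | mem F hF =>
    rcases hF with ⟨γ, δ, rfl⟩ | hF
    · exact hL γ δ
    · apply Submodule.subset_span
      right
      filter_upwards [hF] with N hN
      rw [hN, hL0]
  | zero =>
    have : (fun N => L ((0 : ℕ → K) N)) = 0 := by
      funext N
      exact hL0
    rw [this]
    exact Submodule.zero_mem _
  | add F G _ _ hF hG =>
    have : (fun N => L ((F + G) N)) = (fun N => L (F N)) + (fun N => L (G N)) := by
      funext N
      exact hadd _ _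
    rw [this]
    exact Submodule.add_mem _ hF hG
  | smul r F _ hF =>
    have : (fun N => L ((r • F) N)) = r • (fun N => L (F N)) := by
      funext N
      exact hsmul _ _
    rw [this]
    exact Submodule.smul_mem _ _ hF

theorem aff_D {h i : ℕ} (hi : i + 1 < h) {F : ℕ → K} (hF : F ∈ E.Aff h) :
    (fun N => E.D i (F N)) ∈ E.Aff h := by
  refine E.aff_map (E.D i) (E.D_add i) (E.D_smul i) (fun γ δ => ?_) hF
  rcases aff_tri (γ i) (δ i) (γ (i + 1)) (δ (i + 1)) with h1 | h1 | h1
  · refine E.aff_congr (E.aff_key h γ δ) ?_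
    filter_upwards [h1] with N hN
    exact E.D_key_lt ⟨hi, hN⟩
  · refine E.aff_congr (E.aff_key h γ δ) ?_
    filter_upwards with N
    exact E.D_key_eq _ i hi (h1 N)
  · refine E.aff_congr (E.aff_key h (sw γ i) (sw δ i)) ?_
    filter_upwards [h1] with N hN
    rw [E.D_key_gt hi hN]
    rfl

theorem b_mul_eq (f : K) : E.b * f = E.β • f := by
  unfold b
  rw [Algebra.smul_def]

theorem aff_b {h : ℕ} {F : ℕ → K} (hF : F ∈ E.Aff h) : (fun N => E.b * F N) ∈ E.Aff h := by
  have : (fun N => E.b * F N) = E.β • F := by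
    funext N
    exact E.b_mul_eq _
  rw [this]
  exact Submodule.smul_mem _ _ hF

theorem key_bump_of_dom {h j : ℕ} (hj : j < h) {α : ℕ → ℤ} (H : ∀ i, ¬ Asc h α i) {c : ℤ}
    (H' : ∀ i, ¬ Asc h (bump α j c) i) : E.key h (bump α j c) = E.x j ^ c * E.key h α := by
  rw [E.key_dom H, E.key_dom H', E.mon_bump hj]

theorem aff_inv_key_dom {h : ℕ} (γ δ : ℕ → ℤ)
    (H : ∀ᶠ N in atTop, ∀ i, ¬ Asc h (affv γ δ N) i) : ∀ k j, h = j + 1 + k →
    (fun N => (E.x j)⁻¹ * E.key h (affv γ δ N)) ∈ E.Aff h := by
  intro k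
  induction k with
  | zero =>
    intro j hj
    refine E.aff_congr (E.aff_key h γ (bump δ j (-1))) ?_
    filter_upwards [H] with N hN
    rw [← bump_affv, E.key_bump_of_dom (by omega) hN, zpow_neg_one]
    intro i hi
    refine hN i ⟨hi.1, ?_⟩
    have h1 := hi.1
    have h2 := hi.2
    unfold bump at h2
    rw [if_neg (show i ≠ j by omega)] at h2
    split_ifs at h2 <;> omega
  | succ k ih =>
    intro j hj
    rcases aff_tri (γ j) (δ j) (γ (j + 1)) (δ (j + 1)) with h1 | h1 | h1
    · obtain ⟨N, hN1, hN2⟩ := (H.and h1).exists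
      exact absurd ⟨by omega, hN2⟩ (hN1 j)
    · have ih1 := ih (j + 1) (by omega)
      have a1 := E.aff_D (i := j) (by omega) ih1
      have a2 := E.aff_b (E.aff_key h γ δ)
      have a3 := Submodule.sub_mem _ a1 (Submodule.add_mem _ ih1 a2)
      refine E.aff_congr a3 ?_
      filter_upwards with N
      show (E.x j)⁻¹ * E.key h (affv γ δ N) =
        E.D j ((E.x (j + 1))⁻¹ * E.key h (affv γ δ N)) -
          ((E.x (j + 1))⁻¹ * E.key h (affv γ δ N) + E.b * E.key h (affv γ δ N))
      conv_lhs => rw [← E.D_key_eq (affv γ δ N) j (by omega) (h1 N)]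
      rw [E.inv_x_mul_D]
      ring
    · refine E.aff_congr (E.aff_key h γ (bump δ j (-1))) ?_
      filter_upwards [H, h1] with N hN hN1
      rw [← bump_affv, E.key_bump_of_dom (by omega) hN, zpow_neg_one]
      intro i hi
      refine hN i ⟨hi.1, ?_⟩
      have h1 := hi.1
      have h2 := hi.2
      unfold bump at h2
      rcases eq_or_ne i j with rfl | hne
      · rw [if_pos rfl, if_neg (by omega)] at h2
        exfalso
        have h3 : affv γ δ N (i + 1) < affv γ δ N i := hN1
        omega
      · rw [if_neg hne] at h2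
        split_ifs at h2 <;> omega

theorem aff_inv_key {h : ℕ} : ∀ (M : ℕ) (γ δ : ℕ → ℤ),
    (∀ᶠ N in atTop, coinv h (affv γ δ N) ≤ M) → ∀ j < h,
    (fun N => (E.x j)⁻¹ * E.key h (affv γ δ N)) ∈ E.Aff h := by
  intro M
  induction M with
  | zero =>
    intro γ δ hM j hj
    refine E.aff_inv_key_dom γ δ ?_ (h - 1 - j) j (by omega)
    filter_upwards [hM] with N hN i hi
    have := coinv_sw hi
    omega
  | succ M ih =>
    intro γ δ hM j hj
    by_cases H : ∃ i, i + 1 < h ∧ ∀ᶠ N in atTop, affv γ δ N i < affv γ δ N (i + 1)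
    · obtain ⟨i, hi, hlt⟩ := H
      have hM' : ∀ᶠ N in atTop, coinv h (affv (sw γ i) (sw δ i) N) ≤ M := by
        filter_upwards [hM, hlt] with N h1 h2
        have := coinv_sw (h := h) (a := affv γ δ N) (i := i) ⟨hi, h2⟩
        rw [sw_affv] at this
        omega
      have ih' := ih (sw γ i) (sw δ i) hM'
      have kk := E.aff_key h (sw γ i) (sw δ i)
      have hk : ∀ᶠ N in atTop, E.key h (affv γ δ N) =
          E.D i (E.key h (affv (sw γ i) (sw δ i) N)) := by
        filter_upwards [hlt] with N hN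
        exact E.key_asc ⟨hi, hN⟩
      rcases eq_or_ne j i with rfl | h1
      · have a1 := E.aff_D (i := j) hi (ih' (j + 1) hi)
        have a2 := Submodule.sub_mem _ a1 (Submodule.add_mem _ (ih' (j + 1) hi) (E.aff_b kk))
        refine E.aff_congr a2 ?_
        filter_upwards [hk] with N hN
        rw [hN, E.inv_x_mul_D]
        simp only [Pi.sub_apply, Pi.add_apply]
        ring
      · rcases eq_or_ne j (i + 1) with rfl | h2
        · have a1 := E.aff_D (i := i) hi (ih' i (by omega))
          have a2 := Submodule.add_mem _ a1 (Submodule.add_mem _ (ih' (i + 1) hi) (E.aff_b kk))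
          refine E.aff_congr a2 ?_
          filter_upwards [hk] with N hN
          rw [hN, E.inv_x_succ_mul_D]
          simp only [Pi.add_apply]
          ring
        · have a1 := E.aff_D (i := i) hi (ih' j hj)
          refine E.aff_congr a1 ?_
          filter_upwards [hk] with N hN
          rw [hN, E.D_mul i (by rw [map_inv₀, E.t_x_of_ne h1 h2])]
    · refine E.aff_inv_key_dom γ δ ?_ (h - 1 - j) j (by omega)
      have h1 : ∀ i ∈ range h, ∀ᶠ N in atTop, ¬ Asc h (affv γ δ N) i := by
        intro i _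
        by_cases hi : i + 1 < h
        · rcases aff_tri (γ i) (δ i) (γ (i + 1)) (δ (i + 1)) with h1 | h1 | h1
          · exact absurd ⟨i, hi, h1⟩ H
          · exact Eventually.of_forall fun N hA => absurd (h1 N) hA.2.ne
          · filter_upwards [h1] with N hN hA
            exact absurd hA.2 (not_lt.2 (le_of_lt hN))
        · exact Eventually.of_forall fun N hA => hi hA.1
      have h2 := (eventually_all_finset (range h)).2 h1
      filter_upwards [h2] with N hN i hA
      exact hN i (mem_range.2 (by have := hA.1; omega)) hA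

theorem coinv_le (h : ℕ) (a : ℕ → ℤ) : coinv h a ≤ h * h := by
  unfold coinv coinvSet
  refine (card_filter_le _ _).trans ?_
  rw [card_product, card_range]

theorem aff_inv {h j : ℕ} (hj : j < h) {F : ℕ → K} (hF : F ∈ E.Aff h) :
    (fun N => (E.x j)⁻¹ * F N) ∈ E.Aff h :=
  E.aff_map (fun f => (E.x j)⁻¹ * f) (fun f g => mul_add _ f g)
    (fun r f => mul_smul_comm r _ f)
    (fun γ δ => E.aff_inv_key (h * h) γ δ (Eventually.of_forall fun _ => coinv_le h _) j hj) hF

theorem aff_dd {h i : ℕ} (hi : i + 1 < h) {F : ℕ → K} (hF : F ∈ E.Aff h) :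
    (fun N => E.dd i (F N)) ∈ E.Aff h := by
  have := E.aff_D hi (E.aff_inv (j := i) (by omega) hF)
  simpa only [E.dd_eq] using this

/-- The value at `N` of the family given by the coefficients `c`. -/
noncomputable def ev (h : ℕ) (c : ((ℕ → ℤ) × (ℕ → ℤ)) →₀ R) (N : ℕ) : K :=
  c.sum fun p r => r • E.key h (affv p.1 p.2 N)

theorem exists_ev {h : ℕ} {F : ℕ → K} (hF : F ∈ E.Aff h) :
    ∃ c : ((ℕ → ℤ) × (ℕ → ℤ)) →₀ R, ∀ᶠ N in atTop, F N = E.ev h c N := by
  unfold Aff at hF
  induction hF using Submodule.span_induction with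
  | mem F hF =>
    rcases hF with ⟨γ, δ, rfl⟩ | hF
    · refine ⟨Finsupp.single (γ, δ) 1, Eventually.of_forall fun N => ?_⟩
      unfold ev
      rw [Finsupp.sum_single_index (by rw [zero_smul]), one_smul]
    · refine ⟨0, ?_⟩
      filter_upwards [hF] with N hN
      rw [hN]
      unfold ev
      rw [Finsupp.sum_zero_index]
  | zero =>
    refine ⟨0, Eventually.of_forall fun N => ?_⟩
    unfold ev
    rw [Finsupp.sum_zero_index]
    rfl
  | add F G _ _ hF hG =>
    obtain ⟨c, hc⟩ := hF
    obtain ⟨d, hd⟩ := hG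
    refine ⟨c + d, ?_⟩
    filter_upwards [hc, hd] with N h1 h2
    rw [Pi.add_apply, h1, h2]
    unfold ev
    rw [Finsupp.sum_add_index']
    · intro p; rw [zero_smul]
    · intro p r s; rw [add_smul]
  | smul r F _ hF =>
    obtain ⟨c, hc⟩ := hF
    refine ⟨r • c, ?_⟩
    filter_upwards [hc] with N h1
    rw [Pi.smul_apply, h1]
    unfold ev
    rw [Finsupp.sum_smul_index (by intro p; rw [zero_smul]), Finsupp.smul_sum]
    simp only [smul_smul]

end Env

end Pool.Agent.Q161.Keys
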