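import Mathlib

/-!
# Demazure operators on rational functions: operator identities (MP_26ab9b_co, MP_5ec843_co)
-/

namespace Pool.Agent.Q161.Keys

/-- A field with variables `x 0, x 1, …`, a parameter `β` and an action of the permutations of the
variables. -/
structure Env (R K : Type*) [CommRing R] [Field K] [Algebra R K] where
  x : ℕ → K
  β : R
  s : Equiv.Perm ℕ → K →ₐ[R] K
  s_one : ∀ f, s 1 f = f
  s_mul : ∀ σ τ f, s (σ * τ) f = s σ (s τ f)
  s_x : ∀ σ i, s σ (x i) = x (σ i)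
  x_ne : ∀ i, x i ≠ 0
  x_inj : Function.Injective x

variable {R K : Type*} [CommRing R] [Field K] [Algebra R K] (E : Env R K)

namespace Env

/-- The parameter in the field. -/
def b : K := algebraMap R K E.β

/-- The adjacent transposition. -/
def t (i : ℕ) : K →ₐ[R] K := E.s (Equiv.swap i (i + 1))

theorem t_b (i : ℕ) : E.t i E.b = E.b := by
  unfold t b
  exact AlgHom.commutes _ _

theorem t_t (i : ℕ) (f : K) : E.t i (E.t i f) = f := by
  unfold t
  rw [← E.s_mul, Equiv.swap_mul_self, E.s_one]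

theorem t_x (i : ℕ) : E.t i (E.x i) = E.x (i + 1) := by
  unfold t; rw [E.s_x, Equiv.swap_apply_left]

theorem t_x' (i : ℕ) : E.t i (E.x (i + 1)) = E.x i := by
  unfold t; rw [E.s_x, Equiv.swap_apply_right]

theorem t_x_of_ne {i j : ℕ} (h1 : j ≠ i) (h2 : j ≠ i + 1) : E.t i (E.x j) = E.x j := by
  unfold t; rw [E.s_x, Equiv.swap_apply_of_ne_of_ne h1 h2]

theorem t_comm {i j : ℕ} (h : i + 2 ≤ j) (f : K) : E.t i (E.t j f) = E.t j (E.t i f) := by
  unfold t
  rw [← E.s_mul, ← E.s_mul]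
  congr 2
  apply Equiv.Perm.Disjoint.commute
  apply Equiv.Perm.disjoint_swap_swap
  simp
  omega

theorem t_braid (i : ℕ) (f : K) :
    E.t i (E.t (i + 1) (E.t i f)) = E.t (i + 1) (E.t i (E.t (i + 1) f)) := by
  unfold t
  rw [← E.s_mul, ← E.s_mul, ← E.s_mul, ← E.s_mul]
  congr 2
  have h1 := Equiv.swap_mul_swap_mul_swap (x := i + 2) (y := i + 1) (z := i) (by omega) (by omega)
  have h2 := Equiv.swap_mul_swap_mul_swap (x := i) (y := i + 1) (z := i + 2) (by omega) (by omega)
  rw [Equiv.swap_comm (i + 1) i, Equiv.swap_comm (i + 2) (i + 1), Equiv.swap_comm i (i + 2)] at h1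
  rw [show i + 1 + 1 = i + 2 by omega, h1, h2]

theorem x_sub_ne {i j : ℕ} (h : i ≠ j) : E.x i - E.x j ≠ 0 :=
  sub_ne_zero.2 fun h' => h (E.x_inj h')

/-- The (K-theoretic) Demazure operator
`f ↦ (x_i (1 + β x_{i+1}) f - x_{i+1} (1 + β x_i) s_i f) / (x_i - x_{i+1})`. -/
def D (i : ℕ) (f : K) : K :=
  (E.x i * (1 + E.b * E.x (i + 1)) * f - E.x (i + 1) * (1 + E.b * E.x i) * E.t i f) /
    (E.x i - E.x (i + 1))

theorem D_add (i : ℕ) (f g : K) : E.D i (f + g) = E.D i f + E.D i g := by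
  unfold D; rw [map_add]; ring

theorem D_sub (i : ℕ) (f g : K) : E.D i (f - g) = E.D i f - E.D i g := by
  unfold D; rw [map_sub]; ring

theorem D_zero (i : ℕ) : E.D i 0 = 0 := by
  unfold D; rw [map_zero]; ring

theorem D_smul (i : ℕ) (r : R) (f : K) : E.D i (r • f) = r • E.D i f := by
  unfold D; rw [map_smul, Algebra.smul_def, Algebra.smul_def, Algebra.smul_def]; ring

theorem D_mul (i : ℕ) {g : K} (hg : E.t i g = g) (f : K) : E.D i (g * f) = g * E.D i f := by
  unfold D; rw [map_mul, hg]; ring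

theorem D_one (i : ℕ) : E.D i 1 = 1 := by
  unfold D
  rw [map_one, mul_one, mul_one, div_eq_one_iff_eq (E.x_sub_ne (by omega))]
  ring

theorem t_D (i : ℕ) (f : K) : E.t i (E.D i f) = E.D i f := by
  unfold D
  simp only [map_div₀, map_sub, map_mul, map_add, map_one, t_x, t_x', t_t, t_b]
  rw [← neg_div_neg_eq]
  congr 1 <;> ring

theorem D_idem (i : ℕ) (f : K) : E.D i (E.D i f) = E.D i f := by
  have := E.D_mul i (E.t_D i f) 1
  rwa [mul_one, D_one, mul_one] at this

theorem D_symm (i : ℕ) {f : K} (hf : E.t i f = f) : E.D i f = f := by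
  have := E.D_mul i hf 1
  rwa [mul_one, D_one, mul_one] at this

theorem D_comm {i j : ℕ} (h : i + 2 ≤ j) (f : K) : E.D i (E.D j f) = E.D j (E.D i f) := by
  unfold D
  simp only [map_div₀, map_sub, map_mul, map_add, map_one, t_b,
    E.t_x_of_ne (i := i) (j := j) (by omega) (by omega),
    E.t_x_of_ne (i := i) (j := j + 1) (by omega) (by omega),
    E.t_x_of_ne (i := j) (j := i) (by omega) (by omega),
    E.t_x_of_ne (i := j) (j := i + 1) (by omega) (by omega), E.t_comm h]
  have h1 := E.x_sub_ne (i := i) (j := i + 1) (by omega)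
  have h2 := E.x_sub_ne (i := j) (j := j + 1) (by omega)
  field_simp
  ring

set_option maxRecDepth 20000 in
theorem D_braid (i : ℕ) (f : K) :
    E.D i (E.D (i + 1) (E.D i f)) = E.D (i + 1) (E.D i (E.D (i + 1) f)) := by
  unfold D
  have e1 := E.t_x_of_ne (i := i) (j := i + 2) (by omega) (by omega)
  have e2 := E.t_x_of_ne (i := i + 1) (j := i) (by omega) (by omega)
  have e3 := E.t_x (i + 1)
  have e4 := E.t_x' (i + 1)
  rw [show i + 1 + 1 = i + 2 by omega] at *
  simp only [map_div₀, map_sub, map_mul, map_add, map_one, t_b, t_x, t_x', e1, e2, e3, e4, t_t,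
    E.t_braid]
  have h1 := E.x_sub_ne (i := i) (j := i + 1) (by omega)
  have h2 := E.x_sub_ne (i := i + 1) (j := i + 2) (by omega)
  have h3 := E.x_sub_ne (i := i) (j := i + 2) (by omega)
  have k1 := E.x_sub_ne (i := i + 1) (j := i) (by omega)
  have k2 := E.x_sub_ne (i := i + 2) (j := i + 1) (by omega)
  have k3 := E.x_sub_ne (i := i + 2) (j := i) (by omega)
  generalize E.t (i + 1) (E.t i (E.t (i + 1) f)) = f5
  generalize E.t i (E.t (i + 1) f) = f3
  generalize E.t (i + 1) (E.t i f) = f4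
  generalize E.t i f = f1
  generalize E.t (i + 1) f = f2
  generalize E.x i = a at *
  generalize E.x (i + 1) = c at *
  generalize E.x (i + 2) = d at *
  generalize E.b = β
  field_simp
  ring

theorem x_succ_mul_D (i : ℕ) (f : K) :
    E.x (i + 1) * E.D i f = E.D i (E.x i * f) - E.x i * (1 + E.b * E.x (i + 1)) * f := by
  unfold D
  rw [map_mul, t_x]
  have h1 := E.x_sub_ne (i := i) (j := i + 1) (by omega)
  field_simp
  ring

theorem x_mul_D (i : ℕ) (f : K) :
    E.x i * E.D i f = E.D i (E.x (i + 1) * f) + E.x i * (1 + E.b * E.x (i + 1)) * f := by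
  unfold D
  rw [map_mul, t_x']
  have h1 := E.x_sub_ne (i := i) (j := i + 1) (by omega)
  field_simp
  ring

theorem inv_x_succ_mul_D (i : ℕ) (f : K) :
    (E.x (i + 1))⁻¹ * E.D i f = E.D i ((E.x i)⁻¹ * f) + ((E.x (i + 1))⁻¹ + E.b) * f := by
  unfold D
  rw [map_mul, map_inv₀, t_x]
  have h1 := E.x_sub_ne (i := i) (j := i + 1) (by omega)
  have h2 := E.x_ne i
  have h3 := E.x_ne (i + 1)
  field_simp
  ring

theorem inv_x_mul_D (i : ℕ) (f : K) :
    (E.x i)⁻¹ * E.D i f = E.D i ((E.x (i + 1))⁻¹ * f) - ((E.x (i + 1))⁻¹ + E.b) * f := by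
  unfold D
  rw [map_mul, map_inv₀, t_x']
  have h1 := E.x_sub_ne (i := i) (j := i + 1) (by omega)
  have h2 := E.x_ne i
  have h3 := E.x_ne (i + 1)
  field_simp
  ring

/-- The divided difference `f ↦ ((1 + β x_{i+1}) f - (1 + β x_i) s_i f) / (x_i - x_{i+1})`. -/
def dd (i : ℕ) (f : K) : K :=
  ((1 + E.b * E.x (i + 1)) * f - (1 + E.b * E.x i) * E.t i f) / (E.x i - E.x (i + 1))

theorem dd_eq (i : ℕ) (f : K) : E.dd i f = E.D i ((E.x i)⁻¹ * f) := by
  unfold D dd
  rw [map_mul, map_inv₀, t_x]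
  have h1 := E.x_sub_ne (i := i) (j := i + 1) (by omega)
  have h2 := E.x_ne i
  have h3 := E.x_ne (i + 1)
  field_simp

theorem dd_mul (i : ℕ) {g : K} (hg : E.t i g = g) (f : K) : E.dd i (g * f) = g * E.dd i f := by
  unfold dd; rw [map_mul, hg]; ring

theorem dd_x (i : ℕ) : E.dd i (E.x i) = 1 := by
  rw [dd_eq, inv_mul_cancel₀ (E.x_ne i), D_one]

theorem dd_comm {i j : ℕ} (h : i + 2 ≤ j) (f : K) : E.dd i (E.dd j f) = E.dd j (E.dd i f) := by
  unfold dd
  simp only [map_div₀, map_sub, map_mul, map_add, map_one, t_b,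
    E.t_x_of_ne (i := i) (j := j) (by omega) (by omega),
    E.t_x_of_ne (i := i) (j := j + 1) (by omega) (by omega),
    E.t_x_of_ne (i := j) (j := i) (by omega) (by omega),
    E.t_x_of_ne (i := j) (j := i + 1) (by omega) (by omega), E.t_comm h]
  have h1 := E.x_sub_ne (i := i) (j := i + 1) (by omega)
  have h2 := E.x_sub_ne (i := j) (j := j + 1) (by omega)
  field_simp
  ring

set_option maxRecDepth 20000 in
theorem dd_braid (i : ℕ) (f : K) :
    E.dd i (E.dd (i + 1) (E.dd i f)) = E.dd (i + 1) (E.dd i (E.dd (i + 1) f)) := by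
  unfold dd
  have e1 := E.t_x_of_ne (i := i) (j := i + 2) (by omega) (by omega)
  have e2 := E.t_x_of_ne (i := i + 1) (j := i) (by omega) (by omega)
  have e3 := E.t_x (i + 1)
  have e4 := E.t_x' (i + 1)
  rw [show i + 1 + 1 = i + 2 by omega] at *
  simp only [map_div₀, map_sub, map_mul, map_add, map_one, t_b, t_x, t_x', e1, e2, e3, e4, t_t,
    E.t_braid]
  have h1 := E.x_sub_ne (i := i) (j := i + 1) (by omega)
  have h2 := E.x_sub_ne (i := i + 1) (j := i + 2) (by omega)
  have h3 := E.x_sub_ne (i := i) (j := i + 2) (by omega)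
  have k1 := E.x_sub_ne (i := i + 1) (j := i) (by omega)
  have k2 := E.x_sub_ne (i := i + 2) (j := i + 1) (by omega)
  have k3 := E.x_sub_ne (i := i + 2) (j := i) (by omega)
  generalize E.t (i + 1) (E.t i (E.t (i + 1) f)) = f5
  generalize E.t i (E.t (i + 1) f) = f3
  generalize E.t (i + 1) (E.t i f) = f4
  generalize E.t i f = f1
  generalize E.t (i + 1) f = f2
  generalize E.x i = a at *
  generalize E.x (i + 1) = c at *
  generalize E.x (i + 2) = d at *
  generalize E.b = β
  field_simp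
  ring

end Env

end Pool.Agent.Q161.Keys
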