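import Pool.Agent.Q161.KeyFinal

/-!
# Lascoux polynomials with exponents in a box (MP_5ec843_co)
-/

namespace Pool.Agent.Q161.Keys

open Filter Finset

variable {R K : Type*} [CommRing R] [Field K] [Algebra R K] (E : Env R K)

/-- Exponents in the box `[0, M]^h`. -/
def Box (h : ℕ) (M : ℤ) : Set (ℕ → ℤ) :=
  {α | (∀ i, 0 ≤ α i) ∧ (∀ i, h ≤ i → α i = 0) ∧ ∀ i, α i ≤ M}

/-- `α` with the entries `i`, `i + 1` replaced. -/
def st (α : ℕ → ℤ) (i : ℕ) (c d : ℤ) : ℕ → ℤ :=
  fun j => if j = i then c else if j = i + 1 then d else α j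

theorem st_left (α : ℕ → ℤ) (i : ℕ) (c d : ℤ) : st α i c d i = c := if_pos rfl

theorem st_right (α : ℕ → ℤ) (i : ℕ) (c d : ℤ) : st α i c d (i + 1) = d := by
  unfold st
  rw [if_neg (by omega), if_pos rfl]

theorem st_mem {h : ℕ} {M : ℤ} {α : ℕ → ℤ} (hα : α ∈ Box h M) {i : ℕ} (hi : i + 1 < h) {c d : ℤ}
    (hc : 0 ≤ c) (hd : 0 ≤ d) (hcM : c ≤ M) (hdM : d ≤ M) : st α i c d ∈ Box h M := by
  obtain ⟨h1, h2, h3⟩ := hα
  refine ⟨fun j => ?_, fun j hj => ?_, fun j => ?_⟩
  · unfold st
    split_ifs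
    · exact hc
    · exact hd
    · exact h1 j
  · unfold st
    rw [if_neg (by omega), if_neg (by omega), h2 j hj]
  · unfold st
    split_ifs
    · exact hcM
    · exact hdM
    · exact h3 j

theorem sum_st {h i : ℕ} (hi : i + 1 < h) (α : ℕ → ℤ) (c d : ℤ) (φ : ℤ → ℤ) :
    ∑ j ∈ range h, φ (st α i c d j) =
      ∑ j ∈ range h, φ (α j) - φ (α i) - φ (α (i + 1)) + φ c + φ d := by
  have h1 : ∀ j ∈ range h, φ (st α i c d j) = φ (α j) + (if j = i then φ c - φ (α i) else 0) +
      (if j = i + 1 then φ d - φ (α (i + 1)) else 0) := by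
    intro j _
    unfold st
    split_ifs with h1 h2 h2
    · omega
    · subst h1; ring
    · subst h2; ring
    · ring
  rw [sum_congr rfl h1, sum_add_distrib, sum_add_distrib, sum_ite_eq' (range h) i,
    sum_ite_eq' (range h) (i + 1), if_pos (mem_range.2 (by omega)), if_pos (mem_range.2 hi)]
  ring

namespace Env

theorem mon_st {h i : ℕ} (hi : i + 1 < h) (α : ℕ → ℤ) (a : ℤ) (c d : ℕ) :
    E.mon h (st α i (a + c) (a + d)) =
      E.x i ^ c * E.x (i + 1) ^ d * E.mon h (st α i a a) := by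
  have h1 : st α i (a + c) (a + d) = bump (bump (st α i a a) i c) (i + 1) d := by
    funext j
    unfold bump st
    split_ifs <;> omega
  rw [h1, E.mon_bump hi, E.mon_bump (by omega), zpow_natCast, zpow_natCast]
  ring

theorem t_mon_st {h i : ℕ} (hi : i + 1 < h) (α : ℕ → ℤ) (a : ℤ) :
    E.t i (E.mon h (st α i a a)) = E.mon h (st α i a a) := by
  rw [E.t_mon hi, sw_of_eq]
  rw [st_left, st_right]

/-- The monomials `x_i^c x_{i+1}^d G` with `(c, d)` in `S`. -/
def TS (i : ℕ) (G : K) (S : Set (ℕ × ℕ)) : Submodule R K :=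
  Submodule.span R ((fun p : ℕ × ℕ => E.x i ^ p.1 * E.x (i + 1) ^ p.2 * G) '' S)

theorem mem_TS {i : ℕ} {G : K} {S : Set (ℕ × ℕ)} {p : ℕ × ℕ} (hp : p ∈ S) :
    E.x i ^ p.1 * E.x (i + 1) ^ p.2 * G ∈ E.TS i G S := Submodule.subset_span ⟨p, hp, rfl⟩

theorem TS_mono {i : ℕ} {G : K} {S T : Set (ℕ × ℕ)} (h : S ⊆ T) : E.TS i G S ≤ E.TS i G T :=
  Submodule.span_mono (Set.image_mono h)

theorem TS_mul {i : ℕ} {G : K} {S T : Set (ℕ × ℕ)} {c d : ℕ}
    (h : ∀ p ∈ S, (p.1 + c, p.2 + d) ∈ T) {f : K} (hf : f ∈ E.TS i G S) :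
    E.x i ^ c * E.x (i + 1) ^ d * f ∈ E.TS i G T := by
  refine span_map (fun f => E.x i ^ c * E.x (i + 1) ^ d * f) (fun f g => mul_add _ f g)
    (fun r f => mul_smul_comm r _ f) ?_ hf
  rintro _ ⟨p, hp, rfl⟩
  have := E.mem_TS (i := i) (G := G) (h p hp)
  convert this using 1
  simp only
  ring

/-- The extra terms of `D_i (x_i^k G)`. -/
def Tk (k : ℕ) : Set (ℕ × ℕ) :=
  {p | p.1 ≤ k ∧ p.2 ≤ k ∧ ((p.1 + p.2 = k ∧ 0 < p.1 ∧ 0 < p.2) ∨ p.1 + p.2 = k + 1)}

theorem D_pow {i : ℕ} {G : K} (hG : E.t i G = G) : ∀ k : ℕ, 1 ≤ k →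
    E.D i (E.x i ^ k * G) - E.x i ^ k * G - E.x (i + 1) ^ k * G ∈ E.TS i G (Tk k) := by
  intro k hk
  induction k, hk using Nat.le_induction with
  | base =>
    have h1 := E.x_succ_mul_D i G
    rw [E.D_symm i hG, eq_sub_iff_add_eq] at h1
    rw [pow_one, pow_one, ← h1]
    have h2 := E.mem_TS (i := i) (G := G) (S := Tk 1) (p := (1, 1)) (by simp [Tk])
    have h3 := Submodule.smul_mem _ E.β h2
    convert h3 using 1
    rw [Algebra.smul_def]
    show _ = E.b * (E.x i ^ 1 * E.x (i + 1) ^ 1 * G)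
    ring
  | succ k hk ih =>
    have h1 := E.x_succ_mul_D i (E.x i ^ k * G)
    rw [eq_sub_iff_add_eq] at h1
    have h2 : E.x i ^ (k + 1) * G = E.x i * (E.x i ^ k * G) := by ring
    have h3 := E.TS_mul (T := Tk (k + 1)) (c := 0) (d := 1) (by
      rintro p ⟨a1, a2, a3⟩
      refine ⟨by simpa using by omega, by simpa using a2, ?_⟩
      simp only
      rcases a3 with a3 | a3
      · left; omega
      · right; omega) ih
    have h4 := E.mem_TS (i := i) (G := G) (S := Tk (k + 1)) (p := (k, 1)) (by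
      refine ⟨by simp, by simp, Or.inl ⟨by simp, by show 0 < k; omega, by simp⟩⟩)
    have h5 := E.mem_TS (i := i) (G := G) (S := Tk (k + 1)) (p := (k + 1, 1)) (by
      refine ⟨by simp, by simp, Or.inr (by simp)⟩)
    have h6 := Submodule.add_mem _ (Submodule.add_mem _ h3 h4) (Submodule.smul_mem _ E.β h5)
    convert h6 using 1
    rw [h2, ← h1, Algebra.smul_def]
    show _ = _ + _ + E.b * (E.x i ^ (k + 1) * E.x (i + 1) ^ 1 * G)
    ring

theorem D_pow_succ {i : ℕ} {G : K} (hG : E.t i G = G) : ∀ k : ℕ,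
    E.D i (E.x (i + 1) ^ k * G) ∈ E.TS i G {p | p.1 ≤ k ∧ p.2 ≤ k} := by
  intro k
  induction k with
  | zero =>
    rw [pow_zero, one_mul, E.D_symm i hG]
    have := E.mem_TS (i := i) (G := G) (S := {p | p.1 ≤ 0 ∧ p.2 ≤ 0}) (p := (0, 0)) (by simp)
    simpa using this
  | succ k ih =>
    have h1 := E.x_mul_D i (E.x (i + 1) ^ k * G)
    rw [← sub_eq_iff_eq_add] at h1
    have h2 : E.x (i + 1) ^ (k + 1) * G = E.x (i + 1) * (E.x (i + 1) ^ k * G) := by ring
    have h3 := E.TS_mul (T := {p | p.1 ≤ k + 1 ∧ p.2 ≤ k + 1}) (c := 1) (d := 0) (by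
      rintro p ⟨a1, a2⟩
      refine ⟨by simpa using a1, ?_⟩
      show p.2 + 0 ≤ k + 1
      omega) ih
    have h4 := E.mem_TS (i := i) (G := G) (S := {p | p.1 ≤ k + 1 ∧ p.2 ≤ k + 1}) (p := (1, k)) (by
      refine ⟨by simp, by simp⟩)
    have h5 := E.mem_TS (i := i) (G := G) (S := {p | p.1 ≤ k + 1 ∧ p.2 ≤ k + 1})
      (p := (1, k + 1)) (by refine ⟨by simp, by simp⟩)
    have h6 := Submodule.sub_mem _ (Submodule.sub_mem _ h3 h4) (Submodule.smul_mem _ E.β h5)
    convert h6 using 1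
    rw [h2, ← h1, Algebra.smul_def]
    show _ = _ - _ - E.b * (E.x i ^ 1 * E.x (i + 1) ^ (k + 1) * G)
    ring

theorem D_pow_mem {i : ℕ} {G : K} (hG : E.t i G = G) (k : ℕ) :
    E.D i (E.x i ^ k * G) ∈ E.TS i G {p | p.1 ≤ k ∧ p.2 ≤ k} := by
  rcases Nat.eq_zero_or_pos k with rfl | hk
  · have := E.D_pow_succ hG 0
    simpa using this
  · have h1 := E.TS_mono (i := i) (G := G) (S := Tk k) (T := {p | p.1 ≤ k ∧ p.2 ≤ k})
      (fun p hp => ⟨hp.1, hp.2.1⟩) (E.D_pow hG k hk)
    have h4 := E.mem_TS (i := i) (G := G) (S := {p | p.1 ≤ k ∧ p.2 ≤ k}) (p := (k, 0))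
      (by refine ⟨by simp, by simp⟩)
    have h5 := E.mem_TS (i := i) (G := G) (S := {p | p.1 ≤ k ∧ p.2 ≤ k}) (p := (0, k))
      (by refine ⟨by simp, by simp⟩)
    have h6 := Submodule.add_mem _ (Submodule.add_mem _ h1 h4) h5
    convert h6 using 1
    ring

/-- The span of the monomials with exponents in the box. -/
def WB (h : ℕ) (M : ℤ) : Submodule R K := Submodule.span R (E.mon h '' Box h M)

/-- The span of the keys with index in the box. -/
def KB (h : ℕ) (M : ℤ) : Submodule R K := Submodule.span R (E.key h '' Box h M)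

theorem st_self {α : ℕ → ℤ} {i : ℕ} : st α i (α i) (α (i + 1)) = α := by
  funext j
  unfold st
  split_ifs with h1 h2
  · rw [h1]
  · rw [h2]
  · rfl

theorem TS_le_WB {h i k : ℕ} {M : ℤ} (hi : i + 1 < h) {α : ℕ → ℤ} (hα : α ∈ Box h M) {a : ℤ}
    (ha : 0 ≤ a) (hk : a + k ≤ M) :
    E.TS i (E.mon h (st α i a a)) {p | p.1 ≤ k ∧ p.2 ≤ k} ≤ E.WB h M := by
  apply Submodule.span_le.2
  rintro _ ⟨p, ⟨h1, h2⟩, rfl⟩
  show E.x i ^ p.1 * E.x (i + 1) ^ p.2 * E.mon h (st α i a a) ∈ _
  rw [← E.mon_st hi]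
  exact Submodule.subset_span ⟨_, st_mem hα hi (by omega) (by omega) (by omega) (by omega), rfl⟩

theorem D_mon_box {h i : ℕ} {M : ℤ} (hi : i + 1 < h) {α : ℕ → ℤ} (hα : α ∈ Box h M) :
    E.D i (E.mon h α) ∈ E.WB h M := by
  rcases le_total (α (i + 1)) (α i) with hle | hle
  · obtain ⟨k, hk⟩ := Int.eq_ofNat_of_zero_le (sub_nonneg.2 hle)
    have h1 := E.mon_st hi α (α (i + 1)) k 0
    rw [pow_zero, mul_one, Nat.cast_zero, add_zero, show α (i + 1) + (k : ℤ) = α i by omega,
      st_self] at h1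
    rw [h1]
    exact E.TS_le_WB hi hα (hα.1 _) (by have := hα.2.2 i; omega)
      (E.D_pow_mem (E.t_mon_st hi α _) k)
  · obtain ⟨k, hk⟩ := Int.eq_ofNat_of_zero_le (sub_nonneg.2 hle)
    have h1 := E.mon_st hi α (α i) 0 k
    rw [pow_zero, one_mul, Nat.cast_zero, add_zero, show α i + (k : ℤ) = α (i + 1) by omega,
      st_self] at h1
    rw [h1]
    exact E.TS_le_WB hi hα (hα.1 _) (by have := hα.2.2 (i + 1); omega)
      (E.D_pow_succ (E.t_mon_st hi α _) k)

theorem sw_mem_Box {h i : ℕ} {M : ℤ} (hi : i + 1 < h) {α : ℕ → ℤ} (hα : α ∈ Box h M) :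
    sw α i ∈ Box h M :=
  ⟨fun _ => hα.1 _, fun j hj => by rw [sw_ne α (by omega) (by omega), hα.2.1 j hj],
    fun _ => hα.2.2 _⟩

theorem D_WB {h i : ℕ} {M : ℤ} (hi : i + 1 < h) {f : K} (hf : f ∈ E.WB h M) :
    E.D i f ∈ E.WB h M := by
  refine span_map (E.D i) (E.D_add i) (E.D_smul i) ?_ hf
  rintro _ ⟨α, hα, rfl⟩
  exact E.D_mon_box hi hα

theorem key_mem_WB {h : ℕ} {M : ℤ} : ∀ (α : ℕ → ℤ), α ∈ Box h M → E.key h α ∈ E.WB h M := by
  intro α
  induction hN : coinv h α using Nat.strong_induction_on generalizing α with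
  | _ N ih =>
    subst hN
    intro hα
    by_cases H : ∃ i, Asc h α i
    · obtain ⟨i, hi⟩ := H
      have := coinv_sw hi
      rw [E.key_asc hi]
      exact E.D_WB hi.1 (ih _ (by omega) (sw α i) rfl (sw_mem_Box hi.1 hα))
    · push Not at H
      rw [E.key_dom H]
      exact Submodule.subset_span ⟨α, hα, rfl⟩

theorem D_KB {h i : ℕ} {M : ℤ} (hi : i + 1 < h) {f : K} (hf : f ∈ E.KB h M) :
    E.D i f ∈ E.KB h M := by
  refine span_map (E.D i) (E.D_add i) (E.D_smul i) ?_ hf
  rintro _ ⟨α, hα, rfl⟩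
  rcases E.D_key h i hi α with h1 | h1
  · rw [h1]; exact Submodule.subset_span ⟨α, hα, rfl⟩
  · rw [h1]; exact Submodule.subset_span ⟨_, sw_mem_Box hi hα, rfl⟩

/-- The measure of the induction. -/
def meas (h : ℕ) (M : ℤ) (α : ℕ → ℤ) : ℕ ×ₗ (ℕ ×ₗ ℕ) :=
  toLex ((h * M - ∑ i ∈ range h, α i).toNat, toLex ((∑ i ∈ range h, α i * α i).toNat, coinv h α))

theorem sum_le_box {h : ℕ} {M : ℤ} {α : ℕ → ℤ} (hα : α ∈ Box h M) :
    ∑ i ∈ range h, α i ≤ h * M := by
  have := sum_le_sum (s := range h) (fun i _ => hα.2.2 i)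
  rwa [sum_const, card_range, nsmul_eq_mul] at this

theorem mon_mem_KB {h : ℕ} {M : ℤ} : ∀ α ∈ Box h M, E.mon h α ∈ E.KB h M := by
  have key : ∀ p : ℕ ×ₗ (ℕ ×ₗ ℕ), ∀ α ∈ Box h M, meas h M α = p → E.mon h α ∈ E.KB h M := by
    intro p
    induction p using WellFoundedLT.induction with
    | _ p ih =>
      intro α hα hp
      subst hp
      by_cases H : ∃ i, Asc h α i
      · obtain ⟨i, hi⟩ := H
        have hi1 := hi.1
        obtain ⟨k, hk⟩ := Int.eq_ofNat_of_zero_le (sub_nonneg.2 hi.2.le)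
        have hk1 : 1 ≤ k := by
          have := hi.2
          omega
        have hα0 := hα.1 i
        have hαM := hα.2.2 (i + 1)
        set G := E.mon h (st α i (α i) (α i)) with hG
        have e1 : E.mon h α = E.x (i + 1) ^ k * G := by
          have h1 := E.mon_st hi1 α (α i) 0 k
          rw [pow_zero, one_mul, Nat.cast_zero, add_zero, show α i + (k : ℤ) = α (i + 1) by omega,
            st_self] at h1
          exact h1
        have hst : st α i (α (i + 1)) (α i) = sw α i := by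
          funext j
          unfold st
          split_ifs with h1 h2
          · rw [h1, sw_left]
          · rw [h2, sw_right]
          · rw [sw_ne α h1 h2]
        have e2 : E.mon h (sw α i) = E.x i ^ k * G := by
          have h1 := E.mon_st hi1 α (α i) k 0
          rw [pow_zero, mul_one, Nat.cast_zero, add_zero, show α i + (k : ℤ) = α (i + 1) by omega,
            hst] at h1
          exact h1
        -- the sorted monomial
        have hsw : E.mon h (sw α i) ∈ E.KB h M := by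
          refine ih (meas h M (sw α i)) ?_ (sw α i) (sw_mem_Box hi1 hα) rfl
          unfold meas
          have h1 : ∑ j ∈ range h, sw α i j = ∑ j ∈ range h, α j := sum_sw hi1 α
          have h2 : ∑ j ∈ range h, sw α i j * sw α i j = ∑ j ∈ range h, α j * α j := by
            have h3 := sum_st hi1 α (α (i + 1)) (α i) (fun z => z * z)
            rw [hst] at h3
            rw [h3]
            ring
          have h3 := coinv_sw hi
          rw [h1, h2, Prod.Lex.toLex_lt_toLex]
          right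
          refine ⟨rfl, ?_⟩
          rw [Prod.Lex.toLex_lt_toLex]
          right
          exact ⟨rfl, by simp only; omega⟩
        -- the other monomials
        have hT : E.TS i G (Tk k) ≤ E.KB h M := by
          apply Submodule.span_le.2
          rintro _ ⟨p, ⟨h1, h2, h3⟩, rfl⟩
          show E.x i ^ p.1 * E.x (i + 1) ^ p.2 * G ∈ E.KB h M
          rw [hG, ← E.mon_st hi1]
          have hmem : st α i (α i + p.1) (α i + p.2) ∈ Box h M :=
            st_mem hα hi1 (by omega) (by omega) (by omega) (by omega)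
          refine ih (meas h M _) ?_ _ hmem rfl
          have hs := sum_st hi1 α (α i + p.1) (α i + p.2) (fun z => z)
          have hq := sum_st hi1 α (α i + p.1) (α i + p.2) (fun z => z * z)
          have hb1 := sum_le_box hmem
          have hb2 := sum_le_box hα
          unfold meas
          rw [Prod.Lex.toLex_lt_toLex]
          rcases h3 with ⟨h4, h5, h6⟩ | h4
          · right
            refine ⟨by simp only; rw [hs]; congr 1; omega, ?_⟩
            rw [Prod.Lex.toLex_lt_toLex]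
            left
            simp only
            have hlt : ∑ j ∈ range h, st α i (α i + p.1) (α i + p.2) j *
                st α i (α i + p.1) (α i + p.2) j < ∑ j ∈ range h, α j * α j := by
              rw [hq]
              have e3 : α (i + 1) = α i + (p.1 + p.2) := by omega
              rw [e3]
              have h7 : (0 : ℤ) < p.1 * p.2 := by
                have : 0 < p.1 * p.2 := Nat.mul_pos h5 h6
                exact_mod_cast this
              nlinarith
            have hnn : 0 ≤ ∑ j ∈ range h, st α i (α i + p.1) (α i + p.2) j *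
                st α i (α i + p.1) (α i + p.2) j := sum_nonneg fun j _ => mul_self_nonneg _
            omega
          · left
            simp only
            rw [hs] at hb1 ⊢
            omega
        have h7 := E.D_pow (E.t_mon_st hi1 α (α i)) k hk1
        rw [← hG, ← e2, ← e1] at h7
        have h8 := hT h7
        have h9 := E.D_KB hi1 hsw
        have h10 := Submodule.sub_mem _ (Submodule.sub_mem _ h9 hsw) h8
        convert h10 using 1
        ring
      · push Not at H
        rw [← E.key_dom H]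
        exact Submodule.subset_span ⟨α, hα, rfl⟩
  intro α hα
  exact key _ α hα rfl

theorem KB_eq_WB {h : ℕ} {M : ℤ} : E.KB h M = E.WB h M := by
  apply le_antisymm
  · apply Submodule.span_le.2
    rintro _ ⟨α, hα, rfl⟩
    exact E.key_mem_WB α hα
  · apply Submodule.span_le.2
    rintro _ ⟨α, hα, rfl⟩
    exact E.mon_mem_KB α hα

end Env

theorem Box_subset_Pos (h M : ℕ) : Box h M ⊆ Pos h ((h * M : ℕ) : ℤ) := by
  intro α hα
  refine ⟨hα.1, hα.2.1, ?_⟩
  have := Env.sum_le_box hα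
  push_cast
  exact this

theorem Pos_subset_Box (h d : ℕ) : Pos h d ⊆ Box h d := by
  intro α hα
  refine ⟨hα.1, hα.2.1, fun i => ?_⟩
  rcases Nat.lt_or_ge i h with hi | hi
  · exact le_trans (single_le_sum (fun j _ => hα.1 j) (mem_range.2 hi)) hα.2.2
  · rw [hα.2.1 i hi]
    positivity

namespace Env

theorem keyLI (hm : E.MonLI) : E.KeyLI := by
  intro h d
  have hfin : (Box h d).Finite := (Pos_finite h (h * d)).subset (Box_subset_Pos h d)
  have : Fintype (Box h d) := hfin.fintype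
  have h1 : LinearIndependent R (fun α : Box h d => E.mon h α.1) :=
    (hm h (h * d)).comp (fun α : Box h d => (⟨α.1, Box_subset_Pos h d α.2⟩ : Pos h _))
      (fun α β heq => Subtype.ext (congrArg (fun z : Pos h ((h * d : ℕ) : ℤ) => z.1) heq))
  have h2 : LinearIndependent R (fun α : Box h d => E.key h α.1) := by
    refine li_of_span_eq h1 ?_
    have e1 : Set.range (fun α : Box h d => E.key h α.1) = E.key h '' Box h d := by
      rw [Set.image_eq_range]
    have e2 : Set.range (fun α : Box h d => E.mon h α.1) = E.mon h '' Box h d := by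
      rw [Set.image_eq_range]
    rw [e1, e2]
    exact E.KB_eq_WB
  exact h2.comp (fun α : Pos h d => (⟨α.1, Pos_subset_Box h d α.2⟩ : Box h d))
    (fun α β heq => Subtype.ext (congrArg (fun z : Box h (d : ℤ) => z.1) heq))

theorem nn (hm : E.MonLI) : E.NN := by
  intro h c hc hf α hα
  have hle : E.Wp h ≤ Submodule.span R (E.key h '' Pinf h) := by
    apply Submodule.span_le.2
    rintro _ ⟨α, hα, rfl⟩
    obtain ⟨d, hd⟩ := mem_Pos_of_mem_Pinf hα
    have h1 := E.mon_mem_KB α (Pos_subset_Box h d hd)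
    have h2 : E.KB h d ≤ Submodule.span R (E.key h '' Pinf h) :=
      Submodule.span_mono (Set.image_mono fun _ h => ⟨h.1, h.2.1⟩)
    exact h2 h1
  exact (E.index_mem (E.keyLI hm) (S := Pinf h) (fun _ h => h.2) c hc (hle hf) α hα).1

end Env

end Pool.Agent.Q161.Keys
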