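import Pool.Agent.Q161.KeyFinal

/-!
# The field of rational functions (MP_26ab9b_co, MP_5ec843_co)
-/

namespace Pool.Agent.Q161.Keys

open Filter Finset

section

variable (R : Type*) [CommRing R] [IsDomain R]

/-- The field of rational functions in `x 0, x 1, …`, the fraction field of `R[x 0, x 1, …]`. -/
abbrev RatFun := FractionRing (MvPolynomial ℕ R)

/-- The variable `x i`. -/
noncomputable def var (i : ℕ) : RatFun R := algebraMap (MvPolynomial ℕ R) (RatFun R) (MvPolynomial.X i)

/-- The embedding of polynomials, with the variables permuted by `σ`. -/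
noncomputable def permAux (σ : Equiv.Perm ℕ) : MvPolynomial ℕ R →ₐ[R] RatFun R :=
  (IsScalarTower.toAlgHom R (MvPolynomial ℕ R) (RatFun R)).comp (MvPolynomial.rename σ)

omit [IsDomain R] in
theorem permAux_injective (σ : Equiv.Perm ℕ) : Function.Injective (permAux R σ) := by
  unfold permAux
  intro a b h
  have h1 := IsFractionRing.injective (MvPolynomial ℕ R) (RatFun R) h
  exact MvPolynomial.rename_injective _ σ.injective h1

/-- The automorphism of the field of rational functions given by `x i ↦ x (σ i)`. -/
noncomputable def permVars (σ : Equiv.Perm ℕ) : RatFun R →ₐ[R] RatFun R :=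
  IsFractionRing.liftAlgHom (permAux_injective R σ)

theorem permVars_algebraMap (σ : Equiv.Perm ℕ) (p : MvPolynomial ℕ R) :
    permVars R σ (algebraMap _ _ p) = algebraMap _ _ (MvPolynomial.rename σ p) := by
  unfold permVars
  rw [IsFractionRing.liftAlgHom_apply, IsFractionRing.lift_algebraMap]
  rfl

omit [IsDomain R] in
theorem ratFun_ext {f g : RatFun R →+* RatFun R}
    (h : ∀ p : MvPolynomial ℕ R, f (algebraMap _ _ p) = g (algebraMap _ _ p)) : f = g :=
  IsLocalization.ringHom_ext (nonZeroDivisors (MvPolynomial ℕ R)) (RingHom.ext h)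

/-- The environment. -/
noncomputable def conc (β : R) : Env R (RatFun R) where
  x := var R
  β := β
  s := permVars R
  s_one := by
    intro f
    have h : (permVars R 1).toRingHom = RingHom.id _ := by
      apply ratFun_ext
      intro p
      show permVars R 1 (algebraMap _ _ p) = algebraMap _ _ p
      rw [permVars_algebraMap]
      have : (⇑(1 : Equiv.Perm ℕ)) = id := rfl
      rw [this, MvPolynomial.rename_id]
      rfl
    exact RingHom.congr_fun h f
  s_mul := by
    intro σ τ f
    have h : (permVars R (σ * τ)).toRingHom =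
        (permVars R σ).toRingHom.comp (permVars R τ).toRingHom := by
      apply ratFun_ext
      intro p
      show permVars R (σ * τ) (algebraMap _ _ p) = permVars R σ (permVars R τ (algebraMap _ _ p))
      rw [permVars_algebraMap, permVars_algebraMap, permVars_algebraMap,
        MvPolynomial.rename_rename]
      rfl
    exact RingHom.congr_fun h f
  s_x := by
    intro σ i
    unfold var
    rw [permVars_algebraMap, MvPolynomial.rename_X]
  x_ne := by
    intro i h
    have h1 := (IsFractionRing.injective (MvPolynomial ℕ R) (RatFun R))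
      (h.trans (map_zero _).symm)
    exact MvPolynomial.X_ne_zero i h1
  x_inj := by
    intro i j h
    exact MvPolynomial.X_injective (IsFractionRing.injective (MvPolynomial ℕ R) (RatFun R) h)

/-- The exponent vector as a finitely supported function. -/
noncomputable def toExp (h : ℕ) (α : ℕ → ℤ) : ℕ →₀ ℕ :=
  ∑ i ∈ range h, Finsupp.single i (α i).toNat

theorem toExp_apply {h : ℕ} (α : ℕ → ℤ) {i : ℕ} (hi : i < h) : toExp h α i = (α i).toNat := by
  classical
  unfold toExp
  rw [Finsupp.finsetSum_apply]
  simp only [Finsupp.single_apply]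
  rw [sum_ite_eq' (range h) i, if_pos (mem_range.2 hi)]

theorem mon_eq {h : ℕ} {α : ℕ → ℤ} (hα : α ∈ Pinf h) (β : R) :
    (conc R β).mon h α = algebraMap (MvPolynomial ℕ R) (RatFun R)
      (MvPolynomial.monomial (toExp h α) 1) := by
  have h1 : (MvPolynomial.monomial (toExp h α) (1 : R)) =
      ∏ i ∈ range h, (MvPolynomial.X i : MvPolynomial ℕ R) ^ (α i).toNat := by
    unfold toExp
    rw [MvPolynomial.monomial_sum_one]
    apply prod_congr rfl
    intro i _
    rw [MvPolynomial.X_pow_eq_monomial]
  rw [h1, map_prod]
  unfold Env.mon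
  apply prod_congr rfl
  intro i _
  rw [map_pow, ← zpow_natCast, Int.toNat_of_nonneg (hα.1 i)]
  rfl

theorem conc_monLI (β : R) : (conc R β).MonLI := by
  intro h d
  have hinj : Function.Injective (fun α : Pos h d => toExp h α.1) := by
    intro α β heq
    apply Subtype.ext
    funext i
    rcases Nat.lt_or_ge i h with hi | hi
    · have h1 := DFunLike.congr_fun heq i
      simp only at h1
      rw [toExp_apply _ hi, toExp_apply _ hi] at h1
      have h2 := α.2.1 i
      have h3 := β.2.1 i
      omega
    · rw [α.2.2.1 i hi, β.2.2.1 i hi]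
  have h1 := ((MvPolynomial.basisMonomials ℕ R).linearIndependent.comp _ hinj).map'
    (IsScalarTower.toAlgHom R (MvPolynomial ℕ R) (RatFun R)).toLinearMap (by
      rw [LinearMap.ker_eq_bot]
      exact IsFractionRing.injective (MvPolynomial ℕ R) (RatFun R))
  have heq : (fun α : Pos h d => (conc R β).mon h α.1) =
      (IsScalarTower.toAlgHom R (MvPolynomial ℕ R) (RatFun R)).toLinearMap ∘
        (MvPolynomial.basisMonomials ℕ R) ∘ (fun α : Pos h d => toExp h α.1) := by
    funext α
    rw [mon_eq R (mem_Pinf_of_mem_Pos α.2)]
    rfl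
  rw [heq]
  exact h1

end

end Pool.Agent.Q161.Keys
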