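import Pool.Agent.Q161.KeyAlg
import Pool.Agent.Q161.KeySort

/-!
# Laurent key polynomials and affine families (MP_26ab9b_co, MP_5ec843_co)
-/

namespace Pool.Agent.Q161.Keys

open Filter Finset

variable {R K : Type*} [CommRing R] [Field K] [Algebra R K] (E : Env R K)

namespace Env

/-- The Laurent monomial `x^α` in the first `h` variables. -/
def mon (h : ℕ) (α : ℕ → ℤ) : K := ∏ i ∈ range h, E.x i ^ α i

/-- The key (Lascoux) polynomial of `α`. -/
noncomputable def key (h : ℕ) (α : ℕ → ℤ) : K := climb E.D (E.mon h) h α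

theorem key_asc {h : ℕ} {α : ℕ → ℤ} {i : ℕ} (hi : Asc h α i) :
    E.key h α = E.D i (E.key h (sw α i)) :=
  climb_eq (E.mon h) (fun _ _ f h => E.D_comm h f) (fun i f => E.D_braid i f) α i hi

theorem key_dom {h : ℕ} {α : ℕ → ℤ} (H : ∀ i, ¬ Asc h α i) : E.key h α = E.mon h α :=
  climb_base _ _ H

theorem t_mon {h i : ℕ} (hi : i + 1 < h) (α : ℕ → ℤ) : E.t i (E.mon h α) = E.mon h (sw α i) := by
  unfold mon
  rw [map_prod]
  refine Finset.prod_nbij' (fun j => Equiv.swap i (i + 1) j) (fun j => Equiv.swap i (i + 1) j)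
    ?_ ?_ ?_ ?_ ?_
  · intro j hj
    rw [mem_range] at *
    exact swap_lt_h hi hj
  · intro j hj
    rw [mem_range] at *
    exact swap_lt_h hi hj
  · intro j _
    exact Equiv.swap_apply_self _ _ _
  · intro j _
    exact Equiv.swap_apply_self _ _ _
  · intro j _
    show E.t i (E.x j ^ α j) = E.x (Equiv.swap i (i + 1) j) ^ sw α i (Equiv.swap i (i + 1) j)
    rw [map_zpow₀]
    unfold t sw
    rw [E.s_x, Equiv.swap_apply_self]

theorem sw_of_eq {α : ℕ → ℤ} {i : ℕ} (h : α i = α (i + 1)) : sw α i = α := by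
  funext j
  rcases eq_or_ne j i with rfl | h1
  · rw [sw_left, h]
  · rcases eq_or_ne j (i + 1) with rfl | h2
    · rw [sw_right, h]
    · rw [sw_ne α h1 h2]

theorem D_mon_of_eq {h i : ℕ} (hi : i + 1 < h) {α : ℕ → ℤ} (he : α i = α (i + 1)) :
    E.D i (E.mon h α) = E.mon h α :=
  E.D_symm i (by rw [E.t_mon hi, sw_of_eq he])

theorem D_key_lt {h i : ℕ} {α : ℕ → ℤ} (hi : Asc h α i) : E.D i (E.key h α) = E.key h α := by
  rw [E.key_asc hi, E.D_idem]

theorem D_key_gt {h i : ℕ} {α : ℕ → ℤ} (hi : i + 1 < h) (hg : α (i + 1) < α i) :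
    E.D i (E.key h α) = E.key h (sw α i) := by
  have h1 : Asc h (sw α i) i := ⟨hi, by rw [sw_left, sw_right]; exact hg⟩
  rw [E.key_asc h1, sw_sw]

theorem D_key_eq {h : ℕ} : ∀ (α : ℕ → ℤ) (i : ℕ), i + 1 < h → α i = α (i + 1) →
    E.D i (E.key h α) = E.key h α := by
  intro α
  induction hn : coinv h α using Nat.strong_induction_on generalizing α with
  | _ n ih =>
    subst hn
    intro i hi he
    by_cases H : ∃ j, Asc h α j
    · obtain ⟨j, hj⟩ := H
      have hj2 := hj.2
      have hj1 := hj.1
      have cj := coinv_sw hj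
      rcases lt_trichotomy i j with h1 | h1 | h1
      · rcases Nat.lt_or_ge (i + 1) j with h2 | h2
        · rw [E.key_asc hj, E.D_comm (by omega), ih _ (by omega) (sw α j) rfl i hi (by
            rw [sw_ne α (by omega) (by omega), sw_ne α (by omega) (by omega), he])]
        · obtain rfl : j = i + 1 := by omega
          have a1 : Asc h (sw α (i + 1)) i := by
            refine ⟨hi, ?_⟩
            rw [sw_left, sw_ne α (j := i) (by omega) (by omega), he]
            exact hj2
          have c1 := coinv_sw a1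
          have key := ih _ (by omega) (sw (sw α (i + 1)) i) rfl (i + 1) hj1 (by
            rw [sw_right, sw_ne (sw α (i + 1)) (j := i + 1 + 1) (by omega) (by omega), sw_right,
              sw_ne α (j := i) (by omega) (by omega), he])
          rw [E.key_asc hj, E.key_asc a1, E.D_braid, key]
      · subst h1
        exact absurd he hj2.ne
      · rcases Nat.lt_or_ge (j + 1) i with h2 | h2
        · rw [E.key_asc hj, ← E.D_comm (by omega), ih _ (by omega) (sw α j) rfl i hi (by
            rw [sw_ne α (by omega) (by omega), sw_ne α (by omega) (by omega), he])]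
        · obtain rfl : i = j + 1 := by omega
          have a1 : Asc h (sw α j) (j + 1) := by
            refine ⟨hi, ?_⟩
            rw [sw_right, sw_ne α (j := j + 1 + 1) (by omega) (by omega), ← he]
            exact hj2
          have c1 := coinv_sw a1
          have key := ih _ (by omega) (sw (sw α j) (j + 1)) rfl j hj1 (by
            rw [sw_left, sw_ne (sw α j) (j := j) (by omega) (by omega), sw_left,
              sw_ne α (j := j + 1 + 1) (by omega) (by omega), he])
          rw [E.key_asc hj, E.key_asc a1, ← E.D_braid, key]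
    · push Not at H
      rw [E.key_dom H, E.D_mon_of_eq hi he]

theorem D_key (h i : ℕ) (hi : i + 1 < h) (α : ℕ → ℤ) :
    E.D i (E.key h α) = E.key h α ∨ E.D i (E.key h α) = E.key h (sw α i) := by
  rcases lt_trichotomy (α i) (α (i + 1)) with h1 | h1 | h1
  · exact Or.inl (E.D_key_lt ⟨hi, h1⟩)
  · exact Or.inl (E.D_key_eq α i hi h1)
  · exact Or.inr (E.D_key_gt hi h1)

/-- `α` with `c` added to the entry `j`. -/
def bump (α : ℕ → ℤ) (j : ℕ) (c : ℤ) : ℕ → ℤ := fun i => α i + if i = j then c else 0

theorem mon_bump {h j : ℕ} (hj : j < h) (α : ℕ → ℤ) (c : ℤ) :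
    E.mon h (bump α j c) = E.x j ^ c * E.mon h α := by
  unfold mon bump
  have : ∀ i ∈ range h, E.x i ^ (α i + if i = j then c else 0) =
      E.x i ^ α i * (if i = j then E.x j ^ c else 1) := by
    intro i _
    rw [zpow_add₀ (E.x_ne i)]
    split_ifs with h1
    · rw [h1]
    · rw [zpow_zero]
  rw [prod_congr rfl this, prod_mul_distrib, prod_ite_eq' (range h) j, if_pos (mem_range.2 hj),
    mul_comm]

end Env

end Pool.Agent.Q161.Keys
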