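import Pool.Agent.Q161.KeySchub

/-!
# Permutations with a given Lehmer code (MP_26ab9b_co, MP_5ec843_co)
-/

namespace Pool.Agent.Q161.Keys

open Filter Finset

/-- The Lehmer code of a permutation of `ℕ`. -/
noncomputable def lehmer (w : Equiv.Perm ℕ) (i : ℕ) : ℕ := {j | i < j ∧ w j < w i}.ncard

/-- `x ↦ x` for `x < v`, `x ↦ x + 1` for `x ≥ v`. -/
def up (v x : ℕ) : ℕ := if x < v then x else x + 1

/-- The inverse of `up v`. -/
def dn (v y : ℕ) : ℕ := if y < v then y else y - 1

theorem up_ne (v x : ℕ) : up v x ≠ v := by unfold up; split_ifs <;> omega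

theorem dn_up (v x : ℕ) : dn v (up v x) = x := by unfold dn up; split_ifs <;> omega

theorem up_dn {v y : ℕ} (h : y ≠ v) : up v (dn v y) = y := by unfold dn up; split_ifs <;> omega

theorem up_lt_up {v x y : ℕ} : up v x < up v y ↔ x < y := by unfold up; split_ifs <;> omega

theorem up_lt {v x : ℕ} : up v x < v ↔ x < v := by unfold up; split_ifs <;> omega

/-- The permutation `v, up v (w 0), up v (w 1), …`. -/
def prep (v : ℕ) (w : Equiv.Perm ℕ) : Equiv.Perm ℕ where
  toFun i := match i with
    | 0 => v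
    | i + 1 => up v (w i)
  invFun y := if y = v then 0 else w.symm (dn v y) + 1
  left_inv i := by
    cases i with
    | zero => simp
    | succ i =>
      show (if up v (w i) = v then 0 else w.symm (dn v (up v (w i))) + 1) = i + 1
      rw [if_neg (up_ne v _), dn_up, Equiv.symm_apply_apply]
  right_inv y := by
    by_cases h : y = v
    · simp [h]
    · simp only [if_neg h, Equiv.apply_symm_apply]
      exact up_dn h

theorem prep_zero (v : ℕ) (w : Equiv.Perm ℕ) : prep v w 0 = v := rfl

theorem prep_succ (v : ℕ) (w : Equiv.Perm ℕ) (i : ℕ) : prep v w (i + 1) = up v (w i) := rfl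

theorem lehmer_prep_zero (v : ℕ) (w : Equiv.Perm ℕ) : lehmer (prep v w) 0 = v := by
  unfold lehmer
  have h1 : {j | 0 < j ∧ prep v w j < prep v w 0} =
      (fun x => w.symm x + 1) '' (Set.Iio v) := by
    ext j
    constructor
    · rintro ⟨h1, h2⟩
      cases j with
      | zero => omega
      | succ j =>
        rw [prep_zero, prep_succ, up_lt] at h2
        exact ⟨w j, h2, by simp⟩
    · rintro ⟨x, hx, rfl⟩
      refine ⟨by simp, ?_⟩
      rw [prep_zero, prep_succ, up_lt, Equiv.apply_symm_apply]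
      exact hx
  rw [h1, Set.ncard_image_of_injective]
  · rw [Set.ncard_eq_toFinset_card']
    simp
  · intro x y hxy
    simpa using hxy

theorem lehmer_prep_succ (v : ℕ) (w : Equiv.Perm ℕ) (i : ℕ) :
    lehmer (prep v w) (i + 1) = lehmer w i := by
  unfold lehmer
  have h1 : {j | i + 1 < j ∧ prep v w j < prep v w (i + 1)} =
      (fun x => x + 1) '' {j | i < j ∧ w j < w i} := by
    ext j
    constructor
    · rintro ⟨h1, h2⟩
      cases j with
      | zero => omega
      | succ j =>
        rw [prep_succ, prep_succ, up_lt_up] at h2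
        exact ⟨j, ⟨by omega, h2⟩, rfl⟩
    · rintro ⟨x, ⟨h1, h2⟩, rfl⟩
      refine ⟨by simpa using h1, ?_⟩
      rw [prep_succ, prep_succ, up_lt_up]
      exact h2
  rw [h1, Set.ncard_image_of_injective _ (add_left_injective 1)]

theorem exists_perm : ∀ (h : ℕ) (c : ℕ → ℕ), (∀ i, h ≤ i → c i = 0) →
    ∃ w : Equiv.Perm ℕ, (∃ n, ∀ i, n ≤ i → w i = i) ∧ ∀ i, lehmer w i = c i := by
  intro h
  induction h with
  | zero =>
    intro c hc
    refine ⟨1, ⟨0, fun i _ => rfl⟩, fun i => ?_⟩
    rw [hc i (Nat.zero_le _)]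
    unfold lehmer
    have : {j | i < j ∧ (1 : Equiv.Perm ℕ) j < (1 : Equiv.Perm ℕ) i} = ∅ := by
      ext j
      simp only [Equiv.Perm.coe_one, id_eq, Set.mem_ofPred_eq, Set.mem_empty_iff_false, iff_false]
      omega
    rw [this, Set.ncard_empty]
  | succ h ih =>
    intro c hc
    obtain ⟨w, ⟨n, hn⟩, hw⟩ := ih (fun i => c (i + 1)) (fun i hi => hc (i + 1) (by omega))
    refine ⟨prep (c 0) w, ⟨max n (c 0) + 1, fun i hi => ?_⟩, fun i => ?_⟩
    · cases i with
      | zero => omega
      | succ i =>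
        rw [prep_succ, hn i (by omega)]
        unfold up
        rw [if_neg (by omega)]
    · cases i with
      | zero => exact lehmer_prep_zero _ _
      | succ i =>
        rw [lehmer_prep_succ, hw]

theorem lt_of_fix {w : Equiv.Perm ℕ} {n : ℕ} (hw : ∀ i, n ≤ i → w i = i) {i : ℕ} (hi : i < n) :
    w i < n := by
  by_contra hcon
  push Not at hcon
  have h1 := hw (w i) hcon
  have h2 := w.injective h1
  omega

/-- The one-line notation as a sequence of integers. -/
def line (w : Equiv.Perm ℕ) : ℕ → ℤ := fun i => w i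

theorem dist_line (w : Equiv.Perm ℕ) (n : ℕ) : Dist n (line w) := by
  intro p q hpq _ heq
  unfold line at heq
  have : w p = w q := by exact_mod_cast heq
  exact hpq.ne (w.injective this)

theorem code_line {w : Equiv.Perm ℕ} {n : ℕ} (hw : ∀ i, n ≤ i → w i = i) (i : ℕ) :
    code n (line w) i = lehmer w i := by
  unfold code lehmer
  rw [← Set.ncard_coe_finset]
  congr 1
  ext j
  rw [mem_coe, mem_codeSet, Set.mem_ofPred_eq]
  unfold line
  constructor
  · rintro ⟨_, h2, h3⟩
    exact ⟨h2, by exact_mod_cast h3⟩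
  · rintro ⟨h2, h3⟩
    refine ⟨?_, h2, by exact_mod_cast h3⟩
    by_contra hcon
    push Not at hcon
    rw [hw j hcon] at h3
    rcases Nat.lt_or_ge i n with h4 | h4
    · have := lt_of_fix hw h4
      omega
    · rw [hw i h4] at h3
      omega

theorem lehmer_eq_zero {w : Equiv.Perm ℕ} {n : ℕ} (hw : ∀ i, n ≤ i → w i = i) {i : ℕ}
    (hi : n ≤ i + 1) : lehmer w i = 0 := by
  rw [← code_line hw, code_eq_zero hi]

end Pool.Agent.Q161.Keys
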