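import Pool.Agent.Q161.KeyInd2
import Pool.Agent.Q161.KeyPerm

/-!
# Stable expansions of stretched Schubert / Grothendieck polynomials (MP_26ab9b_co, MP_5ec843_co)
-/

namespace Pool.Agent.Q161.Keys

open Filter Finset

variable {R K : Type*} [CommRing R] [Field K] [Algebra R K] (E : Env R K)

/-- Nonnegative exponents supported in the first `h` entries. -/
def Pinf (h : ℕ) : Set (ℕ → ℤ) := {α | (∀ i, 0 ≤ α i) ∧ ∀ i, h ≤ i → α i = 0}

theorem mem_Pos_of_mem_Pinf {h : ℕ} {α : ℕ → ℤ} (hα : α ∈ Pinf h) : ∃ d : ℕ, α ∈ Pos h d := by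
  refine ⟨(∑ i ∈ range h, α i).toNat, hα.1, hα.2, ?_⟩
  omega

theorem mem_Pinf_of_mem_Pos {h : ℕ} {d : ℤ} {α : ℕ → ℤ} (hα : α ∈ Pos h d) : α ∈ Pinf h :=
  ⟨hα.1, hα.2.1⟩

namespace Env

/-- The span of the monomials with nonnegative exponents. -/
def Wp (h : ℕ) : Submodule R K := Submodule.span R (E.mon h '' Pinf h)

theorem mon_mem_Wp {h : ℕ} {α : ℕ → ℤ} (hα : α ∈ Pinf h) : E.mon h α ∈ E.Wp h :=
  Submodule.subset_span ⟨α, hα, rfl⟩

theorem x_mul_Wp {h j : ℕ} (hj : j < h) {f : K} (hf : f ∈ E.Wp h) : E.x j * f ∈ E.Wp h := by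
  refine span_map (fun f => E.x j * f) (fun f g => mul_add _ f g)
    (fun r f => mul_smul_comm r _ f) ?_ hf
  rintro _ ⟨α, hα, rfl⟩
  show E.x j * E.mon h α ∈ _
  rw [← E.mon_bump_one hj]
  apply E.mon_mem_Wp
  refine ⟨fun i => ?_, fun i hi => ?_⟩
  · unfold bump
    have := hα.1 i
    split_ifs <;> omega
  · unfold bump
    rw [if_neg (by omega), hα.2 i hi, add_zero]

theorem b_mul_Wp {h : ℕ} {f : K} (hf : f ∈ E.Wp h) : E.b * f ∈ E.Wp h := by
  unfold b
  rw [← Algebra.smul_def]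
  exact Submodule.smul_mem _ _ hf

theorem one_mem_Wp (h : ℕ) : (1 : K) ∈ E.Wp h := by
  rw [← E.mon_zero h]
  exact E.mon_mem_Wp ⟨fun _ => le_rfl, fun _ _ => rfl⟩

/-- `(1 + β x_j) f`. -/
theorem one_add_mul_Wp {h j : ℕ} (hj : j < h) {f : K} (hf : f ∈ E.Wp h) :
    (1 + E.b * E.x j) * f ∈ E.Wp h := by
  have : (1 + E.b * E.x j) * f = f + E.b * (E.x j * f) := by ring
  rw [this]
  exact Submodule.add_mem _ hf (E.b_mul_Wp (E.x_mul_Wp hj hf))

theorem dd_one (i : ℕ) : E.dd i 1 = -E.b := by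
  unfold dd
  rw [map_one, div_eq_iff (E.x_sub_ne (by omega))]
  ring

theorem dd_x_mul (i : ℕ) (f : K) : E.dd i (E.x i * f) = E.D i f := by
  rw [dd_eq, ← mul_assoc, inv_mul_cancel₀ (E.x_ne i), one_mul]

theorem dd_x_succ_mul (i : ℕ) (f : K) :
    E.dd i (E.x (i + 1) * f) = E.x i * E.dd i f - (1 + E.b * E.x (i + 1)) * f := by
  have h1 := E.x_mul_D i ((E.x i)⁻¹ * f)
  rw [dd_eq, dd_eq, h1]
  have h2 := E.x_ne i
  have h3 : (E.x i)⁻¹ * (E.x (i + 1) * f) = E.x (i + 1) * ((E.x i)⁻¹ * f) := by ring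
  rw [h3]
  field_simp
  ring

theorem D_dd_mon_mem {h i : ℕ} (hi : i + 1 < h) : ∀ (d : ℕ) (α : ℕ → ℤ), α ∈ Pos h d →
    E.D i (E.mon h α) ∈ E.Wp h ∧ E.dd i (E.mon h α) ∈ E.Wp h := by
  have h0 : E.D i (E.mon h 0) ∈ E.Wp h ∧ E.dd i (E.mon h 0) ∈ E.Wp h := by
    rw [E.mon_zero, E.D_one, E.dd_one]
    refine ⟨E.one_mem_Wp h, ?_⟩
    have := E.b_mul_Wp (E.one_mem_Wp h)
    rw [mul_one] at this
    exact Submodule.neg_mem _ this
  intro d
  induction d with
  | zero =>
    intro α hα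
    rcases pos_cases hα with h1 | ⟨j, hj, h1, h2⟩
    · rw [h1]; exact h0
    · have := Pos_nonneg h1
      simp at this
  | succ d ih =>
    intro α hα
    rcases pos_cases hα with h1 | ⟨j, hj, h1, h2⟩
    · rw [h1]; exact h0
    · rw [h2, E.mon_bump_one hj]
      have h3 : bump α j (-1) ∈ Pos h d := by
        have : ((d + 1 : ℕ) : ℤ) - 1 = d := by push_cast; ring
        rwa [this] at h1
      obtain ⟨ih1, ih2⟩ := ih _ h3
      have hm := E.mon_mem_Wp (mem_Pinf_of_mem_Pos h3)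
      rcases eq_or_ne j i with rfl | h4
      · constructor
        · have h5 := E.x_succ_mul_D j (E.mon h (bump α j (-1)))
          rw [eq_sub_iff_add_eq] at h5
          rw [← h5, mul_assoc]
          exact Submodule.add_mem _ (E.x_mul_Wp hi ih1) (E.x_mul_Wp hj (E.one_add_mul_Wp hi hm))
        · rw [E.dd_x_mul]
          exact ih1
      · rcases eq_or_ne j (i + 1) with rfl | h5
        · constructor
          · have h5 := E.x_mul_D i (E.mon h (bump α (i + 1) (-1)))
            rw [← sub_eq_iff_eq_add] at h5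
            rw [← h5, mul_assoc]
            exact Submodule.sub_mem _ (E.x_mul_Wp (by omega) ih1)
              (E.x_mul_Wp (by omega) (E.one_add_mul_Wp hi hm))
          · rw [E.dd_x_succ_mul]
            exact Submodule.sub_mem _ (E.x_mul_Wp (by omega) ih2) (E.one_add_mul_Wp hi hm)
        · rw [E.D_mul i (E.t_x_of_ne h4 h5), E.dd_mul i (E.t_x_of_ne h4 h5)]
          exact ⟨E.x_mul_Wp hj ih1, E.x_mul_Wp hj ih2⟩

theorem dd_zero (i : ℕ) : E.dd i 0 = 0 := by
  unfold dd
  rw [map_zero]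
  ring

theorem dd_Wp {h i : ℕ} (hi : i + 1 < h) {f : K} (hf : f ∈ E.Wp h) : E.dd i f ∈ E.Wp h := by
  refine span_map (E.dd i) (fun f g => ?_) (fun r f => ?_) ?_ hf
  · rw [dd_eq, dd_eq, dd_eq, mul_add, D_add]
  · rw [dd_eq, dd_eq, mul_smul_comm, D_smul]
  · rintro _ ⟨α, hα, rfl⟩
    obtain ⟨d, hd⟩ := mem_Pos_of_mem_Pinf hα
    exact (E.D_dd_mon_mem hi d α hd).2

theorem D_Wp {h i : ℕ} (hi : i + 1 < h) {f : K} (hf : f ∈ E.Wp h) : E.D i f ∈ E.Wp h := by
  refine span_map (E.D i) (E.D_add i) (E.D_smul i) ?_ hf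
  rintro _ ⟨α, hα, rfl⟩
  obtain ⟨d, hd⟩ := mem_Pos_of_mem_Pinf hα
  exact (E.D_dd_mon_mem hi d α hd).1

theorem groth_mem_Wp {h n : ℕ} (hn : h ≤ n) : ∀ w : ℕ → ℤ, Dist n w →
    (∀ i, h ≤ i → code n w i = 0) → E.groth n w ∈ E.Wp h := by
  intro w
  induction hN : coinv n w using Nat.strong_induction_on generalizing w with
  | _ N ih =>
    subst hN
    intro hw hc
    by_cases H : ∃ i, code n w i < code n w (i + 1)
    · obtain ⟨i, hi⟩ := H
      have a1 := lt_of_code_lt hw hi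
      have hcs := coinv_sw a1
      have hih : i + 1 < h := by
        by_contra hcon
        rw [hc (i + 1) (by omega)] at hi
        omega
      rw [E.groth_asc a1]
      apply E.dd_Wp hih
      apply ih _ (by omega) (sw w i) rfl (hw.sw a1.1)
      intro j hj
      rw [code_sw_ne a1.1 (by omega) (by omega), hc j hj]
    · push Not at H
      rw [E.groth_dom w hw (fun i _ => H i), E.mon_extend hn (fun i hi _ => by
        rw [hc i hi]; rfl)]
      have e : E.mon h (fun i => (code n w i : ℤ)) =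
          E.mon h (fun i => if i < h then (code n w i : ℤ) else 0) :=
        E.mon_congr fun i hi => by rw [if_pos hi]
      rw [e]
      apply E.mon_mem_Wp
      refine ⟨fun i => ?_, fun i hi => ?_⟩
      · show (0 : ℤ) ≤ if i < h then (code n w i : ℤ) else 0
        split_ifs
        · positivity
        · exact le_rfl
      · show (if i < h then (code n w i : ℤ) else 0) = 0
        rw [if_neg (by omega)]

/-- The property that the indices occurring in a polynomial are nonnegative. -/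
def NN : Prop := ∀ (h : ℕ) (c : (ℕ → ℤ) →₀ R), (∀ α ∈ c.support, ∀ i, h ≤ i → α i = 0) →
    (c.sum fun α r => r • E.key h α) ∈ E.Wp h → ∀ α ∈ c.support, ∀ i, 0 ≤ α i

end Env

/-- Restriction to the first `h` entries. -/
def trunc (h : ℕ) (γ : ℕ → ℤ) : ℕ → ℤ := fun i => if i < h then γ i else 0

theorem affv_inj_eventually (s : Finset ((ℕ → ℤ) × (ℕ → ℤ))) :
    ∀ᶠ N : ℕ in atTop, Set.InjOn (fun p : (ℕ → ℤ) × (ℕ → ℤ) => affv p.1 p.2 N) s := by
  classical
  have key : ∀ p ∈ s, ∀ q ∈ s, ∀ᶠ N : ℕ in atTop, affv p.1 p.2 N = affv q.1 q.2 N → p = q := by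
    intro p _ q _
    by_cases hpq : p = q
    · exact Eventually.of_forall fun _ _ => hpq
    · have : ∃ i, ¬ (p.1 i = q.1 i ∧ p.2 i = q.2 i) := by
        by_contra hcon
        push Not at hcon
        exact hpq (Prod.ext (funext fun i => (hcon i).1) (funext fun i => (hcon i).2))
      obtain ⟨i, hi⟩ := this
      rcases aff_tri (p.1 i) (p.2 i) (q.1 i) (q.2 i) with h1 | h1 | h1
      · filter_upwards [h1] with N hN heq
        have h2 : affv p.1 p.2 N i = affv q.1 q.2 N i := congrFun heq i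
        exact absurd h2 (ne_of_lt hN)
      · exfalso
        apply hi
        have h2 := h1 0
        have h3 := h1 1
        push_cast at h2 h3
        constructor <;> omega
      · filter_upwards [h1] with N hN heq
        have h2 : affv p.1 p.2 N i = affv q.1 q.2 N i := congrFun heq i
        exact absurd h2.symm (ne_of_lt hN)
  have h1 := (eventually_all_finset s).2 fun p hp => (eventually_all_finset s).2 (key p hp)
  filter_upwards [h1] with N hN p hp q hq heq
  exact hN p hp q hq heq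

namespace Env

theorem ev_eq_sum_mapDomain {h : ℕ} (c : ((ℕ → ℤ) × (ℕ → ℤ)) →₀ R) (N : ℕ) :
    E.ev h c N = (c.mapDomain (fun p => affv p.1 p.2 N)).sum fun α r => r • E.key h α := by
  unfold ev
  rw [Finsupp.sum_mapDomain_index (by intro α; rw [zero_smul])
    (by intro α r s; rw [add_smul])]

theorem main (hnn : E.NN) (u : Equiv.Perm ℕ) (h : ℕ) (hu : ∀ i, h ≤ i → u i = i) :
    ∃ c : ((ℕ → ℤ) × (ℕ → ℤ)) →₀ R,
      (∀ p ∈ c.support, ∀ i, h ≤ i → p.1 i = 0 ∧ p.2 i = 0) ∧
      ∀ᶠ N : ℕ in atTop,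
        Set.InjOn (fun p : (ℕ → ℤ) × (ℕ → ℤ) => affv p.1 p.2 N) c.support ∧
        (∀ p ∈ c.support, ∀ i, 0 ≤ affv p.1 p.2 N i) ∧
        ∀ (w : Equiv.Perm ℕ) (n : ℕ), (∀ i, n ≤ i → w i = i) →
          (∀ i, lehmer w i = N * lehmer u i) → E.groth n (line w) = E.ev h c N := by
  classical
  -- the stretched permutations
  have hex : ∀ N : ℕ, ∃ w : Equiv.Perm ℕ, (∃ n, ∀ i, n ≤ i → w i = i) ∧
      ∀ i, lehmer w i = N * lehmer u i := fun N =>
    exists_perm h (fun i => N * lehmer u i) (fun i hi => by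
      rw [lehmer_eq_zero hu (by omega), mul_zero])
  choose w hw hl using hex
  choose n hn using hw
  have hn' : ∀ N i, max (n N) h ≤ i → w N i = i := fun N i hi => hn N i (by omega)
  have hF : (fun N => E.groth (max (n N) h) (line (w N))) ∈ E.Aff h := by
    apply E.aff_groth (fun i => (lehmer u i : ℤ)) 0
    filter_upwards with N
    refine ⟨le_max_right _ _, dist_line _ _, fun i _ => ?_, fun i hi => ?_⟩
    · rw [code_line (hn' N), hl]
      unfold affv
      simp
    · rw [code_line (hn' N), hl, lehmer_eq_zero hu (by omega), mul_zero]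
  obtain ⟨c0, hc0⟩ := E.exists_ev hF
  set c := c0.mapDomain (fun p : (ℕ → ℤ) × (ℕ → ℤ) => (trunc h p.1, trunc h p.2)) with hc
  have hev : ∀ N, E.ev h c N = E.ev h c0 N := by
    intro N
    unfold ev
    rw [hc, Finsupp.sum_mapDomain_index (by intro α; rw [zero_smul])
      (by intro α r s; rw [add_smul])]
    apply Finsupp.sum_congr
    intro p _
    congr 1
    apply E.key_congr
    intro i hi
    unfold affv trunc
    simp only [if_pos hi]
  have hcs : ∀ p ∈ c.support, ∀ i, h ≤ i → p.1 i = 0 ∧ p.2 i = 0 := by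
    intro p hp i hi
    have h1 := Finsupp.mapDomain_support hp
    rw [mem_image] at h1
    obtain ⟨q, _, rfl⟩ := h1
    unfold trunc
    simp only [if_neg (show ¬ i < h by omega), and_self]
  refine ⟨c, hcs, ?_⟩
  filter_upwards [hc0, affv_inj_eventually c.support] with N hN hinj
  have hgr : ∀ (w' : Equiv.Perm ℕ) (n' : ℕ), (∀ i, n' ≤ i → w' i = i) →
      (∀ i, lehmer w' i = N * lehmer u i) → E.groth n' (line w') = E.ev h c N := by
    intro w' n' h1 h2
    rw [hev, ← hN]
    apply E.groth_eq_of_code _ _ (dist_line _ _) (dist_line _ _)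
    intro i
    rw [code_line h1, code_line (hn' N), h2, hl]
  refine ⟨hinj, ?_, hgr⟩
  -- nonnegativity
  set cN := c.mapDomain (fun p : (ℕ → ℤ) × (ℕ → ℤ) => affv p.1 p.2 N) with hcN
  have hsupp : cN.support = c.support.image (fun p => affv p.1 p.2 N) :=
    Finsupp.mapDomain_support_of_injOn c hinj
  have hmem : (cN.sum fun α r => r • E.key h α) ∈ E.Wp h := by
    rw [← E.ev_eq_sum_mapDomain, ← hgr (w N) (max (n N) h) (hn' N) (hl N)]
    apply E.groth_mem_Wp (le_max_right _ _) _ (dist_line _ _)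
    intro i hi
    rw [code_line (hn' N), hl, lehmer_eq_zero hu (by omega), mul_zero]
  have h3 := hnn h cN (by
    intro α hα i hi
    rw [hsupp, mem_image] at hα
    obtain ⟨p, hp, rfl⟩ := hα
    obtain ⟨e1, e2⟩ := hcs p hp i hi
    unfold affv
    rw [e1, e2]
    ring) hmem
  intro p hp i
  apply h3
  rw [hsupp, mem_image]
  exact ⟨p, hp, rfl⟩

theorem Wp_le_span_key (hb : E.b = 0) (h : ℕ) :
    E.Wp h ≤ Submodule.span R (E.key h '' Pinf h) := by
  apply Submodule.span_le.2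
  rintro _ ⟨α, hα, rfl⟩
  obtain ⟨d, hd⟩ := mem_Pos_of_mem_Pinf hα
  have h1 := E.mon_mem_Wk hb d α hd
  have h2 : E.Wk h d ≤ Submodule.span R (E.key h '' Pinf h) :=
    Submodule.span_mono (Set.image_mono fun _ => mem_Pinf_of_mem_Pos)
  exact h2 h1

theorem nn_of_b_eq_zero (hb : E.b = 0) (hm : E.MonLI) : E.NN := by
  intro h c hc hf α hα
  exact (E.index_mem (E.key_li hb hm) (S := Pinf h) (fun _ h => h.2) c hc
    (E.Wp_le_span_key hb h hf) α hα).1

end Env

end Pool.Agent.Q161.Keys
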