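import Pool.Agent.Q161.KeyCore

/-!
# Linear independence of key polynomials (MP_26ab9b_co, MP_5ec843_co)
-/

namespace Pool.Agent.Q161.Keys

open Filter Finset

theorem li_of_span_eq {ι R M : Type*} [Fintype ι] [CommRing R] [AddCommGroup M] [Module R M]
    {v w : ι → M} (hv : LinearIndependent R v)
    (hsp : Submodule.span R (Set.range w) = Submodule.span R (Set.range v)) :
    LinearIndependent R w := by
  classical
  set Ψ := Fintype.linearCombination R v with hΨ
  set Φ := Fintype.linearCombination R w with hΦ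
  have hΨinj : Function.Injective Ψ := by
    rw [hΨ]
    exact linearIndependent_iff_injective_fintypeLinearCombination.1 hv
  have hrange : LinearMap.range Φ = LinearMap.range Ψ := by
    rw [hΦ, hΨ, Fintype.range_linearCombination, Fintype.range_linearCombination, hsp]
  let e := LinearEquiv.ofInjective Ψ hΨinj
  let Φ' : (ι → R) →ₗ[R] LinearMap.range Ψ :=
    Φ.codRestrict _ (fun x => by rw [← hrange]; exact LinearMap.mem_range_self _ _)
  have hsurj : Function.Surjective (e.symm.toLinearMap ∘ₗ Φ') := by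
    intro y
    have hy : ((e y : LinearMap.range Ψ) : M) ∈ LinearMap.range Φ := by
      rw [hrange]
      exact (e y).2
    obtain ⟨x, hx⟩ := hy
    refine ⟨x, ?_⟩
    have : Φ' x = e y := Subtype.ext hx
    show e.symm (Φ' x) = y
    rw [this, LinearEquiv.symm_apply_apply]
  have hinj := OrzechProperty.injective_of_surjective_endomorphism _ hsurj
  apply linearIndependent_iff_injective_fintypeLinearCombination.2
  intro x y hxy
  apply hinj
  show e.symm (Φ' x) = e.symm (Φ' y)
  congr 1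
  exact Subtype.ext hxy

variable {R K : Type*} [CommRing R] [Field K] [Algebra R K] (E : Env R K)

/-- Nonnegative exponents, supported in the first `h` entries, of sum at most `d`. -/
def Pos (h : ℕ) (d : ℤ) : Set (ℕ → ℤ) :=
  {α | (∀ i, 0 ≤ α i) ∧ (∀ i, h ≤ i → α i = 0) ∧ ∑ i ∈ range h, α i ≤ d}

theorem sum_sw {h i : ℕ} (hi : i + 1 < h) (α : ℕ → ℤ) :
    ∑ j ∈ range h, sw α i j = ∑ j ∈ range h, α j := by
  refine Finset.sum_nbij' (fun j => Equiv.swap i (i + 1) j) (fun j => Equiv.swap i (i + 1) j)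
    ?_ ?_ ?_ ?_ ?_
  · intro j hj
    rw [mem_range] at *
    exact swap_lt_h hi hj
  · intro j hj
    rw [mem_range] at *
    exact swap_lt_h hi hj
  · intro j _
    exact Equiv.swap_apply_self _ _ _
  · intro j _
    exact Equiv.swap_apply_self _ _ _
  · intro j _
    rfl

theorem sum_bump {h j : ℕ} (hj : j < h) (α : ℕ → ℤ) (c : ℤ) :
    ∑ i ∈ range h, Env.bump α j c i = ∑ i ∈ range h, α i + c := by
  unfold Env.bump
  rw [sum_add_distrib, sum_ite_eq' (range h) j, if_pos (mem_range.2 hj)]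

theorem pos_sw {h i : ℕ} {d : ℤ} {α : ℕ → ℤ} (hα : α ∈ Pos h d) (hi : i + 1 < h) :
    Keys.sw α i ∈ Pos h d := by
  obtain ⟨h1, h2, h3⟩ := hα
  refine ⟨fun j => h1 _, fun j hj => ?_, ?_⟩
  · rw [sw_ne α (by omega) (by omega), h2 j hj]
  · rw [sum_sw hi]
    exact h3

theorem pos_bump {h j : ℕ} {d : ℤ} {α : ℕ → ℤ} (hα : α ∈ Pos h d) (hj : j < h) :
    Env.bump α j 1 ∈ Pos h (d + 1) := by
  obtain ⟨h1, h2, h3⟩ := hα
  refine ⟨fun i => ?_, fun i hi => ?_, ?_⟩
  · unfold Env.bump
    have := h1 i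
    split_ifs <;> omega
  · unfold Env.bump
    rw [if_neg (by omega), h2 i hi, add_zero]
  · rw [sum_bump hj]
    omega

theorem pos_cases {h : ℕ} {d : ℤ} {α : ℕ → ℤ} (hα : α ∈ Pos h d) :
    α = 0 ∨ ∃ j < h, Env.bump α j (-1) ∈ Pos h (d - 1) ∧
      α = Env.bump (Env.bump α j (-1)) j 1 := by
  obtain ⟨h1, h2, h3⟩ := hα
  by_cases H : ∃ j, 0 < α j
  · obtain ⟨j, hj⟩ := H
    have hjh : j < h := by
      by_contra hcon
      rw [h2 j (by omega)] at hj
      omega
    refine Or.inr ⟨j, hjh, ⟨fun i => ?_, fun i hi => ?_, ?_⟩, ?_⟩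
    · unfold Env.bump
      have := h1 i
      split_ifs with h4
      · subst h4; omega
      · omega
    · unfold Env.bump
      rw [if_neg (by omega), h2 i hi, add_zero]
    · rw [sum_bump hjh]
      omega
    · funext i
      unfold Env.bump
      split_ifs <;> omega
  · left
    push Not at H
    funext i
    exact le_antisymm (H i) (h1 i)

theorem pos_mono {h : ℕ} {d d' : ℤ} (hd : d ≤ d') : Pos h d ⊆ Pos h d' :=
  fun _ ⟨h1, h2, h3⟩ => ⟨h1, h2, h3.trans hd⟩

namespace Env

/-- The span of the monomials. -/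
def Wm (h : ℕ) (d : ℤ) : Submodule R K := Submodule.span R (E.mon h '' Pos h d)

/-- The span of the keys. -/
def Wk (h : ℕ) (d : ℤ) : Submodule R K := Submodule.span R (E.key h '' Pos h d)

theorem mon_mem_Wm {h : ℕ} {d : ℤ} {α : ℕ → ℤ} (hα : α ∈ Pos h d) : E.mon h α ∈ E.Wm h d :=
  Submodule.subset_span ⟨α, hα, rfl⟩

theorem key_mem_Wk {h : ℕ} {d : ℤ} {α : ℕ → ℤ} (hα : α ∈ Pos h d) : E.key h α ∈ E.Wk h d :=
  Submodule.subset_span ⟨α, hα, rfl⟩

theorem Wm_mono {h : ℕ} {d d' : ℤ} (hd : d ≤ d') : E.Wm h d ≤ E.Wm h d' :=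
  Submodule.span_mono (Set.image_mono (pos_mono hd))

theorem Wk_mono {h : ℕ} {d d' : ℤ} (hd : d ≤ d') : E.Wk h d ≤ E.Wk h d' :=
  Submodule.span_mono (Set.image_mono (pos_mono hd))

theorem span_map {S : Set K} {W : Submodule R K} (L : K → K)
    (hadd : ∀ f g, L (f + g) = L f + L g) (hsmul : ∀ (r : R) f, L (r • f) = r • L f)
    (hS : ∀ f ∈ S, L f ∈ W) {f : K} (hf : f ∈ Submodule.span R S) : L f ∈ W := by
  induction hf using Submodule.span_induction with
  | mem f hf => exact hS f hf
  | zero =>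
    have := hsmul 0 0
    rw [zero_smul, zero_smul] at this
    rw [this]
    exact Submodule.zero_mem _
  | add f g _ _ hf hg => rw [hadd]; exact Submodule.add_mem _ hf hg
  | smul r f _ hf => rw [hsmul]; exact Submodule.smul_mem _ _ hf

theorem x_mul_Wm {h j : ℕ} (hj : j < h) {d : ℤ} {f : K} (hf : f ∈ E.Wm h d) :
    E.x j * f ∈ E.Wm h (d + 1) := by
  refine span_map (fun f => E.x j * f) (fun f g => mul_add _ f g)
    (fun r f => mul_smul_comm r _ f) ?_ hf
  rintro _ ⟨α, hα, rfl⟩
  have := E.mon_bump hj α 1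
  rw [zpow_one] at this
  show E.x j * E.mon h α ∈ _
  rw [← this]
  exact E.mon_mem_Wm (pos_bump hα hj)

theorem mon_zero (h : ℕ) : E.mon h 0 = 1 := by
  unfold mon
  simp

theorem mon_bump_one {h j : ℕ} (hj : j < h) (α : ℕ → ℤ) :
    E.mon h (bump α j 1) = E.x j * E.mon h α := by
  rw [E.mon_bump hj, zpow_one]

theorem zero_mem_Pos {h : ℕ} {d : ℤ} (hd : 0 ≤ d) : (0 : ℕ → ℤ) ∈ Pos h d :=
  ⟨fun _ => le_rfl, fun _ _ => rfl, by simpa using hd⟩

theorem Pos_nonneg {h : ℕ} {d : ℤ} {α : ℕ → ℤ} (hα : α ∈ Pos h d) : 0 ≤ d :=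
  le_trans (sum_nonneg fun i _ => hα.1 i) hα.2.2

theorem D_mon_mem {h i : ℕ} (hb : E.b = 0) (hi : i + 1 < h) : ∀ (d : ℕ) (α : ℕ → ℤ),
    α ∈ Pos h d → E.D i (E.mon h α) ∈ E.Wm h d := by
  intro d
  induction d with
  | zero =>
    intro α hα
    rcases pos_cases hα with h1 | ⟨j, hj, h1, h2⟩
    · rw [h1, E.mon_zero, E.D_one, ← E.mon_zero h]
      exact E.mon_mem_Wm (zero_mem_Pos le_rfl)
    · have := Pos_nonneg h1
      simp at this
  | succ d ih =>
    intro α hα
    rcases pos_cases hα with h1 | ⟨j, hj, h1, h2⟩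
    · rw [h1, E.mon_zero, E.D_one, ← E.mon_zero h]
      exact E.mon_mem_Wm (zero_mem_Pos (by positivity))
    · rw [h2, E.mon_bump_one hj]
      have h3 : bump α j (-1) ∈ Pos h d := by
        have : ((d + 1 : ℕ) : ℤ) - 1 = d := by push_cast; ring
        rwa [this] at h1
      have ih1 := ih _ h3
      have hm := E.mon_mem_Wm h3
      push_cast
      rcases eq_or_ne j i with rfl | h4
      · have h5 := E.x_succ_mul_D j (E.mon h (bump α j (-1)))
        rw [hb, zero_mul, add_zero, mul_one, eq_sub_iff_add_eq] at h5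
        rw [← h5]
        exact Submodule.add_mem _ (E.x_mul_Wm hi ih1) (E.x_mul_Wm hj hm)
      · rcases eq_or_ne j (i + 1) with rfl | h5
        · have h5 := E.x_mul_D i (E.mon h (bump α (i + 1) (-1)))
          rw [hb, zero_mul, add_zero, mul_one, ← sub_eq_iff_eq_add] at h5
          rw [← h5]
          exact Submodule.sub_mem _ (E.x_mul_Wm (by omega) ih1) (E.x_mul_Wm (by omega) hm)
        · rw [E.D_mul i (E.t_x_of_ne h4 h5)]
          exact E.x_mul_Wm hj ih1

theorem D_Wm {h i : ℕ} (hb : E.b = 0) (hi : i + 1 < h) {d : ℕ} {f : K} (hf : f ∈ E.Wm h d) :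
    E.D i f ∈ E.Wm h d := by
  refine span_map (E.D i) (E.D_add i) (E.D_smul i) ?_ hf
  rintro _ ⟨α, hα, rfl⟩
  exact E.D_mon_mem hb hi d α hα

theorem key_mem_Wm {h : ℕ} (hb : E.b = 0) {d : ℕ} : ∀ (α : ℕ → ℤ), α ∈ Pos h d →
    E.key h α ∈ E.Wm h d := by
  intro α
  induction hN : coinv h α using Nat.strong_induction_on generalizing α with
  | _ N ih =>
    subst hN
    intro hα
    by_cases H : ∃ i, Asc h α i
    · obtain ⟨i, hi⟩ := H
      have := coinv_sw hi
      rw [E.key_asc hi]
      exact E.D_Wm hb hi.1 (ih _ (by omega) (sw α i) rfl (pos_sw hα hi.1))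
    · push Not at H
      rw [E.key_dom H]
      exact E.mon_mem_Wm hα

theorem D_Wk {h i : ℕ} (hi : i + 1 < h) {d : ℤ} {f : K} (hf : f ∈ E.Wk h d) :
    E.D i f ∈ E.Wk h d := by
  refine span_map (E.D i) (E.D_add i) (E.D_smul i) ?_ hf
  rintro _ ⟨α, hα, rfl⟩
  rcases E.D_key h i hi α with h1 | h1
  · rw [h1]; exact E.key_mem_Wk hα
  · rw [h1]; exact E.key_mem_Wk (pos_sw hα hi)

theorem x_mul_key {h : ℕ} (hb : E.b = 0) {d : ℤ} : ∀ (α : ℕ → ℤ), α ∈ Pos h d → ∀ j < h,
    E.x j * E.key h α ∈ E.Wk h (d + 1) := by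
  intro α
  induction hN : coinv h α using Nat.strong_induction_on generalizing α with
  | _ N ih =>
    subst hN
    intro hα
    by_cases H : ∃ i, Asc h α i
    · obtain ⟨i, hi⟩ := H
      have := coinv_sw hi
      have ih' := ih _ (by omega) (sw α i) rfl (pos_sw hα hi.1)
      intro j hj
      rw [E.key_asc hi]
      rcases eq_or_ne j i with rfl | h1
      · have h5 := E.x_mul_D j (E.key h (sw α j))
        rw [hb, zero_mul, add_zero, mul_one] at h5
        rw [h5]
        exact Submodule.add_mem _ (E.D_Wk hi.1 (ih' _ hi.1)) (ih' _ hj)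
      · rcases eq_or_ne j (i + 1) with rfl | h2
        · have h5 := E.x_succ_mul_D i (E.key h (sw α i))
          rw [hb, zero_mul, add_zero, mul_one] at h5
          rw [h5]
          exact Submodule.sub_mem _ (E.D_Wk hi.1 (ih' _ (by omega))) (ih' _ (by omega))
        · rw [← E.D_mul i (E.t_x_of_ne h1 h2)]
          exact E.D_Wk hi.1 (ih' j hj)
    · push Not at H
      intro j
      induction j with
      | zero =>
        intro hj
        have h1 : ∀ i, ¬ Asc h (bump α 0 1) i := by
          intro i hi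
          refine H i ⟨hi.1, ?_⟩
          have h2 := hi.2
          unfold bump at h2
          rw [if_neg (show i + 1 ≠ 0 by omega)] at h2
          split_ifs at h2 <;> omega
        rw [E.key_dom H, ← E.mon_bump_one hj, ← E.key_dom h1]
        exact E.key_mem_Wk (pos_bump hα hj)
      | succ j ihj =>
        intro hj
        rcases lt_trichotomy (α j) (α (j + 1)) with h1 | h1 | h1
        · exact absurd ⟨hj, h1⟩ (H j)
        · have h5 := E.x_succ_mul_D j (E.key h α)
          rw [hb, zero_mul, add_zero, mul_one, E.D_key_eq α j hj h1] at h5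
          rw [h5]
          exact Submodule.sub_mem _ (E.D_Wk hj (ihj (by omega))) (ihj (by omega))
        · have h2 : ∀ i, ¬ Asc h (bump α (j + 1) 1) i := by
            intro i hi
            refine H i ⟨hi.1, ?_⟩
            have h2 := hi.2
            unfold bump at h2
            rcases eq_or_ne i j with rfl | h3
            · rw [if_pos rfl, if_neg (by omega)] at h2
              omega
            · rw [if_neg (show i + 1 ≠ j + 1 by omega)] at h2
              split_ifs at h2 <;> omega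
          rw [E.key_dom H, ← E.mon_bump_one hj, ← E.key_dom h2]
          exact E.key_mem_Wk (pos_bump hα hj)

theorem x_mul_Wk {h j : ℕ} (hb : E.b = 0) (hj : j < h) {d : ℤ} {f : K} (hf : f ∈ E.Wk h d) :
    E.x j * f ∈ E.Wk h (d + 1) := by
  refine span_map (fun f => E.x j * f) (fun f g => mul_add _ f g)
    (fun r f => mul_smul_comm r _ f) ?_ hf
  rintro _ ⟨α, hα, rfl⟩
  exact E.x_mul_key hb α hα j hj

theorem mon_mem_Wk {h : ℕ} (hb : E.b = 0) : ∀ (d : ℕ) (α : ℕ → ℤ), α ∈ Pos h d →
    E.mon h α ∈ E.Wk h d := by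
  have h0 : E.key h 0 = 1 := by
    rw [E.key_dom, E.mon_zero]
    intro i hi
    exact absurd hi.2 (lt_irrefl _)
  intro d
  induction d with
  | zero =>
    intro α hα
    rcases pos_cases hα with h1 | ⟨j, hj, h1, h2⟩
    · rw [h1, E.mon_zero, ← h0]
      exact E.key_mem_Wk (zero_mem_Pos le_rfl)
    · have := Pos_nonneg h1
      simp at this
  | succ d ih =>
    intro α hα
    rcases pos_cases hα with h1 | ⟨j, hj, h1, h2⟩
    · rw [h1, E.mon_zero, ← h0]
      exact E.key_mem_Wk (zero_mem_Pos (by positivity))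
    · rw [h2, E.mon_bump_one hj]
      have h3 : bump α j (-1) ∈ Pos h d := by
        have : ((d + 1 : ℕ) : ℤ) - 1 = d := by push_cast; ring
        rwa [this] at h1
      push_cast
      exact E.x_mul_Wk hb hj (ih _ h3)

theorem Wk_eq_Wm {h : ℕ} (hb : E.b = 0) (d : ℕ) : E.Wk h d = E.Wm h d := by
  apply le_antisymm
  · apply Submodule.span_le.2
    rintro _ ⟨α, hα, rfl⟩
    exact E.key_mem_Wm hb α hα
  · apply Submodule.span_le.2
    rintro _ ⟨α, hα, rfl⟩
    exact E.mon_mem_Wk hb d α hα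

end Env

theorem Pos_finite (h d : ℕ) : (Pos h d).Finite := by
  have : Set.Finite (Set.univ : Set (Fin h → Fin (d + 1))) := Set.finite_univ
  refine Set.Finite.of_injOn
    (f := fun (α : ℕ → ℤ) (i : Fin h) => (⟨min (α i).toNat d, by omega⟩ : Fin (d + 1)))
    (fun _ _ => Set.mem_univ _) ?_ this
  intro α hα β hβ heq
  have key : ∀ {α : ℕ → ℤ}, α ∈ Pos h d → ∀ i < h, α i ≤ d := by
    intro α hα i hi
    refine le_trans ?_ hα.2.2
    exact single_le_sum (fun j _ => hα.1 j) (mem_range.2 hi)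
  funext i
  rcases Nat.lt_or_ge i h with hi | hi
  · have h1 := congrFun heq ⟨i, hi⟩
    have h2 := congrArg Fin.val h1
    simp only at h2
    have h3 := key hα i hi
    have h4 := key hβ i hi
    have h5 := hα.1 i
    have h6 := hβ.1 i
    omega
  · rw [hα.2.1 i hi, hβ.2.1 i hi]

namespace Env

/-- The monomials with nonnegative exponents are linearly independent. -/
def MonLI : Prop := ∀ h d : ℕ, LinearIndependent R (fun α : Pos h d => E.mon h α.1)

theorem key_li (hb : E.b = 0) (hm : E.MonLI) (h d : ℕ) :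
    LinearIndependent R (fun α : Pos h d => E.key h α.1) := by
  have : Fintype (Pos h d) := (Pos_finite h d).fintype
  refine li_of_span_eq (hm h d) ?_
  have e1 : Set.range (fun α : Pos h d => E.key h α.1) = E.key h '' Pos h d := by
    rw [Set.image_eq_range]
  have e2 : Set.range (fun α : Pos h d => E.mon h α.1) = E.mon h '' Pos h d := by
    rw [Set.image_eq_range]
  rw [e1, e2]
  exact E.Wk_eq_Wm hb d

end Env

end Pool.Agent.Q161.Keys
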