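import Pool.Agent.Q161.KeyInd

/-!
# Linear independence of Laurent keys; nonnegative indices (MP_26ab9b_co, MP_5ec843_co)
-/

namespace Pool.Agent.Q161.Keys

open Filter Finset

variable {R K : Type*} [CommRing R] [Field K] [Algebra R K] (E : Env R K)

theorem asc_congr {h : ℕ} {α β : ℕ → ℤ} (H : ∀ i < h, α i = β i) {i : ℕ} (hi : Asc h α i) :
    Asc h β i := by
  have h1 := hi.1
  refine ⟨h1, ?_⟩
  rw [← H i (by omega), ← H (i + 1) h1]
  exact hi.2

theorem sw_congr {h : ℕ} {α β : ℕ → ℤ} (H : ∀ i < h, α i = β i) {i : ℕ} (hi : i + 1 < h) :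
    ∀ j < h, sw α i j = sw β i j := fun _ hj => H _ (swap_lt_h hi hj)

namespace Env

theorem key_congr {h : ℕ} : ∀ (α β : ℕ → ℤ), (∀ i < h, α i = β i) →
    E.key h α = E.key h β := by
  intro α
  induction hN : coinv h α using Nat.strong_induction_on generalizing α with
  | _ N ih =>
    subst hN
    intro β H
    by_cases hA : ∃ i, Asc h α i
    · obtain ⟨i, hi⟩ := hA
      have := coinv_sw hi
      rw [E.key_asc hi, E.key_asc (asc_congr H hi)]
      rw [ih _ (by omega) (sw α i) rfl (sw β i) (sw_congr H hi.1)]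
    · push Not at hA
      have hB : ∀ i, ¬ Asc h β i := fun i hi => hA i (asc_congr (fun j hj => (H j hj).symm) hi)
      rw [E.key_dom hA, E.key_dom hB]
      unfold mon
      exact prod_congr rfl fun i hi => by rw [H i (mem_range.1 hi)]

/-- The product of the first `h` variables. -/
def X (h : ℕ) : K := ∏ i ∈ range h, E.x i

theorem X_ne (h : ℕ) : E.X h ≠ 0 := prod_ne_zero_iff.2 fun i _ => E.x_ne i

theorem t_X {h i : ℕ} (hi : i + 1 < h) : E.t i (E.X h) = E.X h := by
  have h1 : E.X h = E.mon h (fun _ => 1) := by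
    unfold X mon
    exact prod_congr rfl fun i _ => (zpow_one _).symm
  rw [h1, E.t_mon hi, sw_of_eq rfl]

theorem mon_shift (h : ℕ) (α : ℕ → ℤ) (m : ℕ) :
    E.mon h (fun i => α i + m) = E.X h ^ m * E.mon h α := by
  unfold mon X
  rw [← prod_pow, ← prod_mul_distrib]
  apply prod_congr rfl
  intro i _
  rw [zpow_add₀ (E.x_ne i), zpow_natCast, mul_comm]

theorem key_shift {h : ℕ} (m : ℕ) : ∀ (α : ℕ → ℤ),
    E.key h (fun i => α i + m) = E.X h ^ m * E.key h α := by
  intro α
  induction hN : coinv h α using Nat.strong_induction_on generalizing α with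
  | _ N ih =>
    subst hN
    by_cases hA : ∃ i, Asc h α i
    · obtain ⟨i, hi⟩ := hA
      have := coinv_sw hi
      have hi' : Asc h (fun i => α i + m) i := ⟨hi.1, by
        have := hi.2
        show α i + m < α (i + 1) + m
        omega⟩
      rw [E.key_asc hi, E.key_asc hi']
      have e : sw (fun i => α i + (m : ℤ)) i = fun j => sw α i j + m := rfl
      rw [e, ih _ (by omega) (sw α i) rfl, E.D_mul i (by rw [map_pow, E.t_X hi.1])]
    · push Not at hA
      have hB : ∀ i, ¬ Asc h (fun i => α i + m) i := fun i hi =>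
        hA i ⟨hi.1, by
          have h2 : α i + m < α (i + 1) + m := hi.2
          omega⟩
      rw [E.key_dom hA, E.key_dom hB, E.mon_shift]

/-- Linear independence of the keys with exponents in a finite range. -/
def KeyLI : Prop := ∀ h d : ℕ, LinearIndependent R (fun α : Pos h d => E.key h α.1)

theorem key_indep (hk : E.KeyLI) {h : ℕ} (c : (ℕ → ℤ) →₀ R)
    (hc : ∀ α ∈ c.support, ∀ i, h ≤ i → α i = 0)
    (h0 : (c.sum fun α r => r • E.key h α) = 0) : c = 0 := by
  classical
  -- a shift making everything nonnegative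
  obtain ⟨m, hm⟩ : ∃ m : ℕ, ∀ α ∈ c.support, ∀ i < h, 0 ≤ α i + m := by
    refine ⟨c.support.sup fun α => (range h).sup fun i => (α i).natAbs, fun α hα i hi => ?_⟩
    have h1 : (α i).natAbs ≤ (range h).sup fun i => (α i).natAbs :=
      le_sup (f := fun i => (α i).natAbs) (mem_range.2 hi)
    have h2 := le_sup (f := fun α : ℕ → ℤ => (range h).sup fun i => (α i).natAbs) hα
    omega
  set sh : (ℕ → ℤ) → ℕ → ℤ := fun α i => if i < h then α i + m else 0 with hsh
  obtain ⟨d, hd⟩ : ∃ d : ℕ, ∀ α ∈ c.support, sh α ∈ Pos h d := by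
    refine ⟨c.support.sup fun α => (∑ i ∈ range h, sh α i).toNat, fun α hα => ⟨?_, ?_, ?_⟩⟩
    · intro i
      simp only [hsh]
      split_ifs with h1
      · exact hm α hα i h1
      · exact le_rfl
    · intro i hi
      simp only [hsh]
      rw [if_neg (by omega)]
    · have h2 := le_sup (f := fun α : ℕ → ℤ => (∑ i ∈ range h, sh α i).toNat) hα
      omega
  have hinj : Function.Injective (fun α : c.support => (⟨sh α.1, hd α.1 α.2⟩ : Pos h d)) := by
    intro α β heq
    have h1 : sh α.1 = sh β.1 := congrArg Subtype.val heq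
    apply Subtype.ext
    funext i
    rcases Nat.lt_or_ge i h with hi | hi
    · have h2 := congrFun h1 i
      simp only [hsh, if_pos hi] at h2
      omega
    · rw [hc _ α.2 i hi, hc _ β.2 i hi]
  have hli := (hk h d).comp _ hinj
  have hkey : ∀ α, E.key h (sh α) = E.X h ^ m * E.key h α := by
    intro α
    rw [← E.key_shift]
    apply E.key_congr
    intro i hi
    simp only [hsh, if_pos hi]
  have hsum : ∑ α : c.support, c α.1 •
      (((fun α : Pos h d => E.key h α.1) ∘
        fun α : c.support => (⟨sh α.1, hd α.1 α.2⟩ : Pos h d)) α) = 0 := by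
    have h1 : ∀ α : c.support, c α.1 •
      (((fun α : Pos h d => E.key h α.1) ∘
        fun α : c.support => (⟨sh α.1, hd α.1 α.2⟩ : Pos h d)) α) =
        E.X h ^ m * (c α.1 • E.key h α.1) := by
      intro α
      show c α.1 • E.key h (sh α.1) = _
      rw [hkey, mul_smul_comm]
    rw [sum_congr rfl fun α _ => h1 α, ← mul_sum,
      sum_coe_sort c.support (fun α => c α • E.key h α)]
    have : ∑ α ∈ c.support, c α • E.key h α = 0 := h0
    rw [this, mul_zero]
  have hz := Fintype.linearIndependent_iff.1 hli (fun α => c α.1) hsum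
  ext α
  by_cases hα : α ∈ c.support
  · exact hz ⟨α, hα⟩
  · rw [Finsupp.notMem_support_iff.1 hα, Finsupp.zero_apply]

/-- An element of the span of the keys with index in `S` is a finite combination of them. -/
theorem exists_finsupp {h : ℕ} {S : Set (ℕ → ℤ)} {f : K}
    (hf : f ∈ Submodule.span R (E.key h '' S)) :
    ∃ c : (ℕ → ℤ) →₀ R, (∀ α ∈ c.support, α ∈ S) ∧ f = c.sum fun α r => r • E.key h α := by
  classical
  rw [Finsupp.mem_span_image_iff_linearCombination] at hf
  obtain ⟨c, hc, rfl⟩ := hf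
  exact ⟨c, fun α hα => hc hα, rfl⟩

theorem index_mem {h : ℕ} (hk : E.KeyLI) {S : Set (ℕ → ℤ)}
    (hS : ∀ α ∈ S, ∀ i, h ≤ i → α i = 0) (c : (ℕ → ℤ) →₀ R)
    (hc : ∀ α ∈ c.support, ∀ i, h ≤ i → α i = 0)
    (hf : (c.sum fun α r => r • E.key h α) ∈ Submodule.span R (E.key h '' S)) :
    ∀ α ∈ c.support, α ∈ S := by
  classical
  obtain ⟨c', hc', he⟩ := E.exists_finsupp hf
  have h1 : c - c' = 0 := by
    apply E.key_indep hk
    · intro α hα
      have h2 := Finsupp.support_sub hα
      rw [mem_union] at h2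
      rcases h2 with h2 | h2
      · exact hc α h2
      · exact hS α (hc' α h2)
    · rw [Finsupp.sum_sub_index (by intro α r s; rw [sub_smul]), he, sub_self]
  rw [sub_eq_zero] at h1
  rw [h1]
  exact hc'

end Env

end Pool.Agent.Q161.Keys
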