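import Pool.Agent.Q161.KeyConc

/-!
# Positivity from key-positivity; enumeration of the terms (MP_26ab9b_co, MP_5ec843_co)
-/

namespace Pool.Agent.Q161.Keys

open Filter Finset

namespace Env

variable {R K : Type*} [CommRing R] [Field K] [Algebra R K] (E : Env R K)

theorem key_extend {h n : ℕ} (hn : h ≤ n) : ∀ α : ℕ → ℤ, α ∈ Pinf h →
    E.key n α = E.key h α := by
  intro α
  induction hN : coinv n α using Nat.strong_induction_on generalizing α with
  | _ N ih =>
    subst hN
    intro hα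
    by_cases H : ∃ i, Asc n α i
    · obtain ⟨i, hi⟩ := H
      have hcs := coinv_sw hi
      have hih : i + 1 < h := by
        by_contra hcon
        have h1 := hi.2
        rw [hα.2 (i + 1) (by omega)] at h1
        have := hα.1 i
        omega
      have hi' : Asc h α i := ⟨hih, hi.2⟩
      rw [E.key_asc hi, E.key_asc hi']
      rw [ih _ (by omega) (sw α i) rfl ⟨fun j => hα.1 _, fun j hj => by
        rw [sw_ne α (by omega) (by omega), hα.2 j hj]⟩]
    · push Not at H
      have H' : ∀ i, ¬ Asc h α i := fun i hi => H i ⟨by have := hi.1; omega, hi.2⟩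
      rw [E.key_dom H, E.key_dom H', E.mon_extend hn (fun i hi _ => hα.2 i hi)]

theorem coeff_eq (hk : E.KeyLI)
    {h n : ℕ} (hn : h ≤ n) (c : ((ℕ → ℤ) × (ℕ → ℤ)) →₀ R)
    (hcs : ∀ p ∈ c.support, ∀ i, h ≤ i → p.1 i = 0 ∧ p.2 i = 0) (N : ℕ)
    (hinj : Set.InjOn (fun p : (ℕ → ℤ) × (ℕ → ℤ) => affv p.1 p.2 N) c.support)
    (hnn : ∀ p ∈ c.support, ∀ i, 0 ≤ affv p.1 p.2 N i)
    (d : (ℕ → ℤ) →₀ R) (hd : ∀ α ∈ d.support, ∀ i, n ≤ i → α i = 0)
    (heq : E.ev h c N = d.sum fun α r => r • E.key n α) :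
    ∀ p ∈ c.support, c p = d (affv p.1 p.2 N) := by
  classical
  set cN := c.mapDomain (fun p : (ℕ → ℤ) × (ℕ → ℤ) => affv p.1 p.2 N) with hcN
  have hsupp : cN.support = c.support.image (fun p => affv p.1 p.2 N) :=
    Finsupp.mapDomain_support_of_injOn c hinj
  have hPinf : ∀ α ∈ cN.support, α ∈ Pinf h := by
    intro α hα
    rw [hsupp, mem_image] at hα
    obtain ⟨p, hp, rfl⟩ := hα
    refine ⟨hnn p hp, fun i hi => ?_⟩
    obtain ⟨e1, e2⟩ := hcs p hp i hi
    unfold affv
    rw [e1, e2]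
    ring
  have h1 : (cN.sum fun α r => r • E.key n α) = E.ev h c N := by
    rw [E.ev_eq_sum_mapDomain]
    apply Finsupp.sum_congr
    intro α hα
    rw [E.key_extend hn α (hPinf α hα)]
  have h3 : cN - d = 0 := by
    apply E.key_indep (h := n) hk
    · intro α hα i hi
      have h4 := Finsupp.support_sub hα
      rw [mem_union] at h4
      rcases h4 with h4 | h4
      · exact (hPinf α h4).2 i (by omega)
      · exact hd α h4 i hi
    · rw [Finsupp.sum_sub_index (by intro α r s; rw [sub_smul]), h1, heq, sub_self]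
  rw [sub_eq_zero] at h3
  intro p hp
  have h4 : cN (affv p.1 p.2 N) = c p :=
    Finsupp.mapDomain_apply' (c.support : Set _) c (fun _ h => h) hinj hp
  rw [← h4, h3]

end Env

end Pool.Agent.Q161.Keys
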