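import Pool.Agent.Q161.KeyAff

/-!
# Grothendieck polynomials of permutations with affine codes (MP_26ab9b_co, MP_5ec843_co)
-/

namespace Pool.Agent.Q161.Keys

open Filter Finset

/-- The set counted by the Lehmer code. -/
def codeSet (n : ℕ) (w : ℕ → ℤ) (i : ℕ) : Finset ℕ := (range n).filter (fun j => i < j ∧ w j < w i)

/-- The Lehmer code of the sequence `w 0, …, w (n-1)`. -/
def code (n : ℕ) (w : ℕ → ℤ) (i : ℕ) : ℕ := (codeSet n w i).card

theorem mem_codeSet {n : ℕ} {w : ℕ → ℤ} {i j : ℕ} :
    j ∈ codeSet n w i ↔ j < n ∧ i < j ∧ w j < w i := by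
  unfold codeSet
  rw [mem_filter, mem_range]

theorem code_sw_left {n : ℕ} {w : ℕ → ℤ} {i : ℕ} (hi : Asc n w i) :
    code n (sw w i) i = code n w (i + 1) + 1 := by
  have h1 := hi.1
  have h2 := hi.2
  have : codeSet n (sw w i) i = insert (i + 1) (codeSet n w (i + 1)) := by
    ext j
    rw [mem_insert, mem_codeSet, mem_codeSet, sw_left]
    rcases eq_or_ne j (i + 1) with rfl | hj
    · rw [sw_right]
      constructor
      · intro _; left; rfl
      · intro _; exact ⟨h1, by omega, h2⟩
    · constructor
      · rintro ⟨a1, a2, a3⟩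
        right
        rw [sw_ne w (by omega) hj] at a3
        exact ⟨a1, by omega, a3⟩
      · rintro (a1 | ⟨a1, a2, a3⟩)
        · exact absurd a1 hj
        · rw [sw_ne w (by omega) hj]
          exact ⟨a1, by omega, a3⟩
  unfold code
  rw [this, card_insert_of_notMem]
  rw [mem_codeSet]
  intro h
  omega

theorem code_sw_right {n : ℕ} {w : ℕ → ℤ} {i : ℕ} (hi : Asc n w i) :
    code n (sw w i) (i + 1) = code n w i := by
  have h2 := hi.2
  unfold code
  congr 1
  ext j
  rw [mem_codeSet, mem_codeSet, sw_right]
  constructor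
  · rintro ⟨a1, a2, a3⟩
    rw [sw_ne w (by omega) (by omega)] at a3
    exact ⟨a1, by omega, a3⟩
  · rintro ⟨a1, a2, a3⟩
    have : j ≠ i + 1 := by
      rintro rfl
      omega
    rw [sw_ne w (by omega) this]
    exact ⟨a1, by omega, a3⟩

theorem code_sw_ne {n : ℕ} {w : ℕ → ℤ} {i j : ℕ} (hi : i + 1 < n) (h1 : j ≠ i) (h2 : j ≠ i + 1) :
    code n (sw w i) j = code n w j := by
  unfold code
  refine Finset.card_nbij' (fun k => Equiv.swap i (i + 1) k) (fun k => Equiv.swap i (i + 1) k)
    ?_ ?_ ?_ ?_
  · intro k hk
    rw [mem_coe, mem_codeSet] at *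
    obtain ⟨a1, a2, a3⟩ := hk
    refine ⟨swap_lt_h hi a1, ?_, ?_⟩
    · show j < Equiv.swap i (i + 1) k
      rw [Equiv.swap_apply_def]
      split_ifs <;> omega
    · rw [sw_ne w h1 h2] at a3
      exact a3
  · intro k hk
    rw [mem_coe, mem_codeSet] at *
    obtain ⟨a1, a2, a3⟩ := hk
    refine ⟨swap_lt_h hi a1, ?_, ?_⟩
    · show j < Equiv.swap i (i + 1) k
      rw [Equiv.swap_apply_def]
      split_ifs <;> omega
    · rw [sw_ne w h1 h2]
      show w (Equiv.swap i (i + 1) (Equiv.swap i (i + 1) k)) < w j
      rwa [Equiv.swap_apply_self]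
  · intro k _
    exact Equiv.swap_apply_self _ _ _
  · intro k _
    exact Equiv.swap_apply_self _ _ _

theorem code_le_of_lt {n : ℕ} {w : ℕ → ℤ} {i : ℕ} (h : w i < w (i + 1)) :
    code n w i ≤ code n w (i + 1) := by
  apply card_le_card
  intro j
  rw [mem_codeSet, mem_codeSet]
  rintro ⟨a1, a2, a3⟩
  refine ⟨a1, ?_, a3.trans h⟩
  have : j ≠ i + 1 := by
    rintro rfl
    omega
  omega

theorem code_lt_of_gt {n : ℕ} {w : ℕ → ℤ} {i : ℕ} (hi : i + 1 < n) (h : w (i + 1) < w i) :
    code n w (i + 1) < code n w i := by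
  apply card_lt_card
  rw [ssubset_iff_of_subset]
  · refine ⟨i + 1, mem_codeSet.2 ⟨hi, by omega, h⟩, ?_⟩
    rw [mem_codeSet]
    intro h
    omega
  · intro j
    rw [mem_codeSet, mem_codeSet]
    rintro ⟨a1, a2, a3⟩
    exact ⟨a1, by omega, a3.trans h⟩

theorem code_eq_zero {n : ℕ} {w : ℕ → ℤ} {i : ℕ} (hi : n ≤ i + 1) : code n w i = 0 := by
  unfold code
  rw [card_eq_zero]
  ext j
  rw [mem_codeSet]
  simp
  intro h1 h2
  omega

/-- The entries `w 0, …, w (n-1)` are distinct. -/
def Dist (n : ℕ) (w : ℕ → ℤ) : Prop := ∀ p q, p < q → q < n → w p ≠ w q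

theorem Dist.sw {n : ℕ} {w : ℕ → ℤ} (hw : Dist n w) {i : ℕ} (hi : i + 1 < n) :
    Dist n (sw w i) := by
  intro p q hpq hq heq
  unfold Keys.sw at heq
  rcases lt_trichotomy (Equiv.swap i (i + 1) p) (Equiv.swap i (i + 1) q) with h | h | h
  · exact hw _ _ h (swap_lt_h hi hq) heq
  · exact hpq.ne ((Equiv.swap i (i + 1)).injective h)
  · exact hw _ _ h (swap_lt_h hi (by omega)) heq.symm

theorem lt_of_code_lt {n : ℕ} {w : ℕ → ℤ} (hw : Dist n w) {i : ℕ}
    (h : code n w i < code n w (i + 1)) : Asc n w i := by
  have hi : i + 1 < n := by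
    by_contra hcon
    rw [code_eq_zero (i := i + 1) (by omega)] at h
    omega
  refine ⟨hi, ?_⟩
  rcases lt_trichotomy (w i) (w (i + 1)) with h1 | h1 | h1
  · exact h1
  · exact absurd h1 (hw i (i + 1) (by omega) hi)
  · have := code_lt_of_gt hi h1
    omega

variable {R K : Type*} [CommRing R] [Field K] [Algebra R K] (E : Env R K)

namespace Env

/-- The Grothendieck polynomial of the permutation with one-line notation `w 0, …, w (n-1)`. -/
noncomputable def groth (n : ℕ) (w : ℕ → ℤ) : K :=
  climb E.dd (fun _ => E.mon n (fun i => (n : ℤ) - 1 - i)) n w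

theorem groth_asc {n : ℕ} {w : ℕ → ℤ} {i : ℕ} (hi : Asc n w i) :
    E.groth n w = E.dd i (E.groth n (sw w i)) :=
  climb_eq _ (fun _ _ f h => E.dd_comm h f) (fun i f => E.dd_braid i f) w i hi

theorem mon_congr {h : ℕ} {α α' : ℕ → ℤ} (H : ∀ i < h, α i = α' i) : E.mon h α = E.mon h α' := by
  unfold mon
  exact prod_congr rfl fun i hi => by rw [H i (mem_range.1 hi)]

theorem mon_extend {h n : ℕ} (hn : h ≤ n) {α : ℕ → ℤ} (H : ∀ i, h ≤ i → i < n → α i = 0) :
    E.mon n α = E.mon h α := by
  unfold mon
  symm
  apply prod_subset (range_subset_range.2 hn)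
  intro i hi hi'
  rw [mem_range] at *
  rw [H i (by omega) hi, zpow_zero]

theorem groth_dom {n : ℕ} : ∀ w : ℕ → ℤ, Dist n w →
    (∀ i, i + 1 < n → code n w (i + 1) ≤ code n w i) →
    E.groth n w = E.mon n (fun i => code n w i) := by
  intro w
  induction hN : coinv n w using Nat.strong_induction_on generalizing w with
  | _ N ih =>
    subst hN
    intro hw hd
    classical
    by_cases H : ∃ i, Asc n w i
    · set i := Nat.find H with hi
      have hAsc : Asc n w i := Nat.find_spec H
      have hi1 := hAsc.1
      have hc : code n w i = code n w (i + 1) :=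
        le_antisymm (code_le_of_lt hAsc.2) (hd i hi1)
      have hcs := coinv_sw hAsc
      have e1 := code_sw_left hAsc
      have e2 := code_sw_right hAsc
      have hd' : ∀ j, j + 1 < n → code n (sw w i) (j + 1) ≤ code n (sw w i) j := by
        intro j hj
        rcases eq_or_ne j i with rfl | h1
        · rw [e1, e2]
          omega
        · rcases eq_or_ne j (i + 1) with rfl | h2
          · rw [e2, code_sw_ne hi1 (j := i + 1 + 1) (by omega) (by omega)]
            have := hd (i + 1) hj
            omega
          · rcases eq_or_ne (j + 1) i with h3 | h3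
            · rw [h3, e1, code_sw_ne hi1 h1 h2]
              have hna : ¬ Asc n w j := Nat.find_min H (by rw [← hi]; omega)
              have hlt : w (j + 1) < w j := by
                rcases lt_trichotomy (w j) (w (j + 1)) with h4 | h4 | h4
                · exact absurd ⟨hj, h4⟩ hna
                · exact absurd h4 (hw j (j + 1) (by omega) hj)
                · exact h4
              have := code_lt_of_gt hj hlt
              rw [h3] at this
              omega
            · rw [code_sw_ne hi1 h1 h2, code_sw_ne hi1 (j := j + 1) h3 (by omega)]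
              exact hd j hj
      rw [E.groth_asc hAsc, ih _ (by omega) (sw w i) rfl (hw.sw hi1) hd']
      have e3 : E.mon n (fun j => (code n (sw w i) j : ℤ)) =
          E.mon n (fun j => (code n w j : ℤ)) * E.x i := by
        have := E.mon_bump (h := n) (j := i) (by omega) (fun j => (code n w j : ℤ)) 1
        rw [zpow_one, mul_comm] at this
        rw [← this]
        apply E.mon_congr
        intro j _
        unfold bump
        rcases eq_or_ne j i with rfl | h1
        · rw [if_pos rfl, e1, ← hc]
          push_cast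
          ring
        · rw [if_neg h1, add_zero]
          rcases eq_or_ne j (i + 1) with rfl | h2
          · rw [e2, hc]
          · rw [code_sw_ne hi1 h1 h2]
      rw [e3, E.dd_mul i, E.dd_x, mul_one]
      rw [E.t_mon hi1, sw_of_eq]
      exact_mod_cast hc
    · have H' : ∀ i, ¬ Asc n w i := fun i hi => H ⟨i, hi⟩
      rw [groth, climb_base _ _ H']
      apply E.mon_congr
      intro i hi
      have hdec : ∀ k, ∀ p, p + 1 + k < n → w (p + 1 + k) < w p := by
        intro k
        induction k with
        | zero =>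
          intro p hp
          rcases lt_trichotomy (w p) (w (p + 1)) with h4 | h4 | h4
          · exact absurd ⟨hp, h4⟩ (H' p)
          · exact absurd h4 (hw p (p + 1) (by omega) hp)
          · exact h4
        | succ k ihk =>
          intro p hp
          have h5 := ihk p (by omega)
          refine lt_trans ?_ h5
          rcases lt_trichotomy (w (p + 1 + k)) (w (p + 1 + k + 1)) with h4 | h4 | h4
          · exact absurd ⟨by omega, h4⟩ (H' (p + 1 + k))
          · exact absurd h4 (hw _ _ (by omega) (by omega))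
          · exact h4
      have : codeSet n w i = Ico (i + 1) n := by
        ext j
        rw [mem_codeSet, mem_Ico]
        constructor
        · rintro ⟨a1, a2, _⟩
          exact ⟨a2, a1⟩
        · rintro ⟨a1, a2⟩
          have := hdec (j - (i + 1)) i (by omega)
          rw [show i + 1 + (j - (i + 1)) = j by omega] at this
          exact ⟨a2, by omega, this⟩
      unfold code
      rw [this, Nat.card_Ico]
      omega

/-- The Grothendieck polynomial depends on the code only. -/
theorem groth_eq_of_code {n n' : ℕ} : ∀ w w' : ℕ → ℤ, Dist n w → Dist n' w' →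
    (∀ i, code n w i = code n' w' i) → E.groth n w = E.groth n' w' := by
  intro w
  induction hN : coinv n w using Nat.strong_induction_on generalizing w with
  | _ N ih =>
    subst hN
    intro w' hw hw' hc
    by_cases H : ∃ i, code n w i < code n w (i + 1)
    · obtain ⟨i, hi⟩ := H
      have a1 := lt_of_code_lt hw hi
      have a2 := lt_of_code_lt (w := w') hw' (i := i) (by rw [← hc, ← hc]; exact hi)
      have hcs := coinv_sw a1
      rw [E.groth_asc a1, E.groth_asc a2]
      congr 1
      apply ih _ (by omega) (sw w i) rfl (sw w' i) (hw.sw a1.1) (hw'.sw a2.1)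
      intro j
      rcases eq_or_ne j i with rfl | h1
      · rw [code_sw_left a1, code_sw_left a2, hc]
      · rcases eq_or_ne j (i + 1) with rfl | h2
        · rw [code_sw_right a1, code_sw_right a2, hc]
        · rw [code_sw_ne a1.1 h1 h2, code_sw_ne a2.1 h1 h2, hc]
    · push Not at H
      rw [E.groth_dom w hw (fun i _ => H i), E.groth_dom w' hw' (fun i _ => by
        rw [← hc, ← hc]; exact H i)]
      have e1 : E.mon n (fun i => (code n w i : ℤ)) =
          E.mon (max n n') (fun i => (code n w i : ℤ)) :=
        (E.mon_extend (le_max_left _ _) (fun i hi _ => by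
          rw [code_eq_zero (by omega)]; rfl)).symm
      have e2 : E.mon n' (fun i => (code n' w' i : ℤ)) =
          E.mon (max n n') (fun i => (code n' w' i : ℤ)) :=
        (E.mon_extend (le_max_right _ _) (fun i hi _ => by
          rw [code_eq_zero (by omega)]; rfl)).symm
      rw [e1, e2]
      exact E.mon_congr fun i _ => by rw [hc]

theorem aff_groth_aux {h : ℕ} : ∀ (M : ℕ) (γ δ : ℕ → ℤ) (n : ℕ → ℕ) (w : ℕ → ℕ → ℤ),
    (∀ᶠ N in atTop, h ≤ n N ∧ Dist (n N) (w N) ∧
      (∀ i < h, (code (n N) (w N) i : ℤ) = affv γ δ N i) ∧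
      (∀ i, h ≤ i → code (n N) (w N) i = 0) ∧ coinv h (w N) ≤ M) →
    (fun N => E.groth (n N) (w N)) ∈ E.Aff h := by
  intro M
  induction M with
  | zero =>
    intro γ δ n w H
    refine E.aff_congr (E.aff_key h γ δ) ?_
    filter_upwards [H] with N ⟨h1, h2, h3, h4, h5⟩
    have hna : ∀ i, ¬ Asc h (w N) i := fun i hi => by
      have := coinv_sw hi
      omega
    have hcode : ∀ i, code (n N) (w N) (i + 1) ≤ code (n N) (w N) i := by
      intro i
      rcases Nat.lt_or_ge (i + 1) h with h6 | h6
      · rcases lt_trichotomy (w N i) (w N (i + 1)) with h7 | h7 | h7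
        · exact absurd ⟨h6, h7⟩ (hna i)
        · exact absurd h7 (h2 i (i + 1) (by omega) (by omega))
        · exact (code_lt_of_gt (by omega) h7).le
      · rw [h4 (i + 1) h6]
        exact Nat.zero_le _
    rw [E.groth_dom _ h2 (fun i _ => hcode i), E.mon_extend h1 (fun i hi _ => by
      rw [h4 i hi]; rfl), E.mon_congr h3]
    symm
    apply E.key_dom
    intro i hi
    have h6 := hcode i
    have h7 := hi.2
    rw [← h3 i (by have := hi.1; omega), ← h3 (i + 1) hi.1] at h7
    omega
  | succ M ih =>
    intro γ δ n w H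
    by_cases HA : ∃ i, i + 1 < h ∧ ∀ᶠ N in atTop, affv γ δ N i < affv γ δ N (i + 1)
    · obtain ⟨i, hi, hlt⟩ := HA
      have key := ih (sw γ i) (bump (sw δ i) i 1) n (fun N => sw (w N) i) (by
        filter_upwards [H, hlt] with N ⟨h1, h2, h3, h4, h5⟩ h6
        have hA : Asc (n N) (w N) i := by
          apply lt_of_code_lt h2
          have := h3 i (by omega)
          have := h3 (i + 1) hi
          omega
        refine ⟨h1, h2.sw hA.1, ?_, ?_, ?_⟩
        · intro j hj
          rw [← bump_affv, ← sw_affv]
          unfold bump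
          rcases eq_or_ne j i with rfl | h7
          · rw [code_sw_left hA, if_pos rfl, sw_left, ← h3 (j + 1) hi]
            push_cast
            ring
          · rw [if_neg h7, add_zero]
            rcases eq_or_ne j (i + 1) with rfl | h8
            · rw [code_sw_right hA, sw_right, h3 i (by omega)]
            · rw [code_sw_ne hA.1 h7 h8, sw_ne _ h7 h8, h3 j hj]
        · intro j hj
          rw [code_sw_ne hA.1 (by omega) (by omega), h4 j hj]
        · have := coinv_sw (h := h) (a := w N) (i := i) ⟨hi, hA.2⟩
          omega)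
      refine E.aff_congr (E.aff_dd hi key) ?_
      filter_upwards [H, hlt] with N ⟨h1, h2, h3, h4, h5⟩ h6
      have hA : Asc (n N) (w N) i := by
        apply lt_of_code_lt h2
        have := h3 i (by omega)
        have := h3 (i + 1) hi
        omega
      exact E.groth_asc hA
    · refine E.aff_congr (E.aff_key h γ δ) ?_
      have h1 : ∀ i ∈ range h, ∀ᶠ N in atTop, ¬ Asc h (affv γ δ N) i := by
        intro i _
        by_cases hi : i + 1 < h
        · rcases aff_tri (γ i) (δ i) (γ (i + 1)) (δ (i + 1)) with h1 | h1 | h1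
          · exact absurd ⟨i, hi, h1⟩ HA
          · exact Eventually.of_forall fun N hA => absurd (h1 N) hA.2.ne
          · filter_upwards [h1] with N hN hA
            exact absurd hA.2 (not_lt.2 (le_of_lt hN))
        · exact Eventually.of_forall fun N hA => hi hA.1
      have h2 := (eventually_all_finset (range h)).2 h1
      filter_upwards [h2, H] with N hN ⟨a1, a2, a3, a4, a5⟩
      have hna : ∀ i, ¬ Asc h (affv γ δ N) i := fun i hA =>
        hN i (mem_range.2 (by have := hA.1; omega)) hA
      have hcode : ∀ i, code (n N) (w N) (i + 1) ≤ code (n N) (w N) i := by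
        intro i
        rcases Nat.lt_or_ge (i + 1) h with h6 | h6
        · by_contra hcon
          push Not at hcon
          refine hna i ⟨h6, ?_⟩
          rw [← a3 i (by omega), ← a3 (i + 1) h6]
          exact_mod_cast hcon
        · rw [a4 (i + 1) h6]
          exact Nat.zero_le _
      rw [E.groth_dom _ a2 (fun i _ => hcode i), E.mon_extend a1 (fun i hi _ => by
        rw [a4 i hi]; rfl), E.mon_congr a3, E.key_dom hna]

theorem aff_groth {h : ℕ} (γ δ : ℕ → ℤ) (n : ℕ → ℕ) (w : ℕ → ℕ → ℤ)
    (H : ∀ᶠ N in atTop, h ≤ n N ∧ Dist (n N) (w N) ∧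
      (∀ i < h, (code (n N) (w N) i : ℤ) = affv γ δ N i) ∧
      (∀ i, h ≤ i → code (n N) (w N) i = 0)) :
    (fun N => E.groth (n N) (w N)) ∈ E.Aff h := by
  refine E.aff_groth_aux (h * h) γ δ n w ?_
  filter_upwards [H] with N ⟨h1, h2, h3, h4⟩
  exact ⟨h1, h2, h3, h4, coinv_le _ _⟩

end Env

end Pool.Agent.Q161.Keys
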