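import Pool.Agent.Q72.OK.Fin
import Pool.Agent.Q72.TR.App2
import Pool.Agent.Q51.HG.Ent
import Pool.Agent.Q51.HG.Smooth

/-!
Orbifold pairs of a projective set and a system of hyperplanes: Fermat coverings (after the file
MP_45e720_ag.OrbifoldHyperbolicity).
-/

set_option autoImplicit false

namespace Pool.Agent.Q161.Kg

open MvPolynomial
open Pool.Agent.Q72.TR (Trunc MultGe Cur Mono Inv)
open Pool.Agent.Q72.OK
open scoped LinearAlgebra.Projectivization

variable {n : ℕ}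

/-- The forms `ℓ` as a linear map. -/
abbrev lin (ℓ : (Fin (n + 1) → ℂ) ≃ₗ[ℂ] (Fin (n + 1) → ℂ)) :
    (Fin (n + 1) → ℂ) →ₗ[ℂ] (Fin (n + 1) → ℂ) := ℓ

/-- `f` gives homogeneous coordinates without common zeros of a nonconstant entire curve in the
projective set given by the forms in `E`. -/
def Curve (E : Set (MvPolynomial (Fin (n + 1)) ℂ)) (f : ℂ → Fin (n + 1) → ℂ) : Prop :=
  Differentiable ℂ f ∧ (∀ z, f z ≠ 0) ∧ (∀ z, ∀ F ∈ E, eval (f z) F = 0) ∧
    ∃ z w, ∀ c : ℂ, f z ≠ c • f w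

/-- The projective set given by `E` contains no nonconstant monomial curves
`t ↦ ℓ⁻¹ (x_0 t ^ k_0, ..., x_n t ^ k_n)`, `t ≠ 0`, with exponents at most `B`. -/
def NoMonomialCurves (E : Set (MvPolynomial (Fin (n + 1)) ℂ)) (B : ℕ)
    (ℓ : (Fin (n + 1) → ℂ) ≃ₗ[ℂ] (Fin (n + 1) → ℂ)) : Prop :=
  ∀ (x : Fin (n + 1) → ℂ) (k : Fin (n + 1) → ℕ), (∀ j, k j ≤ B) →
    (∃ i j, x i ≠ 0 ∧ x j ≠ 0 ∧ k i ≠ k j) →
    ¬ ∀ t : ℂ, t ≠ 0 → ∀ F ∈ E, eval (ℓ.symm fun j => x j * t ^ k j) F = 0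

/-- The truncated inequality `ε T(r) ≤ N(r)` for all nonconstant entire curves. -/
def TruncatedInequality (E : Set (MvPolynomial (Fin (n + 1)) ℂ)) (ε : ℝ)
    (ℓ : (Fin (n + 1) → ℂ) ≃ₗ[ℂ] (Fin (n + 1) → ℂ)) : Prop :=
  ∀ f, Curve E f → Trunc ε (lin ℓ) 1 f

/-- Every entire curve all of whose intersections with the hyperplanes `ℓ i = 0` have a
multiplicity at least `m` is constant. -/
def BrodyOrbifold (E : Set (MvPolynomial (Fin (n + 1)) ℂ)) (m : ℕ)
    (ℓ : (Fin (n + 1) → ℂ) ≃ₗ[ℂ] (Fin (n + 1) → ℂ)) : Prop :=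
  ∀ f, Curve E f → ¬ MultGe m (lin ℓ) 1 f

/-- The orbifold pair `(X, (1 - 1/m) ∑ (ℓ i = 0))` is Kobayashi hyperbolic. -/
def KobayashiOrbifold (E : Set (MvPolynomial (Fin (n + 1)) ℂ)) (m : ℕ)
    (ℓ : (Fin (n + 1) → ℂ) ≃ₗ[ℂ] (Fin (n + 1) → ℂ)) : Prop :=
  Hyperbolic m ℓ (zeroSet E)

/-- The Fermat covering `{(y_0 : ... : y_n) : ℓ⁻¹ (y_0 ^ k, ..., y_n ^ k) ∈ X}` of `X`. -/
def FermatCover (E : Set (MvPolynomial (Fin (n + 1)) ℂ)) (k : ℕ)
    (ℓ : (Fin (n + 1) → ℂ) ≃ₗ[ℂ] (Fin (n + 1) → ℂ)) : Set (ℙ ℂ (Fin (n + 1) → ℂ)) :=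
  {p | ∀ F ∈ E, eval (ℓ.symm fun i => p.rep i ^ k) F = 0}

variable {E : Set (MvPolynomial (Fin (n + 1)) ℂ)}

theorem curve_iff {f : ℂ → Fin (n + 1) → ℂ} : Curve E f ↔ Cur E 1 f := by
  constructor
  · rintro ⟨h1, h2, h3, h4⟩
    exact ⟨h1, h2, h3, ⟨0, by rw [map_one]; exact one_ne_zero⟩, h4⟩
  · rintro ⟨h1, h2, h3, -, h4⟩
    exact ⟨h1, h2, h3, h4⟩

theorem mono_iff' {B : ℕ} {ℓ : (Fin (n + 1) → ℂ) ≃ₗ[ℂ] (Fin (n + 1) → ℂ)} :
    (∀ x k, ¬ Mono B E 1 (ℓ.symm : (Fin (n + 1) → ℂ) →ₗ[ℂ] (Fin (n + 1) → ℂ)) x k) ↔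
      NoMonomialCurves E B ℓ := by
  constructor
  · intro h x k h1 h2 h3
    refine h x k ⟨⟨ℓ, fun x => ?_, fun x => ?_⟩, h1, h2, h3, fun t _ => ?_⟩
    · exact ℓ.symm_apply_apply x
    · exact ℓ.apply_symm_apply x
    · rw [map_one]
      exact one_ne_zero
  · intro h x k hM
    exact h x k hM.le hM.nc hM.mem

/-- the linear forms of the inverse -/
noncomputable def sub (ℓ : (Fin (n + 1) → ℂ) ≃ₗ[ℂ] (Fin (n + 1) → ℂ)) (k : ℕ) (j : Fin (n + 1)) :
    MvPolynomial (Fin (n + 1)) ℂ :=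
  ∑ i, C (ℓ.symm (Pi.single i 1) j) * X i ^ k

theorem eval_sub (ℓ : (Fin (n + 1) → ℂ) ≃ₗ[ℂ] (Fin (n + 1) → ℂ)) (k : ℕ) (j : Fin (n + 1))
    (y : Fin (n + 1) → ℂ) : eval y (sub ℓ k j) = ℓ.symm (fun i => y i ^ k) j := by
  have h1 : (fun i => y i ^ k) = ∑ i, (y i ^ k) • (Pi.single i (1 : ℂ) : Fin (n + 1) → ℂ) := by
    funext i
    simp [Finset.sum_apply, Pi.single_apply]
  rw [h1, map_sum, Finset.sum_apply]
  unfold sub
  rw [map_sum]
  refine Finset.sum_congr rfl fun i _ => ?_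
  rw [map_mul, map_pow, eval_C, eval_X, map_smul, Pi.smul_apply, smul_eq_mul, mul_comm]

theorem sub_hom (ℓ : (Fin (n + 1) → ℂ) ≃ₗ[ℂ] (Fin (n + 1) → ℂ)) (k : ℕ) (j : Fin (n + 1)) :
    (sub ℓ k j).IsHomogeneous k := by
  refine IsHomogeneous.sum _ _ _ fun i _ => ?_
  have := (isHomogeneous_C (Fin (n + 1)) (ℓ.symm (Pi.single i 1) j)).mul
    ((isHomogeneous_X ℂ i).pow k)
  simpa using this

/-- the forms of the Fermat covering -/
noncomputable def coverForms (E : Set (MvPolynomial (Fin (n + 1)) ℂ)) (k : ℕ)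
    (ℓ : (Fin (n + 1) → ℂ) ≃ₗ[ℂ] (Fin (n + 1) → ℂ)) : Set (MvPolynomial (Fin (n + 1)) ℂ) :=
  {G | ∃ F ∈ E, G = bind₁ (sub ℓ k) F}

theorem eval_cover {k : ℕ} {ℓ : (Fin (n + 1) → ℂ) ≃ₗ[ℂ] (Fin (n + 1) → ℂ)}
    (F : MvPolynomial (Fin (n + 1)) ℂ) (y : Fin (n + 1) → ℂ) :
    eval y (bind₁ (sub ℓ k) F) = eval (ℓ.symm fun i => y i ^ k) F := by
  have h1 : (eval y) (bind₁ (sub ℓ k) F) = eval (fun j => eval y (sub ℓ k j)) F := by
    rw [← coe_aeval_eq_eval, ← coe_aeval_eq_eval, AlgHom.coe_toRingHom, AlgHom.coe_toRingHom,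
      aeval_bind₁]
  rw [h1]
  congr 1
  simp only [eval_sub]

theorem cover_eq {k : ℕ} {ℓ : (Fin (n + 1) → ℂ) ≃ₗ[ℂ] (Fin (n + 1) → ℂ)} :
    zeroSet (coverForms E k ℓ) = FermatCover E k ℓ := by
  ext p
  constructor
  · intro h F hF
    rw [← eval_cover]
    exact h _ ⟨F, hF, rfl⟩
  · rintro h _ ⟨F, hF, rfl⟩
    rw [eval_cover]
    exact h F hF

theorem hom_comp {k e : ℕ} {ℓ : (Fin (n + 1) → ℂ) ≃ₗ[ℂ] (Fin (n + 1) → ℂ)}
    {F : MvPolynomial (Fin (n + 1)) ℂ} (hF : F.IsHomogeneous e) :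
    (bind₁ (sub ℓ k) F).IsHomogeneous (k * e) := by
  have := hF.aeval (sub ℓ k) (sub_hom ℓ k)
  exact this

/-- the Fermat coverings are hyperbolic -/
theorem cover_hyp {m k : ℕ} {ℓ : (Fin (n + 1) → ℂ) ≃ₗ[ℂ] (Fin (n + 1) → ℂ)}
    (hE : ∀ F ∈ E, ∃ e, F.IsHomogeneous e) (hk : m ≤ k) (hk0 : 0 < k) (h : BrodyOrbifold E m ℓ) :
    Hyperbolic 1 (LinearEquiv.refl ℂ _) (FermatCover E k ℓ) := by
  rw [← cover_eq]
  have hE' : ∀ G ∈ coverForms E k ℓ, ∃ e, G.IsHomogeneous e := by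
    rintro _ ⟨F, hF, rfl⟩
    obtain ⟨e, he⟩ := hE F hF
    exact ⟨_, hom_comp he⟩
  suffices hkey : ∀ y, Cur (coverForms E k ℓ) 1 y → ¬ MultGe 1
      ((LinearEquiv.refl ℂ (Fin (n + 1) → ℂ) : (Fin (n + 1) → ℂ) ≃ₗ[ℂ] (Fin (n + 1) → ℂ)) :
        (Fin (n + 1) → ℂ) →ₗ[ℂ] (Fin (n + 1) → ℂ)) 1 y by
    obtain ⟨c, hc, hcd⟩ := hyperbolic_of (k := 1)
      (Pool.Agent.Q14.OK.job_r Pool.Agent.Q128.OK.job_w) Pool.Agent.Q185.OK.job_h
      (LinearEquiv.refl ℂ _) hE' hkey
    exact hyperbolic_iff_pos hc hcd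
  intro y hy _
  -- the image of the curve in `X`
  have hyi : ∀ i, Differentiable ℂ fun z => y z i := fun i => differentiable_pi.1 hy.df i
  have hpow : Differentiable ℂ fun z => fun i => y z i ^ k :=
    differentiable_pi.2 fun i => (hyi i).pow k
  have hsymm : Differentiable ℂ fun x => ℓ.symm x :=
    (LinearMap.toContinuousLinearMap
      (ℓ.symm : (Fin (n + 1) → ℂ) →ₗ[ℂ] (Fin (n + 1) → ℂ))).differentiable
  set f : ℂ → Fin (n + 1) → ℂ := fun z => ℓ.symm fun i => y z i ^ k with hf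
  have hfd : Differentiable ℂ f := hsymm.comp hpow
  have hf0 : ∀ z, f z ≠ 0 := by
    intro z h0
    have h1 : (fun i => y z i ^ k) = 0 := by
      have := congrArg ℓ h0
      rw [hf] at this
      simpa using this
    apply hy.ne z
    funext i
    have h2 := congrFun h1 i
    exact pow_eq_zero_iff hk0.ne' |>.1 h2
  have hmem : ∀ z, ∀ F ∈ E, eval (f z) F = 0 := by
    intro z F hF
    rw [hf, ← eval_cover]
    exact hy.mem z _ ⟨F, hF, rfl⟩
  have hℓf : ∀ z i, ℓ (f z) i = y z i ^ k := by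
    intro z i
    rw [hf]
    simp
  -- nonconstant
  have hnc : ∃ z w, ∀ c : ℂ, f z ≠ c • f w := by
    by_contra hcon
    push Not at hcon
    obtain ⟨i, hi⟩ := Function.ne_iff.1 (hy.ne 0)
    have hi' : y 0 i ≠ 0 := hi
    -- `y z j ^ k * y 0 i ^ k = y 0 j ^ k * y z i ^ k`
    have key : ∀ z j, (y z j * y 0 i) ^ k = (y 0 j * y z i) ^ k := by
      intro z j
      obtain ⟨c, hc⟩ := hcon z 0
      have h1 : ∀ l, y z l ^ k = c * y 0 l ^ k := by
        intro l
        rw [← hℓf, ← hℓf, hc, map_smul, Pi.smul_apply, smul_eq_mul]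
      rw [mul_pow, mul_pow, h1, h1]
      ring
    -- by continuity `y z j * y 0 i = y 0 j * y z i`
    have key2 : ∀ j, (fun z => y z j * y 0 i) = fun z => y 0 j * y z i := by
      intro j
      have hd1 : Differentiable ℂ fun z => y z j * y 0 i := (hyi j).mul_const _
      have hd2 : Differentiable ℂ fun z => y 0 j * y z i := (hyi i).const_mul _
      -- roots of unity
      have hζ : ∀ z, ∃ ζ ∈ (Polynomial.nthRoots k (1 : ℂ)).toFinset,
          y z j * y 0 i = ζ * (y 0 j * y z i) := by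
        intro z
        by_cases h0 : y 0 j * y z i = 0
        · refine ⟨1, ?_, ?_⟩
          · rw [Multiset.mem_toFinset, Polynomial.mem_nthRoots hk0, one_pow]
          · have h1 := key z j
            rw [h0, zero_pow hk0.ne', pow_eq_zero_iff hk0.ne'] at h1
            rw [h1, h0, mul_zero]
        · refine ⟨y z j * y 0 i / (y 0 j * y z i), ?_, ?_⟩
          · rw [Multiset.mem_toFinset, Polynomial.mem_nthRoots hk0, div_pow, key z j,
              div_self (pow_ne_zero _ h0)]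
          · exact (div_mul_cancel₀ _ h0).symm
      -- the product over the roots of unity vanishes
      have hprod : ∀ z, ∏ ζ ∈ (Polynomial.nthRoots k (1 : ℂ)).toFinset,
          (y z j * y 0 i - ζ * (y 0 j * y z i)) = 0 := by
        intro z
        obtain ⟨ζ, h1, h2⟩ := hζ z
        exact Finset.prod_eq_zero h1 (sub_eq_zero.2 h2)
      have hex : ∃ ζ ∈ (Polynomial.nthRoots k (1 : ℂ)).toFinset,
          ∀ z, y z j * y 0 i - ζ * (y 0 j * y z i) = 0 := by
        by_contra hno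
        push Not at hno
        have hall : ∀ T : Finset ℂ, T ⊆ (Polynomial.nthRoots k (1 : ℂ)).toFinset →
            ∃ z, ∏ ζ ∈ T, (y z j * y 0 i - ζ * (y 0 j * y z i)) ≠ 0 := by
          intro T
          induction T using Finset.induction_on with
          | empty => intro _; exact ⟨0, by simp⟩
          | insert a T ha ih =>
            intro hT
            obtain ⟨z1, hz1⟩ := ih fun x hx => hT (Finset.mem_insert_of_mem hx)
            obtain ⟨z2, hz2⟩ := hno a (hT (Finset.mem_insert_self a T))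
            have hA : AnalyticOnNhd ℂ (fun z => ∏ ζ ∈ T, (y z j * y 0 i - ζ * (y 0 j * y z i)))
                Set.univ := by
              refine DifferentiableOn.analyticOnNhd ?_ isOpen_univ
              exact (Differentiable.fun_finsetProd fun ζ _ =>
                (hd1.sub (hd2.const_mul ζ))).differentiableOn
            have hB : AnalyticOnNhd ℂ (fun z => y z j * y 0 i - a * (y 0 j * y z i)) Set.univ :=
              (hd1.sub (hd2.const_mul a)).differentiableOn.analyticOnNhd isOpen_univ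
            by_contra hall0
            push Not at hall0
            have h3 : ∀ z, (y z j * y 0 i - a * (y 0 j * y z i)) *
                ∏ ζ ∈ T, (y z j * y 0 i - ζ * (y 0 j * y z i)) = 0 := by
              intro z
              have := hall0 z
              rwa [Finset.prod_insert ha] at this
            rcases AnalyticOnNhd.eq_zero_or_eq_zero_of_mul_eq_zero hB hA
              (fun z _ => h3 z) isPreconnected_univ with h4 | h4
            · exact hz2 (h4 z2 (Set.mem_univ _))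
            · exact hz1 (h4 z1 (Set.mem_univ _))
        obtain ⟨z, hz⟩ := hall _ (Finset.Subset.refl _)
        exact hz (hprod z)
      obtain ⟨ζ, -, hζ2⟩ := hex
      by_cases hj : y 0 j = 0
      · funext z
        have h1 := hζ2 z
        rw [hj, zero_mul, mul_zero, sub_zero] at h1
        change y z j * y 0 i = y 0 j * y z i
        rw [h1, hj, zero_mul]
      · have h1 := hζ2 0
        have h2 : ζ = 1 := by
          have h3 : (1 - ζ) * (y 0 j * y 0 i) = 0 := by linear_combination h1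
          rcases mul_eq_zero.1 h3 with h4 | h4
          · exact (sub_eq_zero.1 h4).symm
          · exact absurd h4 (mul_ne_zero hj hi')
        funext z
        have h3 := hζ2 z
        rw [h2, one_mul, sub_eq_zero] at h3
        exact h3
    obtain ⟨z, w, hzw⟩ := hy.nc
    -- `y z = (y z i / y 0 i) • y 0`
    have h5 : ∀ z, y z = (y z i / y 0 i) • y 0 := by
      intro z
      funext j
      have h6 : y z j * y 0 i = y 0 j * y z i := congrFun (key2 j) z
      rw [Pi.smul_apply, smul_eq_mul]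
      field_simp
      linear_combination h6
    have h7 : y w i ≠ 0 := by
      intro h0
      apply hy.ne w
      rw [h5 w, h0, zero_div, zero_smul]
    apply hzw (y z i / y w i)
    have h8 : y z i / y w i * (y w i / y 0 i) = y z i / y 0 i := by
      field_simp
    calc y z = (y z i / y 0 i) • y 0 := h5 z
      _ = (y z i / y w i) • ((y w i / y 0 i) • y 0) := by rw [smul_smul, h8]
      _ = (y z i / y w i) • y w := by rw [← h5 w]
  refine h f ⟨hfd, hf0, hmem, hnc⟩ ⟨fun i x _ hx => ?_, fun x hx => ?_⟩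
  · have h1 : (fun z => lin ℓ (f z) i) = fun z => y z i ^ k := by
      funext z
      exact hℓf z i
    rw [h1]
    have hx' : y x i = 0 := by
      have h2 : ℓ (f x) i = 0 := hx
      rw [hℓf] at h2
      exact pow_eq_zero_iff hk0.ne' |>.1 h2
    have hA : AnalyticAt ℂ (fun z => y z i) x := (hyi i).analyticAt x
    have h3 : analyticOrderAt (fun z => y z i ^ k) x = k • analyticOrderAt (fun z => y z i) x :=
      analyticOrderAt_pow hA k
    rw [h3]
    have h4 : 1 ≤ analyticOrderAt (fun z => y z i) x := by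
      rw [Order.one_le_iff_ne_zero, hA.analyticOrderAt_ne_zero]
      exact hx'
    calc (m : ℕ∞) ≤ k := by exact_mod_cast hk
      _ = k • 1 := by simp
      _ ≤ k • analyticOrderAt (fun z => y z i) x := by gcongr
  · rw [map_one] at hx
    exact absurd hx one_ne_zero

end Pool.Agent.Q161.Kg
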