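import Pool.Agent.Q161.KgA
import Pool.Agent.Q72.GH.Lin

/-!
General hypersurfaces contain no monomial curves in any system of linear coordinates.
-/

set_option autoImplicit false

namespace Pool.Agent.Q161.Kg

open MvPolynomial
open Pool.Agent.Q72.GH (NoSparse eval_cur eval_aeval_cur lin_sum)
open Pool.Agent.H533R3.SL (cur)

variable {N q : ℕ}

/-- no monomial curves in a stratum -/
theorem no_mono (F : Fin q → MvPolynomial (Fin (N + 1)) ℂ)
    (hno : NoSparse F Finset.univ (N + 1)) (B : ℕ)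
    (ℓ : (Fin (N + 1) → ℂ) ≃ₗ[ℂ] (Fin (N + 1) → ℂ)) : NoMonomialCurves (Set.range F) B ℓ := by
  rintro x k - ⟨i, j, hi, hj, hij⟩ hM
  set c : Fin (N + 1) → Fin (N + 1) → ℂ := fun l a => ℓ.symm (Pi.single l 1) a * x l with hc
  have hcur : ∀ t : ℂ, (fun a => ∑ l, c l a * t ^ k l) = ℓ.symm fun l => x l * t ^ k l := by
    intro t
    funext a
    have h1 := lin_sum (ℓ.symm : (Fin (N + 1) → ℂ) →ₗ[ℂ] (Fin (N + 1) → ℂ))
      (fun l => x l * t ^ k l) a
    change ℓ.symm (fun l => x l * t ^ k l) a = _ at h1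
    rw [h1]
    refine Finset.sum_congr rfl fun l _ => ?_
    rw [hc]
    change ℓ.symm (Pi.single l 1) a * x l * t ^ k l = ℓ.symm (Pi.single l 1) a * (x l * t ^ k l)
    ring
  have hz : ∀ a ∈ (Finset.univ : Finset (Fin q)), aeval (cur c k) (F a) = 0 := by
    intro a _
    apply Polynomial.eq_zero_of_infinite_isRoot
    refine Set.Infinite.mono (s := {u : ℂ | u ≠ 0}) ?_ ?_
    · intro u hu
      change (aeval (cur c k) (F a) : Polynomial ℂ).eval u = 0
      rw [eval_aeval_cur, hcur u]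
      exact hM u hu _ ⟨a, rfl⟩
    · exact (Set.finite_singleton (0 : ℂ)).infinite_compl
  have key := hno c k hz fun a ha => absurd (Finset.mem_univ a) ha
  set p : ℂ → Fin (N + 1) → ℂ := fun t => ℓ.symm fun l => x l * t ^ k l with hp
  have hpc : ∀ t a, (cur c k a).eval t = p t a := by
    intro t a
    rw [eval_cur]
    exact congrFun (hcur t) a
  have hp1 : ∀ a, ∑ l, c l a = p 1 a := by
    intro a
    rw [← hpc, eval_cur]
    simp
  have hprop : ∀ t a b, p t a * p 1 b = p t b * p 1 a := by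
    intro t a b
    have h1 := congrArg (Polynomial.eval t) (key a b)
    rw [Polynomial.eval_mul, Polynomial.eval_mul, Polynomial.eval_C, Polynomial.eval_C, hpc, hpc,
      hp1, hp1] at h1
    exact h1
  have hp10 : p 1 ≠ 0 := by
    intro h0
    have h1 := ℓ.symm.map_eq_zero_iff.1 h0
    have h2 := congrFun h1 i
    simp only [one_pow, mul_one, Pi.zero_apply] at h2
    exact hi h2
  obtain ⟨b, hb⟩ := Function.ne_iff.1 hp10
  have hb' : p 1 b ≠ 0 := hb
  have h2 : p 2 = (p 2 b / p 1 b) • p 1 := by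
    funext a
    rw [Pi.smul_apply, smul_eq_mul]
    field_simp
    linear_combination hprop 2 a b
  set e : ℂ := p 2 b / p 1 b with he
  have h3 : (fun l => x l * (2 : ℂ) ^ k l) = e • fun l => x l * (1 : ℂ) ^ k l := by
    apply ℓ.symm.injective
    rw [map_smul]
    exact h2
  have h4 : ∀ l, x l ≠ 0 → (2 : ℂ) ^ k l = e := by
    intro l hl
    have h5 := congrFun h3 l
    simp only [Pi.smul_apply, smul_eq_mul, one_pow, mul_one] at h5
    exact mul_left_cancel₀ hl (by rw [h5]; ring)
  apply hij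
  have h6 : ((2 ^ k i : ℕ) : ℂ) = ((2 ^ k j : ℕ) : ℂ) := by
    push_cast
    rw [h4 i hi, h4 j hj]
  exact Nat.pow_right_injective (le_refl 2) (by exact_mod_cast h6)

end Pool.Agent.Q161.Kg
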