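import Mathlib

set_option autoImplicit false

/-!
Chain complexes with a basis of lists: deletion differential, exactness, filtration lemma.
-/

namespace Q161.Mg

open Finsupp

section basic
variable {X : Type} {M : Type} [AddCommGroup M]

/-- prepend an element to all lists -/
noncomputable def consM (x : X) : (List X →₀ M) →+ (List X →₀ M) :=
  Finsupp.mapDomain.addMonoidHom (x :: ·)

/-- append a list on the right -/
noncomputable def appR (v : List X) : (List X →₀ M) →+ (List X →₀ M) :=
  Finsupp.mapDomain.addMonoidHom (· ++ v)

/-- append a list on the left -/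
noncomputable def appL (u : List X) : (List X →₀ M) →+ (List X →₀ M) :=
  Finsupp.mapDomain.addMonoidHom (u ++ ·)

lemma consM_single (x : X) (l : List X) (m : M) :
    consM x (single l m) = single (x :: l) m := mapDomain_single

lemma appR_single (v l : List X) (m : M) : appR v (single l m) = single (l ++ v) m :=
  mapDomain_single

lemma appL_single (u l : List X) (m : M) : appL u (single l m) = single (u ++ l) m :=
  mapDomain_single

lemma cons_inj (x : X) : Function.Injective (x :: · : List X → List X) := fun _ _ h =>
  (List.cons.inj h).2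

lemma appR_inj (v : List X) : Function.Injective (· ++ v : List X → List X) := fun _ _ h =>
  List.append_cancel_right h

lemma appL_inj (u : List X) : Function.Injective (u ++ · : List X → List X) := fun _ _ h =>
  List.append_cancel_left h

lemma consM_apply (x : X) (c : List X →₀ M) (l : List X) : consM x c (x :: l) = c l :=
  mapDomain_apply (cons_inj x) c l

lemma appR_apply (v : List X) (c : List X →₀ M) (l : List X) : appR v c (l ++ v) = c l :=
  mapDomain_apply (appR_inj v) c l

lemma appL_apply (u : List X) (c : List X →₀ M) (l : List X) : appL u c (u ++ l) = c l :=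
  mapDomain_apply (appL_inj u) c l

lemma consM_nil (x : X) (c : List X →₀ M) : consM x c [] = 0 :=
  mapDomain_of_notMem_range c [] (by rintro ⟨l, hl⟩; exact List.cons_ne_nil _ _ hl)

lemma mapD_notin {α β : Type} (f : α → β) (c : α →₀ M) (b : β) (h : ∀ a, f a ≠ b) :
    mapDomain f c b = 0 :=
  mapDomain_of_notMem_range c b (by rintro ⟨a, ha⟩; exact h a ha)

/-- extensionality: two additive maps agreeing on `single` -/
lemma hom_ext {B N : Type} [AddCommGroup N] (f g : (B →₀ M) →+ N)
    (h : ∀ b m, f (single b m) = g (single b m)) : f = g :=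
  Finsupp.addHom_ext h

/-- the differential on a list: alternating sum of the deletions, all entries -/
noncomputable def dm : List X → (M →+ (List X →₀ M))
  | [] => 0
  | x :: t => Finsupp.singleAddHom t - (consM x).comp (dm t)

/-- the differential -/
noncomputable def dP : (List X →₀ M) →+ (List X →₀ M) := Finsupp.liftAddHom dm

lemma dP_single (l : List X) (m : M) : dP (single l m) = dm l m := by
  unfold dP
  rw [Finsupp.liftAddHom_apply_single]

lemma dm_nil (m : M) : dm ([] : List X) m = 0 := rfl

lemma dm_cons (x : X) (t : List X) (m : M) : dm (x :: t) m = single t m - consM x (dm t m) := rfl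

lemma dP_cons (x : X) (c : List X →₀ M) : dP (consM x c) = c - consM x (dP c) := by
  have : (dP.comp (consM x) : (List X →₀ M) →+ _) = AddMonoidHom.id _ - (consM x).comp dP := by
    refine hom_ext _ _ fun l m => ?_
    show dP (consM x (single l m)) = single l m - consM x (dP (single l m))
    rw [consM_single, dP_single, dP_single, dm_cons]
  exact DFunLike.congr_fun this c

lemma dP_dP (c : List X →₀ M) : dP (dP c) = 0 := by
  have : (dP.comp dP : (List X →₀ M) →+ _) = 0 := by
    refine hom_ext _ _ fun l m => ?_
    show dP (dP (single l m)) = 0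
    induction l with
    | nil => rw [dP_single, dm_nil, map_zero]
    | cons x t ih =>
      rw [dP_single, dm_cons, map_sub, dP_cons, ← dP_single, ih, map_zero, sub_zero, sub_self]
  exact DFunLike.congr_fun this c

lemma appR_cons (v : List X) (x : X) (c : List X →₀ M) :
    appR v (consM x c) = consM x (appR v c) := by
  have : ((appR v).comp (consM x) : (List X →₀ M) →+ _) = (consM x).comp (appR v) := by
    refine hom_ext _ _ fun l m => ?_
    show appR v (consM x (single l m)) = consM x (appR v (single l m))
    rw [consM_single, appR_single, appR_single, consM_single, List.cons_append]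
  exact DFunLike.congr_fun this c

lemma appL_cons (x : X) (u : List X) (c : List X →₀ M) :
    appL (x :: u) c = consM x (appL u c) := by
  have : (appL (x :: u) : (List X →₀ M) →+ _) = (consM x).comp (appL u) := by
    refine hom_ext _ _ fun l m => ?_
    show appL (x :: u) (single l m) = consM x (appL u (single l m))
    rw [appL_single, appL_single, consM_single, List.cons_append]
  exact DFunLike.congr_fun this c

lemma appL_nil (c : List X →₀ M) : appL [] c = c := by
  have : (appL [] : (List X →₀ M) →+ _) = AddMonoidHom.id _ := by
    refine hom_ext _ _ fun l m => ?_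
    show appL [] (single l m) = single l m
    rw [appL_single, List.nil_append]
  exact DFunLike.congr_fun this c

lemma dm_append (u v : List X) (m : M) :
    dm (u ++ v) m = appR v (dm u m) + (-1 : ℤ) ^ u.length • appL u (dm v m) := by
  induction u with
  | nil => rw [dm_nil, map_zero, zero_add, List.length_nil, pow_zero, one_smul, appL_nil,
      List.nil_append]
  | cons x t ih =>
    rw [List.cons_append, dm_cons, ih, dm_cons, map_sub, appR_single, appR_cons, map_add,
      List.length_cons, pow_succ, mul_neg_one, neg_smul, appL_cons, map_zsmul]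
    abel

/-- `l'` is obtained from `l` by deleting one entry -/
def Del (l l' : List X) : Prop := ∃ a x b, l = a ++ x :: b ∧ l' = a ++ b

lemma mem_dm (l : List X) (m : M) : ∀ l', dm l m l' ≠ 0 → Del l l' := by
  induction l with
  | nil => intro l' h; exact absurd rfl h
  | cons x t ih =>
    intro l' h
    rw [dm_cons, Finsupp.sub_apply] at h
    by_cases h1 : single t m l' = 0
    · rw [h1, zero_sub, neg_ne_zero] at h
      rcases l' with _ | ⟨y, l''⟩
      · exact absurd (consM_nil x _) h
      · by_cases hxy : x = y
        · subst hxy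
          rw [consM_apply] at h
          obtain ⟨a, z, b, rfl, rfl⟩ := ih l'' h
          exact ⟨x :: a, z, b, rfl, rfl⟩
        · exfalso
          apply h
          refine mapD_notin _ _ _ fun a ha => hxy (List.cons.inj ha).1
    · have : l' = t := by
        by_contra h2
        exact h1 (Finsupp.single_eq_of_ne h2)
      subst this
      exact ⟨[], x, l', rfl, rfl⟩

end basic

section filt
variable {B J M : Type} [AddCommGroup M]

/-- a sum of additive maps over the support -/
lemma map_eq_sum (d : (B →₀ M) →+ (B →₀ M)) (c : B →₀ M) :
    d c = ∑ b ∈ c.support, d (single b (c b)) := by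
  conv_lhs => rw [← Finsupp.sum_single c]
  rw [Finsupp.sum, map_sum]

lemma exists_of_map_ne (d : (B →₀ M) →+ (B →₀ M)) (c : B →₀ M) (b' : B) (h : d c b' ≠ 0) :
    ∃ b, c b ≠ 0 ∧ ∃ m, d (single b m) b' ≠ 0 := by
  rw [map_eq_sum d c, Finsupp.finsetSum_apply] at h
  obtain ⟨b, hb, hb'⟩ := Finset.exists_ne_zero_of_sum_ne_zero h
  exact ⟨b, Finsupp.mem_support_iff.1 hb, _, hb'⟩

/-- the filtration lemma -/
theorem filt (d : (B →₀ M) →+ (B →₀ M)) (hdd : ∀ c, d (d c) = 0)
    (G G' : B → Prop) (β : B → J) (μ : J → ℕ) (n0 : ℕ)
    (hlow : ∀ b, G b ∨ G' b → ∀ m b', d (single b m) b' ≠ 0 →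
      β b' = β b ∨ μ (β b') < μ (β b))
    (hdeg : ∀ b, G' b → ∀ m b', d (single b m) b' ≠ 0 → G b')
    (hex : ∀ j, n0 ≤ μ j → ∀ c : B →₀ M, (∀ b, c b ≠ 0 → G b ∧ β b = j) →
      (∀ b, β b = j → d c b = 0) →
      ∃ e : B →₀ M, (∀ b, e b ≠ 0 → G' b ∧ β b = j) ∧ ∀ b, β b = j → d e b = c b)
    (c : B →₀ M) (hc : ∀ b, c b ≠ 0 → G b) (hz : ∀ b, n0 ≤ μ (β b) → d c b = 0) :
    ∃ e : B →₀ M, (∀ b, e b ≠ 0 → G' b) ∧ ∀ b, n0 ≤ μ (β b) → d e b = c b := by
  classical
  have key : ∀ N : ℕ, ∀ c : B →₀ M, (∀ b, c b ≠ 0 → G b) → (∀ b, n0 ≤ μ (β b) → d c b = 0) →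
      (∀ b, c b ≠ 0 → μ (β b) < n0 + N) →
      ∃ e : B →₀ M, (∀ b, e b ≠ 0 → G' b) ∧ ∀ b, n0 ≤ μ (β b) → d e b = c b := by
    intro N
    induction N with
    | zero =>
      intro c _ _ h
      refine ⟨0, fun b hb => absurd rfl hb, fun b hb => ?_⟩
      rw [map_zero]
      by_contra h1
      have := h b (Ne.symm h1)
      omega
    | succ N ih =>
      intro c hc hz hN
      -- the blocks of the top measure
      let S : Finset J := (c.support.image β).filter fun j => μ j = n0 + N
      have hS : ∀ j, j ∈ S ↔ (∃ b, c b ≠ 0 ∧ β b = j) ∧ μ j = n0 + N := by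
        intro j
        simp [S]
      let cj : J → (B →₀ M) := fun j => c.filter fun b => β b = j
      have hcj : ∀ j b, cj j b = if β b = j then c b else 0 := by
        intro j b
        exact Finsupp.filter_apply _ _ _
      -- the block components are cycles in their block
      have hcyc : ∀ j ∈ S, ∀ b, β b = j → d (cj j) b = 0 := by
        intro j hj b hb
        have hjN := ((hS j).1 hj).2
        have h1 : c = cj j + c.filter (fun b => ¬ β b = j) := by
          ext b
          rw [Finsupp.add_apply, hcj, Finsupp.filter_apply]
          by_cases h : β b = j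
          · simp [h]
          · simp [h]
        have h2 : d (c.filter (fun b => ¬ β b = j)) b = 0 := by
          by_contra h3
          obtain ⟨a, ha, m, hm⟩ := exists_of_map_ne d _ b h3
          rw [Finsupp.filter_apply] at ha
          have ha1 : ¬ β a = j := fun h => ha (by rw [if_neg (not_not.2 h)])
          rw [if_pos ha1] at ha
          rcases hlow a (Or.inl (hc a ha)) m b hm with h4 | h4
          · exact ha1 (h4.symm.trans hb)
          · have := hN a ha
            rw [hb, hjN] at h4
            omega
        have h3 := hz b (by rw [hb, hjN]; omega)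
        rw [h1, map_add, Finsupp.add_apply, h2, add_zero] at h3
        exact h3
      have hsol : ∀ j ∈ S, ∃ e : B →₀ M, (∀ b, e b ≠ 0 → G' b ∧ β b = j) ∧
          ∀ b, β b = j → d e b = cj j b := by
        intro j hj
        refine hex j (by rw [((hS j).1 hj).2]; omega) (cj j) ?_ (hcyc j hj)
        intro b hb
        rw [hcj] at hb
        by_cases h : β b = j
        · rw [if_pos h] at hb
          exact ⟨hc b hb, h⟩
        · rw [if_neg h] at hb
          exact absurd rfl hb
      choose! e he1 he2 using hsol
      let E : B →₀ M := ∑ j ∈ S, e j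
      have hE : ∀ b, E b ≠ 0 → ∃ j ∈ S, e j b ≠ 0 := by
        intro b hb
        rw [Finsupp.finsetSum_apply] at hb
        exact Finset.exists_ne_zero_of_sum_ne_zero hb
      have hE' : ∀ b, E b ≠ 0 → G' b := by
        intro b hb
        obtain ⟨j, hj, hjb⟩ := hE b hb
        exact (he1 j hj b hjb).1
      have hdE : ∀ b, n0 + N ≤ μ (β b) → d E b = c b := by
        intro b hb
        have h1 : d E b = ∑ j ∈ S, d (e j) b := by
          rw [map_sum, Finsupp.finsetSum_apply]
        have h2 : ∀ j ∈ S, β b ≠ j → d (e j) b = 0 := by
          intro j hj hbj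
          by_contra h3
          obtain ⟨a, ha, m, hm⟩ := exists_of_map_ne d _ b h3
          obtain ⟨ha1, ha2⟩ := he1 j hj a ha
          rcases hlow a (Or.inr ha1) m b hm with h4 | h4
          · exact hbj (h4.trans ha2)
          · rw [ha2, ((hS j).1 hj).2] at h4
            omega
        by_cases hbS : β b ∈ S
        · rw [h1, Finset.sum_eq_single_of_mem (β b) hbS, he2 _ hbS b rfl, hcj, if_pos rfl]
          intro j hj hne
          exact h2 j hj (Ne.symm hne)
        · rw [h1, Finset.sum_eq_zero]
          · by_contra h3
            have h4 : c b ≠ 0 := Ne.symm h3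
            have h5 := hN b h4
            exact hbS ((hS _).2 ⟨⟨b, h4, rfl⟩, by omega⟩)
          · intro j hj
            exact h2 j hj fun h => hbS (h ▸ hj)
      obtain ⟨e', he'1, he'2⟩ := ih (c - d E) (by
        intro b hb
        by_cases h1 : c b = 0
        · rw [Finsupp.sub_apply, h1, zero_sub, neg_ne_zero] at hb
          obtain ⟨a, ha, m, hm⟩ := exists_of_map_ne d _ b hb
          exact hdeg a (hE' a ha) m b hm
        · exact hc b h1) (by
        intro b hb
        rw [map_sub, hdd, sub_zero]
        exact hz b hb) (by
        intro b hb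
        by_contra h1
        push Not at h1
        apply hb
        rw [Finsupp.sub_apply, hdE b h1, sub_self])
      refine ⟨E + e', fun b hb => ?_, fun b hb => ?_⟩
      · by_cases h1 : E b = 0
        · rw [Finsupp.add_apply, h1, zero_add] at hb
          exact he'1 b hb
        · exact hE' b h1
      · rw [map_add, Finsupp.add_apply, he'2 b hb, Finsupp.sub_apply]
        abel
  refine key (c.support.sup fun b => μ (β b) + 1) c hc hz fun b hb => ?_
  have := Finset.le_sup (f := fun b => μ (β b) + 1) (Finsupp.mem_support_iff.2 hb)
  have h2 : μ (β b) + 1 ≤ c.support.sup fun b => μ (β b) + 1 := this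
  omega

end filt

end Q161.Mg
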