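import Pool.Agent.Q161.MgA

set_option autoImplicit false

/-!
Exactness of augmented order complexes.
-/

namespace Q161.Mg

open Finsupp

section defs
variable {X : Type} (R : X → X → Prop) (P : X → Prop)

/-- chains with `k` elements in `P` -/
def IsCh (k : ℕ) (l : List X) : Prop := l.Pairwise R ∧ (∀ x ∈ l, P x) ∧ l.length = k

/-- exactness at the chains with `k` elements, for all coefficient groups -/
def Ex (k : ℕ) : Prop := ∀ (M : Type) [AddCommGroup M] (c : List X →₀ M),
  (∀ l, c l ≠ 0 → IsCh R P k l) → dP c = 0 →
  ∃ e : List X →₀ M, (∀ l, e l ≠ 0 → IsCh R P (k + 1) l) ∧ dP e = c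

end defs

section basic
variable {X : Type} {R : X → X → Prop} {P Q : X → Prop}

lemma Ex.congr {k : ℕ} (h : Ex R P k) (hPQ : ∀ x, P x ↔ Q x) : Ex R Q k := by
  have : P = Q := funext fun x => propext (hPQ x)
  exact this ▸ h

lemma IsCh.mono {k : ℕ} {l : List X} (h : IsCh R P k l) (hPQ : ∀ x, P x → Q x) :
    IsCh R Q k l := ⟨h.1, fun x hx => hPQ x (h.2.1 x hx), h.2.2⟩

lemma IsCh.del {k : ℕ} {l l' : List X} (h : IsCh R P (k + 1) l) (hd : Del l l') :
    IsCh R P k l' := by
  obtain ⟨a, x, b, rfl, rfl⟩ := hd
  obtain ⟨h1, h2, h3⟩ := h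
  refine ⟨?_, ?_, ?_⟩
  · rw [List.pairwise_append] at h1 ⊢
    exact ⟨h1.1, (List.pairwise_cons.1 h1.2.1).2, fun y hy z hz =>
      h1.2.2 y hy z (List.mem_cons_of_mem _ hz)⟩
  · intro y hy
    apply h2
    rcases List.mem_append.1 hy with h | h
    · exact List.mem_append_left _ h
    · exact List.mem_append_right _ (List.mem_cons_of_mem _ h)
  · rw [List.length_append, List.length_cons] at h3
    rw [List.length_append]
    omega

variable {M : Type} [AddCommGroup M]

lemma dP_supp (c : List X →₀ M) (l' : List X) (h : dP c l' ≠ 0) : ∃ l, c l ≠ 0 ∧ Del l l' := by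
  obtain ⟨l, hl, m, hm⟩ := exists_of_map_ne dP c l' h
  rw [dP_single] at hm
  exact ⟨l, hl, mem_dm l m l' hm⟩

lemma dP_ch {k : ℕ} (c : List X →₀ M) (hc : ∀ l, c l ≠ 0 → IsCh R P (k + 1) l) :
    ∀ l, dP c l ≠ 0 → IsCh R P k l := by
  intro l hl
  obtain ⟨l', h1, h2⟩ := dP_supp c l hl
  exact (hc l' h1).del h2

/-- a poset with a minimum -/
lemma ex_min (m : X) (hm : P m) (hlt : ∀ x, P x → x ≠ m → R m x)
    (hirr : ∀ x, P x → ¬ R x m) (k : ℕ) : Ex R P k := by
  classical
  intro M _ c hc hd
  -- the lists that do not start with `m`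
  let c0 : List X →₀ M := c.filter fun l => l.head? ≠ some m
  have hc0 : ∀ l, c0 l = if l.head? ≠ some m then c l else 0 := fun l => Finsupp.filter_apply _ _ _
  have hno : ∀ l, c0 l ≠ 0 → IsCh R P k l ∧ m ∉ l := by
    intro l hl
    rw [hc0] at hl
    by_cases h : l.head? ≠ some m
    · rw [if_pos h] at hl
      refine ⟨hc l hl, fun hml => ?_⟩
      obtain ⟨h1, h2, _⟩ := hc l hl
      rcases l with _ | ⟨x, t⟩
      · simp at hml
      · rcases List.mem_cons.1 hml with rfl | hmt
        · exact h rfl
        · exact hirr x (h2 x (List.mem_cons_self ..)) ((List.pairwise_cons.1 h1).1 m hmt)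
    · rw [if_neg h] at hl
      exact absurd rfl hl
  refine ⟨consM m c0, ?_, ?_⟩
  · intro l hl
    rcases l with _ | ⟨y, t⟩
    · exact absurd (consM_nil m c0) hl
    · by_cases hy : m = y
      · subst hy
        rw [consM_apply] at hl
        obtain ⟨⟨h1, h2, h3⟩, h4⟩ := hno t hl
        refine ⟨List.pairwise_cons.2 ⟨fun x hx => hlt x (h2 x hx) ?_, h1⟩, ?_, ?_⟩
        · rintro rfl
          exact h4 hx
        · intro x hx
          rcases List.mem_cons.1 hx with rfl | hx
          · exact hm
          · exact h2 x hx
        · rw [List.length_cons, h3]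
      · exact absurd (mapD_notin _ _ _ fun a ha => hy (List.cons.inj ha).1) hl
  · -- the lists that start with `m`
    let c1 : List X →₀ M := c.comapDomain (m :: ·) (cons_inj m).injOn
    have hc1 : ∀ l, c1 l = c (m :: l) := fun l => Finsupp.comapDomain_apply _ _ _ _
    have hsum : c = c0 + consM m c1 := by
      ext l
      rw [Finsupp.add_apply, hc0]
      rcases l with _ | ⟨y, t⟩
      · rw [consM_nil]
        simp
      · by_cases hy : m = y
        · subst hy
          rw [consM_apply, hc1]
          simp
        · have : consM m c1 (y :: t) = 0 := mapD_notin _ _ _ fun a ha => hy (List.cons.inj ha).1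
          rw [this, add_zero, if_pos]
          intro h
          exact hy (by simpa using h.symm)
    have hc1' : ∀ l, c1 l ≠ 0 → m ∉ l := by
      intro l hl hml
      rw [hc1] at hl
      obtain ⟨h1, h2, _⟩ := hc _ hl
      exact hirr m hm ((List.pairwise_cons.1 h1).1 m hml)
    rw [hsum, map_add, dP_cons] at hd
    -- compare the lists without `m`
    have h5 : dP c0 + c1 = 0 := by
      ext l
      rw [Finsupp.add_apply, Finsupp.zero_apply]
      by_cases hml : m ∈ l
      · have e1 : dP c0 l = 0 := by
          by_contra h
          obtain ⟨l', h1, a, x, b, rfl, rfl⟩ := dP_supp c0 l h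
          apply (hno _ h1).2
          rcases List.mem_append.1 hml with h | h
          · exact List.mem_append_left _ h
          · exact List.mem_append_right _ (List.mem_cons_of_mem _ h)
        have e2 : c1 l = 0 := by
          by_contra h
          exact hc1' l h hml
        rw [e1, e2, add_zero]
      · have := DFunLike.congr_fun hd l
        rw [Finsupp.add_apply, Finsupp.sub_apply, Finsupp.zero_apply] at this
        have e3 : consM m (dP c1) l = 0 := mapD_notin _ _ _ fun a ha => hml (ha ▸ List.mem_cons_self ..)
        rw [e3, sub_zero] at this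
        exact this
    have h6 : c1 = - dP c0 := by
      rw [eq_neg_iff_add_eq_zero, add_comm]
      exact h5
    rw [dP_cons, hsum, h6, map_neg, sub_eq_add_neg]

/-- reversal of lists -/
noncomputable def rev : (List X →₀ M) →+ (List X →₀ M) := Finsupp.mapDomain.addMonoidHom List.reverse

lemma rev_single (l : List X) (m : M) : rev (single l m) = single l.reverse m := mapDomain_single

lemma rev_apply (c : List X →₀ M) (l : List X) : rev c l = c l.reverse := by
  have := mapDomain_apply List.reverse_injective c l.reverse
  rw [List.reverse_reverse] at this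
  exact this

lemma rev_cons (x : X) (c : List X →₀ M) : rev (consM x c) = appR [x] (rev c) := by
  have : (rev.comp (consM x) : (List X →₀ M) →+ _) = (appR [x]).comp rev := by
    refine hom_ext _ _ fun l m => ?_
    show rev (consM x (single l m)) = appR [x] (rev (single l m))
    rw [consM_single, rev_single, rev_single, appR_single, List.reverse_cons]
  exact DFunLike.congr_fun this c

lemma dm_reverse (l : List X) (m : M) : dm l.reverse m = (-1 : ℤ) ^ (l.length + 1) • rev (dm l m) := by
  induction l with
  | nil => rw [List.reverse_nil, dm_nil, map_zero, smul_zero]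
  | cons x t ih =>
    have h1 : dm [x] m = (single [] m : List X →₀ M) := by
      rw [dm_cons, dm_nil, map_zero, sub_zero]
    rw [List.reverse_cons, dm_append, ih, h1, appL_single, List.append_nil, dm_cons, map_sub,
      rev_single, rev_cons, List.length_reverse, List.length_cons, map_zsmul,
      pow_succ (-1 : ℤ) (t.length + 1), mul_neg_one, neg_smul,
      smul_sub, pow_succ (-1 : ℤ) t.length, mul_neg_one, neg_smul, neg_smul]
    abel

lemma dP_rev {k : ℕ} (c : List X →₀ M) (hc : ∀ l, c l ≠ 0 → l.length = k) :
    dP (rev c) = (-1 : ℤ) ^ (k + 1) • rev (dP c) := by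
  rw [map_eq_sum dP c, map_sum, Finset.smul_sum]
  have h1 : rev c = ∑ b ∈ c.support, rev (single b (c b)) := map_eq_sum rev c
  rw [h1, map_sum]
  refine Finset.sum_congr rfl fun l hl => ?_
  rw [rev_single, dP_single, dP_single, dm_reverse, hc l (Finsupp.mem_support_iff.1 hl)]

lemma ex_flip {k : ℕ} (h : Ex R P k) : Ex (fun x y => R y x) P k := by
  intro M _ c hc hd
  have hr : ∀ k l, IsCh (fun x y => R y x) P k l ↔ IsCh R P k l.reverse := by
    intro k l
    unfold IsCh
    rw [List.pairwise_reverse, List.length_reverse]
    simp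
  obtain ⟨e, he, hde⟩ := h M (rev c) (fun l hl => by
    rw [rev_apply] at hl
    have := (hr k _).1 (hc _ hl)
    rwa [List.reverse_reverse] at this) (by
    rw [dP_rev c fun l hl => (hc l hl).2.2, hd, map_zero, smul_zero])
  refine ⟨(-1 : ℤ) ^ (k + 2) • rev e, fun l hl => ?_, ?_⟩
  · rw [hr]
    refine he _ fun h0 => hl ?_
    rw [Finsupp.smul_apply, rev_apply, h0, smul_zero]
  · rw [map_zsmul, dP_rev e fun l hl => (he l hl).2.2, hde, smul_smul, ← pow_add]
    have h1 : (-1 : ℤ) ^ (k + 2 + (k + 1 + 1)) = 1 := Even.neg_one_pow ⟨k + 2, by ring⟩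
    rw [h1, one_smul]
    ext l
    rw [rev_apply, rev_apply, List.reverse_reverse]

lemma ex_flip' {k : ℕ} (h : Ex (fun x y => R y x) P k) : Ex R P k := ex_flip h

/-- a poset with a maximum -/
lemma ex_max (m : X) (hm : P m) (hlt : ∀ x, P x → x ≠ m → R x m)
    (hirr : ∀ x, P x → ¬ R m x) (k : ℕ) : Ex R P k :=
  ex_flip' (ex_min (R := fun x y => R y x) m hm hlt hirr k)

end basic

section rel
variable {X : Type} {R : X → X → Prop} {P P0 : X → Prop}

lemma filter_split (hlow : ∀ x y, R x y → P x → P y → P0 y → P0 x) [DecidablePred P0]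
    (l : List X) (h1 : l.Pairwise R) (h2 : ∀ x ∈ l, P x) :
    l = l.filter (fun x => decide (P0 x)) ++ l.filter (fun x => decide (¬ P0 x)) := by
  induction l with
  | nil => rfl
  | cons x t ih =>
    have hp := List.pairwise_cons.1 h1
    have ih' := ih hp.2 fun y hy => h2 y (List.mem_cons_of_mem _ hy)
    by_cases hx : P0 x
    · rw [List.filter_cons_of_pos (by simpa using hx), List.filter_cons_of_neg (by simpa using hx),
        List.cons_append, ← ih']
    · rw [List.filter_cons_of_neg (by simpa using hx), List.filter_cons_of_pos (by simpa using hx)]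
      have h3 : t.filter (fun x => decide (P0 x)) = [] := by
        rw [List.filter_eq_nil_iff]
        intro y hy
        have hny : ¬ P0 y := fun h => hx (hlow x y (hp.1 y hy) (h2 x (List.mem_cons_self ..))
          (h2 y (List.mem_cons_of_mem _ hy)) h)
        simpa using hny
      rw [h3, List.nil_append] at ih' ⊢
      rw [← ih']

/-- relative exactness modulo a lower set -/
lemma rel_low (hlow : ∀ x y, R x y → P x → P y → P0 y → P0 x) (hsub : ∀ x, P0 x → P x)
    (H : ∀ v : List X, v ≠ [] → v.Pairwise R → (∀ x ∈ v, P x ∧ ¬ P0 x) →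
      ∀ k, Ex R (fun a => P0 a ∧ ∀ x ∈ v, R a x) k) (k : ℕ)
    (M : Type) [AddCommGroup M] (c : List X →₀ M) (hc : ∀ l, c l ≠ 0 → IsCh R P k l)
    (hd : ∀ l, dP c l ≠ 0 → ∀ x ∈ l, P0 x) :
    ∃ e : List X →₀ M, (∀ l, e l ≠ 0 → IsCh R P (k + 1) l) ∧
      ∀ l, (∃ x ∈ l, ¬ P0 x) → dP e l = c l := by
  classical
  let β : List X → List X := fun l => l.filter (fun x => decide (¬ P0 x))
  have hβ : ∀ l, 1 ≤ (β l).length ↔ ∃ x ∈ l, ¬ P0 x := by
    intro l
    rw [Nat.one_le_iff_ne_zero, ne_eq, List.length_eq_zero_iff, List.filter_eq_nil_iff]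
    push Not
    simp
  have hβapp : ∀ a b, β (a ++ b) = β a ++ β b := fun a b => List.filter_append ..
  obtain ⟨e, he1, he2⟩ := filt (B := List X) (J := List X) (M := M) dP dP_dP (IsCh R P k)
    (IsCh R P (k + 1)) β List.length 1 (by
      intro l _ m l' hl'
      rw [dP_single] at hl'
      obtain ⟨a, x, b, rfl, rfl⟩ := mem_dm l m l' hl'
      rw [hβapp, hβapp]
      by_cases hx : P0 x
      · left
        congr 1
        exact (List.filter_cons_of_neg (by simpa using hx)).symm
      · right
        have : β (x :: b) = x :: β b := List.filter_cons_of_pos (by simpa using hx)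
        rw [this, List.length_append, List.length_append, List.length_cons]
        omega) (by
      intro l hl m l' hl'
      rw [dP_single] at hl'
      exact hl.del (mem_dm l m l' hl')) (by
      intro v hv c hc hd
      by_cases hv0 : (∃ l, c l ≠ 0)
      · -- the block of `v`
        obtain ⟨l0, hl0⟩ := hv0
        have hvp : v.Pairwise R ∧ (∀ x ∈ v, P x ∧ ¬ P0 x) ∧ v.length ≤ k := by
          obtain ⟨⟨h1, h2, h3⟩, h4⟩ := hc l0 hl0
          rw [← h4]
          refine ⟨h1.filter _, fun x hx => ?_, h3 ▸ List.length_filter_le _ _⟩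
          have := List.mem_filter.1 hx
          exact ⟨h2 x this.1, by simpa using this.2⟩
        obtain ⟨hv1, hv2, hv3⟩ := hvp
        have hvne : v ≠ [] := by
          intro h
          rw [h] at hv
          simp at hv
        let c' : List X →₀ M := c.comapDomain (· ++ v) (appR_inj v).injOn
        have hc' : ∀ l, c' l = c (l ++ v) := fun l => Finsupp.comapDomain_apply _ _ _ _
        have hβv : β v = v := by
          refine List.filter_eq_self.2 fun x hx => ?_
          simpa using (hv2 x hx).2
        have hcapp : c = appR v c' := by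
          ext l
          by_cases hl : ∃ u, l = u ++ v
          · obtain ⟨u, rfl⟩ := hl
            rw [appR_apply, hc']
          · have h1 : appR v c' l = 0 := mapD_notin _ _ _ fun u hu => hl ⟨u, hu.symm⟩
            rw [h1]
            by_contra h2
            obtain ⟨⟨h3, h4, _⟩, h5⟩ := hc l h2
            have h6 := filter_split hlow l h3 h4
            apply hl
            refine ⟨l.filter (fun x => decide (P0 x)), ?_⟩
            rw [← h5]
            exact h6
        have hu : ∀ u, β (u ++ v) = v → ∀ x ∈ u, P0 x := by
          intro u hu x hx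
          rw [hβapp, hβv] at hu
          have h1 : β u = [] := by
            have := congrArg List.length hu
            rw [List.length_append] at this
            exact List.length_eq_zero_iff.1 (by omega)
          have := (List.filter_eq_nil_iff.1 h1) x hx
          simpa using this
        have hc'ch : ∀ u, c' u ≠ 0 → IsCh R (fun a => P0 a ∧ ∀ x ∈ v, R a x) (k - v.length) u := by
          intro u h0
          rw [hc'] at h0
          obtain ⟨⟨h3, h4, h5⟩, h6⟩ := hc _ h0
          rw [List.pairwise_append] at h3
          refine ⟨h3.1, fun x hx => ⟨hu u h6 x hx, fun y hy => h3.2.2 x hx y hy⟩, ?_⟩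
          rw [List.length_append] at h5
          omega
        have hdapp : ∀ f : List X →₀ M, (∀ u, f u ≠ 0 → ∀ x ∈ u, P0 x) → ∀ l, β l = v →
            dP (appR v f) l = appR v (dP f) l := by
          intro f hf l hl
          have h1 : dP (appR v f) - appR v (dP f) =
              ∑ b ∈ f.support, (-1 : ℤ) ^ b.length • appL b (dm v (f b)) := by
            have e1 : dP (appR v f) = ∑ b ∈ f.support, dP (appR v (single b (f b))) :=
              map_eq_sum (dP.comp (appR v)) f
            have e2 : appR v (dP f) = ∑ b ∈ f.support, appR v (dP (single b (f b))) :=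
              map_eq_sum ((appR v).comp dP) f
            rw [e1, e2, ← Finset.sum_sub_distrib]
            refine Finset.sum_congr rfl fun b _ => ?_
            rw [appR_single, dP_single, dP_single, dm_append]
            abel
          have h2 : (dP (appR v f) - appR v (dP f)) l = 0 := by
            rw [h1, Finsupp.finsetSum_apply]
            refine Finset.sum_eq_zero fun b hb => ?_
            have hb' := hf b (Finsupp.mem_support_iff.1 hb)
            rw [Finsupp.smul_apply]
            have h3 : appL b (dm v (f b)) l = 0 := by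
              by_contra h4
              by_cases hl2 : ∃ w, l = b ++ w
              · obtain ⟨w, rfl⟩ := hl2
                rw [appL_apply] at h4
                obtain ⟨a, x, b', h5, h6⟩ := mem_dm v _ w h4
                have h7 : β b = [] := by
                  rw [List.filter_eq_nil_iff]
                  intro y hy
                  simpa using hb' y hy
                rw [hβapp, h7, List.nil_append] at hl
                have h8 : w.length + 1 = v.length := by
                  rw [h5, h6, List.length_append, List.length_append, List.length_cons]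
                  omega
                have h9 : (β w).length ≤ w.length := List.length_filter_le _ _
                rw [hl] at h9
                omega
              · exact h4 (mapD_notin _ _ _ fun w hw => hl2 ⟨w, hw.symm⟩)
            rw [h3, smul_zero]
          rw [Finsupp.sub_apply, sub_eq_zero] at h2
          exact h2
        have hdc' : dP c' = 0 := by
          ext u
          rw [Finsupp.zero_apply]
          by_contra h1
          obtain ⟨u', h2, h3⟩ := dP_supp c' u h1
          have h4 := hc'ch u' h2
          have h5 : ∀ x ∈ u, P0 x := by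
            intro x hx
            obtain ⟨a, z, b, rfl, rfl⟩ := h3
            refine (h4.2.1 x ?_).1
            rcases List.mem_append.1 hx with h | h
            · exact List.mem_append_left _ h
            · exact List.mem_append_right _ (List.mem_cons_of_mem _ h)
          have h6 : β (u ++ v) = v := by
            rw [hβapp, hβv]
            have : β u = [] := by
              rw [List.filter_eq_nil_iff]
              intro y hy
              simpa using h5 y hy
            rw [this, List.nil_append]
          have h7 := hd _ h6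
          rw [hcapp, hdapp c' (fun u h0 x hx => ((hc'ch u h0).2.1 x hx).1) _ h6, appR_apply] at h7
          exact h1 h7
        obtain ⟨e', he'1, he'2⟩ := H v hvne hv1 hv2 (k - v.length) M c' hc'ch hdc'
        refine ⟨appR v e', fun l hl => ?_, fun l hl => ?_⟩
        · by_cases hl2 : ∃ u, l = u ++ v
          · obtain ⟨u, rfl⟩ := hl2
            rw [appR_apply] at hl
            obtain ⟨h1, h2, h3⟩ := he'1 u hl
            refine ⟨⟨?_, ?_, ?_⟩, ?_⟩
            · rw [List.pairwise_append]
              exact ⟨h1, hv1, fun x hx y hy => (h2 x hx).2 y hy⟩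
            · intro x hx
              rcases List.mem_append.1 hx with h | h
              · exact hsub x (h2 x h).1
              · exact (hv2 x h).1
            · rw [List.length_append, h3]
              omega
            · rw [hβapp, hβv]
              have : β u = [] := by
                rw [List.filter_eq_nil_iff]
                intro y hy
                simpa using (h2 y hy).1
              rw [this, List.nil_append]
          · exact absurd (mapD_notin _ _ _ fun u hu => hl2 ⟨u, hu.symm⟩) hl
        · rw [hdapp e' (fun u h0 x hx => ((he'1 u h0).2.1 x hx).1) l hl, he'2, ← hcapp]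
      · refine ⟨0, fun b hb => absurd rfl hb, fun b _ => ?_⟩
        push Not at hv0
        rw [map_zero, hv0 b]; rfl) c hc (by
      intro l hl
      by_contra h1
      obtain ⟨x, hx, hx2⟩ := (hβ l).1 hl
      exact hx2 (hd l h1 x hx))
  exact ⟨e, he1, fun l hl => he2 l ((hβ l).2 hl)⟩

/-- a lower set with exact lower fibres -/
lemma ex_low_iff (hlow : ∀ x y, R x y → P x → P y → P0 y → P0 x) (hsub : ∀ x, P0 x → P x)
    (H : ∀ v : List X, v ≠ [] → v.Pairwise R → (∀ x ∈ v, P x ∧ ¬ P0 x) →
      ∀ k, Ex R (fun a => P0 a ∧ ∀ x ∈ v, R a x) k) (k : ℕ) : Ex R P k ↔ Ex R P0 k := by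
  classical
  constructor
  · intro h M _ c hc hd
    obtain ⟨b, hb1, hb2⟩ := h M c (fun l hl => (hc l hl).mono hsub) hd
    obtain ⟨e, he1, he2⟩ := rel_low hlow hsub H (k + 1) M b hb1 (fun l hl x hx => by
      rw [hb2] at hl
      exact (hc l hl).2.1 x hx)
    refine ⟨b - dP e, fun l hl => ?_, ?_⟩
    · have h1 : IsCh R P (k + 1) l := by
        by_cases h0 : b l = 0
        · rw [Finsupp.sub_apply, h0, zero_sub, neg_ne_zero] at hl
          exact dP_ch e he1 l hl
        · exact hb1 l h0
      refine ⟨h1.1, fun x hx => ?_, h1.2.2⟩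
      by_contra h2
      apply hl
      rw [Finsupp.sub_apply, he2 l ⟨x, hx, h2⟩, sub_self]
    · rw [map_sub, dP_dP, sub_zero, hb2]
  · intro h M _ c hc hd
    obtain ⟨e, he1, he2⟩ := rel_low hlow hsub H k M c hc (fun l hl => by
      rw [hd] at hl
      exact absurd rfl hl)
    obtain ⟨b, hb1, hb2⟩ := h M (c - dP e) (fun l hl => by
      have h1 : IsCh R P k l := by
        by_cases h0 : c l = 0
        · rw [Finsupp.sub_apply, h0, zero_sub, neg_ne_zero] at hl
          exact dP_ch e he1 l hl
        · exact hc l h0
      refine ⟨h1.1, fun x hx => ?_, h1.2.2⟩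
      by_contra h2
      apply hl
      rw [Finsupp.sub_apply, he2 l ⟨x, hx, h2⟩, sub_self]) (by rw [map_sub, dP_dP, hd, sub_zero])
    refine ⟨b + e, fun l hl => ?_, by rw [map_add, hb2]; abel⟩
    by_cases h0 : b l = 0
    · rw [Finsupp.add_apply, h0, zero_add] at hl
      exact he1 l hl
    · exact (hb1 l h0).mono hsub

/-- an upper set with exact upper fibres -/
lemma ex_up_iff (hup : ∀ x y, R x y → P x → P y → P0 x → P0 y) (hsub : ∀ x, P0 x → P x)
    (H : ∀ v : List X, v ≠ [] → v.Pairwise R → (∀ x ∈ v, P x ∧ ¬ P0 x) →
      ∀ k, Ex R (fun a => P0 a ∧ ∀ x ∈ v, R x a) k) (k : ℕ) : Ex R P k ↔ Ex R P0 k := by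
  have key := ex_low_iff (R := fun x y => R y x) (P := P) (P0 := P0)
    (fun x y h hx hy h0 => hup y x h hy hx h0) hsub (fun v hv hp h k => by
      have h1 := H v.reverse (by simpa using hv) (by rw [List.pairwise_reverse]; exact hp)
        (fun x hx => h x (List.mem_reverse.1 hx)) k
      exact (ex_flip h1).congr fun x => by simp) k
  exact ⟨fun h => ex_flip' (key.1 (ex_flip h)), fun h => ex_flip' (key.2 (ex_flip h))⟩

end rel

end Q161.Mg
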