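import Pool.Agent.Q161.MgB

set_option autoImplicit false

/-!
Mayer-Vietoris, transport and the fibre lemma for exactness of augmented order complexes.
-/

namespace Q161.Mg

open Finsupp

section mv
variable {X : Type} {R : X → X → Prop} {P P1 P2 : X → Prop}

lemma ex_zero_mono (h : Ex R P1 0) (hsub : ∀ x, P1 x → P x) : Ex R P 0 := by
  intro M _ c hc hd
  have h1 : ∀ l, c l ≠ 0 → IsCh R P1 0 l := by
    intro l hl
    obtain ⟨_, _, h3⟩ := hc l hl
    have := List.length_eq_zero_iff.1 h3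
    subst this
    exact ⟨List.Pairwise.nil, fun x hx => absurd hx List.not_mem_nil, rfl⟩
  obtain ⟨e, he1, he2⟩ := h M c h1 hd
  exact ⟨e, fun l hl => (he1 l hl).mono hsub, he2⟩

/-- a nonempty set is exact in degree zero -/
lemma ex_zero {x : X} (hx : P x) : Ex R P 0 := by
  intro M _ c hc _
  refine ⟨consM x c, fun l hl => ?_, ?_⟩
  · rcases l with _ | ⟨y, t⟩
    · exact absurd (consM_nil x c) hl
    · by_cases hy : x = y
      · subst hy
        rw [consM_apply] at hl
        obtain ⟨_, _, h3⟩ := hc t hl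
        have := List.length_eq_zero_iff.1 h3
        subst this
        exact ⟨List.pairwise_singleton _ _, fun z hz => by
          rw [List.mem_singleton] at hz
          exact hz ▸ hx, rfl⟩
      · exact absurd (mapD_notin _ _ _ fun a ha => hy (List.cons.inj ha).1) hl
  · rw [dP_cons]
    have : dP c = 0 := by
      ext l
      rw [Finsupp.zero_apply]
      by_contra h
      obtain ⟨l', h1, a, z, b, h2, _⟩ := dP_supp c l h
      have h3 := (hc l' h1).2.2
      rw [h2, List.length_append, List.length_cons] at h3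
      omega
    rw [this, map_zero, sub_zero]

/-- splitting of a chain of the union -/
lemma mv_split (hcov : ∀ l : List X, l.Pairwise R → (∀ x ∈ l, P x) →
    (∀ x ∈ l, P1 x) ∨ (∀ x ∈ l, P2 x)) {k : ℕ} {M : Type} [AddCommGroup M] (c : List X →₀ M)
    (hc : ∀ l, c l ≠ 0 → IsCh R P k l) : ∃ c1 c2 : List X →₀ M, c = c1 + c2 ∧
      (∀ l, c1 l ≠ 0 → IsCh R P1 k l) ∧ (∀ l, c2 l ≠ 0 → IsCh R P2 k l) := by
  classical
  refine ⟨c.filter fun l => ∀ x ∈ l, P1 x, c.filter fun l => ¬ ∀ x ∈ l, P1 x, ?_, ?_, ?_⟩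
  · exact (Finsupp.filter_add_filter_not c _).symm
  · intro l hl
    rw [Finsupp.filter_apply] at hl
    by_cases h : ∀ x ∈ l, P1 x
    · rw [if_pos h] at hl
      exact ⟨(hc l hl).1, h, (hc l hl).2.2⟩
    · rw [if_neg h] at hl
      exact absurd rfl hl
  · intro l hl
    rw [Finsupp.filter_apply] at hl
    by_cases h : ∀ x ∈ l, P1 x
    · rw [if_neg (not_not.2 h)] at hl
      exact absurd rfl hl
    · rw [if_pos h] at hl
      have h1 := hc l hl
      exact ⟨h1.1, (hcov l h1.1 h1.2.1).resolve_left h, h1.2.2⟩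

lemma mv_both {k : ℕ} {M : Type} [AddCommGroup M] {c : List X →₀ M}
    (h1 : ∀ l, c l ≠ 0 → IsCh R P1 k l) (h2 : ∀ l, c l ≠ 0 → IsCh R P2 k l) :
    ∀ l, c l ≠ 0 → IsCh R (fun x => P1 x ∧ P2 x) k l := fun l hl =>
  ⟨(h1 l hl).1, fun x hx => ⟨(h1 l hl).2.1 x hx, (h2 l hl).2.1 x hx⟩, (h1 l hl).2.2⟩

lemma supp_add {A M : Type} [AddCommGroup M] {Q : A → Prop} {c d : A →₀ M} (hc : ∀ l, c l ≠ 0 → Q l)
    (hd : ∀ l, d l ≠ 0 → Q l) : ∀ l, (c + d) l ≠ 0 → Q l := by
  intro l hl
  by_cases h : c l = 0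
  · rw [Finsupp.add_apply, h, zero_add] at hl
    exact hd l hl
  · exact hc l h

lemma supp_neg {A M : Type} [AddCommGroup M] {Q : A → Prop} {c : A →₀ M} (hc : ∀ l, c l ≠ 0 → Q l) :
    ∀ l, (-c) l ≠ 0 → Q l := by
  intro l hl
  rw [Finsupp.neg_apply, neg_ne_zero] at hl
  exact hc l hl

lemma supp_sub {A M : Type} [AddCommGroup M] {Q : A → Prop} {c d : A →₀ M} (hc : ∀ l, c l ≠ 0 → Q l)
    (hd : ∀ l, d l ≠ 0 → Q l) : ∀ l, (c - d) l ≠ 0 → Q l := by
  rw [sub_eq_add_neg]
  exact supp_add hc (supp_neg hd)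

variable (hsub1 : ∀ x, P1 x → P x) (hsub2 : ∀ x, P2 x → P x)
  (hcov : ∀ l : List X, l.Pairwise R → (∀ x ∈ l, P x) → (∀ x ∈ l, P1 x) ∨ (∀ x ∈ l, P2 x))

include hsub1 hsub2 hcov

lemma mv_union {k : ℕ} (h1 : Ex R P1 (k + 1)) (h2 : Ex R P2 (k + 1))
    (h12 : Ex R (fun x => P1 x ∧ P2 x) k) : Ex R P (k + 1) := by
  intro M _ c hc hd
  obtain ⟨c1, c2, rfl, hc1, hc2⟩ := mv_split hcov c hc
  have hz : dP c1 = - dP c2 := by
    rw [map_add] at hd
    exact eq_neg_of_add_eq_zero_left hd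
  have hz1 := dP_ch c1 hc1
  have hz2 : ∀ l, dP c1 l ≠ 0 → IsCh R P2 k l := by
    rw [hz]
    exact supp_neg (dP_ch c2 hc2)
  obtain ⟨e, he1, he2⟩ := h12 M (dP c1) (mv_both hz1 hz2) (dP_dP _)
  obtain ⟨f1, hf1, hf1'⟩ := h1 M (c1 - e) (supp_sub hc1 fun l hl =>
    (he1 l hl).mono fun x hx => hx.1) (by rw [map_sub, he2, sub_self])
  obtain ⟨f2, hf2, hf2'⟩ := h2 M (c2 + e) (supp_add hc2 fun l hl =>
    (he1 l hl).mono fun x hx => hx.2) (by rw [map_add, he2, hz, add_neg_cancel])
  refine ⟨f1 + f2, supp_add (fun l hl => (hf1 l hl).mono hsub1)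
    (fun l hl => (hf2 l hl).mono hsub2), ?_⟩
  rw [map_add, hf1', hf2']
  abel

lemma mv_inter {k : ℕ} (h : Ex R P (k + 1)) (h1 : Ex R P1 k) (h2 : Ex R P2 k) :
    Ex R (fun x => P1 x ∧ P2 x) k := by
  intro M _ c hc hd
  obtain ⟨e1, he1, he1'⟩ := h1 M c (fun l hl => (hc l hl).mono fun x hx => hx.1) hd
  obtain ⟨e2, he2, he2'⟩ := h2 M c (fun l hl => (hc l hl).mono fun x hx => hx.2) hd
  obtain ⟨f, hf, hf'⟩ := h M (e1 - e2) (supp_sub (fun l hl => (he1 l hl).mono hsub1)
    (fun l hl => (he2 l hl).mono hsub2)) (by rw [map_sub, he1', he2', sub_self])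
  obtain ⟨f1, f2, rfl, hf1, hf2⟩ := mv_split hcov f hf
  have e : e1 - dP f1 = e2 + dP f2 := by
    rw [map_add] at hf'
    rw [sub_eq_iff_eq_add, add_assoc, add_comm (dP f2), hf']
    abel
  refine ⟨e1 - dP f1, mv_both (supp_sub he1 (dP_ch f1 hf1)) ?_, ?_⟩
  · rw [e]
    exact supp_add he2 (dP_ch f2 hf2)
  · rw [map_sub, dP_dP, sub_zero, he1']

omit hsub2 in
lemma mv_part {k : ℕ} (h : Ex R P k) (h12 : Ex R (fun x => P1 x ∧ P2 x) k) : Ex R P1 k := by
  intro M _ c hc hd
  obtain ⟨f, hf, hf'⟩ := h M c (fun l hl => (hc l hl).mono hsub1) hd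
  obtain ⟨f1, f2, rfl, hf1, hf2⟩ := mv_split hcov f hf
  have e : c - dP f1 = dP f2 := by
    rw [map_add] at hf'
    rw [← hf']
    abel
  obtain ⟨g, hg, hg'⟩ := h12 M (c - dP f1) (mv_both (supp_sub hc (dP_ch f1 hf1)) (by
    rw [e]
    exact dP_ch f2 hf2)) (by rw [map_sub, dP_dP, sub_zero, hd])
  refine ⟨f1 + g, supp_add hf1 fun l hl => (hg l hl).mono fun x hx => hx.1, ?_⟩
  rw [map_add, hg']
  abel

end mv

section transport
variable {X Y : Type} {R : X → X → Prop} {S : Y → Y → Prop} {P : X → Prop} {Q : Y → Prop}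

/-- the map on lists -/
noncomputable def lm {M : Type} [AddCommGroup M] (φ : X → Y) : (List X →₀ M) →+ (List Y →₀ M) :=
  Finsupp.mapDomain.addMonoidHom (List.map φ)

lemma lm_single {M : Type} [AddCommGroup M] (φ : X → Y) (l : List X) (m : M) :
    lm φ (single l m) = single (l.map φ) m := mapDomain_single

lemma lm_cons {M : Type} [AddCommGroup M] (φ : X → Y) (x : X) (c : List X →₀ M) :
    lm φ (consM x c) = consM (φ x) (lm φ c) := by
  have : ((lm φ).comp (consM x) : (List X →₀ M) →+ (List Y →₀ M)) =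
      (consM (φ x)).comp (lm φ) := by
    refine hom_ext _ _ fun l m => ?_
    show lm φ (consM x (single l m)) = consM (φ x) (lm φ (single l m))
    rw [consM_single, lm_single, lm_single, consM_single, List.map_cons]
  exact DFunLike.congr_fun this c

lemma dP_lm {M : Type} [AddCommGroup M] (φ : X → Y) (c : List X →₀ M) :
    dP (lm φ c) = lm φ (dP c) := by
  have : (dP.comp (lm φ) : (List X →₀ M) →+ (List Y →₀ M)) = (lm φ).comp dP := by
    refine hom_ext _ _ fun l m => ?_
    show dP (lm φ (single l m)) = lm φ (dP (single l m))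
    induction l with
    | nil => rw [lm_single, dP_single, dP_single, List.map_nil, dm_nil, dm_nil, map_zero]
    | cons x t ih =>
      rw [lm_single, dP_single] at ih
      rw [lm_single, dP_single, dP_single, List.map_cons, dm_cons, dm_cons, map_sub, lm_single,
        lm_cons, ih, dP_single]
  exact DFunLike.congr_fun this c

lemma lm_supp {M : Type} [AddCommGroup M] (φ : X → Y) (c : List X →₀ M) (l : List Y)
    (h : lm φ c l ≠ 0) : ∃ l', c l' ≠ 0 ∧ l'.map φ = l := by
  classical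
  have h1 : l ∈ (mapDomain (List.map φ) c).support := Finsupp.mem_support_iff.2 h
  have h2 := Finsupp.mapDomain_support h1
  obtain ⟨l', h3, h4⟩ := Finset.mem_image.1 h2
  exact ⟨l', Finsupp.mem_support_iff.1 h3, h4⟩

lemma ex_transport (φ : X → Y) (ψ : Y → X) (hφ : ∀ x, P x → Q (φ x)) (hψ : ∀ y, Q y → P (ψ y))
    (hφψ : ∀ y, Q y → φ (ψ y) = y)
    (hR : ∀ x x', P x → P x' → R x x' → S (φ x) (φ x'))
    (hS : ∀ y y', Q y → Q y' → S y y' → R (ψ y) (ψ y')) {k : ℕ} (h : Ex R P k) : Ex S Q k := by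
  intro M _ c hc hd
  obtain ⟨e, he, he'⟩ := h M (lm ψ c) (by
    intro l hl
    obtain ⟨l', h1, rfl⟩ := lm_supp ψ c l hl
    obtain ⟨h2, h3, h4⟩ := hc l' h1
    refine ⟨?_, ?_, by rw [List.length_map, h4]⟩
    · rw [List.pairwise_map]
      refine h2.imp_of_mem fun ha hb hab => hS _ _ (h3 _ ha) (h3 _ hb) hab
    · intro x hx
      obtain ⟨y, hy, rfl⟩ := List.mem_map.1 hx
      exact hψ y (h3 y hy)) (by rw [dP_lm, hd, map_zero])
  refine ⟨lm φ e, ?_, ?_⟩
  · intro l hl
    obtain ⟨l', h1, rfl⟩ := lm_supp φ e l hl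
    obtain ⟨h2, h3, h4⟩ := he l' h1
    refine ⟨?_, ?_, by rw [List.length_map, h4]⟩
    · rw [List.pairwise_map]
      refine h2.imp_of_mem fun ha hb hab => hR _ _ (h3 _ ha) (h3 _ hb) hab
    · intro x hx
      obtain ⟨y, hy, rfl⟩ := List.mem_map.1 hx
      exact hφ y (h3 y hy)
  · rw [dP_lm, he']
    have h1 : lm φ (lm ψ c) = ∑ b ∈ c.support, lm φ (lm ψ (single b (c b))) := by
      conv_lhs => rw [← Finsupp.sum_single c, Finsupp.sum, map_sum, map_sum]
    rw [h1]
    conv_rhs => rw [← Finsupp.sum_single c, Finsupp.sum]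
    refine Finset.sum_congr rfl fun l hl => ?_
    rw [lm_single, lm_single, List.map_map]
    congr 1
    have h2 := (hc l (Finsupp.mem_support_iff.1 hl)).2.1
    conv_rhs => rw [← List.map_id l]
    exact List.map_congr_left fun y hy => hφψ y (h2 y hy)

/-- a change of the relation outside of the set -/
lemma ex_rel {R' : X → X → Prop} (hR : ∀ x x', P x → P x' → (R x x' ↔ R' x x')) {k : ℕ}
    (h : Ex R P k) : Ex R' P k :=
  ex_transport id id (fun _ h => h) (fun _ h => h) (fun _ _ => rfl)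
    (fun x x' h1 h2 h3 => (hR x x' h1 h2).1 h3) (fun x x' h1 h2 h3 => (hR x x' h1 h2).2 h3) h

lemma exists_of_ex_zero (h : Ex R P 0) : ∃ x, P x := by
  obtain ⟨e, he1, he2⟩ := h ℤ (single [] 1) (fun l hl => by
    have : l = [] := by
      by_contra h
      exact hl (Finsupp.single_eq_of_ne h)
    subst this
    exact ⟨List.Pairwise.nil, fun x hx => absurd hx List.not_mem_nil, rfl⟩) (by
    rw [dP_single, dm_nil])
  have h1 : e ≠ 0 := by
    rintro rfl
    rw [map_zero] at he2
    have := DFunLike.congr_fun he2 []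
    rw [Finsupp.single_eq_same] at this
    exact one_ne_zero this.symm
  obtain ⟨l, hl⟩ := Finsupp.ne_iff.1 h1
  obtain ⟨_, h2, h3⟩ := he1 l hl
  rcases l with _ | ⟨x, t⟩
  · simp at h3
  · exact ⟨x, h2 x (List.mem_cons_self ..)⟩

lemma ex_empty (h : ∀ x, ¬ P x) (k : ℕ) : Ex R P (k + 1) := by
  intro M _ c hc _
  refine ⟨0, fun l hl => absurd rfl hl, ?_⟩
  rw [map_zero]
  ext l
  by_contra h0
  obtain ⟨_, h2, h3⟩ := hc l (Ne.symm h0)
  rcases l with _ | ⟨x, t⟩
  · simp at h3
  · exact h x (h2 x (List.mem_cons_self ..))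

lemma ex_embed (φ : X → Y) (hφ : Function.Injective φ) (hQ : ∀ y, Q y ↔ ∃ x, P x ∧ φ x = y)
    (hR : ∀ x x', P x → P x' → (R x x' ↔ S (φ x) (φ x'))) (k : ℕ) : Ex R P k ↔ Ex S Q k := by
  rcases isEmpty_or_nonempty X with hX | hX
  · have h1 : ∀ x, ¬ P x := fun x => (hX.false x).elim
    have h2 : ∀ y, ¬ Q y := fun y hy => by
      obtain ⟨x, _⟩ := (hQ y).1 hy
      exact hX.false x
    rcases k with _ | k
    · exact ⟨fun h => absurd (exists_of_ex_zero h) (by simpa using h1),
        fun h => absurd (exists_of_ex_zero h) (by simpa using h2)⟩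
    · exact ⟨fun _ => ex_empty h2 k, fun _ => ex_empty h1 k⟩
  · have hl : Function.LeftInverse (Function.invFun φ) φ := Function.leftInverse_invFun hφ
    have hφψ : ∀ y, Q y → φ (Function.invFun φ y) = y := by
      intro y hy
      obtain ⟨x, _, rfl⟩ := (hQ y).1 hy
      rw [hl x]
    have hψ : ∀ y, Q y → P (Function.invFun φ y) := by
      intro y hy
      obtain ⟨x, hx, rfl⟩ := (hQ y).1 hy
      rw [hl x]
      exact hx
    have hφ' : ∀ x, P x → Q (φ x) := fun x hx => (hQ _).2 ⟨x, hx, rfl⟩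
    have hS : ∀ y y', Q y → Q y' → S y y' → R (Function.invFun φ y) (Function.invFun φ y') := by
      intro y y' hy hy' h
      rw [hR _ _ (hψ y hy) (hψ y' hy'), hφψ y hy, hφψ y' hy']
      exact h
    constructor
    · exact ex_transport φ _ hφ' hψ hφψ (fun x x' h1 h2 h3 => (hR x x' h1 h2).1 h3) hS
    · exact ex_transport _ φ hψ hφ' (fun x _ => hl x) hS
        (fun x x' h1 h2 h3 => (hR x x' h1 h2).1 h3)

end transport

section quillen
variable {X Y : Type} {R : X → X → Prop} {S le : Y → Y → Prop} {P : X → Prop} {Q : Y → Prop}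

/-- the relation of the mapping cylinder -/
def Cyl (R : X → X → Prop) (S le : Y → Y → Prop) (f : X → Y) : X ⊕ Y → X ⊕ Y → Prop
  | .inl a, .inl a' => R a a'
  | .inl a, .inr y => le (f a) y
  | .inr _, .inl _ => False
  | .inr y, .inr y' => S y y'

/-- the fibre lemma: all lower fibres `f a ≤ y` exact -/
theorem quillen (f : X → Y) (hle : ∀ x y z, Q x → Q y → Q z → le x y → le y z → le x z)
    (hS : ∀ x y, Q x → Q y → (S x y ↔ le x y ∧ x ≠ y)) (hrefl : ∀ x, Q x → le x x)
    (hanti : ∀ x y, Q x → Q y → le x y → le y x → x = y)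
    (hf : ∀ a, P a → Q (f a)) (hmono : ∀ a b, P a → P b → R a b → le (f a) (f b))
    (hfib : ∀ y, Q y → ∀ k, Ex R (fun a => P a ∧ le (f a) y) k) (k : ℕ) :
    Ex R P k ↔ Ex S Q k := by
  let T := Cyl R S le f
  let PQ : X ⊕ Y → Prop := Sum.elim P Q
  let L : X ⊕ Y → Prop := Sum.elim P (fun _ => False)
  let U : X ⊕ Y → Prop := Sum.elim (fun _ => False) Q
  have h1 : ∀ k, Ex T PQ k ↔ Ex T L k := by
    refine ex_low_iff (R := T) (P := PQ) (P0 := L) ?_ ?_ ?_
    · rintro (a | y) (b | z) h hp hq h0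
      · exact hp
      · exact absurd h0 id
      · exact absurd h id
      · exact absurd h0 id
    · rintro (a | y) h
      · exact h
      · exact absurd h id
    · intro v hv hp hvP k
      obtain ⟨y0, t, rfl⟩ : ∃ y0 t, v = y0 :: t := by
        rcases v with _ | ⟨y0, t⟩
        · exact absurd rfl hv
        · exact ⟨y0, t, rfl⟩
      obtain ⟨hy1, hy2⟩ := hvP y0 (List.mem_cons_self ..)
      rcases y0 with a | y
      · exact absurd hy1 hy2
      · have hQy : Q y := hy1
        have h4 : ∀ x ∈ t, ∃ z, x = Sum.inr z ∧ Q z ∧ le y z := by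
          intro x hx
          have h5 := (List.pairwise_cons.1 hp).1 x hx
          obtain ⟨h6, h7⟩ := hvP x (List.mem_cons_of_mem _ hx)
          rcases x with a | z
          · exact absurd h6 h7
          · exact ⟨z, rfl, h6, ((hS y z hQy h6).1 h5).1⟩
        refine (ex_embed (Sum.inl : X → X ⊕ Y) Sum.inl_injective ?_ ?_ k).1 (hfib y hQy k)
        · rintro (a | z)
          · constructor
            · rintro ⟨h5, h6⟩
              exact ⟨a, ⟨h5, h6 _ (List.mem_cons_self ..)⟩, rfl⟩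
            · rintro ⟨a', ⟨h5, h6⟩, h7⟩
              obtain rfl := Sum.inl_injective h7
              refine ⟨h5, fun x hx => ?_⟩
              rcases List.mem_cons.1 hx with rfl | hx
              · exact h6
              · obtain ⟨z, rfl, h8, h9⟩ := h4 x hx
                exact hle _ _ _ (hf _ h5) hQy h8 h6 h9
          · constructor
            · rintro ⟨h5, _⟩
              exact absurd h5 id
            · rintro ⟨a', _, h7⟩
              exact absurd h7 (by simp)
        · intro x x' _ _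
          exact Iff.rfl
  have h2 : ∀ k, Ex T PQ k ↔ Ex T U k := by
    refine ex_up_iff (R := T) (P := PQ) (P0 := U) ?_ ?_ ?_
    · rintro (a | y) (b | z) h hp hq h0
      · exact absurd h0 id
      · exact absurd h0 id
      · exact absurd h id
      · exact hq
    · rintro (a | y) h
      · exact absurd h id
      · exact h
    · intro v hv hp hvP k
      obtain ⟨t, y0, rfl⟩ : ∃ t y0, v = t ++ [y0] :=
        ⟨v.dropLast, v.getLast hv, (List.dropLast_append_getLast hv).symm⟩
      obtain ⟨hy1, hy2⟩ := hvP y0 (by simp)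
      rcases y0 with a | y
      swap
      · exact absurd hy1 hy2
      · have hPa : P a := hy1
        have h4 : ∀ x ∈ t, ∃ z, x = Sum.inl z ∧ P z ∧ le (f z) (f a) := by
          intro x hx
          have h5 := (List.pairwise_append.1 hp).2.2 x hx _ (List.mem_singleton_self _)
          obtain ⟨h6, h7⟩ := hvP x (List.mem_append_left _ hx)
          rcases x with b | z
          · exact ⟨b, rfl, h6, hmono b a h6 hPa h5⟩
          · exact absurd h6 h7
        refine ex_min (R := T) (Sum.inr (f a)) ?_ ?_ ?_ k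
        · refine ⟨hf a hPa, fun x hx => ?_⟩
          rcases List.mem_append.1 hx with hx | hx
          · obtain ⟨z, rfl, _, h8⟩ := h4 x hx
            exact h8
          · rw [List.mem_singleton] at hx
            subst hx
            exact hrefl _ (hf a hPa)
        · rintro (b | z) ⟨h5, h6⟩ hne
          · exact absurd h5 id
          · have h7 : le (f a) z := h6 (Sum.inl a) (by simp)
            exact (hS _ _ (hf a hPa) h5).2 ⟨h7, fun h => hne (h ▸ rfl)⟩
        · rintro (b | z) ⟨h5, h6⟩ h8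
          · exact absurd h5 id
          · have h7 : le (f a) z := h6 (Sum.inl a) (by simp)
            have h9 := (hS _ _ h5 (hf a hPa)).1 h8
            exact h9.2 (hanti _ _ h5 (hf a hPa) h9.1 h7)
  have h3 : Ex R P k ↔ Ex T L k := by
    refine ex_embed (S := T) (Q := L) (Sum.inl : X → X ⊕ Y) Sum.inl_injective ?_
      (fun _ _ _ _ => Iff.rfl) k
    rintro (a | z)
    · exact ⟨fun h => ⟨a, h, rfl⟩, fun ⟨b, hb, h⟩ => Sum.inl_injective h ▸ hb⟩
    · exact ⟨fun h => absurd h id, fun ⟨b, _, h⟩ => absurd h (by simp)⟩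
  have h4 : Ex S Q k ↔ Ex T U k := by
    refine ex_embed (S := T) (Q := U) (Sum.inr : Y → X ⊕ Y) Sum.inr_injective ?_
      (fun _ _ _ _ => Iff.rfl) k
    rintro (a | z)
    · exact ⟨fun h => absurd h id, fun ⟨b, _, h⟩ => absurd h (by simp)⟩
    · exact ⟨fun h => ⟨z, h, rfl⟩, fun ⟨b, hb, h⟩ => Sum.inr_injective h ▸ hb⟩
  rw [h3, h4, ← h1, ← h2]

end quillen

end Q161.Mg
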