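import Pool.Agent.Q161.MgC

set_option autoImplicit false

/-!
Exactness of posets of sign vectors of convex sets.
-/

namespace Q161.Mg

open Finsupp

section order
variable {ι : Type}

/-- face order on sign vectors -/
def fle (x y : ι → SignType) : Prop := ∀ i, x i = 0 ∨ x i = y i

/-- strict face order -/
def flt (x y : ι → SignType) : Prop := fle x y ∧ x ≠ y

/-- composition of sign vectors -/
def cmp (x y : ι → SignType) : ι → SignType := fun i => if x i = 0 then y i else x i

lemma fle_refl (x : ι → SignType) : fle x x := fun _ => Or.inr rfl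

lemma fle_trans {x y z : ι → SignType} (h : fle x y) (h' : fle y z) : fle x z := by
  intro i
  rcases h i with h1 | h1
  · exact Or.inl h1
  · rcases h' i with h2 | h2
    · exact Or.inl (h1.trans h2)
    · exact Or.inr (h1.trans h2)

lemma fle_antisymm {x y : ι → SignType} (h : fle x y) (h' : fle y x) : x = y := by
  funext i
  rcases h i with h1 | h1
  · rcases h' i with h2 | h2
    · rw [h1, h2]
    · exact h2.symm
  · exact h1

lemma flt_trans {x y z : ι → SignType} (h : flt x y) (h' : flt y z) : flt x z :=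
  ⟨fle_trans h.1 h'.1, fun e => h'.2 (fle_antisymm h'.1 (e ▸ h.1))⟩

lemma flt_irrefl (x : ι → SignType) : ¬ flt x x := fun h => h.2 rfl

lemma flt_of_fle_of_flt {x y z : ι → SignType} (h : fle x y) (h' : flt y z) : flt x z :=
  ⟨fle_trans h h'.1, fun e => h'.2 (fle_antisymm h'.1 (e ▸ h))⟩

lemma fle_cmp (x y : ι → SignType) : fle x (cmp x y) := by
  intro i
  unfold cmp
  by_cases h : x i = 0
  · exact Or.inl h
  · right
    rw [if_neg h]

/-- a nonempty chain has a maximum -/
lemma chain_max {X : Type} {R : X → X → Prop} {v : List X} (hv : v ≠ []) (hp : v.Pairwise R) :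
    ∃ z ∈ v, ∀ x ∈ v, x = z ∨ R x z := by
  refine ⟨v.getLast hv, List.getLast_mem hv, fun x hx => ?_⟩
  rw [← List.dropLast_append_getLast hv] at hx hp
  rcases List.mem_append.1 hx with h | h
  · exact Or.inr ((List.pairwise_append.1 hp).2.2 x h _ (by simp))
  · exact Or.inl (by simpa using h)

lemma chain_min {X : Type} {R : X → X → Prop} {v : List X} (hv : v ≠ []) (hp : v.Pairwise R) :
    ∃ z ∈ v, ∀ x ∈ v, x = z ∨ R z x := by
  rcases v with _ | ⟨z, t⟩
  · exact absurd rfl hv
  · refine ⟨z, List.mem_cons_self .., fun x hx => ?_⟩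
    rcases List.mem_cons.1 hx with h | h
    · exact Or.inl h
    · exact Or.inr ((List.pairwise_cons.1 hp).1 x h)

lemma cov_up {X : Type} {R : X → X → Prop} {P P1 P2 : X → Prop} (h12 : ∀ x, P x → P1 x ∨ P2 x)
    (h1 : ∀ x y, R x y → P y → P1 x → P1 y) (h2 : ∀ x y, R x y → P y → P2 x → P2 y) :
    ∀ l : List X, l.Pairwise R → (∀ x ∈ l, P x) → (∀ x ∈ l, P1 x) ∨ (∀ x ∈ l, P2 x) := by
  intro l hl hP
  rcases eq_or_ne l [] with rfl | hne
  · exact Or.inl fun x hx => absurd hx List.not_mem_nil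
  · obtain ⟨z, hz, hmin⟩ := chain_min hne hl
    rcases h12 z (hP z hz) with h | h
    · left
      intro x hx
      rcases hmin x hx with rfl | h3
      · exact h
      · exact h1 z x h3 (hP x hx) h
    · right
      intro x hx
      rcases hmin x hx with rfl | h3
      · exact h
      · exact h2 z x h3 (hP x hx) h

lemma cov_down {X : Type} {R : X → X → Prop} {P P1 P2 : X → Prop} (h12 : ∀ x, P x → P1 x ∨ P2 x)
    (h1 : ∀ x y, R x y → P x → P1 y → P1 x) (h2 : ∀ x y, R x y → P x → P2 y → P2 x) :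
    ∀ l : List X, l.Pairwise R → (∀ x ∈ l, P x) → (∀ x ∈ l, P1 x) ∨ (∀ x ∈ l, P2 x) := by
  intro l hl hP
  rcases eq_or_ne l [] with rfl | hne
  · exact Or.inl fun x hx => absurd hx List.not_mem_nil
  · obtain ⟨z, hz, hmax⟩ := chain_max hne hl
    rcases h12 z (hP z hz) with h | h
    · left
      intro x hx
      rcases hmax x hx with rfl | h3
      · exact h
      · exact h1 x z h3 (hP x hx) h
    · right
      intro x hx
      rcases hmax x hx with rfl | h3
      · exact h
      · exact h2 x z h3 (hP x hx) h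

end order

section aff
variable {E : Type} [AddCommGroup E] [Module ℝ E]

/-- affine functions -/
def IsAff (g : E → ℝ) : Prop :=
  ∀ (p q : E) (t : ℝ), g (AffineMap.lineMap p q t) = (1 - t) * g p + t * g q

/-- a convex condition on signs -/
def CC (C : SignType → Prop) : Prop :=
  ∀ x y t : ℝ, 0 < t → t < 1 → C (SignType.sign x) → C (SignType.sign y) →
    C (SignType.sign ((1 - t) * x + t * y))

lemma cc_eq (s : SignType) : CC (· = s) := by
  intro x y t h0 h1 hx hy
  subst hy
  rcases lt_trichotomy y 0 with h | h | h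
  · rw [sign_neg h] at hx ⊢
    have hx' : x < 0 := sign_eq_neg_one_iff.1 hx
    exact sign_neg (by nlinarith)
  · rw [h, sign_zero] at hx ⊢
    have hx' : x = 0 := by simpa using hx
    rw [hx']
    simp
  · rw [sign_pos h] at hx ⊢
    have hx' : 0 < x := sign_eq_one_iff.1 hx
    exact sign_pos (by nlinarith)

lemma cc_ne {s : SignType} (hs : s ≠ 0) : CC (· ≠ s) := by
  intro x y t h0 h1 hx hy
  rcases s with _ | _ | _
  · exact absurd rfl hs
  · have hx' : 0 ≤ x := by
      by_contra h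
      exact hx (sign_neg (not_le.1 h))
    have hy' : 0 ≤ y := by
      by_contra h
      exact hy (sign_neg (not_le.1 h))
    intro h
    have h2 : (1 - t) * x + t * y < 0 := sign_eq_neg_one_iff.1 h
    nlinarith [mul_nonneg (sub_nonneg.2 h1.le) hx', mul_nonneg h0.le hy']
  · have hx' : x ≤ 0 := by
      by_contra h
      exact hx (sign_pos (not_le.1 h))
    have hy' : y ≤ 0 := by
      by_contra h
      exact hy (sign_pos (not_le.1 h))
    intro h
    have h2 : 0 < (1 - t) * x + t * y := sign_eq_one_iff.1 h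
    nlinarith [mul_nonneg (sub_nonneg.2 h1.le) (neg_nonneg.2 hx'),
      mul_nonneg h0.le (neg_nonneg.2 hy')]

/-- closed under convex combinations -/
def Cv (Z : E → Prop) : Prop :=
  ∀ p q t, (0 : ℝ) < t → t < 1 → Z p → Z q → Z (AffineMap.lineMap p q t)

lemma Cv.and {Z Z' : E → Prop} (h : Cv Z) (h' : Cv Z') : Cv fun p => Z p ∧ Z' p :=
  fun p q t h0 h1 hp hq => ⟨h p q t h0 h1 hp.1 hq.1, h' p q t h0 h1 hp.2 hq.2⟩

lemma cv_cond {g : E → ℝ} (hg : IsAff g) {C : SignType → Prop} (hC : CC C) :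
    Cv fun p => C (SignType.sign (g p)) := by
  intro p q t h0 h1 hp hq
  rw [hg]
  exact hC _ _ t h0 h1 hp hq

lemma cv_all {κ : Type} {Z : κ → E → Prop} (h : ∀ k, Cv (Z k)) : Cv fun p => ∀ k, Z k p :=
  fun p q t h0 h1 hp hq k => h k p q t h0 h1 (hp k) (hq k)

lemma cv_imp {Z : E → Prop} {b : Prop} (h : b → Cv Z) : Cv fun p => b → Z p :=
  fun p q t h0 h1 hp hq hb => h hb p q t h0 h1 (hp hb) (hq hb)

variable {ι : Type} (a : ι → E → ℝ)

/-- sign vector of a point -/
noncomputable def sg (p : E) : ι → SignType := fun i => SignType.sign (a i p)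

/-- sign vectors of the points of a set -/
def Fc (Z : E → Prop) (X : ι → SignType) : Prop := ∃ p, Z p ∧ sg a p = X

variable {a}

lemma Fc.mono {Z Z' : E → Prop} (h : ∀ p, Z p → Z' p) {X : ι → SignType} (hX : Fc a Z X) :
    Fc a Z' X := by
  obtain ⟨p, hp, hX⟩ := hX
  exact ⟨p, h p hp, hX⟩

/-- conditions on the sign vector can be moved into the set -/
lemma fc_and {Z : E → Prop} (Q : (ι → SignType) → Prop) (X : ι → SignType) :
    Fc a (fun p => Z p ∧ Q (sg a p)) X ↔ Fc a Z X ∧ Q X := by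
  constructor
  · rintro ⟨p, ⟨hp, hq⟩, rfl⟩
    exact ⟨⟨p, hp, rfl⟩, hq⟩
  · rintro ⟨⟨p, hp, rfl⟩, hq⟩
    exact ⟨p, ⟨hp, hq⟩, rfl⟩

/-- the perturbation lemma -/
lemma perturb [Finite ι] (ha : ∀ i, IsAff (a i)) (p q : E) :
    ∃ t : ℝ, 0 < t ∧ t < 1 ∧ sg a (AffineMap.lineMap p q t) = cmp (sg a p) (sg a q) := by
  have key : ∀ i, ∀ᶠ t : ℝ in nhdsWithin 0 (Set.Ioi 0),
      SignType.sign (a i (AffineMap.lineMap p q t)) = cmp (sg a p) (sg a q) i := by
    intro i
    have hcont : Filter.Tendsto (fun t : ℝ => (1 - t) * a i p + t * a i q)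
        (nhdsWithin 0 (Set.Ioi 0)) (nhds (a i p)) := by
      have h1 : Filter.Tendsto (fun t : ℝ => (1 - t) * a i p + t * a i q) (nhds 0)
          (nhds ((1 - 0) * a i p + 0 * a i q)) := by
        apply Continuous.tendsto
        fun_prop
      rw [sub_zero, one_mul, zero_mul, add_zero] at h1
      exact h1.mono_left nhdsWithin_le_nhds
    have hform : ∀ t, a i (AffineMap.lineMap p q t) = (1 - t) * a i p + t * a i q :=
      fun t => ha i p q t
    unfold cmp sg
    rcases lt_trichotomy (a i p) 0 with h | h | h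
    · rw [sign_neg h]
      filter_upwards [hcont.eventually_lt_const h] with t ht
      rw [hform, sign_neg ht]
      simp
    · rw [h, sign_zero, if_pos rfl]
      filter_upwards [self_mem_nhdsWithin] with t ht
      have ht' : (0 : ℝ) < t := ht
      rw [hform, h, mul_zero, zero_add, sign_mul, sign_pos ht', one_mul]
    · rw [sign_pos h]
      filter_upwards [hcont.eventually_const_lt h] with t ht
      rw [hform, sign_pos ht]
      simp
  have h2 : ∀ᶠ t : ℝ in nhdsWithin 0 (Set.Ioi 0), t < 1 := by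
    have : Set.Iio (1 : ℝ) ∈ nhds (0 : ℝ) := Iio_mem_nhds one_pos
    exact mem_nhdsWithin_of_mem_nhds this
  have h3 : ∀ᶠ t : ℝ in nhdsWithin 0 (Set.Ioi 0), 0 < t := self_mem_nhdsWithin
  have h4 := (Filter.eventually_all.2 key).and (h2.and h3)
  obtain ⟨t, h5, h6, h7⟩ := h4.exists
  exact ⟨t, h7, h6, funext h5⟩

lemma Fc.cmp [Finite ι] (ha : ∀ i, IsAff (a i)) {Z : E → Prop} (hZ : Cv Z) {X Y : ι → SignType}
    (hX : Fc a Z X) (hY : Fc a Z Y) : Fc a Z (cmp X Y) := by
  obtain ⟨p, hp, rfl⟩ := hX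
  obtain ⟨q, hq, rfl⟩ := hY
  obtain ⟨t, h0, h1, ht⟩ := perturb ha p q
  exact ⟨_, hZ p q t h0 h1 hp hq, ht⟩

/-- the indices of non constant sign -/
def NC (a : ι → E → ℝ) (Z : E → Prop) : Set ι :=
  {i | ∃ p q, Z p ∧ Z q ∧ SignType.sign (a i p) ≠ SignType.sign (a i q)}

lemma nc_lt [Finite ι] {Z Z' : E → Prop} (h : ∀ p, Z' p → Z p) {i : ι} (hi : i ∈ NC a Z)
    {s : SignType} (hs : ∀ p, Z' p → SignType.sign (a i p) = s) :
    (NC a Z').ncard < (NC a Z).ncard := by
  apply Set.ncard_lt_ncard _ (Set.toFinite _)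
  refine ⟨?_, fun h2 => ?_⟩
  · rintro j ⟨p, q, hp, hq, hne⟩
    exact ⟨p, q, h p hp, h q hq, hne⟩
  · obtain ⟨p, q, hp, hq, hne⟩ := h2 hi
    exact hne ((hs p hp).trans (hs q hq).symm)

/-- the set above a sign vector -/
def Up (a : ι → E → ℝ) (Z : E → Prop) (z : ι → SignType) : E → Prop :=
  fun p => Z p ∧ ∀ i, z i ≠ 0 → SignType.sign (a i p) = z i

lemma fc_up {Z : E → Prop} (z X : ι → SignType) : Fc a (Up a Z z) X ↔ Fc a Z X ∧ fle z X := by
  refine (fc_and (fun Y : ι → SignType => ∀ i, z i ≠ 0 → Y i = z i) X).trans ?_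
  refine and_congr_right fun _ => forall_congr' fun i => ?_
  constructor
  · intro h
    by_cases h0 : z i = 0
    · exact Or.inl h0
    · exact Or.inr (h h0).symm
  · rintro (h | h) h0
    · exact absurd h h0
    · exact h.symm

lemma cv_up (ha : ∀ i, IsAff (a i)) {Z : E → Prop} (hZ : Cv Z) (z : ι → SignType) :
    Cv (Up a Z z) :=
  hZ.and (cv_all fun i => cv_imp fun _ => cv_cond (ha i) (cc_eq (z i)))

/-- a set of sign vectors with the last coordinate conditions -/
lemma side [Finite ι] (ha : ∀ i, IsAff (a i)) {Z : E → Prop} (hZ : Cv Z)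
    {P1 : (ι → SignType) → Prop} (hP1 : ∀ X, P1 X → Fc a Z X) {H : ι} {s : SignType} (hs : s ≠ 0)
    (hup : ∀ X Y, flt X Y → Fc a Z Y → Y H = s → P1 X → P1 Y)
    (hH : ∀ X, P1 X → X H = 0 ∨ X H = s) {p0 : E} (hp0 : Z p0) (hp0s : SignType.sign (a H p0) = s)
    (hF : ∀ Z' : E → Prop, Cv Z' → (∃ p, Z' p) → (∀ p, Z' p → Z p) →
      (∀ p, Z' p → SignType.sign (a H p) = s) → ∀ k, Ex flt (Fc a Z') k) {k : ℕ}
    (h0 : Ex flt (fun X => P1 X ∧ X H = s) k) : Ex flt P1 k := by
  refine (ex_up_iff (R := flt) (P := P1) (P0 := fun X => P1 X ∧ X H = s) ?_ ?_ ?_ k).2 h0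
  · rintro x y hxy _ hy ⟨_, hx⟩
    refine ⟨hy, ?_⟩
    rcases hxy.1 H with h | h
    · rw [hx] at h
      exact absurd h hs
    · rw [← h, hx]
  · exact fun x hx => hx.1
  · intro v hv hp hvP k
    obtain ⟨z, hz, hmax⟩ := chain_max hv hp
    obtain ⟨hz1, hz2⟩ := hvP z hz
    have hzH : z H = 0 := (hH z hz1).resolve_right fun h => hz2 ⟨hz1, h⟩
    obtain ⟨q, hq, hqz⟩ := hP1 z hz1
    have hex := hF (fun p => Up a Z z p ∧ SignType.sign (a H p) = s)
      ((cv_up ha hZ z).and (cv_cond (ha H) (cc_eq s))) (by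
        obtain ⟨t, h0, h1, ht⟩ := perturb ha q p0
        refine ⟨_, ⟨hZ q p0 t h0 h1 hq hp0, fun i hi => ?_⟩, ?_⟩
        · have := congrFun ht i
          rw [hqz] at this
          unfold cmp at this
          rw [if_neg hi] at this
          exact this
        · have := congrFun ht H
          rw [hqz] at this
          unfold cmp at this
          rw [if_pos hzH] at this
          exact this.trans hp0s) (fun p hp => hp.1.1) (fun p hp => hp.2) k
    refine hex.congr fun X => ?_
    refine (fc_and (fun Y : ι → SignType => Y H = s) X).trans ?_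
    rw [fc_up]
    constructor
    · rintro ⟨⟨h1, h2⟩, h3⟩
      have hzX : flt z X := ⟨h2, fun e => hs (by rw [← h3, ← e, hzH])⟩
      refine ⟨⟨hup z X hzX h1 h3 hz1, h3⟩, fun x hx => ?_⟩
      rcases hmax x hx with rfl | h
      · exact hzX
      · exact flt_trans h hzX
    · rintro ⟨⟨h1, h2⟩, h3⟩
      exact ⟨⟨hP1 X h1, (h3 z hz).1⟩, h2⟩

/-- **Lemma F**: the sign vectors of a nonempty convex set form an exact poset. -/
theorem exF [Finite ι] (ha : ∀ i, IsAff (a i)) : ∀ (n : ℕ) (Z : E → Prop), Cv Z → (∃ p, Z p) →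
    (NC a Z).ncard ≤ n → ∀ k, Ex flt (Fc a Z) k := by
  intro n
  induction n with
  | zero =>
    rintro Z _ ⟨p, hp⟩ hn k
    have h0 : ∀ X, Fc a Z X → X = sg a p := by
      rintro X ⟨q, hq, rfl⟩
      funext i
      by_contra h
      have h1 : i ∈ NC a Z := ⟨q, p, hq, hp, h⟩
      have h2 := (Set.ncard_eq_zero (Set.toFinite _)).1 (Nat.le_zero.1 hn)
      rw [h2] at h1
      exact h1
    exact ex_min (sg a p) ⟨p, hp, rfl⟩ (fun x hx hne => absurd (h0 x hx) hne)
      (fun x hx h => h.2 (h0 x hx)) k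
  | succ n ih =>
    rintro Z hZ ⟨p, hp⟩ hn k
    by_cases hall : ∀ i, i ∉ NC a Z
    · refine ih Z hZ ⟨p, hp⟩ ?_ k
      have : NC a Z = ∅ := Set.eq_empty_of_forall_notMem hall
      rw [this, Set.ncard_empty]
      exact Nat.zero_le _
    push Not at hall
    obtain ⟨H, hH⟩ := hall
    have ih' : ∀ (s : SignType) (Z' : E → Prop), Cv Z' → (∃ p, Z' p) → (∀ p, Z' p → Z p) →
        (∀ p, Z' p → SignType.sign (a H p) = s) → ∀ k, Ex flt (Fc a Z') k := by
      intro s Z' h1 h2 h3 h4
      exact ih Z' h1 h2 (by have := nc_lt h3 hH h4; omega)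
    -- a point on the hyperplane
    have hmid : ∃ p, Z p ∧ SignType.sign (a H p) = 0 := by
      obtain ⟨q, r, hq, hr, hne⟩ := hH
      by_cases hq0 : SignType.sign (a H q) = 0
      · exact ⟨q, hq, hq0⟩
      by_cases hr0 : SignType.sign (a H r) = 0
      · exact ⟨r, hr, hr0⟩
      rw [sign_eq_zero_iff] at hq0 hr0
      have hmul : a H q * a H r < 0 := by
        rcases lt_or_gt_of_ne hq0 with h | h
        · rcases lt_or_gt_of_ne hr0 with h' | h'
          · rw [sign_neg h, sign_neg h'] at hne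
            exact absurd rfl hne
          · exact mul_neg_of_neg_of_pos h h'
        · rcases lt_or_gt_of_ne hr0 with h' | h'
          · exact mul_neg_of_pos_of_neg h h'
          · rw [sign_pos h, sign_pos h'] at hne
            exact absurd rfl hne
      have hne' : a H q - a H r ≠ 0 := by
        intro h
        have : a H q = a H r := sub_eq_zero.1 h
        rw [this] at hmul
        nlinarith [mul_self_nonneg (a H r)]
      let t := a H q / (a H q - a H r)
      have ht0 : 0 < t := by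
        rcases lt_or_gt_of_ne hq0 with h | h
        · have : 0 < a H r := by nlinarith
          exact div_pos_of_neg_of_neg h (by linarith)
        · have : a H r < 0 := by nlinarith
          exact div_pos h (by linarith)
      have ht1 : t < 1 := by
        rcases lt_or_gt_of_ne hq0 with h | h
        · have : 0 < a H r := by nlinarith
          rw [div_lt_one_of_neg (by linarith)]
          linarith
        · have : a H r < 0 := by nlinarith
          rw [div_lt_one (by linarith)]
          linarith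
      refine ⟨_, hZ q r t ht0 ht1 hq hr, ?_⟩
      rw [ha H q r t, sign_eq_zero_iff]
      have ht : t * (a H q - a H r) = a H q := div_mul_cancel₀ _ hne'
      linarith
    obtain ⟨p00, hp00, hp00'⟩ := hmid
    have hmidex : ∀ k, Ex flt (fun X => Fc a Z X ∧ X H = 0) k := by
      intro k
      refine (ih' 0 (fun p => Z p ∧ SignType.sign (a H p) = 0)
        (hZ.and (cv_cond (ha H) (cc_eq 0))) ⟨p00, hp00, hp00'⟩ (fun p hp => hp.1)
        (fun p hp => hp.2) k).congr fun X => ?_
      exact fc_and (fun Y : ι → SignType => Y H = 0) X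
    -- one side
    have hside : ∀ s : SignType, s ≠ 0 → ∀ k, Ex flt (fun X => Fc a Z X ∧ (X H = 0 ∨ X H = s)) k := by
      intro s hs k
      by_cases hne : ∃ p, Z p ∧ SignType.sign (a H p) = s
      · obtain ⟨p0, hp0, hp0s⟩ := hne
        refine side ha hZ (fun X hX => hX.1) hs (fun X Y _ hY hYs _ => ⟨hY, Or.inr hYs⟩)
          (fun X hX => hX.2) hp0 hp0s (ih' s) ?_
        refine (ih' s (fun p => Z p ∧ SignType.sign (a H p) = s)
          (hZ.and (cv_cond (ha H) (cc_eq s))) ⟨p0, hp0, hp0s⟩ (fun p hp => hp.1)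
          (fun p hp => hp.2) k).congr fun X => ?_
        refine (fc_and (fun Y : ι → SignType => Y H = s) X).trans ?_
        constructor
        · rintro ⟨h1, h2⟩
          exact ⟨⟨h1, Or.inr h2⟩, h2⟩
        · rintro ⟨⟨h1, _⟩, h2⟩
          exact ⟨h1, h2⟩
      · refine (hmidex k).congr fun X => ?_
        constructor
        · rintro ⟨h1, h2⟩
          exact ⟨h1, Or.inl h2⟩
        · rintro ⟨h1, h2 | h2⟩
          · exact ⟨h1, h2⟩
          · obtain ⟨q, hq, rfl⟩ := h1
            exact absurd ⟨q, hq, h2⟩ hne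
    rcases k with _ | k
    · exact ex_zero (P := Fc a Z) (x := sg a p) ⟨p, hp, rfl⟩
    · refine mv_union (P1 := fun X => Fc a Z X ∧ (X H = 0 ∨ X H = 1))
        (P2 := fun X => Fc a Z X ∧ (X H = 0 ∨ X H = -1)) (fun x hx => hx.1) (fun x hx => hx.1) ?_
        (hside 1 (by decide) _) (hside (-1) (by decide) _) ((hmidex k).congr fun X => ?_)
      · refine cov_down (fun x hx => ?_) ?_ ?_
        · rcases h : x H with _ | _ | _
          · exact Or.inl ⟨hx, Or.inl rfl⟩
          · exact Or.inr ⟨hx, Or.inr rfl⟩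
          · exact Or.inl ⟨hx, Or.inr rfl⟩
        · rintro x y hxy hx ⟨_, hy⟩
          refine ⟨hx, ?_⟩
          rcases hxy.1 H with h | h
          · exact Or.inl h
          · rwa [h]
        · rintro x y hxy hx ⟨_, hy⟩
          refine ⟨hx, ?_⟩
          rcases hxy.1 H with h | h
          · exact Or.inl h
          · rwa [h]
      · constructor
        · rintro ⟨h1, h2⟩
          exact ⟨⟨h1, Or.inl h2⟩, ⟨h1, Or.inl h2⟩⟩
        · rintro ⟨⟨h1, h2⟩, ⟨_, h3⟩⟩
          refine ⟨h1, ?_⟩
          rcases h2 with h2 | h2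
          · exact h2
          · rcases h3 with h3 | h3
            · exact h3
            · rw [h2] at h3
              exact absurd h3 (by decide)

theorem exFc [Finite ι] (ha : ∀ i, IsAff (a i)) {Z : E → Prop} (hZ : Cv Z) (hne : ∃ p, Z p)
    (k : ℕ) : Ex flt (Fc a Z) k := exF ha _ Z hZ hne le_rfl k

/-- **Lemma G** -/
theorem exG [Finite ι] [DecidableEq ι] (ha : ∀ i, IsAff (a i)) (C : ι → SignType → Prop)
    (hC : ∀ i, CC (C i))
    (hmon : (∀ i s s', C i s → (s = 0 ∨ s = s') → C i s') ∨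
      (∀ i s s', C i s' → (s = 0 ∨ s = s') → C i s)) (A : Finset ι) :
    ∀ (Z : E → Prop), Cv Z → ∀ q, Z q → (∀ i ∈ A, C i (SignType.sign (a i q))) → A.Nonempty →
      ∀ k, Ex flt (fun X => Fc a Z X ∧ ∃ i ∈ A, C i (X i)) k := by
  induction A using Finset.induction_on with
  | empty => intro _ _ _ _ _ h; exact absurd h (by simp)
  | insert i0 A' hi0 ih =>
    intro Z hZ q hq hqC _ k
    have hZ0 : Cv fun p => Z p ∧ C i0 (SignType.sign (a i0 p)) :=
      hZ.and (cv_cond (ha i0) (hC i0))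
    have hq0 : Z q ∧ C i0 (SignType.sign (a i0 q)) := ⟨hq, hqC i0 (Finset.mem_insert_self ..)⟩
    have hfc : ∀ X, Fc a (fun p => Z p ∧ C i0 (SignType.sign (a i0 p))) X ↔
        Fc a Z X ∧ C i0 (X i0) := fun X => fc_and (fun Y : ι → SignType => C i0 (Y i0)) X
    have h0 : ∀ k, Ex flt (fun X => Fc a Z X ∧ C i0 (X i0)) k := fun k =>
      (exFc ha hZ0 ⟨q, hq0⟩ k).congr hfc
    rcases A'.eq_empty_or_nonempty with rfl | hne
    · refine (h0 k).congr fun X => ?_
      simp
    · have h1 := ih Z hZ q hq (fun i hi => hqC i (Finset.mem_insert_of_mem hi)) hne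
      have h2 := ih _ hZ0 q hq0 (fun i hi => hqC i (Finset.mem_insert_of_mem hi)) hne
      rcases k with _ | k
      · exact ex_zero (P := fun X => Fc a Z X ∧ ∃ i ∈ insert i0 A', C i (X i)) (x := sg a q)
          ⟨⟨q, hq, rfl⟩, i0, Finset.mem_insert_self .., hq0.2⟩
      · refine mv_union (P1 := fun X => Fc a Z X ∧ C i0 (X i0))
          (P2 := fun X => Fc a Z X ∧ ∃ i ∈ A', C i (X i)) (fun x hx => ⟨hx.1, i0,
            Finset.mem_insert_self .., hx.2⟩) (fun x hx => ⟨hx.1, by
              obtain ⟨i, hi, h⟩ := hx.2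
              exact ⟨i, Finset.mem_insert_of_mem hi, h⟩⟩) ?_ (h0 _) (h1 _) ((h2 k).congr fun X => ?_)
        · have h12 : ∀ x : ι → SignType, (Fc a Z x ∧ ∃ i ∈ insert i0 A', C i (x i)) →
              (Fc a Z x ∧ C i0 (x i0)) ∨ (Fc a Z x ∧ ∃ i ∈ A', C i (x i)) := by
            rintro x ⟨hx, i, hi, h⟩
            rcases Finset.mem_insert.1 hi with rfl | hi
            · exact Or.inl ⟨hx, h⟩
            · exact Or.inr ⟨hx, i, hi, h⟩
          rcases hmon with hm | hm
          · refine cov_up h12 ?_ ?_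
            · rintro x y hxy hy ⟨_, h⟩
              exact ⟨hy.1, hm _ _ _ h (hxy.1 i0)⟩
            · rintro x y hxy hy ⟨_, i, hi, h⟩
              exact ⟨hy.1, i, hi, hm _ _ _ h (hxy.1 i)⟩
          · refine cov_down h12 ?_ ?_
            · rintro x y hxy hx ⟨_, h⟩
              exact ⟨hx.1, hm _ _ _ h (hxy.1 i0)⟩
            · rintro x y hxy hx ⟨_, i, hi, h⟩
              exact ⟨hx.1, i, hi, hm _ _ _ h (hxy.1 i)⟩
        · rw [hfc]
          constructor
          · rintro ⟨⟨h3, h4⟩, h5⟩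
            exact ⟨⟨h3, h4⟩, h3, h5⟩
          · rintro ⟨⟨h3, h4⟩, _, h5⟩
            exact ⟨⟨h3, h4⟩, h5⟩

end aff

end Q161.Mg
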