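import Pool.Agent.Q161.MgD

set_option autoImplicit false

/-!
The sphere lemma and the intervals of the tope poset.
-/

namespace Q161.Mg

open Finsupp Module

section sphere
variable {E : Type} [AddCommGroup E] [Module ℝ E] {ι : Type}
  (f : ι → Module.Dual ℝ E) (S : Finset ι) (D : ι → SignType)

open Classical in
/-- the forms in `S`, and constants outside -/
noncomputable def af (i : ι) (p : E) : ℝ := if i ∈ S then f i p else ((D i : ℤ) : ℝ)

lemma isAff_af (i : ι) : IsAff (af f S D i) := by
  intro p q t
  unfold af
  split_ifs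
  · rw [AffineMap.lineMap_apply_module, map_add, map_smul, map_smul, smul_eq_mul, smul_eq_mul]
  · ring

lemma sign_cast (s : SignType) : SignType.sign (((s : ℤ) : ℝ)) = s := by
  rcases s with _ | _ | _
  · simp
  · simp
  · simp

variable {f S D}

lemma sg_af_in {i : ι} (hi : i ∈ S) (p : E) : sg (af f S D) p i = SignType.sign (f i p) := by
  unfold sg af
  rw [if_pos hi]

lemma sg_af_out {i : ι} (hi : i ∉ S) (p : E) : sg (af f S D) p i = D i := by
  unfold sg af
  rw [if_neg hi, sign_cast]

variable (f S) in
/-- the common kernel -/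
def NN : Submodule ℝ E := ⨅ i ∈ S, LinearMap.ker (f i)

/-- the sign vectors of the points of a subspace, without zero -/
def PW (f : ι → Module.Dual ℝ E) (S : Finset ι) (D : ι → SignType) (W : Submodule ℝ E)
    (X : ι → SignType) : Prop := Fc (af f S D) (· ∈ W) X ∧ ∃ i ∈ S, X i ≠ 0

lemma cv_sub (W : Submodule ℝ E) : Cv (fun p => p ∈ W) := by
  intro p q t _ _ hp hq
  rw [AffineMap.lineMap_apply_module]
  exact W.add_mem (W.smul_mem _ hp) (W.smul_mem _ hq)

/-- **The sphere lemma.** -/
theorem ex_sphere [Finite ι] [Module.Finite ℝ E] (n : ℕ) : ∀ W : Submodule ℝ E,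
    finrank ℝ W = finrank ℝ (W ⊓ NN f S : Submodule ℝ E) + n →
    ∀ k, k ≠ n → Ex flt (PW f S D W) k := by
  induction n with
  | zero =>
    intro W hW k hk
    have h1 : W ⊓ NN f S = W := Submodule.eq_of_le_of_finrank_eq inf_le_left (by omega)
    obtain ⟨k, rfl⟩ := Nat.exists_eq_succ_of_ne_zero hk
    apply ex_empty
    rintro X ⟨⟨p, hp, rfl⟩, i, hi, h⟩
    have h2 : p ∈ NN f S := by
      have : p ∈ W ⊓ NN f S := by
        rw [h1]
        exact hp
      exact this.2
    have h3 : f i p = 0 := by
      have := (Submodule.mem_iInf _).1 h2 i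
      exact (Submodule.mem_iInf _).1 this hi
    rw [sg_af_in hi, h3, sign_zero] at h
    exact h rfl
  | succ n ih =>
    intro W hW k hk
    -- a form which is not zero on `W`
    obtain ⟨H, hHS, w, hw, hHw⟩ : ∃ H ∈ S, ∃ w ∈ W, 0 < f H w := by
      by_contra hcon
      push Not at hcon
      have h1 : W ≤ NN f S := by
        intro w hw
        refine (Submodule.mem_iInf _).2 fun i => (Submodule.mem_iInf _).2 fun hi => ?_
        rw [LinearMap.mem_ker]
        have h2 := hcon i hi w hw
        have h3 := hcon i hi (-w) (W.neg_mem hw)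
        rw [map_neg] at h3
        linarith
      rw [inf_eq_left.2 h1] at hW
      omega
    have ha := isAff_af f S D
    have hZ : Cv (fun p => p ∈ W) := cv_sub W
    -- the middle
    have hmid : ∀ k, k ≠ n → Ex flt (fun X => PW f S D W X ∧ X H = 0) k := by
      intro k hk
      have hfr : finrank ℝ (W ⊓ LinearMap.ker (f H) : Submodule ℝ E) =
          finrank ℝ ((W ⊓ LinearMap.ker (f H)) ⊓ NN f S : Submodule ℝ E) + n := by
        have h1 : (W ⊓ LinearMap.ker (f H)) ⊓ NN f S = W ⊓ NN f S := by
          apply le_antisymm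
          · exact inf_le_inf_right _ inf_le_left
          · refine le_inf (le_inf inf_le_left ?_) inf_le_right
            refine inf_le_right.trans ?_
            exact (iInf_le _ H).trans (iInf_le _ hHS)
        have h2 : finrank ℝ (W ⊓ LinearMap.ker (f H) : Submodule ℝ E) + 1 = finrank ℝ W := by
          have h3 := LinearMap.finrank_range_add_finrank_ker ((f H).domRestrict W)
          have h4 : LinearMap.range ((f H).domRestrict W) = ⊤ := by
            rw [LinearMap.range_eq_top]
            intro r
            refine ⟨(r / f H w) • ⟨w, hw⟩, ?_⟩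
            rw [map_smul, LinearMap.domRestrict_apply, smul_eq_mul]
            exact div_mul_cancel₀ _ hHw.ne'
          rw [h4, finrank_top, finrank_self] at h3
          have h5 : finrank ℝ (LinearMap.ker ((f H).domRestrict W)) =
              finrank ℝ (W ⊓ LinearMap.ker (f H) : Submodule ℝ E) := by
            have h6 : (LinearMap.ker ((f H).domRestrict W)).map W.subtype =
                W ⊓ LinearMap.ker (f H) := by
              ext x
              constructor
              · rintro ⟨y, hy, rfl⟩
                exact ⟨y.2, hy⟩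
              · rintro ⟨hx, hx'⟩
                exact ⟨⟨x, hx⟩, hx', rfl⟩
            rw [← h6]
            exact (LinearEquiv.finrank_eq (Submodule.equivMapOfInjective _
              W.injective_subtype _))
          omega
        rw [h1]
        omega
      refine (ih (W ⊓ LinearMap.ker (f H)) hfr k hk).congr fun X => ?_
      unfold PW
      have h1 : Fc (af f S D) (· ∈ W ⊓ LinearMap.ker (f H)) X ↔
          Fc (af f S D) (· ∈ W) X ∧ X H = 0 := by
        refine Iff.trans ?_ (fc_and (fun Y : ι → SignType => Y H = 0) X)
        have h2 : ∀ p, p ∈ W ⊓ LinearMap.ker (f H) ↔ p ∈ W ∧ sg (af f S D) p H = 0 := by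
          intro p
          rw [sg_af_in hHS, sign_eq_zero_iff, Submodule.mem_inf, LinearMap.mem_ker]
        unfold Fc
        simp only [h2]
      rw [h1]
      tauto
    have hside : ∀ (s : SignType), s ≠ 0 → ∀ k,
        Ex flt (fun X => PW f S D W X ∧ (X H = 0 ∨ X H = s)) k := by
      intro s hs k
      obtain ⟨p0, hp0, hp0s⟩ : ∃ p0 ∈ W, SignType.sign (af f S D H p0) = s := by
        rcases s with _ | _ | _
        · exact absurd rfl hs
        · refine ⟨-w, W.neg_mem hw, ?_⟩
          have := sg_af_in (f := f) (S := S) (D := D) hHS (-w)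
          unfold sg at this
          rw [this, map_neg]
          exact sign_neg (by linarith)
        · refine ⟨w, hw, ?_⟩
          have := sg_af_in (f := f) (S := S) (D := D) hHS w
          unfold sg at this
          rw [this]
          exact sign_pos hHw
      refine side ha hZ (P1 := fun X => PW f S D W X ∧ (X H = 0 ∨ X H = s)) (fun X hX => hX.1.1) hs
        (fun X Y _ hY hYs _ => ⟨⟨hY, H, hHS, by rw [hYs]; exact hs⟩, Or.inr hYs⟩)
        (fun X hX => hX.2) hp0 hp0s (fun Z' h1 h2 _ _ => exFc ha h1 h2) ?_
      refine (exFc ha (hZ.and (cv_cond (ha H) (cc_eq s))) ⟨p0, hp0, hp0s⟩ k).congr fun X => ?_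
      refine (fc_and (fun Y : ι → SignType => Y H = s) X).trans ?_
      constructor
      · rintro ⟨h1, h2⟩
        exact ⟨⟨⟨h1, H, hHS, by rw [h2]; exact hs⟩, Or.inr h2⟩, h2⟩
      · rintro ⟨⟨⟨h1, _⟩, _⟩, h2⟩
        exact ⟨h1, h2⟩
    rcases k with _ | k
    · refine ex_zero (P := PW f S D W) (x := sg (af f S D) w) ⟨⟨w, hw, rfl⟩, H, hHS, ?_⟩
      rw [sg_af_in hHS, sign_pos hHw]
      decide
    · refine mv_union (P1 := fun X => PW f S D W X ∧ (X H = 0 ∨ X H = 1))
        (P2 := fun X => PW f S D W X ∧ (X H = 0 ∨ X H = -1)) (fun x hx => hx.1) (fun x hx => hx.1) ?_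
        (hside 1 (by decide) _) (hside (-1) (by decide) _)
        ((hmid k (by omega)).congr fun X => ?_)
      · refine cov_down (fun x hx => ?_) ?_ ?_
        · rcases h : x H with _ | _ | _
          · exact Or.inl ⟨hx, Or.inl rfl⟩
          · exact Or.inr ⟨hx, Or.inr rfl⟩
          · exact Or.inl ⟨hx, Or.inr rfl⟩
        · rintro x y hxy hx ⟨_, hy⟩
          refine ⟨hx, ?_⟩
          rcases hxy.1 H with h | h
          · exact Or.inl h
          · rwa [h]
        · rintro x y hxy hx ⟨_, hy⟩
          refine ⟨hx, ?_⟩
          rcases hxy.1 H with h | h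
          · exact Or.inl h
          · rwa [h]
      · constructor
        · rintro ⟨h1, h2⟩
          exact ⟨⟨h1, Or.inl h2⟩, ⟨h1, Or.inl h2⟩⟩
        · rintro ⟨⟨h1, h2⟩, ⟨_, h3⟩⟩
          refine ⟨h1, ?_⟩
          rcases h2 with h2 | h2
          · exact h2
          · rcases h3 with h3 | h3
            · exact h3
            · rw [h2] at h3
              exact absurd h3 (by decide)

end sphere

section interval
variable {E : Type} [AddCommGroup E] [Module ℝ E] {ι : Type} (f : ι → Module.Dual ℝ E)

/-- realizable sign vectors without zeros -/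
def IsT (x : ι → SignType) : Prop :=
  (∀ i, x i ≠ 0) ∧ ∃ p : E, ∀ i, SignType.sign (f i p) = x i

/-- `x` is between `D` and `y` -/
def geo (D x y : ι → SignType) : Prop := ∀ i, x i = D i ∨ x i = y i

/-- the order of the topes based at `D` -/
def RD (D x y : ι → SignType) : Prop := geo D x y ∧ x ≠ y

/-- the open interval between `D` and `w` -/
def Iv (D w x : ι → SignType) : Prop := IsT f x ∧ geo D x w ∧ x ≠ D ∧ x ≠ w

/-- `w` is the opposite of `D` for a face of `D` -/
def Cen (D w : ι → SignType) : Prop :=
  ∃ p : E, (∀ i, D i ≠ w i → f i p = 0) ∧ ∀ i, D i = w i → SignType.sign (f i p) = D i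

lemma geo_trans {D x y z : ι → SignType} (h : geo D x y) (h' : geo D y z) : geo D x z := by
  intro i
  rcases h i with h1 | h1
  · exact Or.inl h1
  · rcases h' i with h2 | h2
    · exact Or.inl (h1.trans h2)
    · exact Or.inr (h1.trans h2)

lemma geo_inner {D x y z : ι → SignType} (h : geo D x y) (h' : geo D y z) : geo x y z := by
  intro i
  rcases h' i with h2 | h2
  · rcases h i with h1 | h1
    · exact Or.inl (h2.trans h1.symm)
    · exact Or.inl h1.symm
  · exact Or.inr h2

lemma geo_antisymm {D x y : ι → SignType} (h : geo D x y) (h' : geo D y x) : x = y := by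
  funext i
  rcases h i with h1 | h1
  · rcases h' i with h2 | h2
    · rw [h1, h2]
    · exact h2.symm
  · exact h1

lemma geo_refl (D x : ι → SignType) : geo D x x := fun _ => Or.inr rfl

variable {f}

open Classical in
/-- the set of the separating indices -/
noncomputable def Sp [Fintype ι] (D w : ι → SignType) : Finset ι :=
  Finset.univ.filter fun i => D i ≠ w i

lemma mem_Sp [Fintype ι] {D w : ι → SignType} {i : ι} : i ∈ Sp D w ↔ D i ≠ w i := by
  classical
  unfold Sp
  simp

lemma two_values {a b c : SignType} (ha : a ≠ 0) (hb : b ≠ 0) (hc : c ≠ 0) (h : a ≠ b) :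
    c = a ∨ c = b := by
  cases a <;> cases b <;> cases c <;>
    first
      | exact Or.inl rfl
      | exact Or.inr rfl
      | exact absurd rfl ha
      | exact absurd rfl hb
      | exact absurd rfl hc
      | exact absurd rfl h

/-- **Exactness of the open intervals.** -/
theorem ex_interval [Fintype ι] [DecidableEq ι] [Module.Finite ℝ E] {D w : ι → SignType}
    (hD : IsT f D) (hw : IsT f w) (hDw : D ≠ w) (k : ℕ)
    (hk : Cen f D w → k + 1 + finrank ℝ (NN f (Sp D w)) ≠ finrank ℝ E) :
    Ex (RD D) (Iv f D w) k := by
  set S := Sp D w with hS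
  set a := af f S D with ha_def
  have ha : ∀ i, IsAff (a i) := isAff_af f S D
  obtain ⟨hD0, pD, hpD⟩ := hD
  obtain ⟨hw0, pw, hpw⟩ := hw
  have hSne : S.Nonempty := by
    by_contra h
    rw [Finset.not_nonempty_iff_eq_empty] at h
    apply hDw
    funext i
    by_contra h2
    have : i ∈ S := mem_Sp.2 h2
    rw [h] at this
    exact absurd this (Finset.notMem_empty i)
  -- the convex set
  let K : E → Prop := fun p => ∀ i, i ∉ S → SignType.sign (f i p) = D i
  have haf : ∀ i, IsAff (fun p => f i p) := by
    intro i p q t
    beta_reduce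
    rw [AffineMap.lineMap_apply_module, map_add, map_smul, map_smul, smul_eq_mul, smul_eq_mul]
  have hK : Cv K := cv_all fun i => cv_imp fun _ => cv_cond (haf i) (cc_eq (D i))
  have hKD : K pD := fun i _ => hpD i
  have hKw : K pw := fun i hi => by
    rw [hpw i]
    by_contra h
    exact hi (mem_Sp.2 (Ne.symm h))
  have hsD : sg a pD = D := by
    funext i
    by_cases hi : i ∈ S
    · rw [ha_def, sg_af_in hi, hpD]
    · rw [ha_def, sg_af_out hi]
  have hsw : sg a pw = w := by
    funext i
    by_cases hi : i ∈ S
    · rw [ha_def, sg_af_in hi, hpw]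
    · rw [ha_def, sg_af_out hi]
      by_contra h
      exact hi (mem_Sp.2 h)
  have hout : ∀ {X : ι → SignType}, Fc a K X → ∀ i, i ∉ S → X i = D i := by
    rintro X ⟨p, _, rfl⟩ i hi
    rw [ha_def, sg_af_out hi]
  -- the poset of the faces
  let Ps : (ι → SignType) → Prop := fun G => (Fc a K G ∧ ∃ i ∈ S, G i = w i) ∧ G ≠ w
  -- reduction to the faces
  suffices hPs : Ex flt Ps k by
    refine (quillen (R := flt) (S := RD D) (le := geo D) (P := Ps) (Q := Iv f D w)
      (fun G => cmp G D) (fun x y z _ _ _ => geo_trans) (fun x y _ _ => Iff.rfl)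
      (fun x _ => geo_refl D x) (fun x y _ _ => geo_antisymm) ?_ ?_ ?_ k).1 hPs
    · -- the composition is a tope of the interval
      rintro G ⟨⟨hG, i0, hi0, hi0w⟩, hGw⟩
      obtain ⟨p, hp, hpG⟩ := hG
      obtain ⟨t, h0, h1, ht⟩ := perturb ha p pD
      have hKt := hK p pD t h0 h1 hp hKD
      have hval : ∀ i, SignType.sign (f i (AffineMap.lineMap p pD t)) = cmp G D i := by
        intro i
        by_cases hi : i ∈ S
        · have := congrFun ht i
          rw [hpG, hsD, ha_def, sg_af_in hi] at this
          exact this
        · rw [hKt i hi]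
          unfold cmp
          have h2 : G i = D i := hout ⟨p, hp, hpG⟩ i hi
          rw [h2]
          split_ifs <;> rfl
      refine ⟨⟨fun i => ?_, _, hval⟩, fun i => ?_, fun h => ?_, fun h => hGw ?_⟩
      · unfold cmp
        split_ifs with h
        · exact hD0 i
        · exact h
      · unfold cmp
        split_ifs with h
        · exact Or.inl rfl
        · by_cases hi : i ∈ S
          · exact two_values (hD0 i) (hw0 i) h (mem_Sp.1 hi)
          · exact Or.inl (hout ⟨p, hp, hpG⟩ i hi)
      · have := congrFun h i0
        unfold cmp at this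
        rw [hi0w, if_neg (hw0 i0)] at this
        exact mem_Sp.1 hi0 this.symm
      · funext i
        have h2 := congrFun h i
        unfold cmp at h2
        split_ifs at h2 with h3
        · by_cases hi : i ∈ S
          · exact absurd h2 (mem_Sp.1 hi)
          · rw [hout ⟨p, hp, hpG⟩ i hi, h2]
        · exact h2
    · rintro G G' ⟨⟨hG, _⟩, _⟩ _ hGG
      intro i
      unfold cmp
      rcases hGG.1 i with h | h
      · rw [if_pos h]
        exact Or.inl rfl
      · rw [h]
        exact Or.inr rfl
    · -- the fibres
      rintro y ⟨⟨hy0, py, hpy⟩, hyw, hyD, hyw'⟩ k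
      have hyout : ∀ i, i ∉ S → y i = D i := by
        intro i hi
        rcases hyw i with h | h
        · exact h
        · rw [h]
          by_contra h2
          exact hi (mem_Sp.2 (Ne.symm h2))
      have hsy : sg a py = y := by
        funext i
        by_cases hi : i ∈ S
        · rw [ha_def, sg_af_in hi, hpy]
        · rw [ha_def, sg_af_out hi, hyout i hi]
      let A : Finset ι := Sp D y
      have hA : A.Nonempty := by
        by_contra h
        rw [Finset.not_nonempty_iff_eq_empty] at h
        apply hyD
        funext i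
        by_contra h2
        have : i ∈ A := mem_Sp.2 (Ne.symm h2)
        rw [h] at this
        exact absurd this (Finset.notMem_empty i)
      have hAw : ∀ i ∈ A, y i = w i := fun i hi =>
        (hyw i).resolve_left fun h => mem_Sp.1 hi h.symm
      let Z : E → Prop := fun p => K p ∧ ∀ i, i ∈ S ∧ i ∉ A → SignType.sign (a i p) ≠ w i
      have hZ : Cv Z := hK.and (cv_all fun i => cv_imp fun _ => cv_cond (ha i) (cc_ne (hw0 i)))
      have hyZ : Z py := by
        refine ⟨fun i hi => by rw [hpy, hyout i hi], fun i hi => ?_⟩
        have h1 : SignType.sign (a i py) = y i := congrFun hsy i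
        rw [h1]
        have h2 : y i = D i := by
          by_contra h
          exact hi.2 (mem_Sp.2 (Ne.symm h))
        rw [h2]
        exact mem_Sp.1 hi.1
      have h1 := exG ha (fun i s => s = w i) (fun i => cc_eq (w i)) (Or.inl (by
        rintro i s s' rfl (h | h)
        · exact absurd h (hw0 i)
        · exact h.symm)) A Z hZ py hyZ (fun i hi => by
          have h2 : SignType.sign (a i py) = y i := congrFun hsy i
          rw [h2, hAw i hi]) hA k
      refine h1.congr fun X => ?_
      rw [show Fc a Z X ↔ Fc a K X ∧ ∀ i, i ∈ S ∧ i ∉ A → X i ≠ w i from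
        fc_and (fun Y : ι → SignType => ∀ i, i ∈ S ∧ i ∉ A → Y i ≠ w i) X]
      constructor
      · rintro ⟨⟨h2, h3⟩, i, hi, h4⟩
        have hiS : i ∈ S := by
          rw [hS, mem_Sp]
          rw [← hAw i hi]
          exact mem_Sp.1 hi
        refine ⟨⟨⟨h2, i, hiS, h4⟩, ?_⟩, fun j => ?_⟩
        · rintro rfl
          apply hyw'
          funext j
          rcases hyw j with h | h
          · by_cases hj : j ∈ S
            · exact absurd rfl (h3 j ⟨hj, fun h5 => mem_Sp.1 h5 h.symm⟩)
            · rw [h]
              by_contra h6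
              exact hj (mem_Sp.2 h6)
          · exact h
        · unfold cmp
          split_ifs with h5
          · exact Or.inl rfl
          · by_cases hj : j ∈ S
            · rcases two_values (hD0 j) (hw0 j) h5 (mem_Sp.1 hj) with h6 | h6
              · exact Or.inl h6
              · right
                by_contra h7
                apply h3 j ⟨hj, fun h8 => h7 ?_⟩ h6
                rw [h6, hAw j h8]
            · exact Or.inl (hout h2 j hj)
      · rintro ⟨⟨⟨h2, i, hi, h4⟩, h5⟩, h6⟩
        have hgen : ∀ j ∈ S, X j = w j → j ∈ A ∧ y j = w j := by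
          intro j hj hXj
          have h7 := h6 j
          unfold cmp at h7
          rw [if_neg (by rw [hXj]; exact hw0 j), hXj] at h7
          rcases h7 with h7 | h7
          · exact absurd h7.symm (mem_Sp.1 hj)
          · refine ⟨mem_Sp.2 ?_, h7.symm⟩
            rw [← h7]
            exact mem_Sp.1 hj
        exact ⟨⟨h2, fun j hj h7 => hj.2 (hgen j hj.1 h7).1⟩, i, (hgen i hi h4).1, h4⟩
  -- `Φ` is exact
  have hPhi : ∀ k, Ex flt (fun X => Fc a K X ∧ ∃ i ∈ S, X i = w i) k :=
    exG ha (fun i s => s = w i) (fun i => cc_eq (w i)) (Or.inl (by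
        rintro i s s' rfl (h | h)
        · exact absurd h (hw0 i)
        · exact h.symm)) S K hK pw hKw (fun i _ => congrFun hsw i) hSne
  have hPhiD : ∀ k, Ex flt (fun X => Fc a K X ∧ ∃ i ∈ S, X i = D i) k :=
    exG ha (fun i s => s = D i) (fun i => cc_eq (D i)) (Or.inl (by
        rintro i s s' rfl (h | h)
        · exact absurd h (hD0 i)
        · exact h.symm)) S K hK pD hKD (fun i _ => congrFun hsD i) hSne
  -- a face with all its `S`-coordinates zero
  by_cases hcen : Cen f D w
  · -- the central case
    obtain ⟨p0, hp0, hp0'⟩ := hcen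
    have hp0S : ∀ i ∈ S, f i p0 = 0 := fun i hi => hp0 i (mem_Sp.1 hi)
    have hp0K : K p0 := fun i hi => hp0' i (by
      by_contra h
      exact hi (mem_Sp.2 h))
    -- the faces of `K` are the faces of the whole space
    have hFK : ∀ X, Fc a K X ↔ Fc a (· ∈ (⊤ : Submodule ℝ E)) X := by
      intro X
      constructor
      · exact Fc.mono fun _ _ => Submodule.mem_top
      · rintro ⟨v, _, rfl⟩
        obtain ⟨t, h0, h1, ht⟩ := perturb (a := fun i p => f i p) haf p0 v
        have ht' : ∀ i, SignType.sign (f i (AffineMap.lineMap p0 v t)) =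
            if SignType.sign (f i p0) = 0 then SignType.sign (f i v) else
              SignType.sign (f i p0) := fun i => congrFun ht i
        refine ⟨AffineMap.lineMap p0 v t, fun i hi => ?_, ?_⟩
        · rw [ht', if_neg, hp0K i hi]
          rw [hp0K i hi]
          exact hD0 i
        · funext i
          by_cases hi : i ∈ S
          · rw [ha_def, sg_af_in hi, sg_af_in hi, ht', if_pos]
            rw [hp0S i hi, sign_zero]
          · rw [ha_def, sg_af_out hi, sg_af_out hi]
    -- the upper set
    have hup : Ex flt Ps k ↔ Ex flt (fun X => (Fc a K X ∧ ∃ i ∈ S, X i = w i) ∧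
        (Fc a K X ∧ ∃ i ∈ S, X i = D i)) k := by
      refine ex_up_iff (R := flt) ?_ ?_ ?_ k
      · rintro x y hxy _ ⟨⟨hy1, _⟩, _⟩ ⟨⟨_, i, hi, hxi⟩, _, j, hj, hxj⟩
        refine ⟨⟨hy1, i, hi, ?_⟩, hy1, j, hj, ?_⟩
        · rcases hxy.1 i with h | h
          · rw [hxi] at h
            exact absurd h (hw0 i)
          · rw [← h, hxi]
        · rcases hxy.1 j with h | h
          · rw [hxj] at h
            exact absurd h (hD0 j)
          · rw [← h, hxj]
      · rintro x ⟨⟨h1, h2⟩, _, j, hj, hxj⟩
        refine ⟨⟨h1, h2⟩, ?_⟩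
        rintro rfl
        exact mem_Sp.1 hj hxj.symm
      · intro v hv hp hvP k
        obtain ⟨z, hz, hmax⟩ := chain_max hv hp
        obtain ⟨⟨⟨hz1, i1, hi1, hzi1⟩, hzw⟩, hz3⟩ := hvP z hz
        have hzD : ∀ i ∈ S, z i ≠ D i := fun i hi h => hz3 ⟨⟨hz1, i1, hi1, hzi1⟩, hz1, i, hi, h⟩
        have hz0 : ∀ i ∈ S, z i ≠ 0 → z i = w i := fun i hi h =>
          (two_values (hD0 i) (hw0 i) h (mem_Sp.1 hi)).resolve_left (hzD i hi)
        let A : Finset ι := S.filter fun i => z i = 0
        have hA : A.Nonempty := by
          by_contra h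
          rw [Finset.not_nonempty_iff_eq_empty] at h
          apply hzw
          funext i
          by_cases hi : i ∈ S
          · refine hz0 i hi fun h2 => ?_
            have : i ∈ A := Finset.mem_filter.2 ⟨hi, h2⟩
            rw [h] at this
            exact absurd this (Finset.notMem_empty i)
          · rw [hout hz1 i hi]
            by_contra h2
            exact hi (mem_Sp.2 h2)
        obtain ⟨q, hq, hqs⟩ : ∃ q, K q ∧ sg a q = cmp z D :=
          Fc.cmp ha hK hz1 ⟨pD, hKD, hsD⟩
        have hqU : Up a K z q := ⟨hq, fun i hi => by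
          have := congrFun hqs i
          unfold cmp at this
          rw [if_neg hi] at this
          exact this⟩
        have h1 := exG ha (fun i s => s = D i) (fun i => cc_eq (D i)) (Or.inl (by
          rintro i s s' rfl (h | h)
          · exact absurd h (hD0 i)
          · exact h.symm)) A (Up a K z) (cv_up ha hK z) q hqU (fun i hi => by
            have := congrFun hqs i
            unfold cmp at this
            rw [if_pos (Finset.mem_filter.1 hi).2] at this
            exact this) hA k
        refine h1.congr fun X => ?_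
        rw [fc_up]
        constructor
        · rintro ⟨⟨h2, h3⟩, i, hi, h4⟩
          have hiS := (Finset.mem_filter.1 hi).1
          have hzX : flt z X := ⟨h3, fun e => hzD i hiS (by rw [e, h4])⟩
          have hXw : X i1 = w i1 := by
            rcases h3 i1 with h | h
            · rw [hzi1] at h
              exact absurd h (hw0 i1)
            · rw [← h, hzi1]
          refine ⟨⟨⟨h2, i1, hi1, hXw⟩, h2, i, hiS, h4⟩, fun x hx => ?_⟩
          rcases hmax x hx with rfl | h
          · exact hzX
          · exact flt_trans h hzX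
        · rintro ⟨⟨⟨h2, _⟩, _, i, hi, h4⟩, h5⟩
          refine ⟨⟨h2, (h5 z hz).1⟩, i, Finset.mem_filter.2 ⟨hi, ?_⟩, h4⟩
          by_contra h6
          rcases (h5 z hz).1 i with h7 | h7
          · exact h6 h7
          · exact hzD i hi (by rw [h7, h4])
    rw [hup]
    refine mv_inter (P := PW f S D ⊤) (P1 := fun X => Fc a K X ∧ ∃ i ∈ S, X i = w i)
      (P2 := fun X => Fc a K X ∧ ∃ i ∈ S, X i = D i) ?_ ?_ ?_ ?_ (hPhi k) (hPhiD k)
    · rintro x ⟨h1, i, hi, h2⟩
      exact ⟨(hFK x).1 h1, i, hi, by rw [h2]; exact hw0 i⟩
    · rintro x ⟨h1, i, hi, h2⟩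
      exact ⟨(hFK x).1 h1, i, hi, by rw [h2]; exact hD0 i⟩
    · refine cov_up ?_ ?_ ?_
      · rintro x ⟨h1, i, hi, h2⟩
        rcases two_values (hD0 i) (hw0 i) h2 (mem_Sp.1 hi) with h3 | h3
        · exact Or.inr ⟨(hFK x).2 h1, i, hi, h3⟩
        · exact Or.inl ⟨(hFK x).2 h1, i, hi, h3⟩
      · rintro x y hxy ⟨hy, _⟩ ⟨_, i, hi, h⟩
        refine ⟨(hFK y).2 hy, i, hi, ?_⟩
        rcases hxy.1 i with h2 | h2
        · rw [h] at h2
          exact absurd h2 (hw0 i)
        · rw [← h2, h]
      · rintro x y hxy ⟨hy, _⟩ ⟨_, i, hi, h⟩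
        refine ⟨(hFK y).2 hy, i, hi, ?_⟩
        rcases hxy.1 i with h2 | h2
        · rw [h] at h2
          exact absurd h2 (hD0 i)
        · rw [← h2, h]
    · have hk' := hk ⟨p0, hp0, hp0'⟩
      have hle : finrank ℝ (NN f S) ≤ finrank ℝ E := Submodule.finrank_le _
      refine ex_sphere (finrank ℝ E - finrank ℝ (NN f S)) ⊤ ?_ (k + 1) (by omega)
      rw [top_inf_eq, finrank_top]
      omega
  · -- the non central case
    have hno : ∀ X, Fc a K X → ∃ i ∈ S, X i ≠ 0 := by
      rintro X ⟨p, hp, rfl⟩
      by_contra hcon
      push Not at hcon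
      refine hcen ⟨p, fun i hi => ?_, fun i hi => hp i fun h => mem_Sp.1 h hi⟩
      have h1 := hcon i (mem_Sp.2 hi)
      rw [ha_def, sg_af_in (mem_Sp.2 hi), sign_eq_zero_iff] at h1
      exact h1
    -- the faces below `w`
    have hLam : Ex flt (fun X => (Fc a K X ∧ X ≠ w) ∧ (Fc a K X ∧ fle X w)) k := by
      have hwFc : Fc a K w := ⟨pw, hKw, hsw⟩
      refine mv_inter (P := Fc a K) (fun x hx => hx.1) (fun x hx => hx.1) ?_
        (exFc ha hK ⟨pw, hKw⟩ _) ?_ ?_
      · intro l hl hlP
        by_cases hwl : w ∈ l
        · right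
          intro x hx
          refine ⟨hlP x hx, ?_⟩
          obtain ⟨z, hz, hmax⟩ := chain_max (List.ne_nil_of_mem hwl) hl
          have hzw : z = w := by
            rcases hmax w hwl with h | h
            · exact h.symm
            · exfalso
              apply h.2
              funext i
              rcases h.1 i with h3 | h3
              · exact absurd h3 (hw0 i)
              · exact h3
          rcases hmax x hx with h | h
          · rw [h, hzw]
            exact fle_refl w
          · rw [← hzw]
            exact h.1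
        · left
          intro x hx
          refine ⟨hlP x hx, ?_⟩
          rintro rfl
          exact hwl hx
      · -- different from `w`
        refine (exG ha (fun i s => s ≠ w i) (fun i => cc_ne (hw0 i)) (Or.inr (by
          rintro i s s' h1 (h | h)
          · rw [h]
            exact (hw0 i).symm
          · rwa [h])) S K hK pD hKD (fun i hi => by
            have := congrFun hsD i
            unfold sg at this
            rw [this]
            exact mem_Sp.1 hi) hSne k).congr fun X => ?_
        constructor
        · rintro ⟨h1, i, hi, h2⟩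
          exact ⟨h1, fun h => h2 (congrFun h i)⟩
        · rintro ⟨h1, h2⟩
          refine ⟨h1, ?_⟩
          by_contra hcon
          push Not at hcon
          apply h2
          funext i
          by_cases hi : i ∈ S
          · exact hcon i hi
          · rw [hout h1 i hi]
            by_contra h3
            exact hi (mem_Sp.2 h3)
      · exact ex_max w ⟨hwFc, fle_refl w⟩ (fun x hx hne => ⟨hx.2, hne⟩)
          (fun x hx h => h.2 (fle_antisymm h.1 hx.2)) k
    -- add the part outside
    have hPhiP : Ex flt Ps k := by
      refine mv_part (P := fun X => Fc a K X ∧ ∃ i ∈ S, X i = w i) (P1 := Ps)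
        (P2 := fun X => (Fc a K X ∧ ∃ i ∈ S, X i = w i) ∧ fle X w) (fun x hx => hx.1) ?_ (hPhi k)
        (hLam.congr fun X => ?_)
      · intro l hl hlP
        by_cases hwl : w ∈ l
        · right
          intro x hx
          refine ⟨hlP x hx, ?_⟩
          obtain ⟨z, hz, hmax⟩ := chain_max (List.ne_nil_of_mem hwl) hl
          have hzw : z = w := by
            rcases hmax w hwl with h | h
            · exact h.symm
            · exfalso
              apply h.2
              funext i
              rcases h.1 i with h3 | h3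
              · exact absurd h3 (hw0 i)
              · exact h3
          rcases hmax x hx with h | h
          · rw [h, hzw]
            exact fle_refl w
          · rw [← hzw]
            exact h.1
        · left
          intro x hx
          refine ⟨hlP x hx, ?_⟩
          rintro rfl
          exact hwl hx
      · constructor
        · rintro ⟨⟨h1, h2⟩, _, h3⟩
          obtain ⟨i, hi, h4⟩ := hno X h1
          have h5 : ∃ i ∈ S, X i = w i := ⟨i, hi, (h3 i).resolve_left h4⟩
          exact ⟨⟨⟨h1, h5⟩, h2⟩, ⟨h1, h5⟩, h3⟩
        · rintro ⟨⟨⟨h1, h5⟩, h2⟩, ⟨_, _⟩, h3⟩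
          exact ⟨⟨h1, h2⟩, h1, h3⟩
    exact hPhiP

end interval

end Q161.Mg
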