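import Pool.Agent.Q161.MgE

set_option autoImplicit false

/-!
The magnitude complex with a fixed first chamber: definitions and deletion analysis.
-/

namespace Q161.Mg

open Finsupp

section basic
variable {ι : Type} {M : Type} [AddCommGroup M]

/-- the last element of `D :: a` -/
def lst {X : Type} : X → List X → X
  | D, [] => D
  | _, x :: a => lst x a

lemma lst_append {X : Type} (D : X) (a b : List X) : lst D (a ++ b) = lst (lst D a) b := by
  induction a generalizing D with
  | nil => rfl
  | cons x a ih => exact ih x

lemma lst_concat {X : Type} (D : X) (a : List X) (x : X) : lst D (a ++ [x]) = x := by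
  rw [lst_append]
  rfl

open Classical in
/-- the differential of the magnitude complex of the lists after `D` -/
noncomputable def dd : (ι → SignType) → List (ι → SignType) →
    (M →+ (List (ι → SignType) →₀ M))
  | _, [] => 0
  | _, [_] => 0
  | D, x :: y :: t =>
      -(if geo D x y then (Finsupp.singleAddHom (y :: t) : M →+ (List (ι → SignType) →₀ M))
        else 0) - (consM x).comp (dd x (y :: t))

lemma dd_nil (D : ι → SignType) (m : M) : dd D [] m = 0 := rfl

lemma dd_one (D x : ι → SignType) (m : M) : dd D [x] m = 0 := rfl

open Classical in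
lemma dd_cons (D x y : ι → SignType) (t : List (ι → SignType)) (m : M) :
    dd D (x :: y :: t) m = -(if geo D x y then single (y :: t) m else 0) -
      consM x (dd x (y :: t) m) := by
  rw [dd]
  simp only [AddMonoidHom.sub_apply, AddMonoidHom.neg_apply, AddMonoidHom.comp_apply]
  split_ifs <;> rfl

/-- the differential -/
noncomputable def dA (D : ι → SignType) :
    (List (ι → SignType) →₀ M) →+ (List (ι → SignType) →₀ M) := Finsupp.liftAddHom (dd D)

lemma dA_single (D : ι → SignType) (l : List (ι → SignType)) (m : M) :
    dA D (single l m) = dd D l m := by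
  unfold dA
  rw [Finsupp.liftAddHom_apply_single]

open Classical in
lemma dA_cons (D x y : ι → SignType) (c : List (ι → SignType) →₀ M) :
    dA D (consM x (consM y c)) = -(if geo D x y then consM y c else 0) -
      consM x (dA x (consM y c)) := by
  have : ((dA D).comp ((consM x).comp (consM y)) : (List (ι → SignType) →₀ M) →+ _) =
      -(if geo D x y then consM y else 0) - (consM x).comp ((dA x).comp (consM y)) := by
    refine hom_ext _ _ fun l m => ?_
    simp only [AddMonoidHom.sub_apply, AddMonoidHom.neg_apply, AddMonoidHom.comp_apply]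
    rw [consM_single, consM_single, dA_single, dA_single, dd_cons]
    split_ifs
    · rw [consM_single]
    · rfl
  have h2 := DFunLike.congr_fun this c
  simp only [AddMonoidHom.sub_apply, AddMonoidHom.neg_apply, AddMonoidHom.comp_apply] at h2
  rw [h2]
  split_ifs <;> rfl

lemma dA_dA_single (D : ι → SignType) (l : List (ι → SignType)) (m : M) :
    dA D (dA D (single l m)) = 0 := by
  classical
  rcases l with _ | ⟨x, l⟩
  · rw [dA_single, dd_nil, map_zero]
  rcases l with _ | ⟨y, l⟩
  · rw [dA_single, dd_one, map_zero]
  induction l generalizing D x y with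
  | nil =>
    rw [dA_single, dd_cons, dd_one, map_zero, sub_zero]
    split_ifs
    · rw [map_neg, dA_single, dd_one, neg_zero]
    · rw [neg_zero, map_zero]
  | cons z t ih =>
    have h0 := ih x y z
    have hyt : ∀ c : List (ι → SignType) →₀ M, dA y c = dA y c := fun _ => rfl
    rw [dA_single, dd_cons]
    rw [dA_single, dd_cons] at h0
    -- `w` is the differential of `z :: t` after `y`
    set w : List (ι → SignType) →₀ M := dd y (z :: t) m with hw
    have e1 : ∀ D' : ι → SignType, dA D' (single (z :: t) m) = dd D' (z :: t) m :=
      fun D' => dA_single ..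
    have e2 : dA x (consM y w) = -(if geo x y z then dd x (z :: t) m else 0) := by
      rw [map_sub, map_neg, sub_eq_zero] at h0
      rw [← h0]
      congr 1
      split_ifs
      · rw [dA_single]
      · rw [map_zero]
    have e3 : dA D (single (y :: z :: t) m) = -(if geo D y z then single (z :: t) m else 0) -
        consM y w := by
      rw [dA_single, dd_cons]
    have e4 : dA D (consM x (consM y w)) = -(if geo D x y then consM y w else 0) -
        consM x (dA x (consM y w)) := dA_cons D x y w
    have e5 : dA D (consM x (single (z :: t) m)) = -(if geo D x z then single (z :: t) m else 0) -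
        consM x (dd x (z :: t) m) := by
      rw [consM_single, dA_single, dd_cons]
    rw [dd_cons (D := x), map_sub, map_neg, map_sub, map_neg, map_sub, map_neg]
    by_cases h1 : geo D x y
    · by_cases h2 : geo D y z
      · have h3 : geo x y z := geo_inner h1 h2
        have h4 : geo D x z := geo_trans h1 h2
        rw [if_pos h1, if_pos h3, e3, if_pos h2, e5, if_pos h4, e4, if_pos h1, e2, if_pos h3,
          map_neg]
        abel
      · rw [if_pos h1, e3, if_neg h2, e4, if_pos h1, e2]
        by_cases h3 : geo x y z
        · have h4 : ¬ geo D x z := by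
            intro h4
            apply h2
            intro i
            rcases h4 i with h5 | h5
            · rcases h3 i with h6 | h6
              · exact Or.inl (h6.trans h5)
              · exact Or.inr h6
            · rcases h3 i with h6 | h6
              · exact Or.inr (h6.trans h5)
              · exact Or.inr h6
          rw [if_pos h3, if_pos h3, e5, if_neg h4, map_neg]
          simp only [neg_zero, zero_sub]
          abel
        · rw [if_neg h3, if_neg h3]
          simp only [map_zero, neg_zero]
          abel
    · rw [if_neg h1, e4, if_neg h1, e2]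
      by_cases h3 : geo x y z
      · have h4 : ¬ geo D x z := by
          intro h4
          apply h1
          intro i
          rcases h4 i with h5 | h5
          · exact Or.inl h5
          · rcases h3 i with h6 | h6
            · exact Or.inr h6.symm
            · exact Or.inr (h5.trans h6.symm)
        rw [if_pos h3, if_pos h3, e5, if_neg h4, map_neg]
        simp only [map_zero, neg_zero, zero_sub]
        abel
      · rw [if_neg h3, if_neg h3]
        simp only [map_zero, neg_zero, zero_sub]

lemma dA_dA (D : ι → SignType) (c : List (ι → SignType) →₀ M) : dA D (dA D c) = 0 := by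
  have : ((dA D).comp (dA D) : (List (ι → SignType) →₀ M) →+ _) = 0 :=
    hom_ext _ _ fun l m => dA_dA_single D l m
  exact DFunLike.congr_fun this c

/-- naturality in the coefficients -/
lemma dd_map {M' : Type} [AddCommGroup M'] (φ : M →+ M') (D : ι → SignType)
    (l : List (ι → SignType)) (m : M) :
    Finsupp.mapRange.addMonoidHom φ (dd D l m) = dd D l (φ m) := by
  classical
  rcases l with _ | ⟨x, l⟩
  · rw [dd_nil, dd_nil, map_zero]
  induction l generalizing D x with
  | nil => rw [dd_one, dd_one, map_zero]
  | cons y t ih =>
    have hc : ∀ c : List (ι → SignType) →₀ M, Finsupp.mapRange.addMonoidHom φ (consM x c) =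
        consM x (Finsupp.mapRange.addMonoidHom φ c) := by
      intro c
      have : ((Finsupp.mapRange.addMonoidHom φ).comp (consM x) :
          (List (ι → SignType) →₀ M) →+ _) =
          (consM x).comp (Finsupp.mapRange.addMonoidHom φ) := by
        refine hom_ext _ _ fun l m => ?_
        simp only [AddMonoidHom.comp_apply]
        rw [consM_single]
        simp [consM_single]
      exact DFunLike.congr_fun this c
    rw [dd_cons, dd_cons, map_sub, map_neg, hc, ih]
    congr 2
    split_ifs
    · simp
    · rw [map_zero]

lemma dA_map {M' : Type} [AddCommGroup M'] (φ : M →+ M') (D : ι → SignType)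
    (c : List (ι → SignType) →₀ M) :
    Finsupp.mapRange.addMonoidHom φ (dA D c) = dA D (Finsupp.mapRange.addMonoidHom φ c) := by
  have : ((Finsupp.mapRange.addMonoidHom φ).comp (dA D) :
      (List (ι → SignType) →₀ M) →+ _) = (dA D).comp (Finsupp.mapRange.addMonoidHom φ) := by
    refine hom_ext _ _ fun l m => ?_
    simp only [AddMonoidHom.comp_apply]
    rw [dA_single, dd_map]
    simp [dA_single]
  exact DFunLike.congr_fun this c

/-- deletion of an inner element of a geodesic triple -/
def DG (D : ι → SignType) (l l' : List (ι → SignType)) : Prop :=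
  ∃ a x y b, l = a ++ x :: y :: b ∧ l' = a ++ y :: b ∧ geo (lst D a) x y

lemma mem_dd (D : ι → SignType) (l : List (ι → SignType)) (m : M) :
    ∀ l', dd D l m l' ≠ 0 → DG D l l' := by
  classical
  rcases l with _ | ⟨x, l⟩
  · intro l' h
    exact absurd rfl h
  induction l generalizing D x with
  | nil => intro l' h; exact absurd rfl h
  | cons y t ih =>
    intro l' h
    rw [dd_cons, Finsupp.sub_apply, Finsupp.neg_apply] at h
    by_cases h1 : (if geo D x y then single (y :: t) m else 0 : List (ι → SignType) →₀ M) l' = 0
    · rw [h1, neg_zero, zero_sub, neg_ne_zero] at h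
      rcases l' with _ | ⟨z, l''⟩
      · exact absurd (consM_nil x _) h
      · by_cases hxz : x = z
        · subst hxz
          rw [consM_apply] at h
          obtain ⟨a, x', y', b, h2, rfl, h3⟩ := ih x y l'' h
          exact ⟨x :: a, x', y', b, by rw [h2]; rfl, rfl, h3⟩
        · exact absurd (mapD_notin _ _ _ fun a ha => hxz (List.cons.inj ha).1) h
    · by_cases hg : geo D x y
      · rw [if_pos hg] at h1
        have : l' = y :: t := by
          by_contra h2
          exact h1 (Finsupp.single_eq_of_ne h2)
        subst this
        exact ⟨[], x, y, t, rfl, rfl, hg⟩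
      · rw [if_neg hg] at h1
        exact absurd rfl h1

lemma dA_supp (D : ι → SignType) (c : List (ι → SignType) →₀ M) (l' : List (ι → SignType))
    (h : dA D c l' ≠ 0) : ∃ l, c l ≠ 0 ∧ DG D l l' := by
  obtain ⟨l, hl, m, hm⟩ := exists_of_map_ne (dA D) c l' h
  rw [dA_single] at hm
  exact ⟨l, hl, mem_dd D l m l' hm⟩

/-- the coefficient of one deletion -/
lemma coef [DecidableEq ι] (D x y : ι → SignType) (a b : List (ι → SignType)) (m : M)
    (hx : lst D a ≠ x) (hxy : x ≠ y) (hg : geo (lst D a) x y) :
    dd D (a ++ x :: y :: b) m (a ++ y :: b) = (-1 : ℤ) ^ (a.length + 1) • m := by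
  classical
  induction a generalizing D with
  | nil =>
    have h1 : consM x (dd x (y :: b) m) (y :: b) = 0 :=
      mapD_notin _ _ _ fun a ha => hxy (List.cons.inj ha).1
    have hg' : geo D x y := hg
    rw [List.nil_append, List.nil_append, dd_cons, if_pos hg', Finsupp.sub_apply,
      Finsupp.neg_apply, Finsupp.single_eq_same, h1, sub_zero]
    simp
  | cons a0 a1 ih =>
    have ih' := ih a0 hx hg
    obtain ⟨h, t, ht⟩ : ∃ h t, a1 ++ x :: y :: b = h :: t := by
      rcases a1 with _ | ⟨h, t⟩
      · exact ⟨_, _, rfl⟩
      · exact ⟨_, _, rfl⟩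
    have h1 : (if geo D a0 h then single (a1 ++ x :: y :: b) m else 0 :
        List (ι → SignType) →₀ M) (a0 :: (a1 ++ y :: b)) = 0 := by
      split_ifs
      · apply Finsupp.single_eq_of_ne
        intro h2
        have h3 : (a0 :: a1) ++ y :: b = (a1 ++ [x]) ++ y :: b := by
          rw [List.append_assoc]
          exact h2
        have h4 : a0 :: a1 = a1 ++ [x] := List.append_cancel_right h3
        apply hx
        rw [h4, lst_concat]
      · rfl
    rw [List.cons_append, ht, dd_cons, ← ht, Finsupp.sub_apply, Finsupp.neg_apply,
      List.cons_append, h1, neg_zero, zero_sub, consM_apply, ih', List.length_cons,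
      pow_succ _ (a1.length + 1), mul_neg_one, neg_smul]

/-- the differential of a list with a geodesic beginning -/
lemma dd_append (D y : ι → SignType) (p u : List (ι → SignType)) (m : M)
    (h : (p ++ [y]).Pairwise (geo D)) :
    dd D (p ++ y :: u) m = -appR (y :: u) (dm p m) +
      (-1 : ℤ) ^ p.length • appL p (dd (lst D p) (y :: u) m) := by
  classical
  induction p generalizing D with
  | nil => rw [dm_nil, map_zero, neg_zero, zero_add, List.length_nil, pow_zero, one_smul,
      appL_nil]; rfl
  | cons x p1 ih =>
    obtain ⟨h', t, ht⟩ : ∃ h t, p1 ++ y :: u = h :: t := by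
      rcases p1 with _ | ⟨h, t⟩
      · exact ⟨_, _, rfl⟩
      · exact ⟨_, _, rfl⟩
    have hh : h' ∈ p1 ++ [y] := by
      rcases p1 with _ | ⟨h'', t'⟩
      · have : y = h' := (List.cons.inj ht).1
        rw [this]
        simp
      · have : h'' = h' := (List.cons.inj ht).1
        rw [this]
        simp
    rw [List.cons_append, List.pairwise_cons] at h
    have h1 : (p1 ++ [y]).Pairwise (geo x) :=
      h.2.imp_of_mem fun ha hb hab => geo_inner (h.1 _ ha) hab
    have hg : geo D x h' := h.1 h' hh
    rw [List.cons_append, ht, dd_cons, if_pos hg, ← ht, ih x h1, dm_cons, map_sub, appR_single,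
      appR_cons, map_add, map_neg, List.length_cons, pow_succ, mul_neg_one, neg_smul, appL_cons,
      map_zsmul]
    have e : lst D (x :: p1) = lst x p1 := rfl
    rw [e]
    abel

end basic

section gen
variable {E : Type} [AddCommGroup E] [Module ℝ E] {ι : Type} (f : ι → Module.Dual ℝ E)

/-- valid lists after `D` -/
def Vl : (ι → SignType) → List (ι → SignType) → Prop
  | _, [] => True
  | D, x :: t => IsT f x ∧ x ≠ D ∧ Vl x t

/-- the multidegree -/
def mu : (ι → SignType) → List (ι → SignType) → (ι → ℕ)
  | _, [] => 0
  | D, x :: t => (fun i => if D i = x i then 0 else 1) + mu x t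

/-- the generators of the magnitude complex -/
def Gn (D : ι → SignType) (lam : ι → ℕ) (k : ℕ) (l : List (ι → SignType)) : Prop :=
  Vl f D l ∧ mu D l = lam ∧ l.length = k

/-- exactness of the magnitude complex with first chamber `D` and multidegree `lam` -/
def ExM (D : ι → SignType) (lam : ι → ℕ) (k : ℕ) : Prop :=
  ∀ (M : Type) [AddCommGroup M] (c : List (ι → SignType) →₀ M), (∀ l, c l ≠ 0 → Gn f D lam k l) →
    dA D c = 0 → ∃ e : List (ι → SignType) →₀ M, (∀ l, e l ≠ 0 → Gn f D lam (k + 1) l) ∧
      dA D e = c

variable {f}

lemma vl_append {D : ι → SignType} {a b : List (ι → SignType)} :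
    Vl f D (a ++ b) ↔ Vl f D a ∧ Vl f (lst D a) b := by
  induction a generalizing D with
  | nil => exact ⟨fun h => ⟨trivial, h⟩, fun h => h.2⟩
  | cons x a ih =>
    rw [List.cons_append, Vl, ih, Vl]
    exact ⟨fun h => ⟨⟨h.1, h.2.1, h.2.2.1⟩, h.2.2.2⟩, fun h => ⟨h.1.1, h.1.2.1, h.1.2.2, h.2⟩⟩

lemma mu_append {D : ι → SignType} {a b : List (ι → SignType)} :
    mu D (a ++ b) = mu D a + mu (lst D a) b := by
  induction a generalizing D with
  | nil => rw [List.nil_append, mu, zero_add]; rfl
  | cons x a ih => rw [List.cons_append, mu, ih, mu, add_assoc]; rfl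

lemma vl_mem {D : ι → SignType} {a : List (ι → SignType)} (h : Vl f D a) :
    ∀ x ∈ a, IsT f x := by
  induction a generalizing D with
  | nil => intro x hx; exact absurd hx List.not_mem_nil
  | cons y a ih =>
    intro x hx
    rcases List.mem_cons.1 hx with rfl | hx
    · exact h.1
    · exact ih h.2.2 x hx

lemma lst_isT {D : ι → SignType} {a : List (ι → SignType)} (hD : IsT f D) (h : Vl f D a) :
    IsT f (lst D a) := by
  induction a generalizing D with
  | nil => exact hD
  | cons y a ih => exact ih h.1 h.2.2

/-- a deletion preserves everything -/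
lemma Gn.del {D : ι → SignType} (hD : IsT f D) {lam : ι → ℕ} {k : ℕ}
    {l l' : List (ι → SignType)} (h : Gn f D lam (k + 1) l) (hd : DG D l l') :
    Gn f D lam k l' := by
  obtain ⟨a, x, y, b, rfl, rfl, hg⟩ := hd
  obtain ⟨h1, h2, h3⟩ := h
  rw [vl_append] at h1
  obtain ⟨h4, hx, hx', hy, hy', h5⟩ := h1
  have hz := lst_isT hD h4
  refine ⟨?_, ?_, ?_⟩
  · rw [vl_append]
    refine ⟨h4, hy, ?_, h5⟩
    rintro rfl
    apply hx'
    funext i
    rcases hg i with h | h
    · exact h
    · exact h
  · rw [← h2, mu_append, mu_append, mu, mu, mu]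
    rw [← add_assoc (fun i => if lst D a i = x i then 0 else 1)]
    congr 2
    funext i
    simp only [Pi.add_apply]
    rcases hg i with h | h
    · rw [h, if_pos rfl, zero_add]
    · rw [h, if_pos rfl, add_zero]
  · rw [List.length_append, List.length_cons, List.length_cons] at h3
    rw [List.length_append, List.length_cons]
    omega

/-- the multidegree vanishes only for the empty list -/
lemma eq_nil_of_mu {D : ι → SignType} {l : List (ι → SignType)} (h : Vl f D l)
    (h0 : mu D l = 0) : l = [] := by
  rcases l with _ | ⟨x, t⟩
  · rfl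
  · exfalso
    apply h.2.1
    funext i
    have := congrFun h0 i
    rw [mu, Pi.add_apply, Pi.zero_apply] at this
    by_contra hne
    rw [if_neg (Ne.symm hne)] at this
    omega

end gen

section dec
variable {ι : Type}

/-- the decomposition after the maximal geodesic beginning -/
def Dec (D : ι → SignType) (l p : List (ι → SignType)) (y : ι → SignType)
    (u : List (ι → SignType)) : Prop :=
  l = p ++ y :: u ∧ (p ++ [y]).Pairwise (RD D) ∧ ∀ h ∈ u.head?, ¬ geo D y h

lemma RD_trans {D x y z : ι → SignType} (h : RD D x y) (h' : RD D y z) : RD D x z :=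
  ⟨geo_trans h.1 h'.1, by
    rintro rfl
    exact h.2 (geo_antisymm h.1 h'.1)⟩

lemma Dec.unique {D : ι → SignType} {l p p' u u' : List (ι → SignType)} {y y' : ι → SignType}
    (h : Dec D l p y u) (h' : Dec D l p' y' u') : p = p' ∧ y = y' ∧ u = u' := by
  have key : ∀ {p p' u u' : List (ι → SignType)} {y y' : ι → SignType} {w : List (ι → SignType)},
      p ++ y :: u = p' ++ y' :: u' → (p' ++ [y']).Pairwise (RD D) →
      (∀ h ∈ u.head?, ¬ geo D y h) → p' = p ++ w → w = [] := by
    intro p p' u u' y y' w h1 h2 h3 h4
    rcases w with _ | ⟨w0, w⟩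
    · rfl
    · exfalso
      subst h4
      rw [List.append_assoc] at h1
      have h5 := List.append_cancel_left h1
      rw [List.cons_append] at h5
      obtain ⟨rfl, h6⟩ := List.cons.inj h5
      rw [List.append_assoc, List.pairwise_append, List.cons_append, List.pairwise_cons] at h2
      rcases w with _ | ⟨w1, w⟩
      · rw [List.nil_append] at h6 h2
        rw [h6] at h3
        exact h3 y' (by simp) (h2.2.1.1 y' (by simp)).1
      · rw [List.cons_append] at h6 h2
        rw [h6] at h3
        exact h3 w1 (by simp) (h2.2.1.1 w1 (by simp)).1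
  obtain ⟨h1, h2, h3⟩ := h
  obtain ⟨h1', h2', h3'⟩ := h'
  have e : p ++ y :: u = p' ++ y' :: u' := h1.symm.trans h1'
  have hp : p = p' := by
    rcases List.append_eq_append_iff.1 e with ⟨w, hw, _⟩ | ⟨w, hw, _⟩
    · have := key e h2' h3 hw
      rw [hw, this, List.append_nil]
    · have := key e.symm h2 h3' hw
      rw [hw, this, List.append_nil]
  subst hp
  have := List.append_cancel_left e
  obtain ⟨rfl, rfl⟩ := List.cons.inj this
  exact ⟨rfl, rfl, rfl⟩

lemma exists_dec {E : Type} [AddCommGroup E] [Module ℝ E] {f : ι → Module.Dual ℝ E}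
    (D : ι → SignType) (t : List (ι → SignType)) : ∀ y : ι → SignType, Vl f y t →
    ∃ p z u, Dec D (y :: t) p z u ∧ (z :: u).IsSuffix (y :: t) := by
  induction t with
  | nil =>
    intro y _
    exact ⟨[], y, [], ⟨rfl, List.pairwise_singleton _ _, by simp⟩, List.suffix_rfl⟩
  | cons x t ih =>
    intro y hy
    by_cases hg : geo D y x
    · obtain ⟨p, z, u, ⟨h1, h2, h3⟩, h4⟩ := ih x hy.2.2
      refine ⟨y :: p, z, u, ⟨by rw [h1]; rfl, ?_, h3⟩, h4.trans (List.suffix_cons _ _)⟩
      rw [List.cons_append, List.pairwise_cons]
      refine ⟨?_, h2⟩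
      have hyx : RD D y x := ⟨hg, Ne.symm hy.2.1⟩
      obtain ⟨w, hw⟩ : ∃ w, p ++ [z] = x :: w := by
        rcases p with _ | ⟨p0, p1⟩
        · exact ⟨[], by rw [(List.cons.inj h1).1]; rfl⟩
        · exact ⟨p1 ++ [z], by rw [(List.cons.inj h1).1]; rfl⟩
      rw [hw] at h2 ⊢
      intro v hv
      rcases List.mem_cons.1 hv with rfl | hv
      · exact hyx
      · exact RD_trans hyx ((List.pairwise_cons.1 h2).1 v hv)
    · exact ⟨[], y, x :: t, ⟨rfl, List.pairwise_singleton _ _, by
        intro h hh
        rw [List.head?_cons, Option.mem_some_iff] at hh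
        rwa [← hh]⟩, List.suffix_rfl⟩

/-- effect of a deletion on the decomposition -/
lemma Dec.del {D : ι → SignType} {l p u l' : List (ι → SignType)} {y : ι → SignType}
    (h : Dec D l p y u) (hd : DG D l l') :
    (∃ p', Del p p' ∧ Dec D l' p' y u) ∨
    (∃ p0 z0, p = p0 ++ [z0] ∧ l' = p ++ u ∧ u ≠ [] ∧ RD D z0 y ∧ Dec D l' p0 z0 u) ∨
    (∃ u', DG y u u' ∧ Dec D l' p y u') := by
  obtain ⟨rfl, h2, h3⟩ := h
  obtain ⟨a, x, z, b, h4, rfl, hg⟩ := hd
  rcases List.append_eq_append_iff.1 h4 with ⟨w, hw, hw'⟩ | ⟨w, hw, hw'⟩
  · -- `a = p ++ w`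
    rcases w with _ | ⟨w0, w⟩
    · -- `y` is deleted
      rw [List.nil_append] at hw'
      obtain ⟨rfl, rfl⟩ := List.cons.inj hw'
      rw [List.append_nil] at hw
      subst hw
      right; left
      have hz : ¬ geo D y z := h3 z (by simp)
      rcases List.eq_nil_or_concat a with rfl | ⟨p0, z0, rfl⟩
      · exact absurd hg hz
      · rw [List.concat_eq_append] at h2 hg ⊢
        rw [lst_concat] at hg
        have h5 : RD D z0 y := (List.pairwise_append.1 h2).2.2 z0 (by simp) y (by simp)
        refine ⟨p0, z0, rfl, rfl, by simp, h5, ?_, ?_, ?_⟩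
        · rw [List.append_assoc]
          rfl
        · exact (List.pairwise_append.1 h2).1
        · intro h hh
          rw [List.head?_cons, Option.mem_some_iff] at hh
          subst hh
          intro h6
          apply hz
          intro i
          rcases h6 i with h7 | h7
          · rcases hg i with h8 | h8
            · exact Or.inl (h8.trans h7)
            · exact Or.inr h8
          · rcases hg i with h8 | h8
            · exact Or.inr (h8.trans h7)
            · exact Or.inr h8
    · -- the deletion is in `u`
      rw [List.cons_append] at hw'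
      obtain ⟨rfl, hw''⟩ := List.cons.inj hw'
      right; right
      subst hw
      refine ⟨w ++ z :: b, ⟨w, x, z, b, hw'', rfl, ?_⟩, ?_, h2, ?_⟩
      · rw [lst_append] at hg
        exact hg
      · rw [List.append_assoc]
        rfl
      · intro h hh
        rcases w with _ | ⟨w1, w⟩
        · rw [List.nil_append, List.head?_cons, Option.mem_some_iff] at hh
          subst hh
          rw [List.nil_append] at hw''
          have h5 : ¬ geo D y x := h3 x (by rw [hw'']; simp)
          rw [lst_append] at hg
          have hg' : geo y x z := hg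
          intro h6
          apply h5
          intro i
          rcases h6 i with h7 | h7
          · exact Or.inl h7
          · rcases hg' i with h8 | h8
            · exact Or.inr h8.symm
            · exact Or.inr (h7.trans h8.symm)
        · rw [List.cons_append, List.head?_cons, Option.mem_some_iff] at hh
          subst hh
          exact h3 _ (by rw [hw'']; simp)
  · -- `p = a ++ w`
    rcases w with _ | ⟨w0, w⟩
    · rw [List.nil_append] at hw'
      obtain ⟨rfl, rfl⟩ := List.cons.inj hw'
      rw [List.append_nil] at hw
      subst hw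
      -- again `y` is deleted
      right; left
      have hz : ¬ geo D x z := h3 z (by simp)
      rcases List.eq_nil_or_concat p with rfl | ⟨p0, z0, rfl⟩
      · exact absurd hg hz
      · rw [List.concat_eq_append] at h2 hg ⊢
        rw [lst_concat] at hg
        have h5 : RD D z0 x := (List.pairwise_append.1 h2).2.2 z0 (by simp) x (by simp)
        refine ⟨p0, z0, rfl, rfl, by simp, h5, ?_, ?_, ?_⟩
        · rw [List.append_assoc]
          rfl
        · exact (List.pairwise_append.1 h2).1
        · intro h hh
          rw [List.head?_cons, Option.mem_some_iff] at hh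
          subst hh
          intro h6
          apply hz
          intro i
          rcases h6 i with h7 | h7
          · rcases hg i with h8 | h8
            · exact Or.inl (h8.trans h7)
            · exact Or.inr h8
          · rcases hg i with h8 | h8
            · exact Or.inr (h8.trans h7)
            · exact Or.inr h8
    · left
      rw [List.cons_append] at hw'
      obtain ⟨rfl, hw''⟩ := List.cons.inj hw'
      subst hw
      refine ⟨a ++ w, ⟨a, x, w, rfl, rfl⟩, ?_, ?_, h3⟩
      · rw [hw'', List.append_assoc]
      · rw [List.append_assoc, List.cons_append, List.pairwise_append] at h2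
        rw [List.append_assoc, List.pairwise_append]
        exact ⟨h2.1, (List.pairwise_cons.1 h2.2.1).2, fun v hv v' hv' =>
          h2.2.2 v hv v' (List.mem_cons_of_mem _ hv')⟩

end dec

end Q161.Mg
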