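import Pool.Agent.Q161.MgF

set_option autoImplicit false

/-!
The exactness of a product of two complexes.
-/

namespace Q161.Mg

open Finsupp

section sgn
variable {X : Type} {M : Type} [AddCommGroup M]

/-- the sign of the length -/
noncomputable def sgn : (List X →₀ M) →+ (List X →₀ M) :=
  Finsupp.liftAddHom fun p => ((-1 : ℤ) ^ p.length • Finsupp.singleAddHom p :
    M →+ (List X →₀ M))

lemma sgn_single (p : List X) (m : M) : sgn (single p m) = (-1 : ℤ) ^ p.length • single p m := by
  unfold sgn
  rw [Finsupp.liftAddHom_apply_single]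
  rfl

lemma sgn_of_length {n : ℕ} (c : List X →₀ M) (h : ∀ p, c p ≠ 0 → p.length = n) :
    sgn c = (-1 : ℤ) ^ n • c := by
  have h1 : sgn c = ∑ b ∈ c.support, sgn (single b (c b)) := map_eq_sum sgn c
  have h2 : (-1 : ℤ) ^ n • c = ∑ b ∈ c.support, (-1 : ℤ) ^ n • single b (c b) := by
    conv_lhs => rw [← Finsupp.sum_single c, Finsupp.sum, Finset.smul_sum]
  rw [h1, h2]
  refine Finset.sum_congr rfl fun b hb => ?_
  rw [sgn_single, h b (Finsupp.mem_support_iff.1 hb)]

lemma sgn_sgn (c : List X →₀ M) : sgn (sgn c) = c := by
  have : (sgn.comp sgn : (List X →₀ M) →+ _) = AddMonoidHom.id _ := by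
    refine hom_ext _ _ fun l m => ?_
    simp only [AddMonoidHom.comp_apply, AddMonoidHom.id_apply]
    rw [sgn_single, map_zsmul, sgn_single, smul_smul, ← pow_add]
    have h1 : (-1 : ℤ) ^ (l.length + l.length) = 1 := Even.neg_one_pow ⟨_, rfl⟩
    rw [h1, one_smul]
  exact DFunLike.congr_fun this c

lemma sgn_dP (c : List X →₀ M) : sgn (dP c) = - dP (sgn c) := by
  have : (sgn.comp dP : (List X →₀ M) →+ _) = -(dP.comp sgn) := by
    refine hom_ext _ _ fun l m => ?_
    simp only [AddMonoidHom.comp_apply, AddMonoidHom.neg_apply]
    rw [sgn_single, dP_single, map_zsmul, dP_single]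
    rcases l with _ | ⟨x, t⟩
    · rw [dm_nil, map_zero, smul_zero, neg_zero]
    · rw [sgn_of_length (n := t.length), List.length_cons, pow_succ, mul_neg_one, neg_smul,
        neg_neg]
      intro p hp
      obtain ⟨a, z, b, h1, rfl⟩ := mem_dm _ m p hp
      have := congrArg List.length h1
      rw [List.length_append, List.length_cons, List.length_cons] at this
      rw [List.length_append]
      omega
  exact DFunLike.congr_fun this c

end sgn

section maps
variable {A M M' M'' : Type} [AddCommGroup M] [AddCommGroup M'] [AddCommGroup M'']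

/-- change of coefficients -/
noncomputable def mR (φ : M →+ M') : (A →₀ M) →+ (A →₀ M') := Finsupp.mapRange.addMonoidHom φ

lemma mR_apply (φ : M →+ M') (c : A →₀ M) (a : A) : mR φ c a = φ (c a) := rfl

lemma mR_mR (φ : M →+ M') (ψ : M' →+ M'') (c : A →₀ M) : mR ψ (mR φ c) = mR (ψ.comp φ) c := by
  ext a
  rfl

end maps

section tot
variable {ι : Type} {M : Type} [AddCommGroup M]

/-- the total differential -/
noncomputable def tT (y : ι → SignType) :
    (List (ι → SignType) →₀ (List (ι → SignType) →₀ M)) →+
      (List (ι → SignType) →₀ (List (ι → SignType) →₀ M)) :=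
  mR dP + (dA y).comp (mR sgn)

lemma tT_apply (y : ι → SignType) (c : List (ι → SignType) →₀ (List (ι → SignType) →₀ M))
    (u : List (ι → SignType)) : tT y c u = dP (c u) + dA y (mR sgn c) u := rfl

lemma tT_eq (y : ι → SignType) (c : List (ι → SignType) →₀ (List (ι → SignType) →₀ M)) :
    tT y c = mR dP c + dA y (mR sgn c) := rfl

lemma tT_tT (y : ι → SignType) (c : List (ι → SignType) →₀ (List (ι → SignType) →₀ M)) :
    tT y (tT y c) = 0 := by
  have e1 : mR dP (mR dP c) = 0 := by
    ext1 u
    exact dP_dP _
  have e2 : mR dP (dA y (mR sgn c)) = dA y (mR dP (mR sgn c)) := dA_map dP y _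
  have e3 : mR sgn (mR dP c) = - mR dP (mR sgn c) := by
    ext1 u
    exact sgn_dP _
  have e4 : mR sgn (dA y (mR sgn c)) = dA y (mR sgn (mR sgn c)) := dA_map sgn y _
  have e5 : mR sgn (mR sgn c) = c := by
    ext1 u
    exact sgn_sgn _
  rw [tT_eq, tT_eq, map_add, map_add, map_add, e1, e2, e3, e4, e5, map_neg, dA_dA]
  abel

end tot

section kun
variable {E : Type} [AddCommGroup E] [Module ℝ E] {ι : Type} {f : ι → Module.Dual ℝ E}
  {R : (ι → SignType) → (ι → SignType) → Prop} {Iv : (ι → SignType) → Prop}

/-- homogeneous elements of the product -/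
def Hd (f : ι → Module.Dual ℝ E) (R : (ι → SignType) → (ι → SignType) → Prop)
    (Iv : (ι → SignType) → Prop) (y : ι → SignType) (m : ι → ℕ) (k : ℕ) {M : Type}
    [AddCommGroup M] (c : List (ι → SignType) →₀ (List (ι → SignType) →₀ M)) : Prop :=
  ∀ u p, c u p ≠ 0 → Gn f y m u.length u ∧ IsCh R Iv p.length p ∧ u.length + p.length = k

lemma Hd.add {y : ι → SignType} {m : ι → ℕ} {k : ℕ} {M : Type} [AddCommGroup M]
    {c d : List (ι → SignType) →₀ (List (ι → SignType) →₀ M)} (hc : Hd f R Iv y m k c)
    (hd : Hd f R Iv y m k d) : Hd f R Iv y m k (c + d) := by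
  intro u p h
  by_cases h0 : c u p = 0
  · rw [Finsupp.add_apply, Finsupp.add_apply, h0, zero_add] at h
    exact hd u p h
  · exact hc u p h0

lemma Hd.neg {y : ι → SignType} {m : ι → ℕ} {k : ℕ} {M : Type} [AddCommGroup M]
    {c : List (ι → SignType) →₀ (List (ι → SignType) →₀ M)} (hc : Hd f R Iv y m k c) :
    Hd f R Iv y m k (-c) := by
  intro u p h
  rw [Finsupp.neg_apply, Finsupp.neg_apply, neg_ne_zero] at h
  exact hc u p h

lemma Hd.tT' {y : ι → SignType} (hy : IsT f y) {m : ι → ℕ} {k : ℕ} {M : Type} [AddCommGroup M]
    {c : List (ι → SignType) →₀ (List (ι → SignType) →₀ M)} (hc : Hd f R Iv y m k c) :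
    ∀ u p, Q161.Mg.tT y c u p ≠ 0 → Gn f y m u.length u ∧ IsCh R Iv p.length p ∧
      u.length + p.length + 1 = k := by
  intro u p h
  rw [tT_apply, Finsupp.add_apply] at h
  by_cases h0 : dP (c u) p = 0
  · rw [h0, zero_add] at h
    have h1 : dA y (mR sgn c) u ≠ 0 := by
      intro h2
      rw [h2] at h
      exact h rfl
    -- evaluate at `p`
    have h2 : dA y (mR (Finsupp.applyAddHom p) (mR sgn c)) u ≠ 0 := by
      have h3 : dA y (mR (Finsupp.applyAddHom p) (mR sgn c)) =
          mR (Finsupp.applyAddHom p) (dA y (mR sgn c)) := (dA_map _ y _).symm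
      rw [h3]
      exact h
    obtain ⟨u2, h3, h4⟩ := dA_supp y _ u h2
    have h5 : sgn (c u2) p ≠ 0 := h3
    have h6 : c u2 p ≠ 0 := by
      intro h7
      apply h5
      have h8 : ∀ q, q ≠ p → (single q (c u2 q) : List (ι → SignType) →₀ M) p = 0 :=
        fun q hq => Finsupp.single_eq_of_ne (Ne.symm hq)
      rw [map_eq_sum sgn (c u2), Finsupp.finsetSum_apply]
      refine Finset.sum_eq_zero fun q _ => ?_
      rw [sgn_single, Finsupp.smul_apply]
      by_cases hq : q = p
      · subst hq
        rw [h7]
        simp
      · rw [h8 q hq, smul_zero]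
    obtain ⟨h7, h8, h9⟩ := hc u2 p h6
    obtain ⟨a, x, z, b, e1, e2, _⟩ := id h4
    have hlen : u2.length = u.length + 1 := by
      rw [e1, e2, List.length_append, List.length_append, List.length_cons, List.length_cons]
      omega
    rw [hlen] at h7
    exact ⟨h7.del hy h4, h8, by omega⟩
  · obtain ⟨p', h1, h2⟩ := dP_supp (c u) p h0
    obtain ⟨h3, h4, h5⟩ := hc u p' h1
    obtain ⟨a, x, b, e1, e2⟩ := id h2
    have hlen : p'.length = p.length + 1 := by
      rw [e1, e2, List.length_append, List.length_append, List.length_cons]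
      omega
    rw [hlen] at h4
    exact ⟨h3, h4.del h2, by omega⟩

lemma Hd.tT {y : ι → SignType} (hy : IsT f y) {m : ι → ℕ} {k : ℕ} {M : Type} [AddCommGroup M]
    {c : List (ι → SignType) →₀ (List (ι → SignType) →₀ M)} (hc : Hd f R Iv y m (k + 1) c) :
    Hd f R Iv y m k (Q161.Mg.tT y c) := by
  intro u p h
  obtain ⟨h1, h2, h3⟩ := hc.tT' hy u p h
  exact ⟨h1, h2, by omega⟩

open Classical in
/-- **The product of two complexes**, each exact outside of one degree. -/
theorem kun {y : ι → SignType} (hy : IsT f y) {m : ι → ℕ} {r κ : ℕ}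
    (hE : ∀ k, k ≠ r → Ex R Iv k) (hR : ∀ k, k ≠ κ → ExM f y m k) {k : ℕ} (hk : k ≠ r + κ)
    {M : Type} [AddCommGroup M] (n : ℕ) :
    ∀ c : List (ι → SignType) →₀ (List (ι → SignType) →₀ M), Hd f R Iv y m k c →
      tT y c = 0 → (∀ u, n ≤ u.length → c u = 0) →
      ∃ e, Hd f R Iv y m (k + 1) e ∧ tT y e = c := by
  induction n with
  | zero =>
    intro c _ _ h
    refine ⟨0, fun u p h => absurd rfl h, ?_⟩
    rw [map_zero]
    ext1 u
    rw [h u (Nat.zero_le _)]
    rfl
  | succ n ih =>
    intro c hc hT hn
    -- it suffices to solve in the top length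
    suffices hmain : ∃ e, Hd f R Iv y m (k + 1) e ∧ ∀ u, n ≤ u.length → tT y e u = c u by
      obtain ⟨e, he1, he2⟩ := hmain
      obtain ⟨e', he'1, he'2⟩ := ih (c - tT y e) (by
        rw [sub_eq_add_neg]
        exact hc.add (he1.tT hy).neg) (by rw [map_sub, hT, tT_tT, sub_zero]) (by
        intro u hu
        rw [Finsupp.sub_apply, he2 u hu, sub_self])
      refine ⟨e + e', he1.add he'1, ?_⟩
      rw [map_add, he'2]
      abel
    -- the components of length `n` are cycles
    have hup : ∀ (N : Type) [AddCommGroup N] (b : List (ι → SignType) →₀ N) (j : ℕ),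
        (∀ u, j ≤ u.length → b u = 0) → ∀ u, j ≤ u.length + 1 → dA y b u = 0 := by
      intro N _ b j hb u hu
      by_contra h
      obtain ⟨u2, h1, a, x, z, b', e1, e2, _⟩ := dA_supp y b u h
      apply h1
      apply hb
      rw [e1, List.length_append, List.length_cons, List.length_cons]
      rw [e2, List.length_append, List.length_cons] at hu
      omega
    have hsg0 : ∀ u, n + 1 ≤ u.length → mR sgn c u = 0 := by
      intro u hu
      rw [mR_apply, hn u hu, map_zero]
    have hcyc : ∀ u, n ≤ u.length → dP (c u) = 0 := by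
      intro u hu
      have h1 := DFunLike.congr_fun hT u
      rw [tT_apply, hup _ (mR sgn c) (n + 1) hsg0 u (by omega), add_zero] at h1
      exact h1
    by_cases hnk : k < n
    · refine ⟨0, fun u p h => absurd rfl h, fun u hu => ?_⟩
      rw [map_zero]
      symm
      ext p
      by_contra h
      have := (hc u p h).2.2
      omega
    push Not at hnk
    by_cases hr : k - n = r
    · -- the critical length
      -- the cycles and boundaries
      let Z : AddSubgroup (List (ι → SignType) →₀ M) :=
        { carrier := {z | (∀ p, z p ≠ 0 → IsCh R Iv r p) ∧ dP z = 0}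
          zero_mem' := ⟨fun p h => absurd rfl h, map_zero _⟩
          add_mem' := fun {a b} ha hb => ⟨supp_add ha.1 hb.1, by rw [map_add, ha.2, hb.2, add_zero]⟩
          neg_mem' := fun {a} ha => ⟨supp_neg ha.1, by rw [map_neg, ha.2, neg_zero]⟩ }
      let Bd : AddSubgroup Z :=
        { carrier := {z | ∃ w : List (ι → SignType) →₀ M, (∀ p, w p ≠ 0 → IsCh R Iv (r + 1) p) ∧
            dP w = z.1}
          zero_mem' := ⟨0, fun p h => absurd rfl h, map_zero _⟩
          add_mem' := fun {a b} ⟨w, hw, hw'⟩ ⟨v, hv, hv'⟩ => ⟨w + v, supp_add hw hv, by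
            rw [map_add, hw', hv']; rfl⟩
          neg_mem' := fun {a} ⟨w, hw, hw'⟩ => ⟨-w, supp_neg hw, by rw [map_neg, hw']; rfl⟩ }
      have hcZ : ∀ u, u.length = n → c u ∈ Z := by
        intro u hu
        refine ⟨fun p hp => ?_, hcyc u hu.ge⟩
        obtain ⟨_, h2, h3⟩ := hc u p hp
        have : p.length = r := by omega
        rwa [this] at h2
      let cZ : List (ι → SignType) →₀ Z := Finsupp.onFinset c.support
        (fun u => if h : u.length = n then ⟨c u, hcZ u h⟩ else 0) (by
          intro u hu
          rw [Finsupp.mem_support_iff]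
          intro h0
          apply hu
          by_cases h : u.length = n
          · rw [dif_pos h]
            exact Subtype.ext h0
          · rw [dif_neg h])
      have hcZ1 : ∀ u, u.length = n → (cZ u).1 = c u := by
        intro u hu
        change (if h : u.length = n then (⟨c u, hcZ u h⟩ : Z) else 0).1 = c u
        rw [dif_pos hu]
      have hcZ0 : ∀ u, u.length ≠ n → cZ u = 0 := by
        intro u hu
        change (if h : u.length = n then (⟨c u, hcZ u h⟩ : Z) else 0) = 0
        rw [dif_neg hu]
      let π : Z →+ Z ⧸ Bd := QuotientAddGroup.mk' Bd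
      have hπ : ∀ z, π z = 0 ↔ z ∈ Bd := fun z => QuotientAddGroup.eq_zero_iff z
      have hcn : ∀ u, u.length = n → c u ≠ 0 → Gn f y m n u := by
        intro u hu h0
        obtain ⟨p, hp⟩ := Finsupp.ne_iff.1 h0
        have := (hc u p hp).1
        rwa [hu] at this
      -- the differential of the top component
      have hbd : ∀ u, dA y cZ u ∈ Bd := by
        intro u
        by_cases hu : u.length + 1 = n
        · have h1 : (dA y cZ u).1 = dA y (mR Z.subtype cZ) u := by
            have : mR Z.subtype (dA y cZ) = dA y (mR Z.subtype cZ) := dA_map _ y _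
            rw [← this]
            rfl
          -- compare with `c`
          have h2 : dA y (mR sgn c) u = (-1 : ℤ) ^ r • dA y (mR Z.subtype cZ) u := by
            have h3 : dA y (mR sgn c - (-1 : ℤ) ^ r • mR Z.subtype cZ) u = 0 := by
              by_contra h
              obtain ⟨u2, h4, a, x, z, b', e1, e2, _⟩ := dA_supp y _ u h
              apply h4
              have hlen : u2.length = n := by
                rw [← hu, e1, e2]
                simp only [List.length_append, List.length_cons]
                omega
              rw [Finsupp.sub_apply, Finsupp.smul_apply, mR_apply, mR_apply]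
              have h5 : Z.subtype (cZ u2) = c u2 := hcZ1 u2 hlen
              rw [h5, sgn_of_length (c u2) (n := r), sub_self]
              intro p hp
              have := (hc u2 p hp).2.2
              omega
            rw [map_sub, map_zsmul, Finsupp.sub_apply, Finsupp.smul_apply, sub_eq_zero] at h3
            exact h3
          have h4 := DFunLike.congr_fun hT u
          rw [tT_apply, h2] at h4
          refine ⟨-((-1 : ℤ) ^ r • c u), ?_, ?_⟩
          · refine supp_neg fun p hp => ?_
            have hp' : c u p ≠ 0 := by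
              intro h0
              rw [Finsupp.smul_apply, h0, smul_zero] at hp
              exact hp rfl
            obtain ⟨_, h6, h7⟩ := hc u p hp'
            have : p.length = r + 1 := by omega
            rwa [this] at h6
          · rw [map_neg, map_zsmul, h1]
            have h8 : dP (c u) = -((-1 : ℤ) ^ r • dA y (mR Z.subtype cZ) u) :=
              eq_neg_of_add_eq_zero_left h4
            rw [h8, smul_neg, neg_neg, smul_smul, ← pow_add]
            have h9 : (-1 : ℤ) ^ (r + r) = 1 := Even.neg_one_pow ⟨_, rfl⟩
            rw [h9, one_smul]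
        · have h1 : dA y cZ u = 0 := by
            by_contra h
            obtain ⟨u2, h4, a, x, z, b', e1, e2, _⟩ := dA_supp y _ u h
            apply h4
            apply hcZ0
            intro h5
            apply hu
            rw [← h5, e1, e2]
            simp only [List.length_append, List.length_cons]
            omega
          rw [h1]
          exact Bd.zero_mem
      obtain ⟨η, hη1, hη2⟩ := hR n (by omega) (Z ⧸ Bd) (mR π cZ) (by
        intro u hu
        rw [mR_apply] at hu
        have h0 : cZ u ≠ 0 := fun h => hu (by rw [h, map_zero])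
        have h1 : u.length = n := by
          by_contra h
          exact h0 (hcZ0 u h)
        refine hcn u h1 fun h => h0 (Subtype.ext ?_)
        rw [hcZ1 u h1, h]
        rfl) (by
        have : mR π (dA y cZ) = dA y (mR π cZ) := dA_map _ y _
        rw [← this]
        ext1 u
        rw [mR_apply, (hπ _).2 (hbd u)]
        rfl)
      -- lift
      have hsurj : ∀ q : Z ⧸ Bd, ∃ z : Z, π z = q ∧ (q = 0 → z = 0) := by
        intro q
        by_cases hq : q = 0
        · exact ⟨0, by rw [map_zero, hq], fun _ => rfl⟩
        · obtain ⟨z, hz⟩ := QuotientAddGroup.mk'_surjective Bd q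
          exact ⟨z, hz, fun h => absurd h hq⟩
      choose σ hσ1 hσ2 using hsurj
      let ηZ : List (ι → SignType) →₀ Z := η.mapRange σ (hσ2 0 rfl)
      have hηZ : mR π ηZ = η := by
        ext1 u
        exact hσ1 (η u)
      have hηZ0 : ∀ u, ηZ u ≠ 0 → Gn f y m (n + 1) u := by
        intro u hu
        apply hη1
        intro h
        apply hu
        change σ (η u) = 0
        exact hσ2 _ h
      have hdiff : ∀ u, cZ u - dA y ηZ u ∈ Bd := by
        intro u
        rw [← hπ]
        have h1 : mR π (dA y ηZ) = dA y (mR π ηZ) := dA_map _ y _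
        have h2 : π (dA y ηZ u) = π (cZ u) := by
          have := DFunLike.congr_fun h1 u
          rw [hηZ, hη2] at this
          exact this
        rw [map_sub, h2, sub_self]
      have hw : ∀ u, ∃ w : List (ι → SignType) →₀ M, (∀ p, w p ≠ 0 → IsCh R Iv (r + 1) p) ∧
          dP w = (cZ u - dA y ηZ u).1 ∧ ((cZ u - dA y ηZ u) = 0 → w = 0) := by
        intro u
        by_cases h0 : cZ u - dA y ηZ u = 0
        · refine ⟨0, fun p h => absurd rfl h, ?_, fun _ => rfl⟩
          rw [h0, map_zero]
          rfl
        · obtain ⟨w, h1, h2⟩ := hdiff u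
          exact ⟨w, h1, h2, fun h => absurd h h0⟩
      choose w hw1 hw2 hw3 using hw
      have hsupp : ∀ u, cZ u - dA y ηZ u ≠ 0 → Gn f y m n u := by
        intro u h0
        by_cases h1 : cZ u = 0
        · rw [h1, zero_sub, neg_ne_zero] at h0
          obtain ⟨u2, h2, h3⟩ := dA_supp y _ u h0
          exact (hηZ0 u2 h2).del hy h3
        · have hlen : u.length = n := by
            by_contra h
            exact h1 (hcZ0 u h)
          refine hcn u hlen fun h => h1 (Subtype.ext ?_)
          rw [hcZ1 u hlen, h]
          rfl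
      let e2 : List (ι → SignType) →₀ (List (ι → SignType) →₀ M) :=
        Finsupp.onFinset (cZ - dA y ηZ).support w (by
          intro u hu
          rw [Finsupp.mem_support_iff]
          intro h
          exact hu (hw3 u h))
      let e1 : List (ι → SignType) →₀ (List (ι → SignType) →₀ M) :=
        (-1 : ℤ) ^ r • mR Z.subtype ηZ
      have he1 : tT y e1 = mR Z.subtype (dA y ηZ) := by
        have h1 : mR dP (mR Z.subtype ηZ) = 0 := by
          ext1 u
          exact (ηZ u).2.2
        have h2 : mR sgn (mR Z.subtype ηZ) = (-1 : ℤ) ^ r • mR Z.subtype ηZ := by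
          ext1 u
          exact sgn_of_length _ fun p hp => ((ηZ u).2.1 p hp).2.2
        have h3 : mR Z.subtype (dA y ηZ) = dA y (mR Z.subtype ηZ) := dA_map _ y _
        rw [tT_eq, map_zsmul, h1, smul_zero, zero_add, map_zsmul, h2, smul_smul, ← pow_add,
          show (-1 : ℤ) ^ (r + r) = 1 from Even.neg_one_pow ⟨_, rfl⟩, one_smul, h3]
      refine ⟨e1 + e2, Hd.add ?_ ?_, ?_⟩
      · intro u p hup
        have h1 : (ηZ u).1 p ≠ 0 := by
          intro h
          apply hup
          change ((-1 : ℤ) ^ r • (ηZ u).1) p = 0
          rw [Finsupp.smul_apply, h, smul_zero]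
        have h2 : ηZ u ≠ 0 := by
          intro h
          rw [h] at h1
          exact h1 rfl
        have h3 := hηZ0 u h2
        have h4 := (ηZ u).2.1 p h1
        refine ⟨?_, ?_, ?_⟩
        · rw [h3.2.2]; exact h3
        · rw [h4.2.2]; exact h4
        · rw [h3.2.2, h4.2.2]
          omega
      · intro u p hup
        have h1 : w u p ≠ 0 := hup
        have h2 : cZ u - dA y ηZ u ≠ 0 := by
          intro h
          rw [hw3 u h] at h1
          exact h1 rfl
        have h3 := hsupp u h2
        have h4 := hw1 u p h1
        refine ⟨?_, ?_, ?_⟩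
        · rw [h3.2.2]; exact h3
        · rw [h4.2.2]; exact h4
        · rw [h3.2.2, h4.2.2]
          omega
      · intro u hu
        rw [map_add, Finsupp.add_apply, he1, tT_apply]
        have h1 : dA y (mR sgn e2) u = 0 := by
          apply hup _ (mR sgn e2) (n + 1) _ u (by omega)
          intro u hu
          rw [mR_apply]
          have h2 : e2 u = w u := rfl
          rw [h2, hw3 u, map_zero]
          by_contra h
          have := (hsupp u h).2.2
          omega
        rw [h1, add_zero]
        have h2 : dP (e2 u) = (cZ u - dA y ηZ u).1 := hw2 u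
        have h3 : (cZ u).1 = c u := by
          by_cases hlen : u.length = n
          · exact hcZ1 u hlen
          · rw [hcZ0 u hlen, hn u (by omega)]
            rfl
        rw [h2, mR_apply, ← h3]
        change (dA y ηZ u).1 + ((cZ u).1 - (dA y ηZ u).1) = (cZ u).1
        abel
    · -- the first complex is exact
      have hex : ∀ u, ∃ e : List (ι → SignType) →₀ M, (u.length = n →
          (∀ p, e p ≠ 0 → IsCh R Iv (k - n + 1) p) ∧ dP e = c u) := by
        intro u
        by_cases hu : u.length = n
        · obtain ⟨e, h1, h2⟩ := hE (k - n) hr M (c u) (fun p hp => by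
            obtain ⟨_, h2, h3⟩ := hc u p hp
            have : p.length = k - n := by omega
            rwa [this] at h2) (hcyc u hu.ge)
          exact ⟨e, fun _ => ⟨h1, h2⟩⟩
        · exact ⟨0, fun h => absurd h hu⟩
      choose e he using hex
      let e1 : List (ι → SignType) →₀ (List (ι → SignType) →₀ M) :=
        Finsupp.onFinset c.support (fun u => if u.length = n ∧ c u ≠ 0 then e u else 0) (by
          intro u hu
          rw [Finsupp.mem_support_iff]
          intro h
          apply hu
          rw [if_neg]
          exact fun h2 => h2.2 h)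
      have he1 : ∀ u, e1 u = if u.length = n ∧ c u ≠ 0 then e u else 0 := fun _ => rfl
      refine ⟨e1, ?_, ?_⟩
      · intro u p hup
        rw [he1] at hup
        by_cases hu : u.length = n ∧ c u ≠ 0
        · rw [if_pos hu] at hup
          obtain ⟨q, hq⟩ := Finsupp.ne_iff.1 hu.2
          have h1 := (hc u q hq).1
          have h2 := (he u hu.1).1 p hup
          refine ⟨h1, ?_, ?_⟩
          · rw [h2.2.2]; exact h2
          · rw [h2.2.2, hu.1]
            omega
        · rw [if_neg hu] at hup
          exact absurd rfl hup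
      · intro u hu
        rw [tT_apply]
        have h1 : dA y (mR sgn e1) u = 0 := by
          apply hup _ (mR sgn e1) (n + 1) _ u (by omega)
          intro u hu
          rw [mR_apply, he1, if_neg (fun h => by omega), map_zero]
        rw [h1, add_zero, he1]
        by_cases h2 : u.length = n
        · by_cases h3 : c u = 0
          · rw [if_neg (fun h => h.2 h3), map_zero, h3]
          · rw [if_pos ⟨h2, h3⟩, (he u h2).2]
        · rw [if_neg (fun h => h2 h.1), map_zero, hn u (by omega)]

end kun

end Q161.Mg
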