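import Pool.Agent.Q161.MgG

set_option autoImplicit false

/-!
Lemmas for the main recursion.
-/

namespace Q161.Mg

open Finsupp Module

section lists
variable {X : Type}

lemma split_unique {y : X} {p p' u u' : List X} (h : p ++ y :: u = p' ++ y :: u') (hp : y ∉ p)
    (hp' : y ∉ p') : p = p' ∧ u = u' := by
  rcases List.append_eq_append_iff.1 h with ⟨w, hw, hw'⟩ | ⟨w, hw, hw'⟩
  · rcases w with _ | ⟨w0, w⟩
    · rw [List.append_nil] at hw
      rw [List.nil_append] at hw'
      exact ⟨hw.symm, (List.cons.inj hw').2⟩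
    · rw [List.cons_append] at hw'
      rw [(List.cons.inj hw').1, hw] at hp'
      exact absurd (by simp) hp'
  · rcases w with _ | ⟨w0, w⟩
    · rw [List.append_nil] at hw
      rw [List.nil_append] at hw'
      exact ⟨hw, (List.cons.inj hw').2.symm⟩
    · rw [List.cons_append] at hw'
      rw [(List.cons.inj hw').1, hw] at hp
      exact absurd (by simp) hp

lemma exists_first {P : X → Prop} : ∀ u : List X, (∃ z ∈ u, ¬ P z) →
    ∃ zs s v, u = zs ++ s :: v ∧ (∀ z ∈ zs, P z) ∧ ¬ P s := by
  intro u
  induction u with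
  | nil => rintro ⟨z, hz, _⟩; exact absurd hz List.not_mem_nil
  | cons x t ih =>
    rintro ⟨z, hz, hz'⟩
    by_cases hx : P x
    · obtain ⟨zs, s, v, rfl, h1, h2⟩ := ih ⟨z, by
        rcases List.mem_cons.1 hz with rfl | h
        · exact absurd hx hz'
        · exact h, hz'⟩
      refine ⟨x :: zs, s, v, rfl, fun w hw => ?_, h2⟩
      rcases List.mem_cons.1 hw with rfl | hw
      · exact hx
      · exact h1 w hw
    · exact ⟨[], x, t, rfl, fun w hw => absurd hw List.not_mem_nil, hx⟩

variable {P : X → Prop} [DecidablePred P]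

lemma dw_append {zs w : List X} (h : ∀ z ∈ zs, P z) :
    (zs ++ w).dropWhile (fun z => decide (P z)) = w.dropWhile (fun z => decide (P z)) := by
  induction zs with
  | nil => rfl
  | cons x t ih =>
    rw [List.cons_append, List.dropWhile_cons_of_pos (by simpa using h x (by simp))]
    exact ih fun z hz => h z (List.mem_cons_of_mem _ hz)

lemma dw_eq {zs v : List X} {s : X} (h : ∀ z ∈ zs, P z) (hs : ¬ P s) :
    (zs ++ s :: v).dropWhile (fun z => decide (P z)) = s :: v := by
  rw [dw_append h, List.dropWhile_cons_of_neg (by simpa using hs)]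

lemma tw_eq {zs v : List X} {s : X} (h : ∀ z ∈ zs, P z) (hs : ¬ P s) :
    (zs ++ s :: v).takeWhile (fun z => decide (P z)) = zs := by
  induction zs with
  | nil => rw [List.nil_append, List.takeWhile_cons_of_neg (by simpa using hs)]
  | cons x t ih =>
    rw [List.cons_append, List.takeWhile_cons_of_pos (by simpa using h x (by simp)),
      ih fun z hz => h z (List.mem_cons_of_mem _ hz)]

open Classical in
/-- remove a final `g` -/
noncomputable def rmz (g : X) (zs : List X) : List X :=
  if zs.getLast? = some g then zs.dropLast else zs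

lemma rmz_concat (g : X) (zs : List X) : rmz g (zs ++ [g]) = zs := by
  unfold rmz
  rw [if_pos (by simp), List.dropLast_concat]

lemma rmz_of_lst {y g : X} {zs : List X} (h : lst y zs ≠ g) : rmz g zs = zs := by
  unfold rmz
  rw [if_neg]
  intro h2
  apply h
  rcases List.eq_nil_or_concat zs with rfl | ⟨z0, z1, rfl⟩
  · simp at h2
  · rw [List.concat_eq_append] at h2 ⊢
    rw [lst_concat]
    simpa using h2

lemma rmz_length_le (g : X) (zs : List X) : (rmz g zs).length ≤ zs.length := by
  unfold rmz
  split_ifs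
  · rw [List.length_dropLast]
    omega
  · exact le_rfl

lemma rmz_del {y g : X} {zs zs' : List X} (hd : Del zs zs')
    (hg : ∀ zs0, zs = zs0 ++ [g] → lst y zs0 ≠ g) :
    (rmz g zs').length < (rmz g zs).length ∨ rmz g zs' = rmz g zs := by
  obtain ⟨a, x, b, rfl, rfl⟩ := hd
  by_cases hl : ∃ zs0, a ++ x :: b = zs0 ++ [g]
  · obtain ⟨zs0, h⟩ := hl
    have hne := hg zs0 h
    rw [h, rmz_concat]
    rcases List.eq_nil_or_concat b with rfl | ⟨b0, b1, rfl⟩
    · obtain ⟨rfl, _⟩ := List.append_inj' h rfl
      right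
      rw [List.append_nil, rmz_of_lst hne]
    · rw [List.concat_eq_append] at h ⊢
      left
      have h2 : (a ++ x :: b0) ++ [b1] = zs0 ++ [g] := by
        rw [← h]
        simp
      obtain ⟨h3, h4⟩ := List.append_inj' h2 rfl
      obtain rfl : b1 = g := by simpa using h4
      rw [← List.append_assoc, rmz_concat, ← h3]
      simp only [List.length_append, List.length_cons]
      omega
  · left
    have h1 : rmz g (a ++ x :: b) = a ++ x :: b := by
      unfold rmz
      rw [if_neg]
      intro h2
      rcases List.eq_nil_or_concat (a ++ x :: b) with h3 | ⟨z0, z1, h3⟩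
      · rw [h3] at h2
        simp at h2
      · rw [List.concat_eq_append] at h3
        rw [h3] at h2
        have : z1 = g := by simpa using h2
        subst this
        exact hl ⟨z0, h3⟩
    rw [h1]
    have := rmz_length_le g (a ++ b)
    simp only [List.length_append, List.length_cons] at this ⊢
    omega

end lists

section mult
variable {E : Type} [AddCommGroup E] [Module ℝ E] {ι : Type} {f : ι → Module.Dual ℝ E}

/-- the indicator function of the separating set -/
def ind (D y : ι → SignType) : ι → ℕ := fun i => if D i = y i then 0 else 1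

lemma mu_geo {D y : ι → SignType} {p : List (ι → SignType)} (h : (p ++ [y]).Pairwise (geo D)) :
    mu D (p ++ [y]) = ind D y := by
  induction p generalizing D with
  | nil =>
    rw [List.nil_append, mu, mu, add_zero]
    rfl
  | cons x p ih =>
    rw [List.cons_append, List.pairwise_cons] at h
    rw [List.cons_append, mu, ih (h.2.imp_of_mem fun ha _ hab => geo_inner (h.1 _ ha) hab)]
    funext i
    have hg := h.1 y (by simp) i
    rw [Pi.add_apply]
    unfold ind
    rcases hg with h1 | h1
    · rw [h1, if_pos rfl, zero_add]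
    · rw [h1, if_pos rfl, add_zero]

lemma mu_dec {D y : ι → SignType} {p u : List (ι → SignType)}
    (h : (p ++ [y]).Pairwise (RD D)) : mu D (p ++ y :: u) = ind D y + mu y u := by
  have h1 : p ++ y :: u = (p ++ [y]) ++ u := by simp
  rw [h1, mu_append, lst_concat, mu_geo (h.imp fun h => h.1)]

lemma mu_zero_of {y : ι → SignType} {u : List (ι → SignType)} {i : ι} (h : ∀ z ∈ u, z i = y i) :
    mu y u i = 0 := by
  induction u generalizing y with
  | nil => rfl
  | cons x t ih =>
    have hx : x i = y i := h x (by simp)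
    rw [mu, Pi.add_apply, if_pos hx.symm, zero_add]
    exact ih fun z hz => (h z (List.mem_cons_of_mem _ hz)).trans hx.symm

lemma mu_pos_head {y h : ι → SignType} {t : List (ι → SignType)} {i : ι} (hi : y i ≠ h i) :
    0 < mu y (h :: t) i := by
  rw [mu, Pi.add_apply, if_neg hi]
  omega

/-- elements of a geodesic chain -/
lemma chain_iv {D y : ι → SignType} {p : List (ι → SignType)} (hv : Vl f D p)
    (h : (p ++ [y]).Pairwise (RD D)) : IsCh (RD D) (Iv f D y) p.length p := by
  refine ⟨(List.pairwise_append.1 h).1, fun x hx => ?_, rfl⟩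
  have h1 : RD D x y := (List.pairwise_append.1 h).2.2 x hx y (by simp)
  refine ⟨vl_mem hv x hx, h1.1, ?_, h1.2⟩
  rcases p with _ | ⟨z, t⟩
  · exact absurd hx List.not_mem_nil
  · have hz : z ≠ D := hv.2.1
    rcases List.mem_cons.1 hx with rfl | hx
    · exact hz
    · rintro rfl
      rw [List.cons_append, List.pairwise_cons] at h
      have h2 : geo x z x := (h.1 x (List.mem_append_left _ hx)).1
      apply hz
      funext i
      rcases h2 i with h3 | h3 <;> exact h3

lemma iv_pairwise {D y : ι → SignType} {p : List (ι → SignType)} {k : ℕ}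
    (h : IsCh (RD D) (Iv f D y) k p) : (p ++ [y]).Pairwise (RD D) := by
  rw [List.pairwise_append]
  refine ⟨h.1, List.pairwise_singleton _ _, fun x hx z hz => ?_⟩
  rw [List.mem_singleton] at hz
  subst hz
  exact ⟨(h.2.1 x hx).2.1, (h.2.1 x hx).2.2.2⟩

lemma iv_notMem {D y : ι → SignType} {p : List (ι → SignType)} {k : ℕ}
    (h : IsCh (RD D) (Iv f D y) k p) : y ∉ p := fun hy => (h.2.1 y hy).2.2.2 rfl

lemma iv_vl {D y : ι → SignType} {p : List (ι → SignType)} {k : ℕ}
    (h : IsCh (RD D) (Iv f D y) k p) : Vl f D p := by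
  have key : ∀ (p : List (ι → SignType)) (D' : ι → SignType), p.Pairwise (RD D) →
      (∀ x ∈ p, IsT f x) → (∀ x ∈ p, x ≠ D') → Vl f D' p := by
    intro p
    induction p with
    | nil => intro _ _ _ _; trivial
    | cons x t ih =>
      intro D' h1 h2 h3
      rw [List.pairwise_cons] at h1
      exact ⟨h2 x (by simp), h3 x (by simp), ih x h1.2 (fun z hz => h2 z
        (List.mem_cons_of_mem _ hz)) fun z hz => Ne.symm (h1.1 z hz).2⟩
  exact key p D h.1 (fun x hx => (h.2.1 x hx).1) fun x hx => (h.2.1 x hx).2.2.1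

lemma lst_mem {X : Type} (D : X) (p : List X) : lst D p = D ∨ lst D p ∈ p := by
  induction p generalizing D with
  | nil => exact Or.inl rfl
  | cons x t ih =>
    right
    rcases ih x with h | h
    · change lst x t ∈ _
      rw [h]
      simp
    · exact List.mem_cons_of_mem _ h

/-- gluing -/
lemma gn_glue {D y : ι → SignType} {p u : List (ι → SignType)} {k : ℕ} {lam : ι → ℕ}
    (hy : IsT f y) (hyD : y ≠ D) (h : IsCh (RD D) (Iv f D y) k p) (hu : Vl f y u)
    (hm : ind D y + mu y u = lam) : Gn f D lam (k + 1 + u.length) (p ++ y :: u) := by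
  refine ⟨?_, ?_, ?_⟩
  · rw [vl_append]
    refine ⟨iv_vl h, hy, ?_, hu⟩
    rcases lst_mem D p with h1 | h1
    · rw [h1]
      exact hyD
    · intro h2
      rw [← h2] at h1
      exact iv_notMem h h1
  · rw [mu_dec (iv_pairwise h), hm]
  · rw [List.length_append, List.length_cons, h.2.2]
    omega

lemma gn_dec {D y : ι → SignType} {p u : List (ι → SignType)} {k : ℕ} {lam : ι → ℕ}
    (h : Gn f D lam k (p ++ y :: u)) (hp : (p ++ [y]).Pairwise (RD D)) :
    IsT f y ∧ y ≠ D ∧ IsCh (RD D) (Iv f D y) p.length p ∧ Vl f y u ∧ ind D y + mu y u = lam ∧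
      p.length + 1 + u.length = k := by
  obtain ⟨h1, h2, h3⟩ := h
  rw [vl_append] at h1
  rw [mu_dec hp] at h2
  rw [List.length_append, List.length_cons] at h3
  refine ⟨h1.2.1, ?_, chain_iv h1.1 hp, h1.2.2.2, h2, by omega⟩
  rintro rfl
  rcases p with _ | ⟨z, t⟩
  · exact h1.2.2.1 rfl
  · have hz : z ≠ y := h1.1.2.1
    rw [List.cons_append, List.pairwise_cons] at hp
    have h4 : geo y z y := (hp.1 y (by simp)).1
    apply hz
    funext i
    rcases h4 i with h3 | h3 <;> exact h3

/-- the decomposition when all steps are inside of the separating set -/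
lemma dec_of_inner {D y : ι → SignType} {p u : List (ι → SignType)} {k : ℕ}
    (h : IsCh (RD D) (Iv f D y) k p) (hu : Vl f y u) (hin : ∀ i, 0 < mu y u i → D i ≠ y i) :
    Dec D (p ++ y :: u) p y u := by
  refine ⟨rfl, iv_pairwise h, fun x hx => ?_⟩
  rcases u with _ | ⟨z, t⟩
  · simp at hx
  · rw [List.head?_cons, Option.mem_some_iff] at hx
    subst hx
    intro hg
    apply hu.2.1
    funext i
    by_contra hne
    have h1 := hin i (mu_pos_head (Ne.symm hne))
    rcases hg i with h2 | h2
    · exact h1 h2.symm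
    · exact hne h2.symm

end mult

section kap
variable {E : Type} [AddCommGroup E] [Module ℝ E] {ι : Type} (f : ι → Module.Dual ℝ E)

/-- the rank of a set of forms -/
noncomputable def rk (S : Finset ι) : ℕ := finrank ℝ E - finrank ℝ (NN f S)

/-- the degree of the homology in a multidegree -/
noncomputable def kap [Fintype ι] (lam : ι → ℕ) : ℕ :=
  ∑ j ∈ Finset.range (∑ i, lam i), rk f (Finset.univ.filter fun i => j < lam i)

variable {f}

lemma rk_empty : rk f ∅ = 0 := by
  have h : NN f (∅ : Finset ι) = ⊤ := by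
    unfold NN
    simp
  rw [rk, h, finrank_top, Nat.sub_self]

lemma kap_ext [Fintype ι] (lam : ι → ℕ) (n : ℕ) (hn : ∑ i, lam i ≤ n) :
    kap f lam = ∑ j ∈ Finset.range n, rk f (Finset.univ.filter fun i => j < lam i) := by
  unfold kap
  refine Finset.sum_subset (fun j hj => ?_) fun j _ hj => ?_
  · rw [Finset.mem_range] at hj ⊢
    omega
  · rw [Finset.mem_range, not_lt] at hj
    have h1 : (Finset.univ.filter fun i => j < lam i) = ∅ := by
      apply Finset.filter_eq_empty_iff.2
      intro i _ hi
      have := Finset.single_le_sum (f := lam) (fun i _ => Nat.zero_le _) (Finset.mem_univ i)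
      omega
    rw [h1, rk_empty]

lemma kap_step [Fintype ι] {lam m : ι → ℕ} {D y : ι → SignType} (h : ind D y + m = lam)
    (hs : ∀ i, D i ≠ y i ↔ 0 < lam i) (hne : D ≠ y) :
    kap f lam = rk f (Sp D y) + kap f m ∧ ∑ i, m i < ∑ i, lam i := by
  classical
  have hlt : ∑ i, m i < ∑ i, lam i := by
    apply Finset.sum_lt_sum
    · intro i _
      rw [← h, Pi.add_apply]
      omega
    · obtain ⟨i, hi⟩ := Function.ne_iff.1 hne
      refine ⟨i, Finset.mem_univ _, ?_⟩
      rw [← h, Pi.add_apply]
      unfold ind
      rw [if_neg hi]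
      omega
  refine ⟨?_, hlt⟩
  obtain ⟨n, hn⟩ : ∃ n, ∑ i, lam i = n + 1 := ⟨∑ i, lam i - 1, by omega⟩
  rw [kap_ext m n (by omega)]
  unfold kap
  rw [hn, Finset.sum_range_succ']
  rw [add_comm]
  congr 1
  · congr 1
    ext i
    rw [mem_Sp, Finset.mem_filter, hs]
    simp
  · refine Finset.sum_congr rfl fun j _ => ?_
    congr 1
    ext i
    rw [Finset.mem_filter, Finset.mem_filter, ← h, Pi.add_apply]
    by_cases hi : D i = y i
    · have h0 : lam i = 0 := by
        by_contra h0
        exact (hs i).2 (Nat.pos_of_ne_zero h0) hi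
      have h1 : m i = 0 := by
        have := congrFun h i
        rw [Pi.add_apply] at this
        omega
      unfold ind
      rw [if_pos hi, h1]
      simp
    · unfold ind
      rw [if_neg hi]
      constructor
      · rintro ⟨h1, h2⟩
        exact ⟨h1, by omega⟩
      · rintro ⟨h1, h2⟩
        exact ⟨h1, by omega⟩

lemma rk_pos [Fintype ι] [Module.Finite ℝ E] {D y : ι → SignType} (hD : IsT f D)
    (hne : D ≠ y) : 0 < rk f (Sp D y) := by
  obtain ⟨i, hi⟩ := Function.ne_iff.1 hne
  obtain ⟨hD0, p, hp⟩ := hD
  unfold rk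
  have h1 : finrank ℝ (NN f (Sp D y)) < finrank ℝ E := by
    apply Submodule.finrank_lt
    intro h
    have h2 : p ∈ NN f (Sp D y) := by
      rw [h]
      exact Submodule.mem_top
    have h3 : f i p = 0 := by
      have := (Submodule.mem_iInf _).1 h2 i
      exact (Submodule.mem_iInf _).1 this (mem_Sp.2 hi)
    have h4 := hp i
    rw [h3, sign_zero] at h4
    exact hD0 i h4.symm
  omega

end kap

end Q161.Mg
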