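import Pool.Agent.Q161.MgH

set_option autoImplicit false

/-!
The main recursion: exactness of the magnitude complexes with fixed multidegree.
-/

namespace Q161.Mg

open Finsupp Module

section key
variable {ι : Type}

open Classical in
/-- the decomposition -/
noncomputable def dcp (D : ι → SignType) (l : List (ι → SignType)) :
    List (ι → SignType) × (ι → SignType) × List (ι → SignType) :=
  if h : ∃ q : List (ι → SignType) × (ι → SignType) × List (ι → SignType),
    Dec D l q.1 q.2.1 q.2.2 then h.choose else ([], D, [])

lemma dcp_eq {D : ι → SignType} {l p u : List (ι → SignType)} {y : ι → SignType}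
    (h : Dec D l p y u) : dcp D l = (p, y, u) := by
  have hex : ∃ q : List (ι → SignType) × (ι → SignType) × List (ι → SignType),
      Dec D l q.1 q.2.1 q.2.2 := ⟨(p, y, u), h⟩
  unfold dcp
  rw [dif_pos hex]
  obtain ⟨h1, h2, h3⟩ := Dec.unique hex.choose_spec h
  exact Prod.ext h1 (Prod.ext h2 h3)

/-- the gate -/
def gate (D y s : ι → SignType) : ι → SignType := fun i => if D i = y i then D i else s i

open Classical in
/-- the tail from the first element outside of the star -/
noncomputable def dwl (D y : ι → SignType) (u : List (ι → SignType)) : List (ι → SignType) :=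
  u.dropWhile (fun z => decide (geo D z y))

open Classical in
/-- the list without the gate -/
noncomputable def rmm (D y : ι → SignType) (u : List (ι → SignType)) : List (ι → SignType) :=
  match dwl D y u with
  | [] => u
  | s :: v => rmz (gate D y s) (u.takeWhile (fun z => decide (geo D z y))) ++ s :: v

lemma dwl_eq {D y s : ι → SignType} {zs v : List (ι → SignType)} (h : ∀ z ∈ zs, geo D z y)
    (hs : ¬ geo D s y) : dwl D y (zs ++ s :: v) = s :: v := by
  classical
  exact dw_eq h hs

lemma rmm_eq {D y s : ι → SignType} {zs v : List (ι → SignType)} (h : ∀ z ∈ zs, geo D z y)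
    (hs : ¬ geo D s y) : rmm D y (zs ++ s :: v) = rmz (gate D y s) zs ++ s :: v := by
  classical
  unfold rmm
  rw [dwl_eq h hs]
  simp only
  rw [tw_eq h hs]

lemma dwl_append {D y : ι → SignType} {zs w : List (ι → SignType)} (h : ∀ z ∈ zs, geo D z y) :
    dwl D y (zs ++ w) = dwl D y w := by
  classical
  exact dw_append h

lemma dwl_length_le (D y : ι → SignType) (u : List (ι → SignType)) :
    (dwl D y u).length ≤ u.length := by
  classical
  exact (List.dropWhile_suffix _).length_le

lemma rmm_length_le (D y : ι → SignType) (u : List (ι → SignType)) :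
    (rmm D y u).length ≤ u.length := by
  classical
  unfold rmm
  have h1 : (u.takeWhile (fun z => decide (geo D z y))).length + (dwl D y u).length =
      u.length := by
    have := congrArg List.length (List.takeWhile_append_dropWhile
      (p := fun z => decide (geo D z y)) (l := u))
    rw [List.length_append] at this
    exact this
  rcases h : dwl D y u with _ | ⟨s, v⟩
  · exact le_rfl
  · rw [h] at h1
    have h2 := rmz_length_le (gate D y s) (u.takeWhile (fun z => decide (geo D z y)))
    simp only [List.length_append] at h1 h2 ⊢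
    omega

/-- the measure -/
def ms (N : ℕ) (j : ℕ × ℕ × ℕ × (ι → SignType) × List (ι → SignType) × List (ι → SignType)) :
    ℕ := j.1 * N ^ 2 + j.2.1 * N + j.2.2.1

lemma ms_lt1 {N : ℕ}
    {j j' : ℕ × ℕ × ℕ × (ι → SignType) × List (ι → SignType) × List (ι → SignType)}
    (h : j.1 < j'.1) (h2 : j.2.1 < N) (h3 : j.2.2.1 < N) : ms N j < ms N j' := by
  unfold ms
  nlinarith [Nat.mul_le_mul_right (N ^ 2) (Nat.succ_le_of_lt h), Nat.zero_le (j'.2.1 * N),
    Nat.zero_le j'.2.2.1, Nat.mul_le_mul_right N (Nat.succ_le_of_lt h2)]

lemma ms_lt2 {N : ℕ}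
    {j j' : ℕ × ℕ × ℕ × (ι → SignType) × List (ι → SignType) × List (ι → SignType)}
    (h : j.1 = j'.1) (h2 : j.2.1 < j'.2.1) (h3 : j.2.2.1 < N) : ms N j < ms N j' := by
  unfold ms
  rw [h]
  nlinarith [Nat.mul_le_mul_right N (Nat.succ_le_of_lt h2), Nat.zero_le j'.2.2.1]

lemma ms_lt3 {N : ℕ}
    {j j' : ℕ × ℕ × ℕ × (ι → SignType) × List (ι → SignType) × List (ι → SignType)}
    (h : j.1 = j'.1) (h2 : j.2.1 = j'.2.1) (h3 : j.2.2.1 < j'.2.2.1) : ms N j < ms N j' := by
  unfold ms
  rw [h, h2]
  omega

lemma card_Sp_lt [Fintype ι] {D z y : ι → SignType} (h : RD D z y) :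
    (Sp D z).card < (Sp D y).card := by
  apply Finset.card_lt_card
  refine ⟨fun i hi => ?_, fun h2 => h.2 ?_⟩
  · rw [mem_Sp] at hi ⊢
    rcases h.1 i with h1 | h1
    · exact absurd h1.symm hi
    · rwa [← h1]
  · funext i
    rcases h.1 i with h1 | h1
    · by_contra h3
      have : i ∈ Sp D z := h2 (mem_Sp.2 (by rw [← h1]; exact h3))
      exact mem_Sp.1 this h1.symm
    · exact h1

end key

section blocks
variable {E : Type} [AddCommGroup E] [Module ℝ E] {ι : Type} [Fintype ι]
  (f : ι → Module.Dual ℝ E) (lam : ι → ℕ) (D : ι → SignType)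

/-- the block key for a given decomposition -/
def Full (y : ι → SignType) : Prop := ∀ i, D i ≠ y i ↔ 0 < lam i

open Classical in
/-- the block of a list -/
noncomputable def bet (l : List (ι → SignType)) :
    ℕ × ℕ × ℕ × (ι → SignType) × List (ι → SignType) × List (ι → SignType) :=
  if ¬ Cen f D (dcp D l).2.1 then
    ((Sp D (dcp D l).2.1).card, (dcp D l).2.2.length, 0, (dcp D l).2.1, [], (dcp D l).2.2)
  else if Full lam D (dcp D l).2.1 then
    ((Sp D (dcp D l).2.1).card, 0, 0, (dcp D l).2.1, [], [])
  else ((Sp D (dcp D l).2.1).card, (dwl D (dcp D l).2.1 (dcp D l).2.2).length,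
    ((dcp D l).1 ++ rmm D (dcp D l).2.1 (dcp D l).2.2).length, (dcp D l).2.1, (dcp D l).1,
    rmm D (dcp D l).2.1 (dcp D l).2.2)

variable {f lam D}

lemma bet_a {l p u : List (ι → SignType)} {y : ι → SignType} (h : Dec D l p y u)
    (hc : ¬ Cen f D y) : bet f lam D l = ((Sp D y).card, u.length, 0, y, [], u) := by
  unfold bet
  rw [dcp_eq h, if_pos hc]

lemma bet_c {l p u : List (ι → SignType)} {y : ι → SignType} (h : Dec D l p y u)
    (hc : Cen f D y) (hf : Full lam D y) : bet f lam D l = ((Sp D y).card, 0, 0, y, [], []) := by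
  unfold bet
  rw [dcp_eq h, if_neg (not_not.2 hc), if_pos hf]

lemma bet_b {l p u : List (ι → SignType)} {y : ι → SignType} (h : Dec D l p y u)
    (hc : Cen f D y) (hf : ¬ Full lam D y) : bet f lam D l =
    ((Sp D y).card, (dwl D y u).length, (p ++ rmm D y u).length, y, p, rmm D y u) := by
  unfold bet
  rw [dcp_eq h, if_neg (not_not.2 hc), if_neg hf]

lemma bet_y {l p u : List (ι → SignType)} {y : ι → SignType} (h : Dec D l p y u) :
    (bet f lam D l).2.2.2.1 = y := by
  by_cases hc : Cen f D y
  · by_cases hf : Full lam D y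
    · rw [bet_c h hc hf]
    · rw [bet_b h hc hf]
  · rw [bet_a h hc]

lemma bet_card {l p u : List (ι → SignType)} {y : ι → SignType} (h : Dec D l p y u) :
    (bet f lam D l).1 = (Sp D y).card := by
  by_cases hc : Cen f D y
  · by_cases hf : Full lam D y
    · rw [bet_c h hc hf]
    · rw [bet_b h hc hf]
  · rw [bet_a h hc]

lemma bet_bound {l p u : List (ι → SignType)} {y : ι → SignType} (h : Dec D l p y u) :
    (bet f lam D l).2.1 ≤ l.length ∧ (bet f lam D l).2.2.1 ≤ l.length := by
  have h1 : l.length = p.length + u.length + 1 := by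
    rw [h.1, List.length_append, List.length_cons]
    omega
  by_cases hc : Cen f D y
  · by_cases hf : Full lam D y
    · rw [bet_c h hc hf]
      exact ⟨Nat.zero_le _, Nat.zero_le _⟩
    · rw [bet_b h hc hf]
      have h2 := dwl_length_le D y u
      have h3 := rmm_length_le D y u
      refine ⟨?_, ?_⟩
      · change (dwl D y u).length ≤ _
        omega
      · change (p ++ rmm D y u).length ≤ _
        rw [List.length_append]
        omega
  · rw [bet_a h hc]
    refine ⟨?_, Nat.zero_le _⟩
    change u.length ≤ _
    omega

lemma exists_dec' {l : List (ι → SignType)} {k : ℕ} (h : Gn f D lam k l) (h0 : lam ≠ 0) :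
    ∃ p y u, Dec D l p y u := by
  rcases l with _ | ⟨x, t⟩
  · exact absurd h.2.1.symm h0
  · obtain ⟨p, z, u, h1, _⟩ := exists_dec (f := f) D t x h.1.2.2
    exact ⟨p, z, u, h1⟩

/-- in the gate case some element is outside of the star -/
lemma exists_out {p u : List (ι → SignType)} {y : ι → SignType} {k : ℕ}
    (h : Gn f D lam k (p ++ y :: u)) (hp : (p ++ [y]).Pairwise (RD D)) (hf : ¬ Full lam D y) :
    ∃ zs s v, u = zs ++ s :: v ∧ (∀ z ∈ zs, geo D z y) ∧ ¬ geo D s y := by
  apply exists_first
  by_contra hcon
  push Not at hcon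
  apply hf
  obtain ⟨_, _, _, _, h5, _⟩ := gn_dec h hp
  intro i
  rw [← h5, Pi.add_apply]
  unfold ind
  by_cases hi : D i = y i
  · have h6 : mu y u i = 0 := mu_zero_of fun z hz => by
      rcases hcon z hz i with h7 | h7
      · rw [h7, hi]
      · exact h7
    rw [if_pos hi, h6]
    simp [hi]
  · rw [if_neg hi]
    constructor
    · intro _
      omega
    · intro _
      exact hi

/-- deletions after the star -/
lemma star_del {y s : ι → SignType} {zs v u' : List (ι → SignType)}
    (hd : DG y (zs ++ s :: v) u') :
    (∃ zs', Del zs zs' ∧ u' = zs' ++ s :: v) ∨ ∃ w, u' = zs ++ w ∧ w.length = v.length := by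
  obtain ⟨a, x, z, b, h4, rfl, _⟩ := hd
  rcases List.append_eq_append_iff.1 h4 with ⟨w, hw, hw'⟩ | ⟨w, hw, hw'⟩
  · right
    subst hw
    refine ⟨w ++ z :: b, by rw [List.append_assoc], ?_⟩
    have := congrArg List.length hw'
    simp only [List.length_append, List.length_cons] at this ⊢
    omega
  · rcases w with _ | ⟨w0, w⟩
    · right
      rw [List.append_nil] at hw
      subst hw
      refine ⟨z :: b, rfl, ?_⟩
      have := congrArg List.length hw'
      simp only [List.length_append, List.length_cons, List.length_nil] at this ⊢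
      omega
    · left
      rw [List.cons_append] at hw'
      obtain ⟨rfl, hw''⟩ := List.cons.inj hw'
      subst hw
      refine ⟨a ++ w, ⟨a, x, w, rfl, rfl⟩, ?_⟩
      rw [hw'', List.append_assoc]

/-- the gate is different from the preceding elements -/
lemma gate_ne {y g : ι → SignType} {zs w : List (ι → SignType)} (hv : Vl f y (zs ++ w)) :
    ∀ zs0, zs = zs0 ++ [g] → lst y zs0 ≠ g := by
  rintro zs0 rfl
  rw [vl_append, vl_append] at hv
  exact Ne.symm hv.1.2.2.1

/-- **Deletions do not increase the measure of the block.** -/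
lemma bet_low (h0 : lam ≠ 0) {l l' : List (ι → SignType)} {K N : ℕ} (h : Gn f D lam K l)
    (hK : K < N) (hd : DG D l l') :
    bet f lam D l' = bet f lam D l ∨ ms N (bet f lam D l') < ms N (bet f lam D l) := by
  obtain ⟨p, y, u, hdec⟩ := exists_dec' h h0
  have hlen' : l'.length < N := by
    obtain ⟨a, x, z, b, e1, e2, _⟩ := hd
    have h3 := h.2.2
    rw [e1] at h3
    rw [e2]
    simp only [List.length_append, List.length_cons] at h3 ⊢
    omega
  have hg := h
  rw [hdec.1] at hg
  obtain ⟨hy1, hy2, hch, hu, hmu, hl⟩ := gn_dec hg hdec.2.1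
  rcases hdec.del hd with ⟨p', hp', hdec'⟩ | ⟨p0, z0, rfl, _, _, hz0, hdec'⟩ | ⟨u', hu', hdec'⟩
  · by_cases hc : Cen f D y
    · by_cases hf : Full lam D y
      · left
        rw [bet_c hdec hc hf, bet_c hdec' hc hf]
      · right
        rw [bet_b hdec hc hf, bet_b hdec' hc hf]
        refine ms_lt3 (by rfl) (by rfl) ?_
        change (p' ++ rmm D y u).length < (p ++ rmm D y u).length
        obtain ⟨a, x, b, rfl, rfl⟩ := hp'
        simp only [List.length_append, List.length_cons]
        omega
    · left
      rw [bet_a hdec hc, bet_a hdec' hc]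
  · right
    have hb := bet_bound (f := f) (lam := lam) hdec'
    apply ms_lt1
    · rw [bet_card hdec, bet_card hdec']
      exact card_Sp_lt hz0
    · omega
    · omega
  · by_cases hc : Cen f D y
    · by_cases hf : Full lam D y
      · left
        rw [bet_c hdec hc hf, bet_c hdec' hc hf]
      · obtain ⟨zs, s, v, rfl, hzs, hs⟩ := exists_out hg hdec.2.1 hf
        rcases star_del hu' with ⟨zs', hzs', rfl⟩ | ⟨w, rfl, hw⟩
        · have hzs2 : ∀ z ∈ zs', geo D z y := by
            obtain ⟨a, x, b, rfl, rfl⟩ := hzs'
            intro z hz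
            apply hzs
            rcases List.mem_append.1 hz with h | h
            · exact List.mem_append_left _ h
            · exact List.mem_append_right _ (List.mem_cons_of_mem _ h)
          rw [bet_b hdec hc hf, bet_b hdec' hc hf, dwl_eq hzs hs, dwl_eq hzs2 hs, rmm_eq hzs hs,
            rmm_eq hzs2 hs]
          rcases rmz_del (g := gate D y s) hzs' (gate_ne hu) with h1 | h1
          · right
            refine ms_lt3 (by rfl) (by rfl) ?_
            change (p ++ (rmz (gate D y s) zs' ++ s :: v)).length <
              (p ++ (rmz (gate D y s) zs ++ s :: v)).length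
            simp only [List.length_append]
            omega
          · left
            rw [h1]
        · right
          have hb := bet_bound (f := f) (lam := lam) hdec'
          rw [bet_b hdec hc hf, bet_b hdec' hc hf] at *
          refine ms_lt2 (by rfl) ?_ ?_
          · change (dwl D y (zs ++ w)).length < (dwl D y (zs ++ s :: v)).length
            rw [dwl_append hzs, dwl_eq hzs hs]
            have := dwl_length_le D y w
            rw [List.length_cons]
            omega
          · have := hb.2
            omega
    · right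
      have hb := bet_bound (f := f) (lam := lam) hdec'
      rw [bet_a hdec hc, bet_a hdec' hc] at *
      refine ms_lt2 (by rfl) ?_ ?_
      · change u'.length < u.length
        obtain ⟨a, x, z, b, rfl, rfl, _⟩ := hu'
        simp only [List.length_append, List.length_cons]
        omega
      · have := hb.2
        omega

end blocks

section formulas
variable {ι : Type} {M : Type} [AddCommGroup M]

lemma dd_length {D : ι → SignType} {l : List (ι → SignType)} {m : M}
    {l' : List (ι → SignType)} (h : dd D l m l' ≠ 0) : l.length = l'.length + 1 := by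
  obtain ⟨a, x, z, b, e1, e2, _⟩ := mem_dd D l m l' h
  rw [e1, e2]
  simp only [List.length_append, List.length_cons]
  omega

/-- the differential on a block of the first kind -/
lemma dA_appR {D y : ι → SignType} {u0 : List (ι → SignType)}
    (e : List (ι → SignType) →₀ M)
    (he : ∀ p, e p ≠ 0 → (p ++ [y]).Pairwise (RD D) ∧ y ∉ p) (p1 : List (ι → SignType)) :
    dA D (appR (y :: u0) e) (p1 ++ y :: u0) = -(dP e p1) := by
  have h1 : dA D (appR (y :: u0) e) = ∑ p ∈ e.support, dA D (appR (y :: u0) (single p (e p))) :=
    map_eq_sum ((dA D).comp (appR (y :: u0))) e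
  have h2 : dP e = ∑ p ∈ e.support, dP (single p (e p)) := map_eq_sum dP e
  rw [h1, h2, Finsupp.finsetSum_apply, Finsupp.finsetSum_apply, ← Finset.sum_neg_distrib]
  refine Finset.sum_congr rfl fun p hp => ?_
  obtain ⟨h3, h4⟩ := he p (Finsupp.mem_support_iff.1 hp)
  rw [appR_single, dA_single, dP_single, dd_append D y p u0 _ (h3.imp fun h => h.1),
    Finsupp.add_apply, Finsupp.neg_apply, appR_apply, Finsupp.smul_apply]
  have h5 : appL p (dd (lst D p) (y :: u0) (e p)) (p1 ++ y :: u0) = 0 := by
    by_contra h
    by_cases hex : ∃ w, p1 ++ y :: u0 = p ++ w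
    · obtain ⟨w, hw⟩ := hex
      rw [hw, appL_apply] at h
      have h6 := dd_length h
      rw [List.length_cons] at h6
      have h7 : (p1 ++ [y]) ++ u0 = p ++ w := by
        rw [← hw]
        simp
      obtain ⟨h8, _⟩ := List.append_inj' h7 (by omega)
      apply h4
      rw [← h8]
      simp
    · exact h (mapD_notin _ _ _ fun w hw => hex ⟨w, hw.symm⟩)
  rw [h5, smul_zero, add_zero]

/-- from pairs to lists -/
noncomputable def Lam (y : ι → SignType) :
    (List (ι → SignType) →₀ (List (ι → SignType) →₀ M)) →+ (List (ι → SignType) →₀ M) :=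
  Finsupp.liftAddHom fun u => appR (y :: u)

lemma Lam_single (y : ι → SignType) (u p : List (ι → SignType)) (m : M) :
    Lam y (single u (single p m)) = single (p ++ y :: u) m := by
  unfold Lam
  rw [Finsupp.liftAddHom_apply_single, appR_single]

/-- two additive maps which agree on the singles of the support -/
lemma curry_zero {N : Type} [AddCommGroup N]
    (F : (List (ι → SignType) →₀ (List (ι → SignType) →₀ M)) →+ N)
    (b : List (ι → SignType) →₀ (List (ι → SignType) →₀ M))
    (h : ∀ u p, b u p ≠ 0 → F (single u (single p (b u p))) = 0) : F b = 0 := by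
  have h1 : F b = ∑ u ∈ b.support, F (single u (b u)) := by
    conv_lhs => rw [← Finsupp.sum_single b, Finsupp.sum, map_sum]
  rw [h1]
  refine Finset.sum_eq_zero fun u _ => ?_
  have h2 : F (single u (b u)) = ∑ p ∈ (b u).support, F (single u (single p (b u p))) := by
    conv_lhs => rw [← Finsupp.sum_single (b u), Finsupp.sum]
    rw [← Finsupp.singleAddHom_apply, map_sum, map_sum]
    rfl
  rw [h2]
  exact Finset.sum_eq_zero fun p hp => h u p (Finsupp.mem_support_iff.1 hp)

lemma Lam_apply {y : ι → SignType} (b : List (ι → SignType) →₀ (List (ι → SignType) →₀ M))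
    (hb : ∀ u p, b u p ≠ 0 → y ∉ p) {p1 u1 : List (ι → SignType)} (hp1 : y ∉ p1) :
    Lam y b (p1 ++ y :: u1) = b u1 p1 := by
  have := curry_zero ((Finsupp.applyAddHom (p1 ++ y :: u1)).comp (Lam y) -
    (Finsupp.applyAddHom p1).comp (Finsupp.applyAddHom u1)) b (by
    intro u p hup
    simp only [AddMonoidHom.sub_apply, AddMonoidHom.comp_apply, Finsupp.applyAddHom_apply]
    rw [Lam_single, sub_eq_zero]
    by_cases h : p = p1 ∧ u = u1
    · obtain ⟨rfl, rfl⟩ := h
      rw [Finsupp.single_eq_same, Finsupp.single_eq_same, Finsupp.single_eq_same]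
    · have h1 : p1 ++ y :: u1 ≠ p ++ y :: u := by
        intro h2
        obtain ⟨h3, h4⟩ := split_unique h2 hp1 (hb u p hup)
        exact h ⟨h3.symm, h4.symm⟩
      rw [Finsupp.single_eq_of_ne h1]
      by_cases h2 : u1 = u
      · subst h2
        have h3 : p1 ≠ p := fun h3 => h ⟨h3.symm, rfl⟩
        rw [Finsupp.single_eq_same, Finsupp.single_eq_of_ne h3]
      · rw [Finsupp.single_eq_of_ne h2]
        rfl)
  simp only [AddMonoidHom.sub_apply, AddMonoidHom.comp_apply, Finsupp.applyAddHom_apply] at this
  exact sub_eq_zero.1 this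

/-- the differential on a block of the third kind -/
lemma dA_Lam {E : Type} [AddCommGroup E] [Module ℝ E] {f : ι → Module.Dual ℝ E}
    {D y : ι → SignType} (b : List (ι → SignType) →₀ (List (ι → SignType) →₀ M))
    (hb : ∀ u p, b u p ≠ 0 → y ∉ p ∧ Dec D (p ++ y :: u) p y u ∧ Vl f y u)
    {p1 u1 : List (ι → SignType)} (h1 : Dec D (p1 ++ y :: u1) p1 y u1) (hp1 : y ∉ p1) :
    dA D (Lam y b) (p1 ++ y :: u1) = -(tT y b u1 p1) := by
  let F1 : (List (ι → SignType) →₀ (List (ι → SignType) →₀ M)) →+ M :=
    (Finsupp.applyAddHom (p1 ++ y :: u1)).comp ((dA D).comp (Lam y))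
  let F2 : (List (ι → SignType) →₀ (List (ι → SignType) →₀ M)) →+ M :=
    (Finsupp.applyAddHom p1).comp ((Finsupp.applyAddHom u1).comp (tT y))
  have := curry_zero (F1 + F2) b (by
    intro u p hup
    obtain ⟨hyp, hdec, hv⟩ := hb u p hup
    change dA D (Lam y (single u (single p (b u p)))) (p1 ++ y :: u1) +
      tT y (single u (single p (b u p))) u1 p1 = 0
    set m := b u p with hm
    rw [Lam_single, dA_single, dd_append D y p u _ (hdec.2.1.imp fun h => h.1)]
    -- the right hand side
    have e1 : tT y (single u (single p m)) u1 p1 = (single u (dm p m) : List (ι → SignType) →₀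
        (List (ι → SignType) →₀ M)) u1 p1 +
        (-1 : ℤ) ^ p.length • (single p (dd y u m u1) : List (ι → SignType) →₀ M) p1 := by
      have e2 : mR dP (single u (single p m)) = (single u (dm p m) : List (ι → SignType) →₀
          (List (ι → SignType) →₀ M)) := by
        unfold mR
        simp [dP_single]
      have e3 : mR sgn (single u (single p m)) = (single u ((-1 : ℤ) ^ p.length • single p m) :
          List (ι → SignType) →₀ (List (ι → SignType) →₀ M)) := by
        unfold mR
        simp [sgn_single]
      have e4 : dd y u (single p m : List (ι → SignType) →₀ M) =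
          mR (Finsupp.singleAddHom p) (dd y u m) := (dd_map (Finsupp.singleAddHom p) y u m).symm
      rw [tT_eq, e2, e3, Finsupp.add_apply, Finsupp.add_apply, dA_single, map_zsmul, e4,
        Finsupp.smul_apply, Finsupp.smul_apply, mR_apply]
      rfl
    rw [e1, Finsupp.add_apply, Finsupp.neg_apply, Finsupp.smul_apply]
    -- first term
    have e5 : appR (y :: u) (dm p m) (p1 ++ y :: u1) = (single u (dm p m) :
        List (ι → SignType) →₀ (List (ι → SignType) →₀ M)) u1 p1 := by
      by_cases hu : u1 = u
      · subst hu
        rw [appR_apply, Finsupp.single_eq_same]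
      · rw [Finsupp.single_eq_of_ne hu, Finsupp.zero_apply]
        by_contra h
        by_cases hex : ∃ w, w ++ y :: u = p1 ++ y :: u1
        · obtain ⟨w, hw⟩ := hex
          rw [← hw, appR_apply] at h
          obtain ⟨a, x, b', e6, e7⟩ := mem_dm p m w h
          have hyw : y ∉ w := by
            intro h2
            apply hyp
            rw [e6]
            rw [e7] at h2
            rcases List.mem_append.1 h2 with h3 | h3
            · exact List.mem_append_left _ h3
            · exact List.mem_append_right _ (List.mem_cons_of_mem _ h3)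
          exact hu (split_unique hw hyw hp1).2.symm
        · exact h (mapD_notin _ _ _ fun w hw => hex ⟨w, hw⟩)
    have e6 : appL p (dd (lst D p) (y :: u) m) (p1 ++ y :: u1) =
        -(single p (dd y u m u1) : List (ι → SignType) →₀ M) p1 := by
      classical
      rcases u with _ | ⟨h', t⟩
      · rw [dd_one, map_zero, dd_nil]
        simp
      · rw [dd_cons, map_sub, Finsupp.sub_apply]
        have e7 : appL p (-(if geo (lst D p) y h' then single (h' :: t) m else 0) :
            List (ι → SignType) →₀ M) (p1 ++ y :: u1) = 0 := by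
          by_cases hg : geo (lst D p) y h'
          · rw [if_pos hg, map_neg, appL_single, Finsupp.neg_apply, neg_eq_zero]
            apply Finsupp.single_eq_of_ne
            intro hl
            have hdg : DG D (p ++ y :: h' :: t) (p ++ h' :: t) := ⟨p, y, h', t, rfl, rfl, hg⟩
            rw [← hl] at hdg
            rcases hdec.del hdg with ⟨p', hp', hdec'⟩ | ⟨p0, z0, hp0, _, _, _, hdec'⟩ |
              ⟨u', _, hdec'⟩
            · obtain ⟨q1, _, q3⟩ := Dec.unique h1 hdec'
              rw [q3] at hl
              have h8 : (p1 ++ [y]) ++ h' :: t = p ++ h' :: t := by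
                rw [← hl]
                simp
              have h9 := List.append_cancel_right h8
              apply hyp
              rw [← h9]
              simp
            · obtain ⟨_, q2, _⟩ := Dec.unique h1 hdec'
              apply hyp
              rw [hp0, q2]
              simp
            · obtain ⟨q1, _, q3⟩ := Dec.unique h1 hdec'
              rw [q1] at hl
              have h8 := List.append_cancel_left hl
              have h9 := (List.cons.inj h8).1
              exact hv.2.1 h9.symm
          · rw [if_neg hg, neg_zero, map_zero]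
            rfl
        rw [e7, zero_sub]
        congr 1
        by_cases hpp : p1 = p
        · subst hpp
          rw [appL_apply, consM_apply, Finsupp.single_eq_same]
        · rw [Finsupp.single_eq_of_ne hpp]
          by_contra h
          by_cases hex : ∃ w, p ++ w = p1 ++ y :: u1
          · obtain ⟨w, hw⟩ := hex
            rw [← hw, appL_apply] at h
            rcases w with _ | ⟨w0, w⟩
            · exact h (consM_nil _ _)
            · by_cases hyw : y = w0
              · subst hyw
                exact hpp (split_unique hw hyp hp1).1.symm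
              · exact h (mapD_notin _ _ _ fun a ha => hyw (List.cons.inj ha).1)
          · exact h (mapD_notin _ _ _ fun w hw => hex ⟨w, hw⟩)
    rw [e5, e6, smul_neg]
    abel)
  have this' : dA D (Lam y b) (p1 ++ y :: u1) + tT y b u1 p1 = 0 := this
  exact eq_neg_of_add_eq_zero_left this'

/-- from lists to pairs -/
noncomputable def cur (D : ι → SignType) :
    (List (ι → SignType) →₀ M) →+ (List (ι → SignType) →₀ (List (ι → SignType) →₀ M)) :=
  Finsupp.liftAddHom fun l =>
    (Finsupp.singleAddHom (dcp D l).2.2).comp (Finsupp.singleAddHom (dcp D l).1)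

lemma cur_single (D : ι → SignType) (l : List (ι → SignType)) (m : M) :
    cur D (single l m) = single (dcp D l).2.2 (single (dcp D l).1 m) := by
  unfold cur
  rw [Finsupp.liftAddHom_apply_single]
  rfl

lemma cur_eq (D : ι → SignType) (c : List (ι → SignType) →₀ M) :
    cur D c = ∑ l ∈ c.support, single (dcp D l).2.2 (single (dcp D l).1 (c l)) := by
  conv_lhs => rw [← Finsupp.sum_single c, Finsupp.sum, map_sum]
  exact Finset.sum_congr rfl fun l _ => cur_single D l _

lemma cur_supp (D : ι → SignType) (c : List (ι → SignType) →₀ M) (u p : List (ι → SignType))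
    (h : cur D c u p ≠ 0) : ∃ l, c l ≠ 0 ∧ (dcp D l).2.2 = u ∧ (dcp D l).1 = p := by
  rw [cur_eq, Finsupp.finsetSum_apply, Finsupp.finsetSum_apply] at h
  obtain ⟨l, hl, h1⟩ := Finset.exists_ne_zero_of_sum_ne_zero h
  refine ⟨l, Finsupp.mem_support_iff.1 hl, ?_⟩
  by_cases hu : u = (dcp D l).2.2
  · subst hu
    rw [Finsupp.single_eq_same] at h1
    refine ⟨rfl, ?_⟩
    by_contra hp
    exact h1 (Finsupp.single_eq_of_ne (Ne.symm hp))
  · rw [Finsupp.single_eq_of_ne hu] at h1
    exact absurd rfl h1

lemma Lam_cur {D y : ι → SignType} (c : List (ι → SignType) →₀ M)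
    (h : ∀ l, c l ≠ 0 → (dcp D l).1 ++ y :: (dcp D l).2.2 = l) : Lam y (cur D c) = c := by
  rw [cur_eq, map_sum]
  conv_rhs => rw [← Finsupp.sum_single c, Finsupp.sum]
  refine Finset.sum_congr rfl fun l hl => ?_
  rw [Lam_single, h l (Finsupp.mem_support_iff.1 hl)]

end formulas

end Q161.Mg
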