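import Pool.Agent.Q161.MgI

set_option autoImplicit false

/-!
The main recursion, second part.
-/

namespace Q161.Mg

open Finsupp Module

section hex
variable {E : Type} [AddCommGroup E] [Module ℝ E] {ι : Type} [Fintype ι]
  {f : ι → Module.Dual ℝ E} {lam : ι → ℕ} {D : ι → SignType}

lemma dA_gn {M : Type} [AddCommGroup M] (hD : IsT f D) {k : ℕ} {e : List (ι → SignType) →₀ M}
    (he : ∀ b, e b ≠ 0 → Gn f D lam (k + 1) b) : ∀ b, dA D e b ≠ 0 → Gn f D lam k b := by
  intro b hb
  obtain ⟨l, h1, h2⟩ := dA_supp D e b hb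
  exact (he l h1).del hD h2

lemma Lam_supp {M : Type} [AddCommGroup M] {y : ι → SignType}
    (b : List (ι → SignType) →₀ (List (ι → SignType) →₀ M)) (l : List (ι → SignType))
    (h : Lam y b l ≠ 0) : ∃ u p, b u p ≠ 0 ∧ l = p ++ y :: u := by
  by_contra hcon
  push Not at hcon
  apply h
  have := curry_zero ((Finsupp.applyAddHom l).comp (Lam y)) b (by
    intro u p hup
    change Lam y (single u (single p (b u p))) l = 0
    rw [Lam_single]
    exact Finsupp.single_eq_of_ne (hcon u p hup))
  exact this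

/-- the blocks of the first kind -/
lemma hex_a [DecidableEq ι] [Module.Finite ℝ E] (hD : IsT f D) (h0 : lam ≠ 0) {k : ℕ}
    {M : Type} [AddCommGroup M] {l0 p0 u0 : List (ι → SignType)} {y : ι → SignType}
    (hl0 : Gn f D lam k l0) (hdec0 : Dec D l0 p0 y u0) (hc : ¬ Cen f D y)
    (c : List (ι → SignType) →₀ M)
    (hc1 : ∀ b, c b ≠ 0 → Gn f D lam k b ∧ bet f lam D b = bet f lam D l0)
    (hc2 : ∀ b, bet f lam D b = bet f lam D l0 → dA D c b = 0) :
    ∃ e : List (ι → SignType) →₀ M,
      (∀ b, e b ≠ 0 → Gn f D lam (k + 1) b ∧ bet f lam D b = bet f lam D l0) ∧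
      ∀ b, bet f lam D b = bet f lam D l0 → dA D e b = c b := by
  have hb0 := bet_a (f := f) (lam := lam) hdec0 hc
  have key : ∀ b K, Gn f D lam K b → bet f lam D b = bet f lam D l0 →
      ∃ p, Dec D b p y u0 := by
    intro b K hb hbb
    obtain ⟨p, y', u', hd⟩ := exists_dec' hb h0
    have h1 := bet_y (f := f) (lam := lam) hd
    rw [hbb, hb0] at h1
    obtain rfl : y = y' := h1
    have h2 := bet_a (f := f) (lam := lam) hd hc
    rw [hbb, hb0] at h2
    simp only [Prod.mk.injEq] at h2
    obtain rfl : u0 = u' := h2.2.2.2.2.2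
    exact ⟨p, hd⟩
  have hg := hl0
  rw [hdec0.1] at hg
  obtain ⟨hy, hyD, hch0, hu0, hmu0, hlen0⟩ := gn_dec hg hdec0.2.1
  let c' : List (ι → SignType) →₀ M := c.comapDomain (· ++ y :: u0) (appR_inj _).injOn
  have hc' : ∀ p, c' p = c (p ++ y :: u0) := fun p => Finsupp.comapDomain_apply _ _ _ _
  have hcapp : c = appR (y :: u0) c' := by
    ext b
    by_cases hb : ∃ p, b = p ++ y :: u0
    · obtain ⟨p, rfl⟩ := hb
      rw [appR_apply, hc']
    · rw [appR, Finsupp.mapDomain.addMonoidHom_apply,
        mapD_notin _ _ _ fun p hp => hb ⟨p, hp.symm⟩]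
      by_contra h
      obtain ⟨h1, h2⟩ := hc1 b h
      obtain ⟨p, hp⟩ := key b k h1 h2
      exact hb ⟨p, hp.1⟩
  have hch : ∀ p, c' p ≠ 0 → IsCh (RD D) (Iv f D y) (k - 1 - u0.length) p := by
    intro p hp
    rw [hc'] at hp
    obtain ⟨h1, h2⟩ := hc1 _ hp
    obtain ⟨p2, hp2⟩ := key _ k h1 h2
    have h3 : p = p2 := List.append_cancel_right hp2.1
    subst h3
    obtain ⟨_, _, h4, _, _, h5⟩ := gn_dec h1 hp2.2.1
    have : k - 1 - u0.length = p.length := by omega
    rw [this]
    exact h4
  have hblk : ∀ n p, IsCh (RD D) (Iv f D y) n p → Gn f D lam (n + 1 + u0.length) (p ++ y :: u0) ∧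
      bet f lam D (p ++ y :: u0) = bet f lam D l0 := by
    intro n p hp
    refine ⟨gn_glue hy hyD hp hu0 hmu0, ?_⟩
    rw [bet_a ⟨rfl, iv_pairwise hp, hdec0.2.2⟩ hc, hb0]
  have hdc' : dP c' = 0 := by
    ext p1
    rw [Finsupp.zero_apply]
    by_contra h
    obtain ⟨p, h1, h2⟩ := dP_supp c' p1 h
    have h3 := hch p h1
    have h4 : IsCh (RD D) (Iv f D y) (p1.length + 1) p := by
      obtain ⟨a, x, b, e1, e2⟩ := id h2
      have : p.length = p1.length + 1 := by
        rw [e1, e2]
        simp only [List.length_append, List.length_cons]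
        omega
      exact ⟨h3.1, h3.2.1, this⟩
    have h5 := hc2 _ (hblk _ p1 (h4.del h2)).2
    rw [hcapp, dA_appR c' (fun p hp => ⟨iv_pairwise (hch p hp), iv_notMem (hch p hp)⟩),
      neg_eq_zero] at h5
    exact h h5
  obtain ⟨e', he'1, he'2⟩ := ex_interval hD hy (Ne.symm hyD) (k - 1 - u0.length)
    (fun h => absurd h hc) M c' hch hdc'
  have he1 : ∀ b, (-appR (y :: u0) e') b ≠ 0 → Gn f D lam (k + 1) b ∧
      bet f lam D b = bet f lam D l0 := by
    intro b hb
    rw [Finsupp.neg_apply, neg_ne_zero] at hb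
    by_cases hex : ∃ p, b = p ++ y :: u0
    · obtain ⟨p, rfl⟩ := hex
      rw [appR_apply] at hb
      obtain ⟨h1, h2⟩ := hblk _ p (he'1 p hb)
      have : k - 1 - u0.length + 1 + 1 + u0.length = k + 1 := by omega
      rw [this] at h1
      exact ⟨h1, h2⟩
    · exact absurd (mapD_notin _ _ _ fun p hp => hex ⟨p, hp.symm⟩) hb
  refine ⟨-appR (y :: u0) e', he1, fun b hb => ?_⟩
  by_cases hgb : Gn f D lam k b
  · obtain ⟨p1, hp1⟩ := key b k hgb hb
    rw [hp1.1, map_neg, Finsupp.neg_apply, dA_appR e' (fun p hp => ⟨iv_pairwise (he'1 p hp),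
      iv_notMem (he'1 p hp)⟩), neg_neg, he'2, hc']
  · have h1 : c b = 0 := by
      by_contra h
      exact hgb (hc1 b h).1
    rw [h1]
    by_contra h
    exact hgb (dA_gn hD (fun b hb => (he1 b hb).1) b h)

/-- the blocks of the third kind -/
lemma hex_c [DecidableEq ι] [Module.Finite ℝ E] (hD : IsT f D) (h0 : lam ≠ 0) {k : ℕ}
    (hk : k ≠ kap f lam) {M : Type} [AddCommGroup M] {l0 p0 u0 : List (ι → SignType)}
    {y : ι → SignType} (hl0 : Gn f D lam k l0) (hdec0 : Dec D l0 p0 y u0) (hc : Cen f D y)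
    (hf : Full lam D y)
    (IH : ∀ m : ι → ℕ, ∑ i, m i < ∑ i, lam i → ∀ k', k' ≠ kap f m → ExM f y m k')
    (c : List (ι → SignType) →₀ M)
    (hc1 : ∀ b, c b ≠ 0 → Gn f D lam k b ∧ bet f lam D b = bet f lam D l0)
    (hc2 : ∀ b, bet f lam D b = bet f lam D l0 → dA D c b = 0) :
    ∃ e : List (ι → SignType) →₀ M,
      (∀ b, e b ≠ 0 → Gn f D lam (k + 1) b ∧ bet f lam D b = bet f lam D l0) ∧
      ∀ b, bet f lam D b = bet f lam D l0 → dA D e b = c b := by
  have hb0 := bet_c (f := f) (lam := lam) hdec0 hc hf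
  have hg := hl0
  rw [hdec0.1] at hg
  obtain ⟨hy, hyD, hch0, hu0, hmu0, hlen0⟩ := gn_dec hg hdec0.2.1
  set m := mu y u0 with hm
  have hin : ∀ i, 0 < m i → D i ≠ y i := by
    intro i hi
    rw [hf i, ← hmu0, Pi.add_apply]
    omega
  have key : ∀ b K, Gn f D lam K b → bet f lam D b = bet f lam D l0 →
      ∃ p u, Dec D b p y u ∧ Gn f y m u.length u ∧ IsCh (RD D) (Iv f D y) p.length p ∧
        p.length + 1 + u.length = K := by
    intro b K hb hbb
    obtain ⟨p, y', u', hd⟩ := exists_dec' hb h0
    have h1 := bet_y (f := f) (lam := lam) hd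
    rw [hbb, hb0] at h1
    obtain rfl : y = y' := h1
    have hb' := hb
    rw [hd.1] at hb'
    obtain ⟨_, _, h2, h3, h4, h5⟩ := gn_dec hb' hd.2.1
    refine ⟨p, u', hd, ⟨h3, ?_, rfl⟩, h2, h5⟩
    rw [← hmu0] at h4
    exact add_left_cancel h4
  have hblk : ∀ n n' p u, IsCh (RD D) (Iv f D y) n p → Gn f y m n' u →
      Gn f D lam (n + 1 + n') (p ++ y :: u) ∧ Dec D (p ++ y :: u) p y u ∧
      bet f lam D (p ++ y :: u) = bet f lam D l0 := by
    intro n n' p u hp hu
    have h1 : Dec D (p ++ y :: u) p y u := dec_of_inner hp hu.1 (by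
      rw [hu.2.1]
      exact hin)
    have h2 : Gn f D lam (n + 1 + u.length) (p ++ y :: u) :=
      gn_glue hy hyD hp hu.1 (by rw [hu.2.1]; exact hmu0)
    rw [hu.2.2] at h2
    exact ⟨h2, h1, by rw [bet_c h1 hc hf, hb0]⟩
  have hcur : ∀ l, c l ≠ 0 → ∃ p u, Dec D l p y u ∧ Gn f y m u.length u ∧
      IsCh (RD D) (Iv f D y) p.length p ∧ p.length + 1 + u.length = k :=
    fun l hl => key l k (hc1 l hl).1 (hc1 l hl).2
  have hLam : Lam y (cur D c) = c := Lam_cur c fun l hl => by
    obtain ⟨p, u, h1, _⟩ := hcur l hl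
    rw [dcp_eq h1]
    exact h1.1.symm
  have hHd : Hd f (RD D) (Iv f D y) y m (k - 1) (cur D c) := by
    intro u p hup
    obtain ⟨l, hl, h1, h2⟩ := cur_supp D c u p hup
    obtain ⟨p', u', h3, h4, h5, h6⟩ := hcur l hl
    rw [dcp_eq h3] at h1 h2
    obtain rfl : u' = u := h1
    obtain rfl : p' = p := h2
    exact ⟨h4, h5, by omega⟩
  have hgood : ∀ {kk : ℕ} {b : List (ι → SignType) →₀ (List (ι → SignType) →₀ M)},
      Hd f (RD D) (Iv f D y) y m kk b → ∀ u p, b u p ≠ 0 → y ∉ p ∧ Dec D (p ++ y :: u) p y u ∧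
        Vl f y u := by
    intro kk b hb u p hup
    obtain ⟨h1, h2, _⟩ := hb u p hup
    exact ⟨iv_notMem h2, (hblk _ _ p u h2 h1).2.1, h1.1⟩
  have hT : tT y (cur D c) = 0 := by
    ext u1 p1
    by_contra h
    obtain ⟨h1, h2, h3⟩ := hHd.tT' hy u1 p1 h
    obtain ⟨_, h4, h5⟩ := hblk _ _ p1 u1 h2 h1
    have h6 := hc2 _ h5
    rw [← hLam, dA_Lam (f := f) (cur D c) (hgood hHd) h4 (iv_notMem h2), neg_eq_zero] at h6
    exact h h6
  have hrk := rk_pos (f := f) hD (Ne.symm hyD)
  obtain ⟨hk1, hk2⟩ := kap_step (f := f) hmu0 hf (Ne.symm hyD)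
  have hle : finrank ℝ (NN f (Sp D y)) ≤ finrank ℝ E := Submodule.finrank_le _
  obtain ⟨e', he'1, he'2⟩ := kun (f := f) (R := RD D) (Iv := Iv f D y) hy (m := m)
    (r := rk f (Sp D y) - 1) (κ := kap f m) (fun k' hk' => ex_interval hD hy (Ne.symm hyD) k'
      (fun _ => by
        unfold rk at hrk hk'
        omega)) (IH m hk2) (k := k - 1) (by omega) k (cur D c) hHd hT (by
      intro u hu
      by_contra h
      obtain ⟨p, hp⟩ := Finsupp.ne_iff.1 h
      have := (hHd u p hp).2.2
      omega)
  have hk0 : k - 1 + 1 = k := by omega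
  rw [hk0] at he'1
  have he1 : ∀ b, (-Lam y e') b ≠ 0 → Gn f D lam (k + 1) b ∧
      bet f lam D b = bet f lam D l0 := by
    intro b hb
    rw [Finsupp.neg_apply, neg_ne_zero] at hb
    obtain ⟨u, p, h1, rfl⟩ := Lam_supp e' b hb
    obtain ⟨h2, h3, h4⟩ := he'1 u p h1
    obtain ⟨h5, _, h6⟩ := hblk _ _ p u h3 h2
    have : p.length + 1 + u.length = k + 1 := by omega
    rw [this] at h5
    exact ⟨h5, h6⟩
  refine ⟨-Lam y e', he1, fun b hb => ?_⟩
  by_cases hgb : Gn f D lam k b
  · obtain ⟨p1, u1, h1, _, h3, _⟩ := key b k hgb hb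
    have h1' := h1
    rw [h1.1] at h1'
    rw [h1.1, map_neg, Finsupp.neg_apply, dA_Lam (f := f) e' (hgood he'1) h1' (iv_notMem h3),
      neg_neg, he'2]
    conv_rhs => rw [← hLam]
    exact (Lam_apply (cur D c) (fun u p hup => (hgood hHd u p hup).1) (iv_notMem h3)).symm
  · have h1 : c b = 0 := by
      by_contra h
      exact hgb (hc1 b h).1
    rw [h1]
    by_contra h
    exact hgb (dA_gn hD (fun b hb => (he1 b hb).1) b h)

lemma rmz_cases {X : Type} (g : X) (zs : List X) :
    rmz g zs = zs ∧ zs.getLast? ≠ some g ∨ zs = rmz g zs ++ [g] := by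
  unfold rmz
  by_cases h : zs.getLast? = some g
  · right
    rw [if_pos h]
    rcases List.eq_nil_or_concat zs with rfl | ⟨z0, z1, rfl⟩
    · simp at h
    · rw [List.concat_eq_append] at h ⊢
      have : z1 = g := by simpa using h
      subst this
      rw [List.dropLast_concat]
  · left
    rw [if_neg h]
    exact ⟨rfl, h⟩

lemma gate_isT {y s : ι → SignType} (hD : IsT f D) (hs : IsT f s) (hc : Cen f D y) :
    IsT f (gate D y s) := by
  obtain ⟨p, hp, hp'⟩ := hc
  obtain ⟨hs0, q, hq⟩ := hs
  have haf : ∀ i, IsAff (fun p => f i p) := by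
    intro i p q t
    beta_reduce
    rw [AffineMap.lineMap_apply_module, map_add, map_smul, map_smul, smul_eq_mul, smul_eq_mul]
  obtain ⟨t, _, _, ht⟩ := perturb (a := fun i p => f i p) haf p q
  have ht' : ∀ i, SignType.sign (f i (AffineMap.lineMap p q t)) =
      if SignType.sign (f i p) = 0 then SignType.sign (f i q) else
        SignType.sign (f i p) := fun i => congrFun ht i
  refine ⟨fun i => ?_, AffineMap.lineMap p q t, fun i => ?_⟩
  · unfold gate
    split_ifs
    · exact hD.1 i
    · exact hs0 i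
  · unfold gate
    rw [ht']
    by_cases h : D i = y i
    · rw [if_pos h, hp' i h, if_neg (hD.1 i)]
    · rw [if_neg h, hp i h, sign_zero, if_pos rfl, hq]

/-- the blocks of the second kind -/
lemma hex_b [DecidableEq ι] (hD : IsT f D) (h0 : lam ≠ 0) {k : ℕ}
    {M : Type} [AddCommGroup M] {l0 p0 u0 : List (ι → SignType)}
    {y : ι → SignType} (hl0 : Gn f D lam k l0) (hdec0 : Dec D l0 p0 y u0) (hc : Cen f D y)
    (hf : ¬ Full lam D y) (c : List (ι → SignType) →₀ M)
    (hc1 : ∀ b, c b ≠ 0 → Gn f D lam k b ∧ bet f lam D b = bet f lam D l0)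
    (hc2 : ∀ b, bet f lam D b = bet f lam D l0 → dA D c b = 0) :
    ∃ e : List (ι → SignType) →₀ M,
      (∀ b, e b ≠ 0 → Gn f D lam (k + 1) b ∧ bet f lam D b = bet f lam D l0) ∧
      ∀ b, bet f lam D b = bet f lam D l0 → dA D e b = c b := by
  have hg := hl0
  rw [hdec0.1] at hg
  obtain ⟨hy, hyD, hch0, hu0, hmu0, hlen0⟩ := gn_dec hg hdec0.2.1
  obtain ⟨zs0, s, v, rfl, hzs0, hs⟩ := exists_out hg hdec0.2.1 hf
  set g := gate D y s with hgdef
  set ws := rmz g zs0 with hws
  have hb0 := bet_b (f := f) (lam := lam) hdec0 hc hf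
  rw [dwl_eq hzs0 hs, rmm_eq hzs0 hs] at hb0
  -- the elements of the block
  have key : ∀ b K, Gn f D lam K b → bet f lam D b = bet f lam D l0 →
      b = p0 ++ y :: (ws ++ s :: v) ∨ b = p0 ++ y :: (ws ++ g :: s :: v) := by
    intro b K hb hbb
    obtain ⟨p, y', u', hd⟩ := exists_dec' hb h0
    have h1 := bet_y (f := f) (lam := lam) hd
    rw [hbb, hb0] at h1
    obtain rfl : y = y' := h1
    have hb' := hb
    rw [hd.1] at hb'
    obtain ⟨zs, s', v', rfl, hzs, hs'⟩ := exists_out hb' hd.2.1 hf
    have h2 := bet_b (f := f) (lam := lam) hd hc hf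
    rw [hbb, hb0, dwl_eq hzs hs', rmm_eq hzs hs'] at h2
    simp only [Prod.mk.injEq] at h2
    obtain ⟨_, h3, _, _, h4, h5⟩ := h2
    obtain ⟨h6, h7⟩ := List.append_inj' h5 h3
    obtain ⟨rfl, rfl⟩ := List.cons.inj h7
    subst h4
    rw [← hgdef, ← hws] at h6
    rcases rmz_cases g zs with ⟨h8, _⟩ | h8
    · left
      rw [hd.1, ← h8, ← h6]
    · right
      rw [hd.1, h8, ← h6]
      simp
  have hIsTs : IsT f s := by
    apply vl_mem hu0
    simp
  have hIsTg : IsT f g := gate_isT hD hIsTs hc
  have hws0 : ∀ z ∈ ws, z ∈ zs0 := by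
    intro z hz
    rcases rmz_cases g zs0 with ⟨h8, _⟩ | h8
    · rw [← h8]
      exact hz
    · rw [h8]
      exact List.mem_append_left _ hz
  have hgs : g ≠ s := by
    intro h
    apply hs
    intro i
    by_cases hi : D i = y i
    · left
      rw [← h, hgdef]
      unfold gate
      rw [if_pos hi]
    · exact two_values (hD.1 i) (hy.1 i) (hIsTs.1 i) hi
  -- equality of `y` with the gate
  have hyg : ∀ x, (x = s ∨ x = g) → geo D y x → y = g := by
    intro x hx hgeo
    funext i
    rw [hgdef]
    unfold gate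
    by_cases hi : D i = y i
    · rw [if_pos hi, hi]
    · rw [if_neg hi]
      rcases hgeo i with h | h
      · exact absurd h.symm hi
      · rcases hx with rfl | rfl
        · exact h
        · rw [h, hgdef]
          unfold gate
          rw [if_neg hi]
  have hz : lst y ws ≠ g := by
    rcases rmz_cases g zs0 with ⟨h8, h9⟩ | h8
    · rw [hws, h8]
      rcases List.eq_nil_or_concat zs0 with h10 | ⟨z0, z1, h10⟩
      · rw [h10]
        intro h11
        have h12 : ¬ geo D y s := hdec0.2.2 s (by rw [h10]; simp)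
        apply h12
        have h13 : y = g := h11
        intro i
        by_cases hi : D i = y i
        · exact Or.inl hi.symm
        · right
          have h14 : y i = g i := congrFun h13 i
          rw [h14, hgdef]
          unfold gate
          rw [if_neg hi]
      · rw [List.concat_eq_append] at h10
        rw [h10, lst_concat]
        intro h11
        apply h9
        rw [h10, h11]
        simp
    · exact gate_ne hu0 ws h8
  -- the head condition
  have hhead : ∀ x t, (x = s ∨ x = g) → ∀ h ∈ (ws ++ x :: t).head?, ¬ geo D y h := by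
    intro x t hx h hh hgeo
    rcases hw : ws with _ | ⟨w0, w1⟩
    · rw [hw, List.nil_append, List.head?_cons, Option.mem_some_iff] at hh
      subst hh
      apply hz
      rw [hw]
      exact hyg x hx hgeo
    · rw [hw, List.cons_append, List.head?_cons, Option.mem_some_iff] at hh
      subst hh
      have h2 : w0 ∈ (zs0 ++ s :: v).head? := by
        rcases rmz_cases g zs0 with ⟨h8, _⟩ | h8
        · rw [← hws, hw] at h8
          rw [← h8]
          simp
        · rw [← hws, hw] at h8
          rw [h8]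
          simp
      exact hdec0.2.2 w0 h2 hgeo
  have hdecq : Dec D (p0 ++ y :: (ws ++ s :: v)) p0 y (ws ++ s :: v) :=
    ⟨rfl, hdec0.2.1, hhead s v (Or.inl rfl)⟩
  have hdecq' : Dec D (p0 ++ y :: (ws ++ g :: s :: v)) p0 y (ws ++ g :: s :: v) :=
    ⟨rfl, hdec0.2.1, hhead g (s :: v) (Or.inr rfl)⟩
  have hstar : ∀ z ∈ ws, geo D z y := fun z hz => hzs0 z (hws0 z hz)
  have hgstar : geo D g y := by
    intro i
    rw [hgdef]
    unfold gate
    by_cases hi : D i = y i
    · rw [if_pos hi]
      exact Or.inl rfl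
    · rw [if_neg hi]
      exact two_values (hD.1 i) (hy.1 i) (hIsTs.1 i) hi
  have hbq : bet f lam D (p0 ++ y :: (ws ++ s :: v)) = bet f lam D l0 := by
    rw [bet_b hdecq hc hf, hb0, dwl_eq hstar hs, rmm_eq hstar hs, ← hgdef, rmz_of_lst hz]
  have hbq' : bet f lam D (p0 ++ y :: (ws ++ g :: s :: v)) = bet f lam D l0 := by
    have h1 : ws ++ g :: s :: v = (ws ++ [g]) ++ s :: v := by simp
    have h2 : ∀ z ∈ ws ++ [g], geo D z y := by
      intro z hz
      rcases List.mem_append.1 hz with h | h
      · exact hstar z h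
      · rw [List.mem_singleton] at h
        rw [h]
        exact hgstar
    rw [bet_b hdecq' hc hf, hb0, h1, dwl_eq h2 hs, rmm_eq h2 hs, ← hgdef, rmz_concat]
  -- the deletion of the gate
  set a := p0 ++ y :: ws with ha
  have hq : p0 ++ y :: (ws ++ s :: v) = a ++ s :: v := by rw [ha]; simp
  have hq' : p0 ++ y :: (ws ++ g :: s :: v) = a ++ g :: s :: v := by rw [ha]; simp
  have hlsta : lst D a = lst y ws := by
    rw [ha, lst_append]
    rfl
  have hgeo : geo (lst D a) g s := by
    rw [hlsta]
    intro i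
    rw [hgdef]
    unfold gate
    by_cases hi : D i = y i
    · rw [if_pos hi]
      left
      rcases lst_mem y ws with h | h
      · rw [h, hi]
      · rcases hstar _ h i with h2 | h2
        · exact h2.symm
        · rw [h2, hi]
    · rw [if_neg hi]
      exact Or.inr rfl
  have hdg : DG D (a ++ g :: s :: v) (a ++ s :: v) := ⟨a, g, s, v, rfl, rfl, hgeo⟩
  have hcoef : ∀ m : M, dd D (a ++ g :: s :: v) m (a ++ s :: v) =
      (-1 : ℤ) ^ (a.length + 1) • m := fun m =>
    coef D g s a v m (by rw [hlsta]; exact hz) hgs hgeo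
  rw [hq] at hbq key
  rw [hq'] at hbq' key
  have hlen1 : (a ++ g :: s :: v).length = (a ++ s :: v).length + 1 := by
    simp only [List.length_append, List.length_cons]
    omega
  rcases key l0 k hl0 rfl with h | h
  · -- without the gate
    have hk : (a ++ s :: v).length = k := by
      rw [← h]
      exact hl0.2.2
    have hGq : Gn f D lam k (a ++ s :: v) := h ▸ hl0
    have hGq' : Gn f D lam (k + 1) (a ++ g :: s :: v) := by
      obtain ⟨h1, h2, h3⟩ := hGq
      rw [vl_append] at h1
      refine ⟨?_, ?_, by rw [hlen1, hk]⟩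
      · rw [vl_append]
        exact ⟨h1.1, hIsTg, by rw [hlsta]; exact Ne.symm hz, hIsTs, Ne.symm hgs, h1.2.2.2⟩
      · have h4 : mu (lst D a) (g :: s :: v) = mu (lst D a) (s :: v) := by
          funext i
          simp only [mu, Pi.add_apply]
          rcases hgeo i with h | h
          · rw [h, if_pos rfl, zero_add]
          · rw [h, if_pos rfl, zero_add]
        rw [← h2, mu_append, h4, ← mu_append]
    have hcs : c = single (a ++ s :: v) (c (a ++ s :: v)) := by
      ext b
      by_cases hb : b = a ++ s :: v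
      · rw [hb, Finsupp.single_eq_same]
      · rw [Finsupp.single_eq_of_ne hb]
        by_contra h2
        obtain ⟨h3, h4⟩ := hc1 b h2
        rcases key b k h3 h4 with h5 | h5
        · exact hb h5
        · have := h3.2.2
          rw [h5] at this
          omega
    refine ⟨single (a ++ g :: s :: v) ((-1 : ℤ) ^ (a.length + 1) • c (a ++ s :: v)), ?_, ?_⟩
    · intro b hb
      have : b = a ++ g :: s :: v := by
        by_contra h2
        exact hb (Finsupp.single_eq_of_ne h2)
      subst this
      exact ⟨hGq', hbq'⟩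
    · intro b hb
      by_cases hgb : Gn f D lam k b
      · rcases key b k hgb hb with h5 | h5
        · rw [h5, dA_single, hcoef, smul_smul, ← pow_add,
            show (-1 : ℤ) ^ (a.length + 1 + (a.length + 1)) = 1 from Even.neg_one_pow ⟨_, rfl⟩,
            one_smul]
        · have := hgb.2.2
          rw [h5] at this
          omega
      · have h1 : c b = 0 := by
          by_contra h
          exact hgb (hc1 b h).1
        rw [h1]
        by_contra h2
        rw [dA_single] at h2
        exact hgb (hGq'.del hD (mem_dd _ _ _ _ h2))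
  · -- with the gate
    have hcs : c = single (a ++ g :: s :: v) (c (a ++ g :: s :: v)) := by
      ext b
      by_cases hb : b = a ++ g :: s :: v
      · rw [hb, Finsupp.single_eq_same]
      · rw [Finsupp.single_eq_of_ne hb]
        by_contra h2
        obtain ⟨h3, h4⟩ := hc1 b h2
        rcases key b k h3 h4 with h5 | h5
        · have h6 := h3.2.2
          have h7 := hl0.2.2
          rw [h5] at h6
          rw [h] at h7
          omega
        · exact hb h5
    have h1 := hc2 _ hbq
    rw [hcs, dA_single, hcoef] at h1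
    have h2 : c (a ++ g :: s :: v) = 0 := by
      have h3 := congrArg (fun x => (-1 : ℤ) ^ (a.length + 1) • x) h1
      simp only [smul_smul, ← pow_add, smul_zero] at h3
      rwa [show (-1 : ℤ) ^ (a.length + 1 + (a.length + 1)) = 1 from Even.neg_one_pow ⟨_, rfl⟩,
        one_smul] at h3
    rw [h2, Finsupp.single_zero] at hcs
    refine ⟨0, fun b hb => absurd rfl hb, fun b _ => ?_⟩
    rw [map_zero, hcs]

/-- **The main theorem**: exactness outside of one degree. -/
theorem exM_main [DecidableEq ι] [Module.Finite ℝ E] (n : ℕ) : ∀ (D : ι → SignType)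
    (lam : ι → ℕ), IsT f D → ∑ i, lam i = n → ∀ k, k ≠ kap f lam → ExM f D lam k := by
  induction n using Nat.strong_induction_on with
  | _ n ih =>
    intro D lam hD hn k hk M _ c hc hz
    by_cases h0 : lam = 0
    · -- only the empty list
      subst h0
      have hk0 : kap f (0 : ι → ℕ) = 0 := by
        unfold kap
        simp
      have hc0 : c = 0 := by
        ext l
        by_contra h
        obtain ⟨h1, h2, h3⟩ := hc l h
        have := eq_nil_of_mu h1 h2
        rw [this] at h3
        exact hk (by rw [hk0, ← h3]; rfl)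
      exact ⟨0, fun l hl => absurd rfl hl, by rw [hc0, map_zero]⟩
    · obtain ⟨e, he1, he2⟩ := filt (dA D) (dA_dA D) (Gn f D lam k) (Gn f D lam (k + 1))
        (bet f lam D) (ms (k + 2)) 0 (by
          intro b hb m b' hb'
          rw [dA_single] at hb'
          have hd := mem_dd _ _ _ _ hb'
          rcases hb with hb | hb
          · exact bet_low h0 hb (by omega) hd
          · exact bet_low h0 hb (by omega) hd) (by
          intro b hb m b' hb'
          rw [dA_single] at hb'
          exact hb.del hD (mem_dd _ _ _ _ hb')) (by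
          intro j _ c hc hd
          by_cases hc0 : c = 0
          · refine ⟨0, fun b hb => absurd rfl hb, fun b _ => ?_⟩
            rw [map_zero, hc0]
          · obtain ⟨l0, hl0⟩ := Finsupp.ne_iff.1 hc0
            obtain ⟨hg0, rfl⟩ := hc l0 hl0
            obtain ⟨p, y, u, hdec⟩ := exists_dec' hg0 h0
            by_cases hcen : Cen f D y
            · by_cases hf : Full lam D y
              · have hy : IsT f y := by
                  have h2 := hg0
                  rw [hdec.1] at h2
                  exact (gn_dec h2 hdec.2.1).1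
                exact hex_c hD h0 hk hg0 hdec hcen hf (fun m hm k' hk' => ih _ (by
                  rw [← hn]
                  exact hm) y m hy rfl k' hk') c hc hd
              · exact hex_b hD h0 hg0 hdec hcen hf c hc hd
            · exact hex_a hD h0 hg0 hdec hcen c hc hd) c hc (fun b _ => by rw [hz]; rfl)
      refine ⟨e, he1, ?_⟩
      ext1 b
      exact he2 b (Nat.zero_le _)

end hex

end Q161.Mg
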