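import Pool.Agent.Q161.MgJ
import Pool.Agent.Q138.MagHomDist
import Pool.Agent.Q138.MagHomDefs

set_option autoImplicit false

/-!
No torsion for one first chamber and one multidegree; the complex of all lists; the translation
from tuples of chambers.
-/

namespace Q161.Mg

open Finsupp

section tf
variable {E : Type} [AddCommGroup E] [Module ℝ E] {ι : Type} [Fintype ι]
  {f : ι → Module.Dual ℝ E} [DecidableEq ι] [Module.Finite ℝ E]

/-- no torsion for one first chamber and one multidegree -/
theorem tf_one {D : ι → SignType} {lam : ι → ℕ} (hD : IsT f D) (k : ℕ) (N : ℕ) (hN : N ≠ 0)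
    (c w : List (ι → SignType) →₀ ℤ) (hc : ∀ l, c l ≠ 0 → Gn f D lam k l)
    (hw : ∀ l, w l ≠ 0 → Gn f D lam (k + 1) l) (hcy : dA D c = 0) (hN' : (N : ℤ) • c = dA D w) :
    ∃ v : List (ι → SignType) →₀ ℤ, (∀ l, v l ≠ 0 → Gn f D lam (k + 1) l) ∧ dA D v = c := by
  by_cases hk : k = kap f lam
  · have hk1 : k + 1 ≠ kap f lam := by omega
    have : NeZero N := ⟨hN⟩
    let φ : ℤ →+ ZMod N := Int.castAddHom (ZMod N)
    have h1 : dA D (mapRange.addMonoidHom φ w) = 0 := by
      rw [← dA_map, ← hN']
      ext l
      show φ (((N : ℤ) • c) l) = 0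
      rw [Finsupp.smul_apply, smul_eq_mul]
      show (((N : ℤ) * c l : ℤ) : ZMod N) = 0
      push_cast
      rw [ZMod.natCast_self, zero_mul]
    obtain ⟨u0, hu0, hu1⟩ := exM_main _ D lam hD rfl (k + 1) hk1 (ZMod N) _ (fun l hl => hw l (by
      intro h
      apply hl
      show φ (w l) = 0
      rw [h, map_zero])) h1
    let u : List (ι → SignType) →₀ ℤ := u0.mapRange (fun a : ZMod N => (a.cast : ℤ)) ZMod.cast_zero
    have hu : mapRange.addMonoidHom φ u = u0 := by
      ext l
      show ((((u0 l).cast : ℤ)) : ZMod N) = u0 l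
      exact ZMod.intCast_zmod_cast _
    have hug : ∀ l, u l ≠ 0 → Gn f D lam (k + 2) l := fun l hl => hu0 l (by
      intro h
      apply hl
      show ((u0 l).cast : ℤ) = 0
      rw [h, ZMod.cast_zero])
    set x := w - dA D u with hx
    have hx0 : mapRange.addMonoidHom φ x = 0 := by rw [hx, map_sub, dA_map, hu, hu1, sub_self]
    have hxm : ∀ l, (N : ℤ) ∣ x l := by
      intro l
      rw [← ZMod.intCast_zmod_eq_zero_iff_dvd]
      exact DFunLike.congr_fun hx0 l
    have hxg : ∀ l, x l ≠ 0 → Gn f D lam (k + 1) l := by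
      intro l hl
      by_contra hg
      apply hl
      have e1 : w l = 0 := by
        by_contra h
        exact hg (hw l h)
      have e2 : dA D u l = 0 := by
        by_contra h
        obtain ⟨l1, h1, h2⟩ := dA_supp D u l h
        exact hg ((hug l1 h1).del hD h2)
      rw [hx, Finsupp.sub_apply, e1, e2, sub_zero]
    let v : List (ι → SignType) →₀ ℤ := x.mapRange (fun a => a / N) (by simp)
    have hv : (N : ℤ) • v = x := by
      ext l
      show (N : ℤ) * (x l / N) = x l
      exact Int.mul_ediv_cancel' (hxm l)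
    refine ⟨v, fun l hl => hxg l (by
      intro h
      apply hl
      show x l / N = 0
      rw [h]
      simp), ?_⟩
    have h2 : (N : ℤ) • dA D v = (N : ℤ) • c := by
      rw [← map_zsmul, hv, hx, map_sub, dA_dA, sub_zero, hN']
    ext l
    have h3 := DFunLike.congr_fun h2 l
    simp only [Finsupp.smul_apply, smul_eq_mul] at h3
    exact mul_left_cancel₀ (by exact_mod_cast hN) h3
  · exact exM_main _ D lam hD rfl k hk ℤ c hc hcy

end tf

section grading
variable {B J M : Type} [AddCommGroup M]

open Classical in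
/-- the part of degree `j` -/
noncomputable def fl (g : B → J) (j : J) (c : B →₀ M) : B →₀ M := c.filter fun b => g b = j

lemma fl_pos {g : B → J} {j : J} (c : B →₀ M) {b : B} (h : g b = j) : fl g j c b = c b := by
  classical
  unfold fl
  exact Finsupp.filter_apply_pos (fun b => g b = j) c h

lemma fl_neg {g : B → J} {j : J} (c : B →₀ M) {b : B} (h : g b ≠ j) : fl g j c b = 0 := by
  classical
  unfold fl
  exact Finsupp.filter_apply_neg (fun b => g b = j) c h

lemma fl_zero {g : B → J} {j : J} : fl g j (0 : B →₀ M) = 0 := by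
  ext b
  by_cases h : g b = j
  · rw [fl_pos _ h]
  · rw [fl_neg _ h]
    rfl

/-- an additive map that preserves a grading commutes with the restriction to one degree -/
lemma filter_map (d : (B →₀ M) →+ (B →₀ M)) (g : B → J)
    (hg : ∀ b m b', d (single b m) b' ≠ 0 → g b' = g b) (c : B →₀ M) (j : J) :
    d (fl g j c) = fl g j (d c) := by
  ext b'
  by_cases h : g b' = j
  · rw [fl_pos _ h]
    have h1 : d c = d (fl g j c) + d (c - fl g j c) := by
      rw [← map_add]
      congr 1
      abel
    have h2 : d (c - fl g j c) b' = 0 := by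
      by_contra h2
      obtain ⟨b, hb, m, hm⟩ := exists_of_map_ne d _ b' h2
      have h3 := hg b m b' hm
      apply hb
      rw [Finsupp.sub_apply, fl_pos _ (by rw [← h3]; exact h), sub_self]
    rw [h1, Finsupp.add_apply, h2, add_zero]
  · rw [fl_neg _ h]
    by_contra h2
    obtain ⟨b, hb, m, hm⟩ := exists_of_map_ne d _ b' h2
    have h3 := hg b m b' hm
    apply hb
    exact fl_neg _ (by rw [← h3]; exact h)

open Classical in
/-- solving an equation degree by degree -/
lemma solve (d : (B →₀ M) →+ (B →₀ M)) (g : B → J) (P : B → Prop) (c : B →₀ M)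
    (h : ∀ j, ∃ v : B →₀ M, (∀ b, v b ≠ 0 → P b) ∧ d v = fl g j c) :
    ∃ v : B →₀ M, (∀ b, v b ≠ 0 → P b) ∧ d v = c := by
  choose v hv hv' using h
  refine ⟨∑ j ∈ c.support.image g, v j, ?_, ?_⟩
  · intro b hb
    rw [Finsupp.finsetSum_apply] at hb
    obtain ⟨j, _, hj⟩ := Finset.exists_ne_zero_of_sum_ne_zero hb
    exact hv j b hj
  · rw [map_sum, Finset.sum_congr rfl fun j _ => hv' j]
    ext b
    rw [Finsupp.finsetSum_apply]
    by_cases hb : c b = 0
    · rw [hb]
      apply Finset.sum_eq_zero
      intro j _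
      by_cases hj : g b = j
      · rw [fl_pos _ hj, hb]
      · rw [fl_neg _ hj]
    · rw [Finset.sum_eq_single (g b)]
      · rw [fl_pos _ rfl]
      · intro j _ hj
        exact fl_neg _ (Ne.symm hj)
      · intro h1
        exact absurd (Finset.mem_image_of_mem g (Finsupp.mem_support_iff.2 hb)) h1

end grading

section tot
variable {ι M : Type} [AddCommGroup M]

/-- the differential of one list with its first element -/
noncomputable def dtm : List (ι → SignType) → (M →+ (List (ι → SignType) →₀ M))
  | [] => 0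
  | D :: l => (consM D).comp (dd D l)

/-- the differential of the complex of the lists with their first element -/
noncomputable def dT : (List (ι → SignType) →₀ M) →+ (List (ι → SignType) →₀ M) :=
  Finsupp.liftAddHom dtm

lemma dT_single (l : List (ι → SignType)) (m : M) : dT (single l m) = dtm l m := by
  unfold dT
  rw [Finsupp.liftAddHom_apply_single]

lemma dT_cons (D : ι → SignType) (c : List (ι → SignType) →₀ M) :
    dT (consM D c) = consM D (dA D c) := by
  have : ((dT.comp (consM D)) : (List (ι → SignType) →₀ M) →+ _) = (consM D).comp (dA D) := by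
    refine hom_ext _ _ fun l m => ?_
    simp only [AddMonoidHom.comp_apply]
    rw [consM_single, dT_single, dA_single]
    rfl
  exact DFunLike.congr_fun this c

lemma consM_injective (D : ι → SignType) :
    Function.Injective (consM D : (List (ι → SignType) →₀ M) →+ _) := by
  intro c c' h
  ext l
  have := DFunLike.congr_fun h (D :: l)
  rwa [consM_apply, consM_apply] at this

/-- a chain of lists that all start with `D` -/
lemma exists_consM (D : ι → SignType) (c : List (ι → SignType) →₀ M)
    (h : ∀ l, c l ≠ 0 → ∃ t, l = D :: t) : ∃ c' : List (ι → SignType) →₀ M, consM D c' = c := by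
  refine ⟨Finsupp.comapDomain (D :: ·) c (cons_inj D).injOn, ?_⟩
  ext l
  by_cases hl : ∃ t, l = D :: t
  · obtain ⟨t, rfl⟩ := hl
    rw [consM_apply]
    rfl
  · have h1 : c l = 0 := by
      by_contra h2
      exact hl (h l h2)
    rw [h1]
    exact mapD_notin _ _ _ fun a ha => hl ⟨a, ha.symm⟩

/-- the degree of a list -/
def gr : List (ι → SignType) → Option (ι → SignType) × (ι → ℕ)
  | [] => (none, 0)
  | D :: l => (Option.some D, mu D l)

end tot

section gt
variable {E : Type} [AddCommGroup E] [Module ℝ E] {ι : Type} (f : ι → Module.Dual ℝ E)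

/-- all generators -/
def Gt [Fintype ι] (k n : ℕ) (L : List (ι → SignType)) : Prop :=
  ∃ D l, L = D :: l ∧ IsT f D ∧ Vl f D l ∧ l.length = k ∧ ∑ i, mu D l i = n

variable {f}

lemma mu_del {D : ι → SignType} {l l' : List (ι → SignType)} (hd : DG D l l') :
    mu D l' = mu D l := by
  obtain ⟨a, x, y, b, rfl, rfl, hg⟩ := hd
  rw [mu_append, mu_append, mu, mu, mu]
  rw [← add_assoc (fun i => if lst D a i = x i then 0 else 1)]
  congr 2
  funext i
  simp only [Pi.add_apply]
  rcases hg i with h | h
  · rw [h, if_pos rfl, zero_add]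
  · rw [h, if_pos rfl, add_zero]

lemma gr_dT {M : Type} [AddCommGroup M] (b : List (ι → SignType)) (m : M)
    (b' : List (ι → SignType)) (h : dT (single b m) b' ≠ 0) : gr b' = gr b := by
  rw [dT_single] at h
  rcases b with _ | ⟨D, l⟩
  · exact absurd rfl h
  · by_cases hb' : ∃ t, b' = D :: t
    · obtain ⟨t, rfl⟩ := hb'
      have h1 : consM D (dd D l m) (D :: t) ≠ 0 := h
      rw [consM_apply] at h1
      have h2 := mem_dd D l m t h1
      show (Option.some D, mu D t) = (Option.some D, mu D l)
      rw [mu_del h2]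
    · exact absurd (mapD_notin _ _ _ fun a ha => hb' ⟨a, ha.symm⟩) h

variable [Fintype ι] [DecidableEq ι] [Module.Finite ℝ E]

/-- no torsion in the total complex -/
theorem tf_tot (k n : ℕ) (N : ℕ) (hN : N ≠ 0) (c w : List (ι → SignType) →₀ ℤ)
    (hc : ∀ l, c l ≠ 0 → Gt f k n l) (hw : ∀ l, w l ≠ 0 → Gt f (k + 1) n l) (hcy : dT c = 0)
    (hN' : (N : ℤ) • c = dT w) :
    ∃ v : List (ι → SignType) →₀ ℤ, (∀ l, v l ≠ 0 → Gt f (k + 1) n l) ∧ dT v = c := by
  classical
  refine solve dT gr _ c fun j => ?_
  obtain ⟨D', lam⟩ := j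
  rcases D' with _ | D
  · refine ⟨0, fun b hb => absurd rfl hb, ?_⟩
    rw [map_zero]
    ext b
    by_cases hb : gr b = (none, lam)
    · rw [fl_pos _ hb]
      by_contra h
      obtain ⟨D, l, rfl, _⟩ := hc b (Ne.symm h)
      have := congrArg Prod.fst hb
      exact absurd this (by simp [gr])
    · rw [fl_neg _ hb]
      rfl
  · have hgr : ∀ b, gr b = (Option.some D, lam) → ∃ t, b = D :: t ∧ mu D t = lam := by
      intro b hb
      rcases b with _ | ⟨D', t⟩
      · exact absurd (congrArg Prod.fst hb) (by simp [gr])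
      · have h1 : Option.some D' = Option.some D := congrArg Prod.fst hb
        have h2 : mu D' t = lam := congrArg Prod.snd hb
        obtain rfl := Option.some.inj h1
        exact ⟨t, rfl, h2⟩
    by_cases hc0 : (fl gr (Option.some D, lam) c) = 0
    · exact ⟨0, fun b hb => absurd rfl hb, by rw [hc0, map_zero]⟩
    · have hfil : ∀ (x : List (ι → SignType) →₀ ℤ) b,
          (fl gr (Option.some D, lam) x) b ≠ 0 →
            x b ≠ 0 ∧ gr b = (Option.some D, lam) := by
        intro x b hb
        by_cases h1 : gr b = (Option.some D, lam)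
        · rw [fl_pos _ h1] at hb
          exact ⟨hb, h1⟩
        · rw [fl_neg _ h1] at hb
          exact absurd rfl hb
      obtain ⟨b0, hb0⟩ := Finsupp.ne_iff.1 hc0
      obtain ⟨hb1, hb2⟩ := hfil c b0 hb0
      obtain ⟨t0, rfl, hmu⟩ := hgr b0 hb2
      obtain ⟨D'', l'', he, hD, _, _, hn⟩ := hc _ hb1
      obtain ⟨rfl, rfl⟩ := List.cons.inj he
      rw [hmu] at hn
      obtain ⟨c', hc'⟩ := exists_consM D (fl gr (Option.some D, lam) c)
        fun l hl => (hgr l (hfil c l hl).2).imp fun _ h => h.1
      obtain ⟨w', hw'⟩ := exists_consM D (fl gr (Option.some D, lam) w)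
        fun l hl => (hgr l (hfil w l hl).2).imp fun _ h => h.1
      have hgen : ∀ (x x' : List (ι → SignType) →₀ ℤ) (K : ℕ), (∀ l, x l ≠ 0 → Gt f K n l) →
          consM D x' = (fl gr (Option.some D, lam) x) →
          ∀ l, x' l ≠ 0 → Gn f D lam K l := by
        intro x x' K hx hx' l hl
        rw [← consM_apply D x' l, hx'] at hl
        obtain ⟨h1, h2⟩ := hfil x _ hl
        obtain ⟨t, ht, hm⟩ := hgr _ h2
        obtain ⟨_, rfl⟩ := List.cons.inj ht
        obtain ⟨D1, l1, he1, _, h3, h4, _⟩ := hx _ h1
        obtain ⟨rfl, rfl⟩ := List.cons.inj he1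
        exact ⟨h3, hm, h4⟩
      obtain ⟨v, hv, hv'⟩ := tf_one hD k N hN c' w' (hgen c c' k hc hc')
        (hgen w w' (k + 1) hw hw') (by
          apply consM_injective D
          rw [← dT_cons, hc', filter_map dT gr gr_dT, hcy, map_zero, fl_zero]) (by
          apply consM_injective D
          rw [map_zsmul, ← dT_cons, hc', hw', filter_map dT gr gr_dT, ← hN']
          ext b
          by_cases hb : gr b = (Option.some D, lam)
          · rw [Finsupp.smul_apply, fl_pos _ hb, fl_pos _ hb, Finsupp.smul_apply]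
          · rw [Finsupp.smul_apply, fl_neg _ hb, fl_neg _ hb, smul_zero])
      refine ⟨consM D v, ?_, by rw [dT_cons, hv', hc']⟩
      intro l hl
      by_cases hl' : ∃ t, l = D :: t
      · obtain ⟨t, rfl⟩ := hl'
        rw [consM_apply] at hl
        obtain ⟨h1, h2, h3⟩ := hv t hl
        exact ⟨D, t, rfl, hD, h1, h3, by rw [h2]; exact hn⟩
      · exact absurd (mapD_notin _ _ _ fun a ha => hl' ⟨a, ha.symm⟩) hl

end gt

end Q161.Mg
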