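import Pool.Agent.Q161.MgK

set_option autoImplicit false

/-!
The magnitude complex of the tope graph as a complex of lists of sign vectors; absence of torsion.
-/

namespace Q161.Mg

open Finsupp Q138.TopeMag Q138.MagHom

section tope
variable {d : ℕ} (A : Arrangement d)

/-- the sign vector of a chamber -/
noncomputable def tv (C : A.Chamber) : A.ι → SignType := fun i =>
  if A.toSign C i = true then 1 else -1

lemma tv_two (C : A.Chamber) (i : A.ι) : tv A C i = 1 ∨ tv A C i = -1 := by
  unfold tv
  split_ifs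
  · exact Or.inl rfl
  · exact Or.inr rfl

lemma tv_eq_iff (C D : A.Chamber) (i : A.ι) :
    tv A C i = tv A D i ↔ A.toSign C i = A.toSign D i := by
  unfold tv
  cases A.toSign C i <;> cases A.toSign D i <;> simp

lemma tv_injective : Function.Injective (tv A) := by
  intro C D h
  apply A.toSign_injective
  funext i
  exact (tv_eq_iff A C D i).1 (congrFun h i)

lemma tv_isT (C : A.Chamber) : IsT A.form (tv A C) := by
  refine ⟨fun i => ?_, ?_⟩
  · rcases tv_two A C i with h | h <;> rw [h] <;> decide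
  · obtain ⟨x, hx⟩ := A.realizable_toSign C
    refine ⟨x, fun i => ?_⟩
    unfold tv
    rcases hx i with ⟨h1, h2⟩ | ⟨h1, h2⟩
    · rw [h1, if_pos rfl]
      exact sign_pos h2
    · rw [h1, if_neg (by decide)]
      exact sign_neg h2

lemma exists_tv {x : A.ι → SignType} (hx : IsT A.form x) : ∃ C, tv A C = x := by
  obtain ⟨h1, p, hp⟩ := hx
  obtain ⟨C, hC⟩ := A.exists_chamber (σ := fun i => decide (0 < A.form i p)) (by
    refine ⟨p, fun i => ?_⟩
    rcases lt_trichotomy (A.form i p) 0 with h | h | h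
    · exact Or.inr ⟨by simp [h.le], h⟩
    · exfalso
      apply h1 i
      rw [← hp i, h, sign_zero]
    · exact Or.inl ⟨by simp [h], h⟩)
  refine ⟨C, ?_⟩
  funext i
  unfold tv
  rw [hC, ← hp i]
  rcases lt_trichotomy (A.form i p) 0 with h | h | h
  · rw [sign_neg h]
    simp [h.le]
  · exfalso
    apply h1 i
    rw [← hp i, h, sign_zero]
  · rw [sign_pos h]
    simp [h]

lemma dist_eq (C D : A.Chamber) :
    A.topeGraph.dist C D = ∑ i, if tv A C i = tv A D i then 0 else 1 := by
  classical
  rw [A.dist_eq_sep, A.sep_eq, Finset.card_filter]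
  refine Finset.sum_congr rfl fun i _ => ?_
  by_cases h : A.toSign C i = A.toSign D i
  · rw [if_neg (not_not.2 h), if_pos ((tv_eq_iff A C D i).2 h)]
  · rw [if_pos h, if_neg fun h' => h ((tv_eq_iff A C D i).1 h')]

lemma additive_iff (C X D : A.Chamber) :
    A.topeGraph.dist C D = A.topeGraph.dist C X + A.topeGraph.dist X D ↔
      geo (tv A C) (tv A X) (tv A D) := by
  rw [dist_eq, dist_eq, dist_eq, ← Finset.sum_add_distrib]
  have hle : ∀ i ∈ (Finset.univ : Finset A.ι), (if tv A C i = tv A D i then 0 else 1) ≤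
      ((if tv A C i = tv A X i then 0 else 1) + if tv A X i = tv A D i then 0 else 1) := by
    intro i _
    by_cases h1 : tv A C i = tv A X i
    · rw [h1, if_pos rfl, zero_add]
    · rw [if_neg h1]
      split_ifs <;> omega
  rw [Finset.sum_eq_sum_iff_of_le hle]
  constructor
  · intro h i
    have h1 := h i (Finset.mem_univ i)
    by_cases h2 : tv A X i = tv A C i
    · exact Or.inl h2
    · right
      by_contra h3
      rw [if_neg (Ne.symm h2), if_neg h3] at h1
      split_ifs at h1
      omega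
  · intro h i _
    rcases h i with h1 | h1
    · rw [h1, if_pos rfl, zero_add]
    · rw [h1, if_pos rfl, add_zero]

/-- the list of a tuple -/
noncomputable def Tl {n : ℕ} (x : Fin n → A.Chamber) : List (A.ι → SignType) :=
  List.ofFn fun i => tv A (x i)

lemma Tl_injective (n : ℕ) : Function.Injective (Tl A : (Fin n → A.Chamber) → _) := by
  intro x y h
  have := List.ofFn_injective h
  funext i
  exact tv_injective A (congrFun this i)

lemma Tl_succ {n : ℕ} (x : Fin (n + 1) → A.Chamber) :
    Tl A x = tv A (x 0) :: Tl A fun i => x i.succ := by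
  unfold Tl
  rw [List.ofFn_succ]

lemma exists_Tl : ∀ L : List (A.ι → SignType), (∀ z ∈ L, IsT A.form z) →
    ∃ x : Fin L.length → A.Chamber, Tl A x = L := by
  intro L
  induction L with
  | nil => exact fun _ => ⟨fun i => i.elim0, rfl⟩
  | cons z L ih =>
    intro h
    obtain ⟨x, hx⟩ := ih fun z hz => h z (List.mem_cons_of_mem _ hz)
    obtain ⟨C, hC⟩ := exists_tv A (h z List.mem_cons_self)
    refine ⟨Fin.cons C x, ?_⟩
    rw [Tl_succ, Fin.cons_zero, hC]
    congr 1

lemma gen_iff : ∀ (k : ℕ) (x : Fin (k + 1) → A.Chamber),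
    (Vl A.form (tv A (x 0)) (Tl A fun i => x i.succ) ↔ ∀ i : Fin k, x i.castSucc ≠ x i.succ) ∧
    ∑ i, mu (tv A (x 0)) (Tl A fun i => x i.succ) i =
      ∑ i : Fin k, A.topeGraph.dist (x i.castSucc) (x i.succ) := by
  intro k
  induction k with
  | zero =>
    intro x
    refine ⟨⟨fun _ i => i.elim0, fun _ => trivial⟩, ?_⟩
    have : (Tl A fun i : Fin 0 => x i.succ) = [] := rfl
    rw [this]
    simp [mu]
  | succ k ih =>
    intro x
    obtain ⟨h1, h2⟩ := ih fun i => x i.succ
    rw [Tl_succ]
    constructor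
    · rw [Fin.forall_fin_succ]
      show (IsT A.form (tv A (x (Fin.succ 0))) ∧ tv A (x (Fin.succ 0)) ≠ tv A (x 0) ∧
        Vl A.form (tv A (x (Fin.succ 0))) (Tl A fun i => x i.succ.succ)) ↔ _
      rw [h1]
      constructor
      · rintro ⟨_, h3, h4⟩
        exact ⟨fun h => h3 (congrArg _ h.symm), h4⟩
      · rintro ⟨h3, h4⟩
        exact ⟨tv_isT A _, fun h => h3 (tv_injective A h).symm, h4⟩
    · rw [Fin.sum_univ_succ]
      have h3 : ∀ i, mu (tv A (x 0)) (tv A (x (Fin.succ 0)) :: Tl A fun i => x i.succ.succ) i =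
          (if tv A (x 0) i = tv A (x (Fin.succ 0)) i then 0 else 1) +
            mu (tv A (x (Fin.succ 0))) (Tl A fun i => x i.succ.succ) i := fun _ => rfl
      rw [Finset.sum_congr rfl fun i _ => h3 i, Finset.sum_add_distrib, ← dist_eq]
      congr 1

lemma gt_iff (k n : ℕ) (x : Fin (k + 1) → A.Chamber) :
    Gt A.form k n (Tl A x) ↔ IsGen A.topeGraph k n x := by
  obtain ⟨h1, h2⟩ := gen_iff A k x
  unfold IsGen
  rw [← h1, ← h2]
  constructor
  · rintro ⟨D, l, he, _, h3, _, h4⟩
    rw [Tl_succ] at he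
    obtain ⟨rfl, rfl⟩ := List.cons.inj he
    exact ⟨h3, h4⟩
  · rintro ⟨h3, h4⟩
    exact ⟨_, _, Tl_succ A x, tv_isT A _, h3, by unfold Tl; rw [List.length_ofFn], h4⟩

lemma gt_exists (k n : ℕ) (L : List (A.ι → SignType)) (h : Gt A.form k n L) :
    ∃ x : Fin (k + 1) → A.Chamber, Tl A x = L := by
  obtain ⟨D, l, rfl, h1, h2, h3, _⟩ := h
  have h4 : ∀ z ∈ D :: l, IsT A.form z := by
    intro z hz
    rcases List.mem_cons.1 hz with rfl | hz
    · exact h1
    · exact vl_mem h2 z hz
  obtain ⟨x, hx⟩ := exists_Tl A (D :: l) h4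
  have h5 : ∀ m, (D :: l).length = m → ∃ x : Fin m → A.Chamber, Tl A x = D :: l := by
    rintro m rfl
    exact ⟨x, hx⟩
  exact h5 (k + 1) (by rw [List.length_cons, h3])

open Classical in
/-- the boundary of a tuple, in lists -/
lemma Tl_del : ∀ (k : ℕ) (x : Fin (k + 2) → A.Chamber) (m : ℤ),
    (∑ i : Fin k, if Additive A.topeGraph x i then
      (-1 : ℤ) ^ (i.1 + 1) • single (Tl A (face x i)) m else 0) = dtm (Tl A x) m := by
  intro k
  induction k with
  | zero =>
    intro x m
    rw [Tl_succ, Tl_succ]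
    have : (Tl A fun i : Fin 0 => x i.succ.succ) = [] := rfl
    rw [this]
    show _ = consM (tv A (x 0)) (dd (tv A (x 0)) [tv A (x (Fin.succ 0))] m)
    rw [dd_one, map_zero]
    simp
  | succ k ih =>
    intro x m
    have hL : Tl A x = tv A (x 0) :: tv A (x (Fin.succ 0)) :: tv A (x (Fin.succ (Fin.succ 0))) ::
        Tl A fun i => x i.succ.succ.succ := by
      rw [Tl_succ, Tl_succ, Tl_succ]
    rw [Fin.sum_univ_succ, hL]
    show _ = consM (tv A (x 0)) (dd (tv A (x 0)) (tv A (x (Fin.succ 0)) ::
      tv A (x (Fin.succ (Fin.succ 0))) :: Tl A fun i => x i.succ.succ.succ) m)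
    rw [dd_cons, map_sub, map_neg]
    have e1 : (if Additive A.topeGraph x 0 then
        (-1 : ℤ) ^ ((0 : Fin (k + 1)).1 + 1) • single (Tl A (face x 0)) m else 0) =
        - consM (tv A (x 0)) (if geo (tv A (x 0)) (tv A (x (Fin.succ 0)))
          (tv A (x (Fin.succ (Fin.succ 0)))) then single (tv A (x (Fin.succ (Fin.succ 0))) ::
            Tl A fun i => x i.succ.succ.succ) m else 0) := by
      have h1 : Additive A.topeGraph x 0 ↔ geo (tv A (x 0)) (tv A (x (Fin.succ 0)))
          (tv A (x (Fin.succ (Fin.succ 0)))) := additive_iff A _ _ _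
      by_cases h2 : Additive A.topeGraph x 0
      · rw [if_pos h2, if_pos (h1.1 h2), consM_single]
        have h3 : Tl A (face x 0) = tv A (x 0) :: tv A (x (Fin.succ (Fin.succ 0))) ::
            Tl A fun i => x i.succ.succ.succ := by
          rw [Tl_succ, Tl_succ]
          rfl
        rw [h3]
        simp
      · rw [if_neg h2, if_neg fun h => h2 (h1.2 h), map_zero, neg_zero]
    have e2 : (∑ i : Fin k, if Additive A.topeGraph x i.succ then
        (-1 : ℤ) ^ ((i.succ : Fin (k + 1)).1 + 1) • single (Tl A (face x i.succ)) m else 0) =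
        - consM (tv A (x 0)) (dtm (Tl A fun i => x i.succ) m) := by
      rw [← ih (fun i => x i.succ) m, map_sum, ← Finset.sum_neg_distrib]
      refine Finset.sum_congr rfl fun i _ => ?_
      have h1 : Additive A.topeGraph x i.succ ↔
          Additive A.topeGraph (fun i => x i.succ) i := Iff.rfl
      by_cases h2 : Additive A.topeGraph x i.succ
      · rw [if_pos h2, if_pos (h1.1 h2), map_zsmul, consM_single]
        have h3 : Tl A (face x i.succ) = tv A (x 0) :: Tl A (face (fun i => x i.succ) i) := by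
          rw [Tl_succ]
          have h4 : face x i.succ 0 = x 0 := by
            unfold face
            rw [Fin.succ_succAbove_zero]
          have h5 : (fun j => face x i.succ (Fin.succ j)) = face (fun i => x i.succ) i := by
            funext j
            unfold face
            rw [Fin.succ_succAbove_succ]
            rfl
          rw [h4, h5]
        rw [h3, Fin.val_succ, pow_succ, mul_neg_one, neg_smul]
      · rw [if_neg h2, if_neg fun h => h2 (h1.2 h), map_zero, neg_zero]
    rw [e1, e2, sub_eq_add_neg]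
    congr 2
    rw [Tl_succ, Tl_succ]
    rfl

lemma map_del (k : ℕ) (c : (Fin (k + 2) → A.Chamber) →₀ ℤ) :
    mapDomain (Tl A) (del A.topeGraph k c) = dT (mapDomain (Tl A) c) := by
  classical
  induction c using Finsupp.induction_linear with
  | zero => rw [map_zero, mapDomain_zero, mapDomain_zero, map_zero]
  | add a b ha hb => rw [map_add, mapDomain_add, ha, hb, mapDomain_add, map_add]
  | single x m =>
    rw [mapDomain_single, dT_single, ← Tl_del]
    unfold del
    rw [Finsupp.linearCombination_single, mapDomain_smul]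
    have : mapDomain (Tl A) (∑ i : Fin k, if Additive A.topeGraph x i then
        (-1 : ℤ) ^ (i.1 + 1) • Finsupp.single (face x i) (1 : ℤ) else 0) =
        ∑ i : Fin k, if Additive A.topeGraph x i then
        (-1 : ℤ) ^ (i.1 + 1) • Finsupp.single (Tl A (face x i)) (1 : ℤ) else 0 := by
      rw [mapDomain_finsetSum]
      refine Finset.sum_congr rfl fun i _ => ?_
      split_ifs
      · rw [mapDomain_smul, mapDomain_single]
      · rw [mapDomain_zero]
    rw [this, Finset.smul_sum]
    refine Finset.sum_congr rfl fun i _ => ?_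
    split_ifs
    · rw [smul_comm, Finsupp.smul_single, smul_eq_mul, mul_one]
    · rw [smul_zero]

lemma map_supp (k n : ℕ) (c : (Fin (k + 1) → A.Chamber) →₀ ℤ) (hc : c ∈ MC A.topeGraph k n) :
    ∀ l, mapDomain (Tl A) c l ≠ 0 → Gt A.form k n l := by
  classical
  intro l hl
  obtain ⟨x, hx, rfl⟩ := Finset.mem_image.1 (Finsupp.mapDomain_support (Finsupp.mem_support_iff.2 hl))
  exact (gt_iff A k n x).2 (hc hx)

lemma map_surj (k n : ℕ) (v : List (A.ι → SignType) →₀ ℤ)
    (hv : ∀ l, v l ≠ 0 → Gt A.form k n l) :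
    ∃ c ∈ MC A.topeGraph k n, mapDomain (Tl A) c = v := by
  refine ⟨Finsupp.comapDomain (Tl A) v (Tl_injective A (k + 1)).injOn, ?_, ?_⟩
  · intro x hx
    have h1 : v (Tl A x) ≠ 0 := by
      have h2 := Finsupp.mem_support_iff.1 (Finset.mem_coe.1 hx)
      exact h2
    exact (gt_iff A k n x).1 (hv _ h1)
  · apply Finsupp.mapDomain_comapDomain _ (Tl_injective A (k + 1))
    intro l hl
    obtain ⟨x, hx⟩ := gt_exists A k n l (hv l (Finsupp.mem_support_iff.1 hl))
    exact ⟨x, hx⟩

lemma cyc_dT (k n : ℕ) (c : (Fin (k + 1) → A.Chamber) →₀ ℤ) (hc : c ∈ cycles A.topeGraph k n) :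
    c ∈ MC A.topeGraph k n ∧ dT (mapDomain (Tl A) c) = 0 := by
  rcases k with _ | k
  · refine ⟨hc, ?_⟩
    have : ∀ c : (Fin 1 → A.Chamber) →₀ ℤ, dT (mapDomain (Tl A) c) = 0 := by
      intro c
      induction c using Finsupp.induction_linear with
      | zero => rw [mapDomain_zero, map_zero]
      | add a b ha hb => rw [mapDomain_add, map_add, ha, hb, add_zero]
      | single x m =>
        rw [mapDomain_single, dT_single, Tl_succ]
        have : (Tl A fun i : Fin 0 => x i.succ) = [] := rfl
        rw [this]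
        show consM (tv A (x 0)) (dd (tv A (x 0)) [] m) = 0
        rw [dd_nil, map_zero]
    exact this c
  · obtain ⟨h1, h2⟩ := hc
    refine ⟨h1, ?_⟩
    rw [← map_del, LinearMap.mem_ker.1 h2, mapDomain_zero]

/-- **no torsion** in the magnitude homology of the tope graph -/
theorem torsionFree (k l : ℕ) (n : ℕ) (hn : n ≠ 0) (x : MH A.topeGraph k l) (hx : n • x = 0) :
    x = 0 := by
  classical
  obtain ⟨z, rfl⟩ := Submodule.Quotient.mk_surjective _ x
  rw [← Submodule.Quotient.mk_smul, Submodule.Quotient.mk_eq_zero] at hx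
  rw [Submodule.Quotient.mk_eq_zero]
  obtain ⟨w, hw, hw'⟩ := hx
  obtain ⟨h1, h2⟩ := cyc_dT A k l z.1 z.2
  obtain ⟨v, hv, hv'⟩ := tf_tot (f := A.form) k l n hn (mapDomain (Tl A) z.1)
    (mapDomain (Tl A) w) (map_supp A k l _ h1) (map_supp A (k + 1) l _ hw) h2 (by
      rw [← map_del, hw', ← mapDomain_smul, natCast_zsmul]
      rfl)
  obtain ⟨u, hu, hu'⟩ := map_surj A (k + 1) l v hv
  refine ⟨u, hu, ?_⟩
  apply Finsupp.mapDomain_injective (Tl_injective A (k + 1))
  rw [map_del, hu', hv']
  rfl

end tope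

end Q161.Mg
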