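import Pool.Agent.Q161.MgH

set_option autoImplicit false

/-!
Counting sign vectors: the cut lemma, the Euler relation and the weighting identity.
-/

namespace Q161.Mg

open Module

section pert
variable {E : Type} [AddCommGroup E] [Module ℝ E] {ι : Type} {f : ι → Module.Dual ℝ E}

lemma sign_add_of_abs_lt {x y : ℝ} (h : |y| < |x|) : SignType.sign (x + y) = SignType.sign x := by
  rcases lt_trichotomy x 0 with hx | hx | hx
  · rw [abs_of_neg hx] at h
    have := (abs_lt.1 h).2
    rw [sign_neg hx, sign_neg (by linarith)]
  · rw [hx, abs_zero] at h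
    exact absurd h (not_lt.2 (abs_nonneg _))
  · rw [abs_of_pos hx] at h
    have := (abs_lt.1 h).1
    rw [sign_pos hx, sign_pos (by linarith)]

/-- small perturbations along the kernel of the vanishing forms -/
lemma pert (T : Finset ι) (q v : E) (σ : ι → SignType)
    (hq : ∀ j ∈ T, SignType.sign (f j q) = σ j) (hv : ∀ j ∈ T, σ j = 0 → f j v = 0) :
    ∃ ε : ℝ, 0 < ε ∧ ∀ t : ℝ, |t| ≤ ε → ∀ j ∈ T, SignType.sign (f j (q + t • v)) = σ j := by
  classical
  induction T using Finset.induction_on with
  | empty => exact ⟨1, one_pos, fun t _ j hj => absurd hj (Finset.notMem_empty j)⟩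
  | insert a T ha ih =>
    obtain ⟨ε, hε, h⟩ := ih (fun j hj => hq j (Finset.mem_insert_of_mem hj))
      (fun j hj => hv j (Finset.mem_insert_of_mem hj))
    have h1 := hq a (Finset.mem_insert_self a T)
    by_cases h0 : σ a = 0
    · refine ⟨ε, hε, fun t ht j hj => ?_⟩
      rcases Finset.mem_insert.1 hj with rfl | hj
      · rw [map_add, map_smul, hv j (Finset.mem_insert_self j T) h0, smul_zero, add_zero, h1]
      · exact h t ht j hj
    · have hne : f a q ≠ 0 := by
        intro h2
        rw [h2, sign_zero] at h1
        exact h0 h1.symm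
      have hpos : 0 < |f a q| := abs_pos.2 hne
      refine ⟨min ε (|f a q| / (|f a v| + 1) / 2), lt_min hε (by positivity),
        fun t ht j hj => ?_⟩
      rcases Finset.mem_insert.1 hj with rfl | hj
      · rw [map_add, map_smul, smul_eq_mul, sign_add_of_abs_lt, h1]
        rw [abs_mul]
        have h3 : |t| ≤ |f j q| / (|f j v| + 1) / 2 := ht.trans (min_le_right _ _)
        have h4 : 0 < |f j v| + 1 := by positivity
        calc |t| * |f j v| ≤ |f j q| / (|f j v| + 1) / 2 * (|f j v| + 1) := by
              apply mul_le_mul h3 (by linarith) (abs_nonneg _) (by positivity)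
          _ = |f j q| / 2 := by field_simp
          _ < |f j q| := by linarith
      · exact h t (ht.trans (min_le_left _ _)) j hj

lemma mem_NN {S : Finset ι} {v : E} : v ∈ NN f S ↔ ∀ i ∈ S, f i v = 0 := by
  unfold NN
  simp only [Submodule.mem_iInf, LinearMap.mem_ker]

variable [DecidableEq ι]

lemma NN_insert (S : Finset ι) (i : ι) : NN f (insert i S) = NN f S ⊓ LinearMap.ker (f i) := by
  ext v
  rw [Submodule.mem_inf, mem_NN, mem_NN, LinearMap.mem_ker]
  simp only [Finset.mem_insert, forall_eq_or_imp]
  exact and_comm

lemma rk_insert_same {S : Finset ι} {i : ι} (h : ∀ v ∈ NN f S, f i v = 0) :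
    rk f (insert i S) = rk f S := by
  have : NN f (insert i S) = NN f S := by
    rw [NN_insert]
    exact inf_eq_left.2 fun v hv => h v hv
  unfold rk
  rw [this]

variable [Module.Finite ℝ E]

lemma rk_insert_succ {S : Finset ι} {i : ι} {v : E} (hv : v ∈ NN f S) (h : f i v ≠ 0) :
    rk f (insert i S) = rk f S + 1 := by
  have h1 : finrank ℝ (NN f (insert i S)) + 1 = finrank ℝ (NN f S) := by
    have hr : LinearMap.range ((f i).domRestrict (NN f S)) = ⊤ := by
      apply LinearMap.range_eq_top.2
      intro x
      refine ⟨(x / f i v) • ⟨v, hv⟩, ?_⟩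
      rw [map_smul, LinearMap.domRestrict_apply, smul_eq_mul]
      field_simp
    have h2 := LinearMap.finrank_range_add_finrank_ker ((f i).domRestrict (NN f S))
    rw [hr, finrank_top, Module.finrank_self] at h2
    have h3 : finrank ℝ (LinearMap.ker ((f i).domRestrict (NN f S))) =
        finrank ℝ (NN f (insert i S)) := by
      rw [NN_insert]
      have h4 : LinearMap.ker ((f i).domRestrict (NN f S)) =
          (LinearMap.ker (f i)).submoduleOf (NN f S) := by
        ext x
        rfl
      rw [h4]
      have h5 : (LinearMap.ker (f i)).submoduleOf (NN f S) =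
          (NN f S ⊓ LinearMap.ker (f i)).submoduleOf (NN f S) := by
        ext x
        simp [Submodule.submoduleOf]
      rw [h5]
      exact LinearEquiv.finrank_eq (Submodule.submoduleOfEquivOfLe inf_le_left)
    rw [h3] at h2
    omega
  have h2 : finrank ℝ (NN f S) ≤ finrank ℝ E := Submodule.finrank_le _
  unfold rk
  omega

end pert

open Classical in
/-- the indicator of a proposition -/
noncomputable def ib (P : Prop) : ℤ := if P then 1 else 0

lemma ib_pos {P : Prop} (h : P) : ib P = 1 := by
  unfold ib
  exact if_pos h

lemma ib_neg {P : Prop} (h : ¬ P) : ib P = 0 := by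
  unfold ib
  exact if_neg h

lemma ib_congr {P Q : Prop} (h : P ↔ Q) : ib P = ib Q := by
  rw [propext h]

section cut
variable {E : Type} [AddCommGroup E] [Module ℝ E] {ι : Type} (f : ι → Module.Dual ℝ E)

/-- the signs `σ` are realized on `T` -/
def Rz (σ : ι → SignType) (T : Finset ι) : Prop := ∃ p : E, ∀ j ∈ T, SignType.sign (f j p) = σ j

/-- the signs `σ` on `T` and the sign `s` at `i` are realized -/
def Rzi (σ : ι → SignType) (T : Finset ι) (i : ι) (s : SignType) : Prop :=
  ∃ p : E, (∀ j ∈ T, SignType.sign (f j p) = σ j) ∧ SignType.sign (f i p) = s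

variable {f}

/-- a segment between realizations is realized -/
lemma seg {T : Finset ι} {σ : ι → SignType} {p q : E}
    (hp : ∀ j ∈ T, SignType.sign (f j p) = σ j) (hq : ∀ j ∈ T, SignType.sign (f j q) = σ j)
    {a b : ℝ} (ha : 0 < a) (hb : 0 < b) :
    ∀ j ∈ T, SignType.sign (f j (a • p + b • q)) = σ j := by
  intro j hj
  have h1 := hp j hj
  have h2 := hq j hj
  rw [map_add, map_smul, map_smul, smul_eq_mul, smul_eq_mul]
  rcases lt_trichotomy (f j p) 0 with h | h | h
  · rw [sign_neg h] at h1
    rw [← h1] at h2 ⊢
    have h3 := sign_eq_neg_one_iff.1 h2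
    exact sign_neg (by nlinarith)
  · rw [h, sign_zero] at h1
    rw [← h1] at h2 ⊢
    rw [h, sign_eq_zero_iff.1 h2]
    simp
  · rw [sign_pos h] at h1
    rw [← h1] at h2 ⊢
    have h3 := sign_eq_one_iff.1 h2
    exact sign_pos (by positivity)

/-- **the cut lemma** -/
lemma cut [DecidableEq ι] [Module.Finite ℝ E] {T U : Finset ι} {σ : ι → SignType}
    (hU : ∀ j, j ∈ U ↔ j ∈ T ∧ σ j = 0) (i : ι) (s : SignType) (hs : s ≠ 0) :
    (-1 : ℤ) ^ rk f U * ib (Rzi f σ T i s) +
      (-1 : ℤ) ^ rk f (insert i U) * ib (Rzi f σ T i 0) +
      (-1 : ℤ) ^ rk f U * ib (Rzi f σ T i (-s)) =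
      (-1 : ℤ) ^ rk f U * ib (Rz f σ T) := by
  have hs' : -s ≠ 0 := by
    intro h
    apply hs
    cases s <;> first | rfl | exact absurd h (by decide)
  have hUm : ∀ {p : E}, (∀ j ∈ T, SignType.sign (f j p) = σ j) → p ∈ NN f U := by
    intro p hp
    rw [mem_NN]
    intro j hj
    obtain ⟨h1, h2⟩ := (hU j).1 hj
    have := hp j h1
    rw [h2] at this
    exact sign_eq_zero_iff.1 this
  by_cases hR : Rz f σ T
  · by_cases hv : ∀ v ∈ NN f U, f i v = 0
    · -- the form vanishes on the span
      rw [rk_insert_same hv]
      have h1 : ¬ Rzi f σ T i s := by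
        rintro ⟨p, hp, hp'⟩
        rw [hv p (hUm hp), sign_zero] at hp'
        exact hs hp'.symm
      have h2 : ¬ Rzi f σ T i (-s) := by
        rintro ⟨p, hp, hp'⟩
        rw [hv p (hUm hp), sign_zero] at hp'
        exact hs' hp'.symm
      have h3 : Rzi f σ T i 0 := by
        obtain ⟨p, hp⟩ := hR
        exact ⟨p, hp, by rw [hv p (hUm hp), sign_zero]⟩
      rw [ib_neg h1, ib_neg h2, ib_pos h3, ib_pos hR]
      ring
    · push Not at hv
      obtain ⟨v, hv, hvi⟩ := hv
      rw [rk_insert_succ hv hvi]
      -- all signs are realized when the sign zero is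
      have hall : Rzi f σ T i 0 → ∀ s', Rzi f σ T i s' := by
        rintro ⟨q, hq, hq0⟩ s'
        have hq0' : f i q = 0 := sign_eq_zero_iff.1 hq0
        obtain ⟨ε, hε, h⟩ := pert T q v σ hq fun j hj h0 => (mem_NN.1 hv) j ((hU j).2 ⟨hj, h0⟩)
        obtain ⟨t, ht, ht'⟩ : ∃ t : ℝ, |t| ≤ ε ∧ SignType.sign (t * f i v) = s' := by
          rcases lt_or_gt_of_ne hvi with hlt | hlt
          · cases s' with
            | zero => exact ⟨0, by rw [abs_zero]; exact hε.le, by rw [zero_mul, sign_zero]; rfl⟩
            | neg => exact ⟨ε, by rw [abs_of_pos hε], sign_neg (mul_neg_of_pos_of_neg hε hlt)⟩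
            | pos => exact ⟨-ε, by rw [abs_neg, abs_of_pos hε],
                sign_pos (mul_pos_of_neg_of_neg (by linarith) hlt)⟩
          · cases s' with
            | zero => exact ⟨0, by rw [abs_zero]; exact hε.le, by rw [zero_mul, sign_zero]; rfl⟩
            | pos => exact ⟨ε, by rw [abs_of_pos hε], sign_pos (mul_pos hε hlt)⟩
            | neg => exact ⟨-ε, by rw [abs_neg, abs_of_pos hε],
                sign_neg (mul_neg_of_neg_of_pos (by linarith) hlt)⟩
        exact ⟨q + t • v, h t ht, by rw [map_add, map_smul, hq0', zero_add, smul_eq_mul, ht']⟩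
      by_cases h0 : Rzi f σ T i 0
      · rw [ib_pos (hall h0 s), ib_pos h0, ib_pos (hall h0 (-s)), ib_pos hR]
        ring
      · -- exactly one of the two signs
        have hnot : ¬ (Rzi f σ T i s ∧ Rzi f σ T i (-s)) := by
          rintro ⟨⟨p, hp, hp'⟩, ⟨q, hq, hq'⟩⟩
          apply h0
          -- the point where the form vanishes
          have hprod : f i p * f i q < 0 := by
            cases s with
            | zero => exact absurd rfl hs
            | pos =>
              have h1 : 0 < f i p := sign_eq_one_iff.1 hp'
              have h2 : f i q < 0 := sign_eq_neg_one_iff.1 hq'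
              nlinarith
            | neg =>
              have h1 : f i p < 0 := sign_eq_neg_one_iff.1 hp'
              have h2 : 0 < f i q := sign_eq_one_iff.1 hq'
              nlinarith
          have hp0 : f i p ≠ 0 := fun h => by rw [h, zero_mul] at hprod; exact lt_irrefl _ hprod
          have hq0 : f i q ≠ 0 := fun h => by rw [h, mul_zero] at hprod; exact lt_irrefl _ hprod
          refine ⟨|f i q| • p + |f i p| • q, seg hp hq (abs_pos.2 hq0) (abs_pos.2 hp0), ?_⟩
          rw [map_add, map_smul, map_smul, smul_eq_mul, smul_eq_mul]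
          rcases lt_or_gt_of_ne hp0 with h1 | h1
          · have h2 : 0 < f i q := pos_of_mul_neg_right hprod h1.le
            rw [abs_of_pos h2, abs_of_neg h1]
            have : f i q * f i p + -f i p * f i q = 0 := by ring
            rw [this, sign_zero]
          · have h2 : f i q < 0 := neg_of_mul_neg_right hprod h1.le
            rw [abs_of_neg h2, abs_of_pos h1]
            have : -f i q * f i p + f i p * f i q = 0 := by ring
            rw [this, sign_zero]
        have hor : Rzi f σ T i s ∨ Rzi f σ T i (-s) := by
          obtain ⟨p, hp⟩ := hR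
          have h1 : SignType.sign (f i p) ≠ 0 := fun h => h0 ⟨p, hp, h⟩
          have h2 : SignType.sign (f i p) = s ∨ SignType.sign (f i p) = -s := by
            generalize SignType.sign (f i p) = x at *
            cases x <;> cases s <;>
              first
                | exact Or.inl rfl
                | exact Or.inr rfl
                | exact absurd rfl h1
                | exact absurd rfl hs
          rcases h2 with h2 | h2
          · exact Or.inl ⟨p, hp, h2⟩
          · exact Or.inr ⟨p, hp, h2⟩
        rw [ib_neg h0, ib_pos hR]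
        rcases hor with h1 | h1
        · have h2 : ¬ Rzi f σ T i (-s) := fun h => hnot ⟨h1, h⟩
          rw [ib_pos h1, ib_neg h2]
          ring
        · have h2 : ¬ Rzi f σ T i s := fun h => hnot ⟨h, h1⟩
          rw [ib_pos h1, ib_neg h2]
          ring
  · have h1 : ∀ s', ¬ Rzi f σ T i s' := by
      rintro s' ⟨p, hp, _⟩
      exact hR ⟨p, hp⟩
    rw [ib_neg (h1 _), ib_neg (h1 _), ib_neg (h1 _), ib_neg hR]
    ring

end cut

section euler
variable {E : Type} [AddCommGroup E] [Module ℝ E] {ι : Type} [DecidableEq ι]
  (f : ι → Module.Dual ℝ E)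

/-- the signs: `0` on `U`, `-D` on the rest of `S`, `D` outside of `S` -/
def pat (D : ι → SignType) (U S : Finset ι) : ι → SignType :=
  fun i => if i ∈ U then 0 else if i ∈ S then -D i else D i

/-- the Euler sum -/
noncomputable def Phi (D : ι → SignType) (O S : Finset ι) : ℤ :=
  ∑ U ∈ S.powerset, (-1 : ℤ) ^ rk f U * ib (Rz f (pat D U S) (O ∪ S))

variable {f}

/-- **the Euler relation** -/
theorem euler [Module.Finite ℝ E] {D : ι → SignType} (hD : ∀ i, D i ≠ 0)
    (hR : ∃ p : E, ∀ j, SignType.sign (f j p) = D j) (S : Finset ι) :
    ∀ O : Finset ι, Disjoint O S → Phi f D O S = if S = ∅ then 1 else 0 := by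
  classical
  induction S using Finset.induction_on with
  | empty =>
    intro O _
    unfold Phi
    rw [Finset.powerset_empty, Finset.sum_singleton, rk_empty, pow_zero, one_mul, if_pos rfl]
    apply ib_pos
    obtain ⟨p, hp⟩ := hR
    refine ⟨p, fun j _ => ?_⟩
    rw [hp]
    simp [pat]
  | insert i S hi ih =>
    intro O hO
    have hiO : i ∉ O := fun h => (Finset.disjoint_left.1 hO h) (Finset.mem_insert_self i S)
    have hOS : Disjoint O S := hO.mono_right (Finset.subset_insert i S)
    have hOS' : Disjoint (insert i O) S := by
      rw [Finset.disjoint_insert_left]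
      exact ⟨hi, hOS⟩
    have key : Phi f D O (insert i S) = Phi f D O S - Phi f D (insert i O) S := by
      unfold Phi
      rw [Finset.sum_powerset_insert hi, ← Finset.sum_add_distrib, ← Finset.sum_sub_distrib]
      refine Finset.sum_congr rfl fun U hU => ?_
      have hU' := Finset.mem_powerset.1 hU
      have hiU : i ∉ U := fun h => hi (hU' h)
      have hc := cut (f := f) (T := O ∪ S) (U := U) (σ := pat D U S) (by
        intro j
        constructor
        · intro hj
          refine ⟨Finset.mem_union_right _ (hU' hj), ?_⟩
          unfold pat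
          rw [if_pos hj]
        · rintro ⟨_, h2⟩
          by_contra hj
          unfold pat at h2
          rw [if_neg hj] at h2
          split_ifs at h2
          · exact hD j (by
              generalize D j = x at *
              cases x <;> first | rfl | exact absurd h2 (by decide))
          · exact hD j h2) i (D i) (hD i)
      have hne : ∀ j ∈ O ∪ S, j ≠ i := by
        rintro j hj rfl
        rcases Finset.mem_union.1 hj with h | h
        · exact hiO h
        · exact hi h
      have e1 : Rz f (pat D U (insert i S)) (O ∪ insert i S) ↔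
          Rzi f (pat D U S) (O ∪ S) i (-D i) := by
        constructor
        · rintro ⟨p, hp⟩
          refine ⟨p, fun j hj => ?_, ?_⟩
          · rw [hp j (by rw [Finset.union_insert]; exact Finset.mem_insert_of_mem hj)]
            unfold pat
            simp only [Finset.mem_insert, hne j hj, false_or]
          · rw [hp i (by rw [Finset.union_insert]; exact Finset.mem_insert_self _ _)]
            unfold pat
            rw [if_neg hiU, if_pos (Finset.mem_insert_self i S)]
        · rintro ⟨p, hp, hp'⟩
          refine ⟨p, fun j hj => ?_⟩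
          rw [Finset.union_insert] at hj
          rcases Finset.mem_insert.1 hj with rfl | hj
          · rw [hp']
            unfold pat
            rw [if_neg hiU, if_pos (Finset.mem_insert_self j S)]
          · rw [hp j hj]
            unfold pat
            simp only [Finset.mem_insert, hne j hj, false_or]
      have e2 : Rz f (pat D (insert i U) (insert i S)) (O ∪ insert i S) ↔
          Rzi f (pat D U S) (O ∪ S) i 0 := by
        constructor
        · rintro ⟨p, hp⟩
          refine ⟨p, fun j hj => ?_, ?_⟩
          · rw [hp j (by rw [Finset.union_insert]; exact Finset.mem_insert_of_mem hj)]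
            unfold pat
            simp only [Finset.mem_insert, hne j hj, false_or]
          · rw [hp i (by rw [Finset.union_insert]; exact Finset.mem_insert_self _ _)]
            unfold pat
            rw [if_pos (Finset.mem_insert_self i U)]
        · rintro ⟨p, hp, hp'⟩
          refine ⟨p, fun j hj => ?_⟩
          rw [Finset.union_insert] at hj
          rcases Finset.mem_insert.1 hj with rfl | hj
          · rw [hp']
            unfold pat
            rw [if_pos (Finset.mem_insert_self j U)]
          · rw [hp j hj]
            unfold pat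
            simp only [Finset.mem_insert, hne j hj, false_or]
      have e3 : Rz f (pat D U S) (insert i O ∪ S) ↔ Rzi f (pat D U S) (O ∪ S) i (D i) := by
        constructor
        · rintro ⟨p, hp⟩
          refine ⟨p, fun j hj => ?_, ?_⟩
          · rw [hp j (by rw [Finset.insert_union]; exact Finset.mem_insert_of_mem hj)]
          · rw [hp i (by rw [Finset.insert_union]; exact Finset.mem_insert_self _ _)]
            unfold pat
            rw [if_neg hiU, if_neg hi]
        · rintro ⟨p, hp, hp'⟩
          refine ⟨p, fun j hj => ?_⟩
          rw [Finset.insert_union] at hj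
          rcases Finset.mem_insert.1 hj with rfl | hj
          · rw [hp']
            unfold pat
            rw [if_neg hiU, if_neg hi]
          · rw [hp j hj]
      rw [ib_congr e1, ib_congr e2, ib_congr e3]
      linarith
    rw [key, ih O hOS, ih (insert i O) hOS', sub_self,
      if_neg (Finset.insert_ne_empty i S)]

end euler

end Q161.Mg
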