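import Pool.Agent.Q161.MgM

set_option autoImplicit false

/-!
The weighting identity: the Euler characteristics of the magnitude complexes.
-/

namespace Q161.Mg

open Module

lemma ib_and (P Q : Prop) : ib (P ∧ Q) = ib P * ib Q := by
  classical
  by_cases hP : P
  · by_cases hQ : Q
    · rw [ib_pos hP, ib_pos hQ, ib_pos ⟨hP, hQ⟩, one_mul]
    · rw [ib_neg hQ, ib_neg fun h => hQ h.2, mul_zero]
  · rw [ib_neg hP, ib_neg fun h => hP h.1, zero_mul]

lemma neg_ne_zero' {s : SignType} (h : s ≠ 0) : -s ≠ 0 := by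
  intro h'
  apply h
  cases s <;> first | rfl | exact absurd h' (by decide)

section good
variable {E : Type} [AddCommGroup E] [Module ℝ E] {ι : Type} [Fintype ι] [DecidableEq ι]
  (f : ι → Module.Dual ℝ E)

/-- the condition at one level -/
def Lv (D : ι → SignType) (lam : ι → ℕ) (j : ℕ) : Prop :=
  ∃ p : E, (∀ i, j < lam i → f i p = 0) ∧ ∀ i, lam i = j → SignType.sign (f i p) = D i

/-- the good first chambers for a multidegree -/
def gd (D : ι → SignType) (lam : ι → ℕ) : Prop := (∀ i, D i ≠ 0) ∧ ∀ j, Lv f D lam j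

/-- the Euler characteristic -/
noncomputable def gg (D : ι → SignType) (lam : ι → ℕ) : ℤ := (-1) ^ kap f lam * ib (gd f D lam)

/-- `D` with the signs on `V` reversed -/
def flp (D : ι → SignType) (V : Finset ι) : ι → SignType := fun i => if i ∈ V then -D i else D i

/-- `lam` minus the indicator of `V` -/
def sbt (lam : ι → ℕ) (V : Finset ι) : ι → ℕ := fun i => if i ∈ V then lam i - 1 else lam i

variable {f}

lemma gd_isT {D : ι → SignType} {lam : ι → ℕ} (h : gd f D lam) : IsT f D := by
  refine ⟨h.1, ?_⟩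
  have key : ∀ n j : ℕ, (∀ i, lam i < j + n) →
      ∃ p : E, ∀ i, j ≤ lam i → SignType.sign (f i p) = D i := by
    intro n
    induction n with
    | zero => exact fun j hj => ⟨0, fun i hi => absurd (hj i) (by omega)⟩
    | succ n ih =>
      intro j hj
      obtain ⟨p', hp'⟩ := ih (j + 1) fun i => by
        have := hj i
        omega
      obtain ⟨q, hq0, hq1⟩ := h.2 j
      obtain ⟨ε, hε, he⟩ := pert (f := f) (Finset.univ.filter fun i => lam i = j) q p' D
        (fun i hi => hq1 i (Finset.mem_filter.1 hi).2) (fun i _ h0 => absurd h0 (h.1 i))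
      refine ⟨q + ε • p', fun i hi => ?_⟩
      rcases hi.eq_or_lt with h1 | h1
      · exact he ε (le_of_eq (abs_of_pos hε)) i (Finset.mem_filter.2 ⟨Finset.mem_univ i, h1.symm⟩)
      · rw [map_add, map_smul, hq0 i h1, zero_add, smul_eq_mul, sign_mul, sign_pos hε, one_mul]
        exact hp' i h1
  obtain ⟨p, hp⟩ := key (∑ i, lam i + 1) 0 fun i => by
    have := Finset.single_le_sum (f := lam) (fun i _ => Nat.zero_le _) (Finset.mem_univ i)
    omega
  exact ⟨p, fun i => hp i (Nat.zero_le _)⟩

/-- the sum over all subsets of the support, by the subsets of the top level -/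
lemma sum_split (lam : ι → ℕ) (m : ℕ) (hm : 0 < m) (hle : ∀ i, lam i ≤ m) (G : Finset ι → ℤ) :
    ∑ V ∈ (Finset.univ.filter fun i => 0 < lam i).powerset, G V =
      ∑ V ∈ (Finset.univ.filter fun i => 0 < lam i ∧ lam i < m).powerset,
        ∑ U ∈ (Finset.univ.filter fun i => lam i = m).powerset,
          G (V ∪ ((Finset.univ.filter fun i => lam i = m) \ U)) := by
  classical
  rw [← Finset.sum_product']
  refine Finset.sum_nbij' (fun V => (V ∩ (Finset.univ.filter fun i => 0 < lam i ∧ lam i < m),
    (Finset.univ.filter fun i => lam i = m) \ V))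
    (fun x => x.1 ∪ ((Finset.univ.filter fun i => lam i = m) \ x.2)) ?_ ?_ ?_ ?_ ?_
  · intro V _
    rw [Finset.mem_product, Finset.mem_powerset, Finset.mem_powerset]
    exact ⟨Finset.inter_subset_right, Finset.sdiff_subset⟩
  · rintro ⟨V, U⟩ hx
    rw [Finset.mem_product, Finset.mem_powerset, Finset.mem_powerset] at hx
    rw [Finset.mem_powerset]
    intro i hi
    rcases Finset.mem_union.1 hi with hi | hi
    · have := (Finset.mem_filter.1 (hx.1 hi)).2
      exact Finset.mem_filter.2 ⟨Finset.mem_univ i, this.1⟩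
    · have := (Finset.mem_filter.1 (Finset.mem_sdiff.1 hi).1).2
      exact Finset.mem_filter.2 ⟨Finset.mem_univ i, by omega⟩
  · intro V hV
    rw [Finset.mem_powerset] at hV
    ext i
    simp only [Finset.mem_union, Finset.mem_inter, Finset.mem_sdiff, Finset.mem_filter,
      Finset.mem_univ, true_and]
    constructor
    · rintro (⟨h1, _⟩ | ⟨h1, h2⟩)
      · exact h1
      · by_contra h3
        exact h2 ⟨h1, h3⟩
    · intro h1
      have h2 := (Finset.mem_filter.1 (hV h1)).2
      rcases (hle i).lt_or_eq with h3 | h3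
      · exact Or.inl ⟨h1, h2, h3⟩
      · exact Or.inr ⟨h3, fun h => h.2 h1⟩
  · rintro ⟨V, U⟩ hx
    rw [Finset.mem_product, Finset.mem_powerset, Finset.mem_powerset] at hx
    have hV : ∀ i ∈ V, 0 < lam i ∧ lam i < m := fun i hi => (Finset.mem_filter.1 (hx.1 hi)).2
    have hU : ∀ i ∈ U, lam i = m := fun i hi => (Finset.mem_filter.1 (hx.2 hi)).2
    refine Prod.ext ?_ ?_
    · ext i
      simp only [Finset.mem_union, Finset.mem_inter, Finset.mem_sdiff, Finset.mem_filter,
        Finset.mem_univ, true_and]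
      constructor
      · rintro ⟨h1 | ⟨h1, _⟩, h2⟩
        · exact h1
        · omega
      · exact fun h1 => ⟨Or.inl h1, hV i h1⟩
    · ext i
      simp only [Finset.mem_union, Finset.mem_sdiff, Finset.mem_filter,
        Finset.mem_univ, true_and]
      constructor
      · rintro ⟨h1, h2⟩
        by_contra h3
        exact h2 (Or.inr ⟨h1, h3⟩)
      · intro h1
        refine ⟨hU i h1, ?_⟩
        rintro (h2 | ⟨_, h2⟩)
        · have := hV i h2
          have := hU i h1
          omega
        · exact h2 h1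
  · intro V hV
    rw [Finset.mem_powerset] at hV
    congr 1
    ext i
    simp only [Finset.mem_union, Finset.mem_inter, Finset.mem_sdiff, Finset.mem_filter,
      Finset.mem_univ, true_and]
    constructor
    · intro h1
      have h2 := (Finset.mem_filter.1 (hV h1)).2
      rcases (hle i).lt_or_eq with h3 | h3
      · exact Or.inl ⟨h1, h2, h3⟩
      · exact Or.inr ⟨h3, fun h => h.2 h1⟩
    · rintro (⟨h1, _⟩ | ⟨h1, h2⟩)
      · exact h1
      · by_contra h3
        exact h2 ⟨h1, h3⟩

/-- one fibre of the weighting identity -/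
lemma fibre [Module.Finite ℝ E] {D : ι → SignType} (hD : ∀ i, D i ≠ 0)
    (hR : ∃ p : E, ∀ j, SignType.sign (f j p) = D j) (lam : ι → ℕ) (m : ℕ) (hm : 0 < m)
    (hle : ∀ i, lam i ≤ m) (V B : Finset ι) (hB : ∀ i, i ∈ B ↔ lam i = m)
    (hV : ∀ i ∈ V, 0 < lam i ∧ lam i < m) (hBne : B.Nonempty) :
    ∃ a : ℤ, ∀ U ∈ B.powerset, gg f (flp D (V ∪ (B \ U))) (sbt lam (V ∪ (B \ U))) =
      a * ((-1 : ℤ) ^ rk f U * ib (Rz f (pat D U B)
        ((Finset.univ.filter fun i => lam i + 1 = m ∧ i ∉ V) ∪ B))) := by
  classical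
  set O := Finset.univ.filter fun i => lam i + 1 = m ∧ i ∉ V with hO
  set y0 := flp D (V ∪ (B \ ∅)) with hy0
  set m0 := sbt lam (V ∪ (B \ ∅)) with hm0
  have hBV : ∀ i, i ∈ B → i ∉ V := fun i h1 h2 => by
    have := hV i h2
    have := (hB i).1 h1
    omega
  -- the values
  have v1 : ∀ U ⊆ B, ∀ i ∈ U, sbt lam (V ∪ (B \ U)) i = m ∧ flp D (V ∪ (B \ U)) i = D i := by
    intro U hU i hi
    have h1 : i ∉ V ∪ (B \ U) := by
      rw [Finset.mem_union, Finset.mem_sdiff]
      rintro (h | h)
      · exact hBV i (hU hi) h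
      · exact h.2 hi
    unfold sbt flp
    rw [if_neg h1, if_neg h1]
    exact ⟨(hB i).1 (hU hi), rfl⟩
  have v2 : ∀ U ⊆ B, ∀ i ∈ B, i ∉ U →
      sbt lam (V ∪ (B \ U)) i = m - 1 ∧ flp D (V ∪ (B \ U)) i = -D i := by
    intro U _ i hi hiU
    have h1 : i ∈ V ∪ (B \ U) := Finset.mem_union_right _ (Finset.mem_sdiff.2 ⟨hi, hiU⟩)
    unfold sbt flp
    rw [if_pos h1, if_pos h1, (hB i).1 hi]
    exact ⟨rfl, rfl⟩
  have v3 : ∀ U ⊆ B, ∀ i ∉ B, sbt lam (V ∪ (B \ U)) i = m0 i ∧ flp D (V ∪ (B \ U)) i = y0 i := by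
    intro U _ i hi
    have h1 : i ∈ V ∪ (B \ U) ↔ i ∈ V ∪ (B \ ∅) := by
      simp only [Finset.mem_union, Finset.mem_sdiff, hi, false_and, or_false]
    rw [hm0, hy0]
    unfold sbt flp
    simp only [h1, and_self]
  have v4 : ∀ i ∉ B, m0 i < m ∧ (m0 i + 1 = m ↔ i ∈ O) ∧ (i ∈ O → y0 i = D i) := by
    intro i hi
    have h1 : lam i < m := lt_of_le_of_ne (hle i) fun h => hi ((hB i).2 h)
    have h2 : i ∈ V ∪ (B \ ∅) ↔ i ∈ V := by
      simp only [Finset.mem_union, Finset.mem_sdiff, hi, false_and, or_false]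
    have h3 : i ∈ O ↔ lam i + 1 = m ∧ i ∉ V := by
      rw [hO, Finset.mem_filter]
      simp
    rw [hm0, hy0]
    unfold sbt flp
    rw [h3]
    simp only [h2]
    by_cases hiV : i ∈ V
    · rw [if_pos hiV, if_pos hiV]
      have := hV i hiV
      refine ⟨by omega, ⟨fun h => by omega, fun h => absurd hiV h.2⟩, fun h => absurd hiV h.2⟩
    · rw [if_neg hiV, if_neg hiV]
      exact ⟨h1, ⟨fun h => ⟨h, hiV⟩, fun h => h.1⟩, fun _ => rfl⟩
  have v5 : ∀ i ∈ B, m0 i = m - 1 := fun i hi =>
    (v2 ∅ (Finset.empty_subset B) i hi (Finset.notMem_empty i)).1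
  set N := ∑ i, lam i with hN
  have hmN : m ≤ N := by
    obtain ⟨i, hi⟩ := hBne
    have := Finset.single_le_sum (f := lam) (fun i _ => Nat.zero_le _) (Finset.mem_univ i)
    rw [(hB i).1 hi] at this
    exact this
  refine ⟨(-1 : ℤ) ^ (∑ j ∈ (Finset.range N).erase (m - 1),
    rk f (Finset.univ.filter fun i => j < m0 i)) * ib (∀ j, j + 1 < m → Lv f y0 m0 j),
    fun U hU => ?_⟩
  rw [Finset.mem_powerset] at hU
  set y := flp D (V ∪ (B \ U)) with hy
  set mu := sbt lam (V ∪ (B \ U)) with hmu
  have w1 : ∀ i ∈ U, mu i = m ∧ y i = D i := v1 U hU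
  have w2 : ∀ i ∈ B, i ∉ U → mu i = m - 1 ∧ y i = -D i := v2 U hU
  have w3 : ∀ i ∉ B, mu i = m0 i ∧ y i = y0 i := v3 U hU
  -- the degree
  have hkap : kap f mu = (∑ j ∈ (Finset.range N).erase (m - 1),
      rk f (Finset.univ.filter fun i => j < m0 i)) + rk f U := by
    rw [kap_ext mu N (by
      rw [hN, hmu]
      refine Finset.sum_le_sum fun i _ => ?_
      unfold sbt
      split_ifs <;> omega)]
    rw [← Finset.sum_erase_add _ _ (Finset.mem_range.2 (show m - 1 < N by omega))]
    congr 1
    · refine Finset.sum_congr rfl fun j hj => ?_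
      have hj' : j ≠ m - 1 := (Finset.mem_erase.1 hj).1
      congr 1
      ext i
      rw [Finset.mem_filter, Finset.mem_filter]
      by_cases hiB : i ∈ B
      · rw [v5 i hiB]
        by_cases hiU : i ∈ U
        · rw [(w1 i hiU).1]
          exact ⟨fun h => ⟨h.1, by have := h.2; omega⟩, fun h => ⟨h.1, by have := h.2; omega⟩⟩
        · rw [(w2 i hiB hiU).1]
      · rw [(w3 i hiB).1]
    · congr 1
      ext i
      rw [Finset.mem_filter]
      by_cases hiB : i ∈ B
      · by_cases hiU : i ∈ U
        · rw [(w1 i hiU).1]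
          exact ⟨fun _ => hiU, fun _ => ⟨Finset.mem_univ i, by omega⟩⟩
        · rw [(w2 i hiB hiU).1]
          exact ⟨fun h => absurd h.2 (lt_irrefl _), fun h => absurd h hiU⟩
      · rw [(w3 i hiB).1]
        have := (v4 i hiB).1
        exact ⟨fun h => by omega, fun h => absurd (hU h) hiB⟩
  -- the conditions
  have hgd : gd f y mu ↔ (∀ j, j + 1 < m → Lv f y0 m0 j) ∧ Rz f (pat D U B) (O ∪ B) := by
    have e1 : ∀ j, j + 1 < m → (Lv f y mu j ↔ Lv f y0 m0 j) := by
      intro j hj
      unfold Lv
      refine exists_congr fun p => and_congr (forall_congr' fun i => ?_) (forall_congr' fun i => ?_)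
      · by_cases hiB : i ∈ B
        · have h1 := v5 i hiB
          by_cases hiU : i ∈ U
          · have h2 := (w1 i hiU).1
            exact ⟨fun h _ => h (by omega), fun h _ => h (by omega)⟩
          · have h2 := (w2 i hiB hiU).1
            exact ⟨fun h _ => h (by omega), fun h _ => h (by omega)⟩
        · rw [(w3 i hiB).1]
      · by_cases hiB : i ∈ B
        · have h1 := v5 i hiB
          by_cases hiU : i ∈ U
          · have h2 := (w1 i hiU).1
            exact ⟨fun _ h => by omega, fun _ h => by omega⟩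
          · have h2 := (w2 i hiB hiU).1
            exact ⟨fun _ h => by omega, fun _ h => by omega⟩
        · rw [(w3 i hiB).1, (w3 i hiB).2]
    have e2 : Lv f y mu (m - 1) ↔ Rz f (pat D U B) (O ∪ B) := by
      unfold Lv Rz
      refine exists_congr fun p => ?_
      constructor
      · rintro ⟨h1, h2⟩ i hi
        by_cases hiB : i ∈ B
        · by_cases hiU : i ∈ U
          · rw [h1 i (by rw [(w1 i hiU).1]; omega)]
            unfold pat
            rw [if_pos hiU, sign_zero]
          · rw [h2 i (w2 i hiB hiU).1, (w2 i hiB hiU).2]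
            unfold pat
            rw [if_neg hiU, if_pos hiB]
        · have hiO : i ∈ O := (Finset.mem_union.1 hi).resolve_right hiB
          obtain ⟨_, h3, h4⟩ := v4 i hiB
          rw [h2 i (by rw [(w3 i hiB).1]; have := h3.2 hiO; omega), (w3 i hiB).2, h4 hiO]
          unfold pat
          rw [if_neg fun h => hiB (hU h), if_neg hiB]
      · intro h
        constructor
        · intro i hi
          by_cases hiB : i ∈ B
          · by_cases hiU : i ∈ U
            · have h1 := h i (Finset.mem_union_right _ hiB)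
              unfold pat at h1
              rw [if_pos hiU] at h1
              exact sign_eq_zero_iff.1 h1
            · rw [(w2 i hiB hiU).1] at hi
              exact absurd hi (lt_irrefl _)
          · rw [(w3 i hiB).1] at hi
            have := (v4 i hiB).1
            omega
        · intro i hi
          by_cases hiB : i ∈ B
          · by_cases hiU : i ∈ U
            · rw [(w1 i hiU).1] at hi
              omega
            · rw [h i (Finset.mem_union_right _ hiB), (w2 i hiB hiU).2]
              unfold pat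
              rw [if_neg hiU, if_pos hiB]
          · rw [(w3 i hiB).1] at hi
            obtain ⟨_, h3, h4⟩ := v4 i hiB
            have hiO : i ∈ O := h3.1 (by omega)
            rw [h i (Finset.mem_union_left _ hiO), (w3 i hiB).2, h4 hiO]
            unfold pat
            rw [if_neg fun h => hiB (hU h), if_neg hiB]
    have e3 : ∀ j, m ≤ j → Lv f y mu j := by
      intro j hj
      obtain ⟨p, hp⟩ := hR
      have h1 : ∀ i, mu i ≤ m := by
        intro i
        rw [hmu]
        unfold sbt
        have := hle i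
        split_ifs <;> omega
      refine ⟨p, fun i hi => absurd hi (by have := h1 i; omega), fun i hi => ?_⟩
      have h2 : mu i = m := le_antisymm (h1 i) (by omega)
      by_cases hiB : i ∈ B
      · by_cases hiU : i ∈ U
        · rw [hp, (w1 i hiU).2]
        · rw [(w2 i hiB hiU).1] at h2
          omega
      · rw [(w3 i hiB).1] at h2
        have := (v4 i hiB).1
        omega
    constructor
    · rintro ⟨_, h⟩
      exact ⟨fun j hj => (e1 j hj).1 (h j), e2.1 (h _)⟩
    · rintro ⟨h1, h2⟩
      refine ⟨fun i => ?_, fun j => ?_⟩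
      · rw [hy]
        unfold flp
        split_ifs
        · exact neg_ne_zero' (hD i)
        · exact hD i
      · rcases lt_trichotomy (j + 1) m with h3 | h3 | h3
        · exact (e1 j h3).2 (h1 j h3)
        · have : j = m - 1 := by omega
          rw [this]
          exact e2.2 h2
        · exact e3 j (by omega)
  unfold gg
  rw [hkap, ib_congr hgd, ib_and, pow_add]
  ring

/-- **the weighting identity** -/
theorem weight [Module.Finite ℝ E] {D : ι → SignType} (hD : IsT f D) {lam : ι → ℕ}
    (h0 : lam ≠ 0) :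
    ∑ V ∈ (Finset.univ.filter fun i => 0 < lam i).powerset, gg f (flp D V) (sbt lam V) = 0 := by
  classical
  obtain ⟨i0, hi0⟩ := Function.ne_iff.1 h0
  have hne : (Finset.univ : Finset ι).Nonempty := ⟨i0, Finset.mem_univ _⟩
  obtain ⟨i1, _, hi1⟩ := Finset.exists_max_image Finset.univ lam hne
  set m := lam i1 with hm
  have hle : ∀ i, lam i ≤ m := fun i => hi1 i (Finset.mem_univ i)
  have hm0 : 0 < m := lt_of_lt_of_le (Nat.pos_of_ne_zero hi0) (hle i0)
  rw [sum_split lam m hm0 hle]
  refine Finset.sum_eq_zero fun V hV => ?_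
  rw [Finset.mem_powerset] at hV
  obtain ⟨a, ha⟩ := fibre hD.1 hD.2 lam m hm0 hle V (Finset.univ.filter fun i => lam i = m)
    (fun i => by simp) (fun i hi => (Finset.mem_filter.1 (hV hi)).2)
    ⟨i1, Finset.mem_filter.2 ⟨Finset.mem_univ _, rfl⟩⟩
  rw [Finset.sum_congr rfl ha, ← Finset.mul_sum]
  have h1 := euler hD.1 hD.2 (Finset.univ.filter fun i => lam i = m)
    (Finset.univ.filter fun i => lam i + 1 = m ∧ i ∉ V) (by
      rw [Finset.disjoint_left]
      intro i h1 h2
      have := (Finset.mem_filter.1 h1).2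
      have := (Finset.mem_filter.1 h2).2
      omega)
  have hBne : (Finset.univ.filter fun i => lam i = m) ≠ ∅ := Finset.nonempty_iff_ne_empty.1
    ⟨i1, Finset.mem_filter.2 ⟨Finset.mem_univ _, rfl⟩⟩
  rw [if_neg hBne] at h1
  unfold Phi at h1
  rw [h1, mul_zero]

end good

end Q161.Mg
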