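import Pool.Agent.Q161.MgN
import Pool.Agent.Q161.MgF

set_option autoImplicit false

/-!
The Euler characteristic of the magnitude complex with a given first chamber and multidegree.
-/

namespace Q161.Mg

open Module

section count
variable {E : Type} [AddCommGroup E] [Module ℝ E] {ι : Type} [Fintype ι] [DecidableEq ι]
  (f : ι → Module.Dual ℝ E)

open Classical in
/-- the number of generators -/
noncomputable def cn : ℕ → (ι → SignType) → (ι → ℕ) → ℕ
  | 0, _, lam => if lam = 0 then 1 else 0
  | k + 1, D, lam => ∑ y : ι → SignType,
      if IsT f y ∧ y ≠ D ∧ ind D y ≤ lam then cn k y (lam - ind D y) else 0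

/-- the partial Euler characteristic -/
noncomputable def chi (n : ℕ) (D : ι → SignType) (lam : ι → ℕ) : ℤ :=
  ∑ k ∈ Finset.range n, (-1 : ℤ) ^ k * (cn f k D lam : ℤ)

open Classical in
lemma chi_succ (n : ℕ) (D : ι → SignType) (lam : ι → ℕ) :
    chi f (n + 1) D lam = (if lam = 0 then 1 else 0) - ∑ y : ι → SignType,
      if IsT f y ∧ y ≠ D ∧ ind D y ≤ lam then chi f n y (lam - ind D y) else 0 := by
  unfold chi
  rw [Finset.sum_range_succ']
  have h1 : ∀ k ∈ Finset.range n, (-1 : ℤ) ^ (k + 1) * (cn f (k + 1) D lam : ℤ) =
      -∑ y : ι → SignType, (if IsT f y ∧ y ≠ D ∧ ind D y ≤ lam then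
        (-1 : ℤ) ^ k * (cn f k y (lam - ind D y) : ℤ) else 0) := by
    intro k _
    rw [cn, pow_succ, mul_neg_one, neg_mul]
    congr 1
    push_cast
    rw [Finset.mul_sum]
    refine Finset.sum_congr rfl fun y _ => ?_
    split_ifs
    · rfl
    · rw [mul_zero]
  rw [Finset.sum_congr rfl h1, Finset.sum_neg_distrib, Finset.sum_comm, cn]
  have h2 : ∀ y ∈ (Finset.univ : Finset (ι → SignType)), (∑ k ∈ Finset.range n,
      if IsT f y ∧ y ≠ D ∧ ind D y ≤ lam then
        (-1 : ℤ) ^ k * (cn f k y (lam - ind D y) : ℤ) else 0) =
      if IsT f y ∧ y ≠ D ∧ ind D y ≤ lam then ∑ k ∈ Finset.range n,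
        (-1 : ℤ) ^ k * (cn f k y (lam - ind D y) : ℤ) else 0 := by
    intro y _
    split_ifs
    · rfl
    · exact Finset.sum_const_zero
  rw [Finset.sum_congr rfl h2, pow_zero, one_mul]
  split_ifs <;> push_cast <;> ring

variable {f}

lemma flp_injective {D : ι → SignType} (hD : ∀ i, D i ≠ 0) : Function.Injective (flp D) := by
  intro V W h
  ext i
  have h1 := congrFun h i
  unfold flp at h1
  have h2 := hD i
  by_cases h3 : i ∈ V <;> by_cases h4 : i ∈ W
  · exact ⟨fun _ => h4, fun _ => h3⟩
  · rw [if_pos h3, if_neg h4] at h1
    exfalso
    revert h1 h2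
    cases D i <;> decide
  · rw [if_neg h3, if_pos h4] at h1
    exfalso
    revert h1 h2
    cases D i <;> decide
  · exact ⟨fun h => absurd h h3, fun h => absurd h h4⟩

lemma sum_ind_pos {D y : ι → SignType} (h : y ≠ D) : 0 < ∑ i, ind D y i := by
  obtain ⟨i, hi⟩ := Function.ne_iff.1 h
  apply Finset.sum_pos'
  · exact fun _ _ => Nat.zero_le _
  · refine ⟨i, Finset.mem_univ i, ?_⟩
    unfold ind
    rw [if_neg (Ne.symm hi)]
    exact one_pos

/-- **the Euler characteristic is the good number** -/
theorem chi_eq [Module.Finite ℝ E] : ∀ (n : ℕ) (D : ι → SignType) (lam : ι → ℕ), IsT f D →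
    ∑ i, lam i < n → chi f n D lam = gg f D lam := by
  classical
  intro n
  induction n with
  | zero => exact fun D lam _ h => absurd h (Nat.not_lt_zero _)
  | succ n ih =>
    intro D lam hD hn
    rw [chi_succ]
    by_cases h0 : lam = 0
    · subst h0
      rw [if_pos rfl]
      have h1 : ∀ y ∈ (Finset.univ : Finset (ι → SignType)),
          (if IsT f y ∧ y ≠ D ∧ ind D y ≤ 0 then chi f n y (0 - ind D y) else 0) = 0 := by
        intro y _
        rw [if_neg]
        rintro ⟨_, h2, h3⟩
        have h4 := sum_ind_pos h2
        have h5 : ∑ i, ind D y i = 0 := Finset.sum_eq_zero fun i _ => Nat.le_zero.1 (h3 i)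
        omega
      rw [Finset.sum_eq_zero h1, sub_zero]
      unfold gg kap
      have h2 : ∑ i : ι, (0 : ι → ℕ) i = 0 := by simp
      rw [h2, Finset.range_zero, Finset.sum_empty, pow_zero, one_mul, ib_pos]
      obtain ⟨p, hp⟩ := hD.2
      refine ⟨hD.1, fun j => ?_⟩
      rcases Nat.eq_zero_or_pos j with rfl | hj
      · exact ⟨p, fun i hi => absurd hi (lt_irrefl _), fun i _ => hp i⟩
      · exact ⟨0, fun i _ => map_zero _, fun i hi => absurd hi (by
          show (0 : ℕ) ≠ j
          omega)⟩
    · rw [if_neg h0, zero_sub]
      have hw := weight hD h0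
      set P := (Finset.univ.filter fun i => 0 < lam i).powerset with hP
      have hemp : (∅ : Finset ι) ∈ P := Finset.empty_mem_powerset _
      rw [← Finset.sum_erase_add _ _ hemp] at hw
      have e1 : flp D ∅ = D := by
        funext i
        unfold flp
        rw [if_neg (Finset.notMem_empty i)]
      have e2 : sbt lam ∅ = lam := by
        funext i
        unfold sbt
        rw [if_neg (Finset.notMem_empty i)]
      rw [e1, e2] at hw
      -- the function on the sign vectors
      set F : (ι → SignType) → ℤ := fun y =>
        if IsT f y ∧ y ≠ D ∧ ind D y ≤ lam then chi f n y (lam - ind D y) else 0 with hF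
      have key : ∀ V ∈ P.erase ∅, gg f (flp D V) (sbt lam V) = F (flp D V) := by
        intro V hV
        obtain ⟨hV1, hV2⟩ := Finset.mem_erase.1 hV
        rw [hP, Finset.mem_powerset] at hV2
        have hVp : ∀ i ∈ V, 0 < lam i := fun i hi => (Finset.mem_filter.1 (hV2 hi)).2
        have hind : ∀ i, ind D (flp D V) i = if i ∈ V then 1 else 0 := by
          intro i
          unfold ind flp
          by_cases hi : i ∈ V
          · rw [if_pos hi, if_pos hi, if_neg]
            intro h
            have := hD.1 i
            revert h this
            cases D i <;> decide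
          · rw [if_neg hi, if_neg hi, if_pos rfl]
        have hne : flp D V ≠ D := by
          intro h
          apply hV1
          apply flp_injective hD.1
          rw [h, e1]
        have hle : ind D (flp D V) ≤ lam := by
          intro i
          rw [hind]
          split_ifs with hi
          · exact hVp i hi
          · exact Nat.zero_le _
        have hsb : lam - ind D (flp D V) = sbt lam V := by
          funext i
          rw [Pi.sub_apply, hind]
          unfold sbt
          split_ifs <;> omega
        by_cases hT : IsT f (flp D V)
        · rw [hF]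
          simp only
          rw [if_pos ⟨hT, hne, hle⟩, hsb, ih _ _ hT]
          rw [← hsb]
          have h1 : ∑ i, (lam - ind D (flp D V)) i + ∑ i, ind D (flp D V) i = ∑ i, lam i := by
            rw [← Finset.sum_add_distrib]
            refine Finset.sum_congr rfl fun i _ => ?_
            rw [Pi.sub_apply]
            have h5 : ind D (flp D V) i ≤ lam i := hle i
            omega
          have h2 := sum_ind_pos hne
          omega
        · rw [hF]
          simp only
          rw [if_neg fun h => hT h.1]
          unfold gg
          rw [ib_neg fun h => hT (gd_isT h), mul_zero]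
      rw [Finset.sum_congr rfl key] at hw
      have h3 : ∑ V ∈ P.erase ∅, F (flp D V) = ∑ y, F y := by
        rw [← Finset.sum_image (f := F) (g := flp D) (s := P.erase ∅)
          fun a _ b _ h => flp_injective hD.1 h]
        apply Finset.sum_subset (Finset.subset_univ _)
        intro y _ hy
        rw [hF]
        simp only
        rw [if_neg]
        rintro ⟨hT, hne, hle⟩
        apply hy
        rw [Finset.mem_image]
        refine ⟨Sp D y, ?_, ?_⟩
        · rw [Finset.mem_erase, hP, Finset.mem_powerset]
          constructor
          · intro h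
            apply hne
            funext i
            by_contra hi
            have : i ∈ Sp D y := mem_Sp.2 (Ne.symm hi)
            rw [h] at this
            exact absurd this (Finset.notMem_empty i)
          · intro i hi
            rw [mem_Sp] at hi
            have := hle i
            unfold ind at this
            rw [if_neg hi] at this
            exact Finset.mem_filter.2 ⟨Finset.mem_univ i, this⟩
        · funext i
          unfold flp
          by_cases hi : D i = y i
          · rw [if_neg fun h => (mem_Sp.1 h) hi, hi]
          · rw [if_pos (mem_Sp.2 hi)]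
            have h1 := hD.1 i
            have h2 := hT.1 i
            revert h1 h2 hi
            cases D i <;> cases y i <;> decide
      rw [h3] at hw
      have : gg f D lam = -∑ y, F y := by linarith
      rw [this]

end count

end Q161.Mg
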