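import Pool.Agent.Q161.MgO

set_option autoImplicit false

/-!
The number of the good chambers depends only on the rank function.
-/

namespace Q161.Mg

open Module

section comb
variable {ι J : Type} [DecidableEq ι] [DecidableEq J]

lemma sum_powerset_union' (A B : Finset ι) (G : Finset ι → ℤ) (h : Disjoint A B) :
    ∑ P ∈ (A ∪ B).powerset, G P = ∑ P ∈ A.powerset, ∑ Q ∈ B.powerset, G (P ∪ Q) := by
  induction A using Finset.induction_on generalizing G with
  | empty => simp
  | insert a A ha ih =>
    rw [Finset.disjoint_insert_left] at h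
    have h1 : a ∉ A ∪ B := by
      rw [Finset.mem_union]
      rintro (h2 | h2)
      · exact ha h2
      · exact h.1 h2
    rw [Finset.insert_union, Finset.sum_powerset_insert h1, Finset.sum_powerset_insert ha,
      ih G h.2, ih (fun P => G (insert a P)) h.2]
    congr 1
    refine Finset.sum_congr rfl fun P _ => Finset.sum_congr rfl fun Q _ => ?_
    rw [Finset.insert_union]

lemma sum_prod (K : Finset J) (B : J → Finset ι) (hB : ∀ i j, i ≠ j → Disjoint (B i) (B j))
    (F : J → Finset ι → ℤ) :
    ∑ P ∈ (K.biUnion B).powerset, ∏ j ∈ K, F j (P ∩ B j) = ∏ j ∈ K, ∑ Q ∈ (B j).powerset, F j Q := by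
  induction K using Finset.induction_on with
  | empty => simp
  | insert a K ha ih =>
    have hd : Disjoint (B a) (K.biUnion B) := by
      rw [Finset.disjoint_biUnion_right]
      intro j hj
      apply hB
      rintro rfl
      exact ha hj
    rw [Finset.biUnion_insert, sum_powerset_union' _ _ _ hd, Finset.prod_insert ha, ← ih,
      Finset.sum_mul]
    refine Finset.sum_congr rfl fun P hP => ?_
    rw [Finset.mul_sum]
    refine Finset.sum_congr rfl fun Q hQ => ?_
    rw [Finset.mem_powerset] at hP hQ
    rw [Finset.prod_insert ha]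
    congr 1
    · congr 1
      ext i
      rw [Finset.mem_inter, Finset.mem_union]
      constructor
      · rintro ⟨h1 | h1, h2⟩
        · exact h1
        · exact absurd (hQ h1) (Finset.disjoint_left.1 hd h2)
      · exact fun h1 => ⟨Or.inl h1, hP h1⟩
    · refine Finset.prod_congr rfl fun j hj => ?_
      congr 1
      ext i
      rw [Finset.mem_inter, Finset.mem_inter, Finset.mem_union]
      constructor
      · rintro ⟨h1 | h1, h2⟩
        · exact absurd (Finset.mem_biUnion.2 ⟨j, hj, h2⟩) (Finset.disjoint_left.1 hd (hP h1))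
        · exact ⟨h1, h2⟩
      · rintro ⟨h1, h2⟩
        exact ⟨Or.inr h1, h2⟩

end comb

section tc
variable {E : Type} [AddCommGroup E] [Module ℝ E] {ι : Type} [DecidableEq ι]
  (f : ι → Module.Dual ℝ E)

/-- the signs of `P` are realized on `B` by a point of the common kernel of `S` -/
def TT (S B P : Finset ι) : Prop :=
  ∃ p : E, (∀ i ∈ S, f i p = 0) ∧ ∀ i ∈ B, SignType.sign (f i p) = if i ∈ P then 1 else -1

/-- the number of the realized sign vectors -/
noncomputable def tc (S B : Finset ι) : ℤ := ∑ P ∈ B.powerset, ib (TT f S B P)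

variable {f}

lemma tc_insert_same {S B : Finset ι} {i : ι} (hi : i ∉ B)
    (hv : ∀ v ∈ NN f S, f i v = 0) : tc f S (insert i B) = 0 := by
  unfold tc
  refine Finset.sum_eq_zero fun P _ => ib_neg ?_
  rintro ⟨p, hp, hp'⟩
  have h1 := hp' i (Finset.mem_insert_self i B)
  rw [hv p (mem_NN.2 hp), sign_zero] at h1
  split_ifs at h1 <;> exact absurd h1 (by decide)

lemma tc_insert_succ [Module.Finite ℝ E] {S B : Finset ι} {i : ι} (hi : i ∉ B)
    (hd : Disjoint S (insert i B)) {v : E} (hv : v ∈ NN f S) (hvi : f i v ≠ 0) :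
    tc f S (insert i B) = tc f S B + tc f (insert i S) B := by
  unfold tc
  rw [Finset.sum_powerset_insert hi, ← Finset.sum_add_distrib, ← Finset.sum_add_distrib]
  refine Finset.sum_congr rfl fun P hP => ?_
  rw [Finset.mem_powerset] at hP
  have hiP : i ∉ P := fun h => hi (hP h)
  have hBS : ∀ j ∈ B, j ∉ S := fun j hj hjS =>
    (Finset.disjoint_left.1 hd hjS) (Finset.mem_insert_of_mem hj)
  set σ : ι → SignType := fun j => if j ∈ S then 0 else if j ∈ P then 1 else -1 with hσ
  have σS : ∀ j ∈ S, σ j = 0 := fun j hj => if_pos hj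
  have σB : ∀ j ∈ B, σ j = if j ∈ P then 1 else -1 := fun j hj => if_neg (hBS j hj)
  have hc := cut (f := f) (T := S ∪ B) (U := S) (σ := σ) (by
    intro j
    constructor
    · exact fun hj => ⟨Finset.mem_union_left _ hj, σS j hj⟩
    · rintro ⟨h1, h2⟩
      rcases Finset.mem_union.1 h1 with h3 | h3
      · exact h3
      · rw [σB j h3] at h2
        split_ifs at h2 <;> exact absurd h2 (by decide)) i 1 (by decide)
  rw [rk_insert_succ hv hvi, pow_succ] at hc
  have hpow : ((-1 : ℤ) ^ rk f S) * ((-1 : ℤ) ^ rk f S) = 1 := by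
    rw [← pow_add]
    exact Even.neg_one_pow ⟨_, rfl⟩
  have hc' : ib (Rzi f σ (S ∪ B) i 1) - ib (Rzi f σ (S ∪ B) i 0) + ib (Rzi f σ (S ∪ B) i (-1)) =
      ib (Rz f σ (S ∪ B)) := by
    have h1 := congrArg (fun x => ((-1 : ℤ) ^ rk f S) * x) hc
    linear_combination h1 - (ib (Rzi f σ (S ∪ B) i 1) - ib (Rzi f σ (S ∪ B) i 0) +
      ib (Rzi f σ (S ∪ B) i (-1)) - ib (Rz f σ (S ∪ B))) * hpow
  have hbase : ∀ p : E, (∀ j ∈ S ∪ B, SignType.sign (f j p) = σ j) ↔
      (∀ j ∈ S, f j p = 0) ∧ ∀ j ∈ B, SignType.sign (f j p) = if j ∈ P then 1 else -1 := by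
    intro p
    constructor
    · intro h
      refine ⟨fun j hj => ?_, fun j hj => ?_⟩
      · have := h j (Finset.mem_union_left _ hj)
        rw [σS j hj] at this
        exact sign_eq_zero_iff.1 this
      · rw [h j (Finset.mem_union_right _ hj), σB j hj]
    · rintro ⟨h1, h2⟩ j hj
      rcases Finset.mem_union.1 hj with h3 | h3
      · rw [h1 j h3, sign_zero, σS j h3]
      · rw [h2 j h3, σB j h3]
  have e1 : TT f S (insert i B) P ↔ Rzi f σ (S ∪ B) i (-1) := by
    refine exists_congr fun p => ?_
    rw [hbase]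
    constructor
    · rintro ⟨h1, h2⟩
      refine ⟨⟨h1, fun j hj => h2 j (Finset.mem_insert_of_mem hj)⟩, ?_⟩
      rw [h2 i (Finset.mem_insert_self i B), if_neg hiP]
    · rintro ⟨⟨h1, h2⟩, h3⟩
      refine ⟨h1, fun j hj => ?_⟩
      rcases Finset.mem_insert.1 hj with rfl | hj
      · rw [h3, if_neg hiP]
      · exact h2 j hj
  have e2 : TT f S (insert i B) (insert i P) ↔ Rzi f σ (S ∪ B) i 1 := by
    refine exists_congr fun p => ?_
    rw [hbase]
    constructor
    · rintro ⟨h1, h2⟩
      refine ⟨⟨h1, fun j hj => ?_⟩, ?_⟩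
      · rw [h2 j (Finset.mem_insert_of_mem hj)]
        have hji : j ≠ i := fun h => hi (h ▸ hj)
        simp only [Finset.mem_insert, hji, false_or]
      · rw [h2 i (Finset.mem_insert_self i B), if_pos (Finset.mem_insert_self i P)]
    · rintro ⟨⟨h1, h2⟩, h3⟩
      refine ⟨h1, fun j hj => ?_⟩
      rcases Finset.mem_insert.1 hj with rfl | hj
      · rw [h3, if_pos (Finset.mem_insert_self j P)]
      · rw [h2 j hj]
        have hji : j ≠ i := fun h => hi (h ▸ hj)
        simp only [Finset.mem_insert, hji, false_or]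
  have e3 : TT f S B P ↔ Rz f σ (S ∪ B) := exists_congr fun p => (hbase p).symm
  have e4 : TT f (insert i S) B P ↔ Rzi f σ (S ∪ B) i 0 := by
    refine exists_congr fun p => ?_
    rw [hbase]
    constructor
    · rintro ⟨h1, h2⟩
      exact ⟨⟨fun j hj => h1 j (Finset.mem_insert_of_mem hj), h2⟩, by
        rw [h1 i (Finset.mem_insert_self i S), sign_zero]⟩
    · rintro ⟨⟨h1, h2⟩, h3⟩
      refine ⟨fun j hj => ?_, h2⟩
      rcases Finset.mem_insert.1 hj with rfl | hj
      · exact sign_eq_zero_iff.1 h3
      · exact h1 j hj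
  rw [ib_congr e1, ib_congr e2, ib_congr e3, ib_congr e4]
  linarith

/-- the counts depend only on the rank function -/
theorem tc_eq [Module.Finite ℝ E] {E' : Type} [AddCommGroup E'] [Module ℝ E']
    [Module.Finite ℝ E'] {g : ι → Module.Dual ℝ E'} (h : ∀ S, rk f S = rk g S) (B : Finset ι) :
    ∀ S : Finset ι, Disjoint S B → tc f S B = tc g S B := by
  have aux : ∀ {F : Type} [AddCommGroup F] [Module ℝ F] (u : ι → Module.Dual ℝ F) (S : Finset ι),
      tc u S ∅ = 1 := by
    intro F _ _ u S
    unfold tc
    rw [Finset.powerset_empty, Finset.sum_singleton, ib_pos]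
    exact ⟨0, fun _ _ => map_zero _, fun i hi => absurd hi (Finset.notMem_empty i)⟩
  induction B using Finset.induction_on with
  | empty => exact fun S _ => by rw [aux, aux]
  | insert i B hi ih =>
    intro S hS
    have hS1 : Disjoint S B := hS.mono_right (Finset.subset_insert i B)
    have hS2 : Disjoint (insert i S) B := by
      rw [Finset.disjoint_insert_left]
      exact ⟨hi, hS1⟩
    by_cases h1 : ∀ v ∈ NN f S, f i v = 0
    · have h2 : ∀ v ∈ NN g S, g i v = 0 := by
        by_contra h3
        push Not at h3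
        obtain ⟨v, hv, hvi⟩ := h3
        have h4 := rk_insert_succ hv hvi
        rw [← h, ← h, rk_insert_same h1] at h4
        omega
      rw [tc_insert_same hi h1, tc_insert_same hi h2]
    · have h1' := h1
      push Not at h1
      obtain ⟨v, hv, hvi⟩ := h1
      have h2 : ¬ ∀ v ∈ NN g S, g i v = 0 := by
        intro h3
        have h4 := rk_insert_succ hv hvi
        rw [h, h, rk_insert_same h3] at h4
        omega
      push Not at h2
      obtain ⟨w, hw, hwi⟩ := h2
      rw [tc_insert_succ hi hS hv hvi, tc_insert_succ hi hS hw hwi, ih S hS1, ih (insert i S) hS2]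

end tc

section ng
variable {E : Type} [AddCommGroup E] [Module ℝ E] {ι : Type} [Fintype ι] [DecidableEq ι]
  (f : ι → Module.Dual ℝ E)

/-- the number of the good first chambers -/
noncomputable def ng (lam : ι → ℕ) : ℤ := ∑ D : ι → SignType, ib (gd f D lam)

variable {f}

lemma ib_all (n : ℕ) (P : ℕ → Prop) :
    ∏ j ∈ Finset.range n, ib (P j) = ib (∀ j, j < n → P j) := by
  induction n with
  | zero => rw [Finset.range_zero, Finset.prod_empty, ib_pos fun j hj => absurd hj (by omega)]
  | succ n ih =>
    rw [Finset.prod_range_succ, ih, ← ib_and]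
    apply ib_congr
    constructor
    · rintro ⟨h1, h2⟩ j hj
      rcases Nat.lt_succ_iff_lt_or_eq.1 hj with h | h
      · exact h1 j h
      · rw [h]
        exact h2
    · exact fun h => ⟨fun j hj => h j (by omega), h n (by omega)⟩

/-- the number of the good chambers as a product -/
theorem ng_prod (lam : ι → ℕ) : ng f lam = ∏ j ∈ Finset.range (∑ i, lam i + 1),
    tc f (Finset.univ.filter fun i => j < lam i) (Finset.univ.filter fun i => lam i = j) := by
  classical
  set N := ∑ i, lam i with hN
  have hle : ∀ i, lam i ≤ N := fun i =>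
    Finset.single_le_sum (f := lam) (fun i _ => Nat.zero_le _) (Finset.mem_univ i)
  set B : ℕ → Finset ι := fun j => Finset.univ.filter fun i => lam i = j with hB
  have hdis : ∀ i j, i ≠ j → Disjoint (B i) (B j) := by
    intro i j hij
    rw [Finset.disjoint_left]
    intro x hx hy
    exact hij ((Finset.mem_filter.1 hx).2.symm.trans (Finset.mem_filter.1 hy).2)
  have hU : (Finset.range (N + 1)).biUnion B = Finset.univ := by
    ext i
    rw [Finset.mem_biUnion]
    exact ⟨fun _ => Finset.mem_univ i, fun _ => ⟨lam i, Finset.mem_range.2 (by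
      have := hle i
      omega), Finset.mem_filter.2 ⟨Finset.mem_univ i, rfl⟩⟩⟩
  have h1 := sum_prod (Finset.range (N + 1)) B hdis
    fun j Q => ib (TT f (Finset.univ.filter fun i => j < lam i) (B j) Q)
  rw [hU] at h1
  unfold tc
  rw [← h1]
  unfold ng
  -- the sign vectors of the subsets
  set s : Finset ι → ι → SignType := fun P i => if i ∈ P then 1 else -1 with hs
  have hsinj : Function.Injective s := by
    intro P Q h
    ext i
    have h2 := congrFun h i
    rw [hs] at h2
    simp only at h2
    by_cases h3 : i ∈ P <;> by_cases h4 : i ∈ Q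
    · exact ⟨fun _ => h4, fun _ => h3⟩
    · rw [if_pos h3, if_neg h4] at h2
      exact absurd h2 (by decide)
    · rw [if_neg h3, if_pos h4] at h2
      exact absurd h2 (by decide)
    · exact ⟨fun h => absurd h h3, fun h => absurd h h4⟩
  have h2 : ∀ P ∈ (Finset.univ : Finset ι).powerset,
      ∏ j ∈ Finset.range (N + 1), ib (TT f (Finset.univ.filter fun i => j < lam i) (B j)
        (P ∩ B j)) = ib (gd f (s P) lam) := by
    intro P _
    rw [ib_all]
    apply ib_congr
    have h3 : ∀ j, TT f (Finset.univ.filter fun i => j < lam i) (B j) (P ∩ B j) ↔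
        Lv f (s P) lam j := by
      intro j
      refine exists_congr fun p => ?_
      constructor
      · rintro ⟨h4, h5⟩
        refine ⟨fun i hi => h4 i (Finset.mem_filter.2 ⟨Finset.mem_univ i, hi⟩), fun i hi => ?_⟩
        have hiB : i ∈ B j := Finset.mem_filter.2 ⟨Finset.mem_univ i, hi⟩
        rw [h5 i hiB]
        simp only [Finset.mem_inter, hiB, and_true]
        rfl
      · rintro ⟨h4, h5⟩
        refine ⟨fun i hi => h4 i (Finset.mem_filter.1 hi).2, fun i hi => ?_⟩
        rw [h5 i (Finset.mem_filter.1 hi).2]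
        simp only [Finset.mem_inter, hi, and_true]
        rfl
    constructor
    · intro h4
      refine ⟨fun i => ?_, fun j => ?_⟩
      · rw [hs]
        simp only
        split_ifs <;> decide
      · by_cases hj : j < N + 1
        · exact (h3 j).1 (h4 j hj)
        · exact ⟨0, fun _ _ => map_zero _, fun i hi => by
            have := hle i
            omega⟩
    · exact fun h4 j _ => (h3 j).2 (h4.2 j)
  rw [Finset.sum_congr rfl h2]
  rw [← Finset.sum_image (f := fun D => ib (gd f D lam)) (g := s)
    (s := (Finset.univ : Finset ι).powerset) fun a _ b _ h => hsinj h]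
  symm
  apply Finset.sum_subset (Finset.subset_univ _)
  intro D _ hD
  apply ib_neg
  rintro ⟨h3, _⟩
  apply hD
  rw [Finset.mem_image]
  refine ⟨Finset.univ.filter fun i => D i = 1, Finset.mem_powerset.2 (Finset.subset_univ _), ?_⟩
  funext i
  rw [hs]
  simp only [Finset.mem_filter, Finset.mem_univ, true_and]
  have h4 := h3 i
  revert h4
  cases D i <;> decide

/-- **the number of the good chambers depends only on the rank function** -/
theorem ng_eq [Module.Finite ℝ E] {E' : Type} [AddCommGroup E'] [Module ℝ E']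
    [Module.Finite ℝ E'] {g : ι → Module.Dual ℝ E'} (h : ∀ S, rk f S = rk g S) (lam : ι → ℕ) :
    ng f lam = ng g lam := by
  rw [ng_prod, ng_prod]
  refine Finset.prod_congr rfl fun j _ => ?_
  apply tc_eq h
  rw [Finset.disjoint_left]
  intro i h1 h2
  have h3 := (Finset.mem_filter.1 h1).2
  have h4 := (Finset.mem_filter.1 h2).2
  omega

lemma kap_eq {E' : Type} [AddCommGroup E'] [Module ℝ E']
    {g : ι → Module.Dual ℝ E'} (h : ∀ S, rk f S = rk g S) (lam : ι → ℕ) :
    kap f lam = kap g lam := by
  unfold kap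
  exact Finset.sum_congr rfl fun j _ => h _

end ng

end Q161.Mg
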