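import Pool.Agent.Q161.MgK
import Pool.Agent.Q161.MgP

set_option autoImplicit false

/-!
Ranks of the homology with a given first chamber and multidegree.
-/

namespace Q161.Mg

open Finsupp Module

section fin
variable {B J : Type}

lemma fin_supported {P : B → Prop} (h : {b | P b}.Finite) :
    Module.Finite ℤ (Finsupp.supported ℤ ℤ {b | P b}) := by
  have := h.to_subtype
  exact Module.Finite.equiv (Finsupp.supportedEquivFinsupp (M := ℤ) (R := ℤ) {b | P b}).symm

lemma finrank_supported {P : B → Prop} (h : {b | P b}.Finite) :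
    finrank ℤ (Finsupp.supported ℤ ℤ {b | P b}) = {b | P b}.ncard := by
  have := h.fintype
  rw [LinearEquiv.finrank_eq (Finsupp.supportedEquivFinsupp (M := ℤ) (R := ℤ) {b | P b}),
    finrank_finsupp_self, Set.ncard_eq_toFinset_card', Set.toFinset_card]

/-- rank and nullity on a submodule -/
lemma rank_null {M N : Type} [AddCommGroup M] [AddCommGroup N] (φ : M →ₗ[ℤ] N)
    (C : Submodule ℤ M) [Module.Finite ℤ C] :
    finrank ℤ C = finrank ℤ (C ⊓ LinearMap.ker φ : Submodule ℤ M) + finrank ℤ (C.map φ) := by
  have h2 : finrank ℤ (LinearMap.range (φ.domRestrict C)) +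
      finrank ℤ (LinearMap.ker (φ.domRestrict C)) = finrank ℤ C := by
    have h3 := (LinearMap.ker (φ.domRestrict C)).finrank_quotient_add_finrank
    rw [LinearEquiv.finrank_eq (φ.domRestrict C).quotKerEquivRange] at h3
    exact h3
  have h4 : LinearMap.range (φ.domRestrict C) = C.map φ := by
    ext x
    simp [LinearMap.mem_range, Submodule.mem_map]
  have h5 : finrank ℤ (LinearMap.ker (φ.domRestrict C)) =
      finrank ℤ (C ⊓ LinearMap.ker φ : Submodule ℤ M) := by
    have h6 : LinearMap.ker (φ.domRestrict C) = (C ⊓ LinearMap.ker φ).submoduleOf C := by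
      ext x
      simp [Submodule.submoduleOf]
    rw [h6]
    exact LinearEquiv.finrank_eq (Submodule.submoduleOfEquivOfLe inf_le_left)
  rw [h4, h5] at h2
  omega

lemma fl_add (g : B → J) (j : J) (c c' : B →₀ ℤ) : fl g j (c + c') = fl g j c + fl g j c' := by
  ext b
  by_cases h : g b = j
  · rw [Finsupp.add_apply, fl_pos _ h, fl_pos _ h, fl_pos _ h, Finsupp.add_apply]
  · rw [Finsupp.add_apply, fl_neg _ h, fl_neg _ h, fl_neg _ h, add_zero]

lemma fl_smul (g : B → J) (j : J) (a : ℤ) (c : B →₀ ℤ) : fl g j (a • c) = a • fl g j c := by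
  ext b
  by_cases h : g b = j
  · rw [Finsupp.smul_apply, fl_pos _ h, fl_pos _ h, Finsupp.smul_apply]
  · rw [Finsupp.smul_apply, fl_neg _ h, fl_neg _ h, smul_zero]

/-- the rank of a graded submodule -/
lemma finrank_graded (g : B → J) (Z : Submodule ℤ (B →₀ ℤ)) (K : Finset J) [Module.Finite ℤ Z]
    (hfl : ∀ c ∈ Z, ∀ j, fl g j c ∈ Z) (hK : ∀ c ∈ Z, ∀ b, c b ≠ 0 → g b ∈ K) :
    finrank ℤ Z = ∑ j ∈ K,
      finrank ℤ (Z ⊓ Finsupp.supported ℤ ℤ {b | g b = j} : Submodule ℤ (B →₀ ℤ)) := by
  classical
  have hsup : ∀ (c : B →₀ ℤ) (j : J), fl g j c ∈ Finsupp.supported ℤ ℤ {b | g b = j} := by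
    intro c j b hb
    by_contra h
    exact (Finsupp.mem_support_iff.1 (Finset.mem_coe.1 hb)) (fl_neg c h)
  have hfin : ∀ j, Module.Finite ℤ
      (Z ⊓ Finsupp.supported ℤ ℤ {b | g b = j} : Submodule ℤ (B →₀ ℤ)) := fun j =>
    Module.Finite.of_injective (Submodule.inclusion inf_le_left) (Submodule.inclusion_injective _)
  let e : Z ≃ₗ[ℤ] ((j : K) → (Z ⊓ Finsupp.supported ℤ ℤ {b | g b = j.1} :
      Submodule ℤ (B →₀ ℤ))) :=
    { toFun := fun c j => ⟨fl g j.1 c.1, hfl c.1 c.2 j.1, hsup c.1 j.1⟩
      map_add' := by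
        intro c c'
        funext j
        apply Subtype.ext
        exact fl_add g j.1 c.1 c'.1
      map_smul' := by
        intro a c
        funext j
        apply Subtype.ext
        exact fl_smul g j.1 a c.1
      invFun := fun z => ⟨∑ j : K, (z j).1, Submodule.sum_mem _ fun j _ => (z j).2.1⟩
      left_inv := by
        intro c
        apply Subtype.ext
        show ∑ j : K, fl g j.1 c.1 = c.1
        ext b
        rw [Finsupp.finsetSum_apply]
        by_cases hb : c.1 b = 0
        · rw [hb]
          apply Finset.sum_eq_zero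
          intro j _
          by_cases hj : g b = j.1
          · rw [fl_pos _ hj, hb]
          · rw [fl_neg _ hj]
        · rw [Finset.sum_eq_single ⟨g b, hK c.1 c.2 b hb⟩]
          · rw [fl_pos _ rfl]
          · intro j _ hj
            apply fl_neg
            intro h
            apply hj
            exact Subtype.ext h.symm
          · intro h
            exact absurd (Finset.mem_univ _) h
      right_inv := by
        intro z
        funext j
        apply Subtype.ext
        show fl g j.1 (∑ i : K, (z i).1) = (z j).1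
        ext b
        have hz : ∀ i : K, g b ≠ i.1 → (z i).1 b = 0 := by
          intro i hi
          by_contra h
          exact hi ((z i).2.2 (Finset.mem_coe.2 (Finsupp.mem_support_iff.2 h)))
        by_cases hj : g b = j.1
        · rw [fl_pos _ hj, Finsupp.finsetSum_apply, Finset.sum_eq_single j]
          · intro i _ hi
            apply hz
            intro h
            apply hi
            exact Subtype.ext (h.symm.trans hj)
          · intro h
            exact absurd (Finset.mem_univ _) h
        · rw [fl_neg _ hj, hz j hj] }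
  rw [LinearEquiv.finrank_eq e, finrank_pi_fintype]
  exact Finset.sum_coe_sort K fun j =>
    finrank ℤ (Z ⊓ Finsupp.supported ℤ ℤ {b | g b = j} : Submodule ℤ (B →₀ ℤ))

end fin

section blocks
variable {E : Type} [AddCommGroup E] [Module ℝ E] {ι : Type} [Fintype ι] [DecidableEq ι]
  (f : ι → Module.Dual ℝ E)

/-- the differential as a linear map -/
noncomputable def dLin (D : ι → SignType) :
    (List (ι → SignType) →₀ ℤ) →ₗ[ℤ] (List (ι → SignType) →₀ ℤ) := (dA D).toIntLinearMap

/-- the chains -/
noncomputable def CG (D : ι → SignType) (lam : ι → ℕ) (k : ℕ) :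
    Submodule ℤ (List (ι → SignType) →₀ ℤ) := Finsupp.supported ℤ ℤ {l | Gn f D lam k l}

/-- the cycles -/
noncomputable def ZG (D : ι → SignType) (lam : ι → ℕ) (k : ℕ) :
    Submodule ℤ (List (ι → SignType) →₀ ℤ) := CG f D lam k ⊓ LinearMap.ker (dLin D)

/-- the boundaries -/
noncomputable def BG (D : ι → SignType) (lam : ι → ℕ) (k : ℕ) :
    Submodule ℤ (List (ι → SignType) →₀ ℤ) := (CG f D lam (k + 1)).map (dLin D)

variable {f}

lemma mem_CG {D : ι → SignType} {lam : ι → ℕ} {k : ℕ} {c : List (ι → SignType) →₀ ℤ} :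
    c ∈ CG f D lam k ↔ ∀ l, c l ≠ 0 → Gn f D lam k l := by
  constructor
  · intro h l hl
    exact h (Finset.mem_coe.2 (Finsupp.mem_support_iff.2 hl))
  · intro h l hl
    exact h l (Finsupp.mem_support_iff.1 (Finset.mem_coe.1 hl))

lemma mem_ZG {D : ι → SignType} {lam : ι → ℕ} {k : ℕ} {c : List (ι → SignType) →₀ ℤ} :
    c ∈ ZG f D lam k ↔ (∀ l, c l ≠ 0 → Gn f D lam k l) ∧ dA D c = 0 := by
  unfold ZG
  rw [Submodule.mem_inf, mem_CG, LinearMap.mem_ker]
  exact Iff.rfl

lemma mem_BG {D : ι → SignType} {lam : ι → ℕ} {k : ℕ} {c : List (ι → SignType) →₀ ℤ} :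
    c ∈ BG f D lam k ↔ ∃ e, (∀ l, e l ≠ 0 → Gn f D lam (k + 1) l) ∧ dA D e = c := by
  unfold BG
  rw [Submodule.mem_map]
  refine exists_congr fun e => ?_
  rw [mem_CG]
  exact Iff.rfl

lemma gn_finite (D : ι → SignType) (lam : ι → ℕ) (k : ℕ) : {l | Gn f D lam k l}.Finite :=
  (List.finite_length_eq (ι → SignType) k).subset fun _ h => h.2.2

instance (D : ι → SignType) (lam : ι → ℕ) (k : ℕ) : Module.Finite ℤ (CG f D lam k) :=
  fin_supported (gn_finite D lam k)

lemma BG_le_ZG {D : ι → SignType} (hD : IsT f D) (lam : ι → ℕ) (k : ℕ) :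
    BG f D lam k ≤ ZG f D lam k := by
  intro c hc
  obtain ⟨e, he, rfl⟩ := mem_BG.1 hc
  rw [mem_ZG]
  refine ⟨fun l hl => ?_, dA_dA D e⟩
  obtain ⟨l1, h1, h2⟩ := dA_supp D e l hl
  exact (he l1 h1).del hD h2

lemma BG_eq_ZG [Module.Finite ℝ E] {D : ι → SignType} (hD : IsT f D) (lam : ι → ℕ) {k : ℕ}
    (hk : k ≠ kap f lam) : BG f D lam k = ZG f D lam k := by
  apply le_antisymm (BG_le_ZG hD lam k)
  intro c hc
  obtain ⟨h1, h2⟩ := mem_ZG.1 hc
  exact mem_BG.2 (exM_main _ D lam hD rfl k hk ℤ c h1 h2)

lemma length_le {D : ι → SignType} {l : List (ι → SignType)} (h : Vl f D l) :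
    l.length ≤ ∑ i, mu D l i := by
  induction l generalizing D with
  | nil => exact Nat.zero_le _
  | cons y l ih =>
    have h1 := ih h.2.2
    have h2 : ∑ i, mu D (y :: l) i = ∑ i, ind D y i + ∑ i, mu y l i := by
      rw [← Finset.sum_add_distrib]
      rfl
    have h3 := sum_ind_pos h.2.1
    rw [h2, List.length_cons]
    omega

lemma BG_eq_bot {D : ι → SignType} {lam : ι → ℕ} {k : ℕ} (hk : ∑ i, lam i ≤ k) :
    BG f D lam k = ⊥ := by
  rw [eq_bot_iff]
  intro c hc
  obtain ⟨e, he, rfl⟩ := mem_BG.1 hc
  have h0 : e = 0 := by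
    ext l
    by_contra h
    obtain ⟨h1, h2, h3⟩ := he l h
    have := length_le h1
    rw [h2, h3] at this
    omega
  rw [h0, map_zero]
  exact Submodule.zero_mem _

lemma CG_zero (D : ι → SignType) (lam : ι → ℕ) : ZG f D lam 0 = CG f D lam 0 := by
  have h0 : ZG f D lam 0 ≤ CG f D lam 0 := inf_le_left
  refine le_antisymm h0 fun c hc => ?_
  rw [mem_ZG]
  refine ⟨mem_CG.1 hc, ?_⟩
  have h1 : c = single [] (c []) := by
    ext l
    by_cases hl : l = []
    · rw [hl, Finsupp.single_eq_same]
    · rw [Finsupp.single_eq_of_ne hl]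
      by_contra h
      exact hl (List.length_eq_zero_iff.1 (mem_CG.1 hc l h).2.2)
  rw [h1, dA_single, dd_nil]

lemma mu_cons_iff {D y : ι → SignType} {lam : ι → ℕ} {l : List (ι → SignType)} :
    mu D (y :: l) = lam ↔ ind D y ≤ lam ∧ mu y l = lam - ind D y := by
  constructor
  · rintro rfl
    constructor
    · intro i
      exact Nat.le_add_right _ _
    · funext i
      show mu y l i = ind D y i + mu y l i - ind D y i
      omega
  · rintro ⟨h1, h2⟩
    funext i
    show ind D y i + mu y l i = lam i
    rw [h2, Pi.sub_apply]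
    have : ind D y i ≤ lam i := h1 i
    omega

/-- the number of the generators -/
lemma ncard_gn : ∀ (k : ℕ) (D : ι → SignType) (lam : ι → ℕ),
    {l | Gn f D lam k l}.ncard = cn f k D lam := by
  classical
  intro k
  induction k with
  | zero =>
    intro D lam
    rw [cn]
    by_cases h0 : lam = 0
    · rw [if_pos h0]
      have : {l | Gn f D lam 0 l} = {[]} := by
        ext l
        rw [Set.mem_ofPred_eq, Set.mem_singleton_iff]
        constructor
        · exact fun h => List.length_eq_zero_iff.1 h.2.2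
        · rintro rfl
          exact ⟨trivial, h0.symm, rfl⟩
      rw [this, Set.ncard_singleton]
    · rw [if_neg h0]
      have : {l | Gn f D lam 0 l} = ∅ := by
        ext l
        rw [Set.mem_ofPred_eq, Set.mem_empty_iff_false, iff_false]
        intro h
        apply h0
        have h1 := List.length_eq_zero_iff.1 h.2.2
        rw [← h.2.1, h1]
        rfl
      rw [this, Set.ncard_empty]
  | succ k ih =>
    intro D lam
    rw [cn]
    set g : List (ι → SignType) → (ι → SignType) := fun l => l.headD D with hg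
    rw [Set.ncard_eq_toFinset_card _ (gn_finite D lam (k + 1)),
      Finset.card_eq_sum_card_fiberwise (f := g) (t := Finset.univ)
        fun _ _ => Finset.mem_coe.2 (Finset.mem_univ _)]
    refine Finset.sum_congr rfl fun y _ => ?_
    by_cases hy : IsT f y ∧ y ≠ D ∧ ind D y ≤ lam
    · rw [if_pos hy, ← ih, Set.ncard_eq_toFinset_card _ (gn_finite y (lam - ind D y) k)]
      symm
      apply Finset.card_bij (fun l _ => y :: l)
      · intro l hl
        rw [Set.Finite.mem_toFinset] at hl
        rw [Finset.mem_filter, Set.Finite.mem_toFinset]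
        refine ⟨⟨⟨hy.1, hy.2.1, hl.1⟩, mu_cons_iff.2 ⟨hy.2.2, hl.2.1⟩, ?_⟩, rfl⟩
        rw [List.length_cons, hl.2.2]
      · intro a _ b _ h
        exact (List.cons.inj h).2
      · intro l hl
        rw [Finset.mem_filter, Set.Finite.mem_toFinset] at hl
        obtain ⟨⟨h1, h2, h3⟩, h4⟩ := hl
        rcases l with _ | ⟨z, t⟩
        · exact absurd h3 (by simp)
        · have hz : z = y := h4
          subst hz
          refine ⟨t, ?_, rfl⟩
          rw [Set.Finite.mem_toFinset]
          exact ⟨h1.2.2, (mu_cons_iff.1 h2).2, by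
            rw [List.length_cons] at h3
            omega⟩
    · rw [if_neg hy, Finset.card_eq_zero, Finset.filter_eq_empty_iff]
      intro l hl h4
      apply hy
      rw [Set.Finite.mem_toFinset] at hl
      obtain ⟨h1, h2, h3⟩ := hl
      rcases l with _ | ⟨z, t⟩
      · exact absurd h3 (by simp)
      · have hz : z = y := h4
        subst hz
        exact ⟨h1.1, h1.2.1, (mu_cons_iff.1 h2).1⟩

lemma finrank_CG (D : ι → SignType) (lam : ι → ℕ) (k : ℕ) :
    finrank ℤ (CG f D lam k) = cn f k D lam := by
  rw [← ncard_gn]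
  exact finrank_supported (gn_finite D lam k)

/-- **the rank of the homology of one block** -/
theorem block_rank [Module.Finite ℝ E] {D : ι → SignType} (hD : IsT f D) (lam : ι → ℕ) (k : ℕ) :
    (finrank ℤ (ZG f D lam k) : ℤ) - finrank ℤ (BG f D lam k) =
      if k = kap f lam then ib (gd f D lam) else 0 := by
  by_cases hk : k = kap f lam
  · rw [if_pos hk]
    set z : ℕ → ℤ := fun k => finrank ℤ (ZG f D lam k) with hz
    set b : ℕ → ℤ := fun k => finrank ℤ (BG f D lam k) with hb
    have h0 : (cn f 0 D lam : ℤ) = z 0 := by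
      rw [hz]
      simp only
      rw [CG_zero, finrank_CG]
    have h1 : ∀ k, (cn f (k + 1) D lam : ℤ) = z (k + 1) + b k := by
      intro k
      have := rank_null (dLin D) (CG f D lam (k + 1))
      rw [finrank_CG] at this
      rw [this]
      push_cast
      rfl
    have h2 : ∀ n, chi f (n + 1) D lam =
        ∑ k ∈ Finset.range (n + 1), (-1 : ℤ) ^ k * (z k - b k) + (-1) ^ n * b n := by
      intro n
      induction n with
      | zero =>
        unfold chi
        simp only [zero_add, Finset.sum_range_one, pow_zero, one_mul]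
        rw [h0]
        ring
      | succ n ih =>
        have h3 : chi f (n + 1 + 1) D lam = chi f (n + 1) D lam +
            (-1 : ℤ) ^ (n + 1) * (cn f (n + 1) D lam : ℤ) := by
          unfold chi
          rw [Finset.sum_range_succ]
        rw [h3, ih, h1, Finset.sum_range_succ _ (n + 1), pow_succ]
        ring
    set n := max (∑ i, lam i) (kap f lam) with hn
    have h3 := h2 n
    have h4 : b n = 0 := by
      rw [hb]
      simp only
      rw [BG_eq_bot (le_max_left _ _), finrank_bot]
      rfl
    rw [h4, mul_zero, add_zero, Finset.sum_eq_single (kap f lam)] at h3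
    · rw [chi_eq (n + 1) D lam hD (by
        have := le_max_left (∑ i, lam i) (kap f lam)
        omega)] at h3
      unfold gg at h3
      have h5 : ((-1 : ℤ) ^ kap f lam) * ((-1 : ℤ) ^ kap f lam) = 1 := by
        rw [← pow_add]
        exact Even.neg_one_pow ⟨_, rfl⟩
      have h6 : ib (gd f D lam) = z (kap f lam) - b (kap f lam) := by
        have h7 := congrArg (fun x => ((-1 : ℤ) ^ kap f lam) * x) h3
        linear_combination h7 - (ib (gd f D lam) - (z (kap f lam) - b (kap f lam))) * h5
      rw [hk, h6]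
    · intro k _ hk'
      have h5 : z k = b k := by
        rw [hz, hb]
        simp only
        rw [BG_eq_ZG hD lam hk']
      rw [h5, sub_self, mul_zero]
    · intro h
      exfalso
      apply h
      rw [Finset.mem_range]
      have := le_max_right (∑ i, lam i) (kap f lam)
      omega
  · rw [if_neg hk, BG_eq_ZG hD lam hk, sub_self]

end blocks

end Q161.Mg
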