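import Pool.Agent.Q161.MgQ
import Pool.Agent.Q161.MgL

set_option autoImplicit false

/-!
The rank of the magnitude homology of the tope graph.
-/

namespace Q161.Mg

open Finsupp Module

section total
variable {E : Type} [AddCommGroup E] [Module ℝ E] {ι : Type} [Fintype ι] [DecidableEq ι]
  (f : ι → Module.Dual ℝ E)

/-- the total differential as a linear map -/
noncomputable def dTL : (List (ι → SignType) →₀ ℤ) →ₗ[ℤ] (List (ι → SignType) →₀ ℤ) :=
  (dT (ι := ι) (M := ℤ)).toIntLinearMap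

/-- all chains -/
noncomputable def CT (k n : ℕ) : Submodule ℤ (List (ι → SignType) →₀ ℤ) :=
  Finsupp.supported ℤ ℤ {l | Gt f k n l}

/-- all cycles -/
noncomputable def ZT (k n : ℕ) : Submodule ℤ (List (ι → SignType) →₀ ℤ) :=
  CT f k n ⊓ LinearMap.ker dTL

/-- all boundaries -/
noncomputable def BT (k n : ℕ) : Submodule ℤ (List (ι → SignType) →₀ ℤ) :=
  (CT f (k + 1) n).map dTL

variable {f}

lemma mem_CT {k n : ℕ} {c : List (ι → SignType) →₀ ℤ} :
    c ∈ CT f k n ↔ ∀ l, c l ≠ 0 → Gt f k n l := by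
  constructor
  · intro h l hl
    exact h (Finset.mem_coe.2 (Finsupp.mem_support_iff.2 hl))
  · intro h l hl
    exact h l (Finsupp.mem_support_iff.1 (Finset.mem_coe.1 hl))

lemma mem_ZT {k n : ℕ} {c : List (ι → SignType) →₀ ℤ} :
    c ∈ ZT f k n ↔ (∀ l, c l ≠ 0 → Gt f k n l) ∧ dT c = 0 := by
  unfold ZT
  rw [Submodule.mem_inf, mem_CT, LinearMap.mem_ker]
  exact Iff.rfl

lemma mem_BT {k n : ℕ} {c : List (ι → SignType) →₀ ℤ} :
    c ∈ BT f k n ↔ ∃ e, (∀ l, e l ≠ 0 → Gt f (k + 1) n l) ∧ dT e = c := by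
  unfold BT
  rw [Submodule.mem_map]
  refine exists_congr fun e => ?_
  rw [mem_CT]
  exact Iff.rfl

lemma gt_finite (k n : ℕ) : {l | Gt f k n l}.Finite :=
  (List.finite_length_eq (ι → SignType) (k + 1)).subset fun _ h => by
    obtain ⟨D, l, rfl, _, _, h3, _⟩ := h
    show (D :: l).length = k + 1
    rw [List.length_cons, h3]

instance (k n : ℕ) : Module.Finite ℤ (CT f k n) := fin_supported (gt_finite k n)

instance (k n : ℕ) : Module.Finite ℤ (ZT f k n) :=
  Module.Finite.of_injective (Submodule.inclusion (inf_le_left : ZT f k n ≤ CT f k n))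
    (Submodule.inclusion_injective _)

instance (k n : ℕ) : Module.Finite ℤ (BT f k n) := by
  unfold BT
  exact Module.Finite.map _ _

variable (f) in
/-- the degrees -/
noncomputable def KK (n : ℕ) : Finset (Option (ι → SignType) × (ι → ℕ)) := by
  classical
  exact ((Finset.univ.filter fun D : ι → SignType => IsT f D) ×ˢ
    Finset.piAntidiag Finset.univ n).image fun x => (Option.some x.1, x.2)

lemma gr_mem {k n : ℕ} {l : List (ι → SignType)} (h : Gt f k n l) : gr l ∈ KK f n := by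
  classical
  obtain ⟨D, l, rfl, h1, _, _, h4⟩ := h
  unfold KK
  rw [Finset.mem_image]
  refine ⟨(D, mu D l), ?_, rfl⟩
  rw [Finset.mem_product, Finset.mem_filter, Finset.mem_piAntidiag]
  exact ⟨⟨Finset.mem_univ _, h1⟩, h4, fun i _ => Finset.mem_univ i⟩

lemma fl_ne {c : List (ι → SignType) →₀ ℤ} {j : Option (ι → SignType) × (ι → ℕ)}
    {b : List (ι → SignType)} (h : fl gr j c b ≠ 0) : c b ≠ 0 ∧ gr b = j := by
  by_cases h1 : gr b = j
  · rw [fl_pos _ h1] at h
    exact ⟨h, h1⟩
  · exact absurd (fl_neg c h1) h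

lemma gr_eq {D : ι → SignType} {lam : ι → ℕ} {b : List (ι → SignType)}
    (hb : gr b = (Option.some D, lam)) : ∃ t, b = D :: t ∧ mu D t = lam := by
  rcases b with _ | ⟨D', t⟩
  · exact absurd (congrArg Prod.fst hb) (by simp [gr])
  · have h1 : Option.some D' = Option.some D := congrArg Prod.fst hb
    have h2 : mu D' t = lam := congrArg Prod.snd hb
    obtain rfl := Option.some.inj h1
    exact ⟨t, rfl, h2⟩

/-- the chains that start with `D` -/
lemma gn_of_gt {D : ι → SignType} {lam : ι → ℕ} {k n : ℕ} {t : List (ι → SignType)}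
    (h : Gt f k n (D :: t)) (hm : mu D t = lam) : Gn f D lam k t := by
  obtain ⟨D1, l1, he1, _, h3, h4, _⟩ := h
  obtain ⟨rfl, rfl⟩ := List.cons.inj he1
  exact ⟨h3, hm, h4⟩

lemma gt_of_gn {D : ι → SignType} (hD : IsT f D) {lam : ι → ℕ} {k n : ℕ}
    {t : List (ι → SignType)} (h : Gn f D lam k t) (hn : ∑ i, lam i = n) :
    Gt f k n (D :: t) :=
  ⟨D, t, rfl, hD, h.1, h.2.2, by rw [h.2.1]; exact hn⟩

lemma consM_ne {D : ι → SignType} {c : List (ι → SignType) →₀ ℤ} {b : List (ι → SignType)}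
    (h : consM D c b ≠ 0) : ∃ t, b = D :: t ∧ c t ≠ 0 := by
  by_cases hb : ∃ t, b = D :: t
  · obtain ⟨t, rfl⟩ := hb
    rw [consM_apply] at h
    exact ⟨t, rfl, h⟩
  · exact absurd (mapD_notin _ _ _ fun a ha => hb ⟨a, ha.symm⟩) h

/-- `consM` as a linear map -/
noncomputable def cL (D : ι → SignType) :
    (List (ι → SignType) →₀ ℤ) →ₗ[ℤ] (List (ι → SignType) →₀ ℤ) :=
  (consM (M := ℤ) D).toIntLinearMap

lemma cL_injective (D : ι → SignType) : Function.Injective (cL D) := consM_injective D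

lemma mem_sup_gr {j : Option (ι → SignType) × (ι → ℕ)} {c : List (ι → SignType) →₀ ℤ} :
    c ∈ Finsupp.supported ℤ ℤ {b | gr b = j} ↔ ∀ b, c b ≠ 0 → gr b = j := by
  constructor
  · intro h l hl
    exact h (Finset.mem_coe.2 (Finsupp.mem_support_iff.2 hl))
  · intro h l hl
    exact h l (Finsupp.mem_support_iff.1 (Finset.mem_coe.1 hl))

lemma ZT_block {D : ι → SignType} (hD : IsT f D) {lam : ι → ℕ} {k n : ℕ}
    (hn : ∑ i, lam i = n) :
    ZT f k n ⊓ Finsupp.supported ℤ ℤ {b | gr b = (Option.some D, lam)} =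
      (ZG f D lam k).map (cL D) := by
  ext c
  rw [Submodule.mem_inf, mem_ZT, mem_sup_gr, Submodule.mem_map]
  constructor
  · rintro ⟨⟨h1, h2⟩, h3⟩
    obtain ⟨c', hc'⟩ := exists_consM D c fun l hl => (gr_eq (h3 l hl)).imp fun _ h => h.1
    refine ⟨c', ?_, hc'⟩
    rw [mem_ZG]
    constructor
    · intro l hl
      rw [← consM_apply D c' l, hc'] at hl
      obtain ⟨t, ht, hm⟩ := gr_eq (h3 _ hl)
      obtain ⟨_, rfl⟩ := List.cons.inj ht
      exact gn_of_gt (h1 _ hl) hm
    · apply consM_injective D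
      rw [← dT_cons, hc', h2, map_zero]
  · rintro ⟨c', hc', rfl⟩
    obtain ⟨h1, h2⟩ := mem_ZG.1 hc'
    refine ⟨⟨fun l hl => ?_, ?_⟩, fun l hl => ?_⟩
    · obtain ⟨t, rfl, ht⟩ := consM_ne hl
      exact gt_of_gn hD (h1 t ht) hn
    · show dT (consM D c') = 0
      rw [dT_cons, h2, map_zero]
    · obtain ⟨t, rfl, ht⟩ := consM_ne hl
      show (Option.some D, mu D t) = (Option.some D, lam)
      rw [(h1 t ht).2.1]

lemma BT_block {D : ι → SignType} (hD : IsT f D) {lam : ι → ℕ} {k n : ℕ}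
    (hn : ∑ i, lam i = n) :
    BT f k n ⊓ Finsupp.supported ℤ ℤ {b | gr b = (Option.some D, lam)} =
      (BG f D lam k).map (cL D) := by
  ext c
  rw [Submodule.mem_inf, mem_BT, mem_sup_gr, Submodule.mem_map]
  constructor
  · rintro ⟨⟨e, he, rfl⟩, h3⟩
    have hfl : dT (fl gr (Option.some D, lam) e) = dT e := by
      rw [filter_map dT gr gr_dT]
      ext b
      by_cases hb : gr b = (Option.some D, lam)
      · rw [fl_pos _ hb]
      · rw [fl_neg _ hb]
        by_contra h
        exact hb (h3 b (Ne.symm h))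
    obtain ⟨e', he'⟩ := exists_consM D (fl gr (Option.some D, lam) e)
      fun l hl => (gr_eq (fl_ne hl).2).imp fun _ h => h.1
    refine ⟨dA D e', mem_BG.2 ⟨e', fun l hl => ?_, rfl⟩, ?_⟩
    · rw [← consM_apply D e' l, he'] at hl
      obtain ⟨h4, h5⟩ := fl_ne hl
      obtain ⟨t, ht, hm⟩ := gr_eq h5
      obtain ⟨_, rfl⟩ := List.cons.inj ht
      exact gn_of_gt (he _ h4) hm
    · show consM D (dA D e') = dT e
      rw [← dT_cons, he', hfl]
  · rintro ⟨c', hc', rfl⟩
    obtain ⟨e', he', rfl⟩ := mem_BG.1 hc'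
    refine ⟨⟨consM D e', fun l hl => ?_, dT_cons D e'⟩, fun l hl => ?_⟩
    · obtain ⟨t, rfl, ht⟩ := consM_ne hl
      exact gt_of_gn hD (he' t ht) hn
    · obtain ⟨t, rfl, ht⟩ := consM_ne hl
      obtain ⟨t', h4, h5⟩ := dA_supp D e' t ht
      show (Option.some D, mu D t) = (Option.some D, lam)
      rw [mu_del h5, (he' t' h4).2.1]

/-- **the rank of the total homology** -/
theorem total_rank [Module.Finite ℝ E] (k n : ℕ) :
    (finrank ℤ (ZT f k n) : ℤ) - finrank ℤ (BT f k n) =
      ∑ lam ∈ Finset.piAntidiag (Finset.univ : Finset ι) n,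
        if k = kap f lam then ng f lam else 0 := by
  classical
  have hz := finrank_graded gr (ZT f k n) (KK f n) (by
    intro c hc j
    obtain ⟨h1, h2⟩ := mem_ZT.1 hc
    refine mem_ZT.2 ⟨fun l hl => h1 l (fl_ne hl).1, ?_⟩
    rw [filter_map dT gr gr_dT, h2, fl_zero]) (fun c hc b hb => gr_mem ((mem_ZT.1 hc).1 b hb))
  have hb := finrank_graded gr (BT f k n) (KK f n) (by
    intro c hc j
    obtain ⟨e, he, rfl⟩ := mem_BT.1 hc
    exact mem_BT.2 ⟨fl gr j e, fun l hl => he l (fl_ne hl).1, filter_map dT gr gr_dT e j⟩) (by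
    intro c hc b hb
    obtain ⟨e, he, rfl⟩ := mem_BT.1 hc
    obtain ⟨b', hb', m, hm⟩ := exists_of_map_ne dT e b hb
    rw [gr_dT b' m b hm]
    exact gr_mem (he b' hb'))
  rw [hz, hb]
  push_cast
  rw [← Finset.sum_sub_distrib]
  unfold KK
  rw [Finset.sum_image (by
    rintro ⟨D, l⟩ _ ⟨D', l'⟩ _ h
    have h1 : Option.some D = Option.some D' := congrArg Prod.fst h
    have h2 : l = l' := congrArg Prod.snd h
    rw [Option.some.inj h1, h2]), Finset.sum_product_right]
  refine Finset.sum_congr rfl fun lam hlam => ?_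
  have hn : ∑ i, lam i = n := (Finset.mem_piAntidiag.1 hlam).1
  have key : ∀ D ∈ (Finset.univ.filter fun D : ι → SignType => IsT f D),
      ((finrank ℤ (ZT f k n ⊓ Finsupp.supported ℤ ℤ {b | gr b = (Option.some D, lam)} :
        Submodule ℤ (List (ι → SignType) →₀ ℤ)) : ℤ) -
        (finrank ℤ (BT f k n ⊓ Finsupp.supported ℤ ℤ {b | gr b = (Option.some D, lam)} :
        Submodule ℤ (List (ι → SignType) →₀ ℤ)) : ℤ)) =
      if k = kap f lam then ib (gd f D lam) else 0 := by
    intro D hD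
    have hD' : IsT f D := (Finset.mem_filter.1 hD).2
    rw [ZT_block hD' hn, BT_block hD' hn, ← block_rank hD' lam k]
    rw [← LinearEquiv.finrank_eq (Submodule.equivMapOfInjective (cL D) (cL_injective D)
      (ZG f D lam k)), ← LinearEquiv.finrank_eq (Submodule.equivMapOfInjective (cL D)
      (cL_injective D) (BG f D lam k))]
  rw [Finset.sum_congr rfl key]
  by_cases hk : k = kap f lam
  · simp only [if_pos hk]
    unfold ng
    apply Finset.sum_subset (Finset.filter_subset _ _)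
    intro D _ hD
    apply ib_neg
    intro h
    exact hD (Finset.mem_filter.2 ⟨Finset.mem_univ D, gd_isT h⟩)
  · simp only [if_neg hk]
    exact Finset.sum_const_zero

end total

section tope
open Q138.TopeMag Q138.MagHom
variable {d : ℕ} (A : Arrangement d) [DecidableEq A.ι]

/-- the list of a tuple, linearly -/
noncomputable def TL (k : ℕ) :
    ((Fin (k + 1) → A.Chamber) →₀ ℤ) →ₗ[ℤ] (List (A.ι → SignType) →₀ ℤ) :=
  Finsupp.lmapDomain ℤ ℤ (Tl A)

lemma TL_injective (k : ℕ) : Function.Injective (TL A k) :=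
  Finsupp.mapDomain_injective (Tl_injective A (k + 1))

lemma map_cycles (k l : ℕ) : (cycles A.topeGraph k l).map (TL A k) = ZT A.form k l := by
  ext c
  rw [Submodule.mem_map, mem_ZT]
  constructor
  · rintro ⟨z, hz, rfl⟩
    obtain ⟨h1, h2⟩ := cyc_dT A k l z hz
    exact ⟨map_supp A k l z h1, h2⟩
  · rintro ⟨h1, h2⟩
    obtain ⟨z, hz, hz'⟩ := map_surj A k l c h1
    refine ⟨z, ?_, hz'⟩
    rcases k with _ | k
    · exact hz
    · refine ⟨hz, ?_⟩
      rw [SetLike.mem_coe, LinearMap.mem_ker]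
      apply Finsupp.mapDomain_injective (Tl_injective A (k + 1))
      rw [map_del, hz', h2, mapDomain_zero]

lemma map_boundaries (k l : ℕ) : (boundaries A.topeGraph k l).map (TL A k) = BT A.form k l := by
  ext c
  rw [Submodule.mem_map, mem_BT]
  constructor
  · rintro ⟨z, ⟨w, hw, rfl⟩, rfl⟩
    exact ⟨mapDomain (Tl A) w, map_supp A (k + 1) l w hw, (map_del A k w).symm⟩
  · rintro ⟨e, he, rfl⟩
    obtain ⟨w, hw, hw'⟩ := map_surj A (k + 1) l e he
    refine ⟨del A.topeGraph k w, ⟨w, hw, rfl⟩, ?_⟩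
    show mapDomain (Tl A) (del A.topeGraph k w) = dT e
    rw [map_del, hw']

lemma dT_dT {ι : Type} (c : List (ι → SignType) →₀ ℤ) : dT (dT c) = 0 := by
  have : (dT.comp dT : (List (ι → SignType) →₀ ℤ) →+ _) = 0 := by
    refine hom_ext _ _ fun l m => ?_
    simp only [AddMonoidHom.comp_apply, AddMonoidHom.zero_apply]
    rcases l with _ | ⟨D, l⟩
    · rw [dT_single]
      show dT 0 = 0
      rw [map_zero]
    · rw [← consM_single, dT_cons, dT_cons, dA_dA, map_zero]
  exact DFunLike.congr_fun this c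

lemma boundaries_le (k l : ℕ) : boundaries A.topeGraph k l ≤ cycles A.topeGraph k l := by
  intro z hz
  have h1 : TL A k z ∈ BT A.form k l := by
    rw [← map_boundaries]
    exact Submodule.mem_map_of_mem hz
  obtain ⟨e, he, he'⟩ := mem_BT.1 h1
  have h2 : TL A k z ∈ ZT A.form k l := by
    rw [← he', mem_ZT]
    refine ⟨fun b hb => ?_, dT_dT e⟩
    obtain ⟨b', hb', m, hm⟩ := exists_of_map_ne dT e b hb
    obtain ⟨D, t, rfl, hD, h3, h4, h5⟩ := he b' hb'
    rw [dT_single] at hm
    obtain ⟨t', rfl, ht'⟩ := consM_ne hm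
    have h6 := Gn.del (f := A.form) hD (lam := mu D t) (k := k) ⟨h3, rfl, h4⟩ (mem_dd D t m t' ht')
    exact gt_of_gn hD h6 h5
  rw [← map_cycles] at h2
  obtain ⟨z', hz', hz''⟩ := h2
  rw [← TL_injective A k hz'']
  exact hz'

/-- **the rank of the magnitude homology** -/
theorem finrank_MH (k l : ℕ) : (finrank ℤ (MH A.topeGraph k l) : ℤ) =
    ∑ lam ∈ Finset.piAntidiag (Finset.univ : Finset A.ι) l,
      if k = kap A.form lam then ng A.form lam else 0 := by
  have h1 := ((boundaries A.topeGraph k l).submoduleOf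
    (cycles A.topeGraph k l)).finrank_quotient_add_finrank
  rw [LinearEquiv.finrank_eq (Submodule.submoduleOfEquivOfLe (boundaries_le A k l)),
    LinearEquiv.finrank_eq (Submodule.equivMapOfInjective (TL A k) (TL_injective A k)
      (boundaries A.topeGraph k l)),
    LinearEquiv.finrank_eq (Submodule.equivMapOfInjective (TL A k) (TL_injective A k)
      (cycles A.topeGraph k l)), map_cycles, map_boundaries] at h1
  have h2 := total_rank (f := A.form) k l
  rw [← h2, ← h1]
  push_cast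
  ring

end tope

end Q161.Mg
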