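import Pool.Agent.Q161.MgR

set_option autoImplicit false

/-!
The magnitude homology is determined by the intersection lattice.
-/

namespace Q161.Mg

open Finsupp Module Q138.TopeMag Q138.MagHom

section reindex
variable {E : Type} [AddCommGroup E] [Module ℝ E] {ι κ : Type} [Fintype ι] [DecidableEq ι]
  [Fintype κ] [DecidableEq κ] (f : κ → Module.Dual ℝ E) (σ : ι ≃ κ)

lemma rk_reindex (S : Finset ι) (T : Finset κ) (h : ∀ i, i ∈ S ↔ σ i ∈ T) :
    rk (fun i => f (σ i)) S = rk f T := by
  have : NN (fun i => f (σ i)) S = NN f T := by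
    ext v
    rw [mem_NN, mem_NN]
    constructor
    · intro h1 j hj
      have h2 := h1 (σ.symm j) ((h _).2 (by rw [Equiv.apply_symm_apply]; exact hj))
      rwa [Equiv.apply_symm_apply] at h2
    · intro h1 i hi
      exact h1 (σ i) ((h i).1 hi)
  unfold rk
  rw [this]

lemma kap_reindex (lam : κ → ℕ) : kap (fun i => f (σ i)) (fun i => lam (σ i)) = kap f lam := by
  unfold kap
  rw [Equiv.sum_comp σ lam]
  refine Finset.sum_congr rfl fun j _ => ?_
  apply rk_reindex
  intro i
  simp

lemma ng_reindex (lam : κ → ℕ) : ng (fun i => f (σ i)) (fun i => lam (σ i)) = ng f lam := by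
  unfold ng
  symm
  apply Fintype.sum_equiv (Equiv.arrowCongr σ.symm (Equiv.refl SignType))
  intro D
  apply ib_congr
  have e : (Equiv.arrowCongr σ.symm (Equiv.refl SignType)) D = fun i => D (σ i) := rfl
  rw [e]
  unfold gd Lv
  refine and_congr σ.surjective.forall (forall_congr' fun j => exists_congr fun p => ?_)
  exact and_congr σ.surjective.forall σ.surjective.forall

end reindex

section lattice
variable {d : ℕ} (A : Arrangement d)

/-- The intersections of sets of hyperplanes of `A`, ordered by inclusion. -/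
def Inters : Type :=
  {W : Submodule ℝ (Fin d → ℝ) // ∃ S : Set A.ι, W = ⨅ i ∈ S, LinearMap.ker (A.form i)}

instance : PartialOrder (Inters A) := inferInstanceAs (PartialOrder
  {W : Submodule ℝ (Fin d → ℝ) // ∃ S : Set A.ι, W = ⨅ i ∈ S, LinearMap.ker (A.form i)})

/-- The intersection lattice `L(A)`: all intersections of sets of hyperplanes of `A` (the empty
intersection is the whole space), ordered by reverse inclusion. -/
abbrev IntersectionLattice : Type := (Inters A)ᵒᵈ

variable {A}

/-- the hyperplanes in the lattice -/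
noncomputable def hyp (i : A.ι) : Inters A := ⟨LinearMap.ker (A.form i), {i}, by simp⟩

/-- the intersection of a finite set of hyperplanes -/
noncomputable def nn (S : Finset A.ι) : Inters A :=
  ⟨NN A.form S, (S : Set A.ι), by unfold NN; simp⟩

/-- the whole space -/
noncomputable def tp (A : Arrangement d) : Inters A := ⟨⊤, ∅, by simp⟩

lemma le_def {x y : Inters A} : x ≤ y ↔ x.1 ≤ y.1 := Iff.rfl

lemma le_tp (x : Inters A) : x ≤ tp A := le_def.2 le_top

lemma hyp_ne (i : A.ι) : hyp i ≠ tp A := by
  intro h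
  have h1 : LinearMap.ker (A.form i) = ⊤ := congrArg Subtype.val h
  exact A.form_ne_zero i (LinearMap.ker_eq_top.1 h1)

lemma exists_le_hyp {x : Inters A} (hx : x ≠ tp A) : ∃ i, x ≤ hyp i := by
  obtain ⟨W, S, rfl⟩ := x
  rcases S.eq_empty_or_nonempty with rfl | ⟨i, hi⟩
  · exfalso
    apply hx
    apply Subtype.ext
    show (⨅ i ∈ (∅ : Set A.ι), LinearMap.ker (A.form i)) = ⊤
    simp
  · exact ⟨i, le_def.2 (iInf₂_le i hi)⟩

lemma le_nn {x : Inters A} {S : Finset A.ι} : x ≤ nn S ↔ ∀ i ∈ S, x ≤ hyp i := by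
  constructor
  · intro h i hi
    rw [le_def] at h ⊢
    refine h.trans ?_
    intro v hv
    exact (mem_NN.1 hv) i hi
  · intro h
    rw [le_def]
    intro v hv
    show v ∈ NN A.form S
    rw [mem_NN]
    intro i hi
    exact (le_def.1 (h i hi)) hv

lemma hyp_injective : Function.Injective (hyp : A.ι → Inters A) := by
  intro i j h
  exact A.ker_injective (congrArg Subtype.val h)

lemma hyp_le_hyp {i j : A.ι} (h : hyp i ≤ hyp j) : i = j := by
  apply hyp_injective
  apply Subtype.ext
  -- a hyperplane inside another one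
  have h1 : LinearMap.ker (A.form i) ≤ LinearMap.ker (A.form j) := h
  have h2 : ∀ k, finrank ℝ (LinearMap.ker (A.form k)) + 1 = finrank ℝ (Fin d → ℝ) := by
    intro k
    have h3 := LinearMap.finrank_range_add_finrank_ker (A.form k)
    have h4 : LinearMap.range (A.form k) = ⊤ :=
      LinearMap.range_eq_top.2 (LinearMap.surjective (A.form_ne_zero k))
    rw [h4, finrank_top, Module.finrank_self] at h3
    omega
  apply Submodule.eq_of_le_of_finrank_eq h1
  have := h2 i
  have := h2 j
  omega

variable {d' : ℕ} {A' : Arrangement d'}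

lemma map_tp (φ : Inters A ≃o Inters A') : φ (tp A) = tp A' := by
  apply le_antisymm (le_tp _)
  rw [← φ.symm_apply_le]
  exact le_tp _

lemma exists_hyp (φ : Inters A ≃o Inters A') (i : A.ι) : ∃ j, φ (hyp i) = hyp j := by
  have h1 : φ (hyp i) ≠ tp A' := by
    rw [← map_tp φ]
    exact fun h => hyp_ne i (φ.injective h)
  obtain ⟨j, hj⟩ := exists_le_hyp h1
  have h2 : φ.symm (hyp j) ≠ tp A := by
    rw [← map_tp φ.symm]
    exact fun h => hyp_ne j (φ.symm.injective h)
  obtain ⟨i', hi'⟩ := exists_le_hyp h2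
  have h3 : hyp i ≤ φ.symm (hyp j) := by
    rw [φ.le_symm_apply]
    exact hj
  have h4 : i = i' := hyp_le_hyp (h3.trans hi')
  subst h4
  refine ⟨j, le_antisymm hj ?_⟩
  rw [← φ.symm_apply_le]
  exact hi'

/-- the bijection of the hyperplanes -/
lemma exists_equiv (φ : Inters A ≃o Inters A') : ∃ σ : A.ι ≃ A'.ι, ∀ i, φ (hyp i) = hyp (σ i) := by
  choose s hs using exists_hyp φ
  refine ⟨Equiv.ofBijective s ⟨fun i j h => ?_, fun j => ?_⟩, hs⟩
  · apply hyp_injective
    apply φ.injective
    rw [hs, hs, h]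
  · obtain ⟨i, hi⟩ := exists_hyp φ.symm j
    refine ⟨i, ?_⟩
    apply hyp_injective
    rw [← hs, ← hi, φ.apply_symm_apply]

/-- the images of the intersections -/
lemma map_nn [DecidableEq A.ι] [DecidableEq A'.ι] (φ : Inters A ≃o Inters A') (σ : A.ι ≃ A'.ι)
    (hσ : ∀ i, φ (hyp i) = hyp (σ i)) (S : Finset A.ι) : φ (nn S) = nn (S.image σ) := by
  apply le_antisymm
  · rw [le_nn]
    intro j hj
    obtain ⟨i, hi, rfl⟩ := Finset.mem_image.1 hj
    rw [← hσ, φ.le_iff_le]
    exact (le_nn.1 le_rfl) i hi
  · rw [← φ.symm_apply_le, le_nn]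
    intro i hi
    rw [φ.symm_apply_le, hσ]
    exact (le_nn.1 le_rfl) _ (Finset.mem_image_of_mem σ hi)

/-- the rank functions agree -/
theorem rk_eq [DecidableEq A.ι] [DecidableEq A'.ι] (φ : Inters A ≃o Inters A') (σ : A.ι ≃ A'.ι)
    (hσ : ∀ i, φ (hyp i) = hyp (σ i)) (S : Finset A.ι) :
    rk A.form S = rk (fun i => A'.form (σ i)) S := by
  have hNN : ∀ S : Finset A.ι, NN (fun i => A'.form (σ i)) S = NN A'.form (S.image σ) := by
    intro S
    ext v
    rw [mem_NN, mem_NN]
    simp
  have key : ∀ (S : Finset A.ι) (i : A.ι), (∀ v ∈ NN A.form S, A.form i v = 0) ↔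
      ∀ v ∈ NN (fun i => A'.form (σ i)) S, A'.form (σ i) v = 0 := by
    intro S i
    have h1 : (∀ v ∈ NN A.form S, A.form i v = 0) ↔ nn S ≤ hyp i := Iff.rfl
    have h2 : (∀ v ∈ NN (fun i => A'.form (σ i)) S, A'.form (σ i) v = 0) ↔
        nn (S.image σ) ≤ hyp (σ i) := by
      rw [hNN]
      exact Iff.rfl
    rw [h1, h2, ← map_nn φ σ hσ, ← hσ, φ.le_iff_le]
  induction S using Finset.induction_on with
  | empty => rw [rk_empty, rk_empty]
  | insert i S _ ih =>
    by_cases h : ∀ v ∈ NN A.form S, A.form i v = 0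
    · rw [rk_insert_same h, rk_insert_same ((key S i).1 h), ih]
    · have h' := h
      rw [key] at h'
      push Not at h h'
      obtain ⟨v, hv, hvi⟩ := h
      obtain ⟨w, hw, hwi⟩ := h'
      rw [rk_insert_succ hv hvi, rk_insert_succ (f := fun i => A'.form (σ i)) hw hwi, ih]

end lattice

section free
variable {d : ℕ} (A : Arrangement d)

lemma mh_free (k l : ℕ) :
    Module.Finite ℤ (MH A.topeGraph k l) ∧ Module.Free ℤ (MH A.topeGraph k l) := by
  have h2 : Module.Finite ℤ ((Fin (k + 1) → A.Chamber) →₀ ℤ) := inferInstance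
  have h3 : Module.Finite ℤ (cycles A.topeGraph k l) := inferInstance
  have h4 : Module.Finite ℤ (MH A.topeGraph k l) := inferInstance
  have h5 : Module.IsTorsionFree ℤ (MH A.topeGraph k l) := by
    refine Module.IsTorsionFree.of_smul_eq_zero fun n x hx => ?_
    by_cases hn : n = 0
    · exact Or.inl hn
    · right
      refine torsionFree A k l n.natAbs (Int.natAbs_ne_zero.2 hn) x ?_
      rcases Int.natAbs_eq n with h | h
      · rw [← natCast_zsmul, ← h]
        exact hx
      · rw [← natCast_zsmul, ← neg_eq_zero, ← neg_smul, ← h]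
        exact hx
  exact ⟨h4, inferInstance⟩

/-- **the magnitude homology depends only on the intersection lattice** -/
theorem mh_iso {d' : ℕ} {A' : Arrangement d'} (φ : Inters A ≃o Inters A') (k l : ℕ) :
    Nonempty (MH A.topeGraph k l ≃+ MH A'.topeGraph k l) := by
  classical
  obtain ⟨σ, hσ⟩ := exists_equiv φ
  have hrk := rk_eq φ σ hσ
  have h1 := finrank_MH A k l
  have h2 := finrank_MH A' k l
  have h3 : finrank ℤ (MH A.topeGraph k l) = finrank ℤ (MH A'.topeGraph k l) := by
    have : (finrank ℤ (MH A.topeGraph k l) : ℤ) = finrank ℤ (MH A'.topeGraph k l) := by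
      rw [h1, h2]
      symm
      apply Finset.sum_nbij' (fun lam => fun i => lam (σ i)) (fun lam => fun j => lam (σ.symm j))
      · intro lam hlam
        rw [Finset.mem_piAntidiag] at hlam ⊢
        refine ⟨?_, fun i _ => Finset.mem_univ i⟩
        rw [← hlam.1]
        exact Equiv.sum_comp σ lam
      · intro lam hlam
        rw [Finset.mem_piAntidiag] at hlam ⊢
        refine ⟨?_, fun i _ => Finset.mem_univ i⟩
        rw [← hlam.1]
        exact Equiv.sum_comp σ.symm lam
      · intro lam _
        funext j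
        simp
      · intro lam _
        funext i
        simp
      · intro lam _
        rw [kap_eq (g := fun i => A'.form (σ i)) hrk, ng_eq (g := fun i => A'.form (σ i)) hrk,
          kap_reindex, ng_reindex]
    exact_mod_cast this
  obtain ⟨h4, h5⟩ := mh_free A k l
  obtain ⟨h6, h7⟩ := mh_free A' k l
  exact ⟨(LinearEquiv.ofFinrankEq (R := ℤ) _ _ h3).toAddEquiv⟩

end free

end Q161.Mg
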