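import Mathlib

/-! # Metastability: general lemmas -/

set_option autoImplicit false

open MeasureTheory Filter Topology Set
open scoped ENNReal NNReal

namespace Pool.Agent.Q161.Ms

/-- Compactness of the set of invariant measures. -/
theorem cluster {Ω : Type*} [TopologicalSpace Ω] [CompactSpace Ω] [T2Space Ω] [MeasurableSpace Ω] [BorelSpace Ω]
    [HasOuterApproxClosed Ω] {ι : Type*} (S : ι → Ω → Ω) (hS : ∀ i, Continuous (S i))
    (E : ℕ → Set Ω) (hE : ∀ N, IsClosed (E N)) (ε : ℝ≥0∞) (μ : ℕ → ProbabilityMeasure Ω)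
    (hμ : ∀ K i, MeasurePreserving (S i) (μ K : Measure Ω) (μ K))
    (hb : ∀ K N, 1 ≤ N → N ≤ K → ε ≤ (μ K : Measure Ω) (E N)) :
    ∃ ν : ProbabilityMeasure Ω, (∀ i, MeasurePreserving (S i) (ν : Measure Ω) ν) ∧
      ∀ N, 1 ≤ N → ε ≤ (ν : Measure Ω) (E N) := by
  have h1 := (isCompact_univ (X := ProbabilityMeasure Ω)).ultrafilter_le_nhds
    ((hyperfilter ℕ).map μ) (by simp)
  obtain ⟨ν, -, hν⟩ := h1
  have hν' : Tendsto μ (hyperfilter ℕ : Filter ℕ) (𝓝 ν) := hν
  refine ⟨ν, ?_, ?_⟩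
  · intro i
    refine ⟨(hS i).measurable, ?_⟩
    have h2 := ProbabilityMeasure.tendsto_map_of_tendsto_of_continuous μ ν hν' (hS i)
    have h3 : ∀ K, (μ K).map (hS i).measurable.aemeasurable = μ K := by
      intro K
      apply Subtype.ext
      exact (hμ K i).map_eq
    simp only [h3] at h2
    have h4 := tendsto_nhds_unique h2 hν'
    have h5 := congrArg (fun m : ProbabilityMeasure Ω => (m : Measure Ω)) h4
    exact h5
  · intro N hN
    have h2 := ProbabilityMeasure.limsup_measure_closed_le_of_tendsto hν' (hE N)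
    refine le_trans ?_ h2
    refine le_limsup_of_frequently_le ?_
    refine Eventually.frequently ?_
    have h3 : ∀ᶠ K in (atTop : Filter ℕ), ε ≤ (μ K : Measure Ω) (E N) := by
      filter_upwards [eventually_ge_atTop N] with K hK
      exact hb K N hN hK
    rw [← Nat.cofinite_eq_atTop] at h3
    exact hyperfilter_le_cofinite h3

/-- If almost every point is in finitely many of the sets then their measures tend to zero. -/
theorem tendsto_zero {X : Type*} [MeasurableSpace X] (μ : Measure X) [IsFiniteMeasure μ] (E : ℕ → Set X)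
    (hE : ∀ N, MeasurableSet (E N)) (h : ∀ᵐ x ∂μ, ∀ᶠ N in atTop, x ∉ E N) :
    Tendsto (fun N => μ (E N)) atTop (𝓝 0) := by
  have h1 := tendsto_measure_of_ae_tendsto_indicator_of_isFiniteMeasure (L := atTop) (μ := μ)
    (A := (∅ : Set X)) (As := E) MeasurableSet.empty hE (by
      filter_upwards [h] with x hx
      filter_upwards [hx] with N hN
      simp [hN])
  simpa using h1

/-- Almost everywhere convergence from metastability. -/
theorem conv_of_meta {X Θ F : Type*} [MeasurableSpace X] (μ : Measure X)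
    [PseudoMetricSpace F] [CompleteSpace F] (a : Θ → X → F) (L : Filter Θ) [NeBot L]
    (W : ℕ → ℕ → Set Θ) (c : ℕ → Θ)
    (hW : ∀ N, ∀ᶠ t in L, ∃ R, t ∈ W N R) (hmono : ∀ N, Monotone (W N))
    (hM : ∀ ε : ℝ, 0 < ε → ∀ Φ : ℕ → ℕ, ∃ N, 1 ≤ N ∧
      μ {x | ∃ t ∈ W N (Φ N), ε < dist (a t x) (a (c N) x)} ≤ ENNReal.ofReal ε) :
    ∀ᵐ x ∂μ, ∃ l, Tendsto (fun t => a t x) L (𝓝 l) := by
  have h1 : ∀ ε : ℝ, 0 < ε → ∃ N, μ {x | ∃ R, ∃ t ∈ W N R, ε < dist (a t x) (a (c N) x)} ≤ ENNReal.ofReal ε := by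
    intro ε hε
    by_contra hcon
    push Not at hcon
    have h2 : ∀ N, ∃ R, ENNReal.ofReal ε < μ {x | ∃ t ∈ W N R, ε < dist (a t x) (a (c N) x)} := by
      intro N
      have h3 : {x | ∃ R, ∃ t ∈ W N R, ε < dist (a t x) (a (c N) x)} =
          ⋃ R, {x | ∃ t ∈ W N R, ε < dist (a t x) (a (c N) x)} := by
        ext x
        simp
      have h4 := hcon N
      rw [h3, Monotone.measure_iUnion] at h4
      · rw [lt_iSup_iff] at h4
        exact h4
      · intro R R' hR x hx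
        obtain ⟨t, ht, h5⟩ := hx
        exact ⟨t, hmono N hR ht, h5⟩
    choose Φ hΦ using h2
    obtain ⟨N, -, hN⟩ := hM ε hε Φ
    exact absurd (hΦ N) (not_lt.2 hN)
  have h2 : ∀ j : ℕ, ∃ N, μ {x | ∃ R, ∃ t ∈ W N R, (1 / 2 : ℝ) ^ j < dist (a t x) (a (c N) x)} ≤
      ENNReal.ofReal ((1 / 2 : ℝ) ^ j) := fun j => h1 _ (by positivity)
  choose N hN using h2
  have h3 : ∑' j, μ {x | ∃ R, ∃ t ∈ W (N j) R, (1 / 2 : ℝ) ^ j < dist (a t x) (a (c (N j)) x)} ≠ ∞ := by
    refine ne_top_of_le_ne_top ?_ (ENNReal.tsum_le_tsum hN)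
    rw [← ENNReal.ofReal_tsum_of_nonneg (fun j => by positivity) (summable_geometric_of_lt_one (by norm_num) (by norm_num))]
    exact ENNReal.ofReal_ne_top
  filter_upwards [ae_eventually_notMem h3] with x hx
  have h4 : Cauchy (map (fun t => a t x) L) := by
    rw [Metric.cauchy_iff]
    refine ⟨inferInstance, ?_⟩
    intro ε hε
    have h5 : ∀ᶠ j : ℕ in atTop, (1 / 2 : ℝ) ^ j < ε / 2 :=
      (tendsto_pow_atTop_nhds_zero_of_lt_one (by norm_num) (by norm_num)).eventually_lt_const (by linarith)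
    obtain ⟨j, hj1, hj2⟩ := (hx.and h5).exists
    refine ⟨(fun t => a t x) '' {t | ∃ R, t ∈ W (N j) R}, image_mem_map (hW (N j)), ?_⟩
    have h6 : ∀ t, (∃ R, t ∈ W (N j) R) → dist (a t x) (a (c (N j)) x) ≤ (1 / 2 : ℝ) ^ j := by
      intro t ht
      obtain ⟨R, hR⟩ := ht
      by_contra hc
      exact hj1 ⟨R, t, hR, not_le.1 hc⟩
    rintro _ ⟨t, ht, rfl⟩ _ ⟨t', ht', rfl⟩
    have h7 := h6 t ht
    have h8 := h6 t' ht'
    have h9 := dist_triangle_right (a t x) (a t' x) (a (c (N j)) x)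
    simp only at h9 ⊢
    linarith
  exact cauchy_map_iff_exists_tendsto.1 h4

end Pool.Agent.Q161.Ms
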