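import Mathlib

/-! # Periodic approximation of a measure preserving system -/

set_option autoImplicit false

open MeasureTheory Filter Topology Set
open scoped ENNReal NNReal

namespace Pool.Agent.Q161.Ms

open Classical in
/-- The number of `k` with `1 ≤ k ≤ n` and `i + k`, `i + 2k`, `i + 3k` in `s`. -/
noncomputable def cnt (s : ℕ → Prop) (n i : ℕ) : ℕ :=
  ((Finset.Icc 1 n).filter (fun k => s (i + k) ∧ s (i + 2 * k) ∧ s (i + 3 * k))).card

/-- The densities change by more than `ε` between the scales `N` and `Φ N`. -/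
def Bad (s : ℕ → Prop) (Φ : ℕ → ℕ) (ε : ℝ) (N i : ℕ) : Prop :=
  ∃ n, N ≤ n ∧ n ≤ Φ N ∧ ε < |(cnt s n i : ℝ) / n - (cnt s N i : ℝ) / N|

lemma cnt_congr (s s' : ℕ → Prop) (n i i' : ℕ) (h : ∀ j, j ≤ 3 * n → (s (i + j) ↔ s' (i' + j))) :
    cnt s n i = cnt s' n i' := by
  classical
  unfold cnt
  congr 1
  apply Finset.filter_congr
  intro k hk
  rw [Finset.mem_Icc] at hk
  rw [h k (by omega), h (2 * k) (by omega), h (3 * k) (by omega)]

lemma bad_mono (s s' : ℕ → Prop) (Φ : ℕ → ℕ) (ε : ℝ) (N i i' : ℕ)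
    (h : ∀ j, j ≤ 3 * Φ N → (s (i + j) ↔ s' (i' + j))) (hb : Bad s Φ ε N i) : Bad s' Φ ε N i' := by
  obtain ⟨n, h1, h2, h3⟩ := hb
  refine ⟨n, h1, h2, ?_⟩
  rw [← cnt_congr s s' n i i' fun j hj => h j (by omega), ← cnt_congr s s' N i i' fun j hj => h j (by omega)]
  exact h3

lemma bad_congr (s s' : ℕ → Prop) (Φ : ℕ → ℕ) (ε : ℝ) (N i i' : ℕ)
    (h : ∀ j, j ≤ 3 * Φ N → (s (i + j) ↔ s' (i' + j))) : Bad s Φ ε N i ↔ Bad s' Φ ε N i' :=
  ⟨bad_mono s s' Φ ε N i i' h, bad_mono s' s Φ ε N i' i fun j hj => (h j hj).symm⟩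

/-- Extension of a finite word. -/
def ext {m : ℕ} (w : Fin m → Bool) (j : ℕ) : Prop := ∃ h : j < m, w ⟨j, h⟩ = true

lemma seq_exists {W : Type} [Fintype W] (n : W → ℕ) : ∃ v : Fin (∑ w, n w) → W,
    ∀ g : W → ℕ, ∑ r, g (v r) = ∑ w, n w * g w := by
  classical
  have hc : Fintype.card (Σ w, Fin (n w)) = ∑ w, n w := by simp
  obtain ⟨e⟩ : Nonempty ((Σ w, Fin (n w)) ≃ Fin (∑ w, n w)) := ⟨(Fintype.equivFin _).trans (finCongr hc)⟩
  refine ⟨fun r => (e.symm r).1, fun g => ?_⟩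
  rw [Equiv.sum_comp e.symm (fun p : Σ w, Fin (n w) => g p.1), Fintype.sum_sigma]
  refine Finset.sum_congr rfl fun w _ => ?_
  simp

section

variable {X : Type} [MeasurableSpace X] (μ : Measure X) [IsProbabilityMeasure μ] (T : X → X)
  (hT : MeasurePreserving T μ μ) (E : Set X) (hE : MeasurableSet E)

include hT hE

open Classical in
theorem finite_approx (Φ : ℕ → ℕ) (ε : ℝ) (hε : 0 < ε) (K : ℕ)
    (h : ∀ N, 1 ≤ N → N ≤ K → 2 * ε < μ.real {x | Bad (fun j => T^[j] x ∈ E) Φ ε N 0}) :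
    ∃ M : ℕ, 0 < M ∧ ∃ A : Set (ZMod M), ∀ N, 1 ≤ N → N ≤ K →
      ε * M < Nat.card {y : ZMod M // Bad (fun j => y + (j : ZMod M) ∈ A) Φ ε N 0} := by
  obtain ⟨L, hL⟩ : ∃ L : ℕ, L = ∑ N ∈ Finset.range (K + 1), 3 * Φ N + 1 := ⟨_, rfl⟩
  have hL1 : 1 ≤ L := by omega
  have hLΦ : ∀ N, N ≤ K → 3 * Φ N < L := by
    intro N hN
    have h1 := Finset.single_le_sum (f := fun N => 3 * Φ N) (fun i _ => Nat.zero_le _)
      (Finset.mem_range.2 (by omega : N < K + 1))
    omega
  obtain ⟨m, hm⟩ : ∃ m : ℕ, m = 4 * L := ⟨_, rfl⟩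
  have hm0 : 0 < m := by omega
  obtain ⟨word, hword⟩ : ∃ word : X → (Fin m → Bool), word = fun x (i : Fin m) => decide (T^[(i : ℕ)] x ∈ E) := ⟨_, rfl⟩
  have hwm : Measurable word := by
    rw [hword]
    refine measurable_pi_iff.2 fun i => ?_
    have h1 : MeasurableSet {x | T^[(i : ℕ)] x ∈ E} := (hT.iterate i).measurable hE
    apply measurable_to_bool
    have h2 : (fun x => decide (T^[(i : ℕ)] x ∈ E)) ⁻¹' {true} = {x | T^[(i : ℕ)] x ∈ E} := by
      ext x
      simp
    rw [h2]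
    exact h1
  have hwe : ∀ x j, j < m → (ext (word x) j ↔ T^[j] x ∈ E) := by
    intro x j hj
    rw [hword]
    unfold ext
    simp [hj]
  obtain ⟨V, hV⟩ : ∃ V : ℕ → (Fin m → Bool) → ℕ, V = fun N w =>
    ((Finset.range (m - L)).filter (fun i => Bad (ext w) Φ ε N i)).card := ⟨_, rfl⟩
  have hVm : ∀ N w, V N w ≤ m := by
    intro N w
    rw [hV]
    refine (Finset.card_filter_le _ _).trans ?_
    rw [Finset.card_range]
    omega
  obtain ⟨p, hp⟩ : ∃ p : (Fin m → Bool) → ℝ, p = fun w => μ.real (word ⁻¹' {w}) := ⟨_, rfl⟩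
  have hp0 : ∀ w, 0 ≤ p w := by
    intro w
    rw [hp]
    exact measureReal_nonneg
  have hpsum : ∀ S : Finset (Fin m → Bool), ∑ w ∈ S, p w = μ.real (word ⁻¹' S) := by
    intro S
    rw [hp]
    exact sum_measureReal_preimage_singleton S fun y _ => hwm (measurableSet_singleton y)
  have hp1 : ∑ w, p w = 1 := by
    rw [hpsum]
    simp
  have hint : ∀ N, 1 ≤ N → N ≤ K → (3 / 2) * ε * m < ∑ w, p w * V N w := by
    intro N hN1 hN2
    have h1 : ∑ w, p w * V N w = ∑ i ∈ Finset.range (m - L), μ.real {x | Bad (fun j => T^[j] x ∈ E) Φ ε N i} := by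
      have h2 : ∀ w, p w * V N w = ∑ i ∈ Finset.range (m - L), if Bad (ext w) Φ ε N i then p w else 0 := by
        intro w
        rw [hV]
        rw [← Finset.sum_filter, Finset.sum_const, nsmul_eq_mul, mul_comm]
      rw [Finset.sum_congr rfl fun w _ => h2 w, Finset.sum_comm]
      refine Finset.sum_congr rfl fun i hi => ?_
      rw [Finset.mem_range] at hi
      rw [← Finset.sum_filter, hpsum]
      congr 1
      ext x
      simp only [Finset.coe_filter, Finset.mem_univ, true_and, mem_preimage]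
      apply bad_congr
      intro j hj
      have h3 := hLΦ N hN2
      exact hwe x (i + j) (by omega)
    have h2 : ∀ i ∈ Finset.range (m - L), μ.real {x | Bad (fun j => T^[j] x ∈ E) Φ ε N i} =
        μ.real {x | Bad (fun j => T^[j] x ∈ E) Φ ε N 0} := by
      intro i _
      have h3 : {x | Bad (fun j => T^[j] x ∈ E) Φ ε N i} = T^[i] ⁻¹' {x | Bad (fun j => T^[j] x ∈ E) Φ ε N 0} := by
        ext x
        simp only [mem_preimage]
        apply bad_congr
        intro j _
        rw [zero_add, ← Function.iterate_add_apply, add_comm i j]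
      have h4 : MeasurableSet {x | Bad (fun j => T^[j] x ∈ E) Φ ε N 0} := by
        have h5 : {x | Bad (fun j => T^[j] x ∈ E) Φ ε N 0} =
            word ⁻¹' (((Finset.univ.filter fun w => Bad (ext w) Φ ε N 0) : Finset (Fin m → Bool)) : Set (Fin m → Bool)) := by
          ext x
          simp only [Finset.coe_filter, Finset.mem_univ, true_and, mem_preimage]
          apply bad_congr
          intro j hj
          have h3 := hLΦ N hN2
          exact (hwe x (0 + j) (by omega)).symm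
        rw [h5]
        exact hwm (Finset.measurableSet _)
      rw [h3]
      exact (hT.iterate i).measureReal_preimage h4.nullMeasurableSet
    rw [h1, Finset.sum_congr rfl h2, Finset.sum_const, Finset.card_range, nsmul_eq_mul]
    have h3 := h N hN1 hN2
    have h4 : ((m - L : ℕ) : ℝ) = 3 / 4 * m := by
      have h5 : m - L = 3 * L := by omega
      rw [h5, hm]
      push_cast
      ring
    rw [h4]
    have h5 : (0 : ℝ) < m := by exact_mod_cast hm0
    nlinarith
  obtain ⟨R, hR⟩ := exists_nat_gt ((2 : ℝ) ^ (m + 1) / ε)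
  have hR0 : (0 : ℝ) < R := lt_trans (by positivity) hR
  obtain ⟨n, hn⟩ : ∃ n : (Fin m → Bool) → ℕ, n = fun w => ⌊R * p w⌋₊ := ⟨_, rfl⟩
  obtain ⟨v, hv⟩ := seq_exists n
  obtain ⟨R', hR'⟩ : ∃ R' : ℕ, R' = ∑ w, n w := ⟨_, rfl⟩
  have hR'R : (R' : ℝ) ≤ R := by
    rw [hR']
    push_cast
    calc ∑ w, (n w : ℝ) ≤ ∑ w, R * p w := Finset.sum_le_sum fun w _ => by
          rw [hn]
          exact Nat.floor_le (mul_nonneg hR0.le (hp0 w))
      _ = R := by rw [← Finset.mul_sum, hp1, mul_one]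
  have hcount : ∀ N, 1 ≤ N → N ≤ K → ε * (m * R' : ℕ) < ((∑ r, V N (v r) : ℕ) : ℝ) := by
    intro N hN1 hN2
    rw [hv]
    have h1 : ∑ w, (R * p w - 1) * V N w ≤ ((∑ w, n w * V N w : ℕ) : ℝ) := by
      push_cast
      refine Finset.sum_le_sum fun w _ => ?_
      refine mul_le_mul_of_nonneg_right ?_ (Nat.cast_nonneg _)
      rw [hn]
      exact (Nat.sub_one_lt_floor _).le
    have h2 : ∑ w, (R * p w - 1) * V N w = R * (∑ w, p w * V N w) - ∑ w, (V N w : ℝ) := by
      rw [Finset.mul_sum, ← Finset.sum_sub_distrib]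
      refine Finset.sum_congr rfl fun w _ => ?_
      ring
    have h3 : ∑ w, (V N w : ℝ) ≤ 2 ^ m * m := by
      have h4 : ∑ w : Fin m → Bool, (V N w : ℝ) ≤ ∑ w : Fin m → Bool, (m : ℝ) :=
        Finset.sum_le_sum fun w _ => by exact_mod_cast hVm N w
      rw [Finset.sum_const, nsmul_eq_mul] at h4
      simpa using h4
    have h4 := mul_lt_mul_of_pos_left (hint N hN1 hN2) hR0
    have h5 : (2 : ℝ) ^ m * m ≤ ε / 2 * m * R := by
      rw [div_lt_iff₀ hε, pow_succ] at hR
      have h6 : (0 : ℝ) < m := by exact_mod_cast hm0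
      nlinarith
    have h6 : ε * (m * R' : ℕ) ≤ ε * m * R := by
      push_cast
      have h7 : (0 : ℝ) ≤ ε * m := by positivity
      nlinarith
    have h7 : (R : ℝ) * ((3 / 2) * ε * m) = ε * m * R + ε / 2 * m * R := by ring
    linarith
  rcases Nat.eq_zero_or_pos K with hK | hK
  · refine ⟨1, one_pos, ∅, ?_⟩
    intro N h1 h2
    omega
  have hR'0 : 0 < R' := by
    by_contra hc
    have h1 : R' = 0 := by omega
    have h2 := hcount 1 le_rfl hK
    have h3 : (∑ r, V 1 (v r) : ℕ) = 0 := by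
      have : IsEmpty (Fin (∑ w, n w)) := by
        rw [← hR', h1]
        infer_instance
      exact Finset.sum_eq_zero fun r _ => isEmptyElim r
    rw [h3, h1] at h2
    simp at h2
  subst hR'
  obtain ⟨M, hM⟩ : ∃ M : ℕ, M = m * ∑ w, n w := ⟨_, rfl⟩
  have hM0 : 0 < M := by rw [hM]; exact Nat.mul_pos hm0 hR'0
  have : NeZero M := ⟨hM0.ne'⟩
  refine ⟨M, hM0, {y | ∃ h : y.val / m < ∑ w, n w, ext (v ⟨y.val / m, h⟩) (y.val % m)}, ?_⟩
  intro N hN1 hN2
  have h1 := hcount N hN1 hN2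
  rw [← hM] at h1
  refine h1.trans_le ?_
  rw [Nat.card_eq_fintype_card, Fintype.card_subtype]
  norm_cast
  rw [hV]
  simp only
  rw [← Finset.card_sigma]
  apply Finset.card_le_card_of_injOn (fun q : (_ : Fin (∑ w, n w)) × ℕ => ((q.1 * m + q.2 : ℕ) : ZMod M))
  · rintro ⟨r, i⟩ hq
    simp only [Finset.coe_sigma, Finset.coe_univ, Finset.mem_coe, Set.mem_sigma_iff, Set.mem_univ, true_and,
      Finset.mem_filter, Finset.mem_range] at hq
    obtain ⟨hi, hq⟩ := hq
    simp only [Finset.mem_coe, Finset.mem_filter, Finset.mem_univ, true_and]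
    refine (bad_congr _ _ Φ ε N 0 i ?_).2 hq
    intro j hj
    have h3 := hLΦ N hN2
    have hlt : (r : ℕ) * m + i + j < M := by
      have h4 : ((r : ℕ) + 1) * m ≤ (∑ w, n w) * m := Nat.mul_le_mul_right _ r.2
      rw [hM, mul_comm m]
      have h5 : ((r : ℕ) + 1) * m = (r : ℕ) * m + m := by ring
      omega
    have hval : (((r * m + i : ℕ) : ZMod M) + ((0 + j : ℕ) : ZMod M)).val = (r : ℕ) * m + (i + j) := by
      rw [← Nat.cast_add, ZMod.val_natCast, Nat.mod_eq_of_lt (by omega)]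
      omega
    have hdiv : ((r : ℕ) * m + (i + j)) / m = r := by
      rw [mul_comm, Nat.mul_add_div hm0, Nat.div_eq_of_lt (by omega), add_zero]
    have hmod : ((r : ℕ) * m + (i + j)) % m = i + j := by
      rw [mul_comm, Nat.mul_add_mod, Nat.mod_eq_of_lt (by omega)]
    simp only [Set.mem_ofPred_eq]
    rw [hval]
    simp only [hdiv, hmod]
    constructor
    · rintro ⟨h, h6⟩
      exact h6
    · intro h6
      exact ⟨r.2, h6⟩
  · rintro ⟨r, i⟩ hq ⟨r', i'⟩ hq' heq
    simp only [Finset.coe_sigma, Finset.coe_univ, Finset.mem_coe, Set.mem_sigma_iff, Set.mem_univ, true_and,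
      Finset.mem_filter, Finset.mem_range] at hq hq'
    have hlt : ∀ (r : Fin (∑ w, n w)) (i : ℕ), i < m - L → (r : ℕ) * m + i < M := by
      intro r i hi
      have h4 : ((r : ℕ) + 1) * m ≤ (∑ w, n w) * m := Nat.mul_le_mul_right _ r.2
      rw [hM, mul_comm m]
      have h5 : ((r : ℕ) + 1) * m = (r : ℕ) * m + m := by ring
      omega
    have h2 := congrArg ZMod.val heq
    simp only at h2
    rw [ZMod.val_natCast, ZMod.val_natCast, Nat.mod_eq_of_lt (hlt r i hq.1), Nat.mod_eq_of_lt (hlt r' i' hq'.1)] at h2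
    have hi := hq.1
    have hi' := hq'.1
    have h3 : (r : ℕ) = r' := by
      have h4 : ((r : ℕ) * m + i) / m = r := by
        rw [mul_comm, Nat.mul_add_div hm0, Nat.div_eq_of_lt (by omega), add_zero]
      have h5 : ((r' : ℕ) * m + i') / m = r' := by
        rw [mul_comm, Nat.mul_add_div hm0, Nat.div_eq_of_lt (by omega), add_zero]
      rw [← h4, ← h5, h2]
    have h4 : r = r' := Fin.ext h3
    subst h4
    have h5 : i = i' := by omega
    subst h5
    rfl

end

end Pool.Agent.Q161.Ms
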