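import Pool.Agent.Q161.MsB
import Pool.Agent.Q161.MsD

/-! # One set is enough -/

set_option autoImplicit false

open MeasureTheory Filter Topology Set
open scoped ENNReal NNReal

namespace Pool.Agent.Q161.Ms

/-- The uniform measure. -/
noncomputable def unif (M : ℕ) : Measure (ZMod M) := (M : ℝ≥0∞)⁻¹ • Measure.count

lemma unif_prob (M : ℕ) [NeZero M] : IsProbabilityMeasure (unif M) := by
  constructor
  unfold unif
  rw [Measure.smul_apply, Measure.count_univ, ENat.card_eq_coe_natCard, Nat.card_zmod, smul_eq_mul]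
  simp only [ENat.toENNReal_coe]
  exact ENNReal.inv_mul_cancel (by exact_mod_cast NeZero.ne M) (ENNReal.natCast_ne_top M)

lemma unif_pres (M : ℕ) [NeZero M] : MeasurePreserving (fun i : ZMod M => i + 1) (unif M) (unif M) := by
  refine ⟨measurable_of_countable _, ?_⟩
  apply Measure.ext
  intro s hs
  rw [Measure.map_apply (measurable_of_countable _) hs]
  unfold unif
  rw [Measure.smul_apply, Measure.smul_apply, Measure.count_apply (MeasurableSet.of_discrete),
    Measure.count_apply hs]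
  congr 2
  exact encard_preimage_of_bijective (Equiv.addRight (1 : ZMod M)).bijective s

lemma unif_ae (M : ℕ) [NeZero M] {P : ZMod M → Prop} (h : ∀ᵐ i ∂unif M, P i) (i : ZMod M) : P i := by
  unfold unif at h
  rw [Measure.ae_ennreal_smul_measure_iff (ENNReal.inv_ne_zero.2 (ENNReal.natCast_ne_top M)), Measure.ae_count_iff] at h
  exact h i

lemma unif_apply (M : ℕ) [NeZero M] (s : Set (ZMod M)) :
    unif M s = ENNReal.ofReal ((Nat.card s : ℝ) / M) := by
  unfold unif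
  rw [Measure.smul_apply, Measure.count_apply_finite s (Set.toFinite s), smul_eq_mul,
    ENNReal.ofReal_div_of_pos (by exact_mod_cast Nat.pos_of_ne_zero (NeZero.ne M)), mul_comm,
    ENNReal.ofReal_natCast, ENNReal.ofReal_natCast, ENNReal.div_eq_inv_mul, mul_comm]
  congr 2
  classical
  rw [Nat.card_eq_fintype_card, Set.Finite.card_toFinset]

/-- Convergence of the densities for one set. -/
def ConvSet {X : Type} [MeasurableSpace X] (μ : Measure X) (T : X → X) (E : Set X) : Prop :=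
  ∀ᵐ x ∂μ, ∃ l : ℝ, Tendsto (fun n : ℕ => (cnt (fun j => T^[j] x ∈ E) n 0 : ℝ) / n) atTop (𝓝 l)

section

variable {X : Type} (T : X → X)

/-- The marked set. -/
def mark (p : ℕ) (A : Fin 3 → Set X) (b : ZMod p) : Set (X × ZMod p) :=
  {y | (y.2 = b ∧ y.1 ∈ A 0) ∨ (y.2 = 2 * b ∧ y.1 ∈ A 1) ∨ (y.2 = 3 * b ∧ y.1 ∈ A 2)}

lemma iter_prod (p : ℕ) (x : X) (i : ZMod p) (n : ℕ) :
    (Prod.map T (fun i : ZMod p => i + 1))^[n] (x, i) = (T^[n] x, i + n) := by
  induction n with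
  | zero => simp
  | succ n ih =>
    rw [Function.iterate_succ_apply', ih, Function.iterate_succ_apply']
    simp only [Prod.map_apply, Nat.cast_succ, add_assoc]

lemma mark_iff {p : ℕ} [Fact p.Prime] (hp : 7 ≤ p) (A : Fin 3 → Set X) {b : ZMod p} (hb : b ≠ 0) (a : ZMod p)
    (x y z : X) : ((x, a) ∈ mark p A b ∧ (y, 2 * a) ∈ mark p A b ∧ (z, 3 * a) ∈ mark p A b) ↔
      (a = b ∧ x ∈ A 0 ∧ y ∈ A 1 ∧ z ∈ A 2) := by
  have hne : ∀ c : ℕ, 0 < c → c < 7 → (c : ZMod p) ≠ 0 := by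
    intro c hc hc' h
    rw [ZMod.natCast_eq_zero_iff] at h
    exact absurd (Nat.le_of_dvd hc h) (by omega)
  have h1 : ∀ c : ℕ, 0 < c → c < 7 → (c : ZMod p) * b ≠ 0 := fun c hc hc' => mul_ne_zero (hne c hc hc') hb
  have e1 := h1 1 (by norm_num) (by norm_num)
  have e2 := h1 2 (by norm_num) (by norm_num)
  have e3 := h1 3 (by norm_num) (by norm_num)
  have e4 := h1 4 (by norm_num) (by norm_num)
  have e5 := h1 5 (by norm_num) (by norm_num)
  push_cast at e1 e2 e3 e4 e5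
  unfold mark
  simp only [Set.mem_ofPred_eq]
  constructor
  · rintro ⟨ha, h2, h3⟩
    rcases ha with ⟨ha, hx⟩ | ⟨ha, hx⟩ | ⟨ha, hx⟩
    · subst ha
      refine ⟨rfl, hx, ?_, ?_⟩
      · rcases h2 with ⟨h2, hy⟩ | ⟨h2, hy⟩ | ⟨h2, hy⟩
        · exact absurd (by linear_combination h2) e1
        · exact hy
        · exact absurd (by linear_combination -h2) e1
      · rcases h3 with ⟨h3, hz⟩ | ⟨h3, hz⟩ | ⟨h3, hz⟩
        · exact absurd (by linear_combination h3) e2
        · exact absurd (by linear_combination h3) e1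
        · exact hz
    · exfalso
      rcases h2 with ⟨h2, -⟩ | ⟨h2, -⟩ | ⟨h2, -⟩
      · exact e3 (by linear_combination h2 - 2 * ha)
      · exact e2 (by linear_combination h2 - 2 * ha)
      · exact e1 (by linear_combination h2 - 2 * ha)
    · exfalso
      rcases h2 with ⟨h2, -⟩ | ⟨h2, -⟩ | ⟨h2, -⟩
      · exact e5 (by linear_combination h2 - 2 * ha)
      · exact e4 (by linear_combination h2 - 2 * ha)
      · exact e3 (by linear_combination h2 - 2 * ha)
  · rintro ⟨rfl, hx, hy, hz⟩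
    exact ⟨Or.inl ⟨rfl, hx⟩, Or.inr (Or.inl ⟨rfl, hy⟩), Or.inr (Or.inr ⟨rfl, hz⟩)⟩

open Classical in
/-- The number of successes for three sets. -/
noncomputable def cnt3 (T : X → X) (A : Fin 3 → Set X) (x : X) (n : ℕ) : ℕ :=
  ((Finset.Icc 1 n).filter (fun k => T^[k] x ∈ A 0 ∧ T^[2 * k] x ∈ A 1 ∧ T^[3 * k] x ∈ A 2)).card

open Classical in
lemma cnt_mark {p : ℕ} [Fact p.Prime] (hp : 7 ≤ p) (A : Fin 3 → Set X) {b : ZMod p} (hb : b ≠ 0) (x : X) (n : ℕ) :
    cnt (fun j => (Prod.map T (fun i : ZMod p => i + 1))^[j] (x, 0) ∈ mark p A b) n 0 =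
      ((Finset.Icc 1 n).filter (fun k : ℕ => (T^[k] x ∈ A 0 ∧ T^[2 * k] x ∈ A 1 ∧ T^[3 * k] x ∈ A 2) ∧
        (k : ZMod p) = b)).card := by
  unfold cnt
  congr 1
  apply Finset.filter_congr
  intro k _
  simp only [iter_prod, zero_add]
  push_cast
  rw [mark_iff hp A hb]
  tauto

open Classical in
/-- From one set to three sets. -/
theorem three_of_one [MeasurableSpace X] (μ : Measure X) [IsProbabilityMeasure μ]
    (hT : MeasurePreserving T μ μ)
    (h : ∀ (Y : Type) [MeasurableSpace Y] (ν : Measure Y) [IsProbabilityMeasure ν] (S : Y → Y),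
      MeasurePreserving S ν ν → ∀ E : Set Y, MeasurableSet E → ConvSet ν S E)
    (A : Fin 3 → Set X) (hA : ∀ j, MeasurableSet (A j)) :
    ∀ᵐ x ∂μ, ∃ l : ℝ, Tendsto (fun n : ℕ => (cnt3 T A x n : ℝ) / n) atTop (𝓝 l) := by
  have h1 : ∀ᵐ x ∂μ, ∀ p : ℕ, p.Prime → 7 ≤ p → ∀ b : ZMod p, b ≠ 0 → ∃ l : ℝ, Tendsto (fun n : ℕ =>
      (((Finset.Icc 1 n).filter (fun k : ℕ => (T^[k] x ∈ A 0 ∧ T^[2 * k] x ∈ A 1 ∧ T^[3 * k] x ∈ A 2) ∧
        (k : ZMod p) = b)).card : ℝ) / n) atTop (𝓝 l) := by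
    rw [ae_all_iff]
    intro p
    by_cases hp : p.Prime
    swap
    · exact Eventually.of_forall fun x h1 => absurd h1 hp
    by_cases hp7 : 7 ≤ p
    swap
    · exact Eventually.of_forall fun x _ h1 => absurd h1 hp7
    have : Fact p.Prime := ⟨hp⟩
    have := unif_prob p
    have h2 : ∀ᵐ x ∂μ, ∀ b : ZMod p, b ≠ 0 → ∃ l : ℝ, Tendsto (fun n : ℕ =>
        (((Finset.Icc 1 n).filter (fun k : ℕ => (T^[k] x ∈ A 0 ∧ T^[2 * k] x ∈ A 1 ∧ T^[3 * k] x ∈ A 2) ∧
          (k : ZMod p) = b)).card : ℝ) / n) atTop (𝓝 l) := by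
      rw [ae_all_iff]
      intro b
      by_cases hb : b ≠ 0
      swap
      · exact Eventually.of_forall fun x h1 => absurd h1 hb
      have hms : MeasurableSet (mark p A b) := by
        unfold mark
        have h3 : ∀ c : ZMod p, MeasurableSet {y : X × ZMod p | y.2 = c} := fun c =>
          measurable_snd (measurableSet_singleton c)
        exact ((h3 _).inter (measurable_fst (hA 0))).union
          (((h3 _).inter (measurable_fst (hA 1))).union ((h3 _).inter (measurable_fst (hA 2))))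
      have h3 := h (X × ZMod p) (μ.prod (unif p)) (Prod.map T (fun i : ZMod p => i + 1))
        (hT.prod (unif_pres p)) (mark p A b) hms
      unfold ConvSet at h3
      have h4 := Measure.ae_ae_of_ae_prod h3
      filter_upwards [h4] with x hx _
      have h5 := unif_ae p hx 0
      simp only [cnt_mark T hp7 A hb] at h5
      exact h5
    filter_upwards [h2] with x hx _ _
    exact hx
  filter_upwards [h1] with x hx
  apply conv_of_approx
  intro ε hε
  obtain ⟨q, hq⟩ := exists_nat_gt (1 / ε)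
  obtain ⟨p, hpq, hp⟩ := Nat.exists_infinite_primes (max q 7)
  have : Fact p.Prime := ⟨hp⟩
  have hp7 : 7 ≤ p := (le_max_right _ _).trans hpq
  have h2 := hx p hp hp7
  choose! l hl using h2
  refine ⟨fun n : ℕ => ∑ b ∈ Finset.univ.erase (0 : ZMod p),
    (((Finset.Icc 1 n).filter (fun k : ℕ => (T^[k] x ∈ A 0 ∧ T^[2 * k] x ∈ A 1 ∧ T^[3 * k] x ∈ A 2) ∧
        (k : ZMod p) = b)).card : ℝ) / n, ⟨∑ b ∈ Finset.univ.erase (0 : ZMod p), l b, ?_⟩, ?_⟩
  · exact tendsto_finsetSum _ fun b hb => hl b (Finset.ne_of_mem_erase hb)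
  · refine Eventually.of_forall fun n => ?_
    have h3 : cnt3 T A x n = ((Finset.Icc 1 n).filter (fun k : ℕ =>
        (T^[k] x ∈ A 0 ∧ T^[2 * k] x ∈ A 1 ∧ T^[3 * k] x ∈ A 2) ∧ (k : ZMod p) = 0)).card +
        ∑ b ∈ Finset.univ.erase (0 : ZMod p), ((Finset.Icc 1 n).filter (fun k : ℕ =>
        (T^[k] x ∈ A 0 ∧ T^[2 * k] x ∈ A 1 ∧ T^[3 * k] x ∈ A 2) ∧ (k : ZMod p) = b)).card := by
      rw [Finset.add_sum_erase Finset.univ (fun b : ZMod p => ((Finset.Icc 1 n).filter (fun k : ℕ =>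
        (T^[k] x ∈ A 0 ∧ T^[2 * k] x ∈ A 1 ∧ T^[3 * k] x ∈ A 2) ∧ (k : ZMod p) = b)).card) (Finset.mem_univ 0)]
      unfold cnt3
      rw [Finset.card_eq_sum_card_fiberwise (f := fun k : ℕ => (k : ZMod p)) (t := Finset.univ)
        (fun _ _ => Finset.mem_coe.2 (Finset.mem_univ _))]
      refine Finset.sum_congr rfl fun b _ => ?_
      rw [Finset.filter_filter]
    rw [h3]
    push_cast
    rw [add_div, Finset.sum_div, add_sub_cancel_right, Real.norm_eq_abs, abs_of_nonneg (by positivity)]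
    have h4 : ((Finset.Icc 1 n).filter (fun k : ℕ =>
        (T^[k] x ∈ A 0 ∧ T^[2 * k] x ∈ A 1 ∧ T^[3 * k] x ∈ A 2) ∧ (k : ZMod p) = 0)).card ≤ n / p := by
      have h5 : (Finset.Icc 1 n).filter (fun k : ℕ =>
        (T^[k] x ∈ A 0 ∧ T^[2 * k] x ∈ A 1 ∧ T^[3 * k] x ∈ A 2) ∧ (k : ZMod p) = 0) ⊆
          (Finset.Ioc 0 n).filter (fun k => p ∣ k) := by
        intro k hk
        rw [Finset.mem_filter, Finset.mem_Icc] at hk
        rw [Finset.mem_filter, Finset.mem_Ioc]
        exact ⟨by omega, (ZMod.natCast_eq_zero_iff k p).1 hk.2.2⟩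
      refine (Finset.card_le_card h5).trans ?_
      rw [Nat.Ioc_filter_dvd_card_eq_div]
    rcases Nat.eq_zero_or_pos n with hn | hn
    · subst hn
      simp
      exact hε.le
    have hn' : (0 : ℝ) < n := by exact_mod_cast hn
    have hp0 : (0 : ℝ) < p := by exact_mod_cast hp.pos
    rw [div_le_iff₀ hn']
    have h5 : (((Finset.Icc 1 n).filter (fun k : ℕ =>
        (T^[k] x ∈ A 0 ∧ T^[2 * k] x ∈ A 1 ∧ T^[3 * k] x ∈ A 2) ∧ (k : ZMod p) = 0)).card : ℝ) ≤ n / p := by
      refine le_trans (by exact_mod_cast h4) (Nat.cast_div_le)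
    refine h5.trans ?_
    rw [div_le_iff₀ hp0]
    have h6 : (q : ℝ) ≤ p := by exact_mod_cast (le_max_left q 7).trans hpq
    have h7 : 1 < ε * p := by
      rw [div_lt_iff₀ hε] at hq
      nlinarith
    nlinarith

end

end Pool.Agent.Q161.Ms
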