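import Mathlib

/-! # Almost invariant transversals of normal subgroups of finite index in nilpotent groups -/

set_option autoImplicit false

namespace Pool.Agent.Q161.Ms

section

variable {G : Type*} [Group G]

/-- `F` is a left transversal of `M` in `K`. -/
def Trans (M K : Subgroup G) (F : Finset G) : Prop :=
  (∀ f ∈ F, f ∈ K) ∧ ∀ g ∈ K, ∃! f, f ∈ F ∧ f⁻¹ * g ∈ M

open Classical in
/-- Almost invariant transversals exist. -/
def FT (K : Subgroup G) : Prop :=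
  ∀ S : Finset G, (∀ s ∈ S, s ∈ K) → ∀ ε : ℝ, 0 < ε →
    ∃ M : Subgroup G, M.Normal ∧ M ≤ K ∧ ∃ F : Finset G, Trans M K F ∧
      ∀ s ∈ S, ((F.filter (fun f => s * f ∉ F)).card : ℝ) ≤ ε * F.card

lemma ft_bot : FT (⊥ : Subgroup G) := by
  classical
  intro S hS ε hε
  refine ⟨⊥, inferInstance, le_rfl, {1}, ⟨?_, ?_⟩, ?_⟩
  · intro f hf
    rw [Finset.mem_singleton] at hf
    rw [hf]
    exact Subgroup.one_mem _
  · intro g hg
    rw [Subgroup.mem_bot] at hg
    subst hg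
    refine ⟨1, ⟨by simp, by simp⟩, ?_⟩
    rintro y ⟨hy, -⟩
    simpa using hy
  · intro s hs
    have h1 := hS s hs
    rw [Subgroup.mem_bot] at h1
    subst h1
    rw [Finset.filter_false_of_mem (by simp)]
    simpa using hε.le

lemma trans_unique {M K : Subgroup G} {F : Finset G} (h : Trans M K F) {f f' : G} (hf : f ∈ F) (hf' : f' ∈ F)
    (hM : f⁻¹ * f' ∈ M) : f = f' := by
  obtain ⟨y, -, hy⟩ := h.2 f' (h.1 f' hf')
  rw [hy f ⟨hf, hM⟩, hy f' ⟨hf', by simp⟩]

open Classical in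
/-- The extension step. -/
theorem ext_step (K K' : Subgroup G) [K.Normal] (hK : FT K) (t : G) (hKK' : K ≤ K') (ht : t ∈ K') (k : ℕ)
    (Z : Subgroup G) (hZ : Z ≤ K') (hZK : ∀ z ∈ Z, z ∈ K → z = 1)
    (h1 : ∀ g ∈ K', ∃! a : ℕ, a < k ∧ ∃ z ∈ Z, (t ^ a)⁻¹ * g * z⁻¹ ∈ K)
    (S : Finset G) (ε : ℝ) (hε : 0 < ε)
    (h2 : ∀ s ∈ S, (((Finset.range k).filter (fun a : ℕ => ¬ ∃ a' : ℕ, a' < k ∧ (t ^ a')⁻¹ * s * t ^ a ∈ K)).card : ℝ) ≤
      ε / 2 * k) :
    ∃ H : Subgroup G, H ≤ K' ∧ ∃ F : Finset G, Trans H K' F ∧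
      ∀ s ∈ S, ((F.filter (fun f => s * f ∉ F)).card : ℝ) ≤ ε * F.card := by
  obtain ⟨n, hn⟩ : ∃ n : G → ℕ → G, ∀ s a, n s a ∈ K ∧
      ((∃ a' : ℕ, a' < k ∧ (t ^ a')⁻¹ * s * t ^ a ∈ K) → ∃ a' : ℕ, a' < k ∧ (t ^ a')⁻¹ * s * t ^ a = n s a) := by
    have h3 : ∀ (s : G) (a : ℕ), ∃ m : G, m ∈ K ∧
      ((∃ a' : ℕ, a' < k ∧ (t ^ a')⁻¹ * s * t ^ a ∈ K) → ∃ a' : ℕ, a' < k ∧ (t ^ a')⁻¹ * s * t ^ a = m) := by
      intro s a
      by_cases h : ∃ a' : ℕ, a' < k ∧ (t ^ a')⁻¹ * s * t ^ a ∈ K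
      · obtain ⟨a', h4, h5⟩ := h
        exact ⟨_, h5, fun _ => ⟨a', h4, rfl⟩⟩
      · exact ⟨1, K.one_mem, fun h' => absurd h' h⟩
    choose n hn using h3
    exact ⟨n, hn⟩
  obtain ⟨M, hMn, hMK, F, hF, hFS⟩ := hK ((S ×ˢ Finset.range k).image fun p => n p.1 p.2) (by
    intro s hs
    rw [Finset.mem_image] at hs
    obtain ⟨p, -, rfl⟩ := hs
    exact (hn _ _).1) (ε / 2) (by linarith)
  have hinj : ∀ a a' : ℕ, a < k → a' < k → ∀ f ∈ K, ∀ f' ∈ K, t ^ a * f = t ^ a' * f' → a = a' ∧ f = f' := by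
    intro a a' ha ha' f hf f' hf' h
    have hg : t ^ a * f ∈ K' := K'.mul_mem (K'.pow_mem ht _) (hKK' hf)
    have h3 := (h1 _ hg).unique ⟨ha, 1, Z.one_mem, by simpa using hf⟩
      ⟨ha', 1, Z.one_mem, by rw [h]; simpa using hf'⟩
    subst h3
    exact ⟨rfl, mul_left_cancel h⟩
  obtain ⟨FF, hFF⟩ : ∃ FF : Finset G, FF = (Finset.range k ×ˢ F).image fun p => t ^ p.1 * p.2 := ⟨_, rfl⟩
  have hmemFF : ∀ x, x ∈ FF ↔ ∃ a : ℕ, a < k ∧ ∃ f ∈ F, t ^ a * f = x := by
    intro x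
    rw [hFF]
    simp only [Finset.mem_image, Finset.mem_product, Finset.mem_range, Prod.exists]
    constructor
    · rintro ⟨a, f, ⟨h3, h4⟩, h5⟩
      exact ⟨a, h3, f, h4, h5⟩
    · rintro ⟨a, h3, f, h4, h5⟩
      exact ⟨a, f, ⟨h3, h4⟩, h5⟩
  have hcard : FF.card = k * F.card := by
    rw [hFF, Finset.card_image_of_injOn, Finset.card_product, Finset.card_range]
    rintro ⟨a, f⟩ h3 ⟨a', f'⟩ h4 h5
    simp only [Finset.coe_product, Set.mem_prod, Finset.mem_coe, Finset.mem_range] at h3 h4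
    obtain ⟨h6, h7⟩ := hinj a a' h3.1 h4.1 f (hF.1 f h3.2) f' (hF.1 f' h4.2) h5
    rw [h6, h7]
  refine ⟨M ⊔ Z, sup_le (hMK.trans hKK') hZ, FF, ⟨?_, ?_⟩, ?_⟩
  · intro x hx
    obtain ⟨a, -, f, hf, rfl⟩ := (hmemFF x).1 hx
    exact K'.mul_mem (K'.pow_mem ht _) (hKK' (hF.1 f hf))
  · intro g hg
    obtain ⟨a, ⟨ha, z, hz, hzK⟩, huniq⟩ := h1 g hg
    obtain ⟨f, ⟨hf, hfM⟩, hfu⟩ := hF.2 _ hzK
    refine ⟨t ^ a * f, ⟨(hmemFF _).2 ⟨a, ha, f, hf, rfl⟩, ?_⟩, ?_⟩
    · have h3 : (t ^ a * f)⁻¹ * g = (f⁻¹ * ((t ^ a)⁻¹ * g * z⁻¹)) * z := by group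
      rw [h3]
      exact (M ⊔ Z).mul_mem (Subgroup.mem_sup_left hfM) (Subgroup.mem_sup_right hz)
    · rintro y ⟨hy, hyM⟩
      obtain ⟨a', ha', f', hf', rfl⟩ := (hmemFF y).1 hy
      obtain ⟨m, hm, z', hz', hmz⟩ := Subgroup.mem_sup_of_normal_left.1 hyM
      have h4 : (t ^ a')⁻¹ * g * z'⁻¹ = f' * m := by
        have h5 : g = t ^ a' * f' * (m * z') := by rw [hmz]; group
        rw [h5]
        group
      have h5 : (t ^ a')⁻¹ * g * z'⁻¹ ∈ K := by
        rw [h4]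
        exact K.mul_mem (hF.1 f' hf') (hMK hm)
      have h6 : a' = a := huniq a' ⟨ha', z', hz', h5⟩
      subst h6
      have h7 : z' = z := by
        have h8 : z * z'⁻¹ = 1 := by
          apply hZK _ (Z.mul_mem hz (Z.inv_mem hz'))
          have h9 := K.mul_mem (K.inv_mem hzK) h5
          have h10 : ((t ^ a')⁻¹ * g * z⁻¹)⁻¹ * ((t ^ a')⁻¹ * g * z'⁻¹) = z * z'⁻¹ := by group
          rwa [h10] at h9
        exact (mul_inv_eq_one.1 h8).symm
      subst h7
      have h8 : f' = f := by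
        apply hfu f' ⟨hf', ?_⟩
        rw [h4]
        simpa using hm
      rw [h8]
  · intro s hs
    have h3 : ((FF.filter (fun f => s * f ∉ FF)).card) ≤
        ((Finset.range k).filter (fun a : ℕ => ¬ ∃ a' : ℕ, a' < k ∧ (t ^ a')⁻¹ * s * t ^ a ∈ K)).card * F.card +
        ∑ a ∈ Finset.range k, (F.filter (fun f => n s a * f ∉ F)).card := by
      have h4 : (FF.filter (fun f => s * f ∉ FF)) ⊆
          ((((Finset.range k).filter (fun a : ℕ => ¬ ∃ a' : ℕ, a' < k ∧ (t ^ a')⁻¹ * s * t ^ a ∈ K)) ×ˢ F) ∪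
            ((Finset.range k).sigma (fun a => F.filter (fun f => n s a * f ∉ F))).image
              (fun q : (_ : ℕ) × G => (q.1, q.2))).image fun p => t ^ p.1 * p.2 := by
        intro x hx
        rw [Finset.mem_filter] at hx
        obtain ⟨a, ha, f, hf, rfl⟩ := (hmemFF x).1 hx.1
        rw [Finset.mem_image]
        refine ⟨(a, f), ?_, rfl⟩
        rw [Finset.mem_union]
        by_cases h5 : ∃ a' : ℕ, a' < k ∧ (t ^ a')⁻¹ * s * t ^ a ∈ K
        · right
          rw [Finset.mem_image]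
          refine ⟨⟨a, f⟩, ?_, rfl⟩
          rw [Finset.mem_sigma]
          refine ⟨Finset.mem_range.2 ha, ?_⟩
          rw [Finset.mem_filter]
          refine ⟨hf, fun h6 => hx.2 ?_⟩
          obtain ⟨a', ha', h7⟩ := (hn s a).2 h5
          rw [hmemFF]
          refine ⟨a', ha', n s a * f, h6, ?_⟩
          rw [← h7]
          group
        · left
          rw [Finset.mem_product]
          exact ⟨Finset.mem_filter.2 ⟨Finset.mem_range.2 ha, h5⟩, hf⟩
      refine (Finset.card_le_card h4).trans ?_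
      refine Finset.card_image_le.trans ?_
      refine (Finset.card_union_le _ _).trans ?_
      rw [Finset.card_product]
      refine Nat.add_le_add_left ?_ _
      refine Finset.card_image_le.trans ?_
      rw [Finset.card_sigma]
    have h4 : ∑ a ∈ Finset.range k, ((F.filter (fun f => n s a * f ∉ F)).card : ℝ) ≤ k * (ε / 2 * F.card) := by
      have h5 := Finset.sum_le_card_nsmul (Finset.range k) (fun a => ((F.filter (fun f => n s a * f ∉ F)).card : ℝ))
        (ε / 2 * F.card) (by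
          intro a ha
          apply hFS
          rw [Finset.mem_image]
          exact ⟨(s, a), Finset.mem_product.2 ⟨hs, ha⟩, rfl⟩)
      rw [Finset.card_range, nsmul_eq_mul] at h5
      exact h5
    have h5 := h2 s hs
    have h6 : ((FF.filter (fun f => s * f ∉ FF)).card : ℝ) ≤
        ((Finset.range k).filter (fun a : ℕ => ¬ ∃ a' : ℕ, a' < k ∧ (t ^ a')⁻¹ * s * t ^ a ∈ K)).card * F.card +
        ∑ a ∈ Finset.range k, ((F.filter (fun f => n s a * f ∉ F)).card : ℝ) := by exact_mod_cast h3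
    have h7 := mul_le_mul_of_nonneg_right h5 (Nat.cast_nonneg (α := ℝ) F.card)
    rw [hcard]
    push_cast
    linarith

lemma mem_cyc (K K' : Subgroup G) [hn : K.Normal] (t : G) (hK' : K' = K ⊔ Subgroup.zpowers t) {g : G} (hg : g ∈ K') :
    ∃ b : ℤ, (t ^ b)⁻¹ * g ∈ K := by
  rw [hK', Subgroup.mem_sup_of_normal_left] at hg
  obtain ⟨y, hy, z, hz, rfl⟩ := hg
  obtain ⟨b, rfl⟩ := Subgroup.mem_zpowers_iff.1 hz
  refine ⟨b, ?_⟩
  have h := hn.conj_mem y hy (t ^ b)⁻¹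
  rw [inv_inv] at h
  rwa [← mul_assoc]

open Classical in
/-- The cyclic extension step. -/
theorem cyc_step (K K' : Subgroup G) [hn : K.Normal] (hK : FT K) (t : G) (hK' : K' = K ⊔ Subgroup.zpowers t)
    (S : Finset G) (hS : ∀ s ∈ S, s ∈ K') (ε : ℝ) (hε : 0 < ε) :
    ∃ H : Subgroup G, H ≤ K' ∧ ∃ F : Finset G, Trans H K' F ∧
      ∀ s ∈ S, ((F.filter (fun f => s * f ∉ F)).card : ℝ) ≤ ε * F.card := by
  have hKK' : K ≤ K' := by rw [hK']; exact le_sup_left
  have htK' : t ∈ K' := by rw [hK']; exact Subgroup.mem_sup_right (Subgroup.mem_zpowers t)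
  by_cases hA : ∃ k : ℕ, 0 < k ∧ t ^ k ∈ K
  · obtain ⟨k, ⟨hk0, hkK⟩, hmin⟩ : ∃ k : ℕ, (0 < k ∧ t ^ k ∈ K) ∧ ∀ j, 0 < j → j < k → t ^ j ∉ K :=
      ⟨Nat.find hA, Nat.find_spec hA, fun j hj hj' hjK => Nat.find_min hA hj' ⟨hj, hjK⟩⟩
    have h1 : ∀ g ∈ K', ∃! a : ℕ, a < k ∧ ∃ z ∈ (⊥ : Subgroup G), (t ^ a)⁻¹ * g * z⁻¹ ∈ K := by
      intro g hg
      obtain ⟨b, hb⟩ := mem_cyc K K' t hK' hg
      have hk1 : (0 : ℤ) < k := by exact_mod_cast hk0
      have hr0 := Int.emod_nonneg b hk1.ne'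
      have hr1 := Int.emod_lt_of_pos b hk1
      refine ⟨(b % k).toNat, ⟨by omega, 1, Subgroup.one_mem _, ?_⟩, ?_⟩
      · have h3 : (t ^ (b % k).toNat : G) = t ^ (b % (k : ℤ)) := by
          rw [← zpow_natCast, Int.toNat_of_nonneg hr0]
        have h4 : (t ^ (b % k).toNat)⁻¹ * g * 1⁻¹ = (t ^ k) ^ (b / k) * ((t ^ b)⁻¹ * g) := by
          rw [h3, inv_one, mul_one, ← mul_assoc, ← zpow_natCast, ← zpow_mul, ← zpow_neg, ← zpow_neg, ← zpow_add]
          congr 2
          have h5 := Int.emod_add_mul_ediv b k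
          linarith
        rw [h4]
        exact K.mul_mem (K.zpow_mem hkK _) hb
      · have key : ∀ a a' : ℕ, a < k → a' < k → (t ^ a)⁻¹ * g ∈ K → (t ^ a')⁻¹ * g ∈ K → a ≤ a' → a = a' := by
          intro a a' _ ha' h3 h4 h5
          by_contra hne
          have h6 := K.mul_mem h4 (K.inv_mem h3)
          have h7 : (t ^ a')⁻¹ * g * ((t ^ a)⁻¹ * g)⁻¹ = (t ^ (a' - a))⁻¹ := by
            rw [pow_sub t h5]
            group
          rw [h7] at h6
          exact hmin (a' - a) (by omega) (by omega) (by simpa using h6)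
        rintro a' ⟨ha', z, hz, hz'⟩
        rw [Subgroup.mem_bot] at hz
        subst hz
        have h3 : (t ^ (b % k).toNat : G) = t ^ (b % (k : ℤ)) := by
          rw [← zpow_natCast, Int.toNat_of_nonneg hr0]
        have h4 : (t ^ (b % k).toNat)⁻¹ * g = (t ^ k) ^ (b / k) * ((t ^ b)⁻¹ * g) := by
          rw [h3, ← mul_assoc, ← zpow_natCast, ← zpow_mul, ← zpow_neg, ← zpow_neg, ← zpow_add]
          congr 2
          have h5 := Int.emod_add_mul_ediv b k
          linarith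
        have h5 : (t ^ (b % k).toNat)⁻¹ * g ∈ K := by
          rw [h4]
          exact K.mul_mem (K.zpow_mem hkK _) hb
        rw [inv_one, mul_one] at hz'
        rcases le_total a' (b % k).toNat with h6 | h6
        · exact key _ _ ha' (by omega) hz' h5 h6
        · exact (key _ _ (by omega) ha' h5 hz' h6).symm
    refine ext_step K K' hK t hKK' htK' k ⊥ bot_le (fun z hz _ => Subgroup.mem_bot.1 hz) h1 S ε hε ?_
    intro s hs
    rw [Finset.filter_false_of_mem]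
    · rw [Finset.card_empty, Nat.cast_zero]
      positivity
    · intro a _ h3
      apply h3
      obtain ⟨a', ⟨ha', z, hz, hz'⟩, -⟩ := h1 (s * t ^ a) (K'.mul_mem (hS s hs) (K'.pow_mem htK' _))
      rw [Subgroup.mem_bot] at hz
      subst hz
      refine ⟨a', ha', ?_⟩
      rwa [inv_one, mul_one, ← mul_assoc] at hz'
  · push Not at hA
    have hz0 : ∀ q : ℤ, t ^ q ∈ K → q = 0 := by
      intro q hq
      by_contra hne
      have h3 : t ^ q.natAbs ∈ K := by
        rcases Int.natAbs_eq q with h4 | h4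
        · rw [← zpow_natCast, ← h4]
          exact hq
        · have h5 := K.inv_mem hq
          rw [← zpow_neg] at h5
          have h6 : -q = (q.natAbs : ℤ) := by omega
          rw [h6, zpow_natCast] at h5
          exact h5
      exact hA q.natAbs (by omega) h3
    have h3 : ∀ s : G, ∃ e : ℤ, s ∈ K' → (t ^ e)⁻¹ * s ∈ K := by
      intro s
      by_cases hs : s ∈ K'
      · obtain ⟨b, hb⟩ := mem_cyc K K' t hK' hs
        exact ⟨b, fun _ => hb⟩
      · exact ⟨0, fun h => absurd h hs⟩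
    choose e he using h3
    obtain ⟨E, hE⟩ : ∃ E : ℕ, E = ∑ s ∈ S, (e s).natAbs := ⟨_, rfl⟩
    have hEs : ∀ s ∈ S, (e s).natAbs ≤ E := by
      intro s hs
      rw [hE]
      exact Finset.single_le_sum (f := fun s => (e s).natAbs) (fun _ _ => Nat.zero_le _) hs
    obtain ⟨k, hk⟩ := exists_nat_gt (E / (ε / 2))
    have hk0 : 0 < k := by
      have : (0 : ℝ) < k := lt_of_le_of_lt (by positivity) hk
      exact_mod_cast this
    have hkE : (E : ℝ) ≤ ε / 2 * k := by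
      rw [div_lt_iff₀ (by linarith)] at hk
      linarith
    have hk1 : (0 : ℤ) < k := by exact_mod_cast hk0
    refine ext_step K K' hK t hKK' htK' k (Subgroup.zpowers (t ^ k)) ?_ ?_ ?_ S ε hε ?_
    · rw [Subgroup.zpowers_le]
      exact K'.pow_mem htK' k
    · intro z hz hzK
      obtain ⟨q, rfl⟩ := Subgroup.mem_zpowers_iff.1 hz
      rw [← zpow_natCast, ← zpow_mul] at hzK ⊢
      rw [hz0 _ hzK, zpow_zero]
    · intro g hg
      obtain ⟨b, hb⟩ := mem_cyc K K' t hK' hg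
      have hr0 := Int.emod_nonneg b hk1.ne'
      have hr1 := Int.emod_lt_of_pos b hk1
      refine ⟨(b % k).toNat, ⟨by omega, (t ^ k) ^ (b / k), Subgroup.zpow_mem_zpowers _ _, ?_⟩, ?_⟩
      · have h3 : (t ^ (b % k).toNat : G) = t ^ (b % (k : ℤ)) := by
          rw [← zpow_natCast, Int.toNat_of_nonneg hr0]
        have h4 : (t ^ (b % k).toNat)⁻¹ * g * ((t ^ k) ^ (b / k))⁻¹ =
            (t ^ k) ^ (b / k) * ((t ^ b)⁻¹ * g) * ((t ^ k) ^ (b / k))⁻¹ := by
          congr 1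
          rw [h3, ← mul_assoc, ← zpow_natCast, ← zpow_mul, ← zpow_neg, ← zpow_neg, ← zpow_add]
          congr 2
          have h5 := Int.emod_add_mul_ediv b k
          linarith
        rw [h4]
        exact hn.conj_mem _ hb _
      · rintro a' ⟨ha', z, hz, hz'⟩
        obtain ⟨q, rfl⟩ := Subgroup.mem_zpowers_iff.1 hz
        have h5 : t ^ ((a' : ℤ) + k * q - b) ∈ K := by
          have h6 := hn.conj_mem _ (K.inv_mem hz') ((t ^ k) ^ q)⁻¹
          have h7 := K.mul_mem hb h6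
          have h8 : t ^ ((a' : ℤ) + k * q - b) = (t ^ b)⁻¹ * g *
              (((t ^ k) ^ q)⁻¹ * ((t ^ a')⁻¹ * g * ((t ^ k) ^ q)⁻¹)⁻¹ * ((t ^ k) ^ q)⁻¹⁻¹) := by
            group
          rw [h8]
          exact h7
        have h6 := hz0 _ h5
        have h7 : b = (a' : ℤ) + k * q := by linarith
        have h8 : b % k = a' := by
          rw [h7, Int.add_mul_emod_self_left]
          exact Int.emod_eq_of_lt (by omega) (by omega)
        rw [h8]
        simp
    · intro s hs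
      have hgood : ∀ a : ℕ, 0 ≤ e s + a → e s + a < k → ∃ a' : ℕ, a' < k ∧ (t ^ a')⁻¹ * s * t ^ a ∈ K := by
        intro a h3 h4
        refine ⟨(e s + a).toNat, by omega, ?_⟩
        have h5 : (t ^ (e s + a).toNat : G) = t ^ (e s + a) := by
          rw [← zpow_natCast, Int.toNat_of_nonneg h3]
        have h6 := hn.conj_mem _ (he s (hS s hs)) (t ^ a)⁻¹
        have h7 : (t ^ (e s + a).toNat)⁻¹ * s * t ^ a = (t ^ a)⁻¹ * ((t ^ e s)⁻¹ * s) * (t ^ a)⁻¹⁻¹ := by
          rw [h5]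
          group
        rw [h7]
        exact h6
      have h3 : ((Finset.range k).filter (fun a : ℕ => ¬ ∃ a' : ℕ, a' < k ∧ (t ^ a')⁻¹ * s * t ^ a ∈ K)).card ≤
          (e s).natAbs := by
        rcases le_total 0 (e s) with h4 | h4
        · have h5 : (Finset.range k).filter (fun a : ℕ => ¬ ∃ a' : ℕ, a' < k ∧ (t ^ a')⁻¹ * s * t ^ a ∈ K) ⊆
              Finset.Ico (k - (e s).natAbs) k := by
            intro a ha
            rw [Finset.mem_filter, Finset.mem_range] at ha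
            rw [Finset.mem_Ico]
            refine ⟨?_, ha.1⟩
            by_contra h6
            exact ha.2 (hgood a (by omega) (by omega))
          refine (Finset.card_le_card h5).trans ?_
          rw [Nat.card_Ico]
          omega
        · have h5 : (Finset.range k).filter (fun a : ℕ => ¬ ∃ a' : ℕ, a' < k ∧ (t ^ a')⁻¹ * s * t ^ a ∈ K) ⊆
              Finset.range (e s).natAbs := by
            intro a ha
            rw [Finset.mem_filter, Finset.mem_range] at ha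
            rw [Finset.mem_range]
            by_contra h6
            exact ha.2 (hgood a (by omega) (by omega))
          refine (Finset.card_le_card h5).trans ?_
          rw [Finset.card_range]
      refine le_trans ?_ hkE
      exact_mod_cast h3.trans (hEs s hs)

lemma exists_trans (M H : Subgroup G) [Finite (↥H ⧸ M.subgroupOf H)] : ∃ F : Finset G, Trans M H F := by
  classical
  have : Fintype (↥H ⧸ M.subgroupOf H) := Fintype.ofFinite _
  refine ⟨Finset.univ.image fun q : ↥H ⧸ M.subgroupOf H => ((q.out : ↥H) : G), ?_, ?_⟩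
  · intro f hf
    rw [Finset.mem_image] at hf
    obtain ⟨q, -, rfl⟩ := hf
    exact q.out.2
  · intro g hg
    have h1 : ((((⟨g, hg⟩ : ↥H) : ↥H ⧸ M.subgroupOf H).out : ↥H) : G)⁻¹ * g ∈ M := by
      have h2 : (((⟨g, hg⟩ : ↥H) : ↥H ⧸ M.subgroupOf H).out : ↥H ⧸ M.subgroupOf H) = ((⟨g, hg⟩ : ↥H) : ↥H ⧸ M.subgroupOf H) :=
        Quotient.out_eq' _
      rw [QuotientGroup.eq, Subgroup.mem_subgroupOf] at h2
      exact h2
    refine ⟨_, ⟨Finset.mem_image.2 ⟨((⟨g, hg⟩ : ↥H) : ↥H ⧸ M.subgroupOf H), Finset.mem_univ _, rfl⟩, h1⟩, ?_⟩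
    rintro y ⟨hy, hyM⟩
    rw [Finset.mem_image] at hy
    obtain ⟨q, -, rfl⟩ := hy
    have h2 : (q.out : ↥H ⧸ M.subgroupOf H) = ((⟨g, hg⟩ : ↥H) : ↥H ⧸ M.subgroupOf H) := by
      rw [QuotientGroup.eq, Subgroup.mem_subgroupOf]
      exact hyM
    have h3 : (q.out : ↥H ⧸ M.subgroupOf H) = q := Quotient.out_eq' _
    rw [← h3, h2]

lemma finite_quot {M K : Subgroup G} {F : Finset G} (h : Trans M K F) : Finite (↥K ⧸ M.subgroupOf K) := by
  classical
  have h1 : Function.Surjective (fun f : {f // f ∈ F} => ((⟨f.1, h.1 f.1 f.2⟩ : ↥K) : ↥K ⧸ M.subgroupOf K)) := by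
    intro q
    obtain ⟨g, rfl⟩ := QuotientGroup.mk_surjective q
    obtain ⟨f, ⟨hf, hfM⟩, -⟩ := h.2 g.1 g.2
    refine ⟨⟨f, hf⟩, ?_⟩
    simp only
    rw [QuotientGroup.eq, Subgroup.mem_subgroupOf]
    exact hfM
  exact Finite.of_surjective _ h1

/-- A subgroup of finite index of a finitely generated normal subgroup contains a normal subgroup. -/
theorem refine_normal (K : Subgroup G) [K.Normal] (hfg : K.FG) (H : Subgroup G) (hH : H ≤ K)
    [Finite (↥K ⧸ H.subgroupOf K)] :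
    ∃ M : Subgroup G, M.Normal ∧ M ≤ H ∧ ∃ F : Finset G, Trans M H F := by
  classical
  obtain ⟨n, hn⟩ : ∃ n : ℕ, n = Nat.card (↥K ⧸ H.subgroupOf K) := ⟨_, rfl⟩
  obtain ⟨e⟩ : Nonempty ((↥K ⧸ H.subgroupOf K) ≃ Fin n) := ⟨(Finite.equivFin _).trans (finCongr hn.symm)⟩
  have hG : Group.FG ↥K := (Group.fg_iff_subgroup_fg K).2 hfg
  obtain ⟨X, hX⟩ := hG.out
  have hfin : Finite (↥K →* Equiv.Perm (Fin n)) := by
    have h1 : Function.Injective (fun (φ : ↥K →* Equiv.Perm (Fin n)) (x : {x // x ∈ X}) => φ x.1) := by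
      intro φ ψ h
      apply MonoidHom.eq_of_eqOn_dense hX
      intro x hx
      exact congrFun h ⟨x, hx⟩
    exact Finite.of_injective _ h1
  obtain ⟨C, hC⟩ : ∃ C : Subgroup ↥K, C = ⨅ φ : ↥K →* Equiv.Perm (Fin n), φ.ker := ⟨_, rfl⟩
  have hCmem : ∀ x, x ∈ C ↔ ∀ φ : ↥K →* Equiv.Perm (Fin n), φ x = 1 := by
    intro x
    rw [hC, Subgroup.mem_iInf]
    rfl
  have hCfin : C.FiniteIndex := by
    rw [hC]
    exact Subgroup.finiteIndex_iInf fun φ => inferInstance
  have hCchar : C.Characteristic := by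
    rw [Subgroup.characteristic_iff_le_comap]
    intro ϕ x hx
    rw [Subgroup.mem_comap, hCmem]
    rw [hCmem] at hx
    intro φ
    exact hx (φ.comp ϕ.toMonoidHom)
  have hCH : C ≤ H.subgroupOf K := by
    intro x hx
    rw [hCmem] at hx
    have h1 := hx ((e.permCongrHom.toMonoidHom).comp (MulAction.toPermHom ↥K (↥K ⧸ H.subgroupOf K)))
    have h2 : MulAction.toPermHom ↥K (↥K ⧸ H.subgroupOf K) x = 1 := by
      apply e.permCongrHom.injective
      rw [map_one]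
      exact h1
    have h3 := congrArg (fun p => p ((1 : ↥K) : ↥K ⧸ H.subgroupOf K)) h2
    simp only [MulAction.toPermHom_apply, MulAction.toPerm_apply, Equiv.Perm.coe_one, id_eq] at h3
    have h4 : ((x : ↥K) : ↥K ⧸ H.subgroupOf K) = ((1 : ↥K) : ↥K ⧸ H.subgroupOf K) := by
      rw [← h3]
      simp
    rw [eq_comm, QuotientGroup.eq] at h4
    simpa using h4
  refine ⟨C.map K.subtype, inferInstance, ?_, ?_⟩
  · intro y hy
    obtain ⟨x, hx, rfl⟩ := Subgroup.mem_map.1 hy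
    exact Subgroup.mem_subgroupOf.1 (hCH hx)
  · have h1 : Finite (↥H ⧸ (C.map K.subtype).subgroupOf H) := by
      have h2 : Function.Injective (fun q : ↥H ⧸ (C.map K.subtype).subgroupOf H =>
          (((⟨q.out.1, hH q.out.2⟩ : ↥K)) : ↥K ⧸ C)) := by
        intro q q' h
        simp only at h
        rw [QuotientGroup.eq] at h
        rw [← Quotient.out_eq' q, ← Quotient.out_eq' q']
        change (q.out : ↥H ⧸ (C.map K.subtype).subgroupOf H) = (q'.out : ↥H ⧸ (C.map K.subtype).subgroupOf H)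
        rw [QuotientGroup.eq, Subgroup.mem_subgroupOf]
        exact Subgroup.mem_map.2 ⟨_, h, rfl⟩
      exact Finite.of_injective _ h2
    exact exists_trans _ _

/-- Transitivity. -/
theorem trans_trans {M H K : Subgroup G} (hMH : M ≤ H) (hHK : H ≤ K) {F F' : Finset G} (h : Trans H K F) (h' : Trans M H F')
    [DecidableEq G] :
    Trans M K ((F ×ˢ F').image fun p => p.1 * p.2) ∧
    ((F ×ˢ F').image fun p => p.1 * p.2).card = F.card * F'.card := by
  have hinj : ∀ f ∈ F, ∀ f' ∈ F', ∀ g ∈ F, ∀ g' ∈ F', (f * f')⁻¹ * (g * g') ∈ M → f = g ∧ f' = g' := by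
    intro f hf f' hf' g hg g' hg' heq
    have h1 : f = g := by
      apply trans_unique h hf hg
      have h2 : f⁻¹ * g = f' * ((f * f')⁻¹ * (g * g')) * g'⁻¹ := by group
      rw [h2]
      exact H.mul_mem (H.mul_mem (h'.1 f' hf') (hMH heq)) (H.inv_mem (h'.1 g' hg'))
    subst h1
    refine ⟨rfl, trans_unique h' hf' hg' ?_⟩
    have h2 : f'⁻¹ * g' = (f * f')⁻¹ * (f * g') := by group
    rwa [h2]
  refine ⟨⟨?_, ?_⟩, ?_⟩
  · intro x hx
    obtain ⟨⟨f, f'⟩, hp, rfl⟩ := Finset.mem_image.1 hx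
    rw [Finset.mem_product] at hp
    exact K.mul_mem (h.1 f hp.1) (hHK (h'.1 f' hp.2))
  · intro g hg
    obtain ⟨f, ⟨hf, hfH⟩, -⟩ := h.2 g hg
    obtain ⟨f', ⟨hf', hfM⟩, -⟩ := h'.2 _ hfH
    have h1 : (f * f')⁻¹ * g ∈ M := by
      have h2 : (f * f')⁻¹ * g = f'⁻¹ * (f⁻¹ * g) := by group
      rwa [h2]
    refine ⟨f * f', ⟨Finset.mem_image.2 ⟨(f, f'), Finset.mem_product.2 ⟨hf, hf'⟩, rfl⟩, h1⟩, ?_⟩
    rintro y ⟨hy, hyM⟩
    obtain ⟨⟨u, u'⟩, hp, rfl⟩ := Finset.mem_image.1 hy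
    rw [Finset.mem_product] at hp
    have h2 := hinj u hp.1 u' hp.2 f hf f' hf' (by
      have h3 : (u * u')⁻¹ * (f * f') = ((u * u')⁻¹ * g) * ((f * f')⁻¹ * g)⁻¹ := by group
      rw [h3]
      exact M.mul_mem hyM (M.inv_mem h1))
    simp only
    rw [h2.1, h2.2]
  · rw [Finset.card_image_of_injOn, Finset.card_product]
    rintro ⟨f, f'⟩ h1 ⟨g, g'⟩ h2 h3
    simp only [Finset.coe_product, Set.mem_prod, Finset.mem_coe] at h1 h2
    simp only at h3
    have h4 := hinj f h1.1 f' h1.2 g h2.1 g' h2.2 (by rw [h3]; simp)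
    rw [h4.1, h4.2]

open Classical in
/-- The induction step. -/
theorem ft_step (K K' : Subgroup G) [K.Normal] [K'.Normal] (hfg : K'.FG) (hK : FT K) (t : G)
    (hK' : K' = K ⊔ Subgroup.zpowers t) : FT K' := by
  intro S hS ε hε
  obtain ⟨H, hH, F, hF, hFS⟩ := cyc_step K K' hK t hK' S hS ε hε
  have := finite_quot hF
  obtain ⟨M, hM, hMH, F', hF'⟩ := refine_normal K' hfg H hH
  obtain ⟨h1, h2⟩ := trans_trans hMH hH hF hF'
  refine ⟨M, hM, hMH.trans hH, _, h1, ?_⟩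
  intro s hs
  have h3 : ((((F ×ˢ F').image fun p => p.1 * p.2).filter
      (fun f => s * f ∉ ((F ×ˢ F').image fun p => p.1 * p.2))).card) ≤
      (F.filter (fun f => s * f ∉ F)).card * F'.card := by
    rw [← Finset.card_product]
    refine le_trans (Finset.card_le_card (t := ((F.filter (fun f => s * f ∉ F)) ×ˢ F').image fun p => p.1 * p.2) ?_)
      Finset.card_image_le
    intro x hx
    rw [Finset.mem_filter] at hx
    obtain ⟨⟨f, f'⟩, hp, rfl⟩ := Finset.mem_image.1 hx.1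
    rw [Finset.mem_product] at hp
    refine Finset.mem_image.2 ⟨(f, f'), Finset.mem_product.2 ⟨Finset.mem_filter.2 ⟨hp.1, fun h4 => hx.2 ?_⟩, hp.2⟩, rfl⟩
    exact Finset.mem_image.2 ⟨(s * f, f'), Finset.mem_product.2 ⟨h4, hp.2⟩, mul_assoc _ _ _⟩
  have h4 := hFS s hs
  rw [h2]
  push_cast
  have h5 : ((((F ×ˢ F').image fun p => p.1 * p.2).filter
      (fun f => s * f ∉ ((F ×ˢ F').image fun p => p.1 * p.2))).card : ℝ) ≤
      (F.filter (fun f => s * f ∉ F)).card * F'.card := by exact_mod_cast h3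
  have h6 := mul_le_mul_of_nonneg_right h4 (Nat.cast_nonneg (α := ℝ) F'.card)
  linarith

end

end Pool.Agent.Q161.Ms
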