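import Pool.Agent.Q161.MsF

/-! # Nilpotent groups have almost invariant transversals -/

set_option autoImplicit false

open scoped commutatorElement

namespace Pool.Agent.Q161.Ms

section

variable {G : Type*} [Group G]

lemma normal_between (i : ℕ) (K : Subgroup G) (h1 : (⊤ : Subgroup G).lowerCentralSeries (i + 1) ≤ K)
    (h2 : K ≤ (⊤ : Subgroup G).lowerCentralSeries i) : K.Normal := by
  constructor
  intro k hk g
  have h3 : g * k * g⁻¹ = (⁅k, g⁆)⁻¹ * k := by
    rw [commutatorElement_def]
    group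
  rw [h3]
  refine K.mul_mem (K.inv_mem (h1 ?_)) hk
  rw [Subgroup.lowerCentralSeries_succ]
  exact Subgroup.commutator_mem_commutator (h2 hk) (Subgroup.mem_top g)

lemma central_gen (K : Subgroup G) [hK : K.Normal] {X : Set G} (hX : Subgroup.closure X = ⊤) (c : G)
    (h : ∀ x ∈ X, ⁅c, x⁆ ∈ K) (g : G) : ⁅c, g⁆ ∈ K := by
  have hg : g ∈ Subgroup.closure X := by rw [hX]; exact Subgroup.mem_top g
  induction hg using Subgroup.closure_induction with
  | mem x hx => exact h x hx
  | one => simp
  | mul x y _ _ ihx ihy =>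
    have h1 : ⁅c, x * y⁆ = ⁅c, x⁆ * (x * ⁅c, y⁆ * x⁻¹) := by
      simp only [commutatorElement_def]
      group
    rw [h1]
    exact K.mul_mem ihx (hK.conj_mem _ ihy x)
  | inv x _ ihx =>
    have h1 : ⁅c, x⁻¹⁆ = x⁻¹ * (⁅c, x⁆)⁻¹ * x⁻¹⁻¹ := by
      simp only [commutatorElement_def]
      group
    rw [h1]
    exact hK.conj_mem _ (K.inv_mem ihx) _

lemma gen (hfg : Group.FG G) (i : ℕ) : ∃ C : Finset G, (∀ c ∈ C, c ∈ (⊤ : Subgroup G).lowerCentralSeries i) ∧
    (⊤ : Subgroup G).lowerCentralSeries i =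
      (⊤ : Subgroup G).lowerCentralSeries (i + 1) ⊔ Subgroup.closure (C : Set G) := by
  classical
  obtain ⟨X, hX⟩ := hfg.out
  induction i with
  | zero =>
    refine ⟨X, fun c _ => Subgroup.mem_top c, ?_⟩
    rw [hX]
    simp
  | succ i ih =>
    obtain ⟨C, hC1, hC2⟩ := ih
    obtain ⟨D, hD⟩ : ∃ D : Finset G, D = (C ×ˢ X).image fun p => ⁅p.1, p.2⁆ := ⟨_, rfl⟩
    have hD1 : ∀ d ∈ D, d ∈ (⊤ : Subgroup G).lowerCentralSeries (i + 1) := by
      intro d hd
      rw [hD, Finset.mem_image] at hd
      obtain ⟨p, hp, rfl⟩ := hd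
      rw [Finset.mem_product] at hp
      rw [Subgroup.lowerCentralSeries_succ]
      exact Subgroup.commutator_mem_commutator (hC1 _ hp.1) (Subgroup.mem_top _)
    obtain ⟨K, hK⟩ : ∃ K : Subgroup G, K = (⊤ : Subgroup G).lowerCentralSeries (i + 1 + 1) ⊔
      Subgroup.closure (D : Set G) := ⟨_, rfl⟩
    have hKle : K ≤ (⊤ : Subgroup G).lowerCentralSeries (i + 1) := by
      rw [hK]
      refine sup_le (Subgroup.lowerCentralSeries_antitone _ (Nat.le_succ _)) ?_
      rw [Subgroup.closure_le]
      exact fun d hd => hD1 d hd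
    have hKn : K.Normal := normal_between (i + 1) K (by rw [hK]; exact le_sup_left) hKle
    refine ⟨D, hD1, le_antisymm ?_ (by rw [← hK]; exact hKle)⟩
    rw [← hK, Subgroup.lowerCentralSeries_succ _ i, Subgroup.commutator_le]
    intro a ha g _
    have hS : ∃ S : Subgroup G, ∀ a, a ∈ S ↔ ∀ g, ⁅a, g⁆ ∈ K := by
      refine ⟨{ carrier := {a | ∀ g, ⁅a, g⁆ ∈ K}, mul_mem' := ?_, one_mem' := ?_, inv_mem' := ?_ }, fun a => Iff.rfl⟩
      · intro a b ha hb g
        have h1 : ⁅a * b, g⁆ = (a * ⁅b, g⁆ * a⁻¹) * ⁅a, g⁆ := by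
          simp only [commutatorElement_def]
          group
        rw [h1]
        exact K.mul_mem (hKn.conj_mem _ (hb g) a) (ha g)
      · intro g
        simp
      · intro a ha g
        have h1 : ⁅a⁻¹, g⁆ = a⁻¹ * (⁅a, g⁆)⁻¹ * a⁻¹⁻¹ := by
          simp only [commutatorElement_def]
          group
        rw [h1]
        exact hKn.conj_mem _ (K.inv_mem (ha g)) _
    obtain ⟨S, hS⟩ := hS
    have h1 : (⊤ : Subgroup G).lowerCentralSeries i ≤ S := by
      rw [hC2]
      refine sup_le ?_ ?_
      · intro b hb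
        rw [hS]
        intro g
        rw [hK]
        apply Subgroup.mem_sup_left
        rw [Subgroup.lowerCentralSeries_succ]
        exact Subgroup.commutator_mem_commutator hb (Subgroup.mem_top _)
      · rw [Subgroup.closure_le]
        intro c hc
        rw [SetLike.mem_coe, hS]
        apply central_gen K hX
        intro x hx
        rw [hK]
        apply Subgroup.mem_sup_right
        apply Subgroup.subset_closure
        rw [hD]
        exact Finset.mem_coe.2 (Finset.mem_image.2 ⟨(c, x), Finset.mem_product.2 ⟨hc, hx⟩, rfl⟩)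
    exact (hS a).1 (h1 ha) g

lemma down (i : ℕ) (h : FT ((⊤ : Subgroup G).lowerCentralSeries (i + 1)) ∧
    ((⊤ : Subgroup G).lowerCentralSeries (i + 1)).FG) (C : Finset G)
    (hC : ∀ c ∈ C, c ∈ (⊤ : Subgroup G).lowerCentralSeries i) :
    FT ((⊤ : Subgroup G).lowerCentralSeries (i + 1) ⊔ Subgroup.closure (C : Set G)) ∧
    ((⊤ : Subgroup G).lowerCentralSeries (i + 1) ⊔ Subgroup.closure (C : Set G)).FG := by
  classical
  have hle : ∀ C : Finset G, (∀ c ∈ C, c ∈ (⊤ : Subgroup G).lowerCentralSeries i) →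
      ((⊤ : Subgroup G).lowerCentralSeries (i + 1) ⊔ Subgroup.closure (C : Set G)).Normal := by
    intro C hC
    apply normal_between i _ le_sup_left
    refine sup_le (Subgroup.lowerCentralSeries_antitone _ (Nat.le_succ _)) ?_
    rw [Subgroup.closure_le]
    exact fun d hd => hC d hd
  induction C using Finset.induction_on with
  | empty =>
    rw [Finset.coe_empty, Subgroup.closure_empty, sup_bot_eq]
    exact h
  | insert c C hc ih =>
    obtain ⟨h1, h2⟩ := ih fun d hd => hC d (Finset.mem_insert_of_mem hd)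
    have h3 : (⊤ : Subgroup G).lowerCentralSeries (i + 1) ⊔ Subgroup.closure ((insert c C : Finset G) : Set G) =
        ((⊤ : Subgroup G).lowerCentralSeries (i + 1) ⊔ Subgroup.closure (C : Set G)) ⊔ Subgroup.zpowers c := by
      rw [Finset.coe_insert, Set.insert_eq, Subgroup.closure_union, Subgroup.zpowers_eq_closure, sup_assoc,
        sup_comm (Subgroup.closure {c})]
    have h4 := hle (insert c C) hC
    have h5 := hle C fun d hd => hC d (Finset.mem_insert_of_mem hd)
    have h6 : (((⊤ : Subgroup G).lowerCentralSeries (i + 1) ⊔ Subgroup.closure (C : Set G)) ⊔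
        Subgroup.zpowers c).FG := by
      refine Subgroup.FG.sup h2 ?_
      exact ⟨{c}, by rw [Finset.coe_singleton, Subgroup.zpowers_eq_closure]⟩
    refine ⟨?_, by rw [h3]; exact h6⟩
    exact ft_step _ _ (by rw [h3]; exact h6) h1 c h3

/-- Finitely generated nilpotent groups have almost invariant transversals. -/
theorem nil_ft (hfg : Group.FG G) (s : ℕ) (hs : (⊤ : Subgroup G).lowerCentralSeries s = ⊥) :
    FT (⊤ : Subgroup G) := by
  have h1 : ∀ j i, i + j = s → FT ((⊤ : Subgroup G).lowerCentralSeries i) ∧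
      ((⊤ : Subgroup G).lowerCentralSeries i).FG := by
    intro j
    induction j with
    | zero =>
      intro i hi
      have h2 : i = s := by omega
      rw [h2, hs]
      exact ⟨ft_bot, ⟨∅, by simp⟩⟩
    | succ j ih =>
      intro i hi
      obtain ⟨C, hC1, hC2⟩ := gen hfg i
      have h2 := down i (ih (i + 1) (by omega)) C hC1
      rw [← hC2] at h2
      exact h2
  have h2 := (h1 s 0 (by omega)).1
  rw [Subgroup.lowerCentralSeries_zero] at h2
  exact h2

end

end Pool.Agent.Q161.Ms
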