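import Pool.Agent.Q161.MsD
import Pool.Agent.Q161.MsF

/-! # Finite models of measure preserving actions -/

set_option autoImplicit false

open MeasureTheory Filter Topology Set
open scoped ENNReal NNReal

namespace Pool.Agent.Q161.Ms

section

variable {Γ : Type} [Group Γ] {J : Type} [Fintype J]

/-- Pattern of a point. -/
noncomputable def pt {X : Type} (ρ : Γ → X → X) (A : J → Set X) (x : X) (g : Γ) (j : J) : Prop := ρ g x ∈ A j

open Classical in
theorem finite_model (hFT : FT (⊤ : Subgroup Γ)) {X : Type} [MeasurableSpace X] (μ : Measure X) [IsProbabilityMeasure μ]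
    (ρ : Γ → X → X) (hρ : ∀ g h, ρ (g * h) = ρ g ∘ ρ h) (hmp : ∀ g, MeasurePreserving (ρ g) μ μ)
    (A : J → Set X) (hA : ∀ j, MeasurableSet (A j)) (K : ℕ) (hK : 1 ≤ K)
    (P : ℕ → (Γ → J → Prop) → Prop) (S : Finset Γ)
    (hloc : ∀ N, 1 ≤ N → N ≤ K → ∀ q q' : Γ → J → Prop, (∀ g ∈ S, ∀ j, q g j ↔ q' g j) → P N q → P N q')
    (ε : ℝ) (hε : 0 < ε) (h : ∀ N, 1 ≤ N → N ≤ K → 2 * ε < μ.real {x | P N (pt ρ A x)}) :
    ∃ (Y : Type) (_ : Fintype Y) (_ : Nonempty Y) (σ : Γ →* Equiv.Perm Y) (b : J → Set Y),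
      ∀ N, 1 ≤ N → N ≤ K → ε * Fintype.card Y < Nat.card {y : Y // P N (fun g j => σ g y ∈ b j)} := by
  have hloc' : ∀ N, 1 ≤ N → N ≤ K → ∀ q q' : Γ → J → Prop, (∀ g ∈ S, ∀ j, q g j ↔ q' g j) → (P N q ↔ P N q') :=
    fun N h1 h2 q q' h3 => ⟨hloc N h1 h2 q q' h3, hloc N h1 h2 q' q fun g hg j => (h3 g hg j).symm⟩
  obtain ⟨M, hM, -, F, hF, hFS⟩ := hFT S (fun s _ => Subgroup.mem_top s) (1 / (4 * (S.card + 1))) (by positivity)
  have hF0 : 0 < F.card := by
    obtain ⟨f, ⟨hf, -⟩, -⟩ := hF.2 1 (Subgroup.mem_top 1)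
    exact Finset.card_pos.2 ⟨f, hf⟩
  obtain ⟨F', hF'⟩ : ∃ F' : Finset Γ, F' = F.filter (fun f => ∀ s ∈ S, s * f ∈ F) := ⟨_, rfl⟩
  have hF'sub : F' ⊆ F := by rw [hF']; exact Finset.filter_subset _ _
  have hF'S : ∀ f ∈ F', ∀ s ∈ S, s * f ∈ F := by
    intro f hf
    rw [hF'] at hf
    exact (Finset.mem_filter.1 hf).2
  have hF'card : (3 / 4 : ℝ) * F.card ≤ F'.card := by
    have h1 : F.card ≤ F'.card + ∑ s ∈ S, (F.filter (fun f => s * f ∉ F)).card := by
      have h2 : F ⊆ F' ∪ S.biUnion (fun s => F.filter (fun f => s * f ∉ F)) := by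
        intro f hf
        rw [Finset.mem_union]
        by_cases h3 : ∀ s ∈ S, s * f ∈ F
        · left
          rw [hF']
          exact Finset.mem_filter.2 ⟨hf, h3⟩
        · right
          push Not at h3
          obtain ⟨s, hs, h4⟩ := h3
          exact Finset.mem_biUnion.2 ⟨s, hs, Finset.mem_filter.2 ⟨hf, h4⟩⟩
      exact (Finset.card_le_card h2).trans ((Finset.card_union_le _ _).trans (Nat.add_le_add_left Finset.card_biUnion_le _))
    have h2 : ∑ s ∈ S, ((F.filter (fun f => s * f ∉ F)).card : ℝ) ≤ S.card * (1 / (4 * (S.card + 1)) * F.card) := by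
      have h3 := Finset.sum_le_card_nsmul S (fun s => ((F.filter (fun f => s * f ∉ F)).card : ℝ)) _ hFS
      rw [nsmul_eq_mul] at h3
      exact h3
    have h3 : (F.card : ℝ) ≤ F'.card + ∑ s ∈ S, ((F.filter (fun f => s * f ∉ F)).card : ℝ) := by exact_mod_cast h1
    have h4 : (S.card : ℝ) * (1 / (4 * (S.card + 1)) * F.card) ≤ 1 / 4 * F.card := by
      rw [← mul_assoc]
      refine mul_le_mul_of_nonneg_right ?_ (Nat.cast_nonneg _)
      rw [mul_one_div, div_le_iff₀ (by positivity)]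
      linarith
    linarith
  obtain ⟨word, hword⟩ : ∃ word : X → ({f // f ∈ F} → J → Bool), word = fun x (f : {f // f ∈ F}) j => decide (ρ f.1 x ∈ A j) :=
    ⟨_, rfl⟩
  have hwm : Measurable word := by
    rw [hword]
    refine measurable_pi_iff.2 fun f => measurable_pi_iff.2 fun j => ?_
    have h1 : MeasurableSet {x | ρ f.1 x ∈ A j} := (hmp f.1).measurable (hA j)
    apply measurable_to_bool
    have h2 : (fun x => decide (ρ f.1 x ∈ A j)) ⁻¹' {true} = {x | ρ f.1 x ∈ A j} := by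
      ext x
      simp
    rw [h2]
    exact h1
  obtain ⟨ex, hex⟩ : ∃ ex : ({f // f ∈ F} → J → Bool) → Γ → Γ → J → Prop,
      ex = fun w f g j => ∃ h : g * f ∈ F, w ⟨g * f, h⟩ j = true := ⟨_, rfl⟩
  have hexw : ∀ x f, f ∈ F' → ∀ g ∈ S, ∀ j, ex (word x) f g j ↔ pt ρ A (ρ f x) g j := by
    intro x f hf g hg j
    rw [hex, hword]
    unfold pt
    simp only [hF'S f hf g hg, exists_true_left, decide_eq_true_eq]
    rw [hρ g f]
    rfl
  obtain ⟨V, hV⟩ : ∃ V : ℕ → ({f // f ∈ F} → J → Bool) → ℕ, V = fun N w =>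
    (F'.filter (fun f => P N (ex w f))).card := ⟨_, rfl⟩
  have hVm : ∀ N w, V N w ≤ F.card := by
    intro N w
    rw [hV]
    exact (Finset.card_filter_le _ _).trans (Finset.card_le_card hF'sub)
  obtain ⟨p, hp⟩ : ∃ p : ({f // f ∈ F} → J → Bool) → ℝ, p = fun w => μ.real (word ⁻¹' {w}) := ⟨_, rfl⟩
  have hp0 : ∀ w, 0 ≤ p w := by
    intro w
    rw [hp]
    exact measureReal_nonneg
  have hpsum : ∀ S : Finset ({f // f ∈ F} → J → Bool), ∑ w ∈ S, p w = μ.real (word ⁻¹' S) := by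
    intro S
    rw [hp]
    exact sum_measureReal_preimage_singleton S fun y _ => hwm (measurableSet_singleton y)
  have hp1 : ∑ w, p w = 1 := by
    rw [hpsum]
    simp
  have hmeas : ∀ N, 1 ≤ N → N ≤ K → MeasurableSet {x | P N (pt ρ A x)} := by
    intro N hN1 hN2
    obtain ⟨pat, hpat⟩ : ∃ pat : X → ({g // g ∈ S} → J → Bool), pat = fun x (g : {g // g ∈ S}) j => decide (ρ g.1 x ∈ A j) :=
      ⟨_, rfl⟩
    have hpm : Measurable pat := by
      rw [hpat]
      refine measurable_pi_iff.2 fun f => measurable_pi_iff.2 fun j => ?_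
      have h1 : MeasurableSet {x | ρ f.1 x ∈ A j} := (hmp f.1).measurable (hA j)
      apply measurable_to_bool
      have h2 : (fun x => decide (ρ f.1 x ∈ A j)) ⁻¹' {true} = {x | ρ f.1 x ∈ A j} := by
        ext x
        simp
      rw [h2]
      exact h1
    have h5 : {x | P N (pt ρ A x)} = pat ⁻¹' (((Finset.univ.filter fun w : {g // g ∈ S} → J → Bool =>
        P N (fun g j => ∃ h : g ∈ S, w ⟨g, h⟩ j = true)) : Finset ({g // g ∈ S} → J → Bool)) :
          Set ({g // g ∈ S} → J → Bool)) := by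
      ext x
      simp only [Finset.coe_filter, Finset.mem_univ, true_and, mem_preimage]
      apply hloc' N hN1 hN2
      intro g hg j
      rw [hpat]
      unfold pt
      simp [hg]
    rw [h5]
    exact hpm (Finset.measurableSet _)
  have hFr : (0 : ℝ) < F.card := by exact_mod_cast hF0
  have hint : ∀ N, 1 ≤ N → N ≤ K → (3 / 2) * ε * F.card < ∑ w, p w * V N w := by
    intro N hN1 hN2
    have h1 : ∑ w, p w * V N w = ∑ f ∈ F', μ.real {x | P N (pt ρ A (ρ f x))} := by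
      have h2 : ∀ w, p w * V N w = ∑ f ∈ F', if P N (ex w f) then p w else 0 := by
        intro w
        rw [hV]
        rw [← Finset.sum_filter, Finset.sum_const, nsmul_eq_mul, mul_comm]
      rw [Finset.sum_congr rfl fun w _ => h2 w, Finset.sum_comm]
      refine Finset.sum_congr rfl fun f hf => ?_
      rw [← Finset.sum_filter, hpsum]
      congr 1
      ext x
      simp only [Finset.coe_filter, Finset.mem_univ, true_and, mem_preimage]
      exact hloc' N hN1 hN2 _ _ (hexw x f hf)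
    have h2 : ∀ f ∈ F', μ.real {x | P N (pt ρ A (ρ f x))} = μ.real {x | P N (pt ρ A x)} := by
      intro f _
      have h3 : {x | P N (pt ρ A (ρ f x))} = ρ f ⁻¹' {x | P N (pt ρ A x)} := rfl
      rw [h3]
      exact (hmp f).measureReal_preimage (hmeas N hN1 hN2).nullMeasurableSet
    rw [h1, Finset.sum_congr rfl h2, Finset.sum_const, nsmul_eq_mul]
    have h3 := h N hN1 hN2
    nlinarith
  obtain ⟨nw, hnw⟩ : ∃ nw : ℕ, nw = Fintype.card ({f // f ∈ F} → J → Bool) := ⟨_, rfl⟩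
  obtain ⟨R, hR⟩ := exists_nat_gt ((2 : ℝ) * nw / ε)
  have hR0 : (0 : ℝ) < R := lt_of_le_of_lt (by positivity) hR
  obtain ⟨n, hn⟩ : ∃ n : ({f // f ∈ F} → J → Bool) → ℕ, n = fun w => ⌊R * p w⌋₊ := ⟨_, rfl⟩
  obtain ⟨v, hv⟩ := seq_exists n
  obtain ⟨R', hR'⟩ : ∃ R' : ℕ, R' = ∑ w, n w := ⟨_, rfl⟩
  have hR'R : (R' : ℝ) ≤ R := by
    rw [hR']
    push_cast
    calc ∑ w, (n w : ℝ) ≤ ∑ w, R * p w := Finset.sum_le_sum fun w _ => by
          rw [hn]
          exact Nat.floor_le (mul_nonneg hR0.le (hp0 w))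
      _ = R := by rw [← Finset.mul_sum, hp1, mul_one]
  have hcount : ∀ N, 1 ≤ N → N ≤ K → ε * (F.card * R' : ℕ) < ((∑ r, V N (v r) : ℕ) : ℝ) := by
    intro N hN1 hN2
    rw [hv]
    have h1 : ∑ w, (R * p w - 1) * V N w ≤ ((∑ w, n w * V N w : ℕ) : ℝ) := by
      push_cast
      refine Finset.sum_le_sum fun w _ => ?_
      refine mul_le_mul_of_nonneg_right ?_ (Nat.cast_nonneg _)
      rw [hn]
      exact (Nat.sub_one_lt_floor _).le
    have h2 : ∑ w, (R * p w - 1) * V N w = R * (∑ w, p w * V N w) - ∑ w, (V N w : ℝ) := by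
      rw [Finset.mul_sum, ← Finset.sum_sub_distrib]
      refine Finset.sum_congr rfl fun w _ => ?_
      ring
    have h3 : ∑ w, (V N w : ℝ) ≤ nw * F.card := by
      have h4 : ∑ w : {f // f ∈ F} → J → Bool, (V N w : ℝ) ≤ ∑ w : {f // f ∈ F} → J → Bool, (F.card : ℝ) :=
        Finset.sum_le_sum fun w _ => by exact_mod_cast hVm N w
      rw [Finset.sum_const, nsmul_eq_mul, Finset.card_univ, ← hnw] at h4
      exact h4
    have h4 := mul_lt_mul_of_pos_left (hint N hN1 hN2) hR0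
    have h5 : (nw : ℝ) * F.card ≤ ε / 2 * F.card * R := by
      rw [div_lt_iff₀ hε] at hR
      nlinarith
    have h6 : ε * (F.card * R' : ℕ) ≤ ε * F.card * R := by
      push_cast
      have h7 : (0 : ℝ) ≤ ε * F.card := by positivity
      nlinarith
    have h7 : (R : ℝ) * ((3 / 2) * ε * F.card) = ε * F.card * R + ε / 2 * F.card * R := by ring
    linarith
  have hR'0 : 0 < R' := by
    by_contra hc
    have h1 : R' = 0 := by omega
    have h2 := hcount 1 le_rfl hK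
    have h3 : (∑ r, V 1 (v r) : ℕ) = 0 := by
      have : IsEmpty (Fin (∑ w, n w)) := by
        rw [← hR', h1]
        infer_instance
      exact Finset.sum_eq_zero fun r _ => isEmptyElim r
    rw [h3, h1] at h2
    simp at h2
  subst hR'
  have hbij : Function.Bijective (fun f : {f // f ∈ F} => ((f.1 : Γ) : Γ ⧸ M)) := by
    constructor
    · intro f f' h
      simp only at h
      rw [QuotientGroup.eq] at h
      exact Subtype.ext (trans_unique hF f.2 f'.2 h)
    · intro q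
      obtain ⟨g, rfl⟩ := QuotientGroup.mk_surjective q
      obtain ⟨f, ⟨hf, hfM⟩, -⟩ := hF.2 g (Subgroup.mem_top g)
      exact ⟨⟨f, hf⟩, QuotientGroup.eq.2 hfM⟩
  obtain ⟨e, he⟩ : ∃ e : {f // f ∈ F} ≃ Γ ⧸ M, ∀ f, e f = ((f.1 : Γ) : Γ ⧸ M) :=
    ⟨Equiv.ofBijective _ hbij, fun f => rfl⟩
  -- a copy of the quotient in `Type`
  obtain ⟨Y0, hY0⟩ : ∃ Y0 : ℕ, Y0 = F.card := ⟨_, rfl⟩
  obtain ⟨a⟩ : Nonempty ({f // f ∈ F} ≃ Fin Y0) := ⟨(Fintype.equivFin _).trans (finCongr (by rw [Fintype.card_coe, hY0]))⟩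
  obtain ⟨u, hu⟩ : ∃ u : Fin Y0 ≃ Γ ⧸ M, u = a.symm.trans e := ⟨_, rfl⟩
  obtain ⟨σ, hσ⟩ : ∃ σ : Γ →* Equiv.Perm (Fin Y0 × Fin (∑ w, n w)),
      ∀ g y, σ g y = (u.symm (g • u y.1), y.2) := by
    refine ⟨{ toFun := fun g => Equiv.prodCongr ((u.trans (MulAction.toPerm g)).trans u.symm) (Equiv.refl _), map_one' := ?_, map_mul' := ?_ }, ?_⟩
    · ext y <;> simp
    · intro g h
      ext y <;> simp [mul_smul]
    · intro g y
      rfl
  refine ⟨Fin Y0 × Fin (∑ w, n w), inferInstance, ⟨⟨⟨0, by omega⟩, ⟨0, hR'0⟩⟩⟩, σ,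
    fun j => {y | v y.2 (a.symm y.1) j = true}, ?_⟩
  intro N hN1 hN2
  rw [Fintype.card_prod, Fintype.card_fin, Fintype.card_fin]
  have hc := hcount N hN1 hN2
  rw [← hY0] at hc
  refine hc.trans_le ?_
  rw [Nat.card_eq_fintype_card, Fintype.card_subtype]
  norm_cast
  rw [hV]
  simp only
  rw [← Finset.card_sigma]
  apply Finset.card_le_card_of_injOn (fun q : (_ : Fin (∑ w, n w)) × Γ =>
    ((if h : q.2 ∈ F then a ⟨q.2, h⟩ else ⟨0, by omega⟩ : Fin Y0), q.1))
  · rintro ⟨r, f⟩ hq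
    simp only [Finset.coe_sigma, Finset.coe_univ, Finset.mem_coe, Set.mem_sigma_iff, Set.mem_univ, true_and,
      Finset.mem_filter] at hq
    obtain ⟨hf, hq⟩ := hq
    have hfF := hF'sub hf
    simp only [Finset.mem_coe, Finset.mem_filter, Finset.mem_univ, true_and]
    refine (hloc' N hN1 hN2 _ _ ?_).2 hq
    intro g hg j
    have hgf := hF'S f hf g hg
    rw [hσ, hex]
    simp only [hfF, dif_pos, hgf, exists_true_left, Set.mem_ofPred_eq]
    have h1 : u.symm (g • u (a ⟨f, hfF⟩)) = a ⟨g * f, hgf⟩ := by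
      rw [Equiv.symm_apply_eq, hu]
      simp only [Equiv.trans_apply, Equiv.symm_apply_apply]
      rw [he, he]
      rfl
    rw [h1, Equiv.symm_apply_apply]
  · rintro ⟨r, f⟩ hq ⟨r', f'⟩ hq' heq
    simp only [Finset.coe_sigma, Finset.coe_univ, Finset.mem_coe, Set.mem_sigma_iff, Set.mem_univ, true_and,
      Finset.mem_filter] at hq hq'
    have h1 := hF'sub hq.1
    have h2 := hF'sub hq'.1
    simp only [h1, h2, dif_pos, Prod.mk.injEq] at heq
    obtain ⟨h3, h4⟩ := heq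
    have h5 := a.injective h3
    rw [Subtype.mk.injEq] at h5
    rw [h4, h5]

end

end Pool.Agent.Q161.Ms
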