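import Pool.Agent.Q161.MsC
import Pool.Agent.Q161.MsH

/-! # Convergence for all systems, uniform metastability and finite systems -/

set_option autoImplicit false

open MeasureTheory Filter Topology Set
open scoped ENNReal NNReal

namespace Pool.Agent.Q161.Ms

section

variable {Γ I J Θ 𝕜 : Type} [Group Γ] [Fintype J] [RCLike 𝕜]

/-- Convergence almost everywhere for all actions. -/
def ConvG (L : Filter Θ) (w : Θ → 𝕜) (B : Θ → Finset I) (γ : J → I → Γ) : Prop :=
  ∀ (X : Type) [MeasurableSpace X] (μ : Measure X) [IsProbabilityMeasure μ] (ρ : Γ → X → X), ρ 1 = id →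
    (∀ g h, ρ (g * h) = ρ g ∘ ρ h) → (∀ g, MeasurePreserving (ρ g) μ μ) → ∀ f : J → X → 𝕜,
    (∀ j, MemLp (f j) ⊤ μ) → ∀ᵐ x ∂μ, ∃ l, Tendsto (av w B (fun j i => ρ (γ j i)) f x) L (𝓝 l)

/-- Uniform metastability. -/
def UnifG (w : Θ → 𝕜) (B : Θ → Finset I) (γ : J → I → Γ) (W : ℕ → ℕ → Finset Θ) (c : ℕ → Θ) : Prop :=
  ∀ ε : ℝ, 0 < ε → ∀ Φ : ℕ → ℕ, ∃ K : ℕ, ∀ (X : Type) [MeasurableSpace X] (μ : Measure X)
      [IsProbabilityMeasure μ] (ρ : Γ → X → X), ρ 1 = id → (∀ g h, ρ (g * h) = ρ g ∘ ρ h) →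
      (∀ g, MeasurePreserving (ρ g) μ μ) → ∀ f : J → X → 𝕜, (∀ j, Measurable (f j)) → (∀ j x, ‖f j x‖ ≤ 1) →
      ∃ N, 1 ≤ N ∧ N ≤ K ∧ μ {x | ∃ t ∈ W N (Φ N), ε < dist (av w B (fun j i => ρ (γ j i)) f x t)
        (av w B (fun j i => ρ (γ j i)) f x (c N))} ≤ ENNReal.ofReal ε

/-- The same for finite sets. -/
def FinG (w : Θ → 𝕜) (B : Θ → Finset I) (γ : J → I → Γ) (W : ℕ → ℕ → Finset Θ) (c : ℕ → Θ) : Prop :=
  ∀ ε : ℝ, 0 < ε → ∀ Φ : ℕ → ℕ, ∃ K : ℕ, ∀ (Y : Type) [Fintype Y] [Nonempty Y] (σ : Γ →* Equiv.Perm Y)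
      (b : J → Set Y), ∃ N, 1 ≤ N ∧ N ≤ K ∧
      (Nat.card {y : Y // ∃ t ∈ W N (Φ N), ε < dist (av w B (fun j i => σ (γ j i)) (fun j => (b j).indicator 1) y t)
        (av w B (fun j i => σ (γ j i)) (fun j => (b j).indicator 1) y (c N))} : ℝ) ≤ ε * Fintype.card Y

theorem conv_unif [Countable Γ] (L : Filter Θ) (w : Θ → 𝕜) (B : Θ → Finset I) (γ : J → I → Γ)
    (W : ℕ → ℕ → Finset Θ) (c : ℕ → Θ)
    (hW : ∀ U ∈ L, ∀ᶠ N in atTop, c N ∈ U ∧ ∀ R, ∀ t ∈ W N R, t ∈ U)
    (h : ConvG L w B γ) : UnifG w B γ W c := by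
  intro ε hε Φ
  obtain ⟨K, hK⟩ := meta_uniform (Γ := Γ) L w B γ W c hW (by
    intro ν hν
    apply h (Conf Γ J 𝕜) ν sh sh_one sh_mul hν
    intro j
    apply memLp_top_of_bound (C := 1)
    · refine Measurable.aestronglyMeasurable ?_
      exact measurable_subtype_coe.comp ((measurable_pi_apply j).comp (measurable_pi_apply 1))
    · refine Eventually.of_forall fun ω => ?_
      have h2 := (ω 1 j).2
      rw [mem_closedBall_zero_iff] at h2
      exact h2) ε hε Φ
  exact ⟨K, fun X _ μ _ ρ _ hρ hmp f hf hb => hK X μ ρ hρ hmp f hf hb⟩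

theorem unif_fin (w : Θ → 𝕜) (B : Θ → Finset I) (γ : J → I → Γ)
    (W : ℕ → ℕ → Finset Θ) (c : ℕ → Θ) (h : UnifG w B γ W c) : FinG w B γ W c := by
  intro ε hε Φ
  obtain ⟨K, hK⟩ := h ε hε Φ
  refine ⟨K, ?_⟩
  intro Y _ _ σ b
  let m0 : MeasurableSpace Y := ⊤
  obtain ⟨ν, hν⟩ : ∃ ν : Measure Y, ν = (Fintype.card Y : ℝ≥0∞)⁻¹ • Measure.count := ⟨_, rfl⟩
  have hY : 0 < Fintype.card Y := Fintype.card_pos
  have hνp : IsProbabilityMeasure ν := by
    constructor
    rw [hν, Measure.smul_apply, Measure.count_univ, ENat.card_eq_coe_natCard, Nat.card_eq_fintype_card, smul_eq_mul]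
    simp only [ENat.toENNReal_coe]
    exact ENNReal.inv_mul_cancel (by exact_mod_cast hY.ne') (ENNReal.natCast_ne_top _)
  have hνm : ∀ e : Equiv.Perm Y, MeasurePreserving e ν ν := by
    intro e
    refine ⟨measurable_from_top, ?_⟩
    apply Measure.ext
    intro s hs
    rw [Measure.map_apply measurable_from_top hs, hν, Measure.smul_apply, Measure.smul_apply,
      Measure.count_apply (measurable_from_top hs), Measure.count_apply hs]
    congr 2
    exact encard_preimage_of_bijective e.bijective s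
  obtain ⟨N, hN1, hN2, hN3⟩ := hK Y ν (fun g => σ g) (by simp) (by
    intro g h
    rw [map_mul]
    rfl) (fun g => hνm _) (fun j => (b j).indicator 1) (fun j => measurable_from_top) (by
    intro j x
    by_cases hx : x ∈ b j <;> simp [hx])
  refine ⟨N, hN1, hN2, ?_⟩
  have h1 : ∀ s : Set Y, ν s = ENNReal.ofReal ((Nat.card s : ℝ) / Fintype.card Y) := by
    intro s
    rw [hν, Measure.smul_apply, Measure.count_apply (show MeasurableSet s from trivial), smul_eq_mul,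
      ENNReal.ofReal_div_of_pos (by exact_mod_cast hY), ENNReal.ofReal_natCast, ENNReal.ofReal_natCast,
      ENNReal.div_eq_inv_mul]
    congr 1
    rw [← (Set.toFinite s).cast_ncard_eq, ENat.toENNReal_coe, Nat.card_coe_set_eq]
  rw [h1, ENNReal.ofReal_le_ofReal_iff hε.le, div_le_iff₀ (by exact_mod_cast hY)] at hN3
  exact hN3

open Classical in
theorem fin_conv [Countable I] (L : Filter Θ) [NeBot L] (w : Θ → 𝕜) (B : Θ → Finset I)
    (hw : ∀ t, ‖w t‖ * (B t).card ≤ 1) (γ : J → I → Γ)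
    (W : ℕ → ℕ → Finset Θ) (c : ℕ → Θ) (hFT : FT (⊤ : Subgroup Γ))
    (hW' : ∀ N, ∀ᶠ t in L, ∃ R, t ∈ W N R) (hmono : ∀ N, Monotone (W N))
    (h : FinG w B γ W c) : ConvG L w B γ := by
  intro X _ μ _ ρ hρ1 hρ hmp f hf
  apply conv_of_bdd μ L w B _ (fun j i => (hmp _).quasiMeasurePreserving) _ f hf
  apply conv_of_sets μ L w B hw
  intro A hA
  apply conv_of_meta μ (fun (t : Θ) (x : X) => av w B (fun j i => ρ (γ j i)) (fun j => (A j).indicator 1) x t) L
    (fun N R => (W N R : Set Θ)) c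
  · intro N
    filter_upwards [hW' N] with t ht
    exact ht
  · intro N R R' hR t ht
    exact hmono N hR ht
  · intro ε hε Φ
    by_contra hcon
    push Not at hcon
    obtain ⟨K, hK⟩ := h (ε / 2) (by linarith) Φ
    have hK1 : 1 ≤ K := by
      obtain ⟨N, h1, h2, -⟩ := hK Unit 1 (fun _ => ∅)
      omega
    obtain ⟨av', hav'⟩ : ∃ av' : (Γ → J → Prop) → Θ → 𝕜, av' = fun q t =>
      w t * ∑ i ∈ B t, ∏ j, (if q (γ j i) j then (1 : 𝕜) else 0) := ⟨_, rfl⟩
    obtain ⟨S, hS⟩ : ∃ S : Finset Γ, S = (Finset.range (K + 1)).biUnion fun N =>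
      (insert (c N) (W N (Φ N))).biUnion fun t => (B t ×ˢ (Finset.univ : Finset J)).image fun p => γ p.2 p.1 := ⟨_, rfl⟩
    have hSmem : ∀ N, N ≤ K → ∀ t, (t = c N ∨ t ∈ W N (Φ N)) → ∀ i ∈ B t, ∀ j, γ j i ∈ S := by
      intro N hN t ht i hi j
      rw [hS]
      refine Finset.mem_biUnion.2 ⟨N, Finset.mem_range.2 (by omega), Finset.mem_biUnion.2 ⟨t, ?_, ?_⟩⟩
      · rw [Finset.mem_insert]
        exact ht
      · exact Finset.mem_image.2 ⟨(i, j), Finset.mem_product.2 ⟨hi, Finset.mem_univ _⟩, rfl⟩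
    have hcong : ∀ N, N ≤ K → ∀ t, (t = c N ∨ t ∈ W N (Φ N)) → ∀ q q' : Γ → J → Prop,
        (∀ g ∈ S, ∀ j, q g j ↔ q' g j) → av' q t = av' q' t := by
      intro N hN t ht q q' hq
      rw [hav']
      simp only
      congr 1
      refine Finset.sum_congr rfl fun i hi => Finset.prod_congr rfl fun j _ => ?_
      simp only [hq _ (hSmem N hN t ht i hi j) j]
    obtain ⟨Y, hY1, hY2, σ, b, hmodel⟩ := finite_model hFT μ ρ hρ hmp A hA K hK1
      (fun N q => ∃ t ∈ W N (Φ N), ε / 2 < dist (av' q t) (av' q (c N))) S (by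
        rintro N hN1 hN2 q q' hq ⟨t, ht, h1⟩
        refine ⟨t, ht, ?_⟩
        rw [← hcong N hN2 t (Or.inr ht) q q' hq, ← hcong N hN2 (c N) (Or.inl rfl) q q' hq]
        exact h1) (ε / 2) (by linarith) (by
        intro N hN1 hN2
        have h1 := hcon N hN1
        have h2 : μ {x | ∃ t ∈ (W N (Φ N) : Set Θ), ε < dist
            (av w B (fun j i => ρ (γ j i)) (fun j => (A j).indicator 1) x t)
            (av w B (fun j i => ρ (γ j i)) (fun j => (A j).indicator 1) x (c N))} ≤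
            μ {x | ∃ t ∈ W N (Φ N), ε / 2 < dist (av' (pt ρ A x) t) (av' (pt ρ A x) (c N))} := by
          refine measure_mono ?_
          rintro x ⟨t, ht, h3⟩
          refine ⟨t, ht, ?_⟩
          have h4 : ∀ t, av' (pt ρ A x) t = av w B (fun j i => ρ (γ j i)) (fun j => (A j).indicator 1) x t := by
            intro t
            rw [hav']
            unfold av pt
            simp only [Set.indicator_apply, Pi.one_apply]
          rw [h4, h4]
          linarith
        have h3 := h1.trans_le h2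
        rw [ENNReal.ofReal_lt_iff_lt_toReal hε.le (measure_ne_top _ _)] at h3
        unfold Measure.real
        linarith)
    obtain ⟨N, hN1, hN2, hN3⟩ := hK Y σ b
    have h4 := hmodel N hN1 hN2
    have h5 : ∀ (y : Y) t, av w B (fun j i => σ (γ j i)) (fun j => (b j).indicator 1) y t =
        av' (fun g j => σ g y ∈ b j) t := by
      intro y t
      rw [hav']
      unfold av
      simp only [Set.indicator_apply, Pi.one_apply]
    simp only [h5] at hN3
    linarith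

end

end Pool.Agent.Q161.Ms
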