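import Pool.Agent.Q161.MsG
import Pool.Agent.Q161.MsI

/-! # Systems of maps generating a nilpotent group -/

set_option autoImplicit false

open MeasureTheory Filter Topology Set
open scoped ENNReal NNReal

namespace Pool.Agent.Q161.Ms

section

/-- The free nilpotent group of class `s` on `d` generators. -/
abbrev FN (d s : ℕ) : Type := FreeGroup (Fin d) ⧸ (⊤ : Subgroup (FreeGroup (Fin d))).lowerCentralSeries s

/-- The generators. -/
def tt (d s : ℕ) (i : Fin d) : FN d s := (FreeGroup.of i : FN d s)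

lemma fn_closure (d s : ℕ) : Subgroup.closure (Set.range (tt d s)) = ⊤ := by
  have h1 : (⊤ : Subgroup (FN d s)) = (⊤ : Subgroup (FreeGroup (Fin d))).map (QuotientGroup.mk' _) := by
    rw [← MonoidHom.range_eq_map, eq_comm, MonoidHom.range_eq_top]
    exact QuotientGroup.mk'_surjective _
  have h2 := MonoidHom.map_closure
    (QuotientGroup.mk' ((⊤ : Subgroup (FreeGroup (Fin d))).lowerCentralSeries s)) (Set.range FreeGroup.of)
  rw [FreeGroup.closure_range_of, ← Set.range_comp] at h2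
  rw [h1, h2]
  rfl

instance fn_fg (d s : ℕ) : Group.FG (FN d s) := by
  rw [Group.fg_iff]
  exact ⟨_, fn_closure d s, Set.finite_range _⟩

instance fn_countable (d s : ℕ) : Countable (FN d s) := by
  have : Countable (FreeGroup (Fin d)) := inferInstance
  exact Quotient.countable

lemma fn_lcs (d s : ℕ) : (⊤ : Subgroup (FN d s)).lowerCentralSeries s = ⊥ := by
  have h1 : (⊤ : Subgroup (FN d s)) = (⊤ : Subgroup (FreeGroup (Fin d))).map (QuotientGroup.mk' _) := by
    rw [← MonoidHom.range_eq_map, eq_comm, MonoidHom.range_eq_top]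
    exact QuotientGroup.mk'_surjective _
  rw [h1, ← Subgroup.map_lowerCentralSeries, QuotientGroup.map_mk'_self]

lemma fn_ft (d s : ℕ) : FT (⊤ : Subgroup (FN d s)) := nil_ft (fn_fg d s) s (fn_lcs d s)

lemma fn_lift {d s : ℕ} {G : Type} [Group G] (T : Fin d → G)
    (hT : (Subgroup.closure (Set.range T)).lowerCentralSeries s = ⊥) : ∃ φ : FN d s →* G, ∀ i, φ (tt d s i) = T i := by
  have h0 : (⊤ : Subgroup (FreeGroup (Fin d))).lowerCentralSeries s ≤ (FreeGroup.lift T).ker := by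
    intro x hx
    have h1 : (⊤ : Subgroup (FreeGroup (Fin d))).map (FreeGroup.lift T) = Subgroup.closure (Set.range T) := by
      rw [← FreeGroup.closure_range_of, MonoidHom.map_closure, ← Set.range_comp]
      congr 2
      funext i
      simp
    have h2 := Subgroup.mem_map_of_mem (FreeGroup.lift T) hx
    rw [Subgroup.map_lowerCentralSeries, h1, hT, Subgroup.mem_bot] at h2
    exact h2
  exact ⟨QuotientGroup.lift _ (FreeGroup.lift T) h0, fun i => FreeGroup.lift_apply_of⟩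

lemma fn_image {d s : ℕ} {G : Type} [Group G] (φ : FN d s →* G) :
    (Subgroup.closure (Set.range fun i => φ (tt d s i))).lowerCentralSeries s = ⊥ := by
  have h1 : Subgroup.closure (Set.range fun i => φ (tt d s i)) = (⊤ : Subgroup (FN d s)).map φ := by
    rw [← fn_closure d s, MonoidHom.map_closure, ← Set.range_comp]
    rfl
  rw [h1, ← Subgroup.map_lowerCentralSeries, fn_lcs, Subgroup.map_bot]

lemma fn_ind {d s : ℕ} {G : Type} [Group G] (φ : FN d s →* G) (H : Subgroup G) (h : ∀ i, φ (tt d s i) ∈ H)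
    (g : FN d s) : φ g ∈ H := by
  have h1 : (⊤ : Subgroup (FN d s)) ≤ H.comap φ := by
    rw [← fn_closure d s, Subgroup.closure_le]
    rintro _ ⟨i, rfl⟩
    exact h i
  exact h1 (Subgroup.mem_top g)

/-- The measure preserving bijections. -/
def mpGroup {X : Type} [MeasurableSpace X] (μ : Measure X) : Subgroup (Equiv.Perm X) where
  carrier := {g | Measurable g.symm ∧ MeasurePreserving g μ μ}
  mul_mem' := by
    rintro g h ⟨hg1, hg2⟩ ⟨hh1, hh2⟩
    exact ⟨hh1.comp hg1, hg2.comp hh2⟩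
  one_mem' := ⟨measurable_id, MeasurePreserving.id μ⟩
  inv_mem' := by
    rintro g ⟨hg1, hg2⟩
    refine ⟨hg2.measurable, ?_⟩
    have h1 : MeasurePreserving (⟨g, hg2.measurable, hg1⟩ : X ≃ᵐ X) μ μ := hg2
    exact h1.symm

variable {I Θ 𝕜 : Type} [RCLike 𝕜] {d m : ℕ}

/-- The maps of the averages. -/
def maps {X : Type} (T : Fin d → Equiv.Perm X) (e : Fin d → Fin m → I → ℤ) (j : Fin m) (i : I) (x : X) : X :=
  (List.ofFn fun k : Fin d => T k ^ e k j i).prod x

/-- Convergence almost everywhere for all systems of class at most `s`. -/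
def ConvT (s : ℕ) (L : Filter Θ) (w : Θ → 𝕜) (B : Θ → Finset I) (e : Fin d → Fin m → I → ℤ) : Prop :=
  ∀ (X : Type) [MeasurableSpace X] (μ : Measure X) [IsProbabilityMeasure μ] (T : Fin d → Equiv.Perm X),
    (∀ i, Measurable (T i).symm) → (∀ i, MeasurePreserving (T i) μ μ) →
    (Subgroup.closure (Set.range T)).lowerCentralSeries s = ⊥ → ∀ f : Fin m → X → 𝕜,
    (∀ j, MemLp (f j) ⊤ μ) → ∀ᵐ x ∂μ, ∃ l, Tendsto (av w B (maps T e) f x) L (𝓝 l)

/-- Uniform metastability. -/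
def UnifT (s : ℕ) (w : Θ → 𝕜) (B : Θ → Finset I) (e : Fin d → Fin m → I → ℤ) (W : ℕ → ℕ → Finset Θ)
    (c : ℕ → Θ) : Prop :=
  ∀ ε : ℝ, 0 < ε → ∀ Φ : ℕ → ℕ, ∃ K : ℕ, ∀ (X : Type) [MeasurableSpace X] (μ : Measure X)
      [IsProbabilityMeasure μ] (T : Fin d → Equiv.Perm X),
      (∀ i, Measurable (T i).symm) → (∀ i, MeasurePreserving (T i) μ μ) →
      (Subgroup.closure (Set.range T)).lowerCentralSeries s = ⊥ →
      ∀ f : Fin m → X → 𝕜, (∀ j, Measurable (f j)) → (∀ j x, ‖f j x‖ ≤ 1) →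
      ∃ N, 1 ≤ N ∧ N ≤ K ∧ μ {x | ∃ t ∈ W N (Φ N), ε < dist (av w B (maps T e) f x t)
        (av w B (maps T e) f x (c N))} ≤ ENNReal.ofReal ε

/-- The same for permutations of finite sets. -/
def FinT (s : ℕ) (w : Θ → 𝕜) (B : Θ → Finset I) (e : Fin d → Fin m → I → ℤ) (W : ℕ → ℕ → Finset Θ)
    (c : ℕ → Θ) : Prop :=
  ∀ ε : ℝ, 0 < ε → ∀ Φ : ℕ → ℕ, ∃ K : ℕ, ∀ (Y : Type) [Fintype Y] [Nonempty Y] (T : Fin d → Equiv.Perm Y),
      (Subgroup.closure (Set.range T)).lowerCentralSeries s = ⊥ →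
      ∀ b : Fin m → Set Y, ∃ N, 1 ≤ N ∧ N ≤ K ∧
      (Nat.card {y : Y // ∃ t ∈ W N (Φ N), ε < dist (av w B (maps T e) (fun j => (b j).indicator 1) y t)
        (av w B (maps T e) (fun j => (b j).indicator 1) y (c N))} : ℝ) ≤ ε * Fintype.card Y

/-- The elements of the free nilpotent group. -/
def gam (s : ℕ) (e : Fin d → Fin m → I → ℤ) (j : Fin m) (i : I) : FN d s :=
  (List.ofFn fun k : Fin d => tt d s k ^ e k j i).prod

lemma gam_map {s : ℕ} {X : Type} (φ : FN d s →* Equiv.Perm X) (e : Fin d → Fin m → I → ℤ) (j : Fin m) (i : I) :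
    ((φ (gam s e j i) : Equiv.Perm X) : X → X) = maps (fun k => φ (tt d s k)) e j i := by
  funext x
  unfold gam maps
  rw [map_list_prod, List.map_ofFn]
  congr 3
  funext k
  simp

theorem convT_convG (s : ℕ) (L : Filter Θ) (w : Θ → 𝕜) (B : Θ → Finset I) (e : Fin d → Fin m → I → ℤ)
    (h : ConvT s L w B e) : ConvG L w B (gam s e) := by
  intro X _ μ _ ρ hρ1 hρ hmp f hf
  obtain ⟨φ, hφ⟩ : ∃ φ : FN d s →* Equiv.Perm X, ∀ g, (φ g : X → X) = ρ g := by
    refine ⟨{ toFun := fun g => ⟨ρ g, ρ g⁻¹, ?_, ?_⟩, map_one' := ?_, map_mul' := ?_ }, fun g => rfl⟩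
    · intro x
      have h1 := congrFun (hρ g⁻¹ g) x
      rw [inv_mul_cancel, hρ1] at h1
      exact h1.symm
    · intro x
      have h1 := congrFun (hρ g g⁻¹) x
      rw [mul_inv_cancel, hρ1] at h1
      exact h1.symm
    · apply Equiv.coe_fn_injective
      exact hρ1
    · intro g h
      apply Equiv.coe_fn_injective
      exact hρ g h
  have h1 := h X μ (fun i => φ (tt d s i)) (by
    intro i
    have h2 : ((φ (tt d s i)).symm : X → X) = ρ (tt d s i)⁻¹ := by
      rw [← hφ, map_inv]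
      rfl
    rw [h2]
    exact (hmp _).measurable) (by
    intro i
    rw [hφ]
    exact hmp _) (fn_image φ) f hf
  have h2 : (fun (j : Fin m) (i : I) => ρ (gam s e j i)) = maps (fun k => φ (tt d s k)) e := by
    funext j i
    rw [← hφ, gam_map]
  rw [h2]
  exact h1

theorem convG_convT (s : ℕ) (L : Filter Θ) (w : Θ → 𝕜) (B : Θ → Finset I) (e : Fin d → Fin m → I → ℤ)
    (h : ConvG L w B (gam s e)) : ConvT s L w B e := by
  intro X _ μ _ T hT1 hT2 hT3 f hf
  obtain ⟨φ, hφ⟩ := fn_lift T hT3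
  have h0 : ∀ g, φ g ∈ mpGroup μ := fn_ind φ _ fun i => by
    rw [hφ]
    exact ⟨hT1 i, hT2 i⟩
  have h1 := h X μ (fun g => φ g) (by simp) (fun g h => by simp) (fun g => (h0 g).2) f hf
  have h2 : (fun (j : Fin m) (i : I) => (φ (gam s e j i) : X → X)) = maps T e := by
    funext j i
    rw [gam_map]
    simp only [hφ]
  rw [h2] at h1
  exact h1

theorem unifG_unifT (s : ℕ) (w : Θ → 𝕜) (B : Θ → Finset I) (e : Fin d → Fin m → I → ℤ) (W : ℕ → ℕ → Finset Θ)
    (c : ℕ → Θ) (h : UnifG w B (gam s e) W c) : UnifT s w B e W c := by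
  intro ε hε Φ
  obtain ⟨K, hK⟩ := h ε hε Φ
  refine ⟨K, ?_⟩
  intro X _ μ _ T hT1 hT2 hT3 f hf hb
  obtain ⟨φ, hφ⟩ := fn_lift T hT3
  have h0 : ∀ g, φ g ∈ mpGroup μ := fn_ind φ _ fun i => by
    rw [hφ]
    exact ⟨hT1 i, hT2 i⟩
  have h1 := hK X μ (fun g => φ g) (by simp) (fun g h => by simp) (fun g => (h0 g).2) f hf hb
  have h2 : (fun (j : Fin m) (i : I) => (φ (gam s e j i) : X → X)) = maps T e := by
    funext j i
    rw [gam_map]
    simp only [hφ]
  rw [h2] at h1
  exact h1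

theorem finT_finG (s : ℕ) (w : Θ → 𝕜) (B : Θ → Finset I) (e : Fin d → Fin m → I → ℤ) (W : ℕ → ℕ → Finset Θ)
    (c : ℕ → Θ) (h : FinT s w B e W c) : FinG w B (gam s e) W c := by
  intro ε hε Φ
  obtain ⟨K, hK⟩ := h ε hε Φ
  refine ⟨K, ?_⟩
  intro Y _ _ σ b
  have h1 := hK Y (fun i => σ (tt d s i)) (fn_image σ) b
  have h2 : (fun (j : Fin m) (i : I) => (σ (gam s e j i) : Y → Y)) = maps (fun k => σ (tt d s k)) e := by
    funext j i
    rw [gam_map]
  rw [h2]
  exact h1

theorem unifT_finT (s : ℕ) (w : Θ → 𝕜) (B : Θ → Finset I) (e : Fin d → Fin m → I → ℤ) (W : ℕ → ℕ → Finset Θ)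
    (c : ℕ → Θ) (h : UnifT s w B e W c) : FinT s w B e W c := by
  intro ε hε Φ
  obtain ⟨K, hK⟩ := h ε hε Φ
  refine ⟨K, ?_⟩
  intro Y _ _ T hT3 b
  let m0 : MeasurableSpace Y := ⊤
  obtain ⟨ν, hν⟩ : ∃ ν : Measure Y, ν = (Fintype.card Y : ℝ≥0∞)⁻¹ • Measure.count := ⟨_, rfl⟩
  have hY : 0 < Fintype.card Y := Fintype.card_pos
  have hνp : IsProbabilityMeasure ν := by
    constructor
    rw [hν, Measure.smul_apply, Measure.count_univ, ENat.card_eq_coe_natCard, Nat.card_eq_fintype_card, smul_eq_mul]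
    simp only [ENat.toENNReal_coe]
    exact ENNReal.inv_mul_cancel (by exact_mod_cast hY.ne') (ENNReal.natCast_ne_top _)
  have hνm : ∀ e : Equiv.Perm Y, MeasurePreserving e ν ν := by
    intro e
    refine ⟨measurable_from_top, ?_⟩
    apply Measure.ext
    intro s hs
    rw [Measure.map_apply measurable_from_top hs, hν, Measure.smul_apply, Measure.smul_apply,
      Measure.count_apply (measurable_from_top hs), Measure.count_apply hs]
    congr 2
    exact encard_preimage_of_bijective e.bijective s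
  obtain ⟨N, hN1, hN2, hN3⟩ := hK Y ν T (fun i => measurable_from_top) (fun i => hνm _) hT3
    (fun j => (b j).indicator 1) (fun j => measurable_from_top) (by
    intro j x
    by_cases hx : x ∈ b j <;> simp [hx])
  refine ⟨N, hN1, hN2, ?_⟩
  have h1 : ∀ s : Set Y, ν s = ENNReal.ofReal ((Nat.card s : ℝ) / Fintype.card Y) := by
    intro s
    rw [hν, Measure.smul_apply, Measure.count_apply (show MeasurableSet s from trivial), smul_eq_mul,
      ENNReal.ofReal_div_of_pos (by exact_mod_cast hY), ENNReal.ofReal_natCast, ENNReal.ofReal_natCast,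
      ENNReal.div_eq_inv_mul]
    congr 1
    rw [← (Set.toFinite s).cast_ncard_eq, ENat.toENNReal_coe, Nat.card_coe_set_eq]
  rw [h1, ENNReal.ofReal_le_ofReal_iff hε.le, div_le_iff₀ (by exact_mod_cast hY)] at hN3
  exact hN3

/-- The three statements are equivalent. -/
theorem main_equiv [Countable I] (s : ℕ) (L : Filter Θ) [NeBot L] (w : Θ → 𝕜) (B : Θ → Finset I)
    (hw : ∀ t, ‖w t‖ * (B t).card ≤ 1) (e : Fin d → Fin m → I → ℤ)
    (W : ℕ → ℕ → Finset Θ) (c : ℕ → Θ)
    (hW : ∀ U ∈ L, ∀ᶠ N in atTop, c N ∈ U ∧ ∀ R, ∀ t ∈ W N R, t ∈ U)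
    (hW' : ∀ N, ∀ᶠ t in L, ∃ R, t ∈ W N R) (hmono : ∀ N, Monotone (W N)) :
    (ConvT s L w B e ↔ UnifT s w B e W c) ∧ (ConvT s L w B e ↔ FinT s w B e W c) := by
  have h1 : ConvT s L w B e → UnifT s w B e W c := fun h =>
    unifG_unifT s w B e W c (conv_unif L w B _ W c hW (convT_convG s L w B e h))
  have h2 : FinT s w B e W c → ConvT s L w B e := fun h =>
    convG_convT s L w B e (fin_conv L w B hw _ W c (fn_ft d s) hW' hmono (finT_finG s w B e W c h))
  exact ⟨⟨h1, fun h => h2 (unifT_finT s w B e W c h)⟩, ⟨fun h => unifT_finT s w B e W c (h1 h), h2⟩⟩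

end

end Pool.Agent.Q161.Ms
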