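import Mathlib

/-!
Sums over the linear orders of a finite set of a product of weights of the ordered pairs.
-/

set_option autoImplicit false

namespace Q161.OrdSum

open Finset

section ring

variable {V R : Type*} [DecidableEq V] [CommRing R]

/-- the sum over all orderings `x_1, …, x_k` of `S` of the product of the `w x_i x_j`, `i < j` -/
def ordSum (w : V → V → R) : ℕ → Finset V → R
  | 0, _ => 1
  | k + 1, S => ∑ v ∈ S, (∏ u ∈ S.erase v, w v u) * ordSum w k (S.erase v)

/-- the same sum, as a sum over functions -/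
def fSum [Fintype V] (w : V → V → R) (k : ℕ) (S : Finset V) : R :=
  ∑ f : Fin k → V, if Function.Injective f ∧ univ.image f = S then
    ∏ i : Fin k, ∏ j : Fin k, (if i < j then w (f i) (f j) else 1) else 0

theorem image_cons [Fintype V] {k : ℕ} (v : V) (g : Fin k → V) :
    univ.image (Fin.cons v g : Fin (k + 1) → V) = insert v (univ.image g) := by
  ext x
  rw [mem_image, mem_insert, mem_image]
  constructor
  · rintro ⟨i, _, rfl⟩
    rcases Fin.eq_zero_or_eq_succ i with rfl | ⟨j, rfl⟩
    · left; rfl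
    · right; exact ⟨j, mem_univ _, by rw [Fin.cons_succ]⟩
  · rintro (rfl | ⟨j, _, rfl⟩)
    · exact ⟨0, mem_univ _, rfl⟩
    · exact ⟨j.succ, mem_univ _, by rw [Fin.cons_succ]⟩

theorem cond_cons [Fintype V] {k : ℕ} (v : V) (g : Fin k → V) (S : Finset V) :
    (Function.Injective (Fin.cons v g : Fin (k + 1) → V) ∧
      univ.image (Fin.cons v g : Fin (k + 1) → V) = S) ↔
    (v ∈ S ∧ Function.Injective g ∧ univ.image g = S.erase v) := by
  rw [Fin.cons_injective_iff, image_cons]
  constructor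
  · rintro ⟨⟨h1, h2⟩, h3⟩
    subst h3
    refine ⟨mem_insert_self _ _, h2, ?_⟩
    rw [erase_insert]
    intro h
    apply h1
    rw [mem_image] at h
    obtain ⟨i, _, hi⟩ := h
    exact ⟨i, hi⟩
  · rintro ⟨h1, h2, h3⟩
    refine ⟨⟨?_, h2⟩, ?_⟩
    · rintro ⟨i, hi⟩
      have : v ∈ univ.image g := mem_image.2 ⟨i, mem_univ _, hi⟩
      rw [h3] at this
      exact notMem_erase _ _ this
    · rw [h3, insert_erase h1]

theorem fSum_succ [Fintype V] (w : V → V → R) (k : ℕ) (S : Finset V) :
    fSum w (k + 1) S = ∑ v ∈ S, (∏ u ∈ S.erase v, w v u) * fSum w k (S.erase v) := by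
  unfold fSum
  rw [← (Fin.consEquiv (fun _ : Fin (k + 1) => V)).sum_comp, Fintype.sum_prod_type]
  rw [← sum_subset (subset_univ S)]
  · refine sum_congr rfl (fun v hv => ?_)
    rw [mul_sum]
    refine sum_congr rfl (fun g _ => ?_)
    have e : (Fin.consEquiv (fun _ : Fin (k + 1) => V)) (v, g) = (Fin.cons v g : Fin (k + 1) → V) := rfl
    rw [e]
    by_cases hc : Function.Injective g ∧ univ.image g = S.erase v
    · rw [if_pos ((cond_cons v g S).2 ⟨hv, hc⟩), if_pos hc, Fin.prod_univ_succ]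
      congr 1
      · rw [Fin.prod_univ_succ, if_neg (lt_irrefl _), one_mul, ← hc.2,
          prod_image (fun a _ b _ h => hc.1 h)]
        refine prod_congr rfl (fun j _ => ?_)
        rw [if_pos (Fin.succ_pos j), Fin.cons_zero, Fin.cons_succ]
      · refine prod_congr rfl (fun i _ => ?_)
        rw [Fin.prod_univ_succ, if_neg (by simp), one_mul]
        refine prod_congr rfl (fun j _ => ?_)
        simp only [Fin.succ_lt_succ_iff, Fin.cons_succ]
    · rw [if_neg hc, if_neg (fun h => hc ((cond_cons v g S).1 h).2), mul_zero]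
  · intro v _ hv
    apply sum_eq_zero
    intro g _
    rw [if_neg]
    intro h
    exact hv ((cond_cons v g S).1 h).1

theorem fSum_eq [Fintype V] (w : V → V → R) (k : ℕ) : ∀ S : Finset V, S.card = k →
    fSum w k S = ordSum w k S := by
  induction k with
  | zero =>
    intro S hS
    rw [card_eq_zero] at hS
    subst hS
    unfold fSum ordSum
    rw [Fintype.sum_eq_single (fun i : Fin 0 => i.elim0)]
    · rw [if_pos]
      · simp
      · exact ⟨fun a => a.elim0, by simp⟩
    · intro f hf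
      exact absurd (funext fun i => i.elim0) hf
  | succ k ih =>
    intro S hS
    rw [fSum_succ, ordSum]
    refine sum_congr rfl (fun v hv => ?_)
    rw [ih _ (by rw [card_erase_of_mem hv, hS]; rfl)]

/-- the sum over the permutations -/
theorem perm_sum (n : ℕ) (w : Fin n → Fin n → R) :
    ∑ σ : Equiv.Perm (Fin n), ∏ u : Fin n, ∏ v : Fin n, (if σ u < σ v then w u v else 1) =
      ordSum w n univ := by
  classical
  rw [← fSum_eq w n univ (by simp)]
  unfold fSum
  rw [← sum_filter]
  apply sum_bij (fun (σ : Equiv.Perm (Fin n)) _ => (σ.symm : Fin n → Fin n))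
  · intro σ _
    rw [mem_filter]
    refine ⟨mem_univ _, σ.symm.injective, ?_⟩
    rw [eq_univ_iff_forall]
    intro x
    exact mem_image.2 ⟨σ x, mem_univ _, σ.symm_apply_apply x⟩
  · intro σ _ τ _ h
    have h' : (σ.symm : Fin n → Fin n) = τ.symm := h
    have : σ.symm = τ.symm := Equiv.coe_fn_injective h'
    rw [← σ.symm_symm, this, τ.symm_symm]
  · intro f hf
    rw [mem_filter] at hf
    refine ⟨(Equiv.ofBijective f (Finite.injective_iff_bijective.1 hf.2.1)).symm, mem_univ _, ?_⟩
    rfl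
  · intro σ _
    rw [← σ.symm.prod_comp]
    refine prod_congr rfl (fun i _ => ?_)
    rw [← σ.symm.prod_comp]
    refine prod_congr rfl (fun j _ => ?_)
    rw [σ.apply_symm_apply, σ.apply_symm_apply]

/-- splitting off the first `a` elements -/
theorem ordSum_split (w : V → V → R) (a b : ℕ) : ∀ S : Finset V, S.card = a + b →
    ordSum w (a + b) S = ∑ U ∈ S.powersetCard a,
      ordSum w a U * ordSum w b (S \ U) * ∏ u ∈ U, ∏ v ∈ S \ U, w u v := by
  induction a with
  | zero =>
    intro S _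
    rw [powersetCard_zero, sum_singleton]
    simp [ordSum]
  | succ a ih =>
    intro S hS
    rw [show a + 1 + b = (a + b) + 1 by ring, ordSum]
    have h1 : ∀ v ∈ S, (∏ u ∈ S.erase v, w v u) * ordSum w (a + b) (S.erase v) =
        ∑ U ∈ (S.erase v).powersetCard a, (∏ u ∈ S.erase v, w v u) *
          (ordSum w a U * ordSum w b (S.erase v \ U) * ∏ u ∈ U, ∏ v' ∈ S.erase v \ U, w u v') := by
      intro v hv
      rw [ih _ (by rw [card_erase_of_mem hv, hS]; omega), mul_sum]
    have h2 : ∀ U ∈ S.powersetCard (a + 1),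
        ordSum w (a + 1) U * ordSum w b (S \ U) * ∏ u ∈ U, ∏ v ∈ S \ U, w u v =
        ∑ v ∈ U, ((∏ u ∈ U.erase v, w v u) * ordSum w a (U.erase v)) *
          ordSum w b (S \ U) * ∏ u ∈ U, ∏ v ∈ S \ U, w u v := by
      intro U _
      rw [ordSum, sum_mul, sum_mul]
    rw [sum_congr rfl h1, sum_congr rfl h2, sum_sigma', sum_sigma']
    apply sum_bij' (fun (x : (_ : V) × Finset V) _ => (⟨insert x.1 x.2, x.1⟩ : (_ : Finset V) × V))
      (fun (y : (_ : Finset V) × V) _ => (⟨y.2, y.1.erase y.2⟩ : (_ : V) × Finset V))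
    · rintro ⟨v, U⟩ hx
      rw [mem_sigma, mem_powersetCard] at hx
      obtain ⟨hv, hU, hc⟩ := hx
      simp only at hv hU hc
      have hvU : v ∉ U := fun h => notMem_erase _ _ (hU h)
      rw [mem_sigma, mem_powersetCard]
      refine ⟨⟨?_, ?_⟩, mem_insert_self _ _⟩
      · exact insert_subset hv (hU.trans (erase_subset _ _))
      · rw [card_insert_of_notMem hvU, hc]
    · rintro ⟨U, v⟩ hx
      rw [mem_sigma, mem_powersetCard] at hx
      obtain ⟨⟨hU, hc⟩, hv⟩ := hx
      simp only at hv hU hc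
      rw [mem_sigma, mem_powersetCard]
      refine ⟨hU hv, erase_subset_erase _ hU, ?_⟩
      rw [card_erase_of_mem hv, hc]; rfl
    · rintro ⟨v, U⟩ hx
      rw [mem_sigma, mem_powersetCard] at hx
      obtain ⟨hv, hU, hc⟩ := hx
      simp only at hv hU hc
      have hvU : v ∉ U := fun h => notMem_erase _ _ (hU h)
      simp only [erase_insert hvU]
    · rintro ⟨U, v⟩ hx
      rw [mem_sigma, mem_powersetCard] at hx
      obtain ⟨⟨hU, hc⟩, hv⟩ := hx
      simp only at hv hU hc
      simp only [insert_erase hv]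
    · rintro ⟨v, U⟩ hx
      rw [mem_sigma, mem_powersetCard] at hx
      obtain ⟨hv, hU, hc⟩ := hx
      simp only at hv hU hc
      have hvU : v ∉ U := fun h => notMem_erase _ _ (hU h)
      simp only
      have e1 : S \ insert v U = S.erase v \ U := by
        ext x
        simp only [mem_sdiff, mem_insert, mem_erase, not_or]
        tauto
      have e2 : ∏ u ∈ S.erase v, w v u = (∏ u ∈ U, w v u) * ∏ u ∈ S.erase v \ U, w v u := by
        rw [mul_comm, prod_sdiff hU]
      rw [erase_insert hvU, e1, prod_insert hvU, e2]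
      ring

end ring

/-! ### divisibility -/

theorem choose_odd (j : ℕ) : ∀ k, k < 2 ^ j → Odd ((2 ^ j + k).choose (2 ^ j)) := by
  induction j with
  | zero =>
    intro k hk
    obtain rfl : k = 0 := by omega
    decide
  | succ j ih =>
    intro k hk
    have h1 := Choose.choose_modEq_choose_mod_mul_choose_div_nat (n := 2 ^ (j + 1) + k)
      (k := 2 ^ (j + 1)) (p := 2)
    have e1 : 2 ^ (j + 1) % 2 = 0 := by rw [pow_succ]; omega
    have e2 : 2 ^ (j + 1) / 2 = 2 ^ j := by rw [pow_succ]; omega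
    have e3 : (2 ^ (j + 1) + k) / 2 = 2 ^ j + k / 2 := by rw [pow_succ]; omega
    rw [e1, e2, e3, Nat.choose_zero_right, one_mul] at h1
    have h2 := ih (k / 2) (by rw [pow_succ] at hk; omega)
    rw [Nat.odd_iff] at h2 ⊢
    have h3 : (2 ^ (j + 1) + k).choose (2 ^ (j + 1)) % 2 = (2 ^ j + k / 2).choose (2 ^ j) % 2 := h1
    rw [h3, h2]

/-- the exponent of two in the factorial -/
def nu (n : ℕ) : ℕ := padicValNat 2 n.factorial

theorem fact_odd (n : ℕ) : ∃ o, Odd o ∧ n.factorial = 2 ^ (n / 2) * (n / 2).factorial * o := by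
  induction n with
  | zero => exact ⟨1, odd_one, by simp⟩
  | succ n ih =>
    obtain ⟨o, ho, h⟩ := ih
    rcases Nat.even_or_odd' n with ⟨m, rfl | rfl⟩
    · refine ⟨(2 * m + 1) * o, (odd_two_mul_add_one m).mul ho, ?_⟩
      rw [Nat.factorial_succ, h, show (2 * m + 1) / 2 = m by omega, show 2 * m / 2 = m by omega]
      ring
    · refine ⟨o, ho, ?_⟩
      rw [Nat.factorial_succ, h, show (2 * m + 1 + 1) / 2 = m + 1 by omega,
        show (2 * m + 1) / 2 = m by omega, Nat.factorial_succ]
      ring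

theorem nu_even (m : ℕ) : nu (2 * m) = m + nu m := by
  unfold nu
  obtain ⟨o, ho, h⟩ := fact_odd (2 * m)
  rw [show 2 * m / 2 = m by omega] at h
  have ho' : o ≠ 0 := by rintro rfl; exact absurd ho (by decide)
  have h2 : padicValNat 2 o = 0 := padicValNat.eq_zero_of_not_dvd (fun hd => by
      rw [← even_iff_two_dvd] at hd
      exact (Nat.not_even_iff_odd.2 ho) hd)
  rw [h, padicValNat.mul (mul_ne_zero (by positivity) (Nat.factorial_ne_zero _)) ho',
    padicValNat.mul (by positivity) (Nat.factorial_ne_zero _), padicValNat.prime_pow, h2]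
  rfl

theorem nu_two_pow (j : ℕ) : nu (2 ^ j) + 1 = 2 ^ j := by
  induction j with
  | zero => unfold nu; simp
  | succ j ih => rw [pow_succ, mul_comm, nu_even]; omega

theorem nu_add (j k : ℕ) (hk : k < 2 ^ j) : nu (2 ^ j + k) = nu (2 ^ j) + nu k := by
  unfold nu
  have h := Nat.add_choose_mul_factorial_mul_factorial (2 ^ j) k
  rw [← Nat.choose_symm_add] at h
  rw [← h]
  have hc := choose_odd j k hk
  have hc0 : (2 ^ j + k).choose (2 ^ j) ≠ 0 := by
    intro h0; rw [h0] at hc; exact absurd hc (by decide)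
  rw [padicValNat.mul (mul_ne_zero hc0 (Nat.factorial_ne_zero _)) (Nat.factorial_ne_zero _),
    padicValNat.mul hc0 (Nat.factorial_ne_zero _),
    padicValNat.eq_zero_of_not_dvd (fun hd => by
      rw [← even_iff_two_dvd] at hd
      exact (Nat.not_even_iff_odd.2 hc) hd), zero_add]

section int

variable {V : Type*} [DecidableEq V]

theorem prod_pm {w : V → V → ℤ} (hw : ∀ u v, w u v = 1 ∨ w u v = -1) (A B : Finset V) :
    (∏ u ∈ A, ∏ v ∈ B, w u v) = 1 ∨ (∏ u ∈ A, ∏ v ∈ B, w u v) = -1 := by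
  rw [← prod_product' A B (fun u v => w u v)]
  induction (A ×ˢ B) using Finset.induction_on with
  | empty => left; simp
  | insert x s hx ih =>
    rw [prod_insert hx]
    rcases hw x.1 x.2 with h1 | h1 <;> rcases ih with h2 | h2 <;> rw [h1, h2] <;> simp

theorem dvd_of_split {w : V → V → ℤ} {a b : ℕ} {A B : ℤ}
    (ha : ∀ S : Finset V, S.card = a → A ∣ ordSum w a S)
    (hb : ∀ S : Finset V, S.card = b → B ∣ ordSum w b S) :
    ∀ S : Finset V, S.card = a + b → A * B ∣ ordSum w (a + b) S := by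
  intro S hS
  rw [ordSum_split w a b S hS]
  apply dvd_sum
  intro U hU
  rw [mem_powersetCard] at hU
  apply Dvd.dvd.mul_right
  apply mul_dvd_mul (ha U hU.2)
  apply hb
  rw [card_sdiff_of_subset hU.1, hS, hU.2]
  omega

theorem dvd_of_half {w : V → V → ℤ} (hw : ∀ u v, w u v = 1 ∨ w u v = -1) {a : ℕ} (ha0 : 0 < a)
    {A : ℤ} (hA : A ≠ 0) (ha : ∀ S : Finset V, S.card = a → A ∣ ordSum w a S) :
    ∀ S : Finset V, S.card = a + a → 2 * (A * A) ∣ ordSum w (a + a) S := by
  intro S hS
  rw [ordSum_split w a a S hS]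
  -- divide by `A * A`
  have hdiv : ∀ U ∈ S.powersetCard a, ∃ g : ℤ,
      ordSum w a U * ordSum w a (S \ U) = A * A * g ∧
      ordSum w a (S \ U) * ordSum w a (S \ (S \ U)) = A * A * g := by
    intro U hU
    rw [mem_powersetCard] at hU
    obtain ⟨x, hx⟩ := ha U hU.2
    obtain ⟨y, hy⟩ := ha (S \ U) (by rw [card_sdiff_of_subset hU.1, hS, hU.2]; omega)
    refine ⟨x * y, ?_, ?_⟩
    · rw [hx, hy]; ring
    · rw [Finset.sdiff_sdiff_eq_self hU.1, hx, hy]; ring
  let g : Finset V → ℤ := fun U => (ordSum w a U * ordSum w a (S \ U)) / (A * A)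
  have hg : ∀ U ∈ S.powersetCard a, ordSum w a U * ordSum w a (S \ U) = A * A * g U ∧
      g (S \ U) = g U := by
    intro U hU
    obtain ⟨x, h1, h2⟩ := hdiv U hU
    have hAA : A * A ≠ 0 := mul_ne_zero hA hA
    have e1 : g U = x := by
      show (ordSum w a U * ordSum w a (S \ U)) / (A * A) = x
      rw [h1]; exact Int.mul_ediv_cancel_left _ hAA
    have e2 : g (S \ U) = x := by
      show (ordSum w a (S \ U) * ordSum w a (S \ (S \ U))) / (A * A) = x
      rw [h2]; exact Int.mul_ediv_cancel_left _ hAA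
    rw [e1, e2]
    exact ⟨h1, rfl⟩
  let p : Finset V → ℤ := fun U => ∏ u ∈ U, ∏ v ∈ S \ U, w u v
  have h3 : ∑ U ∈ S.powersetCard a, ordSum w a U * ordSum w a (S \ U) * ∏ u ∈ U, ∏ v ∈ S \ U, w u v =
      A * A * ∑ U ∈ S.powersetCard a, g U * p U := by
    rw [mul_sum]
    refine sum_congr rfl (fun U hU => ?_)
    rw [(hg U hU).1]
    ring
  rw [h3, mul_comm 2 (A * A)]
  apply mul_dvd_mul_left
  have h4 : ((∑ U ∈ S.powersetCard a, g U * p U : ℤ) : ZMod 2) = 0 := by
    rw [Int.cast_sum]
    have hp : ∀ U, ((p U : ℤ) : ZMod 2) = 1 := by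
      intro U
      rcases prod_pm hw U (S \ U) with h | h
      · show ((∏ u ∈ U, ∏ v ∈ S \ U, w u v : ℤ) : ZMod 2) = 1
        rw [h]; rfl
      · show ((∏ u ∈ U, ∏ v ∈ S \ U, w u v : ℤ) : ZMod 2) = 1
        rw [h]; rfl
    apply sum_involution (fun U _ => S \ U)
    · intro U hU
      rw [Int.cast_mul, Int.cast_mul, (hg U hU).2, hp, hp]
      exact CharTwo.add_self_eq_zero _
    · intro U hU _ he
      rw [mem_powersetCard] at hU
      have hne : U.Nonempty := card_pos.1 (by omega)
      obtain ⟨x, hx⟩ := hne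
      have hx2 := hx
      rw [← he, mem_sdiff] at hx2
      exact hx2.2 hx
    · intro U hU
      rw [mem_powersetCard] at hU ⊢
      exact ⟨sdiff_subset, by rw [card_sdiff_of_subset hU.1, hS, hU.2]; omega⟩
    · intro U hU
      rw [mem_powersetCard] at hU
      exact Finset.sdiff_sdiff_eq_self hU.1
  exact_mod_cast (ZMod.intCast_zmod_eq_zero_iff_dvd _ 2).1 h4

theorem dvd_two_pow {w : V → V → ℤ} (hw : ∀ u v, w u v = 1 ∨ w u v = -1) (j : ℕ) :
    ∀ S : Finset V, S.card = 2 ^ j → (2 : ℤ) ^ nu (2 ^ j) ∣ ordSum w (2 ^ j) S := by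
  induction j with
  | zero =>
    intro S _
    have : nu (2 ^ 0) = 0 := by have := nu_two_pow 0; omega
    rw [this, pow_zero]
    exact one_dvd _
  | succ j ih =>
    intro S hS
    have h1 := dvd_of_half hw (a := 2 ^ j) (by positivity) (A := (2 : ℤ) ^ nu (2 ^ j))
      (by positivity) ih S (by rw [hS, pow_succ]; ring)
    have e1 : 2 ^ (j + 1) = 2 ^ j + 2 ^ j := by rw [pow_succ]; ring
    have e2 : nu (2 ^ (j + 1)) = nu (2 ^ j) + nu (2 ^ j) + 1 := by
      have := nu_two_pow (j + 1)
      have := nu_two_pow j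
      omega
    rw [e2, e1, pow_succ, pow_add, mul_comm _ (2 : ℤ)]
    exact h1

/-- the divisibility -/
theorem two_pow_dvd {w : V → V → ℤ} (hw : ∀ u v, w u v = 1 ∨ w u v = -1) (k : ℕ) :
    ∀ S : Finset V, S.card = k → (2 : ℤ) ^ nu k ∣ ordSum w k S := by
  induction k using Nat.strong_induction_on with
  | _ k ih =>
    intro S hS
    rcases Nat.eq_zero_or_pos k with h0 | h0
    · subst h0
      have : nu 0 = 0 := by unfold nu; simp
      rw [this, pow_zero]
      exact one_dvd _
    · obtain ⟨j, hj⟩ : ∃ j, j = Nat.log 2 k := ⟨_, rfl⟩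
      have h1 : 2 ^ j ≤ k := by rw [hj]; exact Nat.pow_log_le_self 2 (by omega)
      have h2 : k < 2 ^ (j + 1) := by rw [hj]; exact Nat.lt_pow_succ_log_self (by norm_num) k
      obtain ⟨l, rfl⟩ : ∃ l, k = 2 ^ j + l := ⟨k - 2 ^ j, by omega⟩
      have h3 : l < 2 ^ j := by rw [pow_succ] at h2; omega
      rw [nu_add j l h3, pow_add]
      have hpos : 0 < 2 ^ j := by positivity
      exact dvd_of_split (dvd_two_pow hw j) (ih l (by omega)) S hS

end int

end Q161.OrdSum
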