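import Pool.Agent.Q161.OrdSum

/-!
The sum for the transitive orientation of a complete multipartite graph: a multinomial coefficient.
-/

set_option autoImplicit false

namespace Q161.OrdSum

open Finset Polynomial

section q

variable {R : Type*} [CommRing R] (t : R)

/-- `1 + t + … + t^(n-1)` -/
def qn (n : ℕ) : R := ∑ l ∈ range n, t ^ l

/-- the factorial -/
def qf (n : ℕ) : R := ∏ j ∈ range n, qn t (j + 1)

theorem qn_zero : qn t 0 = 0 := by unfold qn; simp

theorem qn_add (a b : ℕ) : qn t (a + b) = qn t a + t ^ a * qn t b := by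
  unfold qn
  rw [sum_range_add, mul_sum]
  congr 1
  exact sum_congr rfl (fun l _ => pow_add _ _ _)

theorem qf_succ (n : ℕ) : qf t (n + 1) = qf t n * qn t (n + 1) := by
  unfold qf; rw [prod_range_succ]

theorem qn_even (a : ℕ) : qn t (2 * a) = (1 + t) * ∑ l ∈ range a, t ^ (2 * l) := by
  induction a with
  | zero => simp [qn]
  | succ a ih =>
    rw [show 2 * (a + 1) = 2 * a + 1 + 1 by ring]
    unfold qn at ih ⊢
    rw [sum_range_succ, sum_range_succ, ih, sum_range_succ]
    ring

end q

section parts

variable {V : Type*} [DecidableEq V] (part : V → ℕ)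

/-- size of a part -/
def cnt (S : Finset V) (i : ℕ) : ℕ := (S.filter (fun v => part v = i)).card

/-- size of the union of the lower parts -/
def low (S : Finset V) (i : ℕ) : ℕ := (S.filter (fun v => part v < i)).card

theorem low_succ (S : Finset V) (i : ℕ) : low part S (i + 1) = low part S i + cnt part S i := by
  unfold low cnt
  rw [← card_union_of_disjoint]
  · congr 1
    ext x
    rw [mem_union, mem_filter, mem_filter, mem_filter]
    constructor
    · rintro ⟨h1, h2⟩
      rcases Nat.lt_or_ge (part x) i with h | h
      · exact Or.inl ⟨h1, h⟩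
      · exact Or.inr ⟨h1, by omega⟩
    · rintro (⟨h1, h2⟩ | ⟨h1, h2⟩)
      · exact ⟨h1, by omega⟩
      · exact ⟨h1, by omega⟩
  · rw [disjoint_left]
    intro x h1 h2
    rw [mem_filter] at h1 h2
    omega

omit [DecidableEq V] in
theorem low_zero (S : Finset V) : low part S 0 = 0 := by
  unfold low; simp

theorem sum_low {R : Type*} [CommRing R] (t : R) (S : Finset V) (k : ℕ) :
    ∑ i ∈ range k, t ^ low part S i * qn t (cnt part S i) = qn t (low part S k) := by
  induction k with
  | zero => rw [low_zero, qn_zero]; simp
  | succ k ih => rw [sum_range_succ, ih, low_succ, qn_add]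

theorem cnt_erase_self {S : Finset V} {v : V} (hv : v ∈ S) :
    cnt part S (part v) = cnt part (S.erase v) (part v) + 1 := by
  unfold cnt
  rw [← card_insert_of_notMem (a := v) (s := (S.erase v).filter (fun u => part u = part v))]
  · congr 1
    ext x
    rw [mem_insert, mem_filter, mem_filter, mem_erase]
    constructor
    · rintro ⟨h1, h2⟩
      by_cases hx : x = v
      · exact Or.inl hx
      · exact Or.inr ⟨⟨hx, h1⟩, h2⟩
    · rintro (rfl | ⟨⟨_, h1⟩, h2⟩)
      · exact ⟨hv, rfl⟩
      · exact ⟨h1, h2⟩
  · rw [mem_filter, mem_erase]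
    rintro ⟨⟨h, _⟩, _⟩
    exact h rfl

theorem cnt_erase_ne {S : Finset V} {v : V} {i : ℕ} (hi : i ≠ part v) :
    cnt part (S.erase v) i = cnt part S i := by
  unfold cnt
  congr 1
  ext x
  rw [mem_filter, mem_filter, mem_erase]
  constructor
  · rintro ⟨⟨_, h1⟩, h2⟩; exact ⟨h1, h2⟩
  · rintro ⟨h1, h2⟩
    refine ⟨⟨?_, h1⟩, h2⟩
    rintro rfl
    exact hi h2.symm

omit [DecidableEq V] in
theorem low_eq_card {S : Finset V} {k : ℕ} (h : ∀ v ∈ S, part v < k) : low part S k = S.card := by
  unfold low
  rw [filter_eq_self.2 h]

theorem prod_W {R : Type*} [CommRing R] (t : R) {S : Finset V} {v : V} (_hv : v ∈ S) :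
    ∏ u ∈ S.erase v, (if part u < part v then t else 1) = t ^ low part S (part v) := by
  rw [prod_ite, prod_const_one, mul_one, prod_const]
  unfold low
  congr 2
  ext x
  rw [mem_filter, mem_filter, mem_erase]
  constructor
  · rintro ⟨⟨_, h1⟩, h2⟩; exact ⟨h1, h2⟩
  · rintro ⟨h1, h2⟩
    refine ⟨⟨?_, h1⟩, h2⟩
    rintro rfl
    omega

/-- a function of the counts, over the parts -/
theorem prod_erase_counts {M : Type*} [CommMonoid M] (F : ℕ → M) {S : Finset V} {v : V} {k : ℕ}
    (hk : part v < k) :
    ∏ i ∈ range k, F (cnt part S i) = F (cnt part S (part v)) *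
      ∏ i ∈ (range k).erase (part v), F (cnt part (S.erase v) i) := by
  rw [← mul_prod_erase (range k) _ (mem_range.2 hk)]
  congr 1
  refine prod_congr rfl (fun i hi => ?_)
  rw [cnt_erase_ne part (ne_of_mem_erase hi)]

theorem main_formula {R : Type*} [CommRing R] (t : R) (k : ℕ) (K : ℕ) :
    ∀ S : Finset V, S.card = K → (∀ v ∈ S, part v < k) →
    ordSum (fun v u => if part u < part v then t else 1) K S * ∏ i ∈ range k, qf t (cnt part S i) =
      ((∏ i ∈ range k, (cnt part S i).factorial : ℕ) : R) * qf t K := by
  induction K with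
  | zero =>
    intro S hS _
    rw [card_eq_zero] at hS
    subst hS
    have h : ∀ i, cnt part (∅ : Finset V) i = 0 := fun i => by unfold cnt; simp
    simp only [h, ordSum]
    simp [qf]
  | succ K ih =>
    intro S hS hk
    rw [ordSum, sum_mul]
    set F : ℕ := ∏ i ∈ range k, (cnt part S i).factorial with hF
    have h1 : ∀ v ∈ S, (∏ u ∈ S.erase v, (if part u < part v then t else 1)) *
        ordSum (fun v u => if part u < part v then t else 1) K (S.erase v) *
          ∏ i ∈ range k, qf t (cnt part S i) =
        t ^ low part S (part v) * qn t (cnt part S (part v)) *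
          (((F / cnt part S (part v) : ℕ) : R)) * qf t K := by
      intro v hv
      have hvk := hk v hv
      rw [prod_W part t hv]
      have h2 := ih (S.erase v) (by rw [card_erase_of_mem hv, hS]; rfl)
        (fun u hu => hk u (mem_of_mem_erase hu))
      have h3 : ∏ i ∈ range k, qf t (cnt part S i) = qn t (cnt part S (part v)) *
          ∏ i ∈ range k, qf t (cnt part (S.erase v) i) := by
        rw [prod_erase_counts part (qf t) hvk, ← mul_prod_erase (range k)
          (fun i => qf t (cnt part (S.erase v) i)) (mem_range.2 hvk), cnt_erase_self part hv, qf_succ]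
        ring
      have h4 : F = cnt part S (part v) *
          ∏ i ∈ range k, (cnt part (S.erase v) i).factorial := by
        rw [hF, prod_erase_counts part Nat.factorial hvk, ← mul_prod_erase (range k)
          (fun i => (cnt part (S.erase v) i).factorial) (mem_range.2 hvk), cnt_erase_self part hv,
          Nat.factorial_succ]
        ring
      have h5 : 0 < cnt part S (part v) := by rw [cnt_erase_self part hv]; omega
      have h6 : F / cnt part S (part v) = ∏ i ∈ range k, (cnt part (S.erase v) i).factorial := by
        rw [h4, Nat.mul_div_cancel_left _ h5]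
      rw [h3, h6]
      calc t ^ low part S (part v) *
            ordSum (fun v u => if part u < part v then t else 1) K (S.erase v) *
            (qn t (cnt part S (part v)) * ∏ i ∈ range k, qf t (cnt part (S.erase v) i))
          = t ^ low part S (part v) * qn t (cnt part S (part v)) *
            (ordSum (fun v u => if part u < part v then t else 1) K (S.erase v) *
              ∏ i ∈ range k, qf t (cnt part (S.erase v) i)) := by ring
        _ = _ := by rw [h2]; ring
    rw [sum_congr rfl h1]
    have h7 : ∀ v ∈ S, part v ∈ range k := fun v hv => mem_range.2 (hk v hv)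
    rw [← sum_fiberwise_of_maps_to h7]
    have h8 : ∀ i ∈ range k, ∑ v ∈ S with part v = i, t ^ low part S (part v) *
          qn t (cnt part S (part v)) * (((F / cnt part S (part v) : ℕ) : R)) * qf t K =
        t ^ low part S i * qn t (cnt part S i) * (F : R) * qf t K := by
      intro i hi
      have h9 : ∑ v ∈ S with part v = i, t ^ low part S (part v) *
          qn t (cnt part S (part v)) * (((F / cnt part S (part v) : ℕ) : R)) * qf t K =
          ∑ v ∈ S with part v = i, t ^ low part S i *
          qn t (cnt part S i) * (((F / cnt part S i : ℕ) : R)) * qf t K := by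
        refine sum_congr rfl (fun v hv => ?_)
        rw [mem_filter] at hv
        rw [hv.2]
      rw [h9, sum_const, nsmul_eq_mul]
      have h10 : (S.filter (fun v => part v = i)).card = cnt part S i := rfl
      rw [h10]
      rcases Nat.eq_zero_or_pos (cnt part S i) with h0 | h0
      · rw [h0, qn_zero]; simp
      · have h11 : cnt part S i ∣ F := by
          refine Dvd.dvd.trans ?_ (dvd_prod_of_mem _ hi)
          exact Nat.dvd_factorial h0 (le_refl _)
        have h12 : ((cnt part S i : ℕ) : R) * ((F / cnt part S i : ℕ) : R) = (F : R) := by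
          rw [← Nat.cast_mul, Nat.mul_div_cancel' h11]
        rw [← h12]
        ring
    rw [sum_congr rfl h8, qf_succ]
    have h13 := sum_low part t S k
    rw [low_eq_card part hk, hS] at h13
    rw [← h13, mul_sum, mul_sum]
    refine sum_congr rfl (fun i _ => ?_)
    ring

end parts

/-! ### the order at `t = -1` -/

theorem qf_spec (n : ℕ) : ∃ h : ℤ[X], qf (2 * X - 1 : ℤ[X]) n = X ^ (n / 2) * h ∧
    h.coeff 0 = 2 ^ (n / 2) * ((n / 2).factorial : ℤ) := by
  induction n with
  | zero => exact ⟨1, by simp [qf], by simp⟩
  | succ n ih =>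
    obtain ⟨h, h1, h2⟩ := ih
    rw [qf_succ, h1]
    rcases Nat.even_or_odd' n with ⟨m, rfl | rfl⟩
    · refine ⟨h * qn (2 * X - 1) (2 * m + 1), ?_, ?_⟩
      · rw [show (2 * m + 1) / 2 = m by omega, show 2 * m / 2 = m by omega]; ring
      · rw [mul_coeff_zero, h2, coeff_zero_eq_eval_zero (qn (2 * X - 1) (2 * m + 1))]
        have : eval 0 (qn (2 * X - 1 : ℤ[X]) (2 * m + 1)) = 1 := by
          unfold qn
          rw [sum_range_succ, Polynomial.eval_add]
          have e := qn_even (2 * X - 1 : ℤ[X]) m
          unfold qn at e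
          rw [e]
          simp
        rw [this, show (2 * m + 1) / 2 = m by omega, show 2 * m / 2 = m by omega, mul_one]
    · refine ⟨h * (2 * ∑ l ∈ range (m + 1), (2 * X - 1 : ℤ[X]) ^ (2 * l)), ?_, ?_⟩
      · rw [show (2 * m + 1 + 1) / 2 = m + 1 by omega, show (2 * m + 1) / 2 = m by omega,
          show 2 * m + 1 + 1 = 2 * (m + 1) by ring, qn_even]
        ring
      · rw [mul_coeff_zero, h2, coeff_zero_eq_eval_zero
          (2 * ∑ l ∈ range (m + 1), (2 * X - 1 : ℤ[X]) ^ (2 * l) : ℤ[X])]
        have : eval 0 (2 * ∑ l ∈ range (m + 1), (2 * X - 1 : ℤ[X]) ^ (2 * l) : ℤ[X]) =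
            2 * ((m : ℤ) + 1) := by
          rw [Polynomial.eval_mul, Polynomial.eval_finsetSum]
          simp
        rw [this, show (2 * m + 1 + 1) / 2 = m + 1 by omega, show (2 * m + 1) / 2 = m by omega,
          Nat.factorial_succ]
        push_cast
        ring

end Q161.OrdSum
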