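import Pool.Agent.Q161.OrdSum2

/-!
A sign reversing involution.
-/

set_option autoImplicit false

namespace Q161.OrdSum

open Finset

section rev

variable {n : ℕ} (Y : Finset (Fin n))

/-- reverse the order on `Y` -/
def revFun (a : Fin n) : Fin n :=
  if h : a ∈ Y then (Y.orderIsoOfFin rfl) (Fin.rev ((Y.orderIsoOfFin rfl).symm ⟨a, h⟩)) else a

theorem revFun_of_mem {a : Fin n} (h : a ∈ Y) :
    revFun Y a = (Y.orderIsoOfFin rfl) (Fin.rev ((Y.orderIsoOfFin rfl).symm ⟨a, h⟩)) := by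
  unfold revFun; rw [dif_pos h]

theorem revFun_mem {a : Fin n} (h : a ∈ Y) : revFun Y a ∈ Y := by
  unfold revFun
  rw [dif_pos h]
  exact Subtype.mem _

theorem revFun_notMem {a : Fin n} (h : a ∉ Y) : revFun Y a = a := by
  unfold revFun
  rw [dif_neg h]

theorem revFun_lt {a b : Fin n} (ha : a ∈ Y) (hb : b ∈ Y) : revFun Y a < revFun Y b ↔ b < a := by
  unfold revFun
  rw [dif_pos ha, dif_pos hb, Subtype.coe_lt_coe, (Y.orderIsoOfFin rfl).lt_iff_lt, Fin.rev_lt_rev,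
    (Y.orderIsoOfFin rfl).symm.lt_iff_lt, Subtype.mk_lt_mk]

theorem revFun_revFun (a : Fin n) : revFun Y (revFun Y a) = a := by
  by_cases h : a ∈ Y
  · have h2 := revFun_mem Y h
    have e := revFun_of_mem Y h
    have key : (⟨revFun Y a, h2⟩ : Y) =
        (Y.orderIsoOfFin rfl) (Fin.rev ((Y.orderIsoOfFin rfl).symm ⟨a, h⟩)) := Subtype.ext e
    rw [revFun_of_mem Y h2, key, OrderIso.symm_apply_apply, Fin.rev_rev, OrderIso.apply_symm_apply]
  · rw [revFun_notMem Y h, revFun_notMem Y h]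

/-- the permutation -/
def revPerm : Equiv.Perm (Fin n) := Function.Involutive.toPerm (revFun Y) (revFun_revFun Y)

theorem revPerm_apply (a : Fin n) : revPerm Y a = revFun Y a := rfl

theorem image_revPerm : Y.image (revPerm Y) = Y := by
  ext x
  rw [mem_image]
  constructor
  · rintro ⟨a, ha, rfl⟩
    exact revFun_mem Y ha
  · intro hx
    exact ⟨revFun Y x, revFun_mem Y hx, revFun_revFun Y x⟩

end rev

section inv

variable {n : ℕ} (K : Finset (Fin n × Fin n))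

/-- the sign of a permutation -/
def sg (σ : Equiv.Perm (Fin n)) : ℤ := ∏ e ∈ K, (if σ e.2 < σ e.1 then -1 else 1)

/-- the weight of an ordered pair -/
def wt (u v : Fin n) : ℤ := if (v, u) ∈ K then -1 else 1

theorem wt_pm (u v : Fin n) : wt K u v = 1 ∨ wt K u v = -1 := by
  unfold wt
  split_ifs
  · exact Or.inr rfl
  · exact Or.inl rfl

theorem wt_sq (u v : Fin n) : wt K u v * wt K u v = 1 := by
  rcases wt_pm K u v with h | h <;> rw [h] <;> rfl

/-- the factor of an ordered pair -/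
def gg (σ : Equiv.Perm (Fin n)) (u v : Fin n) : ℤ := if σ u < σ v then wt K u v else 1

theorem gg_sq (σ : Equiv.Perm (Fin n)) (u v : Fin n) : gg K σ u v * gg K σ u v = 1 := by
  unfold gg
  split_ifs
  · exact wt_sq K u v
  · rfl

theorem sg_eq (σ : Equiv.Perm (Fin n)) : sg K σ = ∏ u, ∏ v, gg K σ u v := by
  unfold sg gg wt
  rw [prod_comm, ← Fintype.prod_prod_type'
    (fun v u => if σ u < σ v then (if (v, u) ∈ K then (-1 : ℤ) else 1) else 1)]
  have h : ∀ e : Fin n × Fin n, (if σ e.2 < σ e.1 then (if (e.1, e.2) ∈ K then (-1 : ℤ) else 1)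
      else 1) = if e ∈ K then (if σ e.2 < σ e.1 then -1 else 1) else 1 := by
    intro e
    by_cases h1 : e ∈ K <;> by_cases h2 : σ e.2 < σ e.1 <;> simp [h1, h2]
  rw [prod_congr rfl (fun e _ => h e), prod_ite_mem]
  congr 1
  simp

theorem sum_sg_eq : ∑ σ : Equiv.Perm (Fin n), sg K σ = ordSum (wt K) n univ := by
  rw [← perm_sum]
  exact sum_congr rfl (fun σ _ => sg_eq K σ)

theorem two_pow_dvd_sg : (2 : ℤ) ^ nu n ∣ ∑ σ : Equiv.Perm (Fin n), sg K σ := by
  rw [sum_sg_eq]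
  exact two_pow_dvd (wt_pm K) n univ (by simp)

/-- the involution -/
def flip (X : Finset (Fin n)) (σ : Equiv.Perm (Fin n)) : Equiv.Perm (Fin n) :=
  σ.trans (revPerm (X.image σ))

theorem flip_apply (X : Finset (Fin n)) (σ : Equiv.Perm (Fin n)) (v : Fin n) :
    flip X σ v = revFun (X.image σ) (σ v) := rfl

theorem image_flip (X : Finset (Fin n)) (σ : Equiv.Perm (Fin n)) :
    X.image (flip X σ) = X.image σ := by
  have : X.image (flip X σ) = (X.image σ).image (revPerm (X.image σ)) := by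
    rw [image_image]; rfl
  rw [this, image_revPerm]

theorem flip_flip (X : Finset (Fin n)) (σ : Equiv.Perm (Fin n)) : flip X (flip X σ) = σ := by
  ext v
  rw [flip_apply, image_flip, flip_apply, revFun_revFun]

theorem flip_lt {X : Finset (Fin n)} (σ : Equiv.Perm (Fin n)) {u v : Fin n} (hu : u ∈ X)
    (hv : v ∈ X) : flip X σ u < flip X σ v ↔ σ v < σ u := by
  rw [flip_apply, flip_apply, revFun_lt _ (mem_image_of_mem _ hu) (mem_image_of_mem _ hv)]

theorem flip_notMem {X : Finset (Fin n)} (σ : Equiv.Perm (Fin n)) {v : Fin n} (hv : v ∉ X) :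
    flip X σ v = σ v := by
  rw [flip_apply, revFun_notMem]
  intro h
  rw [mem_image] at h
  obtain ⟨u, hu, he⟩ := h
  rw [σ.injective he] at hu
  exact hv hu

theorem count_eq (X : Finset (Fin n)) (σ : Equiv.Perm (Fin n)) (c : Fin n) :
    (X.filter (fun u => σ u < c)).card = ((X.image σ).filter (fun y => y < c)).card := by
  rw [filter_image, card_image_of_injective _ σ.injective]

variable {K}

/-- for `X` homogeneous, bipartite with two odd parts -/
theorem sg_flip {P Q : Finset (Fin n)} (hd : Disjoint P Q) (hP : Odd P.card) (hQ : Odd Q.card)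
    (hPP : ∀ u ∈ P, ∀ v ∈ P, (u, v) ∉ K) (hQQ : ∀ u ∈ Q, ∀ v ∈ Q, (u, v) ∉ K)
    (hPQ : ∀ u ∈ P, ∀ v ∈ Q, (u, v) ∈ K ∧ (v, u) ∉ K)
    (hX : ∀ u ∈ P ∪ Q, ∀ v ∉ P ∪ Q, ((u, v) ∈ K ∧ (v, u) ∉ K) ∨ ((u, v) ∉ K ∧ (v, u) ∈ K))
    (σ : Equiv.Perm (Fin n)) : sg K (flip (P ∪ Q) σ) = - sg K σ := by
  set X := P ∪ Q with hXdef
  set τ := flip X σ with hτ
  have hsplit : ∀ ρ : Equiv.Perm (Fin n), sg K ρ = (∏ u ∈ X, ∏ v ∈ X, gg K ρ u v) *
      (∏ v ∈ Xᶜ, ∏ u ∈ X, (gg K ρ u v * gg K ρ v u)) * ∏ u ∈ Xᶜ, ∏ v ∈ Xᶜ, gg K ρ u v := by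
    intro ρ
    rw [sg_eq, ← prod_mul_prod_compl X]
    have h1 : ∏ u ∈ X, ∏ v, gg K ρ u v = (∏ u ∈ X, ∏ v ∈ X, gg K ρ u v) *
        ∏ u ∈ X, ∏ v ∈ Xᶜ, gg K ρ u v := by
      rw [← prod_mul_distrib]
      exact prod_congr rfl (fun u _ => (prod_mul_prod_compl X _).symm)
    have h2 : ∏ u ∈ Xᶜ, ∏ v, gg K ρ u v = (∏ u ∈ Xᶜ, ∏ v ∈ X, gg K ρ u v) *
        ∏ u ∈ Xᶜ, ∏ v ∈ Xᶜ, gg K ρ u v := by
      rw [← prod_mul_distrib]
      exact prod_congr rfl (fun u _ => (prod_mul_prod_compl X _).symm)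
    have h3 : ∏ v ∈ Xᶜ, ∏ u ∈ X, (gg K ρ u v * gg K ρ v u) =
        (∏ u ∈ X, ∏ v ∈ Xᶜ, gg K ρ u v) * ∏ u ∈ Xᶜ, ∏ v ∈ X, gg K ρ u v := by
      rw [prod_comm (s := X) (t := Xᶜ), ← prod_mul_distrib]
      exact prod_congr rfl (fun v _ => prod_mul_distrib)
    rw [h1, h2, h3]
    ring
  have hC : ∏ u ∈ Xᶜ, ∏ v ∈ Xᶜ, gg K τ u v = ∏ u ∈ Xᶜ, ∏ v ∈ Xᶜ, gg K σ u v := by
    refine prod_congr rfl (fun u hu => prod_congr rfl (fun v hv => ?_))
    rw [mem_compl] at hu hv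
    unfold gg
    rw [hτ, flip_notMem σ hu, flip_notMem σ hv]
  have hBgen : ∀ ρ : Equiv.Perm (Fin n), ∀ v ∉ X, ∏ u ∈ X, (gg K ρ u v * gg K ρ v u) =
      (∏ u ∈ X, wt K v u) * (-1) ^ (X.filter (fun u => ρ u < ρ v)).card := by
    intro ρ v hv
    have h1 : (-1 : ℤ) ^ (X.filter (fun u => ρ u < ρ v)).card =
        ∏ u ∈ X, (if ρ u < ρ v then -1 else 1) := by
      rw [prod_ite, prod_const_one, mul_one, prod_const]
    rw [h1, ← prod_mul_distrib]
    refine prod_congr rfl (fun u hu => ?_)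
    have hne : u ≠ v := fun h => hv (h ▸ hu)
    have hw : wt K u v = - wt K v u := by
      unfold wt
      rcases hX u hu v hv with ⟨h2, h3⟩ | ⟨h2, h3⟩
      · rw [if_neg h3, if_pos h2]; rfl
      · rw [if_pos h3, if_neg h2]
    unfold gg
    rcases lt_or_gt_of_ne (fun h => hne (ρ.injective h) : ρ u ≠ ρ v) with h | h
    · rw [if_pos h, if_neg (not_lt.2 h.le), if_pos h, hw]; ring
    · rw [if_neg (not_lt.2 h.le), if_pos h, if_neg (not_lt.2 h.le)]; ring
  have hB : ∏ v ∈ Xᶜ, ∏ u ∈ X, (gg K τ u v * gg K τ v u) =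
      ∏ v ∈ Xᶜ, ∏ u ∈ X, (gg K σ u v * gg K σ v u) := by
    refine prod_congr rfl (fun v hv => ?_)
    rw [mem_compl] at hv
    rw [hBgen τ v hv, hBgen σ v hv, count_eq, count_eq, hτ, image_flip, flip_notMem σ hv]
  have hAA : (∏ u ∈ X, ∏ v ∈ X, gg K τ u v) * (∏ u ∈ X, ∏ v ∈ X, gg K σ u v) = -1 := by
    rw [← prod_mul_distrib]
    have h1 : ∀ u ∈ X, (∏ v ∈ X, gg K τ u v) * (∏ v ∈ X, gg K σ u v) = ∏ v ∈ X, wt K u v := by
      intro u hu
      rw [← prod_mul_distrib]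
      refine prod_congr rfl (fun v hv => ?_)
      unfold gg
      rw [hτ]
      by_cases he : u = v
      · subst he
        rw [if_neg (lt_irrefl _), if_neg (lt_irrefl _)]
        unfold wt
        rw [if_neg]
        · rfl
        · rw [hXdef, mem_union] at hu
          rcases hu with h | h
          · exact hPP u h u h
          · exact hQQ u h u h
      · rcases lt_or_gt_of_ne (fun h => he (σ.injective h) : σ u ≠ σ v) with h | h
        · rw [if_neg (fun h' => absurd ((flip_lt σ hu hv).1 h') (not_lt.2 h.le)), if_pos h, one_mul]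
        · rw [if_pos ((flip_lt σ hu hv).2 h), if_neg (not_lt.2 h.le), mul_one]
    rw [prod_congr rfl h1, hXdef, prod_union hd]
    have h2 : ∀ u ∈ P, ∏ v ∈ P ∪ Q, wt K u v = 1 := by
      intro u hu
      apply prod_eq_one
      intro v hv
      unfold wt
      rw [if_neg]
      rw [mem_union] at hv
      rcases hv with h | h
      · exact hPP v h u hu
      · exact (hPQ u hu v h).2
    have h3 : ∀ u ∈ Q, ∏ v ∈ P ∪ Q, wt K u v = (-1) ^ P.card := by
      intro u hu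
      rw [prod_union hd]
      have h4 : ∏ v ∈ Q, wt K u v = 1 := by
        apply prod_eq_one
        intro v hv
        unfold wt
        rw [if_neg (hQQ v hv u hu)]
      have h5 : ∏ v ∈ P, wt K u v = (-1) ^ P.card := by
        rw [← prod_const]
        refine prod_congr rfl (fun v hv => ?_)
        unfold wt
        rw [if_pos (hPQ v hv u hu).1]
      rw [h4, h5, mul_one]
    rw [prod_congr rfl h2, prod_congr rfl h3, prod_const_one, one_mul, prod_const, hP.neg_one_pow,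
      hQ.neg_one_pow]
  have hA2 : (∏ u ∈ X, ∏ v ∈ X, gg K σ u v) * (∏ u ∈ X, ∏ v ∈ X, gg K σ u v) = 1 := by
    rw [← prod_mul_distrib]
    apply prod_eq_one
    intro u _
    rw [← prod_mul_distrib]
    apply prod_eq_one
    intro v _
    exact gg_sq K σ u v
  have hA : (∏ u ∈ X, ∏ v ∈ X, gg K τ u v) = - (∏ u ∈ X, ∏ v ∈ X, gg K σ u v) := by
    linear_combination (∏ u ∈ X, ∏ v ∈ X, gg K σ u v) * hAA -
      (∏ u ∈ X, ∏ v ∈ X, gg K τ u v) * hA2
  rw [hsplit τ, hsplit σ, hA, hB, hC]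
  ring

theorem sum_sg_zero {P Q : Finset (Fin n)} (hd : Disjoint P Q) (hP : Odd P.card) (hQ : Odd Q.card)
    (hPP : ∀ u ∈ P, ∀ v ∈ P, (u, v) ∉ K) (hQQ : ∀ u ∈ Q, ∀ v ∈ Q, (u, v) ∉ K)
    (hPQ : ∀ u ∈ P, ∀ v ∈ Q, (u, v) ∈ K ∧ (v, u) ∉ K)
    (hX : ∀ u ∈ P ∪ Q, ∀ v ∉ P ∪ Q, ((u, v) ∈ K ∧ (v, u) ∉ K) ∨ ((u, v) ∉ K ∧ (v, u) ∈ K)) :
    ∑ σ : Equiv.Perm (Fin n), sg K σ = 0 := by
  have hflip := fun σ => sg_flip hd hP hQ hPP hQQ hPQ hX σ
  apply sum_involution (fun σ _ => flip (P ∪ Q) σ)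
  · intro σ _
    rw [hflip σ]; ring
  · intro σ _ hne he
    have h := hflip σ
    rw [he] at h
    apply hne
    linarith
  · intro σ _; exact mem_univ _
  · intro σ _; exact flip_flip _ σ

end inv

end Q161.OrdSum
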