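import Mathlib

/-! Enumerating `Perm (Fin n)` by lists, in a form the kernel evaluates quickly. -/

set_option autoImplicit false

namespace Q161.PermList

open Finset

variable {n : ℕ}

/-- the one-line notation of a permutation, as a list of naturals (0-based) -/
def toL (σ : Equiv.Perm (Fin n)) : List ℕ := List.ofFn (fun i => (σ i : ℕ))

theorem toL_injective : Function.Injective (toL (n := n)) := by
  intro σ τ h
  have := List.ofFn_injective h
  ext i
  exact congrFun this i

theorem toL_perm (σ : Equiv.Perm (Fin n)) : (toL σ).Perm (List.range n) := by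
  rw [List.perm_ext_iff_of_nodup]
  · intro a
    unfold toL
    simp only [List.mem_ofFn, List.mem_range]
    constructor
    · rintro ⟨i, rfl⟩; exact (σ i).2
    · intro h; exact ⟨σ.symm ⟨a, h⟩, by simp⟩
  · unfold toL
    rw [List.nodup_ofFn]
    intro i j h
    exact σ.injective (Fin.ext h)
  · exact List.nodup_range

theorem exists_toL {l : List ℕ} (h : l.Perm (List.range n)) :
    ∃ σ : Equiv.Perm (Fin n), toL σ = l := by
  have hlen : l.length = n := by rw [h.length_eq, List.length_range]
  have hlt : ∀ i : Fin n, l[(i : ℕ)]'(by omega) < n := by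
    intro i
    have : l[(i : ℕ)]'(by omega) ∈ l := List.getElem_mem _
    rw [h.mem_iff] at this
    exact List.mem_range.1 this
  have hnd : l.Nodup := h.nodup_iff.2 List.nodup_range
  let f : Fin n → Fin n := fun i => ⟨l[(i : ℕ)]'(by omega), hlt i⟩
  have hf : Function.Injective f := by
    intro i j hij
    have := congrArg Fin.val hij
    simp only [f] at this
    rw [hnd.getElem_inj_iff] at this
    exact Fin.ext this
  refine ⟨Equiv.ofBijective f (Finite.injective_iff_bijective.1 hf), ?_⟩
  unfold toL
  apply List.ext_getElem
  · simp [hlen]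
  · intro i h1 h2
    simp [f]

theorem image_toL : (univ : Finset (Equiv.Perm (Fin n))).image toL =
    ((List.range n).permutations').toFinset := by
  ext l
  simp only [mem_image, mem_univ, true_and, List.mem_toFinset, List.mem_permutations']
  constructor
  · rintro ⟨σ, rfl⟩; exact toL_perm σ
  · exact exists_toL

theorem nodup_perms : ((List.range n).permutations').Nodup :=
  (List.permutations_perm_permutations' _).nodup_iff.1
    (List.nodup_permutations _ List.nodup_range)

theorem sum_eq (f : Equiv.Perm (Fin n) → ℕ) (g : List ℕ → ℕ) (h : ∀ σ, f σ = g (toL σ)) :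
    ∑ σ, f σ = (((List.range n).permutations').map g).sum := by
  rw [← List.sum_toFinset g nodup_perms, ← image_toL, Finset.sum_image]
  · exact Finset.sum_congr rfl (fun σ _ => h σ)
  · intro a _ b _ hab; exact toL_injective hab

theorem card_eq (P : Equiv.Perm (Fin n) → Prop) [DecidablePred P] (Q : List ℕ → Bool)
    (h : ∀ σ, P σ ↔ Q (toL σ) = true) :
    (univ.filter P).card = ((List.range n).permutations').countP Q := by
  rw [Finset.card_filter, sum_eq _ (fun l => if Q l then 1 else 0)]
  · induction (List.range n).permutations' with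
    | nil => rfl
    | cons a l ih =>
      rw [List.map_cons, List.sum_cons, ih, List.countP_cons, add_comm]
  · intro σ
    simp [h σ]

theorem forall_iff (P : Equiv.Perm (Fin n) → Prop) (Q : List ℕ → Bool)
    (h : ∀ σ, P σ ↔ Q (toL σ) = true) :
    (∀ σ, P σ) ↔ ((List.range n).permutations').all Q = true := by
  rw [List.all_eq_true]
  constructor
  · intro hP l hl
    obtain ⟨σ, rfl⟩ := exists_toL (List.mem_permutations'.1 hl)
    exact (h σ).1 (hP σ)
  · intro hQ σ
    exact (h σ).2 (hQ _ (List.mem_permutations'.2 (toL_perm σ)))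

/-- number of inversions of a list -/
def invL : List ℕ → ℕ
  | [] => 0
  | a :: l => l.countP (fun b => Nat.blt b a) + invL l

theorem countP_ofFn (m : ℕ) (f : Fin m → ℕ) (Q : ℕ → Bool) :
    (List.ofFn f).countP Q = ∑ j : Fin m, if Q (f j) = true then 1 else 0 := by
  induction m with
  | zero => rfl
  | succ m ih =>
    rw [List.ofFn_succ, List.countP_cons, ih, Fin.sum_univ_succ, add_comm]

theorem invL_ofFn (m : ℕ) (f : Fin m → ℕ) :
    (univ.filter (fun p : Fin m × Fin m => p.1 < p.2 ∧ f p.2 < f p.1)).card
      = invL (List.ofFn f) := by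
  rw [Finset.card_filter, Fintype.sum_prod_type]
  induction m with
  | zero => rfl
  | succ m ih =>
    rw [List.ofFn_succ, invL, ← ih (fun i => f i.succ), Fin.sum_univ_succ, countP_ofFn]
    congr 1
    · rw [Fin.sum_univ_succ]
      simp
    · refine Finset.sum_congr rfl (fun i _ => ?_)
      rw [Fin.sum_univ_succ]
      simp

/-- the number of inversions of a permutation -/
def inv (σ : Equiv.Perm (Fin n)) : ℕ :=
  (univ.filter (fun p : Fin n × Fin n => p.1 < p.2 ∧ σ p.2 < σ p.1)).card

theorem inv_eq (σ : Equiv.Perm (Fin n)) : inv σ = invL (toL σ) :=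
  invL_ofFn n (fun i => (σ i : ℕ))

end Q161.PermList
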