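import Mathlib

/-!
Run-sorted words: the sum over the run-sorted words of a product over the descents.
-/

set_option autoImplicit false

namespace Q161.RunSort

open Finset

/-! ### words -/

/-- the words with letter set `S`, each letter once -/
def words (S : Finset ℕ) : Finset (List ℕ) := (S.sort (· ≤ ·)).permutations.toFinset

theorem mem_words {S : Finset ℕ} {w : List ℕ} : w ∈ words S ↔ w.Nodup ∧ w.toFinset = S := by
  unfold words
  rw [List.mem_toFinset, List.mem_permutations]
  constructor
  · intro h
    refine ⟨h.nodup_iff.2 (sort_nodup _ _), ?_⟩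
    rw [List.toFinset_eq_of_perm _ _ h, sort_toFinset]
  · rintro ⟨h1, h2⟩
    rw [List.perm_ext_iff_of_nodup h1 (sort_nodup _ _)]
    intro a
    rw [mem_sort, ← h2, List.mem_toFinset]

theorem sum_words {M : Type*} [AddCommMonoid M] (F : List ℕ → M) {S : Finset ℕ}
    (hS : S.Nonempty) :
    ∑ w ∈ words S, F w = ∑ c ∈ S, ∑ w ∈ words (S.erase c), F (c :: w) := by
  rw [sum_sigma']
  symm
  apply sum_bij (fun (x : (_ : ℕ) × List ℕ) _ => x.1 :: x.2)
  · rintro ⟨c, w⟩ hx
    rw [mem_sigma, mem_words] at hx
    obtain ⟨h1, h2, h3⟩ := hx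
    simp only at h1 h2 h3
    rw [mem_words]
    refine ⟨List.nodup_cons.2 ⟨?_, h2⟩, ?_⟩
    · intro h
      have : c ∈ w.toFinset := List.mem_toFinset.2 h
      rw [h3] at this
      exact notMem_erase _ _ this
    · rw [List.toFinset_cons, h3, insert_erase h1]
  · rintro ⟨c, w⟩ _ ⟨c', w'⟩ _ h
    simp only [List.cons.injEq] at h
    obtain ⟨rfl, rfl⟩ := h
    rfl
  · intro w hw
    rw [mem_words] at hw
    cases w with
    | nil =>
      obtain ⟨_, h⟩ := hw
      rw [List.toFinset_nil] at h
      rw [← h] at hS
      exact absurd hS (by simp)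
    | cons c w =>
      refine ⟨⟨c, w⟩, ?_, rfl⟩
      rw [mem_sigma, mem_words]
      obtain ⟨h1, h2⟩ := hw
      rw [List.nodup_cons] at h1
      rw [List.toFinset_cons] at h2
      refine ⟨?_, h1.2, ?_⟩
      · show c ∈ S
        rw [← h2]; exact mem_insert_self _ _
      · show w.toFinset = S.erase c
        rw [← h2, erase_insert]
        rw [List.mem_toFinset]; exact h1.1
  · intro x _; rfl

theorem words_empty : words ∅ = {[]} := by
  ext w
  rw [mem_words, mem_singleton]
  constructor
  · rintro ⟨_, h⟩
    cases w with
    | nil => rfl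
    | cons c w => rw [List.toFinset_cons] at h; exact absurd h (insert_ne_empty _ _)
  · rintro rfl
    exact ⟨List.nodup_nil, rfl⟩

/-! ### the automaton -/

/-- `w` may follow a prefix with last letter `j` whose last run starts with `m` -/
def Fol : ℕ → ℕ → List ℕ → Prop
  | _, _, [] => True
  | m, j, c :: w => (j < c ∧ Fol m c w) ∨ (c < j ∧ m < c ∧ Fol c c w)

/-- the continuation of the blocks -/
def Cont (m j : ℕ) (w : List ℕ) : Prop :=
  ∃ (l : List ℕ) (L : List (List ℕ)), w = l ++ L.flatten ∧ (j :: l).Pairwise (· < ·) ∧
    (∀ a ∈ L, a ≠ [] ∧ a.Pairwise (· < ·)) ∧ L.Pairwise (fun a b => a.headD 0 < b.headD 0) ∧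
    ∀ a ∈ L, m < a.headD 0

theorem fol_iff (w : List ℕ) : ∀ m j, (j :: w).Nodup → (Fol m j w ↔ Cont m j w) := by
  induction w with
  | nil =>
    intro m j _
    refine ⟨fun _ => ⟨[], [], rfl, ?_, ?_, ?_, ?_⟩, fun _ => trivial⟩ <;> simp
  | cons c w ih =>
    intro m j hnd
    have hjc : j ≠ c := by
      intro h
      rw [List.nodup_cons] at hnd
      exact hnd.1 (by rw [h]; exact List.mem_cons_self)
    have hnd' : (c :: w).Nodup := (List.nodup_cons.1 hnd).2
    show ((j < c ∧ Fol m c w) ∨ (c < j ∧ m < c ∧ Fol c c w)) ↔ _
    rw [ih m c hnd', ih c c hnd']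
    constructor
    · rintro (⟨h1, l, L, h2, h3, h4, h5, h6⟩ | ⟨h1, h1', l, L, h2, h3, h4, h5, h6⟩)
      · refine ⟨c :: l, L, by rw [h2]; rfl, ?_, h4, h5, h6⟩
        rw [List.pairwise_cons]
        refine ⟨?_, h3⟩
        intro a ha
        rw [List.mem_cons] at ha
        rw [List.pairwise_cons] at h3
        rcases ha with rfl | ha
        · exact h1
        · exact lt_trans h1 (h3.1 a ha)
      · refine ⟨[], (c :: l) :: L, by rw [h2]; rfl, by simp, ?_, ?_, ?_⟩
        · intro a ha
          rw [List.mem_cons] at ha
          rcases ha with rfl | ha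
          · exact ⟨by simp, h3⟩
          · exact h4 a ha
        · rw [List.pairwise_cons]
          exact ⟨fun a ha => by simpa using h6 a ha, h5⟩
        · intro a ha
          rw [List.mem_cons] at ha
          rcases ha with rfl | ha
          · simpa using h1'
          · exact lt_trans h1' (h6 a ha)
    · rintro ⟨l, L, h2, h3, h4, h5, h6⟩
      cases l with
      | cons c' l =>
        rw [List.cons_append, List.cons.injEq] at h2
        obtain ⟨rfl, h2⟩ := h2
        rw [List.pairwise_cons] at h3
        left
        exact ⟨h3.1 c List.mem_cons_self, l, L, h2, h3.2, h4, h5, h6⟩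
      | nil =>
        cases L with
        | nil => simp at h2
        | cons a L =>
          cases a with
          | nil => exact absurd rfl (h4 [] List.mem_cons_self).1
          | cons c' l =>
            rw [List.nil_append, List.flatten_cons, List.cons_append, List.cons.injEq] at h2
            obtain ⟨rfl, h2⟩ := h2
            have hm : m < c := by simpa using h6 (c :: l) List.mem_cons_self
            have h7 := (h4 (c :: l) List.mem_cons_self).2
            have h4' : ∀ a ∈ L, a ≠ [] ∧ a.Pairwise (· < ·) :=
              fun a ha => h4 a (List.mem_cons_of_mem _ ha)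
            rw [List.pairwise_cons] at h5
            have h5c : ∀ a ∈ L, c < a.headD 0 := fun a ha => by simpa using h5.1 a ha
            rcases lt_or_gt_of_ne hjc with h | h
            · left
              exact ⟨h, l, L, h2, h7, h4', h5.2, fun a ha => lt_trans hm (h5c a ha)⟩
            · right
              exact ⟨h, hm, l, L, h2, h7, h4', h5.2, h5c⟩

theorem fol_lt (w : List ℕ) : ∀ m j, m ≤ j → Fol m j w → ∀ c ∈ w, m < c := by
  induction w with
  | nil => intro m j _ _ c hc; exact absurd hc (by simp)
  | cons a w ih =>
    intro m j hmj h c hc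
    have h' : (j < a ∧ Fol m a w) ∨ (a < j ∧ m < a ∧ Fol a a w) := h
    rw [List.mem_cons] at hc
    rcases h' with ⟨h1, h2⟩ | ⟨h1, h2, h3⟩
    · rcases hc with rfl | hc
      · omega
      · exact ih m a (by omega) h2 c hc
    · rcases hc with rfl | hc
      · exact h2
      · exact lt_trans h2 (ih a a (le_refl _) h3 c hc)

/-! ### the recursion -/

section sum

variable {R : Type*} [CommSemiring R] (x : ℕ → R)

/-- product over the descents of `j :: w`; the last letter of the prefix has position `s` -/
def wtl : ℕ → ℕ → List ℕ → R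
  | _, _, [] => 1
  | s, j, c :: w => (if c < j then x s else 1) * wtl (s + 1) c w

/-- `k` letters left, `p` of them larger than the last letter, `s` letters used -/
def hh : ℕ → ℕ → ℕ → R
  | 0, _, _ => 1
  | k + 1, p, s => ∑ i ∈ range p, hh k i (s + 1) + if p ≤ k then x s * hh k k (s + 1) else 0

theorem sum_rank {M : Type*} [AddCommMonoid M] (F : ℕ → M) (U : Finset ℕ) :
    ∑ c ∈ U, F (U.filter (fun d => c < d)).card = ∑ i ∈ range U.card, F i := by
  induction U using Finset.induction_on_min with
  | empty => simp
  | insert a s ha ih =>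
    have hna : a ∉ s := fun h => lt_irrefl _ (ha a h)
    rw [sum_insert hna, card_insert_of_notMem hna, sum_range_succ, ← ih, add_comm]
    congr 1
    · refine sum_congr rfl (fun c hc => ?_)
      congr 2
      rw [filter_insert, if_neg (by have := ha c hc; omega)]
    · congr 2
      rw [filter_insert, if_neg (lt_irrefl _), filter_eq_self.2 ha]

open Classical in
/-- the sum over the continuations -/
noncomputable def Tot (S : Finset ℕ) (m j s : ℕ) : R :=
  ∑ w ∈ words S, if Fol m j w then wtl x s j w else 0

theorem Tot_zero {S : Finset ℕ} {m j s : ℕ} (hmj : m ≤ j) {c : ℕ} (hc : c ∈ S) (hcm : c ≤ m) :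
    Tot x S m j s = 0 := by
  classical
  unfold Tot
  apply sum_eq_zero
  intro w hw
  rw [mem_words] at hw
  rw [if_neg]
  intro h
  have : c ∈ w := by rw [← List.mem_toFinset, hw.2]; exact hc
  have := fol_lt w m j hmj h c this
  omega

theorem Tot_eq (k : ℕ) : ∀ (S : Finset ℕ) (m j s : ℕ), S.card = k → (∀ c ∈ S, m < c) → j ∉ S →
    m ≤ j → Tot x S m j s = hh x k (S.filter (fun c => j < c)).card s := by
  classical
  induction k with
  | zero =>
    intro S m j s hS _ _ _
    rw [card_eq_zero] at hS
    subst hS
    unfold Tot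
    rw [words_empty, sum_singleton, if_pos (show Fol m j [] from trivial)]
    rfl
  | succ k ih =>
    intro S m j s hS hm hj hmj
    have hne : S.Nonempty := card_pos.1 (by omega)
    set p := (S.filter (fun c => j < c)).card with hp
    have h1 : Tot x S m j s = ∑ c ∈ S, ((if j < c then Tot x (S.erase c) m c (s + 1) else 0) +
        (if c < j then x s * Tot x (S.erase c) c c (s + 1) else 0)) := by
      unfold Tot
      rw [sum_words _ hne]
      refine sum_congr rfl (fun c hc => ?_)
      have hcj : c ≠ j := fun h => hj (h ▸ hc)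
      rcases lt_or_gt_of_ne hcj with h | h
      · rw [if_neg (by omega : ¬ j < c), if_pos h, zero_add, mul_sum]
        refine sum_congr rfl (fun w _ => ?_)
        have e1 : Fol m j (c :: w) ↔ Fol c c w := by
          show ((j < c ∧ Fol m c w) ∨ (c < j ∧ m < c ∧ Fol c c w)) ↔ _
          constructor
          · rintro (⟨h2, _⟩ | ⟨_, _, h2⟩)
            · omega
            · exact h2
          · intro h2; exact Or.inr ⟨h, hm c hc, h2⟩
        have e2 : wtl x s j (c :: w) = x s * wtl x (s + 1) c w := by
          show (if c < j then x s else 1) * wtl x (s + 1) c w = _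
          rw [if_pos h]
        rw [e2]
        by_cases h3 : Fol c c w
        · rw [if_pos (e1.2 h3), if_pos h3]
        · rw [if_neg (fun h4 => h3 (e1.1 h4)), if_neg h3, mul_zero]
      · rw [if_pos h, if_neg (by omega : ¬ c < j), add_zero]
        refine sum_congr rfl (fun w _ => ?_)
        have e1 : Fol m j (c :: w) ↔ Fol m c w := by
          show ((j < c ∧ Fol m c w) ∨ (c < j ∧ m < c ∧ Fol c c w)) ↔ _
          constructor
          · rintro (⟨_, h2⟩ | ⟨h2, _⟩)
            · exact h2
            · omega
          · intro h2; exact Or.inl ⟨h, h2⟩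
        have e2 : wtl x s j (c :: w) = wtl x (s + 1) c w := by
          show (if c < j then x s else 1) * wtl x (s + 1) c w = _
          rw [if_neg (by omega), one_mul]
        rw [e2]
        by_cases h3 : Fol m c w
        · rw [if_pos (e1.2 h3), if_pos h3]
        · rw [if_neg (fun h4 => h3 (e1.1 h4)), if_neg h3]
    rw [h1, sum_add_distrib, hh]
    congr 1
    · rw [← sum_filter, hp, ← sum_rank (fun i => hh x k i (s + 1))]
      refine sum_congr rfl (fun c hc => ?_)
      rw [mem_filter] at hc
      rw [ih (S.erase c) m c (s + 1) (by rw [card_erase_of_mem hc.1, hS]; rfl)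
        (fun d hd => hm d (mem_of_mem_erase hd)) (notMem_erase _ _)
        (by have := hc.2; omega)]
      congr 2
      ext d
      rw [mem_filter, mem_filter, mem_filter, mem_erase]
      constructor
      · rintro ⟨⟨_, h2⟩, h3⟩
        exact ⟨⟨h2, by omega⟩, h3⟩
      · rintro ⟨⟨h2, _⟩, h3⟩
        exact ⟨⟨by omega, h2⟩, h3⟩
    · have hmin := min'_mem S hne
      have h2 : ∀ c ∈ S, c ≠ S.min' hne → (if c < j then x s * Tot x (S.erase c) c c (s + 1) else 0)
          = 0 := by
        intro c hc hcm
        have h3 : S.min' hne ≤ c := min'_le S c hc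
        rw [Tot_zero x (le_refl c) (c := S.min' hne) (mem_erase.2 ⟨hcm.symm, hmin⟩) h3]
        simp
      rw [sum_eq_single_of_mem _ hmin h2]
      have h4 : S.min' hne < j ↔ p ≤ k := by
        have h5 : p ≤ S.card := card_le_card (filter_subset _ _)
        constructor
        · intro h
          by_contra hc
          have h6 : S.filter (fun c => j < c) = S :=
            eq_of_subset_of_card_le (filter_subset _ _) (by omega)
          have h7 : S.min' hne ∈ S.filter (fun c => j < c) := by rw [h6]; exact hmin
          have := (mem_filter.1 h7).2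
          omega
        · intro h
          by_contra hc
          have hne' : S.min' hne ≠ j := fun h => hj (h ▸ hmin)
          have h6 : S.filter (fun c => j < c) = S := by
            rw [filter_eq_self]
            intro c hc'
            have := min'_le S c hc'
            omega
          rw [hp, h6, hS] at h
          omega
      by_cases h5 : p ≤ k
      · rw [if_pos (h4.2 h5), if_pos h5]
        congr 1
        rw [ih (S.erase (S.min' hne)) _ _ (s + 1) (by rw [card_erase_of_mem hmin, hS]; rfl) ?_
          (notMem_erase _ _) (le_refl _)]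
        · congr 1
          have h6 : (S.erase (S.min' hne)).filter (fun c => S.min' hne < c) =
              S.erase (S.min' hne) := by
            rw [filter_eq_self]
            intro c hc
            rw [mem_erase] at hc
            have := min'_le S c hc.2
            omega
          rw [h6, card_erase_of_mem hmin, hS]; rfl
        · intro c hc
          rw [mem_erase] at hc
          have := min'_le S c hc.2
          omega
      · rw [if_neg (fun h => h5 (h4.1 h)), if_neg h5]

open Classical in
/-- the total sum -/
theorem total (n : ℕ) : ∑ w ∈ words (Icc 1 (n + 1)),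
    (if (∃ j u, w = j :: u ∧ Fol j j u) then wtl x 0 0 w else 0) = hh x n n 1 := by
  classical
  have hne : (Icc 1 (n + 1)).Nonempty := ⟨1, by rw [mem_Icc]; omega⟩
  rw [sum_words _ hne, sum_eq_single_of_mem 1 (by rw [mem_Icc]; omega)]
  · have h1 : ∀ u : List ℕ, (∃ j u', 1 :: u = j :: u' ∧ Fol j j u') ↔ Fol 1 1 u := by
      intro u
      constructor
      · rintro ⟨j, u', h, h2⟩
        rw [List.cons.injEq] at h
        obtain ⟨rfl, rfl⟩ := h
        exact h2
      · intro h; exact ⟨1, u, rfl, h⟩
    have h2 : ∀ u : List ℕ, wtl x 0 0 (1 :: u) = wtl x 1 1 u := by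
      intro u
      show (if 1 < 0 then x 0 else 1) * wtl x 1 1 u = _
      rw [if_neg (by omega), one_mul]
    have h3 : ∑ w ∈ words ((Icc 1 (n + 1)).erase 1),
        (if (∃ j u, 1 :: w = j :: u ∧ Fol j j u) then wtl x 0 0 (1 :: w) else 0) =
        Tot x ((Icc 1 (n + 1)).erase 1) 1 1 1 := by
      unfold Tot
      refine sum_congr rfl (fun w _ => ?_)
      rw [h2]
      simp only [h1]
    have h4 : ∀ c ∈ (Icc 1 (n + 1)).erase 1, 1 < c := by
      intro c hc
      rw [mem_erase, mem_Icc] at hc
      omega
    have hcard : ((Icc 1 (n + 1)).erase 1).card = n := by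
      rw [card_erase_of_mem (by rw [mem_Icc]; omega), Nat.card_Icc]; omega
    rw [h3, Tot_eq x n _ 1 1 1 hcard h4 (notMem_erase _ _) (le_refl _), filter_eq_self.2 h4, hcard]
  · intro c hc hc1
    rw [mem_Icc] at hc
    have h1 := Tot_zero x (S := (Icc 1 (n + 1)).erase c) (m := c) (j := c) (s := 1) (le_refl c)
      (c := 1) (by rw [mem_erase, mem_Icc]; omega) (by omega)
    have h2 : ∀ u : List ℕ, (∃ j u', c :: u = j :: u' ∧ Fol j j u') ↔ Fol c c u := by
      intro u
      constructor
      · rintro ⟨j, u', h, h2⟩
        rw [List.cons.injEq] at h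
        obtain ⟨rfl, rfl⟩ := h
        exact h2
      · intro h; exact ⟨c, u, rfl, h⟩
    refine Eq.trans ?_ h1
    unfold Tot
    refine sum_congr rfl (fun w _ => ?_)
    have h3 : wtl x 0 0 (c :: w) = wtl x 1 c w := by
      show (if c < 0 then x 0 else 1) * wtl x 1 c w = _
      rw [if_neg (by omega), one_mul]
    rw [h3]
    simp only [h2]

end sum

end Q161.RunSort
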