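import Pool.Agent.Q161.Insert

/-! The generating tree `(h,k) ↦ (h+1-j, k+j)_{j ≤ h}, (h+1, j)_{j ≤ k}` (semi-Baxter numbers). -/

set_option autoImplicit false

namespace Q161.SemiBaxter

open Finset Q161.Insert

/-- the number of nodes at depth `n` below a node with label `(h, k)` -/
def T : ℕ → ℕ → ℕ → ℕ
  | 0, _, _ => 1
  | n + 1, h, k => ∑ j ∈ Icc 1 h, T n (h + 1 - j) (k + j) + ∑ j ∈ Icc 1 k, T n (h + 1) j

/-- sums over a set by rank -/
theorem sum_rank {α : Type*} [LinearOrder α] {M : Type*} [AddCommMonoid M] (A : Finset α)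
    (f : ℕ → M) : ∑ v ∈ A, f (A.filter (· ≤ v)).card = ∑ j ∈ Icc 1 A.card, f j := by
  induction A using Finset.induction_on_max with
  | empty => simp
  | insert a s hs ih =>
    have ha : a ∉ s := fun h => lt_irrefl _ (hs a h)
    rw [sum_insert ha, card_insert_of_notMem ha]
    have h1 : ((insert a s).filter (· ≤ a)) = insert a s := by
      apply filter_true_of_mem
      intro x hx
      rw [mem_insert] at hx
      rcases hx with rfl | hx
      · exact le_refl _
      · exact (hs x hx).le
    rw [h1, card_insert_of_notMem ha]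
    have h2 : ∑ v ∈ s, f ((insert a s).filter (· ≤ v)).card = ∑ v ∈ s, f (s.filter (· ≤ v)).card := by
      refine sum_congr rfl (fun v hv => ?_)
      rw [filter_insert, if_neg (not_le.2 (hs v hv))]
    rw [h2, ih, ← Finset.insert_Icc_right_eq_Icc_add_one (by omega), sum_insert (by simp)]

/-- the same with the rank from above -/
theorem sum_rank_ge {α : Type*} [LinearOrder α] {M : Type*} [AddCommMonoid M] (A : Finset α)
    (f : ℕ → M) : ∑ v ∈ A, f (A.filter (v ≤ ·)).card = ∑ j ∈ Icc 1 A.card, f j := by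
  induction A using Finset.induction_on_min with
  | empty => simp
  | insert a s hs ih =>
    have ha : a ∉ s := fun h => lt_irrefl _ (hs a h)
    rw [sum_insert ha, card_insert_of_notMem ha]
    have h1 : ((insert a s).filter (a ≤ ·)) = insert a s := by
      apply filter_true_of_mem
      intro x hx
      rw [mem_insert] at hx
      rcases hx with rfl | hx
      · exact le_refl _
      · exact (hs x hx).le
    rw [h1, card_insert_of_notMem ha]
    have h2 : ∑ v ∈ s, f ((insert a s).filter (v ≤ ·)).card = ∑ v ∈ s, f (s.filter (v ≤ ·)).card := by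
      refine sum_congr rfl (fun v hv => ?_)
      rw [filter_insert, if_neg (not_le.2 (hs v hv))]
    rw [h2, ih, ← Finset.insert_Icc_right_eq_Icc_add_one (by omega), sum_insert (by simp)]

/-! ### plane permutations -/

variable {n : ℕ}

/-- plane permutations: avoiders of `2-14-3` -/
def Plane (σ : Equiv.Perm (Fin n)) : Prop :=
  ∀ (a b d : ℕ) (_ha : a < b) (_hb : b + 1 < d) (hd : d < n),
    ¬ ((σ ⟨b, by omega⟩ : ℕ) < σ ⟨a, by omega⟩ ∧ (σ ⟨a, by omega⟩ : ℕ) < σ ⟨d, hd⟩ ∧
      (σ ⟨d, hd⟩ : ℕ) < σ ⟨b + 1, by omega⟩)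

/-- the site `x` (the new last value) is active -/
def Act (σ : Equiv.Perm (Fin n)) (x : ℕ) : Prop :=
  ∀ (a b : ℕ) (_ha : a < b) (hb : b + 1 < n),
    (σ ⟨b, by omega⟩ : ℕ) < σ ⟨a, by omega⟩ → (σ ⟨a, by omega⟩ : ℕ) < x →
      ¬ x ≤ σ ⟨b + 1, hb⟩

theorem plane_ins (x : Fin (n + 1)) (τ : Equiv.Perm (Fin n)) :
    Plane (ins x τ) ↔ Plane τ ∧ Act τ x := by
  have v : ∀ (j : ℕ) (hj : j < n), ((ins x τ ⟨j, by omega⟩ : Fin (n + 1)) : ℕ) =
      if ((τ ⟨j, hj⟩ : Fin n) : ℕ) < x then ((τ ⟨j, hj⟩ : Fin n) : ℕ)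
      else ((τ ⟨j, hj⟩ : Fin n) : ℕ) + 1 := ins_val_lt x τ
  have vl : ((ins x τ ⟨n, by omega⟩ : Fin (n + 1)) : ℕ) = x := by
    rw [show (⟨n, by omega⟩ : Fin (n + 1)) = Fin.last n from rfl, ins_last]
  constructor
  · intro h
    constructor
    · rintro a b d ha hb hd ⟨h1, h2, h3⟩
      apply h a b d ha hb (by omega)
      rw [v a (by omega), v b (by omega), v d hd, v (b + 1) (by omega)]
      split_ifs <;> omega
    · intro a b ha hb h1 h2 h3
      apply h a b n ha hb (by omega)
      rw [v a (by omega), v b (by omega), vl, v (b + 1) (by omega)]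
      split_ifs <;> omega
  · rintro ⟨h1, h2⟩ a b d ha hb hd ⟨h3, h4, h5⟩
    rw [v a (by omega), v b (by omega)] at h3
    rw [v (b + 1) (by omega)] at h5
    rcases Nat.lt_or_ge d n with hdn | hdn
    · rw [v a (by omega), v d hdn] at h4
      rw [v d hdn] at h5
      apply h1 a b d ha hb hdn
      split_ifs at h3 h4 h5 <;> omega
    · obtain rfl : d = n := by omega
      rw [v a (by omega), vl] at h4
      rw [vl] at h5
      apply h2 a b ha (by omega)
      · split_ifs at h3 h4 h5 <;> omega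
      · split_ifs at h3 h4 h5 <;> omega
      · split_ifs at h3 h4 h5 <;> omega

/-- values that occur -/
theorem exists_val (τ : Equiv.Perm (Fin n)) {v : ℕ} (hv : v < n) :
    ∃ (a : ℕ) (ha : a < n), (τ ⟨a, ha⟩ : ℕ) = v := by
  obtain ⟨p, hp⟩ := τ.surjective ⟨v, hv⟩
  exact ⟨p, p.2, by rw [hp]⟩

/-- the active sites after appending `x`; `m + 1` is the length of `τ`, `l` its last value -/
theorem act_ins {m : ℕ} (x : Fin (m + 2)) (τ : Equiv.Perm (Fin (m + 1))) (y : ℕ) :
    Act (ins x τ) y ↔ (Act τ (if y ≤ x then y else y - 1)) ∧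
      ((x : ℕ) ≤ τ (Fin.last m) ∨ y ≤ τ (Fin.last m) + 1 ∨ (x : ℕ) < y) := by
  have v : ∀ (j : ℕ) (hj : j < m + 1), ((ins x τ ⟨j, by omega⟩ : Fin (m + 2)) : ℕ) =
      if ((τ ⟨j, hj⟩ : Fin (m + 1)) : ℕ) < x then ((τ ⟨j, hj⟩ : Fin (m + 1)) : ℕ)
      else ((τ ⟨j, hj⟩ : Fin (m + 1)) : ℕ) + 1 := ins_val_lt x τ
  have vl : ((ins x τ ⟨m + 1, by omega⟩ : Fin (m + 2)) : ℕ) = x := by
    rw [show (⟨m + 1, by omega⟩ : Fin (m + 2)) = Fin.last (m + 1) from rfl, ins_last]
  have vm : ((ins x τ ⟨m, by omega⟩ : Fin (m + 2)) : ℕ) =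
      if ((τ (Fin.last m) : Fin (m + 1)) : ℕ) < x then ((τ (Fin.last m) : Fin (m + 1)) : ℕ)
      else ((τ (Fin.last m) : Fin (m + 1)) : ℕ) + 1 := v m (by omega)
  constructor
  · intro h
    constructor
    · intro a b ha hb h1 h2 h3
      apply h a b ha (by omega)
      · rw [v a (by omega), v b (by omega)]
        split_ifs <;> omega
      · rw [v a (by omega)]
        split_ifs at h2 h3 ⊢ <;> omega
      · rw [v (b + 1) hb]
        split_ifs at h2 h3 ⊢ <;> omega
    · by_contra hc
      push Not at hc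
      obtain ⟨h1, h2, h3⟩ := hc
      -- the value `l + 1`
      have hx := x.2
      obtain ⟨a, ha, hav⟩ := exists_val τ (v := (τ (Fin.last m) : ℕ) + 1) (by omega)
      have ham : a ≠ m := by
        rintro rfl
        have : (⟨a, ha⟩ : Fin (a + 1)) = Fin.last a := rfl
        rw [this] at hav
        omega
      apply h a m (by omega) (by omega)
      · rw [v a ha, vm, hav]
        split_ifs <;> omega
      · rw [v a ha, hav]
        split_ifs <;> omega
      · rw [vl]; omega
  · rintro ⟨h, h'⟩ a b ha hb h1 h2 h3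
    rcases Nat.lt_or_ge (b + 1) (m + 1) with hbm | hbm
    · rw [v a (by omega), v b (by omega)] at h1
      rw [v a (by omega)] at h2
      rw [v (b + 1) hbm] at h3
      apply h a b ha hbm
      · split_ifs at h1 <;> omega
      · split_ifs at h2 ⊢ <;> omega
      · split_ifs at h3 ⊢ <;> omega
    · obtain rfl : b = m := by omega
      rw [v a (by omega), vm] at h1
      rw [v a (by omega)] at h2
      rw [vl] at h3
      split_ifs at h1 h2 <;> omega

/-- the site just above the last value is active -/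
theorem act_succ_last {m : ℕ} {τ : Equiv.Perm (Fin (m + 1))} (h : Plane τ) :
    Act τ (τ (Fin.last m) + 1) := by
  intro a b ha hb h1 h2 h3
  have hne1 : (τ ⟨a, by omega⟩ : ℕ) ≠ τ (Fin.last m) := by
    intro he
    have := τ.injective (Fin.ext he)
    have := congrArg Fin.val this
    simp at this
    omega
  have hb1 : b + 1 ≠ m := by
    intro he
    have : (⟨b + 1, hb⟩ : Fin (m + 1)) = Fin.last m := Fin.ext he
    rw [this] at h3
    omega
  exact h a b m ha (by omega) (by omega) ⟨h1, by
    change _ < (τ (Fin.last m) : ℕ)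
    omega, by
    change (τ (Fin.last m) : ℕ) < _
    omega⟩

open Classical in
/-- active sites that are at most the last value -/
noncomputable def Lo {m : ℕ} (τ : Equiv.Perm (Fin (m + 1))) : Finset ℕ :=
  (range (m + 2)).filter (fun x => Act τ x ∧ x ≤ τ (Fin.last m))

open Classical in
/-- active sites above the last value -/
noncomputable def Hi {m : ℕ} (τ : Equiv.Perm (Fin (m + 1))) : Finset ℕ :=
  (range (m + 2)).filter (fun x => Act τ x ∧ (τ (Fin.last m) : ℕ) < x)

theorem mem_Lo {m : ℕ} {τ : Equiv.Perm (Fin (m + 1))} {x : ℕ} :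
    x ∈ Lo τ ↔ Act τ x ∧ x ≤ τ (Fin.last m) := by
  simp only [Lo, Finset.mem_filter, mem_range]
  have := (τ (Fin.last m)).2
  constructor
  · exact fun h => h.2
  · exact fun h => ⟨by omega, h⟩

theorem mem_Hi {m : ℕ} {τ : Equiv.Perm (Fin (m + 1))} {x : ℕ} :
    x ∈ Hi τ ↔ x < m + 2 ∧ Act τ x ∧ (τ (Fin.last m) : ℕ) < x := by
  simp only [Hi, Finset.mem_filter, mem_range]

theorem last_ins {m : ℕ} (x : Fin (m + 2)) (τ : Equiv.Perm (Fin (m + 1))) :
    (ins x τ) (Fin.last (m + 1)) = x := ins_last x τ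

/-- labels of the children: appending a value that is at most the last one -/
theorem card_Lo_of_le {m : ℕ} {x : Fin (m + 2)} {τ : Equiv.Perm (Fin (m + 1))}
    (hx : (x : ℕ) ≤ τ (Fin.last m)) :
    (Lo (ins x τ)).card = ((Lo τ).filter (· ≤ (x : ℕ))).card := by
  congr 1
  ext y
  rw [mem_filter, mem_Lo, mem_Lo, last_ins, act_ins]
  constructor
  · rintro ⟨⟨h1, _⟩, h2⟩
    rw [if_pos h2] at h1
    exact ⟨⟨h1, by omega⟩, h2⟩
  · rintro ⟨⟨h1, _⟩, h2⟩
    rw [if_pos h2]
    exact ⟨⟨h1, Or.inl hx⟩, h2⟩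

theorem card_Hi_of_le {m : ℕ} {x : Fin (m + 2)} {τ : Equiv.Perm (Fin (m + 1))}
    (hx : (x : ℕ) ≤ τ (Fin.last m)) :
    (Hi (ins x τ)).card = ((Lo τ).filter ((x : ℕ) ≤ ·)).card + (Hi τ).card := by
  have h : Hi (ins x τ) = ((Lo τ).filter ((x : ℕ) ≤ ·) ∪ Hi τ).image (· + 1) := by
    ext y
    rw [mem_Hi, last_ins, act_ins, mem_image]
    constructor
    · rintro ⟨h0, ⟨h1, _⟩, h2⟩
      rw [if_neg (by omega)] at h1
      refine ⟨y - 1, ?_, by omega⟩
      rw [mem_union, mem_filter, mem_Lo, mem_Hi]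
      rcases Nat.lt_or_ge (τ (Fin.last m) : ℕ) (y - 1) with h3 | h3
      · right; exact ⟨by omega, h1, h3⟩
      · left; exact ⟨⟨h1, h3⟩, by omega⟩
    · rintro ⟨z, hz, rfl⟩
      rw [mem_union, mem_filter, mem_Lo, mem_Hi] at hz
      have := (τ (Fin.last m)).2
      rcases hz with ⟨⟨h1, h2⟩, h3⟩ | ⟨h0, h1, h2⟩
      · refine ⟨by omega, ⟨?_, Or.inl hx⟩, by omega⟩
        rw [if_neg (by omega)]
        exact h1
      · refine ⟨by omega, ⟨?_, Or.inl hx⟩, by omega⟩
        rw [if_neg (by omega)]
        exact h1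
  rw [h, card_image_of_injective _ (add_left_injective 1), card_union_of_disjoint]
  rw [disjoint_left]
  intro y h1 h2
  rw [mem_filter, mem_Lo] at h1
  rw [mem_Hi] at h2
  omega

/-- labels of the children: appending a value larger than the last one -/
theorem card_Lo_of_gt {m : ℕ} {x : Fin (m + 2)} {τ : Equiv.Perm (Fin (m + 1))} (hτ : Plane τ)
    (hx : (τ (Fin.last m) : ℕ) < x) : (Lo (ins x τ)).card = (Lo τ).card + 1 := by
  have h : Lo (ins x τ) = insert ((τ (Fin.last m) : ℕ) + 1) (Lo τ) := by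
    ext y
    rw [mem_Lo, last_ins, act_ins, mem_insert, mem_Lo]
    constructor
    · rintro ⟨⟨h1, h2⟩, h3⟩
      rw [if_pos h3] at h1
      rcases h2 with h2 | h2 | h2
      · omega
      · rcases Nat.lt_or_ge (τ (Fin.last m) : ℕ) y with h4 | h4
        · left; omega
        · right; exact ⟨h1, h4⟩
      · omega
    · rintro (rfl | ⟨h1, h2⟩)
      · rw [if_pos (by omega)]
        exact ⟨⟨act_succ_last hτ, Or.inr (Or.inl (le_refl _))⟩, by omega⟩
      · rw [if_pos (by omega)]
        exact ⟨⟨h1, Or.inr (Or.inl (by omega))⟩, by omega⟩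
  rw [h, card_insert_of_notMem]
  rw [mem_Lo]
  omega

theorem card_Hi_of_gt {m : ℕ} {x : Fin (m + 2)} {τ : Equiv.Perm (Fin (m + 1))}
    (hx : (τ (Fin.last m) : ℕ) < x) :
    (Hi (ins x τ)).card = ((Hi τ).filter ((x : ℕ) ≤ ·)).card := by
  have h : Hi (ins x τ) = ((Hi τ).filter ((x : ℕ) ≤ ·)).image (· + 1) := by
    ext y
    rw [mem_Hi, last_ins, act_ins, mem_image]
    constructor
    · rintro ⟨h0, ⟨h1, _⟩, h2⟩
      rw [if_neg (by omega)] at h1
      refine ⟨y - 1, ?_, by omega⟩
      rw [mem_filter, mem_Hi]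
      exact ⟨⟨by omega, h1, by omega⟩, by omega⟩
    · rintro ⟨z, hz, rfl⟩
      rw [mem_filter, mem_Hi] at hz
      obtain ⟨⟨h0, h1, h2⟩, h3⟩ := hz
      refine ⟨by omega, ⟨?_, Or.inr (Or.inr (by omega))⟩, by omega⟩
      rw [if_neg (by omega)]
      exact h1
  rw [h, card_image_of_injective _ (add_left_injective 1)]

theorem filter_card_add {A : Finset ℕ} {x : ℕ} (hx : x ∈ A) :
    (A.filter (x ≤ ·)).card = A.card + 1 - (A.filter (· ≤ x)).card := by
  have h1 : (A.filter (x ≤ ·)).card + (A.filter (· ≤ x)).card = A.card + 1 := by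
    rw [← card_union_add_card_inter]
    have h2 : A.filter (x ≤ ·) ∪ A.filter (· ≤ x) = A := by
      ext y
      simp only [mem_union, mem_filter]
      constructor
      · rintro (h | h) <;> exact h.1
      · intro h
        rcases le_total x y with h3 | h3
        · exact Or.inl ⟨h, h3⟩
        · exact Or.inr ⟨h, h3⟩
    have h3 : A.filter (x ≤ ·) ∩ A.filter (· ≤ x) = {x} := by
      ext y
      simp only [mem_inter, mem_filter, mem_singleton]
      constructor
      · rintro ⟨⟨_, h⟩, _, h'⟩; exact le_antisymm h' h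
      · rintro rfl; exact ⟨⟨hx, le_refl _⟩, hx, le_refl _⟩
    rw [h2, h3, card_singleton]
  omega

open Classical in
/-- one step of the generating tree for plane permutations -/
theorem plane_step (N : ℕ) {m : ℕ} (τ : Equiv.Perm (Fin (m + 1))) (hτ : Plane τ) :
    ∑ x : Fin (m + 2), (if Plane (ins x τ) then T N (Lo (ins x τ)).card (Hi (ins x τ)).card else 0)
      = T (N + 1) (Lo τ).card (Hi τ).card := by
  have h1 : ∑ x : Fin (m + 2),
      (if Plane (ins x τ) then T N (Lo (ins x τ)).card (Hi (ins x τ)).card else 0) =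
      ∑ x ∈ Lo τ, T N ((Lo τ).filter (· ≤ x)).card
        ((Lo τ).card + 1 - ((Lo τ).filter (· ≤ x)).card + (Hi τ).card) +
      ∑ x ∈ Hi τ, T N ((Lo τ).card + 1) ((Hi τ).filter (x ≤ ·)).card := by
    rw [Finset.sum_ite, sum_const_zero, add_zero]
    have h2 : ∀ x : Fin (m + 2), Plane (ins x τ) ↔ (x : ℕ) ∈ Lo τ ∨ (x : ℕ) ∈ Hi τ := by
      intro x
      rw [plane_ins, mem_Lo, mem_Hi]
      have := x.2
      constructor
      · rintro ⟨_, h⟩
        rcases Nat.lt_or_ge (τ (Fin.last m) : ℕ) x with h3 | h3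
        · exact Or.inr ⟨x.2, h, h3⟩
        · exact Or.inl ⟨h, h3⟩
      · rintro (h | h)
        · exact ⟨hτ, h.1⟩
        · exact ⟨hτ, h.2.1⟩
    have h3 : (univ.filter (fun x : Fin (m + 2) => Plane (ins x τ))).map Fin.valEmbedding =
        Lo τ ∪ Hi τ := by
      ext y
      rw [mem_map, mem_union]
      constructor
      · rintro ⟨x, hx, rfl⟩
        rw [mem_filter, h2] at hx
        exact hx.2
      · intro hy
        have hy2 : y < m + 2 := by
          rcases hy with h | h
          · rw [mem_Lo] at h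
            have := (τ (Fin.last m)).2
            omega
          · rw [mem_Hi] at h; exact h.1
        refine ⟨⟨y, hy2⟩, ?_, rfl⟩
        rw [mem_filter, h2]
        exact ⟨mem_univ _, hy⟩
    have hdisj : Disjoint (Lo τ) (Hi τ) := by
      rw [disjoint_left]
      intro y h1 h2
      rw [mem_Lo] at h1
      rw [mem_Hi] at h2
      omega
    let G : ℕ → ℕ := fun y => if y ≤ (τ (Fin.last m) : ℕ) then
      T N ((Lo τ).filter (· ≤ y)).card ((Lo τ).card + 1 - ((Lo τ).filter (· ≤ y)).card + (Hi τ).card)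
      else T N ((Lo τ).card + 1) ((Hi τ).filter (y ≤ ·)).card
    have h4 : ∀ x ∈ univ.filter (fun x : Fin (m + 2) => Plane (ins x τ)),
        T N (Lo (ins x τ)).card (Hi (ins x τ)).card = G (Fin.valEmbedding x) := by
      intro x hx
      rw [mem_filter, h2] at hx
      simp only [G, Fin.valEmbedding_apply]
      rcases Nat.lt_or_ge (τ (Fin.last m) : ℕ) x with h3 | h3
      · rw [if_neg (by omega), card_Lo_of_gt hτ h3, card_Hi_of_gt h3]
      · rw [if_pos h3, card_Lo_of_le h3, card_Hi_of_le h3]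
        have hx' : (x : ℕ) ∈ Lo τ := by
          rcases hx.2 with h | h
          · exact h
          · rw [mem_Hi] at h; omega
        rw [filter_card_add hx']
    rw [sum_congr rfl h4, ← sum_map, h3, sum_union hdisj]
    congr 1
    · refine sum_congr rfl (fun y hy => ?_)
      rw [mem_Lo] at hy
      simp only [G]
      rw [if_pos hy.2]
    · refine sum_congr rfl (fun y hy => ?_)
      rw [mem_Hi] at hy
      simp only [G]
      rw [if_neg (by omega)]
  rw [h1, T]
  congr 1
  · rw [sum_rank (Lo τ) (fun r => T N r ((Lo τ).card + 1 - r + (Hi τ).card))]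
    refine Finset.sum_bij' (fun j _ => (Lo τ).card + 1 - j) (fun j _ => (Lo τ).card + 1 - j)
      ?_ ?_ ?_ ?_ ?_
    · intro j hj; rw [mem_Icc] at hj ⊢; omega
    · intro j hj; rw [mem_Icc] at hj ⊢; omega
    · intro j hj; rw [mem_Icc] at hj; omega
    · intro j hj; rw [mem_Icc] at hj; omega
    · intro j hj
      rw [mem_Icc] at hj
      rw [show (Lo τ).card + 1 - ((Lo τ).card + 1 - j) = j by omega, add_comm]
  · rw [sum_rank_ge (Hi τ) (fun r => T N ((Lo τ).card + 1) r)]

open Classical in
/-- sum of the tree sizes over all plane permutations of length `m + 1` -/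
noncomputable def SP (m N : ℕ) : ℕ :=
  ∑ τ : Equiv.Perm (Fin (m + 1)), if Plane τ then T N (Lo τ).card (Hi τ).card else 0

theorem SP_succ (m N : ℕ) : SP (m + 1) N = SP m (N + 1) := by
  classical
  unfold SP
  rw [sum_ins]
  refine sum_congr rfl (fun τ _ => ?_)
  split_ifs with h
  · exact plane_step N τ h
  · apply sum_eq_zero
    intro x _
    rw [if_neg]
    intro h'
    exact h ((plane_ins x τ).1 h').1

theorem SP_eq (m N : ℕ) : SP m N = SP 0 (N + m) := by
  induction m generalizing N with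
  | zero => rfl
  | succ m ih => rw [SP_succ, ih]; congr 1; omega

theorem SP_zero (N : ℕ) : SP 0 N = T N 1 1 := by
  classical
  unfold SP
  have h1 : ∀ τ : Equiv.Perm (Fin 1), Plane τ := by
    intro τ a b d ha hb hd
    omega
  have h2 : ∀ (τ : Equiv.Perm (Fin 1)) (x : ℕ), Act τ x := by
    intro τ x a b ha hb
    omega
  have h3 : ∀ τ : Equiv.Perm (Fin 1), Lo τ = {0} := by
    intro τ
    ext x
    rw [mem_Lo, mem_singleton]
    have := (τ (Fin.last 0)).2
    constructor
    · rintro ⟨_, h⟩; omega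
    · rintro rfl; exact ⟨h2 τ 0, Nat.zero_le _⟩
  have h4 : ∀ τ : Equiv.Perm (Fin 1), Hi τ = {1} := by
    intro τ
    ext x
    rw [mem_Hi, mem_singleton]
    have := (τ (Fin.last 0)).2
    constructor
    · rintro ⟨h, _, h'⟩; omega
    · rintro rfl; exact ⟨by omega, h2 τ 1, by omega⟩
  simp [h1, h3, h4]

/-- the number of plane permutations of length `n + 1` -/
theorem card_plane (n : ℕ) :
    Nat.card {σ : Equiv.Perm (Fin (n + 1)) // Plane σ} = T n 1 1 := by
  classical
  rw [Nat.card_eq_fintype_card, Fintype.card_subtype]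
  have h : (univ.filter (fun σ : Equiv.Perm (Fin (n + 1)) => Plane σ)).card = SP n 0 := by
    unfold SP
    rw [card_filter]
    rfl
  rw [h, SP_eq, SP_zero, zero_add]

/-! ### inversion sequences -/

/-- avoiding `101` and `201` -/
def Av (e : Fin n → ℕ) : Prop := ∀ i j k : Fin n, i < j → j < k → ¬ (e j < e k ∧ e k ≤ e i)

/-- the value `v` may be appended -/
def Allowed (e : Fin n → ℕ) (v : ℕ) : Prop := ∀ i j : Fin n, i < j → ¬ (e j < v ∧ v ≤ e i)

/-- append a value -/
def app (e : Fin n → ℕ) (v : ℕ) : Fin (n + 1) → ℕ := Fin.snoc (α := fun _ => ℕ) e v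

@[simp] theorem app_castSucc (e : Fin n → ℕ) (v : ℕ) (i : Fin n) : app e v i.castSucc = e i := by
  unfold app; exact Fin.snoc_castSucc (α := fun _ => ℕ) v e i

@[simp] theorem app_last (e : Fin n → ℕ) (v : ℕ) : app e v (Fin.last n) = v := by
  unfold app; exact Fin.snoc_last (α := fun _ => ℕ) v e

theorem av_app (e : Fin n → ℕ) (v : ℕ) : Av (app e v) ↔ Av e ∧ Allowed e v := by
  constructor
  · intro h
    constructor
    · intro i j k hij hjk
      have := h i.castSucc j.castSucc k.castSucc (by simpa using hij) (by simpa using hjk)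
      simpa using this
    · intro i j hij
      have := h i.castSucc j.castSucc (Fin.last n) (by simpa using hij) (Fin.castSucc_lt_last j)
      simpa using this
  · rintro ⟨h1, h2⟩ i j k hij hjk
    have hj : j ≠ Fin.last n := (lt_of_lt_of_le hjk (Fin.le_last k)).ne
    have hi : i ≠ Fin.last n := (lt_trans hij (lt_of_lt_of_le hjk (Fin.le_last k))).ne
    obtain ⟨i', rfl⟩ := Fin.exists_castSucc_eq.2 hi
    obtain ⟨j', rfl⟩ := Fin.exists_castSucc_eq.2 hj
    by_cases hk : k = Fin.last n
    · subst hk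
      simpa using h2 i' j' (by simpa using hij)
    · obtain ⟨k', rfl⟩ := Fin.exists_castSucc_eq.2 hk
      simpa using h1 i' j' k' (by simpa using hij) (by simpa using hjk)

theorem allowed_app (e : Fin n → ℕ) (v w : ℕ) :
    Allowed (app e v) w ↔ Allowed e w ∧ ∀ i : Fin n, ¬ (v < w ∧ w ≤ e i) := by
  constructor
  · intro h
    constructor
    · intro i j hij
      simpa using h i.castSucc j.castSucc (by simpa using hij)
    · intro i
      simpa using h i.castSucc (Fin.last n) (Fin.castSucc_lt_last i)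
  · rintro ⟨h1, h2⟩ i j hij
    have hi : i ≠ Fin.last n := (lt_of_lt_of_le hij (Fin.le_last j)).ne
    obtain ⟨i', rfl⟩ := Fin.exists_castSucc_eq.2 hi
    by_cases hj : j = Fin.last n
    · subst hj
      simpa using h2 i'
    · obtain ⟨j', rfl⟩ := Fin.exists_castSucc_eq.2 hj
      simpa using h1 i' j' (by simpa using hij)

/-- the maximal value -/
def mx (e : Fin n → ℕ) : ℕ := univ.sup e

theorem le_mx (e : Fin n → ℕ) (i : Fin n) : e i ≤ mx e := le_sup (mem_univ i)

theorem exists_mx {m : ℕ} (e : Fin (m + 1) → ℕ) : ∃ i, e i = mx e := by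
  obtain ⟨i, _, hi⟩ := exists_mem_eq_sup univ univ_nonempty e
  exact ⟨i, hi.symm⟩

theorem mx_app {m : ℕ} (e : Fin (m + 1) → ℕ) (v : ℕ) : mx (app e v) = max (mx e) v := by
  apply le_antisymm
  · unfold mx
    apply Finset.sup_le
    intro i _
    refine Fin.lastCases ?_ (fun j => ?_) i
    · rw [app_last]; exact le_max_right _ _
    · rw [app_castSucc]; exact (le_mx e j).trans (le_max_left _ _)
  · apply max_le
    · obtain ⟨i, hi⟩ := exists_mx e
      rw [← hi, ← app_castSucc e v i]
      exact le_mx _ _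
    · have := le_mx (app e v) (Fin.last (m + 1))
      rwa [app_last] at this

open Classical in
/-- the allowed values that are at most the maximum -/
noncomputable def Al (e : Fin n → ℕ) : Finset ℕ := (range (mx e + 1)).filter (Allowed e)

theorem mem_Al {e : Fin n → ℕ} {v : ℕ} : v ∈ Al e ↔ v ≤ mx e ∧ Allowed e v := by
  simp only [Al, Finset.mem_filter, mem_range, Nat.lt_succ_iff]

theorem Al_of_le {m : ℕ} {e : Fin (m + 1) → ℕ} {v : ℕ} (hv : v ≤ mx e) :
    Al (app e v) = (Al e).filter (· ≤ v) := by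
  ext w
  rw [mem_filter, mem_Al, mem_Al, mx_app, allowed_app, max_eq_left hv]
  constructor
  · rintro ⟨h1, h2, h3⟩
    obtain ⟨i, hi⟩ := exists_mx e
    have := h3 i
    exact ⟨⟨h1, h2⟩, by omega⟩
  · rintro ⟨⟨h1, h2⟩, h3⟩
    exact ⟨h1, h2, fun i => by omega⟩

theorem allowed_of_gt {e : Fin n → ℕ} {w : ℕ} (h : mx e < w) : Allowed e w := by
  intro i j _ h'
  have := le_mx e i
  omega

theorem card_Al_of_gt {m : ℕ} {e : Fin (m + 1) → ℕ} {v : ℕ} (hv : mx e < v) :
    (Al (app e v)).card = (Al e).card + (v - mx e) := by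
  have h : Al (app e v) = Al e ∪ Icc (mx e + 1) v := by
    ext w
    rw [mem_union, mem_Al, mem_Al, mx_app, allowed_app, max_eq_right hv.le, mem_Icc]
    constructor
    · rintro ⟨h1, h2, _⟩
      rcases Nat.lt_or_ge (mx e) w with h | h
      · right; omega
      · left; exact ⟨h, h2⟩
    · rintro (⟨h1, h2⟩ | h1)
      · refine ⟨by omega, h2, fun i => ?_⟩
        omega
      · refine ⟨by omega, allowed_of_gt (by omega), fun i => ?_⟩
        omega
  rw [h, card_union_of_disjoint, Nat.card_Icc]
  · omega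
  · rw [disjoint_left]
    intro w h1 h2
    rw [mem_Al] at h1
    rw [mem_Icc] at h2
    omega

/-- inversion sequences of length `n` -/
def IS (n : ℕ) : Finset (Fin n → ℕ) := Fintype.piFinset (fun i : Fin n => range ((i : ℕ) + 1))

theorem mem_IS {e : Fin n → ℕ} : e ∈ IS n ↔ ∀ i, e i ≤ i := by
  simp only [IS, Fintype.mem_piFinset, mem_range, Nat.lt_succ_iff]

theorem sum_IS {M : Type*} [AddCommMonoid M] (n : ℕ) (f : (Fin (n + 1) → ℕ) → M) :
    ∑ e ∈ IS (n + 1), f e = ∑ e ∈ IS n, ∑ v ∈ range (n + 1), f (app e v) := by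
  rw [← sum_product']
  symm
  refine Finset.sum_bij' (fun p _ => app p.1 p.2) (fun e _ => (fun i => e i.castSucc, e (Fin.last n)))
    ?_ ?_ ?_ ?_ ?_
  · rintro ⟨e, v⟩ h
    rw [mem_product, mem_IS, mem_range] at h
    rw [mem_IS]
    intro i
    refine Fin.lastCases ?_ (fun j => ?_) i
    · rw [app_last]; simp only [Fin.val_last]; have := h.2; omega
    · rw [app_castSucc]; exact h.1 j
  · intro e h
    rw [mem_IS] at h
    rw [mem_product, mem_IS, mem_range]
    refine ⟨fun i => h i.castSucc, ?_⟩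
    have := h (Fin.last n)
    simp only [Fin.val_last] at this
    simp only
    omega
  · rintro ⟨e, v⟩ _
    simp
  · intro e _
    funext i
    refine Fin.lastCases ?_ (fun j => ?_) i
    · simp
    · simp
  · intro _ _; rfl

open Classical in
/-- one step of the generating tree for the inversion sequences -/
theorem seq_step (N : ℕ) {m : ℕ} {e : Fin (m + 1) → ℕ} (he : e ∈ IS (m + 1)) (hav : Av e) :
    ∑ v ∈ range (m + 2), (if Av (app e v) then T N (m + 2 - mx (app e v)) (Al (app e v)).card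
      else 0) = T (N + 1) (m + 1 - mx e) (Al e).card := by
  have hM : mx e ≤ m := by
    unfold mx
    apply Finset.sup_le
    intro i _
    have := (mem_IS.1 he) i
    have := i.2
    omega
  have hsplit : range (m + 2) = range (mx e + 1) ∪ Icc (mx e + 1) (m + 1) := by
    ext x
    rw [mem_union, mem_range, mem_range, mem_Icc]; omega
  have hdisj : Disjoint (range (mx e + 1)) (Icc (mx e + 1) (m + 1)) := by
    rw [disjoint_left]
    intro x h1 h2
    rw [mem_range] at h1
    rw [mem_Icc] at h2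
    omega
  rw [hsplit, sum_union hdisj, T, add_comm]
  congr 1
  · -- values above the maximum
    have h1 : ∀ v ∈ Icc (mx e + 1) (m + 1), (if Av (app e v) then
        T N (m + 2 - mx (app e v)) (Al (app e v)).card else 0) =
        T N (m + 2 - v) ((Al e).card + (v - mx e)) := by
      intro v hv
      rw [mem_Icc] at hv
      rw [if_pos ((av_app e v).2 ⟨hav, allowed_of_gt (by omega)⟩), mx_app,
        max_eq_right (by omega : mx e ≤ v), card_Al_of_gt (by omega)]
    rw [sum_congr rfl h1]
    refine Finset.sum_bij' (fun v _ => v - mx e) (fun j _ => mx e + j) ?_ ?_ ?_ ?_ ?_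
    · intro v hv; rw [mem_Icc] at hv ⊢; omega
    · intro j hj; rw [mem_Icc] at hj ⊢; omega
    · intro v hv; rw [mem_Icc] at hv; omega
    · intro j hj; omega
    · intro v hv
      rw [mem_Icc] at hv
      congr 1
      omega
  · -- values up to the maximum
    rw [← sum_rank (Al e) (fun r => T N (m + 1 - mx e + 1) r)]
    unfold Al
    rw [sum_filter]
    refine sum_congr rfl (fun v hv => ?_)
    rw [mem_range] at hv
    by_cases h : Allowed e v
    · rw [if_pos ((av_app e v).2 ⟨hav, h⟩), if_pos h, mx_app, max_eq_left (by omega : v ≤ mx e)]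
      have h2 := Al_of_le (e := e) (v := v) (by omega)
      rw [show m + 2 - mx e = m + 1 - mx e + 1 by omega]
      congr 1
      unfold Al at h2
      rw [mx_app, max_eq_left (by omega : v ≤ mx e)] at h2
      rw [h2]
    · rw [if_neg (fun h' => h ((av_app e v).1 h').2), if_neg h]

open Classical in
/-- sum of the tree sizes over all avoiding inversion sequences of length `m + 1` -/
noncomputable def SI (m N : ℕ) : ℕ :=
  ∑ e ∈ IS (m + 1), if Av e then T N (m + 1 - mx e) (Al e).card else 0

theorem SI_succ (m N : ℕ) : SI (m + 1) N = SI m (N + 1) := by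
  classical
  unfold SI
  rw [sum_IS]
  refine sum_congr rfl (fun e he => ?_)
  split_ifs with h
  · exact seq_step N he h
  · apply sum_eq_zero
    intro x _
    rw [if_neg]
    intro h'
    exact h ((av_app e x).1 h').1

theorem SI_eq (m N : ℕ) : SI m N = SI 0 (N + m) := by
  induction m generalizing N with
  | zero => rfl
  | succ m ih => rw [SI_succ, ih]; congr 1; omega

theorem SI_zero (N : ℕ) : SI 0 N = T N 1 1 := by
  classical
  unfold SI
  have h0 : IS 1 = {fun _ => 0} := by
    ext e
    rw [mem_IS, mem_singleton]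
    constructor
    · intro h
      funext i
      have := h i
      omega
    · rintro rfl i; exact Nat.zero_le _
  have h1 : Av (fun _ : Fin 1 => 0) := by
    intro i j k _ _ h
    omega
  have h2 : mx (fun _ : Fin 1 => 0) = 0 := by
    unfold mx
    simp
  have h3 : Al (fun _ : Fin 1 => 0) = {0} := by
    ext v
    rw [mem_Al, mem_singleton, h2]
    constructor
    · rintro ⟨h, _⟩; omega
    · rintro rfl
      exact ⟨le_refl _, fun i j _ h => by omega⟩
  rw [h0, sum_singleton, if_pos h1, h2, h3]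
  rfl

open Classical in
theorem card_seq (n : ℕ) : ((IS (n + 1)).filter Av).card = T n 1 1 := by
  have h : ((IS (n + 1)).filter Av).card = SI n 0 := by
    unfold SI
    rw [card_filter]
    rfl
  rw [h, SI_eq, SI_zero, zero_add]

end Q161.SemiBaxter
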