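import Pool.Agent.Q161.SemiBaxter

/-! Permutations avoiding `2-41-3` and weak ascent sequences avoiding `210`. -/

set_option autoImplicit false

namespace Q161.SemiBaxter

open Finset Q161.Insert

variable {n : ℕ}

/-- avoiders of `2-41-3` -/
def V2413 (σ : Equiv.Perm (Fin n)) : Prop :=
  ∀ (a b d : ℕ) (_ha : a < b) (_hb : b + 1 < d) (hd : d < n),
    ¬ ((σ ⟨b + 1, by omega⟩ : ℕ) < σ ⟨a, by omega⟩ ∧ (σ ⟨a, by omega⟩ : ℕ) < σ ⟨d, hd⟩ ∧
      (σ ⟨d, hd⟩ : ℕ) < σ ⟨b, by omega⟩)

/-- the site `x` (the new last value) is active -/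
def Act2 (σ : Equiv.Perm (Fin n)) (x : ℕ) : Prop :=
  ∀ (a b : ℕ) (_ha : a < b) (hb : b + 1 < n),
    (σ ⟨b + 1, hb⟩ : ℕ) < σ ⟨a, by omega⟩ → (σ ⟨a, by omega⟩ : ℕ) < x →
      ¬ x ≤ σ ⟨b, by omega⟩

theorem v2413_ins (x : Fin (n + 1)) (τ : Equiv.Perm (Fin n)) :
    V2413 (ins x τ) ↔ V2413 τ ∧ Act2 τ x := by
  have v : ∀ (j : ℕ) (hj : j < n), ((ins x τ ⟨j, by omega⟩ : Fin (n + 1)) : ℕ) =
      if ((τ ⟨j, hj⟩ : Fin n) : ℕ) < x then ((τ ⟨j, hj⟩ : Fin n) : ℕ)
      else ((τ ⟨j, hj⟩ : Fin n) : ℕ) + 1 := ins_val_lt x τ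
  have vl : ((ins x τ ⟨n, by omega⟩ : Fin (n + 1)) : ℕ) = x := by
    rw [show (⟨n, by omega⟩ : Fin (n + 1)) = Fin.last n from rfl, ins_last]
  constructor
  · intro h
    constructor
    · rintro a b d ha hb hd ⟨h1, h2, h3⟩
      apply h a b d ha hb (by omega)
      rw [v a (by omega), v b (by omega), v d hd, v (b + 1) (by omega)]
      split_ifs <;> omega
    · intro a b ha hb h1 h2 h3
      apply h a b n ha hb (by omega)
      rw [v a (by omega), v b (by omega), vl, v (b + 1) (by omega)]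
      split_ifs <;> omega
  · rintro ⟨h1, h2⟩ a b d ha hb hd ⟨h3, h4, h5⟩
    rw [v a (by omega), v (b + 1) (by omega)] at h3
    rw [v b (by omega)] at h5
    rcases Nat.lt_or_ge d n with hdn | hdn
    · rw [v a (by omega), v d hdn] at h4
      rw [v d hdn] at h5
      apply h1 a b d ha hb hdn
      split_ifs at h3 h4 h5 <;> omega
    · obtain rfl : d = n := by omega
      rw [v a (by omega), vl] at h4
      rw [vl] at h5
      apply h2 a b ha (by omega)
      · split_ifs at h3 h4 h5 <;> omega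
      · split_ifs at h3 h4 h5 <;> omega
      · split_ifs at h3 h4 h5 <;> omega

/-- the active sites after appending `x` -/
theorem act2_ins {m : ℕ} (x : Fin (m + 2)) (τ : Equiv.Perm (Fin (m + 1))) (y : ℕ) :
    Act2 (ins x τ) y ↔ (Act2 τ (if y ≤ x then y else y - 1)) ∧
      ((τ (Fin.last m) : ℕ) ≤ x ∨ y ≤ x + 1 ∨ (τ (Fin.last m) : ℕ) + 1 < y) := by
  have v : ∀ (j : ℕ) (hj : j < m + 1), ((ins x τ ⟨j, by omega⟩ : Fin (m + 2)) : ℕ) =
      if ((τ ⟨j, hj⟩ : Fin (m + 1)) : ℕ) < x then ((τ ⟨j, hj⟩ : Fin (m + 1)) : ℕ)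
      else ((τ ⟨j, hj⟩ : Fin (m + 1)) : ℕ) + 1 := ins_val_lt x τ
  have vl : ((ins x τ ⟨m + 1, by omega⟩ : Fin (m + 2)) : ℕ) = x := by
    rw [show (⟨m + 1, by omega⟩ : Fin (m + 2)) = Fin.last (m + 1) from rfl, ins_last]
  have vm : ((ins x τ ⟨m, by omega⟩ : Fin (m + 2)) : ℕ) =
      if ((τ (Fin.last m) : Fin (m + 1)) : ℕ) < x then ((τ (Fin.last m) : Fin (m + 1)) : ℕ)
      else ((τ (Fin.last m) : Fin (m + 1)) : ℕ) + 1 := v m (by omega)
  constructor
  · intro h
    constructor
    · intro a b ha hb h1 h2 h3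
      apply h a b ha (by omega)
      · rw [v a (by omega), v (b + 1) (by omega)]
        split_ifs <;> omega
      · rw [v a (by omega)]
        split_ifs at h2 h3 ⊢ <;> omega
      · rw [v b (by omega)]
        split_ifs at h2 h3 ⊢ <;> omega
    · by_contra hc
      push Not at hc
      obtain ⟨h1, h2, h3⟩ := hc
      -- the old value `x`
      have hx := x.2
      have hl := (τ (Fin.last m)).2
      obtain ⟨a, ha, hav⟩ := exists_val τ (v := (x : ℕ)) (by omega)
      have ham : a ≠ m := by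
        rintro rfl
        have : (⟨a, ha⟩ : Fin (a + 1)) = Fin.last a := rfl
        rw [this] at hav
        omega
      apply h a m (by omega) (by omega)
      · rw [v a ha, vl, hav]
        split_ifs <;> omega
      · rw [v a ha, hav]
        split_ifs <;> omega
      · rw [vm]
        split_ifs <;> omega
  · rintro ⟨h, h'⟩ a b ha hb h1 h2 h3
    rcases Nat.lt_or_ge (b + 1) (m + 1) with hbm | hbm
    · rw [v a (by omega), v (b + 1) (by omega)] at h1
      rw [v a (by omega)] at h2
      rw [v b (by omega)] at h3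
      apply h a b ha hbm
      · split_ifs at h1 <;> omega
      · split_ifs at h2 ⊢ <;> omega
      · split_ifs at h3 ⊢ <;> omega
    · obtain rfl : b = m := by omega
      rw [v a (by omega), vl] at h1
      rw [v a (by omega)] at h2
      rw [vm] at h3
      split_ifs at h1 h2 h3 <;> omega

open Classical in
/-- active sites that are at most the last value -/
noncomputable def Lo2 {m : ℕ} (τ : Equiv.Perm (Fin (m + 1))) : Finset ℕ :=
  (range (m + 2)).filter (fun x => Act2 τ x ∧ x ≤ τ (Fin.last m))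

open Classical in
/-- active sites above the last value -/
noncomputable def Hi2 {m : ℕ} (τ : Equiv.Perm (Fin (m + 1))) : Finset ℕ :=
  (range (m + 2)).filter (fun x => Act2 τ x ∧ (τ (Fin.last m) : ℕ) < x)

theorem mem_Lo2 {m : ℕ} {τ : Equiv.Perm (Fin (m + 1))} {x : ℕ} :
    x ∈ Lo2 τ ↔ Act2 τ x ∧ x ≤ τ (Fin.last m) := by
  simp only [Lo2, Finset.mem_filter, mem_range]
  have := (τ (Fin.last m)).2
  constructor
  · exact fun h => h.2
  · exact fun h => ⟨by omega, h⟩

theorem mem_Hi2 {m : ℕ} {τ : Equiv.Perm (Fin (m + 1))} {x : ℕ} :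
    x ∈ Hi2 τ ↔ x < m + 2 ∧ Act2 τ x ∧ (τ (Fin.last m) : ℕ) < x := by
  simp only [Hi2, Finset.mem_filter, mem_range]

theorem card_Lo2_of_le {m : ℕ} {x : Fin (m + 2)} {τ : Equiv.Perm (Fin (m + 1))}
    (hx : (x : ℕ) ≤ τ (Fin.last m)) :
    (Lo2 (ins x τ)).card = ((Lo2 τ).filter (· ≤ (x : ℕ))).card := by
  congr 1
  ext y
  rw [mem_filter, mem_Lo2, mem_Lo2, last_ins, act2_ins]
  constructor
  · rintro ⟨⟨h1, _⟩, h2⟩
    rw [if_pos h2] at h1
    exact ⟨⟨h1, by omega⟩, h2⟩
  · rintro ⟨⟨h1, _⟩, h2⟩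
    rw [if_pos h2]
    exact ⟨⟨h1, Or.inr (Or.inl (by omega))⟩, h2⟩

theorem card_Hi2_of_le {m : ℕ} {x : Fin (m + 2)} {τ : Equiv.Perm (Fin (m + 1))}
    (hxa : Act2 τ x) (hx : (x : ℕ) ≤ τ (Fin.last m)) :
    (Hi2 (ins x τ)).card = (Hi2 τ).card + 1 := by
  have h : Hi2 (ins x τ) = insert ((x : ℕ) + 1) ((Hi2 τ).image (· + 1)) := by
    ext y
    rw [mem_Hi2, last_ins, act2_ins, mem_insert, mem_image]
    constructor
    · rintro ⟨h0, ⟨h1, h2⟩, h3⟩
      rw [if_neg (by omega)] at h1
      by_cases hy : y = x + 1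
      · left; exact hy
      · right
        refine ⟨y - 1, ?_, by omega⟩
        rw [mem_Hi2]
        exact ⟨by omega, h1, by omega⟩
    · rintro (rfl | ⟨z, hz, rfl⟩)
      · have := (τ (Fin.last m)).2
        refine ⟨by omega, ⟨?_, Or.inr (Or.inl (le_refl _))⟩, by omega⟩
        rw [if_neg (by omega), Nat.add_sub_cancel]
        exact hxa
      · rw [mem_Hi2] at hz
        refine ⟨by omega, ⟨?_, Or.inr (Or.inr (by omega))⟩, by omega⟩
        rw [if_neg (by omega), Nat.add_sub_cancel]
        exact hz.2.1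
  rw [h, card_insert_of_notMem, card_image_of_injective _ (add_left_injective 1)]
  intro hm
  rw [mem_image] at hm
  obtain ⟨z, hz, hz'⟩ := hm
  rw [mem_Hi2] at hz
  omega

theorem card_Lo2_of_gt {m : ℕ} {x : Fin (m + 2)} {τ : Equiv.Perm (Fin (m + 1))}
    (hx : (τ (Fin.last m) : ℕ) < x) :
    (Lo2 (ins x τ)).card = (Lo2 τ).card + ((Hi2 τ).filter (· ≤ (x : ℕ))).card := by
  have h : Lo2 (ins x τ) = Lo2 τ ∪ (Hi2 τ).filter (· ≤ (x : ℕ)) := by
    ext y
    rw [mem_Lo2, last_ins, act2_ins, mem_union, mem_Lo2, mem_filter, mem_Hi2]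
    constructor
    · rintro ⟨⟨h1, _⟩, h3⟩
      rw [if_pos h3] at h1
      have := x.2
      rcases Nat.lt_or_ge (τ (Fin.last m) : ℕ) y with h4 | h4
      · right; exact ⟨⟨by omega, h1, h4⟩, h3⟩
      · left; exact ⟨h1, h4⟩
    · rintro (⟨h1, h2⟩ | ⟨⟨h0, h1, h2⟩, h3⟩)
      · rw [if_pos (by omega)]
        exact ⟨⟨h1, Or.inl hx.le⟩, by omega⟩
      · rw [if_pos h3]
        exact ⟨⟨h1, Or.inl hx.le⟩, h3⟩
  rw [h, card_union_of_disjoint]
  rw [disjoint_left]
  intro y h1 h2
  rw [mem_Lo2] at h1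
  rw [mem_filter, mem_Hi2] at h2
  omega

theorem card_Hi2_of_gt {m : ℕ} {x : Fin (m + 2)} {τ : Equiv.Perm (Fin (m + 1))}
    (hx : (τ (Fin.last m) : ℕ) < x) :
    (Hi2 (ins x τ)).card = ((Hi2 τ).filter ((x : ℕ) ≤ ·)).card := by
  have h : Hi2 (ins x τ) = ((Hi2 τ).filter ((x : ℕ) ≤ ·)).image (· + 1) := by
    ext y
    rw [mem_Hi2, last_ins, act2_ins, mem_image]
    constructor
    · rintro ⟨h0, ⟨h1, _⟩, h2⟩
      rw [if_neg (by omega)] at h1
      refine ⟨y - 1, ?_, by omega⟩
      rw [mem_filter, mem_Hi2]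
      exact ⟨⟨by omega, h1, by omega⟩, by omega⟩
    · rintro ⟨z, hz, rfl⟩
      rw [mem_filter, mem_Hi2] at hz
      obtain ⟨⟨h0, h1, h2⟩, h3⟩ := hz
      refine ⟨by omega, ⟨?_, Or.inl hx.le⟩, by omega⟩
      rw [if_neg (by omega), Nat.add_sub_cancel]
      exact h1
  rw [h, card_image_of_injective _ (add_left_injective 1)]

open Classical in
/-- one step of the generating tree for `2-41-3`-avoiding permutations -/
theorem v2413_step (N : ℕ) {m : ℕ} (τ : Equiv.Perm (Fin (m + 1))) (hτ : V2413 τ) :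
    ∑ x : Fin (m + 2),
      (if V2413 (ins x τ) then T N (Hi2 (ins x τ)).card (Lo2 (ins x τ)).card else 0)
      = T (N + 1) (Hi2 τ).card (Lo2 τ).card := by
  have h1 : ∑ x : Fin (m + 2),
      (if V2413 (ins x τ) then T N (Hi2 (ins x τ)).card (Lo2 (ins x τ)).card else 0) =
      ∑ x ∈ Lo2 τ, T N ((Hi2 τ).card + 1) ((Lo2 τ).filter (· ≤ x)).card +
      ∑ x ∈ Hi2 τ, T N ((Hi2 τ).card + 1 - ((Hi2 τ).filter (· ≤ x)).card)
        ((Lo2 τ).card + ((Hi2 τ).filter (· ≤ x)).card) := by
    rw [Finset.sum_ite, sum_const_zero, add_zero]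
    have h2 : ∀ x : Fin (m + 2), V2413 (ins x τ) ↔ (x : ℕ) ∈ Lo2 τ ∨ (x : ℕ) ∈ Hi2 τ := by
      intro x
      rw [v2413_ins, mem_Lo2, mem_Hi2]
      constructor
      · rintro ⟨_, h⟩
        rcases Nat.lt_or_ge (τ (Fin.last m) : ℕ) x with h3 | h3
        · exact Or.inr ⟨x.2, h, h3⟩
        · exact Or.inl ⟨h, h3⟩
      · rintro (h | h)
        · exact ⟨hτ, h.1⟩
        · exact ⟨hτ, h.2.1⟩
    have h3 : (univ.filter (fun x : Fin (m + 2) => V2413 (ins x τ))).map Fin.valEmbedding =
        Lo2 τ ∪ Hi2 τ := by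
      ext y
      rw [mem_map, mem_union]
      constructor
      · rintro ⟨x, hx, rfl⟩
        rw [mem_filter, h2] at hx
        exact hx.2
      · intro hy
        have hy2 : y < m + 2 := by
          rcases hy with h | h
          · rw [mem_Lo2] at h
            have := (τ (Fin.last m)).2
            omega
          · rw [mem_Hi2] at h; exact h.1
        refine ⟨⟨y, hy2⟩, ?_, rfl⟩
        rw [mem_filter, h2]
        exact ⟨mem_univ _, hy⟩
    have hdisj : Disjoint (Lo2 τ) (Hi2 τ) := by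
      rw [disjoint_left]
      intro y h1 h2
      rw [mem_Lo2] at h1
      rw [mem_Hi2] at h2
      omega
    let G : ℕ → ℕ := fun y => if y ≤ (τ (Fin.last m) : ℕ) then
      T N ((Hi2 τ).card + 1) ((Lo2 τ).filter (· ≤ y)).card
      else T N ((Hi2 τ).card + 1 - ((Hi2 τ).filter (· ≤ y)).card)
        ((Lo2 τ).card + ((Hi2 τ).filter (· ≤ y)).card)
    have h4 : ∀ x ∈ univ.filter (fun x : Fin (m + 2) => V2413 (ins x τ)),
        T N (Hi2 (ins x τ)).card (Lo2 (ins x τ)).card = G (Fin.valEmbedding x) := by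
      intro x hx
      rw [mem_filter, h2] at hx
      simp only [G, Fin.valEmbedding_apply]
      rcases Nat.lt_or_ge (τ (Fin.last m) : ℕ) x with h3 | h3
      · have hx' : (x : ℕ) ∈ Hi2 τ := by
          rcases hx.2 with h | h
          · rw [mem_Lo2] at h; omega
          · exact h
        rw [if_neg (by omega), card_Lo2_of_gt h3, card_Hi2_of_gt h3, filter_card_add hx']
      · have hx' : (x : ℕ) ∈ Lo2 τ := by
          rcases hx.2 with h | h
          · exact h
          · rw [mem_Hi2] at h; omega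
        rw [if_pos h3, card_Lo2_of_le h3, card_Hi2_of_le (mem_Lo2.1 hx').1 h3]
    rw [sum_congr rfl h4, ← sum_map, h3, sum_union hdisj]
    congr 1
    · refine sum_congr rfl (fun y hy => ?_)
      rw [mem_Lo2] at hy
      simp only [G]
      rw [if_pos hy.2]
    · refine sum_congr rfl (fun y hy => ?_)
      rw [mem_Hi2] at hy
      simp only [G]
      rw [if_neg (by omega)]
  rw [h1, T, add_comm]
  congr 1
  · rw [sum_rank (Hi2 τ) (fun r => T N ((Hi2 τ).card + 1 - r) ((Lo2 τ).card + r))]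
  · rw [sum_rank (Lo2 τ) (fun r => T N ((Hi2 τ).card + 1) r)]

open Classical in
/-- sum of the tree sizes -/
noncomputable def SV (m N : ℕ) : ℕ :=
  ∑ τ : Equiv.Perm (Fin (m + 1)), if V2413 τ then T N (Hi2 τ).card (Lo2 τ).card else 0

theorem SV_succ (m N : ℕ) : SV (m + 1) N = SV m (N + 1) := by
  classical
  unfold SV
  rw [sum_ins]
  refine sum_congr rfl (fun τ _ => ?_)
  split_ifs with h
  · exact v2413_step N τ h
  · apply sum_eq_zero
    intro x _
    rw [if_neg]
    intro h'
    exact h ((v2413_ins x τ).1 h').1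

theorem SV_eq (m N : ℕ) : SV m N = SV 0 (N + m) := by
  induction m generalizing N with
  | zero => rfl
  | succ m ih => rw [SV_succ, ih]; congr 1; omega

theorem SV_zero (N : ℕ) : SV 0 N = T N 1 1 := by
  classical
  unfold SV
  have h1 : ∀ τ : Equiv.Perm (Fin 1), V2413 τ := by
    intro τ a b d ha hb hd
    omega
  have h2 : ∀ (τ : Equiv.Perm (Fin 1)) (x : ℕ), Act2 τ x := by
    intro τ x a b ha hb
    omega
  have h3 : ∀ τ : Equiv.Perm (Fin 1), Lo2 τ = {0} := by
    intro τ
    ext x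
    rw [mem_Lo2, mem_singleton]
    have := (τ (Fin.last 0)).2
    constructor
    · rintro ⟨_, h⟩; omega
    · rintro rfl; exact ⟨h2 τ 0, Nat.zero_le _⟩
  have h4 : ∀ τ : Equiv.Perm (Fin 1), Hi2 τ = {1} := by
    intro τ
    ext x
    rw [mem_Hi2, mem_singleton]
    have := (τ (Fin.last 0)).2
    constructor
    · rintro ⟨h, _, h'⟩; omega
    · rintro rfl; exact ⟨by omega, h2 τ 1, by omega⟩
  simp [h1, h3, h4]

/-- the number of `2-41-3`-avoiding permutations of length `n + 1` -/
theorem card_v2413 (n : ℕ) :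
    Nat.card {σ : Equiv.Perm (Fin (n + 1)) // V2413 σ} = T n 1 1 := by
  classical
  rw [Nat.card_eq_fintype_card, Fintype.card_subtype]
  have h : (univ.filter (fun σ : Equiv.Perm (Fin (n + 1)) => V2413 σ)).card = SV n 0 := by
    unfold SV
    rw [card_filter]
    rfl
  rw [h, SV_eq, SV_zero, zero_add]

/-! ### weak ascent sequences -/

/-- the number of weak ascents of the first `i` entries -/
def wasc (a : Fin n → ℕ) (i : ℕ) : ℕ :=
  ((range (i - 1)).filter (fun j => ∃ h : j + 1 < n, a ⟨j, by omega⟩ ≤ a ⟨j + 1, h⟩)).card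

/-- weak ascent sequences -/
def WAS (a : Fin n → ℕ) : Prop := ∀ i : Fin n, a i ≤ if (i : ℕ) = 0 then 0 else 1 + wasc a i

/-- avoiding `210` -/
def A210 (a : Fin n → ℕ) : Prop := ∀ i j k : Fin n, i < j → j < k → ¬ (a j < a i ∧ a k < a j)

/-- the largest entry with a larger entry before it (or `0`) -/
def bb (a : Fin n → ℕ) : ℕ := (univ.filter (fun j : Fin n => ∃ i < j, a j < a i)).sup a

theorem wasc_app_le (e : Fin n → ℕ) (v : ℕ) {i : ℕ} (hi : i ≤ n) :
    wasc (app e v) i = wasc e i := by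
  unfold wasc
  congr 1
  apply filter_congr
  intro j hj
  rw [mem_range] at hj
  have h1 : j + 1 < n := by omega
  have e1 : (⟨j, by omega⟩ : Fin (n + 1)) = (⟨j, by omega⟩ : Fin n).castSucc := rfl
  have e2 : (⟨j + 1, by omega⟩ : Fin (n + 1)) = (⟨j + 1, h1⟩ : Fin n).castSucc := rfl
  constructor
  · rintro ⟨_, h⟩
    rw [e1, e2, app_castSucc, app_castSucc] at h
    exact ⟨h1, h⟩
  · rintro ⟨_, h⟩
    refine ⟨by omega, ?_⟩
    rw [e1, e2, app_castSucc, app_castSucc]
    exact h

theorem wasc_app {m : ℕ} (e : Fin (m + 1) → ℕ) (v : ℕ) :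
    wasc (app e v) (m + 2) = wasc e (m + 1) + if e (Fin.last m) ≤ v then 1 else 0 := by
  unfold wasc
  rw [show m + 2 - 1 = (m + 1 - 1) + 1 by omega, range_add_one, filter_insert]
  have e1 : (⟨m, by omega⟩ : Fin (m + 2)) = (Fin.last m).castSucc := rfl
  have e2 : (⟨m + 1, by omega⟩ : Fin (m + 2)) = Fin.last (m + 1) := rfl
  have h1 : (∃ h : (m + 1 - 1) + 1 < m + 2, app e v ⟨m + 1 - 1, by omega⟩ ≤
      app e v ⟨m + 1 - 1 + 1, h⟩) ↔ e (Fin.last m) ≤ v := by
    constructor
    · rintro ⟨_, h⟩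
      simp only [Nat.add_sub_cancel] at h
      rw [e1, e2, app_castSucc, app_last] at h
      exact h
    · intro h
      refine ⟨by omega, ?_⟩
      simp only [Nat.add_sub_cancel]
      rw [e1, e2, app_castSucc, app_last]
      exact h
  have h2 := wasc_app_le e v (le_refl (m + 1))
  unfold wasc at h2
  split_ifs with h3 h4 h4
  · rw [card_insert_of_notMem (by simp), h2]
  · exact absurd (h1.1 h3) h4
  · exact absurd (h1.2 h4) h3
  · rw [h2]; rfl

theorem was_app {m : ℕ} (e : Fin (m + 1) → ℕ) (v : ℕ) :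
    WAS (app e v) ↔ WAS e ∧ v ≤ 1 + wasc e (m + 1) := by
  constructor
  · intro h
    constructor
    · intro i
      have := h i.castSucc
      rw [app_castSucc, Fin.val_castSucc, wasc_app_le e v (by omega)] at this
      exact this
    · have := h (Fin.last (m + 1))
      rw [app_last, Fin.val_last, if_neg (by omega), wasc_app_le e v (le_refl _)] at this
      exact this
  · rintro ⟨h1, h2⟩ i
    refine Fin.lastCases ?_ (fun j => ?_) i
    · rw [app_last, Fin.val_last, if_neg (by omega), wasc_app_le e v (le_refl _)]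
      exact h2
    · rw [app_castSucc, Fin.val_castSucc, wasc_app_le e v (by omega)]
      exact h1 j

theorem was_mem_IS {e : Fin n → ℕ} (h : WAS e) : e ∈ IS n := by
  rw [mem_IS]
  intro i
  have h1 := h i
  split_ifs at h1 with h2
  · omega
  · have : wasc e i ≤ i - 1 := by
      unfold wasc
      exact (card_filter_le _ _).trans (by simp)
    omega

theorem le_bb {e : Fin n → ℕ} {i j : Fin n} (hij : i < j) (h : e j < e i) : e j ≤ bb e :=
  le_sup (f := e) (mem_filter.2 ⟨mem_univ _, i, hij, h⟩)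

theorem bb_cases (e : Fin n → ℕ) : bb e = 0 ∨ ∃ i j : Fin n, i < j ∧ e j < e i ∧ bb e = e j := by
  rcases (univ.filter (fun j : Fin n => ∃ i < j, e j < e i)).eq_empty_or_nonempty with h | h
  · left
    unfold bb
    rw [h]; rfl
  · right
    obtain ⟨j, hj, hj'⟩ := exists_mem_eq_sup _ h e
    obtain ⟨_, i, hi, hi'⟩ := mem_filter.1 hj
    exact ⟨i, j, hi, hi', hj'⟩

theorem a210_app (e : Fin n → ℕ) (v : ℕ) : A210 (app e v) ↔ A210 e ∧ bb e ≤ v := by
  constructor
  · intro h
    constructor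
    · intro i j k hij hjk
      simpa using h i.castSucc j.castSucc k.castSucc (by simpa using hij) (by simpa using hjk)
    · rcases bb_cases e with h0 | ⟨i, j, hij, h1, h2⟩
      · rw [h0]; exact Nat.zero_le _
      · rw [h2]
        have := h i.castSucc j.castSucc (Fin.last n) (by simpa using hij) (Fin.castSucc_lt_last j)
        simp only [app_castSucc, app_last, not_and, not_lt] at this
        exact this h1
  · rintro ⟨h1, h2⟩ i j k hij hjk
    have hj : j ≠ Fin.last n := (lt_of_lt_of_le hjk (Fin.le_last k)).ne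
    have hi : i ≠ Fin.last n := (lt_trans hij (lt_of_lt_of_le hjk (Fin.le_last k))).ne
    obtain ⟨i', rfl⟩ := Fin.exists_castSucc_eq.2 hi
    obtain ⟨j', rfl⟩ := Fin.exists_castSucc_eq.2 hj
    by_cases hk : k = Fin.last n
    · subst hk
      simp only [app_castSucc, app_last]
      rintro ⟨h3, h4⟩
      have := le_bb (e := e) (i := i') (j := j') (by simpa using hij) h3
      omega
    · obtain ⟨k', rfl⟩ := Fin.exists_castSucc_eq.2 hk
      simpa using h1 i' j' k' (by simpa using hij) (by simpa using hjk)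

theorem bb_app_of_ge {m : ℕ} {e : Fin (m + 1) → ℕ} {v : ℕ} (hv : mx e ≤ v) :
    bb (app e v) = bb e := by
  apply le_antisymm
  · rcases bb_cases (app e v) with h | ⟨i, j, hij, h1, h2⟩
    · rw [h]; exact Nat.zero_le _
    · rw [h2]
      have hi : i ≠ Fin.last _ := (lt_of_lt_of_le hij (Fin.le_last j)).ne
      obtain ⟨i', rfl⟩ := Fin.exists_castSucc_eq.2 hi
      by_cases hj : j = Fin.last _
      · subst hj
        rw [app_castSucc, app_last] at h1
        have := le_mx e i'
        omega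
      · obtain ⟨j', rfl⟩ := Fin.exists_castSucc_eq.2 hj
        rw [app_castSucc, app_castSucc] at h1
        rw [app_castSucc]
        exact le_bb (by simpa using hij) h1
  · rcases bb_cases e with h | ⟨i, j, hij, h1, h2⟩
    · rw [h]; exact Nat.zero_le _
    · rw [h2, ← app_castSucc e v j]
      exact le_bb (i := i.castSucc) (by simpa using hij) (by simpa using h1)

theorem bb_app_of_lt {m : ℕ} {e : Fin (m + 1) → ℕ} {v : ℕ} (hv : v < mx e) (hb : bb e ≤ v) :
    bb (app e v) = v := by
  apply le_antisymm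
  · rcases bb_cases (app e v) with h | ⟨i, j, hij, h1, h2⟩
    · rw [h]; exact Nat.zero_le _
    · rw [h2]
      have hi : i ≠ Fin.last _ := (lt_of_lt_of_le hij (Fin.le_last j)).ne
      obtain ⟨i', rfl⟩ := Fin.exists_castSucc_eq.2 hi
      by_cases hj : j = Fin.last _
      · subst hj
        rw [app_last]
      · obtain ⟨j', rfl⟩ := Fin.exists_castSucc_eq.2 hj
        rw [app_castSucc, app_castSucc] at h1
        rw [app_castSucc]
        exact (le_bb (by simpa using hij) h1).trans hb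
  · obtain ⟨i, hi⟩ := exists_mx e
    have := le_bb (e := app e v) (i := i.castSucc) (j := Fin.last _) (Fin.castSucc_lt_last i)
      (by rw [app_castSucc, app_last]; omega)
    rwa [app_last] at this

theorem bb_le_mx {m : ℕ} (e : Fin (m + 1) → ℕ) : bb e ≤ mx e := by
  rcases bb_cases e with h | ⟨i, j, hij, h1, h2⟩
  · rw [h]; exact Nat.zero_le _
  · rw [h2]; exact le_mx e j

theorem bb_eq_last {m : ℕ} {e : Fin (m + 1) → ℕ} (h : A210 e) (hl : e (Fin.last m) ≠ mx e) :
    bb e = e (Fin.last m) := by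
  obtain ⟨p, hp⟩ := exists_mx e
  have hlt : e (Fin.last m) < e p := by
    have := le_mx e (Fin.last m)
    omega
  have hpl : p < Fin.last m := by
    apply lt_of_le_of_ne (Fin.le_last p)
    rintro rfl
    exact hl hp
  apply le_antisymm
  · rcases bb_cases e with h0 | ⟨i, j, hij, h1, h2⟩
    · rw [h0]; exact Nat.zero_le _
    · rw [h2]
      by_contra hc
      push Not at hc
      have hjl : j < Fin.last m := by
        apply lt_of_le_of_ne (Fin.le_last j)
        rintro rfl
        exact lt_irrefl _ hc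
      exact h i j (Fin.last m) hij hjl ⟨h1, hc⟩
  · exact le_bb hpl hlt

theorem mx_le_wasc {m : ℕ} {e : Fin (m + 1) → ℕ} (h : WAS e) : mx e ≤ 1 + wasc e (m + 1) := by
  obtain ⟨i, hi⟩ := exists_mx e
  rw [← hi]
  have h1 := h i
  split_ifs at h1 with h2
  · omega
  · have h3 : wasc e i ≤ wasc e (m + 1) := by
      unfold wasc
      apply card_le_card
      apply filter_subset_filter
      intro x hx
      rw [mem_range] at hx ⊢
      have := i.2
      omega
    omega

/-- the first label -/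
def lh {m : ℕ} (e : Fin (m + 1) → ℕ) : ℕ :=
  if e (Fin.last m) = mx e then 1 + wasc e (m + 1) - mx e else 1 + wasc e (m + 1) - mx e + 1

/-- the second label -/
def lk {m : ℕ} (e : Fin (m + 1) → ℕ) : ℕ :=
  if e (Fin.last m) = mx e then mx e - bb e + 1 else mx e - bb e

open Classical in
/-- one step of the generating tree for the weak ascent sequences -/
theorem was_step (N : ℕ) {m : ℕ} {e : Fin (m + 1) → ℕ} (he : WAS e) (hav : A210 e) :
    ∑ v ∈ range (m + 2), (if WAS (app e v) ∧ A210 (app e v) then T N (lh (app e v)) (lk (app e v))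
      else 0) = T (N + 1) (lh e) (lk e) := by
  have hM := mx_le_wasc he
  have hb := bb_le_mx e
  have hw : wasc e (m + 1) ≤ m := by
    unfold wasc
    exact (card_filter_le _ _).trans (by simp)
  set M := mx e with hMdef
  set w := wasc e (m + 1) with hwdef
  set b := bb e with hbdef
  set l := e (Fin.last m) with hldef
  have hl : l ≤ M := le_mx e _
  have hcond : ∀ v, (WAS (app e v) ∧ A210 (app e v)) ↔ b ≤ v ∧ v ≤ 1 + w := by
    intro v
    rw [was_app, a210_app]
    constructor
    · rintro ⟨⟨_, h1⟩, _, h2⟩; exact ⟨h2, h1⟩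
    · rintro ⟨h1, h2⟩; exact ⟨⟨he, h2⟩, hav, h1⟩
  have h1 : ∑ v ∈ range (m + 2), (if WAS (app e v) ∧ A210 (app e v) then
      T N (lh (app e v)) (lk (app e v)) else 0) =
      ∑ v ∈ Icc b (1 + w), T N (lh (app e v)) (lk (app e v)) := by
    simp only [hcond]
    rw [← sum_filter]
    apply sum_congr _ (fun _ _ => rfl)
    ext v
    rw [mem_filter, mem_range, mem_Icc]
    omega
  have hsplit : Icc b (1 + w) = (Ico b M ∪ {M}) ∪ Icc (M + 1) (1 + w) := by
    ext v
    rw [mem_union, mem_union, mem_Icc, mem_Ico, mem_singleton, mem_Icc]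
    omega
  have hd1 : Disjoint (Ico b M ∪ {M}) (Icc (M + 1) (1 + w)) := by
    rw [disjoint_left]
    intro v h1 h2
    rw [mem_union, mem_Ico, mem_singleton] at h1
    rw [mem_Icc] at h2
    omega
  have hd2 : Disjoint (Ico b M) {M} := by
    rw [disjoint_left]
    intro v h1 h2
    rw [mem_Ico] at h1
    rw [mem_singleton] at h2
    omega
  rw [h1, hsplit, sum_union hd1, sum_union hd2, sum_singleton]
  -- the label of a child above the maximum
  have up : ∀ v ∈ Icc (M + 1) (1 + w), T N (lh (app e v)) (lk (app e v)) =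
      T N (1 + w - M + 1 - (v - M)) (M - b + 1 + (v - M)) := by
    intro v hv
    rw [mem_Icc] at hv
    have h2 : mx (app e v) = v := by rw [mx_app, max_eq_right (by omega)]
    have h3 : (app e v) (Fin.last (m + 1)) = v := app_last e v
    have h4 : wasc (app e v) (m + 1 + 1) = w + 1 := by
      rw [wasc_app, if_pos (by omega)]
    have h5 : bb (app e v) = b := bb_app_of_ge (by omega)
    unfold lh lk
    rw [h2, h3, h4, h5, if_pos rfl, if_pos rfl]
    congr 1 <;> omega
  have mid : T N (lh (app e M)) (lk (app e M)) = T N (1 + w - M + 1) (M - b + 1) := by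
    have h2 : mx (app e M) = M := by rw [mx_app, max_eq_right (by omega)]
    have h3 : (app e M) (Fin.last (m + 1)) = M := app_last e M
    have h4 : wasc (app e M) (m + 1 + 1) = w + 1 := by
      rw [wasc_app, if_pos hl]
    have h5 : bb (app e M) = b := bb_app_of_ge (le_refl _)
    unfold lh lk
    rw [h2, h3, h4, h5, if_pos rfl, if_pos rfl]
    congr 1; omega
  have upsum : ∑ v ∈ Icc (M + 1) (1 + w), T N (lh (app e v)) (lk (app e v)) =
      ∑ j ∈ Icc 1 (1 + w - M), T N (1 + w - M + 1 - j) (M - b + 1 + j) := by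
    rw [sum_congr rfl up]
    refine Finset.sum_bij' (fun v _ => v - M) (fun j _ => M + j) ?_ ?_ ?_ ?_ ?_
    · intro v hv; rw [mem_Icc] at hv ⊢; omega
    · intro j hj; rw [mem_Icc] at hj ⊢; omega
    · intro v hv; rw [mem_Icc] at hv; omega
    · intro j hj; omega
    · intro v hv; rfl
  rw [upsum, mid]
  have low : ∀ v ∈ Ico b M, ∀ c, (wasc (app e v) (m + 1 + 1) = c) →
      T N (lh (app e v)) (lk (app e v)) = T N (1 + c - M + 1) (M - v) := by
    intro v hv c hc
    rw [mem_Ico] at hv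
    have h2 : mx (app e v) = M := by rw [mx_app, max_eq_left (by omega)]
    have h3 : (app e v) (Fin.last (m + 1)) = v := app_last e v
    have h5 : bb (app e v) = v := bb_app_of_lt (by omega) (by omega)
    unfold lh lk
    rw [h2, h3, hc, h5, if_neg (by omega), if_neg (by omega)]
  have lowsum : ∀ g : ℕ → ℕ, ∑ v ∈ Ico b M, g (M - v) = ∑ r ∈ Icc 1 (M - b), g r := by
    intro g
    refine Finset.sum_bij' (fun v _ => M - v) (fun r _ => M - r) ?_ ?_ ?_ ?_ ?_
    · intro v hv; rw [mem_Ico] at hv; rw [mem_Icc]; omega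
    · intro r hr; rw [mem_Icc] at hr; rw [mem_Ico]; omega
    · intro v hv; rw [mem_Ico] at hv; omega
    · intro r hr; rw [mem_Icc] at hr; omega
    · intro v hv; rfl
  by_cases hlM : l = M
  · -- the last entry is a maximum
    have e1 : lh e = 1 + w - M := by unfold lh; rw [if_pos hlM]
    have e2 : lk e = M - b + 1 := by unfold lk; rw [if_pos hlM]
    have e3 : ∑ v ∈ Ico b M, T N (lh (app e v)) (lk (app e v)) =
        ∑ r ∈ Icc 1 (M - b), T N (1 + w - M + 1) r := by
      rw [← lowsum]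
      refine sum_congr rfl (fun v hv => ?_)
      refine low v hv w ?_
      rw [mem_Ico] at hv
      rw [wasc_app, if_neg (by omega)]
      rfl
    rw [e1, e2, e3, T]
    rw [← Finset.insert_Icc_right_eq_Icc_add_one (a := 1) (b := M - b) (by omega),
      sum_insert (by simp)]
    ring
  · -- the last entry is not a maximum
    have hbl : b = l := bb_eq_last hav hlM
    have e1 : lh e = 1 + w - M + 1 := by unfold lh; rw [if_neg hlM]
    have e2 : lk e = M - b := by unfold lk; rw [if_neg hlM]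
    have e3 : ∑ v ∈ Ico b M, T N (lh (app e v)) (lk (app e v)) =
        ∑ r ∈ Icc 1 (M - b), T N (1 + w - M + 1 + 1) r := by
      rw [← lowsum]
      refine sum_congr rfl (fun v hv => ?_)
      rw [low v hv (w + 1) (by
        rw [mem_Ico] at hv
        rw [wasc_app, if_pos (by omega)])]
      congr 1
      omega
    rw [e1, e2, e3, T]
    have e4 : ∑ j ∈ Icc 1 (1 + w - M + 1), T N (1 + w - M + 1 + 1 - j) (M - b + j) =
        T N (1 + w - M + 1) (M - b + 1) +
        ∑ j ∈ Icc 1 (1 + w - M), T N (1 + w - M + 1 - j) (M - b + 1 + j) := by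
      rw [← Finset.add_sum_Ioc_eq_sum_Icc (by omega)]
      congr 1
      refine Finset.sum_bij' (fun j _ => j - 1) (fun j _ => j + 1) ?_ ?_ ?_ ?_ ?_
      · intro j hj; rw [mem_Ioc] at hj; rw [mem_Icc]; omega
      · intro j hj; rw [mem_Icc] at hj; rw [mem_Ioc]; omega
      · intro j hj; rw [mem_Ioc] at hj; omega
      · intro j hj; omega
      · intro j hj
        rw [mem_Ioc] at hj
        congr 1 <;> omega
    rw [e4]
    ring

open Classical in
/-- sum of the tree sizes -/
noncomputable def SW (m N : ℕ) : ℕ :=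
  ∑ e ∈ IS (m + 1), if WAS e ∧ A210 e then T N (lh e) (lk e) else 0

theorem SW_succ (m N : ℕ) : SW (m + 1) N = SW m (N + 1) := by
  classical
  unfold SW
  rw [sum_IS]
  refine sum_congr rfl (fun e he => ?_)
  split_ifs with h
  · exact was_step N h.1 h.2
  · apply sum_eq_zero
    intro x _
    rw [if_neg]
    rintro ⟨h1, h2⟩
    exact h ⟨((was_app e x).1 h1).1, ((a210_app e x).1 h2).1⟩

theorem SW_eq (m N : ℕ) : SW m N = SW 0 (N + m) := by
  induction m generalizing N with
  | zero => rfl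
  | succ m ih => rw [SW_succ, ih]; congr 1; omega

theorem SW_zero (N : ℕ) : SW 0 N = T N 1 1 := by
  classical
  unfold SW
  have h0 : IS 1 = {fun _ => 0} := by
    ext e
    rw [mem_IS, mem_singleton]
    constructor
    · intro h
      funext i
      have := h i
      omega
    · rintro rfl i; exact Nat.zero_le _
  have h1 : WAS (fun _ : Fin 1 => 0) := fun i => Nat.zero_le _
  have h1' : A210 (fun _ : Fin 1 => 0) := by
    intro i j k _ _ h
    omega
  have h2 : mx (fun _ : Fin 1 => 0) = 0 := by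
    unfold mx
    simp
  have h3 : bb (fun _ : Fin 1 => 0) = 0 := by
    have := bb_le_mx (fun _ : Fin 1 => 0)
    omega
  have h4 : wasc (fun _ : Fin 1 => 0) 1 = 0 := by
    unfold wasc; simp
  rw [h0, sum_singleton, if_pos ⟨h1, h1'⟩]
  unfold lh lk
  rw [h2, h3, h4]
  rfl

theorem card_was (n : ℕ) : Nat.card {e : Fin (n + 1) → ℕ // WAS e ∧ A210 e} = T n 1 1 := by
  classical
  have h : ((IS (n + 1)).filter (fun e => WAS e ∧ A210 e)).card = SW n 0 := by
    unfold SW
    rw [card_filter]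
    rfl
  have h' : SW n 0 = T n 1 1 := by rw [SW_eq, SW_zero, zero_add]
  rw [← h', ← h, ← Nat.card_eq_finsetCard]
  apply Nat.card_congr
  apply Equiv.subtypeEquivRight
  intro e
  rw [mem_filter]
  exact ⟨fun h => ⟨was_mem_IS h.1, h⟩, fun h => h.2⟩

end Q161.SemiBaxter
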