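import Mathlib

set_option autoImplicit false
open scoped BigOperators

/-!
# The matching sums `Z q p I J`

`Z q p I J` is the coefficient of `∏_{j ∈ J} x_j` in `∏_{i ∈ I} (q_i + ∑_j p_ij x_j)`, that is the sum
over all injections `μ : J → I` of `∏_j p_{μ(j) j} ∏_{i ∉ μ(J)} q_i`. Row and column expansions,
products, scaling.
-/

namespace Pool.Agent.Q161.Sh

open MvPolynomial Finset

section ring

variable {R : Type*} [CommRing R] {ι κ : Type*} [DecidableEq ι] [DecidableEq κ] [Fintype κ]

/-- the linear form of the row `i` -/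
noncomputable def lin (q : ι → R) (p : ι → κ → R) (i : ι) : MvPolynomial κ R :=
  C (q i) + ∑ j, C (p i j) * X j

/-- the indicator function of a set of columns -/
noncomputable def ind (J : Finset κ) : κ →₀ ℕ := ∑ j ∈ J, Finsupp.single j 1

omit [Fintype κ] in
lemma ind_apply (J : Finset κ) (j : κ) : ind J j = if j ∈ J then 1 else 0 := by
  classical
  rw [ind, Finsupp.finsetSum_apply]
  simp [Finsupp.single_apply]

omit [Fintype κ] in
lemma mem_ind_support (J : Finset κ) (j : κ) : j ∈ (ind J).support ↔ j ∈ J := by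
  rw [Finsupp.mem_support_iff, ind_apply]
  split_ifs with h <;> simp [h]

omit [Fintype κ] in
lemma ind_sub (J : Finset κ) (j : κ) (hj : j ∈ J) :
    ind J - Finsupp.single j 1 = ind (J.erase j) := by
  ext a
  rw [Finsupp.tsub_apply, ind_apply, ind_apply, Finsupp.single_apply]
  by_cases h : a = j
  · subst h; simp [hj]
  · have h' : ¬ j = a := fun e => h e.symm
    rw [if_neg h']
    simp [h]

/-- the sum over the matchings of the columns `J` into the rows `I` -/
noncomputable def Z (q : ι → R) (p : ι → κ → R) (I : Finset ι) (J : Finset κ) : R :=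
  coeff (ind J) (∏ i ∈ I, lin q p i)

variable (q : ι → R) (p : ι → κ → R)

omit [DecidableEq ι] in
lemma Z_empty_rows (J : Finset κ) : Z q p (∅ : Finset ι) J = if J = ∅ then 1 else 0 := by
  rw [Z, prod_empty, coeff_one]
  have : (0 = ind J) ↔ J = ∅ := by
    constructor
    · intro h
      rw [Finset.eq_empty_iff_forall_notMem]
      intro j hj
      have := ind_apply J j
      rw [← h, if_pos hj] at this
      simp at this
    · rintro rfl
      simp [ind]
  simp only [this]

/-- row expansion -/
lemma Z_row (i : ι) (I : Finset ι) (hi : i ∉ I) (J : Finset κ) :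
    Z q p (insert i I) J = q i * Z q p I J + ∑ j ∈ J, p i j * Z q p I (J.erase j) := by
  unfold Z
  rw [prod_insert hi]
  conv_lhs => rw [lin]
  rw [add_mul, coeff_add, coeff_C_mul, sum_mul, coeff_sum]
  congr 1
  have h1 : ∀ j : κ, coeff (ind J) (C (p i j) * X j * ∏ x ∈ I, lin q p x) =
      if j ∈ J then p i j * coeff (ind (J.erase j)) (∏ x ∈ I, lin q p x) else 0 := by
    intro j
    rw [mul_assoc, coeff_C_mul, coeff_X_mul']
    by_cases h : j ∈ J
    · rw [if_pos ((mem_ind_support J j).2 h), if_pos h, ind_sub J j h]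
    · rw [if_neg (fun h' => h ((mem_ind_support J j).1 h')), if_neg h, mul_zero]
  rw [Finset.sum_congr rfl fun j _ => h1 j, Finset.sum_ite_mem, Finset.univ_inter]

lemma Z_row' (i : ι) (I : Finset ι) (hi : i ∈ I) (J : Finset κ) :
    Z q p I J = q i * Z q p (I.erase i) J + ∑ j ∈ J, p i j * Z q p (I.erase i) (J.erase j) := by
  have := Z_row q p i (I.erase i) (notMem_erase i I) J
  rwa [insert_erase hi] at this

/-- column expansion -/
lemma Z_col (j : κ) (J : Finset κ) (hj : j ∉ J) (I : Finset ι) :
    Z q p I (insert j J) = ∑ i ∈ I, p i j * Z q p (I.erase i) J := by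
  induction I using Finset.induction generalizing J with
  | empty =>
    rw [Z_empty_rows, sum_empty, if_neg (insert_ne_empty j J)]
  | insert i I hi ih =>
    rw [Z_row q p i I hi, ih J hj, sum_insert hj, erase_insert hj]
    rw [sum_insert hi, erase_insert hi]
    have h1 : ∀ j' ∈ J, Z q p I ((insert j J).erase j') =
        ∑ i' ∈ I, p i' j * Z q p (I.erase i') (J.erase j') := by
      intro j' hj'
      have hne : j ≠ j' := by rintro rfl; exact hj hj'
      rw [erase_insert_of_ne hne, ih (J.erase j') (fun h => hj (mem_of_mem_erase h))]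
    have h1' : ∑ j' ∈ J, p i j' * Z q p I ((insert j J).erase j') =
        ∑ i' ∈ I, ∑ j' ∈ J, p i' j * (p i j' * Z q p (I.erase i') (J.erase j')) := by
      rw [sum_comm]
      apply sum_congr rfl
      intro j' hj'
      rw [h1 j' hj', mul_sum]
      apply sum_congr rfl
      intro i' _
      ring
    have h2 : ∀ i' ∈ I, p i' j * Z q p ((insert i I).erase i') J =
        q i * (p i' j * Z q p (I.erase i') J) +
        ∑ j' ∈ J, p i' j * (p i j' * Z q p (I.erase i') (J.erase j')) := by
      intro i' hi'
      have hne : i ≠ i' := by rintro rfl; exact hi hi'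
      rw [erase_insert_of_ne hne, Z_row q p i _ (fun h => hi (mem_of_mem_erase h)), mul_add, mul_sum]
      ring
    rw [sum_congr rfl h2, sum_add_distrib, h1', mul_sum]
    ring

lemma Z_col' (j : κ) (J : Finset κ) (hj : j ∈ J) (I : Finset ι) :
    Z q p I J = ∑ i ∈ I, p i j * Z q p (I.erase i) (J.erase j) := by
  have := Z_col q p j (J.erase j) (notMem_erase j J) I
  rwa [insert_erase hj] at this

lemma Z_empty_cols (I : Finset ι) : Z q p I (∅ : Finset κ) = ∏ i ∈ I, q i := by
  induction I using Finset.induction with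
  | empty => rw [Z_empty_rows]; simp
  | insert i I hi ih => rw [Z_row q p i I hi, prod_insert hi, ih]; simp

/-- only the entries in the given rows and columns matter -/
lemma Z_congr {q' : ι → R} {p' : ι → κ → R} (I : Finset ι) (J : Finset κ)
    (hq : ∀ i ∈ I, q i = q' i) (hp : ∀ i ∈ I, ∀ j ∈ J, p i j = p' i j) :
    Z q p I J = Z q' p' I J := by
  induction I using Finset.induction generalizing J with
  | empty => rw [Z_empty_rows, Z_empty_rows]
  | insert i I hi ih =>
    rw [Z_row q p i I hi, Z_row q' p' i I hi, hq i (mem_insert_self i I)]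
    rw [ih J (fun i' hi' => hq i' (mem_insert_of_mem hi'))
      (fun i' hi' => hp i' (mem_insert_of_mem hi'))]
    congr 1
    apply sum_congr rfl
    intro j hj
    rw [hp i (mem_insert_self i I) j hj, ih (J.erase j) (fun i' hi' => hq i' (mem_insert_of_mem hi'))
      (fun i' hi' j' hj' => hp i' (mem_insert_of_mem hi') j' (mem_of_mem_erase hj'))]

/-- scaling of the rows and columns -/
lemma Z_scale (l : ι → R) (t : κ → R) (I : Finset ι) (J : Finset κ) :
    Z (fun i => l i * q i) (fun i j => l i * p i j * t j) I J =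
      (∏ i ∈ I, l i) * (∏ j ∈ J, t j) * Z q p I J := by
  induction I using Finset.induction generalizing J with
  | empty =>
    rw [Z_empty_rows, Z_empty_rows]
    split_ifs with h
    · subst h; simp
    · simp
  | insert i I hi ih =>
    rw [Z_row _ _ i I hi, Z_row q p i I hi, ih, prod_insert hi, mul_add]
    congr 1
    · ring
    · rw [mul_sum]
      apply sum_congr rfl
      intro j hj
      rw [ih, ← mul_prod_erase J t hj]
      ring

/-- exact product formula -/
lemma Z_disj (I1 I2 : Finset ι) (hI : Disjoint I1 I2) (J1 J2 : Finset κ) (hJ : Disjoint J1 J2)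
    (h12 : ∀ i ∈ I1, ∀ j ∈ J2, p i j = 0) (h21 : ∀ i ∈ I2, ∀ j ∈ J1, p i j = 0) :
    Z q p (I1 ∪ I2) (J1 ∪ J2) = Z q p I1 J1 * Z q p I2 J2 := by
  induction I1 using Finset.induction generalizing J1 with
  | empty =>
    rw [Z_empty_rows, empty_union]
    by_cases h : J1 = ∅
    · subst h; simp
    · rw [if_neg h, zero_mul]
      obtain ⟨j, hj⟩ := nonempty_iff_ne_empty.2 h
      rw [Z_col' q p j _ (mem_union_left _ hj)]
      apply sum_eq_zero
      intro i hi
      rw [h21 i hi j hj, zero_mul]
  | insert i I hi ih =>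
    have hI' : Disjoint I I2 := disjoint_of_subset_left (subset_insert i I) hI
    have hi2 : i ∉ I2 := fun h => (disjoint_left.1 hI) (mem_insert_self i I) h
    rw [insert_union, Z_row q p i _ (by simp [hi, hi2]), Z_row q p i I hi]
    have h12' : ∀ i ∈ I, ∀ j ∈ J2, p i j = 0 := fun i' hi' => h12 i' (mem_insert_of_mem hi')
    rw [ih hI' J1 hJ h12' h21, sum_union hJ]
    have e1 : ∑ j ∈ J2, p i j * Z q p (I ∪ I2) ((J1 ∪ J2).erase j) = 0 := by
      apply sum_eq_zero
      intro j hj
      rw [h12 i (mem_insert_self i I) j hj, zero_mul]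
    have e2 : ∀ j ∈ J1, p i j * Z q p (I ∪ I2) ((J1 ∪ J2).erase j) =
        p i j * Z q p I (J1.erase j) * Z q p I2 J2 := by
      intro j hj
      have hj2 : j ∉ J2 := fun h => (disjoint_left.1 hJ) hj h
      rw [erase_union_distrib, erase_eq_of_notMem hj2,
        ih hI' (J1.erase j) (disjoint_of_subset_left (erase_subset j J1) hJ) h12'
          (fun i' hi' j' hj' => h21 i' hi' j' (mem_of_mem_erase hj')), mul_assoc]
    rw [e1, add_zero, sum_congr rfl e2, add_mul, sum_mul, mul_assoc]

/-- change of the columns along an embedding -/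
lemma Z_map_cols {κ' : Type*} [DecidableEq κ'] [Fintype κ'] (e : κ' ↪ κ) (I : Finset ι)
    (J : Finset κ') : Z q (fun i j => p i (e j)) I J = Z q p I (J.map e) := by
  induction I using Finset.induction generalizing J with
  | empty => rw [Z_empty_rows, Z_empty_rows]; simp only [map_eq_empty]
  | insert i I hi ih =>
    rw [Z_row _ _ i I hi, Z_row q p i I hi, ih, sum_map]
    congr 1
    apply sum_congr rfl
    intro j hj
    rw [ih, map_erase]

omit [DecidableEq ι] [DecidableEq κ] in
/-- change of the rows along an embedding -/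
lemma Z_map_rows {ι' : Type*} (e : ι' ↪ ι) (I : Finset ι')
    (J : Finset κ) : Z (fun i => q (e i)) (fun i j => p (e i) j) I J = Z q p (I.map e) J := by
  unfold Z
  rw [prod_map]
  rfl

/-- change of rings -/
lemma Z_map_ring {S : Type*} [CommRing S] (φ : R →+* S) (I : Finset ι) (J : Finset κ) :
    φ (Z q p I J) = Z (fun i => φ (q i)) (fun i j => φ (p i j)) I J := by
  induction I using Finset.induction generalizing J with
  | empty =>
    rw [Z_empty_rows, Z_empty_rows]
    split_ifs <;> simp
  | insert i I hi ih =>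
    rw [Z_row q p i I hi, Z_row _ _ i I hi, map_add, map_mul, ih, map_sum]
    congr 1
    apply sum_congr rfl
    intro j hj
    rw [map_mul, ih]

end ring

section real

variable {ι κ : Type*} [DecidableEq ι] [DecidableEq κ] [Fintype κ] (q : ι → ℝ) (p : ι → κ → ℝ)

lemma Z_nonneg (I : Finset ι) (J : Finset κ) (hq : ∀ i ∈ I, 0 ≤ q i)
    (hp : ∀ i ∈ I, ∀ j ∈ J, 0 ≤ p i j) : 0 ≤ Z q p I J := by
  induction I using Finset.induction generalizing J with
  | empty =>
    rw [Z_empty_rows]
    split_ifs <;> norm_num
  | insert i I hi ih =>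
    rw [Z_row q p i I hi]
    apply add_nonneg
    · exact mul_nonneg (hq i (mem_insert_self i I)) (ih J (fun i' h => hq i' (mem_insert_of_mem h))
        (fun i' h => hp i' (mem_insert_of_mem h)))
    · apply sum_nonneg
      intro j hj
      exact mul_nonneg (hp i (mem_insert_self i I) j hj)
        (ih _ (fun i' h => hq i' (mem_insert_of_mem h))
        (fun i' h j' hj' => hp i' (mem_insert_of_mem h) j' (mem_of_mem_erase hj')))

/-- product inequality -/
lemma Z_super (I1 I2 : Finset ι) (hI : Disjoint I1 I2) (J1 J2 : Finset κ) (hJ : Disjoint J1 J2)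
    (hq : ∀ i ∈ I1 ∪ I2, 0 ≤ q i) (hp : ∀ i ∈ I1 ∪ I2, ∀ j ∈ J1 ∪ J2, 0 ≤ p i j) :
    Z q p I1 J1 * Z q p I2 J2 ≤ Z q p (I1 ∪ I2) (J1 ∪ J2) := by
  induction I1 using Finset.induction generalizing J1 with
  | empty =>
    rw [Z_empty_rows, empty_union]
    by_cases h : J1 = ∅
    · subst h; simp
    · rw [if_neg h, zero_mul]
      apply Z_nonneg
      · intro i hi; exact hq i (mem_union_right _ hi)
      · intro i hi j hj; exact hp i (mem_union_right _ hi) j hj
  | insert i I hi ih =>
    have hI' : Disjoint I I2 := disjoint_of_subset_left (subset_insert i I) hI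
    have hi2 : i ∉ I2 := fun h => (disjoint_left.1 hI) (mem_insert_self i I) h
    have hs : I ∪ I2 ⊆ insert i I ∪ I2 := by
      rw [insert_union]; exact subset_insert _ _
    have hi3 : i ∈ insert i I ∪ I2 := mem_union_left _ (mem_insert_self i I)
    rw [insert_union, Z_row q p i (I ∪ I2) (by simp [hi, hi2]), Z_row q p i I hi, add_mul,
      sum_union hJ]
    have e0 := ih hI' J1 hJ (fun i' h => hq i' (hs h)) (fun i' h => hp i' (hs h))
    have e1 : 0 ≤ ∑ j ∈ J2, p i j * Z q p (I ∪ I2) ((J1 ∪ J2).erase j) := by
      apply sum_nonneg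
      intro j hj
      apply mul_nonneg (hp i hi3 j (mem_union_right _ hj))
      apply Z_nonneg
      · intro i' h; exact hq i' (hs h)
      · intro i' h j' hj'; exact hp i' (hs h) j' (mem_of_mem_erase hj')
    have e2 : (∑ j ∈ J1, p i j * Z q p I (J1.erase j)) * Z q p I2 J2 ≤
        ∑ j ∈ J1, p i j * Z q p (I ∪ I2) ((J1 ∪ J2).erase j) := by
      rw [sum_mul]
      apply sum_le_sum
      intro j hj
      have hj2 : j ∉ J2 := fun h => (disjoint_left.1 hJ) hj h
      rw [erase_union_distrib, erase_eq_of_notMem hj2, mul_assoc]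
      apply mul_le_mul_of_nonneg_left _ (hp i hi3 j (mem_union_left _ hj))
      apply ih hI' (J1.erase j) (disjoint_of_subset_left (erase_subset j J1) hJ)
        (fun i' h => hq i' (hs h))
      intro i' h j' hj'
      apply hp i' (hs h) j'
      rcases mem_union.1 hj' with h' | h'
      · exact mem_union_left _ (mem_of_mem_erase h')
      · exact mem_union_right _ h'
    have e3 : q i * Z q p I J1 * Z q p I2 J2 ≤ q i * Z q p (I ∪ I2) (J1 ∪ J2) := by
      rw [mul_assoc]
      exact mul_le_mul_of_nonneg_left e0 (hq i hi3)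
    linarith

/-- continuity -/
lemma Z_cont {α : Type*} [TopologicalSpace α] (q : α → ι → ℝ) (p : α → ι → κ → ℝ)
    (hq : ∀ i, Continuous fun a => q a i) (hp : ∀ i j, Continuous fun a => p a i j)
    (I : Finset ι) (J : Finset κ) : Continuous fun a => Z (q a) (p a) I J := by
  induction I using Finset.induction generalizing J with
  | empty =>
    simp only [Z_empty_rows]
    exact continuous_const
  | insert i I hi ih =>
    simp only [Z_row _ _ i I hi]
    apply Continuous.add
    · exact (hq i).mul (ih J)
    · apply continuous_finsetSum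
      intro j _
      exact (hp i j).mul (ih _)

end real

end Pool.Agent.Q161.Sh
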