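import Pool.Agent.Q161.ShA

set_option autoImplicit false
open scoped BigOperators

/-!
# The exchange identity and the two-fold cover

`Dl I J i₀ j₀ = Z I J * Z (I - i₀) (J - j₀) - Z (I - i₀) J * Z I (J - j₀)` is a sum over the paths from
`j₀` to `i₀`; the square of `Z I J` exceeds the matching sum of the two-fold cover in which the edge
`(i₀, j₀)` is crossed by `2 p_{i₀ j₀} Dl`.
-/

namespace Pool.Agent.Q161.Sh

open Finset

variable {ι κ : Type*} [DecidableEq ι] [DecidableEq κ] [Fintype κ] (q : ι → ℝ) (p : ι → κ → ℝ)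

/-- the exchange difference -/
noncomputable def Dl (I : Finset ι) (J : Finset κ) (i0 : ι) (j0 : κ) : ℝ :=
  Z q p I J * Z q p (I.erase i0) (J.erase j0) - Z q p (I.erase i0) J * Z q p I (J.erase j0)

lemma Dl_rec (I : Finset ι) (J : Finset κ) (i0 : ι) (j0 : κ) (hi : i0 ∈ I) (hj : j0 ∈ J) :
    Dl q p I J i0 j0 = p i0 j0 * (Z q p (I.erase i0) (J.erase j0)) ^ 2 +
      ∑ i ∈ I.erase i0, ∑ j ∈ J.erase j0,
        p i j0 * p i j * Dl q p (I.erase i) (J.erase j0) i0 j := by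
  have key : ∀ i ∈ I.erase i0, ∑ j ∈ J.erase j0,
      p i j0 * p i j * Dl q p (I.erase i) (J.erase j0) i0 j =
      p i j0 * (Z q p (I.erase i) (J.erase j0) * Z q p (I.erase i0) (J.erase j0) -
        Z q p ((I.erase i0).erase i) (J.erase j0) * Z q p I (J.erase j0)) := by
    intro i hi'
    have hiI : i ∈ I := mem_of_mem_erase hi'
    rw [Z_row' q p i (I.erase i0) hi' (J.erase j0), Z_row' q p i I hiI (J.erase j0)]
    have e1 : ∀ j ∈ J.erase j0, p i j0 * p i j * Dl q p (I.erase i) (J.erase j0) i0 j =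
        p i j0 * (Z q p (I.erase i) (J.erase j0) *
          (p i j * Z q p ((I.erase i0).erase i) ((J.erase j0).erase j))) -
        p i j0 * (Z q p ((I.erase i0).erase i) (J.erase j0) *
          (p i j * Z q p (I.erase i) ((J.erase j0).erase j))) := by
      intro j _
      rw [Dl, erase_right_comm (a := i) (b := i0)]
      ring
    rw [sum_congr rfl e1, sum_sub_distrib, ← mul_sum, ← mul_sum, ← mul_sum, ← mul_sum]
    ring
  rw [sum_congr rfl key]
  rw [Dl, Z_col' q p j0 J hj I, Z_col' q p j0 J hj (I.erase i0)]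
  rw [← add_sum_erase I _ hi]
  have e2 : ∑ i ∈ I.erase i0, p i j0 * (Z q p (I.erase i) (J.erase j0) *
      Z q p (I.erase i0) (J.erase j0) -
        Z q p ((I.erase i0).erase i) (J.erase j0) * Z q p I (J.erase j0)) =
      (∑ i ∈ I.erase i0, p i j0 * Z q p (I.erase i) (J.erase j0)) *
        Z q p (I.erase i0) (J.erase j0) -
      (∑ i ∈ I.erase i0, p i j0 * Z q p ((I.erase i0).erase i) (J.erase j0)) *
        Z q p I (J.erase j0) := by
    rw [sum_mul, sum_mul, ← sum_sub_distrib]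
    apply sum_congr rfl
    intro i _
    ring
  rw [e2]
  ring

lemma Dl_nonneg (n : ℕ) : ∀ (I : Finset ι) (J : Finset κ) (i0 : ι) (j0 : κ), J.card = n →
    i0 ∈ I → j0 ∈ J → (∀ i ∈ I, 0 ≤ q i) → (∀ i ∈ I, ∀ j ∈ J, 0 ≤ p i j) →
    0 ≤ Dl q p I J i0 j0 := by
  induction n with
  | zero =>
    intro I J i0 j0 hc _ hj
    rw [card_eq_zero] at hc
    rw [hc] at hj
    simp at hj
  | succ n ih =>
    intro I J i0 j0 hc hi hj hq hp
    rw [Dl_rec q p I J i0 j0 hi hj]
    apply add_nonneg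
    · exact mul_nonneg (hp i0 hi j0 hj) (sq_nonneg _)
    · apply sum_nonneg
      intro i hi'
      apply sum_nonneg
      intro j hj'
      have hiI : i ∈ I := mem_of_mem_erase hi'
      have hjJ : j ∈ J := mem_of_mem_erase hj'
      apply mul_nonneg (mul_nonneg (hp i hiI j0 hj) (hp i hiI j hjJ))
      apply ih (I.erase i) (J.erase j0) i0 j
      · rw [card_erase_of_mem hj, hc]; rfl
      · exact mem_erase.2 ⟨(mem_erase.1 hi').1.symm, hi⟩
      · exact hj'
      · intro a ha; exact hq a (mem_of_mem_erase ha)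
      · intro a ha b hb; exact hp a (mem_of_mem_erase ha) b (mem_of_mem_erase hb)

lemma Dl_step_nonneg (I : Finset ι) (J : Finset κ) (i0 : ι) (j0 : κ)
    (hi : i0 ∈ I) (hj : j0 ∈ J) (hq : ∀ i ∈ I, 0 ≤ q i) (hp : ∀ i ∈ I, ∀ j ∈ J, 0 ≤ p i j) :
    ∀ i ∈ I.erase i0, ∀ j ∈ J.erase j0,
      0 ≤ p i j0 * p i j * Dl q p (I.erase i) (J.erase j0) i0 j := by
  intro i hi' j hj'
  have hiI : i ∈ I := mem_of_mem_erase hi'
  have hjJ : j ∈ J := mem_of_mem_erase hj'
  apply mul_nonneg (mul_nonneg (hp i hiI j0 hj) (hp i hiI j hjJ))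
  apply Dl_nonneg q p _ (I.erase i) (J.erase j0) i0 j rfl
  · exact mem_erase.2 ⟨(mem_erase.1 hi').1.symm, hi⟩
  · exact hj'
  · intro a ha; exact hq a (mem_of_mem_erase ha)
  · intro a ha b hb; exact hp a (mem_of_mem_erase ha) b (mem_of_mem_erase hb)

lemma Dl_pos_base (I : Finset ι) (J : Finset κ) (i0 : ι) (j0 : κ)
    (hi : i0 ∈ I) (hj : j0 ∈ J) (hq : ∀ i ∈ I, 0 ≤ q i) (hp : ∀ i ∈ I, ∀ j ∈ J, 0 ≤ p i j)
    (h1 : 0 < p i0 j0) (h2 : 0 < Z q p (I.erase i0) (J.erase j0)) : 0 < Dl q p I J i0 j0 := by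
  rw [Dl_rec q p I J i0 j0 hi hj]
  apply add_pos_of_pos_of_nonneg
  · positivity
  · exact sum_nonneg fun i hi' => sum_nonneg fun j hj' =>
      Dl_step_nonneg q p I J i0 j0 hi hj hq hp i hi' j hj'

lemma Dl_pos_step (I : Finset ι) (J : Finset κ) (i0 : ι) (j0 : κ)
    (hi : i0 ∈ I) (hj : j0 ∈ J) (hq : ∀ i ∈ I, 0 ≤ q i) (hp : ∀ i ∈ I, ∀ j ∈ J, 0 ≤ p i j)
    (i : ι) (j : κ) (hi' : i ∈ I.erase i0) (hj' : j ∈ J.erase j0)
    (h1 : 0 < p i j0) (h2 : 0 < p i j) (h3 : 0 < Dl q p (I.erase i) (J.erase j0) i0 j) :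
    0 < Dl q p I J i0 j0 := by
  rw [Dl_rec q p I J i0 j0 hi hj]
  apply add_pos_of_nonneg_of_pos
  · exact mul_nonneg (hp i0 hi j0 hj) (sq_nonneg _)
  · have hh := Dl_step_nonneg q p I J i0 j0 hi hj hq hp
    apply sum_pos' (fun a ha => sum_nonneg fun b hb => hh a ha b hb)
    refine ⟨i, hi', ?_⟩
    apply sum_pos' (fun b hb => hh i hi' b hb)
    exact ⟨j, hj', by positivity⟩

/-! ### the two-fold cover -/

/-- the matrix without the entry `(i₀, j₀)` -/
def pm (p : ι → κ → ℝ) (i0 : ι) (j0 : κ) : ι → κ → ℝ :=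
  fun i j => if i = i0 ∧ j = j0 then 0 else p i j

/-- the matrix of the two-fold cover with the edge `(i₀, j₀)` crossed -/
def pL (p : ι → κ → ℝ) (i0 : ι) (j0 : κ) : ι ⊕ ι → κ ⊕ κ → ℝ
  | Sum.inl i, Sum.inl j => pm p i0 j0 i j
  | Sum.inr i, Sum.inr j => pm p i0 j0 i j
  | Sum.inl i, Sum.inr j => if i = i0 ∧ j = j0 then p i0 j0 else 0
  | Sum.inr i, Sum.inl j => if i = i0 ∧ j = j0 then p i0 j0 else 0

def qL (q : ι → ℝ) : ι ⊕ ι → ℝ := Sum.elim q q

lemma disjSum_union {α β : Type*} [DecidableEq α] [DecidableEq β] (s : Finset α) (t : Finset β) :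
    s.disjSum t = s.map Function.Embedding.inl ∪ t.map Function.Embedding.inr := by
  ext x
  rcases x with x | x <;> simp

lemma disjSum_erase_inl {α β : Type*} [DecidableEq α] [DecidableEq β] (s : Finset α)
    (t : Finset β) (a : α) : (s.disjSum t).erase (Sum.inl a) = (s.erase a).disjSum t := by
  ext x
  rcases x with x | x <;> simp

lemma disjSum_erase_inr {α β : Type*} [DecidableEq α] [DecidableEq β] (s : Finset α)
    (t : Finset β) (b : β) : (s.disjSum t).erase (Sum.inr b) = s.disjSum (t.erase b) := by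
  ext x
  rcases x with x | x <;> simp

lemma Z_pm (I : Finset ι) (J : Finset κ) (i0 : ι) (j0 : κ) (h : i0 ∉ I) :
    Z q (pm p i0 j0) I J = Z q p I J := by
  apply Z_congr
  · intro i _; rfl
  · intro i hi j _
    have : ¬ (i = i0 ∧ j = j0) := fun h' => h (h'.1 ▸ hi)
    simp only [pm, if_neg this]

lemma lift_a (I : Finset ι) (J1 J2 : Finset κ) (i0 : ι) (j0 : κ) (h : i0 ∉ I) :
    Z (qL q) (pL p i0 j0) (I.disjSum I) (J1.disjSum J2) = Z q p I J1 * Z q p I J2 := by
  rw [disjSum_union, disjSum_union, Z_disj]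
  · congr 1
    · rw [← Z_map_rows, ← Z_map_cols, ← Z_pm q p I J1 i0 j0 h]
      rfl
    · rw [← Z_map_rows, ← Z_map_cols, ← Z_pm q p I J2 i0 j0 h]
      rfl
  · rw [disjoint_left]
    intro x hx hx'
    rw [mem_map] at hx hx'
    obtain ⟨a, _, rfl⟩ := hx
    obtain ⟨b, _, hb⟩ := hx'
    exact absurd hb (by simp)
  · rw [disjoint_left]
    intro x hx hx'
    rw [mem_map] at hx hx'
    obtain ⟨a, _, rfl⟩ := hx
    obtain ⟨b, _, hb⟩ := hx'
    exact absurd hb (by simp)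
  · intro i hi j hj
    rw [mem_map] at hi hj
    obtain ⟨a, ha, rfl⟩ := hi
    obtain ⟨b, _, rfl⟩ := hj
    have : ¬ (a = i0 ∧ b = j0) := fun h' => h (h'.1 ▸ ha)
    simp only [Function.Embedding.inl_apply, Function.Embedding.inr_apply, pL, if_neg this]
  · intro i hi j hj
    rw [mem_map] at hi hj
    obtain ⟨a, ha, rfl⟩ := hi
    obtain ⟨b, _, rfl⟩ := hj
    have : ¬ (a = i0 ∧ b = j0) := fun h' => h (h'.1 ▸ ha)
    simp only [Function.Embedding.inl_apply, Function.Embedding.inr_apply, pL, if_neg this]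

lemma Y_eq (I : Finset ι) (J : Finset κ) (i0 : ι) (j0 : κ) (hi : i0 ∈ I) :
    Z q (pm p i0 j0) I J = q i0 * Z q p (I.erase i0) J +
      ∑ j ∈ J, pm p i0 j0 i0 j * Z q p (I.erase i0) (J.erase j) := by
  have h1 : ∀ J' : Finset κ, Z q (pm p i0 j0) (I.erase i0) J' = Z q p (I.erase i0) J' :=
    fun J' => Z_pm q p (I.erase i0) J' i0 j0 (notMem_erase i0 I)
  rw [Z_row' q (pm p i0 j0) i0 I hi J]
  simp only [h1]

lemma lift_b (I : Finset ι) (J1 J2 : Finset κ) (i0 : ι) (j0 : κ) (hi : i0 ∈ I) :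
    Z (qL q) (pL p i0 j0) ((I.erase i0).disjSum I) (J1.disjSum J2) =
      Z q p (I.erase i0) J1 * Z q (pm p i0 j0) I J2 +
      if j0 ∈ J1 then p i0 j0 * Z q p (I.erase i0) (J1.erase j0) * Z q p (I.erase i0) J2
        else 0 := by
  have hi' : Sum.inr i0 ∈ (I.erase i0).disjSum I := by simp [hi]
  have hn : i0 ∉ I.erase i0 := notMem_erase i0 I
  rw [Z_row' _ _ (Sum.inr i0) _ hi', disjSum_erase_inr, lift_a q p _ _ _ _ _ hn, sum_disjSum]
  simp only [disjSum_erase_inl, disjSum_erase_inr, lift_a q p _ _ _ _ _ hn]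
  rw [Y_eq q p I J2 i0 j0 hi]
  have e1 : ∑ x ∈ J1, pL p i0 j0 (Sum.inr i0) (Sum.inl x) *
      (Z q p (I.erase i0) (J1.erase x) * Z q p (I.erase i0) J2) =
      if j0 ∈ J1 then p i0 j0 * Z q p (I.erase i0) (J1.erase j0) * Z q p (I.erase i0) J2
        else 0 := by
    have : ∀ x ∈ J1, pL p i0 j0 (Sum.inr i0) (Sum.inl x) *
      (Z q p (I.erase i0) (J1.erase x) * Z q p (I.erase i0) J2) =
      if j0 = x then p i0 j0 * Z q p (I.erase i0) (J1.erase j0) * Z q p (I.erase i0) J2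
        else 0 := by
      intro x _
      by_cases h : j0 = x
      · subst h
        simp only [pL, and_self, if_true]
        ring
      · have h' : ¬ (x = j0) := fun h' => h h'.symm
        simp [pL, h', h]
    rw [sum_congr rfl this, sum_ite_eq]
  rw [e1]
  have e2 : ∑ x ∈ J2, pL p i0 j0 (Sum.inr i0) (Sum.inr x) *
      (Z q p (I.erase i0) J1 * Z q p (I.erase i0) (J2.erase x)) =
      Z q p (I.erase i0) J1 * ∑ j ∈ J2, pm p i0 j0 i0 j * Z q p (I.erase i0) (J2.erase j) := by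
    rw [mul_sum]
    apply sum_congr rfl
    intro x _
    simp only [pL]
    ring
  rw [e2]
  simp only [qL, Sum.elim_inr]
  ring

/-- the two-fold cover -/
theorem lift_eq (I : Finset ι) (J : Finset κ) (i0 : ι) (j0 : κ) (hi : i0 ∈ I) (hj : j0 ∈ J) :
    (Z q p I J) ^ 2 = Z (qL q) (pL p i0 j0) (I.disjSum I) (J.disjSum J) +
      2 * p i0 j0 * Dl q (pm p i0 j0) I J i0 j0 := by
  have hi' : Sum.inl i0 ∈ I.disjSum I := by simp [hi]
  rw [Z_row' _ _ (Sum.inl i0) _ hi', disjSum_erase_inl, lift_b q p I J J i0 j0 hi, sum_disjSum]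
  simp only [disjSum_erase_inl, disjSum_erase_inr, lift_b q p I _ _ i0 j0 hi]
  set z : Finset κ → ℝ := fun J' => Z q p (I.erase i0) J' with hz
  set Y : Finset κ → ℝ := fun J' => Z q (pm p i0 j0) I J' with hY
  have hYeq : ∀ J', Y J' = q i0 * z J' + ∑ j ∈ J', pm p i0 j0 i0 j * z (J'.erase j) :=
    fun J' => Y_eq q p I J' i0 j0 hi
  have hPhi : Z q p I J = Y J + p i0 j0 * z (J.erase j0) := by
    rw [Z_row' q p i0 I hi J, hYeq J]
    have e : ∑ j ∈ J, p i0 j * Z q p (I.erase i0) (J.erase j) =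
        ∑ j ∈ J, (pm p i0 j0 i0 j * z (J.erase j) +
          if j0 = j then p i0 j0 * z (J.erase j0) else 0) := by
      apply sum_congr rfl
      intro j _
      by_cases h : j0 = j
      · subst h
        simp [pm, hz]
      · have h' : ¬ (j = j0) := fun h' => h h'.symm
        simp [pm, h', h, hz]
    rw [e, sum_add_distrib, sum_ite_eq, if_pos hj]
    ring
  have hDl : Dl q (pm p i0 j0) I J i0 j0 = Y J * z (J.erase j0) - z J * Y (J.erase j0) := by
    rw [Dl, Z_pm q p _ _ _ _ (notMem_erase i0 I), Z_pm q p _ _ _ _ (notMem_erase i0 I)]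
  rw [hPhi, hDl, if_pos hj]
  -- the second sum
  have e1 : ∑ x ∈ J, pL p i0 j0 (Sum.inl i0) (Sum.inl x) * (z (J.erase x) * Y J +
      if j0 ∈ J.erase x then p i0 j0 * z ((J.erase x).erase j0) * z J else 0) =
      Y J * (∑ x ∈ J, pm p i0 j0 i0 x * z (J.erase x)) +
      p i0 j0 * z J * ∑ x ∈ J.erase j0, pm p i0 j0 i0 x * z ((J.erase j0).erase x) := by
    rw [mul_sum, mul_sum]
    have e0 : ∑ x ∈ J.erase j0, p i0 j0 * z J * (pm p i0 j0 i0 x * z ((J.erase j0).erase x)) =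
        ∑ x ∈ J, (if j0 ∈ J.erase x then p i0 j0 * z J *
          (pm p i0 j0 i0 x * z ((J.erase j0).erase x)) else 0) := by
      rw [← add_sum_erase J _ hj, if_neg (notMem_erase j0 J), zero_add]
      apply sum_congr rfl
      intro x hx
      rw [if_pos (mem_erase.2 ⟨(mem_erase.1 hx).1.symm, hj⟩)]
    rw [e0, ← sum_add_distrib]
    apply sum_congr rfl
    intro x _
    simp only [pL]
    by_cases h : j0 ∈ J.erase x
    · rw [if_pos h, if_pos h, erase_right_comm]
      ring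
    · rw [if_neg h, if_neg h]
      ring
  have e2 : ∑ x ∈ J, pL p i0 j0 (Sum.inl i0) (Sum.inr x) * (z J * Y (J.erase x) +
      if j0 ∈ J then p i0 j0 * z (J.erase j0) * z (J.erase x) else 0) =
      p i0 j0 * (z J * Y (J.erase j0) + p i0 j0 * z (J.erase j0) * z (J.erase j0)) := by
    have : ∀ x ∈ J, pL p i0 j0 (Sum.inl i0) (Sum.inr x) * (z J * Y (J.erase x) +
      if j0 ∈ J then p i0 j0 * z (J.erase j0) * z (J.erase x) else 0) =
      if j0 = x then p i0 j0 * (z J * Y (J.erase j0) + p i0 j0 * z (J.erase j0) * z (J.erase j0))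
        else 0 := by
      intro x _
      by_cases h : j0 = x
      · subst h
        simp only [pL, and_self, if_true, if_pos hj]
      · have h' : ¬ (x = j0) := fun h' => h h'.symm
        simp [pL, h', h]
    rw [sum_congr rfl this, sum_ite_eq, if_pos hj]
  have e3 := hYeq J
  have e4 := hYeq (J.erase j0)
  change _ = qL q (Sum.inl i0) * (z J * Y J + p i0 j0 * z (J.erase j0) * z J) +
    (∑ x ∈ J, pL p i0 j0 (Sum.inl i0) (Sum.inl x) * (z (J.erase x) * Y J +
      if j0 ∈ J.erase x then p i0 j0 * z ((J.erase x).erase j0) * z J else 0) +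
    ∑ x ∈ J, pL p i0 j0 (Sum.inl i0) (Sum.inr x) * (z J * Y (J.erase x) +
      if j0 ∈ J then p i0 j0 * z (J.erase j0) * z (J.erase x) else 0)) + _
  rw [e1, e2]
  simp only [qL, Sum.elim_inl]
  generalize (∑ x ∈ J, pm p i0 j0 i0 x * z (J.erase x)) = S1 at *
  generalize (∑ x ∈ J.erase j0, pm p i0 j0 i0 x * z ((J.erase j0).erase x)) = S2 at *
  rw [e3, e4]
  ring

end Pool.Agent.Q161.Sh
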