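import Pool.Agent.Q161.ShA
import Pool.Agent.H450R3.FgVdw2

set_option autoImplicit false
open scoped BigOperators

/-!
# Gurvits' elimination of some of the variables of a stable polynomial
-/

namespace Pool.Agent.Q161.Sh

open Pool.Agent.Helper886.HCube Pool.Agent.H450R3.Fg MvPolynomial

/-- one step -/
lemma step {k n d : ℕ} {f : MvPolynomial (Fin (k + 1)) ℂ} (hf : f.IsHomogeneous (n + 1))
    (hs : Stab f) {W : (Fin k → ℝ) → ℝ} (hW : ∀ x, (∀ i, 0 < x i) → 0 < W x)
    (hcap : ∀ x : Fin k → ℝ, (∀ i, 0 < x i) → ∀ t : ℝ, 0 < t →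
      W x * t ≤ ‖eval (Fin.cons (t : ℂ) (fun i => (x i : ℂ)) : Fin (k + 1) → ℂ) f‖)
    (hdeg : f.degreeOf 0 ≤ d + 1) :
    (qq f).IsHomogeneous n ∧ Stab (qq f) ∧
      ∀ x : Fin k → ℝ, (∀ i, 0 < x i) → W x * gg d ≤ ‖eval (fun i => (x i : ℂ)) (qq f)‖ := by
  have hgrow : ∀ x : Fin k → ℝ, (∀ i, 0 < x i) → ∀ t : ℝ, 0 < t →
      W x * t ≤ ‖(up f (fun i => (x i : ℂ))).eval (t : ℂ)‖ := by
    intro x hx t ht
    rw [up_eval]
    exact hcap x hx t ht
  have hcapq : ∀ x : Fin k → ℝ, (∀ i, 0 < x i) →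
      W x * gg d ≤ ‖eval (fun i => (x i : ℂ)) (qq f)‖ := by
    intro x hx
    rw [qq_ev]
    refine lemC' (up f (fun i => (x i : ℂ))) d ?_ (up_roots hf hs x hx) (W x) (hW x hx)
      (hgrow x hx)
    unfold up
    refine Polynomial.natDegree_map_le.trans ?_
    rw [natDegree_finSuccEquiv]
    exact hdeg
  refine ⟨hf.finSuccEquiv_coeff_isHomogeneous 1 n (by omega), ?_, hcapq⟩
  have hdstab : Stab (dd f) := by
    intro z hz
    have hz' : z = (Fin.cons (z 0) (Fin.tail z) : Fin (k + 1) → ℂ) := (Fin.cons_self_tail z).symm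
    rw [hz', ← up_eval, up_dd]
    have hst : ∀ u : ℂ, 0 < u.re → (up f (Fin.tail z)).eval u ≠ 0 := by
      intro u hu
      rw [up_eval]
      apply hs
      intro i
      refine Fin.cases ?_ (fun j => ?_) i
      · exact hu
      · exact hz _
    apply lemD _ hst _ _ (hz 0)
    -- non constant
    intro hroots
    have hsp := IsAlgClosed.splits (up f (Fin.tail z))
    have hconst : ∀ u, (up f (Fin.tail z)).eval u = (up f (Fin.tail z)).leadingCoeff := by
      intro u
      rw [hsp.eval_eq_prod_roots, hroots]; simp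
    set L := ‖(up f (Fin.tail z)).leadingCoeff‖ with hL
    set P := W (fun i => (Fin.tail z i).re) with hP
    have hPpos : 0 < P := hW _ (fun i => hz _)
    have hb : ∀ t : ℝ, 0 < t → P * t ≤ L := by
      intro t ht
      have h1 := hgrow (fun i => (Fin.tail z i).re) (fun i => hz _) t ht
      have h2 := lemA hf hs (Fin.cons (t : ℂ) (Fin.tail z) : Fin (k + 1) → ℂ) (by
        intro i
        refine Fin.cases ?_ (fun j => ?_) i
        · simpa using ht
        · exact hz _)
      have h3 : (fun i => ((((Fin.cons (t : ℂ) (Fin.tail z) : Fin (k + 1) → ℂ) i).re : ℝ) : ℂ)) =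
          (Fin.cons (t : ℂ) (fun i => (((Fin.tail z i).re : ℝ) : ℂ)) : Fin (k + 1) → ℂ) := by
        funext i
        refine Fin.cases ?_ (fun j => ?_) i <;> simp
      rw [h3, ← up_eval, ← up_eval, hconst] at h2
      exact h1.trans h2
    have h4 := hb ((L + 1) / P) (by
      have : 0 ≤ L := norm_nonneg _
      positivity)
    rw [mul_div_cancel₀ _ hPpos.ne'] at h4
    linarith
  intro y hy
  have hhom := dd_hom hf
  have h1 : ∀ t : ℝ, 0 < t →
      ‖eval (Fin.cons (t : ℂ) (fun i => ((y i).re : ℂ)) : Fin (k + 1) → ℂ) (dd f)‖ ≤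
      ‖eval (Fin.cons (t : ℂ) y : Fin (k + 1) → ℂ) (dd f)‖ := by
    intro t ht
    have h2 := lemA hhom hdstab (Fin.cons (t : ℂ) y : Fin (k + 1) → ℂ) (by
      intro i
      refine Fin.cases ?_ (fun j => ?_) i
      · simpa using ht
      · exact hy _)
    have h3 : (fun i => ((((Fin.cons (t : ℂ) y : Fin (k + 1) → ℂ) i).re : ℝ) : ℂ)) =
        (Fin.cons (t : ℂ) (fun i => (((y i).re : ℝ) : ℂ)) : Fin (k + 1) → ℂ) := by
      funext i
      refine Fin.cases ?_ (fun j => ?_) i <;> simp
    rw [h3] at h2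
    exact h2
  have hcont : ∀ w : Fin k → ℂ, Continuous
      (fun t : ℝ => ‖eval (Fin.cons (t : ℂ) w : Fin (k + 1) → ℂ) (dd f)‖) := by
    intro w
    simp only [← up_eval]
    exact ((up (dd f) w).continuous.comp Complex.continuous_ofReal).norm
  have h2 : ‖eval (Fin.cons ((0 : ℝ) : ℂ) (fun i => ((y i).re : ℂ)) : Fin (k + 1) → ℂ) (dd f)‖ ≤
      ‖eval (Fin.cons ((0 : ℝ) : ℂ) y : Fin (k + 1) → ℂ) (dd f)‖ := by
    have ht1 := ((hcont (fun i => ((y i).re : ℂ))).tendsto 0).mono_left
      (nhdsWithin_le_nhds (s := Set.Ioi 0))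
    have ht2 := ((hcont y).tendsto 0).mono_left (nhdsWithin_le_nhds (s := Set.Ioi 0))
    refine le_of_tendsto_of_tendsto ht1 ht2 ?_
    filter_upwards [self_mem_nhdsWithin] with t ht
    exact h1 t ht
  rw [Complex.ofReal_zero, ← qq_ev2, ← qq_ev2] at h2
  have h3 := hcapq (fun i => (y i).re) hy
  have h4 : 0 < W (fun i => (y i).re) * gg d := mul_pos (hW _ hy) (gg_pos d)
  intro h0
  rw [h0, norm_zero] at h2
  linarith

/-! ### several steps -/

/-- elimination of the first `r` variables -/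
noncomputable def qn {k : ℕ} : (r : ℕ) → MvPolynomial (Fin (k + r)) ℂ → MvPolynomial (Fin k) ℂ
  | 0, f => f
  | r + 1, f => qn r (qq (k := k + r) f)

/-- the position of the `j`-th eliminated variable -/
def ps {k r : ℕ} (j : Fin r) : Fin (k + r) := ⟨j.1, by omega⟩

/-- the position of the `i`-th remaining variable -/
def pt {k r : ℕ} (i : Fin k) : Fin (k + r) := ⟨r + i.1, by omega⟩

lemma ps_zero {k r : ℕ} : (ps (0 : Fin (r + 1)) : Fin (k + (r + 1))) = (0 : Fin ((k + r) + 1)) := rfl

lemma ps_succ {k r : ℕ} (j : Fin r) :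
    (ps j.succ : Fin (k + (r + 1))) = (Fin.succ (ps j : Fin (k + r)) : Fin ((k + r) + 1)) := by
  apply Fin.ext; simp [ps]

lemma pt_succ {k r : ℕ} (i : Fin k) :
    (pt i : Fin (k + (r + 1))) = (Fin.succ (pt i : Fin (k + r)) : Fin ((k + r) + 1)) := by
  apply Fin.ext; simp [pt]; omega

lemma pt_zero {k : ℕ} (i : Fin k) : (pt i : Fin (k + 0)) = i := by
  apply Fin.ext; simp [pt]

theorem elim_all {k : ℕ} (r : ℕ) : ∀ (n : ℕ) (f : MvPolynomial (Fin (k + r)) ℂ)
    (b : Fin (k + r) → ℕ), f.IsHomogeneous (n + r) → Stab f → (∀ i, f.degreeOf i ≤ b i + 1) →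
    ∀ W : (Fin k → ℝ) → ℝ, (∀ x, (∀ i, 0 < x i) → 0 < W x) →
    (∀ y : Fin (k + r) → ℝ, (∀ i, 0 < y i) →
      W (fun i => y (pt i)) * ∏ j : Fin r, y (ps j) ≤ ‖eval (fun i => (y i : ℂ)) f‖) →
    (qn r f).IsHomogeneous n ∧ Stab (qn r f) ∧
      ∀ x : Fin k → ℝ, (∀ i, 0 < x i) →
        W x * ∏ j : Fin r, gg (b (ps j)) ≤ ‖eval (fun i => (x i : ℂ)) (qn r f)‖ := by
  induction r with
  | zero =>
    intro n f b hf hs _ W _ hcap
    refine ⟨hf, hs, ?_⟩
    intro x hx
    have := hcap x hx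
    simp only [Finset.univ_eq_empty, Finset.prod_empty, mul_one, pt_zero] at this ⊢
    exact this
  | succ r ih =>
    intro n f b hf hs hdeg W hW hcap
    have hst := step (k := k + r) (n := n + r) (d := b 0) (f := f) hf hs
      (W := fun x' => W (fun i => x' (pt i)) * ∏ j : Fin r, x' (ps j))
      (fun x' hx' => mul_pos (hW _ fun i => hx' _) (Finset.prod_pos fun j _ => hx' _))
      (by
        intro x' hx' t ht
        have h1 := hcap (Fin.cons t x' : Fin ((k + r) + 1) → ℝ) (by
          intro i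
          refine Fin.cases ?_ (fun j => ?_) i
          · exact ht
          · exact hx' j)
        rw [Fin.prod_univ_succ] at h1
        simp only [ps_zero, ps_succ, pt_succ] at h1
        simp only [Fin.cons_zero, Fin.cons_succ] at h1
        have h2 : (fun i => (((Fin.cons t x' : Fin ((k + r) + 1) → ℝ) i : ℝ) : ℂ)) =
            (Fin.cons (t : ℂ) (fun i => (x' i : ℂ)) : Fin ((k + r) + 1) → ℂ) := by
          funext i
          refine Fin.cases ?_ (fun j => ?_) i <;> simp
        calc (W (fun i => x' (pt i)) * ∏ j : Fin r, x' (ps j)) * t =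
            W (fun i => x' (pt i)) * (t * ∏ j : Fin r, x' (ps j)) := by ring
          _ ≤ _ := h1
          _ = _ := congrArg (fun z => ‖eval z f‖) h2) (hdeg 0)
    obtain ⟨g1, g2, g3⟩ := hst
    have hih := ih n (qq (k := k + r) f) (fun i => b (Fin.succ i)) g1 g2
      (by
        intro i
        exact (degreeOf_coeff_finSuccEquiv f i 1).trans (hdeg (Fin.succ i)))
      (fun x => W x * gg (b 0)) (fun x hx => mul_pos (hW x hx) (gg_pos _))
      (by
        intro y hy
        have := g3 y hy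
        calc W (fun i => y (pt i)) * gg (b 0) * ∏ j : Fin r, y (ps j) =
            W (fun i => y (pt i)) * (∏ j : Fin r, y (ps j)) * gg (b 0) := by ring
          _ ≤ _ := this)
    obtain ⟨e1, e2, e3⟩ := hih
    refine ⟨e1, e2, ?_⟩
    intro x hx
    have := e3 x hx
    rw [Fin.prod_univ_succ]
    simp only [ps_zero, ps_succ]
    calc W x * (gg (b 0) * ∏ j : Fin r, gg (b (Fin.succ (ps j)))) =
        W x * gg (b 0) * ∏ j : Fin r, gg (b (Fin.succ (ps j))) := by ring
      _ ≤ _ := this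

/-! ### products of linear forms -/

/-- a linear form -/
noncomputable def lf {n : ℕ} (a : Fin n → ℂ) : MvPolynomial (Fin n) ℂ := ∑ j, C (a j) * X j

lemma lf_eval {n : ℕ} (a z : Fin n → ℂ) : eval z (lf a) = ∑ j, a j * z j := by
  simp [lf]

lemma lf_succ {n : ℕ} (a : Fin (n + 1) → ℂ) : finSuccEquiv ℂ n (lf a) =
    Polynomial.C (lf (fun j => a j.succ)) + Polynomial.C (C (a 0)) * Polynomial.X := by
  rw [lf, map_sum, Fin.sum_univ_succ]
  simp only [map_mul, finSuccEquiv_apply, eval₂Hom_C, eval₂Hom_X', Fin.cases_zero, Fin.cases_succ,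
    RingHom.coe_comp, Function.comp_apply]
  rw [lf, map_sum, add_comm]
  congr 1
  apply Finset.sum_congr rfl
  intro j _
  rw [map_mul]

lemma coeff_one_prod {A ι : Type*} [CommRing A] [DecidableEq ι] (I : Finset ι) (u v : ι → A) :
    (∏ i ∈ I, (Polynomial.C (u i) + Polynomial.C (v i) * Polynomial.X)).coeff 0 = ∏ i ∈ I, u i ∧
    (∏ i ∈ I, (Polynomial.C (u i) + Polynomial.C (v i) * Polynomial.X)).coeff 1 =
      ∑ i ∈ I, v i * ∏ i' ∈ I.erase i, u i' := by
  induction I using Finset.induction with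
  | empty => simp [Polynomial.coeff_one]
  | insert i I hi ih =>
    obtain ⟨h0, h1⟩ := ih
    constructor
    · rw [Finset.prod_insert hi, Finset.prod_insert hi, Polynomial.mul_coeff_zero, h0]
      simp
    · rw [Finset.prod_insert hi, Polynomial.mul_coeff_one, h0, h1, Finset.sum_insert hi,
        Finset.erase_insert hi]
      have e : ∀ i' ∈ I, v i' * ∏ a ∈ (insert i I).erase i', u a =
          u i * (v i' * ∏ a ∈ I.erase i', u a) := by
        intro i' hi'
        have hne : i ≠ i' := by rintro rfl; exact hi hi'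
        rw [Finset.erase_insert_of_ne hne, Finset.prod_insert
          (fun h => hi (Finset.mem_of_mem_erase h))]
        ring
      rw [Finset.sum_congr rfl e, ← Finset.mul_sum]
      simp
      ring

lemma qq_prod {ι : Type*} [DecidableEq ι] {k : ℕ} (I : Finset ι) (a : ι → Fin (k + 1) → ℂ) :
    qq (∏ i ∈ I, lf (a i)) =
      ∑ i ∈ I, C (a i 0) * ∏ i' ∈ I.erase i, lf (fun j => a i' j.succ) := by
  rw [qq, map_prod]
  simp only [lf_succ]
  exact (coeff_one_prod I _ _).2

lemma qq_add {k : ℕ} (f g : MvPolynomial (Fin (k + 1)) ℂ) : qq (f + g) = qq f + qq g := by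
  simp [qq]

lemma qq_zero {k : ℕ} : qq (0 : MvPolynomial (Fin (k + 1)) ℂ) = 0 := by
  simp [qq]

lemma qq_C_mul {k : ℕ} (c : ℂ) (f : MvPolynomial (Fin (k + 1)) ℂ) :
    qq (C c * f) = C c * qq f := by
  rw [qq, map_mul, finSuccEquiv_apply, eval₂Hom_C, RingHom.coe_comp, Function.comp_apply,
    Polynomial.coeff_C_mul]
  rfl

lemma qn_add {k : ℕ} (r : ℕ) : ∀ f g : MvPolynomial (Fin (k + r)) ℂ,
    qn r (f + g) = qn r f + qn r g := by
  induction r with
  | zero => intro f g; rfl
  | succ r ih =>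
    intro f g
    change qn r (qq (k := k + r) (f + g)) = qn r (qq (k := k + r) f) + qn r (qq (k := k + r) g)
    rw [qq_add, ih]

lemma qn_zero {k : ℕ} (r : ℕ) : qn r (0 : MvPolynomial (Fin (k + r)) ℂ) = 0 := by
  induction r with
  | zero => rfl
  | succ r ih =>
    change qn r (qq (k := k + r) 0) = 0
    rw [qq_zero, ih]

lemma qn_C_mul {k : ℕ} (c : ℂ) (r : ℕ) : ∀ f : MvPolynomial (Fin (k + r)) ℂ,
    qn r (C c * f) = C c * qn r f := by
  induction r with
  | zero => intro f; rfl
  | succ r ih =>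
    intro f
    change qn r (qq (k := k + r) (C c * f)) = C c * qn r (qq (k := k + r) f)
    rw [qq_C_mul, ih]

lemma qn_sum {ι : Type*} {k : ℕ} (r : ℕ) (s : Finset ι)
    (f : ι → MvPolynomial (Fin (k + r)) ℂ) : qn r (∑ i ∈ s, f i) = ∑ i ∈ s, qn r (f i) := by
  classical
  induction s using Finset.induction with
  | empty => rw [Finset.sum_empty, Finset.sum_empty, qn_zero]
  | insert i s hi ih => rw [Finset.sum_insert hi, Finset.sum_insert hi, qn_add, ih]

/-- the evaluation of the eliminated product is a matching sum -/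
theorem qn_formula {ι : Type*} [DecidableEq ι] {k : ℕ} (x : Fin k → ℂ) (r : ℕ) :
    ∀ (I : Finset ι) (a : ι → Fin (k + r) → ℂ),
    eval x (qn r (∏ i ∈ I, lf (a i))) =
      Z (fun i => ∑ j : Fin k, a i (pt j) * x j) (fun i (j : Fin r) => a i (ps j)) I
        Finset.univ := by
  induction r with
  | zero =>
    intro I a
    change eval x (∏ i ∈ I, lf (a i)) = _
    have : (Finset.univ : Finset (Fin 0)) = ∅ := rfl
    rw [this, Z_empty_cols, map_prod]
    apply Finset.prod_congr rfl
    intro i _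
    rw [lf_eval]
    apply Finset.sum_congr rfl
    intro j _
    rw [pt_zero]
  | succ r ih =>
    intro I a
    change eval x (qn r (qq (k := k + r) (∏ i ∈ I, lf (a i)))) = _
    rw [qq_prod, qn_sum, map_sum]
    have hu : (Finset.univ : Finset (Fin (r + 1))) =
        insert 0 (Finset.univ.map (Fin.succEmb r)) := by
      ext j
      refine Fin.cases ?_ (fun j => ?_) j <;> simp
    rw [hu, Z_col _ _ _ _ (by simp [Fin.succ_ne_zero])]
    apply Finset.sum_congr rfl
    intro i _
    rw [qn_C_mul, map_mul, eval_C, ih]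
    congr 1
    rw [← Z_map_cols]
    simp only [Fin.coe_succEmb, ps_succ, pt_succ]

/-- the coefficient of the product of all the variables is preserved -/
lemma qn_coeff {k : ℕ} (r : ℕ) : ∀ f : MvPolynomial (Fin (k + r)) ℂ,
    coeff (Finsupp.equivFunOnFinite.symm (fun _ => 1) : Fin k →₀ ℕ) (qn r f) =
      coeff (Finsupp.equivFunOnFinite.symm (fun _ => 1) : Fin (k + r) →₀ ℕ) f := by
  induction r with
  | zero => intro f; rfl
  | succ r ih =>
    intro f
    change coeff _ (qn r (qq (k := k + r) f)) = _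
    rw [ih, qq_coeff]
    rfl

end Pool.Agent.Q161.Sh
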