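import Pool.Agent.Q161.ShC

set_option autoImplicit false
open scoped BigOperators

/-!
# Gurvits' inequality for matching sums

If `q_i + ∑_j p_{ij} = 1` for all rows, `∑_i p_{ij} = 1` for all columns, and the column `j` has at most
`b_j + 1` nonzero entries, then `Z q p I univ ≥ ∏_j (b_j / (b_j + 1)) ^ b_j`.
-/

namespace Pool.Agent.Q161.Sh

open Pool.Agent.Helper886.HCube Pool.Agent.H450R3.Fg MvPolynomial

lemma sum_pspt {M : Type*} [AddCommMonoid M] {k : ℕ} (r : ℕ) : ∀ g : Fin (k + r) → M,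
    ∑ y, g y = ∑ j : Fin r, g (ps j) + ∑ i : Fin k, g (pt i) := by
  induction r with
  | zero =>
    intro g
    simp only [Finset.univ_eq_empty, Finset.sum_empty, zero_add, pt_zero]
    rfl
  | succ r ih =>
    intro g
    have h1 : ∑ y, g y = g (ps 0) + ∑ y : Fin (k + r), g (Fin.succ y) :=
      Fin.sum_univ_succ (n := k + r) g
    rw [h1, ih (fun y => g (Fin.succ y)), Fin.sum_univ_succ (n := r)]
    simp only [ps_succ, pt_succ, add_assoc]

lemma prod_pspt {M : Type*} [CommMonoid M] {k : ℕ} (r : ℕ) : ∀ g : Fin (k + r) → M,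
    ∏ y, g y = (∏ j : Fin r, g (ps j)) * ∏ i : Fin k, g (pt i) := by
  induction r with
  | zero =>
    intro g
    simp only [Finset.univ_eq_empty, Finset.prod_empty, one_mul, pt_zero]
    rfl
  | succ r ih =>
    intro g
    have h1 : ∏ y, g y = g (ps 0) * ∏ y : Fin (k + r), g (Fin.succ y) :=
      Fin.prod_univ_succ (n := k + r) g
    rw [h1, ih (fun y => g (Fin.succ y)), Fin.prod_univ_succ (n := r)]
    simp only [ps_succ, pt_succ, mul_assoc]

lemma amgm {ι Y : Type*} [Fintype Y] (I : Finset ι) (A : ι → Y → ℝ)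
    (hA : ∀ i ∈ I, ∀ y, 0 ≤ A i y) (hrow : ∀ i ∈ I, ∑ y, A i y = 1) (z : Y → ℝ)
    (hz : ∀ y, 0 < z y) : ∏ y, z y ^ (∑ i ∈ I, A i y) ≤ ∏ i ∈ I, ∑ y, A i y * z y := by
  calc ∏ y, z y ^ (∑ i ∈ I, A i y) = ∏ y, ∏ i ∈ I, z y ^ (A i y) := by
        apply Finset.prod_congr rfl
        intro y _
        exact Real.rpow_sum_of_pos (hz y) _ _
    _ = ∏ i ∈ I, ∏ y, z y ^ (A i y) := Finset.prod_comm
    _ ≤ ∏ i ∈ I, ∑ y, A i y * z y := by
        apply Finset.prod_le_prod
        · intro i _
          exact Finset.prod_nonneg fun y _ => Real.rpow_nonneg (hz y).le _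
        · intro i hi
          exact Real.geom_mean_le_arith_mean_weighted _ _ _ (fun y _ => hA i hi y) (hrow i hi)
            (fun y _ => (hz y).le)

/-- the product of the linear forms of a real matrix -/
noncomputable def PR {ι : Type*} {n : ℕ} (I : Finset ι) (A : ι → Fin n → ℝ) :
    MvPolynomial (Fin n) ℂ := ∏ i ∈ I, lf (fun y => ((A i y : ℝ) : ℂ))

lemma PR_hom {ι : Type*} {n : ℕ} (I : Finset ι) (A : ι → Fin n → ℝ) :
    (PR I A).IsHomogeneous I.card := by
  have h1 := IsHomogeneous.prod I (fun i => lf (fun y => ((A i y : ℝ) : ℂ))) (fun _ => 1)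
    (fun i _ => IsHomogeneous.sum _ _ _ fun j _ => isHomogeneous_C_mul_X _ _)
  simpa [PR] using h1

lemma PR_eval {ι : Type*} {n : ℕ} (I : Finset ι) (A : ι → Fin n → ℝ) (z : Fin n → ℝ) :
    eval (fun y => ((z y : ℝ) : ℂ)) (PR I A) = ((∏ i ∈ I, ∑ y, A i y * z y : ℝ) : ℂ) := by
  rw [PR, map_prod]
  push_cast
  apply Finset.prod_congr rfl
  intro i _
  rw [lf_eval]

lemma PR_stab {ι : Type*} {n : ℕ} (I : Finset ι) (A : ι → Fin n → ℝ)
    (hA : ∀ i ∈ I, ∀ y, 0 ≤ A i y) (hrow : ∀ i ∈ I, 0 < ∑ y, A i y) : Stab (PR I A) := by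
  intro z hz
  rw [PR, map_prod, Finset.prod_ne_zero_iff]
  intro i hi h1
  rw [lf_eval] at h1
  have h2 : (∑ j, ((A i j : ℝ) : ℂ) * z j).re = ∑ j, A i j * (z j).re := by
    rw [Complex.re_sum]
    apply Finset.sum_congr rfl
    intro j _
    rw [Complex.re_ofReal_mul]
  rw [h1, Complex.zero_re] at h2
  have h3 : ∀ j ∈ Finset.univ, A i j * (z j).re = 0 :=
    (Finset.sum_eq_zero_iff_of_nonneg (fun j _ => mul_nonneg (hA i hi j) (hz j).le)).mp h2.symm
  have h4 : ∑ j, A i j = 0 := by
    apply Finset.sum_eq_zero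
    intro j hj
    rcases mul_eq_zero.mp (h3 j hj) with h | h
    · exact h
    · exact absurd h (hz j).ne'
  exact absurd h4 (hrow i hi).ne'

lemma PR_degree {ι : Type*} {n : ℕ} (I : Finset ι) (A : ι → Fin n → ℝ) (y : Fin n) :
    (PR I A).degreeOf y ≤ (I.filter (fun i => A i y ≠ 0)).card := by
  classical
  rw [PR]
  refine (degreeOf_prod_le y I _).trans ?_
  rw [Finset.card_filter]
  apply Finset.sum_le_sum
  intro i _
  rw [lf]
  refine (degreeOf_sum_le y Finset.univ _).trans ?_
  apply Finset.sup_le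
  intro j _
  by_cases h : j = y
  · subst h
    by_cases hA : A i j = 0
    · rw [hA]; simp
    · rw [if_pos hA]
      exact (degreeOf_C_mul_le _ _ _).trans (degreeOf_X_self j).le
  · refine (degreeOf_C_mul_le _ _ _).trans ?_
    rw [degreeOf_X_of_ne (fun e => h e.symm)]
    exact Nat.zero_le _

/-- real form of the evaluation formula -/
lemma PR_formula {ι : Type*} [DecidableEq ι] {k r : ℕ} (I : Finset ι) (A : ι → Fin (k + r) → ℝ)
    (x : Fin k → ℝ) : eval (fun i => ((x i : ℝ) : ℂ)) (qn r (PR I A)) =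
      ((Z (fun i => ∑ j : Fin k, A i (pt j) * x j) (fun i (j : Fin r) => A i (ps j)) I
        Finset.univ : ℝ) : ℂ) := by
  rw [PR, qn_formula, ← Complex.ofRealHom_eq_coe, Z_map_ring]
  congr 1
  funext i
  simp

theorem phi_ge {ι κ : Type*} [DecidableEq ι] [Fintype κ] [DecidableEq κ] (I : Finset ι)
    (q : ι → ℝ) (p : ι → κ → ℝ) (b : κ → ℕ) (hq : ∀ i ∈ I, 0 ≤ q i)
    (hp : ∀ i ∈ I, ∀ j, 0 ≤ p i j) (hrow : ∀ i ∈ I, q i + ∑ j, p i j = 1)
    (hcol : ∀ j, ∑ i ∈ I, p i j = 1)
    (hsupp : ∀ j, (I.filter (fun i => p i j ≠ 0)).card ≤ b j + 1) :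
    ∏ j, gg (b j) ≤ Z q p I Finset.univ := by
  set r := Fintype.card κ with hr
  set e : κ ≃ Fin r := Fintype.equivFin κ with he
  set A : ι → Fin (1 + r) → ℝ := fun i y => if h : y.1 < r then p i (e.symm ⟨y.1, h⟩) else q i
    with hA
  have hAps : ∀ i (j : Fin r), A i (ps j) = p i (e.symm j) := by
    intro i j
    simp only [hA, ps, j.2, dif_pos, Fin.eta]
  have hApt : ∀ i (j : Fin 1), A i (pt j) = q i := by
    intro i j
    have : ¬ (pt j : Fin (1 + r)).1 < r := by simp [pt]
    simp only [hA, this, dif_neg, not_false_eq_true]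
  have hAnn : ∀ i ∈ I, ∀ y, 0 ≤ A i y := by
    intro i hi y
    simp only [hA]
    split_ifs
    · exact hp i hi _
    · exact hq i hi
  have hArow : ∀ i ∈ I, ∑ y, A i y = 1 := by
    intro i hi
    rw [sum_pspt]
    simp only [hAps, hApt]
    rw [e.symm.sum_comp (fun j => p i j)]
    simp only [Finset.univ_unique, Finset.sum_singleton]
    rw [add_comm]
    exact hrow i hi
  have hcard : (r : ℝ) + ∑ i ∈ I, q i = I.card := by
    have h1 : ∑ i ∈ I, (q i + ∑ j, p i j) = ∑ i ∈ I, (1 : ℝ) := Finset.sum_congr rfl hrow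
    rw [Finset.sum_add_distrib, Finset.sum_comm, Finset.sum_congr rfl fun j _ => hcol j] at h1
    simp only [Finset.sum_const, nsmul_eq_mul, mul_one, Finset.card_univ] at h1
    rw [← hr] at h1
    linarith
  have hle : r ≤ I.card := by
    have : (0 : ℝ) ≤ ∑ i ∈ I, q i := Finset.sum_nonneg hq
    have h2 : (r : ℝ) ≤ I.card := by linarith
    exact_mod_cast h2
  obtain ⟨n, hn⟩ := Nat.exists_eq_add_of_le hle
  have hhom : (PR I A).IsHomogeneous (n + r) := by
    have := PR_hom I A
    have hn' : I.card = n + r := by omega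
    rw [hn'] at this
    exact this
  have hst : Stab (PR I A) := PR_stab I A hAnn (fun i hi => by rw [hArow i hi]; norm_num)
  set b' : Fin (1 + r) → ℕ := fun y => if h : y.1 < r then b (e.symm ⟨y.1, h⟩) else I.card with hb'
  have hb'ps : ∀ j : Fin r, b' (ps j) = b (e.symm j) := by
    intro j
    simp only [hb', ps, j.2, dif_pos, Fin.eta]
  have hdeg : ∀ y, (PR I A).degreeOf y ≤ b' y + 1 := by
    intro y
    refine (PR_degree I A y).trans ?_
    by_cases h : y.1 < r
    · have h1 : (I.filter (fun i => A i y ≠ 0)) =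
          (I.filter (fun i => p i (e.symm ⟨y.1, h⟩) ≠ 0)) := by
        apply Finset.filter_congr
        intro i _
        simp only [hA, h, dif_pos]
      rw [h1]
      simp only [hb', h, dif_pos]
      exact hsupp _
    · simp only [hb', h, dif_neg, not_false_eq_true]
      exact (Finset.card_filter_le _ _).trans (Nat.le_succ _)
  have hmain := elim_all (k := 1) r n (PR I A) b' hhom hst hdeg
    (fun x => (x 0) ^ (∑ i ∈ I, q i : ℝ)) (fun x hx => Real.rpow_pos_of_pos (hx 0) _)
    (by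
      intro y hy
      rw [PR_eval, Complex.norm_real]
      refine le_trans ?_ (le_abs_self _)
      have h1 := amgm I A hAnn hArow y hy
      refine le_trans (le_of_eq ?_) h1
      rw [prod_pspt]
      simp only [hAps, hApt]
      have h2 : ∀ j : Fin r, y (ps j) ^ (∑ i ∈ I, p i (e.symm j)) = y (ps j) := by
        intro j
        rw [hcol, Real.rpow_one]
      rw [Finset.prod_congr rfl fun j _ => h2 j]
      simp only [Finset.univ_unique, Finset.prod_singleton]
      rw [mul_comm]
      rfl)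
  have h3 := hmain.2.2 (fun _ => 1) (fun _ => one_pos)
  rw [Real.one_rpow, one_mul] at h3
  simp only [hb'ps] at h3
  rw [e.symm.prod_comp (fun j => gg (b j))] at h3
  refine h3.trans ?_
  have h4 := PR_formula (k := 1) (r := r) I A (fun _ => 1)
  rw [h4, Complex.norm_real]
  have h5 : Z (fun i => ∑ j : Fin 1, A i (pt j) * 1) (fun i (j : Fin r) => A i (ps j)) I
      Finset.univ = Z q p I Finset.univ := by
    have h6 : (Finset.univ : Finset κ) = (Finset.univ : Finset (Fin r)).map e.symm.toEmbedding := by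
      simp
    rw [h6, ← Z_map_cols]
    congr 1
    · funext i
      simp [hApt]
    · funext i j
      rw [hAps]
      rfl
  rw [h5, Real.norm_eq_abs, abs_of_nonneg]
  exact Z_nonneg q p I Finset.univ hq (fun i hi j _ => hp i hi j)

end Pool.Agent.Q161.Sh
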