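import Pool.Agent.Q161.ShB
import Pool.Agent.Q161.ShD
import Pool.Agent.H450R3.FgVdw3

set_option autoImplicit false
open scoped BigOperators

/-!
# Strict inequality for columns lying on a cycle
-/

namespace Pool.Agent.Q161.Sh

open Pool.Agent.H450R3.Fg Finset

variable {ι : Type*} [Fintype ι] [DecidableEq ι]

/-- positivity of the exchange difference along a path through all the columns -/
lemma path_pos {m : ℕ} (q : ι → ℝ) (p : ι → Fin (m + 1) → ℝ) (r : Fin (m + 1) → ι)
    (hr : Function.Injective r) (hq : ∀ i, 0 ≤ q i) (hp : ∀ i j, 0 ≤ p i j)
    (h1 : ∀ a, 0 < p (r a) a) (h2 : ∀ a : Fin m, 0 < p (r a.castSucc) a.succ)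
    (h3 : ∀ i, (∀ a, r a ≠ i) → 0 < q i) :
    0 < Dl q p univ univ (r (Fin.last m)) 0 := by
  have key : ∀ n : ℕ, ∀ a : ℕ, (ha : a < m + 1) → a + n = m →
      0 < Dl q p (univ.filter (fun i => ∀ b : Fin (m + 1), b.1 < a → r b ≠ i))
        (univ.filter (fun j : Fin (m + 1) => a ≤ j.1)) (r (Fin.last m)) ⟨a, ha⟩ := by
    intro n
    induction n with
    | zero =>
      intro a ha han
      have ham : a = m := by omega
      subst ham
      have hlast : (⟨a, ha⟩ : Fin (a + 1)) = Fin.last a := rfl
      have hJ : (univ.filter (fun j : Fin (a + 1) => a ≤ j.1)) = {Fin.last a} := by
        ext j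
        simp only [mem_filter, mem_univ, true_and, mem_singleton]
        constructor
        · intro h; apply Fin.ext; have := j.2; simp; omega
        · rintro rfl; simp
      rw [hlast, hJ]
      apply Dl_pos_base q p
      · simp only [mem_filter, mem_univ, true_and]
        intro b hb h
        have := hr h
        rw [this] at hb
        simp at hb
      · simp
      · intro i _; exact hq i
      · intro i _ j _; exact hp i j
      · exact h1 _
      · have : ({Fin.last a} : Finset (Fin (a + 1))).erase (Fin.last a) = ∅ := by simp
        rw [this, Z_empty_cols]
        apply prod_pos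
        intro i hi
        simp only [mem_erase, mem_filter, mem_univ, true_and] at hi
        apply h3
        intro b hb
        rcases Nat.lt_or_ge b.1 a with h | h
        · exact hi.2 b h hb
        · have : b = Fin.last a := by apply Fin.ext; have := b.2; simp; omega
          rw [this] at hb
          exact hi.1 hb.symm
    | succ n ih =>
      intro a ha han
      have ha' : a + 1 < m + 1 := by omega
      have ham : a < m := by omega
      have hi := ih (a + 1) ha' (by omega)
      have hI : (univ.filter (fun i => ∀ b : Fin (m + 1), b.1 < a → r b ≠ i)).erase (r ⟨a, ha⟩) =
          univ.filter (fun i => ∀ b : Fin (m + 1), b.1 < a + 1 → r b ≠ i) := by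
        ext i
        simp only [mem_erase, mem_filter, mem_univ, true_and]
        constructor
        · rintro ⟨g1, g2⟩ b hb hbi
          rcases Nat.lt_or_ge b.1 a with h | h
          · exact g2 b h hbi
          · have : b = ⟨a, ha⟩ := by apply Fin.ext; simp; omega
            rw [this] at hbi
            exact g1 hbi.symm
        · intro g
          exact ⟨fun h => g ⟨a, ha⟩ (by simp) h.symm, fun b hb => g b (by omega)⟩
      have hJ : (univ.filter (fun j : Fin (m + 1) => a ≤ j.1)).erase ⟨a, ha⟩ =
          univ.filter (fun j : Fin (m + 1) => a + 1 ≤ j.1) := by
        ext j
        simp only [mem_erase, mem_filter, mem_univ, true_and]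
        constructor
        · rintro ⟨g1, g2⟩
          have : j.1 ≠ a := fun h => g1 (Fin.ext h)
          omega
        · intro g
          refine ⟨fun h => ?_, by omega⟩
          rw [h] at g
          simp at g
      have hne : r ⟨a, ha⟩ ≠ r (Fin.last m) := by
        intro h
        have := hr h
        have h' := congrArg Fin.val this
        simp at h'
        omega
      apply Dl_pos_step q p _ _ _ _ _ _ _ _ (r ⟨a, ha⟩) ⟨a + 1, ha'⟩
      · rw [mem_erase]
        refine ⟨hne, ?_⟩
        simp only [mem_filter, mem_univ, true_and]
        intro b hb h
        have := hr h
        rw [this] at hb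
        simp at hb
      · rw [mem_erase]
        refine ⟨?_, ?_⟩
        · intro h
          have := congrArg Fin.val h
          simp at this
        · simp
      · exact h1 _
      · have := h2 ⟨a, ham⟩
        exact this
      · rw [hI, hJ]
        exact hi
      · simp only [mem_filter, mem_univ, true_and]
        intro b hb h
        have := hr h
        rw [this] at hb
        simp at hb
        omega
      · simp
      · intro i _; exact hq i
      · intro i _ j _; exact hp i j
  have := key m 0 (by omega) (by omega)
  have e1 : (univ.filter (fun i => ∀ b : Fin (m + 1), b.1 < 0 → r b ≠ i)) = univ := by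
    ext i; simp
  have e2 : (univ.filter (fun j : Fin (m + 1) => 0 ≤ j.1)) = univ := by
    ext i; simp
  rw [e1, e2] at this
  exact this

/-- the lift of a doubly stochastic situation -/
lemma lift_ge {κ : Type*} [Fintype κ] [DecidableEq κ] (q : ι → ℝ) (p : ι → κ → ℝ) (b : ℕ)
    (hq : ∀ i, 0 ≤ q i) (hp : ∀ i j, 0 ≤ p i j) (hrow : ∀ i, q i + ∑ j, p i j = 1)
    (hcol : ∀ j, ∑ i, p i j = 1)
    (hsupp : ∀ j, (univ.filter (fun i => p i j ≠ 0)).card ≤ b + 1) (i0 : ι) (j0 : κ) :
    (gg b ^ Fintype.card κ) ^ 2 ≤ Z (qL q) (pL p i0 j0) (univ.disjSum univ) (univ.disjSum univ) := by
  have h := phi_ge (univ.disjSum univ : Finset (ι ⊕ ι)) (qL q) (pL p i0 j0) (fun _ => b)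
    (by
      rintro (i | i) _
      · exact hq i
      · exact hq i)
    (by
      have hpm : ∀ i j, 0 ≤ pm p i0 j0 i j := by
        intro i j
        unfold pm
        split_ifs
        · exact le_refl _
        · exact hp i j
      rintro (i | i) _ (j | j)
      · exact hpm i j
      · simp only [pL]
        split_ifs
        · exact hp _ _
        · exact le_refl _
      · simp only [pL]
        split_ifs
        · exact hp _ _
        · exact le_refl _
      · exact hpm i j)
    (by
      have hs : ∀ i, ∑ j, pm p i0 j0 i j + ∑ j, (if i = i0 ∧ j = j0 then p i0 j0 else 0) =
          ∑ j, p i j := by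
        intro i
        rw [← sum_add_distrib]
        apply sum_congr rfl
        intro j _
        unfold pm
        by_cases h : i = i0 ∧ j = j0
        · rw [if_pos h, if_pos h, h.1, h.2, zero_add]
        · rw [if_neg h, if_neg h, add_zero]
      rintro (i | i) _
      · rw [Fintype.sum_sum_type]
        simp only [pL, qL, Sum.elim_inl]
        rw [hs]
        exact hrow i
      · rw [Fintype.sum_sum_type, add_comm (∑ a₁, _)]
        simp only [pL, qL, Sum.elim_inr]
        rw [hs]
        exact hrow i)
    (by
      have hs : ∀ j, ∑ i, pm p i0 j0 i j + ∑ i, (if i = i0 ∧ j = j0 then p i0 j0 else 0) =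
          ∑ i, p i j := by
        intro j
        rw [← sum_add_distrib]
        apply sum_congr rfl
        intro i _
        unfold pm
        by_cases h : i = i0 ∧ j = j0
        · rw [if_pos h, if_pos h, h.1, h.2, zero_add]
        · rw [if_neg h, if_neg h, add_zero]
      rintro (j | j)
      · rw [sum_disjSum]
        simp only [pL]
        rw [hs]
        exact hcol j
      · rw [sum_disjSum, add_comm]
        simp only [pL]
        rw [hs]
        exact hcol j)
    (by
      intro j
      have hgen : ∀ j' : κ, ∀ s : Finset (ι ⊕ ι),
          (∀ x ∈ s, p (Sum.elim id id x) j' ≠ 0) →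
          (∀ x ∈ s, ∀ y ∈ s, Sum.elim id id x = Sum.elim id id y → x = y) →
          s.card ≤ b + 1 := by
        intro j' s g1 g2
        refine le_trans ?_ (hsupp j')
        apply card_le_card_of_injOn (Sum.elim id id)
        · intro x hx
          simp only [coe_filter, mem_univ, true_and, Set.mem_ofPred_eq]
          exact g1 x hx
        · intro x hx y hy hxy
          exact g2 x hx y hy hxy
      rcases j with j | j
      · apply hgen j
        · intro x hx
          rw [mem_filter] at hx
          rcases x with i | i
          · have := hx.2
            simp only [pL, pm] at this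
            by_contra hc
            simp only [Sum.elim_inl, id_eq] at hc
            rw [hc] at this
            simp at this
          · have := hx.2
            simp only [pL] at this
            by_cases h : i = i0 ∧ j = j0
            · rw [if_pos h] at this
              simp only [Sum.elim_inr, id_eq]
              rw [h.1, h.2]
              exact this
            · rw [if_neg h] at this
              exact absurd rfl this
        · intro x hx y hy hxy
          rw [mem_filter] at hx hy
          rcases x with i | i <;> rcases y with i' | i' <;>
            simp only [Sum.elim_inl, Sum.elim_inr, id_eq] at hxy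
          · rw [hxy]
          · exfalso
            subst hxy
            have h1 := hx.2
            have h2 := hy.2
            simp only [pL, pm] at h1 h2
            by_cases h : i = i0 ∧ j = j0
            · rw [if_pos h] at h1; exact h1 rfl
            · rw [if_neg h] at h2; exact h2 rfl
          · exfalso
            subst hxy
            have h1 := hx.2
            have h2 := hy.2
            simp only [pL, pm] at h1 h2
            by_cases h : i = i0 ∧ j = j0
            · rw [if_pos h] at h2; exact h2 rfl
            · rw [if_neg h] at h1; exact h1 rfl
          · rw [hxy]
      · apply hgen j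
        · intro x hx
          rw [mem_filter] at hx
          rcases x with i | i
          · have := hx.2
            simp only [pL] at this
            by_cases h : i = i0 ∧ j = j0
            · rw [if_pos h] at this
              simp only [Sum.elim_inl, id_eq]
              rw [h.1, h.2]
              exact this
            · rw [if_neg h] at this
              exact absurd rfl this
          · have := hx.2
            simp only [pL, pm] at this
            by_contra hc
            simp only [Sum.elim_inr, id_eq] at hc
            rw [hc] at this
            simp at this
        · intro x hx y hy hxy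
          rw [mem_filter] at hx hy
          rcases x with i | i <;> rcases y with i' | i' <;>
            simp only [Sum.elim_inl, Sum.elim_inr, id_eq] at hxy
          · rw [hxy]
          · exfalso
            subst hxy
            have h1 := hx.2
            have h2 := hy.2
            simp only [pL, pm] at h1 h2
            by_cases h : i = i0 ∧ j = j0
            · rw [if_pos h] at h2; exact h2 rfl
            · rw [if_neg h] at h1; exact h1 rfl
          · exfalso
            subst hxy
            have h1 := hx.2
            have h2 := hy.2
            simp only [pL, pm] at h1 h2
            by_cases h : i = i0 ∧ j = j0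
            · rw [if_pos h] at h1; exact h1 rfl
            · rw [if_neg h] at h2; exact h2 rfl
          · rw [hxy])
  have hu : (univ : Finset (κ ⊕ κ)) = univ.disjSum univ := by
    ext x; rcases x with x | x <;> simp
  rw [← hu]
  refine le_trans (le_of_eq ?_) h
  rw [prod_const, card_univ, Fintype.card_sum, ← pow_mul]
  congr 1
  ring

end Pool.Agent.Q161.Sh
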