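import Pool.Agent.Q161.ShE

set_option autoImplicit false
open scoped BigOperators

/-!
# Strict inequality, II
-/

namespace Pool.Agent.Q161.Sh

open Pool.Agent.H450R3.Fg Finset

variable {ι : Type*} [Fintype ι] [DecidableEq ι]

/-- the columns `0, …, m` lie on a cycle with the rows `r 0, …, r m`; if there are more than two
columns, then the other rows meet at most one column -/
structure Cyc {m : ℕ} (E : ι → Fin (m + 1) → Prop) (d : ℕ) (r : Fin (m + 1) → ι) : Prop where
  two : 1 ≤ m
  inj : Function.Injective r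
  adj : ∀ a, E (r a) a
  nxt : ∀ a : Fin m, E (r a.castSucc) a.succ
  clo : E (r (Fin.last m)) 0
  off : m = 1 ∨ ∀ i, (∀ a, r a ≠ i) → ∀ j j', E i j → E i j' → j = j'
  deg : ∀ j, ∃ s : Finset ι, s.card = d ∧ ∀ i, E i j ↔ i ∈ s

/-- a full matrix has a cycle through all the columns with positive slack outside -/
lemma exists_cycle {m d : ℕ} {E : ι → Fin (m + 1) → Prop} {r : Fin (m + 1) → ι} (hC : Cyc E d r)
    (q : ι → ℝ) (p : ι → Fin (m + 1) → ℝ) (hq : ∀ i, 0 ≤ q i) (hp : ∀ i j, 0 ≤ p i j)
    (hsup : ∀ i j, ¬ E i j → p i j = 0) (hrow : ∀ i, q i + ∑ j, p i j = 1)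
    (hcol : ∀ j, ∑ i, p i j = 1) (hfull : ∀ i j, E i j → 0 < p i j) :
    ∃ r' : Fin (m + 1) → ι, Function.Injective r' ∧ (∀ a, E (r' a) a) ∧
      (∀ a : Fin m, E (r' a.castSucc) a.succ) ∧ E (r' (Fin.last m)) 0 ∧
      ∀ i, (∀ a, r' a ≠ i) → 0 < q i := by
  -- two different rows in a column
  have hlt : ∀ i j i', i ≠ i' → 0 < p i' j → p i j < 1 := by
    intro i j i' hne hpos
    have h1 : p i j + p i' j ≤ ∑ a, p a j := by
      rw [← sum_pair hne (f := fun a => p a j)]
      exact sum_le_univ_sum_of_nonneg fun a => hp a j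
    rw [hcol] at h1
    linarith
  rcases hC.off with hm | hoff
  · -- two columns
    subst hm
    by_cases hall : ∀ i, (∀ a, r a ≠ i) → 0 < q i
    · exact ⟨r, hC.inj, hC.adj, hC.nxt, hC.clo, hall⟩
    · push Not at hall
      obtain ⟨i, hi, hqi⟩ := hall
      have hqi0 : q i = 0 := le_antisymm hqi (hq i)
      have hsum : p i 0 + p i 1 = 1 := by
        have := hrow i
        rw [hqi0, zero_add, Fin.sum_univ_two] at this
        exact this
      have h00 : 0 < p (r 0) 0 := hfull _ _ (hC.adj 0)
      have h01 : 0 < p (r 0) 1 := hfull _ _ (hC.nxt 0)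
      have hi0 : r 0 ≠ i := hi 0
      have g0 : p i 0 < 1 := hlt i 0 (r 0) hi0.symm h00
      have g1 : p i 1 < 1 := hlt i 1 (r 0) hi0.symm h01
      have e0 : E i 0 := by
        by_contra h
        have := hsup i 0 h
        linarith
      have e1 : E i 1 := by
        by_contra h
        have := hsup i 1 h
        linarith
      refine ⟨![i, r 0], ?_, ?_, ?_, ?_, ?_⟩
      · intro a b hab
        fin_cases a <;> fin_cases b <;> simp at hab ⊢
        · exact hi0 hab.symm
        · exact hi0 hab
      · intro a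
        fin_cases a
        · exact e0
        · exact hC.nxt 0
      · intro a
        fin_cases a
        exact e1
      · exact hC.adj 0
      · intro i' hi'
        have n1 : i ≠ i' := hi' 0
        have n2 : r 0 ≠ i' := hi' 1
        by_contra hc
        have hqi' : q i' = 0 := le_antisymm (not_lt.1 hc) (hq i')
        have hsum' : p i' 0 + p i' 1 = 1 := by
          have := hrow i'
          rw [hqi', zero_add, Fin.sum_univ_two] at this
          exact this
        have htot : ∑ a, (p a 0 + p a 1) = 2 := by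
          rw [sum_add_distrib, hcol, hcol]; norm_num
        have h3 : ∑ a ∈ ({i, i', r 0} : Finset ι), (p a 0 + p a 1) ≤ ∑ a, (p a 0 + p a 1) :=
          sum_le_univ_sum_of_nonneg fun a => add_nonneg (hp a 0) (hp a 1)
        rw [sum_insert (by simp [n1, hi0.symm]), sum_insert (by simp [n2.symm]), sum_singleton,
          hsum, hsum', htot] at h3
        linarith
  · refine ⟨r, hC.inj, hC.adj, hC.nxt, hC.clo, ?_⟩
    intro i hi
    by_cases hj : ∃ j, E i j
    · obtain ⟨j, hj⟩ := hj
      have h1 : ∑ j', p i j' = p i j := by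
        rw [← add_sum_erase univ _ (mem_univ j)]
        rw [sum_eq_zero, add_zero]
        intro j' hj'
        apply hsup
        intro h
        exact (mem_erase.1 hj').1 (hoff i hi j' j h hj)
      have h2 : p i j < 1 := hlt i j (r j) (hi j).symm (hfull _ _ (hC.adj j))
      have := hrow i
      rw [h1] at this
      linarith
    · push Not at hj
      have h1 : ∑ j', p i j' = 0 := sum_eq_zero fun j' _ => hsup i j' (hj j')
      have := hrow i
      rw [h1] at this
      linarith

/-- **Strict inequality on a cycle.** -/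
theorem strict {m d : ℕ} {E : ι → Fin (m + 1) → Prop} {r : Fin (m + 1) → ι} (hC : Cyc E (d + 1) r)
    (q : ι → ℝ) (p : ι → Fin (m + 1) → ℝ) (hq : ∀ i, 0 ≤ q i) (hp : ∀ i j, 0 ≤ p i j)
    (hsup : ∀ i j, ¬ E i j → p i j = 0) (hrow : ∀ i, q i + ∑ j, p i j = 1)
    (hcol : ∀ j, ∑ i, p i j = 1) : gg d ^ (m + 1) < Z q p univ univ := by
  classical
  have hnz : ∀ i j, p i j ≠ 0 → E i j := by
    intro i j h
    by_contra h'
    exact h (hsup i j h')
  have hsc : ∀ j, (univ.filter (fun i => p i j ≠ 0)).card ≤ d + 1 := by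
    intro j
    obtain ⟨s, hs1, hs2⟩ := hC.deg j
    rw [← hs1]
    apply card_le_card
    intro i hi
    rw [mem_filter] at hi
    exact (hs2 i).1 (hnz i j hi.2)
  by_cases hfull : ∀ i j, E i j → 0 < p i j
  · obtain ⟨r', h1, h2, h3, h4, h5⟩ := exists_cycle hC q p hq hp hsup hrow hcol hfull
    have hm := hC.two
    have hpm : ∀ i j, 0 ≤ pm p (r' (Fin.last m)) 0 i j := by
      intro i j
      unfold pm
      split_ifs
      · exact le_refl _
      · exact hp i j
    have hlast : Fin.last m ≠ 0 := by
      intro h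
      have := congrArg Fin.val h
      simp at this
      omega
    have hD := path_pos q (pm p (r' (Fin.last m)) 0) r' h1 hq hpm
      (by
        intro a
        unfold pm
        have : ¬ (r' a = r' (Fin.last m) ∧ a = 0) := by
          rintro ⟨g1, g2⟩
          exact hlast ((h1 g1).symm.trans g2)
        rw [if_neg this]
        exact hfull _ _ (h2 a))
      (by
        intro a
        unfold pm
        have : ¬ (r' a.castSucc = r' (Fin.last m) ∧ a.succ = 0) := by
          rintro ⟨_, g2⟩
          exact Fin.succ_ne_zero a g2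
        rw [if_neg this]
        exact hfull _ _ (h3 a)) h5
    have hL := lift_eq q p univ univ (r' (Fin.last m)) (0 : Fin (m + 1)) (mem_univ _) (mem_univ _)
    have hG := lift_ge q p d hq hp hrow hcol hsc (r' (Fin.last m)) (0 : Fin (m + 1))
    have hp0 : 0 < p (r' (Fin.last m)) 0 := hfull _ _ h4
    rw [Fintype.card_fin] at hG
    have hsq : (gg d ^ (m + 1)) ^ 2 < (Z q p univ univ) ^ 2 := by
      rw [hL]
      have : 0 < 2 * p (r' (Fin.last m)) 0 *
          Dl q (pm p (r' (Fin.last m)) 0) univ univ (r' (Fin.last m)) 0 := by positivity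
      linarith
    exact lt_of_pow_lt_pow_left₀ 2 (Z_nonneg q p univ univ (fun i _ => hq i)
      (fun i _ j _ => hp i j)) hsq
  · push Not at hfull
    obtain ⟨i1, j1, hE1, hp1⟩ := hfull
    have hp1' : p i1 j1 = 0 := le_antisymm hp1 (hp i1 j1)
    -- d ≥ 1
    have hd : 1 ≤ d := by
      obtain ⟨s, hs1, hs2⟩ := hC.deg 0
      have g1 : r 0 ∈ s := (hs2 _).1 (hC.adj 0)
      have g2 : r (Fin.last m) ∈ s := (hs2 _).1 hC.clo
      have hne : r 0 ≠ r (Fin.last m) := by
        intro h
        have := congrArg Fin.val (hC.inj h)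
        simp at this
        have := hC.two
        omega
      have : 1 < s.card := one_lt_card.2 ⟨_, g1, _, g2, hne⟩
      omega
    obtain ⟨d', rfl⟩ : ∃ d', d = d' + 1 := ⟨d - 1, by omega⟩
    have h := phi_ge univ q p (fun j => if j = j1 then d' else d' + 1) (fun i _ => hq i)
      (fun i _ j => hp i j) (fun i _ => hrow i) hcol (by
        intro j
        by_cases hj : j = j1
        · subst hj
          rw [if_pos rfl]
          obtain ⟨s, hs1, hs2⟩ := hC.deg j
          have : (univ.filter (fun i => p i j ≠ 0)) ⊆ s.erase i1 := by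
            intro i hi
            rw [mem_filter] at hi
            rw [mem_erase]
            refine ⟨?_, (hs2 i).1 (hnz i j hi.2)⟩
            rintro rfl
            exact hi.2 hp1'
          refine (card_le_card this).trans ?_
          rw [card_erase_of_mem ((hs2 i1).1 hE1), hs1]
          omega
        · rw [if_neg hj]
          exact hsc j)
    refine lt_of_lt_of_le ?_ h
    rw [← mul_prod_erase univ _ (mem_univ j1), if_pos rfl]
    have e1 : ∏ x ∈ univ.erase j1, gg (if x = j1 then d' else d' + 1) = gg (d' + 1) ^ m := by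
      rw [prod_congr rfl (fun x hx => by rw [if_neg (mem_erase.1 hx).1])]
      rw [prod_const, card_erase_of_mem (mem_univ _), card_univ, Fintype.card_fin]
      rfl
    rw [e1, pow_succ, mul_comm]
    exact mul_lt_mul_of_pos_right (gg_lt d') (pow_pos (gg_pos _) _)

end Pool.Agent.Q161.Sh
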