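import Pool.Agent.Q161.ShF

set_option autoImplicit false
open scoped BigOperators

/-!
# A uniform gap by compactness, and scaling
-/

namespace Pool.Agent.Q161.Sh

open Pool.Agent.H450R3.Fg Finset Filter Topology

/-- the gap property of a pattern of nonzero entries -/
def Gap (d : ℕ) (m N : ℕ) (E : Fin N → Fin (m + 1) → Prop) (δ : ℝ) : Prop :=
  ∀ p : Fin N → Fin (m + 1) → ℝ, (∀ i j, 0 ≤ p i j) → (∀ i j, ¬ E i j → p i j = 0) →
    (∀ i, ∑ j, p i j ≤ 1) → (∀ j, |∑ i, p i j - 1| ≤ δ) →
    gg d ^ (m + 1) + δ ≤ Z (fun i => 1 - ∑ j, p i j) p univ univ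

lemma Gap.mono {d m N : ℕ} {E : Fin N → Fin (m + 1) → Prop} {δ δ' : ℝ} (h : Gap d m N E δ)
    (hd : δ' ≤ δ) : Gap d m N E δ' := by
  intro p h1 h2 h3 h4
  have := h p h1 h2 h3 (fun j => (h4 j).trans hd)
  linarith

theorem exists_gap {d m N : ℕ} {E : Fin N → Fin (m + 1) → Prop} {r : Fin (m + 1) → Fin N}
    (hC : Cyc E (d + 1) r) : ∃ δ > 0, Gap d m N E δ := by
  by_contra hcon
  push Not at hcon
  have h1 : ∀ n : ℕ, ∃ p : Fin N → Fin (m + 1) → ℝ, (∀ i j, 0 ≤ p i j) ∧
      (∀ i j, ¬ E i j → p i j = 0) ∧ (∀ i, ∑ j, p i j ≤ 1) ∧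
      (∀ j, |∑ i, p i j - 1| ≤ 1 / ((n : ℝ) + 1)) ∧
      Z (fun i => 1 - ∑ j, p i j) p univ univ < gg d ^ (m + 1) + 1 / ((n : ℝ) + 1) := by
    intro n
    have := hcon (1 / ((n : ℝ) + 1)) (by positivity)
    unfold Gap at this
    push Not at this
    obtain ⟨p, a1, a2, a3, a4, a5⟩ := this
    exact ⟨p, a1, a2, a3, a4, a5⟩
  choose P hP0 hPE hPr hPc hPZ using h1
  have hK : IsCompact (Set.pi Set.univ (fun _ : Fin N => Set.pi Set.univ
      (fun _ : Fin (m + 1) => Set.Icc (0 : ℝ) 1))) :=
    isCompact_univ_pi fun _ => isCompact_univ_pi fun _ => isCompact_Icc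
  have hPK : ∀ n, P n ∈ (Set.pi Set.univ (fun _ : Fin N => Set.pi Set.univ
      (fun _ : Fin (m + 1) => Set.Icc (0 : ℝ) 1))) := by
    intro n i _ j _
    refine ⟨hP0 n i j, ?_⟩
    refine le_trans ?_ (hPr n i)
    exact single_le_sum (fun j' _ => hP0 n i j') (mem_univ j)
  obtain ⟨a, _, φ, hφ, hlim⟩ := hK.tendsto_subseq hPK
  have hcoord : ∀ i j, Tendsto (fun n => P (φ n) i j) atTop (𝓝 (a i j)) := by
    intro i j
    have := (tendsto_pi_nhds.1 ((tendsto_pi_nhds.1 hlim) i)) j
    exact this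
  have ha0 : ∀ i j, 0 ≤ a i j := fun i j => ge_of_tendsto' (hcoord i j) fun n => hP0 _ i j
  have haE : ∀ i j, ¬ E i j → a i j = 0 := by
    intro i j h
    have h1 : Tendsto (fun n => P (φ n) i j) atTop (𝓝 0) := by
      have : (fun n => P (φ n) i j) = fun _ => 0 := funext fun n => hPE _ i j h
      rw [this]; exact tendsto_const_nhds
    exact tendsto_nhds_unique (hcoord i j) h1
  have har : ∀ i, ∑ j, a i j ≤ 1 := by
    intro i
    exact le_of_tendsto' (tendsto_finsetSum _ fun j _ => hcoord i j) fun n => hPr _ i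
  have hinv : Tendsto (fun n : ℕ => 1 / ((φ n : ℝ) + 1)) atTop (𝓝 0) :=
    tendsto_one_div_add_atTop_nhds_zero_nat.comp hφ.tendsto_atTop
  have hac : ∀ j, ∑ i, a i j = 1 := by
    intro j
    have h1 : Tendsto (fun n => |∑ i, P (φ n) i j - 1|) atTop (𝓝 |∑ i, a i j - 1|) :=
      ((tendsto_finsetSum _ fun i _ => hcoord i j).sub tendsto_const_nhds).abs
    have h2 : |∑ i, a i j - 1| ≤ 0 := le_of_tendsto_of_tendsto' h1 hinv fun n => hPc _ j
    have h3 : |∑ i, a i j - 1| = 0 := le_antisymm h2 (abs_nonneg _)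
    rw [abs_eq_zero] at h3
    linarith
  have hstr := strict hC (fun i => 1 - ∑ j, a i j) a (fun i => by have := har i; linarith) ha0 haE
    (fun i => by ring) hac
  have hcont : Continuous fun p : Fin N → Fin (m + 1) → ℝ =>
      Z (fun i => 1 - ∑ j, p i j) p univ univ := by
    apply Z_cont
    · intro i
      exact continuous_const.sub (continuous_finsetSum _ fun j _ =>
        (continuous_apply j).comp (continuous_apply i))
    · intro i j
      exact (continuous_apply j).comp (continuous_apply i)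
  have h4 : Tendsto (fun n => Z (fun i => 1 - ∑ j, P (φ n) i j) (P (φ n)) univ univ) atTop
      (𝓝 (Z (fun i => 1 - ∑ j, a i j) a univ univ)) := (hcont.tendsto a).comp hlim
  have h5 : Tendsto (fun n : ℕ => gg d ^ (m + 1) + 1 / ((φ n : ℝ) + 1)) atTop
      (𝓝 (gg d ^ (m + 1) + 0)) := tendsto_const_nhds.add hinv
  have h6 := le_of_tendsto_of_tendsto' h4 h5 fun n => (hPZ (φ n)).le
  rw [add_zero] at h6
  linarith

lemma common {α : Type*} [Finite α] (Q : α → ℝ → Prop) (h : ∀ a, ∃ δ > 0, Q a δ)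
    (hm : ∀ a δ δ', δ' ≤ δ → Q a δ → Q a δ') : ∃ δ > 0, ∀ a, Q a δ := by
  choose f hf hQ using h
  rcases isEmpty_or_nonempty α with he | hne
  · exact ⟨1, one_pos, fun a => (he.false a).elim⟩
  · obtain ⟨a0, ha0⟩ := Finite.exists_min f
    exact ⟨f a0, hf a0, fun a => hm a _ _ (ha0 a) (hQ a)⟩

/-- one gap for all the patterns of bounded size -/
theorem uniform_gap (d M M' : ℕ) : ∃ δ > 0, ∀ m N : ℕ, m ≤ M → N ≤ M' →
    ∀ E : Fin N → Fin (m + 1) → Prop, (∃ r, Cyc E (d + 1) r) → Gap d m N E δ := by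
  obtain ⟨δ, hδ, h⟩ := common
    (α := Σ (m : Fin (M + 1)) (N : Fin (M' + 1)), (Fin N.1 → Fin (m.1 + 1) → Prop))
    (fun a δ => (∃ r, Cyc a.2.2 (d + 1) r) → Gap d a.1.1 a.2.1.1 a.2.2 δ)
    (by
      rintro ⟨m, N, E⟩
      by_cases hr : ∃ r, Cyc E (d + 1) r
      · obtain ⟨r, hr⟩ := hr
        obtain ⟨δ, h1, h2⟩ := exists_gap hr
        exact ⟨δ, h1, fun _ => h2⟩
      · exact ⟨1, one_pos, fun h => absurd h hr⟩)
    (by
      rintro a δ δ' hle hQ hr
      exact (hQ hr).mono hle)
  refine ⟨δ, hδ, ?_⟩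
  intro m N hm hN E hr
  exact h ⟨⟨m, by omega⟩, ⟨N, by omega⟩, E⟩ hr

/-! ### scaling -/

/-- a near minimiser of the capacity, by penalisation -/
theorem block_model {d m N : ℕ} {E : Fin N → Fin (m + 1) → Prop} {δ : ℝ} (hδ : 0 < δ)
    (hG : Gap d m N E δ) (A : Fin N → Fin (m + 1) → ℝ) (hA : ∀ i j, 0 ≤ A i j)
    (hAE : ∀ i j, ¬ E i j → A i j = 0) (hrow : ∀ i, ∃ j, 0 < A i j) (l : Fin N → ℝ)
    (hl : ∀ i, 0 ≤ l i) (c : ℝ) (hc : 0 ≤ c)
    (hcap : ∀ t : Fin (m + 1) → ℝ, (∀ j, 0 < t j) →
      c * ∏ j, t j ≤ ∏ i, (l i + ∑ j, A i j * t j)) :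
    (gg d ^ (m + 1) + δ) * c ≤ Z l A univ univ := by
  rcases hc.eq_or_lt with hc0 | hcpos
  · rw [← hc0, mul_zero]
    exact Z_nonneg l A univ univ (fun i _ => hl i) (fun i _ j _ => hA i j)
  set D : Fin N → (Fin (m + 1) → ℝ) → ℝ := fun i u => l i + ∑ j, A i j * Real.exp (u j) with hD
  have hDpos : ∀ i u, 0 < D i u := by
    intro i u
    obtain ⟨j, hj⟩ := hrow i
    have h1 : 0 < ∑ j, A i j * Real.exp (u j) := by
      apply sum_pos' (fun j _ => mul_nonneg (hA i j) (Real.exp_pos _).le)
      exact ⟨j, mem_univ j, mul_pos hj (Real.exp_pos _)⟩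
    have := hl i
    simp only [hD]
    linarith
  have hDc : ∀ i, Continuous (D i) := by
    intro i
    apply continuous_const.add
    apply continuous_finsetSum
    intro j _
    exact continuous_const.mul (Real.continuous_exp.comp (continuous_apply j))
  have hlow : ∀ u, Real.log c ≤ ∑ i, Real.log (D i u) - ∑ j, u j := by
    intro u
    have h1 := hcap (fun j => Real.exp (u j)) (fun j => Real.exp_pos _)
    rw [← Real.exp_sum] at h1
    have h2 := Real.log_le_log (by positivity) h1
    rw [Real.log_mul hcpos.ne' (Real.exp_pos _).ne', Real.log_exp,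
      Real.log_prod (fun i _ => (hDpos i u).ne')] at h2
    linarith
  set M : ℝ := ∑ i, Real.log (D i 0) - Real.log c with hM
  have hM0 : 0 ≤ M := by
    have := hlow 0
    simp only [Pi.zero_apply, sum_const_zero, sub_zero] at this
    rw [hM]
    linarith
  set ε : ℝ := δ ^ 2 / (4 * (M + 1)) with hε
  have hεpos : 0 < ε := by positivity
  set F : (Fin (m + 1) → ℝ) → ℝ := fun u =>
    ∑ i, Real.log (D i u) - ∑ j, u j + ε * ∑ j, u j ^ 2 with hF
  have hFc : Continuous F := by
    apply Continuous.add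
    · apply Continuous.sub
      · apply continuous_finsetSum
        intro i _
        exact (hDc i).log fun u => (hDpos i u).ne'
      · exact continuous_finsetSum _ fun j _ => continuous_apply j
    · exact continuous_const.mul (continuous_finsetSum _ fun j _ => (continuous_apply j).pow 2)
  have hnorm : ∀ u : Fin (m + 1) → ℝ, ‖u‖ ^ 2 ≤ ∑ j, u j ^ 2 := by
    intro u
    have h1 : ‖u‖ ≤ Real.sqrt (∑ j, u j ^ 2) := by
      rw [pi_norm_le_iff_of_nonneg (Real.sqrt_nonneg _)]
      intro j
      rw [Real.norm_eq_abs, ← Real.sqrt_sq_eq_abs]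
      apply Real.sqrt_le_sqrt
      exact single_le_sum (f := fun j => u j ^ 2) (fun j _ => sq_nonneg (u j)) (mem_univ j)
    calc ‖u‖ ^ 2 ≤ (Real.sqrt (∑ j, u j ^ 2)) ^ 2 := by
          exact pow_le_pow_left₀ (norm_nonneg u) h1 2
      _ = _ := Real.sq_sqrt (sum_nonneg fun j _ => sq_nonneg _)
  have hFt : Tendsto F (cocompact _) atTop := by
    have h1 : Tendsto (fun u : Fin (m + 1) → ℝ => Real.log c + ε * ‖u‖ ^ 2)
        (cocompact _) atTop := by
      apply tendsto_atTop_add_const_left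
      apply Tendsto.const_mul_atTop hεpos
      exact (tendsto_pow_atTop two_ne_zero).comp tendsto_norm_cocompact_atTop
    apply tendsto_atTop_mono _ h1
    intro u
    have h2 := hlow u
    have h3 := mul_le_mul_of_nonneg_left (hnorm u) hεpos.le
    simp only [hF]
    linarith
  obtain ⟨u, hu⟩ := hFc.exists_forall_le hFt
  have hu2 : ε * ∑ j, u j ^ 2 ≤ M := by
    have h1 := hu 0
    have h2 := hlow u
    simp only [hF, Pi.zero_apply, sum_const_zero, sub_zero] at h1
    have h3 : ∑ j : Fin (m + 1), (0 : ℝ) ^ 2 = 0 := by simp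
    rw [h3, mul_zero, add_zero] at h1
    rw [hM]
    linarith
  set p : Fin N → Fin (m + 1) → ℝ := fun i j => (D i u)⁻¹ * A i j * Real.exp (u j) with hp
  have hp0 : ∀ i j, 0 ≤ p i j := fun i j =>
    mul_nonneg (mul_nonneg (inv_nonneg.2 (hDpos i u).le) (hA i j)) (Real.exp_pos _).le
  have hpE : ∀ i j, ¬ E i j → p i j = 0 := by
    intro i j h
    simp only [hp]
    rw [hAE i j h]; ring
  have hprow : ∀ i, 1 - ∑ j, p i j = (D i u)⁻¹ * l i := by
    intro i
    have h1 : ∑ j, p i j = (D i u)⁻¹ * (∑ j, A i j * Real.exp (u j)) := by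
      rw [mul_sum]
      exact sum_congr rfl fun j _ => by simp only [hp]; ring
    have h2 : ∑ j, A i j * Real.exp (u j) = D i u - l i := by simp only [hD]; ring
    rw [h1, h2]
    have := (hDpos i u).ne'
    field_simp
    ring
  have hprow' : ∀ i, ∑ j, p i j ≤ 1 := by
    intro i
    have h1 := hprow i
    have h2 : 0 ≤ (D i u)⁻¹ * l i := mul_nonneg (inv_nonneg.2 (hDpos i u).le) (hl i)
    linarith
  have hder : ∀ j, ∑ i, p i j - 1 = -(2 * ε * u j) := by
    intro j
    set S : ℝ := ∑ i, p i j with hS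
    set h : ℝ → ℝ := fun τ => S * (Real.exp τ - 1) - τ + ε * (2 * u j * τ + τ ^ 2) with hh
    have hnn : ∀ τ, 0 ≤ h τ := by
      intro τ
      have h1 := hu (Function.update u j (u j + τ))
      have e1 : ∀ i, D i (Function.update u j (u j + τ)) =
          D i u * (1 + p i j * (Real.exp τ - 1)) := by
        intro i
        have h2 : ∑ j', A i j' * Real.exp (Function.update u j (u j + τ) j') =
            ∑ j', A i j' * Real.exp (u j') + A i j * Real.exp (u j) * (Real.exp τ - 1) := by
          rw [← add_sum_erase univ _ (mem_univ j), ← add_sum_erase univ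
            (fun j' => A i j' * Real.exp (u j')) (mem_univ j), Function.update_self]
          have h3 : ∑ x ∈ univ.erase j, A i x * Real.exp (Function.update u j (u j + τ) x) =
              ∑ x ∈ univ.erase j, A i x * Real.exp (u x) := by
            apply sum_congr rfl
            intro x hx
            rw [Function.update_of_ne (mem_erase.1 hx).1]
          rw [h3, Real.exp_add]
          ring
        simp only [hD]
        rw [h2]
        have h4 : (l i + ∑ j', A i j' * Real.exp (u j')) * (p i j * (Real.exp τ - 1)) =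
            A i j * Real.exp (u j) * (Real.exp τ - 1) := by
          have h5 : l i + ∑ j', A i j' * Real.exp (u j') = D i u := rfl
          rw [h5]
          simp only [hp]
          have := (hDpos i u).ne'
          field_simp
        rw [mul_add, mul_one, h4]
        ring
      have e2 : ∀ i, Real.log (D i (Function.update u j (u j + τ))) ≤
          Real.log (D i u) + p i j * (Real.exp τ - 1) := by
        intro i
        have hp2 : 0 < 1 + p i j * (Real.exp τ - 1) := by
          have := hDpos i (Function.update u j (u j + τ))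
          rw [e1] at this
          exact (pos_iff_pos_of_mul_pos this).1 (hDpos i u)
        rw [e1, Real.log_mul (hDpos i u).ne' hp2.ne']
        have := Real.log_le_sub_one_of_pos hp2
        linarith
      have e3 : ∑ i, Real.log (D i (Function.update u j (u j + τ))) ≤
          ∑ i, Real.log (D i u) + S * (Real.exp τ - 1) := by
        rw [hS, sum_mul, ← sum_add_distrib]
        exact sum_le_sum fun i _ => e2 i
      have e4 : ∑ j', Function.update u j (u j + τ) j' = ∑ j', u j' + τ := by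
        rw [← add_sum_erase univ _ (mem_univ j), ← add_sum_erase univ u (mem_univ j),
          Function.update_self]
        have h3 : ∑ x ∈ univ.erase j, Function.update u j (u j + τ) x =
            ∑ x ∈ univ.erase j, u x := by
          apply sum_congr rfl
          intro x hx
          rw [Function.update_of_ne (mem_erase.1 hx).1]
        rw [h3]; ring
      have e5 : ∑ j', (Function.update u j (u j + τ) j') ^ 2 =
          ∑ j', u j' ^ 2 + (2 * u j * τ + τ ^ 2) := by
        rw [← add_sum_erase univ _ (mem_univ j),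
          ← add_sum_erase univ (fun j' => u j' ^ 2) (mem_univ j), Function.update_self]
        have h3 : ∑ x ∈ univ.erase j, (Function.update u j (u j + τ) x) ^ 2 =
            ∑ x ∈ univ.erase j, u x ^ 2 := by
          apply sum_congr rfl
          intro x hx
          rw [Function.update_of_ne (mem_erase.1 hx).1]
        rw [h3]; ring
      simp only [hF] at h1
      rw [e4, e5] at h1
      simp only [hh]
      nlinarith
    have hder1 : HasDerivAt h (S * (Real.exp 0) - 1 + ε * (2 * u j * 1 + 2 * 0 ^ 1 * 1)) 0 := by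
      have a1 : HasDerivAt (fun τ : ℝ => S * (Real.exp τ - 1)) (S * Real.exp 0) 0 :=
        ((Real.hasDerivAt_exp 0).sub_const 1).const_mul S
      have a2 : HasDerivAt (fun τ : ℝ => τ) 1 0 := hasDerivAt_id 0
      have a3 : HasDerivAt (fun τ : ℝ => 2 * u j * τ) (2 * u j * 1) 0 := a2.const_mul _
      have a4 : HasDerivAt (fun τ : ℝ => τ ^ 2) (2 * (0 : ℝ) ^ 1 * 1) 0 := by
        simpa using hasDerivAt_pow 2 (0 : ℝ)
      exact (a1.sub a2).add ((a3.add a4).const_mul ε)
    have hmin : IsLocalMin h 0 := by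
      apply Filter.Eventually.of_forall
      intro τ
      have h0 : h 0 = 0 := by simp [hh]
      rw [h0]
      exact hnn τ
    have := hmin.hasDerivAt_eq_zero hder1
    rw [Real.exp_zero] at this
    linarith
  have hcol : ∀ j, |∑ i, p i j - 1| ≤ δ := by
    intro j
    rw [hder j, abs_neg]
    apply abs_le_of_sq_le_sq _ hδ.le
    have h1 : u j ^ 2 ≤ ∑ j, u j ^ 2 :=
      single_le_sum (f := fun j => u j ^ 2) (fun j _ => sq_nonneg (u j)) (mem_univ j)
    have h2 : ε * u j ^ 2 ≤ M := (mul_le_mul_of_nonneg_left h1 hεpos.le).trans hu2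
    have h3 : 4 * ε * M ≤ δ ^ 2 := by
      have : 4 * ε * (M + 1) = δ ^ 2 := by
        rw [hε]
        field_simp
      nlinarith
    calc (2 * ε * u j) ^ 2 = 4 * ε * (ε * u j ^ 2) := by ring
      _ ≤ 4 * ε * M := mul_le_mul_of_nonneg_left h2 (by positivity)
      _ ≤ δ ^ 2 := h3
  have hfin := hG p hp0 hpE hprow' hcol
  have hZ : Z (fun i => 1 - ∑ j, p i j) p univ univ =
      (∏ i, (D i u)⁻¹) * (∏ j, Real.exp (u j)) * Z l A univ univ := by
    rw [← Z_scale]
    congr 1
    funext i
    exact hprow i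
  rw [hZ] at hfin
  have hcapu := hcap (fun j => Real.exp (u j)) (fun j => Real.exp_pos _)
  have hDp : 0 < ∏ i, D i u := prod_pos fun i _ => hDpos i u
  have hTp : 0 < ∏ j, Real.exp (u j) := prod_pos fun j _ => Real.exp_pos _
  rw [prod_inv_distrib] at hfin
  have hgp : 0 < gg d ^ (m + 1) + δ := by have := pow_pos (gg_pos d) (m + 1); linarith
  have h7 : (gg d ^ (m + 1) + δ) * ∏ i, D i u ≤ (∏ j, Real.exp (u j)) * Z l A univ univ := by
    have h8 := mul_le_mul_of_nonneg_right hfin hDp.le
    calc (gg d ^ (m + 1) + δ) * ∏ i, D i u ≤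
        (∏ i, D i u)⁻¹ * (∏ j, Real.exp (u j)) * Z l A univ univ * ∏ i, D i u := h8
      _ = _ := by field_simp
  have h9 : (∏ j, Real.exp (u j)) * ((gg d ^ (m + 1) + δ) * c) ≤
      (∏ j, Real.exp (u j)) * Z l A univ univ := by
    refine le_trans ?_ h7
    calc (∏ j, Real.exp (u j)) * ((gg d ^ (m + 1) + δ) * c) =
        (gg d ^ (m + 1) + δ) * (c * ∏ j, Real.exp (u j)) := by ring
      _ ≤ _ := mul_le_mul_of_nonneg_left hcapu hgp.le
  exact le_of_mul_le_mul_left h9 hTp

end Pool.Agent.Q161.Sh
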