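import Pool.Agent.Q161.ShG

set_option autoImplicit false
open scoped BigOperators

/-!
# Good blocks of columns and their assembly
-/

namespace Pool.Agent.Q161.Sh

open Pool.Agent.H450R3.Fg Finset

variable {ι κ : Type*} [Fintype ι] [DecidableEq ι] [Fintype κ] [DecidableEq κ]

open Classical in
/-- the rows which meet a set of columns -/
noncomputable def NJ (A : ι → κ → ℝ) (J : Finset κ) : Finset ι :=
  univ.filter (fun i => ∃ j ∈ J, 0 < A i j)

omit [DecidableEq ι] [Fintype κ] [DecidableEq κ] in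
lemma mem_NJ {A : ι → κ → ℝ} {J : Finset κ} {i : ι} : i ∈ NJ A J ↔ ∃ j ∈ J, 0 < A i j := by
  simp [NJ]

/-- a block of columns with a gain `1 + δ` in Gurvits' inequality -/
def Good (d : ℕ) (A : ι → κ → ℝ) (J : Finset κ) (δ : ℝ) : Prop :=
  ∀ l : ι → ℝ, (∀ i, 0 ≤ l i) → ∀ c : ℝ, 0 ≤ c →
    (∀ t : κ → ℝ, (∀ j, 0 < t j) →
      c * ∏ j ∈ J, t j ≤ ∏ i ∈ NJ A J, (l i + ∑ j ∈ J, A i j * t j)) →
    gg d ^ J.card * (1 + δ) * c ≤ Z l A (NJ A J) J

theorem good_of_cycle {d M M' : ℕ} {δ : ℝ} (hδ : 0 < δ)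
    (hgap : ∀ m N : ℕ, m ≤ M → N ≤ M' →
      ∀ E : Fin N → Fin (m + 1) → Prop, (∃ r, Cyc E (d + 1) r) → Gap d m N E δ)
    (A : ι → κ → ℝ) (hA : ∀ i j, 0 ≤ A i j) {m : ℕ} (hm : m ≤ M) (c : Fin (m + 1) ↪ κ)
    (r : Fin (m + 1) → ι) (hN : (NJ A (univ.map c)).card ≤ M') (h1m : 1 ≤ m)
    (hr : Function.Injective r) (h1 : ∀ a, 0 < A (r a) (c a))
    (h2 : ∀ a : Fin m, 0 < A (r a.castSucc) (c a.succ)) (h3 : 0 < A (r (Fin.last m)) (c 0))
    (h4 : m = 1 ∨ ∀ i, (∀ a, r a ≠ i) → ∀ j j', 0 < A i (c j) → 0 < A i (c j') → j = j')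
    (h5 : ∀ j, ∃ s : Finset ι, s.card = d + 1 ∧ ∀ i, 0 < A i j ↔ i ∈ s) :
    Good d A (univ.map c) δ := by
  classical
  intro l hl c0 hc0 hcap
  set N := (NJ A (univ.map c)).card with hNdef
  set e0 : Fin N ≃ {x // x ∈ NJ A (univ.map c)} := (NJ A (univ.map c)).equivFin.symm with he0
  set e : Fin N ↪ ι := e0.toEmbedding.trans (Function.Embedding.subtype _) with he
  have heI : (univ : Finset (Fin N)).map e = NJ A (univ.map c) := by
    ext i
    rw [mem_map]
    constructor
    · rintro ⟨a, _, rfl⟩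
      exact (e0 a).2
    · intro hi
      exact ⟨e0.symm ⟨i, hi⟩, mem_univ _, by simp [he]⟩
  have hex : ∀ i, i ∈ NJ A (univ.map c) → ∃ a, e a = i := by
    intro i hi
    rw [← heI, mem_map] at hi
    obtain ⟨a, _, h⟩ := hi
    exact ⟨a, h⟩
  set A' : Fin N → Fin (m + 1) → ℝ := fun i j => A (e i) (c j) with hA'
  set E : Fin N → Fin (m + 1) → Prop := fun i j => 0 < A' i j with hE
  have hrm : ∀ a, ∃ b, e b = r a := fun a => hex _ (by
    rw [mem_NJ]
    exact ⟨c a, mem_map_of_mem c (mem_univ a), h1 a⟩)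
  choose r' hr' using hrm
  have hC : Cyc E (d + 1) r' := by
    refine ⟨h1m, ?_, ?_, ?_, ?_, ?_, ?_⟩
    · intro a b hab
      apply hr
      rw [← hr' a, ← hr' b, hab]
    · intro a
      change 0 < A (e (r' a)) (c a)
      rw [hr']; exact h1 a
    · intro a
      change 0 < A (e (r' _)) (c _)
      rw [hr']; exact h2 a
    · change 0 < A (e (r' _)) (c _)
      rw [hr']; exact h3
    · rcases h4 with h4 | h4
      · exact Or.inl h4
      · right
        intro i hi j j' hj hj'
        apply h4 (e i) _ j j' hj hj'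
        intro a ha
        apply hi a
        apply e.injective
        rw [hr', ha]
    · intro j
      obtain ⟨s, hs1, hs2⟩ := h5 (c j)
      refine ⟨univ.filter (fun i => e i ∈ s), ?_, ?_⟩
      · rw [← hs1, ← card_map e]
        congr 1
        ext i
        rw [mem_map]
        constructor
        · rintro ⟨a, ha, rfl⟩
          exact (mem_filter.1 ha).2
        · intro hi
          obtain ⟨a, ha⟩ := hex i (by
            rw [mem_NJ]
            exact ⟨c j, mem_map_of_mem c (mem_univ j), (hs2 i).2 hi⟩)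
          exact ⟨a, mem_filter.2 ⟨mem_univ _, by rw [ha]; exact hi⟩, ha⟩
      · intro i
        rw [mem_filter]
        change 0 < A (e i) (c j) ↔ _
        rw [hs2]
        simp
  have hG := hgap m N hm hN E ⟨r', hC⟩
  have hb := block_model (d := d) hδ hG A' (fun i j => hA _ _)
    (fun i j h => le_antisymm (not_lt.1 h) (hA _ _))
    (by
      intro i
      have : e i ∈ NJ A (univ.map c) := by
        rw [← heI]; exact mem_map_of_mem e (mem_univ i)
      rw [mem_NJ] at this
      obtain ⟨j, hj, hpos⟩ := this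
      rw [mem_map] at hj
      obtain ⟨a, _, rfl⟩ := hj
      exact ⟨a, hpos⟩)
    (fun i => l (e i)) (fun i => hl _) c0 hc0
    (by
      intro t ht
      have h6 := hcap (fun j => if h : ∃ a, c a = j then t h.choose else 1) (by
        intro j
        split_ifs with h
        · exact ht _
        · exact one_pos)
      have h7 : ∀ a, (fun j => if h : ∃ a, c a = j then t h.choose else 1) (c a) = t a := by
        intro a
        have hh : ∃ a', c a' = c a := ⟨a, rfl⟩
        simp only [hh, dif_pos]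
        congr 1
        exact c.injective hh.choose_spec
      rw [prod_map, ← heI, prod_map] at h6
      simp only [sum_map] at h6
      simp only [h7] at h6
      exact h6)
  have hZ : Z (fun i => l (e i)) A' univ univ = Z l A (NJ A (univ.map c)) (univ.map c) := by
    rw [← heI, ← Z_map_rows, ← Z_map_cols]
  rw [hZ] at hb
  refine le_trans ?_ hb
  rw [card_map, card_univ, Fintype.card_fin]
  apply mul_le_mul_of_nonneg_right _ hc0
  have : gg d ^ (m + 1) ≤ 1 := pow_le_one₀ (gg_pos d).le (gg_le_one d)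
  nlinarith

/-- assembly of blocks with disjoint sets of rows -/
theorem assemble {d : ℕ} {δ : ℝ} (hδ : 0 < δ) (A : ι → κ → ℝ) (hA : ∀ i j, 0 ≤ A i j)
    (hcol : ∀ j, ∃ i, 0 < A i j) (F : Finset (Finset κ)) :
    (∀ J ∈ F, Good d A J δ) → (∀ J ∈ F, ∀ J' ∈ F, J ≠ J' → Disjoint (NJ A J) (NJ A J')) →
    ∀ l : ι → ℝ, (∀ i, 0 ≤ l i) → ∀ c : ℝ, 0 ≤ c →
      (∀ t : κ → ℝ, (∀ j, 0 < t j) → c * ∏ j ∈ F.biUnion id, t j ≤
        ∏ i ∈ F.biUnion (NJ A), (l i + ∑ j ∈ F.biUnion id, A i j * t j)) →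
      gg d ^ (F.biUnion id).card * (1 + δ) ^ F.card * c ≤
        Z l A (F.biUnion (NJ A)) (F.biUnion id) := by
  induction F using Finset.induction with
  | empty =>
    intro _ _ l _ c hc hcap
    have := hcap (fun _ => 1) (fun _ => one_pos)
    simp only [biUnion_empty, prod_empty, mul_one] at this
    simp only [biUnion_empty, card_empty, pow_zero, one_mul]
    rw [Z_empty_rows, if_pos rfl]
    exact this
  | insert J F hJ ih =>
    intro hgood hdis l hl c hc hcap
    set S := F.biUnion id with hS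
    set I := F.biUnion (NJ A) with hI
    have hgS : 0 < gg d ^ S.card * (1 + δ) ^ F.card := by
      have := gg_pos d
      positivity
    have hgJ : 0 < gg d ^ J.card * (1 + δ) := by
      have := gg_pos d
      positivity
    have hdisI : Disjoint (NJ A J) I := by
      rw [hI, disjoint_biUnion_right]
      intro J' hJ'
      exact hdis J (mem_insert_self _ _) J' (mem_insert_of_mem hJ') (by rintro rfl; exact hJ hJ')
    have hdisS : Disjoint J S := by
      rw [hS, disjoint_biUnion_right]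
      intro J' hJ'
      rw [disjoint_left]
      intro j hj hj'
      obtain ⟨i, hi⟩ := hcol j
      have h1 : i ∈ NJ A J := mem_NJ.2 ⟨j, hj, hi⟩
      have h2 : i ∈ NJ A J' := mem_NJ.2 ⟨j, hj', hi⟩
      exact (disjoint_left.1 (hdis J (mem_insert_self _ _) J' (mem_insert_of_mem hJ')
        (by rintro rfl; exact hJ hJ'))) h1 h2
    have hz1 : ∀ i ∈ NJ A J, ∀ j ∈ S, A i j = 0 := by
      intro i hi j hj
      by_contra h
      have hpos : 0 < A i j := lt_of_le_of_ne (hA i j) (Ne.symm h)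
      rw [hS, mem_biUnion] at hj
      obtain ⟨J', hJ', hj'⟩ := hj
      exact (disjoint_left.1 hdisI) hi (mem_biUnion.2 ⟨J', hJ', mem_NJ.2 ⟨j, hj', hpos⟩⟩)
    have hz2 : ∀ i ∈ I, ∀ j ∈ J, A i j = 0 := by
      intro i hi j hj
      by_contra h
      have hpos : 0 < A i j := lt_of_le_of_ne (hA i j) (Ne.symm h)
      exact (disjoint_left.1 hdisI) (mem_NJ.2 ⟨j, hj, hpos⟩) hi
    have hbS : (insert J F).biUnion id = J ∪ S := by rw [biUnion_insert]; rfl
    have hbI : (insert J F).biUnion (NJ A) = NJ A J ∪ I := by rw [biUnion_insert]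
    rw [hbS, hbI] at hcap ⊢
    have hZnn1 : 0 ≤ Z l A (NJ A J) J := Z_nonneg l A _ _ (fun i _ => hl i) (fun i _ j _ => hA i j)
    have hZnn2 : 0 ≤ Z l A I S := Z_nonneg l A _ _ (fun i _ => hl i) (fun i _ j _ => hA i j)
    have hZnn : 0 ≤ Z l A (NJ A J ∪ I) (J ∪ S) :=
      Z_nonneg l A _ _ (fun i _ => hl i) (fun i _ j _ => hA i j)
    rcases hc.eq_or_lt with hc0 | hcpos
    · rw [← hc0, mul_zero]; exact hZnn
    -- the split inequality
    have hsplit : ∀ t1 t2 : κ → ℝ, (∀ j, 0 < t1 j) → (∀ j, 0 < t2 j) →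
        c * ((∏ j ∈ J, t1 j) * ∏ j ∈ S, t2 j) ≤ (∏ i ∈ NJ A J, (l i + ∑ j ∈ J, A i j * t1 j)) *
          ∏ i ∈ I, (l i + ∑ j ∈ S, A i j * t2 j) := by
      intro t1 t2 ht1 ht2
      have h := hcap (fun j => if j ∈ J then t1 j else t2 j) (by
        intro j; split_ifs
        · exact ht1 j
        · exact ht2 j)
      rw [prod_union hdisS, prod_union hdisI] at h
      have e1 : ∏ j ∈ J, (if j ∈ J then t1 j else t2 j) = ∏ j ∈ J, t1 j :=
        prod_congr rfl fun j hj => by rw [if_pos hj]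
      have e2 : ∏ j ∈ S, (if j ∈ J then t1 j else t2 j) = ∏ j ∈ S, t2 j :=
        prod_congr rfl fun j hj => by
          rw [if_neg (fun h' => (disjoint_left.1 hdisS) h' hj)]
      have e3 : ∏ i ∈ NJ A J, (l i + ∑ j ∈ J ∪ S, A i j * (if j ∈ J then t1 j else t2 j)) =
          ∏ i ∈ NJ A J, (l i + ∑ j ∈ J, A i j * t1 j) := by
        apply prod_congr rfl
        intro i hi
        rw [sum_union hdisS, sum_eq_zero (s := S) (fun j hj => by rw [hz1 i hi j hj, zero_mul]),
          add_zero]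
        congr 1
        exact sum_congr rfl fun j hj => by rw [if_pos hj]
      have e4 : ∏ i ∈ I, (l i + ∑ j ∈ J ∪ S, A i j * (if j ∈ J then t1 j else t2 j)) =
          ∏ i ∈ I, (l i + ∑ j ∈ S, A i j * t2 j) := by
        apply prod_congr rfl
        intro i hi
        rw [sum_union hdisS, sum_eq_zero (s := J) (fun j hj => by rw [hz2 i hi j hj, zero_mul]),
          zero_add]
        congr 1
        exact sum_congr rfl fun j hj => by
          rw [if_neg (fun h' => (disjoint_left.1 hdisS) h' hj)]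
      rw [e1, e2, e3, e4] at h
      exact h
    have hRnn : ∀ t2 : κ → ℝ, (∀ j, 0 < t2 j) → 0 ≤ ∏ i ∈ I, (l i + ∑ j ∈ S, A i j * t2 j) := by
      intro t2 ht2
      exact prod_nonneg fun i _ => add_nonneg (hl i)
        (sum_nonneg fun j _ => mul_nonneg (hA i j) (ht2 j).le)
    have hRpos : ∀ t2 : κ → ℝ, (∀ j, 0 < t2 j) → 0 < ∏ i ∈ I, (l i + ∑ j ∈ S, A i j * t2 j) := by
      intro t2 ht2
      rcases (hRnn t2 ht2).eq_or_lt with h0 | h0
      · exfalso
        have h := hsplit (fun _ => 1) t2 (fun _ => one_pos) ht2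
        rw [← h0, mul_zero, prod_const_one, one_mul] at h
        have : 0 < ∏ j ∈ S, t2 j := prod_pos fun j _ => ht2 j
        have := mul_pos hcpos this
        linarith
      · exact h0
    have hstep : ∀ t2 : κ → ℝ, (∀ j, 0 < t2 j) →
        gg d ^ J.card * (1 + δ) * c * ∏ j ∈ S, t2 j ≤
          Z l A (NJ A J) J * ∏ i ∈ I, (l i + ∑ j ∈ S, A i j * t2 j) := by
      intro t2 ht2
      have hR := hRpos t2 ht2
      have hT : 0 < ∏ j ∈ S, t2 j := prod_pos fun j _ => ht2 j
      have h := hgood J (mem_insert_self _ _) l hl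
        (c * (∏ j ∈ S, t2 j) / ∏ i ∈ I, (l i + ∑ j ∈ S, A i j * t2 j))
        (div_nonneg (mul_nonneg hc hT.le) hR.le) (by
          intro t1 ht1
          rw [div_mul_eq_mul_div, div_le_iff₀ hR]
          calc c * (∏ j ∈ S, t2 j) * ∏ j ∈ J, t1 j =
              c * ((∏ j ∈ J, t1 j) * ∏ j ∈ S, t2 j) := by ring
            _ ≤ _ := hsplit t1 t2 ht1 ht2)
      rw [mul_div_assoc', div_le_iff₀ hR] at h
      calc gg d ^ J.card * (1 + δ) * c * ∏ j ∈ S, t2 j =
          gg d ^ J.card * (1 + δ) * (c * ∏ j ∈ S, t2 j) := by ring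
        _ ≤ _ := h
    have hZ1 : 0 < Z l A (NJ A J) J := by
      rcases hZnn1.eq_or_lt with h0 | h0
      · exfalso
        have h := hstep (fun _ => 1) (fun _ => one_pos)
        rw [← h0, zero_mul, prod_const_one, mul_one] at h
        have := mul_pos hgJ hcpos
        linarith
      · exact h0
    have hih := ih (fun J' h => hgood J' (mem_insert_of_mem h))
      (fun J1 h1 J2 h2 => hdis J1 (mem_insert_of_mem h1) J2 (mem_insert_of_mem h2)) l hl
      (gg d ^ J.card * (1 + δ) * c / Z l A (NJ A J) J)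
      (div_nonneg (mul_nonneg hgJ.le hc) hZ1.le) (by
        intro t2 ht2
        rw [div_mul_eq_mul_div, div_le_iff₀ hZ1]
        calc _ ≤ _ := hstep t2 ht2
          _ = _ := by ring)
    rw [mul_div_assoc', div_le_iff₀ hZ1] at hih
    rw [card_union_of_disjoint hdisS, card_insert_of_notMem hJ]
    calc gg d ^ (J.card + S.card) * (1 + δ) ^ (F.card + 1) * c =
        gg d ^ S.card * (1 + δ) ^ F.card * (gg d ^ J.card * (1 + δ) * c) := by
          rw [pow_add, pow_succ]; ring
      _ ≤ Z l A I S * Z l A (NJ A J) J := hih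
      _ = Z l A (NJ A J) J * Z l A I S := by ring
      _ ≤ _ := Z_super l A _ _ hdisI _ _ hdisS (fun i _ => hl i) (fun i _ j _ => hA i j)

end Pool.Agent.Q161.Sh
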