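import Pool.Agent.Q161.ShH

set_option autoImplicit false
open scoped BigOperators

/-!
# The lower bound for the number of perfect matchings (matrix form)
-/

namespace Pool.Agent.Q161.Sh

open Pool.Agent.Helper886.HCube Pool.Agent.H450R3.Fg Finset

variable {ι κ : Type*} [Fintype ι] [DecidableEq ι] [Fintype κ] [DecidableEq κ]

lemma exists_enum (S : Finset κ) (r k n : ℕ) (hr : S.card = r) (hn : Fintype.card κ = n)
    (hk : k + r = n) : ∃ e : Fin (k + r) ≃ κ, (∀ j : Fin r, e (ps j) ∈ S) ∧
      (∀ i : Fin k, e (pt i) ∉ S) := by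
  classical
  have h1 : Fintype.card {x // x ∈ S} = r := by rw [Fintype.card_coe, hr]
  have h2 : Fintype.card {x // x ∉ S} = k := by
    rw [Fintype.card_subtype_compl, Fintype.card_coe, hr, hn]
    omega
  let e1 : Fin r ≃ {x // x ∈ S} := (Fintype.equivFinOfCardEq h1).symm
  let e2 : Fin k ≃ {x // x ∉ S} := (Fintype.equivFinOfCardEq h2).symm
  let e : Fin (k + r) ≃ κ :=
    (finCongr (add_comm k r)).trans (finSumFinEquiv.symm.trans
      ((Equiv.sumCongr e1 e2).trans (Equiv.sumCompl (fun x => x ∈ S))))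
  refine ⟨e, ?_, ?_⟩
  · intro j
    have : (finCongr (add_comm k r)) (ps j) = Fin.castAdd k j := by
      apply Fin.ext; simp [ps]
    simp only [e, Equiv.trans_apply, this, finSumFinEquiv_symm_apply_castAdd]
    exact (e1 j).2
  · intro i
    have : (finCongr (add_comm k r)) (pt i) = Fin.natAdd r i := by
      apply Fin.ext; simp [pt]
    simp only [e, Equiv.trans_apply, this, finSumFinEquiv_symm_apply_natAdd]
    exact (e2 i).2

theorem matrix_lower {d n : ℕ} {δ : ℝ} (hδ : 0 < δ) (hι : Fintype.card ι = n)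
    (hκ : Fintype.card κ = n) (A : ι → κ → ℝ) (hA : ∀ i j, 0 ≤ A i j) (D : ℝ) (hD : 0 < D)
    (hrow : ∀ i, ∑ j, A i j = D) (hcol : ∀ j, ∑ i, A i j = D)
    (hsupp : ∀ j, (univ.filter (fun i => A i j ≠ 0)).card ≤ d + 1)
    (F : Finset (Finset κ)) (hgood : ∀ J ∈ F, Good d A J δ)
    (hdis : ∀ J ∈ F, ∀ J' ∈ F, J ≠ J' → Disjoint (NJ A J) (NJ A J')) :
    (D * gg d) ^ n * (1 + δ) ^ F.card ≤ Z (fun _ => 0) A univ univ := by
  classical
  have hcpos : ∀ j, ∃ i, 0 < A i j := by
    intro j
    by_contra h
    push Not at h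
    have : ∑ i, A i j ≤ 0 := sum_nonpos fun i _ => h i
    rw [hcol] at this
    linarith
  set S := F.biUnion id with hS
  set I := F.biUnion (NJ A) with hI
  have hSn : S.card ≤ n := by
    rw [← hκ]; exact card_le_univ S
  obtain ⟨r, hr⟩ : ∃ r, S.card = r := ⟨_, rfl⟩
  obtain ⟨k, hk⟩ : ∃ k, (0 + k) + r = n := ⟨n - r, by omega⟩
  obtain ⟨e, he1, he2⟩ := exists_enum S r (0 + k) n hr hκ hk
  set A' : ι → Fin ((0 + k) + r) → ℝ := fun i y => A i (e y) with hA'
  set f := PR univ A' with hf
  have hA'nn : ∀ i ∈ (univ : Finset ι), ∀ y, 0 ≤ A' i y := fun i _ y => hA _ _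
  have hA'row : ∀ i, ∑ y, A' i y = D := by
    intro i
    rw [← hrow i]
    exact e.sum_comp (fun j => A i j)
  have hhom : f.IsHomogeneous ((0 + k) + r) := by
    have := PR_hom (univ : Finset ι) A'
    rw [card_univ, hι, ← hk] at this
    exact this
  have hst : Stab f := PR_stab univ A' hA'nn (fun i _ => by rw [hA'row i]; exact hD)
  have hdeg : ∀ y, f.degreeOf y ≤ d + 1 := by
    intro y
    exact (PR_degree univ A' y).trans (hsupp (e y))
  have hcapf : ∀ y : Fin ((0 + k) + r) → ℝ, (∀ i, 0 < y i) →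
      D ^ n * ∏ i, y i ≤ ∏ i : ι, ∑ y', A' i y' * y y' := by
    intro y hy
    have h1 := amgm univ (fun i y' => A' i y' / D) (fun i hi y' => div_nonneg (hA'nn i hi y') hD.le)
      (fun i _ => by rw [← sum_div, hA'row, div_self hD.ne']) y hy
    have h2 : ∀ y', y y' ^ (∑ i : ι, A' i y' / D) = y y' := by
      intro y'
      rw [← sum_div, hcol (e y'), div_self hD.ne', Real.rpow_one]
    rw [prod_congr rfl fun y' _ => h2 y'] at h1
    have h3 : ∏ i : ι, ∑ y', A' i y' * y y' = D ^ n * ∏ i : ι, ∑ y', A' i y' / D * y y' := by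
      rw [← hι, ← card_univ, ← prod_const, ← prod_mul_distrib]
      apply prod_congr rfl
      intro i _
      rw [mul_sum]
      apply sum_congr rfl
      intro y' _
      field_simp
    rw [h3]
    exact mul_le_mul_of_nonneg_left h1 (by positivity)
  -- first elimination
  have hel := elim_all (k := 0 + k) r (0 + k) f (fun _ => d) hhom hst hdeg
    (fun x => D ^ n * ∏ i, x i) (fun x hx => mul_pos (by positivity) (prod_pos fun i _ => hx i))
    (by
      intro y hy
      rw [hf, PR_eval, Complex.norm_real]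
      refine le_trans ?_ (le_abs_self _)
      have h1 := hcapf y hy
      rw [prod_pspt] at h1
      calc D ^ n * (∏ i, y (pt i)) * ∏ j : Fin r, y (ps j) =
          D ^ n * ((∏ j : Fin r, y (ps j)) * ∏ i, y (pt i)) := by ring
        _ ≤ _ := h1)
  obtain ⟨hq1, hq2, _⟩ := hel
  -- the embedding of the eliminated columns
  set es : Fin r ↪ κ := ⟨fun j => e (ps j), by
    intro a b hab
    have h1 : (ps a : Fin ((0 + k) + r)) = ps b := e.injective hab
    have h2 := congrArg Fin.val h1
    exact Fin.ext h2⟩ with hes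
  have hesS : (univ : Finset (Fin r)).map es = S := by
    apply eq_of_subset_of_card_le
    · intro x hx
      rw [mem_map] at hx
      obtain ⟨a, _, rfl⟩ := hx
      exact he1 a
    · rw [card_map, card_univ, Fintype.card_fin, hr]
  -- the improved capacity
  have hbig : ∀ x : Fin (0 + k) → ℝ, (∀ i, 0 < x i) →
      gg d ^ r * (1 + δ) ^ F.card * D ^ n * ∏ i, x i ≤
        ‖MvPolynomial.eval (fun i => ((x i : ℝ) : ℂ)) (qn r f)‖ := by
    intro x hx
    rw [hf, PR_formula, Complex.norm_real]
    refine le_trans ?_ (le_abs_self _)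
    set l : ι → ℝ := fun i => ∑ j : Fin (0 + k), A' i (pt j) * x j with hl
    have hlnn : ∀ i, 0 ≤ l i := fun i => sum_nonneg fun j _ => mul_nonneg (hA _ _) (hx j).le
    have hZ : Z l (fun i (j : Fin r) => A' i (ps j)) univ univ = Z l A univ S := by
      rw [← hesS, ← Z_map_cols]
      rfl
    change _ ≤ Z l (fun i (j : Fin r) => A' i (ps j)) univ univ
    rw [hZ]
    -- rows outside
    have hzero : ∀ i ∉ I, ∀ j ∈ S, A i j = 0 := by
      intro i hi j hj
      by_contra h
      have hpos : 0 < A i j := lt_of_le_of_ne (hA i j) (Ne.symm h)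
      rw [hS, mem_biUnion] at hj
      obtain ⟨J', hJ', hj'⟩ := hj
      exact hi (mem_biUnion.2 ⟨J', hJ', mem_NJ.2 ⟨j, hj', hpos⟩⟩)
    have hlpos : ∀ i ∉ I, 0 < l i := by
      intro i hi
      have h1 : ∑ y, A' i y = D := hA'row i
      rw [sum_pspt] at h1
      have h2 : ∑ j : Fin r, A' i (ps j) = 0 := sum_eq_zero fun j _ => hzero i hi _ (he1 j)
      rw [h2, zero_add] at h1
      have h3 : ∃ j : Fin (0 + k), 0 < A' i (pt j) := by
        by_contra h
        push Not at h
        have : ∑ j : Fin (0 + k), A' i (pt j) ≤ 0 := sum_nonpos fun j _ => h j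
        linarith
      obtain ⟨j, hj⟩ := h3
      exact sum_pos' (fun j _ => mul_nonneg (hA _ _) (hx j).le) ⟨j, mem_univ j, mul_pos hj (hx j)⟩
    set ρ : ℝ := ∏ i ∈ univ \ I, l i with hρ
    have hρpos : 0 < ρ := prod_pos fun i hi => hlpos i (mem_sdiff.1 hi).2
    have hX : 0 < ∏ i, x i := prod_pos fun i _ => hx i
    have hass := assemble hδ A hA hcpos F hgood hdis l hlnn (D ^ n * (∏ i, x i) / ρ)
      (by positivity) (by
        intro t ht
        rw [← hS, ← hI]
        obtain ⟨z, hz⟩ : ∃ z : Fin ((0 + k) + r) → ℝ, ∀ y, z y = if e y ∈ S then t (e y) else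
            (if h' : r ≤ y.1 then x ⟨y.1 - r, by have := y.2; omega⟩ else 1) :=
          ⟨_, fun _ => rfl⟩
        have h1 := hcapf z (by
            intro y
            rw [hz]
            split_ifs
            · exact ht _
            · exact hx _
            · exact one_pos)
        have g1 : ∀ j : Fin r, z (ps j) = t (es j) := by
          intro j
          rw [hz, if_pos (he1 j)]
          rfl
        have g2 : ∀ j : Fin (0 + k), z (pt j) = x j := by
          intro j
          have hr' : r ≤ (pt j : Fin ((0 + k) + r)).1 := by simp [pt]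
          rw [hz, if_neg (he2 j), dif_pos hr']
          congr 1
          apply Fin.ext
          simp [pt]
        have h2 : ∏ i : ι, ∑ y', A' i y' * z y' =
            (∏ i ∈ I, (l i + ∑ j ∈ S, A i j * t j)) * ρ := by
          have h3 : ∀ i, ∑ y', A' i y' * z y' = l i + ∑ j ∈ S, A i j * t j := by
            intro i
            rw [sum_pspt]
            simp only [g1, g2]
            rw [← hesS, sum_map, add_comm]
            rfl
          rw [prod_congr rfl fun i _ => h3 i, ← prod_sdiff (subset_univ I), mul_comm]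
          congr 1
          apply prod_congr rfl
          intro i hi
          rw [sum_eq_zero fun j hj => by rw [hzero i (mem_sdiff.1 hi).2 j hj, zero_mul], add_zero]
        rw [h2, prod_pspt] at h1
        simp only [g1, g2] at h1
        have h4 : ∏ j : Fin r, t (es j) = ∏ j ∈ S, t j := by
          rw [← hesS, prod_map]
        rw [h4] at h1
        rw [div_mul_eq_mul_div, div_le_iff₀ hρpos]
        calc D ^ n * (∏ i, x i) * ∏ j ∈ S, t j = D ^ n * ((∏ j ∈ S, t j) * ∏ i, x i) := by ring
          _ ≤ _ := h1)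
    rw [← hS, ← hI] at hass
    have hsup := Z_super l A I (univ \ I) disjoint_sdiff S ∅ (disjoint_empty_right _)
      (fun i _ => hlnn i) (fun i _ j _ => hA i j)
    rw [union_sdiff_of_subset (subset_univ I), union_empty, Z_empty_cols] at hsup
    refine le_trans ?_ hsup
    rw [mul_div_assoc', div_le_iff₀ hρpos, hr] at hass
    calc gg d ^ r * (1 + δ) ^ F.card * D ^ n * ∏ i, x i =
        gg d ^ r * (1 + δ) ^ F.card * (D ^ n * ∏ i, x i) := by ring
      _ ≤ _ := hass
  -- second elimination
  have hdeg2 : ∀ i : Fin (0 + k), (qn r f).degreeOf i ≤ d + 1 := by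
    have hgen : ∀ (r' : ℕ) (g : MvPolynomial (Fin ((0 + k) + r')) ℂ), (∀ y, g.degreeOf y ≤ d + 1) →
        ∀ i : Fin (0 + k), (qn r' g).degreeOf i ≤ d + 1 := by
      intro r'
      induction r' with
      | zero => intro g hg i; exact hg i
      | succ r' ih =>
        intro g hg i
        change (qn r' (qq (k := (0 + k) + r') g)).degreeOf i ≤ d + 1
        apply ih
        intro y
        exact (MvPolynomial.degreeOf_coeff_finSuccEquiv g y 1).trans (hg (Fin.succ y))
    exact hgen r f hdeg
  have hel2 := elim_all (k := 0) k 0 (qn r f) (fun _ => d) hq1 hq2 hdeg2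
    (fun _ => gg d ^ r * (1 + δ) ^ F.card * D ^ n)
    (fun _ _ => by have := gg_pos d; positivity)
    (by
      intro y hy
      have h1 := hbig y hy
      rw [prod_pspt] at h1
      simpa using h1)
  have hfin := hel2.2.2 (fun i => i.elim0) (fun i => i.elim0)
  rw [prod_const, card_univ, Fintype.card_fin] at hfin
  have hval : MvPolynomial.eval (fun i : Fin 0 => (((i.elim0 : ℝ)) : ℂ)) (qn k (qn r f)) =
      ((Z (fun _ => 0) A univ univ : ℝ) : ℂ) := by
    have h2 : qn k (qn r f) = MvPolynomial.C (MvPolynomial.coeff 0 (qn k (qn r f))) :=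
      MvPolynomial.eq_C_of_isEmpty _
    have h3 : (Finsupp.equivFunOnFinite.symm (fun _ => 1) : Fin 0 →₀ ℕ) = 0 := by
      ext i; exact i.elim0
    rw [h2, MvPolynomial.eval_C, ← h3, qn_coeff, qn_coeff]
    have h4 : (Finsupp.equivFunOnFinite.symm (fun _ => 1) : Fin ((0 + k) + r) →₀ ℕ) =
        ind univ := by
      ext y
      rw [ind_apply]
      simp
    rw [h4, hf]
    have h5 : Z (fun _ : ι => (0 : ℝ)) A univ univ = Z (fun _ : ι => (0 : ℝ)) A' univ univ := by
      have h6 : (univ : Finset κ) = (univ : Finset (Fin ((0 + k) + r))).map e.toEmbedding := by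
        simp
      rw [h6, ← Z_map_cols]
      rfl
    rw [h5, ← Complex.ofRealHom_eq_coe, Z_map_ring]
    unfold Z PR
    congr 1
    apply prod_congr rfl
    intro i _
    simp [lin, lf]
  rw [hval, Complex.norm_real, Real.norm_of_nonneg (Z_nonneg _ _ _ _ (fun _ _ => le_refl _)
    (fun i _ j _ => hA i j))] at hfin
  refine le_trans (le_of_eq ?_) hfin
  have hn' : n = r + k := by omega
  rw [mul_pow]
  nth_rewrite 2 [hn']
  rw [pow_add]
  ring

end Pool.Agent.Q161.Sh
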