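import Pool.Agent.Q161.ShI

set_option autoImplicit false
open scoped BigOperators

/-!
# Perfect matchings of a bipartite graph
-/

namespace Pool.Agent.Q161.Sh

open Pool.Agent.Helper886.HCube Pool.Agent.H450R3.Fg Finset

variable {V : Type*}

/-- the number of perfect matchings -/
noncomputable def npm (G : SimpleGraph V) : ℕ := {M : G.Subgraph | M.IsPerfectMatching}.ncard

/-- the perfect matching of an involution -/
def invSub (G : SimpleGraph V) (f : V → V) (h1 : ∀ v, f (f v) = v) (h2 : ∀ v, G.Adj v (f v)) :
    G.Subgraph where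
  verts := Set.univ
  Adj u v := f u = v
  adj_sub := by
    rintro u v rfl
    exact h2 u
  edge_vert := by
    intro u v _
    exact Set.mem_univ u
  symm := ⟨by
    rintro u v rfl
    exact h1 u⟩

lemma invSub_perfect (G : SimpleGraph V) (f : V → V) (h1 : ∀ v, f (f v) = v)
    (h2 : ∀ v, G.Adj v (f v)) : (invSub G f h1 h2).IsPerfectMatching := by
  rw [SimpleGraph.Subgraph.isPerfectMatching_iff]
  intro v
  exact ⟨f v, rfl, fun w hw => (show f v = w from hw).symm⟩

lemma card_inv_le [Fintype V] {α : Type*} [Fintype α] (G : SimpleGraph V) (φ : α → V → V)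
    (h1 : ∀ a v, φ a (φ a v) = v) (h2 : ∀ a v, G.Adj v (φ a v)) (hinj : Function.Injective φ) :
    Fintype.card α ≤ npm G := by
  classical
  have hfin : ({M : G.Subgraph | M.IsPerfectMatching}).Finite := Set.toFinite _
  rw [npm, ← Nat.card_eq_fintype_card, ← Set.ncard_univ]
  refine Set.ncard_le_ncard_of_injOn (fun a => invSub G (φ a) (h1 a) (h2 a)) ?_ ?_ hfin
  · intro a _
    exact invSub_perfect G _ _ _
  · intro a _ b _ hab
    apply hinj
    funext v
    have h3 : (invSub G (φ b) (h1 b) (h2 b)).Adj v (φ a v) := by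
      have h4 : (invSub G (φ a) (h1 a) (h2 a)).Adj v (φ a v) := rfl
      have hab' : invSub G (φ a) (h1 a) (h2 a) = invSub G (φ b) (h1 b) (h2 b) := hab
      rw [← hab']
      exact h4
    exact (show φ b v = φ a v from h3).symm

open Classical in
/-- the biadjacency matrix -/
noncomputable def bip (G : SimpleGraph V) (col : V → Prop) :
    {v // col v} → {v // ¬ col v} → ℝ := fun i j => if G.Adj i j then 1 else 0

theorem Z_le_npm [Fintype V] (G : SimpleGraph V) (col : V → Prop) [DecidablePred col]
    [DecidableEq V] (hcard : Fintype.card {v // col v} = Fintype.card {v // ¬ col v}) :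
    Z (fun _ => 0) (bip G col) univ univ ≤ npm G := by
  classical
  set n := Fintype.card {v // col v} with hn
  let eL : Fin n ≃ {v // col v} := (Fintype.equivFinOfCardEq hn.symm).symm
  let eR : Fin n ≃ {v // ¬ col v} := (Fintype.equivFinOfCardEq hcard.symm).symm
  set B : Matrix (Fin n) (Fin n) ℝ := fun a b => bip G col (eL a) (eR b) with hB
  have h1 : Z (fun _ => 0) (bip G col) univ univ = Z (fun _ => 0) B univ univ := by
    have e1 : (univ : Finset {v // col v}) = (univ : Finset (Fin n)).map eL.toEmbedding := by simp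
    have e2 : (univ : Finset {v // ¬ col v}) = (univ : Finset (Fin n)).map eR.toEmbedding := by simp
    rw [e1, e2, ← Z_map_rows, ← Z_map_cols]
    rfl
  have h2 : Z (fun _ => 0) B univ univ = ∑ σ : Equiv.Perm (Fin n), ∏ i, B i (σ i) := by
    have h3 := pol_coeff B
    have h4 : (Finsupp.equivFunOnFinite.symm (fun _ => 1) : Fin n →₀ ℕ) = ind univ := by
      ext y
      rw [ind_apply]
      simp
    have h5 : ((Z (fun _ => 0) B univ univ : ℝ) : ℂ) = MvPolynomial.coeff
        (Finsupp.equivFunOnFinite.symm (fun _ => 1) : Fin n →₀ ℕ) (pol B) := by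
      rw [h4, ← Complex.ofRealHom_eq_coe, Z_map_ring]
      unfold Z pol
      congr 1
      apply prod_congr rfl
      intro i _
      simp [lin, hB]
    rw [h3] at h5
    exact_mod_cast h5
  rw [h1, h2]
  have h6 : ∀ σ : Equiv.Perm (Fin n), ∏ i, B i (σ i) =
      if (∀ i, G.Adj (eL i).1 (eR (σ i)).1) then 1 else 0 := by
    intro σ
    split_ifs with h
    · apply prod_eq_one
      intro i _
      simp only [hB, bip]
      rw [if_pos (h i)]
    · push Not at h
      obtain ⟨i, hi⟩ := h
      apply prod_eq_zero (mem_univ i)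
      simp only [hB, bip]
      rw [if_neg hi]
  rw [sum_congr rfl fun σ _ => h6 σ, sum_ite, sum_const_zero, add_zero, sum_const, nsmul_eq_mul,
    mul_one]
  norm_cast
  rw [← Fintype.card_subtype]
  set φ : {σ : Equiv.Perm (Fin n) // ∀ i, G.Adj (eL i).1 (eR (σ i)).1} → V → V := fun σ v =>
    if h : col v then (eR (σ.1 (eL.symm ⟨v, h⟩))).1 else (eL (σ.1.symm (eR.symm ⟨v, h⟩))).1 with hφ
  have hL : ∀ σ (x : {v // col v}), φ σ x.1 = (eR (σ.1 (eL.symm x))).1 := by
    intro σ x
    simp only [hφ, x.2, dif_pos, Subtype.coe_eta]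
  have hR : ∀ σ (x : {v // ¬ col v}), φ σ x.1 = (eL (σ.1.symm (eR.symm x))).1 := by
    intro σ x
    simp only [hφ, x.2, dif_neg, not_false_eq_true, Subtype.coe_eta]
  apply card_inv_le G φ
  · intro σ v
    by_cases h : col v
    · have g1 := hL σ ⟨v, h⟩
      dsimp only at g1
      rw [g1, hR]
      simp
    · have g1 := hR σ ⟨v, h⟩
      dsimp only at g1
      rw [g1, hL]
      simp
  · intro σ v
    by_cases h : col v
    · have g1 := hL σ ⟨v, h⟩
      dsimp only at g1
      rw [g1]
      have := σ.2 (eL.symm ⟨v, h⟩)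
      simpa using this
    · have g1 := hR σ ⟨v, h⟩
      dsimp only at g1
      rw [g1]
      have := σ.2 (σ.1.symm (eR.symm ⟨v, h⟩))
      rw [SimpleGraph.adj_comm]
      simpa using this
  · intro σ τ h
    apply Subtype.ext
    apply Equiv.ext
    intro i
    have h1 := congrFun h (eL i).1
    rw [hL, hL] at h1
    have h2 : eR (σ.1 (eL.symm (eL i))) = eR (τ.1 (eL.symm (eL i))) := Subtype.ext h1
    simpa using h2

/-- row and column sums of the biadjacency matrix -/
lemma bip_row [Fintype V] (G : SimpleGraph V) (col : V → Prop) [DecidablePred col]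
    [DecidableRel G.Adj] (hbip : ∀ u v, G.Adj u v → (col u ↔ ¬ col v)) (i : {v // col v}) :
    ∑ j, bip G col i j = G.degree i.1 := by
  classical
  have hb : ∀ j : {v // ¬ col v}, bip G col i j = if G.Adj i.1 j.1 then (1 : ℝ) else 0 := by
    intro j
    unfold bip
    by_cases h : G.Adj i.1 j.1 <;> simp [h]
  rw [sum_congr rfl fun j _ => hb j, Finset.sum_boole]
  congr 1
  rw [← SimpleGraph.card_neighborFinset_eq_degree]
  rw [← card_map (Function.Embedding.subtype _)]
  congr 1
  ext v
  simp only [mem_map, mem_filter, mem_univ, true_and, Function.Embedding.coe_subtype,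
    SimpleGraph.mem_neighborFinset]
  constructor
  · rintro ⟨j, hj, rfl⟩
    exact hj
  · intro h
    exact ⟨⟨v, (hbip _ _ h).1 i.2⟩, h, rfl⟩

lemma bip_col [Fintype V] (G : SimpleGraph V) (col : V → Prop) [DecidablePred col]
    [DecidableRel G.Adj] (hbip : ∀ u v, G.Adj u v → (col u ↔ ¬ col v)) (j : {v // ¬ col v}) :
    ∑ i, bip G col i j = G.degree j.1 := by
  classical
  have hb : ∀ i : {v // col v}, bip G col i j = if G.Adj i.1 j.1 then (1 : ℝ) else 0 := by
    intro i
    unfold bip
    by_cases h : G.Adj i.1 j.1 <;> simp [h]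
  rw [sum_congr rfl fun i _ => hb i, Finset.sum_boole]
  congr 1
  rw [← SimpleGraph.card_neighborFinset_eq_degree]
  rw [← card_map (Function.Embedding.subtype _)]
  congr 1
  ext v
  simp only [mem_map, mem_filter, mem_univ, true_and, Function.Embedding.coe_subtype,
    SimpleGraph.mem_neighborFinset]
  constructor
  · rintro ⟨i, hi, rfl⟩
    exact hi.symm
  · intro h
    exact ⟨⟨v, (hbip _ _ h.symm).2 j.2⟩, h.symm, rfl⟩

lemma bip_nonneg (G : SimpleGraph V) (col : V → Prop) (i : {v // col v}) (j : {v // ¬ col v}) :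
    0 ≤ bip G col i j := by
  unfold bip
  split_ifs <;> norm_num

lemma bip_pos (G : SimpleGraph V) (col : V → Prop) (i : {v // col v}) (j : {v // ¬ col v}) :
    0 < bip G col i j ↔ G.Adj i j := by
  unfold bip
  split_ifs with h <;> simp [h]

/-- the number of perfect matchings of a regular bipartite graph with a family of good blocks -/
theorem npm_lower [Fintype V] [DecidableEq V] {d : ℕ} {δ : ℝ} (hδ : 0 < δ) (G : SimpleGraph V)
    [DecidableRel G.Adj] (col : V → Prop) [DecidablePred col]
    (hbip : ∀ u v, G.Adj u v → (col u ↔ ¬ col v)) (hreg : ∀ v, G.degree v = d + 1)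
    (F : Finset (Finset {v // ¬ col v})) (hgood : ∀ J ∈ F, Good d (bip G col) J δ)
    (hdis : ∀ J ∈ F, ∀ J' ∈ F, J ≠ J' → Disjoint (NJ (bip G col) J) (NJ (bip G col) J')) :
    2 * Fintype.card {v // col v} = Fintype.card V ∧
    (((d : ℝ) + 1) * gg d) ^ Fintype.card {v // col v} * (1 + δ) ^ F.card ≤ npm G := by
  classical
  have hrow : ∀ i, ∑ j, bip G col i j = (d : ℝ) + 1 := by
    intro i; rw [bip_row G col hbip, hreg]; push_cast; ring
  have hcol : ∀ j, ∑ i, bip G col i j = (d : ℝ) + 1 := by
    intro j; rw [bip_col G col hbip, hreg]; push_cast; ring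
  have hcard : Fintype.card {v // col v} = Fintype.card {v // ¬ col v} := by
    have h1 : ∑ i, ∑ j, bip G col i j = ∑ j, ∑ i, bip G col i j := sum_comm
    rw [sum_congr rfl fun i _ => hrow i, sum_congr rfl fun j _ => hcol j] at h1
    simp only [sum_const, nsmul_eq_mul, card_univ] at h1
    have h2 : ((Fintype.card {v // col v} : ℕ) : ℝ) = (Fintype.card {v // ¬ col v} : ℕ) := by
      have h3 : (0 : ℝ) < (d : ℝ) + 1 := by positivity
      exact mul_right_cancel₀ h3.ne' h1
    exact_mod_cast h2
  refine ⟨?_, ?_⟩
  · have := Fintype.card_subtype_compl col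
    have h2 := Fintype.card_subtype_le col
    omega
  · refine le_trans ?_ (Z_le_npm G col hcard)
    have h := matrix_lower (d := d) hδ rfl hcard.symm (bip G col) (bip_nonneg G col) ((d : ℝ) + 1)
      (by positivity) hrow hcol (by
        intro j
        have h1 := bip_col G col hbip j
        rw [hreg] at h1
        have h2 : ((univ.filter (fun i => bip G col i j ≠ 0)).card : ℝ) = ∑ i, bip G col i j := by
          rw [card_filter]
          push_cast
          apply sum_congr rfl
          intro i _
          unfold bip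
          split_ifs with g1 g2 <;> simp_all
        rw [h1] at h2
        have : (univ.filter (fun i => bip G col i j ≠ 0)).card = d + 1 := by exact_mod_cast h2
        exact this.le) F hgood hdis
    exact h

end Pool.Agent.Q161.Sh
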