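import Pool.Agent.Q161.ShJ

set_option autoImplicit false
open scoped BigOperators

/-!
# Good blocks inside the cycles of a regular bipartite graph
-/

namespace Pool.Agent.Q161.Sh

open Pool.Agent.H450R3.Fg Finset

variable {V : Type*}

/-- a cycle of length `2 (m + 1)` through the columns `C 0, …, C m`, indexed by natural numbers -/
structure CN (G : SimpleGraph V) (col : V → Prop) (S : V → Prop) (m : ℕ) (C R : ℕ → V) : Prop where
  ccol : ∀ a, a ≤ m → ¬ col (C a)
  rcol : ∀ a, a ≤ m → col (R a)
  cinj : ∀ a b, a ≤ m → b ≤ m → C a = C b → a = b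
  rinj : ∀ a b, a ≤ m → b ≤ m → R a = R b → a = b
  adj : ∀ a, a ≤ m → G.Adj (R a) (C a)
  nxt : ∀ a, a < m → G.Adj (R a) (C (a + 1))
  clo : G.Adj (R m) (C 0)
  sub : ∀ a, a ≤ m → S (C a)

/-- a shortest cycle in a set of columns -/
lemma exists_shortest {G : SimpleGraph V} {col S : V → Prop} {m : ℕ} {C R : ℕ → V} (hm : 1 ≤ m)
    (h : CN G col S m C R) : ∃ m' C' R', 1 ≤ m' ∧ m' ≤ m ∧ CN G col S m' C' R' ∧
      (m' = 1 ∨ ∀ i, col i → (∀ a, a ≤ m' → R' a ≠ i) → ∀ x y, x ≤ m' → y ≤ m' →
        G.Adj i (C' x) → G.Adj i (C' y) → x = y) := by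
  classical
  have hex : ∃ m', 1 ≤ m' ∧ ∃ C' R', CN G col S m' C' R' := ⟨m, hm, C, R, h⟩
  obtain ⟨h1, C', R', h2⟩ := Nat.find_spec hex
  set m' := Nat.find hex with hm'
  refine ⟨m', C', R', h1, Nat.find_min' hex ⟨hm, C, R, h⟩, h2, ?_⟩
  rcases Nat.lt_or_ge 1 m' with h3 | h3
  swap
  · left; omega
  right
  intro i hi hoff
  have key : ∀ x y, x < y → y ≤ m' → G.Adj i (C' x) → G.Adj i (C' y) → False := by
    intro x y hxy hy hx1 hy1
    rcases Nat.lt_or_ge (y - x) m' with h4 | h4
    · apply Nat.find_min hex h4
      refine ⟨by omega, fun a => C' (x + a), fun a => if a < y - x then R' (x + a) else i, ?_⟩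
      constructor
      · intro a ha
        exact h2.ccol _ (by omega)
      · intro a ha
        split_ifs with g
        · exact h2.rcol _ (by omega)
        · exact hi
      · intro a b ha hb hab
        have := h2.cinj _ _ (by omega) (by omega) hab
        omega
      · intro a b ha hb hab
        split_ifs at hab with g1 g2 g2
        · have := h2.rinj _ _ (by omega) (by omega) hab
          omega
        · exact absurd hab (hoff _ (by omega))
        · exact absurd hab.symm (hoff _ (by omega))
        · omega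
      · intro a ha
        split_ifs with g
        · exact h2.adj _ (by omega)
        · have : x + a = y := by omega
          rw [this]
          exact hy1
      · intro a ha
        rw [if_pos ha]
        have := h2.nxt (x + a) (by omega)
        rw [add_assoc] at this
        exact this
      · rw [if_neg (lt_irrefl _), add_zero]
        exact hx1
      · intro a ha
        exact h2.sub _ (by omega)
    · have hx0 : x = 0 := by omega
      have hym : y = m' := by omega
      subst hx0
      rw [hym] at hy1
      apply Nat.find_min hex h3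
      refine ⟨le_refl _, fun a => if a = 0 then C' m' else C' 0, fun a => if a = 0 then R' m' else i, ?_⟩
      constructor
      · intro a ha
        split_ifs with g
        · exact h2.ccol _ le_rfl
        · exact h2.ccol _ (by omega)
      · intro a ha
        split_ifs with g
        · exact h2.rcol _ le_rfl
        · exact hi
      · intro a b ha hb hab
        split_ifs at hab with g1 g2 g2
        · omega
        · have := h2.cinj _ _ (by omega) (by omega) hab
          omega
        · have := h2.cinj _ _ (by omega) (by omega) hab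
          omega
        · omega
      · intro a b ha hb hab
        split_ifs at hab with g1 g2 g2
        · omega
        · exact absurd hab (hoff _ le_rfl)
        · exact absurd hab.symm (hoff _ le_rfl)
        · omega
      · intro a ha
        split_ifs with g
        · exact h2.adj _ le_rfl
        · exact hx1
      · intro a ha
        have : a = 0 := by omega
        subst this
        rw [if_pos rfl, if_neg (by omega)]
        exact h2.clo
      · rw [if_neg (by omega), if_pos rfl]
        exact hy1
      · intro a ha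
        split_ifs with g
        · exact h2.sub _ le_rfl
        · exact h2.sub _ (by omega)
  intro x y hx hy hx1 hy1
  rcases lt_trichotomy x y with g | g | g
  · exact (key x y g hy hx1 hy1).elim
  · exact g
  · exact (key y x g hx hy1 hx1).elim

/-- the neighbours of a column -/
lemma col_nbhd [Fintype V] [DecidableEq V] {d : ℕ} (G : SimpleGraph V)
    [DecidableRel G.Adj] (col : V → Prop) [DecidablePred col]
    (hbip : ∀ u v, G.Adj u v → (col u ↔ ¬ col v)) (hreg : ∀ v, G.degree v = d + 1)
    (j : {v // ¬ col v}) :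
    ∃ s : Finset {v // col v}, s.card = d + 1 ∧ ∀ i, 0 < bip G col i j ↔ i ∈ s := by
  classical
  refine ⟨univ.filter (fun i => G.Adj i.1 j.1), ?_, ?_⟩
  · have h1 := bip_col G col hbip j
    rw [hreg] at h1
    have h2 : ((univ.filter (fun i : {v // col v} => G.Adj i.1 j.1)).card : ℝ)
        = ∑ i, bip G col i j := by
      rw [card_filter]
      push_cast
      apply sum_congr rfl
      intro i _
      unfold bip
      split_ifs <;> simp_all
    rw [h1] at h2
    exact_mod_cast h2
  · intro i
    rw [bip_pos]
    simp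

lemma NJ_card_le [Fintype V] [DecidableEq V] {d : ℕ} (G : SimpleGraph V)
    [DecidableRel G.Adj] (col : V → Prop) [DecidablePred col]
    (hbip : ∀ u v, G.Adj u v → (col u ↔ ¬ col v)) (hreg : ∀ v, G.degree v = d + 1)
    (J : Finset {v // ¬ col v}) : (NJ (bip G col) J).card ≤ J.card * (d + 1) := by
  classical
  choose s hs1 hs2 using col_nbhd G col hbip hreg
  have h1 : NJ (bip G col) J ⊆ J.biUnion s := by
    intro i hi
    rw [mem_NJ] at hi
    obtain ⟨j, hj, h⟩ := hi
    exact mem_biUnion.2 ⟨j, hj, (hs2 j i).1 h⟩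
  refine (card_le_card h1).trans ?_
  exact card_biUnion_le_card_mul _ _ _ fun j _ => (hs1 j).le

lemma good_of_CN [Fintype V] [DecidableEq V] {d M : ℕ} {δ : ℝ} (hδ : 0 < δ)
    (hgap : ∀ m N : ℕ, m ≤ M → N ≤ M * (d + 1) →
      ∀ E : Fin N → Fin (m + 1) → Prop, (∃ r, Cyc E (d + 1) r) → Gap d m N E δ)
    (G : SimpleGraph V)
    [DecidableRel G.Adj] (col : V → Prop) [DecidablePred col]
    (hbip : ∀ u v, G.Adj u v → (col u ↔ ¬ col v)) (hreg : ∀ v, G.degree v = d + 1)
    {S : V → Prop} {m : ℕ} {C R : ℕ → V} (hm : 1 ≤ m) (hmM : m + 1 ≤ M)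
    (h : CN G col S m C R) :
    ∃ J : Finset {v // ¬ col v}, J.Nonempty ∧ (∀ j ∈ J, S j.1) ∧ Good d (bip G col) J δ := by
  classical
  obtain ⟨m', C', R', h1, h2, h3, h4⟩ := exists_shortest hm h
  set c : Fin (m' + 1) ↪ {v // ¬ col v} :=
    ⟨fun a => ⟨C' a, h3.ccol _ (by have := a.2; omega)⟩, by
      intro a b hab
      have h5 := congrArg Subtype.val hab
      have := h3.cinj _ _ (by have := a.2; omega) (by have := b.2; omega) h5
      exact Fin.ext this⟩ with hc
  set r : Fin (m' + 1) → {v // col v} := fun a => ⟨R' a, h3.rcol _ (by have := a.2; omega)⟩ with hr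
  have hcard : (univ.map c).card = m' + 1 := by simp
  refine ⟨univ.map c, ?_, ?_, ?_⟩
  · rw [← card_pos, hcard]; omega
  · intro j hj
    rw [mem_map] at hj
    obtain ⟨a, _, rfl⟩ := hj
    exact h3.sub _ (by have := a.2; omega)
  · apply good_of_cycle (M := M) (M' := M * (d + 1)) hδ hgap (bip G col) (bip_nonneg G col)
      (by omega) c r ?_ h1
    · intro a b hab
      have h5 := congrArg Subtype.val hab
      have := h3.rinj _ _ (by have := a.2; omega) (by have := b.2; omega) h5
      exact Fin.ext this
    · intro a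
      rw [bip_pos]
      exact h3.adj _ (by have := a.2; omega)
    · intro a
      rw [bip_pos]
      exact h3.nxt _ a.2
    · rw [bip_pos]
      exact h3.clo
    · rcases h4 with h4 | h4
      · left; exact h4
      · right
        intro i hi j j' hj hj'
        rw [bip_pos] at hj hj'
        apply Fin.ext
        refine h4 i.1 i.2 ?_ j j' (by have := j.2; omega) (by have := j'.2; omega) hj hj'
        intro a ha hai
        exact hi ⟨a, by omega⟩ (Subtype.ext hai)
    · exact col_nbhd G col hbip hreg
    · refine (NJ_card_le G col hbip hreg _).trans ?_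
      rw [hcard]
      exact Nat.mul_le_mul_right _ (by omega)

/-- the number of cycles of length `k` -/
noncomputable def cycles (G : SimpleGraph V) (k : ℕ) : ℕ :=
  {H : G.Subgraph | Nonempty (SimpleGraph.cycleGraph k ≃g H.coe)}.ncard

/-- a cyclic enumeration of a cycle -/
lemma exists_walk (G : SimpleGraph V) (H : G.Subgraph) {k : ℕ} (hk : 3 ≤ k)
    (φ : SimpleGraph.cycleGraph k ≃g H.coe) :
    ∃ g : ℕ → V, (∀ n, g (n + k) = g n) ∧ (∀ n, G.Adj (g n) (g (n + 1))) ∧
      (∀ a b, g a = g b → a ≡ b [MOD k]) ∧ (∀ n, g n ∈ H.verts) ∧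
      (∀ a : Fin k, g a = (φ a : V)) := by
  have hk0 : 0 < k := by omega
  refine ⟨fun n => (φ ⟨n % k, Nat.mod_lt _ hk0⟩ : V), ?_, ?_, ?_, ?_, ?_⟩
  · intro n
    simp only [Nat.add_mod_right]
  · intro n
    have h1 : (SimpleGraph.cycleGraph k).Adj ⟨n % k, Nat.mod_lt _ hk0⟩
        ⟨(n + 1) % k, Nat.mod_lt _ hk0⟩ := by
      rw [SimpleGraph.cycleGraph_adj']
      right
      rw [Fin.sub_def]
      simp only
      have h2 : n % k < k := Nat.mod_lt _ hk0
      have h3 : (n + 1) % k = (n % k + 1) % k := by rw [Nat.mod_add_mod]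
      rw [h3]
      rcases Nat.lt_or_ge (n % k + 1) k with h4 | h4
      · rw [Nat.mod_eq_of_lt h4]
        have : k - n % k + (n % k + 1) = 1 + k := by omega
        rw [this, Nat.add_mod_right]
        exact Nat.mod_eq_of_lt (by omega)
      · have h5 : n % k + 1 = k := by omega
        rw [h5, Nat.mod_self, add_zero]
        have : k - n % k = 1 := by omega
        rw [this]
        exact Nat.mod_eq_of_lt (by omega)
    have h2 := φ.map_rel_iff.2 h1
    exact H.adj_sub h2
  · intro a b hab
    have h1 := Subtype.ext hab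
    have h2 := φ.injective h1
    have h3 := congrArg Fin.val h2
    exact h3
  · intro n
    exact (φ _).2
  · intro a
    have : (⟨a.1 % k, Nat.mod_lt _ hk0⟩ : Fin k) = a := Fin.ext (Nat.mod_eq_of_lt a.2)
    simp only [this]

lemma exists_CN (G : SimpleGraph V) (col : V → Prop)
    (hbip : ∀ u v, G.Adj u v → (col u ↔ ¬ col v)) {k : ℕ} (hk : 3 ≤ k) {S : V → Prop} (g : ℕ → V)
    (h1 : ∀ n, g (n + k) = g n) (h2 : ∀ n, G.Adj (g n) (g (n + 1)))
    (h3 : ∀ a b, g a = g b → a ≡ b [MOD k]) (h4 : ∀ n, S (g n)) :
    ∃ m C R, 1 ≤ m ∧ m + 1 ≤ k ∧ CN G col S m C R := by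
  classical
  have hcol : ∀ n, col (g n) ↔ (col (g 0) ↔ Even n) := by
    intro n
    induction n with
    | zero => simp
    | succ n ih =>
      have h5 := hbip _ _ (h2 n)
      rw [Nat.even_add_one]
      tauto
  have hkeven : Even k := by
    have h5 := hcol k
    have h6 := h1 0
    rw [zero_add] at h6
    rw [h6] at h5
    tauto
  obtain ⟨q, hq⟩ := hkeven
  obtain ⟨o, ho⟩ : ∃ o, ¬ col (g o) := by
    by_cases h : col (g 0)
    · refine ⟨1, ?_⟩
      rw [hcol 1]
      simp [h]
    · exact ⟨0, h⟩
  have hodd : ∀ n, col (g (o + n)) ↔ ¬ Even n := by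
    intro n
    have h5 := hcol (o + n)
    have h6 := hcol o
    rw [Nat.even_add] at h5
    tauto
  have hmod : ∀ a b, a < k → b < k → g (o + a) = g (o + b) → a = b := by
    intro a b ha hb hab
    have h5 := Nat.ModEq.add_left_cancel' o (h3 _ _ hab)
    unfold Nat.ModEq at h5
    rwa [Nat.mod_eq_of_lt ha, Nat.mod_eq_of_lt hb] at h5
  refine ⟨q - 1, fun a => g (o + 2 * a), fun a => g (o + (2 * a + 1)), by omega, by omega, ?_⟩
  constructor
  · intro a _
    rw [hodd]
    simp
  · intro a _
    rw [hodd]
    simp
  · intro a b ha hb hab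
    have := hmod _ _ (by omega) (by omega) hab
    omega
  · intro a b ha hb hab
    have := hmod _ _ (by omega) (by omega) hab
    omega
  · intro a _
    exact (h2 (o + 2 * a)).symm
  · intro a _
    exact h2 (o + (2 * a + 1))
  · have h5 := h2 (o + (2 * (q - 1) + 1))
    have h6 : o + (2 * (q - 1) + 1) + 1 = o + 2 * 0 + k := by omega
    rw [h6, h1] at h5
    exact h5
  · intro a _
    exact h4 _

end Pool.Agent.Q161.Sh
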