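import Pool.Agent.Q161.ShK

set_option autoImplicit false
open scoped BigOperators

/-!
# Disjoint good blocks
-/

namespace Pool.Agent.Q161.Sh

open Pool.Agent.H450R3.Fg Finset

/-- a maximal subfamily without conflicts -/
lemma greedy {α : Type*} [DecidableEq α] (𝒞 : Finset α) (R : α → α → Prop) (K : ℕ)
    (hsymm : ∀ a b, R a b → R b a) (hself : ∀ a ∈ 𝒞, R a a)
    (hK : ∀ b ∈ 𝒞, ∀ 𝒟 : Finset α, 𝒟 ⊆ 𝒞 → (∀ a ∈ 𝒟, R a b) → 𝒟.card ≤ K) :
    ∃ 𝒮 : Finset α, 𝒮 ⊆ 𝒞 ∧ (∀ a ∈ 𝒮, ∀ b ∈ 𝒮, a ≠ b → ¬ R a b) ∧ 𝒞.card ≤ K * 𝒮.card := by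
  classical
  set P : Finset α → Prop := fun 𝒮 => ∀ a ∈ 𝒮, ∀ b ∈ 𝒮, a ≠ b → ¬ R a b with hP
  obtain ⟨𝒮, h𝒮, hmax⟩ := exists_max_image (𝒞.powerset.filter P) card
    ⟨∅, by simp [hP]⟩
  rw [mem_filter, mem_powerset] at h𝒮
  refine ⟨𝒮, h𝒮.1, h𝒮.2, ?_⟩
  have h1 : 𝒞 ⊆ 𝒮.biUnion (fun b => 𝒞.filter (fun a => R a b)) := by
    intro a ha
    by_contra hcon
    simp only [mem_biUnion, mem_filter, not_exists, not_and] at hcon
    have hna : a ∉ 𝒮 := fun h => hcon a h ha (hself a ha)
    have h2 : insert a 𝒮 ∈ 𝒞.powerset.filter P := by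
      rw [mem_filter, mem_powerset]
      refine ⟨insert_subset ha h𝒮.1, ?_⟩
      intro x hx y hy hxy
      rw [mem_insert] at hx hy
      rcases hx with rfl | hx
      · rcases hy with rfl | hy
        · exact absurd rfl hxy
        · exact hcon y hy ha
      · rcases hy with rfl | hy
        · exact fun h => hcon x hx ha (hsymm _ _ h)
        · exact h𝒮.2 x hx y hy hxy
    have h3 := hmax _ h2
    rw [card_insert_of_notMem hna] at h3
    omega
  refine (card_le_card h1).trans ?_
  rw [mul_comm]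
  refine card_biUnion_le_card_mul _ _ _ fun b hb => ?_
  exact hK b (h𝒮.1 hb) _ (filter_subset _ _) fun a ha => (mem_filter.1 ha).2

variable {V : Type*} [Fintype V] [DecidableEq V]

/-- a set of vertices together with the neighbours of its elements -/
def cl (G : SimpleGraph V) [DecidableRel G.Adj] (S : Finset V) : Finset V :=
  S ∪ S.biUnion (fun v => G.neighborFinset v)

lemma card_cl_le {d : ℕ} (G : SimpleGraph V) [DecidableRel G.Adj]
    (hreg : ∀ v, G.degree v = d + 1) (S : Finset V) : (cl G S).card ≤ (d + 2) * S.card := by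
  refine (card_union_le _ _).trans ?_
  have h1 : (S.biUnion (fun v => G.neighborFinset v)).card ≤ S.card * (d + 1) :=
    card_biUnion_le_card_mul _ _ _ fun v _ => (by
      rw [SimpleGraph.card_neighborFinset_eq_degree, hreg])
  nlinarith

lemma subset_cl (G : SimpleGraph V) [DecidableRel G.Adj] (S : Finset V) : S ⊆ cl G S :=
  subset_union_left

lemma adj_cl (G : SimpleGraph V) [DecidableRel G.Adj] {S : Finset V} {u v : V} (hu : u ∈ S)
    (h : G.Adj u v) : v ∈ cl G S := by
  unfold cl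
  rw [mem_union, mem_biUnion]
  right
  exact ⟨u, hu, by simpa using h⟩

lemma card_iter_le {d : ℕ} (G : SimpleGraph V) [DecidableRel G.Adj]
    (hreg : ∀ v, G.degree v = d + 1) (S : Finset V) (t : ℕ) :
    ((cl G)^[t] S).card ≤ (d + 2) ^ t * S.card := by
  induction t with
  | zero => simp
  | succ t ih =>
    rw [Function.iterate_succ_apply']
    refine (card_cl_le G hreg _).trans ?_
    calc (d + 2) * ((cl G)^[t] S).card ≤ (d + 2) * ((d + 2) ^ t * S.card) :=
          Nat.mul_le_mul_left _ ih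
      _ = (d + 2) ^ (t + 1) * S.card := by ring

lemma subset_iter (G : SimpleGraph V) [DecidableRel G.Adj] (S : Finset V) {s t : ℕ}
    (h : s ≤ t) : (cl G)^[s] S ⊆ (cl G)^[t] S := by
  induction t, h using Nat.le_induction with
  | base => exact Subset.rfl
  | succ t _ ih =>
    rw [Function.iterate_succ_apply']
    exact ih.trans (subset_cl G _)

lemma walk_iter (G : SimpleGraph V) [DecidableRel G.Adj] (S : Finset V) (g : ℕ → V)
    (hg : ∀ n, G.Adj (g n) (g (n + 1))) {a s : ℕ} (h0 : g a ∈ (cl G)^[s] S) (t : ℕ) :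
    g (a + t) ∈ (cl G)^[s + t] S := by
  induction t with
  | zero => exact h0
  | succ t ih =>
    rw [← add_assoc, Function.iterate_succ_apply']
    exact adj_cl G ih (hg _)

/-- the main counting inequality -/
theorem cycles_le (d k : ℕ) (hk : 3 ≤ k) :
    ∃ δ : ℝ, 0 < δ ∧ ∃ K : ℕ, ∀ (V : Type*) [Fintype V] [DecidableEq V] (G : SimpleGraph V)
    [DecidableRel G.Adj] (col : V → Prop) [DecidablePred col]
    (_ : ∀ u v, G.Adj u v → (col u ↔ ¬ col v)) (_ : ∀ v, G.degree v = d + 1),
    ∃ f : ℕ, cycles G k ≤ K * f ∧ 2 * Fintype.card {v // col v} = Fintype.card V ∧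
    (((d : ℝ) + 1) * gg d) ^ Fintype.card {v // col v} * (1 + δ) ^ f ≤ npm G := by
  classical
  obtain ⟨δ, hδ, hgap⟩ := uniform_gap d k (k * (d + 1))
  refine ⟨δ, hδ, ((d + 2) ^ (2 + k) * k) ^ k, ?_⟩
  intro V _ _ G _ col _ hbip hreg
  set 𝒞 : Finset G.Subgraph :=
    (Set.toFinite {H : G.Subgraph | Nonempty (SimpleGraph.cycleGraph k ≃g H.coe)}).toFinset with h𝒞
  have hmem : ∀ H, H ∈ 𝒞 ↔ Nonempty (SimpleGraph.cycleGraph k ≃g H.coe) := by
    intro H
    rw [h𝒞, Set.Finite.mem_toFinset]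
    rfl
  have hcyc : cycles G k = 𝒞.card := by
    rw [cycles, h𝒞, Set.ncard_eq_toFinset_card _ (Set.toFinite _)]
  have hcard : (univ : Finset {H // H ∈ 𝒞}).card = 𝒞.card := by
    rw [card_univ, Fintype.card_coe]
  -- data attached to the cycles
  have hdata : ∀ H : {H // H ∈ 𝒞}, ∃ (J : Finset {v // ¬ col v}) (g : ℕ → V),
      (J.Nonempty ∧ (∀ j ∈ J, j.1 ∈ H.1.verts) ∧ Good d (bip G col) J δ ∧
      (∀ n, g (n + k) = g n) ∧ (∀ n, G.Adj (g n) (g (n + 1))) ∧ (∀ n, g n ∈ H.1.verts) ∧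
      (∀ v ∈ H.1.verts, ∃ a, a < k ∧ g a = v) ∧
      (∀ u v, H.1.Adj u v ↔ ∃ a b : Fin k, g a = u ∧ g b = v ∧
        (SimpleGraph.cycleGraph k).Adj a b)) := by
    rintro ⟨H, hH⟩
    obtain ⟨φ⟩ := (hmem H).1 hH
    obtain ⟨g, h1, h2, h3, h4, h5⟩ := exists_walk G H hk φ
    obtain ⟨m, C, R, h6, h7, h8⟩ := exists_CN G col hbip hk g h1 h2 h3 (S := fun v => v ∈ H.verts) h4
    obtain ⟨J, hJ1, hJ2, hJ3⟩ := good_of_CN hδ hgap G col hbip hreg h6 h7 h8
    refine ⟨J, g, hJ1, hJ2, hJ3, h1, h2, h4, ?_, ?_⟩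
    · intro v hv
      obtain ⟨a, ha⟩ := φ.surjective ⟨v, hv⟩
      refine ⟨a, a.2, ?_⟩
      rw [h5, ha]
    · intro u v
      constructor
      · intro huv
        obtain ⟨a, ha⟩ := φ.surjective ⟨u, H.edge_vert huv⟩
        obtain ⟨b, hb⟩ := φ.surjective ⟨v, H.edge_vert huv.symm⟩
        refine ⟨a, b, by rw [h5, ha], by rw [h5, hb], ?_⟩
        rw [← φ.map_rel_iff]
        show H.Adj (φ a) (φ b)
        rw [ha, hb]
        exact huv
      · rintro ⟨a, b, ha, hb, hab⟩
        rw [← φ.map_rel_iff] at hab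
        have h9 : H.Adj (φ a) (φ b) := hab
        rw [← h5, ← h5, ha, hb] at h9
        exact h9
  choose J g hJ1 hJ2 hJ3 hg1 hg2 hg3 hg4 hg5 using hdata
  have hNJne : ∀ H, (NJ (bip G col) (J H)).Nonempty := by
    intro H
    obtain ⟨j, hj⟩ := hJ1 H
    obtain ⟨s, hs1, hs2⟩ := col_nbhd G col hbip hreg j
    have : s.Nonempty := by rw [← card_pos, hs1]; omega
    obtain ⟨i, hi⟩ := this
    exact ⟨i, mem_NJ.2 ⟨j, hj, (hs2 i).2 hi⟩⟩
  obtain ⟨𝒮, -, h𝒮2, h𝒮3⟩ := greedy (univ : Finset {H // H ∈ 𝒞})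
    (fun a b => ¬ Disjoint (NJ (bip G col) (J a)) (NJ (bip G col) (J b)))
    (((d + 2) ^ (2 + k) * k) ^ k) (fun a b h h' => h h'.symm)
    (fun a _ h => by
      rw [disjoint_self] at h
      exact (hNJne a).ne_empty h) (by
      intro b _ 𝒟 _ h𝒟
      set W : Finset V := (range k).image (g b) with hW
      have hWc : W.card ≤ k := by
        refine card_image_le.trans ?_
        rw [card_range]
      set B : Finset V := (cl G)^[2 + k] W with hB
      have hBc : B.card ≤ (d + 2) ^ (2 + k) * k :=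
        (card_iter_le G hreg _ _).trans (Nat.mul_le_mul_left _ hWc)
      have hall : ∀ a ∈ 𝒟, ∀ n, n < k → g a n ∈ B := by
        intro a ha n hn
        have h1 := h𝒟 a ha
        rw [not_disjoint_iff] at h1
        obtain ⟨i, hi1, hi2⟩ := h1
        rw [mem_NJ] at hi1 hi2
        obtain ⟨j, hj, hij⟩ := hi1
        obtain ⟨j', hj', hij'⟩ := hi2
        rw [bip_pos] at hij hij'
        have h2 : j'.1 ∈ W := by
          obtain ⟨x, hx, hx'⟩ := hg4 b j'.1 (hJ2 b j' hj')
          rw [hW, mem_image]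
          exact ⟨x, mem_range.2 hx, hx'⟩
        have h3 : j.1 ∈ (cl G)^[2] W := adj_cl G (adj_cl G h2 hij'.symm) hij
        obtain ⟨n0, hn0, hn0'⟩ := hg4 a j.1 (hJ2 a j hj)
        rw [← hn0'] at h3
        rcases Nat.lt_or_ge n n0 with h4 | h4
        · have h5 := walk_iter G W (g a) (hg2 a) h3 (n + k - n0)
          have h6 : n0 + (n + k - n0) = n + k := by omega
          rw [h6, hg1] at h5
          exact subset_iter G W (by omega) h5
        · have h5 := walk_iter G W (g a) (hg2 a) h3 (n - n0)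
          have h6 : n0 + (n - n0) = n := by omega
          rw [h6] at h5
          exact subset_iter G W (by omega) h5
      have h1 : 𝒟.card ≤ (Fintype.piFinset (fun _ : Fin k => B)).card := by
        apply card_le_card_of_injOn (fun a => fun x : Fin k => g a x)
        · intro a ha
          rw [mem_coe, Fintype.mem_piFinset]
          intro x
          exact hall a ha x x.2
        · intro a _ a' _ haa
          have h2 : ∀ x : Fin k, g a x = g a' x := fun x => congrFun haa x
          apply Subtype.ext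
          apply SimpleGraph.Subgraph.ext
          · ext v
            constructor
            · intro hv
              obtain ⟨x, hx, rfl⟩ := hg4 a v hv
              have := h2 ⟨x, hx⟩
              simp only at this
              rw [this]
              exact hg3 a' x
            · intro hv
              obtain ⟨x, hx, rfl⟩ := hg4 a' v hv
              have := h2 ⟨x, hx⟩
              simp only at this
              rw [← this]
              exact hg3 a x
          · ext u v
            rw [hg5 a, hg5 a']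
            simp only [h2]
      rw [Fintype.card_piFinset_const] at h1
      exact h1.trans (Nat.pow_le_pow_left hBc k))
  refine ⟨𝒮.card, ?_, ?_⟩
  · rw [hcyc, ← hcard]
    exact h𝒮3
  · have hinj : Set.InjOn J (𝒮 : Set {H // H ∈ 𝒞}) := by
      intro a ha b hb hab
      by_contra hne
      have h1 := h𝒮2 a ha b hb hne
      apply h1
      rw [hab, disjoint_self]
      exact (hNJne b).ne_empty
    have h1 := npm_lower hδ G col hbip hreg (𝒮.image J) (by
      intro K hK
      obtain ⟨a, _, rfl⟩ := mem_image.1 hK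
      exact hJ3 a) (by
      intro K hK K' hK' hne
      obtain ⟨a, ha, rfl⟩ := mem_image.1 hK
      obtain ⟨b, hb, rfl⟩ := mem_image.1 hK'
      have h2 := h𝒮2 a ha b hb (fun h => hne (by rw [h]))
      exact not_not.1 h2)
    rw [card_image_of_injOn hinj] at h1
    exact h1

end Pool.Agent.Q161.Sh
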