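import Pool.Agent.Q161.ShL

set_option autoImplicit false
open scoped BigOperators

/-!
# The limit theorem
-/

namespace Pool.Agent.Q161.Sh

open Pool.Agent.H450R3.Fg Finset Filter Topology

/-- the constant `½ log ((d - 1) ^ (d - 1) / d ^ (d - 2))` of the theorem of Schrijver -/
noncomputable def lam (d : ℕ) : ℝ :=
  (1 / 2) * Real.log (((d : ℝ) - 1) ^ (d - 1) / (d : ℝ) ^ ((d : ℤ) - 2))

lemma base_eq (d : ℕ) : (((d + 1 : ℕ) : ℝ) - 1) ^ (d + 1 - 1) / ((d + 1 : ℕ) : ℝ) ^
    (((d + 1 : ℕ) : ℤ) - 2) = ((d : ℝ) + 1) * gg d := by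
  have h1 : (0 : ℝ) < (d : ℝ) + 1 := by positivity
  unfold gg
  push_cast
  rw [add_sub_cancel_right]
  have h2 : ((d : ℤ) + 1 - 2) = (d : ℤ) - 1 := by ring
  rw [h2, zpow_sub₀ h1.ne', zpow_natCast, zpow_one, div_pow]
  field_simp

lemma base_pos (d : ℕ) : 0 < ((d : ℝ) + 1) * gg d := by
  have h1 : (0 : ℝ) < (d : ℝ) + 1 := by positivity
  have h2 : 0 < gg d := by
    unfold gg
    rcases Nat.eq_zero_or_pos d with rfl | h
    · simp
    · have : (0 : ℝ) < d := by exact_mod_cast h
      positivity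
  positivity

/-- the stability inequality -/
theorem stability (d k : ℕ) (hd : 0 < d) (hk : 3 ≤ k) : ∃ c : ℝ, 0 < c ∧
    ∀ (V : Type*) [Fintype V] (G : SimpleGraph V) [DecidableRel G.Adj],
      G.IsBipartite → G.IsRegularOfDegree d →
      c * cycles G k ≤ Real.log (npm G) - lam d * Fintype.card V := by
  classical
  obtain ⟨d, rfl⟩ := Nat.exists_eq_succ_of_ne_zero hd.ne'
  obtain ⟨δ, hδ, K, h⟩ := cycles_le d k hk
  have hlog : 0 < Real.log (1 + δ) := Real.log_pos (by linarith)
  refine ⟨Real.log (1 + δ) / ((K : ℝ) + 1), by positivity, ?_⟩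
  intro V _ G _ hbip hreg
  obtain ⟨c⟩ := hbip
  obtain ⟨f, h1, h2, h3⟩ := h V G (fun v => c v = 0) (by
    intro u v huv
    have := c.valid huv
    have h4 : ∀ x : Fin 2, x = 0 ∨ x = 1 := by decide
    rcases h4 (c u) with h5 | h5 <;> rcases h4 (c v) with h6 | h6 <;> rw [h5, h6] at this ⊢ <;>
      simp_all) hreg
  have h4 : (cycles G k : ℝ) ≤ ((K : ℝ) + 1) * f := by
    have h5 : (cycles G k : ℝ) ≤ (K : ℝ) * f := by exact_mod_cast h1
    have h6 : (0 : ℝ) ≤ f := by positivity
    linarith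
  have h5 : Real.log (1 + δ) / ((K : ℝ) + 1) * cycles G k ≤ Real.log (1 + δ) * f := by
    rw [div_mul_eq_mul_div, div_le_iff₀ (by positivity)]
    calc Real.log (1 + δ) * cycles G k ≤ Real.log (1 + δ) * (((K : ℝ) + 1) * f) :=
          mul_le_mul_of_nonneg_left h4 hlog.le
      _ = _ := by ring
  have h6 := Real.log_le_log (by
    have := base_pos d
    positivity) h3
  rw [Real.log_mul (by
    have := base_pos d
    positivity) (by positivity), Real.log_pow, Real.log_pow] at h6
  have h7 : lam (d + 1) * Fintype.card V =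
      (Fintype.card {v // c v = 0} : ℝ) * Real.log (((d : ℝ) + 1) * gg d) := by
    unfold lam
    rw [base_eq]
    have h8 : (Fintype.card V : ℝ) = 2 * (Fintype.card {v // c v = 0} : ℝ) := by
      exact_mod_cast h2.symm
    rw [h8]
    ring
  have h9 : lam d.succ = lam (d + 1) := rfl
  rw [h9, h7]
  linarith

/-- a sequence of regular bipartite graphs which is extremal for the inequality of Schrijver has
essentially large girth -/
theorem large_girth (d : ℕ) (hd : 0 < d) (V : ℕ → Type*) [∀ n, Fintype (V n)]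
    (G : ∀ n, SimpleGraph (V n)) [∀ n, DecidableRel (G n).Adj] (hbip : ∀ n, (G n).IsBipartite)
    (hreg : ∀ n, (G n).IsRegularOfDegree d)
    (hlim : Tendsto (fun n => Real.log (npm (G n)) / Fintype.card (V n)) atTop (𝓝 (lam d)))
    (k : ℕ) (hk : 3 ≤ k) :
    Tendsto (fun n => (cycles (G n) k : ℝ) / Fintype.card (V n)) atTop (𝓝 0) := by
  obtain ⟨c, hc, h⟩ := stability d k hd hk
  have h1 : Tendsto (fun n => c⁻¹ * |Real.log (npm (G n)) / Fintype.card (V n) - lam d|) atTop
      (𝓝 (c⁻¹ * |lam d - lam d|)) := ((hlim.sub_const (lam d)).abs).const_mul _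
  rw [sub_self, abs_zero, mul_zero] at h1
  refine squeeze_zero (fun n => by positivity) (fun n => ?_) h1
  have h2 := h (V n) (G n) (hbip n) (hreg n)
  rcases Nat.eq_zero_or_pos (Fintype.card (V n)) with h3 | h3
  · rw [h3, Nat.cast_zero, div_zero]
    positivity
  · have h4 : (0 : ℝ) < Fintype.card (V n) := by exact_mod_cast h3
    have h5 : c * ((cycles (G n) k : ℝ) / Fintype.card (V n)) ≤
        Real.log (npm (G n)) / Fintype.card (V n) - lam d := by
      rw [← mul_div_assoc, div_le_iff₀ h4, sub_mul, div_mul_cancel₀ _ h4.ne']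
      exact h2
    rw [inv_mul_eq_div, le_div_iff₀ hc, mul_comm]
    exact h5.trans (le_abs_self _)

end Pool.Agent.Q161.Sh
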