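import Pool.Agent.Q161.Cls

/-! Two irreducible exact-splittings of an infinite class. -/

set_option autoImplicit false

namespace Q161.Cls

open Finset

/-- `C` is the merge of two proper subclasses -/
def ExactSplittable (C : Set P) : Prop :=
  ∃ A B : Set P, IsClass A ∧ IsClass B ∧ A ⊂ C ∧ B ⊂ C ∧ C = Merge A B

/-- `s` is an irreducible exact-splitting of `C` -/
inductive IrrSplit : Set P → Set (Set P) → Prop
  | irred (C : Set P) : ¬ ExactSplittable C → IrrSplit C {C}
  | split (C A B : Set P) (s t : Set (Set P)) : IsClass A → IsClass B → A ⊂ C → B ⊂ C →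
      C = Merge A B → IrrSplit A s → IrrSplit B t → IrrSplit C (s ∪ t)

variable {n k : ℕ}

theorem std_card {σ : Equiv.Perm (Fin k)} {π : Equiv.Perm (Fin n)} {f : Fin k → Fin n}
    {S : Finset (Fin n)} (h : OI σ π f) (hS : univ.image f = S) : S.card = k := by
  rw [← hS, Finset.card_image_of_injective _ h.1.injective]; simp

theorem std_mono {σ : Equiv.Perm (Fin k)} {π : Equiv.Perm (Fin n)} {f : Fin k → Fin n}
    {S : Finset (Fin n)} (h : OI σ π f) (hS : univ.image f = S) :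
    StrictMono σ ↔ StrictMonoOn π S := by
  constructor
  · intro hm x hx y hy hxy
    rw [← hS] at hx hy
    simp only [coe_image, coe_univ, Set.image_univ, Set.mem_range] at hx hy
    obtain ⟨a, rfl⟩ := hx
    obtain ⟨b, rfl⟩ := hy
    rw [← h.2]
    exact hm (h.1.lt_iff_lt.1 hxy)
  · intro hm a b hab
    rw [h.2]
    apply hm _ _ (h.1 hab) <;> rw [← hS] <;> simp

theorem std_anti {σ : Equiv.Perm (Fin k)} {π : Equiv.Perm (Fin n)} {f : Fin k → Fin n}
    {S : Finset (Fin n)} (h : OI σ π f) (hS : univ.image f = S) :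
    StrictAnti σ ↔ StrictAntiOn π S := by
  constructor
  · intro hm x hx y hy hxy
    rw [← hS] at hx hy
    simp only [coe_image, coe_univ, Set.image_univ, Set.mem_range] at hx hy
    obtain ⟨a, rfl⟩ := hx
    obtain ⟨b, rfl⟩ := hy
    rw [← h.2]
    exact hm (h.1.lt_iff_lt.1 hxy)
  · intro hm a b hab
    rw [h.2]
    apply hm _ _ (h.1 hab) <;> rw [← hS] <;> simp

/-- all permutations of length at most `m` -/
def Len (m : ℕ) : Set P := {σ | σ.1 ≤ m}
/-- all increasing permutations -/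
def Inc : Set P := {σ | StrictMono σ.2}
/-- the increasing permutations of length at most `2` -/
def G12 : Set P := {σ | σ.1 ≤ 2 ∧ StrictMono σ.2}
/-- the decreasing permutations of length at most `2` -/
def G21 : Set P := {σ | σ.1 ≤ 2 ∧ StrictAnti σ.2}
/-- the permutations of length at most `3` other than `123` and `321` -/
def N3 : Set P := {σ | σ.1 ≤ 3 ∧ (σ.1 = 3 → ¬ StrictMono σ.2 ∧ ¬ StrictAnti σ.2)}
/-- the permutations of length at most `6` other than `123456` and `654321` -/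
def C6 : Set P := {σ | σ.1 ≤ 6 ∧ (σ.1 = 6 → ¬ StrictMono σ.2 ∧ ¬ StrictAnti σ.2)}

theorem in_len {m : ℕ} {π : Equiv.Perm (Fin n)} {S : Finset (Fin n)} :
    In (Len m) π S ↔ S.card ≤ m := by
  obtain ⟨k, σ, f, h1, h2⟩ := exists_std π S
  rw [in_iff h1 h2, std_card h1 h2]; rfl

theorem in_inc {π : Equiv.Perm (Fin n)} {S : Finset (Fin n)} :
    In Inc π S ↔ StrictMonoOn π S := by
  obtain ⟨k, σ, f, h1, h2⟩ := exists_std π S
  rw [in_iff h1 h2, ← std_mono h1 h2]; rfl

theorem in_G12 {π : Equiv.Perm (Fin n)} {S : Finset (Fin n)} :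
    In G12 π S ↔ S.card ≤ 2 ∧ StrictMonoOn π S := by
  obtain ⟨k, σ, f, h1, h2⟩ := exists_std π S
  rw [in_iff h1 h2, ← std_mono h1 h2, std_card h1 h2]; rfl

theorem in_G21 {π : Equiv.Perm (Fin n)} {S : Finset (Fin n)} :
    In G21 π S ↔ S.card ≤ 2 ∧ StrictAntiOn π S := by
  obtain ⟨k, σ, f, h1, h2⟩ := exists_std π S
  rw [in_iff h1 h2, ← std_anti h1 h2, std_card h1 h2]; rfl

theorem in_N3 {π : Equiv.Perm (Fin n)} {S : Finset (Fin n)} :
    In N3 π S ↔ S.card ≤ 3 ∧ (S.card = 3 → ¬ StrictMonoOn π S ∧ ¬ StrictAntiOn π S) := by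
  obtain ⟨k, σ, f, h1, h2⟩ := exists_std π S
  rw [in_iff h1 h2, ← std_anti h1 h2, ← std_mono h1 h2, std_card h1 h2]; rfl

/-! ### classes -/

theorem le_card {σ : Equiv.Perm (Fin k)} {π : Equiv.Perm (Fin n)} (h : Le σ π) : k ≤ n := by
  obtain ⟨f, hf⟩ := h
  simpa using Fintype.card_le_of_injective f hf.1.injective

theorem le_mono {σ : Equiv.Perm (Fin k)} {π : Equiv.Perm (Fin n)} (h : Le σ π)
    (h2 : StrictMono π) : StrictMono σ := by
  obtain ⟨f, hf⟩ := h
  intro a b hab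
  rw [hf.2]
  exact h2 (hf.1 hab)

theorem le_anti {σ : Equiv.Perm (Fin k)} {π : Equiv.Perm (Fin n)} (h : Le σ π)
    (h2 : StrictAnti π) : StrictAnti σ := by
  obtain ⟨f, hf⟩ := h
  intro a b hab
  rw [hf.2]
  exact h2 (hf.1 hab)

theorem le_eq_len {σ : Equiv.Perm (Fin n)} {π : Equiv.Perm (Fin n)} (h : Le σ π) : σ = π := by
  obtain ⟨f, hf⟩ := h
  have h3 : (⟨n, σ⟩ : P) = ⟨n, π⟩ := by
    apply OI.unique hf (oi_self π)
    have := Finite.injective_iff_surjective.1 hf.1.injective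
    ext x
    simp
    exact this x
  simpa using h3

theorem isClass_len (m : ℕ) : IsClass (Len m) :=
  ⟨Nat.zero_le _, fun _ _ h1 h2 => (le_card h1).trans h2⟩

theorem isClass_inc : IsClass Inc :=
  ⟨fun a => a.elim0, fun _ _ h1 h2 => le_mono h1 h2⟩

theorem isClass_G12 : IsClass G12 :=
  ⟨⟨Nat.zero_le _, fun a => a.elim0⟩, fun _ _ h1 h2 => ⟨(le_card h1).trans h2.1, le_mono h1 h2.2⟩⟩

theorem isClass_G21 : IsClass G21 :=
  ⟨⟨Nat.zero_le _, fun a => a.elim0⟩, fun _ _ h1 h2 => ⟨(le_card h1).trans h2.1, le_anti h1 h2.2⟩⟩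

theorem isClass_N3 : IsClass N3 := by
  refine ⟨⟨Nat.zero_le _, fun h => by simp at h⟩, ?_⟩
  intro k n σ π h1 h2
  have h3 := le_card h1
  refine ⟨h3.trans h2.1, ?_⟩
  intro h4
  have h5 : n ≤ 3 := h2.1
  simp only at h4
  obtain rfl : k = n := by omega
  obtain rfl := le_eq_len h1
  exact h2.2 h4

theorem isClass_C6 : IsClass C6 := by
  refine ⟨⟨Nat.zero_le _, fun h => by simp at h⟩, ?_⟩
  intro k n σ π h1 h2
  have h3 := le_card h1
  refine ⟨h3.trans h2.1, ?_⟩
  intro h4
  have h5 : n ≤ 6 := h2.1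
  simp only at h4
  obtain rfl : k = n := by omega
  obtain rfl := le_eq_len h1
  exact h2.2 h4

/-! ### irreducibility -/

theorem one_of_mem {A : Set P} (hA : IsClass A) {π : Equiv.Perm (Fin n)} (h : (⟨n, π⟩ : P) ∈ A)
    (hn : 0 < n) : (⟨1, 1⟩ : P) ∈ A := by
  refine hA.down 1 π ⟨fun _ => ⟨0, hn⟩, ?_, ?_⟩ h
  · intro a b hab
    exact absurd hab (by simp [Subsingleton.elim a b])
  · intro a b
    simp [Subsingleton.elim a b]

theorem zero_eq (π : Equiv.Perm (Fin 0)) : π = 1 := Subsingleton.elim _ _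
theorem one_eq (π : Equiv.Perm (Fin 1)) : π = 1 := Subsingleton.elim _ _

/-- in an exact splitting both parts contain the permutation of length one -/
theorem one_mem_right {A B : Set P} (hB : IsClass B) (h : A ⊂ Merge A B) :
    (⟨1, 1⟩ : P) ∈ B := by
  by_contra hc
  apply h.2
  rintro ⟨n, π⟩ ⟨R, h1, h2⟩
  simp only at R h1 h2
  have : Rᶜ = ∅ := by
    rw [← Finset.card_eq_zero]
    obtain ⟨k, σ, f, h3, h4⟩ := exists_std π Rᶜ
    rw [in_iff h3 h4] at h2
    rw [std_card h3 h4]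
    by_contra hk
    exact hc (one_of_mem hB h2 (Nat.pos_of_ne_zero hk))
  rw [compl_eq_empty_iff] at this
  rw [this, in_univ] at h1
  exact h1

theorem merge_comm (A B : Set P) : Merge A B = Merge B A := by
  ext ⟨n, π⟩
  constructor
  · rintro ⟨R, h1, h2⟩; exact ⟨Rᶜ, h2, by simpa using h1⟩
  · rintro ⟨R, h1, h2⟩; exact ⟨Rᶜ, h2, by simpa using h1⟩

theorem one_mem_left {A B : Set P} (hA : IsClass A) (h : B ⊂ Merge A B) :
    (⟨1, 1⟩ : P) ∈ A := by
  rw [merge_comm] at h
  exact one_mem_right hA h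

theorem in_singleton {A : Set P} (h : (⟨1, 1⟩ : P) ∈ A) (π : Equiv.Perm (Fin n)) (x : Fin n) :
    In A π {x} := by
  refine ⟨1, 1, fun _ => x, h, ⟨?_, ?_⟩, by simp⟩
  · intro a b hab
    exact absurd hab (by simp [Subsingleton.elim a b])
  · intro a b
    simp [Subsingleton.elim a b]

theorem two_mem {A B : Set P} (hA : (⟨1, 1⟩ : P) ∈ A) (hB : (⟨1, 1⟩ : P) ∈ B)
    (π : Equiv.Perm (Fin 2)) : (⟨2, π⟩ : P) ∈ Merge A B := by
  refine ⟨{0}, in_singleton hA π 0, ?_⟩
  have : ({0} : Finset (Fin 2))ᶜ = {1} := by decide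
  simp only at this ⊢
  rw [this]
  exact in_singleton hB π 1

/-- a class which misses a permutation of length two is not exact-splittable -/
theorem irred_of_two {C : Set P} (π : Equiv.Perm (Fin 2)) (h : (⟨2, π⟩ : P) ∉ C) :
    ¬ ExactSplittable C := by
  rintro ⟨A, B, hA, hB, h1, h2, rfl⟩
  exact h (two_mem (one_mem_left hA h2) (one_mem_right hB h1) π)

theorem irred_len1 : ¬ ExactSplittable (Len 1) := 
  irred_of_two 1 (by simp [Len])

theorem irred_G12 : ¬ ExactSplittable G12 :=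
  irred_of_two (Equiv.swap 0 1) (by
    rintro ⟨_, h⟩
    have : (Equiv.swap (0 : Fin 2) 1) 0 < (Equiv.swap (0 : Fin 2) 1) 1 := h (by decide)
    exact absurd this (by decide))

theorem irred_G21 : ¬ ExactSplittable G21 :=
  irred_of_two 1 (by
    rintro ⟨_, h⟩
    have : (1 : Equiv.Perm (Fin 2)) 1 < (1 : Equiv.Perm (Fin 2)) 0 := h (by decide)
    exact absurd this (by decide))

theorem irred_inc : ¬ ExactSplittable Inc :=
  irred_of_two (Equiv.swap 0 1) (by
    intro h
    have : (Equiv.swap (0 : Fin 2) 1) 0 < (Equiv.swap (0 : Fin 2) 1) 1 := h (by decide)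
    exact absurd this (by decide))

/-- if a class contains a permutation of length at least two, it contains `12` or `21` -/
theorem two_of_mem {A : Set P} (hA : IsClass A) {π : Equiv.Perm (Fin n)} (h : (⟨n, π⟩ : P) ∈ A)
    (hn : 2 ≤ n) : (⟨2, 1⟩ : P) ∈ A ∨ (⟨2, Equiv.swap 0 1⟩ : P) ∈ A := by
  let f : Fin 2 → Fin n := fun i => ⟨i, by omega⟩
  have hf : StrictMono f := fun a b hab => hab
  rcases lt_or_gt_of_ne (π.injective.ne (show f 0 ≠ f 1 by simp [f])) with h1 | h1
  · left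
    refine hA.down 1 π ⟨f, hf, ?_⟩ h
    intro a b
    fin_cases a <;> fin_cases b <;> simp [h1, h1.le]
  · right
    refine hA.down _ π ⟨f, hf, ?_⟩ h
    intro a b
    fin_cases a <;> fin_cases b <;> simp [h1, h1.le]

theorem not_two_of_merge {A B : Set P} (hB : (⟨1, 1⟩ : P) ∈ B)
    (h : Merge A B = N3) : (⟨2, 1⟩ : P) ∉ A ∧ (⟨2, Equiv.swap 0 1⟩ : P) ∉ A := by
  constructor
  · intro h2
    have : (⟨3, 1⟩ : P) ∈ Merge A B := by
      refine ⟨{0, 1}, ⟨2, 1, Fin.castSucc, h2, ⟨Fin.strictMono_castSucc, by decide⟩, by decide⟩, ?_⟩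
      have e : ({0, 1} : Finset (Fin 3))ᶜ = {2} := by decide
      simp only at e ⊢
      rw [e]
      exact in_singleton hB _ _
    rw [h] at this
    exact (this.2 rfl).1 (fun a b hab => hab)
  · intro h2
    have : (⟨3, Fin.revPerm⟩ : P) ∈ Merge A B := by
      refine ⟨{0, 1}, ⟨2, Equiv.swap 0 1, Fin.castSucc, h2,
        ⟨Fin.strictMono_castSucc, by decide⟩, by decide⟩, ?_⟩
      have e : ({0, 1} : Finset (Fin 3))ᶜ = {2} := by decide
      simp only at e ⊢
      rw [e]
      exact in_singleton hB _ _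
    rw [h] at this
    exact (this.2 rfl).2 (fun a b hab => by simpa using hab)

theorem card_le_of_no_two {A : Set P} (hA : IsClass A)
    (h : (⟨2, 1⟩ : P) ∉ A ∧ (⟨2, Equiv.swap 0 1⟩ : P) ∉ A) {π : Equiv.Perm (Fin n)}
    {S : Finset (Fin n)} (hS : In A π S) : S.card ≤ 1 := by
  obtain ⟨k, σ, f, h1, h2⟩ := exists_std π S
  rw [in_iff h1 h2] at hS
  rw [std_card h1 h2]
  by_contra hc
  rcases two_of_mem hA hS (by omega) with h3 | h3
  · exact h.1 h3
  · exact h.2 h3

theorem irred_N3 : ¬ ExactSplittable N3 := by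
  rintro ⟨A, B, hA, hB, h1, h2, h3⟩
  have oA : (⟨1, 1⟩ : P) ∈ A := one_mem_left (B := B) hA (by rw [← h3]; exact h2)
  have oB : (⟨1, 1⟩ : P) ∈ B := one_mem_right (A := A) hB (by rw [← h3]; exact h1)
  have tA := not_two_of_merge oB h3.symm
  have tB := not_two_of_merge (A := B) oA (by rw [merge_comm]; exact h3.symm)
  have : (⟨3, Equiv.swap 0 1⟩ : P) ∈ N3 := by
    refine ⟨le_refl 3, fun _ => ⟨fun h => ?_, fun h => ?_⟩⟩
    · have : (Equiv.swap (0 : Fin 3) 1) 0 < (Equiv.swap (0 : Fin 3) 1) 1 := h (by decide)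
      exact absurd this (by decide)
    · have : (Equiv.swap (0 : Fin 3) 1) 2 < (Equiv.swap (0 : Fin 3) 1) 1 := h (by decide)
      exact absurd this (by decide)
  rw [h3] at this
  obtain ⟨R, hR1, hR2⟩ := this
  have e1 := card_le_of_no_two hA tA hR1
  have e2 := card_le_of_no_two hB tB hR2
  have e3 : R.card + Rᶜ.card = 3 := by rw [Finset.card_add_card_compl]; rfl
  omega

/-! ### the merges -/

theorem mem_len {m : ℕ} {π : Equiv.Perm (Fin n)} : (⟨n, π⟩ : P) ∈ Len m ↔ n ≤ m := Iff.rfl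

/-- splitting a finite set in two parts of given sizes -/
theorem exists_part (S : Finset (Fin n)) (a b : ℕ) (h : S.card ≤ a + b) :
    ∃ R ⊆ S, R.card ≤ a ∧ (S \ R).card ≤ b := by
  rcases le_total S.card a with h1 | h1
  · exact ⟨S, Subset.refl _, h1, by simp⟩
  · obtain ⟨R, hR, hc⟩ := Finset.exists_subset_card_eq h1
    refine ⟨R, hR, hc.le, ?_⟩
    rw [Finset.card_sdiff_of_subset hR]
    omega

theorem len_merge (a b : ℕ) : Merge (Len a) (Len b) = Len (a + b) := by
  ext ⟨n, π⟩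
  rw [← in_univ, ← in_univ, in_merge, in_len]
  simp only [in_len]
  constructor
  · rintro ⟨R, hR, h1, h2⟩
    have := Finset.card_sdiff_add_card_eq_card hR
    omega
  · intro h
    exact exists_part _ a b h

theorem mono_small {π : Equiv.Perm (Fin n)} {S : Finset (Fin n)} (h : S.card ≤ 1) :
    StrictMonoOn π S := by
  intro x hx y hy hxy
  have := Finset.card_le_one.1 h x hx y hy
  exact absurd hxy (by simp [this])

theorem anti_small {π : Equiv.Perm (Fin n)} {S : Finset (Fin n)} (h : S.card ≤ 1) :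
    StrictAntiOn π S := by
  intro x hx y hy hxy
  have := Finset.card_le_one.1 h x hx y hy
  exact absurd hxy (by simp [this])

theorem mono_pair {π : Equiv.Perm (Fin n)} {a b : Fin n} (hab : a < b) (h : π a < π b) :
    StrictMonoOn π ({a, b} : Finset (Fin n)) := by
  intro x hx y hy hxy
  simp only [coe_insert, coe_singleton, Set.mem_insert_iff, Set.mem_singleton_iff] at hx hy
  rcases hx with rfl | rfl <;> rcases hy with rfl | rfl
  · exact absurd hxy (lt_irrefl _)
  · exact h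
  · exact absurd hab (not_lt.2 hxy.le)
  · exact absurd hxy (lt_irrefl _)

theorem anti_pair {π : Equiv.Perm (Fin n)} {a b : Fin n} (hab : a < b) (h : π b < π a) :
    StrictAntiOn π ({a, b} : Finset (Fin n)) := by
  intro x hx y hy hxy
  simp only [coe_insert, coe_singleton, Set.mem_insert_iff, Set.mem_singleton_iff] at hx hy
  rcases hx with rfl | rfl <;> rcases hy with rfl | rfl
  · exact absurd hxy (lt_irrefl _)
  · exact h
  · exact absurd hab (not_lt.2 hxy.le)
  · exact absurd hxy (lt_irrefl _)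

/-- merging two short monotone classes: everything of length at most `3` -/
theorem three_in {π : Equiv.Perm (Fin n)} {S : Finset (Fin n)} (h : S.card ≤ 3) :
    In (Merge G12 G21) π S := by
  classical
  rw [in_merge]
  simp only [in_G12, in_G21]
  rcases Nat.lt_or_ge S.card 3 with h2 | h2
  · obtain ⟨R, hR, h3, h4⟩ := exists_part S 1 1 (by omega)
    exact ⟨R, hR, ⟨by omega, mono_small h3⟩, by omega, anti_small h4⟩
  · obtain ⟨R, hR, h3⟩ := Finset.exists_subset_card_eq (show 2 ≤ S.card by omega)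
    have h4 := Finset.card_sdiff_add_card_eq_card hR
    obtain ⟨a, b, hab, rfl⟩ := Finset.card_eq_two.1 h3
    wlog hlt : a < b generalizing a b with H
    · exact H b a (Ne.symm hab) (by rwa [Finset.pair_comm]) (by rwa [Finset.pair_comm])
        (by rwa [Finset.pair_comm]) (lt_of_le_of_ne (not_lt.1 hlt) (Ne.symm hab))
    rcases lt_or_gt_of_ne (π.injective.ne hab) with h5 | h5
    · exact ⟨{a, b}, hR, ⟨h3.le, mono_pair hlt h5⟩, by omega, anti_small (by omega)⟩
    · refine ⟨S \ {a, b}, sdiff_subset, ⟨by omega, mono_small (by omega)⟩, ?_⟩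
      rw [Finset.sdiff_sdiff_eq_self hR]
      exact ⟨h3.le, anti_pair hlt h5⟩

/-- a non-monotone permutation of six letters has a disjoint ascending and descending pair -/
theorem disjoint_pairs (π : Equiv.Perm (Fin 6)) (h1 : ¬ StrictMono π) (h2 : ¬ StrictAnti π) :
    ∃ a b c d : Fin 6, a < b ∧ c < d ∧ π a < π b ∧ π d < π c ∧ a ≠ c ∧ a ≠ d ∧ b ≠ c ∧ b ≠ d := by
  rw [Fin.strictMono_iff_lt_succ] at h1
  rw [Fin.strictAnti_iff_succ_lt] at h2
  push Not at h1 h2
  obtain ⟨i, hi⟩ := h1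
  obtain ⟨j, hj⟩ := h2
  have hi' : π i.succ < π i.castSucc := lt_of_le_of_ne hi (π.injective.ne (Fin.castSucc_lt_succ).ne')
  have hj' : π j.castSucc < π j.succ := lt_of_le_of_ne hj (π.injective.ne (Fin.castSucc_lt_succ).ne)
  have key : ∀ i j : Fin 5, (j.castSucc ≠ i.castSucc ∧ j.castSucc ≠ i.succ ∧
      j.succ ≠ i.castSucc ∧ j.succ ≠ i.succ) ∨ ∃ c d : Fin 6, c < d ∧
        c ≠ i.castSucc ∧ c ≠ i.succ ∧ d ≠ i.castSucc ∧ d ≠ i.succ ∧
        c ≠ j.castSucc ∧ c ≠ j.succ ∧ d ≠ j.castSucc ∧ d ≠ j.succ := by decide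
  rcases key i j with h | ⟨c, d, hcd, e1, e2, e3, e4, e5, e6, e7, e8⟩
  · exact ⟨j.castSucc, j.succ, i.castSucc, i.succ, Fin.castSucc_lt_succ, Fin.castSucc_lt_succ,
      hj', hi', h.1, h.2.1, h.2.2.1, h.2.2.2⟩
  · rcases lt_or_gt_of_ne (π.injective.ne hcd.ne) with h | h
    · exact ⟨c, d, i.castSucc, i.succ, hcd, Fin.castSucc_lt_succ, h, hi', e1, e2, e3, e4⟩
    · exact ⟨j.castSucc, j.succ, c, d, Fin.castSucc_lt_succ, hcd, hj', h, e5.symm, e7.symm,
        e6.symm, e8.symm⟩

theorem mem_C6 {π : Equiv.Perm (Fin n)} : (⟨n, π⟩ : P) ∈ C6 ↔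
    n ≤ 6 ∧ (n = 6 → ¬ StrictMono π ∧ ¬ StrictAnti π) := Iff.rfl

theorem C6_eq1 : C6 = Merge (Len 2) (Merge G12 G21) := by
  classical
  ext ⟨n, π⟩
  rw [mem_C6]
  constructor
  · rintro ⟨h1, h2⟩
    rw [← in_univ, in_merge]
    rcases Nat.lt_or_ge n 6 with h3 | h3
    · obtain ⟨R, hR, h4, h5⟩ := exists_part (univ : Finset (Fin n)) 2 3 (by simp; omega)
      exact ⟨R, hR, in_len.2 h4, three_in h5⟩
    · obtain rfl : n = 6 := by omega
      obtain ⟨h4, h5⟩ := h2 rfl
      obtain ⟨a, b, c, d, hab, hcd, h6, h7, e1, e2, e3, e4⟩ := disjoint_pairs π h4 h5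
      refine ⟨univ \ ({a, b} ∪ {c, d}), sdiff_subset, ?_, ?_⟩
      · rw [in_len, Finset.card_sdiff_of_subset (subset_univ _), Finset.card_union_of_disjoint,
          Finset.card_pair hab.ne, Finset.card_pair hcd.ne]
        · simp
        · rw [Finset.disjoint_left]
          intro x hx hx'
          simp only [mem_insert, mem_singleton] at hx hx'
          rcases hx with rfl | rfl <;> rcases hx' with h | h <;> simp_all
      · rw [Finset.sdiff_sdiff_eq_self (subset_univ _), in_merge]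
        refine ⟨{a, b}, subset_union_left, ?_, ?_⟩
        · rw [in_G12]
          exact ⟨(Finset.card_pair hab.ne).le, mono_pair hab h6⟩
        · have : ({a, b} ∪ {c, d} : Finset (Fin 6)) \ {a, b} = {c, d} := by
            rw [Finset.union_sdiff_left, Finset.sdiff_eq_self_iff_disjoint, Finset.disjoint_left]
            intro x hx hx'
            simp only [mem_insert, mem_singleton] at hx hx'
            rcases hx with rfl | rfl <;> rcases hx' with h | h <;> simp_all
          rw [this, in_G21]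
          exact ⟨(Finset.card_pair hcd.ne).le, anti_pair hcd h7⟩
  · intro h
    rw [← in_univ, in_merge] at h
    obtain ⟨R, hR, h1, h2⟩ := h
    rw [in_merge] at h2
    obtain ⟨R2, hR2, h3, h4⟩ := h2
    rw [in_len] at h1
    rw [in_G12] at h3
    rw [in_G21] at h4
    have c1 := Finset.card_sdiff_add_card_eq_card hR
    have c2 := Finset.card_sdiff_add_card_eq_card hR2
    rw [Finset.card_univ, Fintype.card_fin] at c1
    refine ⟨by omega, ?_⟩
    rintro rfl
    have d1 : 1 < R2.card := by omega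
    have d2 : 1 < ((univ \ R) \ R2).card := by omega
    obtain ⟨x, hx, y, hy, hxy⟩ := Finset.one_lt_card.1 d1
    obtain ⟨z, hz, w, hw, hzw⟩ := Finset.one_lt_card.1 d2
    constructor
    · intro hm
      rcases lt_or_gt_of_ne hzw with h | h
      · exact absurd (hm h) (not_lt.2 (h4.2 hz hw h).le)
      · exact absurd (hm h) (not_lt.2 (h4.2 hw hz h).le)
    · intro hm
      rcases lt_or_gt_of_ne hxy with h | h
      · exact absurd (hm h) (not_lt.2 (h3.2 hx hy h).le)
      · exact absurd (hm h) (not_lt.2 (h3.2 hy hx h).le)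

theorem two_in_N3 {π : Equiv.Perm (Fin n)} {S : Finset (Fin n)} (h : S.card ≤ 2) :
    In N3 π S := by
  rw [in_N3]
  exact ⟨by omega, fun h' => by omega⟩

/-- a non-monotone permutation of six letters has a non-monotone triple -/
theorem triple (π : Equiv.Perm (Fin 6)) (h1 : ¬ StrictMono π) (h2 : ¬ StrictAnti π) :
    ∃ T : Finset (Fin 6), T.card = 3 ∧ ¬ StrictMonoOn π T ∧ ¬ StrictAntiOn π T := by
  classical
  obtain ⟨a, b, c, d, hab, hcd, h6, h7, e1, e2, e3, e4⟩ := disjoint_pairs π h1 h2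
  -- the pair `a, c`
  have key : ∀ x y z w v : Fin 6, x < y → π x < π y → z < w → π w < π z →
      ∀ T : Finset (Fin 6), x ∈ T → y ∈ T → z ∈ T → w ∈ T →
        ¬ StrictMonoOn π T ∧ ¬ StrictAntiOn π T := by
    intro x y z w _ hxy h3 hzw h4 T tx ty tz tw
    exact ⟨fun hm => absurd (hm tz tw hzw) (not_lt.2 h4.le),
      fun hm => absurd (hm tx ty hxy) (not_lt.2 h3.le)⟩
  have hac := π.injective.ne e1
  by_cases hord : (a < c ∧ π a < π c) ∨ (c < a ∧ π c < π a)
  · refine ⟨{a, c, d}, ?_, ?_⟩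
    · rw [Finset.card_eq_three]; exact ⟨a, c, d, e1, e2, hcd.ne, rfl⟩
    · rcases hord with ⟨h8, h9⟩ | ⟨h8, h9⟩
      · exact key a c c d 0 h8 h9 hcd h7 _ (by simp) (by simp) (by simp) (by simp)
      · exact key c a c d 0 h8 h9 hcd h7 _ (by simp) (by simp) (by simp) (by simp)
  · refine ⟨{a, b, c}, ?_, ?_⟩
    · rw [Finset.card_eq_three]; exact ⟨a, b, c, hab.ne, e1, e3, rfl⟩
    · rcases lt_or_gt_of_ne e1 with h8 | h8
      · have h9 : π c < π a := by
          rcases lt_or_gt_of_ne hac with h | h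
          · exact absurd (Or.inl ⟨h8, h⟩) hord
          · exact h
        exact key a b a c 0 hab h6 h8 h9 _ (by simp) (by simp) (by simp) (by simp)
      · have h9 : π a < π c := by
          rcases lt_or_gt_of_ne hac with h | h
          · exact h
          · exact absurd (Or.inr ⟨h8, h⟩) hord
        exact key a b c a 0 hab h6 h8 h9 _ (by simp) (by simp) (by simp) (by simp)

theorem C6_eq2 : C6 = Merge (Len 2) (Merge (Len 1) N3) := by
  classical
  ext ⟨n, π⟩
  rw [mem_C6]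
  constructor
  · rintro ⟨h1, h2⟩
    rw [← in_univ, in_merge]
    rcases Nat.lt_or_ge n 6 with h3 | h3
    · obtain ⟨R, hR, h4, h5⟩ := exists_part (univ : Finset (Fin n)) 2 3 (by simp; omega)
      refine ⟨R, hR, in_len.2 h4, ?_⟩
      obtain ⟨R', hR', h4', h5'⟩ := exists_part (univ \ R) 1 2 (by omega)
      rw [in_merge]
      exact ⟨R', hR', in_len.2 h4', two_in_N3 h5'⟩
    · obtain rfl : n = 6 := by omega
      obtain ⟨h4, h5⟩ := h2 rfl
      obtain ⟨T, hT, h6, h7⟩ := triple π h4 h5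
      obtain ⟨R, hR, h8, h9⟩ := exists_part (univ \ T) 2 1 (by
        rw [Finset.card_sdiff_of_subset (subset_univ _)]; simp; omega)
      refine ⟨R, subset_univ _, in_len.2 h8, ?_⟩
      rw [in_merge]
      refine ⟨(univ \ T) \ R, sdiff_subset_sdiff (sdiff_subset) (Subset.refl _), in_len.2 h9, ?_⟩
      have : (univ \ R) \ ((univ \ T) \ R) = T := by
        ext x
        simp only [mem_sdiff, mem_univ, true_and, not_and, not_not]
        constructor
        · rintro ⟨h10, h11⟩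
          by_contra h12
          exact h10 (h11 h12)
        · intro hx
          refine ⟨fun h => ?_, fun h => absurd hx h⟩
          exact (Finset.mem_sdiff.1 (hR h)).2 hx
      rw [this, in_N3]
      exact ⟨hT.le, fun _ => ⟨h6, h7⟩⟩
  · intro h
    rw [← in_univ, in_merge] at h
    obtain ⟨R, hR, h1, h2⟩ := h
    rw [in_merge] at h2
    obtain ⟨R2, hR2, h3, h4⟩ := h2
    rw [in_len] at h1 h3
    rw [in_N3] at h4
    have c1 := Finset.card_sdiff_add_card_eq_card hR
    have c2 := Finset.card_sdiff_add_card_eq_card hR2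
    rw [Finset.card_univ, Fintype.card_fin] at c1
    refine ⟨by omega, ?_⟩
    rintro rfl
    have h5 := h4.2 (by omega)
    exact ⟨fun hm => h5.1 (hm.strictMonoOn _), fun hm => h5.2 (hm.strictAntiOn _)⟩

/-! ### the two splittings -/

theorem ssubset_of_card {A B : Set P} (hAB : A ⊆ B) {n : ℕ} {π : Equiv.Perm (Fin n)}
    (h1 : (⟨n, π⟩ : P) ∈ B) (h2 : (⟨n, π⟩ : P) ∉ A) : A ⊂ B :=
  ⟨hAB, fun h => h2 (h h1)⟩

theorem split1 : IrrSplit (Merge G12 G21) ({G12} ∪ {G21}) := by
  apply IrrSplit.split _ G12 G21 _ _ isClass_G12 isClass_G21 _ _ rfl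
    (IrrSplit.irred _ irred_G12) (IrrSplit.irred _ irred_G21)
  · refine ssubset_of_card (subset_merge_left isClass_G21) (n := 3) (π := 1)
      (in_univ.1 (three_in (by simp))) (by simp [G12])
  · refine ssubset_of_card (subset_merge_right isClass_G12) (n := 3) (π := 1)
      (in_univ.1 (three_in (by simp))) (by simp [G21])

theorem len2 : IrrSplit (Len 2) ({Len 1} ∪ {Len 1}) := by
  have h : Len 1 ⊂ Len 2 := ⟨fun π (h : π.1 ≤ 1) => show π.1 ≤ 2 by omega,
    fun h => by have h2 : (2 : ℕ) ≤ 1 := h (show (⟨2, 1⟩ : P) ∈ Len 2 from le_refl 2); omega⟩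
  exact IrrSplit.split _ (Len 1) (Len 1) _ _ (isClass_len 1) (isClass_len 1) h h
    (len_merge 1 1).symm (IrrSplit.irred _ irred_len1) (IrrSplit.irred _ irred_len1)

theorem split2 : IrrSplit (Merge (Len 1) N3) ({Len 1} ∪ {N3}) := by
  have h3 : (⟨3, 1⟩ : P) ∈ Merge (Len 1) N3 := by
    rw [← in_univ, in_merge]
    obtain ⟨R, hR, h4, h5⟩ := exists_part (univ : Finset (Fin 3)) 1 2 (by simp)
    exact ⟨R, hR, in_len.2 h4, two_in_N3 h5⟩
  apply IrrSplit.split _ (Len 1) N3 _ _ (isClass_len 1) isClass_N3 _ _ rfl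
    (IrrSplit.irred _ irred_len1) (IrrSplit.irred _ irred_N3)
  · exact ssubset_of_card (subset_merge_left isClass_N3) h3 (by simp [Len])
  · exact ssubset_of_card (subset_merge_right (isClass_len 1)) h3
      (fun h => (h.2 rfl).1 (fun a b hab => hab))

theorem swap6_mem : (⟨6, Equiv.swap 0 1⟩ : P) ∈ C6 := by
  refine ⟨le_refl 6, fun _ => ⟨fun h => ?_, fun h => ?_⟩⟩
  · have : (Equiv.swap (0 : Fin 6) 1) 0 < (Equiv.swap (0 : Fin 6) 1) 1 := h (by decide)
    exact absurd this (by decide)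
  · have : (Equiv.swap (0 : Fin 6) 1) 2 < (Equiv.swap (0 : Fin 6) 1) 1 := h (by decide)
    exact absurd this (by decide)

theorem small_ssubset {A : Set P} (h : A ⊆ C6) (h2 : ∀ σ ∈ A, σ.1 ≤ 4) : A ⊂ C6 :=
  ssubset_of_card h swap6_mem (fun h3 => by have : (6 : ℕ) ≤ 4 := h2 _ h3; omega)

theorem len_le {A B : Set P} {a b : ℕ} (hA : ∀ σ ∈ A, σ.1 ≤ a) (hB : ∀ σ ∈ B, σ.1 ≤ b) :
    ∀ σ ∈ Merge A B, σ.1 ≤ a + b := by
  rintro ⟨n, π⟩ ⟨R, ⟨k, σ, f, h1, h2, h3⟩, ⟨l, τ, g, h4, h5, h6⟩⟩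
  have e1 := hA _ h1
  have e2 := hB _ h4
  have e3 := std_card h2 h3
  have e4 := std_card h5 h6
  have e5 : R.card + Rᶜ.card = n := by rw [Finset.card_add_card_compl]; simp
  simp only at e1 e2 ⊢
  omega

theorem splitC1 : IrrSplit C6 (({Len 1} ∪ {Len 1}) ∪ ({G12} ∪ {G21})) := by
  apply IrrSplit.split _ (Len 2) (Merge G12 G21) _ _ (isClass_len 2)
    (isClass_G12.merge isClass_G21) _ _ C6_eq1 len2 split1
  · refine small_ssubset ?_ (fun σ h => le_trans h (by norm_num))
    rw [C6_eq1]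
    exact subset_merge_left (isClass_G12.merge isClass_G21)
  · refine small_ssubset ?_ (len_le (a := 2) (b := 2) (fun _ h => h.1) (fun _ h => h.1))
    rw [C6_eq1]
    exact subset_merge_right (isClass_len 2)

theorem splitC2 : IrrSplit C6 (({Len 1} ∪ {Len 1}) ∪ ({Len 1} ∪ {N3})) := by
  apply IrrSplit.split _ (Len 2) (Merge (Len 1) N3) _ _ (isClass_len 2)
    ((isClass_len 1).merge isClass_N3) _ _ C6_eq2 len2 split2
  · refine small_ssubset ?_ (fun σ h => le_trans h (by norm_num))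
    rw [C6_eq2]
    exact subset_merge_left ((isClass_len 1).merge isClass_N3)
  · refine small_ssubset ?_ (len_le (a := 1) (b := 3) (fun _ h => h) (fun _ h => h.1))
    rw [C6_eq2]
    exact subset_merge_right (isClass_len 2)

/-- the infinite class -/
def CI : Set P := Merge C6 Inc

theorem id_mem_inc (n : ℕ) : (⟨n, 1⟩ : P) ∈ Inc := fun a b hab => hab

theorem isClass_CI : IsClass CI := isClass_C6.merge isClass_inc

theorem infinite_CI : CI.Infinite := by
  have h : Inc.Infinite := by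
    apply Set.infinite_of_injective_forall_mem (f := fun n : ℕ => (⟨n, 1⟩ : P))
    · intro a b h
      simp only [Sigma.mk.injEq] at h
      exact h.1
    · exact id_mem_inc
  exact h.mono (subset_merge_right isClass_C6)

theorem C6_ssub : C6 ⊂ CI :=
  ssubset_of_card (subset_merge_left isClass_inc)
    (subset_merge_right isClass_C6 (id_mem_inc 7)) (fun h => by
      have h' : (7 : ℕ) ≤ 6 := h.1
      omega)

theorem inc_ssub : Inc ⊂ CI :=
  ssubset_of_card (subset_merge_right isClass_C6) (subset_merge_left isClass_inc swap6_mem)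
    (fun h => by
      have : (Equiv.swap (0 : Fin 6) 1) 0 < (Equiv.swap (0 : Fin 6) 1) 1 := h (by decide)
      exact absurd this (by decide))

theorem splitCI1 : IrrSplit CI ((({Len 1} ∪ {Len 1}) ∪ ({G12} ∪ {G21})) ∪ {Inc}) :=
  IrrSplit.split _ C6 Inc _ _ isClass_C6 isClass_inc C6_ssub inc_ssub rfl splitC1
    (IrrSplit.irred _ irred_inc)

theorem splitCI2 : IrrSplit CI ((({Len 1} ∪ {Len 1}) ∪ ({Len 1} ∪ {N3})) ∪ {Inc}) :=
  IrrSplit.split _ C6 Inc _ _ isClass_C6 isClass_inc C6_ssub inc_ssub rfl splitC2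
    (IrrSplit.irred _ irred_inc)

theorem sets_ne : ((({Len 1} ∪ {Len 1}) ∪ ({G12} ∪ {G21})) ∪ {Inc} : Set (Set P)) ≠
    ((({Len 1} ∪ {Len 1}) ∪ ({Len 1} ∪ {N3})) ∪ {Inc}) := by
  intro h
  have h1 : N3 ∈ ((({Len 1} ∪ {Len 1}) ∪ ({G12} ∪ {G21})) ∪ {Inc} : Set (Set P)) := by
    rw [h]; simp
  have h3 : (⟨3, Equiv.swap 0 1⟩ : P) ∈ N3 := by
    refine ⟨le_refl 3, fun _ => ⟨fun h => ?_, fun h => ?_⟩⟩
    · have : (Equiv.swap (0 : Fin 3) 1) 0 < (Equiv.swap (0 : Fin 3) 1) 1 := h (by decide)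
      exact absurd this (by decide)
    · have : (Equiv.swap (0 : Fin 3) 1) 2 < (Equiv.swap (0 : Fin 3) 1) 1 := h (by decide)
      exact absurd this (by decide)
  simp only [Set.mem_union, Set.mem_singleton_iff] at h1
  rcases h1 with ((h1 | h1) | (h1 | h1)) | h1
  · rw [h1] at h3; simp [Len] at h3
  · rw [h1] at h3; simp [Len] at h3
  · rw [h1] at h3; simp [G12] at h3
  · rw [h1] at h3; simp [G21] at h3
  · rw [h1] at h3
    have : (Equiv.swap (0 : Fin 3) 1) 0 < (Equiv.swap (0 : Fin 3) 1) 1 := h3 (by decide)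
    exact absurd this (by decide)

end Q161.Cls
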