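import Mathlib
import Pool.Agent.W723.SecC.D1d

/-! # Primes modulo which a polynomial has no root, and integers without such prime factors -/

set_option autoImplicit false

namespace Pool.Agent.Q161.StA

open Polynomial NumberField IsDedekindDomain Finset

/-- some automorphism of the field of algebraic numbers fixes no root of `h` -/
def Derangement (h : ℤ[X]) : Prop :=
  ∃ σ : AlgebraicClosure ℚ ≃ₐ[ℚ] AlgebraicClosure ℚ,
    ∀ θ : AlgebraicClosure ℚ, aeval θ h = 0 → σ θ ≠ θ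

/-- the prime number of a prime ideal of the integers of `ℚ` -/
theorem exists_prime (v : HeightOneSpectrum (𝓞 ℚ)) : ∃ p : ℕ, p.Prime ∧
    Ideal.absNorm v.asIdeal = p ∧ ∀ x : 𝓞 ℚ, x ∈ v.asIdeal ↔ (p : ℤ) ∣ Rat.ringOfIntegersEquiv x := by
  let e : 𝓞 ℚ ≃+* ℤ := Rat.ringOfIntegersEquiv
  have hpr : IsPrincipalIdealRing (𝓞 ℚ) :=
    IsPrincipalIdealRing.of_surjective (e.symm : ℤ →+* 𝓞 ℚ) e.symm.surjective
  obtain ⟨g, hg⟩ := (IsPrincipalIdealRing.principal v.asIdeal).principal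
  have hg' : v.asIdeal = Ideal.span {g} := hg
  have hg0 : g ≠ 0 := by
    rintro rfl
    apply v.ne_bot
    rw [hg']
    simp
  have hgp : Prime g := by
    have := v.isPrime
    rw [hg'] at this
    exact (Ideal.span_singleton_prime hg0).1 this
  have hep : Prime (e g) := (MulEquiv.prime_iff (e : 𝓞 ℚ ≃* ℤ)).2 hgp
  have hmem : ∀ x : 𝓞 ℚ, x ∈ v.asIdeal ↔ (((e g).natAbs : ℕ) : ℤ) ∣ e x := by
    intro x
    rw [hg', Ideal.mem_span_singleton, Int.natCast_natAbs, abs_dvd]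
    constructor
    · rintro ⟨c, rfl⟩
      exact ⟨e c, map_mul e g c⟩
    · rintro ⟨c, hc⟩
      refine ⟨e.symm c, e.injective ?_⟩
      rw [map_mul, hc, RingEquiv.apply_symm_apply]
  refine ⟨(e g).natAbs, Int.prime_iff_natAbs_prime.1 hep, ?_, hmem⟩
  rw [Ideal.absNorm_apply, Submodule.cardQuot_apply]
  have h1 : Ideal.span {(((e g).natAbs : ℕ) : ℤ)} = v.asIdeal.map (e : 𝓞 ℚ →+* ℤ) := by
    rw [hg', Ideal.map_span, Set.image_singleton, Int.span_natAbs]
    rfl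
  rw [Nat.card_congr (Ideal.quotientEquiv v.asIdeal (Ideal.span {(((e g).natAbs : ℕ) : ℤ)}) e
    h1).toEquiv, Nat.card_congr (Int.quotientSpanNatEquivZMod (e g).natAbs).toEquiv, Nat.card_zmod]

/-- a separable polynomial with the same roots -/
theorem exists_sep (h : ℤ[X]) (h0 : h ≠ 0) : ∃ (g q : ℤ[X]) (N : ℤ) (n : ℕ), N ≠ 0 ∧
    (g.map (algebraMap ℤ ℚ)).Separable ∧ C N * g ^ n = h * q ∧
    ∀ θ : AlgebraicClosure ℚ, aeval θ g = 0 → aeval θ h = 0 := by
  classical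
  have hinj : Function.Injective (algebraMap ℤ ℚ) := RingHom.injective_int _
  obtain ⟨H, hH⟩ : ∃ H : ℚ[X], H = h.map (algebraMap ℤ ℚ) := ⟨_, rfl⟩
  have hH0 : H ≠ 0 := by
    rw [hH]
    exact (Polynomial.map_ne_zero_iff hinj).2 h0
  obtain ⟨r, hr⟩ : ∃ r : ℚ[X], r = UniqueFactorizationMonoid.radical H := ⟨_, rfl⟩
  have hrH : r ∣ H := by rw [hr]; exact UniqueFactorizationMonoid.radical_dvd_self
  have hrs : Squarefree r := by rw [hr]; exact UniqueFactorizationMonoid.squarefree_radical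
  obtain ⟨n, hn⟩ := UniqueFactorizationMonoid.exists_dvd_radical_self_pow hH0
  rw [← hr] at hn
  obtain ⟨Q, hQ⟩ := hn
  -- clear the denominators
  obtain ⟨c, hc, hcg⟩ := IsLocalization.integerNormalization_spec (nonZeroDivisors ℤ) r
  obtain ⟨g, hg⟩ : ∃ g, g = IsLocalization.integerNormalization (nonZeroDivisors ℤ) r := ⟨_, rfl⟩
  rw [← hg] at hcg
  have hc0 : c ≠ 0 := nonZeroDivisors.ne_zero hc
  have hgr : g.map (algebraMap ℤ ℚ) = C (c : ℚ) * r := by
    rw [hcg]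
    ext i
    rw [coeff_smul, coeff_C_mul, Algebra.smul_def]
    rfl
  obtain ⟨b, hb, hbq⟩ := IsLocalization.integerNormalization_spec (nonZeroDivisors ℤ) Q
  obtain ⟨q, hq⟩ : ∃ q, q = IsLocalization.integerNormalization (nonZeroDivisors ℤ) Q := ⟨_, rfl⟩
  rw [← hq] at hbq
  have hb0 : b ≠ 0 := nonZeroDivisors.ne_zero hb
  have hqQ : q.map (algebraMap ℤ ℚ) = C (b : ℚ) * Q := by
    rw [hbq]
    ext i
    rw [coeff_smul, coeff_C_mul, Algebra.smul_def]
    rfl
  have hcQ : (c : ℚ) ≠ 0 := by exact_mod_cast hc0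
  refine ⟨g, C (c ^ n) * q, b, n, hb0, ?_, ?_, ?_⟩
  · rw [hgr]
    exact Separable.unit_mul (isUnit_C.2 hcQ.isUnit)
      (PerfectField.separable_iff_squarefree.2 hrs)
  · apply Polynomial.map_injective _ hinj
    rw [Polynomial.map_mul, Polynomial.map_mul, Polynomial.map_mul, Polynomial.map_pow, map_C,
      map_C, hgr, hqQ, ← hH, mul_pow, hQ]
    simp only [eq_intCast, map_pow]
    ring
  · intro θ hθ
    have h1 : aeval θ (g.map (algebraMap ℤ ℚ)) = 0 := by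
      rw [aeval_map_algebraMap]
      exact hθ
    rw [hgr, map_mul, aeval_C] at h1
    have h2 : aeval θ r = 0 := (mul_eq_zero.1 h1).resolve_left
      ((_root_.map_ne_zero (algebraMap ℚ (AlgebraicClosure ℚ))).2 hcQ)
    obtain ⟨s, hs⟩ := hrH
    have h3 : aeval θ H = 0 := by rw [hs, map_mul, h2, zero_mul]
    rw [hH, aeval_map_algebraMap] at h3
    exact h3

/-- **There are many primes modulo which a polynomial with a derangement has no root.** -/
theorem exists_primes (h : ℤ[X]) (h0 : h ≠ 0) (hd : Derangement h) (z : ℕ) (ε : ℝ) (hε : 0 < ε) :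
    ∃ T : Finset ℕ, (∀ p ∈ T, p.Prime ∧ z < p ∧ ∀ r : ℤ, ¬ (p : ℤ) ∣ h.eval r) ∧
      ∏ p ∈ T, (1 - 1 / (p : ℝ)) < ε := by
  classical
  obtain ⟨g, q, N, n, hN, hsep, hgn, hroot⟩ := exists_sep h h0
  obtain ⟨σ, hσ⟩ := hd
  let e : 𝓞 ℚ ≃+* ℤ := Rat.ringOfIntegersEquiv
  obtain ⟨G, hG⟩ : ∃ G : (𝓞 ℚ)[X], G = g.map (algebraMap ℤ (𝓞 ℚ)) := ⟨_, rfl⟩
  have hGQ : G.map (algebraMap (𝓞 ℚ) ℚ) = g.map (algebraMap ℤ ℚ) := by
    rw [hG, Polynomial.map_map]
    congr 1
  obtain ⟨c, hc⟩ : ∃ c : ℤ, c = N * (Nat.factorial z : ℤ) := ⟨_, rfl⟩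
  have hc0 : c ≠ 0 := by
    rw [hc]
    exact mul_ne_zero hN (by exact_mod_cast (Nat.factorial_pos z).ne')
  obtain ⟨T, hT, hTε⟩ := Pool.Agent.W723.SecC.partD1 ℚ G (e.symm c)
    (by rw [Ne, EmbeddingLike.map_eq_zero_iff]; exact hc0) (by rw [hGQ]; exact hsep)
    ⟨σ, fun θ hθ => hσ θ (hroot θ (by
      rw [hGQ, aeval_map_algebraMap] at hθ
      exact hθ))⟩ ε hε
  choose P hP1 hP2 hP3 using exists_prime
  have hinj : Function.Injective P := by
    intro v w hvw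
    apply HeightOneSpectrum.ext
    ext x
    rw [hP3, hP3, hvw]
  refine ⟨T.image P, ?_, ?_⟩
  · intro p hp
    obtain ⟨v, hv, rfl⟩ := mem_image.1 hp
    obtain ⟨hcv, -, -, -, hrv⟩ := hT v hv
    have hcv' : ¬ (P v : ℤ) ∣ c := by
      intro h1
      apply hcv
      rw [hP3]
      change (P v : ℤ) ∣ e (e.symm c)
      rwa [RingEquiv.apply_symm_apply]
    refine ⟨hP1 v, ?_, ?_⟩
    · by_contra hz
      apply hcv'
      rw [hc]
      exact Dvd.dvd.mul_left (by exact_mod_cast Nat.dvd_factorial (hP1 v).pos (not_lt.1 hz)) _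
    · intro r hr
      have hpr : Prime (P v : ℤ) := Nat.prime_iff_prime_int.1 (hP1 v)
      have h1 : (P v : ℤ) ∣ N * g.eval r ^ n := by
        have h2 := congrArg (eval r) hgn
        rw [eval_mul, eval_C, eval_pow, eval_mul] at h2
        rw [h2]
        exact Dvd.dvd.mul_right hr _
      have h3 : (P v : ℤ) ∣ g.eval r := by
        rcases hpr.dvd_or_dvd h1 with h4 | h4
        · exact absurd (by rw [hc]; exact Dvd.dvd.mul_right h4 _) hcv'
        · exact hpr.dvd_of_dvd_pow h4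
      apply hrv (Ideal.Quotient.mk v.asIdeal (algebraMap ℤ (𝓞 ℚ) r))
      rw [eval_map, eval₂_at_apply, hG, eval_map, eval₂_at_apply,
        Ideal.Quotient.eq_zero_iff_mem, hP3]
      have h5 : e (algebraMap ℤ (𝓞 ℚ) (g.eval r)) = g.eval r := by simp
      change (P v : ℤ) ∣ e (algebraMap ℤ (𝓞 ℚ) (g.eval r))
      rw [h5]
      exact h3
  · rw [prod_image (fun v _ w _ h => hinj h)]
    refine lt_of_le_of_lt (prod_le_prod ?_ ?_) hTε
    · intro v _
      have h1 : (1 : ℝ) ≤ P v := by exact_mod_cast (hP1 v).one_lt.le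
      have : 1 / (P v : ℝ) ≤ 1 := by
        rw [div_le_one (by linarith)]
        exact h1
      linarith
    · intro v _
      rw [hP2]
      have : (0 : ℝ) ≤ 1 / (P v : ℝ) ^ 2 := by positivity
      linarith

/-- the number of the integers not divisible by any of the primes of `T` -/
theorem count (T : Finset ℕ) (hT : ∀ p ∈ T, p.Prime) (X : ℕ) :
    (({d : ℤ | d.natAbs ≤ X ∧ d ≠ 0 ∧ ∀ p ∈ T, ¬ (p : ℤ) ∣ d}.ncard : ℕ) : ℝ) ≤
      2 * ((∏ p ∈ T, (1 - 1 / (p : ℝ))) * X + (∏ p ∈ T, (p : ℝ))) := by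
  classical
  obtain ⟨Q, hQ⟩ : ∃ Q : ℕ, Q = ∏ p ∈ T, p := ⟨_, rfl⟩
  have hQ0 : 0 < Q := by
    rw [hQ]
    exact prod_pos fun p hp => (hT p hp).pos
  have hQs : Nat.totient Q = ∏ p ∈ T, (p - 1) := by
    rw [hQ]
    clear hQ hQ0
    induction T using Finset.induction_on with
    | empty => simp
    | insert p T hp ih =>
      have h1 := hT p (mem_insert_self _ _)
      have h2 : ∀ q ∈ T, q.Prime := fun q hq => hT q (mem_insert_of_mem hq)
      rw [prod_insert hp, prod_insert hp, Nat.totient_mul, Nat.totient_prime h1, ih h2]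
      refine Nat.Coprime.prod_right fun q hq => ?_
      refine (Nat.coprime_primes h1 (h2 q hq)).2 ?_
      rintro rfl
      exact hp hq
  have hsub : {d : ℤ | d.natAbs ≤ X ∧ d ≠ 0 ∧ ∀ p ∈ T, ¬ (p : ℤ) ∣ d} ⊆
      (((Ico 1 (1 + X)).filter (fun x => Q.Coprime x)).image (fun n : ℕ => (n : ℤ)) ∪
        ((Ico 1 (1 + X)).filter (fun x => Q.Coprime x)).image (fun n : ℕ => -(n : ℤ)) :
          Finset ℤ) := by
    rintro d ⟨h1, h2, h3⟩
    have h4 : d.natAbs ∈ (Ico 1 (1 + X)).filter (fun x => Q.Coprime x) := by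
      rw [mem_filter, mem_Ico]
      refine ⟨⟨Int.natAbs_pos.2 h2, by omega⟩, ?_⟩
      rw [hQ]
      refine Nat.Coprime.prod_left fun p hp => ?_
      rw [Nat.Prime.coprime_iff_not_dvd (hT p hp)]
      intro h5
      exact h3 p hp (Int.natCast_dvd.2 h5)
    rw [mem_coe, mem_union, mem_image, mem_image]
    rcases Int.natAbs_eq d with h5 | h5
    · exact Or.inl ⟨d.natAbs, h4, h5.symm⟩
    · exact Or.inr ⟨d.natAbs, h4, h5.symm⟩
  have h1 := Set.ncard_le_ncard hsub (Finset.finite_toSet _)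
  rw [Set.ncard_coe_finset] at h1
  have h2 := h1.trans ((card_union_le _ _).trans (add_le_add card_image_le card_image_le))
  have h3 := Nat.Ico_filter_coprime_le 1 X hQ0.ne'
  have h4 : (((Ico 1 (1 + X)).filter (fun x => Q.Coprime x)).card : ℝ) ≤
      (∏ p ∈ T, (1 - 1 / (p : ℝ))) * X + ∏ p ∈ T, (p : ℝ) := by
    have h5 : (((Ico 1 (1 + X)).filter (fun x => Q.Coprime x)).card : ℝ) ≤
        (Nat.totient Q : ℝ) * (((X / Q : ℕ) : ℝ) + 1) := by exact_mod_cast h3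
    have h6 : ((X / Q : ℕ) : ℝ) ≤ (X : ℝ) / Q := Nat.cast_div_le
    have h7 : (Nat.totient Q : ℝ) = (∏ p ∈ T, (1 - 1 / (p : ℝ))) * Q := by
      rw [hQs, hQ]
      push_cast
      rw [← prod_mul_distrib]
      refine prod_congr rfl fun p hp => ?_
      have h8 : (p : ℝ) ≠ 0 := by exact_mod_cast (hT p hp).ne_zero
      rw [Nat.cast_sub (hT p hp).one_lt.le]
      field_simp
      simp
    have h8 : (Nat.totient Q : ℝ) ≤ Q := by exact_mod_cast Nat.totient_le Q
    have h9 : (0 : ℝ) < Q := by exact_mod_cast hQ0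
    calc _ ≤ (Nat.totient Q : ℝ) * (((X / Q : ℕ) : ℝ) + 1) := h5
      _ ≤ (Nat.totient Q : ℝ) * ((X : ℝ) / Q + 1) := by
          refine mul_le_mul_of_nonneg_left (by linarith) (Nat.cast_nonneg _)
      _ = (Nat.totient Q : ℝ) * (X / Q) + Nat.totient Q := by ring
      _ ≤ (∏ p ∈ T, (1 - 1 / (p : ℝ))) * X + ∏ p ∈ T, (p : ℝ) := by
          refine add_le_add (le_of_eq ?_) ?_
          · rw [h7]
            field_simp
          · refine h8.trans (le_of_eq ?_)
            rw [hQ]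
            push_cast
            rfl
  have h5 : (({d : ℤ | d.natAbs ≤ X ∧ d ≠ 0 ∧ ∀ p ∈ T, ¬ (p : ℤ) ∣ d}.ncard : ℕ) : ℝ) ≤
      2 * (((Ico 1 (1 + X)).filter (fun x => Q.Coprime x)).card : ℝ) := by
    have : {d : ℤ | d.natAbs ≤ X ∧ d ≠ 0 ∧ ∀ p ∈ T, ¬ (p : ℤ) ∣ d}.ncard ≤
      2 * ((Ico 1 (1 + X)).filter (fun x => Q.Coprime x)).card := by omega
    exact_mod_cast this
  linarith

end Pool.Agent.Q161.StA
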