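import Mathlib
import Pool.Agent.Y488.TM.Near
import Pool.Agent.Q161.StA

/-! # Coverings of the line over the rational branch points of a twisted hyperelliptic curve -/

set_option autoImplicit false

namespace Pool.Agent.Q161.StB

open Polynomial Finset

/-- the polynomial `c`, of degree at most `D`, as a binary form of degree `D` -/
noncomputable def form (D : ℕ) (c : ℤ[X]) {R : Type} [CommRing R] (x w : R) : R :=
  ∑ i ∈ range (D + 1), (c.coeff i : R) * x ^ i * w ^ (D - i)

/-- the equation of the covering `H(x, w, z) = 0`, `H` homogeneous of degree `e m` in `x`, `w`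
(degree 1) and `z` (degree `e`), monic of degree `m` in `z` -/
noncomputable def cover (e : ℕ) (H : ℤ[X][X]) {R : Type} [CommRing R] (x w z : R) : R :=
  ∑ j ∈ range (H.natDegree + 1), form (e * (H.natDegree - j)) (H.coeff j) x w * z ^ j

/-- the fibre over the point `(u, v)` of the line -/
noncomputable def fibre (e : ℕ) (H : ℤ[X][X]) {R : Type} [CommRing R] (u v : R) : R[X] :=
  ∑ j ∈ range (H.natDegree + 1), C (form (e * (H.natDegree - j)) (H.coeff j) u v) * X ^ j

theorem fibre_eval (e : ℕ) (H : ℤ[X][X]) {R : Type} [CommRing R] (u v z : R) :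
    (fibre e H u v).eval z = cover e H u v z := by
  unfold fibre cover
  rw [eval_finsetSum]
  refine sum_congr rfl fun j _ => ?_
  rw [eval_mul, eval_C, eval_pow, eval_X]

theorem form_map (D : ℕ) (c : ℤ[X]) {R S : Type} [CommRing R] [CommRing S] (φ : R →+* S) (x w : R) :
    φ (form D c x w) = form D c (φ x) (φ w) := by
  unfold form
  rw [map_sum]
  refine sum_congr rfl fun i _ => ?_
  rw [map_mul, map_mul, map_pow, map_pow, map_intCast]

theorem fibre_map (e : ℕ) (H : ℤ[X][X]) {R S : Type} [CommRing R] [CommRing S] (φ : R →+* S)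
    (u v : R) : (fibre e H u v).map φ = fibre e H (φ u) (φ v) := by
  unfold fibre
  rw [Polynomial.map_sum]
  refine sum_congr rfl fun j _ => ?_
  rw [Polynomial.map_mul, map_C, Polynomial.map_pow, map_X, form_map]

theorem form_smul (D : ℕ) (c : ℤ[X]) {R : Type} [CommRing R] (s x w : R) :
    form D c (s * x) (s * w) = s ^ D * form D c x w := by
  unfold form
  rw [mul_sum]
  refine sum_congr rfl fun i hi => ?_
  have h1 : i ≤ D := Nat.lt_succ_iff.1 (mem_range.1 hi)
  have h2 : s ^ D = s ^ i * s ^ (D - i) := by rw [← pow_add]; congr 1; omega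
  rw [mul_pow, mul_pow, h2]
  ring

theorem cover_smul (e : ℕ) (H : ℤ[X][X]) {R : Type} [CommRing R] (s x w z : R) :
    cover e H (s * x) (s * w) (s ^ e * z) = s ^ (e * H.natDegree) * cover e H x w z := by
  unfold cover
  rw [mul_sum]
  refine sum_congr rfl fun j hj => ?_
  have h1 : j ≤ H.natDegree := Nat.lt_succ_iff.1 (mem_range.1 hj)
  have h2 : s ^ (e * H.natDegree) = s ^ (e * (H.natDegree - j)) * s ^ (e * j) := by
    rw [← pow_add, ← mul_add]
    congr 2
    omega
  rw [form_smul, mul_pow, h2, ← pow_mul]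
  ring

theorem fibre_monic (e : ℕ) (H : ℤ[X][X]) (hH : H.Monic) {R : Type} [CommRing R] [Nontrivial R]
    (u v : R) : (fibre e H u v).Monic := by
  unfold fibre
  rw [sum_range_succ, Nat.sub_self, mul_zero]
  have h1 : form 0 (H.coeff H.natDegree) u v = 1 := by
    unfold form
    have : H.coeff H.natDegree = 1 := hH
    rw [this]
    simp
  rw [h1, C_1, one_mul, add_comm]
  refine monic_X_pow_add ?_
  refine (degree_sum_le _ _).trans_lt ?_
  rw [Finset.sup_lt_iff (WithBot.bot_lt_coe _)]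
  intro j hj
  exact (degree_C_mul_X_pow_le _ _).trans_lt (by exact_mod_cast mem_range.1 hj)

/-- **A local point near the zero of a linear form gives a root of the fibre modulo `p`.** -/
theorem root_mod (e : ℕ) (H : ℤ[X][X]) (hH : H.Monic) (p : ℕ) [hp : Fact p.Prime] (a b : ℤ)
    (ha : ¬ (p : ℤ) ∣ a) (x w z : ℚ_[p]) (hne : x ≠ 0 ∨ w ≠ 0) (hz : cover e H x w z = 0)
    (hnear : ‖(a : ℚ_[p]) * x + b * w‖ < max ‖x‖ ‖w‖) :
    ∃ r : ℤ, (p : ℤ) ∣ (fibre e H (-b) a).eval r := by
  -- a coordinate of maximal norm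
  obtain ⟨s, hs0, hx, hw, hmax, hone⟩ : ∃ s : ℚ_[p], s ≠ 0 ∧ ‖x / s‖ ≤ 1 ∧ ‖w / s‖ ≤ 1 ∧
      max ‖x‖ ‖w‖ = ‖s‖ ∧ (‖x / s‖ = 1 ∨ ‖w / s‖ = 1) := by
    rcases le_total ‖w‖ ‖x‖ with h | h
    · have hx0 : x ≠ 0 := by
        rintro rfl
        rw [norm_zero] at h
        have := norm_le_zero_iff.1 h
        rcases hne with h1 | h1
        · exact h1 rfl
        · exact h1 this
      have hxn : 0 < ‖x‖ := norm_pos_iff.2 hx0
      refine ⟨x, hx0, ?_, ?_, max_eq_left h, Or.inl ?_⟩
      · rw [div_self hx0, norm_one]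
      · rw [norm_div, div_le_one hxn]; exact h
      · rw [div_self hx0, norm_one]
    · have hw0 : w ≠ 0 := by
        rintro rfl
        rw [norm_zero] at h
        have := norm_le_zero_iff.1 h
        rcases hne with h1 | h1
        · exact h1 this
        · exact h1 rfl
      have hwn : 0 < ‖w‖ := norm_pos_iff.2 hw0
      refine ⟨w, hw0, ?_, ?_, max_eq_right h, Or.inr ?_⟩
      · rw [norm_div, div_le_one hwn]; exact h
      · rw [div_self hw0, norm_one]
      · rw [div_self hw0, norm_one]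
  have hsn : 0 < ‖s‖ := norm_pos_iff.2 hs0
  obtain ⟨A, hA⟩ : ∃ A : ℤ_[p], A = ⟨x / s, hx⟩ := ⟨_, rfl⟩
  obtain ⟨B, hB⟩ : ∃ B : ℤ_[p], B = ⟨w / s, hw⟩ := ⟨_, rfl⟩
  have hA' : (A : ℚ_[p]) = x / s := by rw [hA]
  have hB' : (B : ℚ_[p]) = w / s := by rw [hB]
  have hcov : cover e H (A : ℚ_[p]) (B : ℚ_[p]) (z / s ^ e) = 0 := by
    have h1 := cover_smul e H s⁻¹ x w z
    rw [hz, mul_zero] at h1
    rw [hA', hB', div_eq_inv_mul, div_eq_inv_mul, div_eq_inv_mul, ← inv_pow]
    exact h1
  -- integrality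
  have hint : IsIntegral ℤ_[p] (z / s ^ e) := by
    refine ⟨fibre e H A B, fibre_monic e H hH A B, ?_⟩
    have h1 : (fibre e H A B).map (algebraMap ℤ_[p] ℚ_[p]) = fibre e H (A : ℚ_[p]) (B : ℚ_[p]) :=
      fibre_map e H (algebraMap ℤ_[p] ℚ_[p]) A B
    rw [← eval_map, h1, fibre_eval]
    exact hcov
  obtain ⟨Z, hZ⟩ := IsIntegrallyClosed.isIntegral_iff.1 hint
  have hcovZ : cover e H A B Z = 0 := by
    rw [← fibre_eval]
    have h1 : ((fibre e H A B).map (algebraMap ℤ_[p] ℚ_[p])).eval (algebraMap ℤ_[p] ℚ_[p] Z) = 0 := by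
      rw [fibre_map, fibre_eval, hZ]
      exact hcov
    rw [eval_map, eval₂_at_apply] at h1
    exact (map_eq_zero_iff _ (IsFractionRing.injective ℤ_[p] ℚ_[p])).1 h1
  -- reduction
  have hker : ∀ y : ℤ_[p], PadicInt.toZMod y = 0 ↔ ‖y‖ < 1 := Pool.Agent.W975.TW.toZ_iff
  have hlin : (a : ZMod p) * PadicInt.toZMod A + (b : ZMod p) * PadicInt.toZMod B = 0 := by
    have h1 : ‖(a : ℤ_[p]) * A + b * B‖ < 1 := by
      have h2 : (((a : ℤ_[p]) * A + b * B : ℤ_[p]) : ℚ_[p]) = (a * x + b * w) / s := by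
        push_cast
        rw [hA', hB']
        field_simp
      rw [← PadicInt.padic_norm_e_of_padicInt, h2, norm_div, div_lt_one hsn, ← hmax]
      exact hnear
    have h3 := (hker _).2 h1
    rw [map_add, map_mul, map_mul, map_intCast, map_intCast] at h3
    exact h3
  have hAB : PadicInt.toZMod A ≠ 0 ∨ PadicInt.toZMod B ≠ 0 := by
    rcases hone with h | h
    · left
      intro h1
      have h2 := (hker _).1 h1
      rw [← PadicInt.padic_norm_e_of_padicInt, hA', h] at h2
      exact lt_irrefl _ h2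
    · right
      intro h1
      have h2 := (hker _).1 h1
      rw [← PadicInt.padic_norm_e_of_padicInt, hB', h] at h2
      exact lt_irrefl _ h2
  have haz : (a : ZMod p) ≠ 0 := by
    intro h
    exact ha ((ZMod.intCast_zmod_eq_zero_iff_dvd _ p).1 h)
  obtain ⟨μ, hμ⟩ : ∃ μ : ZMod p, μ = PadicInt.toZMod B / a := ⟨_, rfl⟩
  have hBμ : PadicInt.toZMod B = μ * a := by
    rw [hμ]
    field_simp
  have hAμ : PadicInt.toZMod A = μ * (-b) := by
    apply mul_left_cancel₀ haz
    rw [hBμ] at hlin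
    linear_combination hlin
  have hμ0 : μ ≠ 0 := by
    rintro rfl
    rw [zero_mul] at hBμ hAμ
    rcases hAB with h | h
    · exact h hAμ
    · exact h hBμ
  have hred : cover e H (PadicInt.toZMod A) (PadicInt.toZMod B) (PadicInt.toZMod Z) = 0 := by
    have h1 := congrArg PadicInt.toZMod hcovZ
    rw [← fibre_eval, ← eval₂_at_apply, ← eval_map, fibre_map, fibre_eval, map_zero] at h1
    exact h1
  have hfin : cover e H (-(b : ZMod p)) (a : ZMod p) (PadicInt.toZMod Z / μ ^ e) = 0 := by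
    have h1 := cover_smul e H μ (-(b : ZMod p)) (a : ZMod p) (PadicInt.toZMod Z / μ ^ e)
    rw [← hAμ, ← hBμ, mul_div_cancel₀ _ (pow_ne_zero _ hμ0), hred] at h1
    exact (mul_eq_zero.1 h1.symm).resolve_left (pow_ne_zero _ hμ0)
  obtain ⟨r, hr⟩ := ZMod.intCast_surjective (PadicInt.toZMod Z / μ ^ e)
  refine ⟨r, (ZMod.intCast_zmod_eq_zero_iff_dvd _ p).1 ?_⟩
  have h1 : (((fibre e H (-b) a).eval r : ℤ) : ZMod p) =
      ((fibre e H (-b) a).map (Int.castRingHom (ZMod p))).eval (r : ZMod p) := by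
    rw [eval_map]
    exact (eval₂_at_apply (Int.castRingHom (ZMod p)) r).symm
  rw [h1, fibre_map, fibre_eval, hr]
  simp only [eq_intCast, Int.cast_neg]
  exact hfin

end Pool.Agent.Q161.StB
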