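import Mathlib
import Pool.Agent.Results.MP_ab3ecb_nt.TwistsNearBranchPoint
import Pool.Agent.Q161.StA
import Pool.Agent.Q161.StB

/-! # The twists of the coverings of the line: the Brauer-Manin sets -/

set_option autoImplicit false

namespace Pool.Agent.Q161.StC

open Polynomial Finset Pool.Agent.Q161.StA Pool.Agent.Q161.StB
open Pool.Agent.W313.BMX hiding Orthogonal
open Pool.Agent.Results.MP_ab3ecb_nt.TwistsNearBranchPoint

/-- the set has density zero among the integers, ordered by absolute value -/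
def DensityZero (E : Set ℤ) : Prop :=
  ∀ ε : ℝ, 0 < ε → ∃ X₀ : ℕ, ∀ X : ℕ, X₀ ≤ X → ({d : ℤ | d ∈ E ∧ d.natAbs ≤ X}.ncard : ℝ) ≤ ε * X

section K

variable {K : Type} [Fintype K] [DecidableEq K]

/-- A point `(x : w : y : z)` over `F` of the curve `Z d`, the quadratic twist by `d` of the double
covering of the curve `Z : H(x, w, z) = 0` given by the square root of `∏ k, F k (x, w)`:
`d * y ^ 2 = ∏ k, F k (x, w)`, `H(x, w, z) = 0`, in a weighted projective space. -/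
structure CoverPoint (f : K → ℤ[X]) (d : ℤ) (e : ℕ) (H : ℤ[X][X]) (F : Type) [Field F] extends
    Point f d F where
  /-- the fourth coordinate -/
  z : F
  cov : cover e H x w z = 0

/-- An adelic point of the curve `Z d`. -/
structure AdelicCoverPoint (f : K → ℤ[X]) (d : ℤ) (e : ℕ) (H : ℤ[X][X]) where
  /-- the real component -/
  re : CoverPoint f d e H ℝ
  /-- the `p`-adic components -/
  pa : ∀ p : Nat.Primes, CoverPoint f d e H ℚ_[(p : ℕ)]

/-- The image of an adelic point of `Z d` in the curve `C d : d y ^ 2 = ∏ k, F k (x, w)`. -/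
def AdelicCoverPoint.base {f : K → ℤ[X]} {d : ℤ} {e : ℕ} {H : ℤ[X][X]}
    (P : AdelicCoverPoint f d e H) : AdelicPoint f d :=
  ⟨P.re.toPoint, fun p => (P.pa p).toPoint⟩

/-- the fibre of `Z` over the zero `P i` of the linear form `F i` -/
noncomputable def fibreAt (f : K → ℤ[X]) (e : ℕ) (H : ℤ[X][X]) (i : K) : ℤ[X] :=
  fibre e H (-(f i).coeff 0) ((f i).coeff 1)

theorem homog_linear (g : ℤ[X]) (hg : g.natDegree = 1) {R : Type} [CommRing R] (x w : R) :
    homog g x w = (g.coeff 1 : R) * x + (g.coeff 0 : R) * w := by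
  unfold homog
  rw [hg, sum_range_succ, sum_range_one]
  simp only [pow_zero, pow_one, Nat.sub_zero, Nat.sub_self, mul_one]
  ring

/-- the primes are large: they divide no leading coefficient of a linear factor -/
def Large (f : K → ℤ[X]) (z : ℕ) : Prop :=
  ∀ i, (f i).natDegree = 1 → ((f i).coeff 1).natAbs ≤ z

omit [DecidableEq K] in
theorem exists_large (f : K → ℤ[X]) (z : ℕ) : ∃ z' : ℕ, z ≤ z' ∧ Large f z' := by
  refine ⟨max z (univ.sup (fun i => ((f i).coeff 1).natAbs)), le_max_left _ _, fun i _ => ?_⟩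
  exact (le_sup (f := fun i => ((f i).coeff 1).natAbs) (mem_univ i)).trans (le_max_right _ _)

omit [DecidableEq K] in
/-- **A point of `Z d` over a small neighbourhood of `P i` gives a root of the fibre over `P i`.** -/
theorem root (f : K → ℤ[X]) (z : ℕ) (hz : Large f z) (d : ℤ) (e : ℕ) (H : ℤ[X][X]) (hH : H.Monic)
    (p : Nat.Primes) (hp : z < (p : ℕ)) (P : CoverPoint f d e H ℚ_[(p : ℕ)]) (i : K)
    (hi : (f i).natDegree = 1)
    (hnear : ‖homog (f i) P.x P.w‖ < max ‖P.x‖ ‖P.w‖) :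
    ∃ r : ℤ, ((p : ℕ) : ℤ) ∣ (fibreAt f e H i).eval r := by
  have ha : ¬ ((p : ℕ) : ℤ) ∣ (f i).coeff 1 := by
    intro h
    have h0 : (f i).coeff 1 ≠ 0 := by
      intro h1
      have h2 : (f i).leadingCoeff = 0 := by rw [leadingCoeff, hi]; exact h1
      rw [leadingCoeff_eq_zero] at h2
      rw [h2, natDegree_zero] at hi
      omega
    have h3 := Int.natAbs_pos.2 h0
    have h4 : (p : ℕ) ∣ ((f i).coeff 1).natAbs := Int.natCast_dvd.1 h
    have h5 := Nat.le_of_dvd h3 h4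
    have h6 := hz i hi
    omega
  rw [homog_linear _ hi] at hnear
  exact root_mod e H hH (p : ℕ) _ _ ha P.x P.w P.z P.ne P.cov hnear

/-- **A rational point over a rational branch point.** -/
def rational_point (f : K → ℤ[X]) (d : ℤ) (e : ℕ) (H : ℤ[X][X]) (i : K)
    (hi : (f i).natDegree = 1) (r : ℤ) (hr : (fibreAt f e H i).eval r = 0) :
    CoverPoint f d e H ℚ where
  x := ((-(f i).coeff 0 : ℤ) : ℚ)
  w := (((f i).coeff 1 : ℤ) : ℚ)
  y := 0
  z := (r : ℚ)
  ne := by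
    right
    intro h
    have h1 : (f i).coeff 1 = 0 := by exact_mod_cast h
    have h2 : (f i).leadingCoeff = 0 := by rw [leadingCoeff, hi]; exact h1
    rw [leadingCoeff_eq_zero] at h2
    rw [h2, natDegree_zero] at hi
    omega
  eq := by
    rw [prod_eq_zero (mem_univ i)]
    · ring
    · rw [homog_linear _ hi]
      push_cast
      ring
  cov := by
    have h1 := congrArg (Int.castRingHom ℚ) hr
    unfold fibreAt at h1
    rw [← eval₂_at_apply, ← eval_map, fibre_map, fibre_eval, map_zero] at h1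
    exact h1

end K

/-- **The Brauer-Manin sets of the twists `Z d` lie over one rational branch point, the fibre over
which has a root modulo all large primes dividing `d`; one exceptional set for all `Z`.** -/
theorem main (K : Type) [Fintype K] [DecidableEq K] (f : K → ℤ[X]) (hF : Factors f)
    (hG : General f) (hL : (Ln f).Nonempty) :
    ∃ z : ℕ, ∃ δ : ℝ, 0 < δ ∧ ∃ C : ℝ, ∀ X : ℕ, 3 ≤ X →
      ({d : ℤ | d.natAbs ≤ X ∧ Squarefree d ∧ ¬ ∀ (e : ℕ) (H : ℤ[X][X]), H.Monic →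
        ∀ P : AdelicCoverPoint f d e H, Orthogonal P.base →
          ∃ i, (f i).natDegree = 1 ∧ TypeOf P.base i ∧ ReducesTo z P.base i ∧
            ∀ p : Nat.Primes, z < (p : ℕ) → ((p : ℕ) : ℤ) ∣ d →
              ∃ r : ℤ, ((p : ℕ) : ℤ) ∣ (fibreAt f e H i).eval r}.ncard : ℝ) ≤
        C * X * (Real.log X) ^ (-δ) := by
  obtain ⟨z₀, δ, hδ, C, hC⟩ :=
    Pool.Agent.Results.MP_ab3ecb_nt.TwistsNearBranchPoint.result K f hF hG hL
  obtain ⟨z, hz0, hz⟩ := exists_large f z₀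
  refine ⟨z, δ, hδ, C, fun X hX => le_trans ?_ (hC X hX)⟩
  refine Nat.cast_le.2 (Set.ncard_le_ncard ?_ (Pool.Agent.TH213.SP.fin_le X _))
  rintro d ⟨h1, h2, h3⟩
  refine ⟨h1, h2, fun h4 => h3 fun e H hH P hP => ?_⟩
  obtain ⟨i, hi, hT, hR⟩ := h4 P.base hP
  have hR' : ReducesTo z P.base i := fun p hp hpd => hR p (lt_of_le_of_lt hz0 hp) hpd
  exact ⟨i, hi, hT, hR', fun p hp hpd => root f z hz d e H hH p hp (P.pa p) i hi (hR' p hp hpd)⟩

/-- **For a fixed curve `Z`, the Brauer-Manin sets of almost all twists lie over one rational branch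
point the fibre over which has roots modulo almost all primes.** -/
theorem main' (K : Type) [Fintype K] [DecidableEq K] (f : K → ℤ[X]) (hF : Factors f)
    (hG : General f) (hL : (Ln f).Nonempty) :
    ∃ z : ℕ, ∀ (e : ℕ) (H : ℤ[X][X]), H.Monic →
      DensityZero {d : ℤ | Squarefree d ∧ ¬ ∀ P : AdelicCoverPoint f d e H, Orthogonal P.base →
        ∃ i, (f i).natDegree = 1 ∧ TypeOf P.base i ∧ ReducesTo z P.base i ∧
          ¬ Derangement (fibreAt f e H i)} := by
  classical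
  obtain ⟨z, δ, hδ, C, hC⟩ := main K f hF hG hL
  refine ⟨z, fun e H hH ε hε => ?_⟩
  -- the sets of primes
  have hne : ∀ i, fibreAt f e H i ≠ 0 := fun i => (fibre_monic e H hH _ _).ne_zero
  obtain ⟨N, hN⟩ : ∃ N : ℕ, N = Fintype.card K := ⟨_, rfl⟩
  have hε' : 0 < ε / (4 * (N + 1)) := by positivity
  have hT : ∀ i : K, ∃ T : Finset ℕ, (∀ p ∈ T, p.Prime ∧ z < p) ∧ (Derangement (fibreAt f e H i) →
      (∀ p ∈ T, ∀ r : ℤ, ¬ (p : ℤ) ∣ (fibreAt f e H i).eval r) ∧
        ∏ p ∈ T, (1 - 1 / (p : ℝ)) < ε / (4 * (N + 1))) := by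
    intro i
    by_cases hi : Derangement (fibreAt f e H i)
    · obtain ⟨T, h1, h2⟩ := exists_primes _ (hne i) hi z _ hε'
      exact ⟨T, fun p hp => ⟨(h1 p hp).1, (h1 p hp).2.1⟩, fun _ => ⟨fun p hp => (h1 p hp).2.2, h2⟩⟩
    · exact ⟨∅, by simp, fun h => absurd h hi⟩
  choose T hT1 hT2 using hT
  -- the large X
  obtain ⟨Q, hQ⟩ : ∃ Q : ℝ, Q = ∑ i : K, 2 * ∏ p ∈ T i, (p : ℝ) := ⟨_, rfl⟩
  have hlim : Filter.Tendsto (fun X : ℕ => C * (Real.log X) ^ (-δ) + Q / X) Filter.atTop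
      (nhds (C * 0 + 0)) := by
    refine Filter.Tendsto.add (Filter.Tendsto.const_mul _ ?_) ?_
    · exact ((tendsto_rpow_neg_atTop hδ).comp Real.tendsto_log_atTop).comp
        tendsto_natCast_atTop_atTop
    · exact tendsto_const_nhds.div_atTop tendsto_natCast_atTop_atTop
  have hev := hlim.eventually (gt_mem_nhds (by rw [mul_zero, add_zero]; exact half_pos hε))
  obtain ⟨X₁, hX₁⟩ := Filter.eventually_atTop.1 hev
  refine ⟨max 3 X₁, fun X hX => ?_⟩
  have hX3 : 3 ≤ X := le_trans (le_max_left _ _) hX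
  have hX0 : (0 : ℝ) < X := by exact_mod_cast (by omega : 0 < X)
  have hsmall := hX₁ X (le_trans (le_max_right _ _) hX)
  -- the bad integers
  obtain ⟨A, hA⟩ : ∃ A : Set ℤ, A = {d : ℤ | d.natAbs ≤ X ∧ Squarefree d ∧
      ¬ ∀ (e : ℕ) (H : ℤ[X][X]), H.Monic →
        ∀ P : AdelicCoverPoint f d e H, Orthogonal P.base →
          ∃ i, (f i).natDegree = 1 ∧ TypeOf P.base i ∧ ReducesTo z P.base i ∧
            ∀ p : Nat.Primes, z < (p : ℕ) → ((p : ℕ) : ℤ) ∣ d →
              ∃ r : ℤ, ((p : ℕ) : ℤ) ∣ (fibreAt f e H i).eval r} := ⟨_, rfl⟩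
  have hAc : (A.ncard : ℝ) ≤ C * X * (Real.log X) ^ (-δ) := by rw [hA]; exact hC X hX3
  obtain ⟨B, hB⟩ : ∃ B : K → Set ℤ, B = fun i => {d : ℤ | (d.natAbs ≤ X ∧ d ≠ 0 ∧
      ∀ p ∈ T i, ¬ (p : ℤ) ∣ d) ∧ Derangement (fibreAt f e H i)} := ⟨_, rfl⟩
  have hBc : ∀ i, ((B i).ncard : ℝ) ≤
      2 * (ε / (4 * (N + 1)) * X + ∏ p ∈ T i, (p : ℝ)) := by
    intro i
    by_cases hi : Derangement (fibreAt f e H i)
    · have h1 : B i = {d : ℤ | d.natAbs ≤ X ∧ d ≠ 0 ∧ ∀ p ∈ T i, ¬ (p : ℤ) ∣ d} := by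
        rw [hB]
        ext d
        simp only [Set.mem_ofPred_eq, hi, and_true]
      rw [h1]
      refine (count (T i) (fun p hp => (hT1 i p hp).1) X).trans ?_
      have h2 := ((hT2 i hi).2).le
      have h3 : (∏ p ∈ T i, (1 - 1 / (p : ℝ))) * X ≤ ε / (4 * (N + 1)) * X :=
        mul_le_mul_of_nonneg_right h2 hX0.le
      linarith
    · have h1 : B i = ∅ := by
        rw [hB]
        ext d
        simp only [Set.mem_ofPred_eq, hi, and_false, Set.mem_empty_iff_false]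
      rw [h1, Set.ncard_empty]
      have h2 : (0 : ℝ) ≤ ∏ p ∈ T i, (p : ℝ) := prod_nonneg fun p _ => Nat.cast_nonneg p
      have h3 : 0 ≤ ε / (4 * (N + 1)) * X := by positivity
      push_cast
      linarith
  have hBfin : ∀ i, (B i).Finite := by
    intro i
    refine (Pool.Agent.TH213.SP.fin_le X (fun _ => True)).subset ?_
    rw [hB]
    rintro d ⟨⟨h1, -⟩, -⟩
    exact ⟨h1, trivial⟩
  have hAfin : A.Finite := by
    rw [hA]
    exact Pool.Agent.TH213.SP.fin_le X _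
  have hsub : {d : ℤ | d ∈ {d : ℤ | Squarefree d ∧ ¬ ∀ P : AdelicCoverPoint f d e H,
      Orthogonal P.base → ∃ i, (f i).natDegree = 1 ∧ TypeOf P.base i ∧ ReducesTo z P.base i ∧
        ¬ Derangement (fibreAt f e H i)} ∧ d.natAbs ≤ X} ⊆ A ∪ ⋃ i ∈ (univ : Finset K), B i := by
    rintro d ⟨⟨h1, h2⟩, h3⟩
    by_cases hd : d ∈ A
    · exact Or.inl hd
    · right
      rw [hA] at hd
      have h4 : ∀ (e : ℕ) (H : ℤ[X][X]), H.Monic →
        ∀ P : AdelicCoverPoint f d e H, Orthogonal P.base →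
          ∃ i, (f i).natDegree = 1 ∧ TypeOf P.base i ∧ ReducesTo z P.base i ∧
            ∀ p : Nat.Primes, z < (p : ℕ) → ((p : ℕ) : ℤ) ∣ d →
              ∃ r : ℤ, ((p : ℕ) : ℤ) ∣ (fibreAt f e H i).eval r := by
        by_contra h5
        exact hd ⟨h3, h1, h5⟩
      push Not at h2
      obtain ⟨P, hP, hno⟩ := h2
      obtain ⟨i, hi, hTi, hRi, hroot⟩ := h4 e H hH P hP
      have hD := hno i hi hTi hRi
      rw [Set.mem_iUnion₂]
      refine ⟨i, mem_univ i, ?_⟩
      rw [hB]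
      refine ⟨⟨h3, h1.ne_zero, fun p hp hpd => ?_⟩, hD⟩
      obtain ⟨r, hr⟩ := hroot ⟨p, (hT1 i p hp).1⟩ (hT1 i p hp).2 hpd
      exact (hT2 i hD).1 p hp r hr
  have hUfin : (⋃ i ∈ (univ : Finset K), B i).Finite :=
    Set.Finite.biUnion (Finset.finite_toSet univ) fun i _ => hBfin i
  have hU : ((⋃ i ∈ (univ : Finset K), B i).ncard : ℝ) ≤
      ∑ i : K, 2 * (ε / (4 * (N + 1)) * X + ∏ p ∈ T i, (p : ℝ)) := by
    refine le_trans ?_ (sum_le_sum fun i _ => hBc i)
    rw [← Nat.cast_sum]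
    exact Nat.cast_le.2 (Finset.set_ncard_biUnion_le univ B)
  have h1 : (({d : ℤ | d ∈ {d : ℤ | Squarefree d ∧ ¬ ∀ P : AdelicCoverPoint f d e H,
      Orthogonal P.base → ∃ i, (f i).natDegree = 1 ∧ TypeOf P.base i ∧ ReducesTo z P.base i ∧
        ¬ Derangement (fibreAt f e H i)} ∧ d.natAbs ≤ X}.ncard : ℕ) : ℝ) ≤
      A.ncard + (⋃ i ∈ (univ : Finset K), B i).ncard := by
    exact_mod_cast (Set.ncard_le_ncard hsub (hAfin.union hUfin)).trans (Set.ncard_union_le _ _)
  refine h1.trans ((add_le_add hAc hU).trans ?_)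
  have h2 : ∑ i : K, 2 * (ε / (4 * (N + 1)) * X + ∏ p ∈ T i, (p : ℝ)) =
      N * (ε / (2 * (N + 1)) * X) + Q := by
    rw [hQ]
    simp only [mul_add, sum_add_distrib, sum_const, card_univ, nsmul_eq_mul, ← hN]
    field_simp
    ring
  rw [h2]
  have h3 : (N : ℝ) * (ε / (2 * (N + 1)) * X) ≤ ε / 2 * X := by
    have h4 : (N : ℝ) * (ε / (2 * (N + 1)) * X) = (N / (N + 1)) * (ε / 2 * X) := by
      field_simp
    rw [h4]
    have h5 : (N : ℝ) / (N + 1) ≤ 1 := by
      rw [div_le_one (by positivity)]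
      linarith
    have h6 : 0 ≤ ε / 2 * X := by positivity
    nlinarith
  have h4 : C * X * (Real.log X) ^ (-δ) + Q ≤ ε / 2 * X := by
    have h5 : C * X * (Real.log X) ^ (-δ) + Q = (C * (Real.log X) ^ (-δ) + Q / X) * X := by
      field_simp
    rw [h5]
    exact mul_le_mul_of_nonneg_right hsmall.le hX0.le
  linarith

end Pool.Agent.Q161.StC
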