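import Mathlib
import Pool.Agent.Results.MP_d37f77_nt.TwoDescentMixedFactors
import Pool.Agent.Q161.StC

/-! # The twists of the coverings of the line: 2-descent -/

set_option autoImplicit false

namespace Pool.Agent.Q161.StD

open Polynomial Finset Pool.Agent.Q161.StA Pool.Agent.Q161.StB
open Pool.Agent.Q161.StC (DensityZero fibreAt Large exists_large)
open Pool.Agent.Results.MP_d37f77_nt.TwoDescentMixedFactors

/-- density zero of a set of integers which, up to `O(X (log X)^(-δ))` exceptions, have no prime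
factor `p > z` modulo which one of the polynomials, with a derangement, has no root -/
theorem density_of {K : Type} [Fintype K] (h : K → ℤ[X]) (h0 : ∀ i, h i ≠ 0) (z : ℕ)
    (S A : Set ℤ) (δ C : ℝ) (hδ : 0 < δ)
    (hA : ∀ X : ℕ, 3 ≤ X → ({d : ℤ | d.natAbs ≤ X ∧ d ∈ A}.ncard : ℝ) ≤
      C * X * (Real.log X) ^ (-δ))
    (hS : ∀ d ∈ S, d ≠ 0 ∧ (d ∉ A → ∃ i, Derangement (h i) ∧ ∀ p : ℕ, p.Prime → z < p →
      (p : ℤ) ∣ d → ∃ r : ℤ, (p : ℤ) ∣ (h i).eval r)) : DensityZero S := by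
  classical
  intro ε hε
  obtain ⟨N, hN⟩ : ∃ N : ℕ, N = Fintype.card K := ⟨_, rfl⟩
  have hε' : 0 < ε / (4 * (N + 1)) := by positivity
  have hT : ∀ i : K, ∃ T : Finset ℕ, (∀ p ∈ T, p.Prime ∧ z < p) ∧ (Derangement (h i) →
      (∀ p ∈ T, ∀ r : ℤ, ¬ (p : ℤ) ∣ (h i).eval r) ∧
        ∏ p ∈ T, (1 - 1 / (p : ℝ)) < ε / (4 * (N + 1))) := by
    intro i
    by_cases hi : Derangement (h i)
    · obtain ⟨T, h1, h2⟩ := exists_primes _ (h0 i) hi z _ hε'
      exact ⟨T, fun p hp => ⟨(h1 p hp).1, (h1 p hp).2.1⟩, fun _ => ⟨fun p hp => (h1 p hp).2.2, h2⟩⟩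
    · exact ⟨∅, by simp, fun h => absurd h hi⟩
  choose T hT1 hT2 using hT
  obtain ⟨Q, hQ⟩ : ∃ Q : ℝ, Q = ∑ i : K, 2 * ∏ p ∈ T i, (p : ℝ) := ⟨_, rfl⟩
  have hlim : Filter.Tendsto (fun X : ℕ => C * (Real.log X) ^ (-δ) + Q / X) Filter.atTop
      (nhds (C * 0 + 0)) := by
    refine Filter.Tendsto.add (Filter.Tendsto.const_mul _ ?_) ?_
    · exact ((tendsto_rpow_neg_atTop hδ).comp Real.tendsto_log_atTop).comp
        tendsto_natCast_atTop_atTop
    · exact tendsto_const_nhds.div_atTop tendsto_natCast_atTop_atTop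
  have hev := hlim.eventually (gt_mem_nhds (by rw [mul_zero, add_zero]; exact half_pos hε))
  obtain ⟨X₁, hX₁⟩ := Filter.eventually_atTop.1 hev
  refine ⟨max 3 X₁, fun X hX => ?_⟩
  have hX3 : 3 ≤ X := le_trans (le_max_left _ _) hX
  have hX0 : (0 : ℝ) < X := by exact_mod_cast (by omega : 0 < X)
  have hsmall := hX₁ X (le_trans (le_max_right _ _) hX)
  have hAc := hA X hX3
  obtain ⟨B, hB⟩ : ∃ B : K → Set ℤ, B = fun i => {d : ℤ | (d.natAbs ≤ X ∧ d ≠ 0 ∧
      ∀ p ∈ T i, ¬ (p : ℤ) ∣ d) ∧ Derangement (h i)} := ⟨_, rfl⟩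
  have hBc : ∀ i, ((B i).ncard : ℝ) ≤
      2 * (ε / (4 * (N + 1)) * X + ∏ p ∈ T i, (p : ℝ)) := by
    intro i
    by_cases hi : Derangement (h i)
    · have h1 : B i = {d : ℤ | d.natAbs ≤ X ∧ d ≠ 0 ∧ ∀ p ∈ T i, ¬ (p : ℤ) ∣ d} := by
        rw [hB]
        ext d
        simp only [Set.mem_ofPred_eq, hi, and_true]
      rw [h1]
      refine (count (T i) (fun p hp => (hT1 i p hp).1) X).trans ?_
      have h2 := ((hT2 i hi).2).le
      have h3 : (∏ p ∈ T i, (1 - 1 / (p : ℝ))) * X ≤ ε / (4 * (N + 1)) * X :=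
        mul_le_mul_of_nonneg_right h2 hX0.le
      linarith
    · have h1 : B i = ∅ := by
        rw [hB]
        ext d
        simp only [Set.mem_ofPred_eq, hi, and_false, Set.mem_empty_iff_false]
      rw [h1, Set.ncard_empty]
      have h2 : (0 : ℝ) ≤ ∏ p ∈ T i, (p : ℝ) := prod_nonneg fun p _ => Nat.cast_nonneg p
      have h3 : 0 ≤ ε / (4 * (N + 1)) * X := by positivity
      push_cast
      linarith
  have hBfin : ∀ i, (B i).Finite := by
    intro i
    refine (Pool.Agent.TH213.SP.fin_le X (fun _ => True)).subset ?_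
    rw [hB]
    rintro d ⟨⟨h1, -⟩, -⟩
    exact ⟨h1, trivial⟩
  have hAfin : {d : ℤ | d.natAbs ≤ X ∧ d ∈ A}.Finite := Pool.Agent.TH213.SP.fin_le X _
  have hsub : {d : ℤ | d ∈ S ∧ d.natAbs ≤ X} ⊆
      {d : ℤ | d.natAbs ≤ X ∧ d ∈ A} ∪ ⋃ i ∈ (univ : Finset K), B i := by
    rintro d ⟨h1, h3⟩
    by_cases hd : d ∈ A
    · exact Or.inl ⟨h3, hd⟩
    · right
      obtain ⟨hd0, h4⟩ := hS d h1
      obtain ⟨i, hD, hroot⟩ := h4 hd
      rw [Set.mem_iUnion₂]
      refine ⟨i, mem_univ i, ?_⟩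
      rw [hB]
      refine ⟨⟨h3, hd0, fun p hp hpd => ?_⟩, hD⟩
      obtain ⟨r, hr⟩ := hroot p (hT1 i p hp).1 (hT1 i p hp).2 hpd
      exact (hT2 i hD).1 p hp r hr
  have hUfin : (⋃ i ∈ (univ : Finset K), B i).Finite :=
    Set.Finite.biUnion (Finset.finite_toSet univ) fun i _ => hBfin i
  have hU : ((⋃ i ∈ (univ : Finset K), B i).ncard : ℝ) ≤
      ∑ i : K, 2 * (ε / (4 * (N + 1)) * X + ∏ p ∈ T i, (p : ℝ)) := by
    refine le_trans ?_ (sum_le_sum fun i _ => hBc i)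
    rw [← Nat.cast_sum]
    exact Nat.cast_le.2 (Finset.set_ncard_biUnion_le univ B)
  have h1 : (({d : ℤ | d ∈ S ∧ d.natAbs ≤ X}.ncard : ℕ) : ℝ) ≤
      ({d : ℤ | d.natAbs ≤ X ∧ d ∈ A}.ncard : ℝ) + (⋃ i ∈ (univ : Finset K), B i).ncard := by
    exact_mod_cast (Set.ncard_le_ncard hsub (hAfin.union hUfin)).trans (Set.ncard_union_le _ _)
  refine h1.trans ((add_le_add hAc hU).trans ?_)
  have h2 : ∑ i : K, 2 * (ε / (4 * (N + 1)) * X + ∏ p ∈ T i, (p : ℝ)) =
      N * (ε / (2 * (N + 1)) * X) + Q := by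
    rw [hQ]
    simp only [mul_add, sum_add_distrib, sum_const, card_univ, nsmul_eq_mul, ← hN]
    field_simp
    ring
  rw [h2]
  have h3 : (N : ℝ) * (ε / (2 * (N + 1)) * X) ≤ ε / 2 * X := by
    have h4 : (N : ℝ) * (ε / (2 * (N + 1)) * X) = (N / (N + 1)) * (ε / 2 * X) := by
      field_simp
    rw [h4]
    have h5 : (N : ℝ) / (N + 1) ≤ 1 := by
      rw [div_le_one (by positivity)]
      linarith
    have h6 : 0 ≤ ε / 2 * X := by positivity
    nlinarith
  have h4 : C * X * (Real.log X) ^ (-δ) + Q ≤ ε / 2 * X := by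
    have h5 : C * X * (Real.log X) ^ (-δ) + Q = (C * (Real.log X) ^ (-δ) + Q / X) * X := by
      field_simp
    rw [h5]
    exact mul_le_mul_of_nonneg_right hsmall.le hX0.le
  linarith

section K

variable {K : Type} [Fintype K] [DecidableEq K]

/-- The twist `Z d : d * y ^ 2 = ∏ k, F k (x, w)`, `H(x, w, z) = 0` has a point over the field
`L`. -/
def TwistHasPoint (f : K → ℤ[X]) (d : ℤ) (e : ℕ) (H : ℤ[X][X]) (L : Type) [Field L] : Prop :=
  ∃ x w y z : L, (x ≠ 0 ∨ w ≠ 0) ∧ d * y ^ 2 = ∏ k, hom (f k) x w ∧ cover e H x w z = 0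

/-- The curve `D δ × Z : F k (x, w) = δ k * y k ^ 2` (all `k`), `H(x, w, z) = 0` has a point over
the field `L`. -/
def PullbackHasPoint (f : K → ℤ[X]) (δ : K → ℤ) (e : ℕ) (H : ℤ[X][X]) (L : Type) [Field L] :
    Prop :=
  ∃ x w z : L, (x ≠ 0 ∨ w ≠ 0) ∧ (∀ k, ∃ y : L, hom (f k) x w = δ k * y ^ 2) ∧
    cover e H x w z = 0

/-- `D δ × Z` is a covering of `Z d` (`d * ∏ k, δ k` is a square) with points everywhere locally -/
def SolublePullback (f : K → ℤ[X]) (d : ℤ) (δ : K → ℤ) (e : ℕ) (H : ℤ[X][X]) : Prop :=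
  (∀ k, δ k ≠ 0) ∧ IsSquare (d * ∏ k, δ k) ∧ PullbackHasPoint f δ e H ℝ ∧
    ∀ (p : ℕ) [Fact p.Prime], PullbackHasPoint f δ e H ℚ_[p]

/-- the covering `D δ` is of the type of the zero `P i` of the linear form `F i`: for all products
`F T` of even degree, `i ∉ T`, the number `δ T * F T (P i)` is a square -/
def TypeAt (f : K → ℤ[X]) (δ : K → ℤ) (i : K) : Prop :=
  (f i).natDegree = 1 ∧ ∀ T : Finset K, i ∉ T → Even (∑ k ∈ T, (f k).natDegree) →
    IsSquare (∏ k ∈ T, (δ k * val f i k))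

omit [Fintype K] [DecidableEq K] in
theorem prod_sq {F : Type} [Field F] (T : Finset K) (a b c : K → F) (hb : ∀ k, b k ≠ 0)
    (h1 : ∀ k, IsSquare (a k * b k)) (h2 : IsSquare (∏ k ∈ T, (b k * c k))) :
    IsSquare (∏ k ∈ T, (a k * c k)) := by
  classical
  choose u hu using h1
  obtain ⟨v, hv⟩ := h2
  refine ⟨(∏ k ∈ T, u k) * v / ∏ k ∈ T, b k, ?_⟩
  have hB : ∏ k ∈ T, b k ≠ 0 := prod_ne_zero_iff.2 fun k _ => hb k
  have e1 : (∏ k ∈ T, u k) * ∏ k ∈ T, u k = (∏ k ∈ T, a k) * ∏ k ∈ T, b k := by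
    rw [← prod_mul_distrib, ← prod_mul_distrib]
    exact prod_congr rfl fun k _ => (hu k).symm
  rw [prod_mul_distrib] at hv ⊢
  field_simp
  linear_combination (∏ k ∈ T, b k) * (∏ k ∈ T, a k) * hv - v ^ 2 * e1

/-- **A point of `D δ × Z` near `P i` gives a root of the fibre over `P i` modulo `p`.** -/
theorem root (f : K → ℤ[X]) (hf : Pool.Agent.Y488.TM.Hyp f) : ∃ z : ℕ, ∀ d : ℤ, Squarefree d →
    ∀ (p : ℕ) [Fact p.Prime], z < p → (p : ℤ) ∣ d → ∀ (e : ℕ) (H : ℤ[X][X]), H.Monic →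
      ∀ δ : K → ℤ, (∀ k, δ k ≠ 0) → IsSquare (d * ∏ k, δ k) → ∀ i, TypeAt f δ i →
        PullbackHasPoint f δ e H ℚ_[p] → ∃ r : ℤ, (p : ℤ) ∣ (fibreAt f e H i).eval r := by
  obtain ⟨z₀, hz₀⟩ := Pool.Agent.Y488.TM.near f hf
  obtain ⟨z, hzz, hz⟩ := exists_large f z₀
  refine ⟨z, fun d hd p hp hzp hpd e H hH δ hδ hsq i hi hpt => ?_⟩
  obtain ⟨x, w, t, hne, hy, hcov⟩ := hpt
  choose y hy using hy
  obtain ⟨s, hs⟩ := hsq
  have hd0 : (d : ℚ_[p]) ≠ 0 := by exact_mod_cast hd.ne_zero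
  have hs' : (d : ℚ_[p]) * ∏ k, (δ k : ℚ_[p]) = s * s := by exact_mod_cast hs
  have hδ' : ∀ k, (δ k : ℚ_[p]) ≠ 0 := fun k => by exact_mod_cast hδ k
  have hprod : ∏ k, hom (f k) x w = (∏ k, (δ k : ℚ_[p])) * (∏ k, y k) ^ 2 := by
    rw [← prod_pow, ← prod_mul_distrib]
    exact prod_congr rfl fun k _ => hy k
  let P : Pool.Agent.W313.BMX.Point f d ℚ_[p] :=
    { x := x, w := w, y := s * (∏ k, y k) / d, ne := hne, eq := by
        have h1 : ∏ k, Pool.Agent.W313.BMX.homog (f k) x w = ∏ k, hom (f k) x w := rfl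
        rw [h1, hprod]
        field_simp
        linear_combination (-(∏ k, y k) ^ 2) * hs' }
  have hval : ∀ k, IsSquare (Pool.Agent.W313.BMX.value P k * δ k) := by
    intro k
    unfold Pool.Agent.W313.BMX.value
    split_ifs with h
    · refine ⟨δ k * y k, ?_⟩
      have h1 : Pool.Agent.W313.BMX.homog (f k) P.x P.w = δ k * y k ^ 2 := hy k
      rw [h1]
      ring
    · refine ⟨s * ∏ l ∈ univ.erase k, y l, ?_⟩
      have h1 : ∏ l ∈ univ.erase k, Pool.Agent.W313.BMX.homog (f l) P.x P.w =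
          (∏ l ∈ univ.erase k, (δ l : ℚ_[p])) * (∏ l ∈ univ.erase k, y l) ^ 2 := by
        rw [← prod_pow, ← prod_mul_distrib]
        exact prod_congr rfl fun l _ => hy l
      have h2 : (∏ l ∈ univ.erase k, (δ l : ℚ_[p])) * δ k = ∏ l, (δ l : ℚ_[p]) :=
        prod_erase_mul _ _ (mem_univ k)
      rw [h1]
      linear_combination (d * (∏ l ∈ univ.erase k, y l) ^ 2) * h2 +
        (∏ l ∈ univ.erase k, y l) ^ 2 * hs'
  have hnear := hz₀ d hd p (lt_of_le_of_lt hzz hzp) hpd P i hi.1 fun T hiT hev => by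
    refine prod_sq T _ (fun k => (δ k : ℚ_[p])) _ hδ' hval ?_
    obtain ⟨v, hv⟩ := hi.2 T hiT hev
    refine ⟨(v : ℚ_[p]), ?_⟩
    have h1 : ((∏ k ∈ T, (δ k * val f i k) : ℤ) : ℚ_[p]) = v * v := by rw [hv]; push_cast; ring
    rw [← h1]
    push_cast
    rfl
  have ha : ¬ (p : ℤ) ∣ (f i).coeff 1 := by
    intro h
    have h0 : (f i).coeff 1 ≠ 0 := by
      intro h1
      have h2 : (f i).leadingCoeff = 0 := by rw [leadingCoeff, hi.1]; exact h1
      rw [leadingCoeff_eq_zero] at h2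
      have h3 := hi.1
      rw [h2, natDegree_zero] at h3
      omega
    have h3 := Int.natAbs_pos.2 h0
    have h5 := Nat.le_of_dvd h3 (Int.natCast_dvd.1 h)
    have h6 := hz i hi.1
    omega
  rw [Pool.Agent.Q161.StC.homog_linear _ hi.1] at hnear
  exact root_mod e H hH p _ _ ha x w t hne hcov hnear

theorem val_cast' (f : K → ℤ[X]) (i k : K) :
    hom (f k) (-((f i).coeff 0 : ℚ)) ((f i).coeff 1 : ℚ) = (val f i k : ℚ) :=
  Pool.Agent.Y488.TM.val_cast f i k

/-- **A covering of the type of `P i`, the fibre of `Z` over `P i` having a root: a rational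
point.** -/
theorem pt_of_type (f : K → ℤ[X]) (hO : 2 ≤ (Od f).card)
    (hval : ∀ i ∈ Ln f, ∀ k, k ≠ i → val f i k ≠ 0) {δ : K → ℤ} (hδ : ∀ k, δ k ≠ 0) {i : K}
    (h : TypeAt f δ i) (e : ℕ) (H : ℤ[X][X]) (r : ℤ) (hr : (fibreAt f e H i).eval r = 0) :
    PullbackHasPoint f δ e H ℚ := by
  obtain ⟨hi, h⟩ := h
  have hiL : i ∈ Ln f := by
    unfold Ln
    rw [mem_filter]
    exact ⟨mem_univ _, hi⟩
  obtain ⟨l, hlO, hli⟩ : ∃ l ∈ Od f, l ≠ i := by
    by_contra hcon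
    push Not at hcon
    have : (Od f).card ≤ 1 := by
      rw [card_le_one]
      intro a ha b hb
      rw [hcon a ha, hcon b hb]
    omega
  have hlodd : Odd (f l).natDegree := by
    unfold Od at hlO
    rw [mem_filter] at hlO
    exact hlO.2
  set c : ℚ := δ l * val f i l with hc
  have hl0 : val f i l ≠ 0 := hval i hiL l hli
  have hc0 : c ≠ 0 := mul_ne_zero (by exact_mod_cast hδ l) (by exact_mod_cast hl0)
  have ha0 : ((f i).coeff 1 : ℚ) ≠ 0 := by
    have h1 : (f i).leadingCoeff ≠ 0 := by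
      rw [Ne, leadingCoeff_eq_zero]
      rintro h0
      rw [h0, natDegree_zero] at hi
      omega
    rw [leadingCoeff, hi] at h1
    exact_mod_cast h1
  refine ⟨c * (-((f i).coeff 0 : ℚ)), c * ((f i).coeff 1 : ℚ), c ^ e * r,
    Or.inr (mul_ne_zero hc0 ha0), fun k => ?_, ?_⟩
  · have hsm : hom (f k) (c * (-((f i).coeff 0 : ℚ))) (c * ((f i).coeff 1 : ℚ)) =
        c ^ (f k).natDegree * (val f i k : ℚ) := by
      rw [← val_cast']
      exact Pool.Agent.Y488.TM.hom_smul _ _ _ _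
    rw [hsm]
    by_cases hki : k = i
    · subst hki
      refine ⟨0, ?_⟩
      have h0 : val f k k = 0 := by
        unfold Pool.Agent.Results.MP_d37f77_nt.TwoDescentMixedFactors.val hom
        rw [hi, sum_range_succ, sum_range_one]
        push_cast
        ring
      rw [h0]
      push_cast
      ring
    · rcases Nat.even_or_odd (f k).natDegree with hk | hk
      · obtain ⟨r, hr⟩ := h {k} (by rw [mem_singleton]; exact Ne.symm hki)
          (by rw [sum_singleton]; exact hk)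
        rw [prod_singleton] at hr
        have hr' : (δ k : ℚ) * val f i k = r * r := by exact_mod_cast hr
        obtain ⟨m, hm⟩ := hk
        have hδk : (δ k : ℚ) ≠ 0 := by exact_mod_cast hδ k
        refine ⟨c ^ m * r / δ k, ?_⟩
        rw [hm, pow_add]
        field_simp
        linear_combination hr'
      · by_cases hkl : k = l
        · subst hkl
          obtain ⟨m, hm⟩ := hk
          refine ⟨c ^ m * val f i k, ?_⟩
          rw [hm, pow_add, pow_mul, pow_one]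
          rw [hc]
          ring
        · obtain ⟨r, hr⟩ := h {k, l} (by
              rw [mem_insert, mem_singleton]
              push Not
              exact ⟨Ne.symm hki, Ne.symm hli⟩)
            (by rw [sum_pair hkl]; exact hk.add_odd hlodd)
          rw [prod_pair hkl] at hr
          have hr' : (δ k : ℚ) * val f i k * c = r * r := by
            rw [hc]
            exact_mod_cast hr
          obtain ⟨m, hm⟩ := hk
          have hδk : (δ k : ℚ) ≠ 0 := by exact_mod_cast hδ k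
          refine ⟨c ^ m * r / δ k, ?_⟩
          have e0 : c ^ (2 * m + 1) = (c ^ m) ^ 2 * c := by ring
          rw [hm, e0]
          calc (c ^ m) ^ 2 * c * (val f i k : ℚ)
              = (c ^ m) ^ 2 * ((δ k : ℚ) * val f i k * c) / δ k := by field_simp
            _ = (c ^ m) ^ 2 * ((r : ℚ) * r) / δ k := by rw [hr']
            _ = (δ k : ℚ) * (c ^ m * r / δ k) ^ 2 := by field_simp
  · rw [cover_smul]
    have h1 := congrArg (Int.castRingHom ℚ) hr
    unfold fibreAt at h1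
    rw [← eval₂_at_apply, ← eval_map, fibre_map, fibre_eval, map_zero] at h1
    have h2 : cover e H (-((f i).coeff 0 : ℚ)) ((f i).coeff 1 : ℚ) (r : ℚ) = 0 := by
      simpa using h1
    rw [h2, mul_zero]

end K

end Pool.Agent.Q161.StD
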