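import Mathlib

/-! Marked words and stability of consecutive patterns whose clusters have distinct letters. -/

set_option autoImplicit false

namespace Q161.Stable

open Finset

variable {ℓ m n : ℕ}

/-- `p` occurs consecutively in the word `w` at position `j` (0-based). -/
def IsOcc (p : Equiv.Perm (Fin ℓ)) (w : Fin m → Fin n) (j : ℕ) : Prop :=
  ∃ _h : j + ℓ ≤ m, ∀ a b : Fin ℓ,
    w ⟨j + a, by omega⟩ < w ⟨j + b, by omega⟩ ↔ p a < p b

/-- positions `x`, `y` are linked by windows starting in `J` -/
def Conn (ℓ : ℕ) (J : Finset ℕ) (x y : ℕ) : Prop :=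
  ∀ t, min x y ≤ t → t < max x y → ∃ j ∈ J, j ≤ t ∧ t + 1 < j + ℓ

theorem Conn.refl (J : Finset ℕ) (x : ℕ) : Conn ℓ J x x := by
  intro t h1 h2; simp at h1 h2; omega

theorem Conn.symm {J : Finset ℕ} {x y : ℕ} (h : Conn ℓ J x y) : Conn ℓ J y x := by
  intro t h1 h2; exact h t (by rwa [min_comm]) (by rwa [max_comm])

theorem Conn.trans {J : Finset ℕ} {x y z : ℕ} (h : Conn ℓ J x y) (h' : Conn ℓ J y z) :
    Conn ℓ J x z := by
  intro t h1 h2
  by_cases hc : min x y ≤ t ∧ t < max x y
  · exact h t hc.1 hc.2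
  · refine h' t ?_ ?_ <;> omega

/-- two positions in one marked window are linked -/
theorem Conn.window {J : Finset ℕ} {j x y : ℕ} (hj : j ∈ J) (h1 : j ≤ x) (h2 : x < j + ℓ)
    (h3 : j ≤ y) (h4 : y < j + ℓ) : Conn ℓ J x y := by
  intro t ht1 ht2
  exact ⟨j, hj, by omega, by omega⟩

/-- the words `w` are injective on clusters -/
def ClusterInj (p : Equiv.Perm (Fin ℓ)) : Prop :=
  ∀ (m n : ℕ) (w : Fin m → Fin n) (J : Finset ℕ), (∀ j ∈ J, IsOcc p w j) →
    ∀ x y : Fin m, Conn ℓ J x y → w x = w y → x = y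

section main

variable (p : Equiv.Perm (Fin ℓ))

/-- both letters `a`, `b` occur in the cluster of `x` -/
def Both (w : Fin m → Fin n) (J : Finset ℕ) (a b : Fin n) (x : Fin m) : Prop :=
  (∃ y : Fin m, Conn ℓ J x y ∧ w y = a) ∧ (∃ y : Fin m, Conn ℓ J x y ∧ w y = b)

theorem Both.congr {w : Fin m → Fin n} {J : Finset ℕ} {a b : Fin n} {x z : Fin m}
    (h : Conn ℓ J x z) (hb : Both (ℓ := ℓ) w J a b x) : Both (ℓ := ℓ) w J a b z := by
  obtain ⟨⟨y, hy, hy'⟩, ⟨u, hu, hu'⟩⟩ := hb
  exact ⟨⟨y, h.symm.trans hy, hy'⟩, ⟨u, h.symm.trans hu, hu'⟩⟩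

open Classical in
/-- swap the letters `a`, `b` in all clusters which do not contain both -/
noncomputable def T (w : Fin m → Fin n) (J : Finset ℕ) (a b : Fin n) : Fin m → Fin n :=
  fun x => if Both (ℓ := ℓ) w J a b x then w x else Equiv.swap a b (w x)

theorem both_T_iff (w : Fin m → Fin n) (J : Finset ℕ) (a b : Fin n) (x : Fin m) :
    Both (ℓ := ℓ) (T (ℓ := ℓ) w J a b) J a b x ↔ Both (ℓ := ℓ) w J a b x := by
  classical
  by_cases hx : Both (ℓ := ℓ) w J a b x
  · simp only [hx, iff_true]
    obtain ⟨⟨y, hy, hy'⟩, ⟨u, hu, hu'⟩⟩ := id hx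
    refine ⟨⟨y, hy, ?_⟩, ⟨u, hu, ?_⟩⟩
    · rw [T, if_pos (Both.congr hy hx), hy']
    · rw [T, if_pos (Both.congr hu hx), hu']
  · simp only [hx, iff_false]
    rintro ⟨⟨y, hy, hy'⟩, ⟨u, hu, hu'⟩⟩
    apply hx
    have key : ∀ z : Fin m, Conn ℓ J x z → T (ℓ := ℓ) w J a b z = Equiv.swap a b (w z) := by
      intro z hz
      rw [T, if_neg]
      intro hb
      exact hx (Both.congr hz.symm hb)
    rw [key y hy] at hy'
    rw [key u hu] at hu'
    refine ⟨⟨u, hu, ?_⟩, ⟨y, hy, ?_⟩⟩
    · have := congrArg (Equiv.swap a b) hu'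
      simpa using this
    · have := congrArg (Equiv.swap a b) hy'
      simpa using this

theorem T_T (w : Fin m → Fin n) (J : Finset ℕ) (a b : Fin n) :
    T (ℓ := ℓ) (T (ℓ := ℓ) w J a b) J a b = w := by
  classical
  funext x
  by_cases hx : Both (ℓ := ℓ) w J a b x
  · rw [T, if_pos ((both_T_iff w J a b x).2 hx), T, if_pos hx]
  · rw [T, if_neg (fun h => hx ((both_T_iff w J a b x).1 h)), T, if_neg hx]
    simp

/-- order is preserved by swapping adjacent letters which are not both present -/
theorem swap_lt_iff {a b : Fin n} (hab : (a : ℕ) + 1 = b) {u v : Fin n}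
    (h1 : ¬ (u = a ∧ v = b)) (h2 : ¬ (u = b ∧ v = a)) :
    Equiv.swap a b u < Equiv.swap a b v ↔ u < v := by
  simp only [Equiv.swap_apply_def]
  simp only [Fin.ext_iff, Fin.lt_def] at *
  split_ifs <;> constructor <;> intro <;> omega

theorem isOcc_T {w : Fin m → Fin n} {J : Finset ℕ} {a b : Fin n} (hab : (a : ℕ) + 1 = b)
    {j : ℕ} (hj : j ∈ J) (h : IsOcc p w j) : IsOcc p (T (ℓ := ℓ) w J a b) j := by
  classical
  obtain ⟨hm, h⟩ := h
  refine ⟨hm, fun c d => ?_⟩
  rw [← h c d]
  have hcd : Conn ℓ J (j + c) (j + d) :=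
    Conn.window hj (by omega) (by omega) (by omega) (by omega)
  by_cases hx : Both (ℓ := ℓ) w J a b ⟨j + c, by omega⟩
  · rw [T, if_pos hx, T, if_pos (Both.congr hcd hx)]
  · have hy : ¬ Both (ℓ := ℓ) w J a b ⟨j + d, by omega⟩ := fun hb => hx (Both.congr hcd.symm hb)
    rw [T, if_neg hx, T, if_neg hy]
    apply swap_lt_iff hab
    · rintro ⟨e1, e2⟩
      exact hx ⟨⟨_, Conn.refl _ _, e1⟩, ⟨_, hcd, e2⟩⟩
    · rintro ⟨e1, e2⟩
      exact hx ⟨⟨_, hcd, e2⟩, ⟨_, Conn.refl _ _, e1⟩⟩

/-- the number of letters `c` in `w` -/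
def cont (w : Fin m → Fin n) (c : Fin n) : ℕ := (univ.filter (fun x => w x = c)).card

theorem cont_T_aux {w : Fin m → Fin n} {J : Finset ℕ} {a b : Fin n} (_hab : a ≠ b)
    (hinj : ∀ x y : Fin m, Conn ℓ J x y → w x = w y → x = y) :
    cont (T (ℓ := ℓ) w J a b) a = cont w b := by
  classical
  unfold cont
  apply Finset.card_bij'
    (i := fun x _ => if h : Both (ℓ := ℓ) w J a b x then h.2.choose else x)
    (j := fun x _ => if h : Both (ℓ := ℓ) w J a b x then h.1.choose else x)
  · intro x hx
    simp only [mem_filter, mem_univ, true_and] at hx ⊢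
    split_ifs with h
    · exact h.2.choose_spec.2
    · rw [T, if_neg h] at hx
      have := congrArg (Equiv.swap a b) hx
      simpa using this
  · intro x hx
    simp only [mem_filter, mem_univ, true_and] at hx ⊢
    split_ifs with h
    · rw [T, if_pos (Both.congr h.1.choose_spec.1 h)]
      exact h.1.choose_spec.2
    · rw [T, if_neg h, hx]
      simp
  · intro x hx
    simp only [mem_filter, mem_univ, true_and] at hx
    by_cases h : Both (ℓ := ℓ) w J a b x
    · simp only [h, dif_pos]
      have h2 : Both (ℓ := ℓ) w J a b h.2.choose := Both.congr h.2.choose_spec.1 h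
      simp only [h2, dif_pos]
      rw [T, if_pos h] at hx
      apply hinj
      · exact (h.2.choose_spec.1.trans h2.1.choose_spec.1).symm
      · rw [h2.1.choose_spec.2, hx]
    · simp only [h, dif_neg, not_false_iff]
  · intro x hx
    simp only [mem_filter, mem_univ, true_and] at hx
    by_cases h : Both (ℓ := ℓ) w J a b x
    · simp only [h, dif_pos]
      have h2 : Both (ℓ := ℓ) w J a b h.1.choose := Both.congr h.1.choose_spec.1 h
      simp only [h2, dif_pos]
      apply hinj
      · exact (h.1.choose_spec.1.trans h2.2.choose_spec.1).symm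
      · rw [h2.2.choose_spec.2, hx]
    · simp only [h, dif_neg, not_false_iff]

theorem both_comm (w : Fin m → Fin n) (J : Finset ℕ) (a b : Fin n) (x : Fin m) :
    Both (ℓ := ℓ) w J a b x ↔ Both (ℓ := ℓ) w J b a x := and_comm

theorem T_comm (w : Fin m → Fin n) (J : Finset ℕ) (a b : Fin n) :
    T (ℓ := ℓ) w J a b = T (ℓ := ℓ) w J b a := by
  classical
  funext x
  unfold T
  simp only [both_comm w J a b x, Equiv.swap_comm a b]

theorem cont_T {w : Fin m → Fin n} {J : Finset ℕ} {a b : Fin n} (hab : a ≠ b)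
    (hinj : ∀ x y : Fin m, Conn ℓ J x y → w x = w y → x = y) (c : Fin n) :
    cont (T (ℓ := ℓ) w J a b) c = cont w (Equiv.swap a b c) := by
  classical
  by_cases hca : c = a
  · subst hca
    rw [Equiv.swap_apply_left]
    exact cont_T_aux hab hinj
  · by_cases hcb : c = b
    · subst hcb
      rw [Equiv.swap_apply_right, T_comm]
      exact cont_T_aux (Ne.symm hab) hinj
    · rw [Equiv.swap_apply_of_ne_of_ne hca hcb]
      unfold cont
      congr 1
      ext x
      simp only [mem_filter, mem_univ, true_and]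
      unfold T
      split_ifs
      · rfl
      · constructor
        · intro h
          have := congrArg (Equiv.swap a b) h
          rw [Equiv.swap_apply_of_ne_of_ne hca hcb] at this
          simpa using this
        · intro h
          rw [h, Equiv.swap_apply_of_ne_of_ne hca hcb]

open Classical in
/-- the set of occurrences -/
noncomputable def occSet (w : Fin m → Fin n) : Finset ℕ := (range (m + 1)).filter (IsOcc p w)

theorem mem_occSet {w : Fin m → Fin n} {j : ℕ} : j ∈ occSet p w ↔ IsOcc p w j := by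
  classical
  unfold occSet
  simp only [mem_filter, mem_range, and_iff_right_iff_imp]
  rintro ⟨h, _⟩
  omega

open Classical in
/-- words with content `k` -/
noncomputable def Wd (m : ℕ) (k : Fin n → ℕ) : Finset (Fin m → Fin n) :=
  univ.filter (fun w => ∀ c, cont w c = k c)

open Classical in
/-- words with content `k` and `s` occurrences of `p` -/
noncomputable def N (m : ℕ) (k : Fin n → ℕ) (s : ℕ) : ℕ :=
  ((Wd m k).filter (fun w => (occSet p w).card = s)).card

/-- marked words -/
noncomputable def PM (m : ℕ) (k : Fin n → ℕ) (r : ℕ) : Finset (Σ _ : Fin m → Fin n, Finset ℕ) :=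
  (Wd m k).sigma (fun w => (occSet p w).powersetCard r)

theorem card_PM (m : ℕ) (k : Fin n → ℕ) (r : ℕ) :
    (PM p m k r).card = ∑ s ∈ range (m + 2), s.choose r * N p m k s := by
  classical
  unfold PM
  rw [Finset.card_sigma]
  simp only [card_powersetCard]
  rw [← Finset.sum_fiberwise_of_maps_to (g := fun w => (occSet p w).card) (t := range (m + 2))]
  · apply Finset.sum_congr rfl
    intro s _
    unfold N
    rw [Finset.sum_congr rfl (g := fun _ => s.choose r)]
    · rw [sum_const, smul_eq_mul, mul_comm]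
    · intro w hw
      rw [(mem_filter.1 hw).2]
  · intro w _
    rw [mem_range]
    have : (occSet p w).card ≤ (range (m + 1)).card := card_le_card (filter_subset _ _)
    simp at this
    omega

theorem card_PM_swap (hp : ClusterInj p) {a b : Fin n} (hab : (a : ℕ) + 1 = b)
    (k : Fin n → ℕ) (r : ℕ) :
    (PM p m k r).card ≤ (PM p m (k ∘ Equiv.swap a b) r).card := by
  classical
  have hne : a ≠ b := by intro h; rw [h] at hab; omega
  apply Finset.card_le_card_of_injOn (fun q => ⟨T (ℓ := ℓ) q.1 q.2 a b, q.2⟩)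
  · rintro ⟨w, J⟩ hq
    simp only [PM, coe_sigma, Set.mem_sigma_iff, mem_coe, mem_powersetCard, Wd, mem_filter,
      mem_univ, true_and] at hq ⊢
    obtain ⟨h1, h2, h3⟩ := hq
    have hJ : ∀ j ∈ J, IsOcc p w j := fun j hj => (mem_occSet p).1 (h2 hj)
    refine ⟨?_, ?_, h3⟩
    · intro c
      rw [cont_T hne (hp m n w J hJ), h1]
      rfl
    · intro j hj
      exact (mem_occSet p).2 (isOcc_T p hab hj (hJ j hj))
  · rintro ⟨w, J⟩ _ ⟨w', J'⟩ _ h
    simp only [Sigma.mk.injEq, heq_eq_eq] at h
    obtain ⟨h1, h2⟩ := h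
    subst h2
    have := congrArg (fun z => T (ℓ := ℓ) z J a b) h1
    simp only [T_T] at this
    rw [this]

theorem N_swap (hp : ClusterInj p) {a b : Fin n} (hab : (a : ℕ) + 1 = b)
    (k : Fin n → ℕ) (s : ℕ) : N p m k s = N p m (k ∘ Equiv.swap a b) s := by
  classical
  have hcard : ∀ r, (PM p m k r).card = (PM p m (k ∘ Equiv.swap a b) r).card := by
    intro r
    apply le_antisymm (card_PM_swap p hp hab k r)
    have := card_PM_swap p (m := m) hp hab (k ∘ Equiv.swap a b) r
    have e : (k ∘ Equiv.swap a b) ∘ Equiv.swap a b = k := by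
      funext x; simp
    rwa [e] at this
  have hbig : ∀ (k : Fin n → ℕ) (s : ℕ), m + 2 ≤ s → N p m k s = 0 := by
    intro k s hs
    unfold N
    rw [card_eq_zero, filter_eq_empty_iff]
    intro w _ hw
    have : (occSet p w).card ≤ (range (m + 1)).card := card_le_card (filter_subset _ _)
    simp at this
    omega
  -- downward induction
  have key : ∀ d s, m + 2 ≤ s + d → N p m k s = N p m (k ∘ Equiv.swap a b) s := by
    intro d
    induction d with
    | zero => intro s hs; rw [hbig _ _ (by omega), hbig _ _ (by omega)]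
    | succ d ih =>
      intro s hs
      by_cases hs2 : m + 2 ≤ s
      · rw [hbig _ _ hs2, hbig _ _ hs2]
      have h := hcard s
      rw [card_PM, card_PM] at h
      have hmem : s ∈ range (m + 2) := by rw [mem_range]; omega
      rw [← Finset.add_sum_erase _ _ hmem, ← Finset.add_sum_erase _ _ hmem] at h
      have : ∑ x ∈ (range (m + 2)).erase s, x.choose s * N p m k x =
          ∑ x ∈ (range (m + 2)).erase s, x.choose s * N p m (k ∘ Equiv.swap a b) x := by
        apply Finset.sum_congr rfl
        intro x hx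
        rcases lt_trichotomy x s with h' | h' | h'
        · rw [Nat.choose_eq_zero_of_lt h']; simp
        · simp [h'] at hx
        · rw [ih x (by omega)]
      rw [this] at h
      simp only [Nat.choose_self, one_mul] at h
      omega
  exact key (m + 2) s (by omega)

theorem N_perm (hp : ClusterInj p) (σ : Equiv.Perm (Fin n)) (k : Fin n → ℕ) (s : ℕ) :
    N p m k s = N p m (k ∘ σ) s := by
  classical
  -- the set of good permutations is a submonoid containing the adjacent transpositions
  cases n with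
  | zero =>
    have : k ∘ σ = k := by funext x; exact x.elim0
    rw [this]
  | succ n =>
    let G : Submonoid (Equiv.Perm (Fin (n + 1))) :=
      { carrier := {τ | ∀ k : Fin (n + 1) → ℕ, N p m k s = N p m (k ∘ τ) s}
        mul_mem' := by
          intro τ ρ h1 h2 k
          rw [h1 k, h2 (k ∘ τ)]
          rfl
        one_mem' := by intro k; rfl }
    have hG : Submonoid.closure
        (Set.range fun i : Fin n ↦ Equiv.swap i.castSucc i.succ) ≤ G := by
      rw [Submonoid.closure_le]
      rintro _ ⟨i, rfl⟩ k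
      exact N_swap p hp (by simp) k s
    rw [Equiv.Perm.mclosure_swap_castSucc_succ] at hG
    exact hG (Submonoid.mem_top σ) k

end main

end Q161.Stable
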