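import Pool.Agent.Q161.Stable

/-! The patterns `1 2 ⋯ (ℓ-3) (ℓ-1) (ℓ-2) ℓ` (`ℓ ≥ 5`) have clusters with distinct letters. -/

set_option autoImplicit false

namespace Q161.Stable

open Finset

/-- `1 2 ⋯ (ℓ-3) (ℓ-1) (ℓ-2) ℓ` with `ℓ = d + 5`, zero based -/
def pat (d : ℕ) : Equiv.Perm (Fin (d + 5)) :=
  Equiv.swap ⟨d + 2, by omega⟩ ⟨d + 3, by omega⟩

theorem pat_val (d : ℕ) (a : Fin (d + 5)) :
    (pat d a : ℕ) = if (a : ℕ) = d + 2 then d + 3 else if (a : ℕ) = d + 3 then d + 2 else a := by
  unfold pat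
  rw [Equiv.swap_apply_def]
  simp only [Fin.ext_iff]
  split_ifs <;> simp

variable {d m n : ℕ}

/-- reading an occurrence off at positions -/
theorem occ_lt {w : Fin m → Fin n} {j : ℕ} (h : IsOcc (pat d) w j) {x y : Fin m}
    (hx1 : j ≤ x) (hx2 : (x : ℕ) < j + (d + 5)) (hy1 : j ≤ y) (hy2 : (y : ℕ) < j + (d + 5)) :
    w x < w y ↔ pat d ⟨x - j, by omega⟩ < pat d ⟨y - j, by omega⟩ := by
  obtain ⟨hm, h⟩ := h
  rw [← h]
  have e1 : (⟨j + ((⟨x - j, by omega⟩ : Fin (d + 5)) : ℕ), by simp only; omega⟩ : Fin m) = x := by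
    ext; simp only; omega
  have e2 : (⟨j + ((⟨y - j, by omega⟩ : Fin (d + 5)) : ℕ), by simp only; omega⟩ : Fin m) = y := by
    ext; simp only; omega
  rw [e1, e2]

/-- two overlapping occurrences: the new letters are larger than the last old one -/
theorem overlap {w : Fin m → Fin n} {i j : ℕ} (hi : IsOcc (pat d) w i) (hj : IsOcc (pat d) w j)
    (hij : i < j) (hji : j < i + (d + 5)) {z x : Fin m} (hz : (z : ℕ) = i + (d + 4))
    (hx1 : i + (d + 5) ≤ x) (hx2 : (x : ℕ) < j + (d + 5)) : w z < w x := by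
  have hjm := hj.1
  by_cases ho : j + 3 ≤ i + (d + 5)
  · exfalso
    have h1 := occ_lt hi (x := ⟨i + (d + 2), by omega⟩) (y := ⟨i + (d + 3), by omega⟩)
      (by simp only; omega) (by simp only; omega) (by simp only; omega) (by simp only; omega)
    have h2 := occ_lt hj (x := ⟨i + (d + 2), by omega⟩) (y := ⟨i + (d + 3), by omega⟩)
      (by simp only; omega) (by simp only; omega) (by simp only; omega) (by simp only; omega)
    rw [h1] at h2
    simp only [Fin.lt_def, pat_val] at h2
    split_ifs at h2 <;> omega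
  · rw [occ_lt hj (by omega) (by omega) (by omega) hx2]
    simp only [Fin.lt_def, pat_val]
    split_ifs <;> omega

theorem tail_lt {w : Fin m → Fin n} {J : Finset ℕ} (hJ : ∀ j ∈ J, IsOcc (pat d) w j) :
    ∀ (e : ℕ) (j : ℕ) (z y : Fin m), (y : ℕ) ≤ j + e → j ∈ J → (z : ℕ) = j + (d + 4) → z < y →
      Conn (d + 5) J z y → w z < w y := by
  intro e
  induction e with
  | zero => intro j z y h1 _ h2 h3 _; rw [Fin.lt_def] at h3; omega
  | succ e ih =>
    intro j z y h1 hj h2 h3 h4
    rw [Fin.lt_def] at h3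
    obtain ⟨j', hj', h5, h6⟩ := h4 z (by omega) (by omega)
    have hlt : j < j' := by omega
    by_cases hy : (y : ℕ) < j' + (d + 5)
    · exact overlap (hJ j hj) (hJ j' hj') hlt (by omega) h2 (by omega) hy
    · have hm := (hJ j' hj').1
      have h7 : w z < w ⟨j' + (d + 4), by omega⟩ :=
        overlap (hJ j hj) (hJ j' hj') hlt (by omega) h2 (by simp only; omega) (by simp only; omega)
      have h8 : w ⟨j' + (d + 4), by omega⟩ < w y := by
        apply ih j' _ y (by omega) hj' rfl
        · rw [Fin.lt_def]; simp only; omega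
        · intro t ht1 ht2
          simp only at ht1 ht2
          exact h4 t (by omega) (by omega)
      exact h7.trans h8

theorem clusterInj (d : ℕ) : ClusterInj (pat d) := by
  intro m n w J hJ
  have key : ∀ x y : Fin m, x < y → Conn (d + 5) J x y → w x ≠ w y := by
    intro x y hxy hc
    rw [Fin.lt_def] at hxy
    obtain ⟨j, hj, h1, h2⟩ := hc x (by omega) (by omega)
    have hm := (hJ j hj).1
    by_cases hy : (y : ℕ) < j + (d + 5)
    · intro he
      have h3 := occ_lt (hJ j hj) (x := x) (y := y) h1 (by omega) (by omega) hy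
      have h4 := occ_lt (hJ j hj) (x := y) (y := x) (by omega) hy h1 (by omega)
      rw [he] at h3 h4
      simp only [lt_self_iff_false, false_iff, not_lt] at h3 h4
      have h5 := le_antisymm h3 h4
      rw [(pat d).injective.eq_iff, Fin.mk.injEq] at h5
      omega
    · have h3 : w x ≤ w ⟨j + (d + 4), by omega⟩ := by
        rw [← not_lt, occ_lt (hJ j hj) (by simp only; omega) (by simp only; omega) h1 (by omega)]
        simp only [Fin.lt_def, pat_val, not_lt]
        split_ifs <;> omega
      have h4 : w ⟨j + (d + 4), by omega⟩ < w y := by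
        apply tail_lt hJ y j _ y (by omega) hj rfl
        · rw [Fin.lt_def]; simp only; omega
        · intro t ht1 ht2
          simp only at ht1 ht2
          exact hc t (by omega) (by omega)
      exact (lt_of_le_of_lt h3 h4).ne
  intro x y hc he
  by_contra hne
  rcases lt_or_gt_of_ne hne with h | h
  · exact key x y h hc he
  · exact key y x h hc.symm he.symm

end Q161.Stable
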