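import Pool.Agent.Q161.Cls

/-! Direct sums, sum closed classes, indecomposables and growth rates. -/

set_option autoImplicit false

namespace Q161.Cls

open Finset

variable {n k m : ℕ}

/-- the direct sum of two permutations -/
def dsum (σ : Equiv.Perm (Fin k)) (τ : Equiv.Perm (Fin m)) : Equiv.Perm (Fin (k + m)) :=
  finSumFinEquiv.permCongr (Equiv.sumCongr σ τ)

theorem dsum_left (σ : Equiv.Perm (Fin k)) (τ : Equiv.Perm (Fin m)) (i : ℕ) (hi : i < k) :
    ((dsum σ τ ⟨i, by omega⟩ : Fin (k + m)) : ℕ) = σ ⟨i, hi⟩ := by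
  have h : (⟨i, by omega⟩ : Fin (k + m)) = finSumFinEquiv (Sum.inl ⟨i, hi⟩) := by
    ext; simp
  rw [h, dsum, Equiv.permCongr_apply, Equiv.symm_apply_apply]
  simp

theorem dsum_right (σ : Equiv.Perm (Fin k)) (τ : Equiv.Perm (Fin m)) (i : ℕ) (hi : i < m) :
    ((dsum σ τ ⟨k + i, by omega⟩ : Fin (k + m)) : ℕ) = k + τ ⟨i, hi⟩ := by
  have h : (⟨k + i, by omega⟩ : Fin (k + m)) = finSumFinEquiv (Sum.inr ⟨i, hi⟩) := by
    ext; simp
  rw [h, dsum, Equiv.permCongr_apply, Equiv.symm_apply_apply]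
  simp

/-- direct sum of elements of `P` -/
def dsumP (σ τ : P) : P := ⟨σ.1 + τ.1, dsum σ.2 τ.2⟩

/-- a set of permutations is sum closed -/
def SumClosed (C : Set P) : Prop := ∀ σ ∈ C, ∀ τ ∈ C, dsumP σ τ ∈ C

/-- indecomposable permutations -/
def Indec (π : P) : Prop := 1 ≤ π.1 ∧ ¬ ∃ σ τ : P, 1 ≤ σ.1 ∧ 1 ≤ τ.1 ∧ π = dsumP σ τ

/-- the indecomposable elements -/
def ind (C : Set P) : Set P := {π | π ∈ C ∧ Indec π}

/-- the number of elements of length `n` -/
noncomputable def cnt (X : Set P) (n : ℕ) : ℕ :=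
  Nat.card {π : Equiv.Perm (Fin n) // (⟨n, π⟩ : P) ∈ X}

/-- the first `i` positions are mapped to the first `i` values -/
def IsCut (π : Equiv.Perm (Fin n)) (i : ℕ) : Prop := ∀ j : Fin n, (j : ℕ) < i → (π j : ℕ) < i

theorem isCut_dsum (σ : Equiv.Perm (Fin k)) (τ : Equiv.Perm (Fin m)) : IsCut (dsum σ τ) k := by
  intro j hj
  have := dsum_left σ τ j hj
  rw [show (⟨(j : ℕ), by omega⟩ : Fin (k + m)) = j from rfl] at this
  rw [this]
  exact (σ _).2

theorem cut_split' (π : Equiv.Perm (Fin (k + m))) (h : IsCut π k) :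
    ∃ (σ : Equiv.Perm (Fin k)) (τ : Equiv.Perm (Fin m)), π = dsum σ τ := by
  let f : Fin k → Fin k := fun j => ⟨π ⟨j, by omega⟩, h _ j.2⟩
  have hf : Function.Injective f := by
    intro a b hab
    have h1 := congrArg Fin.val hab
    simp only [f] at h1
    have := π.injective (Fin.ext h1)
    simpa [Fin.ext_iff] using this
  have hfb := Finite.injective_iff_bijective.1 hf
  have hge : ∀ j : Fin m, k ≤ (π ⟨k + j, by omega⟩ : ℕ) := by
    intro j
    by_contra hc
    obtain ⟨a, ha⟩ := hfb.2 ⟨π ⟨k + j, by omega⟩, by omega⟩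
    have h1 := congrArg Fin.val ha
    simp only [f] at h1
    have := π.injective (Fin.ext h1)
    simp only [Fin.mk.injEq] at this
    omega
  let g : Fin m → Fin m := fun j => ⟨π ⟨k + j, by omega⟩ - k, by
    have := hge j
    have := (π ⟨k + j, by omega⟩).2
    omega⟩
  have hg : Function.Injective g := by
    intro a b hab
    have h1 := congrArg Fin.val hab
    simp only [g] at h1
    have h2 := hge a
    have h3 := hge b
    have := π.injective (Fin.ext (show (π ⟨k + a, by omega⟩ : ℕ) = π ⟨k + b, by omega⟩ by omega))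
    simp only [Fin.mk.injEq] at this
    exact Fin.ext (by omega)
  refine ⟨Equiv.ofBijective f hfb, Equiv.ofBijective g (Finite.injective_iff_bijective.1 hg), ?_⟩
  ext ⟨j, hj⟩
  rcases Nat.lt_or_ge j k with h1 | h1
  · rw [dsum_left _ _ j h1]
    rfl
  · obtain ⟨i, rfl⟩ := Nat.exists_eq_add_of_le h1
    rw [dsum_right _ _ i (by omega)]
    have := hge ⟨i, by omega⟩
    simp only [Equiv.ofBijective_apply, g] at this ⊢
    omega

theorem cut_split {i : ℕ} (hi : i ≤ n) (π : Equiv.Perm (Fin n)) (h : IsCut π i) :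
    ∃ (σ : Equiv.Perm (Fin i)) (τ : Equiv.Perm (Fin (n - i))),
      (⟨n, π⟩ : P) = dsumP ⟨i, σ⟩ ⟨n - i, τ⟩ := by
  obtain ⟨m, rfl⟩ := Nat.exists_eq_add_of_le hi
  obtain ⟨σ, τ, h1⟩ := cut_split' π h
  rw [Nat.add_sub_cancel_left]
  exact ⟨σ, τ, by rw [h1]; rfl⟩

theorem indec_iff (π : Equiv.Perm (Fin n)) :
    Indec ⟨n, π⟩ ↔ 1 ≤ n ∧ ∀ i, 1 ≤ i → i < n → ¬ IsCut π i := by
  unfold Indec
  constructor
  · rintro ⟨h1, h2⟩
    refine ⟨h1, fun i h3 h4 h5 => h2 ?_⟩
    obtain ⟨σ, τ, h6⟩ := cut_split h4.le π h5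
    exact ⟨⟨i, σ⟩, ⟨n - i, τ⟩, h3, by simp only; omega, h6⟩
  · rintro ⟨h1, h2⟩
    refine ⟨h1, ?_⟩
    rintro ⟨⟨k, σ⟩, ⟨m, τ⟩, h3, h4, h5⟩
    simp only [dsumP] at h3 h4 h5
    obtain rfl : n = k + m := congrArg Sigma.fst h5
    simp only [Sigma.mk.injEq, heq_eq_eq, true_and] at h5
    subst h5
    exact h2 k h3 (by omega) (isCut_dsum σ τ)

theorem le_dsum_left (σ : Equiv.Perm (Fin k)) (τ : Equiv.Perm (Fin m)) : Le σ (dsum σ τ) := by
  refine ⟨fun i => ⟨i, by omega⟩, fun a b h => h, ?_⟩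
  intro a b
  rw [Fin.lt_def, Fin.lt_def, dsum_left σ τ a a.2, dsum_left σ τ b b.2]

theorem le_dsum_right (σ : Equiv.Perm (Fin k)) (τ : Equiv.Perm (Fin m)) : Le τ (dsum σ τ) := by
  refine ⟨fun i => ⟨k + i, by omega⟩, fun a b h => ?_, ?_⟩
  · rw [Fin.lt_def] at h ⊢
    simp only
    omega
  intro a b
  rw [Fin.lt_def, Fin.lt_def, dsum_right σ τ a a.2, dsum_right σ τ b b.2]
  simp only [Fin.eta]
  omega

/-- an indecomposable pattern of a direct sum is contained in one of the summands -/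
theorem le_of_le_dsum {l : ℕ} {β : Equiv.Perm (Fin l)} {σ : Equiv.Perm (Fin k)}
    {τ : Equiv.Perm (Fin m)} (hβ : ∀ i, 1 ≤ i → i < l → ¬ IsCut β i) (h : Le β (dsum σ τ)) :
    Le β σ ∨ Le β τ := by
  obtain ⟨f, hf1, hf2⟩ := h
  by_cases h1 : ∀ a, (f a : ℕ) < k
  · left
    refine ⟨fun a => ⟨f a, h1 a⟩, fun a b hab => hf1 hab, ?_⟩
    intro a b
    rw [hf2, Fin.lt_def, Fin.lt_def]
    have ha := dsum_left σ τ (f a) (h1 a)
    have hb := dsum_left σ τ (f b) (h1 b)
    simp only [Fin.eta] at ha hb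
    rw [ha, hb]
  · by_cases h2 : ∀ a, k ≤ (f a : ℕ)
    · right
      refine ⟨fun a => ⟨f a - k, by have := h2 a; have := (f a).2; omega⟩, fun a b hab => ?_, ?_⟩
      · have := hf1 hab
        have e1 := h2 a
        have e2 := h2 b
        rw [Fin.lt_def] at this ⊢
        simp only
        omega
      · intro a b
        rw [hf2, Fin.lt_def, Fin.lt_def]
        have ha := dsum_right σ τ (f a - k) (by have := h2 a; have := (f a).2; omega)
        have hb := dsum_right σ τ (f b - k) (by have := h2 b; have := (f b).2; omega)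
        have ea : (⟨k + ((f a : ℕ) - k), by have := h2 a; have := (f a).2; omega⟩ : Fin (k + m)) =
            f a := Fin.ext (by have := h2 a; simp only; omega)
        have eb : (⟨k + ((f b : ℕ) - k), by have := h2 b; have := (f b).2; omega⟩ : Fin (k + m)) =
            f b := Fin.ext (by have := h2 b; simp only; omega)
        rw [ea] at ha
        rw [eb] at hb
        rw [ha, hb]
        simp only
        omega
    · exfalso
      push Not at h1 h2
      obtain ⟨a, ha⟩ := h1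
      obtain ⟨b, hb⟩ := h2
      -- least position in the second part
      have hex : ∃ i, ∃ hi : i < l, k ≤ (f ⟨i, hi⟩ : ℕ) := ⟨a, a.2, ha⟩
      classical
      obtain ⟨i, ⟨hi, hki⟩, hmin'⟩ : ∃ i, (∃ hi : i < l, k ≤ (f ⟨i, hi⟩ : ℕ)) ∧
          ∀ j < i, ¬ ∃ hi : j < l, k ≤ (f ⟨j, hi⟩ : ℕ) :=
        ⟨Nat.find hex, Nat.find_spec hex, fun j hj => Nat.find_min hex hj⟩
      have hmin : ∀ j : Fin l, (j : ℕ) < i → (f j : ℕ) < k := by
        intro j hj
        by_contra hc
        exact hmin' j hj ⟨j.2, by simpa using hc⟩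
      have h1i : 1 ≤ i := by
        by_contra hc
        have hi0 : i = 0 := by omega
        have : f ⟨0, by omega⟩ ≤ f b := hf1.monotone (by rw [Fin.le_def]; simp)
        rw [Fin.le_def] at this
        have e : (f ⟨i, hi⟩ : ℕ) = f ⟨0, by omega⟩ := by simp only [hi0]
        omega
      apply hβ i h1i hi
      -- values in the first part are smaller than values in the second part
      have key : ∀ x y : Fin l, (x : ℕ) < i → i ≤ (y : ℕ) → β x < β y := by
        intro x y hx hy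
        rw [hf2, Fin.lt_def]
        have e1 := hmin x hx
        have e2 : k ≤ (f y : ℕ) := by
          have : f ⟨i, hi⟩ ≤ f y := hf1.monotone hy
          rw [Fin.le_def] at this
          omega
        have c1 := isCut_dsum σ τ (f x) e1
        obtain ⟨t, ht⟩ := Nat.exists_eq_add_of_le e2
        have hlt : t < m := by have := (f y).2; omega
        have c2 := dsum_right σ τ t hlt
        have e3 : (⟨k + t, by omega⟩ : Fin (k + m)) = f y := Fin.ext (by simp only; omega)
        rw [e3] at c2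
        omega
      intro j hj
      by_contra hc
      -- pigeonhole: some position `≥ i` has a value `< i`
      have hsub : (univ.filter (fun x : Fin l => (β x : ℕ) < i)) ⊆
          (univ.filter (fun x : Fin l => (x : ℕ) < i)).erase j := by
        intro x hx
        simp only [mem_filter, mem_univ, true_and, mem_erase] at hx ⊢
        constructor
        · rintro rfl; exact hc hx
        · by_contra hxi
          have := key j x hj (by omega)
          rw [Fin.lt_def] at this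
          omega
      have c1 : (univ.filter (fun x : Fin l => (β x : ℕ) < i)).card = i := by
        have : (univ.filter (fun x : Fin l => (β x : ℕ) < i)) =
            (univ.filter (fun x : Fin l => (x : ℕ) < i)).map β.symm.toEmbedding := by
          ext x
          simp only [mem_filter, mem_univ, true_and, mem_map_equiv, Equiv.symm_symm]
        rw [this, Finset.card_map]
        rw [Fin.card_filter_val_lt]
        omega
      have c2 : (univ.filter (fun x : Fin l => (x : ℕ) < i)).card = i := by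
        rw [Fin.card_filter_val_lt]; omega
      have c3 := card_le_card hsub
      rw [c1, Finset.card_erase_of_mem (by simp [hj]), c2] at c3
      omega

/-- every nonempty permutation is a direct sum of an indecomposable one and a rest -/
theorem exists_first (hn : 1 ≤ n) (π : Equiv.Perm (Fin n)) :
    ∃ k ∈ Icc 1 n, ∃ (σ : Equiv.Perm (Fin k)) (τ : Equiv.Perm (Fin (n - k))),
      Indec ⟨k, σ⟩ ∧ (⟨n, π⟩ : P) = dsumP ⟨k, σ⟩ ⟨n - k, τ⟩ := by
  classical
  have hex : ∃ i, 1 ≤ i ∧ i ≤ n ∧ IsCut π i := ⟨n, hn, le_refl n, fun j _ => (π j).2⟩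
  obtain ⟨k, ⟨h1, h2, h3⟩, hmin⟩ : ∃ k, (1 ≤ k ∧ k ≤ n ∧ IsCut π k) ∧
      ∀ i < k, ¬ (1 ≤ i ∧ i ≤ n ∧ IsCut π i) :=
    ⟨Nat.find hex, Nat.find_spec hex, fun j hj => Nat.find_min hex hj⟩
  obtain ⟨m, rfl⟩ := Nat.exists_eq_add_of_le h2
  obtain ⟨σ, τ, rfl⟩ := cut_split' π h3
  refine ⟨k, mem_Icc.2 ⟨h1, h2⟩, ?_⟩
  rw [Nat.add_sub_cancel_left]
  refine ⟨σ, τ, ?_, rfl⟩
  rw [indec_iff]
  refine ⟨h1, fun i hi1 hi2 hi3 => ?_⟩
  apply hmin i hi2
  refine ⟨hi1, by omega, ?_⟩
  intro j hj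
  have h6 := dsum_left σ τ j (by omega)
  simp only [Fin.eta] at h6
  rw [h6]
  exact hi3 ⟨j, by omega⟩ hj

/-! ### counting -/

theorem cnt_eq_card (X : Set P) (n : ℕ) [DecidablePred fun π : Equiv.Perm (Fin n) => (⟨n, π⟩ : P) ∈ X] :
    cnt X n = (univ.filter (fun π : Equiv.Perm (Fin n) => (⟨n, π⟩ : P) ∈ X)).card := by
  unfold cnt
  rw [Nat.card_eq_fintype_card, Fintype.card_subtype]

theorem cnt_le {C : Set P} (hC : IsClass C) (hn : 1 ≤ n) :
    cnt C n ≤ ∑ k ∈ Icc 1 n, cnt (ind C) k * cnt C (n - k) := by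
  classical
  rw [cnt_eq_card]
  have hsub : (univ.filter (fun π : Equiv.Perm (Fin n) => (⟨n, π⟩ : P) ∈ C)) ⊆
      (Icc 1 n).biUnion (fun k => univ.filter (fun π : Equiv.Perm (Fin n) =>
        ∃ (σ : Equiv.Perm (Fin k)) (τ : Equiv.Perm (Fin (n - k))), (⟨k, σ⟩ : P) ∈ ind C ∧
          (⟨n - k, τ⟩ : P) ∈ C ∧ (⟨n, π⟩ : P) = dsumP ⟨k, σ⟩ ⟨n - k, τ⟩)) := by
    intro π hπ
    rw [mem_filter] at hπ
    obtain ⟨k, hk, σ, τ, h1, h2⟩ := exists_first hn π
    rw [mem_biUnion]
    refine ⟨k, hk, ?_⟩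
    rw [mem_filter]
    have h3 := hπ.2
    rw [h2] at h3
    exact ⟨mem_univ _, σ, τ, ⟨hC.down _ _ (le_dsum_left σ τ) h3, h1⟩,
      hC.down _ _ (le_dsum_right σ τ) h3, h2⟩
  refine (card_le_card hsub).trans (card_biUnion_le.trans (sum_le_sum (fun k hk => ?_)))
  rw [mem_Icc] at hk
  obtain ⟨m, rfl⟩ := Nat.exists_eq_add_of_le hk.2
  rw [Nat.add_sub_cancel_left]
  rw [cnt_eq_card, cnt_eq_card, ← card_product]
  refine (card_le_card ?_).trans (card_image_le (f := fun p : Equiv.Perm (Fin k) ×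
    Equiv.Perm (Fin m) => dsum p.1 p.2))
  intro π hπ
  rw [mem_filter] at hπ
  obtain ⟨_, σ, τ, h1, h2, h3⟩ := hπ
  rw [mem_image]
  refine ⟨(σ, τ), ?_, ?_⟩
  · rw [mem_product, mem_filter, mem_filter]
    exact ⟨⟨mem_univ _, h1⟩, mem_univ _, h2⟩
  · simp only [dsumP, Sigma.mk.injEq, heq_eq_eq, true_and] at h3
    exact h3.symm

theorem dsum_injective : Function.Injective
    (fun p : Equiv.Perm (Fin k) × Equiv.Perm (Fin m) => dsum p.1 p.2) := by
  rintro ⟨σ, τ⟩ ⟨σ', τ'⟩ h
  simp only at h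
  have h1 : σ = σ' := by
    ext i
    rw [← dsum_left σ τ i i.2, h, dsum_left σ' τ' i i.2]
  have h2 : τ = τ' := by
    ext i
    have e1 := dsum_right σ τ i i.2
    have e2 := dsum_right σ' τ' i i.2
    rw [h] at e1
    simp only [Fin.eta] at e1 e2
    omega
  rw [h1, h2]

theorem cnt_mul_le {C : Set P} (hC : SumClosed C) (k m : ℕ) :
    cnt C k * cnt C m ≤ cnt C (k + m) := by
  classical
  rw [cnt_eq_card, cnt_eq_card, cnt_eq_card, ← card_product]
  rw [← card_image_of_injective _ dsum_injective]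
  apply card_le_card
  intro π hπ
  rw [mem_image] at hπ
  obtain ⟨⟨σ, τ⟩, h1, rfl⟩ := hπ
  rw [mem_product, mem_filter, mem_filter] at h1
  rw [mem_filter]
  exact ⟨mem_univ _, hC ⟨k, σ⟩ h1.1.2 ⟨m, τ⟩ h1.2.2⟩

theorem cnt_zero_le (C : Set P) : cnt C 0 ≤ 1 := by
  classical
  rw [cnt_eq_card]
  refine (card_filter_le _ _).trans ?_
  simp

/-- the class grows at most like `x⁻ⁿ` when the indecomposables have weight at most one at `x` -/
theorem cnt_mul_pow_le {C : Set P} (hC : IsClass C) {x : ℝ} (hx : 0 < x)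
    (h : ∀ n, ∑ k ∈ Icc 1 n, (cnt (ind C) k : ℝ) * x ^ k ≤ 1) (n : ℕ) :
    (cnt C n : ℝ) * x ^ n ≤ 1 := by
  induction n using Nat.strong_induction_on with
  | _ n ih =>
    rcases Nat.eq_zero_or_pos n with rfl | hn
    · simpa using cnt_zero_le C
    · have h1 : (cnt C n : ℝ) ≤ ∑ k ∈ Icc 1 n, (cnt (ind C) k : ℝ) * cnt C (n - k) := by
        exact_mod_cast cnt_le hC hn
      calc (cnt C n : ℝ) * x ^ n
          ≤ (∑ k ∈ Icc 1 n, (cnt (ind C) k : ℝ) * cnt C (n - k)) * x ^ n :=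
            mul_le_mul_of_nonneg_right h1 (by positivity)
        _ = ∑ k ∈ Icc 1 n, ((cnt (ind C) k : ℝ) * x ^ k) * ((cnt C (n - k) : ℝ) * x ^ (n - k)) := by
            rw [sum_mul]
            refine sum_congr rfl (fun k hk => ?_)
            rw [mem_Icc] at hk
            have : x ^ n = x ^ k * x ^ (n - k) := by
              rw [← pow_add]; congr 1; omega
            rw [this]; ring
        _ ≤ ∑ k ∈ Icc 1 n, ((cnt (ind C) k : ℝ) * x ^ k) * 1 := by
            refine sum_le_sum (fun k hk => ?_)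
            rw [mem_Icc] at hk
            exact mul_le_mul_of_nonneg_left (ih (n - k) (by omega)) (by positivity)
        _ ≤ 1 := by simpa using h n

open Filter Topology

/-- Fekete: the growth rate of a sum closed class exists; it is at most `B` if `|C_n| ≤ B^n` -/
theorem exists_growth {C : Set P} (hC : SumClosed C) (h1 : ∀ n, 1 ≤ cnt C n) {B : ℝ} (hB : 1 ≤ B)
    (h2 : ∀ n, (cnt C n : ℝ) ≤ B ^ n) :
    ∃ g : ℝ, Tendsto (fun n : ℕ => (cnt C n : ℝ) ^ (1 / (n : ℝ))) atTop (𝓝 g) ∧ g ≤ B := by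
  let u : ℕ → ℝ := fun n => - Real.log (cnt C n)
  have hu : Subadditive u := by
    intro a b
    have e1 : (0 : ℝ) < cnt C a := by exact_mod_cast h1 a
    have e2 : (0 : ℝ) < cnt C b := by exact_mod_cast h1 b
    have e3 : (cnt C a : ℝ) * cnt C b ≤ cnt C (a + b) := by exact_mod_cast cnt_mul_le hC a b
    have e4 := Real.log_le_log (mul_pos e1 e2) e3
    rw [Real.log_mul e1.ne' e2.ne'] at e4
    simp only [u]
    linarith
  have hb : BddBelow (Set.range fun n => u n / n) := by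
    refine ⟨- Real.log B, ?_⟩
    rintro _ ⟨n, rfl⟩
    rcases Nat.eq_zero_or_pos n with rfl | hn
    · simp
      exact Real.log_nonneg hB
    · have hn' : (0 : ℝ) < n := by exact_mod_cast hn
      simp only [u]
      rw [le_div_iff₀ hn']
      have e1 : (0 : ℝ) < cnt C n := by exact_mod_cast h1 n
      have := Real.log_le_log e1 (h2 n)
      rw [Real.log_pow] at this
      linarith
  have ht := hu.tendsto_lim hb
  refine ⟨Real.exp (- hu.lim), ?_, ?_⟩
  · have h3 : Tendsto (fun n : ℕ => Real.exp (- (u n / n))) atTop (𝓝 (Real.exp (- hu.lim))) :=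
      (Real.continuous_exp.tendsto _).comp ht.neg
    refine h3.congr (fun n => ?_)
    have e1 : (0 : ℝ) < cnt C n := by exact_mod_cast h1 n
    rw [Real.rpow_def_of_pos e1]
    congr 1
    simp only [u]
    ring
  · have h3 : Tendsto (fun n : ℕ => (cnt C n : ℝ) ^ (1 / (n : ℝ))) atTop
        (𝓝 (Real.exp (- hu.lim))) := by
      have h3 : Tendsto (fun n : ℕ => Real.exp (- (u n / n))) atTop (𝓝 (Real.exp (- hu.lim))) :=
        (Real.continuous_exp.tendsto _).comp ht.neg
      refine h3.congr (fun n => ?_)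
      have e1 : (0 : ℝ) < cnt C n := by exact_mod_cast h1 n
      rw [Real.rpow_def_of_pos e1]
      congr 1
      simp only [u]
      ring
    refine le_of_tendsto h3 ?_
    filter_upwards [eventually_ge_atTop 1] with n hn
    have hn' : (0 : ℝ) < n := by exact_mod_cast hn
    calc (cnt C n : ℝ) ^ (1 / (n : ℝ)) ≤ (B ^ n) ^ (1 / (n : ℝ)) :=
          Real.rpow_le_rpow (by positivity) (h2 n) (by positivity)
      _ = B := by
          rw [← Real.rpow_natCast, ← Real.rpow_mul (by linarith)]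
          rw [mul_one_div_cancel hn'.ne', Real.rpow_one]

end Q161.Cls
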