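import Pool.Agent.Q161.TwoRow

/-!
Linear extensions of the product of a two-element chain and an `n`-element chain, as words.
-/

set_option autoImplicit false

namespace Q161.TwoRow

open Finset

section

variable {N n : ℕ} (E : Bool × Fin n ≃ Fin N)

/-- linear extension (as a permutation of the labels) -/
def LE (π : Equiv.Perm (Fin N)) : Prop := ∀ a b, E.symm (π a) ≤ E.symm (π b) → a ≤ b

open Classical in
/-- the positions of the elements of the second chain -/
noncomputable def pos (π : Equiv.Perm (Fin N)) : Finset ℕ :=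
  (range N).filter (fun a => ∃ h : a < N, (E.symm (π ⟨a, h⟩)).1 = true)

variable {E}

theorem mem_pos {π : Equiv.Perm (Fin N)} (a : Fin N) :
    (a : ℕ) ∈ pos E π ↔ (E.symm (π a)).1 = true := by
  classical
  unfold pos
  rw [mem_filter, mem_range]
  constructor
  · rintro ⟨_, h, h1⟩; exact h1
  · intro h; exact ⟨a.2, a.2, h⟩

theorem pos_sub (π : Equiv.Perm (Fin N)) : pos E π ⊆ range N := by
  classical
  exact filter_subset _ _

/-- number of letters of the class `c` before `i` -/
def cnt (E : Bool × Fin n ≃ Fin N) (π : Equiv.Perm (Fin N)) (c : Bool) (i : ℕ) : ℕ :=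
  (univ.filter (fun b : Fin N => (b : ℕ) < i ∧ (E.symm (π b)).1 = c)).card

theorem one_pos (π : Equiv.Perm (Fin N)) (i : ℕ) : one (pos E π) i = cnt E π true i := by
  classical
  unfold one cnt
  rw [← card_map Fin.valEmbedding]
  congr 1
  ext x
  rw [mem_filter, mem_map]
  constructor
  · rintro ⟨h1, h2⟩
    have hx : x < N := mem_range.1 (pos_sub π h1)
    refine ⟨⟨x, hx⟩, ?_, rfl⟩
    rw [mem_filter]
    exact ⟨mem_univ _, h2, (mem_pos (⟨x, hx⟩ : Fin N)).1 h1⟩
  · rintro ⟨y, hy, rfl⟩
    rw [mem_filter] at hy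
    exact ⟨(mem_pos y).2 hy.2.2, hy.2.1⟩

theorem cnt_add (π : Equiv.Perm (Fin N)) {i : ℕ} (hi : i ≤ N) :
    cnt E π true i + cnt E π false i = i := by
  classical
  unfold cnt
  rw [← card_union_of_disjoint]
  · have : (univ.filter (fun b : Fin N => (b : ℕ) < i ∧ (E.symm (π b)).1 = true) ∪
        univ.filter (fun b : Fin N => (b : ℕ) < i ∧ (E.symm (π b)).1 = false)) =
        univ.filter (fun b : Fin N => (b : ℕ) < i) := by
      ext b
      rw [mem_union, mem_filter, mem_filter, mem_filter]
      constructor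
      · rintro (h | h) <;> exact ⟨mem_univ _, h.2.1⟩
      · rintro ⟨_, h⟩
        rcases Bool.eq_false_or_eq_true (E.symm (π b)).1 with h1 | h1
        · exact Or.inl ⟨mem_univ _, h, h1⟩
        · exact Or.inr ⟨mem_univ _, h, h1⟩
    rw [this]
    have h2 : (univ.filter (fun b : Fin N => (b : ℕ) < i)).map Fin.valEmbedding = range i := by
      ext x
      rw [mem_map, mem_range]
      constructor
      · rintro ⟨y, hy, rfl⟩
        rw [mem_filter] at hy; exact hy.2
      · intro h
        exact ⟨⟨x, by omega⟩, by rw [mem_filter]; exact ⟨mem_univ _, h⟩, rfl⟩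
    rw [← card_map Fin.valEmbedding, h2, card_range]
  · rw [disjoint_left]
    intro b h1 h2
    rw [mem_filter] at h1 h2
    rw [h1.2.2] at h2
    exact absurd h2.2.2 (by decide)

theorem cnt_eq {π : Equiv.Perm (Fin N)} (h : LE E π) (a : Fin N) :
    cnt E π (E.symm (π a)).1 a = ((E.symm (π a)).2 : ℕ) := by
  classical
  set p := E.symm (π a) with hp
  have h1 : (univ.filter (fun k : Fin n => (k : ℕ) < (p.2 : ℕ))).card = (p.2 : ℕ) := by
    have h2 : (univ.filter (fun k : Fin n => (k : ℕ) < (p.2 : ℕ))).map Fin.valEmbedding =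
        range (p.2 : ℕ) := by
      ext x
      rw [mem_map, mem_range]
      constructor
      · rintro ⟨y, hy, rfl⟩
        rw [mem_filter] at hy; exact hy.2
      · intro h
        exact ⟨⟨x, by omega⟩, by rw [mem_filter]; exact ⟨mem_univ _, h⟩, rfl⟩
    rw [← card_map Fin.valEmbedding, h2, card_range]
  rw [← h1]
  unfold cnt
  apply card_bij (fun b _ => (E.symm (π b)).2)
  · intro b hb
    rw [mem_filter] at hb ⊢
    refine ⟨mem_univ _, ?_⟩
    by_contra hc
    rw [not_lt] at hc
    have h3 : E.symm (π a) ≤ E.symm (π b) := by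
      rw [← hp]
      exact ⟨le_of_eq hb.2.2.symm, hc⟩
    have h4 := h a b h3
    have h5 := hb.2.1
    rw [Fin.le_def] at h4
    omega
  · intro b hb b' hb' he
    rw [mem_filter] at hb hb'
    have : E.symm (π b) = E.symm (π b') := Prod.ext (by rw [hb.2.2, hb'.2.2]) he
    exact π.injective (E.symm.injective this)
  · intro k hk
    rw [mem_filter] at hk
    refine ⟨π.symm (E (p.1, k)), ?_, ?_⟩
    · rw [mem_filter]
      refine ⟨mem_univ _, ?_, ?_⟩
      · have h3 : E.symm (π (π.symm (E (p.1, k)))) ≤ E.symm (π a) := by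
          rw [Equiv.apply_symm_apply, Equiv.symm_apply_apply, ← hp]
          exact Prod.mk_le_mk.2 ⟨le_refl _, le_of_lt hk.2⟩
        have h4 := h _ _ h3
        rcases lt_or_eq_of_le h4 with h5 | h5
        · exact h5
        · exfalso
          have h6 : E.symm (π (π.symm (E (p.1, k)))) = E.symm (π a) := by rw [h5]
          rw [Equiv.apply_symm_apply, Equiv.symm_apply_apply, ← hp] at h6
          have h7 : k = p.2 := congrArg Prod.snd h6
          have h8 := hk.2
          rw [h7] at h8
          exact lt_irrefl _ h8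
      · rw [Equiv.apply_symm_apply, Equiv.symm_apply_apply]
    · simp only [Equiv.apply_symm_apply, Equiv.symm_apply_apply]

theorem cnt_le {π : Equiv.Perm (Fin N)} (h : LE E π) (i : ℕ) :
    cnt E π true i ≤ cnt E π false i := by
  classical
  unfold cnt
  apply card_le_card_of_injOn (fun b => π.symm (E (false, (E.symm (π b)).2)))
  · intro b hb
    rw [mem_coe, mem_filter] at hb ⊢
    refine ⟨mem_univ _, ?_, ?_⟩
    · have h3 : E.symm (π (π.symm (E (false, (E.symm (π b)).2)))) ≤ E.symm (π b) := by
        rw [Equiv.apply_symm_apply, Equiv.symm_apply_apply]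
        refine Prod.mk_le_mk.2 ⟨?_, le_refl _⟩
        exact Bool.false_le _
      have h4 := h _ _ h3
      rw [Fin.le_def] at h4
      have := hb.2.1
      simp only at h4 ⊢
      omega
    · rw [Equiv.apply_symm_apply, Equiv.symm_apply_apply]
  · intro b hb b' hb' he
    rw [mem_coe, mem_filter] at hb hb'
    simp only at he
    have h1 := congrArg Prod.snd (E.injective (π.symm.injective he))
    simp only at h1
    have : E.symm (π b) = E.symm (π b') := Prod.ext (by rw [hb.2.2, hb'.2.2]) h1
    exact π.injective (E.symm.injective this)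

theorem bal_pos {π : Equiv.Perm (Fin N)} (h : LE E π) : Bal N (pos E π) := by
  intro i hi
  rw [one_pos]
  have h1 := cnt_le h i
  have h2 := cnt_add (E := E) π hi
  omega

theorem card_pos' (π : Equiv.Perm (Fin N)) : (pos E π).card = n := by
  classical
  rw [← one_eq_card (pos_sub π), one_pos]
  unfold cnt
  have : (univ : Finset (Fin n)).card = n := by simp
  refine Eq.trans ?_ this
  apply card_bij (fun b _ => (E.symm (π b)).2)
  · intro b _; exact mem_univ _
  · intro b hb b' hb' he
    rw [mem_filter] at hb hb'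
    have : E.symm (π b) = E.symm (π b') := Prod.ext (by rw [hb.2.2, hb'.2.2]) he
    exact π.injective (E.symm.injective this)
  · intro k _
    refine ⟨π.symm (E (true, k)), ?_, ?_⟩
    · rw [mem_filter]
      refine ⟨mem_univ _, Fin.is_lt _, ?_⟩
      rw [Equiv.apply_symm_apply, Equiv.symm_apply_apply]
    · simp only [Equiv.apply_symm_apply, Equiv.symm_apply_apply]

theorem pos_mem_wd {π : Equiv.Perm (Fin N)} (h : LE E π) : pos E π ∈ wd N n :=
  mem_wd.2 ⟨pos_sub π, bal_pos h, card_pos' π⟩

/-- the letters are determined by the positions -/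
theorem val_true {π : Equiv.Perm (Fin N)} (h : LE E π) (a : Fin N) (ha : (a : ℕ) ∈ pos E π) :
    (E.symm (π a)).1 = true ∧ ((E.symm (π a)).2 : ℕ) = one (pos E π) a := by
  have h1 := (mem_pos a).1 ha
  refine ⟨h1, ?_⟩
  rw [one_pos, ← cnt_eq h a, h1]

theorem val_false {π : Equiv.Perm (Fin N)} (h : LE E π) (a : Fin N) (ha : (a : ℕ) ∉ pos E π) :
    (E.symm (π a)).1 = false ∧ ((E.symm (π a)).2 : ℕ) + one (pos E π) a = a := by
  have h1 : (E.symm (π a)).1 = false := by
    rw [mem_pos] at ha
    exact Bool.eq_false_iff.2 ha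
  refine ⟨h1, ?_⟩
  have h2 := cnt_add (E := E) π (le_of_lt a.2)
  rw [one_pos, ← cnt_eq h a, h1]
  omega

theorem pos_inj {π σ : Equiv.Perm (Fin N)} (h : LE E π) (h' : LE E σ) (he : pos E π = pos E σ) :
    π = σ := by
  ext a
  congr 1
  apply E.symm.injective
  by_cases ha : (a : ℕ) ∈ pos E π
  · have h1 := val_true h a ha
    have h2 := val_true h' a (by rwa [← he])
    rw [← he] at h2
    exact Prod.ext (by rw [h1.1, h2.1]) (Fin.ext (by rw [h1.2, h2.2]))
  · have h1 := val_false h a ha
    have h2 := val_false h' a (by rwa [← he])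
    rw [← he] at h2
    exact Prod.ext (by rw [h1.1, h2.1]) (Fin.ext (by omega))

theorem one_lt_of_mem {S : Finset ℕ} {a b : ℕ} (ha : a ∈ S) (hab : a < b) : one S a < one S b := by
  have h1 := one_succ S a
  rw [if_pos ha] at h1
  have h2 := one_mono S (show a + 1 ≤ b by omega)
  omega

theorem one_le_self (S : Finset ℕ) (a : ℕ) : one S a ≤ a := by
  induction a with
  | zero => rw [one_zero]
  | succ a ih => rw [one_succ]; split_ifs <;> omega

/-- zeros are monotone -/
theorem zer_mono {S : Finset ℕ} {a b : ℕ} (hab : a ≤ b) : a - one S a ≤ b - one S b := by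
  induction b with
  | zero => obtain rfl : a = 0 := by omega
            exact le_refl _
  | succ b ih =>
    rcases Nat.lt_or_ge b a with h | h
    · obtain rfl : a = b + 1 := by omega
      exact le_refl _
    · have := ih h
      have h2 := one_succ S b
      have h3 := one_le_self S b
      split_ifs at h2 <;> omega

theorem zer_lt_of_notMem {S : Finset ℕ} {a b : ℕ} (ha : a ∉ S) (hab : a < b) :
    a - one S a < b - one S b := by
  have h1 := one_succ S a
  rw [if_neg ha] at h1
  have h2 := zer_mono (S := S) (show a + 1 ≤ b by omega)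
  have h3 := one_le_self S a
  omega

theorem exists_perm (hN : N = 2 * n) {S : Finset ℕ} (hS : S ∈ wd N n) :
    ∃ π : Equiv.Perm (Fin N), LE E π ∧ pos E π = S := by
  classical
  rw [mem_wd] at hS
  obtain ⟨hS1, hS2, hS3⟩ := hS
  have hn : one S N = n := by rw [one_eq_card hS1, hS3]
  have ht : ∀ a : Fin N, (a : ℕ) ∈ S → one S a < n := fun a ha => by
    rw [← hn]; exact one_lt_of_mem ha a.2
  have hf : ∀ a : Fin N, (a : ℕ) ∉ S → (a : ℕ) - one S a < n := fun a ha => by
    have := zer_lt_of_notMem ha a.2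
    rw [hn] at this
    omega
  let f : Fin N → Bool × Fin n := fun a =>
    if h : (a : ℕ) ∈ S then (true, ⟨one S a, ht a h⟩) else (false, ⟨(a : ℕ) - one S a, hf a h⟩)
  have ft : ∀ a : Fin N, ∀ h : (a : ℕ) ∈ S, f a = (true, ⟨one S a, ht a h⟩) := fun a h => dif_pos h
  have ff : ∀ a : Fin N, ∀ h : (a : ℕ) ∉ S, f a = (false, ⟨(a : ℕ) - one S a, hf a h⟩) :=
    fun a h => dif_neg h
  have hle : ∀ a b : Fin N, f a ≤ f b → a ≤ b := by
    intro a b hab
    by_contra hc
    rw [not_le, Fin.lt_def] at hc
    by_cases h1 : (a : ℕ) ∈ S <;> by_cases h2 : (b : ℕ) ∈ S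
    · rw [ft a h1, ft b h2] at hab
      have h3 := (Prod.mk_le_mk.1 hab).2
      rw [Fin.mk_le_mk] at h3
      have h4 := one_lt_of_mem h2 hc
      omega
    · rw [ft a h1, ff b h2] at hab
      have h3 := (Prod.mk_le_mk.1 hab).1
      exact absurd h3 (by decide)
    · rw [ff a h1, ft b h2] at hab
      have h3 := (Prod.mk_le_mk.1 hab).2
      rw [Fin.mk_le_mk] at h3
      have h4 := zer_mono (S := S) (show (b : ℕ) + 1 ≤ a by omega)
      have h5 := hS2 ((b : ℕ) + 1) (by have := b.2; omega)
      rw [one_succ, if_pos h2] at h4 h5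
      omega
    · rw [ff a h1, ff b h2] at hab
      have h3 := (Prod.mk_le_mk.1 hab).2
      rw [Fin.mk_le_mk] at h3
      have h4 := zer_lt_of_notMem h2 hc
      omega
  have hinj : Function.Injective f := by
    intro a b hab
    exact le_antisymm (hle a b (le_of_eq hab)) (hle b a (le_of_eq hab.symm))
  have hbij : Function.Bijective f := by
    rw [Fintype.bijective_iff_injective_and_card]
    refine ⟨hinj, ?_⟩
    simp [hN]
  let σ : Fin N ≃ Bool × Fin n := Equiv.ofBijective f hbij
  refine ⟨σ.trans E, ?_, ?_⟩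
  · intro a b hab
    simp only [Equiv.trans_apply, Equiv.symm_apply_apply] at hab
    exact hle a b hab
  · ext x
    constructor
    · intro hx
      have hxN : x < N := mem_range.1 (pos_sub _ hx)
      have h1 := (mem_pos (⟨x, hxN⟩ : Fin N)).1 hx
      simp only [Equiv.trans_apply, Equiv.symm_apply_apply] at h1
      by_contra h2
      have h3 : f ⟨x, hxN⟩ = _ := ff ⟨x, hxN⟩ h2
      have h4 : (f ⟨x, hxN⟩).1 = true := h1
      rw [h3] at h4
      exact Bool.false_ne_true h4
    · intro hx
      have hxN : x < N := mem_range.1 (hS1 hx)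
      apply (mem_pos (⟨x, hxN⟩ : Fin N)).2
      simp only [Equiv.trans_apply, Equiv.symm_apply_apply]
      have h3 : f ⟨x, hxN⟩ = _ := ft ⟨x, hxN⟩ hx
      show (f ⟨x, hxN⟩).1 = true
      rw [h3]

open Classical in
/-- sums over linear extensions are sums over words -/
theorem sum_LE {M : Type*} [AddCommMonoid M] (hN : N = 2 * n) (F : Equiv.Perm (Fin N) → M)
    (G : Finset ℕ → M) (h : ∀ π, LE E π → F π = G (pos E π)) :
    ∑ π ∈ univ.filter (fun π => LE E π), F π = ∑ S ∈ wd N n, G S := by
  apply sum_bij (fun π _ => pos E π)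
  · intro π hπ
    rw [mem_filter] at hπ
    exact pos_mem_wd hπ.2
  · intro π hπ σ hσ he
    rw [mem_filter] at hπ hσ
    exact pos_inj hπ.2 hσ.2 he
  · intro S hS
    obtain ⟨π, h1, h2⟩ := exists_perm (E := E) hN hS
    exact ⟨π, by rw [mem_filter]; exact ⟨mem_univ _, h1⟩, h2⟩
  · intro π hπ
    rw [mem_filter] at hπ
    exact h π hπ.2

end

end Q161.TwoRow
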