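import Pool.Agent.Q161.TwoChain

/-!
Major index generating functions of linear extensions of two chains, in terms of Catalan words.
-/

set_option autoImplicit false

namespace Q161.TwoRow

open Finset Polynomial

/-- the major index of the sequence `w 0, w 1, …, w (N-1)`: the sum of the descents, the descent
between the letters number `i` and `i + 1` (counted from `1`) contributing `i` -/
def maj {N : ℕ} (w : Fin N → ℕ) : ℕ :=
  ∑ i : Fin N, if h : (i : ℕ) + 1 < N then (if w ⟨(i : ℕ) + 1, h⟩ < w i then (i : ℕ) + 1 else 0)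
    else 0

/-- the number of letters `c` among the first `i` letters of `w` -/
def letters {N : ℕ} (w : Fin N → Fin 2) (c : Fin 2) (i : ℕ) : ℕ :=
  (univ.filter (fun a : Fin N => (a : ℕ) < i ∧ w a = c)).card

/-- Catalan words of length `2n` -/
def IsCatalan (n : ℕ) (w : Fin (2 * n) → Fin 2) : Prop :=
  letters w 0 (2 * n) = n ∧ letters w 1 (2 * n) = n ∧ ∀ i ≤ 2 * n, letters w 1 i ≤ letters w 0 i

open Classical in
/-- the polynomial `c_n(q)` -/
noncomputable def cPoly (n : ℕ) : ℤ[X] :=
  ∑ w ∈ univ.filter (fun w : Fin (2 * n) → Fin 2 => IsCatalan n w),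
    X ^ maj (fun i => ((w i : Fin 2) : ℕ))

/-- the permutation (in one-line notation) avoids the pattern `123` -/
def Avoids123 {N : ℕ} (π : Equiv.Perm (Fin N)) : Prop :=
  ¬ ∃ a b c, a < b ∧ b < c ∧ π a < π b ∧ π b < π c

theorem maj_eq {N : ℕ} (w : Fin N → ℕ) (D : ℕ → Prop) [DecidablePred D]
    (h : ∀ i (hi : i + 1 < N), (w ⟨i + 1, hi⟩ < w ⟨i, by omega⟩ ↔ D i)) :
    maj w = ∑ i ∈ range (N - 1), if D i then i + 1 else 0 := by
  have h1 : maj w = ∑ i : Fin N, (fun i : ℕ => if i + 1 < N then (if D i then i + 1 else 0) else 0) i := by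
    unfold maj
    refine sum_congr rfl (fun i _ => ?_)
    by_cases hi : (i : ℕ) + 1 < N
    · simp only [hi, dif_pos, if_true]
      have := h i hi
      simp only [this]
    · simp only [hi, dif_neg, if_false, not_false_iff]
  rw [h1, Fin.sum_univ_eq_sum_range (fun i : ℕ => if i + 1 < N then (if D i then i + 1 else 0) else 0)]
  rcases Nat.eq_zero_or_pos N with hN | hN
  · subst hN; rfl
  · obtain ⟨m, rfl⟩ : ∃ m, N = m + 1 := ⟨N - 1, by omega⟩
    rw [show m + 1 - 1 = m by omega, sum_range_succ, if_neg (by omega), add_zero]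
    refine sum_congr rfl (fun i hi => ?_)
    rw [mem_range] at hi
    rw [if_pos (by omega)]

section words

variable {N : ℕ}

/-- the positions of the ones of a word -/
def wpos (w : Fin N → Fin 2) : Finset ℕ := (univ.filter (fun a => w a = 1)).map Fin.valEmbedding

theorem mem_wpos {w : Fin N → Fin 2} (a : Fin N) : (a : ℕ) ∈ wpos w ↔ w a = 1 := by
  unfold wpos
  rw [mem_map]
  constructor
  · rintro ⟨b, hb, he⟩
    rw [mem_filter] at hb
    have : b = a := Fin.ext he
    rw [← this]; exact hb.2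
  · intro h
    exact ⟨a, by rw [mem_filter]; exact ⟨mem_univ _, h⟩, rfl⟩

theorem wpos_sub (w : Fin N → Fin 2) : wpos w ⊆ range N := by
  intro x hx
  unfold wpos at hx
  rw [mem_map] at hx
  obtain ⟨b, _, rfl⟩ := hx
  exact mem_range.2 b.2

theorem one_wpos (w : Fin N → Fin 2) (i : ℕ) : one (wpos w) i = letters w 1 i := by
  unfold one letters wpos
  rw [← card_map Fin.valEmbedding]
  congr 1
  ext x
  rw [mem_filter, mem_map, mem_map]
  constructor
  · rintro ⟨⟨b, hb, rfl⟩, h2⟩
    rw [mem_filter] at hb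
    exact ⟨b, by rw [mem_filter]; exact ⟨mem_univ _, h2, hb.2⟩, rfl⟩
  · rintro ⟨b, hb, rfl⟩
    rw [mem_filter] at hb
    exact ⟨⟨b, by rw [mem_filter]; exact ⟨mem_univ _, hb.2.2⟩, rfl⟩, hb.2.1⟩

theorem fin2_cases (c : Fin 2) : c = 0 ∨ c = 1 := by
  fin_cases c
  · exact Or.inl rfl
  · exact Or.inr rfl

theorem letters_add (w : Fin N → Fin 2) {i : ℕ} (hi : i ≤ N) :
    letters w 1 i + letters w 0 i = i := by
  classical
  unfold letters
  rw [← card_union_of_disjoint]
  · have : (univ.filter (fun b : Fin N => (b : ℕ) < i ∧ w b = 1) ∪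
        univ.filter (fun b : Fin N => (b : ℕ) < i ∧ w b = 0)) =
        univ.filter (fun b : Fin N => (b : ℕ) < i) := by
      ext b
      rw [mem_union, mem_filter, mem_filter, mem_filter]
      constructor
      · rintro (h | h) <;> exact ⟨mem_univ _, h.2.1⟩
      · rintro ⟨_, h⟩
        rcases fin2_cases (w b) with h1 | h1
        · exact Or.inr ⟨mem_univ _, h, h1⟩
        · exact Or.inl ⟨mem_univ _, h, h1⟩
    rw [this]
    have h2 : (univ.filter (fun b : Fin N => (b : ℕ) < i)).map Fin.valEmbedding = range i := by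
      ext x
      rw [mem_map, mem_range]
      constructor
      · rintro ⟨y, hy, rfl⟩
        rw [mem_filter] at hy; exact hy.2
      · intro h
        exact ⟨⟨x, by omega⟩, by rw [mem_filter]; exact ⟨mem_univ _, h⟩, rfl⟩
    rw [← card_map Fin.valEmbedding, h2, card_range]
  · rw [disjoint_left]
    intro b h1 h2
    rw [mem_filter] at h1 h2
    rw [h1.2.2] at h2
    exact absurd h2.2.2 (by decide)

theorem isCatalan_iff (n : ℕ) (w : Fin (2 * n) → Fin 2) :
    IsCatalan n w ↔ wpos w ∈ wd (2 * n) n := by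
  rw [mem_wd, ← one_eq_card (wpos_sub w), one_wpos]
  unfold IsCatalan Bal
  constructor
  · rintro ⟨h1, h2, h3⟩
    refine ⟨wpos_sub w, fun i hi => ?_, h2⟩
    rw [one_wpos]
    have := h3 i hi
    have := letters_add w hi
    omega
  · rintro ⟨_, h2, h3⟩
    have h4 := letters_add w (le_refl (2 * n))
    refine ⟨by omega, h3, fun i hi => ?_⟩
    have := h2 i hi
    rw [one_wpos] at this
    have := letters_add w hi
    omega

theorem wpos_inj {w v : Fin N → Fin 2} (h : wpos w = wpos v) : w = v := by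
  funext a
  rcases fin2_cases (w a) with h1 | h1 <;> rcases fin2_cases (v a) with h2 | h2
  · rw [h1, h2]
  · have := (mem_wpos a).2 h2
    rw [← h, mem_wpos] at this
    rw [this, h2]
  · have := (mem_wpos a).2 h1
    rw [h, mem_wpos] at this
    rw [this, h1]
  · rw [h1, h2]

theorem wpos_surj {S : Finset ℕ} (h : S ⊆ range N) :
    wpos (fun a : Fin N => if (a : ℕ) ∈ S then (1 : Fin 2) else 0) = S := by
  ext x
  constructor
  · intro hx
    have hxN := mem_range.1 (wpos_sub _ hx)
    have := (mem_wpos (⟨x, hxN⟩ : Fin N)).1 hx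
    by_contra hc
    simp only [hc, if_false] at this
    exact absurd this (by decide)
  · intro hx
    have hxN := mem_range.1 (h hx)
    apply (mem_wpos (⟨x, hxN⟩ : Fin N)).2
    simp only [hx, if_true]

end words

theorem maj_word (n : ℕ) (w : Fin (2 * n) → Fin 2) :
    maj (fun i => ((w i : Fin 2) : ℕ)) = majS (2 * n) (wpos w) := by
  unfold majS
  apply maj_eq
  intro i hi
  have h1 := mem_wpos (w := w) (⟨i, by omega⟩ : Fin (2 * n))
  have h2 := mem_wpos (w := w) (⟨i + 1, hi⟩ : Fin (2 * n))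
  simp only at h1 h2
  rw [h1, h2]
  rcases fin2_cases (w ⟨i, by omega⟩) with e1 | e1 <;>
    rcases fin2_cases (w ⟨i + 1, hi⟩) with e2 | e2 <;> rw [e1, e2] <;> decide

theorem cPoly_eq (n : ℕ) : cPoly n = ∑ S ∈ wd (2 * n) n, (X : ℤ[X]) ^ majS (2 * n) S := by
  classical
  unfold cPoly
  apply sum_bij (fun w _ => wpos w)
  · intro w hw
    rw [mem_filter] at hw
    exact (isCatalan_iff n w).1 hw.2
  · intro w _ v _ h
    exact wpos_inj h
  · intro S hS
    have hsub := (mem_wd.1 hS).1
    refine ⟨fun a : Fin (2 * n) => if (a : ℕ) ∈ S then (1 : Fin 2) else 0, ?_, wpos_surj hsub⟩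
    rw [mem_filter, isCatalan_iff, wpos_surj hsub]
    exact ⟨mem_univ _, hS⟩
  · intro w _
    rw [maj_word]

/-- a polynomial identity from the reals `q > 1` -/
theorem poly_ext {A B : ℤ[X]} (h : ∀ q : ℝ, 1 < q →
    (A.map (Int.castRingHom ℝ)).eval q = (B.map (Int.castRingHom ℝ)).eval q) : A = B := by
  apply Polynomial.map_injective (Int.castRingHom ℝ) (fun a b hab => by simpa using hab)
  apply Polynomial.eq_of_infinite_eval_eq
  apply Set.Infinite.mono (s := Set.Ioi (1 : ℝ))
  · intro q hq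
    exact h q hq
  · exact Set.Ioi_infinite 1

theorem sum_pow_flip (n r : ℕ) (e m : Finset ℕ → ℕ)
    (hF : ∀ q : ℝ, ∑ S ∈ wd (2 * n) n, q ^ m S = Fq q (2 * n) n)
    (h : ∀ S ∈ wd (2 * n) n, e S + m S = r + n * (n - 1)) :
    ∑ S ∈ wd (2 * n) n, (X : ℤ[X]) ^ e S = X ^ r * cPoly n := by
  apply poly_ext
  intro q hq
  have hq0 : 0 < q := by linarith
  rw [cPoly_eq]
  simp only [Polynomial.map_sum, Polynomial.map_mul, Polynomial.map_pow, Polynomial.map_X,
    Polynomial.eval_mul, Polynomial.eval_pow, Polynomial.eval_X, Polynomial.eval_finsetSum]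
  have h1 : ∑ S ∈ wd (2 * n) n, q ^ majS (2 * n) S = Fq q (2 * n) n := rfl
  rw [h1, ← Fq_inv hq0 (by linarith : q ≠ 1) n, ← hF q⁻¹, ← mul_assoc, ← pow_add, mul_sum]
  refine sum_congr rfl (fun S hS => ?_)
  rw [← h S hS, pow_add, mul_assoc, ← mul_pow, mul_inv_cancel₀ hq0.ne', one_pow, mul_one]

theorem gauss (m : ℕ) : 2 * ∑ i ∈ range m, (i + 1) = m * (m + 1) := by
  induction m with
  | zero => simp
  | succ m ih => rw [sum_range_succ, mul_add, ih]; ring

theorem sum_split (N : ℕ) (D : ℕ → Prop) [DecidablePred D] :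
    ∑ i ∈ range (N - 1), (if ¬ D i then i + 1 else 0) +
      ∑ i ∈ range (N - 1), (if D i then i + 1 else 0) = ∑ i ∈ range (N - 1), (i + 1) := by
  rw [← sum_add_distrib]
  refine sum_congr rfl (fun i _ => ?_)
  by_cases h : D i
  · rw [if_neg (not_not.2 h), if_pos h, zero_add]
  · rw [if_pos h, if_neg h, add_zero]

theorem last_mem {n : ℕ} (hn : 0 < n) {S : Finset ℕ} (hS : S ∈ wd (2 * n) n) :
    2 * n - 1 ∈ S := by
  rw [mem_wd] at hS
  by_contra hc
  have h1 := hS.2.1 (2 * n - 1) (by omega)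
  have h2 := one_succ S (2 * n - 1)
  rw [if_neg hc, show 2 * n - 1 + 1 = 2 * n by omega, one_eq_card hS.1, hS.2.2] at h2
  omega

end Q161.TwoRow
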