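import Mathlib

/-!
Catalan words as sets of positions of ones; the polynomials of the major index and of the sum of
the positions of the peaks of height at least two, their equality and palindromicity.
-/

set_option autoImplicit false

namespace Q161.TwoRow

open Finset

/-- the number of ones among the first `i` letters -/
def one (S : Finset ℕ) (i : ℕ) : ℕ := (S.filter (fun j => j < i)).card

/-- the ballot condition -/
def Bal (m : ℕ) (S : Finset ℕ) : Prop := ∀ i ≤ m, 2 * one S i ≤ i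

open Classical in
/-- the ballot words of length `m` with `b` ones -/
noncomputable def wd (m b : ℕ) : Finset (Finset ℕ) :=
  (range m).powerset.filter (fun S => Bal m S ∧ S.card = b)

theorem mem_wd {m b : ℕ} {S : Finset ℕ} :
    S ∈ wd m b ↔ S ⊆ range m ∧ Bal m S ∧ S.card = b := by
  classical
  unfold wd
  rw [mem_filter, mem_powerset]

theorem one_succ (S : Finset ℕ) (i : ℕ) : one S (i + 1) = one S i + if i ∈ S then 1 else 0 := by
  unfold one
  split_ifs with h
  · rw [← card_insert_of_notMem (a := i) (s := S.filter (fun j => j < i)) (by simp)]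
    congr 1
    ext j
    rw [mem_insert, mem_filter, mem_filter]
    constructor
    · rintro ⟨h1, h2⟩
      by_cases hj : j = i
      · exact Or.inl hj
      · exact Or.inr ⟨h1, by omega⟩
    · rintro (rfl | ⟨h1, h2⟩)
      · exact ⟨h, by omega⟩
      · exact ⟨h1, by omega⟩
  · rw [add_zero]
    congr 1
    ext j
    rw [mem_filter, mem_filter]
    constructor
    · rintro ⟨h1, h2⟩
      refine ⟨h1, ?_⟩
      by_contra hc
      apply h
      have : j = i := by omega
      rwa [← this]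
    · rintro ⟨h1, h2⟩
      exact ⟨h1, by omega⟩

theorem one_zero (S : Finset ℕ) : one S 0 = 0 := by unfold one; simp

theorem one_mono (S : Finset ℕ) {i j : ℕ} (h : i ≤ j) : one S i ≤ one S j :=
  card_le_card (fun x hx => by rw [mem_filter] at hx ⊢; exact ⟨hx.1, by omega⟩)

theorem one_eq_card {S : Finset ℕ} {m : ℕ} (h : S ⊆ range m) : one S m = S.card := by
  unfold one
  congr 1
  rw [filter_eq_self]
  intro j hj
  exact mem_range.1 (h hj)

theorem one_insert {S : Finset ℕ} {m i : ℕ} (h : i ≤ m) : one (insert m S) i = one S i := by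
  unfold one
  congr 1
  rw [filter_insert, if_neg (by omega)]

theorem notMem_of_sub {S : Finset ℕ} {m : ℕ} (h : S ⊆ range m) : m ∉ S := fun hm => by
  have := mem_range.1 (h hm)
  omega

theorem bal_insert {S : Finset ℕ} {m : ℕ} (h : S ⊆ range m) :
    Bal (m + 1) (insert m S) ↔ Bal m S ∧ 2 * (S.card + 1) ≤ m + 1 := by
  have e : one (insert m S) (m + 1) = S.card + 1 := by
    rw [one_succ, one_insert (le_refl m), if_pos (mem_insert_self _ _), one_eq_card h]
  constructor
  · intro h1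
    refine ⟨fun i hi => ?_, ?_⟩
    · have := h1 i (by omega)
      rwa [one_insert hi] at this
    · have := h1 (m + 1) (le_refl _)
      rwa [e] at this
  · rintro ⟨h1, h2⟩ i hi
    rcases Nat.lt_or_ge i (m + 1) with h3 | h3
    · rw [one_insert (by omega)]
      exact h1 i (by omega)
    · obtain rfl : i = m + 1 := by omega
      rw [e]; exact h2

theorem bal_succ {S : Finset ℕ} {m : ℕ} (h : S ⊆ range m) :
    Bal (m + 1) S ↔ Bal m S := by
  have e : one S (m + 1) = S.card := by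
    rw [one_succ, if_neg (notMem_of_sub h), add_zero, one_eq_card h]
  constructor
  · intro h1 i hi
    exact h1 i (by omega)
  · intro h1 i hi
    rcases Nat.lt_or_ge i (m + 1) with h3 | h3
    · exact h1 i (by omega)
    · obtain rfl : i = m + 1 := by omega
      have := h1 m (le_refl _)
      rw [one_eq_card h] at this
      rw [e]; omega

/-- the sum over the words of length `m + 1` -/
theorem sum_wd_succ {M : Type*} [AddCommMonoid M] (m b : ℕ) (f : Finset ℕ → M) :
    ∑ S ∈ wd (m + 1) (b + 1), f S = ∑ S ∈ wd m (b + 1), f S +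
      if 2 * (b + 1) ≤ m + 1 then ∑ S ∈ wd m b, f (insert m S) else 0 := by
  classical
  have h1 : ∑ S ∈ wd (m + 1) (b + 1), f S =
      ∑ S ∈ (range m).powerset, (if Bal m S ∧ S.card = b + 1 then f S else 0) +
      ∑ S ∈ (range m).powerset,
        (if (Bal m S ∧ 2 * (b + 1) ≤ m + 1) ∧ S.card = b then f (insert m S) else 0) := by
    unfold wd
    rw [sum_filter, range_add_one, sum_powerset_insert (by simp)]
    congr 1
    · refine sum_congr rfl (fun S hS => ?_)
      rw [mem_powerset] at hS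
      simp only [bal_succ hS]
    · refine sum_congr rfl (fun S hS => ?_)
      rw [mem_powerset] at hS
      rw [bal_insert hS, card_insert_of_notMem (notMem_of_sub hS)]
      by_cases hc : S.card = b
      · simp only [hc, and_true]
      · rw [if_neg (by rintro ⟨_, h⟩; omega), if_neg (by rintro ⟨_, h⟩; omega)]
  rw [h1]
  unfold wd
  rw [sum_filter]
  congr 1
  split_ifs with h
  · rw [sum_filter]
    refine sum_congr rfl (fun S _ => ?_)
    simp only [h, and_true]
  · apply sum_eq_zero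
    intro S _
    rw [if_neg]
    rintro ⟨⟨_, h1⟩, _⟩
    exact h h1

theorem wd_zero_right (m : ℕ) : wd m 0 = {∅} := by
  ext S
  rw [mem_wd, mem_singleton, card_eq_zero]
  constructor
  · exact fun h => h.2.2
  · rintro rfl
    refine ⟨empty_subset _, ?_, rfl⟩
    intro i _
    unfold one
    simp

theorem wd_empty {m b : ℕ} (h : m < 2 * b) : wd m b = ∅ := by
  rw [eq_empty_iff_forall_notMem]
  intro S hS
  rw [mem_wd] at hS
  obtain ⟨h1, h2, h3⟩ := hS
  have := h2 m (le_refl _)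
  rw [one_eq_card h1, h3] at this
  omega

/-- the major index -/
def majS (m : ℕ) (S : Finset ℕ) : ℕ :=
  ∑ i ∈ range (m - 1), if i ∈ S ∧ i + 1 ∉ S then i + 1 else 0

/-- the sum of the positions of the peaks of height at least two -/
def nhp (m : ℕ) (S : Finset ℕ) : ℕ :=
  ∑ i ∈ range (m - 1), if i ∉ S ∧ i + 1 ∈ S ∧ 2 * one S (i + 1) + 2 ≤ i + 1 then i + 1 else 0

/-- the sum of the positions of the peaks -/
def pk (m : ℕ) (S : Finset ℕ) : ℕ :=
  ∑ i ∈ range (m - 1), if i ∉ S ∧ i + 1 ∈ S then i + 1 else 0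

noncomputable def Fq (q : ℝ) (m b : ℕ) : ℝ := ∑ S ∈ wd m b, q ^ majS m S
noncomputable def Pq (q : ℝ) (m b : ℕ) : ℝ := ∑ S ∈ wd m b, q ^ nhp m S

theorem Fq_zero (q : ℝ) (m : ℕ) : Fq q m 0 = 1 := by
  unfold Fq majS; rw [wd_zero_right, sum_singleton]; simp

theorem Pq_zero (q : ℝ) (m : ℕ) : Pq q m 0 = 1 := by
  unfold Pq nhp; rw [wd_zero_right, sum_singleton]; simp

theorem Fq_empty (q : ℝ) {m b : ℕ} (h : m < 2 * b) : Fq q m b = 0 := by
  unfold Fq; rw [wd_empty h, sum_empty]

theorem Pq_empty (q : ℝ) {m b : ℕ} (h : m < 2 * b) : Pq q m b = 0 := by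
  unfold Pq; rw [wd_empty h, sum_empty]

theorem majS_of_sub {m : ℕ} {S : Finset ℕ} (h : S ⊆ range (m + 1)) :
    majS (m + 2) S = majS (m + 1) S + if m ∈ S then m + 1 else 0 := by
  unfold majS
  rw [show m + 2 - 1 = m + 1 by omega, show m + 1 - 1 = m by omega, sum_range_succ]
  congr 1
  have : m + 1 ∉ S := notMem_of_sub h
  by_cases hm : m ∈ S
  · rw [if_pos ⟨hm, this⟩, if_pos hm]
  · rw [if_neg (fun h => hm h.1), if_neg hm]

theorem majS_insert {m : ℕ} {S : Finset ℕ} (_h : S ⊆ range (m + 1)) :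
    majS (m + 2) (insert (m + 1) S) = majS (m + 1) S := by
  unfold majS
  rw [show m + 2 - 1 = m + 1 by omega, show m + 1 - 1 = m by omega, sum_range_succ]
  rw [if_neg (by rintro ⟨_, h⟩; exact h (mem_insert_self _ _)), add_zero]
  refine sum_congr rfl (fun i hi => ?_)
  rw [mem_range] at hi
  have e1 : i ∈ insert (m + 1) S ↔ i ∈ S := by
    rw [mem_insert]; constructor
    · rintro (h | h)
      · omega
      · exact h
    · exact Or.inr
  have e2 : i + 1 ∈ insert (m + 1) S ↔ i + 1 ∈ S := by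
    rw [mem_insert]; constructor
    · rintro (h | h)
      · omega
      · exact h
    · exact Or.inr
  simp only [e1, e2]

theorem nhp_of_sub {m : ℕ} {S : Finset ℕ} (h : S ⊆ range (m + 1)) :
    nhp (m + 2) S = nhp (m + 1) S := by
  unfold nhp
  rw [show m + 2 - 1 = m + 1 by omega, show m + 1 - 1 = m by omega, sum_range_succ,
    if_neg (fun h' => notMem_of_sub h h'.2.1), add_zero]

theorem nhp_insert {m : ℕ} {S : Finset ℕ} (h : S ⊆ range (m + 1)) :
    nhp (m + 2) (insert (m + 1) S) = nhp (m + 1) S +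
      if m ∉ S ∧ 2 * S.card + 2 ≤ m + 1 then m + 1 else 0 := by
  unfold nhp
  rw [show m + 2 - 1 = m + 1 by omega, show m + 1 - 1 = m by omega, sum_range_succ]
  congr 1
  · refine sum_congr rfl (fun i hi => ?_)
    rw [mem_range] at hi
    have e1 : i ∈ insert (m + 1) S ↔ i ∈ S := by
      rw [mem_insert]; constructor
      · rintro (h | h)
        · omega
        · exact h
      · exact Or.inr
    have e2 : i + 1 ∈ insert (m + 1) S ↔ i + 1 ∈ S := by
      rw [mem_insert]; constructor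
      · rintro (h | h)
        · omega
        · exact h
      · exact Or.inr
    simp only [e1, e2, one_insert (show i + 1 ≤ m + 1 by omega)]
  · have e1 : m ∈ insert (m + 1) S ↔ m ∈ S := by
      rw [mem_insert]; constructor
      · rintro (h | h)
        · omega
        · exact h
      · exact Or.inr
    simp only [e1, mem_insert_self, true_and, one_insert (le_refl (m + 1)), one_eq_card h]

/-- the recursion of `Fq` -/
theorem Fq_rec (q : ℝ) (m b : ℕ) : Fq q (m + 2) (b + 1) = Fq q (m + 1) (b + 1) +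
    (if 2 * (b + 1) ≤ m + 2 then Fq q (m + 1) b else 0) +
    (if 2 * (b + 1) ≤ m + 1 then (q ^ (m + 1) - 1) * Fq q m b else 0) := by
  unfold Fq
  rw [sum_wd_succ (m + 1) b]
  have h1 : ∑ S ∈ wd (m + 1) (b + 1), q ^ majS (m + 2) S =
      ∑ S ∈ wd (m + 1) (b + 1), q ^ majS (m + 1) S +
      ∑ S ∈ wd (m + 1) (b + 1), (if m ∈ S then (q ^ (m + 1) - 1) * q ^ majS (m + 1) S else 0) := by
    rw [← sum_add_distrib]
    refine sum_congr rfl (fun S hS => ?_)
    rw [mem_wd] at hS
    rw [majS_of_sub hS.1]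
    split_ifs
    · rw [pow_add]; ring
    · rw [add_zero, add_zero]
  have h2 : ∑ S ∈ wd (m + 1) (b + 1), (if m ∈ S then (q ^ (m + 1) - 1) * q ^ majS (m + 1) S else 0) =
      if 2 * (b + 1) ≤ m + 1 then (q ^ (m + 1) - 1) * ∑ S ∈ wd m b, q ^ majS m S else 0 := by
    rw [sum_wd_succ m b]
    have h3 : ∑ S ∈ wd m (b + 1), (if m ∈ S then (q ^ (m + 1) - 1) * q ^ majS (m + 1) S else 0) =
        0 := by
      apply sum_eq_zero
      intro S hS
      rw [mem_wd] at hS
      rw [if_neg (notMem_of_sub hS.1)]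
    rw [h3, zero_add]
    split_ifs with hc
    · rw [mul_sum]
      refine sum_congr rfl (fun S hS => ?_)
      rw [mem_wd] at hS
      rw [if_pos (mem_insert_self _ _)]
      congr 2
      rcases Nat.eq_zero_or_pos m with hm | hm
      · subst hm
        unfold majS; simp
      · obtain ⟨p, rfl⟩ : ∃ p, m = p + 1 := ⟨m - 1, by omega⟩
        exact majS_insert hS.1
    · rfl
  have h4 : ∑ S ∈ wd (m + 1) b, q ^ majS (m + 2) (insert (m + 1) S) =
      ∑ S ∈ wd (m + 1) b, q ^ majS (m + 1) S := by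
    refine sum_congr rfl (fun S hS => ?_)
    rw [mem_wd] at hS
    rw [majS_insert hS.1]
  rw [h1, h2, h4]
  ring

theorem Pq_rec (q : ℝ) (m b : ℕ) : Pq q (m + 2) (b + 1) = Pq q (m + 1) (b + 1) +
    (if 2 * (b + 1) ≤ m + 2 then Pq q (m + 1) b else 0) +
    (if 2 * (b + 1) ≤ m + 1 then (q ^ (m + 1) - 1) * Pq q m b else 0) := by
  unfold Pq
  rw [sum_wd_succ (m + 1) b]
  have h1 : ∑ S ∈ wd (m + 1) (b + 1), q ^ nhp (m + 2) S =
      ∑ S ∈ wd (m + 1) (b + 1), q ^ nhp (m + 1) S := by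
    refine sum_congr rfl (fun S hS => ?_)
    rw [mem_wd] at hS
    rw [nhp_of_sub hS.1]
  have h2 : ∑ S ∈ wd (m + 1) b, q ^ nhp (m + 2) (insert (m + 1) S) =
      ∑ S ∈ wd (m + 1) b, q ^ nhp (m + 1) S +
      ∑ S ∈ wd (m + 1) b, (if m ∉ S ∧ 2 * b + 2 ≤ m + 1 then
        (q ^ (m + 1) - 1) * q ^ nhp (m + 1) S else 0) := by
    rw [← sum_add_distrib]
    refine sum_congr rfl (fun S hS => ?_)
    rw [mem_wd] at hS
    rw [nhp_insert hS.1, hS.2.2]
    split_ifs
    · rw [pow_add]; ring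
    · rw [add_zero, add_zero]
  have h3 : ∑ S ∈ wd (m + 1) b, (if m ∉ S ∧ 2 * b + 2 ≤ m + 1 then
        (q ^ (m + 1) - 1) * q ^ nhp (m + 1) S else 0) =
      if 2 * (b + 1) ≤ m + 1 then (q ^ (m + 1) - 1) * ∑ S ∈ wd m b, q ^ nhp m S else 0 := by
    by_cases hc : 2 * (b + 1) ≤ m + 1
    · rw [if_pos hc]
      have key : ∀ S ∈ wd m b, (if m ∉ S ∧ 2 * b + 2 ≤ m + 1 then
          (q ^ (m + 1) - 1) * q ^ nhp (m + 1) S else 0) = (q ^ (m + 1) - 1) * q ^ nhp m S := by
        intro S hS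
        rw [mem_wd] at hS
        rw [if_pos ⟨notMem_of_sub hS.1, by omega⟩]
        congr 2
        rcases Nat.eq_zero_or_pos m with hm | hm
        · subst hm; unfold nhp; simp
        · obtain ⟨p, rfl⟩ : ∃ p, m = p + 1 := ⟨m - 1, by omega⟩
          exact nhp_of_sub hS.1
      rcases Nat.eq_zero_or_pos b with hb | hb
      · subst hb
        rw [wd_zero_right, wd_zero_right, sum_singleton, sum_singleton]
        have := key ∅ (by rw [wd_zero_right]; exact mem_singleton_self _)
        rw [this]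
      · obtain ⟨c, rfl⟩ : ∃ c, b = c + 1 := ⟨b - 1, by omega⟩
        rw [sum_wd_succ m c]
        have h4 : ∑ S ∈ wd m c, (if m ∉ insert m S ∧ 2 * (c + 1) + 2 ≤ m + 1 then
            (q ^ (m + 1) - 1) * q ^ nhp (m + 1) (insert m S) else 0) = 0 := by
          apply sum_eq_zero
          intro S _
          rw [if_neg (fun h => h.1 (mem_insert_self _ _))]
        rw [h4, ite_self, add_zero, mul_sum]
        exact sum_congr rfl key
    · rw [if_neg hc]
      apply sum_eq_zero
      intro S _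
      rw [if_neg (by rintro ⟨_, h⟩; omega)]
  rw [h1, h2, h3]
  by_cases hc : 2 * (b + 1) ≤ m + 2
  · rw [if_pos hc, if_pos hc]; ring
  · rw [if_neg hc, if_neg hc, if_neg (by omega : ¬ 2 * (b + 1) ≤ m + 1)]; ring

theorem Fq_eq_Pq (q : ℝ) (m : ℕ) : ∀ b, Fq q m b = Pq q m b := by
  induction m using Nat.strong_induction_on with
  | _ m ih =>
    intro b
    rcases Nat.eq_zero_or_pos b with hb | hb
    · rw [hb, Fq_zero, Pq_zero]
    obtain ⟨c, rfl⟩ : ∃ c, b = c + 1 := ⟨b - 1, by omega⟩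
    rcases Nat.lt_or_ge m 2 with hm | hm
    · rw [Fq_empty q (by omega), Pq_empty q (by omega)]
    · obtain ⟨p, rfl⟩ : ∃ p, m = p + 2 := ⟨m - 2, by omega⟩
      rw [Fq_rec, Pq_rec, ih (p + 1) (by omega), ih (p + 1) (by omega), ih p (by omega)]

/-! ### Gaussian binomials -/

/-- the Gaussian binomial coefficient -/
noncomputable def gb (q : ℝ) : ℕ → ℕ → ℝ
  | _, 0 => 1
  | 0, _ + 1 => 0
  | m + 1, b + 1 => gb q m b + q ^ (b + 1) * gb q m (b + 1)

theorem gb_zero (q : ℝ) (m : ℕ) : gb q m 0 = 1 := by cases m <;> rfl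

theorem gb_succ (q : ℝ) (m b : ℕ) :
    gb q (m + 1) (b + 1) = gb q m b + q ^ (b + 1) * gb q m (b + 1) := rfl

theorem gb_of_lt (q : ℝ) (m : ℕ) : ∀ b, m < b → gb q m b = 0 := by
  induction m with
  | zero =>
    intro b hb
    obtain ⟨c, rfl⟩ : ∃ c, b = c + 1 := ⟨b - 1, by omega⟩
    rfl
  | succ m ih =>
    intro b hb
    obtain ⟨c, rfl⟩ : ∃ c, b = c + 1 := ⟨b - 1, by omega⟩
    rw [gb_succ, ih c (by omega), ih (c + 1) (by omega)]; ring

theorem gb_S (q : ℝ) (m : ℕ) : ∀ b ≤ m,
    (1 - q ^ (b + 1)) * gb q m (b + 1) = (1 - q ^ (m - b)) * gb q m b ∧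
    (1 - q ^ (b + 1)) * gb q (m + 1) (b + 1) = (1 - q ^ (m + 1)) * gb q m b := by
  have hL : ∀ m, (∀ b ≤ m, (1 - q ^ (b + 1)) * gb q m (b + 1) = (1 - q ^ (m - b)) * gb q m b) →
      ∀ b ≤ m, (1 - q ^ (b + 1)) * gb q (m + 1) (b + 1) = (1 - q ^ (m + 1)) * gb q m b := by
    intro m h b hb
    have h1 := h b hb
    rw [gb_succ]
    have h2 : q ^ (m + 1) = q ^ (b + 1) * q ^ (m - b) := by rw [← pow_add]; congr 1; omega
    rw [h2]
    linear_combination q ^ (b + 1) * h1
  have hS : ∀ m, ∀ b ≤ m, (1 - q ^ (b + 1)) * gb q m (b + 1) = (1 - q ^ (m - b)) * gb q m b := by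
    intro m
    induction m with
    | zero =>
      intro b hb
      obtain rfl : b = 0 := by omega
      rw [gb_of_lt q 0 1 (by omega)]
      simp
    | succ m ih =>
      intro b hb
      rcases Nat.lt_or_ge m b with h1 | h1
      · obtain rfl : b = m + 1 := by omega
        rw [gb_of_lt q (m + 1) (m + 1 + 1) (by omega)]
        simp
      · rw [hL m ih b h1]
        rcases Nat.eq_zero_or_pos b with h2 | h2
        · subst h2
          rw [gb_zero, gb_zero]
          simp
        · obtain ⟨c, rfl⟩ : ∃ c, b = c + 1 := ⟨b - 1, by omega⟩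
          have h3 := ih c (by omega)
          rw [gb_succ, show m + 1 - (c + 1) = m - c by omega]
          have h4 : q ^ (m + 1) = q ^ (c + 1) * q ^ (m - c) := by rw [← pow_add]; congr 1; omega
          rw [h4]
          linear_combination h3
  exact fun b hb => ⟨hS m b hb, hL m (hS m) b hb⟩

theorem gb_second (q : ℝ) {m b : ℕ} (hb : b ≤ m) :
    gb q (m + 1) (b + 1) = q ^ (m - b) * gb q m b + gb q m (b + 1) := by
  have h1 := (gb_S q m b hb).1
  rw [gb_succ]
  linear_combination -h1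

theorem gb_inv {q : ℝ} (hq : 0 < q) (m : ℕ) : ∀ b ≤ m,
    q ^ (b * (m - b)) * gb q⁻¹ m b = gb q m b := by
  induction m with
  | zero =>
    intro b hb
    obtain rfl : b = 0 := by omega
    rw [gb_zero, gb_zero]; simp
  | succ m ih =>
    intro b hb
    rcases Nat.eq_zero_or_pos b with h2 | h2
    · subst h2; rw [gb_zero, gb_zero]; simp
    · obtain ⟨c, rfl⟩ : ∃ c, b = c + 1 := ⟨b - 1, by omega⟩
      rw [gb_succ, gb_second q (by omega : c ≤ m), ← ih c (by omega)]
      have e1 : q ^ ((c + 1) * (m + 1 - (c + 1))) = q ^ (m - c) * q ^ (c * (m - c)) := by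
        rw [← pow_add, show m + 1 - (c + 1) = m - c by omega]; congr 1; ring
      rcases Nat.lt_or_ge m (c + 1) with h3 | h3
      · rw [gb_of_lt _ m (c + 1) h3, gb_of_lt _ m (c + 1) h3, e1]; ring
      · rw [← ih (c + 1) h3]
        have e2 : q ^ ((c + 1) * (m + 1 - (c + 1))) = q ^ (c + 1) * q ^ ((c + 1) * (m - (c + 1))) := by
          rw [← pow_add]; congr 1
          obtain ⟨d, rfl⟩ : ∃ d, m = c + 1 + d := ⟨m - (c + 1), by omega⟩
          rw [show c + 1 + d + 1 - (c + 1) = d + 1 by omega, show c + 1 + d - (c + 1) = d by omega]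
          ring
        have e3 : q ^ (c + 1) * (q⁻¹) ^ (c + 1) = 1 := by
          rw [← mul_pow, mul_inv_cancel₀ hq.ne', one_pow]
        rw [mul_add, ← mul_assoc, ← mul_assoc]
        nth_rewrite 1 [e1]
        rw [e2]
        linear_combination q ^ ((c + 1) * (m - (c + 1))) * gb q⁻¹ m (c + 1) * e3

theorem gb_K (q : ℝ) {m b : ℕ} (hb : b ≤ m) :
    gb q (m + 2) (b + 1) = gb q (m + 1) (b + 1) + gb q (m + 1) b + (q ^ (m + 1) - 1) * gb q m b := by
  have h1 := (gb_S q m b hb).2
  rw [gb_succ q (m + 1) b]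
  linear_combination -h1

/-- `[m, b] - q [m, b-1]` -/
noncomputable def Hq (q : ℝ) (m : ℕ) : ℕ → ℝ
  | 0 => 1
  | b + 1 => gb q m (b + 1) - q * gb q m b

theorem Hq_rec (q : ℝ) {m b : ℕ} (hb : b ≤ m) :
    Hq q (m + 2) (b + 1) = Hq q (m + 1) (b + 1) + Hq q (m + 1) b + (q ^ (m + 1) - 1) * Hq q m b := by
  cases b with
  | zero =>
    simp only [Hq]
    rw [gb_K q hb, gb_zero, gb_zero, gb_zero]
    ring
  | succ c =>
    simp only [Hq]
    rw [gb_K q hb, gb_K q (by omega : c ≤ m)]
    ring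

theorem pow_ne_one {q : ℝ} (hq : 0 < q) (hq1 : q ≠ 1) {k : ℕ} (hk : k ≠ 0) : 1 - q ^ k ≠ 0 := by
  intro h
  have h1 : q ^ k = 1 := by linarith
  exact hq1 ((pow_eq_one_iff_of_nonneg hq.le hk).1 h1)

theorem Hq_boundary {q : ℝ} (hq : 0 < q) (hq1 : q ≠ 1) (b : ℕ) :
    Hq q (2 * b + 2) (b + 1) = Hq q (2 * b + 1) b := by
  rw [Hq_rec q (by omega : b ≤ 2 * b)]
  have hb1 := pow_ne_one hq hq1 (show b + 1 ≠ 0 by omega)
  -- `(1 - q^{b+1}) H(2b, b) = (1 - q) [2b, b]`
  have h1 : (1 - q ^ (b + 1)) * Hq q (2 * b) b = (1 - q) * gb q (2 * b) b := by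
    cases b with
    | zero => simp [Hq, gb_zero]
    | succ c =>
      have h2 := (gb_S q (2 * (c + 1)) c (by omega)).1
      rw [show 2 * (c + 1) - c = c + 1 + 1 by omega] at h2
      simp only [Hq]
      linear_combination q * h2
  have h3 := (gb_S q (2 * b + 1) b (by omega)).1
  rw [show 2 * b + 1 - b = b + 1 by omega] at h3
  have h4 : gb q (2 * b + 1) (b + 1) = gb q (2 * b + 1) b := mul_left_cancel₀ hb1 h3
  have h5 := (gb_S q (2 * b) b (by omega)).2
  have h6 : Hq q (2 * b + 1) (b + 1) = (1 - q ^ (2 * b + 1)) * Hq q (2 * b) b := by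
    apply mul_left_cancel₀ hb1
    have h7 : Hq q (2 * b + 1) (b + 1) = gb q (2 * b + 1) (b + 1) - q * gb q (2 * b + 1) b := rfl
    rw [h7, ← h4]
    linear_combination (1 - q) * h5 - (1 - q ^ (2 * b + 1)) * h1
  rw [h6]; ring

theorem Fq_eq_Hq {q : ℝ} (hq : 0 < q) (hq1 : q ≠ 1) (m : ℕ) :
    ∀ b, 2 * b ≤ m → Fq q m b = Hq q m b := by
  induction m using Nat.strong_induction_on with
  | _ m ih =>
    intro b hb
    rcases Nat.eq_zero_or_pos b with hb0 | hb0
    · subst hb0; rw [Fq_zero]; rfl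
    obtain ⟨c, rfl⟩ : ∃ c, b = c + 1 := ⟨b - 1, by omega⟩
    obtain ⟨p, rfl⟩ : ∃ p, m = p + 2 := ⟨m - 2, by omega⟩
    rw [Fq_rec, if_pos (by omega)]
    by_cases h1 : 2 * (c + 1) ≤ p + 1
    · rw [if_pos h1, ih (p + 1) (by omega) _ h1, ih (p + 1) (by omega) c (by omega),
        ih p (by omega) c (by omega), Hq_rec q (by omega : c ≤ p)]
    · obtain rfl : p = 2 * c := by omega
      rw [if_neg h1, Fq_empty q (by omega), ih (2 * c + 1) (by omega) c (by omega),
        Hq_boundary hq hq1]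
      ring

/-- palindromicity -/
theorem Fq_inv {q : ℝ} (hq : 0 < q) (hq1 : q ≠ 1) (n : ℕ) :
    q ^ (n * (n - 1)) * Fq q⁻¹ (2 * n) n = Fq q (2 * n) n := by
  have hqi : 0 < q⁻¹ := inv_pos.2 hq
  have hqi1 : q⁻¹ ≠ 1 := fun h => hq1 (inv_eq_one.1 h)
  rw [Fq_eq_Hq hq hq1 _ n (le_refl _), Fq_eq_Hq hqi hqi1 _ n (le_refl _)]
  cases n with
  | zero => simp [Hq]
  | succ c =>
    simp only [Hq]
    have h1 := gb_inv hq (2 * (c + 1)) (c + 1) (by omega)
    have h2 := gb_inv hq (2 * (c + 1)) c (by omega)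
    have h3 := (gb_S q (2 * (c + 1)) c (by omega)).1
    rw [show 2 * (c + 1) - (c + 1) = c + 1 by omega] at h1
    rw [show 2 * (c + 1) - c = c + 2 by omega] at h2 h3
    rw [show c + 1 - 1 = c by omega]
    have hp : q ^ (c + 1) ≠ 0 := (pow_pos hq _).ne'
    apply mul_left_cancel₀ hp
    have e1 : q ^ (c + 1) * q ^ ((c + 1) * c) = q ^ ((c + 1) * (c + 1)) := by
      rw [← pow_add]; congr 1; ring
    have e2 : q ^ ((c + 1) * (c + 1)) * q⁻¹ = q ^ (c * (c + 2)) := by
      have : q ^ ((c + 1) * (c + 1)) = q ^ (c * (c + 2)) * q := by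
        rw [← pow_succ]; congr 1; ring
      rw [this, mul_assoc, mul_inv_cancel₀ hq.ne', mul_one]
    calc q ^ (c + 1) * (q ^ ((c + 1) * c) *
          (gb q⁻¹ (2 * (c + 1)) (c + 1) - q⁻¹ * gb q⁻¹ (2 * (c + 1)) c))
        = (q ^ (c + 1) * q ^ ((c + 1) * c)) * gb q⁻¹ (2 * (c + 1)) (c + 1) -
          ((q ^ (c + 1) * q ^ ((c + 1) * c)) * q⁻¹) * gb q⁻¹ (2 * (c + 1)) c := by ring
      _ = gb q (2 * (c + 1)) (c + 1) - gb q (2 * (c + 1)) c := by
          rw [e1, e2, h1, h2]
      _ = q ^ (c + 1) * (gb q (2 * (c + 1)) (c + 1) - q * gb q (2 * (c + 1)) c) := by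
          have e3 : q ^ (c + 2) = q ^ (c + 1) * q := by rw [← pow_succ]
          rw [e3] at h3
          linear_combination h3

/-- peaks and valleys -/
theorem pk_eq (m : ℕ) (S : Finset ℕ) :
    pk (m + 1) S + one S (m + 1) = majS (m + 1) S + if m ∈ S then m + 1 else 0 := by
  induction m with
  | zero =>
    unfold pk majS
    rw [one_succ, one_zero]
    simp
  | succ m ih =>
    have e1 : pk (m + 1 + 1) S = pk (m + 1) S + if m ∉ S ∧ m + 1 ∈ S then m + 1 else 0 := by
      unfold pk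
      rw [show m + 1 + 1 - 1 = m + 1 by omega, show m + 1 - 1 = m by omega, sum_range_succ]
    have e2 : majS (m + 1 + 1) S = majS (m + 1) S + if m ∈ S ∧ m + 1 ∉ S then m + 1 else 0 := by
      unfold majS
      rw [show m + 1 + 1 - 1 = m + 1 by omega, show m + 1 - 1 = m by omega, sum_range_succ]
    rw [e1, e2, one_succ S (m + 1)]
    by_cases h1 : m ∈ S <;> by_cases h2 : m + 1 ∈ S <;> simp only [h1, h2, not_true, not_false_iff,
      and_true, and_false, if_true, if_false] at ih ⊢ <;> omega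

end Q161.TwoRow
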