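import Mathlib

set_option autoImplicit false
open scoped BigOperators

/-!
# Coin tossing: averages, walks, first passages
-/

namespace Pool.Agent.Q161.Wa

open Finset

/-- put a coin in front of a sequence -/
def cns (b : Bool) (x : ℕ → Bool) : ℕ → Bool
  | 0 => b
  | i + 1 => x i

@[simp] lemma cns_zero (b : Bool) (x : ℕ → Bool) : cns b x 0 = b := rfl
@[simp] lemma cns_succ (b : Bool) (x : ℕ → Bool) (i : ℕ) : cns b x (i + 1) = x i := rfl

/-- the average over the first `N` coins (the other coins are `false`) -/
noncomputable def av : ℕ → ((ℕ → Bool) → ℝ) → ℝ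
  | 0, f => f (fun _ => false)
  | N + 1, f => (av N (fun x => f (cns true x)) + av N (fun x => f (cns false x))) / 2

lemma av_succ (N : ℕ) (f : (ℕ → Bool) → ℝ) :
    av (N + 1) f = (av N (fun x => f (cns true x)) + av N (fun x => f (cns false x))) / 2 := rfl

lemma av_const (N : ℕ) (c : ℝ) : av N (fun _ => c) = c := by
  induction N with
  | zero => rfl
  | succ N ih => rw [av_succ, ih]; ring

lemma av_add (N : ℕ) (f g : (ℕ → Bool) → ℝ) :
    av N (fun x => f x + g x) = av N f + av N g := by
  induction N generalizing f g with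
  | zero => rfl
  | succ N ih =>
    rw [av_succ, av_succ, av_succ, ih, ih]
    ring

lemma av_mul (N : ℕ) (c : ℝ) (f : (ℕ → Bool) → ℝ) :
    av N (fun x => c * f x) = c * av N f := by
  induction N generalizing f with
  | zero => rfl
  | succ N ih =>
    rw [av_succ, av_succ, ih, ih]
    ring

lemma av_sub (N : ℕ) (f g : (ℕ → Bool) → ℝ) :
    av N (fun x => f x - g x) = av N f - av N g := by
  induction N generalizing f g with
  | zero => rfl
  | succ N ih =>
    rw [av_succ, av_succ, av_succ, ih, ih]
    ring

lemma av_sum {ι : Type*} (s : Finset ι) (N : ℕ) (f : ι → (ℕ → Bool) → ℝ) :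
    av N (fun x => ∑ i ∈ s, f i x) = ∑ i ∈ s, av N (f i) := by
  classical
  induction s using Finset.induction_on with
  | empty => simp [av_const]
  | insert a s ha ih =>
    simp only [sum_insert ha]
    rw [av_add, ih]

lemma av_mono (N : ℕ) {f g : (ℕ → Bool) → ℝ} (h : ∀ x, f x ≤ g x) : av N f ≤ av N g := by
  induction N generalizing f g with
  | zero => exact h _
  | succ N ih =>
    rw [av_succ, av_succ]
    have h1 := ih (f := fun x => f (cns true x)) (g := fun x => g (cns true x)) fun x => h _
    have h2 := ih (f := fun x => f (cns false x)) (g := fun x => g (cns false x)) fun x => h _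
    linarith

lemma av_nonneg (N : ℕ) {f : (ℕ → Bool) → ℝ} (h : ∀ x, 0 ≤ f x) : 0 ≤ av N f := by
  have := av_mono N (f := fun _ => 0) (g := f) h
  rwa [av_const] at this

lemma av_le (N : ℕ) {f : (ℕ → Bool) → ℝ} {c : ℝ} (h : ∀ x, f x ≤ c) : av N f ≤ c := by
  have := av_mono N (f := f) (g := fun _ => c) h
  rwa [av_const] at this

/-- `f` depends only on the first `M` coins -/
def Dep (M : ℕ) (f : (ℕ → Bool) → ℝ) : Prop := ∀ x y, (∀ i, i < M → x i = y i) → f x = f y

lemma Dep.cns {M : ℕ} {f : (ℕ → Bool) → ℝ} (h : Dep (M + 1) f) (b : Bool) :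
    Dep M (fun x => f (cns b x)) := by
  intro x y hxy
  apply h
  intro i hi
  cases i with
  | zero => rfl
  | succ i => exact hxy i (by omega)

lemma av_dep {M N : ℕ} (hMN : M ≤ N) {f : (ℕ → Bool) → ℝ} (h : Dep M f) : av N f = av M f := by
  induction M generalizing N f with
  | zero =>
    have : f = fun _ => f (fun _ => false) := by
      funext x
      exact h _ _ (fun i hi => absurd hi (Nat.not_lt_zero i))
    rw [this, av_const, av_const]
  | succ M ih =>
    obtain ⟨N, rfl⟩ : ∃ N', N = N' + 1 := ⟨N - 1, by omega⟩
    rw [av_succ, av_succ, ih (by omega) (h.cns true), ih (by omega) (h.cns false)]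

/-- the first `a` coins of `x` followed by `y` -/
def app (a : ℕ) (x y : ℕ → Bool) : ℕ → Bool := fun i => if i < a then x i else y (i - a)

lemma app_cns (a : ℕ) (b : Bool) (x y : ℕ → Bool) :
    app (a + 1) (cns b x) y = cns b (app a x y) := by
  funext i
  cases i with
  | zero => simp [app]
  | succ i =>
    simp only [app, cns_succ]
    by_cases h : i < a
    · rw [if_pos h, if_pos (by omega)]
    · rw [if_neg h, if_neg (by omega)]
      congr 1
      omega

lemma av_split (a b : ℕ) (f : (ℕ → Bool) → ℝ) :
    av (a + b) f = av a (fun x => av b (fun y => f (app a x y))) := by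
  induction a generalizing f with
  | zero =>
    rw [zero_add]
    show av b f = av b _
    congr 1
  | succ a ih =>
    have : a + 1 + b = (a + b) + 1 := by ring
    rw [this, av_succ, av_succ, ih, ih]
    simp only [app_cns]

/-- flipping a coin -/
def upd (x : ℕ → Bool) (i : ℕ) (v : Bool) : ℕ → Bool := fun k => if k = i then v else x k

lemma upd_cns (b : Bool) (x : ℕ → Bool) (i : ℕ) (v : Bool) :
    upd (cns b x) (i + 1) v = cns b (upd x i v) := by
  funext k
  cases k with
  | zero => simp [upd]
  | succ k => simp [upd]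

lemma upd_cns_zero (b : Bool) (x : ℕ → Bool) (v : Bool) : upd (cns b x) 0 v = cns v x := by
  funext k
  cases k with
  | zero => simp [upd]
  | succ k => simp [upd]

/-- the exponential moment of a function with bounded differences -/
theorem exp_moment (M : ℕ) (f : (ℕ → Bool) → ℝ) (c : ℕ → ℝ)
    (h : ∀ i, i < M → ∀ x, |f (upd x i true) - f (upd x i false)| ≤ c i) :
    av M (fun x => Real.exp (f x)) ≤ Real.exp (av M f + ∑ i ∈ range M, c i ^ 2 / 8) := by
  induction M generalizing f c with
  | zero => simp [av]
  | succ M ih =>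
    have hb : ∀ b, av M (fun x => Real.exp (f (cns b x))) ≤
        Real.exp (av M (fun x => f (cns b x)) + ∑ i ∈ range M, c (i + 1) ^ 2 / 8) := by
      intro b
      apply ih (fun x => f (cns b x)) (fun i => c (i + 1))
      intro i hi x
      have := h (i + 1) (by omega) (cns b x)
      rwa [upd_cns, upd_cns] at this
    set A := av M (fun x => f (cns true x)) with hA
    set B := av M (fun x => f (cns false x)) with hB
    set σ := ∑ i ∈ range M, c (i + 1) ^ 2 / 8 with hσ
    have hAB : |A - B| ≤ c 0 := by
      rw [hA, hB, ← av_sub, abs_le]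
      constructor
      · have := av_mono M (f := fun _ => - c 0) (g := fun x => f (cns true x) - f (cns false x))
          (fun x => by
            have := (abs_le.1 (h 0 (by omega) (cns true x))).1
            rwa [upd_cns_zero, upd_cns_zero] at this)
        rwa [av_const] at this
      · apply av_le
        intro x
        have := (abs_le.1 (h 0 (by omega) (cns true x))).2
        rwa [upd_cns_zero, upd_cns_zero] at this
    rw [av_succ, av_succ, sum_range_succ']
    have h1 := hb true
    have h2 := hb false
    have h3 : (Real.exp (A + σ) + Real.exp (B + σ)) / 2 =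
        Real.exp ((A + B) / 2 + σ) * Real.cosh ((A - B) / 2) := by
      rw [Real.cosh_eq, ← mul_div_assoc, mul_add, ← Real.exp_add, ← Real.exp_add]
      congr 2 <;> congr 1 <;> ring
    have h4 : Real.cosh ((A - B) / 2) ≤ Real.exp (c 0 ^ 2 / 8) := by
      refine (Real.cosh_le_exp_half_sq _).trans ?_
      apply Real.exp_le_exp.2
      have : (A - B) ^ 2 ≤ c 0 ^ 2 := by
        rw [← sq_abs (A - B)]
        exact pow_le_pow_left₀ (abs_nonneg _) hAB 2
      linarith [this, show ((A - B) / 2) ^ 2 / 2 = (A - B) ^ 2 / 8 by ring]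
    calc (av M (fun x => Real.exp (f (cns true x))) + av M (fun x => Real.exp (f (cns false x)))) / 2
        ≤ (Real.exp (A + σ) + Real.exp (B + σ)) / 2 := by linarith
      _ = Real.exp ((A + B) / 2 + σ) * Real.cosh ((A - B) / 2) := h3
      _ ≤ Real.exp ((A + B) / 2 + σ) * Real.exp (c 0 ^ 2 / 8) :=
          mul_le_mul_of_nonneg_left h4 (Real.exp_pos _).le
      _ = Real.exp ((A + B) / 2 + (σ + c 0 ^ 2 / 8)) := by rw [← Real.exp_add]; congr 1; ring

/-- the step of a coin -/
def stp (b : Bool) : ℤ := cond b 1 (-1)

@[simp] lemma stp_true : stp true = 1 := rfl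
@[simp] lemma stp_false : stp false = -1 := rfl

/-- the walk -/
def S (x : ℕ → Bool) (k : ℕ) : ℤ := ∑ i ∈ range k, stp (x i)

@[simp] lemma S_zero (x : ℕ → Bool) : S x 0 = 0 := rfl

lemma S_succ (x : ℕ → Bool) (k : ℕ) : S x (k + 1) = S x k + stp (x k) := by
  unfold S
  rw [sum_range_succ]

lemma S_cns (b : Bool) (x : ℕ → Bool) (k : ℕ) :
    S (cns b x) (k + 1) = stp b + S x k := by
  unfold S
  rw [sum_range_succ']
  simp only [cns_succ, cns_zero]
  ring

lemma S_congr {x y : ℕ → Bool} {k : ℕ} (h : ∀ i, i < k → x i = y i) : S x k = S y k := by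
  unfold S
  apply sum_congr rfl
  intro i hi
  rw [h i (mem_range.1 hi)]

/-- the sequence after time `a` -/
def sh (a : ℕ) (x : ℕ → Bool) : ℕ → Bool := fun i => x (a + i)

lemma S_sh (a : ℕ) (x : ℕ → Bool) (k : ℕ) : S (sh a x) k = S x (a + k) - S x a := by
  induction k with
  | zero => simp
  | succ k ih =>
    have h : sh a x k = x (a + k) := rfl
    rw [S_succ, ih, ← add_assoc, S_succ, h]
    ring

lemma S_app_le {a k : ℕ} (h : k ≤ a) (x y : ℕ → Bool) : S (app a x y) k = S x k := by
  apply S_congr
  intro i hi
  simp only [app]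
  rw [if_pos (by omega)]

lemma S_app_add (a k : ℕ) (x y : ℕ → Bool) : S (app a x y) (a + k) = S x a + S y k := by
  induction k with
  | zero => rw [add_zero, S_app_le le_rfl, S_zero, add_zero]
  | succ k ih =>
    have h : app a x y (a + k) = y k := by
      simp only [app]
      rw [if_neg (by omega), Nat.add_sub_cancel_left]
    rw [← add_assoc, S_succ, ih, S_succ, h]
    ring

lemma sh_app (a : ℕ) (x y : ℕ → Bool) : sh a (app a x y) = y := by
  funext i
  simp only [sh, app]
  rw [if_neg (by omega), Nat.add_sub_cancel_left]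

lemma S_upd_le {x : ℕ → Bool} {i k : ℕ} (h : k ≤ i) (v : Bool) : S (upd x i v) k = S x k := by
  apply S_congr
  intro j hj
  simp only [upd]
  rw [if_neg (by omega)]

lemma S_upd_lt {x : ℕ → Bool} {i k : ℕ} (h : i < k) :
    S (upd x i true) k = S (upd x i false) k + 2 := by
  induction k with
  | zero => omega
  | succ k ih =>
    rw [S_succ, S_succ]
    rcases Nat.lt_or_ge i k with g | g
    · have h1 : ∀ v, upd x i v k = x k := by
        intro v
        simp only [upd]
        rw [if_neg (by omega)]
      rw [ih g, h1, h1]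
      ring
    · have : i = k := by omega
      subst this
      have h1 : ∀ v, upd x i v i = v := by
        intro v
        simp [upd]
      rw [S_upd_le le_rfl, S_upd_le le_rfl, h1, h1, stp_true, stp_false]
      ring

lemma S_abs_le (x : ℕ → Bool) (k : ℕ) : |S x k| ≤ k := by
  induction k with
  | zero => simp
  | succ k ih =>
    rw [S_succ]
    refine (abs_add_le _ _).trans ?_
    push_cast
    have : |stp (x k)| = 1 := by cases x k <;> simp
    linarith

end Pool.Agent.Q161.Wa
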