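import Pool.Agent.Q161.WaA

set_option autoImplicit false
open scoped BigOperators

/-!
# The law of the walk and of the first passage times
-/

namespace Pool.Agent.Q161.Wa

open Finset

open Classical in
/-- the law of the walk at time `j` -/
noncomputable def bb (j : ℕ) (l : ℤ) : ℝ := av j (fun x => if S x j = l then 1 else 0)

/-- first passage at `-l` at time `j` -/
def FPt (l : ℤ) (j : ℕ) (x : ℕ → Bool) : Prop := (∀ i, i < j → -l < S x i) ∧ S x j = -l

open Classical in
/-- the probability of a first passage -/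
noncomputable def qq (j : ℕ) (l : ℤ) : ℝ := av j (fun x => if FPt l j x then 1 else 0)

lemma bb_nonneg (j : ℕ) (l : ℤ) : 0 ≤ bb j l := av_nonneg _ fun x => by split_ifs <;> norm_num

lemma qq_nonneg (j : ℕ) (l : ℤ) : 0 ≤ qq j l := av_nonneg _ fun x => by split_ifs <;> norm_num

lemma bb_zero (l : ℤ) : bb 0 l = if l = 0 then 1 else 0 := by
  classical
  unfold bb
  show (if S (fun _ => false) 0 = l then (1 : ℝ) else 0) = _
  rw [S_zero]
  by_cases h : l = 0
  · simp [h]
  · rw [if_neg (Ne.symm h), if_neg h]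

lemma bb_succ (j : ℕ) (l : ℤ) : bb (j + 1) l = (bb j (l - 1) + bb j (l + 1)) / 2 := by
  classical
  unfold bb
  rw [av_succ]
  congr 2
  · congr 1
    funext x
    rw [S_cns, stp_true]
    by_cases h : S x j = l - 1
    · rw [if_pos h, if_pos (by omega)]
    · rw [if_neg h, if_neg (by omega)]
  · congr 1
    funext x
    rw [S_cns, stp_false]
    by_cases h : S x j = l + 1
    · rw [if_pos h, if_pos (by omega)]
    · rw [if_neg h, if_neg (by omega)]

lemma bb_symm (j : ℕ) (l : ℤ) : bb j (-l) = bb j l := by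
  induction j generalizing l with
  | zero =>
    rw [bb_zero, bb_zero]
    by_cases h : l = 0
    · simp [h]
    · rw [if_neg h, if_neg (by omega)]
  | succ j ih =>
    rw [bb_succ, bb_succ]
    have h1 : -l - 1 = -(l + 1) := by ring
    have h2 : -l + 1 = -(l - 1) := by ring
    rw [h1, h2, ih, ih]
    ring

lemma bb_out {j : ℕ} {l : ℤ} (h : (j : ℤ) < |l|) : bb j l = 0 := by
  classical
  have : (fun x => if S x j = l then (1 : ℝ) else 0) = fun _ => 0 := by
    funext x
    rw [if_neg]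
    intro h'
    have := S_abs_le x j
    rw [h'] at this
    omega
  unfold bb
  rw [this, av_const]

lemma bb_parity (j : ℕ) (l : ℤ) (h : (l + j) % 2 ≠ 0) : bb j l = 0 := by
  induction j generalizing l with
  | zero =>
    rw [bb_zero, if_neg]
    rintro rfl
    simp at h
  | succ j ih =>
    rw [bb_succ, ih, ih, add_zero, zero_div]
    · push_cast at h ⊢
      omega
    · push_cast at h ⊢
      omega

lemma qq_zero (l : ℤ) : qq 0 l = if l = 0 then 1 else 0 := by
  classical
  unfold qq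
  show (if FPt l 0 (fun _ => false) then (1 : ℝ) else 0) = _
  unfold FPt
  by_cases h : l = 0
  · subst h
    simp
  · rw [if_neg h, if_neg]
    rintro ⟨_, h2⟩
    rw [S_zero] at h2
    omega

lemma FPt_cns (l : ℤ) (j : ℕ) (b : Bool) (x : ℕ → Bool) :
    FPt l (j + 1) (cns b x) ↔ 0 < l ∧ FPt (l + stp b) j x := by
  unfold FPt
  rw [S_cns]
  constructor
  · rintro ⟨h1, h2⟩
    refine ⟨?_, ?_, ?_⟩
    · have := h1 0 (by omega)
      rw [S_zero] at this
      omega
    · intro i hi
      have := h1 (i + 1) (by omega)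
      rw [S_cns] at this
      omega
    · omega
  · rintro ⟨h0, h1, h2⟩
    refine ⟨?_, by omega⟩
    intro i hi
    cases i with
    | zero => rw [S_zero]; omega
    | succ i =>
      have := h1 i (by omega)
      rw [S_cns]
      omega

lemma qq_succ_pos (j : ℕ) {l : ℤ} (hl : 0 < l) :
    qq (j + 1) l = (qq j (l + 1) + qq j (l - 1)) / 2 := by
  classical
  unfold qq
  rw [av_succ]
  congr 2
  · congr 1
    funext x
    have e : l + stp true = l + 1 := rfl
    have h0 := FPt_cns l j true x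
    rw [e] at h0
    by_cases h : FPt (l + 1) j x
    · rw [if_pos h, if_pos (h0.2 ⟨hl, h⟩)]
    · rw [if_neg h, if_neg (fun h' => h (h0.1 h').2)]
  · congr 1
    funext x
    have e : l + stp false = l - 1 := by rw [stp_false]; ring
    have h0 := FPt_cns l j false x
    rw [e] at h0
    by_cases h : FPt (l - 1) j x
    · rw [if_pos h, if_pos (h0.2 ⟨hl, h⟩)]
    · rw [if_neg h, if_neg (fun h' => h (h0.1 h').2)]

lemma qq_succ_nonpos (j : ℕ) {l : ℤ} (hl : l ≤ 0) : qq (j + 1) l = 0 := by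
  classical
  have : ∀ b, (fun x => if FPt l (j + 1) (cns b x) then (1 : ℝ) else 0) = fun _ => 0 := by
    intro b
    funext x
    rw [if_neg]
    intro h
    have := ((FPt_cns _ _ _ _).1 h).1
    omega
  unfold qq
  rw [av_succ, this, this, av_const]
  ring

/-- the reflection principle -/
lemma qq_eq (j : ℕ) {l : ℤ} (hl : 0 ≤ l) : qq (j + 1) l = (bb j (l - 1) - bb j (l + 1)) / 2 := by
  induction j generalizing l with
  | zero =>
    rcases hl.eq_or_lt with rfl | hl
    · rw [qq_succ_nonpos _ le_rfl, bb_zero, bb_zero]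
      norm_num
    · rw [qq_succ_pos _ hl, qq_zero, qq_zero, bb_zero, bb_zero]
      rw [if_neg (by omega)]
      ring
  | succ j ih =>
    rcases hl.eq_or_lt with rfl | hl
    · rw [qq_succ_nonpos _ le_rfl]
      have := bb_symm (j + 1) 1
      rw [zero_sub, zero_add, this, sub_self, zero_div]
    · rw [qq_succ_pos _ hl, ih (by omega), ih (by omega), bb_succ, bb_succ]
      have h1 : l + 1 - 1 = l := by ring
      have h2 : l - 1 + 1 = l := by ring
      rw [h1, h2]
      ring

/-- the hitting time identity -/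
lemma mul_bb (j : ℕ) (l : ℤ) :
    (l : ℝ) * bb (j + 1) l = ((j : ℝ) + 1) / 2 * (bb j (l - 1) - bb j (l + 1)) := by
  induction j generalizing l with
  | zero =>
    rw [bb_succ, bb_zero, bb_zero]
    by_cases h1 : l = 1
    · subst h1; norm_num
    · by_cases h2 : l = -1
      · subst h2; norm_num
      · rw [if_neg (by omega), if_neg (by omega)]
        ring
  | succ j ih =>
    have h1 := ih (l - 1)
    have h2 := ih (l + 1)
    have e1 : l - 1 - 1 = l - 2 := by ring
    have e2 : l - 1 + 1 = l := by ring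
    have e3 : l + 1 - 1 = l := by ring
    have e4 : l + 1 + 1 = l + 2 := by ring
    rw [e1, e2] at h1
    rw [e3, e4] at h2
    push_cast at h1 h2 ⊢
    rw [bb_succ (j + 1) l]
    have h3 := bb_succ j (l - 1)
    have h4 := bb_succ j (l + 1)
    rw [e1, e2] at h3
    rw [e3, e4] at h4
    have h5 : (l : ℝ) * ((bb (j + 1) (l - 1) + bb (j + 1) (l + 1)) / 2) =
        (((l : ℝ) - 1) * bb (j + 1) (l - 1) + ((l : ℝ) + 1) * bb (j + 1) (l + 1)) / 2 +
        (bb (j + 1) (l - 1) - bb (j + 1) (l + 1)) / 2 := by ring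
    rw [h5, h1, h2]
    linear_combination (-(((j : ℝ) + 1) / 2)) * (h3 - h4)

lemma qq_eq_bb (j : ℕ) {l : ℤ} (hl : 0 ≤ l) :
    qq (j + 1) l = (l : ℝ) / ((j : ℝ) + 1) * bb (j + 1) l := by
  have h1 := mul_bb j l
  have h2 : (0 : ℝ) < (j : ℝ) + 1 := by positivity
  rw [qq_eq j hl, div_mul_eq_mul_div, h1]
  field_simp

lemma add_bb (j : ℕ) (l : ℤ) :
    ((j : ℝ) + 1 + l) * bb (j + 1) l = ((j : ℝ) + 1) * bb j (l - 1) := by
  have h1 := mul_bb j l
  have h2 := bb_succ j l
  linear_combination h1 + ((j : ℝ) + 1) * h2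

lemma sub_bb (j : ℕ) (l : ℤ) :
    ((j : ℝ) + 1 - l) * bb (j + 1) l = ((j : ℝ) + 1) * bb j (l + 1) := by
  have h1 := mul_bb j l
  have h2 := bb_succ j l
  linear_combination -h1 + ((j : ℝ) + 1) * h2

/-- ratio of consecutive values -/
lemma bb_ratio (j : ℕ) (l : ℤ) :
    ((j : ℝ) + 1 + l + 2) * bb (j + 1) (l + 2) = ((j : ℝ) + 1 - l) * bb (j + 1) l := by
  have h1 := add_bb j (l + 2)
  have h2 := sub_bb j l
  have e1 : l + 2 - 1 = l + 1 := by ring
  rw [e1] at h1
  push_cast at h1
  linear_combination h1 - h2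

lemma bb_anti (j : ℕ) {l : ℤ} (hl : -1 ≤ l) : bb j (l + 2) ≤ bb j l := by
  have h1 := qq_eq j (l := l + 1) (by omega)
  have h2 := qq_nonneg (j + 1) (l + 1)
  have e1 : l + 1 - 1 = l := by ring
  have e2 : l + 1 + 1 = l + 2 := by ring
  rw [h1, e1, e2] at h2
  linarith

/-- expectations of functions of the walk -/
lemma av_S (j : ℕ) (F : ℤ → ℝ) (T : Finset ℤ) (hT : ∀ x, S x j ∉ T → F (S x j) = 0) :
    av j (fun x => F (S x j)) = ∑ l ∈ T, bb j l * F l := by
  classical
  have h1 : (fun x => F (S x j)) = fun x => ∑ l ∈ T, F l * (if S x j = l then 1 else 0) := by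
    funext x
    rw [sum_congr rfl fun l _ => by rw [mul_ite, mul_one, mul_zero], sum_ite_eq T (S x j) F]
    split_ifs with h
    · rfl
    · exact hT x h
  rw [h1, av_sum]
  apply sum_congr rfl
  intro l _
  rw [av_mul]
  unfold bb
  ring

lemma sum_bb_le (j : ℕ) (T : Finset ℤ) : ∑ l ∈ T, bb j l ≤ 1 := by
  classical
  have h1 := av_S j (fun l => if l ∈ T then 1 else 0) T (fun x hx => by rw [if_neg hx])
  have h2 : ∑ l ∈ T, bb j l * (if l ∈ T then (1 : ℝ) else 0) = ∑ l ∈ T, bb j l :=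
    sum_congr rfl fun l hl => by rw [if_pos hl, mul_one]
  rw [← h2, ← h1]
  apply av_le
  intro x
  split_ifs <;> norm_num

lemma av_sq (j : ℕ) : av j (fun x => ((S x j : ℤ) : ℝ) ^ 2) = j := by
  induction j with
  | zero => simp [av]
  | succ j ih =>
    rw [av_succ]
    have h1 : ∀ b, (fun x => ((S (cns b x) (j + 1) : ℤ) : ℝ) ^ 2) =
        fun x => ((S x j : ℤ) : ℝ) ^ 2 + (2 * ((stp b : ℤ) : ℝ) * ((S x j : ℤ) : ℝ) + 1) := by
      intro b
      funext x
      rw [S_cns]
      push_cast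
      have : ((stp b : ℤ) : ℝ) ^ 2 = 1 := by cases b <;> simp
      linear_combination this
    have h2 : ∀ b, av j (fun x => ((S (cns b x) (j + 1) : ℤ) : ℝ) ^ 2) =
        j + (2 * ((stp b : ℤ) : ℝ) * av j (fun x => ((S x j : ℤ) : ℝ)) + 1) := by
      intro b
      rw [h1, av_add, ih, av_add, av_const, av_mul]
    rw [h2, h2, stp_true, stp_false]
    push_cast
    ring

lemma sum_sq_bb_le (j : ℕ) (T : Finset ℤ) : ∑ l ∈ T, bb j l * (l : ℝ) ^ 2 ≤ j := by
  classical
  have h1 := av_S j (fun l => if l ∈ T then (l : ℝ) ^ 2 else 0) T (fun x hx => by rw [if_neg hx])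
  have h2 : ∑ l ∈ T, bb j l * (if l ∈ T then (l : ℝ) ^ 2 else 0) = ∑ l ∈ T, bb j l * (l : ℝ) ^ 2 :=
    sum_congr rfl fun l hl => by rw [if_pos hl]
  rw [← h2, ← h1, ← av_sq j]
  apply av_mono
  intro x
  split_ifs
  · rfl
  · positivity

/-- monotonicity along `l, l - 2, …, -l` -/
lemma bb_mono_sym (j : ℕ) (l i : ℕ) (hi : i ≤ l) : bb j l ≤ bb j ((l : ℤ) - 2 * i) := by
  have key : ∀ i : ℕ, 2 * i ≤ l → bb j l ≤ bb j ((l : ℤ) - 2 * i) := by
    intro i
    induction i with
    | zero => simp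
    | succ i ih =>
      intro h
      refine (ih (by omega)).trans ?_
      have := bb_anti j (l := (l : ℤ) - 2 * (i + 1)) (by omega)
      have e : (l : ℤ) - 2 * (i + 1) + 2 = (l : ℤ) - 2 * i := by ring
      rw [e] at this
      push_cast
      exact this
  rcases Nat.lt_or_ge l (2 * i) with h | h
  · have h1 := key (l - i) (by omega)
    have h2 : (l : ℤ) - 2 * ((l - i : ℕ) : ℤ) = -((l : ℤ) - 2 * i) := by
      push_cast [hi]
      ring
    rw [h2, bb_symm] at h1
    exact h1
  · exact key i h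

lemma mul_bb_le (j l : ℕ) : ((l : ℝ) + 1) * bb j l ≤ 1 := by
  have h1 := sum_bb_le j ((range (l + 1)).image (fun i : ℕ => (l : ℤ) - 2 * i))
  rw [sum_image (by
    intro a _ b _ hab
    have : (l : ℤ) - 2 * a = (l : ℤ) - 2 * b := hab
    omega)] at h1
  have h2 : ∑ i ∈ range (l + 1), bb j l ≤ ∑ i ∈ range (l + 1), bb j ((l : ℤ) - 2 * i) :=
    sum_le_sum fun i hi => bb_mono_sym j l i (by rw [mem_range] at hi; omega)
  rw [sum_const, card_range, nsmul_eq_mul] at h2
  push_cast at h2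
  linarith

lemma sum_sq_sym (l : ℕ) : ∑ i ∈ range (l + 1), ((l : ℝ) - 2 * i) ^ 2 =
    (l : ℝ) * (l + 1) * (l + 2) / 3 := by
  have h : ∀ m : ℕ, ∑ i ∈ range (m + 1), ((l : ℝ) - 2 * i) ^ 2 =
      ((m : ℝ) + 1) * l ^ 2 - 2 * l * m * (m + 1) + 2 * m * (m + 1) * (2 * m + 1) / 3 := by
    intro m
    induction m with
    | zero => simp
    | succ m ih =>
      rw [sum_range_succ, ih]
      push_cast
      ring
  rw [h]
  ring

lemma cube_bb_le (j l : ℕ) : bb j l * (l : ℝ) ^ 3 ≤ 3 * j := by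
  have h1 := sum_sq_bb_le j ((range (l + 1)).image (fun i : ℕ => (l : ℤ) - 2 * i))
  rw [sum_image (by
    intro a _ b _ hab
    have : (l : ℤ) - 2 * a = (l : ℤ) - 2 * b := hab
    omega)] at h1
  have h2 : ∑ i ∈ range (l + 1), bb j l * ((l : ℝ) - 2 * i) ^ 2 ≤
      ∑ i ∈ range (l + 1), bb j ((l : ℤ) - 2 * i) * ((((l : ℤ) - 2 * i : ℤ)) : ℝ) ^ 2 := by
    apply sum_le_sum
    intro i hi
    push_cast
    exact mul_le_mul_of_nonneg_right (bb_mono_sym j l i (by rw [mem_range] at hi; omega))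
      (by positivity)
  rw [← mul_sum, sum_sq_sym] at h2
  have h3 := bb_nonneg j l
  have h4 : bb j l * ((l : ℝ) * (l + 1) * (l + 2) / 3) ≤ j := h2.trans h1
  have h5 : (l : ℝ) ^ 3 ≤ (l : ℝ) * (l + 1) * (l + 2) := by
    have : (0 : ℝ) ≤ l := by positivity
    nlinarith
  nlinarith

end Pool.Agent.Q161.Wa
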