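import Pool.Agent.Q161.WaB

set_option autoImplicit false
open scoped BigOperators

/-!
# Bounds for the law of the walk and of the first passage times
-/

namespace Pool.Agent.Q161.Wa

open Finset

/-- the central value -/
lemma central_succ (k : ℕ) : bb (2 * (k + 1)) 0 = (2 * (k : ℝ) + 1) / (2 * k + 2) * bb (2 * k) 0 := by
  have h1 := add_bb (2 * k) 1
  have h2 := bb_succ (2 * k + 1) 0
  have h3 := bb_symm (2 * k + 1) 1
  have e : (2 * (k + 1)) = 2 * k + 1 + 1 := by ring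
  rw [e, h2, zero_sub, zero_add, h3]
  rw [sub_self] at h1
  push_cast at h1
  have h4 : (0 : ℝ) < 2 * k + 2 := by positivity
  rw [div_mul_eq_mul_div, eq_div_iff h4.ne']
  linear_combination h1

lemma odd_central (k : ℕ) : bb (2 * k + 1) 1 = bb (2 * (k + 1)) 0 := by
  have h2 := bb_succ (2 * k + 1) 0
  have h3 := bb_symm (2 * k + 1) 1
  have e : (2 * (k + 1)) = 2 * k + 1 + 1 := by ring
  rw [e, h2, zero_sub, zero_add, h3]
  ring

lemma wallis (k : ℕ) : Real.Wallis.W k * ((2 * (k : ℝ) + 1) * bb (2 * k) 0 ^ 2) = 1 := by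
  induction k with
  | zero =>
    simp [Real.Wallis.W, bb_zero]
  | succ k ih =>
    rw [Real.Wallis.W_succ, central_succ]
    have h1 : (0 : ℝ) < 2 * k + 1 := by positivity
    have h2 : (0 : ℝ) < 2 * k + 2 := by positivity
    have h3 : (0 : ℝ) < 2 * k + 3 := by positivity
    have e : Real.Wallis.W k * ((2 * (k : ℝ) + 2) / (2 * k + 1) * ((2 * k + 2) / (2 * k + 3))) *
        ((2 * ((k + 1 : ℕ) : ℝ) + 1) * ((2 * (k : ℝ) + 1) / (2 * k + 2) * bb (2 * k) 0) ^ 2) =
        Real.Wallis.W k * ((2 * (k : ℝ) + 1) * bb (2 * k) 0 ^ 2) := by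
      push_cast
      field_simp
      ring
    rw [e, ih]

lemma central_bounds (k : ℕ) : 2 / Real.pi / (2 * (k : ℝ) + 1) ≤ bb (2 * k) 0 ^ 2 ∧
    bb (2 * k) 0 ^ 2 ≤ 2 / Real.pi * ((2 * (k : ℝ) + 2) / (2 * k + 1) ^ 2) := by
  have h1 := wallis k
  have h2 := Real.Wallis.W_le k
  have h3 := Real.Wallis.le_W k
  have h4 : (0 : ℝ) < 2 * k + 1 := by positivity
  have h5 : (0 : ℝ) < 2 * k + 2 := by positivity
  have hpi := Real.pi_pos
  have h6 : 0 ≤ (2 * (k : ℝ) + 1) * bb (2 * k) 0 ^ 2 := by positivity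
  have h7 : 0 < Real.Wallis.W k := Real.Wallis.W_pos k
  have h8 : bb (2 * k) 0 ^ 2 = 1 / (Real.Wallis.W k * (2 * k + 1)) := by
    rw [eq_div_iff (by positivity)]
    linear_combination h1
  constructor
  · rw [h8, div_div]
    rw [div_le_div_iff₀ (by positivity) (by positivity)]
    nlinarith
  · rw [h8]
    have h9 : 2 / Real.pi * ((2 * (k : ℝ) + 2) / (2 * k + 1) ^ 2) =
        1 / (((2 * (k : ℝ) + 1) / (2 * k + 2)) * (Real.pi / 2) * (2 * k + 1)) := by
      field_simp
    rw [h9]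
    apply one_div_le_one_div_of_le (by positivity)
    exact mul_le_mul_of_nonneg_right h3 h4.le

/-- the sum of the squares of the two central values (one of them is zero) -/
lemma center_bounds {j : ℕ} (hj : 1 ≤ j) : 2 / Real.pi / ((j : ℝ) + 2) ≤ bb j 0 ^ 2 + bb j 1 ^ 2 ∧
    bb j 0 ^ 2 + bb j 1 ^ 2 ≤ 2 / Real.pi / j := by
  have hpi := Real.pi_pos
  rcases Nat.even_or_odd' j with ⟨k, rfl | rfl⟩
  · have h1 : bb (2 * k) 1 = 0 := bb_parity _ _ (by push_cast; omega)
    have h2 := central_bounds k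
    have hk : (1 : ℝ) ≤ k := by
      have : 1 ≤ k := by omega
      exact_mod_cast this
    rw [h1]
    push_cast
    constructor
    · refine le_trans ?_ (h2.1.trans (by linarith [sq_nonneg (0 : ℝ)]))
      apply div_le_div_of_nonneg_left (by positivity) (by positivity)
      linarith
    · have h3 : 2 / Real.pi * ((2 * (k : ℝ) + 2) / (2 * k + 1) ^ 2) ≤ 2 / Real.pi / (2 * k) := by
        rw [div_eq_mul_one_div (2 / Real.pi) (2 * (k : ℝ))]
        apply mul_le_mul_of_nonneg_left _ (by positivity)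
        rw [div_le_div_iff₀ (by positivity) (by positivity)]
        nlinarith
      linarith [h2.2]
  · have h1 : bb (2 * k + 1) 0 = 0 := bb_parity _ _ (by push_cast; omega)
    have h2 := central_bounds (k + 1)
    rw [h1, odd_central]
    push_cast at h2 ⊢
    constructor
    · refine le_trans ?_ (h2.1.trans (by linarith [sq_nonneg (0 : ℝ)]))
      apply div_le_div_of_nonneg_left (by positivity) (by positivity)
      linarith
    · have h3 : 2 / Real.pi * ((2 * ((k : ℝ) + 1) + 2) / (2 * (k + 1) + 1) ^ 2) ≤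
          2 / Real.pi / (2 * k + 1) := by
        rw [div_eq_mul_one_div (2 / Real.pi) (2 * (k : ℝ) + 1)]
        apply mul_le_mul_of_nonneg_left _ (by positivity)
        have : (0 : ℝ) ≤ k := by positivity
        rw [div_le_div_iff₀ (by positivity) (by positivity)]
        nlinarith
      linarith [h2.2]

lemma two_div_pi_le : 2 / Real.pi ≤ 1 := by
  rw [div_le_one Real.pi_pos]
  exact Real.two_le_pi

lemma bb_sq_le (j : ℕ) (l : ℕ) : (j : ℝ) * bb j l ^ 2 ≤ 1 := by
  rcases Nat.eq_zero_or_pos j with rfl | hj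
  · simp
  have h1 := (center_bounds hj).2
  have hj' : (0 : ℝ) < j := by exact_mod_cast hj
  have h2 : ∀ m : ℕ, bb j (m : ℤ) ≤ bb j 0 ∨ bb j (m : ℤ) ≤ bb j 1 := by
    intro m
    induction m using Nat.strong_induction_on with
    | _ m ih =>
      match m with
      | 0 => left; simp
      | 1 => right; simp
      | m + 2 =>
        have h3 := bb_anti j (l := (m : ℤ)) (by omega)
        push_cast
        rcases ih m (by omega) with h | h
        · left; exact h3.trans h
        · right; exact h3.trans h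
  have h0 := bb_nonneg j l
  have h4 : bb j l ^ 2 ≤ bb j 0 ^ 2 + bb j 1 ^ 2 := by
    rcases h2 l with h | h
    · have := pow_le_pow_left₀ h0 h 2
      linarith [sq_nonneg (bb j 1)]
    · have := pow_le_pow_left₀ h0 h 2
      linarith [sq_nonneg (bb j 0)]
  have h5 : bb j l ^ 2 ≤ 1 / j := by
    refine h4.trans (h1.trans ?_)
    exact div_le_div_of_nonneg_right two_div_pi_le hj'.le
  rw [le_div_iff₀ hj'] at h5
  linarith

lemma bb_le_inv_sqrt {j : ℕ} (hj : 1 ≤ j) (l : ℕ) : bb j l ≤ 1 / Real.sqrt j := by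
  have hj' : (0 : ℝ) < j := by exact_mod_cast hj
  have h1 := bb_sq_le j l
  have h2 : bb j l ^ 2 ≤ (1 / Real.sqrt j) ^ 2 := by
    rw [div_pow, one_pow, Real.sq_sqrt hj'.le, le_div_iff₀ hj']
    linarith
  exact le_of_sq_le_sq h2 (by positivity)
where
  le_of_sq_le_sq {a b : ℝ} (h : a ^ 2 ≤ b ^ 2) (hb : 0 ≤ b) : a ≤ b := by
    nlinarith [sq_nonneg (a - b)]

/-- `l² P(S_j = l) ≤ 3 √j` -/
lemma sq_mul_bb_le {j : ℕ} (hj : 1 ≤ j) (l : ℕ) : (l : ℝ) ^ 2 * bb j l ≤ 3 * Real.sqrt j := by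
  have hj' : (0 : ℝ) < j := by exact_mod_cast hj
  set s := Real.sqrt j with hs
  have hs0 : 0 < s := Real.sqrt_pos.2 hj'
  have hs2 : s ^ 2 = j := Real.sq_sqrt hj'.le
  have h0 := bb_nonneg j l
  rcases le_or_gt ((l : ℝ)) s with h | h
  · have h1 := bb_le_inv_sqrt hj l
    have h2 : (l : ℝ) ^ 2 ≤ s ^ 2 := pow_le_pow_left₀ (by positivity) h 2
    calc (l : ℝ) ^ 2 * bb j l ≤ s ^ 2 * (1 / s) := by
          apply mul_le_mul h2 h1 h0 (by positivity)
      _ = s := by field_simp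
      _ ≤ 3 * s := by linarith
  · have h1 := cube_bb_le j l
    have hl0 : (0 : ℝ) < l := lt_trans hs0 h
    have h2 : (l : ℝ) ^ 2 * bb j l * l ≤ 3 * s * l := by
      calc (l : ℝ) ^ 2 * bb j l * l = bb j l * (l : ℝ) ^ 3 := by ring
        _ ≤ 3 * (j : ℝ) := h1
        _ = 3 * s * s := by rw [← hs2]; ring
        _ ≤ 3 * s * l := by
            apply mul_le_mul_of_nonneg_left h.le (by positivity)
    exact le_of_mul_le_mul_right h2 hl0

lemma qq_le {j : ℕ} (hj : 1 ≤ j) (l : ℤ) : qq j l ≤ 1 / j := by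
  obtain ⟨J, rfl⟩ : ∃ J, j = J + 1 := ⟨j - 1, by omega⟩
  rcases le_or_gt l 0 with h | h
  · rw [qq_succ_nonpos J h]
    positivity
  · rw [qq_eq_bb J h.le]
    obtain ⟨m, rfl⟩ : ∃ m : ℕ, l = m := ⟨l.toNat, by omega⟩
    have h1 := mul_bb_le (J + 1) m
    have h2 := bb_nonneg (J + 1) m
    rw [div_mul_eq_mul_div]
    push_cast
    apply div_le_div_of_nonneg_right _ (by positivity)
    linarith

/-- the increments of the first passage law -/
lemma qq_diff {j : ℕ} (hj : 1 ≤ j) (l : ℤ) :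
    |qq j (l + 2) - qq j l| ≤ 20 / ((j : ℝ) * Real.sqrt j) := by
  have hj' : (0 : ℝ) < j := by exact_mod_cast hj
  set s := Real.sqrt j with hs
  have hs0 : 0 < s := Real.sqrt_pos.2 hj'
  have hs2 : s * s = j := Real.mul_self_sqrt hj'.le
  obtain ⟨J, hJ⟩ : ∃ J, j = J + 1 := ⟨j - 1, by omega⟩
  have hJ' : (j : ℝ) = (J : ℝ) + 1 := by rw [hJ]; push_cast; ring
  have hq : ∀ m : ℤ, 0 ≤ m → qq j m = (m : ℝ) / j * bb j m := by
    intro m hm
    rw [hJ', hJ]
    exact qq_eq_bb J hm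
  have hq0 : ∀ m : ℤ, m ≤ 0 → qq j m = 0 := by
    intro m hm
    rw [hJ]
    exact qq_succ_nonpos J hm
  rcases le_or_gt l (-2) with h | h
  · rw [hq0 _ (by omega), hq0 _ (by omega), sub_self, abs_zero]
    positivity
  have hsmall : ∀ m : ℕ, m ≤ 2 → |qq j (m : ℤ)| ≤ 20 / ((j : ℝ) * s) := by
    intro m hm
    rw [abs_of_nonneg (qq_nonneg _ _), hq _ (by omega)]
    have h1 := bb_le_inv_sqrt hj m
    have h2 : (m : ℝ) ≤ 2 := by exact_mod_cast hm
    have h3 := bb_nonneg j m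
    push_cast
    calc (m : ℝ) / j * bb j m ≤ 2 / j * (1 / s) := by
          apply mul_le_mul _ h1 h3 (by positivity)
          exact div_le_div_of_nonneg_right h2 hj'.le
      _ = 2 / (j * s) := by rw [div_mul_div_comm, mul_one]
      _ ≤ 20 / (j * s) := by
          apply div_le_div_of_nonneg_right (by norm_num) (by positivity)
  rcases le_or_gt l 0 with h0 | h0
  · rw [hq0 l h0, sub_zero]
    obtain ⟨m, hm⟩ : ∃ m : ℕ, l + 2 = m := ⟨(l + 2).toNat, by omega⟩
    rw [hm]
    exact hsmall m (by omega)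
  obtain ⟨m, rfl⟩ : ∃ m : ℕ, l = m := ⟨l.toNat, by omega⟩
  have hm1 : (1 : ℝ) ≤ m := by
    have : 1 ≤ m := by omega
    exact_mod_cast this
  have h1 := bb_ratio J m
  rw [← hJ] at h1
  push_cast at h1
  rw [hq _ (by omega), hq _ (by omega)]
  push_cast
  have h2 : (0 : ℝ) < j + m + 2 := by positivity
  have h3 : bb j ((m : ℤ) + 2) = ((j : ℝ) - m) / (j + m + 2) * bb j m := by
    rw [div_mul_eq_mul_div, eq_div_iff h2.ne', hJ']
    linear_combination h1
  rw [h3]
  have h4 : ((m : ℝ) + 2) / j * (((j : ℝ) - m) / (j + m + 2) * bb j m) - (m : ℝ) / j * bb j m =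
      (2 * j - 2 * m ^ 2 - 4 * m) * bb j m / (j * (j + m + 2)) := by
    field_simp
    ring
  rw [h4, abs_div, abs_mul, abs_of_nonneg (bb_nonneg j m)]
  have h5 : |2 * (j : ℝ) - 2 * (m : ℝ) ^ 2 - 4 * m| ≤ 2 * (j : ℝ) + 6 * (m : ℝ) ^ 2 := by
    rw [abs_le]
    constructor <;> nlinarith
  have h6 : |(j : ℝ) * (j + m + 2)| = j * (j + m + 2) := abs_of_nonneg (by positivity)
  rw [h6]
  have h7 : |2 * (j : ℝ) - 2 * (m : ℝ) ^ 2 - 4 * m| * bb j m ≤ 20 * s := by
    have g1 := bb_le_inv_sqrt hj m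
    have g2 := sq_mul_bb_le hj m
    have g3 : (j : ℝ) * bb j m ≤ s := by
      calc (j : ℝ) * bb j m ≤ j * (1 / s) := mul_le_mul_of_nonneg_left g1 hj'.le
        _ = s := by rw [← hs2]; field_simp
    calc |2 * (j : ℝ) - 2 * (m : ℝ) ^ 2 - 4 * m| * bb j m ≤ (2 * (j : ℝ) + 6 * (m : ℝ) ^ 2) * bb j m :=
          mul_le_mul_of_nonneg_right h5 (bb_nonneg _ _)
      _ = 2 * (j * bb j m) + 6 * ((m : ℝ) ^ 2 * bb j m) := by ring
      _ ≤ 2 * s + 6 * (3 * s) := by linarith
      _ = 20 * s := by ring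
  calc |2 * (j : ℝ) - 2 * (m : ℝ) ^ 2 - 4 * m| * bb j m / (j * (j + m + 2))
      ≤ 20 * s / (j * (j + m + 2)) := div_le_div_of_nonneg_right h7 (by positivity)
    _ ≤ 20 * s / (j * j) := by
        apply div_le_div_of_nonneg_left (by positivity) (by positivity)
        apply mul_le_mul_of_nonneg_left _ hj'.le
        linarith
    _ = 20 / (j * s) := by
        rw [div_eq_div_iff (by positivity) (by positivity)]
        have : (j : ℝ) * j = j * (s * s) := by rw [hs2]
        rw [this]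
        ring

/-- the expected value -/
lemma av_qq (J : ℕ) : av (J + 1) (fun x => qq (J + 1) (-S x (J + 1))) =
    (bb J 0 ^ 2 + bb J 1 ^ 2) / 4 := by
  rw [av_S (J + 1) (fun s => qq (J + 1) (-s)) ((range (J + 1)).image (fun i : ℕ => -((i : ℤ) + 1)))
    (by
      intro x hx
      apply qq_succ_nonpos
      by_contra hcon
      apply hx
      rw [mem_image]
      have := S_abs_le x (J + 1)
      rw [abs_le] at this
      refine ⟨(-S x (J + 1) - 1).toNat, ?_, ?_⟩
      · rw [mem_range]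
        push_cast at this
        omega
      · omega)]
  rw [sum_image (by
    intro a _ b _ hab
    have : -((a : ℤ) + 1) = -((b : ℤ) + 1) := hab
    omega)]
  have h1 : ∀ i : ℕ, bb (J + 1) (-((i : ℤ) + 1)) * qq (J + 1) (- -((i : ℤ) + 1)) =
      (bb J i ^ 2 - bb J ((i + 2 : ℕ) : ℤ) ^ 2) / 4 := by
    intro i
    rw [bb_symm, neg_neg, qq_eq J (by omega), bb_succ]
    have e1 : (i : ℤ) + 1 - 1 = i := by ring
    have e2 : (i : ℤ) + 1 + 1 = ((i + 2 : ℕ) : ℤ) := by push_cast; ring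
    rw [e1, e2]
    ring
  rw [sum_congr rfl fun i _ => h1 i]
  have h2 : ∀ m : ℕ, ∑ i ∈ range m, (bb J i ^ 2 - bb J ((i + 2 : ℕ) : ℤ) ^ 2) / 4 =
      (bb J (0 : ℕ) ^ 2 + bb J (1 : ℕ) ^ 2 - bb J (m : ℕ) ^ 2 - bb J ((m + 1 : ℕ) : ℤ) ^ 2) / 4 := by
    intro m
    induction m with
    | zero => simp
    | succ m ih =>
      rw [sum_range_succ, ih]
      ring
  rw [h2, bb_out (l := ((J + 1 : ℕ) : ℤ)) (by rw [abs_of_nonneg (by omega)]; omega),
    bb_out (l := ((J + 1 + 1 : ℕ) : ℤ)) (by rw [abs_of_nonneg (by omega)]; omega)]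
  push_cast
  ring

/-- the main part of the expected number of hits -/
noncomputable def ff (M : ℕ) (x : ℕ → Bool) : ℝ :=
  ∑ j ∈ range M, qq (j + 1) (-S x (j + 1))

lemma dep_S {j : ℕ} (F : ℤ → ℝ) : Dep j (fun x => F (S x j)) := by
  intro x y h
  show F (S x j) = F (S y j)
  rw [S_congr h]

lemma Dep.mono {M N : ℕ} {f : (ℕ → Bool) → ℝ} (h : Dep M f) (hMN : M ≤ N) : Dep N f :=
  fun x y hxy => h x y fun i hi => hxy i (by omega)

lemma av_ff (M : ℕ) : av M (ff M) = ∑ j ∈ range M, (bb j 0 ^ 2 + bb j 1 ^ 2) / 4 := by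
  unfold ff
  rw [av_sum]
  apply sum_congr rfl
  intro j hj
  rw [mem_range] at hj
  rw [← av_qq j]
  exact av_dep (by omega) (dep_S (fun s => qq (j + 1) (-s)))

lemma sum_three_half (k M : ℕ) (hk : 1 ≤ k) :
    ∑ m ∈ Ico k M, 1 / ((m : ℝ) * Real.sqrt m) ≤ 4 / Real.sqrt k := by
  have hstep : ∀ m : ℕ, 1 ≤ m → 1 / ((m : ℝ) * Real.sqrt m) ≤
      4 / Real.sqrt m - 4 / Real.sqrt ((m + 1 : ℕ) : ℝ) := by
    intro m hm
    have hm' : (1 : ℝ) ≤ m := by exact_mod_cast hm
    set a := Real.sqrt m with ha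
    set b := Real.sqrt ((m + 1 : ℕ) : ℝ) with hb
    have ha0 : 0 < a := Real.sqrt_pos.2 (by linarith)
    have hb0 : 0 < b := Real.sqrt_pos.2 (by positivity)
    have ha2 : a * a = m := Real.mul_self_sqrt (by linarith)
    have hb2 : b * b = (m : ℝ) + 1 := by
      have := Real.mul_self_sqrt (show (0 : ℝ) ≤ ((m + 1 : ℕ) : ℝ) by positivity)
      rw [← hb] at this
      rw [this]; push_cast; ring
    have hab : a * b ≤ m + 1 / 2 := by nlinarith [sq_nonneg (a - b)]
    have h1 : 4 / a - 4 / b = 4 * (b - a) / (a * b) := by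
      field_simp
    have h2 : (b - a) * (b + a) = 1 := by nlinarith
    have h3 : b - a = 1 / (b + a) := by
      rw [eq_div_iff (by positivity)]
      exact h2
    rw [h1, h3]
    have h4 : 4 * (1 / (b + a)) / (a * b) = 4 / ((b + a) * (a * b)) := by
      field_simp
    rw [h4, div_le_div_iff₀ (by positivity) (by positivity)]
    have h5 : (b + a) * (a * b) = a * (b * b + a * b) := by ring
    rw [h5, hb2]
    nlinarith
  rcases Nat.lt_or_ge M k with h | h
  · rw [Ico_eq_empty (by omega), sum_empty]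
    positivity
  have key : ∑ m ∈ Ico k M, 1 / ((m : ℝ) * Real.sqrt m) ≤ 4 / Real.sqrt k - 4 / Real.sqrt M := by
    induction M, h using Nat.le_induction with
    | base => simp
    | succ M hM ih =>
      rw [sum_Ico_succ_top hM]
      have := hstep M (by omega)
      linarith
  have : 0 ≤ 4 / Real.sqrt M := by positivity
  linarith

/-- bounded differences -/
lemma ff_diff (M i : ℕ) (x : ℕ → Bool) :
    |ff M (upd x i true) - ff M (upd x i false)| ≤ 80 / Real.sqrt ((i : ℝ) + 1) := by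
  unfold ff
  rw [← sum_sub_distrib]
  refine (abs_sum_le_sum_abs _ _).trans ?_
  have h1 : ∀ j ∈ range M, |qq (j + 1) (-S (upd x i true) (j + 1)) -
      qq (j + 1) (-S (upd x i false) (j + 1))| ≤
      if i ≤ j then 20 * (1 / (((j + 1 : ℕ) : ℝ) * Real.sqrt ((j + 1 : ℕ) : ℝ))) else 0 := by
    intro j _
    split_ifs with h
    · rw [S_upd_lt (show i < j + 1 by omega)]
      have h2 := qq_diff (j := j + 1) (by omega) (-(S (upd x i false) (j + 1) + 2))
      have e : -(S (upd x i false) (j + 1) + 2) + 2 = -S (upd x i false) (j + 1) := by ring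
      rw [e, abs_sub_comm] at h2
      refine h2.trans (le_of_eq ?_)
      ring
    · rw [S_upd_le (show j + 1 ≤ i by omega), S_upd_le (show j + 1 ≤ i by omega), sub_self,
        abs_zero]
  refine (sum_le_sum h1).trans ?_
  rw [← sum_filter, ← mul_sum]
  have h3 : ∑ j ∈ (range M).filter (fun j => i ≤ j),
      1 / (((j + 1 : ℕ) : ℝ) * Real.sqrt ((j + 1 : ℕ) : ℝ)) =
      ∑ m ∈ Ico (i + 1) (M + 1), 1 / ((m : ℝ) * Real.sqrt m) := by
    rw [← sum_image (f := fun m : ℕ => 1 / ((m : ℝ) * Real.sqrt m)) (g := fun j => j + 1)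
      (s := (range M).filter (fun j => i ≤ j)) (by intro a _ b _ h; simpa using h)]
    apply sum_congr _ (fun _ _ => rfl)
    ext m
    simp only [mem_image, mem_filter, mem_range, mem_Ico]
    constructor
    · rintro ⟨j, hj, rfl⟩
      omega
    · intro h
      exact ⟨m - 1, by omega, by omega⟩
  rw [h3]
  have h4 := sum_three_half (i + 1) (M + 1) (by omega)
  push_cast at h4
  calc 20 * ∑ m ∈ Ico (i + 1) (M + 1), 1 / ((m : ℝ) * Real.sqrt m)
      ≤ 20 * (4 / Real.sqrt ((i : ℝ) + 1)) := by linarith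
    _ = 80 / Real.sqrt ((i : ℝ) + 1) := by ring

end Pool.Agent.Q161.Wa
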