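import Pool.Agent.Q161.WaC

set_option autoImplicit false
open scoped BigOperators

/-!
# Asymptotics and concentration
-/

namespace Pool.Agent.Q161.Wa

open Finset Filter Topology

lemma sum_inv_le (M : ℕ) : ∑ i ∈ range M, 1 / ((i : ℝ) + 1) ≤ 1 + Real.log M := by
  have h := harmonic_le_one_add_log M
  have h2 : ((harmonic M : ℚ) : ℝ) = ∑ i ∈ range M, 1 / ((i : ℝ) + 1) := by
    unfold harmonic
    push_cast
    simp only [one_div]
  rwa [h2] at h

lemma log_le_sum_inv (M : ℕ) : Real.log ((M : ℝ) + 1) ≤ ∑ i ∈ range M, 1 / ((i : ℝ) + 1) := by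
  have h := log_add_one_le_harmonic M
  have h2 : ((harmonic M : ℚ) : ℝ) = ∑ i ∈ range M, 1 / ((i : ℝ) + 1) := by
    unfold harmonic
    push_cast
    simp only [one_div]
  rw [h2] at h
  exact_mod_cast h

open Classical in
/-- concentration -/
theorem conc (M : ℕ) (t s : ℝ) (hs : 0 ≤ s) :
    av M (fun x => if t ≤ |ff M x - av M (ff M)| then 1 else 0) ≤
      2 * Real.exp (-s * t + 800 * s ^ 2 * (1 + Real.log M)) := by
  have key : ∀ σ : ℝ, σ ^ 2 = s ^ 2 → av M (fun x => Real.exp (σ * ff M x)) ≤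
      Real.exp (σ * av M (ff M) + 800 * s ^ 2 * (1 + Real.log M)) := by
    intro σ hσ
    have h1 := exp_moment M (fun x => σ * ff M x) (fun i => |σ| * (80 / Real.sqrt ((i : ℝ) + 1)))
      (by
        intro i _ x
        rw [← mul_sub, abs_mul]
        exact mul_le_mul_of_nonneg_left (ff_diff M i x) (abs_nonneg _))
    refine h1.trans (Real.exp_le_exp.2 ?_)
    rw [av_mul]
    have h2 : ∑ i ∈ range M, (|σ| * (80 / Real.sqrt ((i : ℝ) + 1))) ^ 2 / 8 =
        800 * s ^ 2 * ∑ i ∈ range M, 1 / ((i : ℝ) + 1) := by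
      rw [mul_sum]
      apply sum_congr rfl
      intro i _
      rw [mul_pow, sq_abs, hσ, div_pow, Real.sq_sqrt (by positivity)]
      ring
    rw [h2]
    have h3 := sum_inv_le M
    have h4 : 0 ≤ 800 * s ^ 2 := by positivity
    linarith [mul_le_mul_of_nonneg_left h3 h4]
  set E := av M (ff M) with hE
  have h1 : ∀ x, (if t ≤ |ff M x - E| then (1 : ℝ) else 0) ≤
      Real.exp (-s * E - s * t) * Real.exp (s * ff M x) +
      Real.exp (s * E - s * t) * Real.exp (-s * ff M x) := by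
    intro x
    rw [← Real.exp_add, ← Real.exp_add]
    split_ifs with h
    · rcases le_total 0 (ff M x - E) with g | g
      · rw [abs_of_nonneg g] at h
        have : 1 ≤ Real.exp (-s * E - s * t + s * ff M x) := by
          apply Real.one_le_exp
          nlinarith
        linarith [Real.exp_pos (s * E - s * t + -s * ff M x)]
      · rw [abs_of_nonpos g] at h
        have : 1 ≤ Real.exp (s * E - s * t + -s * ff M x) := by
          apply Real.one_le_exp
          nlinarith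
        linarith [Real.exp_pos (-s * E - s * t + s * ff M x)]
    · positivity
  refine (av_mono M h1).trans ?_
  rw [av_add, av_mul, av_mul]
  have h2 := mul_le_mul_of_nonneg_left (key s rfl) (Real.exp_pos (-s * E - s * t)).le
  have h3 := mul_le_mul_of_nonneg_left (key (-s) (by ring)) (Real.exp_pos (s * E - s * t)).le
  rw [← Real.exp_add] at h2 h3
  have e2 : -s * E - s * t + (s * E + 800 * s ^ 2 * (1 + Real.log M)) =
      -s * t + 800 * s ^ 2 * (1 + Real.log M) := by ring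
  have e3 : s * E - s * t + (-s * E + 800 * s ^ 2 * (1 + Real.log M)) =
      -s * t + 800 * s ^ 2 * (1 + Real.log M) := by ring
  rw [e2] at h2
  rw [e3] at h3
  linarith

lemma ff_nonneg (M : ℕ) (x : ℕ → Bool) : 0 ≤ ff M x := sum_nonneg fun _ _ => qq_nonneg _ _

/-- the mean is `log n / (2 π) + O(1)` -/
lemma mean_bounds {M : ℕ} (hM : 1 ≤ M) :
    1 / (2 * Real.pi) * (Real.log ((M : ℝ) + 2) - 3 / 2) ≤ av M (ff M) ∧
    av M (ff M) ≤ 1 / 4 + 1 / (2 * Real.pi) * (1 + Real.log M) := by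
  rw [av_ff]
  have hpi := Real.pi_pos
  obtain ⟨m, rfl⟩ : ∃ m, M = m + 1 := ⟨M - 1, by omega⟩
  rw [sum_range_succ']
  have h0 : bb 0 0 = 1 := by rw [bb_zero]; simp
  have h1 : bb 0 1 = 0 := by rw [bb_zero]; simp
  rw [h0, h1]
  constructor
  · have h2 : ∀ j ∈ range m, 1 / (2 * Real.pi) * (1 / ((j : ℝ) + 3)) ≤
        (bb (j + 1) 0 ^ 2 + bb (j + 1) 1 ^ 2) / 4 := by
      intro j _
      have := (center_bounds (j := j + 1) (by omega)).1
      have e : 1 / (2 * Real.pi) * (1 / ((j : ℝ) + 3)) =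
          2 / Real.pi / (((j + 1 : ℕ) : ℝ) + 2) / 4 := by
        push_cast
        field_simp
        ring
      rw [e]
      linarith
    have h3 := sum_le_sum h2
    rw [← mul_sum] at h3
    have h4 := log_le_sum_inv (m + 2)
    rw [sum_range_succ', sum_range_succ'] at h4
    push_cast at h4
    have h5 : ∑ i ∈ range m, 1 / ((i : ℝ) + 1 + 1 + 1) = ∑ i ∈ range m, 1 / ((i : ℝ) + 3) := by
      apply sum_congr rfl
      intro i _
      congr 1
      ring
    rw [h5] at h4
    have e6 : (m : ℝ) + 2 + 1 = ((m + 1 : ℕ) : ℝ) + 2 := by push_cast; ring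
    rw [e6] at h4
    have h7 : Real.log (((m + 1 : ℕ) : ℝ) + 2) - 3 / 2 ≤ ∑ i ∈ range m, 1 / ((i : ℝ) + 3) := by
      norm_num at h4 ⊢
      linarith
    have h8 : 0 ≤ 1 / (2 * Real.pi) := by positivity
    have h9 := mul_le_mul_of_nonneg_left h7 h8
    linarith
  · have h2 : ∀ j ∈ range m, (bb (j + 1) 0 ^ 2 + bb (j + 1) 1 ^ 2) / 4 ≤
        1 / (2 * Real.pi) * (1 / ((j : ℝ) + 1)) := by
      intro j _
      have := (center_bounds (j := j + 1) (by omega)).2
      have e : 1 / (2 * Real.pi) * (1 / ((j : ℝ) + 1)) = 2 / Real.pi / ((j + 1 : ℕ) : ℝ) / 4 := by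
        push_cast
        field_simp
        ring
      rw [e]
      linarith
    have h3 := sum_le_sum h2
    rw [← mul_sum] at h3
    have h4 := sum_inv_le m
    have h5 : Real.log m ≤ Real.log ((m + 1 : ℕ) : ℝ) := by
      rcases Nat.eq_zero_or_pos m with rfl | hm
      · simp
      · apply Real.log_le_log (by exact_mod_cast hm)
        push_cast
        linarith
    have h8 : 0 ≤ 1 / (2 * Real.pi) := by positivity
    have h9 := mul_le_mul_of_nonneg_left (h4.trans (add_le_add_right h5 1)) h8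
    linarith

/-- the mean at scale `n / 2` -/
lemma mean_half {n : ℕ} (hn : 2 ≤ n) :
    |av (n / 2) (ff (n / 2)) - 1 / (2 * Real.pi) * Real.log n| ≤ 1 := by
  have hM : 1 ≤ n / 2 := by omega
  have h1 := mean_bounds hM
  have hpi := Real.pi_gt_three
  have hn' : (2 : ℝ) ≤ n := by exact_mod_cast hn
  have hc : 1 / (2 * Real.pi) ≤ 1 / 6 := by
    apply one_div_le_one_div_of_le (by norm_num)
    linarith
  have hc0 : 0 < 1 / (2 * Real.pi) := by positivity
  set c := 1 / (2 * Real.pi) with hcdef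
  rw [abs_le]
  constructor
  · have h2 : (n : ℝ) / 2 ≤ ((n / 2 : ℕ) : ℝ) + 2 := by
      have : n ≤ 2 * (n / 2) + 4 := by omega
      have h3 : (n : ℝ) ≤ 2 * ((n / 2 : ℕ) : ℝ) + 4 := by exact_mod_cast this
      linarith
    have h3 : Real.log (n / 2) ≤ Real.log (((n / 2 : ℕ) : ℝ) + 2) :=
      Real.log_le_log (by positivity) h2
    rw [Real.log_div (by positivity) (by norm_num)] at h3
    have h4 : Real.log 2 ≤ 1 := by
      have := Real.log_two_lt_d9
      linarith
    have h5 := mul_le_mul_of_nonneg_left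
      (show Real.log n - 1 - 3 / 2 ≤ Real.log (((n / 2 : ℕ) : ℝ) + 2) - 3 / 2 by linarith) hc0.le
    nlinarith [h1.1]
  · have h2 : Real.log ((n / 2 : ℕ) : ℝ) ≤ Real.log n := by
      apply Real.log_le_log
      · exact_mod_cast hM
      · exact_mod_cast Nat.div_le_self n 2
    have h3 := mul_le_mul_of_nonneg_left h2 hc0.le
    nlinarith [h1.2]

lemma exp_neg_le {t : ℝ} (h0 : 0 ≤ t) (h1 : t ≤ 1 / 2) : Real.exp (-(t + t ^ 2)) ≤ 1 - t := by
  have h2 := Real.quadratic_le_exp_of_nonneg (show 0 ≤ t + t ^ 2 by positivity)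
  rw [Real.exp_neg, inv_le_comm₀ (Real.exp_pos _) (by linarith)]
  refine le_trans ?_ h2
  rw [inv_eq_one_div, div_le_iff₀ (by linarith)]
  have h3 : 0 ≤ t ^ 2 * ((1 + t) ^ 2 * (1 - t) - 2 * t) := by
    apply mul_nonneg (by positivity)
    nlinarith [sq_nonneg t, mul_nonneg h0 h0, mul_nonneg h0 (show 0 ≤ 1 / 2 - t by linarith),
      mul_nonneg (mul_nonneg h0 h0) (show 0 ≤ 1 / 2 - t by linarith)]
  nlinarith

/-- the product formula for the law of the walk, with bounds -/
lemma bb_prod {n : ℕ} (hn : 1 ≤ n) (l0 r : ℕ) (hl0 : l0 ≤ 1) (hr : 4 * (l0 + 2 * r) ≤ n) :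
    bb n l0 * Real.exp (-(((l0 + 2 * r : ℕ) : ℝ) ^ 2 / (2 * n) + ((l0 + 2 * r : ℕ) : ℝ) ^ 3 / n ^ 2))
      ≤ bb n ((l0 + 2 * r : ℕ) : ℤ) ∧
    bb n ((l0 + 2 * r : ℕ) : ℤ) ≤
      bb n l0 * Real.exp (-((((l0 + 2 * r : ℕ) : ℝ) ^ 2 - 1) / (2 * (n + (l0 + 2 * r : ℕ))))) := by
  obtain ⟨N, hN⟩ : ∃ N, n = N + 1 := ⟨n - 1, by omega⟩
  have hnpos : (0 : ℝ) < n := by exact_mod_cast hn
  set L : ℕ := l0 + 2 * r with hL
  have hLn : 4 * (L : ℝ) ≤ n := by exact_mod_cast hr
  have hb0 := bb_nonneg n l0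
  -- the factors
  set t : ℕ → ℝ := fun i => (2 * ((l0 + 2 * i : ℕ) : ℝ) + 2) / (n + ((l0 + 2 * i : ℕ) : ℝ) + 2) with ht
  have hstep : ∀ i : ℕ, bb n ((l0 + 2 * (i + 1) : ℕ) : ℤ) = (1 - t i) * bb n ((l0 + 2 * i : ℕ) : ℤ) := by
    intro i
    have h1 := bb_ratio N ((l0 + 2 * i : ℕ) : ℤ)
    rw [← hN] at h1
    have e : ((l0 + 2 * i : ℕ) : ℤ) + 2 = ((l0 + 2 * (i + 1) : ℕ) : ℤ) := by push_cast; ring
    rw [e] at h1
    have hN' : (N : ℝ) + 1 = n := by rw [hN]; push_cast; ring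
    rw [hN', Int.cast_natCast] at h1
    have h2 : (0 : ℝ) < n + ((l0 + 2 * i : ℕ) : ℝ) + 2 := by positivity
    simp only [ht]
    rw [one_sub_div h2.ne', div_mul_eq_mul_div, eq_div_iff h2.ne']
    linear_combination h1
  have hprod : ∀ m : ℕ, bb n ((l0 + 2 * m : ℕ) : ℤ) = bb n l0 * ∏ i ∈ range m, (1 - t i) := by
    intro m
    induction m with
    | zero => simp
    | succ m ih =>
      rw [hstep, ih, prod_range_succ]
      ring
  have ht0 : ∀ i, 0 ≤ t i := fun i => by simp only [ht]; positivity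
  have hti : ∀ i, i < r → (2 * ((l0 + 2 * i : ℕ) : ℝ) + 2) ≤ 2 * L := by
    intro i hi
    have : 2 * (l0 + 2 * i) + 2 ≤ 2 * L := by omega
    exact_mod_cast this
  have htn : ∀ i, t i ≤ (2 * ((l0 + 2 * i : ℕ) : ℝ) + 2) / n := by
    intro i
    simp only [ht]
    apply div_le_div_of_nonneg_left (by positivity) hnpos
    have : (0 : ℝ) ≤ ((l0 + 2 * i : ℕ) : ℝ) := by positivity
    linarith
  have htL : ∀ i, i < r → t i ≤ 2 * L / n := fun i hi =>
    (htn i).trans (div_le_div_of_nonneg_right (hti i hi) hnpos.le)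
  have hthalf : ∀ i, i < r → t i ≤ 1 / 2 := by
    intro i hi
    refine (htL i hi).trans ?_
    rw [div_le_iff₀ hnpos]
    linarith
  have hsum : ∀ m : ℕ, ∑ i ∈ range m, (2 * ((l0 + 2 * i : ℕ) : ℝ) + 2) =
      (((l0 + 2 * m : ℕ) : ℝ) ^ 2 - (l0 : ℝ) ^ 2) / 2 := by
    intro m
    induction m with
    | zero => simp
    | succ m ih =>
      rw [sum_range_succ, ih]
      push_cast
      ring
  have hl01 : (l0 : ℝ) ^ 2 ≤ 1 := by
    have : (l0 : ℝ) ≤ 1 := by exact_mod_cast hl0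
    have h0 : (0 : ℝ) ≤ l0 := by positivity
    nlinarith
  have hsum_up : ∑ i ∈ range r, t i ≤ (L : ℝ) ^ 2 / (2 * n) := by
    refine (sum_le_sum fun i _ => htn i).trans ?_
    rw [← sum_div, hsum, ← hL, div_div, mul_comm (2 : ℝ) (n : ℝ)]
    apply div_le_div_of_nonneg_right _ (by positivity)
    linarith [sq_nonneg (l0 : ℝ)]
  have hsum_lo : ((L : ℝ) ^ 2 - 1) / (2 * (n + L)) ≤ ∑ i ∈ range r, t i := by
    have h1 : ∀ i ∈ range r, (2 * ((l0 + 2 * i : ℕ) : ℝ) + 2) / (n + L) ≤ t i := by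
      intro i hi
      rw [mem_range] at hi
      simp only [ht]
      apply div_le_div_of_nonneg_left (by positivity) (by positivity)
      have : l0 + 2 * i + 2 ≤ L := by omega
      have h2 : ((l0 + 2 * i : ℕ) : ℝ) + 2 ≤ L := by exact_mod_cast this
      linarith
    refine le_trans ?_ (sum_le_sum h1)
    rw [← sum_div, hsum, ← hL, div_div, mul_comm (2 : ℝ)]
    apply div_le_div_of_nonneg_right _ (by positivity)
    linarith
  have hsum_sq : ∑ i ∈ range r, t i ^ 2 ≤ (L : ℝ) ^ 3 / n ^ 2 := by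
    have h1 : ∀ i ∈ range r, t i ^ 2 ≤ 2 * L / n * t i := by
      intro i hi
      rw [mem_range] at hi
      rw [sq]
      exact mul_le_mul_of_nonneg_right (htL i hi) (ht0 i)
    refine (sum_le_sum h1).trans ?_
    rw [← mul_sum]
    calc 2 * (L : ℝ) / n * ∑ i ∈ range r, t i ≤ 2 * L / n * ((L : ℝ) ^ 2 / (2 * n)) :=
          mul_le_mul_of_nonneg_left hsum_up (by positivity)
      _ = (L : ℝ) ^ 3 / n ^ 2 := by field_simp
  rw [hL, hprod r, ← hL]
  constructor
  · apply mul_le_mul_of_nonneg_left _ hb0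
    calc Real.exp (-((L : ℝ) ^ 2 / (2 * n) + (L : ℝ) ^ 3 / n ^ 2))
        ≤ Real.exp (∑ i ∈ range r, -(t i + t i ^ 2)) := by
          apply Real.exp_le_exp.2
          rw [sum_neg_distrib, sum_add_distrib]
          linarith
      _ = ∏ i ∈ range r, Real.exp (-(t i + t i ^ 2)) := Real.exp_sum _ _
      _ ≤ ∏ i ∈ range r, (1 - t i) := by
          apply Finset.prod_le_prod (fun i _ => (Real.exp_pos _).le)
          intro i hi
          exact exp_neg_le (ht0 i) (hthalf i (mem_range.1 hi))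
  · apply mul_le_mul_of_nonneg_left _ hb0
    calc ∏ i ∈ range r, (1 - t i) ≤ ∏ i ∈ range r, Real.exp (-t i) := by
          apply Finset.prod_le_prod
          · intro i hi
            have := hthalf i (mem_range.1 hi)
            linarith
          · intro i _
            exact Real.one_sub_le_exp_neg _
      _ = Real.exp (∑ i ∈ range r, -t i) := (Real.exp_sum _ _).symm
      _ ≤ Real.exp (-(((L : ℝ) ^ 2 - 1) / (2 * (n + L)))) := by
          apply Real.exp_le_exp.2
          rw [sum_neg_distrib]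
          linarith

/-- local limit theorem for the first passage probabilities -/
theorem local_lim {a : ℝ} (_ : 0 < a) (L : ℕ → ℕ)
    (hpar : ∀ᶠ n in atTop, L n % 2 = n % 2)
    (hlim : Tendsto (fun n : ℕ => (L n : ℝ) / Real.sqrt n) atTop (𝓝 a)) :
    Tendsto (fun n : ℕ => (n : ℝ) * qq n (L n)) atTop
      (𝓝 (a * (Real.sqrt (2 / Real.pi) * Real.exp (-(a ^ 2 / 2))))) := by
  have hsq : Tendsto (fun n : ℕ => Real.sqrt (n : ℝ)) atTop atTop :=
    Real.tendsto_sqrt_atTop.comp tendsto_natCast_atTop_atTop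
  have hinv : Tendsto (fun n : ℕ => (Real.sqrt (n : ℝ))⁻¹) atTop (𝓝 0) := hsq.inv_tendsto_atTop
  have hinvn : Tendsto (fun n : ℕ => ((n : ℝ))⁻¹) atTop (𝓝 0) := tendsto_inv_atTop_nhds_zero_nat
  set u : ℕ → ℝ := fun n => (L n : ℝ) / Real.sqrt n with hu
  -- the centre
  have hcen : Tendsto (fun n : ℕ => (n : ℝ) * (bb n 0 ^ 2 + bb n 1 ^ 2)) atTop
      (𝓝 (2 / Real.pi)) := by
    have h1 : Tendsto (fun n : ℕ => 2 / Real.pi * (1 - 2 / ((n : ℝ) + 2))) atTop
        (𝓝 (2 / Real.pi * (1 - 0))) := by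
      apply Tendsto.const_mul
      apply Tendsto.const_sub
      apply Tendsto.div_atTop tendsto_const_nhds
      exact tendsto_natCast_atTop_atTop.atTop_add tendsto_const_nhds
    rw [sub_zero, mul_one] at h1
    refine tendsto_of_tendsto_of_tendsto_of_le_of_le' h1 tendsto_const_nhds ?_ ?_
    · filter_upwards [eventually_ge_atTop 1] with n hn
      have h2 := (center_bounds hn).1
      have hn' : (0 : ℝ) < n := by exact_mod_cast hn
      have h3 := mul_le_mul_of_nonneg_left h2 hn'.le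
      refine le_trans (le_of_eq ?_) h3
      have hpi := Real.pi_pos
      field_simp
      ring
    · filter_upwards [eventually_ge_atTop 1] with n hn
      have h2 := (center_bounds hn).2
      have hn' : (0 : ℝ) < n := by exact_mod_cast hn
      have h3 := mul_le_mul_of_nonneg_left h2 hn'.le
      refine h3.trans (le_of_eq ?_)
      have hpi := Real.pi_pos
      field_simp
  have hcen2 : Tendsto (fun n : ℕ => Real.sqrt ((n : ℝ) * (bb n 0 ^ 2 + bb n 1 ^ 2))) atTop
      (𝓝 (Real.sqrt (2 / Real.pi))) := (Real.continuous_sqrt.tendsto _).comp hcen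
  -- the bounds
  have hlow : Tendsto (fun n : ℕ => u n * (Real.sqrt ((n : ℝ) * (bb n 0 ^ 2 + bb n 1 ^ 2)) *
      Real.exp (-(u n ^ 2 / 2 + u n ^ 3 * (Real.sqrt (n : ℝ))⁻¹)))) atTop
      (𝓝 (a * (Real.sqrt (2 / Real.pi) * Real.exp (-(a ^ 2 / 2 + a ^ 3 * 0))))) := by
    apply hlim.mul
    apply hcen2.mul
    apply (Real.continuous_exp.tendsto _).comp
    apply Tendsto.neg
    exact ((hlim.pow 2).div_const 2).add ((hlim.pow 3).mul hinv)
  have hupp : Tendsto (fun n : ℕ => u n * (Real.sqrt ((n : ℝ) * (bb n 0 ^ 2 + bb n 1 ^ 2)) *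
      Real.exp (-((u n ^ 2 - ((n : ℝ))⁻¹) / (2 * (1 + u n * (Real.sqrt (n : ℝ))⁻¹)))))) atTop
      (𝓝 (a * (Real.sqrt (2 / Real.pi) * Real.exp (-((a ^ 2 - 0) / (2 * (1 + a * 0))))))) := by
    apply hlim.mul
    apply hcen2.mul
    apply (Real.continuous_exp.tendsto _).comp
    apply Tendsto.neg
    apply Tendsto.div
    · exact (hlim.pow 2).sub hinvn
    · exact (tendsto_const_nhds.add (hlim.mul hinv)).const_mul 2
    · norm_num
  rw [mul_zero, add_zero] at hlow
  rw [mul_zero, add_zero, mul_one, sub_zero] at hupp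
  -- eventually `4 L ≤ n`
  have hsmall : ∀ᶠ n : ℕ in atTop, 4 * L n ≤ n := by
    have h1 : ∀ᶠ n : ℕ in atTop, u n ≤ a + 1 := hlim.eventually_le_const (by linarith)
    have h2 : ∀ᶠ n : ℕ in atTop, 4 * (a + 1) ≤ Real.sqrt n := hsq.eventually_ge_atTop _
    filter_upwards [h1, h2, eventually_ge_atTop 1] with n g1 g2 hn
    have hn' : (0 : ℝ) < n := by exact_mod_cast hn
    have hs0 : 0 < Real.sqrt n := Real.sqrt_pos.2 hn'
    have hs2 : Real.sqrt n * Real.sqrt n = n := Real.mul_self_sqrt hn'.le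
    simp only [hu] at g1
    rw [div_le_iff₀ hs0] at g1
    have : 4 * (L n : ℝ) ≤ n := by
      calc 4 * (L n : ℝ) ≤ 4 * ((a + 1) * Real.sqrt n) := by linarith
        _ = (4 * (a + 1)) * Real.sqrt n := by ring
        _ ≤ Real.sqrt n * Real.sqrt n := mul_le_mul_of_nonneg_right g2 hs0.le
        _ = n := hs2
    exact_mod_cast this
  -- the identity
  have hid : ∀ᶠ n : ℕ in atTop, (n : ℝ) * qq n (L n) = u n * (Real.sqrt n * bb n (L n)) := by
    filter_upwards [eventually_ge_atTop 1] with n hn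
    obtain ⟨N, hN⟩ : ∃ N, n = N + 1 := ⟨n - 1, by omega⟩
    have hn' : (0 : ℝ) < n := by exact_mod_cast hn
    have hs0 : 0 < Real.sqrt n := Real.sqrt_pos.2 hn'
    have h1 := qq_eq_bb N (l := (L n : ℤ)) (by omega)
    have hN' : (N : ℝ) + 1 = n := by rw [hN]; push_cast; ring
    rw [← hN, hN'] at h1
    rw [h1]
    simp only [hu]
    push_cast
    field_simp
  have hsqid : ∀ (n : ℕ), Real.sqrt n * bb n ((n % 2 : ℕ) : ℤ) =
      Real.sqrt ((n : ℝ) * (bb n 0 ^ 2 + bb n 1 ^ 2)) := by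
    intro n
    rw [Real.sqrt_mul (by positivity)]
    congr 1
    rcases Nat.mod_two_eq_zero_or_one n with h | h
    · rw [h, bb_parity n 1 (by omega)]
      simp only [Nat.cast_zero, ne_eq, OfNat.ofNat_ne_zero, not_false_eq_true, zero_pow, add_zero]
      rw [Real.sqrt_sq (bb_nonneg _ _)]
    · rw [h, bb_parity n 0 (by omega)]
      simp only [Nat.cast_one, ne_eq, OfNat.ofNat_ne_zero, not_false_eq_true, zero_pow, zero_add]
      rw [Real.sqrt_sq (bb_nonneg _ _)]
  have hL2 : ∀ᶠ n in atTop, n % 2 + 2 * (L n / 2) = L n := by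
    filter_upwards [hpar] with n hn
    omega
  refine tendsto_of_tendsto_of_tendsto_of_le_of_le' hlow hupp ?_ ?_
  · filter_upwards [hid, hsmall, hL2, eventually_ge_atTop 1] with n g1 g2 g3 hn
    have hn' : (0 : ℝ) < n := by exact_mod_cast hn
    have hs0 : 0 < Real.sqrt n := Real.sqrt_pos.2 hn'
    have hs2 : Real.sqrt n * Real.sqrt n = n := Real.mul_self_sqrt hn'.le
    have h1 := (bb_prod hn (n % 2) (L n / 2) (by omega) (by omega)).1
    rw [g3] at h1
    rw [g1, ← hsqid, mul_assoc (Real.sqrt (n : ℝ))]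
    apply mul_le_mul_of_nonneg_left _ (by simp only [hu]; positivity)
    apply mul_le_mul_of_nonneg_left _ hs0.le
    refine le_trans (le_of_eq ?_) h1
    congr 3
    have e1 : u n ^ 2 / 2 = (L n : ℝ) ^ 2 / (2 * n) := by
      simp only [hu]
      rw [div_pow, Real.sq_sqrt hn'.le, div_div, mul_comm (n : ℝ) 2]
    have e2 : u n ^ 3 * (Real.sqrt (n : ℝ))⁻¹ = (L n : ℝ) ^ 3 / n ^ 2 := by
      simp only [hu]
      have : (n : ℝ) ^ 2 = Real.sqrt n ^ 3 * Real.sqrt n := by
        nth_rewrite 1 [← hs2]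
        ring
      rw [this, div_pow]
      field_simp
    rw [e1, e2]
  · filter_upwards [hid, hsmall, hL2, eventually_ge_atTop 1] with n g1 g2 g3 hn
    have hn' : (0 : ℝ) < n := by exact_mod_cast hn
    have hs0 : 0 < Real.sqrt n := Real.sqrt_pos.2 hn'
    have hs2 : Real.sqrt n * Real.sqrt n = n := Real.mul_self_sqrt hn'.le
    have h1 := (bb_prod hn (n % 2) (L n / 2) (by omega) (by omega)).2
    rw [g3] at h1
    rw [g1, ← hsqid, mul_assoc (Real.sqrt (n : ℝ))]
    apply mul_le_mul_of_nonneg_left _ (by simp only [hu]; positivity)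
    apply mul_le_mul_of_nonneg_left _ hs0.le
    refine h1.trans (le_of_eq ?_)
    congr 3
    have e1 : u n ^ 2 - ((n : ℝ))⁻¹ = ((L n : ℝ) ^ 2 - 1) / n := by
      simp only [hu]
      rw [div_pow, Real.sq_sqrt hn'.le]
      field_simp
    have e2 : 1 + u n * (Real.sqrt (n : ℝ))⁻¹ = (n + (L n : ℝ)) / n := by
      simp only [hu]
      rw [← div_eq_mul_inv, div_div, hs2]
      field_simp
    rw [e1, e2]
    have h3 : (0 : ℝ) < n + L n := by positivity
    field_simp

end Pool.Agent.Q161.Wa
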