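import Pool.Agent.Q161.WaD

set_option autoImplicit false
open scoped BigOperators

/-!
# The decomposition of the expected number of hits
-/

namespace Pool.Agent.Q161.Wa

open Finset

open Classical in
/-- indicator -/
noncomputable def ind (P : Prop) : ℝ := if P then 1 else 0

lemma ind_true {P : Prop} (h : P) : ind P = 1 := by unfold ind; rw [if_pos h]
lemma ind_false {P : Prop} (h : ¬ P) : ind P = 0 := by unfold ind; rw [if_neg h]
lemma ind_nonneg (P : Prop) : 0 ≤ ind P := by unfold ind; split_ifs <;> norm_num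
lemma ind_le_one (P : Prop) : ind P ≤ 1 := by unfold ind; split_ifs <;> norm_num
lemma ind_congr {P Q : Prop} (h : P ↔ Q) : ind P = ind Q := by
  by_cases hP : P
  · rw [ind_true hP, ind_true (h.1 hP)]
  · rw [ind_false hP, ind_false (fun hQ => hP (h.2 hQ))]
lemma ind_mono {P Q : Prop} (h : P → Q) : ind P ≤ ind Q := by
  by_cases hP : P
  · rw [ind_true hP, ind_true (h hP)]
  · rw [ind_false hP]; exact ind_nonneg Q
lemma ind_and (P Q : Prop) : ind (P ∧ Q) = ind P * ind Q := by
  by_cases hP : P
  · by_cases hQ : Q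
    · rw [ind_true hP, ind_true hQ, ind_true ⟨hP, hQ⟩, mul_one]
    · rw [ind_false hQ, ind_false (fun h => hQ h.2), mul_zero]
  · rw [ind_false hP, ind_false (fun h => hP h.1), zero_mul]

lemma qq_def (j : ℕ) (l : ℤ) : qq j l = av j (fun x => ind (FPt l j x)) := rfl

/-- the pattern occurs at time `m` -/
def Hit (n : ℕ) (L : ℤ) (m : ℕ) (x : ℕ → Bool) : Prop := n ≤ m ∧ FPt L n (sh (m - n) x)

/-- the pattern has not occurred up to time `t` -/
def NoHit (n : ℕ) (L : ℤ) (t : ℕ) (x : ℕ → Bool) : Prop := ∀ m, m ≤ t → ¬ Hit n L m x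

/-- the pattern occurs for the first time at time `t` -/
def First (n : ℕ) (L : ℤ) (t : ℕ) (x : ℕ → Bool) : Prop :=
  Hit n L t x ∧ ∀ m, m < t → ¬ Hit n L m x

lemma FPt_congr {l : ℤ} {j : ℕ} {x y : ℕ → Bool} (h : ∀ i, i < j → x i = y i) :
    FPt l j x ↔ FPt l j y := by
  unfold FPt
  rw [S_congr h]
  have : ∀ i, i < j → S x i = S y i := fun i hi => S_congr fun k hk => h k (by omega)
  constructor
  · rintro ⟨h1, h2⟩
    exact ⟨fun i hi => by rw [← this i hi]; exact h1 i hi, h2⟩
  · rintro ⟨h1, h2⟩
    exact ⟨fun i hi => by rw [this i hi]; exact h1 i hi, h2⟩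

lemma Hit_congr {n : ℕ} {L : ℤ} {m : ℕ} {x y : ℕ → Bool} (h : ∀ i, i < m → x i = y i) :
    Hit n L m x ↔ Hit n L m y := by
  unfold Hit
  constructor
  · rintro ⟨h1, h2⟩
    refine ⟨h1, (FPt_congr ?_).1 h2⟩
    intro i hi
    exact h _ (by omega)
  · rintro ⟨h1, h2⟩
    refine ⟨h1, (FPt_congr ?_).2 h2⟩
    intro i hi
    exact h _ (by omega)

lemma NoHit_congr {n : ℕ} {L : ℤ} {t : ℕ} {x y : ℕ → Bool} (h : ∀ i, i < t → x i = y i) :
    NoHit n L t x ↔ NoHit n L t y := by
  unfold NoHit
  constructor
  · intro h1 m hm h2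
    exact h1 m hm ((Hit_congr fun i hi => h i (by omega)).2 h2)
  · intro h1 m hm h2
    exact h1 m hm ((Hit_congr fun i hi => h i (by omega)).1 h2)

lemma First_congr {n : ℕ} {L : ℤ} {t : ℕ} {x y : ℕ → Bool} (h : ∀ i, i < t → x i = y i) :
    First n L t x ↔ First n L t y := by
  unfold First
  rw [Hit_congr h]
  constructor
  · rintro ⟨h0, h1⟩
    refine ⟨h0, fun m hm h2 => ?_⟩
    exact h1 m hm ((Hit_congr fun i hi => h i (by omega)).2 h2)
  · rintro ⟨h0, h1⟩
    refine ⟨h0, fun m hm h2 => ?_⟩
    exact h1 m hm ((Hit_congr fun i hi => h i (by omega)).1 h2)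

lemma dep_hit (n : ℕ) (L : ℤ) (m : ℕ) : Dep m (fun x => ind (Hit n L m x)) :=
  fun _ _ h => ind_congr (Hit_congr h)

lemma dep_nohit (n : ℕ) (L : ℤ) (t : ℕ) : Dep t (fun x => ind (NoHit n L t x)) :=
  fun _ _ h => ind_congr (NoHit_congr h)

lemma dep_first (n : ℕ) (L : ℤ) (t : ℕ) : Dep t (fun x => ind (First n L t x)) :=
  fun _ _ h => ind_congr (First_congr h)

lemma sh_app_add (a b : ℕ) (x y : ℕ → Bool) : sh (a + b) (app a x y) = sh b y := by
  funext i
  simp only [sh, app]
  rw [if_neg (by omega)]
  congr 1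
  omega

lemma app_agree (a : ℕ) (x y : ℕ → Bool) : ∀ i, i < a → app a x y i = x i := by
  intro i hi
  simp only [app]
  rw [if_pos hi]

lemma av_hit (n : ℕ) (L : ℤ) {m : ℕ} (hm : n ≤ m) : av m (fun x => ind (Hit n L m x)) = qq n L := by
  obtain ⟨k, rfl⟩ : ∃ k, m = k + n := ⟨m - n, by omega⟩
  rw [av_split]
  have h : ∀ x, av n (fun y => ind (Hit n L (k + n) (app k x y))) = qq n L := by
    intro x
    rw [qq_def]
    congr 1
    funext y
    apply ind_congr
    unfold Hit
    rw [Nat.add_sub_cancel, sh_app]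
    exact ⟨fun h => h.2, fun h => ⟨by omega, h⟩⟩
  rw [show (fun x => av n (fun y => ind (Hit n L (k + n) (app k x y)))) = fun _ => qq n L from
    funext h, av_const]

lemma not_hit_lt {n : ℕ} {L : ℤ} {m : ℕ} (hm : m < n) (x : ℕ → Bool) : ¬ Hit n L m x :=
  fun h => absurd h.1 (by omega)

lemma av_hit_lt {n : ℕ} {L : ℤ} {m : ℕ} (hm : m < n) : av m (fun x => ind (Hit n L m x)) = 0 := by
  have : (fun x => ind (Hit n L m x)) = fun _ => 0 := funext fun x => ind_false (not_hit_lt hm x)
  rw [this, av_const]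

/-- `P(T > t)` -/
noncomputable def AA (n : ℕ) (L : ℤ) (t : ℕ) : ℝ := av t (fun x => ind (NoHit n L t x))

/-- `P(T = t)` -/
noncomputable def aa (n : ℕ) (L : ℤ) (t : ℕ) : ℝ := av t (fun x => ind (First n L t x))

lemma AA_nonneg (n : ℕ) (L : ℤ) (t : ℕ) : 0 ≤ AA n L t := av_nonneg _ fun _ => ind_nonneg _

lemma aa_nonneg (n : ℕ) (L : ℤ) (t : ℕ) : 0 ≤ aa n L t := av_nonneg _ fun _ => ind_nonneg _

lemma AA_zero (n : ℕ) (L : ℤ) : AA n L 0 + aa n L 0 = 1 := by
  unfold AA aa
  rw [← av_add]
  have : (fun x => ind (NoHit n L 0 x) + ind (First n L 0 x)) = fun _ => 1 := by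
    funext x
    by_cases h : Hit n L 0 x
    · rw [ind_false (fun h' => h' 0 le_rfl h), ind_true ⟨h, fun m hm => absurd hm (by omega)⟩,
        zero_add]
    · rw [ind_true (show NoHit n L 0 x from fun m hm => by
        have : m = 0 := by omega
        rw [this]; exact h), ind_false (fun h' => h h'.1), add_zero]
  rw [this, av_const]

lemma AA_succ (n : ℕ) (L : ℤ) (t : ℕ) : AA n L t = AA n L (t + 1) + aa n L (t + 1) := by
  unfold AA aa
  rw [← av_add, ← av_dep (Nat.le_succ t) (dep_nohit n L t)]
  congr 1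
  funext x
  by_cases h0 : NoHit n L t x
  · rw [ind_true h0]
    by_cases h : Hit n L (t + 1) x
    · rw [ind_false (fun h' => h' (t + 1) le_rfl h),
        ind_true ⟨h, fun m hm => h0 m (by omega)⟩, zero_add]
    · rw [ind_true (show NoHit n L (t + 1) x from fun m hm => by
        rcases Nat.lt_or_ge m (t + 1) with g | g
        · exact h0 m (by omega)
        · have : m = t + 1 := by omega
          rw [this]; exact h), ind_false (fun h' => h h'.1), add_zero]
  · rw [ind_false h0, ind_false (fun h' => h0 fun m hm => h' m (by omega)),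
      ind_false (fun h' => h0 fun m hm => h'.2 m (by omega)), add_zero]

lemma sum_aa (n : ℕ) (L : ℤ) (s : ℕ) :
    ∑ t ∈ range (s + 1), aa n L t = 1 - AA n L s := by
  induction s with
  | zero =>
    have := AA_zero n L
    simp only [zero_add, sum_range_one]
    linarith
  | succ s ih =>
    rw [sum_range_succ, ih]
    have := AA_succ n L s
    linarith

/-- a hit has a unique first hit before it -/
lemma ind_hit_eq (n : ℕ) (L : ℤ) (m : ℕ) (x : ℕ → Bool) :
    ind (Hit n L m x) = ∑ t ∈ range (m + 1), ind (First n L t x) * ind (Hit n L m x) := by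
  classical
  by_cases h : Hit n L m x
  · rw [ind_true h]
    simp only [mul_one]
    have hex : ∃ t, Hit n L t x := ⟨m, h⟩
    have h1 : First n L (Nat.find hex) x := ⟨Nat.find_spec hex, fun m hm => Nat.find_min hex hm⟩
    have h2 : Nat.find hex ≤ m := Nat.find_min' hex h
    rw [sum_eq_single_of_mem (Nat.find hex) (mem_range.2 (by omega)), ind_true h1]
    intro t _ ht
    apply ind_false
    intro h3
    apply ht
    rcases lt_trichotomy t (Nat.find hex) with g | g | g
    · exact absurd h3.1 (h1.2 t g)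
    · exact g
    · exact absurd h1.1 (h3.2 _ g)
  · rw [ind_false h]
    simp

/-- the expected number of hits `j` steps after the first one -/
noncomputable def cc (n : ℕ) (L : ℤ) (t j : ℕ) : ℝ :=
  av (t + j) (fun x => ind (First n L t x) * ind (Hit n L (t + j) x))

lemma cc_nonneg (n : ℕ) (L : ℤ) (t j : ℕ) : 0 ≤ cc n L t j :=
  av_nonneg _ fun _ => mul_nonneg (ind_nonneg _) (ind_nonneg _)

lemma sum_hits (n : ℕ) (L : ℤ) (M : ℕ) : ∑ m ∈ range M, av m (fun x => ind (Hit n L m x)) =
    ∑ t ∈ range M, ∑ j ∈ range (M - t), cc n L t j := by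
  rw [← sum_range_diag_flip M (fun t j => cc n L t j)]
  apply sum_congr rfl
  intro m _
  have h1 : (fun x => ind (Hit n L m x)) = fun x => ∑ t ∈ range (m + 1),
      ind (First n L t x) * ind (Hit n L m x) := funext fun x => ind_hit_eq n L m x
  rw [h1, av_sum]
  apply sum_congr rfl
  intro t ht
  rw [mem_range] at ht
  unfold cc
  have : t + (m - t) = m := by omega
  rw [this]

lemma sum_hits' (n : ℕ) (L : ℤ) (K : ℕ) :
    ∑ m ∈ range (K + n + 1), av m (fun x => ind (Hit n L m x)) = ((K : ℝ) + 1) * qq n L := by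
  have h1 : K + n + 1 = n + (K + 1) := by ring
  rw [h1, sum_range_add, sum_eq_zero (fun m hm => av_hit_lt (mem_range.1 hm)), zero_add,
    sum_congr rfl fun m _ => av_hit n L (show n ≤ n + m by omega), sum_const, card_range,
    nsmul_eq_mul]
  push_cast
  ring

lemma cc_zero (n : ℕ) (L : ℤ) (t : ℕ) : cc n L t 0 = aa n L t := by
  unfold cc aa
  rw [add_zero]
  congr 1
  funext x
  rw [← ind_and]
  apply ind_congr
  exact ⟨fun h => h.1, fun h => ⟨h, h.1⟩⟩

lemma cc_far (n : ℕ) (L : ℤ) (t : ℕ) {j : ℕ} (hj : n ≤ j) : cc n L t j = aa n L t * qq n L := by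
  unfold cc
  rw [av_split]
  have h : ∀ x, av j (fun y => ind (First n L t (app t x y)) * ind (Hit n L (t + j) (app t x y))) =
      qq n L * ind (First n L t x) := by
    intro x
    have h1 : (fun y => ind (First n L t (app t x y)) * ind (Hit n L (t + j) (app t x y))) =
        fun y => ind (First n L t x) * ind (Hit n L j y) := by
      funext y
      rw [ind_congr (First_congr (app_agree t x y))]
      congr 1
      apply ind_congr
      unfold Hit
      have : t + j - n = t + (j - n) := by omega
      rw [this, sh_app_add]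
      constructor
      · rintro ⟨_, h2⟩; exact ⟨hj, h2⟩
      · rintro ⟨_, h2⟩; exact ⟨by omega, h2⟩
    rw [h1, av_mul, av_hit n L hj, mul_comm]
  rw [show (fun x => av j (fun y => ind (First n L t (app t x y)) *
    ind (Hit n L (t + j) (app t x y)))) = fun x => qq n L * ind (First n L t x) from funext h,
    av_mul, mul_comm]
  rfl

/-- the geometry of two overlapping hits -/
lemma overlap {n : ℕ} {L : ℤ} {j : ℕ} (hj0 : 1 ≤ j) (hjn : j < n) (w y : ℕ → Bool)
    (hw : FPt L n w) : FPt L n (sh j (app n w y)) ↔ FPt (-S w j) j y := by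
  obtain ⟨hw1, hw2⟩ := hw
  have e1 : ∀ i, i < n - j → S (sh j (app n w y)) i = S w (j + i) - S w j := by
    intro i hi
    rw [S_sh, S_app_le (by omega), S_app_le (by omega)]
  have e2 : ∀ i, S (sh j (app n w y)) (n - j + i) = -L + S y i - S w j := by
    intro i
    rw [S_sh]
    have : j + (n - j + i) = n + i := by omega
    rw [this, S_app_add, S_app_le (by omega), hw2]
  unfold FPt
  constructor
  · rintro ⟨h1, h2⟩
    constructor
    · intro i hi
      have := h1 (n - j + i) (by omega)
      rw [e2] at this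
      omega
    · have e4 := e2 j
      have e5 : n - j + j = n := by omega
      rw [e5] at e4
      rw [e4] at h2
      omega
  · rintro ⟨h1, h2⟩
    have h0 : S w j < 0 := by
      have := h1 0 (by omega)
      rw [S_zero] at this
      omega
    constructor
    · intro i hi
      rcases Nat.lt_or_ge i (n - j) with g | g
      · rw [e1 i g]
        have := hw1 (j + i) (by omega)
        omega
      · have e3 : i = n - j + (i - (n - j)) := by omega
        rw [e3, e2]
        have := h1 (i - (n - j)) (by omega)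
        omega
    · have e4 := e2 j
      have e5 : n - j + j = n := by omega
      rw [e5] at e4
      rw [e4]
      omega

lemma app_sh {n t : ℕ} (hnt : n ≤ t) (x y : ℕ → Bool) :
    sh (t - n) (app t x y) = app n (sh (t - n) x) y := by
  funext i
  simp only [sh, app]
  by_cases h : i < n
  · rw [if_pos (by omega), if_pos h]
  · rw [if_neg (by omega), if_neg h]
    congr 1
    omega

lemma sh_sh (a b : ℕ) (x : ℕ → Bool) : sh a (sh b x) = sh (b + a) x := by
  funext i
  simp only [sh]
  congr 1
  ring

lemma cc_near {n : ℕ} {L : ℤ} {t j : ℕ} (hj0 : 1 ≤ j) (hjn : j < n) :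
    cc n L t j = av t (fun x => ind (First n L t x) * qq j (-S (sh (t - n) x) j)) := by
  unfold cc
  rw [av_split]
  congr 1
  funext x
  by_cases h : First n L t x
  · have hnt : n ≤ t := h.1.1
    have h1 : (fun y => ind (First n L t (app t x y)) * ind (Hit n L (t + j) (app t x y))) =
        fun y => ind (First n L t x) * ind (FPt (-S (sh (t - n) x) j) j y) := by
      funext y
      rw [ind_congr (First_congr (app_agree t x y))]
      congr 1
      apply ind_congr
      rw [← overlap hj0 hjn (sh (t - n) x) y h.1.2]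
      unfold Hit
      have e : sh (t + j - n) (app t x y) = sh j (app n (sh (t - n) x) y) := by
        rw [← app_sh hnt, sh_sh]
        congr 1
        omega
      rw [e]
      exact ⟨fun h2 => h2.2, fun h2 => ⟨by omega, h2⟩⟩
    rw [h1, av_mul]
    rfl
  · have h1 : (fun y => ind (First n L t (app t x y)) * ind (Hit n L (t + j) (app t x y))) =
        fun _ => 0 := by
      funext y
      rw [ind_congr (First_congr (app_agree t x y)), ind_false h, zero_mul]
    rw [h1, av_const, ind_false h, zero_mul]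

/-- the contribution of the overlapping hits -/
noncomputable def HH (n : ℕ) (L : ℤ) (t : ℕ) : ℝ :=
  av t (fun x => ind (First n L t x) * (1 + ff (n - 1) (sh (t - n) x)))

lemma HH_nonneg (n : ℕ) (L : ℤ) (t : ℕ) : 0 ≤ HH n L t :=
  av_nonneg _ fun _ => mul_nonneg (ind_nonneg _) (by
    have := ff_nonneg (n - 1)
    linarith [this (sh (t - n) ‹ℕ → Bool›)])

lemma sum_near {n : ℕ} {L : ℤ} (hn : 1 ≤ n) (t : ℕ) :
    ∑ j ∈ range n, cc n L t j = HH n L t := by
  obtain ⟨N, rfl⟩ : ∃ N, n = N + 1 := ⟨n - 1, by omega⟩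
  rw [sum_range_succ', cc_zero]
  have h1 : ∀ j ∈ range N, cc (N + 1) L t (j + 1) =
      av t (fun x => ind (First (N + 1) L t x) * qq (j + 1) (-S (sh (t - (N + 1)) x) (j + 1))) :=
    fun j hj => cc_near (by omega) (by rw [mem_range] at hj; omega)
  rw [sum_congr rfl h1, ← av_sum]
  unfold aa HH
  rw [← av_add]
  congr 1
  funext x
  rw [← mul_sum]
  unfold ff
  rw [Nat.add_sub_cancel]
  ring

/-- the weight of the far hits -/
lemma sum_weights (n : ℕ) (L : ℤ) (K : ℕ) :
    ∑ t ∈ range (K + 1), aa n L t * ((K + 1 - t : ℕ) : ℝ) =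
      ∑ s ∈ range (K + 1), (1 - AA n L s) := by
  have h1 := sum_range_diag_flip (K + 1) (fun t (_ : ℕ) => aa n L t)
  simp only [sum_const, card_range, nsmul_eq_mul] at h1
  rw [sum_congr rfl fun s _ => (sum_aa n L s).symm, h1]
  exact sum_congr rfl fun t _ => mul_comm _ _

/-- upper bound for the expected waiting time -/
theorem upper {n : ℕ} {L : ℤ} (hn : 1 ≤ n) (K : ℕ) :
    qq n L * ∑ s ∈ range (K + 1), AA n L s ≤ ∑ t ∈ range (K + n + 1), HH n L t := by
  have h1 := sum_hits' n L K
  rw [sum_hits] at h1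
  have h2 : ∀ t ∈ range (K + n + 1), ∑ j ∈ range (K + n + 1 - t), cc n L t j ≤
      HH n L t + aa n L t * ((K + 1 - t : ℕ) : ℝ) * qq n L := by
    intro t _
    rw [← sum_near hn]
    rcases Nat.lt_or_ge (K + n + 1 - t) n with g | g
    · have h3 : ∑ j ∈ range (K + n + 1 - t), cc n L t j ≤ ∑ j ∈ range n, cc n L t j :=
        sum_le_sum_of_subset_of_nonneg (range_subset_range.2 g.le) fun j _ _ => cc_nonneg n L t j
      have h4 : 0 ≤ aa n L t * ((K + 1 - t : ℕ) : ℝ) * qq n L :=
        mul_nonneg (mul_nonneg (aa_nonneg _ _ _) (Nat.cast_nonneg _)) (qq_nonneg _ _)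
      linarith
    · obtain ⟨r, hr⟩ : ∃ r, K + n + 1 - t = n + r := ⟨K + n + 1 - t - n, by omega⟩
      rw [hr, sum_range_add, sum_congr rfl fun j _ => cc_far n L t (show n ≤ n + j by omega),
        sum_const, card_range, nsmul_eq_mul]
      have h5 : r ≤ K + 1 - t := by omega
      have h6 : (r : ℝ) ≤ ((K + 1 - t : ℕ) : ℝ) := by exact_mod_cast h5
      have h7 : 0 ≤ aa n L t * qq n L := mul_nonneg (aa_nonneg _ _ _) (qq_nonneg _ _)
      nlinarith
  have h3 := sum_le_sum h2
  rw [h1, sum_add_distrib, ← sum_mul] at h3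
  have h4 : ∑ t ∈ range (K + n + 1), aa n L t * ((K + 1 - t : ℕ) : ℝ) =
      ∑ t ∈ range (K + 1), aa n L t * ((K + 1 - t : ℕ) : ℝ) := by
    have e : K + n + 1 = (K + 1) + n := by ring
    rw [e, sum_range_add]
    rw [sum_eq_zero (s := range n) (fun t _ => by
      have : K + 1 - (K + 1 + t) = 0 := by omega
      rw [this, Nat.cast_zero, mul_zero]), add_zero]
  rw [h4, sum_weights n L, sum_sub_distrib, sum_const, card_range, nsmul_eq_mul] at h3
  push_cast at h3
  nlinarith

/-- lower bound for the expected waiting time -/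
theorem lower {n : ℕ} {L : ℤ} (hn : 1 ≤ n) (K : ℕ) :
    ∑ t ∈ range (K + 1), HH n L t ≤ qq n L * ∑ s ∈ range (K + 1), AA n L s := by
  have h1 := sum_hits' n L K
  rw [sum_hits] at h1
  have h2 : ∀ t ∈ range (K + 1), ∑ j ∈ range (K + n + 1 - t), cc n L t j =
      HH n L t + aa n L t * ((K + 1 - t : ℕ) : ℝ) * qq n L := by
    intro t ht
    rw [mem_range] at ht
    rw [← sum_near hn]
    have hr : K + n + 1 - t = n + (K + 1 - t) := by omega
    rw [hr, sum_range_add, sum_congr rfl fun j _ => cc_far n L t (show n ≤ n + j by omega),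
      sum_const, card_range, nsmul_eq_mul]
    ring
  have h3 : ∑ t ∈ range (K + 1), ∑ j ∈ range (K + n + 1 - t), cc n L t j ≤
      ∑ t ∈ range (K + n + 1), ∑ j ∈ range (K + n + 1 - t), cc n L t j :=
    sum_le_sum_of_subset_of_nonneg (range_subset_range.2 (by omega)) fun t _ _ =>
      sum_nonneg fun j _ => cc_nonneg n L t j
  rw [h1, sum_congr rfl h2, sum_add_distrib, ← sum_mul, sum_weights n L, sum_sub_distrib,
    sum_const, card_range, nsmul_eq_mul] at h3
  push_cast at h3
  nlinarith

/-- the first pattern is rarely in a small set -/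
theorem rare {n M : ℕ} {L : ℤ} (hM : M < n) (B : (ℕ → Bool) → Prop)
    (hB : ∀ x y, (∀ i, i < M → x i = y i) → (B x ↔ B y)) (K : ℕ) :
    ∑ t ∈ range K, av t (fun x => ind (First n L t x) * ind (B (sh (t - n) x))) ≤
      (∑ s ∈ range K, AA n L s) * (av M (fun x => ind (B x)) / ((n - M : ℕ) : ℝ)) := by
  have hpos : (0 : ℝ) < ((n - M : ℕ) : ℝ) := by
    have : 0 < n - M := by omega
    exact_mod_cast this
  -- the pattern probability
  have h1 : av n (fun y => ind (FPt L n y) * ind (B y)) ≤
      av M (fun x => ind (B x)) / ((n - M : ℕ) : ℝ) := by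
    have e : n = M + (n - M) := by omega
    have h2 : av n (fun y => ind (FPt L n y) * ind (B y)) =
        av (M + (n - M)) (fun y => ind (FPt L n y) * ind (B y)) := by rw [← e]
    rw [h2, av_split]
    have h3 : ∀ x, av (n - M) (fun y => ind (FPt L n (app M x y)) * ind (B (app M x y))) ≤
        (1 / ((n - M : ℕ) : ℝ)) * ind (B x) := by
      intro x
      have h4 : ∀ y, ind (FPt L n (app M x y)) * ind (B (app M x y)) ≤
          ind (B x) * ind (FPt (L + S x M) (n - M) y) := by
        intro y
        rw [ind_congr (hB _ _ (app_agree M x y)), mul_comm]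
        apply mul_le_mul_of_nonneg_left _ (ind_nonneg _)
        apply ind_mono
        rintro ⟨g1, g2⟩
        constructor
        · intro i hi
          have := g1 (M + i) (by omega)
          rw [S_app_add] at this
          omega
        · have e2 : n = M + (n - M) := e
          rw [e2, S_app_add] at g2
          have e3 : M + (n - M) - M = n - M := by omega
          omega
      refine (av_mono _ h4).trans ?_
      rw [av_mul, ← qq_def, mul_comm]
      exact mul_le_mul_of_nonneg_right (qq_le (by omega) _) (ind_nonneg _)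
    refine (av_mono _ h3).trans ?_
    rw [av_mul]
    apply le_of_eq
    ring
  set P := av M (fun x => ind (B x)) / ((n - M : ℕ) : ℝ) with hP
  have hP0 : 0 ≤ P := div_nonneg (av_nonneg _ fun _ => ind_nonneg _) hpos.le
  have h2 : ∀ t, n ≤ t → av t (fun x => ind (First n L t x) * ind (B (sh (t - n) x))) ≤
      AA n L (t - n) * P := by
    intro t ht
    obtain ⟨k, rfl⟩ : ∃ k, t = k + n := ⟨t - n, by omega⟩
    rw [Nat.add_sub_cancel]
    have h3 : ∀ x, ind (First n L (k + n) x) * ind (B (sh k x)) ≤
        ind (NoHit n L k x) * (ind (FPt L n (sh k x)) * ind (B (sh k x))) := by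
      intro x
      rw [← mul_assoc]
      apply mul_le_mul_of_nonneg_right _ (ind_nonneg _)
      rw [← ind_and]
      apply ind_mono
      rintro ⟨⟨g1, g2⟩, g3⟩
      rw [Nat.add_sub_cancel] at g2
      refine ⟨fun m hm => g3 m ?_, g2⟩
      have : 0 < n := by omega
      omega
    refine (av_mono _ h3).trans ?_
    rw [av_split]
    have h4 : (fun x => av n (fun y => ind (NoHit n L k (app k x y)) *
        (ind (FPt L n (sh k (app k x y))) * ind (B (sh k (app k x y)))))) =
        fun x => av n (fun y => ind (FPt L n y) * ind (B y)) * ind (NoHit n L k x) := by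
      funext x
      have h5 : (fun y => ind (NoHit n L k (app k x y)) *
          (ind (FPt L n (sh k (app k x y))) * ind (B (sh k (app k x y))))) =
          fun y => ind (NoHit n L k x) * (ind (FPt L n y) * ind (B y)) := by
        funext y
        rw [ind_congr (NoHit_congr (app_agree k x y)), sh_app]
      rw [h5, av_mul, mul_comm]
    rw [h4, av_mul, mul_comm]
    exact mul_le_mul_of_nonneg_left h1 (AA_nonneg n L k)
  have h3 : ∀ t, t < n → av t (fun x => ind (First n L t x) * ind (B (sh (t - n) x))) = 0 := by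
    intro t ht
    have : (fun x => ind (First n L t x) * ind (B (sh (t - n) x))) = fun _ => 0 := by
      funext x
      rw [ind_false (fun h => not_hit_lt ht x h.1), zero_mul]
    rw [this, av_const]
  rcases Nat.lt_or_ge K n with g | g
  · rw [sum_eq_zero (fun t ht => h3 t (by rw [mem_range] at ht; omega))]
    exact mul_nonneg (sum_nonneg fun s _ => AA_nonneg n L s) hP0
  · obtain ⟨r, rfl⟩ : ∃ r, K = n + r := ⟨K - n, by omega⟩
    rw [sum_range_add, sum_eq_zero (s := range n) (fun t ht => h3 t (mem_range.1 ht)), zero_add,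
      sum_mul]
    calc ∑ x ∈ range r, av (n + x) (fun x_1 => ind (First n L (n + x) x_1) *
          ind (B (sh (n + x - n) x_1))) ≤ ∑ x ∈ range r, AA n L x * P := by
          apply sum_le_sum
          intro s _
          have := h2 (n + s) (by omega)
          have e : n + s - n = s := by omega
          rw [e] at this ⊢
          exact this
      _ ≤ ∑ s ∈ range (n + r), AA n L s * P :=
          sum_le_sum_of_subset_of_nonneg (range_subset_range.2 (by omega)) fun s _ _ =>
            mul_nonneg (AA_nonneg n L s) hP0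

end Pool.Agent.Q161.Wa
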