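import Pool.Agent.Q161.WaE

set_option autoImplicit false
open scoped BigOperators

/-!
# The asymptotics of the expected waiting time
-/

namespace Pool.Agent.Q161.Wa

open Finset Filter Topology

lemma ff_congr {M : ℕ} {x y : ℕ → Bool} (h : ∀ i, i < M → x i = y i) : ff M x = ff M y := by
  unfold ff
  apply sum_congr rfl
  intro j hj
  rw [mem_range] at hj
  rw [S_congr (fun i hi => h i (by omega))]

lemma qq_le' (j : ℕ) (l : ℤ) : qq (j + 1) l ≤ 1 / ((j : ℝ) + 1) := by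
  have := qq_le (show 1 ≤ j + 1 by omega) l
  push_cast at this
  exact this

lemma ff_le (M : ℕ) (x : ℕ → Bool) : ff M x ≤ 1 + Real.log M := by
  refine le_trans ?_ (sum_inv_le M)
  exact sum_le_sum fun j _ => qq_le' j _

lemma ff_near {n : ℕ} (hn : 2 ≤ n) (x : ℕ → Bool) :
    ff (n / 2) x ≤ ff (n - 1) x ∧ ff (n - 1) x ≤ ff (n / 2) x + 1 := by
  obtain ⟨r, hr⟩ : ∃ r, n - 1 = n / 2 + r := ⟨n - 1 - n / 2, by omega⟩
  have hr2 : r ≤ n / 2 := by omega
  have h : ff (n - 1) x = ff (n / 2) x +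
      ∑ i ∈ range r, qq (n / 2 + i + 1) (-S x (n / 2 + i + 1)) := by
    unfold ff
    rw [hr, sum_range_add]
  constructor
  · rw [h]
    have : 0 ≤ ∑ i ∈ range r, qq (n / 2 + i + 1) (-S x (n / 2 + i + 1)) :=
      sum_nonneg fun _ _ => qq_nonneg _ _
    linarith
  · rw [h]
    have h1 : ∀ i ∈ range r, qq (n / 2 + i + 1) (-S x (n / 2 + i + 1)) ≤
        1 / (((n / 2 : ℕ) : ℝ) + 1) := by
      intro i _
      refine (qq_le' _ _).trans ?_
      apply one_div_le_one_div_of_le (by positivity)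
      push_cast
      have : (0 : ℝ) ≤ i := Nat.cast_nonneg i
      linarith
    have h2 := sum_le_sum h1
    rw [sum_const, card_range, nsmul_eq_mul] at h2
    have h3 : (r : ℝ) * (1 / (((n / 2 : ℕ) : ℝ) + 1)) ≤ 1 := by
      rw [mul_one_div, div_le_one (by positivity)]
      have : (r : ℝ) ≤ ((n / 2 : ℕ) : ℝ) := by exact_mod_cast hr2
      linarith
    linarith

/-- the bad set -/
def Bad (n : ℕ) (δ : ℝ) (x : ℕ → Bool) : Prop := δ ≤ |ff (n / 2) x - av (n / 2) (ff (n / 2))|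

/-- its probability -/
noncomputable def pB (n : ℕ) (δ : ℝ) : ℝ := av (n / 2) (fun x => ind (Bad n δ x))

lemma pB_nonneg (n : ℕ) (δ : ℝ) : 0 ≤ pB n δ := av_nonneg _ fun _ => ind_nonneg _

lemma pB_le (n : ℕ) (δ s : ℝ) (hs : 0 ≤ s) :
    pB n δ ≤ 2 * Real.exp (-s * δ + 800 * s ^ 2 * (1 + Real.log ((n / 2 : ℕ) : ℝ))) :=
  conc (n / 2) δ s hs

lemma Bad_congr (n : ℕ) (δ : ℝ) (x y : ℕ → Bool) (h : ∀ i, i < n / 2 → x i = y i) :
    Bad n δ x ↔ Bad n δ y := by
  unfold Bad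
  rw [ff_congr h]

/-- the mean number of hits -/
noncomputable def EE (n : ℕ) : ℝ := av (n / 2) (ff (n / 2))

lemma EE_nonneg (n : ℕ) : 0 ≤ EE n := av_nonneg _ fun x => ff_nonneg _ x

lemma log_half_le {n : ℕ} (hn : 2 ≤ n) : Real.log ((n / 2 : ℕ) : ℝ) ≤ Real.log n := by
  apply Real.log_le_log
  · have : 1 ≤ n / 2 := by omega
    exact_mod_cast this
  · exact_mod_cast Nat.div_le_self n 2

lemma log_nonneg' {n : ℕ} (hn : 2 ≤ n) : 0 ≤ Real.log n :=
  Real.log_nonneg (by exact_mod_cast (show 1 ≤ n by omega))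

lemma EE_le {n : ℕ} (hn : 2 ≤ n) : EE n ≤ 1 + Real.log n :=
  (av_le _ fun x => ff_le _ x).trans (by linarith [log_half_le hn])

lemma h_le {n : ℕ} (hn : 2 ≤ n) (x : ℕ → Bool) : 1 + ff (n - 1) x ≤ 2 + Real.log n := by
  have h1 := ff_le (n - 1) x
  have h2 : Real.log ((n - 1 : ℕ) : ℝ) ≤ Real.log n := by
    apply Real.log_le_log
    · have : 1 ≤ n - 1 := by omega
      exact_mod_cast this
    · exact_mod_cast Nat.sub_le n 1
  linarith

lemma h_upper {n : ℕ} (hn : 2 ≤ n) {δ : ℝ} (hδ : 0 ≤ δ) (x : ℕ → Bool) :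
    1 + ff (n - 1) x ≤ (EE n + 2 + δ) + (2 + Real.log n) * ind (Bad n δ x) := by
  by_cases h : Bad n δ x
  · rw [ind_true h]
    have := h_le hn x
    have := EE_nonneg n
    linarith
  · rw [ind_false h]
    unfold Bad at h
    push Not at h
    have h1 := (abs_lt.1 h).2
    have h2 := (ff_near hn x).2
    unfold EE
    linarith

lemma h_lower {n : ℕ} (hn : 2 ≤ n) {δ : ℝ} (hδ : 0 ≤ δ) (x : ℕ → Bool) :
    (EE n - δ) - (2 + Real.log n) * ind (Bad n δ x) ≤ 1 + ff (n - 1) x := by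
  by_cases h : Bad n δ x
  · rw [ind_true h]
    have := ff_nonneg (n - 1) x
    have := EE_le hn
    linarith
  · rw [ind_false h]
    unfold Bad at h
    push Not at h
    have h1 := (abs_lt.1 h).1
    have h2 := (ff_near hn x).1
    unfold EE
    linarith

/-- the weight of the bad first patterns -/
noncomputable def be (n : ℕ) (L : ℤ) (δ : ℝ) (t : ℕ) : ℝ :=
  av t (fun x => ind (First n L t x) * ind (Bad n δ (sh (t - n) x)))

lemma be_nonneg (n : ℕ) (L : ℤ) (δ : ℝ) (t : ℕ) : 0 ≤ be n L δ t :=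
  av_nonneg _ fun _ => mul_nonneg (ind_nonneg _) (ind_nonneg _)

lemma HH_upper {n : ℕ} (hn : 2 ≤ n) {δ : ℝ} (hδ : 0 ≤ δ) (L : ℤ) (t : ℕ) :
    HH n L t ≤ (EE n + 2 + δ) * aa n L t + (2 + Real.log n) * be n L δ t := by
  unfold HH aa be
  rw [← av_mul, ← av_mul, ← av_add]
  apply av_mono
  intro x
  have h1 := h_upper hn hδ (sh (t - n) x)
  have h2 := mul_le_mul_of_nonneg_left h1 (ind_nonneg (First n L t x))
  linarith

lemma HH_lower {n : ℕ} (hn : 2 ≤ n) {δ : ℝ} (hδ : 0 ≤ δ) (L : ℤ) (t : ℕ) :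
    (EE n - δ) * aa n L t - (2 + Real.log n) * be n L δ t ≤ HH n L t := by
  unfold HH aa be
  rw [← av_mul, ← av_mul, ← av_sub]
  apply av_mono
  intro x
  have h1 := h_lower hn hδ (sh (t - n) x)
  have h2 := mul_le_mul_of_nonneg_left h1 (ind_nonneg (First n L t x))
  linarith

lemma HH_crude {n : ℕ} (hn : 2 ≤ n) (L : ℤ) (t : ℕ) :
    HH n L t ≤ (2 + Real.log n) * aa n L t := by
  unfold HH aa
  rw [← av_mul]
  apply av_mono
  intro x
  have h1 := h_le hn (sh (t - n) x)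
  have h2 := mul_le_mul_of_nonneg_left h1 (ind_nonneg (First n L t x))
  linarith

lemma sum_aa_le (n : ℕ) (L : ℤ) (K : ℕ) : ∑ t ∈ range (K + 1), aa n L t ≤ 1 := by
  rw [sum_aa]
  linarith [AA_nonneg n L K]

lemma sum_AA_le {n : ℕ} (hn : 2 ≤ n) {L : ℤ} (hq : 0 < qq n L) (K : ℕ) :
    ∑ s ∈ range K, AA n L s ≤ (2 + Real.log n) / qq n L := by
  rw [le_div_iff₀ hq]
  have h1 := upper (show 1 ≤ n by omega) (L := L) K
  have h2 : ∑ t ∈ range (K + n + 1), HH n L t ≤
      (2 + Real.log n) * ∑ t ∈ range (K + n + 1), aa n L t := by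
    rw [mul_sum]
    exact sum_le_sum fun t _ => HH_crude hn L t
  have h3 := sum_aa_le n L (K + n)
  have h4 : 0 ≤ 2 + Real.log n := by linarith [log_nonneg' hn]
  have h5 := mul_le_mul_of_nonneg_left h3 h4
  rw [sum_range_succ] at h1
  have h6 := mul_nonneg hq.le (AA_nonneg n L K)
  nlinarith

lemma summable_AA {n : ℕ} (hn : 2 ≤ n) {L : ℤ} (hq : 0 < qq n L) : Summable (AA n L) :=
  summable_of_sum_range_le (AA_nonneg n L) (sum_AA_le hn hq)

/-- the expected waiting time -/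
noncomputable def tau (n : ℕ) (L : ℤ) : ℝ := ∑' t, AA n L t

lemma tau_le {n : ℕ} (hn : 2 ≤ n) {L : ℤ} (hq : 0 < qq n L) :
    tau n L ≤ (2 + Real.log n) / qq n L :=
  (summable_AA hn hq).tsum_le_of_sum_range_le (sum_AA_le hn hq)

lemma sum_be_le {n : ℕ} (hn : 2 ≤ n) {L : ℤ} (hq : 0 < qq n L) (δ : ℝ) (K : ℕ) :
    ∑ t ∈ range K, be n L δ t ≤ (2 + Real.log n) / qq n L * (2 * pB n δ / n) := by
  have h1 := rare (n := n) (M := n / 2) (L := L) (by omega) (Bad n δ) (Bad_congr n δ) K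
  refine (le_trans h1 ?_)
  have hlog := log_nonneg' hn
  have hn' : (0 : ℝ) < n := by exact_mod_cast (show 0 < n by omega)
  apply mul_le_mul (sum_AA_le hn hq K) _ (div_nonneg (pB_nonneg n δ) (Nat.cast_nonneg _))
    (by positivity)
  show pB n δ / _ ≤ _
  have h2 : (n : ℝ) / 2 ≤ ((n - n / 2 : ℕ) : ℝ) := by
    have : n ≤ 2 * (n - n / 2) := by omega
    have h3 : (n : ℝ) ≤ 2 * ((n - n / 2 : ℕ) : ℝ) := by exact_mod_cast this
    linarith
  have h3 : 0 < (n : ℝ) / 2 := by positivity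
  calc pB n δ / ((n - n / 2 : ℕ) : ℝ) ≤ pB n δ / ((n : ℝ) / 2) :=
        div_le_div_of_nonneg_left (pB_nonneg n δ) h3 h2
    _ = 2 * pB n δ / n := by field_simp

/-- the two-sided estimate -/
theorem two_sided {n : ℕ} (hn : 2 ≤ n) {L : ℤ} (hq : 0 < qq n L) {δ : ℝ} (hδ : 0 ≤ δ) :
    |qq n L * tau n L - EE n| ≤
      2 + δ + 2 * (2 + Real.log n) ^ 2 / (n * qq n L) * pB n δ := by
  have hlog := log_nonneg' hn
  have hn' : (0 : ℝ) < n := by exact_mod_cast (show 0 < n by omega)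
  have hs := summable_AA hn hq
  have hlim : Tendsto (fun K : ℕ => ∑ s ∈ range K, AA n L s) atTop (𝓝 (tau n L)) :=
    hs.hasSum.tendsto_sum_nat
  have hlim1 := (tendsto_add_atTop_iff_nat 1).2 hlim
  have hz := hs.tendsto_atTop_zero
  have hR : 2 * (2 + Real.log n) ^ 2 / (n * qq n L) * pB n δ =
      (2 + Real.log n) * ((2 + Real.log n) / qq n L * (2 * pB n δ / n)) := by
    field_simp
  rw [hR]
  set R := (2 + Real.log n) / qq n L * (2 * pB n δ / n) with hRdef
  rw [abs_le]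
  constructor
  · -- lower bound
    have h1 : ∀ K : ℕ, (EE n - δ) * (1 - AA n L K) - (2 + Real.log n) * R ≤
        qq n L * ∑ s ∈ range (K + 1), AA n L s := by
      intro K
      refine le_trans ?_ (lower (show 1 ≤ n by omega) K)
      have h2 : ∑ t ∈ range (K + 1), ((EE n - δ) * aa n L t - (2 + Real.log n) * be n L δ t) ≤
          ∑ t ∈ range (K + 1), HH n L t := sum_le_sum fun t _ => HH_lower hn hδ L t
      rw [sum_sub_distrib, ← mul_sum, ← mul_sum, sum_aa] at h2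
      have h3 := mul_le_mul_of_nonneg_left (sum_be_le hn hq δ (K + 1))
        (show 0 ≤ 2 + Real.log n by linarith)
      linarith
    have h2 : Tendsto (fun K : ℕ => (EE n - δ) * (1 - AA n L K) - (2 + Real.log n) * R) atTop
        (𝓝 ((EE n - δ) * (1 - 0) - (2 + Real.log n) * R)) :=
      ((hz.const_sub 1).const_mul _).sub_const _
    have h3 := le_of_tendsto_of_tendsto' h2 (hlim1.const_mul (qq n L)) h1
    linarith
  · have h1 : ∀ K : ℕ, qq n L * ∑ s ∈ range (K + 1), AA n L s ≤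
        (EE n + 2 + δ) + (2 + Real.log n) * R := by
      intro K
      refine le_trans (upper (show 1 ≤ n by omega) K) ?_
      have h2 : ∑ t ∈ range (K + n + 1), HH n L t ≤
          ∑ t ∈ range (K + n + 1), ((EE n + 2 + δ) * aa n L t + (2 + Real.log n) * be n L δ t) :=
        sum_le_sum fun t _ => HH_upper hn hδ L t
      rw [sum_add_distrib, ← mul_sum, ← mul_sum] at h2
      have h3 := mul_le_mul_of_nonneg_left (sum_be_le hn hq δ (K + n + 1))
        (show 0 ≤ 2 + Real.log n by linarith)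
      have h4 := mul_le_mul_of_nonneg_left (sum_aa_le n L (K + n))
        (show 0 ≤ EE n + 2 + δ by linarith [EE_nonneg n])
      linarith
    have h3 := le_of_tendsto' (hlim1.const_mul (qq n L)) h1
    linarith

end Pool.Agent.Q161.Wa
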