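import Pool.Agent.Q161.WaF

set_option autoImplicit false
open scoped BigOperators

/-!
# The limit
-/

namespace Pool.Agent.Q161.Wa

open Finset Filter Topology

lemma sq_exp_lim {c : ℝ} (hc : 0 < c) :
    Tendsto (fun x : ℝ => (2 + x) ^ 2 * Real.exp (-c * x)) atTop (𝓝 0) := by
  have h1 := Real.tendsto_pow_mul_exp_neg_atTop_nhds_zero 2
  have h2 : Tendsto (fun x : ℝ => c * (2 + x)) atTop atTop :=
    Tendsto.const_mul_atTop hc (tendsto_atTop_add_const_left _ _ tendsto_id)
  have h3 := (h1.comp h2).const_mul (Real.exp (2 * c) / c ^ 2)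
  rw [mul_zero] at h3
  refine h3.congr fun x => ?_
  simp only [Function.comp]
  have h4 : Real.exp (-(c * (2 + x))) = Real.exp (-c * x) / Real.exp (2 * c) := by
    rw [← Real.exp_sub]
    congr 1
    ring
  rw [h4]
  have := Real.exp_pos (2 * c)
  field_simp

theorem lim_qtau {a : ℝ} (ha : 0 < a) (L : ℕ → ℕ)
    (hpar : ∀ᶠ n in atTop, L n % 2 = n % 2)
    (hlim : Tendsto (fun n : ℕ => (L n : ℝ) / Real.sqrt n) atTop (𝓝 a)) :
    Tendsto (fun n : ℕ => qq n (L n) * tau n (L n) / Real.log n) atTop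
      (𝓝 (1 / (2 * Real.pi))) := by
  have hκ := local_lim ha L hpar hlim
  set κ := a * (Real.sqrt (2 / Real.pi) * Real.exp (-(a ^ 2 / 2))) with hκdef
  have hpi := Real.pi_pos
  have hκ0 : 0 < κ := by positivity
  have hev : ∀ᶠ n : ℕ in atTop, κ / 2 < (n : ℝ) * qq n (L n) :=
    hκ.eventually (lt_mem_nhds (by linarith))
  have hlog : Tendsto (fun n : ℕ => Real.log (n : ℝ)) atTop atTop :=
    Real.tendsto_log_atTop.comp tendsto_natCast_atTop_atTop
  rw [Metric.tendsto_nhds]
  intro ε hε
  set e := ε / 2 with he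
  have he0 : 0 < e := by positivity
  set s := e / 1000 with hs
  have hs0 : 0 < s := by positivity
  set c := e ^ 2 / 5000 with hc
  have hc0 : 0 < c := by positivity
  have herr : Tendsto (fun n : ℕ => 3 / Real.log n + 8 / κ * Real.exp (800 * s ^ 2) *
      ((2 + Real.log n) ^ 2 * Real.exp (-c * Real.log n))) atTop (𝓝 0) := by
    have h1 : Tendsto (fun n : ℕ => 3 / Real.log (n : ℝ)) atTop (𝓝 0) :=
      Tendsto.div_atTop tendsto_const_nhds hlog
    have h2 := ((sq_exp_lim hc0).comp hlog).const_mul (8 / κ * Real.exp (800 * s ^ 2))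
    have h3 := h1.add h2
    rw [mul_zero, add_zero] at h3
    exact h3
  have herr' := herr.eventually (gt_mem_nhds he0)
  filter_upwards [hev, herr', eventually_ge_atTop 2, hlog.eventually (eventually_ge_atTop 1)]
    with n h1 h2 h3 h4
  have hn' : (0 : ℝ) < n := by exact_mod_cast (show 0 < n by omega)
  have hq : 0 < qq n (L n) := by
    by_contra hcon
    have : (n : ℝ) * qq n (L n) ≤ 0 := mul_nonpos_of_nonneg_of_nonpos hn'.le (not_lt.1 hcon)
    linarith
  have hl0 : 0 < Real.log (n : ℝ) := by linarith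
  have hδ : 0 ≤ e * Real.log n := by positivity
  have h5 := two_sided h3 hq hδ
  have h6 := mean_half h3
  -- the bad probability
  have h7 := pB_le n (e * Real.log n) s hs0.le
  have h8 : pB n (e * Real.log n) ≤
      2 * (Real.exp (800 * s ^ 2) * Real.exp (-c * Real.log n)) := by
    refine h7.trans ?_
    rw [← Real.exp_add]
    apply mul_le_mul_of_nonneg_left _ (by norm_num)
    apply Real.exp_le_exp.2
    have h9 := mul_le_mul_of_nonneg_left (log_half_le h3) (show 0 ≤ 800 * s ^ 2 by positivity)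
    have h10 : -s * (e * Real.log n) + 800 * s ^ 2 * (1 + Real.log n) =
        800 * s ^ 2 + -c * Real.log n := by
      rw [hs, hc]
      ring
    linarith
  have h9 : 2 * (2 + Real.log n) ^ 2 / (n * qq n (L n)) ≤ 4 / κ * (2 + Real.log n) ^ 2 := by
    rw [div_le_iff₀ (by positivity)]
    have h10 : 4 / κ * (2 + Real.log n) ^ 2 * (κ / 2) = 2 * (2 + Real.log n) ^ 2 := by
      field_simp
      ring
    rw [← h10]
    exact mul_le_mul_of_nonneg_left h1.le (by positivity)
  have h10 : 2 * (2 + Real.log n) ^ 2 / (n * qq n (L n)) * pB n (e * Real.log n) ≤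
      8 / κ * Real.exp (800 * s ^ 2) * ((2 + Real.log n) ^ 2 * Real.exp (-c * Real.log n)) := by
    refine (mul_le_mul h9 h8 (pB_nonneg _ _) (by positivity)).trans (le_of_eq ?_)
    ring
  set X := 8 / κ * Real.exp (800 * s ^ 2) *
    ((2 + Real.log n) ^ 2 * Real.exp (-c * Real.log n)) with hX
  have hX0 : 0 ≤ X := by positivity
  have h11 : |qq n (L n) * tau n (L n) - 1 / (2 * Real.pi) * Real.log n| ≤
      3 + e * Real.log n + X := by
    have : qq n (L n) * tau n (L n) - 1 / (2 * Real.pi) * Real.log n =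
      (qq n (L n) * tau n (L n) - EE n) + (EE n - 1 / (2 * Real.pi) * Real.log n) := by ring
    rw [this]
    refine (abs_add_le _ _).trans ?_
    have h12 : |EE n - 1 / (2 * Real.pi) * Real.log n| ≤ 1 := h6
    linarith
  rw [Real.dist_eq]
  have h12 : qq n (L n) * tau n (L n) / Real.log n - 1 / (2 * Real.pi) =
      (qq n (L n) * tau n (L n) - 1 / (2 * Real.pi) * Real.log n) / Real.log n := by
    field_simp
  rw [h12, abs_div, abs_of_pos hl0, div_lt_iff₀ hl0]
  refine lt_of_le_of_lt h11 ?_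
  have h13 : 3 / Real.log n * Real.log n = 3 := by field_simp
  have h14 := mul_lt_mul_of_pos_right h2 hl0
  rw [add_mul, h13] at h14
  have h15 : X ≤ X * Real.log n := le_mul_of_one_le_right hX0 h4
  have h16 : ε * Real.log n = e * Real.log n + e * Real.log n := by rw [he]; ring
  rw [h16]
  linarith

theorem lim_tau {a : ℝ} (ha : 0 < a) (L : ℕ → ℕ)
    (hpar : ∀ᶠ n in atTop, L n % 2 = n % 2)
    (hlim : Tendsto (fun n : ℕ => (L n : ℝ) / Real.sqrt n) atTop (𝓝 a)) :
    Tendsto (fun n : ℕ => tau n (L n) / (n * Real.log n)) atTop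
      (𝓝 (Real.exp (a ^ 2 / 2) / (2 * a * Real.sqrt (2 * Real.pi)))) := by
  have hκ := local_lim ha L hpar hlim
  have h1 := lim_qtau ha L hpar hlim
  have hpi := Real.pi_pos
  set κ := a * (Real.sqrt (2 / Real.pi) * Real.exp (-(a ^ 2 / 2))) with hκdef
  have hκ0 : 0 < κ := by positivity
  have hev : ∀ᶠ n : ℕ in atTop, 0 < (n : ℝ) * qq n (L n) := hκ.eventually (lt_mem_nhds hκ0)
  have h2 := h1.div hκ hκ0.ne'
  have h3 : 1 / (2 * Real.pi) / κ = Real.exp (a ^ 2 / 2) / (2 * a * Real.sqrt (2 * Real.pi)) := by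
    have e1 : Real.sqrt (2 / Real.pi) * Real.pi = Real.sqrt (2 * Real.pi) := by
      rw [Real.sqrt_div (by norm_num), Real.sqrt_mul (by norm_num)]
      have : Real.pi = Real.sqrt Real.pi * Real.sqrt Real.pi := (Real.mul_self_sqrt hpi.le).symm
      have h0 : 0 < Real.sqrt Real.pi := Real.sqrt_pos.2 hpi
      field_simp
      rw [sq]
      exact this
    rw [hκdef, ← e1, Real.exp_neg]
    have h0 : 0 < Real.sqrt (2 / Real.pi) := Real.sqrt_pos.2 (by positivity)
    have h00 := Real.exp_pos (a ^ 2 / 2)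
    field_simp
  rw [h3] at h2
  refine h2.congr' ?_
  filter_upwards [hev, eventually_ge_atTop 2] with n h4 h5
  have hn' : (0 : ℝ) < n := by exact_mod_cast (show 0 < n by omega)
  have hq : 0 < qq n (L n) := by
    by_contra hcon
    have : (n : ℝ) * qq n (L n) ≤ 0 := mul_nonpos_of_nonneg_of_nonpos hn'.le (not_lt.1 hcon)
    linarith
  have hlog : 0 < Real.log (n : ℝ) := Real.log_pos (by exact_mod_cast (show 1 < n by omega))
  show qq n (L n) * tau n (L n) / Real.log n / ((n : ℝ) * qq n (L n)) =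
    tau n (L n) / (n * Real.log n)
  rw [div_div, div_eq_div_iff (by positivity) (by positivity)]
  ring

end Pool.Agent.Q161.Wa
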