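import Pool.Agent.Q161.WaG

set_option autoImplicit false
open scoped BigOperators

/-!
# From the averages to probabilities
-/

namespace Pool.Agent.Q161.Wa

open Finset Filter Topology MeasureTheory ProbabilityTheory
open scoped ENNReal

section
variable {Ω : Type*} [MeasurableSpace Ω] {P : Measure Ω} [IsProbabilityMeasure P]
  {X : ℕ → Ω → ℤ}

/-- the coins of the walk -/
noncomputable def coin (X : ℕ → Ω → ℤ) (ω : Ω) : ℕ → Bool := fun i => decide (X i ω = 1)

/-- prefix events -/
def Pre (X : ℕ → Ω → ℤ) (k : ℕ) (p : ℕ → Bool) : Set Ω := {ω | ∀ i, i < k → coin X ω i = p i}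

omit [MeasurableSpace Ω] in
lemma coin_preimage (i : ℕ) (b : Bool) :
    {ω | coin X ω i = b} = X i ⁻¹' (if b = true then {1} else {1}ᶜ) := by
  ext ω
  cases b with
  | true => simp [coin]
  | false => simp [coin]

lemma meas_coin (hX : ∀ i, Measurable (X i)) (i : ℕ) (b : Bool) :
    MeasurableSet {ω | coin X ω i = b} := by
  rw [coin_preimage]
  exact hX i (MeasurableSet.of_discrete)

lemma Pre_eq (k : ℕ) (p : ℕ → Bool) :
    Pre X k p = ⋂ i ∈ range k, X i ⁻¹' (if p i = true then {1} else {1}ᶜ) := by
  ext ω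
  simp only [Pre, Set.mem_ofPred_eq, Set.mem_iInter, mem_range]
  constructor
  · intro h i hi
    rw [← coin_preimage]
    exact h i hi
  · intro h i hi
    have := h i hi
    rw [← coin_preimage] at this
    exact this

lemma meas_Pre (hX : ∀ i, Measurable (X i)) (k : ℕ) (p : ℕ → Bool) :
    MeasurableSet (Pre X k p) := by
  rw [Pre_eq]
  apply Finset.measurableSet_biInter
  intro i _
  exact hX i (MeasurableSet.of_discrete)

lemma P_coin (hX : ∀ i, Measurable (X i)) (h1 : ∀ i, P {ω | X i ω = 1} = 1 / 2) (i : ℕ) (b : Bool) :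
    P (X i ⁻¹' (if b = true then {1} else {1}ᶜ)) = 1 / 2 := by
  cases b with
  | true =>
    simp only [if_true]
    exact h1 i
  | false =>
    have e : X i ⁻¹' (if false = true then {1} else {1}ᶜ) = {ω | X i ω = 1}ᶜ := by
      ext ω
      simp
    have h3 : MeasurableSet {ω | X i ω = 1} := hX i (measurableSet_singleton 1)
    rw [e, prob_compl_eq_one_sub h3, h1 i]
    simp

lemma P_Pre (hX : ∀ i, Measurable (X i)) (hind : iIndepFun X P)
    (h1 : ∀ i, P {ω | X i ω = 1} = 1 / 2) (k : ℕ) (p : ℕ → Bool) :
    P.real (Pre X k p) = (1 / 2) ^ k := by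
  rw [Pre_eq, Measure.real,
    hind.measure_inter_preimage_eq_mul (range k) (fun i _ => MeasurableSet.of_discrete),
    prod_congr rfl (fun i _ => P_coin hX h1 i (p i)), prod_const, card_range]
  simp

omit [MeasurableSpace Ω] in
lemma Pre_split (k : ℕ) (p : ℕ → Bool) (b : Bool) :
    Pre X k p ∩ {ω | coin X ω k = b} = Pre X (k + 1) (upd p k b) := by
  ext ω
  simp only [Pre, Set.mem_inter_iff, Set.mem_ofPred_eq, upd]
  constructor
  · rintro ⟨h1, h2⟩ i hi
    split_ifs with h
    · rw [h]; exact h2
    · exact h1 i (by omega)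
  · intro h
    refine ⟨fun i hi => ?_, ?_⟩
    · have := h i (by omega)
      rwa [if_neg (by omega)] at this
    · have := h k (by omega)
      rwa [if_pos rfl] at this

lemma app_upd (k : ℕ) (p : ℕ → Bool) (b : Bool) (x : ℕ → Bool) :
    app (k + 1) (upd p k b) x = app k p (cns b x) := by
  funext i
  simp only [app, upd]
  rcases lt_trichotomy i k with h | h | h
  · rw [if_pos (by omega), if_neg (by omega), if_pos h]
  · rw [if_pos (by omega), if_pos h, if_neg (by omega), h, Nat.sub_self]
    rfl
  · rw [if_neg (by omega), if_neg (by omega)]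
    obtain ⟨r, rfl⟩ : ∃ r, i = k + 1 + r := ⟨i - (k + 1), by omega⟩
    have e1 : k + 1 + r - (k + 1) = r := by omega
    have e2 : k + 1 + r - k = r + 1 := by omega
    rw [e1, e2]
    rfl

/-- the probability of an event that depends on finitely many coins -/
lemma prob_pre (hX : ∀ i, Measurable (X i)) (hind : iIndepFun X P)
    (h1 : ∀ i, P {ω | X i ω = 1} = 1 / 2) (A : (ℕ → Bool) → Prop) (N : ℕ) :
    ∀ (k : ℕ) (p : ℕ → Bool), (∀ x y, (∀ i, i < k + N → x i = y i) → (A x ↔ A y)) →
      P.real (Pre X k p ∩ {ω | A (coin X ω)}) =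
        (1 / 2) ^ k * av N (fun x => ind (A (app k p x))) := by
  induction N with
  | zero =>
    intro k p hA
    show _ = (1 / 2) ^ k * ind (A (app k p (fun _ => false)))
    have h2 : ∀ ω ∈ Pre X k p, (A (coin X ω) ↔ A (app k p (fun _ => false))) := by
      intro ω hω
      apply hA
      intro i hi
      rw [add_zero] at hi
      rw [hω i hi, app_agree k p _ i hi]
    by_cases h : A (app k p (fun _ => false))
    · rw [ind_true h, mul_one, ← P_Pre hX hind h1 k p]
      congr 1
      ext ω
      exact ⟨fun g => g.1, fun g => ⟨g, (h2 ω g).2 h⟩⟩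
    · rw [ind_false h, mul_zero]
      have : Pre X k p ∩ {ω | A (coin X ω)} = ∅ := by
        ext ω
        constructor
        · rintro ⟨g1, g2⟩
          exact absurd ((h2 ω g1).1 g2) h
        · intro g
          exact absurd g (Set.notMem_empty ω)
      rw [this, measureReal_empty]
  | succ N ih =>
    intro k p hA
    have hA' : ∀ x y, (∀ i, i < k + 1 + N → x i = y i) → (A x ↔ A y) :=
      fun x y h => hA x y fun i hi => h i (by omega)
    have h2 := measureReal_inter_add_sdiff (μ := P) (s := Pre X k p ∩ {ω | A (coin X ω)})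
      (meas_coin hX k true)
    have e1 : Pre X k p ∩ {ω | A (coin X ω)} ∩ {ω | coin X ω k = true} =
        Pre X (k + 1) (upd p k true) ∩ {ω | A (coin X ω)} := by
      rw [← Pre_split, Set.inter_right_comm]
    have e2 : (Pre X k p ∩ {ω | A (coin X ω)}) \ {ω | coin X ω k = true} =
        Pre X (k + 1) (upd p k false) ∩ {ω | A (coin X ω)} := by
      rw [← Pre_split, Set.inter_right_comm]
      ext ω
      simp only [Set.mem_sdiff, Set.mem_inter_iff, Set.mem_ofPred_eq, Bool.not_eq_true]
    rw [e1, e2, ih _ _ hA', ih _ _ hA'] at h2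
    simp only [app_upd] at h2
    rw [← h2, av_succ]
    ring

lemma prob_eq (hX : ∀ i, Measurable (X i)) (hind : iIndepFun X P)
    (h1 : ∀ i, P {ω | X i ω = 1} = 1 / 2) (A : (ℕ → Bool) → Prop) (N : ℕ)
    (hA : ∀ x y, (∀ i, i < N → x i = y i) → (A x ↔ A y)) :
    P {ω | A (coin X ω)} = ENNReal.ofReal (av N (fun x => ind (A x))) := by
  have h := prob_pre hX hind h1 A N 0 (fun _ => false) (fun x y g => hA x y fun i hi => g i (by omega))
  have e : Pre X 0 (fun _ => false) = Set.univ := by
    ext ω
    simp [Pre]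
  have e2 : ∀ x : ℕ → Bool, app 0 (fun _ => false) x = x := by
    intro x
    funext i
    simp [app]
  rw [e, Set.univ_inter, pow_zero, one_mul] at h
  simp only [e2] at h
  rw [← h, ofReal_measureReal]

lemma meas_event (hX : ∀ i, Measurable (X i)) (A : (ℕ → Bool) → Prop) (N : ℕ)
    (hA : ∀ x y, (∀ i, i < N → x i = y i) → (A x ↔ A y)) :
    MeasurableSet {ω | A (coin X ω)} := by
  have h1 : Measurable (fun ω => (fun i : Fin N => coin X ω i)) := by
    rw [measurable_pi_iff]
    intro i
    apply measurable_to_countable'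
    intro b
    exact meas_coin hX i b
  have h2 : {ω | A (coin X ω)} = (fun ω => (fun i : Fin N => coin X ω i)) ⁻¹'
      {e : Fin N → Bool | A (fun i => if h : i < N then e ⟨i, h⟩ else false)} := by
    ext ω
    simp only [Set.mem_ofPred_eq, Set.mem_preimage]
    apply hA
    intro i hi
    rw [dif_pos hi]
  rw [h2]
  exact h1 (Set.toFinite _).measurableSet

end

end Pool.Agent.Q161.Wa
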