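import Mathlib

/-!
Words in which every letter occurs three times, given by the positions of the occurrences, and a
family of such words for the Cartesian product of a triangle with a cycle of length at least five.
-/

set_option autoImplicit false

namespace Q161.WordRep

open Finset

theorem chain_gap {α : Type*} {R : α → α → Prop} {g : ℕ → α} : ∀ {L : List ℕ},
    L.Pairwise (· < ·) → (L.map g).IsChain R → ∀ {p q : ℕ}, p ∈ L → q ∈ L → p < q →
    (∀ r ∈ L, ¬ (p < r ∧ r < q)) → R (g p) (g q) := by
  intro L
  induction L with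
  | nil => intro _ _ p q hp; simp at hp
  | cons a L ih =>
    intro hs hc p q hp hq hpq hno
    rw [List.pairwise_cons] at hs
    have hqL : q ∈ L := by
      rcases List.mem_cons.1 hq with h | h
      · exfalso
        rcases List.mem_cons.1 hp with h' | h'
        · omega
        · have := hs.1 p h'; omega
      · exact h
    rcases List.mem_cons.1 hp with h | h
    · subst h
      cases L with
      | nil => simp at hqL
      | cons b L =>
        have hb := hs.1 b (by simp)
        have hbq : b = q := by
          rcases List.mem_cons.1 hqL with h | h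
          · exact h.symm
          · exfalso
            have h2 := (List.pairwise_cons.1 hs.2).1 q h
            exact hno b (by simp) ⟨hb, h2⟩
        subst hbq
        simp only [List.map_cons, List.isChain_cons_cons] at hc
        exact hc.1
    · apply ih hs.2 _ h hqL hpq (fun r hr => hno r (List.mem_cons_of_mem _ hr))
      rw [List.map_cons] at hc
      exact hc.tail

variable {V : Type*} [Fintype V] [DecidableEq V]

/-- the set of all positions -/
def S (pos : V → Fin 3 → ℕ) : Finset ℕ := univ.image (fun x : V × Fin 3 => pos x.1 x.2)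

open Classical in
/-- the letter at a position -/
noncomputable def g [Nonempty V] (pos : V → Fin 3 → ℕ) (p : ℕ) : V :=
  if h : ∃ x : V × Fin 3, pos x.1 x.2 = p then h.choose.1 else Classical.arbitrary V

/-- the word with the given positions -/
noncomputable def word [Nonempty V] (pos : V → Fin 3 → ℕ) : List V :=
  ((S pos).sort (· ≤ ·)).map (g pos)

theorem g_pos [Nonempty V] {pos : V → Fin 3 → ℕ}
    (hi : ∀ v t v' t', pos v t = pos v' t' → v = v' ∧ t = t') (v : V) (t : Fin 3) :
    g pos (pos v t) = v := by
  unfold g
  have h : ∃ x : V × Fin 3, pos x.1 x.2 = pos v t := ⟨(v, t), rfl⟩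
  rw [dif_pos h]
  exact (hi _ _ _ _ h.choose_spec).1

theorem mem_S {pos : V → Fin 3 → ℕ} {p : ℕ} : p ∈ S pos ↔ ∃ v t, pos v t = p := by
  unfold S
  rw [mem_image]
  constructor
  · rintro ⟨x, _, h⟩; exact ⟨x.1, x.2, h⟩
  · rintro ⟨v, t, h⟩; exact ⟨(v, t), mem_univ _, h⟩

theorem count_word [Nonempty V] {pos : V → Fin 3 → ℕ}
    (hi : ∀ v t v' t', pos v t = pos v' t' → v = v' ∧ t = t') (v : V) :
    (word pos).count v = 3 := by
  unfold word
  rw [List.count_eq_countP, List.countP_map]
  have h1 : List.countP ((fun x => x == v) ∘ g pos) ((S pos).sort (· ≤ ·)) =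
      ((S pos).filter (fun p => g pos p = v)).card := by
    rw [Finset.card_def, Finset.filter_val, ← Multiset.countP_eq_card_filter,
      ← Finset.sort_eq (S pos) (· ≤ ·), Multiset.coe_countP]
    apply List.countP_congr
    intro x _
    simp
  rw [h1]
  have h2 : (S pos).filter (fun p => g pos p = v) = univ.image (fun t : Fin 3 => pos v t) := by
    ext p
    rw [mem_filter, mem_S, mem_image]
    constructor
    · rintro ⟨⟨v', t, h⟩, h3⟩
      subst h
      rw [g_pos hi] at h3
      subst h3
      exact ⟨t, mem_univ _, rfl⟩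
    · rintro ⟨t, _, h⟩
      subst h
      exact ⟨⟨v, t, rfl⟩, g_pos hi v t⟩
  rw [h2, card_image_of_injective]
  · simp
  · intro t t' h
    exact (hi _ _ _ _ h).2

/-- the occurrences interleave, starting with `x` -/
def Inter (pos : V → Fin 3 → ℕ) (x y : V) : Prop :=
  pos x 0 < pos y 0 ∧ pos y 0 < pos x 1 ∧ pos x 1 < pos y 1 ∧ pos y 1 < pos x 2 ∧ pos x 2 < pos y 2

theorem filter_word [Nonempty V] (pos : V → Fin 3 → ℕ) (x y : V) :
    (word pos).filter (fun z => decide (z = x ∨ z = y)) =
      (((S pos).sort (· ≤ ·)).filter (fun p => decide (g pos p = x ∨ g pos p = y))).map (g pos) := by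
  unfold word
  rw [List.filter_map]
  rfl

theorem mem_L [Nonempty V] {pos : V → Fin 3 → ℕ}
    (hi : ∀ v t v' t', pos v t = pos v' t' → v = v' ∧ t = t') (x y : V) (p : ℕ) :
    p ∈ ((S pos).sort (· ≤ ·)).filter (fun p => decide (g pos p = x ∨ g pos p = y)) ↔
      (p = pos x 0 ∨ p = pos x 1 ∨ p = pos x 2) ∨ (p = pos y 0 ∨ p = pos y 1 ∨ p = pos y 2) := by
  rw [List.mem_filter, Finset.mem_sort, mem_S]
  constructor
  · rintro ⟨⟨v, t, h⟩, h2⟩
    subst h
    rw [g_pos hi] at h2
    simp only [decide_eq_true_eq] at h2
    rcases h2 with h2 | h2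
    · left; subst h2; fin_cases t <;> simp
    · right; subst h2; fin_cases t <;> simp
  · intro h
    rcases h with (h | h | h) | (h | h | h) <;> subst h <;>
      refine ⟨⟨_, _, rfl⟩, ?_⟩ <;> rw [g_pos hi] <;> simp

theorem alternate_iff [Nonempty V] {pos : V → Fin 3 → ℕ}
    (hi : ∀ v t v' t', pos v t = pos v' t' → v = v' ∧ t = t')
    (hm : ∀ v, pos v 0 < pos v 1 ∧ pos v 1 < pos v 2) {x y : V} (hxy : x ≠ y) :
    ((word pos).filter (fun z => decide (z = x ∨ z = y))).IsChain (· ≠ ·) ↔
      Inter pos x y ∨ Inter pos y x := by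
  rw [filter_word]
  set L := ((S pos).sort (· ≤ ·)).filter (fun p => decide (g pos p = x ∨ g pos p = y)) with hL
  have hs : L.Pairwise (· < ·) := by
    rw [hL]
    exact List.Pairwise.filter _ (Finset.sortedLT_sort (S pos)).pairwise
  have hmem : ∀ p, p ∈ L ↔
      (p = pos x 0 ∨ p = pos x 1 ∨ p = pos x 2) ∨ (p = pos y 0 ∨ p = pos y 1 ∨ p = pos y 2) :=
    fun p => mem_L hi x y p
  have hx := hm x
  have hy := hm y
  have hne : ∀ s t, pos x s ≠ pos y t := fun s t h => hxy (hi _ _ _ _ h).1
  constructor
  · intro hc
    have key : ∀ p q : ℕ, p ∈ L → q ∈ L → p < q → g pos p = g pos q → ∃ r ∈ L, p < r ∧ r < q := by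
      intro p q hp hq hpq he
      by_contra hno
      push Not at hno
      exact chain_gap hs hc hp hq hpq (fun r hr h => absurd h.2 (not_lt.2 (hno r hr h.1))) he
    obtain ⟨r1, hr1, h1, h1'⟩ := key (pos x 0) (pos x 1) ((hmem _).2 (by simp)) ((hmem _).2 (by simp))
      hx.1 (by rw [g_pos hi, g_pos hi])
    obtain ⟨r2, hr2, h2, h2'⟩ := key (pos x 1) (pos x 2) ((hmem _).2 (by simp)) ((hmem _).2 (by simp))
      hx.2 (by rw [g_pos hi, g_pos hi])
    obtain ⟨r3, hr3, h3, h3'⟩ := key (pos y 0) (pos y 1) ((hmem _).2 (by simp)) ((hmem _).2 (by simp))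
      hy.1 (by rw [g_pos hi, g_pos hi])
    obtain ⟨r4, hr4, h4, h4'⟩ := key (pos y 1) (pos y 2) ((hmem _).2 (by simp)) ((hmem _).2 (by simp))
      hy.2 (by rw [g_pos hi, g_pos hi])
    have n00 := hne 0 0
    have n01 := hne 0 1
    have n02 := hne 0 2
    have n10 := hne 1 0
    have n11 := hne 1 1
    have n12 := hne 1 2
    have n20 := hne 2 0
    have n21 := hne 2 1
    have n22 := hne 2 2
    rw [hmem] at hr1 hr2 hr3 hr4
    unfold Inter
    omega
  · intro h
    rcases h with h | h
    · obtain ⟨h1, h2, h3, h4, h5⟩ := h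
      have e : L = [pos x 0, pos y 0, pos x 1, pos y 1, pos x 2, pos y 2] := by
        apply List.Perm.eq_of_pairwise (le := (· < ·)) _ hs _ _
        · intro a b _ _ h1 h2; omega
        · simp only [List.pairwise_cons, List.mem_cons, List.not_mem_nil, or_false,
            forall_eq_or_imp, forall_eq, List.Pairwise.nil, and_true, IsEmpty.forall_iff,
            implies_true]
          omega
        · rw [List.perm_ext_iff_of_nodup (hs.imp (fun h => ne_of_lt h))]
          · intro p
            rw [hmem]
            simp only [List.mem_cons, List.not_mem_nil, or_false]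
            tauto
          · simp only [List.nodup_cons, List.mem_cons, List.not_mem_nil, or_false,
              List.nodup_nil, and_true, not_false_eq_true]
            omega
      rw [e]
      simp only [List.map_cons, List.map_nil, g_pos hi]
      simp [hxy, hxy.symm]
    · obtain ⟨h1, h2, h3, h4, h5⟩ := h
      have e : L = [pos y 0, pos x 0, pos y 1, pos x 1, pos y 2, pos x 2] := by
        apply List.Perm.eq_of_pairwise (le := (· < ·)) _ hs _ _
        · intro a b _ _ h1 h2; omega
        · simp only [List.pairwise_cons, List.mem_cons, List.not_mem_nil, or_false,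
            forall_eq_or_imp, forall_eq, List.Pairwise.nil, and_true, IsEmpty.forall_iff,
            implies_true]
          omega
        · rw [List.perm_ext_iff_of_nodup (hs.imp (fun h => ne_of_lt h))]
          · intro p
            rw [hmem]
            simp only [List.mem_cons, List.not_mem_nil, or_false]
            tauto
          · simp only [List.nodup_cons, List.mem_cons, List.not_mem_nil, or_false,
              List.nodup_nil, and_true, not_false_eq_true]
            omega
      rw [e]
      simp only [List.map_cons, List.map_nil, g_pos hi]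
      simp [hxy, hxy.symm]

end Q161.WordRep
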