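import Pool.Agent.Q161.WordRep

/-!
Positions of the occurrences in a word representing the Cartesian product of a triangle with a cycle
of length `n ≥ 5`.
-/

set_option autoImplicit false

namespace Q161.WordRep

open Finset

/-- the positions of the vertex in row `i` and column `j` -/
def P (n : ℕ) (i : Fin 3) (j : ℕ) : Fin 3 → ℕ :=
  match i with
  | 0 => ![if j = 0 then 0 else if j = 1 then 70 else if j = n - 1 then 60 * (n - 3) + 34
              else 60 * j - 60,
           if j = 0 then 60 * n else if j = 1 then 60 * n + 1 else if j = n - 1 then 60 * n + (n - 2)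
              else 60 * j + 10,
           if j = 0 then 80 * n + 1 else if j = 1 then 100 * n else if j = n - 1 then 80 * n + 5
              else if j = n - 2 then 60 * n + (n - 1) else 60 * n + j]
  | 1 => ![if j = 0 then 30 else if j = n - 1 then 60 * (n - 3) + 37 else 60 * j - 40,
           if j = 0 then 70 * n else if j = n - 1 then 80 * n + 2 else 60 * j + 30,
           if j = 0 then 80 * n + 3 else if j = n - 1 then 80 * n + 7
              else if j = n - 2 then 80 * n + 6 else 70 * n + j]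
  | 2 => ![if j = 0 then 85 else if j = n - 1 then 60 * (n - 2) + 44 else 60 * j - 10,
           if j = 0 then 80 * n else if j = n - 1 then 80 * n + 4
              else if j = n - 2 then 60 * (n - 2) + 48 else 60 * j + 100,
           if j = 0 then 80 * n + 9 else if j = 1 then 80 * n + 8 else 90 * n + j]

/-- the positions, made different from each other -/
def pos (n : ℕ) (v : Fin 3 × Fin n) (t : Fin 3) : ℕ := 9 * P n v.1 v.2 t + 3 * v.1.val + t.val

theorem P_inj {n : ℕ} (hn : 5 ≤ n) (i t : Fin 3) (j j' : ℕ) (hj : j < n) (hj' : j' < n)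
    (h : P n i j t = P n i j' t) : j = j' := by
  fin_cases i <;> fin_cases t <;>
    simp only [P, Fin.zero_eta, Fin.mk_one, Fin.reduceFinMk, Fin.isValue, Matrix.cons_val] at h <;>
    split_ifs at h <;> omega

theorem pos_inj {n : ℕ} (hn : 5 ≤ n) (v : Fin 3 × Fin n) (t : Fin 3) (v' : Fin 3 × Fin n)
    (t' : Fin 3) (h : pos n v t = pos n v' t') : v = v' ∧ t = t' := by
  obtain ⟨i, j⟩ := v
  obtain ⟨i', j'⟩ := v'
  unfold pos at h
  simp only at h
  have hi := i.2
  have hi' := i'.2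
  have ht := t.2
  have ht' := t'.2
  have h1 : i = i' := Fin.ext (by omega)
  have h2 : t = t' := Fin.ext (by omega)
  subst h1 h2
  have h3 : P n i j t = P n i j' t := by omega
  have h4 := P_inj hn i t j j' j.2 j'.2 h3
  exact ⟨by rw [Fin.ext h4], rfl⟩

theorem pos_mono {n : ℕ} (hn : 5 ≤ n) (v : Fin 3 × Fin n) :
    pos n v 0 < pos n v 1 ∧ pos n v 1 < pos n v 2 := by
  obtain ⟨i, j⟩ := v
  have hj := j.2
  unfold pos
  fin_cases i <;>
    simp only [P, Fin.zero_eta, Fin.mk_one, Fin.reduceFinMk, Fin.isValue, Matrix.cons_val] <;>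
    split_ifs <;> simp <;> omega

/-- the positions as a function of numbers -/
def Q (n : ℕ) (i : Fin 3) (j : ℕ) (t : Fin 3) : ℕ := 9 * P n i j t + 3 * i.val + t.val

/-- interleaving in terms of `Q` -/
def InterQ (n : ℕ) (i i' : Fin 3) (j j' : ℕ) : Prop :=
  Q n i j 0 < Q n i' j' 0 ∧ Q n i' j' 0 < Q n i j 1 ∧ Q n i j 1 < Q n i' j' 1 ∧
    Q n i' j' 1 < Q n i j 2 ∧ Q n i j 2 < Q n i' j' 2

theorem interQ_same {n : ℕ} (hn : 5 ≤ n) (i : Fin 3) (j j' : ℕ) (hj : j < j') (hj' : j' < n) :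
    (InterQ n i i j j' ∨ InterQ n i i j' j) ↔
      (j + 1 = j' ∨ (j = 0 ∧ j' = n - 1)) := by
  fin_cases i <;>
    simp only [InterQ, Q, P, Fin.zero_eta, Fin.mk_one, Fin.reduceFinMk, Fin.isValue,
      Matrix.cons_val, Fin.coe_ofNat_eq_mod, Nat.zero_mod, Nat.one_mod, Nat.reduceMod] <;>
    split_ifs <;> omega

theorem interQ_01 {n : ℕ} (hn : 5 ≤ n) (j j' : ℕ) (hj : j < n) (hj' : j' < n) :
    (InterQ n 0 1 j j' ∨ InterQ n 1 0 j' j) ↔ j = j' := by
  simp only [InterQ, Q, P, Fin.isValue, Matrix.cons_val, Fin.coe_ofNat_eq_mod, Nat.zero_mod,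
    Nat.one_mod, Nat.reduceMod]
  split_ifs <;> omega

theorem interQ_02 {n : ℕ} (hn : 5 ≤ n) (j j' : ℕ) (hj : j < n) (hj' : j' < n) :
    (InterQ n 0 2 j j' ∨ InterQ n 2 0 j' j) ↔ j = j' := by
  simp only [InterQ, Q, P, Fin.isValue, Matrix.cons_val, Fin.coe_ofNat_eq_mod, Nat.zero_mod,
    Nat.one_mod, Nat.reduceMod]
  split_ifs <;> omega

theorem interQ_12 {n : ℕ} (hn : 5 ≤ n) (j j' : ℕ) (hj : j < n) (hj' : j' < n) :
    (InterQ n 1 2 j j' ∨ InterQ n 2 1 j' j) ↔ j = j' := by
  simp only [InterQ, Q, P, Fin.isValue, Matrix.cons_val, Fin.coe_ofNat_eq_mod, Nat.zero_mod,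
    Nat.one_mod, Nat.reduceMod]
  split_ifs <;> omega

/-- the adjacency of the product of a triangle and a cycle, in terms of numbers -/
def Adj' (n : ℕ) (i i' : Fin 3) (j j' : ℕ) : Prop :=
  (i ≠ i' ∧ j = j') ∨
    ((j + 1 = j' ∨ j' + 1 = j ∨ (j = 0 ∧ j' = n - 1) ∨ (j' = 0 ∧ j = n - 1)) ∧ i = i')

theorem inter_iff {n : ℕ} (hn : 5 ≤ n) (x y : Fin 3 × Fin n) (hxy : x ≠ y) :
    (Inter (pos n) x y ∨ Inter (pos n) y x) ↔ Adj' n x.1 y.1 x.2 y.2 := by
  obtain ⟨i, j⟩ := x
  obtain ⟨i', j'⟩ := y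
  have hj := j.2
  have hj' := j'.2
  show (InterQ n i i' j j' ∨ InterQ n i' i j' j) ↔ Adj' n i i' j j'
  unfold Adj'
  by_cases hii : i = i'
  · subst hii
    have hne : (j : ℕ) ≠ j' := fun h => hxy (by rw [Fin.ext h])
    rcases lt_or_gt_of_ne hne with h | h
    · rw [interQ_same hn i j j' h hj']
      constructor
      · rintro (h1 | h1)
        · exact Or.inr ⟨Or.inl h1, rfl⟩
        · exact Or.inr ⟨Or.inr (Or.inr (Or.inl h1)), rfl⟩
      · rintro (h1 | ⟨h1, _⟩)
        · exact absurd rfl h1.1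
        · omega
    · rw [or_comm, interQ_same hn i j' j h hj]
      constructor
      · rintro (h1 | h1)
        · exact Or.inr ⟨Or.inr (Or.inl h1), rfl⟩
        · exact Or.inr ⟨Or.inr (Or.inr (Or.inr h1)), rfl⟩
      · rintro (h1 | ⟨h1, _⟩)
        · exact absurd rfl h1.1
        · omega
  · have e : ((i ≠ i' ∧ (j : ℕ) = j') ∨
        (((j : ℕ) + 1 = j' ∨ (j' : ℕ) + 1 = j ∨ ((j : ℕ) = 0 ∧ (j' : ℕ) = n - 1) ∨
          ((j' : ℕ) = 0 ∧ (j : ℕ) = n - 1)) ∧ i = i')) ↔ (j : ℕ) = j' := by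
      constructor
      · rintro (h | h)
        · exact h.2
        · exact absurd h.2 hii
      · intro h
        exact Or.inl ⟨hii, h⟩
    rw [e]
    fin_cases i <;> fin_cases i'
    · exact absurd rfl hii
    · exact interQ_01 hn j j' hj hj'
    · exact interQ_02 hn j j' hj hj'
    · rw [or_comm, eq_comm]; exact interQ_01 hn j' j hj' hj
    · exact absurd rfl hii
    · exact interQ_12 hn j j' hj hj'
    · rw [or_comm, eq_comm]; exact interQ_02 hn j' j hj' hj
    · rw [or_comm, eq_comm]; exact interQ_12 hn j' j hj' hj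
    · exact absurd rfl hii

end Q161.WordRep
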