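import Mathlib

/-!
# Zeckendorf digits of squares near Lucas numbers (MP_d0186b_co)
-/

namespace Pool.Agent.Q161.Zeck

open Nat List

/-- The number of terms of the Zeckendorf expansion of `n`. -/
def sZ (n : ℕ) : ℕ := (Nat.zeckendorf n).length

theorem isZ_iff (l : List ℕ) :
    l.IsZeckendorfRep ↔ l.Pairwise (fun a b => b + 2 ≤ a) ∧ ∀ a ∈ l, 2 ≤ a := by
  have : IsTrans ℕ (fun a b : ℕ => b + 2 ≤ a) := ⟨fun a b c h1 h2 => by omega⟩
  rw [List.IsZeckendorfRep, List.isChain_iff_pairwise, List.pairwise_append]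
  simp

theorem sZ_sum {l : List ℕ} (h : l.IsZeckendorfRep) : sZ (l.map fib).sum = l.length := by
  unfold sZ
  rw [Nat.zeckendorf_sum_fib h]

theorem mem_fib_le {l : List ℕ} {i : ℕ} (h : i ∈ l) : fib i ≤ (l.map fib).sum :=
  List.single_le_sum (by simp) _ (List.mem_map_of_mem h)

theorem mem_zeck_lt {m i u : ℕ} (h : i ∈ Nat.zeckendorf m) (hu : m < fib u) : i < u := by
  have h1 := mem_fib_le h
  rw [Nat.sum_zeckendorf_fib] at h1
  by_contra hc
  push Not at hc
  have := fib_mono hc
  omega

/-- The shift of Zeckendorf expansions. -/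
def sh (m : ℕ) : ℕ := ((Nat.zeckendorf m).map (fun i => fib (i + 1))).sum

theorem sZ_sh (m : ℕ) : sZ (sh m) = sZ m := by
  have h := (isZ_iff _).1 (Nat.isZeckendorfRep_zeckendorf m)
  have h2 : ((Nat.zeckendorf m).map (fun i => i + 1)).IsZeckendorfRep := by
    rw [isZ_iff]
    constructor
    · rw [List.pairwise_map]
      exact h.1.imp (fun {a b} hab => by omega)
    · intro a ha
      rw [List.mem_map] at ha
      obtain ⟨b, hb, rfl⟩ := ha
      have := h.2 b hb
      omega
  have h3 := sZ_sum h2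
  rw [List.map_map, List.length_map] at h3
  exact h3

/-- The golden ratio and the absolute value of its conjugate. -/
noncomputable def q : ℝ := -Real.goldenConj

theorem q_pos : 0 < q := by
  unfold q
  linarith [Real.goldenConj_neg]

theorem q_sq : q ^ 2 = 1 - q := by
  unfold q
  have := Real.goldenConj_sq
  nlinarith

theorem q_lt_one : q < 1 := by
  have h := Real.neg_one_lt_goldenConj
  unfold q
  linarith

theorem q_mul_phi : q * Real.goldenRatio = 1 := by
  have := Real.goldenConj_mul_goldenRatio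
  unfold q
  linarith

theorem abs_psi : |Real.goldenConj| = q := by
  unfold q
  rw [abs_of_neg Real.goldenConj_neg]

/-- The sum of the absolute values of the conjugates. -/
noncomputable def qsum (l : List ℕ) : ℝ := (l.map (fun i => q ^ i)).sum

noncomputable def psum (l : List ℕ) : ℝ := (l.map (fun i => Real.goldenConj ^ i)).sum

theorem abs_psum_le (l : List ℕ) : |psum l| ≤ qsum l := by
  induction l with
  | nil => simp [psum, qsum]
  | cons a l ih =>
    unfold psum qsum at ih ⊢
    rw [List.map_cons, List.map_cons, List.sum_cons, List.sum_cons]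
    refine le_trans (abs_add_le _ _) ?_
    rw [abs_pow, abs_psi]
    linarith

theorem qsum_le : ∀ (l : List ℕ) (e : ℕ), l.Pairwise (fun a b => b + 2 ≤ a) →
    (∀ a ∈ l, e + 1 ≤ a) → qsum l ≤ q ^ e ∧ ∀ a ∈ l.head?, qsum l ≤ q ^ e - q ^ (a + 1) := by
  intro l
  induction l with
  | nil =>
    intro e _ _
    refine ⟨?_, by simp⟩
    simp only [qsum, List.map_nil, List.sum_nil]
    exact (pow_pos q_pos e).le
  | cons a l ih =>
    intro e h1 h2
    rw [List.pairwise_cons] at h1
    have ha := h2 a (by simp)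
    have hstep : q ^ (a - 1) = q ^ a + q ^ (a + 1) := by
      obtain ⟨b, rfl⟩ : ∃ b, a = b + 1 := ⟨a - 1, by omega⟩
      rw [Nat.add_sub_cancel, pow_succ, pow_succ, pow_succ]
      have := q_sq
      have h5 : q ^ b * q * q = q ^ b * q ^ 2 := by ring
      rw [h5, this]
      ring
    have key : qsum (a :: l) ≤ q ^ e - q ^ (a + 1) := by
      have hq : qsum (a :: l) = q ^ a + qsum l := by
        unfold qsum
        rw [List.map_cons, List.sum_cons]
      rw [hq]
      have ihl := ih e h1.2 (fun b hb => h2 b (by simp [hb]))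
      cases l with
      | nil =>
        have h3 : q ^ (a - 1) ≤ q ^ e := by
          apply pow_le_pow_of_le_one q_pos.le q_lt_one.le
          omega
        simp only [qsum, List.map_nil, List.sum_nil]
        linarith
      | cons b l' =>
        have h4 := ihl.2 b (by simp)
        have hb : b + 2 ≤ a := h1.1 b (by simp)
        have h3 : q ^ (a - 1) ≤ q ^ (b + 1) := by
          apply pow_le_pow_of_le_one q_pos.le q_lt_one.le
          omega
        linarith
    refine ⟨?_, ?_⟩
    · have := pow_pos q_pos (a + 1)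
      linarith
    · intro c hc
      simp only [List.head?_cons, Option.mem_some_iff] at hc
      subst hc
      exact key

/-- A lower bound for the conjugate sum. -/
theorem le_psum : ∀ (l : List ℕ), l.Pairwise (fun a b => b + 2 ≤ a) → ∀ i ∈ l,
    q ^ (i + 2) ≤ |psum l| := by
  intro l
  induction l using List.reverseRecOn with
  | nil =>
    intro _ i hi
    simp at hi
  | append_singleton l e _ =>
    intro h1 i hi
    rw [List.pairwise_append] at h1
    have hl : ∀ a ∈ l, e + 2 ≤ a := fun a ha => h1.2.2 a ha e (by simp)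
    have h2 := (qsum_le l (e + 1) h1.1 (fun a ha => hl a ha)).1
    have h3 := abs_psum_le l
    have h4 : psum (l ++ [e]) = psum l + Real.goldenConj ^ e := by
      unfold psum
      rw [List.map_append, List.sum_append]
      simp
    have h5 : |Real.goldenConj ^ e| = q ^ e := by rw [abs_pow, abs_psi]
    have h6 : q ^ e - q ^ (e + 1) = q ^ (e + 2) := by
      rw [pow_succ, pow_add, q_sq]
      ring
    have h7 : q ^ (e + 2) ≤ |psum (l ++ [e])| := by
      rw [h4]
      have h8 := abs_sub_abs_le_abs_sub (Real.goldenConj ^ e) (-psum l)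
      rw [abs_neg, h5, sub_neg_eq_add, add_comm (Real.goldenConj ^ e)] at h8
      linarith
    refine le_trans ?_ h7
    apply pow_le_pow_of_le_one q_pos.le q_lt_one.le
    rw [List.mem_append, List.mem_singleton] at hi
    rcases hi with hi | hi
    · have := hl i hi
      omega
    · omega

theorem sh_sub (m : ℕ) : (sh m : ℝ) - Real.goldenRatio * m = psum (Nat.zeckendorf m) := by
  have h : (m : ℝ) = (((Nat.zeckendorf m).map fib).sum : ℕ) := by
    rw [Nat.sum_zeckendorf_fib]
  have key : ∀ l : List ℕ, (((l.map (fun i => fib (i + 1))).sum : ℕ) : ℝ) -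
      Real.goldenRatio * (((l.map fib).sum : ℕ) : ℝ) = psum l := by
    intro l
    induction l with
    | nil => simp [psum]
    | cons a l ih =>
      unfold psum at ih ⊢
      simp only [List.map_cons, List.sum_cons, Nat.cast_add]
      rw [← ih, ← Real.fib_succ_sub_goldenRatio_mul_fib]
      ring
  rw [h]
  exact key _

theorem psum_zeck_le (m : ℕ) : |psum (Nat.zeckendorf m)| ≤ q := by
  have h := (isZ_iff _).1 (Nat.isZeckendorfRep_zeckendorf m)
  have h1 := (qsum_le _ 1 h.1 (fun a ha => h.2 a ha)).1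
  rw [pow_one] at h1
  exact le_trans (abs_psum_le _) h1

theorem q_lt : q < 7 / 10 := by
  have h := q_sq
  have h0 := q_pos
  nlinarith

/-- If `M` is close to `φ m`, then `M` is the shift of `m`. -/
theorem sh_eq {m M : ℕ} (h : |(M : ℝ) - Real.goldenRatio * m| < 3 / 10) : sh m = M := by
  have h1 := psum_zeck_le m
  rw [← sh_sub] at h1
  have h2 := q_lt
  rw [abs_lt] at h
  rw [abs_le] at h1
  have h3 : (sh m : ℝ) < M + 1 := by linarith [h.1, h1.2]
  have h4 : (M : ℝ) < sh m + 1 := by linarith [h.2, h1.1]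
  have h5 : sh m < M + 1 := by exact_mod_cast h3
  have h6 : M < sh m + 1 := by exact_mod_cast h4
  omega

/-- The Lucas number `L_{k+1}`. -/
def H (k : ℕ) : ℕ := fib k + fib (k + 2)

theorem H_add (k : ℕ) : H k + H (k + 1) = H (k + 2) := by
  unfold H
  rw [show k + 2 + 2 = k + 4 by ring, show k + 1 + 2 = k + 3 by ring,
    fib_add_two (n := k), fib_add_two (n := k + 2), fib_add_two (n := k + 1),
    fib_add_two (n := k)]
  ring

theorem H_phi (k : ℕ) : (H (k + 1) : ℝ) - Real.goldenRatio * H k =
    Real.goldenConj ^ k * (1 + q ^ 2) := by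
  unfold H
  have h1 := Real.fib_succ_sub_goldenRatio_mul_fib k
  have h2 := Real.fib_succ_sub_goldenRatio_mul_fib (k + 2)
  have h3 : Real.goldenConj ^ (k + 2) = Real.goldenConj ^ k * q ^ 2 := by
    unfold q
    ring
  rw [h3] at h2
  push_cast
  rw [show k + 1 + 2 = k + 2 + 1 by ring]
  linarith

theorem abs_aux (n k : ℕ) : |2 * (n : ℝ) * (Real.goldenConj ^ k * (1 + q ^ 2))| ≤
    3 * n * q ^ k := by
  rw [abs_mul, abs_of_nonneg (by positivity : (0 : ℝ) ≤ 2 * n), abs_mul, abs_pow, abs_psi,
    abs_of_nonneg (by positivity : (0 : ℝ) ≤ 1 + q ^ 2), q_sq]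
  have h3 : (0 : ℝ) ≤ n * q ^ k := mul_nonneg (Nat.cast_nonneg _) (pow_nonneg q_pos.le _)
  have h4 : 2 * (1 + (1 - q)) ≤ 3 := by
    have := q_sq
    have := q_pos
    nlinarith
  nlinarith

/-- The shift of the Zeckendorf expansion of `2 n L_{k+1}`. -/
theorem sh_mul {n k : ℕ} (h : 3 * (n : ℝ) * q ^ k < 3 / 10) : sh (2 * n * H k) = 2 * n * H (k + 1) := by
  apply sh_eq
  have h1 := H_phi k
  have h2 : ((2 * n * H (k + 1) : ℕ) : ℝ) - Real.goldenRatio * ((2 * n * H k : ℕ) : ℝ) =
      2 * n * (Real.goldenConj ^ k * (1 + q ^ 2)) := by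
    rw [← h1]
    push_cast
    ring
  rw [h2]
  exact lt_of_le_of_lt (abs_aux n k) h

theorem low_index {n k i : ℕ} (h : 3 * (n : ℝ) * q ^ k < 3 / 10)
    (hi : i ∈ Nat.zeckendorf (2 * n * H k)) : q ^ (i + 2) ≤ 3 * n * q ^ k := by
  have h0 := (isZ_iff _).1 (Nat.isZeckendorfRep_zeckendorf (2 * n * H k))
  have h1 := le_psum _ h0.1 i hi
  rw [← sh_sub, sh_mul h] at h1
  have h1' := H_phi k
  have h2 : ((2 * n * H (k + 1) : ℕ) : ℝ) - Real.goldenRatio * ((2 * n * H k : ℕ) : ℝ) =
      2 * n * (Real.goldenConj ^ k * (1 + q ^ 2)) := by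
    rw [← h1']
    push_cast
    ring
  rw [h2] at h1
  exact le_trans h1 (abs_aux n k)

end Pool.Agent.Q161.Zeck
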