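import Pool.Agent.Q161.Zeck

/-!
# Zeckendorf digits of squares near Lucas numbers, II (MP_d0186b_co)
-/

namespace Pool.Agent.Q161.Zeck

open Nat List

theorem cassini (m : ℕ) : fib (2 * m + 1) * fib (2 * m + 3) = fib (2 * m + 2) ^ 2 + 1 ∧
    fib (2 * m + 2) * fib (2 * m + 4) + 1 = fib (2 * m + 3) ^ 2 := by
  induction m with
  | zero => decide
  | succ m ih =>
    have e3 : fib (2 * m + 3) = fib (2 * m + 1) + fib (2 * m + 2) := fib_add_two
    have e4 : fib (2 * m + 4) = fib (2 * m + 2) + fib (2 * m + 3) := fib_add_two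
    have e5 : fib (2 * m + 5) = fib (2 * m + 3) + fib (2 * m + 4) := fib_add_two
    have e6 : fib (2 * m + 6) = fib (2 * m + 4) + fib (2 * m + 5) := fib_add_two
    have g1 : fib (2 * m + 3) * fib (2 * m + 5) = fib (2 * m + 4) ^ 2 + 1 := by
      have h2 := ih.2
      rw [e5]
      rw [e4] at h2 ⊢
      nlinarith
    refine ⟨g1, ?_⟩
    show fib (2 * m + 4) * fib (2 * m + 6) + 1 = fib (2 * m + 5) ^ 2
    rw [e6]
    rw [e5] at g1 ⊢
    nlinarith

theorem H_sq_odd {k : ℕ} (hk : Odd k) : H k ^ 2 = fib (2 * k + 3) + fib (2 * k + 1) + 2 := by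
  obtain ⟨m, rfl⟩ := hk
  have h1 := fib_two_mul_add_one (2 * m + 1)
  have h2 := fib_two_mul_add_one (2 * m + 2)
  have h3 := (cassini m).1
  unfold H
  rw [show 2 * (2 * m + 1) + 3 = 2 * (2 * m + 2) + 1 by ring, h1, h2]
  rw [show 2 * m + 1 + 1 = 2 * m + 2 by ring, show 2 * m + 2 + 1 = 2 * m + 3 by ring,
    show 2 * m + 1 + 2 = 2 * m + 3 by ring]
  nlinarith

theorem H_sq_even {k : ℕ} (hk : Odd k) :
    H (k + 1) ^ 2 + 2 = fib (2 * (k + 1) + 3) + fib (2 * (k + 1) + 1) := by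
  obtain ⟨m, rfl⟩ := hk
  have h1 := fib_two_mul_add_one (2 * m + 2)
  have h2 := fib_two_mul_add_one (2 * m + 3)
  have h3 := (cassini m).2
  unfold H
  rw [show 2 * (2 * m + 1 + 1) + 3 = 2 * (2 * m + 3) + 1 by ring,
    show 2 * (2 * m + 1 + 1) + 1 = 2 * (2 * m + 2) + 1 by ring, h1, h2]
  rw [show 2 * m + 1 + 1 = 2 * m + 2 by ring, show 2 * m + 2 + 1 = 2 * m + 3 by ring,
    show 2 * m + 3 + 1 = 2 * m + 4 by ring, show 2 * m + 2 + 2 = 2 * m + 4 by ring]
  nlinarith

theorem sq_expand {k : ℕ} (hk : Odd k) (n : ℕ) :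
    (n + H k) ^ 2 = fib (2 * k + 3) + (fib (2 * k + 1) + (2 * n * H k + (n ^ 2 + 2))) := by
  have := H_sq_odd hk
  nlinarith

/-- The number of Zeckendorf digits of `(n + L_{k+1})²` when the parts are separated. -/
theorem sZ_sq {n k u : ℕ} (hk : Odd k) (hu : n ^ 2 + 2 < fib u)
    (h3 : 3 * (n : ℝ) * q ^ k < 3 / 10) (hlow : 3 * (n : ℝ) * q ^ k < q ^ (u + 2))
    (hup : 2 * n * H k < fib (2 * k)) (huk : u ≤ 2 * k) :
    sZ ((n + H k) ^ 2) = 2 + sZ (2 * n * H k) + sZ (n ^ 2 + 2) := by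
  set A := Nat.zeckendorf (2 * n * H k) with hA
  set B := Nat.zeckendorf (n ^ 2 + 2) with hB
  have hAz := (isZ_iff _).1 (Nat.isZeckendorfRep_zeckendorf (2 * n * H k))
  have hBz := (isZ_iff _).1 (Nat.isZeckendorfRep_zeckendorf (n ^ 2 + 2))
  rw [← hA] at hAz
  rw [← hB] at hBz
  have hB1 : ∀ b ∈ B, b < u := fun b hb => mem_zeck_lt hb hu
  have hA1 : ∀ a ∈ A, a < 2 * k := fun a ha => mem_zeck_lt ha hup
  have hA2 : ∀ a ∈ A, u + 1 ≤ a := by
    intro a ha
    have h1 := low_index h3 ha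
    by_contra hc
    have h2 : q ^ (u + 2) ≤ q ^ (a + 2) :=
      pow_le_pow_of_le_one q_pos.le q_lt_one.le (by omega)
    linarith
  have hz : ((2 * k + 3) :: (2 * k + 1) :: (A ++ B)).IsZeckendorfRep := by
    rw [isZ_iff]
    constructor
    · rw [List.pairwise_cons, List.pairwise_cons, List.pairwise_append]
      refine ⟨?_, ?_, hAz.1, hBz.1, ?_⟩
      · intro a ha
        simp only [List.mem_cons, List.mem_append] at ha
        rcases ha with rfl | ha | ha
        · omega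
        · have := hA1 a ha
          omega
        · have := hB1 a ha
          omega
      · intro a ha
        rw [List.mem_append] at ha
        rcases ha with ha | ha
        · have := hA1 a ha
          omega
        · have := hB1 a ha
          omega
      · intro a ha b hb
        have := hA2 a ha
        have := hB1 b hb
        omega
    · intro a ha
      simp only [List.mem_cons, List.mem_append] at ha
      have hk1 : 1 ≤ k := hk.pos
      rcases ha with rfl | rfl | ha | ha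
      · omega
      · omega
      · exact hAz.2 a ha
      · exact hBz.2 a ha
  have h := sZ_sum hz
  simp only [List.map_cons, List.sum_cons, List.map_append, List.sum_append, List.length_cons,
    List.length_append] at h
  rw [hA, hB, Nat.sum_zeckendorf_fib, Nat.sum_zeckendorf_fib] at h
  rw [sq_expand hk, h]
  unfold sZ
  ring

theorem half_lt_q : 1 / 2 < q := by
  have h := q_sq
  have h0 := q_pos
  nlinarith

theorem one_le_fib (g : ℕ) : 1 ≤ (fib (g + 2) : ℝ) * q ^ g ∧ 1 ≤ (fib (g + 3) : ℝ) * q ^ (g + 1) := by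
  induction g with
  | zero =>
    constructor
    · simp
    · have h3 : fib (0 + 3) = 2 := by decide
      rw [h3]
      have := half_lt_q
      push_cast
      linarith
  | succ g ih =>
    refine ⟨ih.2, ?_⟩
    have e : fib (g + 1 + 3) = fib (g + 2) + fib (g + 3) := fib_add_two
    rw [e]
    push_cast
    have h1 := ih.1
    have h2 := ih.2
    have e2 : ((fib (g + 2) : ℝ) + fib (g + 3)) * q ^ (g + 1 + 1) =
        ((fib (g + 2) : ℝ) * q ^ g) * q ^ 2 + ((fib (g + 3) : ℝ) * q ^ (g + 1)) * q := by ring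
    rw [e2]
    have hq := q_sq
    have h3 : q ^ 2 ≤ ((fib (g + 2) : ℝ) * q ^ g) * q ^ 2 := by
      have := sq_nonneg q
      nlinarith
    have h4 : q ≤ ((fib (g + 3) : ℝ) * q ^ (g + 1)) * q := by
      have := q_pos
      nlinarith
    linarith

theorem fib_le_one (g : ℕ) : (fib g : ℝ) * q ^ g ≤ 1 ∧ (fib (g + 1) : ℝ) * q ^ (g + 1) ≤ 1 := by
  induction g with
  | zero =>
    constructor
    · simp
    · simp only [zero_add, fib_one, Nat.cast_one, one_mul, pow_one]
      exact q_lt_one.le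
  | succ g ih =>
    refine ⟨ih.2, ?_⟩
    have e : fib (g + 1 + 1) = fib g + fib (g + 1) := fib_add_two
    rw [e]
    push_cast
    have h1 := ih.1
    have h2 := ih.2
    have e2 : ((fib g : ℝ) + fib (g + 1)) * q ^ (g + 1 + 1) =
        ((fib g : ℝ) * q ^ g) * q ^ 2 + ((fib (g + 1) : ℝ) * q ^ (g + 1)) * q := by ring
    rw [e2]
    have hq := q_sq
    have h3 : ((fib g : ℝ) * q ^ g) * q ^ 2 ≤ q ^ 2 := by
      have := sq_nonneg q
      nlinarith
    have h4 : ((fib (g + 1) : ℝ) * q ^ (g + 1)) * q ≤ q := by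
      have := q_pos
      nlinarith
    linarith

theorem q_five : 9 / 100 < q ^ 5 := by
  have h := q_sq
  have e : q ^ 5 = 5 * q - 3 := by
    have e3 : q ^ 3 = 2 * q - 1 := by
      have : q ^ 3 = q * q ^ 2 := by ring
      rw [this, h]
      nlinarith
    have : q ^ 5 = q ^ 3 * q ^ 2 := by ring
    rw [this, e3, h]
    nlinarith
  rw [e]
  have : 618 / 1000 < q := by
    have h0 := q_pos
    nlinarith
  linarith

theorem q_four : q ^ 4 < 15 / 100 := by
  have h := q_sq
  have e : q ^ 4 = 2 - 3 * q := by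
    have : q ^ 4 = q ^ 2 * q ^ 2 := by ring
    rw [this, h]
    nlinarith
  rw [e]
  have : 617 / 1000 < q := by
    have h0 := q_pos
    nlinarith
  linarith

/-- The separation conditions hold as soon as `100 n³ < φ^k`. -/
theorem exists_u {n k : ℕ} (hk : 5 ≤ k) (h : 100 * (n : ℝ) ^ 3 * q ^ k < 1) :
    3 * (n : ℝ) * q ^ k < 3 / 10 ∧ 2 * n * H k < fib (2 * k) ∧
    ∃ u, n ^ 2 + 2 < fib u ∧ 3 * (n : ℝ) * q ^ k < q ^ (u + 2) ∧ u ≤ 2 * k := by
  rcases Nat.eq_zero_or_pos n with rfl | hn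
  · refine ⟨by simp, by simp; omega, 4, by decide, ?_, by omega⟩
    simp only [Nat.cast_zero, mul_zero, zero_mul]
    exact pow_pos q_pos _
  have hn1 : (1 : ℝ) ≤ n := by exact_mod_cast hn
  have hqk : 0 < q ^ k := pow_pos q_pos k
  have hn3 : (n : ℝ) ≤ (n : ℝ) ^ 3 := by
    nlinarith [sq_nonneg ((n : ℝ) - 1), sq_nonneg (n : ℝ)]
  have hfib : 8 * n < fib k := by
    by_contra hc
    push Not at hc
    obtain ⟨j, rfl⟩ : ∃ j, k = j + 2 := ⟨k - 2, by omega⟩
    have h1 := (one_le_fib j).1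
    have h2 : (fib (j + 2) : ℝ) ≤ 8 * n := by exact_mod_cast hc
    have hqj : 0 < q ^ j := pow_pos q_pos j
    have h3 : 1 ≤ 8 * (n : ℝ) * q ^ j := by nlinarith
    have h4 : 1 ≤ (8 * (n : ℝ) * q ^ j) ^ 3 := one_le_pow₀ h3
    have h5 : (8 * (n : ℝ) * q ^ j) ^ 3 = 512 * ((n : ℝ) ^ 3 * q ^ (j + 2)) * q ^ (2 * j - 2) := by
      have : q ^ (j + 2) * q ^ (2 * j - 2) = (q ^ j) ^ 3 := by
        rw [← pow_add, ← pow_mul]
        congr 1
        omega
      calc (8 * (n : ℝ) * q ^ j) ^ 3 = 512 * (n : ℝ) ^ 3 * (q ^ j) ^ 3 := by ring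
        _ = _ := by rw [← this]; ring
    have h6 : q ^ (2 * j - 2) ≤ q ^ 4 := pow_le_pow_of_le_one q_pos.le q_lt_one.le (by omega)
    have h7 := q_four
    have h8 : 0 < (n : ℝ) ^ 3 * q ^ (j + 2) := by positivity
    have h9 : 512 * ((n : ℝ) ^ 3 * q ^ (j + 2)) < 512 / 100 := by linarith
    have h10 : 512 * ((n : ℝ) ^ 3 * q ^ (j + 2)) * q ^ (2 * j - 2) ≤
        512 * ((n : ℝ) ^ 3 * q ^ (j + 2)) * q ^ 4 := by
      apply mul_le_mul_of_nonneg_left h6
      positivity
    have h11 : 0 < q ^ 4 := pow_pos q_pos 4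
    nlinarith
  refine ⟨by nlinarith, ?_, ?_⟩
  · have h1 : H k ≤ 4 * fib k := by
      unfold H
      have e : fib (k + 2) = fib k + fib (k + 1) := fib_add_two
      obtain ⟨j, rfl⟩ : ∃ j, k = j + 1 := ⟨k - 1, by omega⟩
      have e2 : fib (j + 1 + 1) = fib j + fib (j + 1) := fib_add_two
      have e3 : fib j ≤ fib (j + 1) := fib_le_fib_succ
      omega
    have h2 : fib k * fib k ≤ fib (2 * k) := by
      rw [fib_two_mul]
      apply Nat.mul_le_mul_left
      have : fib k ≤ fib (k + 1) := fib_le_fib_succ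
      omega
    calc 2 * n * H k ≤ 2 * n * (4 * fib k) := Nat.mul_le_mul_left _ h1
      _ = (8 * n) * fib k := by ring
      _ < fib k * fib k := by
        apply Nat.mul_lt_mul_of_pos_right hfib
        omega
      _ ≤ _ := h2
  · set g := greatestFib (n ^ 2 + 2) with hg
    have hg1 : fib g ≤ n ^ 2 + 2 := fib_greatestFib_le _
    have hg2 : n ^ 2 + 2 < fib (g + 1) := lt_fib_greatestFib_add_one _
    have hg3 : 3 ≤ g := by
      rw [hg, le_greatestFib]
      have : fib 3 = 2 := by decide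
      omega
    obtain ⟨j, hj⟩ : ∃ j, g = j + 2 := ⟨g - 2, by omega⟩
    refine ⟨g + 1, hg2, ?_, ?_⟩
    · have h1 := (one_le_fib j).1
      rw [← hj] at h1
      have h2 : (fib g : ℝ) ≤ 3 * (n : ℝ) ^ 2 := by
        have : (fib g : ℝ) ≤ (n : ℝ) ^ 2 + 2 := by exact_mod_cast hg1
        nlinarith
      have hqj : 0 < q ^ j := pow_pos q_pos j
      have h3 : 1 ≤ 3 * (n : ℝ) ^ 2 * q ^ j := by nlinarith
      have h4 : q ^ (g + 1 + 2) = q ^ j * q ^ 5 := by
        rw [hj, ← pow_add]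
      rw [h4]
      have h5 := q_five
      have h6 : 9 * (n : ℝ) ^ 3 * q ^ k < 9 / 100 := by nlinarith
      -- 3 n q^k < q^j q^5
      by_contra hc
      push Not at hc
      have h7 : 3 * (n : ℝ) ^ 2 * (q ^ j * q ^ 5) ≤ 3 * (n : ℝ) ^ 2 * (3 * n * q ^ k) := by
        apply mul_le_mul_of_nonneg_left hc
        positivity
      have h8 : q ^ 5 ≤ 3 * (n : ℝ) ^ 2 * q ^ j * q ^ 5 := by
        have : 0 < q ^ 5 := pow_pos q_pos 5
        nlinarith
      nlinarith
    · -- g + 1 ≤ 2 k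
      have h1 : n ^ 2 + 2 < fib (2 * k) := by
        have h2 : fib k * fib k ≤ fib (2 * k) := by
          rw [fib_two_mul]
          apply Nat.mul_le_mul_left
          have : fib k ≤ fib (k + 1) := fib_le_fib_succ
          omega
        nlinarith
      have h3 : g < 2 * k := by
        rw [hg, greatestFib_lt]
        exact h1
      omega

theorem cond_succ {n k : ℕ} (h : 100 * (n : ℝ) ^ 3 * q ^ k < 1) :
    100 * (n : ℝ) ^ 3 * q ^ (k + 1) < 1 := by
  have h1 : 0 ≤ 100 * (n : ℝ) ^ 3 * q ^ k := by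
    have := q_pos
    positivity
  have h2 := q_lt_one
  have h3 := q_pos
  have e : 100 * (n : ℝ) ^ 3 * q ^ (k + 1) = 100 * (n : ℝ) ^ 3 * q ^ k * q := by ring
  rw [e]
  nlinarith

/-- The sequences after `L_{k+1}` and `L_{k+3}` agree for a long time. -/
theorem agree {n k : ℕ} (hk : Odd k) (hk5 : 5 ≤ k) (h : 100 * (n : ℝ) ^ 3 * q ^ k < 1) :
    sZ ((H k + n) ^ 2) = sZ ((H (k + 2) + n) ^ 2) := by
  obtain ⟨a1, a2, u, a3, a4, a5⟩ := exists_u hk5 h
  have h1 := cond_succ h
  have h2 := cond_succ h1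
  obtain ⟨b1, _, _⟩ := exists_u (show 5 ≤ k + 1 by omega) h1
  obtain ⟨c1, c2, v, c3, c4, c5⟩ := exists_u (show 5 ≤ k + 1 + 1 by omega) h2
  rw [add_comm (H k) n, add_comm (H (k + 2)) n, sZ_sq hk a3 a1 a4 a2 a5,
    sZ_sq (k := k + 1 + 1) (hk.add_even even_two) c3 c1 c4 c2 c5]
  have e1 : sZ (2 * n * H (k + 1)) = sZ (2 * n * H k) := by
    rw [← sh_mul a1, sZ_sh]
  have e2 : sZ (2 * n * H (k + 1 + 1)) = sZ (2 * n * H (k + 1)) := by
    rw [← sh_mul b1, sZ_sh]
  rw [e2, e1]

/-! ### The disagreement -/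

/-- The indices `2j+2, 2j, …, 4`. -/
def ev : ℕ → List ℕ
  | 0 => []
  | j + 1 => (2 * j + 4) :: ev j

theorem ev_mem : ∀ j, ∀ a ∈ ev j, 4 ≤ a ∧ a ≤ 2 * j + 2
  | 0 => by simp [ev]
  | j + 1 => by
    intro a ha
    simp only [ev, List.mem_cons] at ha
    rcases ha with rfl | ha
    · omega
    · have := ev_mem j a ha
      omega

theorem ev_pairwise : ∀ j, (ev j).Pairwise (fun a b => b + 2 ≤ a)
  | 0 => by simp [ev]
  | j + 1 => by
    rw [ev, List.pairwise_cons]
    exact ⟨fun a ha => by have := ev_mem j a ha; omega, ev_pairwise j⟩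

theorem ev_length : ∀ j, (ev j).length = j
  | 0 => rfl
  | j + 1 => by rw [ev, List.length_cons, ev_length j]

theorem ev_sum : ∀ j, ((ev j).map fib).sum + 2 = fib (2 * j + 3)
  | 0 => by decide
  | j + 1 => by
    rw [ev, List.map_cons, List.sum_cons, add_assoc, ev_sum j]
    have e : fib (2 * (j + 1) + 3) = fib (2 * j + 3) + fib (2 * j + 4) := fib_add_two
    rw [e]
    ring

theorem sZ_H_odd {k : ℕ} (hk : Odd k) (hk5 : 5 ≤ k) : sZ (H k ^ 2) = 3 := by
  have hz : ([2 * k + 3, 2 * k + 1, 3] : List ℕ).IsZeckendorfRep := by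
    rw [isZ_iff]
    constructor
    · simp
      omega
    · intro a ha
      simp only [List.mem_cons, List.not_mem_nil, or_false] at ha
      omega
  have h := sZ_sum hz
  have e : (([2 * k + 3, 2 * k + 1, 3] : List ℕ).map fib).sum = H k ^ 2 := by
    rw [H_sq_odd hk]
    have : fib 3 = 2 := by decide
    simp [this]
    ring
  rw [e] at h
  exact h

theorem sZ_H_even {k : ℕ} (hk : Odd k) : sZ (H (k + 1) ^ 2) = k + 1 := by
  have hz : ((2 * (k + 1) + 3) :: ev k).IsZeckendorfRep := by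
    rw [isZ_iff]
    constructor
    · rw [List.pairwise_cons]
      refine ⟨fun a ha => ?_, ev_pairwise k⟩
      have := ev_mem k a ha
      omega
    · intro a ha
      rw [List.mem_cons] at ha
      rcases ha with rfl | ha
      · omega
      · have := ev_mem k a ha
        omega
  have h := sZ_sum hz
  have e : (((2 * (k + 1) + 3) :: ev k).map fib).sum = H (k + 1) ^ 2 := by
    rw [List.map_cons, List.sum_cons]
    have h1 := ev_sum k
    have h2 := H_sq_even hk
    rw [show 2 * (k + 1) + 1 = 2 * k + 3 by ring] at h2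
    omega
  rw [e, List.length_cons, ev_length] at h
  exact h

end Pool.Agent.Q161.Zeck
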