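import Pool.Agent.Q161.Zeck2

/-!
# Maximum order complexity of the Zeckendorf digit parity of squares (MP_d0186b_co)
-/

namespace Pool.Agent.Q161.Zeck

open Nat

/-- The maximum order complexity of the first `N` terms of the sequence `s`. -/
noncomputable def MOC (s : ℕ → ZMod 2) (N : ℕ) : ℕ :=
  open Classical in
  if ∀ i, i + 2 ≤ N → s i = s 0 then (if s (N - 1) = s 0 then 0 else N - 1)
  else sInf {M : ℕ | 0 < M ∧ ∃ f : (Fin M → ZMod 2) → ZMod 2,
    ∀ i : ℕ, i + M + 1 ≤ N → s (i + M) = f (fun j => s (i + j))}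

/-- The sequence `s_Z(P(n)) mod 2`. -/
noncomputable def seqP (P : Polynomial ℤ) (n : ℕ) : ZMod 2 := (sZ (P.eval (n : ℤ)).toNat : ZMod 2)

theorem le_MOC {s : ℕ → ZMod 2} {N a b T : ℕ} (hagree : ∀ i < T, s (a + i) = s (b + i))
    (hdis : s (a + T) ≠ s (b + T)) (hab : a < b) (hN : b + T + 1 ≤ N)
    (hnc : ¬ ∀ i, i + 2 ≤ N → s i = s 0) : T + 1 ≤ MOC s N := by
  unfold MOC
  rw [if_neg hnc]
  apply le_csInf
  · refine ⟨N, by omega, fun _ => 0, fun i hi => ?_⟩
    omega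
  · rintro M ⟨hM, f, hf⟩
    by_contra hc
    push Not at hc
    have h1 := hf (a + T - M) (by omega)
    have h2 := hf (b + T - M) (by omega)
    apply hdis
    rw [show a + T - M + M = a + T by omega] at h1
    rw [show b + T - M + M = b + T by omega] at h2
    rw [h1, h2]
    congr 1
    funext j
    have h3 := hagree (T - M + j) (by omega)
    rw [show a + (T - M + (j : ℕ)) = a + T - M + j by omega,
      show b + (T - M + (j : ℕ)) = b + T - M + j by omega] at h3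
    exact h3

theorem seqP_sq (n : ℕ) : seqP (Polynomial.X ^ 2) n = (sZ (n ^ 2) : ZMod 2) := by
  unfold seqP
  have : ((Polynomial.X ^ 2 : Polynomial ℤ).eval (n : ℤ)).toNat = n ^ 2 := by
    simp only [Polynomial.eval_pow, Polynomial.eval_X]
    exact_mod_cast Int.toNat_natCast (n ^ 2)
  rw [this]

theorem not_const {N : ℕ} (hN : 3 ≤ N) :
    ¬ ∀ i, i + 2 ≤ N → seqP (Polynomial.X ^ 2) i = seqP (Polynomial.X ^ 2) 0 := by
  intro h
  have h1 := h 1 (by omega)
  rw [seqP_sq, seqP_sq] at h1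
  have e1 : sZ (1 ^ 2) = 1 := by
    have hz : ([2] : List ℕ).IsZeckendorfRep := by
      rw [isZ_iff]
      simp
    have := sZ_sum hz
    simpa using this
  have e0 : sZ (0 ^ 2) = 0 := by
    unfold sZ
    simp
  rw [e1, e0] at h1
  exact absurd h1 (by decide)

theorem H_le (m : ℕ) : (H m : ℝ) * q ^ (m + 2) ≤ 2 := by
  unfold H
  have h1 := (fib_le_one m).1
  have h2 := (fib_le_one (m + 2)).1
  have h3 := q_sq
  have h4 := q_pos
  have h5 : (0 : ℝ) ≤ (fib m : ℝ) * q ^ m := by positivity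
  push_cast
  have e : ((fib m : ℝ) + fib (m + 2)) * q ^ (m + 2) =
      ((fib m : ℝ) * q ^ m) * q ^ 2 + (fib (m + 2) : ℝ) * q ^ (m + 2) := by ring
  rw [e, h3]
  nlinarith

theorem cubic_bound {N : ℕ} (hN : H 8 + 1 ≤ N) :
    (N : ℝ) ≤ 27000 * (MOC (seqP (Polynomial.X ^ 2)) N : ℝ) ^ 3 := by
  have h8 : H 8 = 76 := by decide
  -- the choice of the Lucas number
  obtain ⟨m, hm1, hm2⟩ : ∃ m, H (2 * m + 8) + 1 ≤ N ∧ N ≤ H (2 * m + 10) := by
    have hex : ∃ j, N ≤ H (2 * j + 8) := by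
      refine ⟨N, ?_⟩
      unfold H
      have := le_fib_add_one (2 * N + 8 + 2)
      omega
    classical
    have h1 := Nat.find_spec hex
    rcases Nat.eq_zero_or_pos (Nat.find hex) with h0 | h0
    · rw [h0] at h1
      simp only [mul_zero, zero_add] at h1
      omega
    · have h2 := Nat.find_min hex (m := Nat.find hex - 1) (by omega)
      refine ⟨Nat.find hex - 1, by omega, ?_⟩
      rw [show 2 * (Nat.find hex - 1) + 10 = 2 * Nat.find hex + 8 by omega]
      exact h1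
  set k := 2 * m + 5 with hk
  have hkodd : Odd k := ⟨m + 2, by omega⟩
  have hk5 : 5 ≤ k := by omega
  -- the first disagreement
  have hex : ∃ T, seqP (Polynomial.X ^ 2) (H k + T) ≠ seqP (Polynomial.X ^ 2) (H (k + 2) + T) := by
    refine ⟨H (k + 1), ?_⟩
    rw [seqP_sq, seqP_sq, H_add k, add_comm (H (k + 2)), H_add (k + 1),
      sZ_H_odd (hkodd.add_even even_two) (by omega),
      show k + 1 + 2 = (k + 2) + 1 by ring, sZ_H_even (hkodd.add_even even_two)]
    have h1 : ((k + 2 + 1 : ℕ) : ZMod 2) = 0 := by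
      rw [ZMod.natCast_eq_zero_iff]
      omega
    rw [h1]
    decide
  classical
  set T := Nat.find hex with hT
  have hTs : seqP (Polynomial.X ^ 2) (H k + T) ≠ seqP (Polynomial.X ^ 2) (H (k + 2) + T) :=
    Nat.find_spec hex
  have hTle : T ≤ H (k + 1) := by
    apply Nat.find_min'
    rw [seqP_sq, seqP_sq, H_add k, add_comm (H (k + 2)), H_add (k + 1),
      sZ_H_odd (hkodd.add_even even_two) (by omega),
      show k + 1 + 2 = (k + 2) + 1 by ring, sZ_H_even (hkodd.add_even even_two)]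
    have h1 : ((k + 2 + 1 : ℕ) : ZMod 2) = 0 := by
      rw [ZMod.natCast_eq_zero_iff]
      omega
    rw [h1]
    decide
  have hag : ∀ i < T, seqP (Polynomial.X ^ 2) (H k + i) = seqP (Polynomial.X ^ 2) (H (k + 2) + i) := by
    intro i hi
    have := Nat.find_min hex hi
    push Not at this
    exact this
  have hb : H (k + 2) + T + 1 ≤ N := by
    have h1 := H_add (k + 1)
    rw [show k + 1 + 1 = k + 2 by ring, show k + 1 + 2 = 2 * m + 8 by omega] at h1
    omega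
  have hab : H k < H (k + 2) := by
    have h1 := H_add k
    have h2 : 0 < H (k + 1) := by
      unfold H
      have : 0 < fib (k + 1) := fib_pos.2 (by omega)
      omega
    omega
  have hM := le_MOC hag hTs hab hb (not_const (by omega))
  have hT3 : 1 ≤ 100 * (T : ℝ) ^ 3 * q ^ k := by
    by_contra hc
    push Not at hc
    apply hTs
    rw [seqP_sq, seqP_sq, agree hkodd hk5 hc]
  have hH := H_le (2 * m + 10)
  have hN' : (N : ℝ) ≤ H (2 * m + 10) := by exact_mod_cast hm2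
  have hq7 : (1 / 128 : ℝ) ≤ q ^ 7 := by
    have := half_lt_q
    calc (1 / 128 : ℝ) = (1 / 2) ^ 7 := by norm_num
      _ ≤ q ^ 7 := pow_le_pow_left₀ (by norm_num) this.le 7
  have hqk : 0 < q ^ k := pow_pos q_pos k
  have e : q ^ (2 * m + 10 + 2) = q ^ k * q ^ 7 := by
    rw [← pow_add]
  rw [e] at hH
  have hN0 : (0 : ℝ) ≤ N := Nat.cast_nonneg _
  have h1 : (N : ℝ) * (q ^ k * q ^ 7) ≤ 2 := by
    refine le_trans (mul_le_mul_of_nonneg_right hN' ?_) hH
    have := q_pos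
    positivity
  have h2 : (N : ℝ) * q ^ k ≤ 256 := by
    have : (N : ℝ) * q ^ k * (1 / 128) ≤ (N : ℝ) * q ^ k * q ^ 7 :=
      mul_le_mul_of_nonneg_left hq7 (by positivity)
    nlinarith
  have hT0 : (0 : ℝ) ≤ (T : ℝ) ^ 3 := by positivity
  have h3 : (N : ℝ) ≤ 25600 * (T : ℝ) ^ 3 := by
    have h4 : (N : ℝ) * 1 ≤ (N : ℝ) * (100 * (T : ℝ) ^ 3 * q ^ k) :=
      mul_le_mul_of_nonneg_left hT3 hN0
    have h5 : (N : ℝ) * (100 * (T : ℝ) ^ 3 * q ^ k) = 100 * (T : ℝ) ^ 3 * ((N : ℝ) * q ^ k) := by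
      ring
    rw [h5] at h4
    nlinarith
  have h4 : (T : ℝ) ≤ (MOC (seqP (Polynomial.X ^ 2)) N : ℝ) := by
    exact_mod_cast (by omega : T ≤ MOC (seqP (Polynomial.X ^ 2)) N)
  have h5 : (T : ℝ) ^ 3 ≤ (MOC (seqP (Polynomial.X ^ 2)) N : ℝ) ^ 3 :=
    pow_le_pow_left₀ (Nat.cast_nonneg _) h4 3
  nlinarith

theorem cube_root_bound {N : ℕ} (hN : H 8 + 1 ≤ N) :
    (1 / 30 : ℝ) * (N : ℝ) ^ (1 / 3 : ℝ) ≤ MOC (seqP (Polynomial.X ^ 2)) N := by
  have h := cubic_bound hN
  set M := (MOC (seqP (Polynomial.X ^ 2)) N : ℝ) with hM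
  have hM0 : 0 ≤ M := Nat.cast_nonneg _
  have h1 : (N : ℝ) ≤ (30 * M) ^ 3 := by
    calc (N : ℝ) ≤ 27000 * M ^ 3 := h
      _ = (30 * M) ^ 3 := by ring
  have h2 : (N : ℝ) ^ (1 / 3 : ℝ) ≤ ((30 * M) ^ 3) ^ (1 / 3 : ℝ) :=
    Real.rpow_le_rpow (Nat.cast_nonneg _) h1 (by norm_num)
  have h3 : ((30 * M) ^ 3) ^ (1 / 3 : ℝ) = 30 * M := by
    rw [← Real.rpow_natCast (30 * M) 3, ← Real.rpow_mul (by positivity)]
    norm_num
  rw [h3] at h2
  linarith

end Pool.Agent.Q161.Zeck
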